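import Pool.Agent.MGS.TC

/-!
# MGS, target ALG: pointwise algebra of the magnetic energy
-/

set_option autoImplicit false

open MeasureTheory Filter Topology Metric Set
open scoped ENNReal NNReal ContDiff

noncomputable section

namespace MGS

theorem ALG_real (g h W k q : ℝ) (hW : |W| ≤ g * h) (hk : 0 ≤ k) (hk1 : k ≤ 1) :
    2 * k * W + 2 * (1 - k ^ 2) * q * g - (1 - k ^ 2) * q ^ 2 ≤ g ^ 2 + h ^ 2 ∧
    (2 * k * W + 2 * (1 - k ^ 2) * q * g - (1 - k ^ 2) * q ^ 2 = g ^ 2 + h ^ 2 → k < 1 →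
      g = q ∧ h = k * q ∧ (0 < k → W = g * h)) := by
  have hW' : W ≤ g * h := (le_abs_self W).trans hW
  have e1 : g ^ 2 + h ^ 2 - (2 * k * W + 2 * (1 - k ^ 2) * q * g - (1 - k ^ 2) * q ^ 2) =
      (h - k * g) ^ 2 + (1 - k ^ 2) * (g - q) ^ 2 + 2 * k * (g * h - W) := by ring
  have n1 : 0 ≤ (h - k * g) ^ 2 := sq_nonneg _
  have hk2 : 0 ≤ 1 - k ^ 2 := by nlinarith
  have n2 : 0 ≤ (1 - k ^ 2) * (g - q) ^ 2 := mul_nonneg hk2 (sq_nonneg _)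
  have n3 : 0 ≤ 2 * k * (g * h - W) :=
    mul_nonneg (mul_nonneg (by norm_num) hk) (sub_nonneg.2 hW')
  refine ⟨by linarith, fun heq hlt => ?_⟩
  have z : (h - k * g) ^ 2 + (1 - k ^ 2) * (g - q) ^ 2 + 2 * k * (g * h - W) = 0 := by
    rw [← e1, heq, sub_self]
  have z1 : (h - k * g) ^ 2 = 0 := by linarith
  have z2 : (1 - k ^ 2) * (g - q) ^ 2 = 0 := by linarith
  have z3 : 2 * k * (g * h - W) = 0 := by linarith
  have hpos : 0 < 1 - k ^ 2 := by nlinarith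
  have z2' : g - q = 0 := by
    rcases mul_eq_zero.1 z2 with h0 | h0
    · exact absurd h0 hpos.ne'
    · exact pow_eq_zero_iff (two_ne_zero) |>.1 h0
  have z1' : h - k * g = 0 := pow_eq_zero_iff (two_ne_zero) |>.1 z1
  have hgq : g = q := sub_eq_zero.1 z2'
  refine ⟨hgq, ?_, fun hkp => ?_⟩
  · rw [← hgq]
    exact sub_eq_zero.1 z1'
  · rcases mul_eq_zero.1 z3 with h0 | h0
    · exact absurd h0 (by positivity)
    · linarith

theorem p_ALG : T_ALG := by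
  intro B a b Fa Fb x hf
  obtain ⟨f, hfd⟩ : ∃ f : ℝ, f = md a b x := ⟨_, rfl⟩
  have hf2 : f ^ 2 = a x ^ 2 + b x ^ 2 := by
    rw [hfd]
    exact Real.sq_sqrt (by positivity)
  have hf0 : f ≠ 0 := by rw [hfd]; exact hf.ne'
  have hfp : 0 < f := by rw [hfd]; exact hf
  obtain ⟨m0, hm0⟩ : ∃ m : ℝ, m = mg a b Fa Fb 0 x := ⟨_, rfl⟩
  obtain ⟨m1, hm1⟩ : ∃ m : ℝ, m = mg a b Fa Fb 1 x := ⟨_, rfl⟩
  obtain ⟨j0, hj0⟩ : ∃ m : ℝ, m = jc B a b Fa Fb 0 x := ⟨_, rfl⟩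
  obtain ⟨j1, hj1⟩ : ∃ m : ℝ, m = jc B a b Fa Fb 1 x := ⟨_, rfl⟩
  have hg : gn (mg a b Fa Fb) x = Real.sqrt (m0 ^ 2 + m1 ^ 2) := by
    rw [hm0, hm1]
    rfl
  have hh : hc B a b Fa Fb x = Real.sqrt (j0 ^ 2 + j1 ^ 2) / f := by
    rw [hj0, hj1, hfd]
    rfl
  have hW : Wc B a b Fa Fb x = (j0 * m1 - j1 * m0) / f := by
    rw [hj0, hj1, hm0, hm1, hfd]
    rfl
  have hg2 : gn (mg a b Fa Fb) x ^ 2 = m0 ^ 2 + m1 ^ 2 := by
    rw [hg]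
    exact Real.sq_sqrt (by positivity)
  have hh2 : hc B a b Fa Fb x ^ 2 = (j0 ^ 2 + j1 ^ 2) / f ^ 2 := by
    rw [hh, div_pow, Real.sq_sqrt (by positivity)]
  have hm0' : m0 * f = a x * Fa 0 x + b x * Fb 0 x := by
    rw [hm0, mg, ← hfd, div_mul_cancel₀ _ hf0]
  have hm1' : m1 * f = a x * Fa 1 x + b x * Fb 1 x := by
    rw [hm1, mg, ← hfd, div_mul_cancel₀ _ hf0]
  have key : eq2 B a b Fa Fb x = gn (mg a b Fa Fb) x ^ 2 + hc B a b Fa Fb x ^ 2 := by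
    rw [hg2, hh2, ← mul_left_inj' (pow_ne_zero 2 hf0)]
    have e1 : (m0 ^ 2 + m1 ^ 2 + (j0 ^ 2 + j1 ^ 2) / f ^ 2) * f ^ 2 =
        (m0 * f) ^ 2 + (m1 * f) ^ 2 + (j0 ^ 2 + j1 ^ 2) := by
      field_simp
    rw [e1, hm0', hm1', hf2, hj0, hj1]
    unfold eq2 jc
    rw [Fin.sum_univ_two]
    ring
  have hCS : |Wc B a b Fa Fb x| ≤ gn (mg a b Fa Fb) x * hc B a b Fa Fb x := by
    have hn : 0 ≤ gn (mg a b Fa Fb) x * hc B a b Fa Fb x := by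
      rw [hg, hh]
      positivity
    refine abs_le_of_sq_le_sq ?_ hn
    rw [mul_pow, hg2, hh2, hW, div_pow, ← mul_div_assoc]
    refine div_le_div_of_nonneg_right ?_ (by positivity)
    nlinarith [sq_nonneg (j0 * m0 + j1 * m1)]
  refine ⟨key, hCS, fun k q hk hk1 _ => ?_⟩
  rw [key]
  exact ALG_real _ _ _ k q hCS hk hk1

end MGS
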