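import Pool.Agent.MGS.Core

/-!
# MGS: targets A (Sobolev calculus, existence of ground states)

Each target is a proposition `T_XXX`; its docstring contains the complete proof.  Other targets
(those named after `from`, or others as long as no circle arises) may be taken as hypotheses.
Everything proved in `Core.lean` may be used (`H1.closure`, `H1.lim`, `H1.seq`, `H1.add`, ...).
Norms: `‖g‖` in the docstrings is the `L²` norm; `∇φ = (pd e i φ)_i`.
-/

set_option autoImplicit false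

open MeasureTheory Filter Topology Metric Set
open scoped ENNReal NNReal ContDiff

noncomputable section

namespace MGS

/-! ### Calculus in `H¹₀(G)` -/

/-- LIP.  Lipschitz functions with compact support.  Let `η_n` be a `ContDiffBump` at `0` with
outer radius `→ 0`, normed.  `φ_n = η_n ⋆ φ` (convolution) is smooth with compact support inside
the closed `ε_n`-neighbourhood of `tsupport φ`, which is in the open set `G` for large `n`
(compactness).  `φ_n → φ` uniformly (Lipschitz), all supports in a fixed compact set, so in `L²`.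
`fderiv φ_n P v = ∫ η_n (t) fderiv φ (P - t) v dt`: for fixed `P` the function `φ` is
differentiable at `P - t` for a.e. `t` (`LipschitzWith.ae_differentiableAt`), differentiate under
the integral (`hasFDerivAt_integral_of_dominated_loc_of_lip'`, or line derivatives).  The function
`pd e i φ` is bounded, measurable (`measurable_fderiv_apply_const`), with compact support; its
mollifications converge a.e. (`ContDiffBump.ae_convolution_tendsto_right_of_locallyIntegrable`)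
and are uniformly bounded with supports in a fixed compact set, so converge in `L²`
(dominated convergence).  Conclude with `H1.lim`. -/
def T_LIP : Prop := ∀ (E : Type) [NormedAddCommGroup E] [NormedSpace ℝ E] [FiniteDimensional ℝ E]
  [MeasureSpace E] [BorelSpace E] [(volume : Measure E).IsAddHaarMeasure] (ι : Type) [Finite ι]
  (e : ι → E) (G : Set E) (φ : E → ℝ), IsOpen G → LTest G φ → H1 e G φ (fun i => pd e i φ)

/-- BCC (from LIP).  Chain rule, continuous derivative.  `N s = ∫_0^s η` is `C^1`, `N 0 = 0`,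
Lipschitz.  For a test function `φ` the function `N ∘ φ` is in `LTest G` (`N 0 = 0`, so
`tsupport (N ∘ φ) ⊆ tsupport φ`; composition of Lipschitz functions: `φ` is Lipschitz as it is
`C^1` with compact support), and `pd e i (N ∘ φ) = η (φ) pd e i φ`.  Take `φ_n` from `H1.seq`:
`|N φ_n - N f| ≤ K |φ_n - f|`, and
`‖η(φ_n) pd φ_n - η(f) F‖ ≤ K ‖pd φ_n - F‖ + ‖(η(φ_n) - η(f)) F‖`, the last term tends to `0` by
dominated convergence (a.e. convergence of `φ_n`).  `H1.lim`. -/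
def T_BCC : Prop := ∀ (E : Type) [NormedAddCommGroup E] [NormedSpace ℝ E] [FiniteDimensional ℝ E]
  [MeasureSpace E] [BorelSpace E] [(volume : Measure E).IsAddHaarMeasure] (ι : Type) [Finite ι]
  (e : ι → E) (G : Set E) (f : E → ℝ) (F : ι → E → ℝ) (η : ℝ → ℝ) (K : ℝ), IsOpen G →
  H1 e G f F → Continuous η → (∀ s, |η s| ≤ K) →
  H1 e G (fun P => ∫ t in (0 : ℝ)..(f P), η t) (fun i P => η (f P) * F i P)

/-- BCH (from BCC).  Chain rule, bounded Borel derivative.  The measure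
`μ = volume + ∑ i, (F i ^ 2 dP).map f` on `ℝ` (for measurable representatives of `f, F`) is
locally finite.  For `n ≥ 1` there is a continuous `η_n`, `|η_n| ≤ K`, with
`∫_{[-n, n]} |η_n - η|² dμ ≤ 1/n²` (density of bounded continuous functions in `L²` of a finite
measure, `MemLp.exists_boundedContinuous_eLpNorm_sub_le`; truncate at `± K`).  Then
`|N_n s - N s| ≤ ∫_{[-n,n]} |η_n - η| ≤ (2n)^(1/2) / n` for `|s| ≤ n`, and `≤ 2 K |s|` always, so
`N_n (f) → N (f)` in `L²` (dominated by `2 K |f|`); `∫ |η_n(f) - η(f)|² F_i² ≤ 1/n² +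
4 K² ∫_{|f| > n} F_i² → 0`.  `H1.lim`. -/
def T_BCH : Prop := ∀ (E : Type) [NormedAddCommGroup E] [NormedSpace ℝ E] [FiniteDimensional ℝ E]
  [MeasureSpace E] [BorelSpace E] [(volume : Measure E).IsAddHaarMeasure] (ι : Type) [Finite ι]
  (e : ι → E) (G : Set E) (f : E → ℝ) (F : ι → E → ℝ) (η : ℝ → ℝ) (K : ℝ), IsOpen G →
  H1 e G f F → Measurable η → (∀ s, |η s| ≤ K) →
  H1 e G (fun P => ∫ t in (0 : ℝ)..(f P), η t) (fun i P => η (f P) * F i P)

/-- IBH.  Integration by parts.  For test functions `φ, ψ`: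
`integral_mul_fderiv_eq_neg_fderiv_mul_of_integrable`.  Both sides are continuous in `L²`: fix
`ψ` and let `φ_n → f` (`H1.seq`), then let `ψ_n → g`. -/
def T_IBH : Prop := ∀ (E : Type) [NormedAddCommGroup E] [NormedSpace ℝ E] [FiniteDimensional ℝ E]
  [MeasureSpace E] [BorelSpace E] [(volume : Measure E).IsAddHaarMeasure] (ι : Type) [Finite ι]
  (e : ι → E) (G G' : Set E) (f g : E → ℝ) (F Fg : ι → E → ℝ), H1 e G f F → H1 e G' g Fg →
  ∀ i, ∫ P, f P * Fg i P = -∫ P, F i P * g P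

/-- UNI (from IBH).  Uniqueness of the gradient: `∫ (F i - F' i) ψ = 0` for all test functions
`ψ` (IBH with `Test.h1`), so `F i = F' i` a.e. (`ae_eq_zero_of_integral_contDiff_smul_eq_zero` or
`ae_eq_of_integral_contDiff_smul_eq`; `L²` functions are locally integrable). -/
def T_UNI : Prop := ∀ (E : Type) [NormedAddCommGroup E] [NormedSpace ℝ E] [FiniteDimensional ℝ E]
  [MeasureSpace E] [BorelSpace E] [(volume : Measure E).IsAddHaarMeasure] (ι : Type) [Finite ι]
  (e : ι → E) (G G' : Set E) (f g : E → ℝ) (F Fg : ι → E → ℝ), H1 e G f F → H1 e G' g Fg →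
  f =ᵐ[volume] g → ∀ i, F i =ᵐ[volume] Fg i

/-- NUL (from BCH, UNI).  The gradient vanishes on the inverse image of a null set.  WLOG `S` is
measurable (`toMeasurable`).  BCH with `η` the indicator of `S`: `∫_0^s η = 0` for all `s`, so the
function `0` has gradient `1_S(f) F`; compare with `H1.zero`. -/
def T_NUL : Prop := ∀ (E : Type) [NormedAddCommGroup E] [NormedSpace ℝ E] [FiniteDimensional ℝ E]
  [MeasureSpace E] [BorelSpace E] [(volume : Measure E).IsAddHaarMeasure] (ι : Type) [Finite ι]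
  (e : ι → E) (G : Set E) (f : E → ℝ) (F : ι → E → ℝ) (S : Set ℝ), IsOpen G → H1 e G f F →
  volume S = 0 → ∀ i, ∀ᵐ P, f P ∈ S → F i P = 0

/-- ZRO.  `f` and `F` vanish a.e. outside `G`: the test functions and their derivatives vanish
outside `tsupport φ ⊆ G` (`fderiv` vanishes outside `tsupport`), so
`∫_{Gᶜ} f² ≤ ‖φ_n - f‖² → 0`. -/
def T_ZRO : Prop := ∀ (E : Type) [NormedAddCommGroup E] [NormedSpace ℝ E] [FiniteDimensional ℝ E]
  [MeasureSpace E] [BorelSpace E] [(volume : Measure E).IsAddHaarMeasure] (ι : Type) [Finite ι]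
  (e : ι → E) (G : Set E) (f : E → ℝ) (F : ι → E → ℝ), H1 e G f F →
  ∀ᵐ P, P ∉ G → f P = 0 ∧ ∀ i, F i P = 0

/-- PRL (from LIP).  Product with a bounded Lipschitz function `θ`.  For a test function `φ` of
`G'` the product `θ φ` is Lipschitz with compact support contained in `tsupport θ ∩ tsupport φ`,
hence in `LTest G`, and a.e. `pd (θ φ) = θ pd φ + φ pd θ` (`θ` is differentiable a.e.).  Pass to
the limit `φ_n → f`: `θ` and `pd θ` are bounded. -/
def T_PRL : Prop := ∀ (E : Type) [NormedAddCommGroup E] [NormedSpace ℝ E] [FiniteDimensional ℝ E]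
  [MeasureSpace E] [BorelSpace E] [(volume : Measure E).IsAddHaarMeasure] (ι : Type) [Finite ι]
  (e : ι → E) (G G' : Set E) (f : E → ℝ) (F : ι → E → ℝ) (θ : E → ℝ) (M : ℝ), IsOpen G →
  H1 e G' f F → (∃ K : ℝ≥0, LipschitzWith K θ) → (∀ P, |θ P| ≤ M) →
  (G' ⊆ G ∨ tsupport θ ⊆ G) →
  H1 e G (fun P => θ P * f P) (fun i P => θ P * F i P + f P * pd e i θ P)

/-- PRB (from LIP, BCH, NUL).  Product of two bounded functions.  Let `c(s) = max (-M) (min s M)
= ∫_0^s 1_{(-M, M)}`.  `φ_n → f`, `ψ_n → g` from `H1.seq`; `f_n = c(φ_n)` is in `LTest G`,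
bounded by `M`, `g_n = c(ψ_n)` in `LTest univ`.  `f_n → c(f) = f` and
`∇f_n = 1_{|φ_n| < M} ∇φ_n → F` in `L²`: `‖1 (∇φ_n - F)‖ → 0`, and `(1_{|φ_n| < M} - 1) F → 0` a.e.
where `|f| < M`, while `F = 0` a.e. on `|f| = M` (NUL); dominated convergence.  `f_n g_n` is in
`LTest G` with gradient `f_n ∇g_n + g_n ∇f_n` a.e., which converges to `f Fg + g F` in `L²` (factors
bounded by `M`, a.e. convergence along a subsequence, dominated convergence). -/
def T_PRB : Prop := ∀ (E : Type) [NormedAddCommGroup E] [NormedSpace ℝ E] [FiniteDimensional ℝ E]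
  [MeasureSpace E] [BorelSpace E] [(volume : Measure E).IsAddHaarMeasure] (ι : Type) [Finite ι]
  (e : ι → E) (G : Set E) (f g : E → ℝ) (F Fg : ι → E → ℝ) (M : ℝ), IsOpen G →
  H1 e G f F → H1 e univ g Fg → (∀ᵐ P, |f P| ≤ M) → (∀ᵐ P, |g P| ≤ M) →
  H1 e G (fun P => f P * g P) (fun i P => f P * Fg i P + g P * F i P)

/-- PRT (from BCH, PRB, NUL).  Product of `f` with a bounded function when `f ∇g` is in `L²`.
`f_k = c_k(f)` (truncation at `± k`, BCH with `η = 1_{(-k, k)}`), `|f_k| ≤ max k M`.  By PRB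
`f_k g` is in `H¹₀(G)` with gradient `f_k Fg + g 1_{|f| < k} F`; as `k → ∞` this converges to
`f Fg + g F` in `L²` (dominated by `|f Fg| + M |F|`). -/
def T_PRT : Prop := ∀ (E : Type) [NormedAddCommGroup E] [NormedSpace ℝ E] [FiniteDimensional ℝ E]
  [MeasureSpace E] [BorelSpace E] [(volume : Measure E).IsAddHaarMeasure] (ι : Type) [Finite ι]
  (e : ι → E) (G : Set E) (f g : E → ℝ) (F Fg : ι → E → ℝ) (M : ℝ), IsOpen G →
  H1 e G f F → H1 e univ g Fg → (∀ᵐ P, |g P| ≤ M) →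
  (∀ i, MemLp (fun P => f P * Fg i P) 2 volume) →
  H1 e G (fun P => f P * g P) (fun i P => f P * Fg i P + g P * F i P)

/-- MOD (from LIP).  The modulus of a pair.  For `δ > 0` let `m_δ(s,t) = √(s² + t² + δ²) - δ`,
smooth, `m_δ(0,0) = 0`, gradient `(s,t)/√(s² + t² + δ²)` bounded by one.  For test functions
`φ_n → a`, `ψ_n → b` (`H1.seq`) `m_δ(φ_n, ψ_n)` is a test function of `G`; limit `n → ∞`: `m_δ(a,b)`
has the gradient `(a Fa + b Fb)/√(a² + b² + δ²)` (as BCC, dominated convergence).  Then `δ → 0`: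
`|m_δ(a,b) - md a b| ≤ δ` is not in `L²` of the whole space, but `0 ≤ md a b - m_δ(a,b) ≤
min δ (md a b)`, dominated convergence; the gradients are dominated by `|Fa| + |Fb|` and converge
pointwise to `mg a b Fa Fb` (at points with `a = b = 0` both are `0`, division by zero). -/
def T_MOD : Prop := ∀ (E : Type) [NormedAddCommGroup E] [NormedSpace ℝ E] [FiniteDimensional ℝ E]
  [MeasureSpace E] [BorelSpace E] [(volume : Measure E).IsAddHaarMeasure] (ι : Type) [Finite ι]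
  (e : ι → E) (G : Set E) (a b : E → ℝ) (Fa Fb : ι → E → ℝ), IsOpen G → H1 e G a Fa → H1 e G b Fb →
  H1 e G (md a b) (mg a b Fa Fb)

/-- TRL.  Affine change of variables `T P = L P + c`.  For a test function `φ` of `G`, `φ ∘ T` is
a test function of `T⁻¹ G`, `pd e i (φ ∘ T) P = fderiv φ (T P) (L (e i)) = ∑ j, M j i pd e j φ (T P)`.
`T` maps the measure `volume` to a multiple of `volume` (`Measure.map_linearMap_addHaar_eq_smul...`,
`MeasurePreserving` up to a constant), so `L²` norms are multiplied by a constant. -/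
def T_TRL : Prop := ∀ (E : Type) [NormedAddCommGroup E] [NormedSpace ℝ E] [FiniteDimensional ℝ E]
  [MeasureSpace E] [BorelSpace E] [(volume : Measure E).IsAddHaarMeasure] (ι : Type) [Fintype ι]
  (e : ι → E) (G : Set E) (f : E → ℝ) (F : ι → E → ℝ) (L : E ≃L[ℝ] E) (c : E) (M : ι → ι → ℝ),
  (∀ i, L (e i) = ∑ j, M j i • e j) → H1 e G f F →
  H1 e ((fun P => L P + c) ⁻¹' G) (fun P => f (L P + c))
    (fun i P => ∑ j, M j i * F j (L P + c))

/-- MAZ.  Weak limits.  Let `C_n` be the set of convex combinations of `(f_m, F_m)`, `m ≥ n`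
(finite sums), `α_n = inf {∫ g² + ∑ ∫ G_i² : (g, G) ∈ C_n}`: nondecreasing and bounded.  Choose
`(g_n, G_n) ∈ C_n` with value `≤ α_n + 1/(n+1)`.  For `m ≥ n` the midpoint of `(g_n, G_n)` and
`(g_m, G_m)` is in `C_n`; by the parallelogram identity `(g_n, G_n)` is a Cauchy sequence in `L²`;
let `(g, F)` be its limit (completeness of `Lp`).  As `f_m → f`, also `g_n → f`, so `g = f` a.e.
`H1.lim` (convex combinations of elements of `H¹₀(G)` are in `H¹₀(G)`).  The bounds: the set of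
`(g, G)` with `∫ ∑_{i ∈ S k} G_i² ≤ C k + δ` is convex (norm of `L²(·; ℝ^S)`), contains `C_n` for
large `n`, and is closed. -/
def T_MAZ : Prop := ∀ (E : Type) [NormedAddCommGroup E] [NormedSpace ℝ E] [FiniteDimensional ℝ E]
  [MeasureSpace E] [BorelSpace E] [(volume : Measure E).IsAddHaarMeasure] (ι : Type) [Fintype ι]
  (e : ι → E) (G : Set E) (f : E → ℝ) (g : ℕ → E → ℝ) (Fg : ℕ → ι → E → ℝ) (K : ℝ)
  (S : Fin 2 → Finset ι) (C : Fin 2 → ℝ), MemLp f 2 volume → (∀ n, H1 e G (g n) (Fg n)) →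
  Tendsto (fun n => eLpNorm (fun P => g n P - f P) 2 volume) atTop (𝓝 0) →
  (∀ n i, ∫ P, Fg n i P ^ 2 ≤ K) →
  (∀ k, ∀ δ : ℝ, 0 < δ → ∀ᶠ n in atTop, ∫ P, ∑ i ∈ S k, Fg n i P ^ 2 ≤ C k + δ) →
  ∃ F : ι → E → ℝ, H1 e G f F ∧ ∀ k, ∫ P, ∑ i ∈ S k, F i P ^ 2 ≤ C k

/-- WK (from IBH).  `H¹₀(G)` functions are in `H¹(ℝ³)` with weak gradient `F`: IBH with
`Test.h1`. -/
def T_WK : Prop := ∀ (G : Set X) (f : X → ℝ) (F : Fin 3 → X → ℝ), H1 e3 G f F → IsH1 f F

/-! ### Poincare, Rellich -/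

/-- the open cube with centre `P₀` and side `2ℓ` -/
def cube (P₀ : X) (l : ℝ) : Set X :=
  {P | |P.1.re - P₀.1.re| < l ∧ |P.1.im - P₀.1.im| < l ∧ |P.2 - P₀.2| < l}

/-- BOX.  Poincare inequality on a cube.  First for a test function `φ`.  For `P, P'` in the cube
change one coordinate at a time: `φ P - φ P'` is the sum of three increments along segments in the
cube parallel to the axes; each increment squared is at most `2ℓ ∫ |∂_i φ|²` over the whole side of
the cube (Cauchy-Schwarz), so `(φ P - φ P')² ≤ 3 ∑ ...`.  Integrate over `P, P'` (six variables; the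
integral over the side depends on three of them, the other ones give factors `2ℓ`): the sum is
`≤ 3 (2ℓ)² (2ℓ)³ ∫_Q ∑ |∂_i φ|² = 96 ℓ⁵ ∫_Q ∑ |∂_i φ|²`.  Then pass to the limit
(`H1.seq`; convergence in `L²(Q)` gives convergence of both sides). -/
def T_BOX : Prop := ∀ (G : Set X) (f : X → ℝ) (F : Fin 3 → X → ℝ) (P₀ : X) (l : ℝ), 0 < l →
  H1 e3 G f F → ∫ P in cube P₀ l, ∫ P' in cube P₀ l, (f P - f P') ^ 2 ≤
    96 * l ^ 5 * ∫ P in cube P₀ l, ∑ i, F i P ^ 2

/-- REL (from BOX, ZRO).  Rellich's theorem.  `G ⊆ [-R, R)³ =: Q`.  For `m ≥ 1` divide `Q` into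
`m³` congruent half open cubes `Q_j` of side `2R/m` and let `P_m f` be the average of `f` on each
`Q_j`.  `∫_{Q_j} |f - avg|² = (1/(2 |Q_j|)) ∫∫_{Q_j × Q_j} (f(x) - f(y))²`, so by BOX (`ℓ = R/m`,
`|Q_j| = 8 ℓ³`; the open cube has full measure in `Q_j`) `‖f - P_m f‖² ≤ 6 (R/m)² ∫ ∑ F_i²`.  The
averages of the `f_n` are bounded; the countably many real sequences
`n ↦ avg_{Q_{m,j}} f_n` have a common convergent subsequence (compactness of a countable product of
intervals, `IsCompact.tendsto_subseq`; or a diagonal argument).  Along it `f_n` is a Cauchy sequence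
in `L²`: `‖f_n - f_k‖ ≤ ‖f_n - P_m f_n‖ + ‖P_m f_n - P_m f_k‖ + ‖P_m f_k - f_k‖`.  Completeness. -/
def T_REL : Prop := ∀ (G : Set X) (f : ℕ → X → ℝ) (F : ℕ → Fin 3 → X → ℝ) (K : ℝ),
  Bornology.IsBounded G → (∀ n, H1 e3 G (f n) (F n)) → (∀ n, ∫ P, f n P ^ 2 ≤ K) →
  (∀ n, ∫ P, ∑ i, F n i P ^ 2 ≤ K) → ∃ (ns : ℕ → ℕ) (g : X → ℝ), StrictMono ns ∧
    MemLp g 2 volume ∧
    Tendsto (fun n => eLpNorm (fun P => f (ns n) P - g P) 2 volume) atTop (𝓝 0)

/-- FRI.  Friedrichs inequality in the directions `1` in the plane and `z` in space.  For a test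
function `φ` with support in the ball of radius `R` and a point `(x, z)`:
`φ(x, z)² = (∫_{-R}^{z} ∂_z φ)² ≤ 2R ∫ |∂_z φ(x, t)|² dt` if `|z| ≤ R`, `= 0` otherwise; integrate.
Limit (`H1.seq`). -/
def T_FRI : Prop := (∀ (G : Set ℂ) (f : ℂ → ℝ) (F : Fin 2 → ℂ → ℝ) (R : ℝ), 0 < R →
    G ⊆ closedBall 0 R → H1 e2 G f F → ∫ x, f x ^ 2 ≤ 4 * R ^ 2 * ∫ x, F 0 x ^ 2) ∧
  ∀ (G : Set X) (f : X → ℝ) (F : Fin 3 → X → ℝ) (R : ℝ), 0 < R →
    G ⊆ closedBall 0 R → H1 e3 G f F → ∫ P, f P ^ 2 ≤ 4 * R ^ 2 * ∫ P, F 2 P ^ 2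

/-- LPW.  A function of the plane with `|∇g| ≤ 1` is Lipschitz.  `g_n = η_n ⋆ g` with a normed
`ContDiffBump`: smooth, `∇g_n = η_n ⋆ Γ` (differentiate `η_n` and integrate by parts: the pairing of
`g` with `t ↦ η_n(P - t)` and its derivative, IBH), so `|∇g_n| ≤ 1` and `g_n` is 1-Lipschitz
(`lipschitzWith_of_nnnorm_fderiv_le`; the norm of the real linear map `v ↦ Γ·v` is `gn Γ`).
`g_n → g` a.e. (locally integrable), so `g` is 1-Lipschitz on a set of full measure; extend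
(`LipschitzOnWith.extend_real`). -/
def T_LPW : Prop := ∀ (G : Set ℂ) (g : ℂ → ℝ) (Γ : Fin 2 → ℂ → ℝ), H1 e2 G g Γ →
  (∀ᵐ x, gn Γ x ≤ 1) → ∃ h : ℂ → ℝ, LipschitzWith 1 h ∧ h =ᵐ[volume] g

/-- SLI.  Slices.  Let `φ_n → f` (`H1.seq`); passing to a subsequence
`∑_n (‖φ_n - f‖² + ∑ ‖pd e3 i φ_n - F i‖²) < ∞`, so by Fubini for a.e. `z`
`‖φ_n(·,z) - f(·,z)‖ → 0` and `‖∂_i φ_n(·, z) - F i (·, z)‖ → 0` for `i = 0, 1`, and `f(·,z)`,
`F i (·,z)` are in `L²` for a.e. `z`.  `φ_n(·, z)` is a test function of the ball, and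
`pd e2 i (φ_n(·, z)) x = pd e3 i.castSucc φ_n (x, z)` (`e3 i.castSucc = (e2 i, 0)`).
`H1.lim`. -/
def T_SLI : Prop := ∀ (G : Set X) (f : X → ℝ) (F : Fin 3 → X → ℝ) (R : ℝ),
  (∀ P ∈ G, ‖P.1‖ < R) → H1 e3 G f F →
  ∀ᵐ z : ℝ, H1 e2 (ball (0 : ℂ) R) (sl f z) (fun i => sl (F i.castSucc) z)

/-! ### Ground states -/

/-- the energy with vector potential `A` and potential `V` -/
def EG (A : Fin 3 → X → ℝ) (V : X → ℝ) (a b : X → ℝ) (Fa Fb : Fin 3 → X → ℝ) : ℝ :=
  ∫ P, (∑ i, ((Fa i P - A i P * b P) ^ 2 + (Fb i P + A i P * a P) ^ 2) +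
    V P * (a P ^ 2 + b P ^ 2))

/-- the corresponding lowest eigenvalue -/
def lamG (A : Fin 3 → X → ℝ) (V : X → ℝ) (G : Set X) : ℝ :=
  sInf {r | ∃ φ ψ : X → ℝ, Test G φ ∧ Test G ψ ∧ ∫ P, (φ P ^ 2 + ψ P ^ 2) = 1 ∧
    EG A V φ ψ (fun i => pd e3 i φ) (fun i => pd e3 i ψ) = r}

/-- LBG.  For test functions this is the definition of `lamG` and homogeneity (if
`∫ φ² + ψ² = 0` both vanish).  `EG` is continuous for the `L²` convergence of `a, b, Fa, Fb`
on the bounded set `G` (the coefficients are bounded on `G`, all functions vanish outside `G`, a.e.):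
take the limit along `H1.seq`. -/
def T_LBG : Prop := ∀ (A : Fin 3 → X → ℝ) (V : X → ℝ) (G : Set X), (∀ i, Continuous (A i)) →
  Continuous V → (∀ P, 0 ≤ V P) → IsOpen G → Bornology.IsBounded G →
  ∀ (a b : X → ℝ) (Fa Fb : Fin 3 → X → ℝ), H1 e3 G a Fa → H1 e3 G b Fb →
  lamG A V G * ∫ P, (a P ^ 2 + b P ^ 2) ≤ EG A V a b Fa Fb

/-- EXG (from REL, LBG, ZRO).  Existence of a minimizer.  The set in the definition of `lamG` is
nonempty (`G` contains a ball: a bump function) and bounded below by `0`.  Take a minimizing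
sequence `p_n = (φ_n, ψ_n)`.  With `|A| ≤ C` on `G`: `∫ |∇φ|² + |∇ψ|² ≤ 2 EG + 2·3 C² ∫(φ² + ψ²)`, so the
gradients are bounded in `L²`; by REL (twice) a subsequence of `φ_n`, `ψ_n` converges in `L²`.
`EG` is a quadratic form: `EG(p_n - p_m) = 2 EG(p_n) + 2 EG(p_m) - EG(p_n + p_m)` and
`EG(p_n + p_m) ≥ lamG ‖p_n + p_m‖² = lamG (2‖p_n‖² + 2‖p_m‖² - ‖p_n - p_m‖²)`, so
`EG(p_n - p_m) → 0`, hence the gradients are Cauchy sequences in `L²`.  Take the limits
(completeness), `H1.lim`, and pass to the limit in `EG` and in the normalisation. -/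
def T_EXG : Prop := ∀ (A : Fin 3 → X → ℝ) (V : X → ℝ) (G : Set X), (∀ i, Continuous (A i)) →
  Continuous V → (∀ P, 0 ≤ V P) → IsOpen G → Bornology.IsBounded G → G.Nonempty →
  ∃ (a b : X → ℝ) (Fa Fb : Fin 3 → X → ℝ), H1 e3 G a Fa ∧ H1 e3 G b Fb ∧
    ∫ P, (a P ^ 2 + b P ^ 2) = 1 ∧ EG A V a b Fa Fb = lamG A V G

/-- CPX.  Complex test functions are pairs of real ones.  `u = φ + i ψ`, `φ = re u`, `ψ = im u`:
`‖-i ∂u + A u‖² = (∂φ - Aψ)² + (∂ψ + Aφ)²` (`-i∂u + Au = (∂ψ + Aφ) + i(-∂φ + Aψ)`), `‖u‖² = φ² + ψ²`,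
`fderiv u P v = fderiv φ P v + i fderiv ψ P v`.  The two sets of which the infimum is taken are
equal. -/
def T_CPX : Prop := ∀ (B : ℝ) (G : Set X), lam B G = lamG (Ap B) (fun _ => 0) G

/-- LRG.  `lamR B G = lamG 0 (VV B) G` for nonempty open `G`.  `≥`: take `ψ = 0`.  `≤`: for a pair,
`EG 0 V φ ψ = ER φ + ER ψ` and `ER φ ≥ lamR ∫ φ²` for every test function (homogeneity), so
`EG ≥ lamR` if `∫ φ² + ψ² = 1`. -/
def T_LRG : Prop := ∀ (B : ℝ) (G : Set X), IsOpen G → G.Nonempty →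
  lamR B G = lamG (fun _ _ => 0) (VV B) G

/-- EXM (from EXG, LBG, CPX, ZRO).  `EM B a b Fa Fb = EG (Ap B) 0 a b Fa Fb` (definitions).  Choose
measurable representatives (`AEStronglyMeasurable.mk`), and multiply with the indicator function of
the open set `G` (by ZRO this changes nothing a.e.); `H1.congr`. -/
def T_EXM : Prop := ∀ (B : ℝ) (G : Set X), IsOpen G → Bornology.IsBounded G → G.Nonempty →
  (∃ (a b : X → ℝ) (Fa Fb : Fin 3 → X → ℝ), GM B G a b Fa Fb) ∧
  ∀ (a b : X → ℝ) (Fa Fb : Fin 3 → X → ℝ), H1 e3 G a Fa → H1 e3 G b Fb →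
    lam B G * ∫ P, (a P ^ 2 + b P ^ 2) ≤ EM B a b Fa Fb

/-- EXR (from EXG, LBG, LRG, BCH, ZRO).  Let `(a, b)` be the pair of EXG with `A = 0`, `V = VV B`:
`ER a + ER b = λ (∫ a² + ∫ b²)` and `ER a ≥ λ ∫ a²`, `ER b ≥ λ ∫ b²` (LBG with the pair `(a, 0)`,
`H1.zero`), so both are equalities; one of `∫ a², ∫ b²` is positive, say `c² = ∫ a²`, `c > 0`.
`v = |a| / c`: `|a| = ∫_0^a sign`, BCH with `η = sign` (`η(0) = 0`): gradient `sign(a) Fa`, so
`ER |a| ≤ ER a` and `≥ λ ∫ a²`.  Measurable representatives, zero outside `G`, `v ≥ 0` everywhere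
(take the absolute value). -/
def T_EXR : Prop := ∀ (B : ℝ) (G : Set X), IsOpen G → Bornology.IsBounded G → G.Nonempty →
  (∃ (v : X → ℝ) (F : Fin 3 → X → ℝ), GS B G v F) ∧
  ∀ (f : X → ℝ) (F : Fin 3 → X → ℝ), H1 e3 G f F → lamR B G * ∫ P, f P ^ 2 ≤ ER B f F

end MGS
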