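import Pool.Agent.MGS.TF
import Pool.Agent.MGS.TA

/-!
# MGS: target ALL (the centres of the slices are constant)
-/

set_option autoImplicit false

open MeasureTheory Filter Topology Metric Set
open scoped ENNReal NNReal ContDiff

noncomputable section

namespace MGS

namespace ALL_

lemma ae_slice {p : X → Prop} (h : ∀ᵐ P : X, p P) : ∀ᵐ z : ℝ, ∀ᵐ x : ℂ, p (x, z) := by
  have h1 : ∀ᵐ q : ℝ × ℂ, p q.swap :=
    (Measure.measurePreserving_swap (μ := (volume : Measure ℝ))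
      (ν := (volume : Measure ℂ))).quasiMeasurePreserving.ae h
  exact Measure.ae_ae_of_ae_prod h1

lemma ae_snd {p : ℝ → Prop} (h : ∀ᵐ z : ℝ, p z) : ∀ᵐ P : X, p P.2 := by
  have h1 : Measure.QuasiMeasurePreserving (Prod.snd : ℂ × ℝ → ℝ)
      ((volume : Measure ℂ).prod (volume : Measure ℝ)) volume :=
    Measure.quasiMeasurePreserving_snd
  exact h1.ae h

/-- Fubini with a factor depending on the height -/
lemma fub {w : X → ℝ} (k : ℝ → ℝ) (hk : Integrable fun P : X => w P * k P.2) :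
    ∫ P : X, w P * k P.2 = ∫ z : ℝ, (∫ x : ℂ, w (x, z)) * k z := by
  have h1 : ∫ P : X, w P * k P.2 = ∫ z : ℝ, ∫ x : ℂ, w (x, z) * k z :=
    integral_prod_symm (μ := (volume : Measure ℂ)) (ν := (volume : Measure ℝ))
      (fun P : X => w P * k P.2) hk
  rw [h1]
  refine integral_congr_ae (Eventually.of_forall fun z => ?_)
  exact integral_mul_const (k z) fun x : ℂ => w (x, z)

lemma int_slice {w : X → ℝ} (hw : Integrable w) : Integrable fun z : ℝ => ∫ x : ℂ, w (x, z) :=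
  Integrable.integral_prod_right (μ := (volume : Measure ℂ)) (ν := (volume : Measure ℝ)) hw

lemma int_mul {w : X → ℝ} (hw : Integrable w) {k : ℝ → ℝ} (hk : Measurable k) {C : ℝ}
    (hC : ∀ z, |k z| ≤ C) : Integrable fun P : X => w P * k P.2 := by
  have h1 : Integrable fun P : X => k P.2 * w P :=
    hw.bdd_mul (hk.comp measurable_snd).aestronglyMeasurable
      (Eventually.of_forall fun P => by
        rw [Real.norm_eq_abs]
        exact hC P.2)
  exact h1.congr (Eventually.of_forall fun P => mul_comm _ _)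

end ALL_

open ALL_ in
/-- the centres of the slices are constant -/
theorem p_ALL (h_SLT : T_SLT) (h_PHS : T_PHS) (h_CUR : T_CUR) (h_NWK : T_NWK) (h_CST : T_CST)
    (h_NPO : T_NPO) (h_EG2 : T_EG2) (h_EQM : T_EQM) (h_MOD : T_MOD) (h_NUL : T_NUL)
    (h_UNI : T_UNI) (h_TRL : T_TRL) (h_OST : T_OST) : T_ALL := by
  intro B R Ω a b v₁ Fa Fb F V T hEX
  obtain ⟨c, hc⟩ := h_SLT B R Ω a b v₁ Fa Fb F V T hEX
  have hpd := hEX.pd
  have hB := hEX.Bpos
  have hf : H1 e3 Ω (md a b) (mg a b Fa Fb) :=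
    h_MOD X (Fin 3) e3 Ω a b Fa Fb hpd.isOpen hpd.ha hpd.hb
  have hmf : Measurable (md a b) :=
    ((hpd.ma.pow_const 2).add (hpd.mb.pow_const 2)).sqrt
  have hf2 : ∀ P, md a b P ^ 2 = a P ^ 2 + b P ^ 2 := fun P => Real.sq_sqrt (by positivity)
  have hf0 : ∀ P, 0 ≤ md a b P := fun P => Real.sqrt_nonneg _
  have hgs := hEX.rd.gs
  -- the domain
  have hne : Ω.Nonempty := by
    by_contra hne
    rw [Set.not_nonempty_iff_eq_empty] at hne
    obtain ⟨P, hP⟩ := hEX.star.nonempty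
    rw [hne] at hP
    simp only [Ost, Set.mem_ofPred_eq, Set.mem_empty_iff_false, Set.ofPred_false, measure_empty,
      ENNReal.toReal_zero] at hP
    have : 0 ≤ Real.pi * ‖P.1‖ ^ 2 := by positivity
    linarith
  have hbd : Bornology.IsBounded Ω :=
    (isBounded_iff_forall_norm_le).2 ⟨R, fun P hP => (hpd.bdd P hP).le⟩
  obtain ⟨-, -, -, -, -, hI0, -⟩ := h_OST Ω hpd.isOpen hbd hne
  set I : Set ℝ := {z : ℝ | ((0 : ℂ), z) ∈ Ost Ω} with hI
  have hIo : IsOpen I := hEX.star.isOpen.preimage (Continuous.prodMk_right (0 : ℂ))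
  have hIc : I.OrdConnected := hEX.star.conn
  -- the curl identity, pointwise
  have hzero : ∀ᵐ P : X, md a b P = 0 → ∀ i, Fa i P = 0 ∧ Fb i P = 0 := by
    have h1 : ∀ᵐ P : X, ∀ i, a P ∈ ({0} : Set ℝ) → Fa i P = 0 := by
      rw [ae_all_iff]
      exact fun i => h_NUL X (Fin 3) e3 Ω a Fa {0} hpd.isOpen hpd.ha (by simp) i
    have h2 : ∀ᵐ P : X, ∀ i, b P ∈ ({0} : Set ℝ) → Fb i P = 0 := by
      rw [ae_all_iff]
      exact fun i => h_NUL X (Fin 3) e3 Ω b Fb {0} hpd.isOpen hpd.hb (by simp) i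
    filter_upwards [h1, h2] with P k1 k2 hP i
    have h3 : a P ^ 2 + b P ^ 2 = 0 := by rw [← hf2, hP]; ring
    have ha : a P = 0 := by nlinarith
    have hb : b P = 0 := by nlinarith
    exact ⟨k1 i (by simp [ha]), k2 i (by simp [hb])⟩
  have alg : ∀ (P : X) (i : Fin 3) (q : ℝ), (md a b P = 0 → ∀ i, Fa i P = 0 ∧ Fb i P = 0) →
      a P * Fb i P - b P * Fa i P = q * md a b P ^ 2 →
      a P * Fb 2 P - b P * Fa 2 P = 0 →
      Fa 2 P * Fb i P - Fb 2 P * Fa i P = q * (md a b P * mg a b Fa Fb 2 P) := by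
    intro P i q h0 h1 h2
    rcases (hf0 P).eq_or_lt with h | h
    · rw [(h0 h.symm 2).1, (h0 h.symm 2).2, ← h]
      ring
    · have e1 : md a b P * mg a b Fa Fb 2 P = a P * Fa 2 P + b P * Fb 2 P := by
        unfold mg
        field_simp
      have e2 : md a b P ^ 2 * (Fa 2 P * Fb i P - Fb 2 P * Fa i P) =
          (a P * Fa 2 P + b P * Fb 2 P) * (a P * Fb i P - b P * Fa i P) -
          (a P * Fa i P + b P * Fb i P) * (a P * Fb 2 P - b P * Fa 2 P) := by
        rw [hf2]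
        ring
      rw [h1, h2, ← e1] at e2
      have e3' : md a b P ^ 2 * (Fa 2 P * Fb i P - Fb 2 P * Fa i P) =
          md a b P ^ 2 * (q * (md a b P * mg a b Fa Fb 2 P)) := by
        rw [e2]
        ring
      exact mul_left_cancel₀ (by positivity) e3'
  have hph := h_PHS B R Ω a b v₁ Fa Fb F V T c hEX hc
  have hR0 : 0 ≤ R := (norm_nonneg _).trans (hc.bd 0)
  -- the slices
  have i1 : Integrable fun P : X => md a b P ^ 2 := hf.1.integrable_sq
  have i2 : Integrable fun P : X => 2 * (md a b P * mg a b Fa Fb 2 P) :=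
    (hf.1.integrable_mul (hf.2.1 2)).const_mul 2
  set n : ℝ → ℝ := fun z => ∫ x : ℂ, md a b (x, z) ^ 2 with hn
  set m : ℝ → ℝ := fun z => ∫ x : ℂ, 2 * (md a b (x, z) * mg a b Fa Fb 2 (x, z)) with hm
  have hni : Integrable n := int_slice i1
  have hmi : Integrable m := int_slice i2
  have wk1 : ∀ ψ : ℝ → ℝ, ContDiff ℝ ∞ ψ → HasCompactSupport ψ →
      ∫ z, n z * deriv ψ z = -∫ z, m z * ψ z := by
    intro ψ hψ hψc
    have h1 := h_NWK Ω (md a b) (mg a b Fa Fb) ψ hpd.isOpen hf hψ hψc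
    obtain ⟨M, hM⟩ := hψc.exists_bound_of_continuous hψ.continuous
    have hψ' : Continuous (deriv ψ) := hψ.continuous_deriv (by simp)
    obtain ⟨M', hM'⟩ := hψc.deriv.exists_bound_of_continuous hψ'
    rw [fub (w := fun P : X => md a b P ^ 2) (deriv ψ)
        (int_mul i1 hψ'.measurable (C := M') fun z => hM' z),
      fub (w := fun P : X => 2 * (md a b P * mg a b Fa Fb 2 P)) ψ
        (int_mul i2 hψ.continuous.measurable (C := M) fun z => hM z)] at h1
    exact h1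
  have wk2 : ∀ (k : Fin 2) (d : ℝ → ℝ), Measurable d → (∀ z, |d z| ≤ R) →
      (∀ᵐ P : X, a P * Fb k.castSucc P - b P * Fa k.castSucc P =
        (B / 2 * d P.2) * md a b P ^ 2) →
      ∀ ψ : ℝ → ℝ, ContDiff ℝ ∞ ψ → HasCompactSupport ψ →
      ∫ z, d z * n z * deriv ψ z = -∫ z, d z * m z * ψ z := by
    intro k d hd hdR hJ ψ hψ hψc
    have h1 := h_CUR Ω a b Fa Fb ψ k hpd.ha hpd.hb hψ hψc
    obtain ⟨M, hM⟩ := hψc.exists_bound_of_continuous hψ.continuous
    have hψ' : Continuous (deriv ψ) := hψ.continuous_deriv (by simp)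
    obtain ⟨M', hM'⟩ := hψc.deriv.exists_bound_of_continuous hψ'
    have hM0 : 0 ≤ M := (norm_nonneg _).trans (hM 0)
    have hM0' : 0 ≤ M' := (norm_nonneg _).trans (hM' 0)
    have e1 : ∫ P : X, (a P * Fb k.castSucc P - b P * Fa k.castSucc P) * deriv ψ P.2 =
        ∫ P : X, B / 2 * (md a b P ^ 2 * (d P.2 * deriv ψ P.2)) := by
      refine integral_congr_ae ?_
      filter_upwards [hJ] with P hP
      rw [hP]
      ring
    have e2 : ∫ P : X, ψ P.2 * (Fa 2 P * Fb k.castSucc P - Fb 2 P * Fa k.castSucc P) =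
        ∫ P : X, B / 4 * (2 * (md a b P * mg a b Fa Fb 2 P) * (d P.2 * ψ P.2)) := by
      refine integral_congr_ae ?_
      filter_upwards [hJ, hzero, hph] with P hP h0 h3
      rw [alg P k.castSucc (B / 2 * d P.2) h0 hP h3.2.2]
      ring
    rw [e1, e2, integral_const_mul, integral_const_mul,
      fub (w := fun P : X => md a b P ^ 2) (fun z => d z * deriv ψ z)
        (int_mul i1 (hd.mul hψ'.measurable) (C := R * M') fun z => by
          rw [Pi.mul_apply, abs_mul]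
          exact mul_le_mul (hdR z) (hM' z) (abs_nonneg _) hR0),
      fub (w := fun P : X => 2 * (md a b P * mg a b Fa Fb 2 P)) (fun z => d z * ψ z)
        (int_mul i2 (hd.mul hψ.continuous.measurable) (C := R * M) fun z => by
          rw [Pi.mul_apply, abs_mul]
          exact mul_le_mul (hdR z) (hM z) (abs_nonneg _) hR0)] at h1
    have e4 : ∫ z, d z * n z * deriv ψ z = ∫ z, (∫ x : ℂ, md a b (x, z) ^ 2) *
        (d z * deriv ψ z) := integral_congr_ae (Eventually.of_forall fun z => by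
      show d z * n z * deriv ψ z = n z * (d z * deriv ψ z)
      ring)
    have e5 : ∫ z, d z * m z * ψ z = ∫ z, (∫ x : ℂ, 2 * (md a b (x, z) * mg a b Fa Fb 2 (x, z))) *
        (d z * ψ z) := integral_congr_ae (Eventually.of_forall fun z => by
      show d z * m z * ψ z = m z * (d z * ψ z)
      ring)
    rw [e4, e5]
    have h2 : B / 2 * ∫ z, (∫ x : ℂ, md a b (x, z) ^ 2) * (d z * deriv ψ z) =
        B / 2 * -∫ z, (∫ x : ℂ, 2 * (md a b (x, z) * mg a b Fa Fb 2 (x, z))) * (d z * ψ z) := by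
      rw [h1]
      ring
    exact mul_left_cancel₀ (by positivity) h2
  -- the slices of the modulus are not small
  have hnv : ∀ᵐ z : ℝ, n z = ∫ x : ℂ, v₁ (x, z) ^ 2 := by
    filter_upwards [ae_slice (h_EG2 B R Ω a b v₁ Fa Fb F V T hEX).1] with z hz
    have hNc : Nc R (sl (md a b) z) := by
      refine ⟨hmf.comp measurable_prodMk_right, fun x => hf0 _, fun x hx => ?_⟩
      have h1 : ((x, z) : X) ∉ Ω := fun h => by
        have h2 := hpd.bdd _ h
        have h3 : ‖x‖ ≤ ‖((x, z) : X)‖ := norm_fst_le ((x, z) : X)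
        linarith
      obtain ⟨h2, h3, -⟩ := hpd.zero _ h1
      show md a b (x, z) = 0
      unfold md
      rw [h2, h3]
      simp
    have h1 := (h_EQM R (sl (md a b) z) hNc).1 (fun s => ENNReal.ofReal (s ^ 2)) (by fun_prop)
      (by simp)
    have h2 : ∫⁻ x : ℂ, ENNReal.ofReal (rr (sl (md a b) z) ‖x‖ ^ 2) =
        ∫⁻ x : ℂ, ENNReal.ofReal (v₁ (x, z) ^ 2) := by
      refine lintegral_congr_ae ?_
      filter_upwards [hz] with x hx
      rw [← hx]
      rfl
    have m1 : Measurable fun x : ℂ => md a b (x, z) ^ 2 :=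
      (hmf.comp measurable_prodMk_right).pow_const 2
    have m2 : Measurable fun x : ℂ => v₁ (x, z) ^ 2 :=
      (hgs.mv.comp measurable_prodMk_right).pow_const 2
    show ∫ x : ℂ, md a b (x, z) ^ 2 = _
    rw [integral_eq_lintegral_of_nonneg_ae (Eventually.of_forall fun x => sq_nonneg _)
        m1.aestronglyMeasurable,
      integral_eq_lintegral_of_nonneg_ae (Eventually.of_forall fun x => sq_nonneg _)
        m2.aestronglyMeasurable, ← h2, h1]
    rfl
  have hlow : ∀ z₀ ∈ I, ∃ d k : ℝ, 0 < d ∧ 0 < k ∧ ∀ᵐ z : ℝ, |z - z₀| < d → k ≤ n z := by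
    intro z₀ hz₀
    obtain ⟨d, k, hd, hk, h⟩ := h_NPO B (Ost Ω) v₁ F hEX.star hgs z₀ hz₀
    refine ⟨d, k, hd, hk, ?_⟩
    filter_upwards [h, hnv] with z h1 h2 h3
    rw [h2]
    exact h1 h3
  -- the centres
  have hre : ∃ c₀ : ℝ, ∀ᵐ z : ℝ, z ∈ I → (c z).re = c₀ := by
    have hd : Measurable fun z => (c z).re := Complex.measurable_re.comp hc.m
    have hdR : ∀ z, |(c z).re| ≤ R := fun z => (Complex.abs_re_le_norm _).trans (hc.bd z)
    refine h_CST (fun z => (c z).re) n m R I hIo hIc hd hdR hni hmi wk1 ?_ hlow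
    have hw := wk2 1 (fun z => -(c z).re) hd.neg (fun z => by rw [abs_neg]; exact hdR z) (by
      filter_upwards [hph] with P hP
      have h1 := hP.2.1
      show a P * Fb 1 P - b P * Fa 1 P = _
      rw [h1]
      ring)
    intro ψ hψ hψc
    have h1 := hw ψ hψ hψc
    have e1 : ∀ z, -(c z).re * n z * deriv ψ z = -((c z).re * n z * deriv ψ z) := fun z => by ring
    have e2 : ∀ z, -(c z).re * m z * ψ z = -((c z).re * m z * ψ z) := fun z => by ring
    simp only [e1, e2, integral_neg] at h1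
    linarith
  have him : ∃ c₀ : ℝ, ∀ᵐ z : ℝ, z ∈ I → (c z).im = c₀ := by
    have hd : Measurable fun z => (c z).im := Complex.measurable_im.comp hc.m
    have hdR : ∀ z, |(c z).im| ≤ R := fun z => (Complex.abs_im_le_norm _).trans (hc.bd z)
    refine h_CST (fun z => (c z).im) n m R I hIo hIc hd hdR hni hmi wk1 ?_ hlow
    refine wk2 0 (fun z => (c z).im) hd hdR ?_
    filter_upwards [hph] with P hP
    exact hP.1
  obtain ⟨c₁, hc₁⟩ := hre
  obtain ⟨c₂, hc₂⟩ := him
  refine ⟨⟨c₁, c₂⟩, ?_⟩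
  have key : ∀ᵐ P : X, md a b P = v₁ (P.1 - (⟨c₁, c₂⟩ : ℂ), P.2) := by
    filter_upwards [ae_snd hc₁, ae_snd hc₂, hc.md] with P h1 h2 h3
    by_cases hP : P.2 ∈ I
    · have h4 : c P.2 = (⟨c₁, c₂⟩ : ℂ) := Complex.ext (h1 hP) (h2 hP)
      rw [h3, h4, hEX.rd.veq]
    · have h4 : P ∉ Ω := fun h => hP ((hI0 P.2).2 ⟨P.1, h⟩)
      have h5 : (P.1 - (⟨c₁, c₂⟩ : ℂ), P.2) ∉ Ost Ω := fun h =>
        hP (hEX.star.star _ h 0 (by simp))
      rw [(hgs.zero _ h5).1]
      obtain ⟨h6, h7, -⟩ := hpd.zero P h4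
      unfold md
      rw [h6, h7]
      simp
  refine ⟨key, ?_⟩
  -- the gradient
  have ht := h_TRL X (Fin 3) e3 (Ost Ω) v₁ F (ContinuousLinearEquiv.refl ℝ X)
    (-(⟨c₁, c₂⟩ : ℂ), 0) (fun i j => if i = j then 1 else 0) (fun i => by simp) hgs.h
  have hu := h_UNI X (Fin 3) e3 Ω _ (md a b) _ (mg a b Fa Fb) _ hf ht (by
    filter_upwards [key] with P hP
    rw [hP]
    congr 1
    refine Prod.ext ?_ ?_
    · show P.1 - (⟨c₁, c₂⟩ : ℂ) = P.1 + -(⟨c₁, c₂⟩ : ℂ)
      ring
    · show P.2 = P.2 + 0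
      ring)
  rw [ae_all_iff]
  intro i
  filter_upwards [hu i] with P hP
  rw [hP]
  have hs : ∀ Q : X, ∑ j : Fin 3, (if j = i then (1 : ℝ) else 0) * F j Q = F i Q := fun Q => by
    simp
  refine (hs _).trans ?_
  congr 1
  refine Prod.ext ?_ ?_
  · show P.1 + -(⟨c₁, c₂⟩ : ℂ) = P.1 - (⟨c₁, c₂⟩ : ℂ)
    ring
  · show P.2 + 0 = P.2
    ring

end MGS
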