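import Pool.Agent.MGS.TA

/-!
# MGS: proof of T_BCC (chain rule with a bounded continuous derivative) (helper53)
-/

set_option autoImplicit false

open MeasureTheory Filter Topology Metric Set
open scoped ENNReal NNReal ContDiff

noncomputable section

namespace MGS

/-- dominated convergence in `L²` -/
theorem BCC_dom {E : Type} [MeasureSpace E] (u : ℕ → E → ℝ) (b : E → ℝ)
    (hu : ∀ n, AEStronglyMeasurable (u n) volume) (hb : MemLp b 2 volume)
    (h : ∀ n P, |u n P| ≤ |b P|) (hl : ∀ᵐ P, Tendsto (fun n => u n P) atTop (𝓝 0)) :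
    Tendsto (fun n => eLpNorm (u n) 2 volume) atTop (𝓝 0) := by
  have h2 : (2 : ℝ≥0∞) ≠ 0 := by norm_num
  have h2t : (2 : ℝ≥0∞) ≠ ⊤ := by norm_num
  have e : ∀ n, eLpNorm (u n) 2 volume =
      (∫⁻ x, ‖u n x‖ₑ ^ (2 : ℝ≥0∞).toReal) ^ (1 / (2 : ℝ≥0∞).toReal) := fun n =>
    eLpNorm_eq_lintegral_rpow_enorm_toReal h2 h2t
  have hpos : 0 < (2 : ℝ≥0∞).toReal := by norm_num
  have t : Tendsto (fun n => ∫⁻ x, ‖u n x‖ₑ ^ (2 : ℝ≥0∞).toReal) atTop
      (𝓝 (∫⁻ _ : E, (0 : ℝ≥0∞))) := by
    refine tendsto_lintegral_of_dominated_convergence'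
      (fun x => ‖b x‖ₑ ^ (2 : ℝ≥0∞).toReal) (fun n => ((hu n).enorm.pow_const _)) ?_ ?_ ?_
    · intro n
      refine Eventually.of_forall fun P => ?_
      refine ENNReal.rpow_le_rpow ?_ hpos.le
      rw [enorm_le_iff_norm_le]
      exact h n P
    · exact (lintegral_rpow_enorm_lt_top_of_eLpNorm_lt_top h2 h2t hb.2).ne
    · filter_upwards [hl] with P hP
      have h3 : Tendsto (fun n => ‖u n P‖ₑ) atTop (𝓝 ‖(0 : ℝ)‖ₑ) :=
        (continuous_enorm.tendsto (0 : ℝ)).comp hP
      have h4 := (ENNReal.continuous_rpow_const (y := (2 : ℝ≥0∞).toReal)).tendsto ‖(0 : ℝ)‖ₑ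
      have h5 := h4.comp h3
      rw [enorm_zero, ENNReal.zero_rpow_of_pos hpos] at h5
      exact h5
  rw [lintegral_zero] at t
  have t2 := ((ENNReal.continuous_rpow_const (y := 1 / (2 : ℝ≥0∞).toReal)).tendsto 0).comp t
  rw [ENNReal.zero_rpow_of_pos (by norm_num)] at t2
  exact t2.congr fun n => (e n).symm

theorem BCC_int (η : ℝ → ℝ) (K : ℝ) (hη : Continuous η) (hK : ∀ s, |η s| ≤ K) (s s' : ℝ) :
    |(∫ t in (0 : ℝ)..s, η t) - ∫ t in (0 : ℝ)..s', η t| ≤ K * |s - s'| := by
  rw [intervalIntegral.integral_interval_sub_left (hη.intervalIntegrable _ _)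
    (hη.intervalIntegrable _ _)]
  have := intervalIntegral.norm_integral_le_of_norm_le_const (a := s') (b := s) (f := η) (C := K)
    (fun x _ => by simpa using hK x)
  simpa using this

theorem p_BCC (h_LIP : T_LIP) : T_BCC := by
  intro E _ _ _ _ _ _ ι _ e G f F η K hG hf hη hK
  have hK0 : 0 ≤ K := (abs_nonneg _).trans (hK 0)
  set N : ℝ → ℝ := fun s => ∫ t in (0 : ℝ)..s, η t with hN
  have hN0 : N 0 = 0 := by simp [hN]
  have hNd : ∀ s, HasDerivAt N (η s) s := fun s =>
    intervalIntegral.integral_hasDerivAt_right (hη.intervalIntegrable _ _)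
      (hη.stronglyMeasurableAtFilter _ _) hη.continuousAt
  have hNl : ∀ s s', |N s - N s'| ≤ K * |s - s'| := BCC_int η K hη hK
  have hNL : LipschitzWith ⟨K, hK0⟩ N := LipschitzWith.of_dist_le_mul fun s s' => by
    rw [Real.dist_eq, Real.dist_eq]
    exact hNl s s'
  have hNc : Continuous N := hNL.continuous
  obtain ⟨φ, hφ, c1, c2, a1, a2⟩ := hf.seq
  -- the compositions are in the space
  have hL : ∀ n, H1 e G (fun P => N (φ n P)) (fun i P => η (φ n P) * pd e i (φ n) P) := by
    intro n
    have hl : LTest G (fun P => N (φ n P)) := by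
      refine ⟨?_, ?_, ?_⟩
      · obtain ⟨C, hC⟩ := ContDiff.lipschitzWith_of_hasCompactSupport (hφ n).cpt (hφ n).smooth
          (by simp)
        exact ⟨_, hNL.comp hC⟩
      · exact (hφ n).cpt.comp_left hN0
      · refine subset_trans (closure_mono ?_) (hφ n).sub
        exact Function.support_comp_subset hN0 (φ n)
    have h1 := h_LIP E ι e G (fun P => N (φ n P)) hG hl
    have h2 : (fun i => pd e i (fun P => N (φ n P))) =
        fun i P => η (φ n P) * pd e i (φ n) P := by
      funext i P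
      unfold pd
      have h3 := (hNd (φ n P)).comp_hasFDerivAt P ((hφ n).diff P).hasFDerivAt
      have h4 : fderiv ℝ (fun P => N (φ n P)) P = η (φ n P) • fderiv ℝ (φ n) P := h3.fderiv
      rw [h4]
      rfl
    rw [h2] at h1
    exact h1
  have hηf : AEStronglyMeasurable (fun P => η (f P)) volume :=
    hη.comp_aestronglyMeasurable hf.1.1
  have hm1 : MemLp (fun P => N (f P)) 2 volume := by
    refine hf.1.of_le_mul (c := K) (hNc.comp_aestronglyMeasurable hf.1.1)
      (Eventually.of_forall fun P => ?_)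
    have := hNl (f P) 0
    rw [hN0, sub_zero, sub_zero] at this
    exact this
  have hm2 : ∀ i, MemLp (fun P => η (f P) * F i P) 2 volume := by
    intro i
    refine (hf.2.1 i).of_le_mul (c := K) (hηf.mul (hf.2.1 i).1)
      (Eventually.of_forall fun P => ?_)
    rw [norm_mul]
    exact mul_le_mul_of_nonneg_right (hK _) (norm_nonneg _)
  refine H1.lim hm1 hm2 hL ?_ fun i => ?_
  · have t1 : Tendsto (fun n => ENNReal.ofReal K * eLpNorm (fun P => φ n P - f P) 2 volume) atTop
        (𝓝 0) := by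
      have := ENNReal.Tendsto.const_mul (a := ENNReal.ofReal K) c1 (Or.inr ENNReal.ofReal_ne_top)
      rwa [mul_zero] at this
    refine tendsto_of_tendsto_of_tendsto_of_le_of_le tendsto_const_nhds t1 (fun _ => zero_le)
      fun n => ?_
    exact eLpNorm_le_mul_eLpNorm_of_ae_le_mul (Eventually.of_forall fun P => hNl _ _) _
  · have t1 : Tendsto (fun n => ENNReal.ofReal K * eLpNorm (fun P => pd e i (φ n) P - F i P) 2
        volume) atTop (𝓝 0) := by
      have := ENNReal.Tendsto.const_mul (a := ENNReal.ofReal K) (c2 i)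
        (Or.inr ENNReal.ofReal_ne_top)
      rwa [mul_zero] at this
    have t2 : Tendsto (fun n => eLpNorm (fun P => (η (φ n P) - η (f P)) * F i P) 2 volume) atTop
        (𝓝 0) := by
      refine BCC_dom _ (fun P => 2 * K * F i P) (fun n => ?_) ?_ ?_ ?_
      · exact ((hη.comp_aestronglyMeasurable (hφ n).memLp.1).sub hηf).mul (hf.2.1 i).1
      · exact (hf.2.1 i).const_mul (2 * K)
      · intro n P
        rw [abs_mul, abs_mul]
        refine mul_le_mul_of_nonneg_right ?_ (abs_nonneg _)
        rw [abs_of_nonneg (by positivity : (0 : ℝ) ≤ 2 * K)]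
        have h1 := hK (φ n P)
        have h2 := hK (f P)
        rw [abs_le] at h1 h2 ⊢
        constructor <;> linarith [h1.1, h1.2, h2.1, h2.2]
      · filter_upwards [a1] with P hP
        have h1 : Tendsto (fun n => η (φ n P)) atTop (𝓝 (η (f P))) :=
          (hη.tendsto _).comp hP
        have h2 := (h1.sub_const (η (f P))).mul_const (F i P)
        rwa [sub_self, zero_mul] at h2
    have t3 := t1.add t2
    rw [add_zero] at t3
    refine tendsto_of_tendsto_of_tendsto_of_le_of_le tendsto_const_nhds t3 (fun _ => zero_le)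
      fun n => ?_
    have e1 : (fun P => η (φ n P) * pd e i (φ n) P - η (f P) * F i P) =
        (fun P => η (φ n P) * (pd e i (φ n) P - F i P)) +
          fun P => (η (φ n P) - η (f P)) * F i P := by
      funext P
      simp only [Pi.add_apply]
      ring
    have hs1 : AEStronglyMeasurable (fun P => η (φ n P) * (pd e i (φ n) P - F i P)) volume :=
      (hη.comp_aestronglyMeasurable (hφ n).memLp.1).mul
        (((hφ n).memLp_pd i).1.sub (hf.2.1 i).1)
    have hs2 : AEStronglyMeasurable (fun P => (η (φ n P) - η (f P)) * F i P) volume :=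
      ((hη.comp_aestronglyMeasurable (hφ n).memLp.1).sub hηf).mul (hf.2.1 i).1
    show eLpNorm (fun P => η (φ n P) * pd e i (φ n) P - η (f P) * F i P) 2 volume ≤ _
    rw [e1]
    refine (eLpNorm_add_le hs1 hs2 (by norm_num)).trans ?_
    refine add_le_add ?_ le_rfl
    refine eLpNorm_le_mul_eLpNorm_of_ae_le_mul (Eventually.of_forall fun P => ?_) _
    rw [norm_mul]
    exact mul_le_mul_of_nonneg_right (hK _) (norm_nonneg _)

end MGS
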