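import Pool.Agent.MGS.TA

/-!
# BCH: chain rule in `H¹₀(G)` with a bounded Borel derivative
-/

set_option autoImplicit false

open MeasureTheory Filter Topology Metric Set
open scoped ENNReal NNReal ContDiff

noncomputable section

namespace MGS

namespace BCH_

/-- dominated convergence in `L²` -/
theorem dom {α : Type} [MeasurableSpace α] {μ : Measure α} {u : ℕ → α → ℝ} {g : α → ℝ}
    (hu : ∀ n, AEStronglyMeasurable (u n) μ) (hg : MemLp g 2 μ)
    (hb : ∀ n P, |u n P| ≤ |g P|) (ht : ∀ᵐ P ∂μ, Tendsto (fun n => u n P) atTop (𝓝 0)) :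
    Tendsto (fun n => eLpNorm (u n) 2 μ) atTop (𝓝 0) := by
  have h2 : (2 : ℝ≥0∞) ≠ 0 := by norm_num
  have h2' : (2 : ℝ≥0∞) ≠ ⊤ := by norm_num
  have hfin : ∫⁻ P, ‖g P‖ₑ ^ (2 : ℝ≥0∞).toReal ∂μ ≠ ⊤ :=
    ((eLpNorm_lt_top_iff_lintegral_rpow_enorm_lt_top h2 h2').1 hg.2).ne
  have key : Tendsto (fun n => ∫⁻ P, ‖u n P‖ₑ ^ (2 : ℝ≥0∞).toReal ∂μ) atTop (𝓝 0) := by
    have h3 : ∫⁻ _P : α, (0 : ℝ≥0∞) ∂μ = 0 := by simp
    rw [← h3]
    refine tendsto_lintegral_of_dominated_convergence' (fun P => ‖g P‖ₑ ^ (2 : ℝ≥0∞).toReal)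
      (fun n => (hu n).enorm.pow_const _) (fun n => Eventually.of_forall fun P => ?_) hfin ?_
    · refine ENNReal.rpow_le_rpow ?_ (by norm_num)
      rw [enorm_le_iff_norm_le, Real.norm_eq_abs, Real.norm_eq_abs]
      exact hb n P
    · filter_upwards [ht] with P hP
      have h4 : Tendsto (fun n => ‖u n P‖ₑ) atTop (𝓝 0) := by
        have := hP.enorm
        simpa using this
      have h5 := h4.ennrpow_const (2 : ℝ≥0∞).toReal
      rwa [ENNReal.zero_rpow_of_pos (by norm_num)] at h5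
  have h6 : ∀ n, eLpNorm (u n) 2 μ =
      (∫⁻ P, ‖u n P‖ₑ ^ (2 : ℝ≥0∞).toReal ∂μ) ^ (1 / (2 : ℝ≥0∞).toReal) := fun n =>
    eLpNorm_eq_lintegral_rpow_enorm_toReal h2 h2'
  simp_rw [h6]
  have h7 := key.ennrpow_const (1 / (2 : ℝ≥0∞).toReal)
  rwa [ENNReal.zero_rpow_of_pos (by norm_num)] at h7

/-- bounded Borel functions are almost everywhere limits of bounded continuous functions -/
theorem approx (ν : Measure ℝ) [IsFiniteMeasure ν] (η : ℝ → ℝ) (K : ℝ) (hη : Measurable η)
    (hK : ∀ s, |η s| ≤ K) : ∃ c : ℕ → ℝ → ℝ, (∀ n, Continuous (c n)) ∧ (∀ n s, |c n s| ≤ K) ∧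
      ∀ᵐ s ∂ν, Tendsto (fun n => c n s) atTop (𝓝 (η s)) := by
  have hK0 : 0 ≤ K := (abs_nonneg _).trans (hK 0)
  have hm : MemLp η 2 ν := MemLp.of_bound hη.aestronglyMeasurable K
    (Eventually.of_forall fun s => by rw [Real.norm_eq_abs]; exact hK s)
  have hpos : ∀ n : ℕ, ((n : ℝ≥0∞) + 1)⁻¹ ≠ 0 := fun n =>
    ENNReal.inv_ne_zero.2 (by finiteness)
  choose g hg hgm using fun n : ℕ =>
    hm.exists_boundedContinuous_eLpNorm_sub_le (by norm_num : (2 : ℝ≥0∞) ≠ ⊤) (hpos n)
  have hz : Tendsto (fun n : ℕ => ((n : ℝ≥0∞) + 1)⁻¹) atTop (𝓝 0) := by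
    have := ENNReal.tendsto_inv_nat_nhds_zero
    have h3 := this.comp (tendsto_add_atTop_nat 1)
    refine h3.congr fun n => ?_
    simp
  have t1 : Tendsto (fun n => eLpNorm ((g n : ℝ → ℝ) - η) 2 ν) atTop (𝓝 0) := by
    refine tendsto_of_tendsto_of_tendsto_of_le_of_le tendsto_const_nhds hz (fun _ => zero_le)
      fun n => ?_
    show eLpNorm ((g n : ℝ → ℝ) - η) 2 ν ≤ _
    rw [eLpNorm_sub_comm]
    exact hg n
  obtain ⟨ns, -, hns⟩ := (tendstoInMeasure_of_tendsto_eLpNorm (by norm_num)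
    (fun n => (hgm n).1) hm.1 t1).exists_seq_tendsto_ae
  refine ⟨fun n s => max (-K) (min (g (ns n) s) K), fun n => ?_, fun n s => ?_, ?_⟩
  · exact continuous_const.max ((g (ns n)).continuous.min continuous_const)
  · rw [abs_le]
    exact ⟨le_max_left _ _, max_le (by linarith) (min_le_right _ _)⟩
  · filter_upwards [hns] with s hs
    have h1 := (tendsto_const_nhds (x := -K)).max (hs.min (tendsto_const_nhds (x := K)))
    have h2 : max (-K) (min (η s) K) = η s := by
      have := abs_le.1 (hK s)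
      rw [min_eq_left this.2, max_eq_right this.1]
    rwa [h2] at h1

theorem ii {η : ℝ → ℝ} {K : ℝ} (hη : Measurable η) (hK : ∀ s, |η s| ≤ K) (a b : ℝ) :
    IntervalIntegrable η volume a b := by
  refine (intervalIntegrable_const (c := K)).mono_fun hη.aestronglyMeasurable ?_
  refine Eventually.of_forall fun s => ?_
  show |η s| ≤ |K|
  exact (hK s).trans (le_abs_self K)

theorem prim_cont {η : ℝ → ℝ} {K : ℝ} (hη : Measurable η) (hK : ∀ s, |η s| ≤ K) :
    Continuous fun s => ∫ t in (0 : ℝ)..s, η t :=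
  intervalIntegral.continuous_primitive (fun a b => ii hη hK a b) 0

theorem prim_le {η : ℝ → ℝ} {K : ℝ} (hK : ∀ s, |η s| ≤ K) (s : ℝ) :
    |∫ t in (0 : ℝ)..s, η t| ≤ K * |s| := by
  have := intervalIntegral.norm_integral_le_of_norm_le_const (a := 0) (b := s) (f := η) (C := K)
    (fun x _ => by rw [Real.norm_eq_abs]; exact hK x)
  rwa [Real.norm_eq_abs, sub_zero] at this

theorem prim_lim {η : ℝ → ℝ} {K : ℝ} {c : ℕ → ℝ → ℝ} (hc : ∀ n, Continuous (c n))
    (hcK : ∀ n s, |c n s| ≤ K) (ht : ∀ᵐ s, Tendsto (fun n => c n s) atTop (𝓝 (η s))) (s : ℝ) :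
    Tendsto (fun n => ∫ t in (0 : ℝ)..s, c n t) atTop (𝓝 (∫ t in (0 : ℝ)..s, η t)) := by
  refine intervalIntegral.tendsto_integral_filter_of_dominated_convergence (fun _ => K)
    (Eventually.of_forall fun n => (hc n).aestronglyMeasurable)
    (Eventually.of_forall fun n => Eventually.of_forall fun x _ => ?_)
    intervalIntegrable_const ?_
  · rw [Real.norm_eq_abs]; exact hcK n x
  · filter_upwards [ht] with x hx _
    exact hx

end BCH_

open BCH_ in
/-- BCH -/
theorem p_BCH (h_BCC : T_BCC) : T_BCH := by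
  intro E _ _ _ _ _ _ ι _ e G f F η K hG h hη hK
  have hK0 : 0 ≤ K := (abs_nonneg _).trans (hK 0)
  obtain ⟨f', hf'⟩ : ∃ f', f' = h.1.1.mk f := ⟨_, rfl⟩
  have hm' : Measurable f' := by
    rw [hf']; exact h.1.1.stronglyMeasurable_mk.measurable
  have hff' : f =ᵐ[volume] f' := by
    rw [hf']; exact h.1.1.ae_eq_mk
  have h' : H1 e G f' F := h.congr hff' fun i => ae_eq_refl _
  suffices hs : H1 e G (fun P => ∫ t in (0 : ℝ)..(f' P), η t) (fun i P => η (f' P) * F i P) by
    refine hs.congr ?_ fun i => ?_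
    · filter_upwards [hff'] with P hP
      rw [hP]
    · filter_upwards [hff'] with P hP
      rw [hP]
  obtain ⟨c, hc, hcK, hct⟩ := approx ((volume : Measure ℝ).toFinite +
    (volume : Measure E).toFinite.map f') η K hη hK
  rw [ae_add_measure_iff] at hct
  have hct1 : ∀ᵐ s, Tendsto (fun n => c n s) atTop (𝓝 (η s)) := by
    have := hct.1
    rwa [ae_toFinite] at this
  have hct2 : ∀ᵐ P : E, Tendsto (fun n => c n (f' P)) atTop (𝓝 (η (f' P))) := by
    have := ae_of_ae_map hm'.aemeasurable hct.2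
    rwa [ae_toFinite] at this
  have hcm : ∀ n, Measurable (c n) := fun n => (hc n).measurable
  have hη' : Measurable fun P => η (f' P) := hη.comp hm'
  refine H1.lim (g := fun n P => ∫ t in (0 : ℝ)..(f' P), c n t)
    (Fg := fun n i P => c n (f' P) * F i P) ?_ (fun i => ?_)
    (fun n => h_BCC E ι e G f' F (c n) K hG h' (hc n) (hcK n)) ?_ (fun i => ?_)
  · refine MemLp.of_le_mul (c := K) h'.1 ?_ (Eventually.of_forall fun P => ?_)
    · exact ((prim_cont hη hK).measurable.comp hm').aestronglyMeasurable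
    · rw [Real.norm_eq_abs, Real.norm_eq_abs]
      exact prim_le hK _
  · refine MemLp.of_le_mul (c := K) (h'.2.1 i) ?_ (Eventually.of_forall fun P => ?_)
    · exact hη'.aestronglyMeasurable.mul (h'.2.1 i).1
    · rw [norm_mul, Real.norm_eq_abs]
      exact mul_le_mul_of_nonneg_right (hK _) (norm_nonneg _)
  · refine dom (g := fun P => (2 * K) * f' P) (fun n => ?_) (h'.1.const_mul _) (fun n P => ?_) ?_
    · exact (((prim_cont (hcm n) (hcK n)).measurable.comp hm').sub
        ((prim_cont hη hK).measurable.comp hm')).aestronglyMeasurable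
    · have h1 := prim_le (hcK n) (f' P)
      have h2 := prim_le hK (f' P)
      rw [abs_mul, abs_of_nonneg (by linarith : 0 ≤ 2 * K)]
      refine (abs_sub _ _).trans ?_
      linarith
    · refine Eventually.of_forall fun P => ?_
      have h1 := (prim_lim hc hcK hct1 (f' P)).sub_const (∫ t in (0 : ℝ)..(f' P), η t)
      rwa [sub_self] at h1
  · refine dom (g := fun P => (2 * K) * F i P) (fun n => ?_) ((h'.2.1 i).const_mul _)
      (fun n P => ?_) ?_
    · exact (((hcm n).comp hm').aestronglyMeasurable.mul (h'.2.1 i).1).sub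
        (hη'.aestronglyMeasurable.mul (h'.2.1 i).1)
    · have h1 : c n (f' P) * F i P - η (f' P) * F i P = (c n (f' P) - η (f' P)) * F i P := by ring
      show |c n (f' P) * F i P - η (f' P) * F i P| ≤ _
      rw [h1, abs_mul, abs_mul, abs_of_nonneg (by linarith : 0 ≤ 2 * K)]
      refine mul_le_mul_of_nonneg_right ((abs_sub _ _).trans ?_) (abs_nonneg _)
      linarith [hcK n (f' P), hK (f' P)]
    · filter_upwards [hct2] with P hP
      have h1 := (hP.mul_const (F i P)).sub_const (η (f' P) * F i P)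
      rwa [sub_self] at h1

end MGS

end
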