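import Pool.Agent.MGS.TC

/-!
# BM1: the Brunn-Minkowski inequality in the plane
-/

set_option autoImplicit false

open MeasureTheory Filter Topology Metric Set
open scoped ENNReal NNReal ContDiff Pointwise

noncomputable section

namespace MGS

namespace BM1_

/-- the one dimensional inequality for compact sets -/
theorem one_compact {K L C : Set ℝ} (hK : IsCompact K) (hL : IsCompact L) (hKn : K.Nonempty)
    (hLn : L.Nonempty) (hC : ∀ x ∈ K, ∀ y ∈ L, x + y ∈ C) : volume K + volume L ≤ volume C := by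
  obtain ⟨a, haK, ha⟩ := hK.exists_isGreatest hKn
  obtain ⟨b, hbL, hb⟩ := hL.exists_isLeast hLn
  have h1 : volume ((fun x => b + x) '' K) = volume K := by
    rw [Set.image_add_left, measure_preimage_add]
  have h2 : volume ((fun x => a + x) '' L) = volume L := by
    rw [Set.image_add_left, measure_preimage_add]
  have hmL : MeasurableSet ((fun x => a + x) '' L) :=
    (hL.image (by fun_prop)).measurableSet
  have hdis : AEDisjoint volume ((fun x => b + x) '' K) ((fun x => a + x) '' L) := by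
    refine measure_mono_null (t := {a + b}) ?_ (by simp)
    rintro z ⟨⟨x, hx, rfl⟩, ⟨y, hy, hxy⟩⟩
    have h3 := ha hx
    have h4 := hb hy
    have h5 : a + y = b + x := hxy
    show b + x = a + b
    linarith
  rw [← h1, ← h2, ← measure_union₀ hmL.nullMeasurableSet hdis]
  refine measure_mono ?_
  rintro z (⟨x, hx, rfl⟩ | ⟨y, hy, rfl⟩)
  · show b + x ∈ C
    rw [add_comm]
    exact hC x hx b hbL
  · exact hC a haK y hy

theorem le_iSup_compact {S : Set ℝ} (hS : MeasurableSet S) :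
    volume S ≤ ⨆ K : {K : Set ℝ // K ⊆ S ∧ IsCompact K ∧ K.Nonempty}, volume K.1 := by
  refine le_of_forall_lt fun a ha => ?_
  obtain ⟨K, hKS, hK, haK⟩ := hS.exists_lt_isCompact ha
  have hKn : K.Nonempty := by
    rw [Set.nonempty_iff_ne_empty]
    rintro rfl
    simp at haK
  exact haK.trans_le (le_iSup (fun K : {K : Set ℝ // K ⊆ S ∧ IsCompact K ∧ K.Nonempty} =>
    volume K.1) ⟨K, hKS, hK, hKn⟩)

/-- the one dimensional inequality -/
theorem one {S T C : Set ℝ} (hS : MeasurableSet S) (hT : MeasurableSet T) (hSn : S.Nonempty)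
    (hTn : T.Nonempty) (hC : ∀ x ∈ S, ∀ y ∈ T, x + y ∈ C) : volume S + volume T ≤ volume C := by
  refine (add_le_add (le_iSup_compact hS) (le_iSup_compact hT)).trans ?_
  obtain ⟨s, hs⟩ := hSn
  obtain ⟨t, ht⟩ := hTn
  have : Nonempty {K : Set ℝ // K ⊆ S ∧ IsCompact K ∧ K.Nonempty} :=
    ⟨⟨{s}, by simpa using hs, isCompact_singleton, ⟨s, rfl⟩⟩⟩
  have : Nonempty {K : Set ℝ // K ⊆ T ∧ IsCompact K ∧ K.Nonempty} :=
    ⟨⟨{t}, by simpa using ht, isCompact_singleton, ⟨t, rfl⟩⟩⟩
  refine ENNReal.iSup_add_iSup_le fun K L => ?_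
  exact one_compact K.2.2.1 L.2.2.1 K.2.2.2 L.2.2.2
    fun x hx y hy => hC x (K.2.1 hx) y (L.2.1 hy)

/-- the length of the slice -/
def al (U : Set (ℝ × ℝ)) (x : ℝ) : ℝ := (volume (Prod.mk x ⁻¹' U)).toReal

theorem al_nonneg (U : Set (ℝ × ℝ)) (x : ℝ) : 0 ≤ al U x := ENNReal.toReal_nonneg

theorem slice_open {U : Set (ℝ × ℝ)} (hU : IsOpen U) (x : ℝ) : IsOpen (Prod.mk x ⁻¹' U) :=
  hU.preimage (Continuous.prodMk_right x)

theorem slice_bdd {U : Set (ℝ × ℝ)} (hb : Bornology.IsBounded U) :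
    ∃ R : ℝ, 0 ≤ R ∧ ∀ x, volume (Prod.mk x ⁻¹' U) ≤ ENNReal.ofReal (2 * R) := by
  obtain ⟨R, hR⟩ := hb.subset_closedBall 0
  refine ⟨max R 0, le_max_right _ _, fun x => ?_⟩
  rw [← Real.volume_closedBall (0 : ℝ)]
  refine measure_mono fun y hy => ?_
  have h1 := hR hy
  rw [mem_closedBall, dist_zero_right] at h1 ⊢
  exact ((norm_snd_le (x, y)).trans h1).trans (le_max_left _ _)

theorem slice_fin {U : Set (ℝ × ℝ)} (hb : Bornology.IsBounded U) (x : ℝ) :
    volume (Prod.mk x ⁻¹' U) ≠ ⊤ := by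
  obtain ⟨R, _, hR⟩ := slice_bdd hb
  exact ((hR x).trans_lt ENNReal.ofReal_lt_top).ne

theorem ofReal_al {U : Set (ℝ × ℝ)} (hb : Bornology.IsBounded U) (x : ℝ) :
    ENNReal.ofReal (al U x) = volume (Prod.mk x ⁻¹' U) := ENNReal.ofReal_toReal (slice_fin hb x)

theorem al_bdd {U : Set (ℝ × ℝ)} (hb : Bornology.IsBounded U) : BddAbove (range (al U)) := by
  obtain ⟨R, hR0, hR⟩ := slice_bdd hb
  refine ⟨2 * R, ?_⟩
  rintro _ ⟨x, rfl⟩
  refine (ENNReal.toReal_mono ENNReal.ofReal_ne_top (hR x)).trans (le_of_eq ?_)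
  exact ENNReal.toReal_ofReal (by positivity)

theorem al_meas {U : Set (ℝ × ℝ)} (hU : IsOpen U) : Measurable (al U) :=
  (measurable_measure_prodMk_left hU.measurableSet).ennreal_toReal

/-- the largest length of a slice -/
def mx (U : Set (ℝ × ℝ)) : ℝ := ⨆ x, al U x

theorem mx_pos {U : Set (ℝ × ℝ)} (hU : IsOpen U) (hb : Bornology.IsBounded U)
    (hn : U.Nonempty) : 0 < mx U := by
  obtain ⟨⟨x, y⟩, hxy⟩ := hn
  have h1 : 0 < volume (Prod.mk x ⁻¹' U) := (slice_open hU x).measure_pos volume ⟨y, hxy⟩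
  have h2 : 0 < al U x := ENNReal.toReal_pos h1.ne' (slice_fin hb x)
  exact h2.trans_le (le_ciSup (al_bdd hb) x)

theorem layer {U : Set (ℝ × ℝ)} (hU : IsOpen U) (hb : Bornology.IsBounded U) {M : ℝ}
    (hM : 0 < M) : ∫⁻ t in Ioi (0 : ℝ), volume {x : ℝ | t < al U x / M} =
      ENNReal.ofReal ((volume U).toReal / M) := by
  have h1 := lintegral_eq_lintegral_meas_lt (volume : Measure ℝ) (f := fun x => al U x / M)
    (Eventually.of_forall fun x => div_nonneg (al_nonneg U x) hM.le)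
    ((al_meas hU).div_const M).aemeasurable
  rw [← h1]
  have h2 : ∀ x, ENNReal.ofReal (al U x / M) =
      volume (Prod.mk x ⁻¹' U) * (ENNReal.ofReal M)⁻¹ := by
    intro x
    rw [ENNReal.ofReal_div_of_pos hM, ofReal_al hb, div_eq_mul_inv]
  simp_rw [h2]
  rw [lintegral_mul_const' _ _ (by simpa using hM), ← Measure.prod_apply hU.measurableSet,
    ← Measure.volume_eq_prod, ENNReal.ofReal_div_of_pos hM,
    ENNReal.ofReal_toReal hb.measure_lt_top.ne, div_eq_mul_inv]

theorem layer01 {U : Set (ℝ × ℝ)} (hU : IsOpen U) (hb : Bornology.IsBounded U)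
    (hn : U.Nonempty) : ∫⁻ t in Ioo (0 : ℝ) 1, volume {x : ℝ | t < al U x / mx U} =
      ENNReal.ofReal ((volume U).toReal / mx U) := by
  have hM := mx_pos hU hb hn
  rw [← layer hU hb hM]
  have h1 : Ioi (0 : ℝ) = Ioo 0 1 ∪ Ici 1 := (Ioo_union_Ici_eq_Ioi (by norm_num)).symm
  have h2 : Disjoint (Ioo (0 : ℝ) 1) (Ici 1) := by
    rw [Set.disjoint_left]
    intro x hx hx'
    exact absurd hx.2 (not_lt.2 hx')
  rw [h1, lintegral_union measurableSet_Ici h2]
  have h3 : ∫⁻ t in Ici (1 : ℝ), volume {x : ℝ | t < al U x / mx U} = 0 := by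
    have h4 : ∀ t ∈ Ici (1 : ℝ), volume {x : ℝ | t < al U x / mx U} = 0 := by
      intro t ht
      have h5 : {x : ℝ | t < al U x / mx U} = ∅ := by
        rw [Set.eq_empty_iff_forall_notMem]
        intro x hx
        have h6 : al U x / mx U ≤ 1 := (div_le_one hM).2 (le_ciSup (al_bdd hb) x)
        have h7 : t < al U x / mx U := hx
        have h8 : (1 : ℝ) ≤ t := ht
        linarith
      rw [h5, measure_empty]
    rw [setLIntegral_congr_fun measurableSet_Ici h4, lintegral_zero]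
  rw [h3, add_zero]

theorem level_nonempty {U : Set (ℝ × ℝ)} (hU : IsOpen U) (hb : Bornology.IsBounded U)
    (hn : U.Nonempty) {t : ℝ} (ht : t < 1) : {x : ℝ | t < al U x / mx U}.Nonempty := by
  have hM := mx_pos hU hb hn
  have h1 : t * mx U < ⨆ x, al U x := by
    show t * mx U < mx U
    have := mul_lt_mul_of_pos_right ht hM
    linarith
  obtain ⟨x, hx⟩ := exists_lt_of_lt_ciSup h1
  exact ⟨x, (lt_div_iff₀ hM).2 hx⟩

theorem level_meas {U : Set (ℝ × ℝ)} (hU : IsOpen U) (M t : ℝ) :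
    MeasurableSet {x : ℝ | t < al U x / M} :=
  measurableSet_lt measurable_const ((al_meas hU).div_const M)

/-- the key inequality -/
theorem key {U V : Set (ℝ × ℝ)} (hU : IsOpen U) (hV : IsOpen V) (hUb : Bornology.IsBounded U)
    (hVb : Bornology.IsBounded V) (hUn : U.Nonempty) (hVn : V.Nonempty) :
    (volume U).toReal / mx U + (volume V).toReal / mx V ≤
      (volume (U + V)).toReal / (mx U + mx V) := by
  have hM := mx_pos hU hUb hUn
  have hN := mx_pos hV hVb hVn
  have hW : IsOpen (U + V) := hU.add_right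
  have hWb : Bornology.IsBounded (U + V) := hUb.add hVb
  have hMN : 0 < mx U + mx V := by linarith
  have h1 : ENNReal.ofReal ((volume U).toReal / mx U + (volume V).toReal / mx V) ≤
      ENNReal.ofReal ((volume (U + V)).toReal / (mx U + mx V)) := by
    rw [ENNReal.ofReal_add (by positivity) (by positivity), ← layer01 hU hUb hUn,
      ← layer01 hV hVb hVn, ← layer hW hWb hMN]
    have h2 : Measurable fun t : ℝ => volume {x : ℝ | t < al U x / mx U} := by
      refine Antitone.measurable fun s t hst => measure_mono fun x hx => ?_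
      exact lt_of_le_of_lt hst hx
    rw [← lintegral_add_left h2]
    refine le_trans ?_ (lintegral_mono_set (show Ioo (0 : ℝ) 1 ⊆ Ioi 0 from fun x hx => hx.1))
    refine setLIntegral_mono' measurableSet_Ioo fun t ht => ?_
    refine one (level_meas hU _ _) (level_meas hV _ _) (level_nonempty hU hUb hUn ht.2)
      (level_nonempty hV hVb hVn ht.2) fun x hx y hy => ?_
    have hx1 : t * mx U < al U x := (lt_div_iff₀ hM).1 hx
    have hy1 : t * mx V < al V y := (lt_div_iff₀ hN).1 hy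
    show t < al (U + V) (x + y) / (mx U + mx V)
    rw [lt_div_iff₀ hMN]
    have hx2 : 0 < al U x := (mul_pos ht.1 hM).trans hx1
    have hy2 : 0 < al V y := (mul_pos ht.1 hN).trans hy1
    have hxn : (Prod.mk x ⁻¹' U).Nonempty := by
      rw [Set.nonempty_iff_ne_empty]
      intro h
      unfold al at hx2
      rw [h] at hx2
      simp at hx2
    have hyn : (Prod.mk y ⁻¹' V).Nonempty := by
      rw [Set.nonempty_iff_ne_empty]
      intro h
      unfold al at hy2
      rw [h] at hy2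
      simp at hy2
    have h3 := one (slice_open hU x).measurableSet (slice_open hV y).measurableSet hxn hyn
      (C := Prod.mk (x + y) ⁻¹' (U + V)) fun a ha b hb =>
        Set.add_mem_add (show (x, a) ∈ U from ha) (show (y, b) ∈ V from hb)
    have h4 := ENNReal.toReal_mono (slice_fin hWb (x + y)) h3
    rw [ENNReal.toReal_add (slice_fin hUb x) (slice_fin hVb y)] at h4
    have h5 : al U x + al V y ≤ al (U + V) (x + y) := h4
    linarith
  exact (ENNReal.ofReal_le_ofReal_iff (by positivity)).1 h1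

end BM1_

open BM1_ in
/-- BM1 -/
theorem p_BM1 : T_BM1 := by
  intro U V hU hV hUb hVb hUn hVn
  have hM := mx_pos hU hUb hUn
  have hN := mx_pos hV hVb hVn
  have hk := key hU hV hUb hVb hUn hVn
  obtain ⟨u, hu⟩ : ∃ u, u = Real.sqrt (volume U).toReal := ⟨_, rfl⟩
  obtain ⟨v, hv⟩ : ∃ v, v = Real.sqrt (volume V).toReal := ⟨_, rfl⟩
  have hu0 : 0 ≤ u := by rw [hu]; exact Real.sqrt_nonneg _
  have hv0 : 0 ≤ v := by rw [hv]; exact Real.sqrt_nonneg _
  have hu2 : (volume U).toReal = u ^ 2 := by rw [hu, Real.sq_sqrt ENNReal.toReal_nonneg]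
  have hv2 : (volume V).toReal = v ^ 2 := by rw [hv, Real.sq_sqrt ENNReal.toReal_nonneg]
  rw [← hu, ← hv]
  refine Real.le_sqrt_of_sq_le ?_
  rw [hu2, hv2] at hk
  generalize (volume (U + V)).toReal = w at hk ⊢
  generalize mx U = M at hM hk
  generalize mx V = N at hN hk
  have h1 : (u ^ 2 / M + v ^ 2 / N) * (M + N) ≤ w := by
    rwa [le_div_iff₀ (by linarith)] at hk
  have h2 : (u + v) ^ 2 ≤ (u ^ 2 / M + v ^ 2 / N) * (M + N) := by
    have h3 : (u ^ 2 / M + v ^ 2 / N) * (M + N) - (u + v) ^ 2 = (u * N - v * M) ^ 2 / (M * N) := by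
      field_simp
      ring
    have h4 : 0 ≤ (u * N - v * M) ^ 2 / (M * N) := by positivity
    linarith
  exact h2.trans h1

end MGS

end
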