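import Pool.Agent.MGS.TC

/-!
# MGS: target BM2 (helper12)
-/

set_option autoImplicit false

open MeasureTheory Filter Topology Metric Set
open scoped ENNReal NNReal ContDiff Pointwise

noncomputable section

namespace MGS

/-- the linear equivalence of `ℂ` and the plane preserves the volume of every set -/
theorem BM2_vol (S : Set ℂ) : volume (Complex.equivRealProdCLM '' S) = volume S := by
  have h1 : (Complex.measurableEquivRealProd : ℂ → ℝ × ℝ) = Complex.equivRealProdCLM := by
    funext z
    rw [Complex.measurableEquivRealProd_apply]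
    rfl
  have h2 := Complex.volume_preserving_equiv_real_prod.measure_preimage_equiv
    (Complex.equivRealProdCLM '' S)
  rw [h1] at h2
  rw [← h2]
  congr 1
  exact preimage_image_eq S Complex.equivRealProdCLM.injective

/-- Brunn-Minkowski for a set and a disc -/
theorem p_BM2 (h_BM1 : T_BM1) : T_BM2 := by
  intro U h hU hUb hUn hh
  set e := Complex.equivRealProdCLM with he
  have hopen : ∀ S : Set ℂ, IsOpen S → IsOpen (e '' S) := fun S hS =>
    e.toHomeomorph.isOpenMap S hS
  have hbd : ∀ S : Set ℂ, Bornology.IsBounded S → Bornology.IsBounded (e '' S) := fun S hS =>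
    e.toContinuousLinearMap.lipschitz.isBounded_image hS
  have hb : (ball (0 : ℂ) h).Nonempty := ⟨0, mem_ball_self hh⟩
  have key := h_BM1 (e '' U) (e '' ball 0 h) (hopen _ hU) (hopen _ isOpen_ball) (hbd _ hUb)
    (hbd _ isBounded_ball) (hUn.image _) (hb.image _)
  have himg : e '' U + e '' ball 0 h = e '' (U + ball 0 h) := (Set.image_add e).symm
  rw [himg, BM2_vol, BM2_vol, BM2_vol] at key
  have hball : (volume (ball (0 : ℂ) h)).toReal = Real.pi * h ^ 2 := by
    rw [Complex.volume_ball, ENNReal.toReal_mul, ENNReal.toReal_pow, ENNReal.toReal_ofReal hh.le,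
      mul_comm]
    rfl
  rw [hball] at key
  set u := (volume U).toReal with hu
  set w := (volume (U + ball (0 : ℂ) h)).toReal with hw
  have hu0 : 0 ≤ u := ENNReal.toReal_nonneg
  have hw0 : 0 ≤ w := ENNReal.toReal_nonneg
  have hpi := Real.pi_pos
  have hv : Real.sqrt (Real.pi * h ^ 2) = Real.sqrt Real.pi * h := by
    rw [Real.sqrt_mul hpi.le, Real.sqrt_sq hh.le]
  have huu : Real.sqrt (Real.pi * u) = Real.sqrt Real.pi * Real.sqrt u := Real.sqrt_mul hpi.le u
  rw [hv] at key
  rw [huu]
  have h1 : (Real.sqrt u + Real.sqrt Real.pi * h) ^ 2 ≤ Real.sqrt w ^ 2 := by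
    have : 0 ≤ Real.sqrt u + Real.sqrt Real.pi * h := by positivity
    exact pow_le_pow_left₀ this key 2
  rw [Real.sq_sqrt hw0] at h1
  have h2 := Real.sq_sqrt hu0
  have h3 := Real.sq_sqrt hpi.le
  nlinarith [h1, h2, h3]

end MGS
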