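import Pool.Agent.MGS.TC

/-!
# MGS: target `BOR` (comparison on continuous functions implies comparison on Borel sets)
-/

set_option autoImplicit false

open MeasureTheory Filter Topology Metric Set
open scoped ENNReal NNReal ContDiff Pointwise

noncomputable section

namespace MGS

theorem BOR_int (μ : Measure ℝ) (a b : ℝ) (f : ℝ → ℝ) (hμ : μ (Icc a b) < ⊤)
    (hf : Continuous f) (h01 : ∀ x, f x ∈ Icc (0 : ℝ) 1) (hz : ∀ x, x ∉ Icc a b → f x = 0) :
    Integrable f μ := by
  have : IsFiniteMeasure (μ.restrict (Icc a b)) := ⟨by simpa using hμ⟩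
  have h1 : IntegrableOn f (Icc a b) μ := by
    refine Integrable.of_bound hf.aestronglyMeasurable 1 (Eventually.of_forall fun x => ?_)
    rw [Real.norm_eq_abs, abs_of_nonneg (h01 x).1]
    exact (h01 x).2
  rw [← integrableOn_iff_integrable_of_support_subset (s := Icc a b)]
  · exact h1
  · intro x hx
    by_contra hcon
    exact hx (hz x hcon)

theorem BOR_cpt (μ ν : Measure ℝ)
    (h : ∀ s t, 0 < s → s < t → μ (Icc s t) < ⊤ ∧ ν (Icc s t) < ⊤)
    (hφ : ∀ φ : ℝ → ℝ, Continuous φ → HasCompactSupport φ → tsupport φ ⊆ Ioi 0 → (∀ s, 0 ≤ φ s) →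
      ∫ s, φ s ∂μ ≤ ∫ s, φ s ∂ν) (K : Set ℝ) (hK : IsCompact K) (hK0 : K ⊆ Ioi 0) :
    μ K ≤ ν K := by
  rcases K.eq_empty_or_nonempty with rfl | hne
  · simp
  have ha0 : 0 < sInf K := hK0 (hK.sInf_mem hne)
  have hKI : K ⊆ Icc (sInf K) (sSup K) := fun x hx =>
    ⟨csInf_le hK.bddBelow hx, le_csSup hK.bddAbove hx⟩
  have hab : sInf K ≤ sSup K := by
    obtain ⟨x, hx⟩ := hne
    exact (hKI hx).1.trans (hKI hx).2
  set a := sInf K / 2 with ha
  set b := sSup K + 1 with hb
  have ha1 : 0 < a := by positivity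
  have hab' : a < b := by linarith
  have hKV : K ⊆ Ioo a b := fun x hx =>
    ⟨by have := (hKI hx).1; linarith, by have := (hKI hx).2; linarith⟩
  obtain ⟨hμ, hν⟩ := h a b ha1 hab'
  have hfin : IsFiniteMeasure (ν.restrict (Icc a b)) := ⟨by simpa using hν⟩
  have hνK : ν.restrict (Icc a b) K = ν K := by
    rw [Measure.restrict_apply hK.measurableSet,
      Set.inter_eq_self_of_subset_left (hKV.trans Ioo_subset_Icc_self)]
  refine le_of_forall_gt fun r hr => ?_
  rw [← hνK] at hr
  obtain ⟨U, hKU, hU, hUr⟩ := K.exists_isOpen_lt_of_lt r hr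
  have hV : IsOpen (U ∩ Ioo a b) := hU.inter isOpen_Ioo
  obtain ⟨f, hf1, hf0, hfc, hf01⟩ := exists_continuous_one_zero_of_isCompact hK
    (isClosed_compl_iff.2 hV) (by
      rw [Set.disjoint_compl_right_iff_subset]
      exact fun x hx => ⟨hKU hx, hKV hx⟩)
  have hz : ∀ x, x ∉ Icc a b → f x = 0 := fun x hx =>
    hf0 fun hx2 => hx (Ioo_subset_Icc_self hx2.2)
  have hts : tsupport f ⊆ Icc a b := by
    refine closure_minimal ?_ isClosed_Icc
    intro x hx
    by_contra hcon
    exact hx (hz x hcon)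
  have hle := hφ f f.continuous hfc (fun x hx => lt_of_lt_of_le ha1 (hts hx).1)
    fun s => (hf01 s).1
  have hiμ := BOR_int μ a b f hμ f.continuous hf01 hz
  have hiν := BOR_int ν a b f hν f.continuous hf01 hz
  have e1 : μ K ≤ ∫⁻ x, ENNReal.ofReal (f x) ∂μ := by
    refine meas_le_lintegral₀ (f.continuous.measurable.ennreal_ofReal.aemeasurable) fun x hx => ?_
    rw [hf1 hx]
    simp
  have e2 : ∫⁻ x, ENNReal.ofReal (f x) ∂ν ≤ ν (U ∩ Ioo a b) := by
    refine lintegral_le_meas (fun x => ?_) fun x hx => ?_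
    · rw [ENNReal.ofReal_le_one]
      exact (hf01 x).2
    · rw [hf0 hx]
      simp
  have e3 : ∫⁻ x, ENNReal.ofReal (f x) ∂μ ≤ ∫⁻ x, ENNReal.ofReal (f x) ∂ν := by
    rw [← ofReal_integral_eq_lintegral_ofReal hiμ (Eventually.of_forall fun x => (hf01 x).1),
      ← ofReal_integral_eq_lintegral_ofReal hiν (Eventually.of_forall fun x => (hf01 x).1)]
    exact ENNReal.ofReal_le_ofReal hle
  have e4 : ν (U ∩ Ioo a b) ≤ ν.restrict (Icc a b) U := by
    rw [Measure.restrict_apply hU.measurableSet]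
    exact measure_mono (Set.inter_subset_inter_right U Ioo_subset_Icc_self)
  exact lt_of_le_of_lt (e1.trans (e3.trans (e2.trans e4))) hUr

theorem p_BOR : T_BOR := by
  intro μ ν h hφ S hS0 hS
  set I : ℕ → Set ℝ := fun n => Icc (1 / ((n : ℝ) + 1)) ((n : ℝ) + 2) with hI
  have hmono : Monotone fun n => S ∩ I n := by
    intro m n hmn
    refine Set.inter_subset_inter_right S ?_
    have hmn' : (m : ℝ) ≤ n := by exact_mod_cast hmn
    exact Icc_subset_Icc (one_div_le_one_div_of_le (by positivity) (by linarith)) (by linarith)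
  have hun : S = ⋃ n, S ∩ I n := by
    ext x
    constructor
    · intro hx
      have hx0 : 0 < x := hS0 hx
      obtain ⟨n, hn⟩ := exists_nat_gt (max x (1 / x))
      have h1 : x < n := (le_max_left _ _).trans_lt hn
      have h2 : 1 / x < n := (le_max_right _ _).trans_lt hn
      rw [Set.mem_iUnion]
      refine ⟨n, hx, ?_, by linarith⟩
      rw [div_lt_iff₀ hx0] at h2
      rw [div_le_iff₀ (by positivity)]
      nlinarith
    · intro hx
      obtain ⟨n, hn⟩ := Set.mem_iUnion.1 hx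
      exact hn.1
  rw [hun, hmono.measure_iUnion]
  rw [← hun]
  refine iSup_le fun n => ?_
  obtain ⟨hμ, hν⟩ := h (1 / ((n : ℝ) + 1)) ((n : ℝ) + 2) (by positivity) (by
    rw [div_lt_iff₀ (by positivity)]
    have : (0 : ℝ) ≤ n := Nat.cast_nonneg n
    nlinarith)
  have hfin : IsFiniteMeasure (μ.restrict (I n)) := ⟨by simpa [hI] using hμ⟩
  have e0 : μ (S ∩ I n) = μ.restrict (I n) S := by rw [Measure.restrict_apply hS]
  rw [e0]
  refine le_of_forall_lt fun r hr => ?_
  obtain ⟨K, hKS, hK, hrK⟩ := hS.exists_lt_isCompact_of_ne_top (measure_ne_top _ _) hr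
  refine hrK.trans_le ?_
  rw [Measure.restrict_apply hK.measurableSet]
  have hKI : IsCompact (K ∩ I n) := hK.inter_right isClosed_Icc
  refine (BOR_cpt μ ν h hφ (K ∩ I n) hKI fun x hx => hS0 (hKS hx.1)).trans ?_
  exact measure_mono fun x hx => hKS hx.1

end MGS
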