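import Pool.Agent.MGS.TA

/-!
# MGS: proof of the target BOX (Poincare inequality on a cube)
-/

set_option autoImplicit false

open MeasureTheory Filter Topology Metric Set
open scoped ENNReal NNReal ContDiff

noncomputable section

namespace MGS

namespace BOX_

/-- double integral of the squared differences -/
def En {A : Type} [MeasurableSpace A] (μ : Measure A) (f : A → ℝ) : ℝ≥0∞ :=
  ∫⁻ a, ∫⁻ a', ‖f a - f a'‖ₑ ^ 2 ∂μ ∂μ

section prod

variable {A B : Type} [MeasurableSpace A] [MeasurableSpace B] (α : Measure A)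
    (β : Measure B) [SFinite α] [SFinite β] (f : A × B → ℝ)

/-- the difference in the first coordinate -/
def D1 (q : (A × B) × (A × B)) : ℝ≥0∞ := ‖f q.1 - f (q.2.1, q.1.2)‖ₑ ^ 2

/-- the difference in the second coordinate -/
def D2 (q : (A × B) × (A × B)) : ℝ≥0∞ := ‖f (q.2.1, q.1.2) - f q.2‖ₑ ^ 2

variable {f}

lemma D1_meas (hf : Measurable f) : Measurable (D1 f) :=
  ((hf.comp measurable_fst).sub (hf.comp ((measurable_fst.comp measurable_snd).prodMk
    (measurable_snd.comp measurable_fst)))).enorm.pow_const 2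

lemma D2_meas (hf : Measurable f) : Measurable (D2 f) :=
  ((hf.comp ((measurable_fst.comp measurable_snd).prodMk
    (measurable_snd.comp measurable_fst))).sub (hf.comp measurable_snd)).enorm.pow_const 2

lemma D1_int (hf : Measurable f) (C₁ : ℝ≥0∞) (G₁ : A × B → ℝ≥0∞) (hG₁ : Measurable G₁)
    (h₁ : ∀ b, En α (fun a => f (a, b)) ≤ C₁ * ∫⁻ a, G₁ (a, b) ∂α) :
    ∫⁻ z, ∫⁻ z', D1 f (z, z') ∂(α.prod β) ∂(α.prod β) ≤
      β univ * (C₁ * ∫⁻ z, G₁ z ∂(α.prod β)) := by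
  have e1 : ∀ z : A × B, ∫⁻ z', D1 f (z, z') ∂(α.prod β) =
      β univ * ∫⁻ a', ‖f z - f (a', z.2)‖ₑ ^ 2 ∂α := by
    intro z
    have m5 : Measurable fun a' : A => ‖f z - f (a', z.2)‖ₑ ^ 2 :=
      (measurable_const.sub (hf.comp (measurable_id.prodMk measurable_const))).enorm.pow_const 2
    have m3 : Measurable fun z' : A × B => D1 f (z, z') :=
      (D1_meas hf).comp (measurable_const.prodMk measurable_id)
    rw [lintegral_prod (fun z' : A × B => D1 f (z, z')) m3.aemeasurable]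
    have e2 : ∀ a' : A, ∫⁻ b', D1 f (z, (a', b')) ∂β = ‖f z - f (a', z.2)‖ₑ ^ 2 * β univ := by
      intro a'
      have e3 : ∀ b' : B, D1 f (z, (a', b')) = ‖f z - f (a', z.2)‖ₑ ^ 2 := fun _ => rfl
      simp only [e3]
      rw [lintegral_const]
    simp only [e2]
    rw [lintegral_mul_const _ m5, mul_comm]
  have m6 : Measurable fun z : A × B => ∫⁻ a', ‖f z - f (a', z.2)‖ₑ ^ 2 ∂α := by
    have m : Measurable fun q : (A × B) × A => ‖f q.1 - f (q.2, q.1.2)‖ₑ ^ 2 :=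
      ((hf.comp measurable_fst).sub (hf.comp
        (measurable_snd.prodMk (measurable_snd.comp measurable_fst)))).enorm.pow_const 2
    exact m.lintegral_prod_right'
  simp only [e1]
  rw [lintegral_const_mul _ m6]
  refine mul_le_mul_right ?_ _
  rw [lintegral_prod_symm _ m6.aemeasurable, lintegral_prod_symm _ hG₁.aemeasurable,
    ← lintegral_const_mul _ hG₁.lintegral_prod_left']
  exact lintegral_mono fun b => h₁ b

lemma D2_int (hf : Measurable f) (C₂ : ℝ≥0∞) (G₂ : A × B → ℝ≥0∞) (hG₂ : Measurable G₂)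
    (h₂ : ∀ a, En β (fun b => f (a, b)) ≤ C₂ * ∫⁻ b, G₂ (a, b) ∂β) :
    ∫⁻ z, ∫⁻ z', D2 f (z, z') ∂(α.prod β) ∂(α.prod β) ≤
      α univ * (C₂ * ∫⁻ z, G₂ z ∂(α.prod β)) := by
  have e0 : ∫⁻ z, ∫⁻ z', D2 f (z, z') ∂(α.prod β) ∂(α.prod β) =
      ∫⁻ z', ∫⁻ z, D2 f (z, z') ∂(α.prod β) ∂(α.prod β) :=
    lintegral_lintegral_swap (f := fun z z' => D2 f (z, z')) (D2_meas hf).aemeasurable
  have e1 : ∀ z' : A × B, ∫⁻ z, D2 f (z, z') ∂(α.prod β) =
      α univ * ∫⁻ b, ‖f (z'.1, b) - f z'‖ₑ ^ 2 ∂β := by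
    intro z'
    have m8 : Measurable fun z : A × B => D2 f (z, z') :=
      (D2_meas hf).comp (measurable_id.prodMk measurable_const)
    rw [lintegral_prod (fun z : A × B => D2 f (z, z')) m8.aemeasurable]
    have e3 : ∀ a : A, ∫⁻ b, D2 f ((a, b), z') ∂β = ∫⁻ b, ‖f (z'.1, b) - f z'‖ₑ ^ 2 ∂β :=
      fun _ => rfl
    simp only [e3]
    rw [lintegral_const, mul_comm]
  have m9 : Measurable fun z' : A × B => ∫⁻ b, ‖f (z'.1, b) - f z'‖ₑ ^ 2 ∂β := by
    have m : Measurable fun q : (A × B) × B => ‖f (q.1.1, q.2) - f q.1‖ₑ ^ 2 :=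
      ((hf.comp ((measurable_fst.comp measurable_fst).prodMk measurable_snd)).sub
        (hf.comp measurable_fst)).enorm.pow_const 2
    exact m.lintegral_prod_right'
  rw [e0]
  simp only [e1]
  rw [lintegral_const_mul _ m9]
  refine mul_le_mul_right ?_ _
  rw [lintegral_prod _ m9.aemeasurable, lintegral_prod _ hG₂.aemeasurable,
    ← lintegral_const_mul _ hG₂.lintegral_prod_right']
  refine lintegral_mono fun a => ?_
  refine le_trans (le_of_eq ?_) (h₂ a)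
  refine lintegral_congr fun b => lintegral_congr fun b' => ?_
  show ‖f (a, b') - f (a, b)‖ₑ ^ 2 = ‖f (a, b) - f (a, b')‖ₑ ^ 2
  rw [← enorm_neg, neg_sub]

lemma En_prod (hf : Measurable f)
    (s t C₁ C₂ : ℝ≥0∞) (G₁ G₂ : A × B → ℝ≥0∞) (hG₁ : Measurable G₁) (hG₂ : Measurable G₂)
    (hst : ∀ x y : ℝ, ‖x + y‖ₑ ^ 2 ≤ s * ‖x‖ₑ ^ 2 + t * ‖y‖ₑ ^ 2)
    (h₁ : ∀ b, En α (fun a => f (a, b)) ≤ C₁ * ∫⁻ a, G₁ (a, b) ∂α)
    (h₂ : ∀ a, En β (fun b => f (a, b)) ≤ C₂ * ∫⁻ b, G₂ (a, b) ∂β) :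
    En (α.prod β) f ≤ s * (β univ * (C₁ * ∫⁻ z, G₁ z ∂(α.prod β))) +
      t * (α univ * (C₂ * ∫⁻ z, G₂ z ∂(α.prod β))) := by
  have e0 : En (α.prod β) f ≤ ∫⁻ z, (s * (∫⁻ z', D1 f (z, z') ∂(α.prod β)) +
      t * ∫⁻ z', D2 f (z, z') ∂(α.prod β)) ∂(α.prod β) := by
    refine lintegral_mono fun z => ?_
    have m3 : Measurable fun z' : A × B => D1 f (z, z') :=
      (D1_meas hf).comp (measurable_const.prodMk measurable_id)
    have m4 : Measurable fun z' : A × B => D2 f (z, z') :=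
      (D2_meas hf).comp (measurable_const.prodMk measurable_id)
    calc ∫⁻ z', ‖f z - f z'‖ₑ ^ 2 ∂(α.prod β)
        ≤ ∫⁻ z', (s * D1 f (z, z') + t * D2 f (z, z')) ∂(α.prod β) := by
          refine lintegral_mono fun z' => ?_
          have h := hst (f z - f (z'.1, z.2)) (f (z'.1, z.2) - f z')
          rwa [sub_add_sub_cancel] at h
      _ = _ := by
          rw [lintegral_add_left (m3.const_mul s), lintegral_const_mul s m3,
            lintegral_const_mul t m4]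
  refine e0.trans ?_
  have m1 : Measurable fun z : A × B => ∫⁻ z', D1 f (z, z') ∂(α.prod β) :=
    (D1_meas hf).lintegral_prod_right'
  have m2 : Measurable fun z : A × B => ∫⁻ z', D2 f (z, z') ∂(α.prod β) :=
    (D2_meas hf).lintegral_prod_right'
  rw [lintegral_add_left (m1.const_mul s), lintegral_const_mul s m1, lintegral_const_mul t m2]
  exact add_le_add (mul_le_mul_right (D1_int α β hf C₁ G₁ hG₁ h₁) s)
    (mul_le_mul_right (D2_int α β hf C₂ G₂ hG₂ h₂) t)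

end prod

lemma sq_two (x y : ℝ) : ‖x + y‖ₑ ^ 2 ≤ 2 * ‖x‖ₑ ^ 2 + 2 * ‖y‖ₑ ^ 2 := by
  have h : (x + y) ^ 2 ≤ 2 * x ^ 2 + 2 * y ^ 2 := by nlinarith [sq_nonneg (x - y)]
  have e : ∀ u : ℝ, ‖u‖ₑ ^ 2 = ENNReal.ofReal (u ^ 2) := by
    intro u
    rw [Real.enorm_eq_ofReal_abs, ← ENNReal.ofReal_pow (abs_nonneg u), sq_abs]
  rw [e, e, e]
  have h2 : (2 : ℝ≥0∞) = ENNReal.ofReal 2 := by simp
  rw [h2, ← ENNReal.ofReal_mul (by norm_num), ← ENNReal.ofReal_mul (by norm_num),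
    ← ENNReal.ofReal_add (by positivity) (by positivity)]
  exact ENNReal.ofReal_le_ofReal h

lemma sq_three (x y : ℝ) :
    ‖x + y‖ₑ ^ 2 ≤ ENNReal.ofReal (3 / 2) * ‖x‖ₑ ^ 2 + ENNReal.ofReal 3 * ‖y‖ₑ ^ 2 := by
  have h : (x + y) ^ 2 ≤ 3 / 2 * x ^ 2 + 3 * y ^ 2 := by nlinarith [sq_nonneg (x - 2 * y)]
  have e : ∀ u : ℝ, ‖u‖ₑ ^ 2 = ENNReal.ofReal (u ^ 2) := by
    intro u
    rw [Real.enorm_eq_ofReal_abs, ← ENNReal.ofReal_pow (abs_nonneg u), sq_abs]
  rw [e, e, e, ← ENNReal.ofReal_mul (by norm_num), ← ENNReal.ofReal_mul (by norm_num),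
    ← ENNReal.ofReal_add (by positivity) (by positivity)]
  exact ENNReal.ofReal_le_ofReal h

/-- Cauchy-Schwarz against the constant function -/
lemma cs {A : Type} [MeasurableSpace A] (μ : Measure A) (g : A → ℝ≥0∞) (hg : AEMeasurable g μ) :
    (∫⁻ a, g a ∂μ) ^ 2 ≤ μ univ * ∫⁻ a, g a ^ 2 ∂μ := by
  have h := ENNReal.lintegral_mul_le_Lp_mul_Lq μ (p := 2) (q := 2) (f := g) (g := fun _ => 1)
    (by constructor <;> norm_num) hg aemeasurable_const
  simp only [Pi.mul_apply, mul_one, ENNReal.one_rpow, lintegral_const, one_mul] at h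
  have e1 : ∀ x : ℝ≥0∞, (x ^ (1 / 2 : ℝ)) ^ 2 = x := by
    intro x
    rw [← ENNReal.rpow_natCast, ← ENNReal.rpow_mul]
    norm_num
  have e2 : ∀ x : ℝ≥0∞, x ^ (2 : ℝ) = x ^ 2 := fun x => by
    rw [← ENNReal.rpow_natCast]
    norm_num
  simp only [e2] at h
  calc (∫⁻ a, g a ∂μ) ^ 2 ≤ ((∫⁻ a, g a ^ 2 ∂μ) ^ (1 / 2 : ℝ) * (μ univ) ^ (1 / 2 : ℝ)) ^ 2 :=
        pow_le_pow_left' h 2
    _ = μ univ * ∫⁻ a, g a ^ 2 ∂μ := by rw [mul_pow, e1, e1, mul_comm]

/-- one dimension -/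
lemma En_line (c l : ℝ) (hl : 0 < l) (ψ ψ' : ℝ → ℝ) (h : ∀ x, HasDerivAt ψ (ψ' x) x)
    (hc : Continuous ψ') :
    En (volume.restrict (Ioo (c - l) (c + l))) ψ ≤
      ENNReal.ofReal (8 * l ^ 3) *
        ∫⁻ x, ‖ψ' x‖ₑ ^ 2 ∂(volume.restrict (Ioo (c - l) (c + l))) := by
  set μ := volume.restrict (Ioo (c - l) (c + l)) with hμ
  have hm : μ univ = ENNReal.ofReal (2 * l) := by
    rw [hμ, Measure.restrict_apply_univ, Real.volume_Ioo]
    congr 1
    ring
  have key : ∀ a ∈ Ioo (c - l) (c + l), ∀ a' ∈ Ioo (c - l) (c + l),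
      ‖ψ a - ψ a'‖ₑ ^ 2 ≤ ENNReal.ofReal (2 * l) * ∫⁻ x, ‖ψ' x‖ₑ ^ 2 ∂μ := by
    intro a ha a' ha'
    have h1 : ψ a - ψ a' = ∫ x in a'..a, ψ' x :=
      (intervalIntegral.integral_eq_sub_of_hasDerivAt (fun x _ => h x)
        (hc.intervalIntegrable _ _)).symm
    have h2 : ‖ψ a - ψ a'‖ₑ ≤ ∫⁻ x, ‖ψ' x‖ₑ ∂μ := by
      rw [h1]
      have h3 : ‖∫ x in a'..a, ψ' x‖ₑ = ‖∫ x in Set.uIoc a' a, ψ' x‖ₑ := by
        rw [← ofReal_norm, ← ofReal_norm,
          intervalIntegral.norm_integral_eq_norm_integral_uIoc]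
      rw [h3]
      refine (enorm_integral_le_lintegral_enorm _).trans ?_
      refine lintegral_mono' (Measure.restrict_mono ?_ le_rfl) le_rfl
      intro x hx
      rw [Set.mem_uIoc] at hx
      constructor
      · rcases hx with hx | hx
        · exact lt_trans ha'.1 hx.1
        · exact lt_trans ha.1 hx.1
      · rcases hx with hx | hx
        · exact lt_of_le_of_lt hx.2 ha.2
        · exact lt_of_le_of_lt hx.2 ha'.2
    calc ‖ψ a - ψ a'‖ₑ ^ 2 ≤ (∫⁻ x, ‖ψ' x‖ₑ ∂μ) ^ 2 := pow_le_pow_left' h2 2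
      _ ≤ μ univ * ∫⁻ x, ‖ψ' x‖ₑ ^ 2 ∂μ := cs μ _ hc.enorm.measurable.aemeasurable
      _ = ENNReal.ofReal (2 * l) * ∫⁻ x, ‖ψ' x‖ₑ ^ 2 ∂μ := by rw [hm]
  have h4 : En μ ψ ≤ ∫⁻ _, ∫⁻ _, (ENNReal.ofReal (2 * l) * ∫⁻ x, ‖ψ' x‖ₑ ^ 2 ∂μ) ∂μ ∂μ := by
    refine lintegral_mono_ae ?_
    rw [hμ]
    filter_upwards [ae_restrict_mem measurableSet_Ioo] with a ha
    refine lintegral_mono_ae ?_
    filter_upwards [ae_restrict_mem measurableSet_Ioo] with a' ha'
    exact key a ha a' ha'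
  refine h4.trans (le_of_eq ?_)
  simp only [lintegral_const]
  rw [hm]
  have h5 : ENNReal.ofReal (8 * l ^ 3) =
      ENNReal.ofReal (2 * l) * ENNReal.ofReal (2 * l) * ENNReal.ofReal (2 * l) := by
    rw [← ENNReal.ofReal_mul (by positivity), ← ENNReal.ofReal_mul (by positivity)]
    congr 1
    ring
  rw [h5]
  ring

/-- measure preserving change of variables -/
lemma En_map {A B : Type} [MeasurableSpace A] [MeasurableSpace B] (μ : Measure A)
    (ν : Measure B) (e : A ≃ᵐ B) (h : MeasurePreserving e μ ν) (f : B → ℝ) :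
    En ν f = En μ (fun a => f (e a)) := by
  unfold En
  rw [← h.lintegral_comp_emb e.measurableEmbedding]
  refine lintegral_congr fun a => ?_
  rw [← h.lintegral_comp_emb e.measurableEmbedding]

/-- the square -/
def sq (c : ℂ) (l : ℝ) : Set ℂ := {w | |w.re - c.re| < l ∧ |w.im - c.im| < l}

lemma sq_meas (c : ℂ) (l : ℝ) : MeasurableSet (sq c l) := by
  have h1 : IsOpen (sq c l) := by
    have h2 : sq c l = {w : ℂ | |w.re - c.re| < l} ∩ {w : ℂ | |w.im - c.im| < l} := rfl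
    rw [h2]
    exact (isOpen_lt (by fun_prop) continuous_const).inter
      (isOpen_lt (by fun_prop) continuous_const)
  exact h1.measurableSet

lemma mIoo (x c l : ℝ) : x ∈ Ioo (c - l) (c + l) ↔ |x - c| < l := by
  rw [abs_lt, Set.mem_Ioo]
  constructor
  · rintro ⟨h1, h2⟩
    constructor <;> linarith
  · rintro ⟨h1, h2⟩
    constructor <;> linarith

lemma mp_sq (c : ℂ) (l : ℝ) : MeasurePreserving Complex.measurableEquivRealProd.symm
    ((volume.restrict (Ioo (c.re - l) (c.re + l))).prod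
      (volume.restrict (Ioo (c.im - l) (c.im + l)))) (volume.restrict (sq c l)) := by
  have h1 := MeasurePreserving.symm _ Complex.volume_preserving_equiv_real_prod
  have h2 := h1.restrict_preimage (sq_meas c l)
  have h3 : Complex.measurableEquivRealProd.symm ⁻¹' (sq c l) =
      Ioo (c.re - l) (c.re + l) ×ˢ Ioo (c.im - l) (c.im + l) := by
    ext p
    rw [mem_preimage, Complex.measurableEquivRealProd_symm_apply, mem_prod, mIoo, mIoo]
    exact Iff.rfl
  rw [h3, Measure.volume_eq_prod] at h2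
  rw [Measure.prod_restrict]
  exact h2

lemma mass_line (c l : ℝ) : (volume.restrict (Ioo (c - l) (c + l))) univ =
    ENNReal.ofReal (2 * l) := by
  rw [Measure.restrict_apply_univ, Real.volume_Ioo]
  congr 1
  ring

lemma mass_sq (c : ℂ) (l : ℝ) (hl : 0 < l) : (volume.restrict (sq c l)) univ =
    ENNReal.ofReal (4 * l ^ 2) := by
  have h1 := (mp_sq c l).measure_preimage MeasurableSet.univ.nullMeasurableSet
  rw [← h1, preimage_univ, ← univ_prod_univ, Measure.prod_prod, mass_line, mass_line,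
    ← ENNReal.ofReal_mul (by positivity)]
  congr 1
  ring

/-- two dimensions -/
lemma En_sq (c : ℂ) (l : ℝ) (hl : 0 < l) (g : ℂ → ℝ) (hg : ContDiff ℝ 1 g) :
    En (volume.restrict (sq c l)) g ≤ ENNReal.ofReal (32 * l ^ 4) *
      ∫⁻ w, (‖fderiv ℝ g w 1‖ₑ ^ 2 + ‖fderiv ℝ g w Complex.I‖ₑ ^ 2)
        ∂(volume.restrict (sq c l)) := by
  have hd : Differentiable ℝ g := hg.differentiable (by norm_num)
  have hc : Continuous (fderiv ℝ g) := hg.continuous_fderiv (by norm_num)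
  have c1 : Continuous fun w => fderiv ℝ g w 1 := hc.clm_apply continuous_const
  have c2 : Continuous fun w => fderiv ℝ g w Complex.I := hc.clm_apply continuous_const
  have cs : Continuous fun p : ℝ × ℝ => (⟨p.1, p.2⟩ : ℂ) := by
    have : (fun p : ℝ × ℝ => (⟨p.1, p.2⟩ : ℂ)) = fun p => (p.1 : ℂ) + p.2 * Complex.I := by
      funext p
      exact Complex.mk_eq_add_mul_I _ _
    rw [this]
    fun_prop
  rw [En_map _ _ _ (mp_sq c l)]
  rw [← (mp_sq c l).lintegral_comp_emb Complex.measurableEquivRealProd.symm.measurableEmbedding]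
  simp only [Complex.measurableEquivRealProd_symm_apply]
  have k1 : ∀ x y : ℝ, HasDerivAt (fun x : ℝ => g ⟨x, y⟩) (fderiv ℝ g ⟨x, y⟩ 1) x := by
    intro x y
    have h1 : HasDerivAt (fun x : ℝ => (⟨x, y⟩ : ℂ)) 1 x := by
      have h2 : (fun x : ℝ => (⟨x, y⟩ : ℂ)) = fun x : ℝ => (x : ℂ) + y * Complex.I := by
        funext x
        exact Complex.mk_eq_add_mul_I _ _
      rw [h2]
      exact (Complex.ofRealCLM.hasDerivAt (x := x)).add_const _
    exact (hd ⟨x, y⟩).hasFDerivAt.comp_hasDerivAt x h1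
  have k2 : ∀ x y : ℝ, HasDerivAt (fun y : ℝ => g ⟨x, y⟩) (fderiv ℝ g ⟨x, y⟩ Complex.I) y := by
    intro x y
    have h1 : HasDerivAt (fun y : ℝ => (⟨x, y⟩ : ℂ)) Complex.I y := by
      have h2 : (fun y : ℝ => (⟨x, y⟩ : ℂ)) = fun y : ℝ => (x : ℂ) + y * Complex.I := by
        funext y
        exact Complex.mk_eq_add_mul_I _ _
      rw [h2]
      have h3 := (Complex.ofRealCLM.hasDerivAt (x := y)).mul_const Complex.I
      have h4 := h3.const_add (x : ℂ)
      simpa using h4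
    exact (hd ⟨x, y⟩).hasFDerivAt.comp_hasDerivAt y h1
  have h5 := En_prod (volume.restrict (Ioo (c.re - l) (c.re + l)))
    (volume.restrict (Ioo (c.im - l) (c.im + l))) (f := fun p : ℝ × ℝ => g ⟨p.1, p.2⟩)
    ((hg.continuous.comp cs).measurable) 2 2 (ENNReal.ofReal (8 * l ^ 3))
    (ENNReal.ofReal (8 * l ^ 3)) (fun p => ‖fderiv ℝ g ⟨p.1, p.2⟩ 1‖ₑ ^ 2)
    (fun p => ‖fderiv ℝ g ⟨p.1, p.2⟩ Complex.I‖ₑ ^ 2)
    ((c1.comp cs).enorm.measurable.pow_const 2) ((c2.comp cs).enorm.measurable.pow_const 2)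
    sq_two
    (fun y => En_line c.re l hl _ _ (fun x => k1 x y)
      (c1.comp (cs.comp (continuous_id.prodMk continuous_const))))
    (fun x => En_line c.im l hl _ _ (fun y => k2 x y)
      (c2.comp (cs.comp (continuous_const.prodMk continuous_id))))
  refine h5.trans (le_of_eq ?_)
  have h7 : ∫⁻ a, (‖fderiv ℝ g ⟨a.1, a.2⟩ 1‖ₑ ^ 2 + ‖fderiv ℝ g ⟨a.1, a.2⟩ Complex.I‖ₑ ^ 2)
      ∂((volume.restrict (Ioo (c.re - l) (c.re + l))).prod
        (volume.restrict (Ioo (c.im - l) (c.im + l)))) =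
      (∫⁻ a, ‖fderiv ℝ g ⟨a.1, a.2⟩ 1‖ₑ ^ 2
      ∂((volume.restrict (Ioo (c.re - l) (c.re + l))).prod
        (volume.restrict (Ioo (c.im - l) (c.im + l))))) +
      ∫⁻ a, ‖fderiv ℝ g ⟨a.1, a.2⟩ Complex.I‖ₑ ^ 2
      ∂((volume.restrict (Ioo (c.re - l) (c.re + l))).prod
        (volume.restrict (Ioo (c.im - l) (c.im + l)))) :=
    lintegral_add_left ((c1.comp cs).enorm.measurable.pow_const 2) _
  rw [h7, mass_line, mass_line]
  have h6 : ENNReal.ofReal (32 * l ^ 4) =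
      2 * (ENNReal.ofReal (2 * l) * ENNReal.ofReal (8 * l ^ 3)) := by
    have h2 : (2 : ℝ≥0∞) = ENNReal.ofReal 2 := by simp
    rw [h2, ← ENNReal.ofReal_mul (by positivity), ← ENNReal.ofReal_mul (by positivity)]
    congr 1
    ring
  rw [h6, mul_add]
  simp only [mul_assoc]

/-- the interval in the third coordinate -/
lemma cube_eq (P₀ : X) (l : ℝ) : cube P₀ l = sq P₀.1 l ×ˢ Ioo (P₀.2 - l) (P₀.2 + l) := by
  ext P
  rw [mem_prod, mIoo]
  unfold cube sq
  simp only [mem_ofPred_eq]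
  tauto

lemma cube_meas (P₀ : X) (l : ℝ) : MeasurableSet (cube P₀ l) := by
  rw [cube_eq]
  exact (sq_meas _ _).prod measurableSet_Ioo

lemma restrict_cube (P₀ : X) (l : ℝ) : (volume : Measure X).restrict (cube P₀ l) =
    (volume.restrict (sq P₀.1 l)).prod (volume.restrict (Ioo (P₀.2 - l) (P₀.2 + l))) := by
  rw [Measure.prod_restrict, ← cube_eq]
  rfl

/-- three dimensions, smooth functions -/
lemma En_cube (P₀ : X) (l : ℝ) (hl : 0 < l) (φ : X → ℝ) (hφ : ContDiff ℝ 1 φ) :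
    En (volume.restrict (cube P₀ l)) φ ≤ ENNReal.ofReal (96 * l ^ 5) *
      ∑ i, ∫⁻ P, ‖pd e3 i φ P‖ₑ ^ 2 ∂(volume.restrict (cube P₀ l)) := by
  have hd : Differentiable ℝ φ := hφ.differentiable (by norm_num)
  have hc : Continuous (fderiv ℝ φ) := hφ.continuous_fderiv (by norm_num)
  have cp : ∀ i, Continuous (pd e3 i φ) := fun i => hc.clm_apply continuous_const
  have k1 : ∀ (z : ℝ) (w : ℂ), HasFDerivAt (fun w : ℂ => φ (w, z))
      ((fderiv ℝ φ (w, z)).comp (ContinuousLinearMap.inl ℝ ℂ ℝ)) w := by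
    intro z w
    exact (hd (w, z)).hasFDerivAt.comp w (hasFDerivAt_prodMk_left w z)
  have k2 : ∀ (z : ℝ), ContDiff ℝ 1 fun w : ℂ => φ (w, z) := fun z =>
    hφ.comp (contDiff_id.prodMk contDiff_const)
  have k3 : ∀ (w : ℂ) (z : ℝ), HasDerivAt (fun z : ℝ => φ (w, z)) (pd e3 2 φ (w, z)) z := by
    intro w z
    have h1 : HasDerivAt (fun z : ℝ => ((w, z) : X)) (0, 1) z :=
      (hasDerivAt_const z w).prodMk (hasDerivAt_id z)
    exact (hd (w, z)).hasFDerivAt.comp_hasDerivAt z h1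
  rw [restrict_cube]
  have h5 := En_prod (volume.restrict (sq P₀.1 l))
    (volume.restrict (Ioo (P₀.2 - l) (P₀.2 + l))) (f := φ) hφ.continuous.measurable
    (ENNReal.ofReal (3 / 2)) (ENNReal.ofReal 3) (ENNReal.ofReal (32 * l ^ 4))
    (ENNReal.ofReal (8 * l ^ 3)) (fun P => ‖pd e3 0 φ P‖ₑ ^ 2 + ‖pd e3 1 φ P‖ₑ ^ 2)
    (fun P => ‖pd e3 2 φ P‖ₑ ^ 2)
    (((cp 0).enorm.measurable.pow_const 2).add ((cp 1).enorm.measurable.pow_const 2))
    ((cp 2).enorm.measurable.pow_const 2) sq_three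
    (fun z => by
      have h6 := En_sq P₀.1 l hl _ (k2 z)
      refine h6.trans (le_of_eq ?_)
      congr 1
      refine lintegral_congr fun w => ?_
      rw [(k1 z w).fderiv]
      rfl)
    (fun w => En_line P₀.2 l hl _ _ (fun z => k3 w z)
      ((cp 2).comp (continuous_const.prodMk continuous_id)))
  refine h5.trans (le_of_eq ?_)
  rw [lintegral_add_left ((cp 0).enorm.measurable.pow_const 2), mass_line, mass_sq _ _ hl,
    Fin.sum_univ_three]
  have h6 : ENNReal.ofReal (96 * l ^ 5) = ENNReal.ofReal 3 * (ENNReal.ofReal (4 * l ^ 2) *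
      ENNReal.ofReal (8 * l ^ 3)) := by
    rw [← ENNReal.ofReal_mul (by positivity), ← ENNReal.ofReal_mul (by positivity)]
    congr 1
    ring
  have h8 : ENNReal.ofReal (96 * l ^ 5) = ENNReal.ofReal (3 / 2) * (ENNReal.ofReal (2 * l) *
      ENNReal.ofReal (32 * l ^ 4)) := by
    rw [← ENNReal.ofReal_mul (by positivity), ← ENNReal.ofReal_mul (by positivity)]
    congr 1
    ring
  rw [mul_add (ENNReal.ofReal (96 * l ^ 5))]
  congr 1
  · rw [h8]
    simp only [mul_assoc]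
  · rw [h6]
    simp only [mul_assoc]

/-- the squared `L²` norm as a `lintegral` -/
lemma sq_norm {A : Type} [MeasurableSpace A] (μ : Measure A) (g : A → ℝ) :
    ∫⁻ a, ‖g a‖ₑ ^ 2 ∂μ = (eLpNorm g 2 μ) ^ 2 := by
  have h := eLpNorm_nnreal_pow_eq_lintegral (μ := μ) (f := g) (p := 2) (by norm_num)
  have e : ∀ x : ℝ≥0∞, x ^ (((2 : ℝ≥0) : ℝ)) = x ^ 2 := by
    intro x
    rw [← ENNReal.rpow_natCast]
    norm_num
  simp only [e] at h
  rw [← h]
  norm_num

/-- Fatou for the double integral -/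
lemma En_fatou {A : Type} [MeasurableSpace A] (μ : Measure A) [SFinite μ] (g : ℕ → A → ℝ)
    (f : A → ℝ) (hg : ∀ n, Measurable (g n))
    (h : ∀ᵐ a ∂μ, Tendsto (fun n => g n a) atTop (𝓝 (f a))) :
    En μ f ≤ liminf (fun n => En μ (g n)) atTop := by
  have m : ∀ n, Measurable fun q : A × A => ‖g n q.1 - g n q.2‖ₑ ^ 2 := fun n =>
    (((hg n).comp measurable_fst).sub ((hg n).comp measurable_snd)).enorm.pow_const 2
  have h1 : En μ f ≤ ∫⁻ a, liminf (fun n => ∫⁻ a', ‖g n a - g n a'‖ₑ ^ 2 ∂μ) atTop ∂μ := by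
    refine lintegral_mono_ae ?_
    filter_upwards [h] with a ha
    have h2 : ∫⁻ a', ‖f a - f a'‖ₑ ^ 2 ∂μ =
        ∫⁻ a', liminf (fun n => ‖g n a - g n a'‖ₑ ^ 2) atTop ∂μ := by
      refine lintegral_congr_ae ?_
      filter_upwards [h] with a' ha'
      have h3 : Tendsto (fun n => ‖g n a - g n a'‖ₑ ^ 2) atTop (𝓝 (‖f a - f a'‖ₑ ^ 2)) :=
        ((ENNReal.continuous_pow 2).tendsto _).comp ((ha.sub ha').enorm)
      exact h3.liminf_eq.symm
    rw [h2]
    exact lintegral_liminf_le fun n => (m n).comp (measurable_const.prodMk measurable_id)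
  refine h1.trans ?_
  exact lintegral_liminf_le fun n => (m n).lintegral_prod_right'

end BOX_

open BOX_ in
theorem p_BOX : T_BOX := by
  intro G f F P₀ l hl h
  obtain ⟨φ, hφ, -, hF, ha, -⟩ := h.seq
  set μ : Measure X := volume.restrict (cube P₀ l) with hμ
  have hs : ∀ n, ContDiff ℝ 1 (φ n) := fun n => (hφ n).smooth.of_le (by exact_mod_cast le_top)
  -- the bound for `f`
  have h1 : En μ f ≤ ENNReal.ofReal (96 * l ^ 5) * ∑ i, (eLpNorm (F i) 2 μ) ^ 2 := by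
    have h2 : ∀ᵐ a ∂μ, Tendsto (fun n => φ n a) atTop (𝓝 (f a)) := ae_restrict_of_ae ha
    refine (En_fatou μ φ f (fun n => (hs n).continuous.measurable) h2).trans ?_
    have h3 : ∀ n, En μ (φ n) ≤ ENNReal.ofReal (96 * l ^ 5) *
        ∑ i, (eLpNorm (F i) 2 μ + eLpNorm (fun P => pd e3 i (φ n) P - F i P) 2 volume) ^ 2 := by
      intro n
      refine (En_cube P₀ l hl (φ n) (hs n)).trans ?_
      refine mul_le_mul_right (Finset.sum_le_sum fun i _ => ?_) _
      rw [sq_norm]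
      refine pow_le_pow_left' ?_ 2
      have h4 : pd e3 i (φ n) = F i + fun P => pd e3 i (φ n) P - F i P := by
        funext P
        simp
      have m1 : AEStronglyMeasurable (F i) μ := (h.2.1 i).1.restrict
      have m2 : AEStronglyMeasurable (fun P => pd e3 i (φ n) P - F i P) μ :=
        (((hφ n).memLp_pd i).1.sub (h.2.1 i).1).restrict
      calc eLpNorm (pd e3 i (φ n)) 2 μ
          = eLpNorm (F i + fun P => pd e3 i (φ n) P - F i P) 2 μ := by rw [← h4]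
        _ ≤ eLpNorm (F i) 2 μ + eLpNorm (fun P => pd e3 i (φ n) P - F i P) 2 μ :=
          eLpNorm_add_le m1 m2 (by norm_num)
        _ ≤ _ := add_le_add le_rfl (eLpNorm_restrict_le
          (fun P => pd e3 i (φ n) P - F i P) 2 volume (cube P₀ l))
    refine (liminf_le_liminf (Eventually.of_forall h3)).trans ?_
    have h5 : Tendsto (fun n => ENNReal.ofReal (96 * l ^ 5) *
        ∑ i, (eLpNorm (F i) 2 μ + eLpNorm (fun P => pd e3 i (φ n) P - F i P) 2 volume) ^ 2)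
        atTop (𝓝 (ENNReal.ofReal (96 * l ^ 5) * ∑ i, (eLpNorm (F i) 2 μ + 0) ^ 2)) := by
      refine ENNReal.Tendsto.const_mul ?_ (Or.inr ENNReal.ofReal_ne_top)
      refine tendsto_finsetSum _ fun i _ => ?_
      exact ((ENNReal.continuous_pow 2).tendsto _).comp (tendsto_const_nhds.add (hF i))
    rw [h5.liminf_eq]
    simp only [add_zero]
    exact le_rfl
  -- conversion
  have h6 : ∀ i, Integrable (fun P => F i P ^ 2) μ := fun i =>
    ((h.2.1 i).restrict _).integrable_sq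
  have h7 : ∀ i, (eLpNorm (F i) 2 μ) ^ 2 = ENNReal.ofReal (∫ P, F i P ^ 2 ∂μ) := by
    intro i
    rw [← sq_norm, ofReal_integral_eq_lintegral_ofReal (h6 i)
      (Eventually.of_forall fun P => sq_nonneg _)]
    refine lintegral_congr fun P => ?_
    rw [Real.enorm_eq_ofReal_abs, ← ENNReal.ofReal_pow (abs_nonneg _), sq_abs]
  have h8 : ENNReal.ofReal (96 * l ^ 5) * ∑ i, (eLpNorm (F i) 2 μ) ^ 2 =
      ENNReal.ofReal (96 * l ^ 5 * ∫ P, ∑ i, F i P ^ 2 ∂μ) := by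
    simp only [h7]
    rw [← ENNReal.ofReal_sum_of_nonneg fun i _ => integral_nonneg fun P => sq_nonneg _,
      ← ENNReal.ofReal_mul (by positivity), integral_finsetSum _ fun i _ => h6 i]
  have h9 : ‖∫ P, ∫ P', (f P - f P') ^ 2 ∂μ ∂μ‖ₑ ≤ En μ f := by
    refine (enorm_integral_le_lintegral_enorm _).trans (lintegral_mono fun P => ?_)
    refine (enorm_integral_le_lintegral_enorm _).trans (lintegral_mono fun P' => ?_)
    rw [enorm_pow]
  have h10 : ENNReal.ofReal (∫ P, ∫ P', (f P - f P') ^ 2 ∂μ ∂μ) ≤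
      ENNReal.ofReal (96 * l ^ 5 * ∫ P, ∑ i, F i P ^ 2 ∂μ) := by
    refine (Real.ofReal_le_enorm _).trans (h9.trans (h1.trans (le_of_eq h8)))
  have h11 : 0 ≤ 96 * l ^ 5 * ∫ P, ∑ i, F i P ^ 2 ∂μ :=
    mul_nonneg (by positivity) (integral_nonneg fun P => Finset.sum_nonneg fun i _ => sq_nonneg _)
  exact (ENNReal.ofReal_le_ofReal_iff h11).1 h10



end MGS
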