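import Pool.Agent.MGS.TE

/-!
# CAL: the pointwise calibration
-/

set_option autoImplicit false

open MeasureTheory Filter Topology Metric Set
open scoped ENNReal NNReal ContDiff

noncomputable section

namespace MGS

namespace CAL_

/-- from almost all slices to almost all points -/
theorem ae_of_slices {p : ℂ × ℝ → Prop} (hp : MeasurableSet {P | p P})
    (h : ∀ᵐ z : ℝ, ∀ᵐ x : ℂ, p (x, z)) : ∀ᵐ P : X, p P := by
  have h2 := (Measure.ae_ae_comm (μ := (volume : Measure ℂ)) (ν := (volume : Measure ℝ))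
    (p := fun x z => p (x, z)) hp).2 h
  have h3 : ∀ᵐ P ∂((volume : Measure ℂ).prod (volume : Measure ℝ)), p P :=
    (Measure.ae_prod_iff_ae_ae hp).2 h2
  exact h3

theorem ae_ne : ∀ᵐ P : X, P.1 ≠ 0 := by
  refine ae_of_slices (p := fun P => P.1 ≠ 0) ?_ (Eventually.of_forall fun z => ?_)
  · exact (measurableSet_eq_fun measurable_fst measurable_const).compl
  · show ∀ᵐ x : ℂ, x ≠ 0
    rw [ae_iff]
    simp

/-- the algebra -/
theorem alg {B ε r x y T V v g κ Q : ℝ} (hB : 0 < B) (hε : 0 < ε) (hr : 0 < r)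
    (hxy : x ^ 2 + y ^ 2 = r ^ 2) (hT : 0 < T) (hV : 0 < V) (hv : 0 < v) (hg : 0 ≤ g)
    (hκ : κ = B / 2 * r * V / T) (hQ : Q = T / (V + ε) * v) :
    (-(T * x / r)) * (2 * v * (-(g * x / r)) / (V + ε) - v ^ 2 * (-(T * x / r)) / (V + ε) ^ 2) +
      (-(T * y / r)) * (2 * v * (-(g * y / r)) / (V + ε) - v ^ 2 * (-(T * y / r)) / (V + ε) ^ 2) +
      (B / 2) ^ 2 * r ^ 2 * (V / (V + ε)) ^ 2 * v ^ 2 ≤
    B * κ * r * v * g + 2 * (1 - κ ^ 2) * Q * g - (1 - κ ^ 2) * Q ^ 2 := by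
  have hVε : 0 < V + ε := by linarith
  have hκ0 : 0 < κ := by rw [hκ]; positivity
  have h1 : (-(T * x / r)) * (-(g * x / r)) + (-(T * y / r)) * (-(g * y / r)) = T * g := by
    have : (-(T * x / r)) * (-(g * x / r)) + (-(T * y / r)) * (-(g * y / r)) =
      T * g * (x ^ 2 + y ^ 2) / r ^ 2 := by ring
    rw [this, hxy]
    field_simp
  have h2 : (-(T * x / r)) * (-(T * x / r)) + (-(T * y / r)) * (-(T * y / r)) = T ^ 2 := by
    have : (-(T * x / r)) * (-(T * x / r)) + (-(T * y / r)) * (-(T * y / r)) =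
      T ^ 2 * (x ^ 2 + y ^ 2) / r ^ 2 := by ring
    rw [this, hxy]
    field_simp
  have h3 : (-(T * x / r)) * (2 * v * (-(g * x / r)) / (V + ε) -
      v ^ 2 * (-(T * x / r)) / (V + ε) ^ 2) +
      (-(T * y / r)) * (2 * v * (-(g * y / r)) / (V + ε) -
      v ^ 2 * (-(T * y / r)) / (V + ε) ^ 2) =
      2 * v / (V + ε) * ((-(T * x / r)) * (-(g * x / r)) + (-(T * y / r)) * (-(g * y / r))) -
      v ^ 2 / (V + ε) ^ 2 * ((-(T * x / r)) * (-(T * x / r)) +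
        (-(T * y / r)) * (-(T * y / r))) := by ring
  have h4 : 2 * v / (V + ε) * (T * g) - v ^ 2 / (V + ε) ^ 2 * T ^ 2 = 2 * Q * g - Q ^ 2 := by
    rw [hQ]
    field_simp
  have h5 : κ * Q = B / 2 * r * (V / (V + ε)) * v := by
    rw [hκ, hQ]
    field_simp
  have h6 : (B / 2) ^ 2 * r ^ 2 * (V / (V + ε)) ^ 2 * v ^ 2 = (κ * Q) ^ 2 := by
    rw [h5]; ring
  rw [h3, h1, h2, h4, h6]
  have h7 : κ * Q ≤ B / 2 * r * v := by
    rw [h5]
    have h8 : V / (V + ε) ≤ 1 := (div_le_one hVε).2 (by linarith)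
    have h9 : 0 ≤ B / 2 * r := by positivity
    calc B / 2 * r * (V / (V + ε)) * v ≤ B / 2 * r * 1 * v :=
          mul_le_mul_of_nonneg_right (mul_le_mul_of_nonneg_left h8 h9) hv.le
      _ = B / 2 * r * v := by ring
  have h10 : κ * g * (κ * Q) ≤ κ * g * (B / 2 * r * v) :=
    mul_le_mul_of_nonneg_left h7 (by positivity)
  nlinarith [h10]

end CAL_

open CAL_ in
/-- CAL -/
theorem p_CAL (h_SLI : T_SLI) (h_RDG : T_RDG) (h_RR1 : T_RR1) : T_CAL := by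
  intro B ε R Ω a b v₁ Fa Fb G F V T hB hε hPD hRD hG hGm
  obtain ⟨f, hf⟩ : ∃ f : X → ℝ, f = md a b := ⟨_, rfl⟩
  rw [← hf] at hG ⊢
  have hfm : Measurable f := by
    rw [hf]
    exact ((hPD.ma.pow_const 2).add (hPD.mb.pow_const 2)).sqrt
  have hf0 : ∀ P, 0 ≤ f P := by
    intro P; rw [hf]; exact Real.sqrt_nonneg _
  have hfz : ∀ P, P ∉ Ω → f P = 0 := by
    intro P hP
    obtain ⟨h1, h2, -⟩ := hPD.zero P hP
    rw [hf]
    show Real.sqrt (a P ^ 2 + b P ^ 2) = 0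
    rw [h1, h2]
    simp
  have hbdd : ∀ (x : ℂ) (z : ℝ), (x, z) ∈ Ω → ‖x‖ < R := fun x z h =>
    (norm_fst_le (x, z)).trans_lt (hPD.bdd _ h)
  have hNc : ∀ z, Nc R (sl f z) := by
    intro z
    refine ⟨hfm.comp (by fun_prop), fun x => hf0 _, fun x hx => hfz _ fun h => ?_⟩
    exact absurd (hbdd x z h) (not_lt.2 hx)
  have hfin : ∀ z, volume {y : ℂ | (y, z) ∈ Ω} ≠ ⊤ := by
    intro z
    refine ((measure_mono (t := ball (0 : ℂ) R) fun y hy => ?_).trans_lt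
      measure_ball_lt_top).ne
    rw [mem_ball_zero_iff]
    exact hbdd y z hy
  have hOst : ∀ P ∈ Ost Ω, ‖P.1‖ < R := by
    intro P hP
    by_contra hcon
    have h1 : volume {y : ℂ | (y, P.2) ∈ Ω} ≤ volume (ball (0 : ℂ) R) :=
      measure_mono fun y hy => by
        rw [mem_ball_zero_iff]
        exact hbdd y P.2 hy
    have h2 : (volume {y : ℂ | (y, P.2) ∈ Ω}).toReal ≤ Real.pi * (max R 0) ^ 2 := by
      refine (ENNReal.toReal_mono measure_ball_lt_top.ne h1).trans (le_of_eq ?_)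
      rw [Complex.volume_ball]
      simp [ENNReal.toReal_mul, ENNReal.toReal_pow, ENNReal.toReal_ofReal', mul_comm]
    have h3 : Real.pi * ‖P.1‖ ^ 2 < (volume {y : ℂ | (y, P.2) ∈ Ω}).toReal := hP
    have h4 : max R 0 ≤ ‖P.1‖ := max_le (not_lt.1 hcon) (norm_nonneg _)
    have h5 : Real.pi * (max R 0) ^ 2 ≤ Real.pi * ‖P.1‖ ^ 2 :=
      mul_le_mul_of_nonneg_left (pow_le_pow_left₀ (le_max_right _ _) h4 2) Real.pi_pos.le
    linarith
  -- the gradient of the symmetrization is radial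
  have hrad : ∀ᵐ P : X, G 0 P = -(Real.sqrt (G 0 P ^ 2 + G 1 P ^ 2) * P.1.re / ‖P.1‖) ∧
      G 1 P = -(Real.sqrt (G 0 P ^ 2 + G 1 P ^ 2) * P.1.im / ‖P.1‖) := by
    refine ae_of_slices (p := fun P => G 0 P = -(Real.sqrt (G 0 P ^ 2 + G 1 P ^ 2) * P.1.re / ‖P.1‖) ∧
      G 1 P = -(Real.sqrt (G 0 P ^ 2 + G 1 P ^ 2) * P.1.im / ‖P.1‖)) ?_ ?_
    · have hG0 := hGm 0
      have hG1 := hGm 1
      have hs : Measurable fun P : X => Real.sqrt (G 0 P ^ 2 + G 1 P ^ 2) :=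
        ((hG0.pow_const 2).add (hG1.pow_const 2)).sqrt
      have hre : Measurable fun P : X => P.1.re := Complex.measurable_re.comp measurable_fst
      have him : Measurable fun P : X => P.1.im := Complex.measurable_im.comp measurable_fst
      have hn : Measurable fun P : X => ‖P.1‖ := measurable_fst.norm
      exact (measurableSet_eq_fun hG0 ((hs.mul hre).div hn).neg).inter
        (measurableSet_eq_fun hG1 ((hs.mul him).div hn).neg)
    · filter_upwards [h_SLI (Ost Ω) (vs f) G R hOst hG] with z hz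
      have h1 := h_RR1 R (sl f z) (hNc z)
      exact h_RDG _ _ _ (rr (sl f z)) hz (fun x => rfl) h1.2.1
  filter_upwards [hrad, hRD.geq, hRD.pos, ae_ne] with P hGP hFP hposP hP1
  have hr : 0 < ‖P.1‖ := norm_pos_iff.2 hP1
  obtain ⟨g, hg⟩ : ∃ g, g = Real.sqrt (G 0 P ^ 2 + G 1 P ^ 2) := ⟨_, rfl⟩
  have hg0 : 0 ≤ g := by rw [hg]; exact Real.sqrt_nonneg _
  have hgn : gn (sl2 G P.2) P.1 = g := by rw [hg]; rfl
  rw [← hg] at hGP
  obtain ⟨v, hv⟩ : ∃ v, v = vs f P := ⟨_, rfl⟩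
  have hvr : rr (sl f P.2) |‖P.1‖| = v := by rw [abs_of_pos hr, hv]; rfl
  have hslv : sl (vs f) P.2 P.1 = v := hv.symm
  have hv0 : 0 ≤ v := by rw [hv]; exact (h_RR1 R _ (hNc P.2)).2.2.1 _
  obtain ⟨κ, hκ⟩ : ∃ κ, κ = Kq B V T ‖P.1‖ P.2 := ⟨_, rfl⟩
  obtain ⟨Q, hQ⟩ : ∃ Q, Q = Qe ε V T f ‖P.1‖ P.2 := ⟨_, rfl⟩
  have hQv : Q = T ‖P.1‖ P.2 / (V ‖P.1‖ P.2 + ε) * v := by
    rw [hQ]; unfold Qe; rw [hvr]
  have hmem : P ∈ pl (vs f) ↔ 0 < v ∧ 0 < volume {y : ℂ | sl (vs f) P.2 y = v} := by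
    rw [hv]; rfl
  have hZ : Zx B (vs f) G (Kq B V T) (Qe ε V T f) P =
      B * κ * ‖P.1‖ * v * g + 2 * (1 - κ ^ 2) * Q * g -
        (if 0 < v ∧ volume {y : ℂ | sl (vs f) P.2 y = v} = 0 then (1 - κ ^ 2) * Q ^ 2 else 0) := by
    unfold Zx Zc
    simp only [hgn, hslv, ← hκ, ← hQ]
  rw [hZ, Fin.sum_univ_two]
  show F 0 P * (2 * vs f P * G 0 P / (v₁ P + ε) - vs f P ^ 2 * F 0 P / (v₁ P + ε) ^ 2) +
    F 1 P * (2 * vs f P * G 1 P / (v₁ P + ε) - vs f P ^ 2 * F 1 P / (v₁ P + ε) ^ 2) +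
    (B / 2) ^ 2 * ‖P.1‖ ^ 2 * (v₁ P / (v₁ P + ε)) ^ 2 * vs f P ^ 2 +
    (pl (vs f)).indicator (plq B ε V T f) P ≤ _
  rw [← hv, hRD.veq P]
  rcases hv0.eq_or_lt with h0 | hvpos
  · -- `v P = 0`
    have h1 : P ∉ pl (vs f) := by
      rw [hmem]
      rintro ⟨h, -⟩
      linarith
    have hQ0 : Q = 0 := by rw [hQv, ← h0, mul_zero]
    rw [indicator_of_notMem h1, if_neg (by rintro ⟨h, -⟩; linarith), hQ0, ← h0]
    simp
  · have hPO : P ∈ Ost Ω := by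
      show Real.pi * ‖P.1‖ ^ 2 < (volume {y : ℂ | (y, P.2) ∈ Ω}).toReal
      have h1 : 0 < rr (sl f P.2) ‖P.1‖ := by
        rw [abs_of_pos hr] at hvr
        rw [hvr]; exact hvpos
      have h2 := ((h_RR1 R _ (hNc P.2)).1 0 ‖P.1‖ le_rfl hr).1 h1
      refine h2.trans_le (ENNReal.toReal_mono (hfin P.2) (measure_mono fun y hy => ?_))
      by_contra hcon
      have h3 : (0 : ℝ) < f (y, P.2) := hy
      rw [hfz _ hcon] at h3
      exact lt_irrefl _ h3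
    obtain ⟨hV, hVT⟩ := hposP hPO
    have hT : 0 < T ‖P.1‖ P.2 := lt_of_le_of_lt (by positivity) hVT
    have hκ' : κ = B / 2 * ‖P.1‖ * V ‖P.1‖ P.2 / T ‖P.1‖ P.2 := by
      rw [hκ]
      unfold Kq
      rw [abs_of_pos hr]
      exact min_eq_right ((div_le_one hT).2 hVT.le)
    have hA := alg (x := P.1.re) (y := P.1.im) hB hε hr
      (by rw [← Complex.normSq_eq_norm_sq, Complex.normSq_apply]; ring) hT hV hvpos hg0 hκ' hQv
    rw [hFP.1, hFP.2, hGP.1, hGP.2]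
    by_cases hpl : P ∈ pl (vs f)
    · have h1 := (hmem.1 hpl).2
      rw [indicator_of_mem hpl, if_neg (by rintro ⟨-, h⟩; exact h1.ne' h)]
      have h2 : plq B ε V T f P = (1 - κ ^ 2) * Q ^ 2 := by
        rw [hκ, hQ]; rfl
      rw [h2]
      linarith
    · have h1 : volume {y : ℂ | sl (vs f) P.2 y = v} = 0 := by
        by_contra h
        exact hpl (hmem.2 ⟨hvpos, pos_iff_ne_zero.2 h⟩)
      rw [indicator_of_notMem hpl, if_pos ⟨hvpos, h1⟩, add_zero]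
      exact hA

end MGS

end
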