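import Pool.Agent.MGS.TG

/-!
# MGS: target `CAP` (the domain of a minimizer up to capacity), from `ADU`, `USE`, `LOG`, `CPK`,
`EXH`, `ZCU`, `ZCT`, `MOD`
-/

set_option autoImplicit false

open MeasureTheory Filter Topology Metric Set
open scoped ENNReal NNReal ContDiff

noncomputable section

namespace MGS

/-- the translation by `-c` in the horizontal direction -/
def CAP_tr (c : ℂ) (P : X) : X := (P.1 - c, P.2)

theorem CAP_tr_mp (c : ℂ) : MeasurePreserving (CAP_tr c) volume volume := by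
  have h : CAP_tr c = fun P : X => P + ((-c, 0) : X) := by
    funext P
    refine Prod.ext ?_ ?_
    · show P.1 - c = P.1 + -c
      ring
    · show P.2 = P.2 + 0
      ring
  rw [h]
  exact measurePreserving_add_right volume _

theorem CAP_null (Ω D : Set X) (hΩ : MeasurableSet Ω) (hD : MeasurableSet D)
    (hv : volume D = volume Ω) (hfin : volume Ω ≠ ⊤) (h0 : volume (D \ Ω) = 0) :
    volume (Ω \ D) = 0 := by
  have h1 : volume (Ω ∩ D) + volume (Ω \ D) = volume Ω := measure_inter_add_sdiff Ω hD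
  have h2 : volume (D ∩ Ω) + volume (D \ Ω) = volume D := measure_inter_add_sdiff D hΩ
  rw [h0, add_zero, Set.inter_comm] at h2
  rw [h2, hv] at h1
  have h3 : volume Ω + volume (Ω \ D) = volume Ω + 0 := by rw [h1, add_zero]
  exact (ENNReal.add_right_inj hfin).1 h3

theorem p_CAP (h_ADU : T_ADU) (h_USE : T_USE) (h_LOG : T_LOG) (h_CPK : T_CPK) (h_EXH : T_EXH)
    (h_ZCU : T_ZCU) (h_ZCT : T_ZCT) (h_MOD : T_MOD) : T_CAP := by
  intro B Ω a b v Fa Fb Fv V T c _hB hmin hvol hmeas hgm hlam hrd hf hF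
  have hmp := CAP_tr_mp c
  have hΩm : MeasurableSet Ω := hmin.isOpen.measurableSet
  have hfin : volume Ω ≠ ⊤ := hmin.bounded.measure_lt_top.ne
  set f : X → ℝ := md a b with hfdef
  set F : Fin 3 → X → ℝ := mg a b Fa Fb with hFdef
  set D' : Set X := {P : X | (P.1 - c, P.2) ∈ Ost Ω} with hD'
  have hD'eq : D' = CAP_tr c ⁻¹' Ost Ω := rfl
  have hD'm : MeasurableSet D' := by
    rw [hD'eq]
    exact hmp.measurable hmeas
  have hD'v : volume D' = volume Ω := by
    rw [hD'eq, hmp.measure_preimage hmeas.nullMeasurableSet, hvol]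
  -- positivity
  have hpos : ∀ᵐ P : X, P ∈ D' → 0 < f P := by
    have h1 : ∀ᵐ P : X, P ∈ Ost Ω → 0 < v P := by
      filter_upwards [hrd.pos] with P hP hPm
      rw [hrd.veq]
      exact (hP hPm).1
    have h2 : ∀ᵐ P : X, CAP_tr c P ∈ Ost Ω → 0 < v (CAP_tr c P) :=
      hmp.quasiMeasurePreserving.ae h1
    filter_upwards [h2, hf] with P hP hPf hPD
    rw [hPf]
    exact hP hPD
  have hzero : ∀ P, P ∉ Ω → f P = 0 := by
    intro P hP
    obtain ⟨h1, h2, _⟩ := hgm.zero P hP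
    rw [hfdef]
    unfold md
    rw [h1, h2]
    simp
  have hD1 : volume (D' \ Ω) = 0 := by
    have h1 : ∀ᵐ P : X, ¬ (P ∈ D' \ Ω) := by
      filter_upwards [hpos] with P hP hPm
      have := hP hPm.1
      rw [hzero P hPm.2] at this
      exact lt_irrefl _ this
    exact measure_eq_zero_iff_ae_notMem.2 h1
  have hD2 : volume (Ω \ D') = 0 := CAP_null Ω D' hΩm hD'm hD'v hfin hD1
  have hsd : volume (symmDiff Ω {P : X | (P.1 - c, P.2) ∈ Ost Ω}) = 0 := by
    show volume (symmDiff Ω D') = 0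
    rw [Set.symmDiff_def]
    exact measure_union_null hD2 hD1
  have hinv : ∀ w : ℂ, ‖w‖ = 1 → ∀ P ∈ Ost Ω, (w * P.1, P.2) ∈ Ost Ω := by
    intro w hw P hP
    have h1 : Real.pi * ‖P.1‖ ^ 2 < (volume {y : ℂ | (y, P.2) ∈ Ω}).toReal := hP
    show Real.pi * ‖w * P.1‖ ^ 2 < (volume {y : ℂ | (y, P.2) ∈ Ω}).toReal
    rw [norm_mul, hw, one_mul]
    exact h1
  obtain ⟨hUo, hUb, hΩU, hU0, hUv, hUinv⟩ := h_USE Ω (Ost Ω) c hmin.isOpen hmin.bounded hinv hsd
  set U : Set X := ei Ω with hU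
  have hadm : Adm (qc B c) U (lam B Ω) := h_ADU B c Ω U hmin hUo hUb hUv
  have hH1 : H1 e3 Ω f F := h_MOD X (Fin 3) e3 Ω a b Fa Fb hmin.isOpen hgm.ha hgm.hb
  have hcomp : ∀ g : X → ℝ, ∫ P, g (CAP_tr c P) = ∫ P, g P := by
    intro g
    have he : MeasurableEmbedding (CAP_tr c) := by
      have h : CAP_tr c = fun P : X => P + ((-c, 0) : X) := by
        funext P
        refine Prod.ext ?_ ?_
        · show P.1 - c = P.1 + -c
          ring
        · show P.2 = P.2 + 0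
          ring
      rw [h]
      exact measurableEmbedding_addRight _
    exact hmp.integral_comp he g
  have hEQ : EQ (qc B c) f F = lam B Ω := by
    rw [hlam, ← hrd.gs.eq]
    unfold EQ ER
    rw [← hcomp (fun P => ∑ i : Fin 3, Fv i P ^ 2 + VV B P * v P ^ 2)]
    refine integral_congr_ae ?_
    filter_upwards [hf, hF] with P h1 h2
    have h3 : ∀ i, F i P = Fv i (CAP_tr c P) := fun i => h2 i
    have h4 : f P = v (CAP_tr c P) := h1
    simp only [h3, h4]
    rfl
  have hnrm : ∫ P, f P ^ 2 = 1 := by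
    rw [← hrd.gs.nrm, ← hcomp (fun P => v P ^ 2)]
    refine integral_congr_ae ?_
    filter_upwards [hf] with P h1
    show f P ^ 2 = v (CAP_tr c P) ^ 2
    rw [h1]
    rfl
  have hMz : Mz (qc B c) U (lam B Ω) f F :=
    { adm := hadm
      h := hH1.mono hΩU
      le := by rw [hEQ, hnrm, mul_one] }
  have hnn : ∀ᵐ P : X, 0 ≤ f P := Eventually.of_forall fun P => Real.sqrt_nonneg _
  have hposU : ∀ᵐ P : X, P ∈ U → 0 < f P := by
    have h1 : ∀ᵐ P : X, ¬ (P ∈ U \ Ω) := measure_eq_zero_iff_ae_notMem.1 hU0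
    have h2 : ∀ᵐ P : X, ¬ (P ∈ Ω \ D') := measure_eq_zero_iff_ae_notMem.1 hD2
    filter_upwards [h1, h2, hpos] with P h1 h2 h3 hPU
    have h4 : P ∈ Ω := by
      by_contra h
      exact h1 ⟨hPU, h⟩
    have h5 : P ∈ D' := by
      by_contra h
      exact h2 ⟨h4, h⟩
    exact h3 h5
  have hlog := h_LOG (qc B c) U (lam B Ω) f F hMz hnn
  obtain ⟨K, hK1, hK2, hK3⟩ := h_EXH U hUo
  have hZ : ZC (U \ Ω) := by
    have h1 : U \ Ω = ⋃ n, (K n \ Ω) := by
      rw [← Set.iUnion_sdiff, ← hK3]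
    rw [h1]
    exact h_ZCU _ fun n => h_CPK Ω U (K n) f F hmin.isOpen hUo hUb hΩU hH1 hnn hposU hlog
      (hK1 n) (hK2 n)
  refine ⟨((-c, 0) : X), (fun P => ((-c, 0) : X) + P) '' U, ?_, ?_, ?_⟩
  · exact (Homeomorph.addLeft ((-c, 0) : X)).isOpenMap U hUo
  · rintro w hw P ⟨Q, hQ, rfl⟩
    refine ⟨(w * (Q.1 - c) + c, Q.2), hUinv w hw Q hQ, ?_⟩
    refine Prod.ext ?_ ?_
    · show -c + (w * (Q.1 - c) + c) = w * (-c + Q.1)
      ring
    · rfl
  · have h1 : symmDiff ((fun P => ((-c, 0) : X) + P) '' Ω) ((fun P => ((-c, 0) : X) + P) '' U) =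
        (fun P => ((-c, 0) : X) + P) '' (U \ Ω) := by
      rw [← Set.image_symmDiff (add_right_injective ((-c, 0) : X))]
      congr 1
      rw [Set.symmDiff_def, Set.sdiff_eq_empty.2 hΩU, Set.empty_union]
    rw [h1]
    exact h_ZCT _ _ hZ

end MGS
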