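import Pool.Agent.MGS.TC

/-!
# MGS, target CMI

Comparison of two measures on closed intervals of `(0, ∞)` implies comparison of the integrals of
continuous nonnegative functions with compact support in `(0, ∞)`.
-/

set_option autoImplicit false

open MeasureTheory Filter Topology Metric Set
open scoped ENNReal NNReal ContDiff Pointwise

noncomputable section

namespace MGS

namespace CMI_

/-- Comparison on half open intervals. -/
lemma ioc_le {μ ν : Measure ℝ}
    (h : ∀ s t, 0 < s → s < t → μ (Icc s t) < ⊤ ∧ ν (Icc s t) < ⊤ ∧ μ (Icc s t) ≤ ν (Icc s t))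
    {s t : ℝ} (hs : 0 < s) (hst : s < t) : μ (Ioc s t) ≤ ν (Ioc s t) := by
  have hpos : ∀ n : ℕ, 0 < (t - s) / ((n : ℝ) + 2) := fun n =>
    div_pos (by linarith) (by positivity)
  have hU : Ioc s t = ⋃ n : ℕ, Icc (s + (t - s) / ((n : ℝ) + 2)) t := by
    ext x
    simp only [mem_Ioc, mem_iUnion, mem_Icc]
    constructor
    · rintro ⟨h1, h2⟩
      obtain ⟨n, hn⟩ := exists_nat_gt ((t - s) / (x - s))
      refine ⟨n, ?_, h2⟩
      have hx : 0 < x - s := by linarith
      have hn2 : (t - s) / (x - s) < (n : ℝ) + 2 := by linarith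
      have h3 : (t - s) / ((n : ℝ) + 2) ≤ x - s := by
        rw [div_le_iff₀ (by positivity)]
        rw [div_lt_iff₀ hx] at hn2
        linarith
      linarith
    · rintro ⟨n, h1, h2⟩
      have := hpos n
      exact ⟨by linarith, h2⟩
  have hmono : Monotone fun n : ℕ => Icc (s + (t - s) / ((n : ℝ) + 2)) t := by
    intro m n hmn
    apply Icc_subset_Icc_left
    have : ((m : ℝ)) ≤ n := by exact_mod_cast hmn
    have h4 : (t - s) / ((n : ℝ) + 2) ≤ (t - s) / ((m : ℝ) + 2) := by
      apply div_le_div_of_nonneg_left (by linarith) (by positivity) (by linarith)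
    linarith
  have h5 : μ (Ioc s t) = ⨆ n : ℕ, μ (Icc (s + (t - s) / ((n : ℝ) + 2)) t) := by
    conv_lhs => rw [hU]
    exact hmono.measure_iUnion
  rw [h5]
  apply iSup_le
  intro n
  have hn := hpos n
  have h6 : (t - s) / ((n : ℝ) + 2) < t - s := by
    rw [div_lt_iff₀ (by positivity)]
    have : (0 : ℝ) ≤ n := by positivity
    nlinarith
  refine ((h _ t (by linarith) (by linarith)).2.2).trans (measure_mono ?_)
  intro x hx
  exact ⟨by linarith [hx.1], hx.2⟩

/-- A bounded continuous function is integrable on an interval of finite measure. -/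
lemma intOn {μ : Measure ℝ} {s t : ℝ} (hμ : μ (Icc s t) < ⊤) {φ : ℝ → ℝ} (hc : Continuous φ)
    {C : ℝ} (hC : ∀ x, ‖φ x‖ ≤ C) : IntegrableOn φ (Ioc s t) μ := by
  refine Measure.integrableOn_of_bounded (M := C)
    (lt_of_le_of_lt (measure_mono Ioc_subset_Icc_self) hμ).ne
    hc.aestronglyMeasurable (Eventually.of_forall fun x => hC x)

/-- The comparison on a short interval. -/
lemma short {μ ν : Measure ℝ}
    (h : ∀ s t, 0 < s → s < t → μ (Icc s t) < ⊤ ∧ ν (Icc s t) < ⊤ ∧ μ (Icc s t) ≤ ν (Icc s t))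
    {φ : ℝ → ℝ} (hc : Continuous φ) {C : ℝ} (hC : ∀ x, ‖φ x‖ ≤ C) (h0 : ∀ x, 0 ≤ φ x)
    {s t ε : ℝ} (hs : 0 < s) (hst : s < t)
    (hε : ∀ x ∈ Icc s t, ∀ y ∈ Icc s t, φ x ≤ φ y + ε) :
    ∫ x in s..t, φ x ∂μ ≤ ∫ x in s..t, φ x ∂ν + ε * (μ (Ioc s t)).toReal := by
  obtain ⟨z, hz, hzmin⟩ := isCompact_Icc.exists_isMinOn (nonempty_Icc.2 hst.le) hc.continuousOn
  have hf := h s t hs hst
  have hμf : μ (Ioc s t) < ⊤ := lt_of_le_of_lt (measure_mono Ioc_subset_Icc_self) hf.1
  have hνf : ν (Ioc s t) < ⊤ := lt_of_le_of_lt (measure_mono Ioc_subset_Icc_self) hf.2.1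
  have hle : (μ (Ioc s t)).toReal ≤ (ν (Ioc s t)).toReal :=
    ENNReal.toReal_mono hνf.ne (ioc_le h hs hst)
  rw [intervalIntegral.integral_of_le hst.le, intervalIntegral.integral_of_le hst.le]
  have h1 : ∫ x in Ioc s t, φ x ∂μ ≤ (φ z + ε) * (μ (Ioc s t)).toReal := by
    have : ∫ x in Ioc s t, φ x ∂μ ≤ ∫ _ in Ioc s t, (φ z + ε) ∂μ := by
      apply setIntegral_mono_on (intOn hf.1 hc hC)
        (integrableOn_const hμf.ne) measurableSet_Ioc
      intro x hx
      exact hε x (Ioc_subset_Icc_self hx) z hz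
    rw [setIntegral_const, smul_eq_mul, mul_comm] at this
    exact this
  have h2 : φ z * (ν (Ioc s t)).toReal ≤ ∫ x in Ioc s t, φ x ∂ν := by
    have : ∫ _ in Ioc s t, φ z ∂ν ≤ ∫ x in Ioc s t, φ x ∂ν := by
      apply setIntegral_mono_on
        (integrableOn_const hνf.ne) (intOn hf.2.1 hc hC) measurableSet_Ioc
      intro x hx
      exact hzmin (Ioc_subset_Icc_self hx)
    rw [setIntegral_const, smul_eq_mul, mul_comm] at this
    exact this
  have h3 : φ z * (μ (Ioc s t)).toReal ≤ φ z * (ν (Ioc s t)).toReal :=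
    mul_le_mul_of_nonneg_left hle (h0 z)
  linarith [add_mul (φ z) ε (μ (Ioc s t)).toReal]

end CMI_

theorem p_CMI : T_CMI := by
  intro μ ν h φ hc hcs hsupp h0
  obtain ⟨C, hC⟩ := hcs.exists_bound_of_continuous hc
  -- an interval containing the support
  obtain ⟨a, b, ha, hab, hsub⟩ : ∃ a b : ℝ, 0 < a ∧ a < b ∧ ∀ x, x ∉ Ioc a b → φ x = 0 := by
    rcases (tsupport φ).eq_empty_or_nonempty with he | hne
    · refine ⟨1, 2, one_pos, by norm_num, fun x _ => ?_⟩
      exact image_eq_zero_of_notMem_tsupport (by rw [he]; exact notMem_empty x)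
    · have hK : IsCompact (tsupport φ) := hcs
      obtain ⟨m, hm, hmin⟩ := hK.exists_isLeast hne
      obtain ⟨M, hM, hmax⟩ := hK.exists_isGreatest hne
      have hm0 : 0 < m := hsupp hm
      have hmM : m ≤ M := hmin hM
      refine ⟨m / 2, M, by linarith, by linarith, fun x hx => ?_⟩
      apply image_eq_zero_of_notMem_tsupport
      intro hxs
      have h1 : m ≤ x := hmin hxs
      have h2 : x ≤ M := hmax hxs
      exact hx ⟨by linarith, h2⟩
  have hμf : μ (Ioc a b) < ⊤ :=
    lt_of_le_of_lt (measure_mono Ioc_subset_Icc_self) (h a b ha hab).1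
  have key : ∀ ρ : Measure ℝ, ∫ x, φ x ∂ρ = ∫ x in a..b, φ x ∂ρ := by
    intro ρ
    rw [intervalIntegral.integral_of_le hab.le]
    exact (setIntegral_eq_integral_of_forall_compl_eq_zero fun x hx => hsub x hx).symm
  rw [key μ, key ν]
  -- it is enough to have the inequality up to epsilon
  suffices H : ∀ ε > 0, ∫ x in a..b, φ x ∂μ ≤
      ∫ x in a..b, φ x ∂ν + ε * (μ (Ioc a b)).toReal by
    by_contra hcon
    rw [not_le] at hcon
    set D := ∫ x in a..b, φ x ∂μ - ∫ x in a..b, φ x ∂ν with hD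
    have hDpos : 0 < D := by linarith
    set m := (μ (Ioc a b)).toReal with hm
    have hm0 : 0 ≤ m := ENNReal.toReal_nonneg
    have := H (D / (2 * (m + 1))) (by positivity)
    have h1 : D / (2 * (m + 1)) * m ≤ D / 2 := by
      rw [div_mul_eq_mul_div, div_le_div_iff₀ (by positivity) (by positivity)]
      nlinarith
    linarith
  intro ε hε
  have huc : UniformContinuous φ := hcs.uniformContinuous_of_continuous hc
  obtain ⟨δ, hδ, hδ'⟩ := Metric.uniformContinuous_iff.1 huc ε hε
  obtain ⟨n, hn⟩ := exists_nat_gt ((b - a) / δ)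
  have hn0 : 0 < (n : ℝ) := lt_trans (div_pos (by linarith) hδ) hn
  have hstep : (b - a) / n < δ := by
    rw [div_lt_iff₀ hn0]
    rw [div_lt_iff₀ hδ] at hn
    linarith
  have hstep0 : 0 < (b - a) / n := div_pos (by linarith) hn0
  set p : ℕ → ℝ := fun k => a + k * ((b - a) / n) with hp
  have hp0 : p 0 = a := by simp [hp]
  have hpn : p n = b := by
    simp only [hp]
    field_simp
    ring
  have hps : ∀ k, p (k + 1) = p k + (b - a) / n := by
    intro k
    simp only [hp]
    push_cast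
    ring
  have hppos : ∀ k, 0 < p k := by
    intro k
    simp only [hp]
    positivity
  have hlt : ∀ k, p k < p (k + 1) := fun k => by rw [hps k]; linarith
  have hshort : ∀ k, ∫ x in p k..p (k + 1), φ x ∂μ ≤
      ∫ x in p k..p (k + 1), φ x ∂ν + ε * (μ (Ioc (p k) (p (k + 1)))).toReal := by
    intro k
    refine CMI_.short h hc hC h0 (hppos k) (hlt k) ?_
    intro x hx y hy
    have hd : dist x y < δ := by
      rw [Real.dist_eq, abs_lt]
      have := hps k
      constructor
      · linarith [hx.1, hy.2]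
      · linarith [hx.2, hy.1]
    have := hδ' hd
    rw [Real.dist_eq, abs_lt] at this
    linarith [this.2]
  have hii : ∀ (ρ : Measure ℝ), (∀ s t, 0 < s → s < t → ρ (Icc s t) < ⊤) → ∀ k,
      IntervalIntegrable φ ρ (p k) (p (k + 1)) := by
    intro ρ hρ k
    rw [intervalIntegrable_iff_integrableOn_Ioc_of_le (hlt k).le]
    exact CMI_.intOn (hρ _ _ (hppos k) (hlt k)) hc hC
  have hsum := Finset.sum_le_sum (s := Finset.range n) (fun k _ => hshort k)
  rw [Finset.sum_add_distrib, ← Finset.mul_sum] at hsum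
  rw [intervalIntegral.sum_integral_adjacent_intervals
      (fun k _ => hii μ (fun s t h1 h2 => (h s t h1 h2).1) k),
    intervalIntegral.sum_integral_adjacent_intervals
      (fun k _ => hii ν (fun s t h1 h2 => (h s t h1 h2).2.1) k), hp0, hpn] at hsum
  have hmeas : ∑ k ∈ Finset.range n, (μ (Ioc (p k) (p (k + 1)))).toReal =
      (μ (Ioc a b)).toReal := by
    have h1 : ∀ k, (μ (Ioc (p k) (p (k + 1)))).toReal = ∫ _ in p k..p (k + 1), (1 : ℝ) ∂μ := by
      intro k
      rw [intervalIntegral.integral_of_le (hlt k).le, setIntegral_const, smul_eq_mul, mul_one]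
      rfl
    have h2 : (μ (Ioc a b)).toReal = ∫ _ in a..b, (1 : ℝ) ∂μ := by
      rw [intervalIntegral.integral_of_le hab.le, setIntegral_const, smul_eq_mul, mul_one]
      rfl
    rw [h2, Finset.sum_congr rfl fun k _ => h1 k]
    rw [intervalIntegral.sum_integral_adjacent_intervals, hp0, hpn]
    intro k _
    rw [intervalIntegrable_iff_integrableOn_Ioc_of_le (hlt k).le]
    exact integrableOn_const (lt_of_le_of_lt (measure_mono Ioc_subset_Icc_self)
      (h _ _ (hppos k) (hlt k)).1).ne
  rw [hmeas] at hsum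
  exact hsum

end MGS
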