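import Pool.Agent.MGS.TF

/-!
# MGS: the cone
-/

set_option autoImplicit false

noncomputable section

open MeasureTheory Metric

namespace MGS

theorem p_CNE : T_CNE := by
  intro R R₀ L hR₀ hL hout hvol
  have hd : ∀ x y : ℂ, L x ≤ L y + ‖x - y‖ := by
    intro x y
    have h := hL.dist_le_mul x y
    rw [Real.dist_eq, dist_eq_norm, NNReal.coe_one, one_mul] at h
    linarith [le_abs_self (L x - L y)]
  have hpos : ∀ s, 0 ≤ s → s < R₀ → ∃ x, s < L x := by
    intro s hs hs'
    by_contra h
    have h1 : {x | s < L x} = ∅ := Set.eq_empty_of_forall_notMem fun x hx => h ⟨x, hx⟩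
    have h2 := hvol s hs hs'
    rw [h1, measure_empty] at h2
    have h3 : 0 < Real.pi * (R₀ - s) ^ 2 := by
      have : 0 < R₀ - s := by linarith
      positivity
    exact absurd (ENNReal.ofReal_eq_zero.1 h2.symm) (not_le.2 h3)
  obtain ⟨x0, hx0⟩ := hpos 0 le_rfl hR₀
  have hx0R : ‖x0‖ < R := by
    by_contra h
    linarith [hout x0 (not_lt.1 h)]
  obtain ⟨c, -, hc⟩ := (isCompact_closedBall (0 : ℂ) R).exists_isMaxOn
    ⟨x0, by rw [mem_closedBall, dist_zero_right]; exact hx0R.le⟩ hL.continuous.continuousOn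
  have hmax : ∀ x, L x ≤ L c := by
    intro x
    by_cases hx : ‖x‖ ≤ R
    · exact hc (by rw [mem_closedBall, dist_zero_right]; exact hx)
    · have h1 : L x0 ≤ L c := hc (by rw [mem_closedBall, dist_zero_right]; exact hx0R.le)
      linarith [hout x (not_le.1 hx).le]
  have hge : R₀ ≤ L c := by
    by_contra h
    push Not at h
    have h0 : 0 ≤ L c := (hx0.le).trans (hmax x0)
    obtain ⟨x, hx⟩ := hpos (L c) h0 h
    exact absurd (hmax x) (not_le.2 hx)
  have hball : ∀ r : ℝ, 0 ≤ r → volume (ball c r) = ENNReal.ofReal (Real.pi * r ^ 2) := by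
    intro r hr
    rw [Complex.volume_ball, mul_comm Real.pi, ENNReal.ofReal_mul (by positivity),
      ENNReal.ofReal_pow hr]
    congr 1
    rw [← NNReal.coe_real_pi, ENNReal.ofReal_coe_nnreal]
  have hle : L c ≤ R₀ := by
    have h1 : ball c (L c) ⊆ {x | 0 < L x} := by
      intro x hx
      rw [mem_ball, dist_eq_norm, norm_sub_rev] at hx
      show 0 < L x
      linarith [hd c x]
    have h2 := measure_mono (μ := volume) h1
    rw [hball _ (by linarith), hvol 0 le_rfl hR₀, sub_zero,
      ENNReal.ofReal_le_ofReal_iff (by positivity)] at h2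
    have h3 : (L c) ^ 2 ≤ R₀ ^ 2 := le_of_mul_le_mul_left h2 Real.pi_pos
    nlinarith
  have hLc : L c = R₀ := le_antisymm hle hge
  have hlow : ∀ x, R₀ - ‖x - c‖ ≤ L x := by
    intro x
    have := hd c x
    rw [norm_sub_rev] at this
    linarith
  have hcl : ∀ s, 0 ≤ s → s < R₀ → ∀ x, s < L x → ‖x - c‖ ≤ R₀ - s := by
    intro s hs hs' x hx
    by_contra h
    have hopen : IsOpen ({x | s < L x} \ closedBall c (R₀ - s)) :=
      (isOpen_lt continuous_const hL.continuous).sdiff isClosed_closedBall
    have hsub : ball c (R₀ - s) ⊆ {x | s < L x} := by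
      intro y hy
      rw [mem_ball, dist_eq_norm] at hy
      show s < L y
      linarith [hlow y]
    have hz : volume ({x | s < L x} \ ball c (R₀ - s)) = 0 := by
      rw [measure_sdiff hsub measurableSet_ball.nullMeasurableSet (by
        rw [hball _ (by linarith)]; exact ENNReal.ofReal_ne_top), hvol s hs hs',
        hball _ (by linarith), tsub_self]
    have hz' : volume ({x | s < L x} \ closedBall c (R₀ - s)) = 0 :=
      measure_mono_null (Set.sdiff_subset_sdiff_right ball_subset_closedBall) hz
    have hne : ({x | s < L x} \ closedBall c (R₀ - s)).Nonempty :=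
      ⟨x, hx, by rw [mem_closedBall, dist_eq_norm]; exact h⟩
    exact (hopen.measure_pos volume hne).ne' hz'
  refine ⟨c, fun x => ?_⟩
  rcases le_or_gt (L x) 0 with h | h
  · rw [max_eq_right h, max_eq_right ((hlow x).trans h)]
  · have h1 : L x ≤ R₀ - ‖x - c‖ := by
      by_contra h2
      push Not at h2
      obtain ⟨s, hs, hs'⟩ := exists_between (max_lt h h2)
      have h3 : 0 < s := lt_of_le_of_lt (le_max_left _ _) hs
      have h4 : R₀ - ‖x - c‖ < s := lt_of_le_of_lt (le_max_right _ _) hs
      have h5 : s < R₀ := lt_of_lt_of_le hs' ((hmax x).trans hle)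
      linarith [hcl s h3.le h5 x hs']
    rw [le_antisymm h1 (hlow x)]

end MGS
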