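import Pool.Agent.MGS.TF

/-!
# MGS: the projection of a minimizer is connected
-/

set_option autoImplicit false

open MeasureTheory Filter Topology Metric Set
open scoped ENNReal NNReal ContDiff

noncomputable section

namespace MGS

theorem CNN_.apc (B : ℝ) (i : Fin 3) : Continuous (Ap B i) := by
  have h1 : Continuous fun P : X => P.1.im := Complex.continuous_im.comp continuous_fst
  have h2 : Continuous fun P : X => P.1.re := Complex.continuous_re.comp continuous_fst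
  fin_cases i
  · show Continuous fun P : X => -(B / 2) * P.1.im
    exact continuous_const.mul h1
  · show Continuous fun P : X => (B / 2) * P.1.re
    exact continuous_const.mul h2
  · show Continuous fun _ : X => (0 : ℝ)
    exact continuous_const

theorem CNN_.apb (B : ℝ) (i : Fin 3) (P : X) : |Ap B i P| ≤ |B / 2| * ‖P‖ := by
  have h0 : ‖P.1‖ ≤ ‖P‖ := norm_fst_le P
  have h3 : 0 ≤ |B / 2| := abs_nonneg _
  fin_cases i
  · show |-(B / 2) * P.1.im| ≤ |B / 2| * ‖P‖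
    rw [abs_mul, abs_neg]
    exact mul_le_mul_of_nonneg_left ((Complex.abs_im_le_norm _).trans h0) h3
  · show |(B / 2) * P.1.re| ≤ |B / 2| * ‖P‖
    rw [abs_mul]
    exact mul_le_mul_of_nonneg_left ((Complex.abs_re_le_norm _).trans h0) h3
  · show |(0 : ℝ)| ≤ |B / 2| * ‖P‖
    rw [abs_zero]
    positivity

theorem CNN_.integ {B : ℝ} {Ω : Set X} {a b : X → ℝ} {Fa Fb : Fin 3 → X → ℝ}
    (hΩ : Bornology.IsBounded Ω) (ha : MemLp a 2 volume) (hb : MemLp b 2 volume)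
    (hFa : ∀ i, MemLp (Fa i) 2 volume) (hFb : ∀ i, MemLp (Fb i) 2 volume)
    (h0 : ∀ P, P ∉ Ω → a P = 0 ∧ b P = 0) :
    Integrable (fun P => ∑ i, em B a b Fa Fb i P) := by
  obtain ⟨R, hR⟩ := hΩ.subset_closedBall (0 : X)
  have key : ∀ (i : Fin 3) (u : X → ℝ), MemLp u 2 volume → (∀ P, P ∉ Ω → u P = 0) →
      MemLp (fun P => Ap B i P * u P) 2 volume := by
    intro i u hu hu0
    refine MemLp.of_le_mul (c := |B / 2| * R) hu
      ((CNN_.apc B i).aestronglyMeasurable.mul hu.1) (Eventually.of_forall fun P => ?_)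
    by_cases hP : P ∈ Ω
    · have h1 : ‖P‖ ≤ R := mem_closedBall_zero_iff.1 (hR hP)
      rw [norm_mul, Real.norm_eq_abs]
      refine mul_le_mul_of_nonneg_right ((CNN_.apb B i P).trans ?_) (norm_nonneg _)
      exact mul_le_mul_of_nonneg_left h1 (abs_nonneg _)
    · rw [hu0 P hP]
      simp
  refine integrable_finsetSum _ fun i _ => ?_
  exact ((hFa i).sub (key i b hb fun P hP => (h0 P hP).2)).integrable_sq.add
    ((hFb i).add (key i a ha fun P hP => (h0 P hP).1)).integrable_sq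

theorem CNN_.step (h_EXM : T_EXM) (h_STC : T_STC) (h_FRI : T_FRI) {B : ℝ} {Ω Ω₁ : Set X}
    (hm : IsMinimizer B Ω) (ho : IsOpen Ω₁) (hs : Ω₁ ⊆ Ω) (hne : Ω₁.Nonempty)
    (hv : volume Ω₁ < volume Ω) {a b : X → ℝ} {Fa Fb : Fin 3 → X → ℝ}
    (ha : H1 e3 Ω₁ a Fa) (hb : H1 e3 Ω₁ b Fb) (hpos : 0 < ∫ P, (a P ^ 2 + b P ^ 2))
    (he : EM B a b Fa Fb ≤ lam B Ω * ∫ P, (a P ^ 2 + b P ^ 2)) : False := by
  have hb₁ : Bornology.IsBounded Ω₁ := hm.bounded.subset hs
  have v0 : volume Ω₁ ≠ 0 := (ho.measure_pos volume hne).ne'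
  have vt : volume Ω ≠ ⊤ := hm.bounded.measure_lt_top.ne
  have v1t : volume Ω₁ ≠ ⊤ := hb₁.measure_lt_top.ne
  set t : ℝ := (volume Ω / volume Ω₁).toReal with ht
  have hot : ENNReal.ofReal t = volume Ω / volume Ω₁ :=
    ENNReal.ofReal_toReal (ENNReal.div_ne_top vt v0)
  have hvol : ENNReal.ofReal t * volume Ω₁ = volume Ω := by
    rw [hot]
    exact ENNReal.div_mul_cancel v0 v1t
  have ht1 : 1 < t := by
    by_contra hc
    have h1 : ENNReal.ofReal t ≤ 1 := by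
      rw [← ENNReal.ofReal_one]
      exact ENNReal.ofReal_le_ofReal (not_lt.1 hc)
    have h2 : volume Ω ≤ volume Ω₁ := by
      calc volume Ω = ENNReal.ofReal t * volume Ω₁ := hvol.symm
        _ ≤ 1 * volume Ω₁ := by gcongr
        _ = volume Ω₁ := one_mul _
    exact absurd hv (not_lt.2 h2)
  have ht0 : 0 < t := by linarith
  obtain ⟨s1, s2, s3, s4, s5, s6, s7⟩ := h_STC B t Ω₁ a b Fa Fb ht0 ho hb₁ ha hb
  have hne' : (st t ⁻¹' Ω₁).Nonempty := by
    obtain ⟨P, hP⟩ := hne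
    refine ⟨(P.1, t * P.2), ?_⟩
    show (P.1, t * P.2 / t) ∈ Ω₁
    rw [mul_div_cancel_left₀ _ ht0.ne']
    exact hP
  have hl : lam B Ω ≤ lam B (st t ⁻¹' Ω₁) := hm.min _ s1 s2 (by rw [s3, hvol])
  have hE := (h_EXM B _ s1 s2 hne').2 _ _ _ _ s4 s5
  rw [s6, s7] at hE
  obtain ⟨r, hr⟩ := hb₁.subset_closedBall (0 : X)
  have hR : Ω₁ ⊆ closedBall (0 : X) (max r 1) :=
    hr.trans (closedBall_subset_closedBall (le_max_left _ _))
  have hR0 : 0 < max r 1 := lt_of_lt_of_le one_pos (le_max_right _ _)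
  have f1 := h_FRI.2 Ω₁ a Fa _ hR0 hR ha
  have f2 := h_FRI.2 Ω₁ b Fb _ hR0 hR hb
  have e1 : ∫ P, (a P ^ 2 + b P ^ 2) = (∫ P, a P ^ 2) + ∫ P, b P ^ 2 :=
    integral_add ha.1.integrable_sq hb.1.integrable_sq
  have e2 : ∫ P, (Fa 2 P ^ 2 + Fb 2 P ^ 2) = (∫ P, Fa 2 P ^ 2) + ∫ P, Fb 2 P ^ 2 :=
    integral_add (ha.2.1 2).integrable_sq (hb.2.1 2).integrable_sq
  set m : ℝ := ∫ P, (a P ^ 2 + b P ^ 2) with hmdef
  set D : ℝ := ∫ P, (Fa 2 P ^ 2 + Fb 2 P ^ 2) with hD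
  have hD0 : 0 < D := by
    have h1 : m ≤ 4 * max r 1 ^ 2 * D := by
      rw [e1, e2]
      nlinarith
    by_contra hc
    have h2 : 4 * max r 1 ^ 2 * D ≤ 0 :=
      mul_nonpos_of_nonneg_of_nonpos (by positivity) (not_lt.1 hc)
    linarith
  have ht2 : 0 < 1 - (t ^ 2)⁻¹ := by
    have h1 : 1 < t ^ 2 := by nlinarith
    have h2 : (t ^ 2)⁻¹ < 1 := inv_lt_one_of_one_lt₀ h1
    linarith
  have h3 : t * (lam B (st t ⁻¹' Ω₁) * m) ≤ t * (EM B a b Fa Fb - (1 - (t ^ 2)⁻¹) * D) := by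
    calc t * (lam B (st t ⁻¹' Ω₁) * m) = lam B (st t ⁻¹' Ω₁) * (t * m) := by ring
      _ ≤ _ := hE
  have h4 := le_of_mul_le_mul_left h3 ht0
  have h5 : lam B Ω * m ≤ lam B (st t ⁻¹' Ω₁) * m := mul_le_mul_of_nonneg_right hl hpos.le
  have h6 : 0 < (1 - (t ^ 2)⁻¹) * D := mul_pos ht2 hD0
  linarith

theorem CNN_.emnn {B : ℝ} {a b : X → ℝ} {Fa Fb : Fin 3 → X → ℝ} : 0 ≤ EM B a b Fa Fb :=
  integral_nonneg fun _ => Finset.sum_nonneg fun _ _ => add_nonneg (sq_nonneg _) (sq_nonneg _)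

theorem p_CNN (h_EXM : T_EXM) (h_SPL : T_SPL) (h_STC : T_STC) (h_FRI : T_FRI) : T_CNN := by
  intro B Ω hm
  refine ⟨?_⟩
  rintro z₁ ⟨x₁, hx₁⟩ z₂ ⟨x₂, hx₂⟩ z₀ ⟨hz1, hz2⟩
  by_contra hno
  have hno' : ∀ x : ℂ, (x, z₀) ∉ Ω := fun x hx => hno ⟨x, hx⟩
  have hz1' : z₁ < z₀ := lt_of_le_of_ne hz1 fun h => hno' x₁ (h ▸ hx₁)
  have hz2' : z₀ < z₂ := lt_of_le_of_ne hz2 fun h => hno' x₂ (h ▸ hx₂)
  have cz : Continuous fun P : X => P.2 := continuous_snd
  have o1 : IsOpen (Ω ∩ {P : X | P.2 < z₀}) := hm.isOpen.inter (isOpen_lt cz continuous_const)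
  have o2 : IsOpen (Ω ∩ {P : X | z₀ < P.2}) := hm.isOpen.inter (isOpen_lt continuous_const cz)
  have n1 : (Ω ∩ {P : X | P.2 < z₀}).Nonempty := ⟨(x₁, z₁), hx₁, hz1'⟩
  have n2 : (Ω ∩ {P : X | z₀ < P.2}).Nonempty := ⟨(x₂, z₂), hx₂, hz2'⟩
  have vt : volume Ω ≠ ⊤ := hm.bounded.measure_lt_top.ne
  have hdis : Disjoint (Ω ∩ {P : X | P.2 < z₀}) (Ω ∩ {P : X | z₀ < P.2}) := by
    rw [Set.disjoint_left]
    rintro P ⟨_, h1⟩ ⟨_, h2⟩
    have h1' : P.2 < z₀ := h1
    have h2' : z₀ < P.2 := h2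
    linarith
  have hvs : volume (Ω ∩ {P : X | P.2 < z₀}) + volume (Ω ∩ {P : X | z₀ < P.2}) ≤ volume Ω := by
    rw [← measure_union hdis o2.measurableSet]
    exact measure_mono (Set.union_subset Set.inter_subset_left Set.inter_subset_left)
  have p1 : 0 < volume (Ω ∩ {P : X | P.2 < z₀}) := o1.measure_pos volume n1
  have p2 : 0 < volume (Ω ∩ {P : X | z₀ < P.2}) := o2.measure_pos volume n2
  have t1 : volume (Ω ∩ {P : X | P.2 < z₀}) ≠ ⊤ :=
    ne_top_of_le_ne_top vt (measure_mono Set.inter_subset_left)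
  have t2 : volume (Ω ∩ {P : X | z₀ < P.2}) ≠ ⊤ :=
    ne_top_of_le_ne_top vt (measure_mono Set.inter_subset_left)
  have v1 : volume (Ω ∩ {P : X | P.2 < z₀}) < volume Ω :=
    lt_of_lt_of_le (ENNReal.lt_add_right t1 p2.ne') hvs
  have v2 : volume (Ω ∩ {P : X | z₀ < P.2}) < volume Ω := by
    rw [add_comm] at hvs
    exact lt_of_lt_of_le (ENNReal.lt_add_right t2 p1.ne') hvs
  obtain ⟨⟨a, b, Fa, Fb, gm⟩, _⟩ := h_EXM B Ω hm.isOpen hm.bounded hm.nonempty
  obtain ⟨sa1, sa2⟩ := h_SPL Ω z₀ a Fa hm.isOpen hno' gm.ha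
  obtain ⟨sb1, sb2⟩ := h_SPL Ω z₀ b Fb hm.isOpen hno' gm.hb
  -- the splitting of the functions
  have hz : ∀ (u : X → ℝ), (∀ P, P ∉ Ω → u P = 0) → ∀ P, P.2 = z₀ → u P = 0 := by
    intro u hu P hP
    refine hu P ?_
    have h1 : P = (P.1, z₀) := Prod.ext rfl hP
    rw [h1]
    exact hno' _
  have za : ∀ P : X, P.2 = z₀ → a P = 0 := hz a fun P hP => (gm.zero P hP).1
  have zb : ∀ P : X, P.2 = z₀ → b P = 0 := hz b fun P hP => (gm.zero P hP).2.1
  have zFa : ∀ i, ∀ P : X, P.2 = z₀ → Fa i P = 0 := fun i =>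
    hz (Fa i) fun P hP => ((gm.zero P hP).2.2 i).1
  have zFb : ∀ i, ∀ P : X, P.2 = z₀ → Fb i P = 0 := fun i =>
    hz (Fb i) fun P hP => ((gm.zero P hP).2.2 i).2
  set a1 := {P : X | P.2 < z₀}.indicator a with ha1
  set b1 := {P : X | P.2 < z₀}.indicator b with hb1
  set a2 := {P : X | z₀ < P.2}.indicator a with ha2
  set b2 := {P : X | z₀ < P.2}.indicator b with hb2
  have ind1 : ∀ (u : X → ℝ) (P : X), P.2 < z₀ → {P : X | P.2 < z₀}.indicator u P = u P ∧
      {P : X | z₀ < P.2}.indicator u P = 0 := by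
    intro u P h
    constructor
    · rw [Set.indicator_apply, if_pos]
      exact h
    · rw [Set.indicator_apply, if_neg]
      exact fun h' => lt_asymm h h'
  have ind2 : ∀ (u : X → ℝ) (P : X), z₀ < P.2 → {P : X | P.2 < z₀}.indicator u P = 0 ∧
      {P : X | z₀ < P.2}.indicator u P = u P := by
    intro u P h
    constructor
    · rw [Set.indicator_apply, if_neg]
      exact fun h' => lt_asymm h h'
    · rw [Set.indicator_apply, if_pos]
      exact h
  have ind0 : ∀ (u : X → ℝ) (P : X), P.2 = z₀ → {P : X | P.2 < z₀}.indicator u P = 0 ∧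
      {P : X | z₀ < P.2}.indicator u P = 0 := by
    intro u P h
    constructor
    · rw [Set.indicator_apply, if_neg]
      exact fun h' => (ne_of_lt h') h
    · rw [Set.indicator_apply, if_neg]
      exact fun h' => (ne_of_gt h') h
  have i1 : Integrable (fun P => ∑ i, em B a1 b1 (fun i => {P : X | P.2 < z₀}.indicator (Fa i))
      (fun i => {P : X | P.2 < z₀}.indicator (Fb i)) i P) := by
    refine CNN_.integ hm.bounded sa1.1 sb1.1 sa1.2.1 sb1.2.1 fun P hP => ?_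
    constructor
    · rw [ha1, Set.indicator_apply]
      split_ifs
      · exact (gm.zero P hP).1
      · rfl
    · rw [hb1, Set.indicator_apply]
      split_ifs
      · exact (gm.zero P hP).2.1
      · rfl
  have i2 : Integrable (fun P => ∑ i, em B a2 b2 (fun i => {P : X | z₀ < P.2}.indicator (Fa i))
      (fun i => {P : X | z₀ < P.2}.indicator (Fb i)) i P) := by
    refine CNN_.integ hm.bounded sa2.1 sb2.1 sa2.2.1 sb2.2.1 fun P hP => ?_
    constructor
    · rw [ha2, Set.indicator_apply]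
      split_ifs
      · exact (gm.zero P hP).1
      · rfl
    · rw [hb2, Set.indicator_apply]
      split_ifs
      · exact (gm.zero P hP).2.1
      · rfl
  have eE : EM B a b Fa Fb =
      EM B a1 b1 (fun i => {P : X | P.2 < z₀}.indicator (Fa i))
        (fun i => {P : X | P.2 < z₀}.indicator (Fb i)) +
      EM B a2 b2 (fun i => {P : X | z₀ < P.2}.indicator (Fa i))
        (fun i => {P : X | z₀ < P.2}.indicator (Fb i)) := by
    unfold EM
    rw [← integral_add i1 i2]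
    refine integral_congr_ae (Eventually.of_forall fun P => ?_)
    show ∑ i, em B a b Fa Fb i P = (∑ i, em B a1 b1 _ _ i P) + ∑ i, em B a2 b2 _ _ i P
    rw [← Finset.sum_add_distrib]
    refine Finset.sum_congr rfl fun i _ => ?_
    simp only [em, ha1, hb1, ha2, hb2]
    rcases lt_trichotomy P.2 z₀ with h | h | h
    · rw [(ind1 a P h).1, (ind1 a P h).2, (ind1 b P h).1, (ind1 b P h).2, (ind1 (Fa i) P h).1,
        (ind1 (Fa i) P h).2, (ind1 (Fb i) P h).1, (ind1 (Fb i) P h).2]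
      ring
    · rw [(ind0 a P h).1, (ind0 a P h).2, (ind0 b P h).1, (ind0 b P h).2, (ind0 (Fa i) P h).1,
        (ind0 (Fa i) P h).2, (ind0 (Fb i) P h).1, (ind0 (Fb i) P h).2, za P h, zb P h, zFa i P h,
        zFb i P h]
      ring
    · rw [(ind2 a P h).1, (ind2 a P h).2, (ind2 b P h).1, (ind2 b P h).2, (ind2 (Fa i) P h).1,
        (ind2 (Fa i) P h).2, (ind2 (Fb i) P h).1, (ind2 (Fb i) P h).2]
      ring
  have eM : ∫ P, (a P ^ 2 + b P ^ 2) =
      (∫ P, (a1 P ^ 2 + b1 P ^ 2)) + ∫ P, (a2 P ^ 2 + b2 P ^ 2) := by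
    have j1 : Integrable (fun P => a1 P ^ 2 + b1 P ^ 2) :=
      sa1.1.integrable_sq.add sb1.1.integrable_sq
    have j2 : Integrable (fun P => a2 P ^ 2 + b2 P ^ 2) :=
      sa2.1.integrable_sq.add sb2.1.integrable_sq
    rw [← integral_add j1 j2]
    refine integral_congr_ae (Eventually.of_forall fun P => ?_)
    show a P ^ 2 + b P ^ 2 = (a1 P ^ 2 + b1 P ^ 2) + (a2 P ^ 2 + b2 P ^ 2)
    simp only [ha1, hb1, ha2, hb2]
    rcases lt_trichotomy P.2 z₀ with h | h | h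
    · rw [(ind1 a P h).1, (ind1 a P h).2, (ind1 b P h).1, (ind1 b P h).2]
      ring
    · rw [(ind0 a P h).1, (ind0 a P h).2, (ind0 b P h).1, (ind0 b P h).2, za P h, zb P h]
      ring
    · rw [(ind2 a P h).1, (ind2 a P h).2, (ind2 b P h).1, (ind2 b P h).2]
      ring
  have m1 : 0 ≤ ∫ P, (a1 P ^ 2 + b1 P ^ 2) :=
    integral_nonneg fun P => add_nonneg (sq_nonneg _) (sq_nonneg _)
  have m2 : 0 ≤ ∫ P, (a2 P ^ 2 + b2 P ^ 2) :=
    integral_nonneg fun P => add_nonneg (sq_nonneg _) (sq_nonneg _)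
  have hnrm := gm.nrm
  have heq := gm.eq
  rw [eM] at hnrm
  rw [eE] at heq
  have q1 := CNN_.step h_EXM h_STC h_FRI hm o1 Set.inter_subset_left n1 v1 sa1 sb1
  have q2 := CNN_.step h_EXM h_STC h_FRI hm o2 Set.inter_subset_left n2 v2 sa2 sb2
  have E1 : 0 ≤ EM B a1 b1 (fun i => {P : X | P.2 < z₀}.indicator (Fa i))
      (fun i => {P : X | P.2 < z₀}.indicator (Fb i)) := CNN_.emnn
  have E2 : 0 ≤ EM B a2 b2 (fun i => {P : X | z₀ < P.2}.indicator (Fa i))
      (fun i => {P : X | z₀ < P.2}.indicator (Fb i)) := CNN_.emnn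
  rcases m1.lt_or_eq with h1 | h1
  · rcases m2.lt_or_eq with h2 | h2
    · have r1 := not_le.1 fun h => q1 h1 h
      have r2 := not_le.1 fun h => q2 h2 h
      have : lam B Ω * ((∫ P, (a1 P ^ 2 + b1 P ^ 2)) + ∫ P, (a2 P ^ 2 + b2 P ^ 2)) <
          lam B Ω := by
        rw [mul_add]
        linarith
      rw [hnrm] at this
      linarith
    · refine q1 h1 ?_
      rw [← h2, add_zero] at hnrm
      rw [hnrm]
      linarith
  · refine q2 ?_ ?_
    · rw [← h1, zero_add] at hnrm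
      rw [hnrm]
      exact one_pos
    · rw [← h1, zero_add] at hnrm
      rw [hnrm]
      linarith

end MGS
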