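import Pool.Agent.MGS.TB

/-!
# MGS: CON (connectedness of star-shaped domains)
-/

set_option autoImplicit false

open MeasureTheory Filter Topology Metric Set
open scoped ENNReal NNReal ContDiff

noncomputable section

namespace MGS

namespace CON_

/-- three segments joining two points of `G ∩ H` -/
lemma join {G H : Set X} (hG : Star G) (hH : Convex ℝ H) {P P' : X} (hP : P ∈ G) (hP' : P' ∈ G)
    (hPH : P ∈ H) (hPH' : P' ∈ H) {δ : ℝ} (h0 : 0 ≤ δ) (h1 : δ ≤ ‖P.1‖) (h2 : δ ≤ ‖P'.1‖)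
    (hs : ∀ s ∈ uIcc P.2 P'.2, (((δ : ℂ), s) : X) ∈ G)
    (hsH : ∀ s : ℝ, (((δ : ℂ), s) : X) ∈ H) :
    ∃ t : Set X, t ⊆ G ∩ H ∧ P ∈ t ∧ P' ∈ t ∧ IsPreconnected t := by
  have key : ∀ Q : X, Q ∈ G → δ ≤ ‖Q.1‖ → segment ℝ Q ((δ : ℂ), Q.2) ⊆ G := by
    intro Q hQ hQδ R hR
    obtain ⟨a, b, ha, hb, hab, rfl⟩ := hR
    have hfst : (a • Q + b • (((δ : ℂ), Q.2) : X)).1 = a • Q.1 + b • (δ : ℂ) := rfl
    have hsnd : (a • Q + b • (((δ : ℂ), Q.2) : X)).2 = Q.2 := by
      change a • Q.2 + b • Q.2 = Q.2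
      rw [← add_smul, hab, one_smul]
    have hn : ‖a • Q.1 + b • (δ : ℂ)‖ ≤ ‖Q.1‖ := by
      calc ‖a • Q.1 + b • (δ : ℂ)‖ ≤ ‖a • Q.1‖ + ‖b • (δ : ℂ)‖ := norm_add_le _ _
        _ = a * ‖Q.1‖ + b * δ := by
          rw [norm_smul, norm_smul, Real.norm_of_nonneg ha, Real.norm_of_nonneg hb,
            Complex.norm_real, Real.norm_of_nonneg h0]
        _ ≤ a * ‖Q.1‖ + b * ‖Q.1‖ := by
          have := mul_le_mul_of_nonneg_left hQδ hb
          linarith
        _ = ‖Q.1‖ := by rw [← add_mul, hab, one_mul]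
    have := hG.star Q hQ _ hn
    have heq : a • Q + b • (((δ : ℂ), Q.2) : X) = (a • Q.1 + b • (δ : ℂ), Q.2) :=
      Prod.ext hfst hsnd
    rw [heq]
    exact this
  have mid : segment ℝ (((δ : ℂ), P.2) : X) ((δ : ℂ), P'.2) ⊆ G := by
    intro R hR
    obtain ⟨a, b, ha, hb, hab, rfl⟩ := hR
    have hmem : a • P.2 + b • P'.2 ∈ uIcc P.2 P'.2 := by
      rw [← segment_eq_uIcc]
      exact ⟨a, b, ha, hb, hab, rfl⟩
    have heq : a • (((δ : ℂ), P.2) : X) + b • (((δ : ℂ), P'.2) : X) =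
        ((δ : ℂ), a • P.2 + b • P'.2) := by
      refine Prod.ext ?_ rfl
      change a • (δ : ℂ) + b • (δ : ℂ) = (δ : ℂ)
      rw [← add_smul, hab, one_smul]
    rw [heq]
    exact hs _ hmem
  refine ⟨segment ℝ P ((δ : ℂ), P.2) ∪ (segment ℝ (((δ : ℂ), P.2) : X) ((δ : ℂ), P'.2) ∪
    segment ℝ P' ((δ : ℂ), P'.2)), ?_, ?_, ?_, ?_⟩
  · refine union_subset (subset_inter (key P hP h1) (hH.segment_subset hPH (hsH _)))
      (union_subset (subset_inter mid (hH.segment_subset (hsH _) (hsH _)))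
        (subset_inter (key P' hP' h2) (hH.segment_subset hPH' (hsH _))))
  · exact Or.inl (left_mem_segment ℝ _ _)
  · exact Or.inr (Or.inr (left_mem_segment ℝ _ _))
  · refine IsPreconnected.union (((δ : ℂ), P.2) : X) (right_mem_segment ℝ _ _)
      (Or.inl (left_mem_segment ℝ _ _)) (convex_segment _ _).isPreconnected ?_
    exact IsPreconnected.union (((δ : ℂ), P'.2) : X) (right_mem_segment ℝ _ _)
      (right_mem_segment ℝ _ _) (convex_segment _ _).isPreconnected
      (convex_segment _ _).isPreconnected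

/-- the axis between two heights -/
lemma axis {G : Set X} (hG : Star G) {P P' : X} (hP : P ∈ G) (hP' : P' ∈ G) :
    ∀ s ∈ uIcc P.2 P'.2, (((0 : ℂ), s) : X) ∈ G := by
  intro s hs
  have h1 : P.2 ∈ {z : ℝ | (((0 : ℂ), z) : X) ∈ G} := hG.star P hP 0 (by simp)
  have h2 : P'.2 ∈ {z : ℝ | (((0 : ℂ), z) : X) ∈ G} := hG.star P' hP' 0 (by simp)
  exact hG.conn.uIcc_subset h1 h2 hs

end CON_

open CON_ in
/-- CON -/
theorem p_CON : T_CON := by
  intro G hG
  refine ⟨?_, ?_, ?_⟩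
  · apply isPreconnected_of_forall_pair
    intro P hP P' hP'
    have := join hG (convex_univ (𝕜 := ℝ) (E := X)) hP hP' (mem_univ _) (mem_univ _) (δ := 0)
      le_rfl (norm_nonneg _) (norm_nonneg _)
      (fun s hs => by simpa using axis hG hP hP' s hs) (fun _ => mem_univ _)
    simpa using this
  · exact hG.isOpen.inter (isOpen_lt continuous_const
      (Complex.continuous_re.comp continuous_fst))
  · apply isPreconnected_of_forall_pair
    rintro P ⟨hP, hPre⟩ P' ⟨hP', hPre'⟩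
    have hsub : ({(0 : ℂ)} : Set ℂ) ×ˢ (uIcc P.2 P'.2) ⊆ G := by
      rintro ⟨x, s⟩ ⟨hx, hs⟩
      simp only [mem_singleton_iff] at hx
      subst hx
      exact axis hG hP hP' s hs
    obtain ⟨u, v, hu, _, h0u, htv, huv⟩ :=
      generalized_tube_lemma (isCompact_singleton (x := (0 : ℂ)))
        (isCompact_uIcc (a := P.2) (b := P'.2)) hG.isOpen hsub
    have h0 : (0 : ℂ) ∈ u := h0u (mem_singleton _)
    obtain ⟨ε, hε, hball⟩ := Metric.isOpen_iff.mp hu 0 h0
    set δ : ℝ := min (ε / 2) (min P.1.re P'.1.re) with hδ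
    have hδ0 : 0 < δ := lt_min (by linarith) (lt_min hPre hPre')
    have hδ1 : δ ≤ P.1.re := (min_le_right _ _).trans (min_le_left _ _)
    have hδ2 : δ ≤ P'.1.re := (min_le_right _ _).trans (min_le_right _ _)
    have hδε : δ ≤ ε / 2 := min_le_left _ _
    have hδu : (δ : ℂ) ∈ u := by
      apply hball
      rw [mem_ball_zero_iff, Complex.norm_real, Real.norm_of_nonneg hδ0.le]
      linarith
    have hconv : Convex ℝ {P : X | 0 < P.1.re} := by
      intro Q hQ Q' hQ' a b ha hb hab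
      have h1 : 0 < Q.1.re := hQ
      have h2 : 0 < Q'.1.re := hQ'
      change 0 < (a • Q.1 + b • Q'.1).re
      rw [Complex.add_re, Complex.smul_re, Complex.smul_re, smul_eq_mul, smul_eq_mul]
      rcases eq_or_lt_of_le ha with h | h
      · have hb1 : b = 1 := by linarith
        rw [← h, hb1]
        linarith
      · have := mul_pos h h1
        have := mul_nonneg hb h2.le
        linarith
    have := join hG hconv hP hP' hPre hPre' (δ := δ) hδ0.le
      (hδ1.trans ((le_abs_self _).trans (Complex.abs_re_le_norm _)))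
      (hδ2.trans ((le_abs_self _).trans (Complex.abs_re_le_norm _)))
      (fun s hs => huv ⟨hδu, htv hs⟩) (fun s => by simpa using hδ0)
    exact this

end MGS
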