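import Pool.Agent.MGS.TA

/-!
# MGS: target CPX (complex test functions are pairs of real ones)
-/

set_option autoImplicit false

open MeasureTheory Filter Topology Metric Set
open scoped ENNReal NNReal ContDiff

noncomputable section

namespace MGS

theorem CPX_fd_re {u : X → ℂ} (hu : Differentiable ℝ u) (P v : X) :
    fderiv ℝ (fun Q => (u Q).re) P v = (fderiv ℝ u P v).re := by
  have h := (Complex.reCLM.hasFDerivAt (x := u P)).comp P (hu P).hasFDerivAt
  have h2 : fderiv ℝ (fun Q => (u Q).re) P = Complex.reCLM.comp (fderiv ℝ u P) := by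
    apply HasFDerivAt.fderiv
    exact h
  rw [h2]
  simp

theorem CPX_fd_im {u : X → ℂ} (hu : Differentiable ℝ u) (P v : X) :
    fderiv ℝ (fun Q => (u Q).im) P v = (fderiv ℝ u P v).im := by
  have h := (Complex.imCLM.hasFDerivAt (x := u P)).comp P (hu P).hasFDerivAt
  have h2 : fderiv ℝ (fun Q => (u Q).im) P = Complex.imCLM.comp (fderiv ℝ u P) := by
    apply HasFDerivAt.fderiv
    exact h
  rw [h2]
  simp

theorem CPX_pt (z w : ℂ) (a : ℝ) :
    ‖-Complex.I * z + (a : ℂ) * w‖ ^ 2 = (z.re - a * w.im) ^ 2 + (z.im + a * w.re) ^ 2 := by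
  rw [← Complex.normSq_eq_norm_sq, Complex.normSq_apply]
  simp
  ring

theorem CPX_form (B : ℝ) {u : X → ℂ} (hu : Differentiable ℝ u) :
    form B u = EG (Ap B) (fun _ => 0) (fun P => (u P).re) (fun P => (u P).im)
      (fun i => pd e3 i (fun P => (u P).re)) (fun i => pd e3 i (fun P => (u P).im)) := by
  unfold form EG
  congr 1
  funext P
  simp only [zero_mul, add_zero]
  refine Finset.sum_congr rfl fun i _ => ?_
  rw [CPX_pt]
  simp only [pd]
  rw [CPX_fd_re hu, CPX_fd_im hu]

theorem CPX_mass (u : X → ℂ) :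
    ∫ P, ‖u P‖ ^ 2 = ∫ P, ((u P).re ^ 2 + (u P).im ^ 2) := by
  congr 1
  funext P
  rw [← Complex.normSq_eq_norm_sq, Complex.normSq_apply]
  ring

theorem CPX_re {G : Set X} {u : X → ℂ} (h : CTest G u) : Test G (fun P => (u P).re) := by
  refine ⟨Complex.reCLM.contDiff.comp h.smooth, ?_, ?_⟩
  · exact h.cpt.comp_left (g := fun z : ℂ => z.re) (by simp)
  · refine (closure_mono ?_).trans h.sub
    intro P hP hz
    exact hP (by simp [hz])

theorem CPX_im {G : Set X} {u : X → ℂ} (h : CTest G u) : Test G (fun P => (u P).im) := by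
  refine ⟨Complex.imCLM.contDiff.comp h.smooth, ?_, ?_⟩
  · exact h.cpt.comp_left (g := fun z : ℂ => z.im) (by simp)
  · refine (closure_mono ?_).trans h.sub
    intro P hP hz
    exact hP (by simp [hz])

theorem CPX_mk {G : Set X} {φ ψ : X → ℝ} (h : Test G φ) (h' : Test G ψ) :
    CTest G (fun P => (φ P : ℂ) + (ψ P : ℂ) * Complex.I) := by
  have hs : Function.support (fun P => (φ P : ℂ) + (ψ P : ℂ) * Complex.I) ⊆
      tsupport φ ∪ tsupport ψ := by
    intro P hP
    by_contra hc
    simp only [Set.mem_union, not_or] at hc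
    apply hP
    have h1 := image_eq_zero_of_notMem_tsupport hc.1
    have h2 := image_eq_zero_of_notMem_tsupport hc.2
    simp [h1, h2]
  have hcl : tsupport (fun P => (φ P : ℂ) + (ψ P : ℂ) * Complex.I) ⊆
      tsupport φ ∪ tsupport ψ :=
    closure_minimal hs ((isClosed_tsupport φ).union (isClosed_tsupport ψ))
  refine ⟨?_, ?_, ?_⟩
  · exact (Complex.ofRealCLM.contDiff.comp h.smooth).add
      ((Complex.ofRealCLM.contDiff.comp h'.smooth).mul contDiff_const)
  · exact HasCompactSupport.of_support_subset_isCompact (h.cpt.isCompact.union h'.cpt.isCompact) hs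
  · exact hcl.trans (Set.union_subset h.sub h'.sub)

theorem p_CPX : T_CPX := by
  intro B G
  unfold lam lamG
  congr 1
  ext r
  constructor
  · rintro ⟨u, hu, h1, h2⟩
    have hd : Differentiable ℝ u := hu.smooth.differentiable (by simp)
    refine ⟨fun P => (u P).re, fun P => (u P).im, CPX_re hu, CPX_im hu, ?_, ?_⟩
    · rw [← CPX_mass, h1]
    · rw [← CPX_form B hd, h2]
  · rintro ⟨φ, ψ, hφ, hψ, h1, h2⟩
    have hu := CPX_mk hφ hψ
    have hd : Differentiable ℝ (fun P => (φ P : ℂ) + (ψ P : ℂ) * Complex.I) :=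
      hu.smooth.differentiable (by simp)
    have hre : (fun P => ((φ P : ℂ) + (ψ P : ℂ) * Complex.I).re) = φ := by
      funext P
      simp
    have him : (fun P => ((φ P : ℂ) + (ψ P : ℂ) * Complex.I).im) = ψ := by
      funext P
      simp
    refine ⟨fun P => (φ P : ℂ) + (ψ P : ℂ) * Complex.I, hu, ?_, ?_⟩
    · rw [CPX_mass, ← h1]
      congr 1
      funext P
      simp
    · rw [CPX_form B hd, hre, him, h2]

end MGS
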