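import Pool.Agent.MGS.TF

/-!
# MGS: target CST (helper75)

If `(c n)' = c n'` weakly and `n` is locally bounded below on an interval, then `c` is constant
on the interval.
-/

set_option autoImplicit false

open MeasureTheory Filter Topology Metric Set
open scoped ENNReal NNReal ContDiff

noncomputable section

namespace MGS

namespace CST_

/-- primitives as interval integrals -/
theorem prim (m : ℝ → ℝ) (hm : Integrable m) (a b : ℝ) :
    (∫ t in Iic b, m t) - ∫ t in Iic a, m t = ∫ t in a..b, m t :=
  intervalIntegral.integral_Iic_sub_Iic hm.integrableOn hm.integrableOn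

theorem prim_eq (m : ℝ → ℝ) (hm : Integrable m) :
    (fun z => ∫ t in Iic z, m t) = fun z => (∫ t in Iic (0 : ℝ), m t) + ∫ t in (0 : ℝ)..z, m t := by
  funext z
  rw [← prim m hm 0 z]
  ring

theorem prim_cont (m : ℝ → ℝ) (hm : Integrable m) : Continuous fun z => ∫ t in Iic z, m t := by
  rw [prim_eq m hm]
  exact continuous_const.add
    (intervalIntegral.continuous_primitive (fun a b => hm.intervalIntegrable) 0)

/-- integration by parts against a primitive -/
theorem ibp (m ψ : ℝ → ℝ) (hm : Integrable m) (hψ : ContDiff ℝ ∞ ψ) (hc : HasCompactSupport ψ) :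
    ∫ x, (∫ t in Iic x, m t) * deriv ψ x = -∫ x, m x * ψ x := by
  have hψ1 : ContDiff ℝ 1 ψ := hψ.of_le (by exact_mod_cast le_top)
  have hd : Integrable (deriv ψ) :=
    (hψ1.continuous_deriv le_rfl).integrable_of_hasCompactSupport hc.deriv
  let S : Set (ℝ × ℝ) := {p | p.2 ≤ p.1}
  have hS : MeasurableSet S := measurableSet_le measurable_snd measurable_fst
  let Φ : ℝ × ℝ → ℝ := S.indicator fun p => deriv ψ p.1 * m p.2
  have hI : Integrable Φ (volume.prod volume) := (hd.mul_prod hm).indicator hS
  have h1 : ∫ x, ∫ t, Φ (x, t) = ∫ t, ∫ x, Φ (x, t) := integral_integral_swap hI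
  have h2 : ∀ x, ∫ t, Φ (x, t) = (∫ t in Iic x, m t) * deriv ψ x := by
    intro x
    have e1 : (fun t => Φ (x, t)) = (Iic x).indicator fun t => deriv ψ x * m t := by
      funext t
      by_cases h : t ≤ x
      · have a1 : (x, t) ∈ S := h
        have a2 : t ∈ Iic x := h
        rw [Set.indicator_of_mem a2]
        exact Set.indicator_of_mem a1 _
      · have a1 : (x, t) ∉ S := h
        have a2 : t ∉ Iic x := h
        rw [Set.indicator_of_notMem a2]
        exact Set.indicator_of_notMem a1 _
    rw [e1, integral_indicator measurableSet_Iic, integral_const_mul, mul_comm]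
  have h3 : ∀ t, ∫ x, Φ (x, t) = -(m t * ψ t) := by
    intro t
    have e1 : (fun x => Φ (x, t)) = (Ici t).indicator fun x => deriv ψ x * m t := by
      funext x
      by_cases h : t ≤ x
      · have a1 : (x, t) ∈ S := h
        have a2 : x ∈ Ici t := h
        rw [Set.indicator_of_mem a2]
        exact Set.indicator_of_mem a1 _
      · have a1 : (x, t) ∉ S := h
        have a2 : x ∉ Ici t := h
        rw [Set.indicator_of_notMem a2]
        exact Set.indicator_of_notMem a1 _
    rw [e1, integral_indicator measurableSet_Ici, integral_mul_const,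
      integral_Ici_eq_integral_Ioi, hc.integral_Ioi_deriv_eq hψ1]
    ring
  simp only [h2, h3] at h1
  rw [h1, integral_neg]

/-- the lemma of du Bois-Reymond -/
theorem dbr (n m : ℝ → ℝ) (hn : Integrable n) (hm : Integrable m)
    (h : ∀ ψ : ℝ → ℝ, ContDiff ℝ ∞ ψ → HasCompactSupport ψ →
      ∫ z, n z * deriv ψ z = -∫ z, m z * ψ z) :
    ∃ K : ℝ, ∀ᵐ z, n z = K + ∫ t in Iic z, m t := by
  set N : ℝ → ℝ := fun z => ∫ t in Iic z, m t with hN
  have hNc : Continuous N := prim_cont m hm
  have hG : LocallyIntegrable (fun z => n z - N z) :=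
    hn.locallyIntegrable.sub hNc.locallyIntegrable
  have hGi : ∀ g : ℝ → ℝ, Continuous g → HasCompactSupport g →
      Integrable fun z => (n z - N z) * g z := by
    intro g hg hgc
    have h1 : Integrable fun z => n z * g z := by
      obtain ⟨C, hC⟩ := hgc.exists_bound_of_continuous hg
      exact hn.mul_bdd hg.aestronglyMeasurable (Eventually.of_forall hC)
    have h2 : Integrable fun z => N z * g z :=
      (hNc.mul hg).integrable_of_hasCompactSupport (hgc.mul_left)
    refine (h1.sub h2).congr (Eventually.of_forall fun z => ?_)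
    show n z * g z - N z * g z = (n z - N z) * g z
    ring
  -- test functions with integral zero
  have h0 : ∀ φ : ℝ → ℝ, ContDiff ℝ ∞ φ → HasCompactSupport φ → ∫ z, φ z = 0 →
      ∫ z, (n z - N z) * φ z = 0 := by
    intro φ hφ hφc hφ0
    have hφi : Integrable φ := hφ.continuous.integrable_of_hasCompactSupport hφc
    set ψ : ℝ → ℝ := fun z => ∫ t in Iic z, φ t with hψdef
    have hder : ∀ z, HasDerivAt ψ (φ z) z := by
      intro z
      rw [hψdef, prim_eq φ hφi]
      exact (intervalIntegral.integral_hasDerivAt_right hφi.intervalIntegrable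
        (hφ.continuous.stronglyMeasurableAtFilter _ _) hφ.continuous.continuousAt).const_add _
    have hdψ : deriv ψ = φ := funext fun z => (hder z).deriv
    have hψ : ContDiff ℝ ∞ ψ := by
      rw [contDiff_infty_iff_deriv, hdψ]
      exact ⟨fun z => (hder z).differentiableAt, hφ⟩
    have hψc : HasCompactSupport ψ := by
      obtain ⟨R, hR⟩ := hφc.isCompact.isBounded.subset_closedBall (0 : ℝ)
      have hz : ∀ t, t ∉ closedBall (0 : ℝ) R → φ t = 0 := fun t ht =>
        image_eq_zero_of_notMem_tsupport fun h' => ht (hR h')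
      refine HasCompactSupport.intro (isCompact_closedBall (0 : ℝ) R) fun z hz' => ?_
      rw [mem_closedBall, Real.dist_eq, sub_zero, not_le] at hz'
      rcases lt_or_ge z 0 with hz0 | hz0
      · rw [abs_of_neg hz0] at hz'
        show ∫ t in Iic z, φ t = 0
        refine setIntegral_eq_zero_of_forall_eq_zero fun t ht => hz t ?_
        rw [mem_closedBall, Real.dist_eq, sub_zero, not_le]
        have : t ≤ z := ht
        rw [abs_of_neg (by linarith)]
        linarith
      · rw [abs_of_nonneg hz0] at hz'
        have e1 : ∫ t in Ioi z, φ t = 0 := by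
          refine setIntegral_eq_zero_of_forall_eq_zero fun t ht => hz t ?_
          rw [mem_closedBall, Real.dist_eq, sub_zero, not_le]
          have : z < t := ht
          rw [abs_of_pos (by linarith)]
          linarith
        have e2 : (∫ t in Iic z, φ t) + ∫ t in Ioi z, φ t = ∫ t, φ t :=
          intervalIntegral.integral_Iic_add_Ioi hφi.integrableOn hφi.integrableOn
        show ∫ t in Iic z, φ t = 0
        linarith
    have e1 := h ψ hψ hψc
    have e2 := ibp m ψ hm hψ hψc
    rw [hdψ] at e1 e2
    have e3 : ∫ z, (n z - N z) * φ z = (∫ z, n z * φ z) - ∫ z, N z * φ z := by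
      have i1 : Integrable fun z => n z * φ z := by
        obtain ⟨C, hC⟩ := hφc.exists_bound_of_continuous hφ.continuous
        exact hn.mul_bdd hφ.continuous.aestronglyMeasurable (Eventually.of_forall hC)
      have i2 : Integrable fun z => N z * φ z :=
        (hNc.mul hφ.continuous).integrable_of_hasCompactSupport (hφc.mul_left)
      rw [← integral_sub i1 i2]
      exact integral_congr_ae (Eventually.of_forall fun z => by ring)
    rw [e3, e1]
    have e4 : ∫ z, N z * φ z = -∫ z, m z * ψ z := e2
    rw [e4, sub_self]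
  -- a fixed test function with integral one
  let f : ContDiffBump (0 : ℝ) := ⟨1, 2, one_pos, by norm_num⟩
  let χ : ℝ → ℝ := f.normed volume
  have hχ : ContDiff ℝ ∞ χ := f.contDiff_normed
  have hχc : HasCompactSupport χ := f.hasCompactSupport_normed
  have hχ1 : ∫ z, χ z = 1 := f.integral_normed
  refine ⟨∫ z, (n z - N z) * χ z, ?_⟩
  set K : ℝ := ∫ z, (n z - N z) * χ z with hK
  have key : ∀ᵐ z, (n z - N z) - K = 0 := by
    refine ae_eq_zero_of_integral_contDiff_smul_eq_zero
      (f := fun z => (n z - N z) - K) (hG.sub (locallyIntegrable_const K)) ?_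
    intro g hg hgc
    have hgi : Integrable g := hg.continuous.integrable_of_hasCompactSupport hgc
    have hφ : ContDiff ℝ ∞ fun z => g z - (∫ t, g t) * χ z := hg.sub (contDiff_const.mul hχ)
    have hφc : HasCompactSupport fun z => g z - (∫ t, g t) * χ z :=
      hgc.sub (hχc.mul_left)
    have hχi : Integrable χ := hχ.continuous.integrable_of_hasCompactSupport hχc
    have hφ0 : ∫ z, (g z - (∫ t, g t) * χ z) = 0 := by
      rw [integral_sub hgi (hχi.const_mul _), integral_const_mul, hχ1]
      ring
    have e1 := h0 _ hφ hφc hφ0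
    have i1 := hGi g hg.continuous hgc
    have i2 := hGi χ hχ.continuous hχc
    have e2 : ∫ z, (n z - N z) * (g z - (∫ t, g t) * χ z) =
        (∫ z, (n z - N z) * g z) - (∫ t, g t) * K := by
      rw [hK, ← integral_const_mul, ← integral_sub i1 (i2.const_mul _)]
      exact integral_congr_ae (Eventually.of_forall fun z => by ring)
    rw [e2] at e1
    have e3 : ∫ z, g z • ((n z - N z) - K) = (∫ z, (n z - N z) * g z) - (∫ t, g t) * K := by
      rw [← integral_mul_const, ← integral_sub i1 (hgi.mul_const _)]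
      exact integral_congr_ae (Eventually.of_forall fun z => by
        show g z * ((n z - N z) - K) = _
        ring)
    rw [e3, e1]
  filter_upwards [key] with z hz
  linarith

/-- a continuous function which is almost everywhere `≥ k` on an open set is `≥ k` there -/
theorem ge_of_ae {u : ℝ → ℝ} (hu : Continuous u) {O : Set ℝ} (hO : IsOpen O) {k : ℝ}
    (h : ∀ᵐ z : ℝ, z ∈ O → k ≤ u z) : ∀ z ∈ O, k ≤ u z := by
  by_contra hcon
  push Not at hcon
  obtain ⟨z, hz, hlt⟩ := hcon
  have h1 : IsOpen (O ∩ {z | u z < k}) := hO.inter (isOpen_lt hu continuous_const)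
  have h2 : volume (O ∩ {z | u z < k}) = 0 := by
    have h3 : ∀ᵐ z : ℝ, z ∉ O ∩ {z | u z < k} := by
      filter_upwards [h] with w hw hmem
      exact absurd (hw hmem.1) (not_le.2 hmem.2)
    exact measure_eq_zero_iff_ae_notMem.2 h3
  have h4 := (h1.measure_eq_zero_iff volume).1 h2
  have h5 : z ∈ O ∩ {z | u z < k} := ⟨hz, hlt⟩
  rw [h4] at h5
  exact h5

end CST_

open CST_ in
theorem p_CST : T_CST := by
  intro c n m C I hI hIc hcm hcC hn hm hnw hcw hlow
  -- integrability
  have hcn : Integrable fun z => c z * n z :=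
    hn.bdd_mul hcm.aestronglyMeasurable (Eventually.of_forall hcC)
  have hcmi : Integrable fun z => c z * m z :=
    hm.bdd_mul hcm.aestronglyMeasurable (Eventually.of_forall hcC)
  obtain ⟨K₁, hK₁⟩ := dbr n m hn hm hnw
  obtain ⟨K₂, hK₂⟩ := dbr (fun z => c z * n z) (fun z => c z * m z) hcn hcmi hcw
  set N : ℝ → ℝ := fun z => K₁ + ∫ t in Iic z, m t with hN
  set D : ℝ → ℝ := fun z => K₂ + ∫ t in Iic z, c t * m t with hD
  have hNc : Continuous N := continuous_const.add (prim_cont m hm)
  have hDc : Continuous D := continuous_const.add (prim_cont _ hcmi)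
  have hnN : ∀ᵐ z, n z = N z := hK₁
  have hcD : ∀ᵐ z, c z * n z = D z := hK₂
  have hNd : ∀ a b, N b - N a = ∫ t in a..b, m t := by
    intro a b
    rw [← prim m hm]
    show K₁ + _ - (K₁ + _) = _
    ring
  have hDd : ∀ a b, D b - D a = ∫ t in a..b, c t * m t := by
    intro a b
    rw [← prim _ hcmi]
    show K₂ + _ - (K₂ + _) = _
    ring
  -- lower bound
  have hNk : ∀ z₀ ∈ I, ∃ d k : ℝ, 0 < d ∧ 0 < k ∧ ∀ z, |z - z₀| < d → k ≤ N z := by
    intro z₀ hz₀
    obtain ⟨d, k, hd, hk, h⟩ := hlow z₀ hz₀
    refine ⟨d, k, hd, hk, ?_⟩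
    have h1 := ge_of_ae (k := k) hNc (O := ball z₀ d) isOpen_ball (by
      filter_upwards [h, hnN] with z hz hz' hz''
      rw [← hz']
      exact hz (by rwa [mem_ball, Real.dist_eq] at hz''))
    intro z hz
    exact h1 z (by rwa [mem_ball, Real.dist_eq])
  have hpos : ∀ z ∈ I, 0 < N z := by
    intro z hz
    obtain ⟨d, k, hd, hk, h⟩ := hNk z hz
    exact hk.trans_le (h z (by simpa using hd))
  -- the local statement
  have hloc : ∀ z₀ ∈ I, ∃ δ : ℝ, 0 < δ ∧ ∀ z, |z - z₀| < δ → D z = D z₀ / N z₀ * N z := by
    intro z₀ hz₀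
    obtain ⟨d, k, hd, hk, hlow'⟩ := hNk z₀ hz₀
    set c₀ : ℝ := D z₀ / N z₀ with hc₀
    have hma : Integrable fun z => |m z| := hm.abs
    set P : ℝ → ℝ := fun z => ∫ t in Iic z, |m t| with hP
    have hPc : Continuous P := prim_cont _ hma
    obtain ⟨δ₁, hδ₁, hPδ⟩ :=
      Metric.continuousAt_iff.1 (hPc.continuousAt (x := z₀)) (k / 2) (half_pos hk)
    set A : ℝ → ℝ := fun z => D z - c₀ * N z with hA
    have hAc : Continuous A := hDc.sub (continuous_const.mul hNc)
    have hA0 : A z₀ = 0 := by
      show D z₀ - c₀ * N z₀ = 0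
      rw [hc₀, div_mul_cancel₀ _ (hpos z₀ hz₀).ne', sub_self]
    refine ⟨min δ₁ d, lt_min hδ₁ hd, ?_⟩
    intro z hz
    -- the maximum of `|A|` on the closed interval
    set r : ℝ := |z - z₀| with hr
    have hne : (closedBall z₀ r).Nonempty := ⟨z₀, mem_closedBall_self (abs_nonneg _)⟩
    obtain ⟨y, hy, hmax⟩ := (isCompact_closedBall z₀ r).exists_isMaxOn hne
      (hAc.abs.continuousOn)
    have hyr : |y - z₀| ≤ r := by rwa [mem_closedBall, Real.dist_eq] at hy
    have hM : ∀ t, |t - z₀| ≤ r → |A t| ≤ |A y| := fun t ht =>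
      hmax (by rwa [mem_closedBall, Real.dist_eq])
    have e1 : A y = ∫ t in z₀..y, (c t - c₀) * m t := by
      have i1 : IntervalIntegrable (fun t => c t * m t) volume z₀ y := hcmi.intervalIntegrable
      have i2 : IntervalIntegrable (fun t => c₀ * m t) volume z₀ y :=
        (hm.const_mul c₀).intervalIntegrable
      have e2 : ∫ t in z₀..y, (c t - c₀) * m t =
          (∫ t in z₀..y, c t * m t) - ∫ t in z₀..y, c₀ * m t := by
        rw [← intervalIntegral.integral_sub i1 i2]
        exact intervalIntegral.integral_congr fun t _ => by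
          show (c t - c₀) * m t = c t * m t - c₀ * m t
          ring
      rw [e2, intervalIntegral.integral_const_mul, ← hDd, ← hNd]
      have e3 : D z₀ = c₀ * N z₀ := by
        have := hA0
        simp only [hA] at this
        linarith
      show D y - c₀ * N y = _
      rw [e3]
      ring
    have hbd : ∀ᵐ t ∂(volume.restrict (Set.uIoc z₀ y)), ‖(c t - c₀) * m t‖ ≤ |A y| / k * |m t| := by
      rw [ae_restrict_iff' measurableSet_uIoc]
      filter_upwards [hnN, hcD] with t h1 h2 ht
      have ht1 : |t - z₀| ≤ |y - z₀| := by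
        have := Set.abs_sub_left_of_mem_uIcc (Set.uIoc_subset_uIcc ht)
        exact this
      have ht2 : |t - z₀| ≤ r := ht1.trans hyr
      have ht3 : k ≤ N t := hlow' t (lt_of_le_of_lt ht2 (lt_of_lt_of_le hz (min_le_right _ _)))
      have hNt : 0 < N t := hk.trans_le ht3
      have e4 : c t - c₀ = A t / N t := by
        rw [eq_div_iff hNt.ne']
        show (c t - c₀) * N t = D t - c₀ * N t
        rw [← h2, ← h1]
        ring
      rw [norm_mul, Real.norm_eq_abs, Real.norm_eq_abs, e4, abs_div, abs_of_pos hNt]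
      have e5 : |A t| / N t ≤ |A y| / k :=
        div_le_div₀ (abs_nonneg _) (hM t ht2) hk ht3
      exact mul_le_mul_of_nonneg_right e5 (abs_nonneg _)
    have e6 : |A y| ≤ abs (∫ t in z₀..y, (|A y| / k * |m t|)) := by
      have e7 := intervalIntegral.norm_integral_le_abs_of_norm_le hbd
        ((hma.const_mul _).intervalIntegrable)
      rwa [← e1, Real.norm_eq_abs] at e7
    rw [intervalIntegral.integral_const_mul, ← prim _ hma, abs_mul,
      abs_of_nonneg (div_nonneg (abs_nonneg _) hk.le)] at e6
    have e8 : |P y - P z₀| < k / 2 := by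
      have h1 : dist y z₀ < δ₁ := by
        rw [Real.dist_eq]
        exact lt_of_le_of_lt hyr (lt_of_lt_of_le hz (min_le_left _ _))
      have h2 := hPδ h1
      rwa [Real.dist_eq] at h2
    have e9 : |A y| ≤ |A y| / 2 := by
      calc |A y| ≤ |A y| / k * |P y - P z₀| := e6
        _ ≤ |A y| / k * (k / 2) :=
          mul_le_mul_of_nonneg_left e8.le (div_nonneg (abs_nonneg _) hk.le)
        _ = |A y| / 2 := by
          field_simp
    have e10 : |A y| = 0 := le_antisymm (by linarith) (abs_nonneg _)
    have e11 : A z = 0 := by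
      have := hM z le_rfl
      rw [e10] at this
      exact abs_eq_zero.1 (le_antisymm this (abs_nonneg _))
    have e12 : D z - c₀ * N z = 0 := e11
    linarith
  -- the quotient is constant
  have hder : ∀ z₀ ∈ I, HasDerivAt (fun z => D z / N z) 0 z₀ := by
    intro z₀ hz₀
    obtain ⟨δ, hδ, h⟩ := hloc z₀ hz₀
    have h1 : (fun z => D z / N z) =ᶠ[𝓝 z₀] fun _ => D z₀ / N z₀ := by
      filter_upwards [ball_mem_nhds z₀ hδ, hI.mem_nhds hz₀] with z hz hzI
      rw [h z (by rwa [mem_ball, Real.dist_eq] at hz), mul_div_assoc, div_self (hpos z hzI).ne',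
        mul_one]
    exact (hasDerivAt_const z₀ (D z₀ / N z₀)).congr_of_eventuallyEq h1
  have hcst : ∃ a, ∀ x ∈ I, D x / N x = a :=
    hI.exists_is_const_of_deriv_eq_zero hIc.isPreconnected
      (fun z hz => (hder z hz).differentiableAt.differentiableWithinAt)
      (fun z hz => (hder z hz).deriv)
  obtain ⟨c₀, hc₀⟩ := hcst
  refine ⟨c₀, ?_⟩
  filter_upwards [hnN, hcD] with z h1 h2 hz
  have h3 := hpos z hz
  have h4 : D z / N z = c₀ := hc₀ z hz
  rw [← h4, ← h2, h1, mul_div_assoc, div_self h3.ne', mul_one]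

end MGS
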