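import Pool.Agent.MGS.TB

/-!
# MGS: target CTL (continuity of translations)
-/

set_option autoImplicit false

open MeasureTheory Filter Topology Metric Set
open scoped ENNReal NNReal ContDiff

noncomputable section

namespace MGS

namespace CTL_

theorem sh_eq (h : ℝ) : sh h = fun P : X => P + ((h : ℂ), (0 : ℝ)) := by
  funext P
  obtain ⟨x, z⟩ := P
  simp [sh]

theorem sh_mp (h : ℝ) : MeasurePreserving (sh h) (volume : Measure X) volume := by
  rw [sh_eq]
  exact measurePreserving_add_right (volume : Measure X) ((h : ℂ), (0 : ℝ))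

theorem sh_dist (h : ℝ) (P : X) : dist (sh h P) P = |h| := by
  rw [sh_eq, dist_eq_norm, add_sub_cancel_left, Prod.norm_def]
  simp

/-- continuous compactly supported functions -/
theorem cont {φ : X → ℝ} (hc : Continuous φ) (hs : HasCompactSupport φ) :
    Tendsto (fun h : ℝ => eLpNorm (fun P => φ (sh h P) - φ P) 2 volume) (𝓝 0) (𝓝 0) := by
  have hu : UniformContinuous φ := hs.uniformContinuous_of_continuous hc
  set K : Set X := cthickening 1 (tsupport φ) with hK
  have hKc : IsCompact K := hs.isCompact.cthickening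
  set C : ℝ≥0∞ := (volume K) ^ (2 : ℝ)⁻¹ with hC
  have hCt : C ≠ ⊤ := ENNReal.rpow_ne_top_of_nonneg (by norm_num) hKc.measure_lt_top.ne
  have key : ∀ δ : ℝ, 0 < δ → ∀ᶠ h : ℝ in 𝓝 0,
      eLpNorm (fun P => φ (sh h P) - φ P) 2 volume ≤ C * ENNReal.ofReal δ := by
    intro δ hδ
    obtain ⟨ε, hε, hd⟩ := Metric.uniformContinuous_iff.1 hu δ hδ
    have h1 : ∀ᶠ h : ℝ in 𝓝 0, |h| < min ε 1 := by
      have : ball (0 : ℝ) (min ε 1) ∈ 𝓝 (0 : ℝ) := ball_mem_nhds _ (by positivity)
      filter_upwards [this] with h hh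
      rwa [mem_ball, dist_zero_right, Real.norm_eq_abs] at hh
    filter_upwards [h1] with h hh
    have h2 : Function.support (fun P => φ (sh h P) - φ P) ⊆ K := by
      intro P hP
      by_contra hPK
      apply hP
      have a1 : P ∉ tsupport φ := fun hh' => hPK (self_subset_cthickening _ hh')
      have a2 : sh h P ∉ tsupport φ := fun hh' => hPK
        (mem_cthickening_of_dist_le P (sh h P) 1 _ hh' (by
          rw [dist_comm, sh_dist]
          exact (hh.trans_le (min_le_right _ _)).le))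
      show φ (sh h P) - φ P = 0
      rw [image_eq_zero_of_notMem_tsupport a1, image_eq_zero_of_notMem_tsupport a2, sub_zero]
    rw [← eLpNorm_restrict_eq_of_support_subset h2]
    refine (eLpNorm_le_of_ae_bound (C := δ) (Eventually.of_forall fun P => ?_)).trans ?_
    · rw [← dist_eq_norm]
      refine (hd ?_).le
      rw [sh_dist]
      exact hh.trans_le (min_le_left _ _)
    · rw [Measure.restrict_apply_univ]
      simp [hC]
  have h0 : Tendsto (fun δ : ℝ => C * ENNReal.ofReal δ) (𝓝[>] 0) (𝓝 0) := by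
    have h1 : Tendsto (fun δ : ℝ => ENNReal.ofReal δ) (𝓝[>] 0) (𝓝 0) := by
      have := (ENNReal.continuous_ofReal.tendsto (0 : ℝ)).mono_left
        (nhdsWithin_le_nhds (s := Ioi (0 : ℝ)))
      rwa [ENNReal.ofReal_zero] at this
    have h2 := ENNReal.Tendsto.const_mul h1 (Or.inr hCt)
    rwa [mul_zero] at h2
  rw [ENNReal.tendsto_nhds_zero]
  intro ε hε
  have h1 := (ENNReal.tendsto_nhds_zero.1 h0) ε hε
  obtain ⟨δ, hδ1, hδ2⟩ := (h1.and self_mem_nhdsWithin).exists
  filter_upwards [key δ hδ2] with h hh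
  exact hh.trans hδ1

end CTL_

open CTL_ in
theorem p_CTL : T_CTL := by
  intro g hg
  rw [ENNReal.tendsto_nhds_zero]
  intro ε hε
  have hε3 : ε / 3 ≠ 0 := ENNReal.div_ne_zero.2 ⟨hε.ne', by norm_num⟩
  obtain ⟨φ, hs, hφ1, hc, hφ2⟩ := hg.exists_hasCompactSupport_eLpNorm_sub_le (by norm_num) hε3
  filter_upwards [(ENNReal.tendsto_nhds_zero.1 (cont hc hs)) (ε / 3) (pos_iff_ne_zero.2 hε3)]
    with h hh
  have hm := sh_mp h
  have m1 : MemLp (fun P => g P - φ P) 2 volume := hg.sub hφ2
  have m2 : MemLp (fun P => g (sh h P) - φ (sh h P)) 2 volume := m1.comp_measurePreserving hm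
  have m3 : MemLp (fun P => φ (sh h P)) 2 volume := hφ2.comp_measurePreserving hm
  have m4 : MemLp (fun P => φ (sh h P) - φ P) 2 volume := m3.sub hφ2
  have m5 : MemLp (fun P => φ P - g P) 2 volume := hφ2.sub hg
  have n2 : eLpNorm (fun P => g (sh h P) - φ (sh h P)) 2 volume ≤ ε / 3 := by
    have := eLpNorm_comp_measurePreserving (p := 2) m1.1 hm
    exact this.le.trans hφ1
  have n5 : eLpNorm (fun P => φ P - g P) 2 volume ≤ ε / 3 := by
    have : eLpNorm (φ - g) 2 volume = eLpNorm (g - φ) 2 volume := eLpNorm_sub_comm _ _ _ _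
    exact this.le.trans hφ1
  have e : (fun P => g (sh h P) - g P) = (fun P => g (sh h P) - φ (sh h P)) +
      ((fun P => φ (sh h P) - φ P) + fun P => φ P - g P) := by
    funext P
    simp
  rw [e]
  calc _ ≤ eLpNorm (fun P => g (sh h P) - φ (sh h P)) 2 volume +
        eLpNorm ((fun P => φ (sh h P) - φ P) + fun P => φ P - g P) 2 volume :=
        eLpNorm_add_le m2.1 (m4.add m5).1 (by norm_num)
    _ ≤ ε / 3 + (ε / 3 + ε / 3) := by
        refine add_le_add n2 ((eLpNorm_add_le m4.1 m5.1 (by norm_num)).trans ?_)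
        exact add_le_add hh n5
    _ = ε := by rw [← add_assoc, ENNReal.add_thirds]

end MGS
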