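import Pool.Agent.MGS.TA

/-!
# MGS: target IBH (integration by parts)
-/

set_option autoImplicit false

open MeasureTheory Filter Topology Metric Set
open scoped ENNReal NNReal ContDiff

noncomputable section

namespace MGS

namespace IBH_

variable {E : Type} [MeasureSpace E]

lemma int_mul {u v : E → ℝ} (hu : MemLp u 2 volume) (hv : MemLp v 2 volume) :
    Integrable (fun P => u P * v P) volume := hu.integrable_mul hv

lemma pair_lim {u : ℕ → E → ℝ} {w v : E → ℝ} (hu : ∀ n, MemLp (u n) 2 volume)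
    (hw : MemLp w 2 volume) (hv : MemLp v 2 volume)
    (h : Tendsto (fun n => eLpNorm (fun P => u n P - w P) 2 volume) atTop (𝓝 0)) :
    Tendsto (fun n => ∫ P, u n P * v P) atTop (𝓝 (∫ P, w P * v P)) := by
  refine tendsto_integral_of_L1' (fun P => w P * v P) (int_mul hw hv).1
    (Eventually.of_forall fun n => int_mul (hu n) hv) ?_
  have hb : ∀ n, eLpNorm ((fun P => u n P * v P) - fun P => w P * v P) 1 volume ≤
      eLpNorm (fun P => u n P - w P) 2 volume * eLpNorm v 2 volume := by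
    intro n
    have e1 : ((fun P => u n P * v P) - fun P => w P * v P) =
        (fun P => u n P - w P) • v := by
      funext P
      simp only [Pi.sub_apply, Pi.smul_apply', smul_eq_mul]
      ring
    rw [e1]
    exact eLpNorm_smul_le_mul_eLpNorm hv.1 ((hu n).sub hw).1
  have ht : Tendsto (fun n => eLpNorm (fun P => u n P - w P) 2 volume * eLpNorm v 2 volume)
      atTop (𝓝 0) := by
    have := ENNReal.Tendsto.mul_const (b := eLpNorm v 2 volume) h (Or.inr hv.2.ne)
    simpa using this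
  exact tendsto_of_tendsto_of_tendsto_of_le_of_le tendsto_const_nhds ht (fun _ => zero_le) hb

lemma pair_lim' {u : ℕ → E → ℝ} {w v : E → ℝ} (hu : ∀ n, MemLp (u n) 2 volume)
    (hw : MemLp w 2 volume) (hv : MemLp v 2 volume)
    (h : Tendsto (fun n => eLpNorm (fun P => u n P - w P) 2 volume) atTop (𝓝 0)) :
    Tendsto (fun n => ∫ P, v P * u n P) atTop (𝓝 (∫ P, v P * w P)) := by
  have := pair_lim hu hw hv h
  simpa only [mul_comm] using this

end IBH_

open IBH_ in
/-- IBH -/
theorem p_IBH : T_IBH := by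
  intro E _ _ _ _ _ _ ι _ e G G' f g F Fg hf hg i
  -- test functions
  have h0 : ∀ (φ ψ : E → ℝ), Test G φ → Test G' ψ →
      ∫ P, φ P * pd e i ψ P = -∫ P, pd e i φ P * ψ P := by
    intro φ ψ hφ hψ
    exact integral_mul_fderiv_eq_neg_fderiv_mul_of_integrable
      (int_mul (hφ.memLp_pd (e := e) i) hψ.memLp) (int_mul hφ.memLp (hψ.memLp_pd (e := e) i))
      (int_mul hφ.memLp hψ.memLp) (fun x _ => hφ.diff x) (fun x _ => hψ.diff x)
  obtain ⟨φ, hφ, a1, a2, -, -⟩ := hf.seq
  obtain ⟨ψ, hψ, b1, b2, -, -⟩ := hg.seq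
  -- first limit
  have h1 : ∀ n, ∫ P, f P * pd e i (ψ n) P = -∫ P, F i P * ψ n P := by
    intro n
    have l1 : Tendsto (fun k => ∫ P, φ k P * pd e i (ψ n) P) atTop
        (𝓝 (∫ P, f P * pd e i (ψ n) P)) :=
      pair_lim (fun k => (hφ k).memLp) hf.memLp ((hψ n).memLp_pd i) a1
    have l2 : Tendsto (fun k => ∫ P, pd e i (φ k) P * ψ n P) atTop
        (𝓝 (∫ P, F i P * ψ n P)) :=
      pair_lim (fun k => (hφ k).memLp_pd i) (hf.memLp' i) (hψ n).memLp (a2 i)
    have l3 := l2.neg
    refine tendsto_nhds_unique l1 (l3.congr fun k => ?_)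
    exact (h0 (φ k) (ψ n) (hφ k) (hψ n)).symm
  have l1 : Tendsto (fun n => ∫ P, f P * pd e i (ψ n) P) atTop (𝓝 (∫ P, f P * Fg i P)) :=
    pair_lim' (fun n => (hψ n).memLp_pd i) (hg.memLp' i) hf.memLp (b2 i)
  have l2 : Tendsto (fun n => ∫ P, F i P * ψ n P) atTop (𝓝 (∫ P, F i P * g P)) :=
    pair_lim' (fun n => (hψ n).memLp) hg.memLp (hf.memLp' i) b1
  have l3 := l2.neg
  refine tendsto_nhds_unique l1 (l3.congr fun n => ?_)
  exact (h1 n).symm

end MGS
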