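import Pool.Agent.MGS.TF
import Pool.Agent.MGS.P_IBH

/-!
# MGS: CUR (the curl identity)
-/

set_option autoImplicit false

open MeasureTheory Filter Topology Metric Set
open scoped ENNReal NNReal ContDiff

noncomputable section

namespace MGS

namespace CUR_

theorem ibp {f g : X → ℝ} (hf : ContDiff ℝ ∞ f) (hc : HasCompactSupport f)
    (hg : ContDiff ℝ ∞ g) (v : X) :
    ∫ P, f P * fderiv ℝ g P v = -∫ P, fderiv ℝ f P v * g P := by
  have hf' : Continuous fun P => fderiv ℝ f P v :=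
    (hf.continuous_fderiv (by simp)).clm_apply continuous_const
  have hg' : Continuous fun P => fderiv ℝ g P v :=
    (hg.continuous_fderiv (by simp)).clm_apply continuous_const
  refine integral_mul_fderiv_eq_neg_fderiv_mul_of_integrable ?_ ?_ ?_
    (fun x _ => hf.differentiable (by simp) x) (fun x _ => hg.differentiable (by simp) x)
  · exact (hf'.mul hg.continuous).integrable_of_hasCompactSupport
      ((hc.fderiv_apply ℝ v).mul_right)
  · exact (hf.continuous.mul hg').integrable_of_hasCompactSupport hc.mul_right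
  · exact (hf.continuous.mul hg.continuous).integrable_of_hasCompactSupport hc.mul_right

theorem pd_smooth {φ : X → ℝ} (h : ContDiff ℝ ∞ φ) (i : Fin 3) : ContDiff ℝ ∞ (pd e3 i φ) :=
  (h.fderiv_right (by simp)).clm_apply contDiff_const

theorem pd_symm {w : X → ℝ} (hw : ContDiff ℝ ∞ w) (i j : Fin 3) (P : X) :
    pd e3 i (pd e3 j w) P = pd e3 j (pd e3 i w) P := by
  have hd : Differentiable ℝ (fderiv ℝ w) :=
    (hw.fderiv_right (m := ∞) (by simp)).differentiable (by simp)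
  have key : ∀ a b : X, fderiv ℝ (fun P => fderiv ℝ w P a) P b =
      fderiv ℝ (fderiv ℝ w) P b a := by
    intro a b
    rw [fderiv_clm_apply (hd P) (differentiableAt_const a)]
    simp
  have hs : IsSymmSndFDerivAt ℝ w P :=
    ((contDiff_infty.1 hw 2).contDiffAt (x := P)).isSymmSndFDerivAt (by simp)
  unfold pd
  rw [key, key]
  exact hs.eq _ _

theorem dPsi {ψ : ℝ → ℝ} (hψ : ContDiff ℝ ∞ ψ) (P v : X) :
    fderiv ℝ (fun P : X => ψ P.2) P v = deriv ψ P.2 * v.2 := by
  have h1 : HasDerivAt ψ (deriv ψ P.2) P.2 :=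
    (hψ.differentiable (by simp) P.2).hasDerivAt
  have h2 : HasFDerivAt (fun P : X => P.2) (ContinuousLinearMap.snd ℝ ℂ ℝ) P := hasFDerivAt_snd
  have h3 := (h1.comp_hasFDerivAt P h2).fderiv
  have h4 : fderiv ℝ (fun P : X => ψ P.2) P = deriv ψ P.2 • ContinuousLinearMap.snd ℝ ℂ ℝ := h3
  rw [h4]
  simp

theorem half {u w : X → ℝ} (hu : ContDiff ℝ ∞ u) (huc : HasCompactSupport u)
    (hw : ContDiff ℝ ∞ w) (hwc : HasCompactSupport w) {ψ : ℝ → ℝ}
    (hψ : ContDiff ℝ ∞ ψ) (k : Fin 3) (hk : (e3 k).2 = 0) :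
    ∫ P : X, u P * pd e3 k w P * deriv ψ P.2 =
      -(∫ P : X, pd e3 2 u P * pd e3 k w P * ψ P.2) +
        ∫ P : X, pd e3 k u P * pd e3 2 w P * ψ P.2 := by
  have hΨ : ContDiff ℝ ∞ (fun P : X => ψ P.2) := hψ.comp contDiff_snd
  have hkw := pd_smooth hw k
  have h2w := pd_smooth hw 2
  have hkwc : HasCompactSupport (pd e3 k w) := hwc.fderiv_apply ℝ (e3 k)
  have h2wc : HasCompactSupport (pd e3 2 w) := hwc.fderiv_apply ℝ (e3 2)
  -- first integration by parts
  have h1 := ibp (hu.mul hkw) huc.mul_right hΨ (e3 2)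
  have e1 : ∀ P : X, fderiv ℝ (fun P : X => ψ P.2) P (e3 2) = deriv ψ P.2 := by
    intro P
    rw [dPsi hψ]
    simp [e3]
  have e2 : ∀ P : X, fderiv ℝ (fun P => u P * pd e3 k w P) P (e3 2) =
      pd e3 2 u P * pd e3 k w P + u P * pd e3 2 (pd e3 k w) P := by
    intro P
    rw [fderiv_fun_mul (hu.differentiable (by simp) P) (hkw.differentiable (by simp) P)]
    simp only [pd, _root_.add_apply, _root_.smul_apply, smul_eq_mul]
    ring
  -- second integration by parts
  have h3 := ibp (hu.mul hΨ) huc.mul_right h2w (e3 k)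
  have e3' : ∀ P : X, fderiv ℝ (fun P : X => u P * ψ P.2) P (e3 k) = pd e3 k u P * ψ P.2 := by
    intro P
    rw [fderiv_fun_mul (hu.differentiable (by simp) P) (hΨ.differentiable (by simp) P)]
    simp only [pd, _root_.add_apply, _root_.smul_apply, smul_eq_mul,
      dPsi hψ, hk]
    ring
  simp only [e1, e2, e3'] at h1 h3
  have hcu := hu.continuous
  have hck := hkw.continuous
  have hc2u := (pd_smooth hu 2).continuous
  have hcku := (pd_smooth hu k).continuous
  have hcΨ := hΨ.continuous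
  have hc2k := (pd_smooth hkw 2).continuous
  have i1 : Integrable (fun P : X => pd e3 2 u P * pd e3 k w P * ψ P.2) :=
    ((hc2u.mul hck).mul hcΨ).integrable_of_hasCompactSupport
      ((huc.fderiv_apply ℝ (e3 2)).mul_right.mul_right)
  have i2 : Integrable (fun P : X => u P * pd e3 2 (pd e3 k w) P * ψ P.2) :=
    ((hcu.mul hc2k).mul hcΨ).integrable_of_hasCompactSupport (huc.mul_right.mul_right)
  have h5 : ∫ P : X, (pd e3 2 u P * pd e3 k w P + u P * pd e3 2 (pd e3 k w) P) * ψ P.2 =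
      (∫ P : X, pd e3 2 u P * pd e3 k w P * ψ P.2) +
        ∫ P : X, u P * pd e3 2 (pd e3 k w) P * ψ P.2 := by
    rw [← integral_add i1 i2]
    refine integral_congr_ae (Eventually.of_forall fun P => ?_)
    simp only
    ring
  have h6 : ∫ P : X, u P * pd e3 2 (pd e3 k w) P * ψ P.2 =
      ∫ P : X, u P * ψ P.2 * fderiv ℝ (pd e3 2 w) P (e3 k) := by
    refine integral_congr_ae (Eventually.of_forall fun P => ?_)
    simp only
    rw [pd_symm hw 2 k]
    simp only [pd]
    ring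
  have h7 : ∫ P : X, pd e3 k u P * ψ P.2 * pd e3 2 w P =
      ∫ P : X, pd e3 k u P * pd e3 2 w P * ψ P.2 := by
    refine integral_congr_ae (Eventually.of_forall fun P => ?_)
    simp only
    ring
  rw [h1, h5, h6, h3, h7]
  ring

/-- the difference of the two sides -/
def J (k : Fin 3) (ψ : ℝ → ℝ) (a b : X → ℝ) (Fa Fb : Fin 3 → X → ℝ) : ℝ :=
  (∫ P : X, a P * (Fb k P * deriv ψ P.2)) - (∫ P : X, Fa k P * (b P * deriv ψ P.2)) +
    2 * ((∫ P : X, Fa 2 P * (Fb k P * ψ P.2)) - ∫ P : X, Fa k P * (Fb 2 P * ψ P.2))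

theorem mlp {g m : X → ℝ} (hg : MemLp g 2 volume) (hm : Continuous m) {C : ℝ}
    (hC : ∀ P, |m P| ≤ C) : MemLp (fun P => g P * m P) 2 volume := by
  refine hg.of_le_mul (c := C) (hg.1.mul hm.aestronglyMeasurable)
    (Eventually.of_forall fun P => ?_)
  rw [norm_mul, mul_comm]
  exact mul_le_mul_of_nonneg_right (hC P) (norm_nonneg _)

theorem J_test {G G' : Set X} {u w : X → ℝ} (hu : Test G u) (hw : Test G' w) {ψ : ℝ → ℝ}
    (hψ : ContDiff ℝ ∞ ψ) (k : Fin 3) (hk : (e3 k).2 = 0) :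
    J k ψ u w (fun i => pd e3 i u) (fun i => pd e3 i w) = 0 := by
  have h1 := half hu.smooth hu.cpt hw.smooth hw.cpt hψ k hk
  have h2 := half hw.smooth hw.cpt hu.smooth hu.cpt hψ k hk
  have a1 : ∫ P : X, u P * (pd e3 k w P * deriv ψ P.2) =
      ∫ P : X, u P * pd e3 k w P * deriv ψ P.2 := by
    refine integral_congr_ae (Eventually.of_forall fun P => ?_)
    simp only
    ring
  have a2 : ∫ P : X, pd e3 k u P * (w P * deriv ψ P.2) =
      ∫ P : X, w P * pd e3 k u P * deriv ψ P.2 := by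
    refine integral_congr_ae (Eventually.of_forall fun P => ?_)
    simp only
    ring
  have a3 : ∫ P : X, pd e3 2 u P * (pd e3 k w P * ψ P.2) =
      ∫ P : X, pd e3 2 u P * pd e3 k w P * ψ P.2 := by
    refine integral_congr_ae (Eventually.of_forall fun P => ?_)
    simp only
    ring
  have a4 : ∫ P : X, pd e3 k u P * (pd e3 2 w P * ψ P.2) =
      ∫ P : X, pd e3 k u P * pd e3 2 w P * ψ P.2 := by
    refine integral_congr_ae (Eventually.of_forall fun P => ?_)
    simp only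
    ring
  have a5 : ∫ P : X, pd e3 2 w P * pd e3 k u P * ψ P.2 =
      ∫ P : X, pd e3 k u P * pd e3 2 w P * ψ P.2 := by
    refine integral_congr_ae (Eventually.of_forall fun P => ?_)
    simp only
    ring
  have a6 : ∫ P : X, pd e3 k w P * pd e3 2 u P * ψ P.2 =
      ∫ P : X, pd e3 2 u P * pd e3 k w P * ψ P.2 := by
    refine integral_congr_ae (Eventually.of_forall fun P => ?_)
    simp only
    ring
  unfold J
  beta_reduce
  rw [a1, a2, a3, a4, h1, h2, a5, a6]
  ring

theorem J_swap (k : Fin 3) (ψ : ℝ → ℝ) (a b : X → ℝ) (Fa Fb : Fin 3 → X → ℝ) :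
    J k ψ a b Fa Fb = -J k ψ b a Fb Fa := by
  have a1 : ∫ P : X, a P * (Fb k P * deriv ψ P.2) = ∫ P : X, Fb k P * (a P * deriv ψ P.2) := by
    refine integral_congr_ae (Eventually.of_forall fun P => ?_)
    simp only
    ring
  have a2 : ∫ P : X, Fa k P * (b P * deriv ψ P.2) = ∫ P : X, b P * (Fa k P * deriv ψ P.2) := by
    refine integral_congr_ae (Eventually.of_forall fun P => ?_)
    simp only
    ring
  have a3 : ∫ P : X, Fa 2 P * (Fb k P * ψ P.2) = ∫ P : X, Fb k P * (Fa 2 P * ψ P.2) := by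
    refine integral_congr_ae (Eventually.of_forall fun P => ?_)
    simp only
    ring
  have a4 : ∫ P : X, Fa k P * (Fb 2 P * ψ P.2) = ∫ P : X, Fb 2 P * (Fa k P * ψ P.2) := by
    refine integral_congr_ae (Eventually.of_forall fun P => ?_)
    simp only
    ring
  unfold J
  rw [a1, a2, a3, a4]
  ring

theorem J_lim {ψ : ℝ → ℝ} (hψ : ContDiff ℝ ∞ ψ) (hψc : HasCompactSupport ψ) (k : Fin 3)
    {u : ℕ → X → ℝ} {Fu : ℕ → Fin 3 → X → ℝ} {a b : X → ℝ} {Fa Fb : Fin 3 → X → ℝ}
    (hu : ∀ n, MemLp (u n) 2 volume) (hFu : ∀ n i, MemLp (Fu n i) 2 volume)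
    (ha : MemLp a 2 volume) (hFa : ∀ i, MemLp (Fa i) 2 volume)
    (hb : MemLp b 2 volume) (hFb : ∀ i, MemLp (Fb i) 2 volume)
    (h1 : Tendsto (fun n => eLpNorm (fun P => u n P - a P) 2 volume) atTop (𝓝 0))
    (h2 : ∀ i, Tendsto (fun n => eLpNorm (fun P => Fu n i P - Fa i P) 2 volume) atTop (𝓝 0)) :
    Tendsto (fun n => J k ψ (u n) b (Fu n) Fb) atTop (𝓝 (J k ψ a b Fa Fb)) := by
  obtain ⟨C, hC⟩ := hψ.continuous.bounded_above_of_compact_support hψc
  obtain ⟨C', hC'⟩ := (hψ.continuous_deriv (by simp)).bounded_above_of_compact_support hψc.deriv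
  have c1 : Continuous fun P : X => ψ P.2 := hψ.continuous.comp continuous_snd
  have c2 : Continuous fun P : X => deriv ψ P.2 :=
    (hψ.continuous_deriv (by simp)).comp continuous_snd
  have d1 : ∀ P : X, |ψ P.2| ≤ C := fun P => hC P.2
  have d2 : ∀ P : X, |deriv ψ P.2| ≤ C' := fun P => hC' P.2
  unfold J
  exact ((IBH_.pair_lim hu ha (mlp (hFb k) c2 d2) h1).sub
    (IBH_.pair_lim (fun n => hFu n k) (hFa k) (mlp hb c2 d2) (h2 k))).add
    (((IBH_.pair_lim (fun n => hFu n 2) (hFa 2) (mlp (hFb k) c1 d1) (h2 2)).sub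
    (IBH_.pair_lim (fun n => hFu n k) (hFa k) (mlp (hFb 2) c1 d1) (h2 k))).const_mul 2)

end CUR_

open CUR_ in
theorem p_CUR : T_CUR := by
  intro G a b Fa Fb ψ k ha hb hψ hψc
  have hk : (e3 k.castSucc).2 = 0 := by
    fin_cases k <;> simp [e3]
  obtain ⟨φ, hφ, a1, a2, -, -⟩ := ha.seq
  obtain ⟨w, hw, b1, b2, -, -⟩ := hb.seq
  -- the first limit
  have s1 : ∀ n, J k.castSucc ψ a (w n) Fa (fun i => pd e3 i (w n)) = 0 := by
    intro n
    refine tendsto_nhds_unique (J_lim hψ hψc k.castSucc (fun m => (hφ m).memLp)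
      (fun m i => (hφ m).memLp_pd i) ha.1 ha.2.1 (hw n).memLp (fun i => (hw n).memLp_pd i) a1 a2)
      (tendsto_const_nhds.congr fun m => ?_)
    exact (J_test (hφ m) (hw n) hψ k.castSucc hk).symm
  have s2 : J k.castSucc ψ b a Fb Fa = 0 := by
    refine tendsto_nhds_unique (J_lim hψ hψc k.castSucc (fun m => (hw m).memLp)
      (fun m i => (hw m).memLp_pd i) hb.1 hb.2.1 ha.1 ha.2.1 b1 b2)
      (tendsto_const_nhds.congr fun m => ?_)
    rw [J_swap, s1 m, neg_zero]
  have s3 : J k.castSucc ψ a b Fa Fb = 0 := by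
    rw [J_swap, s2, neg_zero]
  obtain ⟨C, hC⟩ := hψ.continuous.bounded_above_of_compact_support hψc
  obtain ⟨C', hC'⟩ := (hψ.continuous_deriv (by simp)).bounded_above_of_compact_support hψc.deriv
  have c1 : Continuous fun P : X => ψ P.2 := hψ.continuous.comp continuous_snd
  have c2 : Continuous fun P : X => deriv ψ P.2 :=
    (hψ.continuous_deriv (by simp)).comp continuous_snd
  have d1 : ∀ P : X, |ψ P.2| ≤ C := fun P => hC P.2
  have d2 : ∀ P : X, |deriv ψ P.2| ≤ C' := fun P => hC' P.2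
  have e1 : ∫ P : X, (a P * Fb k.castSucc P - b P * Fa k.castSucc P) * deriv ψ P.2 =
      (∫ P : X, a P * (Fb k.castSucc P * deriv ψ P.2)) -
        ∫ P : X, Fa k.castSucc P * (b P * deriv ψ P.2) := by
    rw [← integral_sub (IBH_.int_mul ha.1 (mlp (hb.2.1 _) c2 d2))
      (IBH_.int_mul (ha.2.1 _) (mlp hb.1 c2 d2))]
    refine integral_congr_ae (Eventually.of_forall fun P => ?_)
    simp only
    ring
  have e2 : ∫ P : X, ψ P.2 * (Fa 2 P * Fb k.castSucc P - Fb 2 P * Fa k.castSucc P) =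
      (∫ P : X, Fa 2 P * (Fb k.castSucc P * ψ P.2)) -
        ∫ P : X, Fa k.castSucc P * (Fb 2 P * ψ P.2) := by
    rw [← integral_sub (IBH_.int_mul (ha.2.1 _) (mlp (hb.2.1 _) c1 d1))
      (IBH_.int_mul (ha.2.1 _) (mlp (hb.2.1 _) c1 d1))]
    refine integral_congr_ae (Eventually.of_forall fun P => ?_)
    simp only
    ring
  unfold J at s3
  rw [e1, e2]
  linarith

end MGS
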