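import Pool.Agent.MGS.TE

/-! # MGS-DFL: the limit of the deficit -/

set_option autoImplicit false

open MeasureTheory Filter Topology Metric Set
open scoped ENNReal NNReal ContDiff

noncomputable section

namespace MGS

namespace DFL_

theorem vs_zero {R : ℝ} {Ω : Set X} {f : X → ℝ} (hbd : ∀ P ∈ Ω, ‖P‖ < R)
    (hz : ∀ P, P ∉ Ω → f P = 0) (P : X) (hP : P ∉ Ost Ω) : vs f P = 0 := by
  have hP' : (volume {y : ℂ | (y, P.2) ∈ Ω}).toReal ≤ Real.pi * ‖P.1‖ ^ 2 := not_lt.1 hP
  have hfin : volume {y : ℂ | (y, P.2) ∈ Ω} ≠ ⊤ := by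
    refine ne_top_of_le_ne_top (measure_ball_lt_top (x := (0 : ℂ)) (r := R)).ne
      (measure_mono ?_)
    intro y hy
    have h1 := hbd _ hy
    rw [mem_ball_zero_iff]
    exact (norm_fst_le (y, P.2)).trans_lt h1
  unfold vs rr
  have he : {s : ℝ | 0 ≤ s ∧ Real.pi * ‖P.1‖ ^ 2 < ar (sl f P.2) s} = ∅ := by
    rw [eq_empty_iff_forall_notMem]
    rintro s ⟨hs, h1⟩
    have h2 : ar (sl f P.2) s ≤ (volume {y : ℂ | (y, P.2) ∈ Ω}).toReal := by
      unfold ar
      refine ENNReal.toReal_mono hfin (measure_mono ?_)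
      intro x hx
      have hx' : s < f (x, P.2) := hx
      by_contra h3
      have h4 : f (x, P.2) = 0 := hz _ h3
      rw [h4] at hx'
      exact absurd hs (not_le.2 hx')
    exact absurd (h2.trans hP') (not_le.2 h1)
  rw [he, Real.sSup_empty]

theorem pp_nonneg {ε : ℝ} {v₁ : X → ℝ} {P : X} (hε : 0 < ε) (h : 0 ≤ v₁ P) :
    0 ≤ pp ε v₁ P := by
  unfold pp
  positivity

theorem pp_le {ε : ℝ} {v₁ : X → ℝ} {P : X} (hε : 0 < ε) (h : 0 ≤ v₁ P) :
    pp ε v₁ P ≤ 1 := by
  unfold pp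
  rw [div_le_one (by positivity)]
  linarith

theorem pp_tendsto {v₁ : X → ℝ} {P : X} (h : 0 < v₁ P) :
    Tendsto (fun ε : ℝ => pp ε v₁ P) (𝓝[>] 0) (𝓝 1) := by
  have h1 : Tendsto (fun ε : ℝ => v₁ P / (v₁ P + ε)) (𝓝 0) (𝓝 (v₁ P / (v₁ P + 0))) := by
    refine Tendsto.div tendsto_const_nhds (tendsto_const_nhds.add tendsto_id) ?_
    rw [add_zero]
    exact h.ne'
  rw [add_zero, div_self h.ne'] at h1
  exact h1.mono_left nhdsWithin_le_nhds

end DFL_

open DFL_ in
/-- DFL -/
theorem p_DFL (hEQX : T_EQX) (hVSM : T_VSM) : T_DFL := by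
  intro B R Ω a b v₁ Fa Fb F V T _ hP hR
  have hf : Nx R (md a b) := by
    refine ⟨?_, fun P => Real.sqrt_nonneg _, fun P hP' => ?_⟩
    · exact ((hP.ma.pow_const 2).add (hP.mb.pow_const 2)).sqrt
    · have h1 : P ∉ Ω := fun h => absurd (hP.bdd P h) (not_lt.2 hP')
      unfold md
      rw [(hP.zero P h1).1, (hP.zero P h1).2.1]
      simp
  have hf0 : ∀ P, P ∉ Ω → md a b P = 0 := by
    intro P h1
    unfold md
    rw [(hP.zero P h1).1, (hP.zero P h1).2.1]
    simp
  have hv : Nx R (vs (md a b)) := (hVSM R _ hf).1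
  have hsup : ∀ P, P ∉ Ost Ω → vs (md a b) P = 0 := fun P h1 => vs_zero hP.bdd hf0 P h1
  have hf2 : ∀ P, md a b P ^ 2 = a P ^ 2 + b P ^ 2 := fun P => Real.sq_sqrt (by positivity)
  have hfi : Integrable (fun P => md a b P ^ 2) := by
    have h1 : Integrable (fun P => a P ^ 2 + b P ^ 2) :=
      hP.ha.1.integrable_sq.add hP.hb.1.integrable_sq
    refine h1.congr (Eventually.of_forall fun P => ?_)
    exact (hf2 P).symm
  have hl : ∫⁻ P : X, ENNReal.ofReal (vs (md a b) P ^ 2) =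
      ∫⁻ P : X, ENNReal.ofReal (md a b P ^ 2) := by
    refine (hEQX R _ hf).1 (fun q => ENNReal.ofReal (q.2 ^ 2)) ?_ ?_
    · exact (measurable_snd.pow_const 2).ennreal_ofReal
    · intro z
      simp
  have hvi : Integrable (fun P => vs (md a b) P ^ 2) := by
    refine ⟨(hv.m.pow_const 2).aestronglyMeasurable, ?_⟩
    rw [hasFiniteIntegral_iff_ofReal (Eventually.of_forall fun P => sq_nonneg _), hl]
    exact (hasFiniteIntegral_iff_ofReal (Eventually.of_forall fun P => sq_nonneg _)).1 hfi.2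
  have he : ∫ P, vs (md a b) P ^ 2 = ∫ P, (a P ^ 2 + b P ^ 2) := by
    rw [integral_eq_lintegral_of_nonneg_ae (Eventually.of_forall fun P => sq_nonneg _)
      hvi.1, hl, ← integral_eq_lintegral_of_nonneg_ae
      (Eventually.of_forall fun P => sq_nonneg _) hfi.1]
    exact integral_congr_ae (Eventually.of_forall fun P => hf2 P)
  have hv1 : ∀ P, 0 ≤ v₁ P := hR.gs.nn
  have hpos : ∀ᵐ P : X, P ∈ Ost Ω → 0 < v₁ P := by
    filter_upwards [hR.pos] with P h1 h2
    rw [hR.veq P]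
    exact (h1 h2).1
  have hme : ∀ ε : ℝ, Measurable (pp ε v₁) := fun ε => hR.gs.mv.div (hR.gs.mv.add_const ε)
  have hev : ∀ᶠ ε : ℝ in 𝓝[>] 0, 0 < ε := eventually_mem_nhdsWithin
  -- first limit
  have L1 : Tendsto (fun ε => ∫ P, pp ε v₁ P * vs (md a b) P ^ 2) (𝓝[>] 0)
      (𝓝 (∫ P, vs (md a b) P ^ 2)) := by
    refine tendsto_integral_filter_of_dominated_convergence (fun P => vs (md a b) P ^ 2) ?_ ?_
      hvi ?_
    · exact Eventually.of_forall fun ε =>
        ((hme ε).mul (hv.m.pow_const 2)).aestronglyMeasurable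
    · filter_upwards [hev] with ε hε
      refine Eventually.of_forall fun P => ?_
      have h1 := pp_nonneg hε (hv1 P)
      have h2 := pp_le hε (hv1 P)
      rw [Real.norm_of_nonneg (mul_nonneg h1 (sq_nonneg _))]
      exact mul_le_of_le_one_left (sq_nonneg _) h2
    · filter_upwards [hpos] with P h1
      by_cases h2 : P ∈ Ost Ω
      · have h3 := (pp_tendsto (h1 h2)).mul_const (vs (md a b) P ^ 2)
        rw [one_mul] at h3
        exact h3
      · rw [hsup P h2]
        simp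
  have L2 : Tendsto (fun ε => ∫ P, VV B P * (pp ε v₁ P * (1 - pp ε v₁ P)) *
      vs (md a b) P ^ 2) (𝓝[>] 0) (𝓝 (∫ _ : X, (0 : ℝ))) := by
    have hVm : Measurable (VV B) := by
      unfold VV
      exact (measurable_fst.norm.pow_const 2).const_mul _
    refine tendsto_integral_filter_of_dominated_convergence
      (fun P => (B / 2) ^ 2 * R ^ 2 * vs (md a b) P ^ 2) ?_ ?_ (hvi.const_mul _) ?_
    · exact Eventually.of_forall fun ε => ((hVm.mul ((hme ε).mul
        (measurable_const.sub (hme ε)))).mul (hv.m.pow_const 2)).aestronglyMeasurable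
    · filter_upwards [hev] with ε hε
      refine Eventually.of_forall fun P => ?_
      have h1 := pp_nonneg hε (hv1 P)
      have h2 := pp_le hε (hv1 P)
      have hV0 : 0 ≤ VV B P := by
        unfold VV
        positivity
      have h3 : 0 ≤ pp ε v₁ P * (1 - pp ε v₁ P) := mul_nonneg h1 (by linarith)
      have h4 : pp ε v₁ P * (1 - pp ε v₁ P) ≤ 1 := by nlinarith
      rw [Real.norm_of_nonneg (mul_nonneg (mul_nonneg hV0 h3) (sq_nonneg _))]
      by_cases h5 : ‖P‖ < R
      · have h6 : VV B P ≤ (B / 2) ^ 2 * R ^ 2 := by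
          unfold VV
          have h7 : ‖P.1‖ ≤ R := (norm_fst_le P).trans h5.le
          gcongr
        refine mul_le_mul_of_nonneg_right ?_ (sq_nonneg _)
        calc VV B P * (pp ε v₁ P * (1 - pp ε v₁ P)) ≤ VV B P * 1 := by gcongr
          _ ≤ (B / 2) ^ 2 * R ^ 2 := by rw [mul_one]; exact h6
      · rw [hv.z P (not_lt.1 h5)]
        simp
    · filter_upwards [hpos] with P h1
      by_cases h2 : P ∈ Ost Ω
      · have h3 := pp_tendsto (h1 h2)
        have h4 : Tendsto (fun ε : ℝ => VV B P * (pp ε v₁ P * (1 - pp ε v₁ P)) *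
            vs (md a b) P ^ 2) (𝓝[>] 0)
            (𝓝 (VV B P * (1 * (1 - 1)) * vs (md a b) P ^ 2)) :=
          ((h3.mul (tendsto_const_nhds.sub h3)).const_mul _).mul_const _
        simpa using h4
      · rw [hsup P h2]
        simp
  rw [integral_zero] at L2
  rw [he] at L1
  have L3 := ((L1.const_mul (lamR B (Ost Ω))).const_sub (EM B a b Fa Fb)).add L2
  rw [add_zero] at L3
  exact L3

end MGS
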