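import Pool.Agent.MGS.TB

/-!
# MGS: dichotomy (DIC)
-/

set_option autoImplicit false

open MeasureTheory Filter Topology Metric Set
open scoped ENNReal NNReal ContDiff

noncomputable section

namespace MGS

namespace DIC_

theorem log_low {t ε c : ℝ} (ht : 0 < t) (M : ℝ) (hM : 0 ≤ M) (hε : ε = t * Real.exp (-M))
    (hc : t ≤ c) : M ^ 2 ≤ (Real.log (0 + ε) - Real.log (c + ε)) ^ 2 := by
  have he : 0 < ε := by rw [hε]; positivity
  have h1 : Real.log ε = Real.log t - M := by
    rw [hε, Real.log_mul ht.ne' (Real.exp_pos _).ne', Real.log_exp]; ring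
  have h2 : Real.log t ≤ Real.log (c + ε) := Real.log_le_log ht (by linarith)
  rw [zero_add, h1]
  have h3 : 0 ≤ Real.log (c + ε) - (Real.log t - M) - M := by linarith
  nlinarith

theorem main (g : X → ℝ) (Q : Set X) (C : ℝ≥0∞) (hg : Measurable g)
    (hQ : MeasurableSet Q) (hC : C ≠ ⊤) (h : ∀ ε : ℝ, 0 < ε → dlog g Q ε ≤ C) (t : ℝ) (ht : 0 < t) :
    volume ({P | g P = 0} ∩ Q) = 0 ∨ volume ({P | t ≤ g P} ∩ Q) = 0 := by
  set A : Set X := {P | g P = 0} ∩ Q with hA
  set D : Set X := {P | t ≤ g P} ∩ Q with hD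
  have mA : MeasurableSet A := (hg (measurableSet_singleton 0)).inter hQ
  have mD : MeasurableSet D := (measurableSet_le measurable_const hg).inter hQ
  by_contra hcon
  push Not at hcon
  obtain ⟨hA0, hD0⟩ := hcon
  have key : ∀ M : ℝ, 0 ≤ M → ENNReal.ofReal (M ^ 2) * volume D * volume A ≤ C := by
    intro M hM
    have he : 0 < t * Real.exp (-M) := by positivity
    refine le_trans ?_ (h _ he)
    unfold dlog
    calc ENNReal.ofReal (M ^ 2) * volume D * volume A
        = ∫⁻ _P in A, ∫⁻ _P' in D, ENNReal.ofReal (M ^ 2) := by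
          rw [setLIntegral_const, setLIntegral_const]
      _ ≤ ∫⁻ P in A, ∫⁻ P' in D, ENNReal.ofReal ((Real.log (g P + t * Real.exp (-M)) -
            Real.log (g P' + t * Real.exp (-M))) ^ 2) := by
          refine setLIntegral_mono' mA fun P hP => ?_
          refine setLIntegral_mono' mD fun P' hP' => ?_
          refine ENNReal.ofReal_le_ofReal ?_
          have h1 : g P = 0 := hP.1
          have h2 : t ≤ g P' := hP'.1
          rw [h1]
          exact log_low ht M hM rfl h2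
      _ ≤ ∫⁻ P in A, ∫⁻ P' in Q, ENNReal.ofReal ((Real.log (g P + t * Real.exp (-M)) -
            Real.log (g P' + t * Real.exp (-M))) ^ 2) := by
          refine lintegral_mono fun P => ?_
          exact lintegral_mono_set Set.inter_subset_right
      _ ≤ _ := lintegral_mono_set Set.inter_subset_right
  have hne : volume D * volume A ≠ 0 := mul_ne_zero hD0 hA0
  obtain ⟨n, hn⟩ := ENNReal.exists_nat_mul_gt hne hC
  have h1 := key ((n : ℝ) + 1) (by positivity)
  have h2 : (n : ℝ≥0∞) ≤ ENNReal.ofReal (((n : ℝ) + 1) ^ 2) := by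
    rw [← ENNReal.ofReal_natCast]
    refine ENNReal.ofReal_le_ofReal ?_
    have : (0 : ℝ) ≤ n := Nat.cast_nonneg n
    nlinarith
  have h3 : (n : ℝ≥0∞) * (volume D * volume A) ≤ C := by
    refine le_trans ?_ h1
    rw [mul_assoc]
    exact mul_le_mul_left h2 _
  exact absurd h3 (not_le.2 hn)

end DIC_

theorem p_DIC : T_DIC := by
  intro g₀ Q C hg₀ hQ _ hnn hC h
  set g : X → ℝ := hg₀.mk g₀ with hgdef
  have hg : Measurable g := hg₀.measurable_mk
  have hae : g₀ =ᵐ[volume] g := hg₀.ae_eq_mk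
  have haeQ : ∀ᵐ P ∂(volume.restrict Q), g₀ P = g P := ae_restrict_of_ae hae
  have hd : ∀ ε : ℝ, dlog g Q ε = dlog g₀ Q ε := by
    intro ε
    unfold dlog
    refine lintegral_congr_ae ?_
    filter_upwards [haeQ] with P hP
    refine lintegral_congr_ae ?_
    filter_upwards [haeQ] with P' hP'
    rw [hP, hP']
  have h' : ∀ ε : ℝ, 0 < ε → dlog g Q ε ≤ C := fun ε he => by rw [hd]; exact h ε he
  by_cases hA : volume ({P | g P = 0} ∩ Q) = 0
  · right
    have h1 : ∀ᵐ P ∂(volume : Measure X), P ∉ {P | g P = 0} ∩ Q := measure_eq_zero_iff_ae_notMem.1 hA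
    filter_upwards [h1, hnn, hae] with P h2 h3 h4 hPQ
    refine lt_of_le_of_ne (h3 hPQ) fun h5 => h2 ⟨?_, hPQ⟩
    show g P = 0
    rw [← h4, ← h5]
  · left
    have h1 : ∀ n : ℕ, ∀ᵐ P ∂(volume : Measure X), P ∉ {P | 1 / ((n : ℝ) + 1) ≤ g P} ∩ Q := by
      intro n
      refine measure_eq_zero_iff_ae_notMem.1 ?_
      exact (DIC_.main g Q C hg hQ hC h' _ Nat.one_div_pos_of_nat).resolve_left hA
    filter_upwards [ae_all_iff.2 h1, hnn, hae] with P h2 h3 h4 hPQ
    refine le_antisymm ?_ (h3 hPQ)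
    by_contra hcon
    push Not at hcon
    obtain ⟨n, hn⟩ := exists_nat_one_div_lt hcon
    exact h2 n ⟨by show 1 / ((n : ℝ) + 1) ≤ g P; rw [← h4]; exact hn.le, hPQ⟩

end MGS
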