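import Pool.Agent.MGS.TB

/-!
# MGS: DQI (helper93)

Monotonicity of a Sobolev function in the first direction from the sign of its derivative.
-/

set_option autoImplicit false

open MeasureTheory Filter Topology Metric Set
open scoped ENNReal NNReal ContDiff

noncomputable section

namespace MGS

namespace DQI_

theorem sh_eq (s : ℝ) : sh s = fun P : X => P + (((s : ℂ), (0 : ℝ)) : X) := by
  funext P
  ext <;> simp [sh]

theorem mp (s : ℝ) : MeasurePreserving (sh s) (volume : Measure X) volume := by
  rw [sh_eq]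
  exact measurePreserving_add_right volume _

theorem der (P : X) (s : ℝ) : HasDerivAt (fun t : ℝ => sh t P) (e3 0) s := by
  have h1 : HasDerivAt (fun t : ℝ => P.1 + (t : ℂ)) 1 s :=
    (Complex.ofRealCLM.hasDerivAt (x := s)).const_add P.1
  exact h1.prodMk (hasDerivAt_const s P.2)

theorem cont_sh : Continuous (fun q : X × ℝ => sh q.2 q.1) := by
  unfold sh
  fun_prop

theorem ftc {G : Set X} {φ : X → ℝ} (h : Test G φ) (P : X) (t : ℝ) :
    φ (sh t P) - φ P = ∫ s in (0 : ℝ)..t, pd e3 0 φ (sh s P) := by
  have h0 : sh 0 P = P := by simp [sh]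
  have hc : Continuous fun s : ℝ => pd e3 0 φ (sh s P) :=
    (h.pd_cont 0).comp (cont_sh.comp (continuous_const.prodMk continuous_id))
  have := intervalIntegral.integral_eq_sub_of_hasDerivAt (a := (0 : ℝ)) (b := t)
    (f := fun s => φ (sh s P)) (f' := fun s => pd e3 0 φ (sh s P))
    (fun s _ => (h.diff (sh s P)).hasFDerivAt.comp_hasDerivAt s (der P s))
    (hc.intervalIntegrable _ _)
  rw [this, h0]

/-- the basic estimate on a set `A` of finite measure in the half space -/
theorem est {G : Set X} {φ : X → ℝ} (h : Test G φ) (Γ : X → ℝ) (hΓ : MemLp Γ 2 volume) (a t : ℝ)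
    (ht : 0 ≤ t) (hs : ∀ᵐ P : X, a < P.1.re → Γ P ≤ 0) (A : Set X) (hA : MeasurableSet A)
    (hAa : ∀ P ∈ A, a < P.1.re) :
    ∫⁻ P in A, ENNReal.ofReal (φ (sh t P) - φ P) ≤
      eLpNorm (fun P => pd e3 0 φ P - Γ P) 2 volume * volume A ^ (1 / 2 : ℝ) *
        ENNReal.ofReal t := by
  have hc : Continuous fun q : X × ℝ => pd e3 0 φ (sh q.2 q.1) := (h.pd_cont 0).comp cont_sh
  have h1 : ∀ P : X, ENNReal.ofReal (φ (sh t P) - φ P) ≤
      ∫⁻ s in Ioc (0 : ℝ) t, ENNReal.ofReal (pd e3 0 φ (sh s P)) := by
    intro P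
    rw [ftc h, intervalIntegral.integral_of_le ht]
    have hcP : Continuous fun s : ℝ => pd e3 0 φ (sh s P) :=
      hc.comp (continuous_const.prodMk continuous_id)
    have hi : Integrable (fun s : ℝ => pd e3 0 φ (sh s P)) (volume.restrict (Ioc (0 : ℝ) t)) :=
      (hcP.intervalIntegrable 0 t).1
    rw [integral_eq_lintegral_pos_part_sub_lintegral_neg_part hi]
    refine (ENNReal.ofReal_le_ofReal (sub_le_self _ ENNReal.toReal_nonneg)).trans ?_
    exact ENNReal.ofReal_toReal_le
  calc ∫⁻ P in A, ENNReal.ofReal (φ (sh t P) - φ P)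
      ≤ ∫⁻ P in A, ∫⁻ s in Ioc (0 : ℝ) t, ENNReal.ofReal (pd e3 0 φ (sh s P)) :=
        lintegral_mono h1
    _ = ∫⁻ s in Ioc (0 : ℝ) t, ∫⁻ P in A, ENNReal.ofReal (pd e3 0 φ (sh s P)) := by
        apply lintegral_lintegral_swap
        exact (ENNReal.continuous_ofReal.comp hc).measurable.aemeasurable
    _ ≤ ∫⁻ s in Ioc (0 : ℝ) t, eLpNorm (fun P => pd e3 0 φ P - Γ P) 2 volume *
          volume A ^ (1 / 2 : ℝ) := by
        refine setLIntegral_mono' measurableSet_Ioc fun s hs0 => ?_
        have hmp := mp s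
        have hm : AEStronglyMeasurable (fun P => pd e3 0 φ P - Γ P) volume :=
          ((h.memLp_pd 0).sub hΓ).1
        have h2 : ∫⁻ P in A, ENNReal.ofReal (pd e3 0 φ (sh s P)) ≤
            ∫⁻ P in A, ‖pd e3 0 φ (sh s P) - Γ (sh s P)‖ₑ := by
          refine lintegral_mono_ae ?_
          have h3 : ∀ᵐ P : X, a < (sh s P).1.re → Γ (sh s P) ≤ 0 :=
            hmp.quasiMeasurePreserving.ae hs
          rw [ae_restrict_iff' hA]
          filter_upwards [h3] with P hP hPA
          have h4 : a < (sh s P).1.re := by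
            have := hAa P hPA
            simp only [sh, Complex.add_re, Complex.ofReal_re]
            linarith [hs0.1]
          have h5 := hP h4
          rw [← ofReal_norm]
          refine ENNReal.ofReal_le_ofReal ?_
          rw [Real.norm_eq_abs]
          refine le_trans ?_ (le_abs_self _)
          linarith
        refine h2.trans ?_
        have h6 := eLpNorm_le_eLpNorm_mul_rpow_measure_univ (p := 1) (q := 2)
          (μ := volume.restrict A) (f := fun P => pd e3 0 φ (sh s P) - Γ (sh s P)) (by norm_num)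
          ((hm.comp_quasiMeasurePreserving hmp.quasiMeasurePreserving).mono_measure
            Measure.restrict_le_self)
        rw [eLpNorm_one_eq_lintegral_enorm] at h6
        refine h6.trans ?_
        have h7 : eLpNorm (fun P => pd e3 0 φ (sh s P) - Γ (sh s P)) 2 (volume.restrict A) ≤
            eLpNorm (fun P => pd e3 0 φ P - Γ P) 2 volume := by
          refine (eLpNorm_mono_measure _ Measure.restrict_le_self).trans ?_
          exact (eLpNorm_comp_measurePreserving hm hmp).le
        have h8 : (volume.restrict A) univ ^ (1 / (1 : ℝ≥0∞).toReal - 1 / (2 : ℝ≥0∞).toReal) =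
            volume A ^ (1 / 2 : ℝ) := by
          rw [Measure.restrict_apply_univ]
          norm_num
        rw [h8]
        gcongr
    _ = _ := by
        rw [lintegral_const, Measure.restrict_apply_univ, Real.volume_Ioc, sub_zero]

end DQI_

/-- DQI -/
theorem p_DQI : T_DQI := by
  intro g Γ a t hg ht hs
  obtain ⟨φ, hφ, -, h2, h3, -⟩ := hg.seq
  -- it is enough to treat the bounded parts of the half space
  suffices H : ∀ N : ℕ, ∀ᵐ P : X, P ∈ ball (0 : X) N ∩ {P : X | a < P.1.re} →
      g (sh t P) ≤ g P by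
    filter_upwards [ae_all_iff.2 H] with P hP hPa
    obtain ⟨N, hN⟩ := exists_nat_gt ‖P‖
    exact hP N ⟨by simpa using hN, hPa⟩
  intro N
  have hopen : IsOpen {P : X | a < P.1.re} :=
    isOpen_lt continuous_const (Complex.continuous_re.comp continuous_fst)
  have hA : MeasurableSet (ball (0 : X) N ∩ {P : X | a < P.1.re}) :=
    (isOpen_ball.inter hopen).measurableSet
  have hfin : volume (ball (0 : X) N ∩ {P : X | a < P.1.re}) ≠ ⊤ :=
    ((measure_mono inter_subset_left).trans_lt measure_ball_lt_top).ne
  set A : Set X := ball (0 : X) N ∩ {P : X | a < P.1.re} with hAdef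
  have hmp := DQI_.mp t
  -- the positive part of the increment tends to zero
  have h4 : Tendsto (fun n => ∫⁻ P in A, ENNReal.ofReal (φ n (sh t P) - φ n P)) atTop (𝓝 0) := by
    have h5 : Tendsto (fun n => eLpNorm (fun P => pd e3 0 (φ n) P - Γ 0 P) 2 volume *
        volume A ^ (1 / 2 : ℝ) * ENNReal.ofReal t) atTop (𝓝 0) := by
      have h6 := ENNReal.Tendsto.mul_const (b := volume A ^ (1 / 2 : ℝ) * ENNReal.ofReal t) (h2 0)
        (Or.inr (ENNReal.mul_ne_top (ENNReal.rpow_ne_top_of_nonneg (by norm_num) hfin)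
          ENNReal.ofReal_ne_top))
      rw [zero_mul] at h6
      refine h6.congr fun n => ?_
      rw [mul_assoc]
    refine tendsto_of_tendsto_of_tendsto_of_le_of_le tendsto_const_nhds h5 (fun _ => zero_le)
      fun n => ?_
    exact DQI_.est (hφ n) (Γ 0) (hg.memLp' 0) a t ht hs A hA fun P hP => hP.2
  -- Fatou
  have h7 : ∫⁻ P in A, ENNReal.ofReal (g (sh t P) - g P) = 0 := by
    refine le_antisymm ?_ zero_le
    have h8 : ∀ᵐ P : X ∂(volume.restrict A),
        liminf (fun n => ENNReal.ofReal (φ n (sh t P) - φ n P)) atTop =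
          ENNReal.ofReal (g (sh t P) - g P) := by
      refine ae_restrict_of_ae ?_
      filter_upwards [h3, hmp.quasiMeasurePreserving.ae h3] with P hP hP'
      exact ((ENNReal.continuous_ofReal.tendsto _).comp (hP'.sub hP)).liminf_eq
    calc ∫⁻ P in A, ENNReal.ofReal (g (sh t P) - g P)
        = ∫⁻ P in A, liminf (fun n => ENNReal.ofReal (φ n (sh t P) - φ n P)) atTop :=
          lintegral_congr_ae (h8.mono fun P hP => hP.symm)
      _ ≤ liminf (fun n => ∫⁻ P in A, ENNReal.ofReal (φ n (sh t P) - φ n P)) atTop := by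
          refine lintegral_liminf_le fun n => ?_
          have hc : Continuous fun P : X => φ n (sh t P) - φ n P :=
            ((hφ n).smooth.continuous.comp (DQI_.cont_sh.comp
              (continuous_id.prodMk continuous_const))).sub (hφ n).smooth.continuous
          exact (ENNReal.continuous_ofReal.comp hc).measurable
      _ = 0 := h4.liminf_eq
  have hgm : AEMeasurable (fun P => g (sh t P) - g P) volume :=
    ((hg.memLp.1.comp_quasiMeasurePreserving hmp.quasiMeasurePreserving).sub
      hg.memLp.1).aemeasurable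
  rw [lintegral_eq_zero_iff' (hgm.ennreal_ofReal.mono_measure Measure.restrict_le_self)] at h7
  rw [← ae_restrict_iff' hA]
  filter_upwards [h7] with P hP
  have h9 : ENNReal.ofReal (g (sh t P) - g P) = 0 := hP
  have h10 := ENNReal.ofReal_eq_zero.1 h9
  linarith

end MGS
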