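import Pool.Agent.MGS.TB

/-! # MGS-DQL: difference quotients converge to the derivative in L2 -/

set_option autoImplicit false

open MeasureTheory Filter Topology Metric Set
open scoped ENNReal NNReal ContDiff

noncomputable section

namespace MGS

namespace DQL_

theorem sh_eq (h : ℝ) (P : X) : sh h P = P + ((h : ℂ), (0 : ℝ)) := by
  unfold sh
  ext <;> simp

theorem sh_mp (h : ℝ) : MeasurePreserving (sh h) (volume : Measure X) volume := by
  have h1 : sh h = fun P : X => P + ((h : ℂ), (0 : ℝ)) := by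
    funext P
    exact sh_eq h P
  rw [h1]
  exact measurePreserving_add_right volume _

theorem sh_sh (a b : ℝ) (P : X) : sh a (sh b P) = sh (a + b) P := by
  unfold sh
  ext <;> simp [add_comm, add_left_comm]

theorem sh_zero (P : X) : sh 0 P = P := by
  unfold sh
  ext <;> simp

theorem dist_sh (c : ℝ) (P : X) : dist (sh c P) P = |c| := by
  rw [sh_eq, dist_eq_norm, add_sub_cancel_left, Prod.norm_def]
  simp

theorem comp_norm {u : X → ℝ} (hu : MemLp u 2 volume) (h : ℝ) :
    eLpNorm (fun P => u (sh h P)) 2 volume = eLpNorm u 2 volume :=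
  eLpNorm_comp_measurePreserving hu.1 (sh_mp h)

theorem comp_mem {u : X → ℝ} (hu : MemLp u 2 volume) (h : ℝ) :
    MemLp (fun P => u (sh h P)) 2 volume :=
  hu.comp_measurePreserving (sh_mp h)

theorem deriv_sh {φ : X → ℝ} (hφ : Test univ φ) (P : X) (s : ℝ) :
    HasDerivAt (fun s : ℝ => φ (sh s P)) (pd e3 0 φ (sh s P)) s := by
  have h1 : HasDerivAt (fun s : ℝ => sh s P) (((1 : ℂ), (0 : ℝ)) : X) s := by
    have h2 : HasDerivAt (fun s : ℝ => P.1 + (s : ℂ)) (1 : ℂ) s :=
      (Complex.ofRealCLM.hasDerivAt (x := s)).const_add P.1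
    exact h2.prodMk (hasDerivAt_const s P.2)
  have h3 : HasFDerivAt φ (fderiv ℝ φ (sh s P)) (sh s P) := (hφ.diff _).hasFDerivAt
  exact h3.comp_hasDerivAt s h1

theorem quot_test {φ : X → ℝ} (hφ : Test univ φ) :
    Tendsto (fun h : ℝ => eLpNorm (fun P => (φ (sh h P) - φ P) / h - pd e3 0 φ P) 2 volume)
      (𝓝[>] 0) (𝓝 0) := by
  rw [ENNReal.tendsto_nhds_zero]
  intro ε hε
  set K : Set X := cthickening 1 (tsupport φ) with hK
  have hKc : IsCompact K := hφ.cpt.isCompact.cthickening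
  set C : ℝ≥0∞ := volume K ^ (1 / (2 : ℝ≥0∞).toReal) with hC
  have hCt : C ≠ ⊤ := ENNReal.rpow_ne_top_of_nonneg (by positivity) hKc.measure_lt_top.ne
  have hpos : 0 < ε / (C + 1) :=
    ENNReal.div_pos hε.ne' (ENNReal.add_ne_top.2 ⟨hCt, ENNReal.one_ne_top⟩)
  obtain ⟨δ, hδ0, hδ⟩ := ENNReal.lt_iff_exists_nnreal_btwn.1 hpos
  have hδ0' : (0 : ℝ) < δ := by exact_mod_cast hδ0
  have huc : UniformContinuous (pd e3 0 φ) :=
    (hφ.pd_cpt 0).uniformContinuous_of_continuous (hφ.pd_cont 0)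
  obtain ⟨η, hη, hη'⟩ := Metric.uniformContinuous_iff.1 huc δ hδ0'
  have hev : ∀ᶠ h : ℝ in 𝓝[>] 0, h ∈ Ioo (0 : ℝ) (min η 1) :=
    Ioo_mem_nhdsGT (lt_min hη one_pos)
  filter_upwards [hev] with h hh
  have hh1 : h < η := hh.2.trans_le (min_le_left _ _)
  have hh2 : h < 1 := hh.2.trans_le (min_le_right _ _)
  have hb : ∀ P : X, ‖(φ (sh h P) - φ P) / h - pd e3 0 φ P‖ ≤
      K.indicator (fun _ => (δ : ℝ)) P := by
    intro P
    by_cases hP : P ∈ K
    · rw [indicator_of_mem hP]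
      obtain ⟨c, hc, hc'⟩ := exists_hasDerivAt_eq_slope (fun s : ℝ => φ (sh s P))
        (fun s => pd e3 0 φ (sh s P)) hh.1
        (fun s _ => (deriv_sh hφ P s).continuousAt.continuousWithinAt)
        (fun s _ => deriv_sh hφ P s)
      have h1 : (φ (sh h P) - φ P) / h = pd e3 0 φ (sh c P) := by
        rw [hc', sh_zero, sub_zero]
      rw [h1]
      have h2 : dist (sh c P) P < η := by
        rw [dist_sh, abs_of_pos hc.1]
        exact hc.2.trans hh1
      have h3 := hη' h2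
      rw [Real.dist_eq] at h3
      exact h3.le
    · rw [indicator_of_notMem hP]
      have h1 : P ∉ tsupport φ := fun h => hP (self_subset_cthickening _ h)
      have h2 : sh h P ∉ tsupport φ := by
        intro h3
        apply hP
        refine mem_cthickening_of_dist_le P (sh h P) 1 _ h3 ?_
        rw [dist_comm, dist_sh, abs_of_pos hh.1]
        exact hh2.le
      have h3 : pd e3 0 φ P = 0 := by
        unfold pd
        rw [show fderiv ℝ φ P = 0 from ?_]
        · rfl
        · exact image_eq_zero_of_notMem_tsupport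
            (fun h => h1 (tsupport_fderiv_subset ℝ h))
      rw [image_eq_zero_of_notMem_tsupport h1, image_eq_zero_of_notMem_tsupport h2, h3]
      simp
  calc eLpNorm (fun P => (φ (sh h P) - φ P) / h - pd e3 0 φ P) 2 volume
      ≤ eLpNorm (K.indicator (fun _ => (δ : ℝ))) 2 volume := eLpNorm_mono_real hb
    _ = ‖(δ : ℝ)‖ₑ * C := by
        rw [eLpNorm_indicator_const hKc.measurableSet (by norm_num) (by norm_num)]
    _ ≤ (ε / (C + 1)) * (C + 1) := by
        have h4 : ‖(δ : ℝ)‖ₑ = (δ : ℝ≥0∞) := by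
          rw [Real.enorm_eq_ofReal hδ0'.le, ENNReal.ofReal_coe_nnreal]
        rw [h4]
        gcongr
        exact le_self_add
    _ = ε := ENNReal.div_mul_cancel (by simp)
        (ENNReal.add_ne_top.2 ⟨hCt, ENNReal.one_ne_top⟩)

/-- the difference of a translate -/
theorem step_bound {u : X → ℝ} (hu : MemLp u 2 volume) (k : ℝ) (n : ℕ) :
    eLpNorm (fun P => u (sh (n * k) P) - u P) 2 volume ≤
      n * eLpNorm (fun P => u (sh k P) - u P) 2 volume := by
  induction n with
  | zero =>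
    have h1 : (fun P : X => u (sh ((0 : ℕ) * k) P) - u P) = 0 := by
      funext P
      simp [sh_zero]
    rw [h1]
    simp
  | succ n ih =>
    have h1 : (fun P : X => u (sh ((n + 1 : ℕ) * k) P) - u P) =
        (fun P => u (sh k (sh (n * k) P)) - u (sh (n * k) P)) +
          fun P => u (sh (n * k) P) - u P := by
      funext P
      have h2 : sh k (sh (n * k) P) = sh ((n + 1 : ℕ) * k) P := by
        rw [sh_sh]
        congr 1
        push_cast
        ring
      simp only [Pi.add_apply]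
      rw [h2]
      ring
    have h3 : MemLp (fun P => u (sh k P) - u P) 2 volume := (comp_mem hu k).sub hu
    have h4 : MemLp (fun P => u (sh (n * k) P) - u P) 2 volume := (comp_mem hu _).sub hu
    rw [h1]
    refine (eLpNorm_add_le (comp_mem h3 (n * k)).1 h4.1 (by norm_num)).trans ?_
    have h5 : eLpNorm (fun P => u (sh k (sh (n * k) P)) - u (sh (n * k) P)) 2 volume =
        eLpNorm (fun P => u (sh k P) - u P) 2 volume := comp_norm h3 (n * k)
    rw [h5]
    push_cast
    rw [add_mul, one_mul, add_comm]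
    gcongr

theorem quot_eq (u : X → ℝ) (h : ℝ) :
    eLpNorm (fun P => (u (sh h P) - u P) / h) 2 volume =
      ‖h⁻¹‖ₑ * eLpNorm (fun P => u (sh h P) - u P) 2 volume := by
  have h1 : (fun P => (u (sh h P) - u P) / h) = h⁻¹ • fun P => u (sh h P) - u P := by
    funext P
    simp only [Pi.smul_apply, smul_eq_mul]
    rw [div_eq_inv_mul]
  rw [h1, eLpNorm_const_smul]

theorem bound_test {φ : X → ℝ} (hφ : Test univ φ) (h : ℝ) (hh : 0 < h) :
    eLpNorm (fun P => (φ (sh h P) - φ P) / h) 2 volume ≤ eLpNorm (pd e3 0 φ) 2 volume := by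
  have hk : Tendsto (fun n : ℕ => h / ((n : ℝ) + 1)) atTop (𝓝[>] 0) := by
    rw [tendsto_nhdsWithin_iff]
    refine ⟨?_, Eventually.of_forall fun n => ?_⟩
    · have h1 := (tendsto_one_div_add_atTop_nhds_zero_nat (𝕜 := ℝ)).const_mul h
      rw [mul_zero] at h1
      refine h1.congr fun n => ?_
      rw [mul_one_div]
    · exact div_pos hh (by positivity)
  have h2 := ((quot_test hφ).comp hk).add_const (eLpNorm (pd e3 0 φ) 2 volume)
  rw [zero_add] at h2
  refine ge_of_tendsto h2 (Eventually.of_forall fun n => ?_)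
  set k : ℝ := h / ((n : ℝ) + 1) with hkdef
  have hk0 : 0 < k := div_pos hh (by positivity)
  have hnk : ((n + 1 : ℕ) : ℝ) * k = h := by
    rw [hkdef]
    push_cast
    field_simp
  have h3 := step_bound hφ.memLp k (n + 1)
  rw [hnk] at h3
  have h4 : ‖h⁻¹‖ₑ * ((n + 1 : ℕ) : ℝ≥0∞) = ‖k⁻¹‖ₑ := by
    have h5 : k⁻¹ = h⁻¹ * ((n + 1 : ℕ) : ℝ) := by
      rw [← hnk, mul_inv]
      have : ((n + 1 : ℕ) : ℝ) ≠ 0 := by positivity
      field_simp
    rw [h5, enorm_mul]
    congr 1
    rw [Real.enorm_eq_ofReal (by positivity), ENNReal.ofReal_natCast]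
  calc eLpNorm (fun P => (φ (sh h P) - φ P) / h) 2 volume
      = ‖h⁻¹‖ₑ * eLpNorm (fun P => φ (sh h P) - φ P) 2 volume := quot_eq φ h
    _ ≤ ‖h⁻¹‖ₑ * (((n + 1 : ℕ) : ℝ≥0∞) * eLpNorm (fun P => φ (sh k P) - φ P) 2 volume) := by
        gcongr
    _ = ‖k⁻¹‖ₑ * eLpNorm (fun P => φ (sh k P) - φ P) 2 volume := by
        rw [← mul_assoc, h4]
    _ = eLpNorm (fun P => (φ (sh k P) - φ P) / k) 2 volume := (quot_eq φ k).symm
    _ = eLpNorm ((fun P => (φ (sh k P) - φ P) / k - pd e3 0 φ P) + pd e3 0 φ) 2 volume := by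
        congr 1
        funext P
        simp
    _ ≤ eLpNorm (fun P => (φ (sh k P) - φ P) / k - pd e3 0 φ P) 2 volume +
          eLpNorm (pd e3 0 φ) 2 volume := by
        have h6 : MemLp (fun P => (φ (sh k P) - φ P) / k) 2 volume := by
          have h7 := ((comp_mem hφ.memLp k).sub hφ.memLp).const_mul k⁻¹
          refine h7.ae_eq (Eventually.of_forall fun P => ?_)
          simp only [Pi.sub_apply]
          rw [div_eq_inv_mul]
        exact eLpNorm_add_le ((h6.sub (hφ.memLp_pd 0)).1) (hφ.memLp_pd 0).1 (by norm_num)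

theorem quot_mem {u : X → ℝ} (hu : MemLp u 2 volume) (k : ℝ) :
    MemLp (fun P => (u (sh k P) - u P) / k) 2 volume := by
  have h7 := ((comp_mem hu k).sub hu).const_mul k⁻¹
  refine h7.ae_eq (Eventually.of_forall fun P => ?_)
  simp only [Pi.sub_apply]
  rw [div_eq_inv_mul]

theorem bound_H1 {g : X → ℝ} {Γ : Fin 3 → X → ℝ} (hg : H1 e3 univ g Γ) (h : ℝ) (hh : 0 < h) :
    eLpNorm (fun P => (g (sh h P) - g P) / h) 2 volume ≤ eLpNorm (Γ 0) 2 volume := by
  obtain ⟨φ, hφ, h1, h2, _, _⟩ := hg.seq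
  have h3 : Tendsto (fun n => ‖h⁻¹‖ₑ * (eLpNorm (fun P => φ n P - g P) 2 volume +
      eLpNorm (fun P => φ n P - g P) 2 volume) +
      (eLpNorm (fun P => pd e3 0 (φ n) P - Γ 0 P) 2 volume + eLpNorm (Γ 0) 2 volume)) atTop
      (𝓝 (‖h⁻¹‖ₑ * (0 + 0) + (0 + eLpNorm (Γ 0) 2 volume))) := by
    refine Tendsto.add ?_ ((h2 0).add_const _)
    exact ENNReal.Tendsto.const_mul (h1.add h1) (Or.inr enorm_ne_top)
  rw [add_zero, mul_zero, zero_add, zero_add] at h3
  refine ge_of_tendsto h3 (Eventually.of_forall fun n => ?_)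
  have hd : MemLp (fun P => φ n P - g P) 2 volume := (hφ n).memLp.sub hg.1
  have e1 : (fun P => (g (sh h P) - g P) / h) =
      (fun P => (φ n (sh h P) - φ n P) / h) -
        fun P => ((φ n (sh h P) - g (sh h P)) - (φ n P - g P)) / h := by
    funext P
    simp only [Pi.sub_apply]
    ring
  have hq := quot_mem hd h
  rw [e1]
  refine (eLpNorm_sub_le (quot_mem (hφ n).memLp h).1 hq.1 (by norm_num)).trans ?_
  rw [add_comm]
  refine add_le_add ?_ ?_
  · have e2 := quot_eq (fun P => φ n P - g P) h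
    rw [e2]
    gcongr
    refine (eLpNorm_sub_le (comp_mem hd h).1 hd.1 (by norm_num)).trans ?_
    have e3' := comp_norm hd h
    rw [e3']
  · refine (bound_test (hφ n) h hh).trans ?_
    have e4 : pd e3 0 (φ n) = (fun P => pd e3 0 (φ n) P - Γ 0 P) + Γ 0 := by
      funext P
      simp
    calc eLpNorm (pd e3 0 (φ n)) 2 volume
        = eLpNorm ((fun P => pd e3 0 (φ n) P - Γ 0 P) + Γ 0) 2 volume := by rw [← e4]
      _ ≤ _ := eLpNorm_add_le (((hφ n).memLp_pd 0).sub (hg.2.1 0)).1 (hg.2.1 0).1 (by norm_num)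

end DQL_

open DQL_ in
/-- DQL -/
theorem p_DQL : T_DQL := by
  intro g Γ hg
  rw [ENNReal.tendsto_nhds_zero]
  intro ε hε
  have hε3 : ε / 3 ≠ 0 := (ENNReal.div_pos hε.ne' (by norm_num)).ne'
  obtain ⟨φ, hφ, h1, h2⟩ := hg.2.2 (ε / 3) hε3
  have h3 := ENNReal.tendsto_nhds_zero.1 (quot_test hφ) (ε / 3) (pos_iff_ne_zero.2 hε3)
  have hpos : ∀ᶠ h : ℝ in 𝓝[>] 0, 0 < h := eventually_mem_nhdsWithin
  filter_upwards [h3, hpos] with h hh h0
  have hs : H1 e3 univ (fun P => φ P - g P) (fun i P => pd e3 i φ P - Γ i P) := hφ.h1.sub hg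
  have h4 := bound_H1 hs h h0
  have e1 : (fun P => (g (sh h P) - g P) / h - Γ 0 P) =
      (fun P => (φ (sh h P) - φ P) / h - pd e3 0 φ P) +
        ((fun P => pd e3 0 φ P - Γ 0 P) -
          fun P => ((φ (sh h P) - g (sh h P)) - (φ P - g P)) / h) := by
    funext P
    simp only [Pi.add_apply, Pi.sub_apply]
    ring
  have m1 : MemLp (fun P => (φ (sh h P) - φ P) / h - pd e3 0 φ P) 2 volume :=
    (quot_mem hφ.memLp h).sub (hφ.memLp_pd 0)
  have m2 : MemLp (fun P => pd e3 0 φ P - Γ 0 P) 2 volume := (hφ.memLp_pd 0).sub (hg.2.1 0)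
  have m3 : MemLp (fun P => ((φ (sh h P) - g (sh h P)) - (φ P - g P)) / h) 2 volume :=
    quot_mem (hφ.memLp.sub hg.1) h
  rw [e1]
  calc eLpNorm ((fun P => (φ (sh h P) - φ P) / h - pd e3 0 φ P) +
        ((fun P => pd e3 0 φ P - Γ 0 P) -
          fun P => ((φ (sh h P) - g (sh h P)) - (φ P - g P)) / h)) 2 volume
      ≤ eLpNorm (fun P => (φ (sh h P) - φ P) / h - pd e3 0 φ P) 2 volume +
        (eLpNorm (fun P => pd e3 0 φ P - Γ 0 P) 2 volume +
          eLpNorm (fun P => ((φ (sh h P) - g (sh h P)) - (φ P - g P)) / h) 2 volume) := by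
        refine (eLpNorm_add_le m1.1 (m2.sub m3).1 (by norm_num)).trans ?_
        gcongr
        exact eLpNorm_sub_le m2.1 m3.1 (by norm_num)
    _ ≤ ε / 3 + (ε / 3 + ε / 3) := by
        gcongr
        · exact h2 0
        · exact h4.trans (h2 0)
    _ = ε := by
        rw [← add_assoc]
        exact ENNReal.add_thirds ε

end MGS
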