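import Pool.Agent.MGS.TD
import Pool.Agent.MGS.TA

/-!
# MGS: the slice inequality integrated (target T_INT)
-/

set_option autoImplicit false

open MeasureTheory Filter Topology Metric Set
open scoped ENNReal NNReal ContDiff

noncomputable section

namespace MGS

namespace INT_

/-- the points where `f > 0` is not on a plateau of its slice -/
def S (f : X → ℝ) : Set X := {P | 0 < f P ∧ volume {y : ℂ | f (y, P.2) = f P} = 0}

theorem S_eq (f : X → ℝ) : S f = {P | 0 < f P} \ pl f := by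
  ext P
  constructor
  · rintro ⟨h1, h2⟩
    refine ⟨h1, fun h3 => ?_⟩
    have := h3.2
    rw [h2] at this
    exact lt_irrefl _ this
  · rintro ⟨h1, h2⟩
    refine ⟨h1, ?_⟩
    by_contra h3
    exact h2 ⟨h1, pos_iff_ne_zero.2 h3⟩

theorem S_meas {f : X → ℝ} (hf : Measurable f) (hpl : MeasurableSet (pl f)) :
    MeasurableSet (S f) := by
  rw [S_eq]
  exact (measurableSet_lt measurable_const hf).diff hpl

/-- `Wc` on all slices -/
def Wx (B : ℝ) (a b : X → ℝ) (Fa Fb : Fin 3 → X → ℝ) (P : X) : ℝ :=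
  Wc B (sl a P.2) (sl b P.2) (sl2 Fa P.2) (sl2 Fb P.2) P.1

theorem mim : Measurable (fun P : X => P.1.im) := Complex.measurable_im.comp measurable_fst

theorem mre : Measurable (fun P : X => P.1.re) := Complex.measurable_re.comp measurable_fst

theorem md_meas {a b : X → ℝ} (ha : Measurable a) (hb : Measurable b) : Measurable (md a b) :=
  ((ha.pow_const 2).add (hb.pow_const 2)).sqrt

theorem Wx_meas {B : ℝ} {a b : X → ℝ} {Fa Fb : Fin 3 → X → ℝ} (ha : Measurable a)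
    (hb : Measurable b) (hFa : ∀ i, Measurable (Fa i)) (hFb : ∀ i, Measurable (Fb i)) :
    Measurable (Wx B a b Fa Fb) := by
  have hm := md_meas ha hb
  have h0 := hFa 0
  have h1 := hFa 1
  have h2 := hFb 0
  have h3 := hFb 1
  have e : Wx B a b Fa Fb = fun P =>
      ((a P * Fb 0 P - b P * Fa 0 P + (-(B / 2) * P.1.im) * (a P ^ 2 + b P ^ 2)) *
        ((a P * Fa 1 P + b P * Fb 1 P) / md a b P) -
      (a P * Fb 1 P - b P * Fa 1 P + ((B / 2) * P.1.re) * (a P ^ 2 + b P ^ 2)) *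
        ((a P * Fa 0 P + b P * Fb 0 P) / md a b P)) / md a b P := rfl
  rw [e]
  have k1 : Measurable fun P : X => a P ^ 2 + b P ^ 2 := (ha.pow_const 2).add (hb.pow_const 2)
  have k2 : Measurable fun P : X => -(B / 2) * P.1.im := mim.const_mul _
  have k3 : Measurable fun P : X => (B / 2) * P.1.re := mre.const_mul _
  exact ((((ha.mul h2).sub (hb.mul h0)).add (k2.mul k1)).mul
    (((ha.mul h1).add (hb.mul h3)).div hm)).sub
    ((((ha.mul h3).sub (hb.mul h1)).add (k3.mul k1)).mul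
    (((ha.mul h0).add (hb.mul h2)).div hm)) |>.div hm

/-- the length of the gradient of `|a + i b|` on the slices -/
def gm (a b : X → ℝ) (Fa Fb : Fin 3 → X → ℝ) (P : X) : ℝ :=
  gn (mg (sl a P.2) (sl b P.2) (sl2 Fa P.2) (sl2 Fb P.2)) P.1

theorem gm_meas {a b : X → ℝ} {Fa Fb : Fin 3 → X → ℝ} (ha : Measurable a)
    (hb : Measurable b) (hFa : ∀ i, Measurable (Fa i)) (hFb : ∀ i, Measurable (Fb i)) :
    Measurable (gm a b Fa Fb) := by
  have hm := md_meas ha hb
  have e : gm a b Fa Fb = fun P => Real.sqrt (((a P * Fa 0 P + b P * Fb 0 P) / md a b P) ^ 2 +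
      ((a P * Fa 1 P + b P * Fb 1 P) / md a b P) ^ 2) := rfl
  rw [e]
  exact (((((ha.mul (hFa 0)).add (hb.mul (hFb 0))).div hm).pow_const 2).add
    ((((ha.mul (hFa 1)).add (hb.mul (hFb 1))).div hm).pow_const 2)).sqrt

open Classical in
theorem Yx_eq (B : ℝ) (a b : X → ℝ) (Fa Fb : Fin 3 → X → ℝ) (κ Q : ℝ → ℝ → ℝ) (P : X) :
    Yx B a b Fa Fb κ Q P = if P ∈ S (md a b) then
      2 * κ (rk (md a b) P) P.2 * Wx B a b Fa Fb P +
        2 * (1 - κ (rk (md a b) P) P.2 ^ 2) * Q (rk (md a b) P) P.2 * gm a b Fa Fb P -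
        (1 - κ (rk (md a b) P) P.2 ^ 2) * Q (rk (md a b) P) P.2 ^ 2
      else 0 := by
  unfold Yx Yc
  by_cases h : P ∈ S (md a b)
  · have h' : 0 < md (sl a P.2) (sl b P.2) P.1 ∧
        volume {y : ℂ | md (sl a P.2) (sl b P.2) y = md (sl a P.2) (sl b P.2) P.1} = 0 := h
    rw [if_pos h, if_pos h']
    rfl
  · have h' : ¬(0 < md (sl a P.2) (sl b P.2) P.1 ∧
        volume {y : ℂ | md (sl a P.2) (sl b P.2) y = md (sl a P.2) (sl b P.2) P.1} = 0) := h
    rw [if_neg h, if_neg h']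

open Classical in
theorem Zx_eq (B : ℝ) (v : X → ℝ) (G : Fin 3 → X → ℝ) (κ Q : ℝ → ℝ → ℝ) (P : X) :
    Zx B v G κ Q P = B * κ ‖P.1‖ P.2 * ‖P.1‖ * v P * gx G P +
      2 * (1 - κ ‖P.1‖ P.2 ^ 2) * Q ‖P.1‖ P.2 * gx G P -
      if P ∈ S v then (1 - κ ‖P.1‖ P.2 ^ 2) * Q ‖P.1‖ P.2 ^ 2 else 0 := by
  unfold Zx Zc
  by_cases h : P ∈ S v
  · have h' : 0 < sl v P.2 P.1 ∧ volume {y : ℂ | sl v P.2 y = sl v P.2 P.1} = 0 := h
    rw [if_pos h, if_pos h']
    rfl
  · have h' : ¬(0 < sl v P.2 P.1 ∧ volume {y : ℂ | sl v P.2 y = sl v P.2 P.1} = 0) := h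
    rw [if_neg h, if_neg h']
    rfl

theorem eq2_em (B : ℝ) (a b : X → ℝ) (Fa Fb : Fin 3 → X → ℝ) (P : X) :
    eq2 B (sl a P.2) (sl b P.2) (sl2 Fa P.2) (sl2 Fb P.2) P.1 =
      em B a b Fa Fb 0 P + em B a b Fa Fb 1 P := by
  unfold eq2 em
  rw [Fin.sum_univ_two]
  rfl

theorem em_nonneg (B : ℝ) (a b : X → ℝ) (Fa Fb : Fin 3 → X → ℝ) (i : Fin 3) (P : X) :
    0 ≤ em B a b Fa Fb i P := by
  unfold em
  positivity

theorem real_bound (g h W k q E : ℝ) (hE : E = g ^ 2 + h ^ 2) (hW : |W| ≤ g * h) (hk : 0 ≤ k)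
    (hk1 : k ≤ 1) (hq : 0 ≤ q) (hg : 0 ≤ g) :
    |2 * k * W + 2 * (1 - k ^ 2) * q * g - (1 - k ^ 2) * q ^ 2| ≤ 2 * E + 2 * q ^ 2 := by
  have hk2 : 0 ≤ 1 - k ^ 2 := by nlinarith
  have hk3 : 1 - k ^ 2 ≤ 1 := by nlinarith [sq_nonneg k]
  have h1 := abs_le.1 hW
  have hgh : 2 * (g * h) ≤ g ^ 2 + h ^ 2 := by nlinarith [sq_nonneg (g - h)]
  have hgh0 : 0 ≤ g * h := (abs_nonneg W).trans hW
  have h2 : |2 * k * W| ≤ g ^ 2 + h ^ 2 := by
    rw [abs_mul, abs_of_nonneg (by positivity : (0 : ℝ) ≤ 2 * k)]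
    calc 2 * k * |W| ≤ 2 * 1 * (g * h) := by
          apply mul_le_mul _ hW (abs_nonneg _) (by norm_num)
          linarith
      _ ≤ g ^ 2 + h ^ 2 := by linarith
  have h3 : 2 * (1 - k ^ 2) * q * g ≤ q ^ 2 + g ^ 2 := by
    have : (1 - k ^ 2) * (2 * (q * g)) ≤ 1 * (2 * (q * g)) :=
      mul_le_mul_of_nonneg_right hk3 (by positivity)
    nlinarith [sq_nonneg (q - g)]
  have h3' : 0 ≤ 2 * (1 - k ^ 2) * q * g := by positivity
  have h4 : (1 - k ^ 2) * q ^ 2 ≤ q ^ 2 := by nlinarith [sq_nonneg q]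
  have h4' : 0 ≤ (1 - k ^ 2) * q ^ 2 := by positivity
  have h5 := abs_le.1 h2
  rw [hE, abs_le]
  constructor <;> nlinarith [sq_nonneg g, sq_nonneg h, sq_nonneg q]

theorem Yx_le (hALG : T_ALG) {B : ℝ} {a b : X → ℝ} {Fa Fb : Fin 3 → X → ℝ} {κ Q : ℝ → ℝ → ℝ}
    (hκ : ∀ r z, 0 ≤ κ r z ∧ κ r z ≤ 1) (hQ : ∀ r z, 0 ≤ Q r z) (P : X) :
    Yx B a b Fa Fb κ Q P ≤ em B a b Fa Fb 0 P + em B a b Fa Fb 1 P := by
  classical
  rw [Yx_eq]
  split_ifs with h
  · have h1 := hALG B (sl a P.2) (sl b P.2) (sl2 Fa P.2) (sl2 Fb P.2) P.1 h.1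
    have h2 := (h1.2.2 (κ (rk (md a b) P) P.2) (Q (rk (md a b) P) P.2) (hκ _ _).1 (hκ _ _).2
      (hQ _ _)).1
    rw [eq2_em] at h2
    exact h2
  · have := em_nonneg B a b Fa Fb 0 P
    have := em_nonneg B a b Fa Fb 1 P
    linarith

theorem Yx_abs (hALG : T_ALG) {B : ℝ} {a b : X → ℝ} {Fa Fb : Fin 3 → X → ℝ} {κ Q : ℝ → ℝ → ℝ}
    (hκ : ∀ r z, 0 ≤ κ r z ∧ κ r z ≤ 1) (hQ : ∀ r z, 0 ≤ Q r z) (P : X) :
    |Yx B a b Fa Fb κ Q P| ≤ 2 * (em B a b Fa Fb 0 P + em B a b Fa Fb 1 P) +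
      2 * (S (md a b)).indicator (fun P => Q (rk (md a b) P) P.2 ^ 2) P := by
  classical
  rw [Yx_eq]
  split_ifs with h
  · have h1 := hALG B (sl a P.2) (sl b P.2) (sl2 Fa P.2) (sl2 Fb P.2) P.1 h.1
    rw [indicator_of_mem h]
    have h3 := h1.1
    rw [eq2_em] at h3
    exact real_bound _ _ _ _ _ _ h3 h1.2.1 (hκ _ _).1 (hκ _ _).2 (hQ _ _)
      (Real.sqrt_nonneg _)
  · rw [indicator_of_notMem h]
    have := em_nonneg B a b Fa Fb 0 P
    have := em_nonneg B a b Fa Fb 1 P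
    simp only [abs_zero]
    linarith

theorem Yx_meas {B : ℝ} {a b : X → ℝ} {Fa Fb : Fin 3 → X → ℝ} {κ Q : ℝ → ℝ → ℝ}
    (ha : Measurable a) (hb : Measurable b) (hFa : ∀ i, Measurable (Fa i))
    (hFb : ∀ i, Measurable (Fb i)) (hrk : Measurable (rk (md a b)))
    (hpl : MeasurableSet (pl (md a b))) (hκ : Measurable (Function.uncurry κ))
    (hQ : Measurable (Function.uncurry Q)) : Measurable (Yx B a b Fa Fb κ Q) := by
  classical
  have e : Yx B a b Fa Fb κ Q = fun P => if P ∈ S (md a b) then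
      2 * κ (rk (md a b) P) P.2 * Wx B a b Fa Fb P +
        2 * (1 - κ (rk (md a b) P) P.2 ^ 2) * Q (rk (md a b) P) P.2 * gm a b Fa Fb P -
        (1 - κ (rk (md a b) P) P.2 ^ 2) * Q (rk (md a b) P) P.2 ^ 2
      else 0 := funext fun P => Yx_eq B a b Fa Fb κ Q P
  rw [e]
  have hS := S_meas (md_meas ha hb) hpl
  have hp : Measurable fun P : X => (rk (md a b) P, P.2) := hrk.prodMk measurable_snd
  have k1 : Measurable fun P : X => κ (rk (md a b) P) P.2 := hκ.comp hp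
  have k2 : Measurable fun P : X => Q (rk (md a b) P) P.2 := hQ.comp hp
  have k3 : Measurable fun P : X => 1 - κ (rk (md a b) P) P.2 ^ 2 :=
    measurable_const.sub (k1.pow_const 2)
  refine Measurable.ite hS ?_ measurable_const
  exact (((k1.const_mul 2).mul (Wx_meas ha hb hFa hFb)).add
    (((k3.const_mul 2).mul k2).mul (gm_meas ha hb hFa hFb))).sub (k3.mul (k2.pow_const 2))

theorem gx_meas {G : Fin 3 → X → ℝ} (hG : ∀ i, Measurable (G i)) : Measurable (gx G) :=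
  (((hG 0).pow_const 2).add ((hG 1).pow_const 2)).sqrt

theorem Zx_meas {B : ℝ} {v : X → ℝ} {G : Fin 3 → X → ℝ} {κ Q : ℝ → ℝ → ℝ}
    (hv : Measurable v) (hG : ∀ i, Measurable (G i))
    (hpl : MeasurableSet (pl v)) (hκ : Measurable (Function.uncurry κ))
    (hQ : Measurable (Function.uncurry Q)) : Measurable (Zx B v G κ Q) := by
  classical
  have e : Zx B v G κ Q = fun P => B * κ ‖P.1‖ P.2 * ‖P.1‖ * v P * gx G P +
      2 * (1 - κ ‖P.1‖ P.2 ^ 2) * Q ‖P.1‖ P.2 * gx G P -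
      if P ∈ S v then (1 - κ ‖P.1‖ P.2 ^ 2) * Q ‖P.1‖ P.2 ^ 2 else 0 :=
    funext fun P => Zx_eq B v G κ Q P
  rw [e]
  have hn : Measurable fun P : X => ‖P.1‖ := measurable_fst.norm
  have hp : Measurable fun P : X => (‖P.1‖, P.2) := hn.prodMk measurable_snd
  have k1 : Measurable fun P : X => κ ‖P.1‖ P.2 := hκ.comp hp
  have k2 : Measurable fun P : X => Q ‖P.1‖ P.2 := hQ.comp hp
  have k3 : Measurable fun P : X => 1 - κ ‖P.1‖ P.2 ^ 2 := measurable_const.sub (k1.pow_const 2)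
  have hg := gx_meas hG
  exact (((((k1.const_mul B).mul hn).mul hv).mul hg).add (((k3.const_mul 2).mul k2).mul hg)).sub
    (Measurable.ite (S_meas hv hpl) (k3.mul (k2.pow_const 2)) measurable_const)

/-! ### integrability -/

theorem sq_int {f : X → ℝ} (h : MemLp f 2 volume) : Integrable (fun P => f P ^ 2) := h.integrable_sq

theorem Ap_mul_memLp {B R : ℝ} {b : X → ℝ} (hb : MemLp b 2 volume) (hz : ∀ P, R ≤ ‖P‖ → b P = 0)
    (i : Fin 3) : MemLp (fun P => Ap B i P * b P) 2 volume := by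
  have hc : Continuous (Ap B i) := by
    unfold Ap
    fin_cases i
    · exact continuous_const.mul (Complex.continuous_im.comp continuous_fst)
    · exact continuous_const.mul (Complex.continuous_re.comp continuous_fst)
    · exact continuous_const
  refine MemLp.of_le_mul (c := |B / 2| * |R|) hb (hc.aestronglyMeasurable.mul hb.1) ?_
  refine Eventually.of_forall fun P => ?_
  by_cases hP : R ≤ ‖P‖
  · rw [hz P hP]
    simp
  · push Not at hP
    rw [norm_mul]
    refine mul_le_mul_of_nonneg_right ?_ (norm_nonneg _)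
    have h1 : ‖P.1‖ ≤ ‖P‖ := norm_fst_le P
    have h2 : ‖P.1‖ ≤ |R| := h1.trans (hP.le.trans (le_abs_self R))
    unfold Ap
    fin_cases i
    · show ‖-(B / 2) * P.1.im‖ ≤ |B / 2| * |R|
      rw [norm_mul, norm_neg, Real.norm_eq_abs, Real.norm_eq_abs]
      exact mul_le_mul_of_nonneg_left ((Complex.abs_im_le_norm _).trans h2) (abs_nonneg _)
    · show ‖(B / 2) * P.1.re‖ ≤ |B / 2| * |R|
      rw [norm_mul, Real.norm_eq_abs, Real.norm_eq_abs]
      exact mul_le_mul_of_nonneg_left ((Complex.abs_re_le_norm _).trans h2) (abs_nonneg _)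
    · show ‖(0 : ℝ)‖ ≤ |B / 2| * |R|
      rw [norm_zero]
      positivity

theorem em_int {B R : ℝ} {a b : X → ℝ} {Fa Fb : Fin 3 → X → ℝ} (ha : MemLp a 2 volume)
    (hb : MemLp b 2 volume) (hFa : ∀ i, MemLp (Fa i) 2 volume) (hFb : ∀ i, MemLp (Fb i) 2 volume)
    (za : ∀ P, R ≤ ‖P‖ → a P = 0) (zb : ∀ P, R ≤ ‖P‖ → b P = 0) (i : Fin 3) :
    Integrable (em B a b Fa Fb i) := by
  unfold em
  exact (((hFa i).sub (Ap_mul_memLp hb zb i)).integrable_sq).add
    (((hFb i).add (Ap_mul_memLp ha za i)).integrable_sq)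

/-- the integral of `Q²` at the rank radius, on a slice -/
theorem slice_le (hEQM : T_EQM) (hRKV : T_RKV) {R : ℝ} {g : ℂ → ℝ} (hg : Nc R g)
    (har : Measurable (ar g)) {q : ℝ → ℝ} (hq : Measurable q) :
    ∫⁻ x, (if 0 < g x ∧ volume {y : ℂ | g y = g x} = 0 then ENNReal.ofReal (q (rad g (g x)) ^ 2)
      else 0) ≤ ∫⁻ x : ℂ, ENNReal.ofReal (q ‖x‖ ^ 2) := by
  classical
  have hrad : Measurable (rad g) := (har.div_const _).sqrt
  have hset : MeasurableSet {s : ℝ | 0 < s ∧ volume {y : ℂ | g y = s} = 0} := by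
    have h1 : Measurable fun s : ℝ => volume {y : ℂ | g y = s} := by
      have h2 : MeasurableSet {p : ℝ × ℂ | g p.2 = p.1} :=
        measurableSet_eq_fun (hg.m.comp measurable_snd) measurable_fst
      exact measurable_measure_prodMk_left h2
    exact (measurableSet_lt measurable_const measurable_id).inter
      (h1 (measurableSet_singleton 0))
  set Ξ : ℝ → ℝ≥0∞ := fun s => if 0 < s ∧ volume {y : ℂ | g y = s} = 0 then
    ENNReal.ofReal (q (rad g s) ^ 2) else 0 with hΞ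
  have hΞm : Measurable Ξ :=
    Measurable.ite hset ((hq.comp hrad).pow_const 2).ennreal_ofReal measurable_const
  have hΞ0 : Ξ 0 = 0 := by
    rw [hΞ]
    simp
  obtain ⟨e1, e2, e3⟩ := hEQM R g hg
  have key := e1 Ξ hΞm hΞ0
  calc ∫⁻ x, (if 0 < g x ∧ volume {y : ℂ | g y = g x} = 0 then ENNReal.ofReal (q (rad g (g x)) ^ 2)
      else 0) = ∫⁻ x, Ξ (g x) := by
        exact lintegral_congr fun x => rfl
    _ = ∫⁻ x : ℂ, Ξ (rr g ‖x‖) := key.symm
    _ ≤ ∫⁻ x : ℂ, ENNReal.ofReal (q ‖x‖ ^ 2) := by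
        have h0 : ∀ᵐ x : ℂ, x ≠ 0 := by
          rw [ae_iff]
          simp
        refine lintegral_mono_ae ?_
        filter_upwards [h0] with x hx
        by_cases h : 0 < rr g ‖x‖ ∧ volume {y : ℂ | g y = rr g ‖x‖} = 0
        · have h1 : Ξ (rr g ‖x‖) = ENNReal.ofReal (q (rad g (rr g ‖x‖)) ^ 2) := if_pos h
          have h2 := hRKV R g hg x hx h.1 ((e3 _ h.1).trans h.2)
          rw [h1, h2]
        · have h1 : Ξ (rr g ‖x‖) = 0 := if_neg h
          rw [h1]
          exact zero_le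

/-- `Q²` at the rank radius is integrable -/
theorem Qrk_int (hEQM : T_EQM) (hRKV : T_RKV) (hVSM : T_VSM) {R : ℝ} {f : X → ℝ} (hf : Nx R f)
    {Q : ℝ → ℝ → ℝ} (hQ : Measurable (Function.uncurry Q))
    (hi : Integrable (fun P : X => Q ‖P.1‖ P.2 ^ 2)) :
    Integrable ((S f).indicator (fun P => Q (rk f P) P.2 ^ 2)) := by
  classical
  obtain ⟨v1, v2, v3, v4, v5, v6⟩ := hVSM R f hf
  have hS := S_meas hf.m v3
  have hm : Measurable ((S f).indicator (fun P => Q (rk f P) P.2 ^ 2)) :=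
    ((hQ.comp (v2.prodMk measurable_snd)).pow_const 2).indicator hS
  refine ⟨hm.aestronglyMeasurable, ?_⟩
  have h1 : ∀ P : X, ‖(S f).indicator (fun P => Q (rk f P) P.2 ^ 2) P‖ₑ =
      if 0 < f P ∧ volume {y : ℂ | f (y, P.2) = f P} = 0 then ENNReal.ofReal (Q (rk f P) P.2 ^ 2)
      else 0 := by
    intro P
    by_cases h : 0 < f P ∧ volume {y : ℂ | f (y, P.2) = f P} = 0
    · rw [if_pos h, indicator_of_mem (show P ∈ S f from h)]
      exact Real.enorm_of_nonneg (sq_nonneg _)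
    · rw [if_neg h, indicator_of_notMem (show P ∉ S f from h)]
      simp
  unfold HasFiniteIntegral
  rw [lintegral_congr h1]
  have hmm : Measurable fun P : X => (if 0 < f P ∧ volume {y : ℂ | f (y, P.2) = f P} = 0 then
      ENNReal.ofReal (Q (rk f P) P.2 ^ 2) else 0) := by
    have := hm.enorm
    rwa [show (fun P => ‖(S f).indicator (fun P => Q (rk f P) P.2 ^ 2) P‖ₑ) = _ from
      funext h1] at this
  have e : (volume : Measure X) = (volume : Measure ℂ).prod (volume : Measure ℝ) := rfl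
  rw [e, lintegral_prod_symm' _ hmm]
  have hQ2 : ∫⁻ P : X, ENNReal.ofReal (Q ‖P.1‖ P.2 ^ 2) < ⊤ := by
    have := hi.2
    unfold HasFiniteIntegral at this
    rwa [lintegral_congr fun P : X => Real.enorm_of_nonneg (sq_nonneg (Q ‖P.1‖ P.2))] at this
  have hQm : Measurable fun P : X => ENNReal.ofReal (Q ‖P.1‖ P.2 ^ 2) :=
    ((hQ.comp ((measurable_fst.norm).prodMk measurable_snd)).pow_const 2).ennreal_ofReal
  rw [e, lintegral_prod_symm' _ hQm] at hQ2
  refine lt_of_le_of_lt (lintegral_mono fun z => ?_) hQ2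
  have har : Measurable (ar (sl f z)) := v4.comp (measurable_const.prodMk measurable_id)
  have hq : Measurable fun r => Q r z := hQ.comp (measurable_id.prodMk measurable_const)
  exact slice_le hEQM hRKV (v5 z) har hq

end INT_

open INT_

theorem p_INT (h_SLC : T_SLC) (h_SLI : T_SLI) (h_ALG : T_ALG) (h_VSM : T_VSM) (h_EQM : T_EQM)
    (h_RKV : T_RKV) : T_INT := by
  intro B R Ω a b Fa Fb G κ Q hB hPD hG hGm hκm hQm hκ hQ hQi
  have hz : ∀ P : X, R ≤ ‖P‖ → a P = 0 ∧ b P = 0 := by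
    intro P hP
    have h1 : P ∉ Ω := fun h => absurd (hPD.bdd P h) (not_lt.2 hP)
    exact ⟨(hPD.zero P h1).1, (hPD.zero P h1).2.1⟩
  have hfm := md_meas hPD.ma hPD.mb
  have hNx : Nx R (md a b) := by
    refine ⟨hfm, fun P => Real.sqrt_nonneg _, fun P hP => ?_⟩
    obtain ⟨h1, h2⟩ := hz P hP
    unfold md
    rw [h1, h2]
    simp
  obtain ⟨v1, v2, v3, v4, v5, v6⟩ := h_VSM R _ hNx
  obtain ⟨w1, w2, w3, w4, w5, w6⟩ := h_VSM R _ v1
  have hvm := v1.m
  -- measurability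
  have hYm : Measurable (Yx B a b Fa Fb κ Q) := Yx_meas hPD.ma hPD.mb hPD.mFa hPD.mFb v2 v3 hκm hQm
  have hZm : Measurable (Zx B (vs (md a b)) G κ Q) := Zx_meas hvm hGm w3 hκm hQm
  -- integrability
  have hem : ∀ i, Integrable (em B a b Fa Fb i) :=
    em_int (R := R) hPD.ha.1 hPD.hb.1 hPD.ha.2.1 hPD.hb.2.1 (fun P hP => (hz P hP).1)
      (fun P hP => (hz P hP).2)
  have hYi : Integrable (Yx B a b Fa Fb κ Q) := by
    refine Integrable.mono' ((((hem 0).add (hem 1)).const_mul 2).add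
      ((Qrk_int h_EQM h_RKV h_VSM hNx hQm hQi).const_mul 2)) hYm.aestronglyMeasurable ?_
    exact Eventually.of_forall fun P => Yx_abs h_ALG hκ hQ P
  have hgx : Integrable (fun P => gx G P ^ 2) := by
    have h1 : (fun P => gx G P ^ 2) = fun P => G 0 P ^ 2 + G 1 P ^ 2 := by
      funext P
      exact Real.sq_sqrt (by positivity)
    rw [h1]
    exact ((hG.2.1 0).integrable_sq).add ((hG.2.1 1).integrable_sq)
  have hZi : Integrable (Zx B (vs (md a b)) G κ Q) := by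
    have hv2 : Integrable (fun P => vs (md a b) P ^ 2) := hG.1.integrable_sq
    refine Integrable.mono' (((hv2.add hgx).const_mul (B * |R|)).add
      ((hgx.add (hQi.const_mul 2)))) hZm.aestronglyMeasurable ?_
    refine Eventually.of_forall fun P => ?_
    classical
    rw [Zx_eq, Real.norm_eq_abs]
    have hg0 : 0 ≤ gx G P := Real.sqrt_nonneg _
    have hv0 : 0 ≤ vs (md a b) P := v1.nn P
    have hk0 := (hκ ‖P.1‖ P.2).1
    have hk1 := (hκ ‖P.1‖ P.2).2
    have hq0 := hQ ‖P.1‖ P.2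
    have hRv : ‖P.1‖ * vs (md a b) P ≤ |R| * vs (md a b) P := by
      by_cases hP : R ≤ ‖P‖
      · rw [v1.z P hP]
        simp
      · push Not at hP
        exact mul_le_mul_of_nonneg_right
          ((norm_fst_le P).trans (hP.le.trans (le_abs_self R))) hv0
    set k := κ ‖P.1‖ P.2
    set q := Q ‖P.1‖ P.2
    set g := gx G P
    set v := vs (md a b) P
    have hk2 : 0 ≤ 1 - k ^ 2 := by nlinarith
    have hk3 : 1 - k ^ 2 ≤ 1 := by nlinarith [sq_nonneg k]
    have t1 : 0 ≤ B * k * ‖P.1‖ * v * g := by positivity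
    have t1' : B * k * ‖P.1‖ * v * g ≤ B * |R| * (v ^ 2 + g ^ 2) := by
      calc B * k * ‖P.1‖ * v * g = B * (k * (‖P.1‖ * v)) * g := by ring
        _ ≤ B * (1 * (|R| * v)) * g := by
            apply mul_le_mul_of_nonneg_right _ hg0
            apply mul_le_mul_of_nonneg_left _ hB
            exact mul_le_mul hk1 hRv (by positivity) (by norm_num)
        _ = B * |R| * (v * g) := by ring
        _ ≤ B * |R| * (v ^ 2 + g ^ 2) := by
            apply mul_le_mul_of_nonneg_left _ (by positivity)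
            nlinarith [sq_nonneg (v - g), sq_nonneg v, sq_nonneg g]
    have t2 : 0 ≤ 2 * (1 - k ^ 2) * q * g := by positivity
    have t2' : 2 * (1 - k ^ 2) * q * g ≤ q ^ 2 + g ^ 2 := by
      have : (1 - k ^ 2) * (2 * (q * g)) ≤ 1 * (2 * (q * g)) :=
        mul_le_mul_of_nonneg_right hk3 (by positivity)
      nlinarith [sq_nonneg (q - g)]
    have t3 : 0 ≤ (if P ∈ S (vs (md a b)) then (1 - k ^ 2) * q ^ 2 else 0) := by
      split_ifs
      · positivity
      · exact le_rfl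
    have t3' : (if P ∈ S (vs (md a b)) then (1 - k ^ 2) * q ^ 2 else 0) ≤ q ^ 2 := by
      split_ifs
      · nlinarith [sq_nonneg q]
      · positivity
    show |_| ≤ B * |R| * (v ^ 2 + g ^ 2) + (g ^ 2 + 2 * q ^ 2)
    rw [abs_le]
    have hv2' := sq_nonneg v
    have hg2' := sq_nonneg g
    have hBR : 0 ≤ B * |R| * (v ^ 2 + g ^ 2) := by positivity
    constructor
    · nlinarith [sq_nonneg q]
    · nlinarith [sq_nonneg q]
  refine ⟨hYi, hZi, Eventually.of_forall fun P => Yx_le h_ALG hκ hQ P, ?_⟩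
  -- slices
  have hb1 : ∀ P ∈ Ω, ‖P.1‖ < R := fun P hP => (norm_fst_le P).trans_lt (hPD.bdd P hP)
  have hb2 : ∀ P ∈ Ost Ω, ‖P.1‖ < R := by
    intro P hP
    by_contra hlt
    push Not at hlt
    have h1 : {y : ℂ | (y, P.2) ∈ Ω} ⊆ ball (0 : ℂ) R := by
      intro y hy
      rw [mem_ball_zero_iff]
      exact hb1 _ hy
    have h2 : (volume {y : ℂ | (y, P.2) ∈ Ω}).toReal ≤ Real.pi * ‖P.1‖ ^ 2 := by
      by_cases hR : R ≤ 0
      · have h3 : {y : ℂ | (y, P.2) ∈ Ω} = ∅ := by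
          rw [Set.eq_empty_iff_forall_notMem]
          intro y hy
          have := h1 hy
          rw [mem_ball_zero_iff] at this
          linarith [norm_nonneg y]
        rw [h3, measure_empty, ENNReal.toReal_zero]
        positivity
      · push Not at hR
        have h3 := measure_mono (μ := volume) h1
        rw [Complex.volume_ball] at h3
        have h4 := ENNReal.toReal_mono (by finiteness) h3
        rw [ENNReal.toReal_mul, ENNReal.toReal_pow, ENNReal.toReal_ofReal hR.le] at h4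
        have h5 : ((NNReal.pi : ℝ≥0∞)).toReal = Real.pi := rfl
        rw [h5] at h4
        refine h4.trans ?_
        rw [mul_comm]
        exact mul_le_mul_of_nonneg_left (pow_le_pow_left₀ hR.le hlt 2) Real.pi_pos.le
    exact absurd hP (not_lt.2 h2)
  have sa := h_SLI Ω a Fa R hb1 hPD.ha
  have sb := h_SLI Ω b Fb R hb1 hPD.hb
  have sv := h_SLI (Ost Ω) (vs (md a b)) G R hb2 hG
  have e : (volume : Measure X) = (volume : Measure ℂ).prod (volume : Measure ℝ) := rfl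
  have hQi' : Integrable (fun P : ℂ × ℝ => Q ‖P.1‖ P.2 ^ 2)
    ((volume : Measure ℂ).prod (volume : Measure ℝ)) := hQi
  have sq := hQi'.prod_left_ae
  have hYi' : Integrable (Yx B a b Fa Fb κ Q)
    ((volume : Measure ℂ).prod (volume : Measure ℝ)) := hYi
  have hZi' : Integrable (Zx B (vs (md a b)) G κ Q)
    ((volume : Measure ℂ).prod (volume : Measure ℝ)) := hZi
  rw [e, integral_prod_symm _ hYi', integral_prod_symm _ hZi']
  refine integral_mono_ae hZi'.integral_prod_right hYi'.integral_prod_right ?_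
  filter_upwards [sa, sb, sv, sq] with z za zb zv zq
  have mz : Measurable fun x : ℂ => ((x, z) : X) := measurable_id.prodMk measurable_const
  have := h_SLC B R (sl a z) (sl b z) (sl2 Fa z) (sl2 Fb z) (sl2 G z) (fun r => κ r z)
    (fun r => Q r z) hB za zb (hPD.ma.comp mz) (hPD.mb.comp mz) (fun i => (hPD.mFa _).comp mz)
    (fun i => (hPD.mFb _).comp mz) (v5 z) zv (fun i => (hGm _).comp mz)
    (hκm.comp (measurable_id.prodMk measurable_const))
    (hQm.comp (measurable_id.prodMk measurable_const)) (fun r => hκ r z) (fun r => hQ r z) zq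
  exact this.2.2

end MGS
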