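import Pool.Agent.MGS.TF
import Pool.Agent.MGS.P_INT

/-!
# MGS: target EG2 (the symmetrized ground state is the radial one)
-/

set_option autoImplicit false

open MeasureTheory Filter Topology Metric Set
open scoped ENNReal NNReal ContDiff

noncomputable section

namespace MGS

namespace EG2_

variable {B R : ℝ} {Ω : Set X} {a b v₁ : X → ℝ} {Fa Fb F : Fin 3 → X → ℝ} {V T : ℝ → ℝ → ℝ}

theorem z_out (h : PD Ω R a b Fa Fb) {P : X} (hP : R ≤ ‖P‖) :
    a P = 0 ∧ b P = 0 ∧ ∀ i, Fa i P = 0 ∧ Fb i P = 0 :=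
  h.zero P fun hh => not_lt.2 hP (h.bdd P hh)

theorem nx (h : PD Ω R a b Fa Fb) : Nx R (md a b) where
  m := ((h.ma.pow_const 2).add (h.mb.pow_const 2)).sqrt
  nn _ := Real.sqrt_nonneg _
  z P hP := by
    obtain ⟨h1, h2, -⟩ := z_out h hP
    unfold md
    rw [h1, h2]
    simp

theorem md_sq (P : X) : md a b P ^ 2 = a P ^ 2 + b P ^ 2 := Real.sq_sqrt (by positivity)

theorem gx_sq (F : Fin 3 → X → ℝ) (P : X) : gx F P ^ 2 = F 0 P ^ 2 + F 1 P ^ 2 :=
  Real.sq_sqrt (by positivity)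

/-- the pointwise identity of the horizontal energy -/
theorem hor (hALG : T_ALG) {P : X} (hf : 0 < md a b P) :
    em B a b Fa Fb 0 P + em B a b Fa Fb 1 P =
      mg a b Fa Fb 0 P ^ 2 + mg a b Fa Fb 1 P ^ 2 + hx B a b Fa Fb P ^ 2 := by
  have h1 : 0 < md (sl a P.2) (sl b P.2) P.1 := hf
  have h2 := (hALG B (sl a P.2) (sl b P.2) (sl2 Fa P.2) (sl2 Fb P.2) P.1 h1).1
  have h3 : eq2 B (sl a P.2) (sl b P.2) (sl2 Fa P.2) (sl2 Fb P.2) P.1 =
      em B a b Fa Fb 0 P + em B a b Fa Fb 1 P := by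
    unfold eq2
    rw [Fin.sum_univ_two]
    rfl
  have h4 : gn (mg (sl a P.2) (sl b P.2) (sl2 Fa P.2) (sl2 Fb P.2)) P.1 ^ 2 =
      mg a b Fa Fb 0 P ^ 2 + mg a b Fa Fb 1 P ^ 2 := by
    have : gn (mg (sl a P.2) (sl b P.2) (sl2 Fa P.2) (sl2 Fb P.2)) P.1 ^ 2 =
      mg (sl a P.2) (sl b P.2) (sl2 Fa P.2) (sl2 Fb P.2) 0 P.1 ^ 2 +
      mg (sl a P.2) (sl b P.2) (sl2 Fa P.2) (sl2 Fb P.2) 1 P.1 ^ 2 :=
      Real.sq_sqrt (by positivity)
    rw [this]
    rfl
  rw [← h3, h2, h4]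
  rfl

theorem ver (P : X) : mg a b Fa Fb 2 P ^ 2 ≤ em B a b Fa Fb 2 P := by
  have h0 : Ap B 2 P = 0 := rfl
  unfold em
  rw [h0, zero_mul, zero_mul, sub_zero, add_zero]
  unfold mg
  rcases (Real.sqrt_nonneg (a P ^ 2 + b P ^ 2)).eq_or_lt with h | h
  · have h1 : md a b P = 0 := h.symm
    rw [h1, div_zero, zero_pow two_ne_zero]
    positivity
  · have h1 : 0 < md a b P := h
    rw [div_pow, div_le_iff₀ (by positivity), md_sq]
    nlinarith [sq_nonneg (a P * Fb 2 P - b P * Fa 2 P)]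

theorem em_nn (i : Fin 3) (P : X) : 0 ≤ em B a b Fa Fb i P := by
  unfold em
  positivity

theorem mg_zero {P : X} (h : md a b P = 0) (i : Fin 3) : mg a b Fa Fb i P = 0 := by
  unfold mg
  rw [h, div_zero]

end EG2_

open EG2_ in
theorem p_EG2 (hEQE : T_EQE) (hSYM : T_SYM) (hMOD : T_MOD) (hEQX : T_EQX) (hUNQ : T_UNQ)
    (hVSM : T_VSM) (hALG : T_ALG) : T_EG2 := by
  intro B R Ω a b v₁ Fa Fb F V T hE
  have hpd := hE.pd
  have hnx := nx hpd
  obtain ⟨hpl, hae⟩ := (hEQE B R Ω a b v₁ Fa Fb F V T hE.Bpos hpd hE.star hE.rd).2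
    (by rw [hE.eq, hE.nrm, mul_one])
  obtain ⟨x1, x2, x3, x4, x5⟩ := hEQX R (md a b) hnx
  obtain ⟨w1, w2, w3, w4, w5, w6⟩ := hVSM R (md a b) hnx
  obtain ⟨u1, u2, u3, u4, u5, u6⟩ := hVSM R (vs (md a b)) w1
  have hH : H1 e3 Ω (md a b) (mg a b Fa Fb) :=
    hMOD X (Fin 3) e3 Ω a b Fa Fb hpd.isOpen hpd.ha hpd.hb
  obtain ⟨G, hG1, hG2, hG3, hG4⟩ := hSYM Ω R (md a b) (mg a b Fa Fb) hpd.isOpen hpd.bdd hH hnx
  set f := md a b with hf
  set v := vs f with hv
  have hplv : volume (pl v) = 0 := by rw [← x3, hpl]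
  have aef : ∀ᵐ P : X, P ∉ pl f := measure_eq_zero_iff_ae_notMem.1 hpl
  have aev : ∀ᵐ P : X, P ∉ pl v := measure_eq_zero_iff_ae_notMem.1 hplv
  -- reduction of integrals to the good sets
  have red : ∀ (g : X → ℝ) (φ : X → ℝ≥0∞), Measurable g → MeasurableSet (pl g) →
      (∀ᵐ P : X, P ∉ pl g) → (∀ P, 0 ≤ g P) → (∀ P, g P = 0 → φ P = 0) →
      ∫⁻ P in {P : X | 0 < g P ∧ P ∉ pl g}, φ P = ∫⁻ P, φ P := by
    intro g φ hg hpg hae hnn h0
    have hs : MeasurableSet {P : X | 0 < g P ∧ P ∉ pl g} :=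
      (measurableSet_lt measurable_const hg).inter hpg.compl
    rw [← lintegral_indicator hs]
    refine lintegral_congr_ae ?_
    filter_upwards [hae] with P hP
    by_cases h : 0 < g P
    · rw [Set.indicator_of_mem (show P ∈ {P : X | 0 < g P ∧ P ∉ pl g} from ⟨h, hP⟩)]
    · rw [Set.indicator_of_notMem (fun hh => h hh.1), h0 P (le_antisymm (not_lt.1 h) (hnn P))]
  -- the potential term
  have hpot : ∫⁻ P : X, ENNReal.ofReal (VV B P * v P ^ 2) =
      ∫⁻ P : X, ENNReal.ofReal ((B / 2 * rk f P * f P) ^ 2) := by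
    have hΞ : Measurable fun p : ℝ × ℝ × ℝ => ENNReal.ofReal ((B / 2 * p.1 * p.2.2) ^ 2) :=
      (((measurable_const.mul measurable_fst).mul
        (measurable_snd.comp measurable_snd)).pow_const 2).ennreal_ofReal
    have h := x2 _ hΞ
    have h1 := red f (fun P => ENNReal.ofReal ((B / 2 * rk f P * f P) ^ 2)) hnx.m w3 aef hnx.nn
      (fun P hP => by simp [hP])
    have h2 := red v (fun P => ENNReal.ofReal ((B / 2 * ‖P.1‖ * v P) ^ 2)) w1.m u3 aev w1.nn
      (fun P hP => by simp [hP])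
    rw [← h1]
    refine Eq.trans ?_ h.symm
    rw [h2]
    refine lintegral_congr fun P => ?_
    unfold VV
    congr 1
    ring
  -- the norm
  have hnorm : ∫ P, v P ^ 2 = ∫ P, f P ^ 2 := by
    have hΞ : Measurable fun p : ℝ × ℝ => ENNReal.ofReal (p.2 ^ 2) :=
      (measurable_snd.pow_const 2).ennreal_ofReal
    have h := x1 _ hΞ (fun z => by simp)
    rw [integral_eq_lintegral_of_nonneg_ae (Eventually.of_forall fun P => sq_nonneg _)
      (w1.m.pow_const 2).aestronglyMeasurable,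
      integral_eq_lintegral_of_nonneg_ae (Eventually.of_forall fun P => sq_nonneg _)
      (hnx.m.pow_const 2).aestronglyMeasurable]
    exact congrArg ENNReal.toReal h
  have hnorm1 : ∫ P, v P ^ 2 = 1 := by
    rw [hnorm, ← hE.nrm]
    exact integral_congr_ae (Eventually.of_forall fun P => md_sq P)
  -- integrability
  have vL : MemLp v 2 volume := hG1.memLp
  have iG : ∀ i, Integrable fun P => G i P ^ 2 := fun i => (hG1.memLp' i).integrable_sq
  have img : ∀ i, Integrable fun P => mg a b Fa Fb i P ^ 2 := fun i => (hH.memLp' i).integrable_sq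
  have iem : ∀ i, Integrable (em B a b Fa Fb i) :=
    INT_.em_int hpd.ha.memLp hpd.hb.memLp hpd.ha.memLp' hpd.hb.memLp'
      (fun P hP => (z_out hpd hP).1) (fun P hP => (z_out hpd hP).2.1)
  have iVm : MemLp (fun P : X => B / 2 * ‖P.1‖ * v P) 2 volume := by
    refine MemLp.of_le_mul (c := |B / 2| * |R|) vL ?_ ?_
    · exact ((measurable_const.mul measurable_fst.norm).mul w1.m).aestronglyMeasurable
    · refine Eventually.of_forall fun P => ?_
      by_cases hP : R ≤ ‖P‖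
      · rw [w1.z P hP]
        simp
      · push Not at hP
        rw [norm_mul, norm_mul, Real.norm_eq_abs, norm_norm]
        refine mul_le_mul_of_nonneg_right (mul_le_mul_of_nonneg_left ?_ (abs_nonneg _))
          (norm_nonneg _)
        exact (norm_fst_le P).trans (hP.le.trans (le_abs_self R))
  have eV : (fun P : X => VV B P * v P ^ 2) = fun P => (B / 2 * ‖P.1‖ * v P) ^ 2 := by
    funext P
    unfold VV
    ring
  have iV : Integrable fun P : X => VV B P * v P ^ 2 := by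
    rw [eV]
    exact iVm.integrable_sq
  have mh : Measurable fun P : X => (B / 2 * rk f P * f P) ^ 2 :=
    ((measurable_const.mul w2).mul hnx.m).pow_const 2
  have ih : Integrable fun P : X => (B / 2 * rk f P * f P) ^ 2 := by
    refine ⟨mh.aestronglyMeasurable, ?_⟩
    rw [hasFiniteIntegral_iff_ofReal (Eventually.of_forall fun P => sq_nonneg _), ← hpot]
    have := iV.2
    rwa [hasFiniteIntegral_iff_ofReal (Eventually.of_forall fun P => by
      unfold VV
      positivity)] at this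
  have hpotR : ∫ P : X, VV B P * v P ^ 2 = ∫ P : X, (B / 2 * rk f P * f P) ^ 2 := by
    rw [integral_eq_lintegral_of_nonneg_ae (Eventually.of_forall fun P => by
        unfold VV
        positivity) iV.1,
      integral_eq_lintegral_of_nonneg_ae (Eventually.of_forall fun P => sq_nonneg _) ih.1, hpot]
  -- the energy of the symmetrization
  have hER : ER B v G ≤ lamR B (Ost Ω) * ∫ P, v P ^ 2 := by
    rw [hnorm1, mul_one, ← hE.eq]
    have s1 : ER B v G = (∫ P, (G 0 P ^ 2 + G 1 P ^ 2)) + (∫ P, G 2 P ^ 2) +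
        ∫ P : X, VV B P * v P ^ 2 := by
      have iG01 : Integrable fun P => G 0 P ^ 2 + G 1 P ^ 2 := (iG 0).add (iG 1)
      rw [← integral_add iG01 (iG 2)]
      have iG012 : Integrable fun P => G 0 P ^ 2 + G 1 P ^ 2 + G 2 P ^ 2 := iG01.add (iG 2)
      rw [← integral_add iG012 iV]
      unfold ER
      refine integral_congr_ae (Eventually.of_forall fun P => ?_)
      simp only [Fin.sum_univ_three]
    have s2 : EM B a b Fa Fb = ∫ P, (em B a b Fa Fb 0 P + em B a b Fa Fb 1 P +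
        em B a b Fa Fb 2 P) := by
      unfold EM
      refine integral_congr_ae (Eventually.of_forall fun P => ?_)
      simp only [Fin.sum_univ_three]
    have im01 : Integrable fun P => mg a b Fa Fb 0 P ^ 2 + mg a b Fa Fb 1 P ^ 2 :=
      (img 0).add (img 1)
    have im012 : Integrable fun P => mg a b Fa Fb 0 P ^ 2 + mg a b Fa Fb 1 P ^ 2 +
      mg a b Fa Fb 2 P ^ 2 := im01.add (img 2)
    have s3 : (∫ P, (mg a b Fa Fb 0 P ^ 2 + mg a b Fa Fb 1 P ^ 2)) +
        (∫ P, mg a b Fa Fb 2 P ^ 2) + ∫ P : X, (B / 2 * rk f P * f P) ^ 2 ≤ EM B a b Fa Fb := by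
      rw [← integral_add im01 (img 2), ← integral_add im012 ih, s2]
      refine integral_mono_ae (im012.add ih) (((iem 0).add (iem 1)).add (iem 2)) ?_
      filter_upwards [hae] with P hP
      rcases (hnx.nn P).eq_or_lt with h | h
      · have h0 : md a b P = 0 := h.symm
        simp only [mg_zero h0]
        have h0' : f P = 0 := h0
        rw [h0']
        have := em_nn (B := B) (a := a) (b := b) (Fa := Fa) (Fb := Fb)
        nlinarith [this 0 P, this 1 P, this 2 P]
      · obtain ⟨-, -, -, q4, -, -⟩ := hP h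
        have k1 := hor (B := B) (Fa := Fa) (Fb := Fb) hALG h
        have k2 := ver (B := B) (a := a) (b := b) (Fa := Fa) (Fb := Fb) P
        rw [q4] at k1
        have k3 : (B / 2 * rk (md a b) P * md a b P) ^ 2 = (B / 2 * rk f P * f P) ^ 2 := rfl
        linarith
    rw [s1, hpotR]
    linarith
  obtain ⟨hvv, -⟩ := hUNQ B (Ost Ω) v₁ v F G hE.star hE.rd.gs hG1
    (Eventually.of_forall w1.nn) hnorm1 hER
  refine ⟨?_, ?_⟩
  · filter_upwards [hvv] with P hP
    exact hP.symm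
  · -- transfer of the identity `V = v₁`
    have hset : MeasurableSet {p : ℝ × ℝ × ℝ | V p.1 p.2.1 ≠ p.2.2} := by
      have h1 : Measurable fun p : ℝ × ℝ × ℝ => V p.1 p.2.1 :=
        hE.rd.mV.comp (measurable_fst.prodMk (measurable_fst.comp measurable_snd))
      exact (measurableSet_eq_fun h1 (measurable_snd.comp measurable_snd)).compl
    have hΞ : Measurable ({p : ℝ × ℝ × ℝ | V p.1 p.2.1 ≠ p.2.2}.indicator
        fun _ => (1 : ℝ≥0∞)) := measurable_const.indicator hset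
    have h := x2 _ hΞ
    have h2 : ∫⁻ P in {P : X | 0 < vs f P ∧ P ∉ pl (vs f)},
        ({p : ℝ × ℝ × ℝ | V p.1 p.2.1 ≠ p.2.2}.indicator fun _ => (1 : ℝ≥0∞))
          (‖P.1‖, P.2, vs f P) = 0 := by
      rw [← lintegral_zero (μ := volume.restrict {P : X | 0 < vs f P ∧ P ∉ pl (vs f)})]
      refine lintegral_congr_ae (ae_restrict_of_ae ?_)
      filter_upwards [hvv] with P hP
      have h3 : V ‖P.1‖ P.2 = vs f P := by rw [← hE.rd.veq P, hP]
      have h4 : ((‖P.1‖, P.2, vs f P) : ℝ × ℝ × ℝ) ∉ {p : ℝ × ℝ × ℝ | V p.1 p.2.1 ≠ p.2.2} :=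
        fun hh => hh h3
      rw [Set.indicator_of_notMem h4]
    rw [h2] at h
    have hs : MeasurableSet {P : X | 0 < f P ∧ P ∉ pl f} :=
      (measurableSet_lt measurable_const hnx.m).inter w3.compl
    have hm : Measurable fun P : X => ({p : ℝ × ℝ × ℝ | V p.1 p.2.1 ≠ p.2.2}.indicator
        fun _ => (1 : ℝ≥0∞)) (rk f P, P.2, f P) :=
      hΞ.comp (w2.prodMk (measurable_snd.prodMk hnx.m))
    rw [lintegral_eq_zero_iff hm] at h
    have h5 := (ae_restrict_iff' hs).1 h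
    filter_upwards [h5, aef, hae] with P h6 h7 h8 h9
    have h10 := h6 ⟨h9, h7⟩
    have h11 : V (rk f P) P.2 = f P := by
      by_contra hne
      have h12 : ((rk f P, P.2, f P) : ℝ × ℝ × ℝ) ∈ {p : ℝ × ℝ × ℝ | V p.1 p.2.1 ≠ p.2.2} := hne
      rw [Set.indicator_of_mem h12] at h10
      exact one_ne_zero h10
    refine ⟨h11, ?_⟩
    obtain ⟨q1, -, q3, -, -, -⟩ := h8 h9
    have h13 : V (rk (md a b) P) P.2 = md a b P := h11
    have h14 : md a b P ≠ 0 := h9.ne'
    rw [q3, h13, div_mul_cancel₀ _ h14]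

end MGS
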