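import Pool.Agent.MGS.TA

/-!
# MGS: proof of LBG
-/

set_option autoImplicit false

open MeasureTheory Filter Topology Metric Set
open scoped ENNReal NNReal ContDiff

noncomputable section

namespace MGS.LBG_

open MGS

/-- the integral of the square is continuous for `L²` convergence -/
theorem sq_tendsto {u : ℕ → X → ℝ} {w : X → ℝ} (hu : ∀ n, MemLp (u n) 2 volume)
    (hw : MemLp w 2 volume)
    (h : Tendsto (fun n => eLpNorm (fun P => u n P - w P) 2 volume) atTop (𝓝 0)) :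
    Tendsto (fun n => ∫ P, u n P ^ 2) atTop (𝓝 (∫ P, w P ^ 2)) := by
  have key : ∀ (g : X → ℝ) (hg : MemLp g 2 volume),
      ∫ P, g P ^ 2 = inner ℝ (hg.toLp g) (hg.toLp g) := by
    intro g hg
    rw [L2.inner_def]
    refine integral_congr_ae ?_
    filter_upwards [hg.coeFn_toLp] with P hP
    rw [hP]
    simp [sq]
  have h1 : Tendsto (fun n => (hu n).toLp (u n)) atTop (𝓝 (hw.toLp w)) :=
    (Lp.tendsto_Lp_iff_tendsto_eLpNorm'' u hu w hw).2 h
  rw [key w hw]
  have h2 := h1.inner h1 (𝕜 := ℝ)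
  refine h2.congr fun n => ?_
  rw [key (u n) (hu n)]

/-- multiplication with a bounded weight -/
theorem mul_memLp {w u : X → ℝ} {C : ℝ} (hw : Measurable w) (hC : ∀ P, |w P| ≤ C)
    (hu : MemLp u 2 volume) : MemLp (fun P => w P * u P) 2 volume := by
  refine MemLp.of_le_mul (c := C) hu (hw.aestronglyMeasurable.mul hu.1) ?_
  refine Eventually.of_forall fun P => ?_
  rw [norm_mul]
  exact mul_le_mul_of_nonneg_right (hC P) (norm_nonneg _)

theorem mul_tendsto {w : X → ℝ} {C : ℝ} (hw : Measurable w) (hC : ∀ P, |w P| ≤ C)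
    {b : ℕ → X → ℝ} {b0 : X → ℝ} {f : ℕ → X → ℝ} {f0 : X → ℝ}
    (hf : ∀ n, MemLp (f n) 2 volume) (hf0 : MemLp f0 2 volume)
    (hb : ∀ n, MemLp (b n) 2 volume) (hb0 : MemLp b0 2 volume)
    (tf : Tendsto (fun n => eLpNorm (fun P => f n P - f0 P) 2 volume) atTop (𝓝 0))
    (tb : Tendsto (fun n => eLpNorm (fun P => b n P - b0 P) 2 volume) atTop (𝓝 0)) :
    Tendsto (fun n => ∫ P, (f n P + w P * b n P) ^ 2) atTop
      (𝓝 (∫ P, (f0 P + w P * b0 P) ^ 2)) := by
  refine sq_tendsto (fun n => (hf n).add (mul_memLp hw hC (hb n)))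
    (hf0.add (mul_memLp hw hC hb0)) ?_
  have h1 : ∀ n, eLpNorm (fun P => (f n P + w P * b n P) - (f0 P + w P * b0 P)) 2 volume ≤
      eLpNorm (fun P => f n P - f0 P) 2 volume +
        ENNReal.ofReal C * eLpNorm (fun P => b n P - b0 P) 2 volume := by
    intro n
    have e1 : (fun P => (f n P + w P * b n P) - (f0 P + w P * b0 P)) =
        (fun P => f n P - f0 P) + fun P => w P * (b n P - b0 P) := by
      funext P
      simp only [Pi.add_apply]
      ring
    rw [e1]
    refine (eLpNorm_add_le ((hf n).sub hf0).1 (mul_memLp hw hC ((hb n).sub hb0)).1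
      (by norm_num)).trans ?_
    refine add_le_add le_rfl ?_
    refine eLpNorm_le_mul_eLpNorm_of_ae_le_mul (Eventually.of_forall fun P => ?_) 2
    rw [norm_mul]
    exact mul_le_mul_of_nonneg_right (hC P) (norm_nonneg _)
  have h2 : Tendsto (fun n => eLpNorm (fun P => f n P - f0 P) 2 volume +
        ENNReal.ofReal C * eLpNorm (fun P => b n P - b0 P) 2 volume) atTop (𝓝 0) := by
    have h3 := tf.add (ENNReal.Tendsto.const_mul (a := ENNReal.ofReal C) tb
      (Or.inr ENNReal.ofReal_ne_top))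
    simpa using h3
  exact tendsto_of_tendsto_of_tendsto_of_le_of_le tendsto_const_nhds h2 (fun _ => zero_le) h1

/-- splitting the energy -/
theorem EG_eq {A w : Fin 3 → X → ℝ} {V v : X → ℝ} {G : Set X} {C : ℝ}
    (hV : ∀ P, 0 ≤ V P)
    (hw : ∀ i, Measurable (w i)) (hwC : ∀ i P, |w i P| ≤ C) (hv : Measurable v)
    (hvC : ∀ P, |v P| ≤ C) (hwA : ∀ i, ∀ P ∈ G, w i P = A i P)
    (hvV : ∀ P ∈ G, v P = Real.sqrt (V P))
    {a b : X → ℝ} {Fa Fb : Fin 3 → X → ℝ} (ha : MemLp a 2 volume) (hb : MemLp b 2 volume)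
    (hFa : ∀ i, MemLp (Fa i) 2 volume) (hFb : ∀ i, MemLp (Fb i) 2 volume)
    (za : ∀ᵐ P, P ∉ G → a P = 0) (zb : ∀ᵐ P, P ∉ G → b P = 0) :
    EG A V a b Fa Fb = ∑ i, ((∫ P, (Fa i P + (-w i P) * b P) ^ 2) +
      (∫ P, (Fb i P + w i P * a P) ^ 2)) +
      ((∫ P, (0 + v P * a P) ^ 2) + (∫ P, (0 + v P * b P) ^ 2)) := by
  have i1 : ∀ i, Integrable (fun P => (Fa i P + (-w i P) * b P) ^ 2) volume := fun i =>
    ((hFa i).add (mul_memLp (w := fun P => -w i P) (C := C) (hw i).neg
      (fun P => by rw [abs_neg]; exact hwC i P) hb)).integrable_sq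
  have i2 : ∀ i, Integrable (fun P => (Fb i P + w i P * a P) ^ 2) volume := fun i =>
    ((hFb i).add (mul_memLp (hw i) (hwC i) ha)).integrable_sq
  have i3 : Integrable (fun P => (0 + v P * a P) ^ 2) volume := by
    simp only [zero_add]
    exact (mul_memLp hv hvC ha).integrable_sq
  have i4 : Integrable (fun P => (0 + v P * b P) ^ 2) volume := by
    simp only [zero_add]
    exact (mul_memLp hv hvC hb).integrable_sq
  have e1 : EG A V a b Fa Fb = ∫ P, (∑ i, ((Fa i P + (-w i P) * b P) ^ 2 +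
      (Fb i P + w i P * a P) ^ 2) + ((0 + v P * a P) ^ 2 + (0 + v P * b P) ^ 2)) := by
    unfold EG
    refine integral_congr_ae ?_
    filter_upwards [za, zb] with P h1 h2
    by_cases hP : P ∈ G
    · simp only [hwA _ P hP, hvV P hP, zero_add, mul_pow, Real.sq_sqrt (hV P)]
      have : ∀ i, (Fa i P - A i P * b P) ^ 2 = (Fa i P + -A i P * b P) ^ 2 := fun i => by ring
      simp only [this]
      ring
    · simp [h1 hP, h2 hP]
  have i12 : ∀ i, Integrable (fun P => (Fa i P + (-w i P) * b P) ^ 2 +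
      (Fb i P + w i P * a P) ^ 2) volume := fun i => (i1 i).add (i2 i)
  have i34 : Integrable (fun P => (0 + v P * a P) ^ 2 + (0 + v P * b P) ^ 2) volume :=
    i3.add i4
  have is : Integrable (fun P => ∑ i, ((Fa i P + (-w i P) * b P) ^ 2 +
      (Fb i P + w i P * a P) ^ 2)) volume := integrable_finsetSum _ fun i _ => i12 i
  rw [e1, integral_add is i34, integral_finsetSum _ fun i _ => i12 i, integral_add i3 i4]
  congr 1
  refine Finset.sum_congr rfl fun i _ => ?_
  rw [integral_add (i1 i) (i2 i)]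

theorem EG_nonneg {A : Fin 3 → X → ℝ} {V : X → ℝ} (hV : ∀ P, 0 ≤ V P)
    (a b : X → ℝ) (Fa Fb : Fin 3 → X → ℝ) : 0 ≤ EG A V a b Fa Fb := by
  unfold EG
  refine integral_nonneg fun P => ?_
  have := hV P
  positivity

/-- the inequality for test functions -/
theorem test_le {A : Fin 3 → X → ℝ} {V : X → ℝ} {G : Set X} (hV : ∀ P, 0 ≤ V P)
    {φ ψ : X → ℝ} (hφ : Test G φ) (hψ : Test G ψ) :
    lamG A V G * ∫ P, (φ P ^ 2 + ψ P ^ 2) ≤
      EG A V φ ψ (fun i => pd e3 i φ) (fun i => pd e3 i ψ) := by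
  set N : ℝ := ∫ P, (φ P ^ 2 + ψ P ^ 2) with hN
  have hN0 : 0 ≤ N := integral_nonneg fun P => by positivity
  rcases hN0.eq_or_lt with h0 | hpos
  · rw [← h0, mul_zero]
    exact EG_nonneg hV _ _ _ _
  · set c : ℝ := (Real.sqrt N)⁻¹ with hc
    have hc2 : c ^ 2 = N⁻¹ := by
      rw [hc, inv_pow, Real.sq_sqrt hN0]
    have hmem : EG A V (fun P => c * φ P) (fun P => c * ψ P) (fun i => pd e3 i fun P => c * φ P)
        (fun i => pd e3 i fun P => c * ψ P) ∈ {r | ∃ φ ψ : X → ℝ, Test G φ ∧ Test G ψ ∧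
        ∫ P, (φ P ^ 2 + ψ P ^ 2) = 1 ∧
        EG A V φ ψ (fun i => pd e3 i φ) (fun i => pd e3 i ψ) = r} := by
      refine ⟨_, _, hφ.smul c, hψ.smul c, ?_, rfl⟩
      have e1 : (fun P => (c * φ P) ^ 2 + (c * ψ P) ^ 2) =
          fun P => c ^ 2 * (φ P ^ 2 + ψ P ^ 2) := by
        funext P
        ring
      rw [e1, integral_const_mul, ← hN, hc2, inv_mul_cancel₀ hpos.ne']
    have hle : lamG A V G ≤ EG A V (fun P => c * φ P) (fun P => c * ψ P)
        (fun i => pd e3 i fun P => c * φ P) (fun i => pd e3 i fun P => c * ψ P) := by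
      refine csInf_le ⟨0, ?_⟩ hmem
      rintro r ⟨φ', ψ', -, -, -, rfl⟩
      exact EG_nonneg hV _ _ _ _
    have e2 : EG A V (fun P => c * φ P) (fun P => c * ψ P)
        (fun i => pd e3 i fun P => c * φ P) (fun i => pd e3 i fun P => c * ψ P) =
        c ^ 2 * EG A V φ ψ (fun i => pd e3 i φ) (fun i => pd e3 i ψ) := by
      unfold EG
      rw [← integral_const_mul]
      refine integral_congr_ae (Eventually.of_forall fun P => ?_)
      simp only [pd_smul hφ, pd_smul hψ, mul_add, Finset.mul_sum]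
      congr 1
      · refine Finset.sum_congr rfl fun i _ => ?_
        ring
      · ring
    rw [e2, hc2] at hle
    calc lamG A V G * N ≤ (N⁻¹ * EG A V φ ψ (fun i => pd e3 i φ) (fun i => pd e3 i ψ)) * N :=
          mul_le_mul_of_nonneg_right hle hN0
      _ = EG A V φ ψ (fun i => pd e3 i φ) (fun i => pd e3 i ψ) := by
          field_simp

end MGS.LBG_

namespace MGS

open LBG_

theorem p_LBG (h_ZRO : T_ZRO) : T_LBG := by
  intro A V G hA hVc hV hG hbd a b Fa Fb ha hb
  have hcpt : IsCompact (closure G) := hbd.isCompact_closure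
  have hex : ∀ f : X → ℝ, Continuous f → ∃ C, ∀ P ∈ G, |f P| ≤ C := by
    intro f hf
    obtain ⟨C, hC⟩ := hcpt.exists_bound_of_continuousOn hf.continuousOn
    exact ⟨C, fun P hP => hC P (subset_closure hP)⟩
  choose CA hCA using fun i => hex (A i) (hA i)
  obtain ⟨CV, hCV⟩ := hex (fun P => Real.sqrt (V P)) (Real.continuous_sqrt.comp hVc)
  set C : ℝ := (∑ i, |CA i|) + |CV| with hCdef
  have hCi : ∀ i, CA i ≤ C := fun i =>
    (le_abs_self _).trans ((Finset.single_le_sum (f := fun i => |CA i|)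
      (fun j _ => abs_nonneg _) (Finset.mem_univ i)).trans (le_add_of_nonneg_right (abs_nonneg _)))
  have hCv : CV ≤ C := (le_abs_self _).trans
    (le_add_of_nonneg_left (Finset.sum_nonneg fun j _ => abs_nonneg _))
  have hC0 : 0 ≤ C := add_nonneg (Finset.sum_nonneg fun j _ => abs_nonneg _) (abs_nonneg _)
  set w : Fin 3 → X → ℝ := fun i => G.indicator (A i) with hw
  set v : X → ℝ := G.indicator fun P => Real.sqrt (V P) with hv
  have mw : ∀ i, Measurable (w i) := fun i => (hA i).measurable.indicator hG.measurableSet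
  have mv : Measurable v :=
    (Real.continuous_sqrt.comp hVc).measurable.indicator hG.measurableSet
  have bw : ∀ i P, |w i P| ≤ C := by
    intro i P
    by_cases hP : P ∈ G
    · simp only [hw, Set.indicator_of_mem hP]
      exact (hCA i P hP).trans (hCi i)
    · simp only [hw, Set.indicator_of_notMem hP, abs_zero]
      exact hC0
  have bv : ∀ P, |v P| ≤ C := by
    intro P
    by_cases hP : P ∈ G
    · simp only [hv, Set.indicator_of_mem hP]
      exact (hCV P hP).trans hCv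
    · simp only [hv, Set.indicator_of_notMem hP, abs_zero]
      exact hC0
  have hwA : ∀ i, ∀ P ∈ G, w i P = A i P := fun i P hP => by
    simp only [hw, Set.indicator_of_mem hP]
  have hvV : ∀ P ∈ G, v P = Real.sqrt (V P) := fun P hP => by
    simp only [hv, Set.indicator_of_mem hP]
  obtain ⟨φ, tφ, cφ, dφ, -, -⟩ := ha.seq
  obtain ⟨ψ, tψ, cψ, dψ, -, -⟩ := hb.seq
  have zt : ∀ {θ : X → ℝ}, Test G θ → ∀ᵐ P, P ∉ G → θ P = 0 := fun hθ =>
    Eventually.of_forall fun P hP => image_eq_zero_of_notMem_tsupport fun h => hP (hθ.sub h)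
  have za : ∀ᵐ P, P ∉ G → a P = 0 := by
    filter_upwards [h_ZRO X (Fin 3) e3 G a Fa ha] with P hP h
    exact (hP h).1
  have zb : ∀ᵐ P, P ∉ G → b P = 0 := by
    filter_upwards [h_ZRO X (Fin 3) e3 G b Fb hb] with P hP h
    exact (hP h).1
  have hE : Tendsto (fun n => EG A V (φ n) (ψ n) (fun i => pd e3 i (φ n))
      (fun i => pd e3 i (ψ n))) atTop (𝓝 (EG A V a b Fa Fb)) := by
    rw [EG_eq hV mw bw mv bv hwA hvV ha.memLp hb.memLp ha.memLp' hb.memLp' za zb]
    have hz0 : MemLp (fun _ : X => (0 : ℝ)) 2 volume := MemLp.zero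
    have hzt : Tendsto (fun n : ℕ => eLpNorm (fun P : X => (fun _ : X => (0 : ℝ)) P -
        (fun _ : X => (0 : ℝ)) P) 2 volume) atTop (𝓝 0) := by
      simp
    have t1 : ∀ i, Tendsto (fun n => ∫ P, (pd e3 i (φ n) P + (-w i P) * ψ n P) ^ 2) atTop
        (𝓝 (∫ P, (Fa i P + (-w i P) * b P) ^ 2)) := fun i =>
      mul_tendsto (w := fun P => -w i P) (C := C) (mw i).neg
        (fun P => by rw [abs_neg]; exact bw i P) (fun n => (tφ n).memLp_pd i) (ha.memLp' i)
        (fun n => (tψ n).memLp) hb.memLp (dφ i) cψ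
    have t2 : ∀ i, Tendsto (fun n => ∫ P, (pd e3 i (ψ n) P + w i P * φ n P) ^ 2) atTop
        (𝓝 (∫ P, (Fb i P + w i P * a P) ^ 2)) := fun i =>
      mul_tendsto (mw i) (bw i) (fun n => (tψ n).memLp_pd i) (hb.memLp' i)
        (fun n => (tφ n).memLp) ha.memLp (dψ i) cφ
    have t3 : Tendsto (fun n => ∫ P, (0 + v P * φ n P) ^ 2) atTop
        (𝓝 (∫ P, (0 + v P * a P) ^ 2)) :=
      mul_tendsto (f := fun _ _ => 0) (f0 := fun _ => 0) mv bv (fun n => hz0) hz0
        (fun n => (tφ n).memLp) ha.memLp hzt cφ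
    have t4 : Tendsto (fun n => ∫ P, (0 + v P * ψ n P) ^ 2) atTop
        (𝓝 (∫ P, (0 + v P * b P) ^ 2)) :=
      mul_tendsto (f := fun _ _ => 0) (f0 := fun _ => 0) mv bv (fun n => hz0) hz0
        (fun n => (tψ n).memLp) hb.memLp hzt cψ
    have t5 := (tendsto_finsetSum Finset.univ fun i _ => (t1 i).add (t2 i)).add (t3.add t4)
    refine t5.congr fun n => ?_
    rw [EG_eq hV mw bw mv bv hwA hvV (tφ n).memLp (tψ n).memLp (fun i => (tφ n).memLp_pd i)
      (fun i => (tψ n).memLp_pd i) (zt (tφ n)) (zt (tψ n))]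
  have hN : Tendsto (fun n => ∫ P, (φ n P ^ 2 + ψ n P ^ 2)) atTop
      (𝓝 (∫ P, (a P ^ 2 + b P ^ 2))) := by
    rw [integral_add ha.memLp.integrable_sq hb.memLp.integrable_sq]
    have t5 := (sq_tendsto (fun n => (tφ n).memLp) ha.memLp cφ).add
      (sq_tendsto (fun n => (tψ n).memLp) hb.memLp cψ)
    refine t5.congr fun n => ?_
    rw [integral_add (tφ n).memLp.integrable_sq (tψ n).memLp.integrable_sq]
  exact le_of_tendsto_of_tendsto' (hN.const_mul _) hE fun n => test_le hV (tφ n) (tψ n)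

end MGS
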