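import Pool.Agent.MGS.TB
import Pool.Agent.MGS.P_LBG

/-!
# MGS, target EQC

Integrability of the integrands of the forms, and the lower bound of `Adm` on `H¹₀(G)`.
-/

set_option autoImplicit false

open MeasureTheory Filter Topology Metric Set
open scoped ENNReal NNReal ContDiff

noncomputable section

namespace MGS.EQC_

open MGS LBG_

/-- splitting the energy -/
theorem EQ_split {q v : X → ℝ} {K : Set X} {C : ℝ} (hq : ∀ P, 0 ≤ q P) (hv : Measurable v)
    (hvC : ∀ P, |v P| ≤ C) (hvq : ∀ P ∈ K, v P = Real.sqrt (q P)) {f : X → ℝ}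
    {F : Fin 3 → X → ℝ} (hf : MemLp f 2 volume) (hF : ∀ i, MemLp (F i) 2 volume)
    (z : ∀ᵐ P, P ∉ K → f P = 0) :
    EQ q f F = (∑ i, ∫ P, F i P ^ 2) + ∫ P, (0 + v P * f P) ^ 2 := by
  have i1 : ∀ i, Integrable (fun P => F i P ^ 2) volume := fun i => (hF i).integrable_sq
  have i3 : Integrable (fun P => (0 + v P * f P) ^ 2) volume := by
    simp only [zero_add]
    exact (mul_memLp hv hvC hf).integrable_sq
  have e1 : EQ q f F = ∫ P, (∑ i, F i P ^ 2 + (0 + v P * f P) ^ 2) := by
    unfold EQ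
    refine integral_congr_ae ?_
    filter_upwards [z] with P h1
    by_cases hP : P ∈ K
    · simp only [hvq P hP, zero_add, mul_pow, Real.sq_sqrt (hq P)]
    · simp [h1 hP]
  rw [e1, integral_add (integrable_finsetSum _ fun i _ => i1 i) i3,
    integral_finsetSum _ fun i _ => i1 i]

end MGS.EQC_

namespace MGS

open LBG_ EQC_

theorem p_EQC (h_ZRO : T_ZRO) : T_EQC := by
  intro q G f F hf hq hbd
  obtain ⟨R, hR⟩ := hbd.subset_closedBall (0 : X)
  have hcpt : IsCompact (closedBall (0 : X) R) := isCompact_closedBall _ _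
  have hmeas : MeasurableSet (closedBall (0 : X) R) := isClosed_closedBall.measurableSet
  have hex : ∀ f : X → ℝ, Continuous f → ∃ C, 0 ≤ C ∧
      ∀ P, |(closedBall (0 : X) R).indicator f P| ≤ C := by
    intro f hf
    obtain ⟨C, hC⟩ := hcpt.exists_bound_of_continuousOn hf.continuousOn
    refine ⟨|C|, abs_nonneg _, fun P => ?_⟩
    by_cases hP : P ∈ closedBall (0 : X) R
    · rw [Set.indicator_of_mem hP]
      exact (hC P hP).trans (le_abs_self _)
    · rw [Set.indicator_of_notMem hP, abs_zero]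
      exact abs_nonneg _
  have zH : ∀ {g : X → ℝ} {Γ : Fin 3 → X → ℝ}, H1 e3 G g Γ →
      ∀ᵐ P, P ∉ closedBall (0 : X) R → g P = 0 := by
    intro g Γ hg
    filter_upwards [h_ZRO X (Fin 3) e3 G g Γ hg] with P hP h
    exact (hP fun hPG => h (hR hPG)).1
  refine ⟨fun g Γ hg => ⟨?_, ?_, fun i => ?_⟩, fun L hL => ?_⟩
  · exact hf.memLp.integrable_mul hg.memLp
  · obtain ⟨C, hC0, hC⟩ := hex q hq
    have h1 : Integrable (fun P => ((closedBall (0 : X) R).indicator q P * f P) * g P) volume :=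
      (mul_memLp (hq.measurable.indicator hmeas) hC hf.memLp).integrable_mul hg.memLp
    refine h1.congr ?_
    filter_upwards [zH hf] with P hP
    by_cases hPB : P ∈ closedBall (0 : X) R
    · simp only [Set.indicator_of_mem hPB]
      ring
    · simp [hP hPB]
  · exact (hf.memLp' i).integrable_mul (hg.memLp' i)
  · set v : X → ℝ := (closedBall (0 : X) R).indicator fun P => Real.sqrt (q P) with hv
    have hcs : Continuous fun P => Real.sqrt (q P) := Real.continuous_sqrt.comp hq
    obtain ⟨C, hC0, hC⟩ := hex (fun P => Real.sqrt (q P)) hcs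
    have mv : Measurable v := hcs.measurable.indicator hmeas
    have hvq : ∀ P ∈ closedBall (0 : X) R, v P = Real.sqrt (q P) := fun P hP => by
      simp only [hv, Set.indicator_of_mem hP]
    obtain ⟨φ, tφ, cφ, dφ, -, -⟩ := hf.seq
    have zt : ∀ n, ∀ᵐ P, P ∉ closedBall (0 : X) R → φ n P = 0 := fun n =>
      Eventually.of_forall fun P hP =>
        image_eq_zero_of_notMem_tsupport fun h => hP (hR ((tφ n).sub h))
    have hE : Tendsto (fun n => EQ q (φ n) (fun i => pd e3 i (φ n))) atTop
        (𝓝 (EQ q f F)) := by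
      rw [EQ_split hL.nn mv hC hvq hf.memLp hf.memLp' (zH hf)]
      have hz0 : MemLp (fun _ : X => (0 : ℝ)) 2 volume := MemLp.zero
      have hzt : Tendsto (fun n : ℕ => eLpNorm (fun P : X => (fun _ : X => (0 : ℝ)) P -
          (fun _ : X => (0 : ℝ)) P) 2 volume) atTop (𝓝 0) := by
        simp
      have t1 : ∀ i, Tendsto (fun n => ∫ P, pd e3 i (φ n) P ^ 2) atTop
          (𝓝 (∫ P, F i P ^ 2)) := fun i =>
        sq_tendsto (fun n => (tφ n).memLp_pd i) (hf.memLp' i) (dφ i)
      have t3 : Tendsto (fun n => ∫ P, (0 + v P * φ n P) ^ 2) atTop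
          (𝓝 (∫ P, (0 + v P * f P) ^ 2)) :=
        mul_tendsto (f := fun _ _ => 0) (f0 := fun _ => 0) mv hC (fun n => hz0) hz0
          (fun n => (tφ n).memLp) hf.memLp hzt cφ
      refine ((tendsto_finsetSum Finset.univ fun i _ => t1 i).add t3).congr fun n => ?_
      rw [EQ_split hL.nn mv hC hvq (tφ n).memLp (fun i => (tφ n).memLp_pd i) (zt n)]
    have hN := sq_tendsto (fun n => (tφ n).memLp) hf.memLp cφ
    exact le_of_tendsto_of_tendsto' (hN.const_mul L) hE fun n => hL.lb (φ n) (tφ n)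

end MGS
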