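import Pool.Agent.MGS.TE

/-!
# MGS: target TRC (the main inequality without boundedness)
-/

set_option autoImplicit false

open MeasureTheory Filter Topology Metric Set
open scoped ENNReal NNReal ContDiff

noncomputable section

namespace MGS

namespace TRC_

/-! ### Pointwise facts -/

lemma md_nn {E : Type} (a b : E → ℝ) (P : E) : 0 ≤ md a b P := Real.sqrt_nonneg _

lemma rr_nn (g : ℂ → ℝ) (t : ℝ) : 0 ≤ rr g t := Real.sSup_nonneg (fun _ hs => hs.1)

lemma Kq_mem {B : ℝ} (hB : 0 < B) {V T : ℝ → ℝ → ℝ} (hV : ∀ r z, 0 ≤ V r z)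
    (hT : ∀ r z, 0 ≤ T r z) (r z : ℝ) : 0 ≤ Kq B V T r z ∧ Kq B V T r z ≤ 1 := by
  unfold Kq
  refine ⟨le_min zero_le_one ?_, min_le_left _ _⟩
  have := hV r z
  have := hT r z
  positivity

lemma Qe_nn {ε : ℝ} (hε : 0 < ε) {V T : ℝ → ℝ → ℝ} (hV : ∀ r z, 0 ≤ V r z)
    (hT : ∀ r z, 0 ≤ T r z) (f : X → ℝ) (r z : ℝ) : 0 ≤ Qe ε V T f r z := by
  unfold Qe
  have := hV r z
  have := hT r z
  have := rr_nn (sl f z) |r|
  positivity

lemma plq_nn {B ε : ℝ} (hB : 0 < B) {V T : ℝ → ℝ → ℝ} (hV : ∀ r z, 0 ≤ V r z)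
    (hT : ∀ r z, 0 ≤ T r z) (f : X → ℝ) (P : X) : 0 ≤ plq B ε V T f P := by
  unfold plq
  obtain ⟨h0, h1⟩ := Kq_mem hB hV hT ‖P.1‖ P.2
  refine mul_nonneg ?_ (sq_nonneg _)
  nlinarith

lemma em_nn (B : ℝ) (a b : X → ℝ) (Fa Fb : Fin 3 → X → ℝ) (i : Fin 3) (P : X) :
    0 ≤ em B a b Fa Fb i P := by
  unfold em
  positivity

lemma eq2_eq (B : ℝ) (a b : X → ℝ) (Fa Fb : Fin 3 → X → ℝ) (P : X) :
    eq2 B (sl a P.2) (sl b P.2) (sl2 Fa P.2) (sl2 Fb P.2) P.1 =
      em B a b Fa Fb 0 P + em B a b Fa Fb 1 P := by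
  unfold eq2
  rw [Fin.sum_univ_two]
  rfl

lemma Y_le (h_ALG : T_ALG) {B : ℝ} (a b : X → ℝ) (Fa Fb : Fin 3 → X → ℝ) (κ Q : ℝ → ℝ → ℝ)
    (hκ : ∀ r z, 0 ≤ κ r z ∧ κ r z ≤ 1) (hQ : ∀ r z, 0 ≤ Q r z) (P : X) :
    Yx B a b Fa Fb κ Q P ≤ em B a b Fa Fb 0 P + em B a b Fa Fb 1 P := by
  unfold Yx Yc
  split_ifs with h
  · rw [← eq2_eq]
    exact ((h_ALG B (sl a P.2) (sl b P.2) (sl2 Fa P.2) (sl2 Fb P.2) P.1 h.1).2.2 _ _
      (hκ _ _).1 (hκ _ _).2 (hQ _ _)).1
  · exact add_nonneg (em_nn _ _ _ _ _ _ _) (em_nn _ _ _ _ _ _ _)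

lemma mg_le (B : ℝ) (a b : X → ℝ) (Fa Fb : Fin 3 → X → ℝ) (P : X) :
    mg a b Fa Fb 2 P ^ 2 ≤ em B a b Fa Fb 2 P := by
  have h2 : em B a b Fa Fb 2 P = Fa 2 P ^ 2 + Fb 2 P ^ 2 := by
    unfold em
    have : Ap B 2 P = 0 := rfl
    rw [this]
    ring
  rw [h2]
  unfold mg
  rcases eq_or_lt_of_le (md_nn a b P) with h | h
  · rw [← h, div_zero]
    have h0 : (0 : ℝ) ^ 2 = 0 := by ring
    rw [h0]
    positivity
  · rw [div_pow, div_le_iff₀ (by positivity)]
    have h3 : md a b P ^ 2 = a P ^ 2 + b P ^ 2 := Real.sq_sqrt (by positivity)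
    rw [h3]
    nlinarith [sq_nonneg (a P * Fb 2 P - b P * Fa 2 P)]

lemma Wc_congr {B : ℝ} {a b a' b' : ℂ → ℝ} {Fa Fb Fa' Fb' : Fin 2 → ℂ → ℝ} {x : ℂ}
    (ha : a' x = a x) (hb : b' x = b x) (hFa : ∀ i, Fa' i x = Fa i x)
    (hFb : ∀ i, Fb' i x = Fb i x) : Wc B a' b' Fa' Fb' x = Wc B a b Fa Fb x := by
  unfold Wc jc mg md
  simp only [ha, hb, hFa, hFb]

lemma gn_congr {a b a' b' : ℂ → ℝ} {Fa Fb Fa' Fb' : Fin 2 → ℂ → ℝ} {x : ℂ}
    (ha : a' x = a x) (hb : b' x = b x) (hFa : ∀ i, Fa' i x = Fa i x)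
    (hFb : ∀ i, Fb' i x = Fb i x) : gn (mg a' b' Fa' Fb') x = gn (mg a b Fa Fb) x := by
  unfold gn mg md
  simp only [ha, hb, hFa, hFb]

lemma em_congr {B : ℝ} {a b a' b' : X → ℝ} {Fa Fb Fa' Fb' : Fin 3 → X → ℝ} {P : X}
    (ha : a' P = a P) (hb : b' P = b P) (hFa : ∀ i, Fa' i P = Fa i P)
    (hFb : ∀ i, Fb' i P = Fb i P) (i : Fin 3) :
    em B a' b' Fa' Fb' i P = em B a b Fa Fb i P := by
  unfold em
  simp only [ha, hb, hFa, hFb]

lemma mg_congr {a b a' b' : X → ℝ} {Fa Fb Fa' Fb' : Fin 3 → X → ℝ} {P : X}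
    (ha : a' P = a P) (hb : b' P = b P) (hFa : ∀ i, Fa' i P = Fa i P)
    (hFb : ∀ i, Fb' i P = Fb i P) (i : Fin 3) :
    mg a' b' Fa' Fb' i P = mg a b Fa Fb i P := by
  unfold mg md
  simp only [ha, hb, hFa, hFb]

/-! ### Truncation and rearrangement -/

lemma ar_min (g : ℂ → ℝ) {N s : ℝ} (hs : s < N) : ar (fun y => min (g y) N) s = ar g s := by
  unfold ar
  have : {x : ℂ | s < min (g x) N} = {x : ℂ | s < g x} := by
    ext x
    simp only [mem_ofPred_eq, lt_min_iff]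
    exact ⟨fun h => h.1, fun h => ⟨h, hs⟩⟩
  rw [this]

lemma ar_min' (g : ℂ → ℝ) {N s : ℝ} (hs : N ≤ s) : ar (fun y => min (g y) N) s = 0 := by
  unfold ar
  have : {x : ℂ | s < min (g x) N} = ∅ := by
    ext x
    simp only [mem_ofPred_eq, lt_min_iff, mem_empty_iff_false, iff_false, not_and, not_lt]
    exact fun _ => hs
  rw [this]
  simp

lemma Nc_min {R N : ℝ} {g : ℂ → ℝ} (hg : Nc R g) (hN : 0 ≤ N) :
    Nc R (fun y => min (g y) N) where
  m := hg.m.min measurable_const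
  nn := fun x => le_min (hg.nn x) hN
  z := fun x hx => by
    show min (g x) N = 0
    rw [hg.z x hx]
    exact min_eq_left hN

lemma rr_min (h_RR1 : T_RR1) {R N : ℝ} {g : ℂ → ℝ} (hg : Nc R g) (hN : 0 ≤ N) {t : ℝ}
    (ht : 0 < t) : rr (fun y => min (g y) N) t = min (rr g t) N := by
  have h1 := (h_RR1 R g hg).1
  have h2 := (h_RR1 R _ (Nc_min hg hN)).1
  have key : ∀ s, 0 ≤ s → (s < rr (fun y => min (g y) N) t ↔ s < min (rr g t) N) := by
    intro s hs
    rw [h2 s t hs ht, lt_min_iff, h1 s t hs ht]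
    rcases lt_or_ge s N with h | h
    · rw [ar_min g h]
      exact ⟨fun h' => ⟨h', h⟩, fun h' => h'.1⟩
    · rw [ar_min' g h]
      constructor
      · intro h'
        exfalso
        have : 0 < Real.pi * t ^ 2 := by positivity
        linarith
      · intro h'
        exact absurd h'.2 (not_lt.2 h)
  have n1 : 0 ≤ rr (fun y => min (g y) N) t := rr_nn _ _
  have n2 : 0 ≤ min (rr g t) N := le_min (rr_nn _ _) hN
  apply le_antisymm
  · by_contra h
    rw [not_le] at h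
    exact lt_irrefl _ ((key _ n2).1 h)
  · by_contra h
    rw [not_le] at h
    exact lt_irrefl _ ((key _ n1).2 h)

lemma Yx_congr {B N : ℝ} {a b a' b' : X → ℝ} {Fa Fb Fa' Fb' : Fin 3 → X → ℝ}
    {κ Q Q' : ℝ → ℝ → ℝ} {P : X} (h1 : ∀ P, md a' b' P = min (md a b P) N)
    (hN : md a b P < N) (ha : a' P = a P) (hb : b' P = b P) (hFa : ∀ i, Fa' i P = Fa i P)
    (hFb : ∀ i, Fb' i P = Fb i P)
    (hQ : 0 < md a b P → volume {y : ℂ | md a b (y, P.2) = md a b P} = 0 →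
      Q' (rk (md a b) P) P.2 = Q (rk (md a b) P) P.2) :
    Yx B a' b' Fa' Fb' κ Q' P = Yx B a b Fa Fb κ Q P := by
  have e1 : md (sl a' P.2) (sl b' P.2) = fun y => min (md (sl a P.2) (sl b P.2) y) N := by
    funext y
    exact h1 (y, P.2)
  have e2 : md (sl a P.2) (sl b P.2) P.1 = md a b P := rfl
  have e3 : md (sl a' P.2) (sl b' P.2) P.1 = md (sl a P.2) (sl b P.2) P.1 := by
    rw [e1]
    exact min_eq_left (by rw [e2]; exact hN.le)
  have e4 : {y : ℂ | md (sl a' P.2) (sl b' P.2) y = md (sl a' P.2) (sl b' P.2) P.1} =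
      {y : ℂ | md (sl a P.2) (sl b P.2) y = md (sl a P.2) (sl b P.2) P.1} := by
    ext y
    simp only [mem_ofPred_eq]
    rw [e3, e1]
    show min (md (sl a P.2) (sl b P.2) y) N = _ ↔ _
    rw [e2]
    constructor
    · intro h
      rcases min_choice (md (sl a P.2) (sl b P.2) y) N with h' | h'
      · rw [h'] at h
        exact h
      · rw [h'] at h
        exact absurd h hN.ne'
    · intro h
      rw [h]
      exact min_eq_left hN.le
  have e5 : rad (md (sl a' P.2) (sl b' P.2)) (md (sl a' P.2) (sl b' P.2) P.1) =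
      rad (md (sl a P.2) (sl b P.2)) (md (sl a P.2) (sl b P.2) P.1) := by
    unfold rad
    rw [e3, e1, ar_min _ (by rw [e2]; exact hN)]
  have e6 : Wc B (sl a' P.2) (sl b' P.2) (sl2 Fa' P.2) (sl2 Fb' P.2) P.1 =
      Wc B (sl a P.2) (sl b P.2) (sl2 Fa P.2) (sl2 Fb P.2) P.1 :=
    Wc_congr ha hb (fun i => hFa _) (fun i => hFb _)
  have e7 : gn (mg (sl a' P.2) (sl b' P.2) (sl2 Fa' P.2) (sl2 Fb' P.2)) P.1 =
      gn (mg (sl a P.2) (sl b P.2) (sl2 Fa P.2) (sl2 Fb P.2)) P.1 :=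
    gn_congr ha hb (fun i => hFa _) (fun i => hFb _)
  unfold Yx Yc
  rw [e4, e5, e6, e7, e3]
  split_ifs with h
  · have h2 := hQ h.1 h.2
    have h3 : (fun r => Q' r P.2) (rad (md (sl a P.2) (sl b P.2))
        (md (sl a P.2) (sl b P.2) P.1)) = (fun r => Q r P.2) (rad (md (sl a P.2) (sl b P.2))
        (md (sl a P.2) (sl b P.2) P.1)) := h2
    rw [h3]
  · rfl

/-! ### Integrability -/

lemma axis_null : ∀ᵐ P : X, P.1 ≠ 0 := by
  have h : (volume : Measure X) {P : X | P.1 = 0} = 0 := by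
    have e : {P : X | P.1 = 0} = ({0} : Set ℂ) ×ˢ (univ : Set ℝ) := by
      ext P
      simp
    rw [e]
    show ((volume : Measure ℂ).prod (volume : Measure ℝ)) _ = 0
    rw [Measure.prod_prod]
    simp
  exact measure_eq_zero_iff_ae_notMem.1 h

lemma nx_of_PD {Ω : Set X} {R : ℝ} {a b : X → ℝ} {Fa Fb : Fin 3 → X → ℝ}
    (h : PD Ω R a b Fa Fb) : Nx R (md a b) where
  m := ((h.ma.pow_const 2).add (h.mb.pow_const 2)).sqrt
  nn := fun P => md_nn a b P
  z := fun P hP => by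
    have h1 : P ∉ Ω := fun h2 => absurd (h.bdd P h2) (not_lt.2 hP)
    obtain ⟨h3, h4, -⟩ := h.zero P h1
    unfold md
    rw [h3, h4]
    simp

lemma Ap_bd (B R : ℝ) (i : Fin 3) (P : X) (hP : ‖P‖ ≤ R) : |Ap B i P| ≤ |B / 2| * R := by
  have hR : 0 ≤ R := (norm_nonneg _).trans hP
  have h1 : ‖P.1‖ ≤ R := (norm_fst_le P).trans hP
  have h2 : |P.1.re| ≤ R := (Complex.abs_re_le_norm _).trans h1
  have h3 : |P.1.im| ≤ R := (Complex.abs_im_le_norm _).trans h1
  fin_cases i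
  · show |-(B / 2) * P.1.im| ≤ _
    rw [abs_mul, abs_neg]
    exact mul_le_mul_of_nonneg_left h3 (abs_nonneg _)
  · show |(B / 2) * P.1.re| ≤ _
    rw [abs_mul]
    exact mul_le_mul_of_nonneg_left h2 (abs_nonneg _)
  · show |(0 : ℝ)| ≤ _
    rw [abs_zero]
    positivity

lemma Ap_meas (B : ℝ) (i : Fin 3) : Measurable (Ap B i) := by
  fin_cases i
  · show Measurable fun P : X => -(B / 2) * P.1.im
    exact (Complex.measurable_im.comp measurable_fst).const_mul _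
  · show Measurable fun P : X => (B / 2) * P.1.re
    exact (Complex.measurable_re.comp measurable_fst).const_mul _
  · show Measurable fun P : X => (0 : ℝ)
    exact measurable_const

lemma memLp_Ap {R B : ℝ} {u : X → ℝ} (hu : MemLp u 2 volume) (hz : ∀ P, R ≤ ‖P‖ → u P = 0)
    (i : Fin 3) : MemLp (fun P => Ap B i P * u P) 2 volume := by
  refine MemLp.of_le_mul (c := |B / 2| * R) hu
    ((Ap_meas B i).aestronglyMeasurable.mul hu.1) (Eventually.of_forall fun P => ?_)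
  rcases le_or_gt R ‖P‖ with h | h
  · rw [hz P h]
    simp
  · rw [norm_mul, Real.norm_eq_abs]
    exact mul_le_mul_of_nonneg_right (Ap_bd B R i P h.le) (norm_nonneg _)

lemma em_int {Ω : Set X} {R B : ℝ} {a b : X → ℝ} {Fa Fb : Fin 3 → X → ℝ}
    (h : PD Ω R a b Fa Fb) (i : Fin 3) : Integrable (em B a b Fa Fb i) := by
  have hz : ∀ P, R ≤ ‖P‖ → a P = 0 ∧ b P = 0 := by
    intro P hP
    have h1 : P ∉ Ω := fun h2 => absurd (h.bdd P h2) (not_lt.2 hP)
    obtain ⟨h3, h4, -⟩ := h.zero P h1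
    exact ⟨h3, h4⟩
  have h1 : MemLp (fun P => Fa i P - Ap B i P * b P) 2 volume :=
    (h.ha.memLp' i).sub (memLp_Ap h.hb.memLp (fun P hP => (hz P hP).2) i)
  have h2 : MemLp (fun P => Fb i P + Ap B i P * a P) 2 volume :=
    (h.hb.memLp' i).add (memLp_Ap h.ha.memLp (fun P hP => (hz P hP).1) i)
  exact h1.integrable_sq.add h2.integrable_sq

lemma mg_meas {Ω : Set X} {R : ℝ} {a b : X → ℝ} {Fa Fb : Fin 3 → X → ℝ}
    (h : PD Ω R a b Fa Fb) (i : Fin 3) : Measurable (mg a b Fa Fb i) :=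
  ((h.ma.mul (h.mFa i)).add (h.mb.mul (h.mFb i))).div (nx_of_PD h).m

lemma mg_int {Ω : Set X} {R : ℝ} {a b : X → ℝ} {Fa Fb : Fin 3 → X → ℝ}
    (h : PD Ω R a b Fa Fb) : Integrable (fun P => mg a b Fa Fb 2 P ^ 2) := by
  refine (em_int (B := 0) h 2).mono' ((mg_meas h 2).pow_const 2).aestronglyMeasurable
    (Eventually.of_forall fun P => ?_)
  rw [Real.norm_of_nonneg (sq_nonneg _)]
  exact mg_le 0 a b Fa Fb P

lemma EM_eq {Ω : Set X} {R B : ℝ} {a b : X → ℝ} {Fa Fb : Fin 3 → X → ℝ}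
    (h : PD Ω R a b Fa Fb) : EM B a b Fa Fb =
      (∫ P, em B a b Fa Fb 0 P) + (∫ P, em B a b Fa Fb 1 P) + ∫ P, em B a b Fa Fb 2 P := by
  unfold EM
  rw [integral_finsetSum _ (fun i _ => em_int h i), Fin.sum_univ_three]

/-- the inequality for bounded pairs -/
lemma step (h_MNE : T_MNE) (h_ALG : T_ALG) {B ε R N : ℝ} {Ω : Set X} {a b v₁ : X → ℝ}
    {Fa Fb F : Fin 3 → X → ℝ} {V T : ℝ → ℝ → ℝ} (hB : 0 < B) (hε : 0 < ε)
    (hPD : PD Ω R a b Fa Fb) (hN : ∀ P, md a b P ≤ N) (hs : Star (Ost Ω))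
    (hRD : RD B (Ost Ω) v₁ F V T) : 0 ≤ DF B ε Ω a b v₁ Fa Fb ∧
  (∫⁻ P, ENNReal.ofReal (em B a b Fa Fb 0 P + em B a b Fa Fb 1 P -
      Yx B a b Fa Fb (Kq B V T) (Qe ε V T (md a b)) P)) +
    (∫⁻ P, ENNReal.ofReal (em B a b Fa Fb 2 P - mg a b Fa Fb 2 P ^ 2)) +
    (∫⁻ P in pl (vs (md a b)), ENNReal.ofReal (plq B ε V T (md a b) P)) ≤
      ENNReal.ofReal (DF B ε Ω a b v₁ Fa Fb) := by
  obtain ⟨hY, hP, hm⟩ := h_MNE B ε R N Ω a b v₁ Fa Fb F V T hB hε hPD hN hs hRD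
  have i0 := em_int (B := B) hPD 0
  have i1 := em_int (B := B) hPD 1
  have i2 := em_int (B := B) hPD 2
  have im := mg_int hPD
  have n1 : ∀ P, 0 ≤ em B a b Fa Fb 0 P + em B a b Fa Fb 1 P -
      Yx B a b Fa Fb (Kq B V T) (Qe ε V T (md a b)) P := fun P =>
    sub_nonneg.2 (Y_le h_ALG a b Fa Fb _ _ (Kq_mem hB hRD.nn hRD.nnT)
      (Qe_nn hε hRD.nn hRD.nnT _) P)
  have n2 : ∀ P, 0 ≤ em B a b Fa Fb 2 P - mg a b Fa Fb 2 P ^ 2 := fun P =>
    sub_nonneg.2 (mg_le B a b Fa Fb P)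
  have n3 : ∀ P, 0 ≤ plq B ε V T (md a b) P := fun P => plq_nn hB hRD.nn hRD.nnT _ P
  have j1 : Integrable (fun P => em B a b Fa Fb 0 P + em B a b Fa Fb 1 P) := i0.add i1
  have k1 : Integrable (fun P => em B a b Fa Fb 0 P + em B a b Fa Fb 1 P -
      Yx B a b Fa Fb (Kq B V T) (Qe ε V T (md a b)) P) := j1.sub hY
  have k2 : Integrable (fun P => em B a b Fa Fb 2 P - mg a b Fa Fb 2 P ^ 2) := i2.sub im
  have l1 := ofReal_integral_eq_lintegral_ofReal k1 (Eventually.of_forall n1)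
  have l2 := ofReal_integral_eq_lintegral_ofReal k2 (Eventually.of_forall n2)
  have l3 := ofReal_integral_eq_lintegral_ofReal hP (Eventually.of_forall n3)
  have p1 : 0 ≤ ∫ P, (em B a b Fa Fb 0 P + em B a b Fa Fb 1 P -
      Yx B a b Fa Fb (Kq B V T) (Qe ε V T (md a b)) P) := integral_nonneg (fun P => n1 P)
  have p2 : 0 ≤ ∫ P, (em B a b Fa Fb 2 P - mg a b Fa Fb 2 P ^ 2) :=
    integral_nonneg (fun P => n2 P)
  have p3 : 0 ≤ ∫ P in pl (vs (md a b)), plq B ε V T (md a b) P :=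
    integral_nonneg (fun P => n3 P)
  have e1 : ∫ P, (em B a b Fa Fb 0 P + em B a b Fa Fb 1 P -
      Yx B a b Fa Fb (Kq B V T) (Qe ε V T (md a b)) P) =
      (∫ P, em B a b Fa Fb 0 P) + (∫ P, em B a b Fa Fb 1 P) -
        ∫ P, Yx B a b Fa Fb (Kq B V T) (Qe ε V T (md a b)) P := by
    rw [integral_sub j1 hY, integral_add i0 i1]
  have e2 : ∫ P, (em B a b Fa Fb 2 P - mg a b Fa Fb 2 P ^ 2) =
      (∫ P, em B a b Fa Fb 2 P) - ∫ P, mg a b Fa Fb 2 P ^ 2 := integral_sub i2 im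
  have hD : (∫ P, (em B a b Fa Fb 0 P + em B a b Fa Fb 1 P -
      Yx B a b Fa Fb (Kq B V T) (Qe ε V T (md a b)) P)) +
      (∫ P, (em B a b Fa Fb 2 P - mg a b Fa Fb 2 P ^ 2)) +
      (∫ P in pl (vs (md a b)), plq B ε V T (md a b) P) ≤ DF B ε Ω a b v₁ Fa Fb := by
    unfold DF
    rw [e1, e2, EM_eq hPD]
    linarith
  rw [← l1, ← l2, ← l3, ← ENNReal.ofReal_add p1 p2, ← ENNReal.ofReal_add (add_nonneg p1 p2) p3]
  exact ⟨le_trans (add_nonneg (add_nonneg p1 p2) p3) hD, ENNReal.ofReal_le_ofReal hD⟩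

end TRC_

open TRC_ in
/-- TRC -/
theorem p_TRC (h_MNE : T_MNE) (h_TRN : T_TRN) (h_ALG : T_ALG) (h_EQX : T_EQX) (h_RR1 : T_RR1)
    (h_VSM : T_VSM) : T_TRC := by
  intro B ε R Ω a b v₁ Fa Fb F V T hB hε hPD hstar hRD
  have hNx : Nx R (md a b) := nx_of_PD hPD
  obtain ⟨hNv, hmrk, hmpl, hmar, hNc, hmrr⟩ := h_VSM R (md a b) hNx
  obtain ⟨hq1, -, -, hq4, hq5⟩ := h_EQX R (md a b) hNx
  have trn := fun n : ℕ => h_TRN ((n : ℝ) + 1) R Ω a b Fa Fb (by positivity) hPD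
  choose a' b' Fa' Fb' hPD' hmd' heq' hem' using trn
  have hNx' : ∀ n, Nx R (md (a' n) (b' n)) := fun n => nx_of_PD (hPD' n)
  have hv' : ∀ n (P : X), P.1 ≠ 0 → vs (md (a' n) (b' n)) P = min (vs (md a b) P) ((n : ℝ) + 1) := by
    intro n P hP
    have e1 : sl (md (a' n) (b' n)) P.2 = fun y => min (sl (md a b) P.2 y) ((n : ℝ) + 1) := by
      funext y
      exact hmd' n (y, P.2)
    unfold vs
    rw [e1]
    exact rr_min h_RR1 (hNc P.2) (by positivity) (norm_pos_iff.2 hP)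
  -- the step
  have hst := fun n : ℕ => step h_MNE h_ALG hB hε (hPD' n) (N := (n : ℝ) + 1)
    (fun P => by rw [hmd' n P]; exact min_le_right _ _) hstar hRD
  -- the numbers `D_n`
  let D : ℕ → ℝ := fun n => EM B a b Fa Fb -
    lamR B (Ost Ω) * (∫ P, pp ε v₁ P * vs (md (a' n) (b' n)) P ^ 2) +
    ∫ P, VV B P * (pp ε v₁ P * (1 - pp ε v₁ P)) * vs (md (a' n) (b' n)) P ^ 2
  have hEM : ∀ n, EM B (a' n) (b' n) (Fa' n) (Fb' n) ≤ EM B a b Fa Fb := by
    intro n
    unfold EM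
    refine integral_mono (integrable_finsetSum _ fun i _ => em_int (hPD' n) i)
      (integrable_finsetSum _ fun i _ => em_int hPD i) fun P => ?_
    exact Finset.sum_le_sum fun i _ => hem' n B i P
  have hDF : ∀ n, DF B ε Ω (a' n) (b' n) v₁ (Fa' n) (Fb' n) ≤ D n := by
    intro n
    have := hEM n
    simp only [D]
    unfold DF
    linarith
  have hD0 : ∀ n, 0 ≤ D n := fun n => (hst n).1.trans (hDF n)
  -- integrability of `v ^ 2`
  have hv2 : Integrable (fun P => vs (md a b) P ^ 2) := by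
    have h1 := hq1 (fun p => ENNReal.ofReal (p.2 ^ 2))
      ((measurable_snd.pow_const 2).ennreal_ofReal) (fun z => by simp)
    have h2 : ∫⁻ P : X, ENNReal.ofReal (md a b P ^ 2) < ⊤ := by
      have h3 : ∀ P, md a b P ^ 2 = a P ^ 2 + b P ^ 2 := fun P => Real.sq_sqrt (by positivity)
      have h4 : Integrable (fun P => md a b P ^ 2) := by
        simp only [h3]
        exact hPD.ha.memLp.integrable_sq.add hPD.hb.memLp.integrable_sq
      have h5 := h4.lintegral_lt_top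
      exact h5
    refine ⟨(hNv.m.pow_const 2).aestronglyMeasurable, ?_⟩
    rw [hasFiniteIntegral_iff_ofReal (Eventually.of_forall fun P => sq_nonneg _)]
    rw [← h1] at h2
    exact h2
  -- `p`
  have hp0 : ∀ P, 0 ≤ pp ε v₁ P := fun P => by
    unfold pp
    have := hRD.gs.nn P
    positivity
  have hp1 : ∀ P, pp ε v₁ P ≤ 1 := fun P => by
    unfold pp
    have := hRD.gs.nn P
    rw [div_le_one (by positivity)]
    linarith
  have hpm : Measurable (pp ε v₁) := hRD.gs.mv.div (hRD.gs.mv.add_const ε)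
  have hVm : Measurable (VV B) := by
    unfold VV
    exact (measurable_fst.norm.pow_const 2).const_mul _
  have hvm' : ∀ n, Measurable (vs (md (a' n) (b' n))) := fun n => (h_VSM R _ (hNx' n)).1.m
  have hlim : ∀ P : X, Tendsto (fun n : ℕ => min (vs (md a b) P) ((n : ℝ) + 1)) atTop
      (𝓝 (vs (md a b) P)) := by
    intro P
    obtain ⟨m, hm⟩ := exists_nat_gt (vs (md a b) P)
    refine tendsto_const_nhds.congr' ?_
    filter_upwards [eventually_ge_atTop m] with n hn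
    have : (m : ℝ) ≤ n := by exact_mod_cast hn
    exact (min_eq_left (by linarith)).symm
  have hlim2 : ∀ᵐ P : X, Tendsto (fun n : ℕ => vs (md (a' n) (b' n)) P ^ 2) atTop
      (𝓝 (vs (md a b) P ^ 2)) := by
    filter_upwards [axis_null] with P hP
    refine ((hlim P).pow 2).congr fun n => ?_
    rw [hv' n P hP]
  have hle2 : ∀ n, ∀ᵐ P : X, vs (md (a' n) (b' n)) P ^ 2 ≤ vs (md a b) P ^ 2 := by
    intro n
    filter_upwards [axis_null] with P hP
    rw [hv' n P hP]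
    exact pow_le_pow_left₀ (le_min (hNv.nn P) (by positivity)) (min_le_left _ _) 2
  have t1 : Tendsto (fun n => ∫ P, pp ε v₁ P * vs (md (a' n) (b' n)) P ^ 2) atTop
      (𝓝 (∫ P, pp ε v₁ P * vs (md a b) P ^ 2)) := by
    refine tendsto_integral_of_dominated_convergence (fun P => vs (md a b) P ^ 2)
      (fun n => (hpm.mul ((hvm' n).pow_const 2)).aestronglyMeasurable) hv2 (fun n => ?_) ?_
    · filter_upwards [hle2 n] with P hP
      rw [Real.norm_of_nonneg (mul_nonneg (hp0 P) (sq_nonneg _))]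
      calc pp ε v₁ P * vs (md (a' n) (b' n)) P ^ 2 ≤ 1 * vs (md (a' n) (b' n)) P ^ 2 :=
            mul_le_mul_of_nonneg_right (hp1 P) (sq_nonneg _)
        _ ≤ vs (md a b) P ^ 2 := by rw [one_mul]; exact hP
    · filter_upwards [hlim2] with P hP
      exact hP.const_mul _
  have t2 : Tendsto (fun n => ∫ P, VV B P * (pp ε v₁ P * (1 - pp ε v₁ P)) *
      vs (md (a' n) (b' n)) P ^ 2) atTop
      (𝓝 (∫ P, VV B P * (pp ε v₁ P * (1 - pp ε v₁ P)) * vs (md a b) P ^ 2)) := by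
    refine tendsto_integral_of_dominated_convergence
      (fun P => ((B / 2) ^ 2 * R ^ 2) * vs (md a b) P ^ 2)
      (fun n => ((hVm.mul (hpm.mul (measurable_const.sub hpm))).mul
        ((hvm' n).pow_const 2)).aestronglyMeasurable) (hv2.const_mul _) (fun n => ?_) ?_
    · filter_upwards [hle2 n] with P hP
      have hV0 : 0 ≤ VV B P := by unfold VV; positivity
      have hq0 : 0 ≤ pp ε v₁ P * (1 - pp ε v₁ P) :=
        mul_nonneg (hp0 P) (sub_nonneg.2 (hp1 P))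
      have hq1' : pp ε v₁ P * (1 - pp ε v₁ P) ≤ 1 := by nlinarith [hp0 P, hp1 P]
      rw [Real.norm_of_nonneg (mul_nonneg (mul_nonneg hV0 hq0) (sq_nonneg _))]
      rcases le_or_gt R ‖P‖ with h | h
      · have h1 : vs (md (a' n) (b' n)) P = 0 := (h_VSM R _ (hNx' n)).1.z P h
        rw [h1]
        have : 0 ≤ vs (md a b) P ^ 2 := sq_nonneg _
        have h2 : VV B P * (pp ε v₁ P * (1 - pp ε v₁ P)) * (0 : ℝ) ^ 2 = 0 := by ring
        rw [h2]
        positivity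
      · have h1 : ‖P.1‖ ^ 2 ≤ R ^ 2 :=
          pow_le_pow_left₀ (norm_nonneg _) ((norm_fst_le P).trans h.le) 2
        have h2 : VV B P ≤ (B / 2) ^ 2 * R ^ 2 := by
          unfold VV
          exact mul_le_mul_of_nonneg_left h1 (sq_nonneg _)
        have h3 : VV B P * (pp ε v₁ P * (1 - pp ε v₁ P)) ≤ (B / 2) ^ 2 * R ^ 2 := by
          calc VV B P * (pp ε v₁ P * (1 - pp ε v₁ P)) ≤ VV B P * 1 :=
                mul_le_mul_of_nonneg_left hq1' hV0
            _ ≤ (B / 2) ^ 2 * R ^ 2 := by rw [mul_one]; exact h2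
        exact mul_le_mul h3 hP (sq_nonneg _) (by positivity)
    · filter_upwards [hlim2] with P hP
      exact hP.const_mul _
  have hDlim : Tendsto D atTop (𝓝 (DF B ε Ω a b v₁ Fa Fb)) := by
    unfold DF
    exact (tendsto_const_nhds.sub (t1.const_mul _)).add t2
  refine ⟨ge_of_tendsto' hDlim hD0, ?_⟩
  -- the three integrands
  set E1 : X → ℝ≥0∞ := fun P => ENNReal.ofReal (em B a b Fa Fb 0 P + em B a b Fa Fb 1 P -
      Yx B a b Fa Fb (Kq B V T) (Qe ε V T (md a b)) P) with hE1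
  set E2 : X → ℝ≥0∞ := fun P => ENNReal.ofReal (em B a b Fa Fb 2 P - mg a b Fa Fb 2 P ^ 2)
    with hE2
  set E3 : X → ℝ≥0∞ := fun P => ENNReal.ofReal (plq B ε V T (md a b) P) with hE3
  let S : ℕ → Set X := fun n => {P | md a b P < (n : ℝ) + 1}
  let W : ℕ → Set X := fun n => pl (vs (md a b)) ∩ {P | vs (md a b) P < (n : ℝ) + 1}
  have hSm : ∀ n, MeasurableSet (S n) := fun n => measurableSet_lt hNx.m measurable_const
  have hWm : ∀ n, MeasurableSet (W n) := fun n =>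
    (h_VSM R _ hNv).2.2.1.inter (measurableSet_lt hNv.m measurable_const)
  have hSmono : Monotone S := by
    intro m n hmn P hP
    have : (m : ℝ) ≤ n := by exact_mod_cast hmn
    have h1 : md a b P < (m : ℝ) + 1 := hP
    show md a b P < (n : ℝ) + 1
    linarith
  have hWmono : Monotone W := by
    intro m n hmn P hP
    have : (m : ℝ) ≤ n := by exact_mod_cast hmn
    have h1 : vs (md a b) P < (m : ℝ) + 1 := hP.2
    refine ⟨hP.1, ?_⟩
    show vs (md a b) P < (n : ℝ) + 1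
    linarith
  have hSU : ⋃ n, S n = univ := by
    ext P
    simp only [mem_iUnion, mem_univ, iff_true]
    obtain ⟨m, hm⟩ := exists_nat_gt (md a b P)
    exact ⟨m, by show md a b P < (m : ℝ) + 1; linarith⟩
  have hWU : ⋃ n, W n = pl (vs (md a b)) := by
    ext P
    simp only [mem_iUnion]
    constructor
    · rintro ⟨n, hn⟩
      exact hn.1
    · intro hP
      obtain ⟨m, hm⟩ := exists_nat_gt (vs (md a b) P)
      exact ⟨m, hP, by show vs (md a b) P < (m : ℝ) + 1; linarith⟩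
  -- comparison
  have c1 : ∀ n, ∫⁻ P in S n, E1 P ≤ ∫⁻ P, ENNReal.ofReal (em B (a' n) (b' n) (Fa' n) (Fb' n) 0 P +
      em B (a' n) (b' n) (Fa' n) (Fb' n) 1 P - Yx B (a' n) (b' n) (Fa' n) (Fb' n) (Kq B V T)
        (Qe ε V T (md (a' n) (b' n))) P) := by
    intro n
    refine le_trans (le_of_eq ?_) (setLIntegral_le_lintegral (S n) _)
    refine setLIntegral_congr_fun_ae (hSm n) ?_
    filter_upwards [hq4, hq5] with P h4 h5 hP
    have hP' : md a b P < (n : ℝ) + 1 := hP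
    obtain ⟨ha, hb, hF⟩ := heq' n P hP'.le
    have hY : Yx B (a' n) (b' n) (Fa' n) (Fb' n) (Kq B V T) (Qe ε V T (md (a' n) (b' n))) P =
        Yx B a b Fa Fb (Kq B V T) (Qe ε V T (md a b)) P := by
      refine Yx_congr (hmd' n) hP' ha hb (fun i => (hF i).1) (fun i => (hF i).2) ?_
      intro h6 h7
      have h8 : P ∉ pl (md a b) := by
        rintro ⟨-, h9⟩
        rw [h7] at h9
        exact lt_irrefl _ h9
      have h10 := h5 h6 h8
      have h11 := h4 h6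
      have e1 : sl (md (a' n) (b' n)) P.2 = fun y => min (sl (md a b) P.2 y) ((n : ℝ) + 1) := by
        funext y
        exact hmd' n (y, P.2)
      unfold Qe
      rw [e1, abs_of_pos h10, rr_min h_RR1 (hNc P.2) (by positivity) h10, h11,
        min_eq_left hP'.le]
    simp only [hE1]
    rw [hY, em_congr ha hb (fun i => (hF i).1) (fun i => (hF i).2),
      em_congr ha hb (fun i => (hF i).1) (fun i => (hF i).2)]
  have c2 : ∀ n, ∫⁻ P in S n, E2 P ≤ ∫⁻ P, ENNReal.ofReal (em B (a' n) (b' n) (Fa' n) (Fb' n) 2 P -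
      mg (a' n) (b' n) (Fa' n) (Fb' n) 2 P ^ 2) := by
    intro n
    refine le_trans (le_of_eq ?_) (setLIntegral_le_lintegral (S n) _)
    refine setLIntegral_congr_fun (hSm n) ?_
    intro P hP
    have hP' : md a b P < (n : ℝ) + 1 := hP
    obtain ⟨ha, hb, hF⟩ := heq' n P hP'.le
    simp only [hE2]
    rw [em_congr ha hb (fun i => (hF i).1) (fun i => (hF i).2),
      mg_congr ha hb (fun i => (hF i).1) (fun i => (hF i).2)]
  have c3 : ∀ n, ∫⁻ P in W n, E3 P ≤ ∫⁻ P in pl (vs (md (a' n) (b' n))),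
      ENNReal.ofReal (plq B ε V T (md (a' n) (b' n)) P) := by
    intro n
    have e1 : ∫⁻ P in W n, E3 P =
        ∫⁻ P in W n, ENNReal.ofReal (plq B ε V T (md (a' n) (b' n)) P) := by
      refine setLIntegral_congr_fun_ae (hWm n) ?_
      filter_upwards [axis_null] with P h0 hP
      have hP' : vs (md a b) P < (n : ℝ) + 1 := hP.2
      have e1 : sl (md (a' n) (b' n)) P.2 = fun y => min (sl (md a b) P.2 y) ((n : ℝ) + 1) := by
        funext y
        exact hmd' n (y, P.2)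
      have hr : 0 < ‖P.1‖ := norm_pos_iff.2 h0
      have h12 : rr (sl (md a b) P.2) ‖P.1‖ < (n : ℝ) + 1 := hP'
      simp only [hE3]
      unfold plq Qe
      rw [e1, abs_of_pos hr, rr_min h_RR1 (hNc P.2) (by positivity) hr, min_eq_left h12.le]
    rw [e1]
    refine lintegral_mono_set' ?_
    filter_upwards [axis_null] with P h0 hP
    have hP1 : P ∈ pl (vs (md a b)) := hP.1
    have hP' : vs (md a b) P < (n : ℝ) + 1 := hP.2
    obtain ⟨h1, h2⟩ := hP1
    have h3 : vs (md (a' n) (b' n)) P = vs (md a b) P := by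
      rw [hv' n P h0]
      exact min_eq_left hP'.le
    refine ⟨by rw [h3]; exact h1, ?_⟩
    rw [h3]
    refine lt_of_lt_of_le h2 ?_
    have h4 : volume ({y : ℂ | vs (md a b) (y, P.2) = vs (md a b) P} \ {0}) =
        volume {y : ℂ | vs (md a b) (y, P.2) = vs (md a b) P} :=
      measure_sdiff_null (measure_singleton 0)
    rw [← h4]
    refine measure_mono ?_
    rintro y ⟨hy, hy0⟩
    have h5 : vs (md (a' n) (b' n)) (y, P.2) = min (vs (md a b) (y, P.2)) ((n : ℝ) + 1) :=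
      hv' n (y, P.2) hy0
    show vs (md (a' n) (b' n)) (y, P.2) = vs (md a b) P
    rw [h5]
    have h6 : vs (md a b) (y, P.2) = vs (md a b) P := hy
    rw [h6]
    exact min_eq_left hP'.le
  have hall : ∀ n, (∫⁻ P in S n, E1 P) + (∫⁻ P in S n, E2 P) + (∫⁻ P in W n, E3 P) ≤
      ENNReal.ofReal (D n) := fun n =>
    (add_le_add (add_le_add (c1 n) (c2 n)) (c3 n)).trans
      ((hst n).2.trans (ENNReal.ofReal_le_ofReal (hDF n)))
  -- monotone convergence
  have m1 : Tendsto (fun n => ∫⁻ P in S n, E1 P) atTop (𝓝 (∫⁻ P, E1 P)) := by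
    have h := setLIntegral_iUnion_of_directed (μ := (volume : Measure X)) E1
      (directed_of_isDirected_le hSmono)
    rw [hSU, setLIntegral_univ] at h
    rw [h]
    exact tendsto_atTop_iSup fun m n hmn => lintegral_mono_set (hSmono hmn)
  have m2 : Tendsto (fun n => ∫⁻ P in S n, E2 P) atTop (𝓝 (∫⁻ P, E2 P)) := by
    have h := setLIntegral_iUnion_of_directed (μ := (volume : Measure X)) E2
      (directed_of_isDirected_le hSmono)
    rw [hSU, setLIntegral_univ] at h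
    rw [h]
    exact tendsto_atTop_iSup fun m n hmn => lintegral_mono_set (hSmono hmn)
  have m3 : Tendsto (fun n => ∫⁻ P in W n, E3 P) atTop (𝓝 (∫⁻ P in pl (vs (md a b)), E3 P)) := by
    have h := setLIntegral_iUnion_of_directed (μ := (volume : Measure X)) E3
      (directed_of_isDirected_le hWmono)
    rw [hWU] at h
    rw [h]
    exact tendsto_atTop_iSup fun m n hmn => lintegral_mono_set (hWmono hmn)
  exact le_of_tendsto_of_tendsto' ((m1.add m2).add m3)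
    ((ENNReal.continuous_ofReal.tendsto _).comp hDlim) hall

end MGS
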