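import Pool.Agent.MGS.TE
import Pool.Agent.MGS.P_TRC
import Pool.Agent.MGS.P_INT
import Pool.Agent.MGS.P_DFL

/-!
# MGS: target EQE (the lower bound and its equality case)
-/

set_option autoImplicit false

open MeasureTheory Filter Topology Metric Set
open scoped ENNReal NNReal ContDiff

noncomputable section

namespace MGS

namespace EQE_

open TRC_

/-- the sequence of the values of `ε` -/
def en (n : ℕ) : ℝ := 1 / ((n : ℝ) + 1)

lemma en_pos (n : ℕ) : 0 < en n := by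
  unfold en
  positivity

lemma en_tendsto : Tendsto en atTop (𝓝 0) := tendsto_one_div_add_atTop_nhds_zero_nat

lemma en_tendsto' : Tendsto en atTop (𝓝[>] 0) :=
  tendsto_nhdsWithin_iff.2 ⟨en_tendsto, Eventually.of_forall fun n => en_pos n⟩

/-- if the integrals of nonnegative functions tend to `0` and the functions converge at a point
outside a null set, the limit is `≤ 0` there -/
lemma fatou {μ : Measure X} {g : ℕ → X → ℝ} (hg : ∀ n, Measurable (g n)) {δ : ℕ → ℝ≥0∞}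
    (hδ : Tendsto δ atTop (𝓝 0)) (h : ∀ n, ∫⁻ P, ENNReal.ofReal (g n P) ∂μ ≤ δ n) :
    ∀ᵐ P ∂μ, ∀ c : ℝ, Tendsto (fun n => g n P) atTop (𝓝 c) → c ≤ 0 := by
  have hm : ∀ n, Measurable fun P => ENNReal.ofReal (g n P) := fun n => (hg n).ennreal_ofReal
  have h1 : ∫⁻ P, liminf (fun n => ENNReal.ofReal (g n P)) atTop ∂μ ≤ 0 := by
    refine (lintegral_liminf_le hm).trans ?_
    have h2 : Tendsto (fun n => ∫⁻ P, ENNReal.ofReal (g n P) ∂μ) atTop (𝓝 0) :=
      tendsto_of_tendsto_of_tendsto_of_le_of_le tendsto_const_nhds hδ (fun _ => zero_le) h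
    rw [h2.liminf_eq]
  have h3 : ∫⁻ P, liminf (fun n => ENNReal.ofReal (g n P)) atTop ∂μ = 0 := le_antisymm h1 zero_le
  have hmm : Measurable fun P => liminf (fun n => ENNReal.ofReal (g n P)) atTop :=
    Measurable.liminf hm
  rw [lintegral_eq_zero_iff hmm] at h3
  filter_upwards [h3] with P hP c hc
  have h4 : Tendsto (fun n => ENNReal.ofReal (g n P)) atTop (𝓝 (ENNReal.ofReal c)) :=
    ENNReal.tendsto_ofReal hc
  have h5 : ENNReal.ofReal c = 0 := by
    rw [← h4.liminf_eq]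
    exact hP
  exact ENNReal.ofReal_eq_zero.1 h5

lemma meas_Kq {B : ℝ} {V T : ℝ → ℝ → ℝ} (mV : Measurable (Function.uncurry V))
    (mT : Measurable (Function.uncurry T)) : Measurable (Function.uncurry (Kq B V T)) := by
  have e : Function.uncurry (Kq B V T) = fun p : ℝ × ℝ =>
      min 1 (B / 2 * |p.1| * Function.uncurry V p / Function.uncurry T p) := by
    funext p
    rfl
  rw [e]
  exact measurable_const.min (((measurable_fst.abs.const_mul (B / 2)).mul mV).div mT)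

lemma meas_Qe {ε : ℝ} {V T : ℝ → ℝ → ℝ} (mV : Measurable (Function.uncurry V))
    (mT : Measurable (Function.uncurry T)) {f : X → ℝ}
    (hr : Measurable (fun p : ℝ × ℝ => rr (sl f p.2) |p.1|)) :
    Measurable (Function.uncurry (Qe ε V T f)) := by
  have e : Function.uncurry (Qe ε V T f) = fun p : ℝ × ℝ =>
      Function.uncurry T p / (Function.uncurry V p + ε) * rr (sl f p.2) |p.1| := by
    funext p
    rfl
  rw [e]
  exact (mT.div (mV.add_const ε)).mul hr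

lemma tendsto_Qe {V T : ℝ → ℝ → ℝ} {f : X → ℝ} {r z : ℝ} (hV : 0 < V r z) :
    Tendsto (fun n => Qe (en n) V T f r z) atTop (𝓝 (T r z / V r z * rr (sl f z) |r|)) := by
  unfold Qe
  refine Tendsto.mul ?_ tendsto_const_nhds
  have h1 : Tendsto (fun n => V r z + en n) atTop (𝓝 (V r z + 0)) :=
    tendsto_const_nhds.add en_tendsto
  rw [add_zero] at h1
  exact tendsto_const_nhds.div h1 hV.ne'

/-- `κ < 1` at the good points -/
lemma Kq_good {B : ℝ} (hB : 0 < B) {V T : ℝ → ℝ → ℝ} {r z : ℝ} (hr : 0 ≤ r) (hV : 0 < V r z)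
    (hT : B / 2 * r * V r z < T r z) :
    0 < T r z ∧ Kq B V T r z = B / 2 * r * V r z / T r z ∧ Kq B V T r z < 1 := by
  have h0 : 0 ≤ B / 2 * r * V r z := by positivity
  have h1 : 0 < T r z := h0.trans_lt hT
  have h2 : B / 2 * r * V r z / T r z < 1 := (div_lt_one h1).2 hT
  have h3 : Kq B V T r z = B / 2 * r * V r z / T r z := by
    unfold Kq
    rw [abs_of_nonneg hr]
    exact min_eq_right h2.le
  exact ⟨h1, h3, h3 ▸ h2⟩

/-- the three lower limits vanish -/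
lemma core {B R : ℝ} {Ω : Set X} {a b v₁ : X → ℝ} {Fa Fb F : Fin 3 → X → ℝ}
    {V T : ℝ → ℝ → ℝ} (h_TRC : T_TRC) (h_DFL : T_DFL) (h_VSM : T_VSM) (hB : 0 < B)
    (hPD : PD Ω R a b Fa Fb) (hS : Star (Ost Ω)) (hRD : RD B (Ost Ω) v₁ F V T)
    (hE : EM B a b Fa Fb = lamR B (Ost Ω) * ∫ P, (a P ^ 2 + b P ^ 2)) :
    (∀ᵐ P : X, ∀ c : ℝ, Tendsto (fun n => em B a b Fa Fb 0 P + em B a b Fa Fb 1 P -
      Yx B a b Fa Fb (Kq B V T) (Qe (en n) V T (md a b)) P) atTop (𝓝 c) → c ≤ 0) ∧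
    (∀ᵐ P : X, em B a b Fa Fb 2 P ≤ mg a b Fa Fb 2 P ^ 2) ∧
    (∀ᵐ P : X ∂(volume.restrict (pl (vs (md a b)))), ∀ c : ℝ,
      Tendsto (fun n => plq B (en n) V T (md a b) P) atTop (𝓝 c) → c ≤ 0) := by
  have hNx : Nx R (md a b) := nx_of_PD hPD
  obtain ⟨hv, mrk, mpl, -, -, mrr⟩ := h_VSM R (md a b) hNx
  have hδ : Tendsto (fun n => ENNReal.ofReal (DF B (en n) Ω a b v₁ Fa Fb)) atTop (𝓝 0) := by
    have h1 := (h_DFL B R Ω a b v₁ Fa Fb F V T hB hPD hRD).comp en_tendsto'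
    rw [hE, sub_self] at h1
    have h2 := ENNReal.tendsto_ofReal h1
    rw [ENNReal.ofReal_zero] at h2
    exact h2
  have hT := fun n => (h_TRC B (en n) R Ω a b v₁ Fa Fb F V T hB (en_pos n) hPD hS hRD).2
  have mem : ∀ i, Measurable (em B a b Fa Fb i) := by
    intro i
    exact (((hPD.mFa i).sub ((Ap_meas B i).mul hPD.mb)).pow_const 2).add
      (((hPD.mFb i).add ((Ap_meas B i).mul hPD.ma)).pow_const 2)
  refine ⟨?_, ?_, ?_⟩
  · refine fatou (fun n => ?_) hδ fun n => ?_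
    · exact ((mem 0).add (mem 1)).sub (INT_.Yx_meas hPD.ma hPD.mb hPD.mFa hPD.mFb mrk mpl
        (meas_Kq hRD.mV hRD.mT) (meas_Qe hRD.mV hRD.mT mrr))
    · exact le_trans (le_trans le_self_add le_self_add) (hT n)
  · have h1 := fatou (μ := volume) (g := fun _ P => em B a b Fa Fb 2 P - mg a b Fa Fb 2 P ^ 2)
      (fun _ => (mem 2).sub ((mg_meas hPD 2).pow_const 2)) hδ
      (fun n => le_trans (le_trans le_add_self le_self_add) (hT n))
    filter_upwards [h1] with P hP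
    have := hP _ tendsto_const_nhds
    linarith
  · refine fatou (fun n => ?_) hδ fun n => le_trans le_add_self (hT n)
    have hn : Measurable fun P : X => (‖P.1‖, P.2) := measurable_fst.norm.prodMk measurable_snd
    have k1 : Measurable fun P : X => Kq B V T ‖P.1‖ P.2 := (meas_Kq hRD.mV hRD.mT).comp hn
    have k2 : Measurable fun P : X => Qe (en n) V T (md a b) ‖P.1‖ P.2 :=
      (meas_Qe hRD.mV hRD.mT mrr).comp hn
    exact (measurable_const.sub (k1.pow_const 2)).mul (k2.pow_const 2)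

/-- where `vs f` is positive, the radial ground state is positive and strictly monotone -/
lemma good {B R : ℝ} {Ω : Set X} {a b v₁ : X → ℝ} {Fa Fb F : Fin 3 → X → ℝ}
    {V T : ℝ → ℝ → ℝ} (hPD : PD Ω R a b Fa Fb) (hRD : RD B (Ost Ω) v₁ F V T) :
    ∀ᵐ P : X, 0 < vs (md a b) P →
      0 < V ‖P.1‖ P.2 ∧ B / 2 * ‖P.1‖ * V ‖P.1‖ P.2 < T ‖P.1‖ P.2 := by
  filter_upwards [hRD.pos] with P hP h
  refine hP ?_
  by_contra h1
  have h2 := DFL_.vs_zero hPD.bdd (f := md a b) (fun P hP => by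
    obtain ⟨h3, h4, -⟩ := hPD.zero P hP
    unfold md
    rw [h3, h4]
    simp) P h1
  rw [h2] at h
  exact lt_irrefl _ h

end EQE_

open EQE_ TRC_ in
/-- EQE -/
theorem p_EQE (h_TRC : T_TRC) (h_DFL : T_DFL) (h_EQX : T_EQX) (h_ALG : T_ALG) (h_VSM : T_VSM) :
    T_EQE := by
  intro B R Ω a b v₁ Fa Fb F V T hB hPD hS hRD
  have hlim := h_DFL B R Ω a b v₁ Fa Fb F V T hB hPD hRD
  refine ⟨?_, ?_⟩
  · have h1 : 0 ≤ EM B a b Fa Fb - lamR B (Ost Ω) * ∫ P, (a P ^ 2 + b P ^ 2) := by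
      refine ge_of_tendsto hlim ?_
      filter_upwards [self_mem_nhdsWithin] with ε hε
      exact (h_TRC B ε R Ω a b v₁ Fa Fb F V T hB hε hPD hS hRD).1
    linarith
  intro hE
  have hNx : Nx R (md a b) := nx_of_PD hPD
  obtain ⟨hv, mrk, mpl, -, -, mrr⟩ := h_VSM R (md a b) hNx
  obtain ⟨-, -, mplv, -, -, -⟩ := h_VSM R (vs (md a b)) hv
  obtain ⟨-, hX2, hX3, hX4, -⟩ := h_EQX R (md a b) hNx
  obtain ⟨hA, hM, hC⟩ := core h_TRC h_DFL h_VSM hB hPD hS hRD hE
  have hG := good hPD hRD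
  -- no plateaus
  have hplv : volume (pl (vs (md a b))) = 0 := by
    have h1 : ∀ᵐ P : X ∂(volume.restrict (pl (vs (md a b)))), False := by
      have h2 : ∀ᵐ P : X ∂(volume.restrict (pl (vs (md a b)))), P ∈ pl (vs (md a b)) :=
        ae_restrict_mem mplv
      filter_upwards [hC, h2, ae_restrict_of_ae hG] with P h3 h4 h5
      obtain ⟨hV, hT⟩ := h5 h4.1
      obtain ⟨hT0, hK, hK1⟩ := Kq_good hB (norm_nonneg P.1) hV hT
      have hv0 : 0 < rr (sl (md a b) P.2) |‖P.1‖| := by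
        rw [abs_norm]
        exact h4.1
      have h6 : Tendsto (fun n => plq B (en n) V T (md a b) P) atTop
          (𝓝 ((1 - Kq B V T ‖P.1‖ P.2 ^ 2) *
            (T ‖P.1‖ P.2 / V ‖P.1‖ P.2 * rr (sl (md a b) P.2) |‖P.1‖|) ^ 2)) := by
        unfold plq
        exact tendsto_const_nhds.mul ((tendsto_Qe hV).pow 2)
      have h7 := h3 _ h6
      have h8 := (Kq_mem hB hRD.nn hRD.nnT ‖P.1‖ P.2).1
      have h9 : 0 < 1 - Kq B V T ‖P.1‖ P.2 ^ 2 := by nlinarith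
      have h10 : 0 < T ‖P.1‖ P.2 / V ‖P.1‖ P.2 * rr (sl (md a b) P.2) |‖P.1‖| := by positivity
      have h11 : 0 < (1 - Kq B V T ‖P.1‖ P.2 ^ 2) *
          (T ‖P.1‖ P.2 / V ‖P.1‖ P.2 * rr (sl (md a b) P.2) |‖P.1‖|) ^ 2 := by positivity
      linarith
    rw [ae_iff] at h1
    simpa using h1
  have hpl : volume (pl (md a b)) = 0 := hX3.trans hplv
  refine ⟨hpl, ?_⟩
  -- the good points
  have hgood : ∀ᵐ P : X, 0 < md a b P → P ∉ pl (md a b) →
      0 < V (rk (md a b) P) P.2 ∧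
      B / 2 * rk (md a b) P * V (rk (md a b) P) P.2 < T (rk (md a b) P) P.2 := by
    have mG : MeasurableSet {p : ℝ × ℝ × ℝ | 0 < V p.1 p.2.1 ∧
        B / 2 * p.1 * V p.1 p.2.1 < T p.1 p.2.1} := by
      have hp : Measurable fun p : ℝ × ℝ × ℝ => (p.1, p.2.1) :=
        measurable_fst.prodMk (measurable_fst.comp measurable_snd)
      have k1 : Measurable fun p : ℝ × ℝ × ℝ => V p.1 p.2.1 := hRD.mV.comp hp
      have k2 : Measurable fun p : ℝ × ℝ × ℝ => T p.1 p.2.1 := hRD.mT.comp hp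
      exact (measurableSet_lt measurable_const k1).inter
        (measurableSet_lt ((measurable_fst.const_mul (B / 2)).mul k1) k2)
    have h1 := hX2 (({p : ℝ × ℝ × ℝ | 0 < V p.1 p.2.1 ∧
        B / 2 * p.1 * V p.1 p.2.1 < T p.1 p.2.1}ᶜ).indicator fun _ => 1)
      (measurable_const.indicator mG.compl)
    have h2 : ∫⁻ P in {P : X | 0 < vs (md a b) P ∧ P ∉ pl (vs (md a b))},
        ({p : ℝ × ℝ × ℝ | 0 < V p.1 p.2.1 ∧
          B / 2 * p.1 * V p.1 p.2.1 < T p.1 p.2.1}ᶜ).indicator (fun _ => (1 : ℝ≥0∞))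
          (‖P.1‖, P.2, vs (md a b) P) = 0 := by
      have mS : MeasurableSet {P : X | 0 < vs (md a b) P ∧ P ∉ pl (vs (md a b))} :=
        (measurableSet_lt measurable_const hv.m).inter mplv.compl
      have h3 : ∀ᵐ P : X ∂(volume.restrict {P : X | 0 < vs (md a b) P ∧ P ∉ pl (vs (md a b))}),
          ({p : ℝ × ℝ × ℝ | 0 < V p.1 p.2.1 ∧
          B / 2 * p.1 * V p.1 p.2.1 < T p.1 p.2.1}ᶜ).indicator (fun _ => (1 : ℝ≥0∞))
          (‖P.1‖, P.2, vs (md a b) P) = 0 := by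
        filter_upwards [ae_restrict_mem mS, ae_restrict_of_ae hG] with P h4 h5
        refine indicator_of_notMem ?_ _
        intro h6
        exact h6 (h5 h4.1)
      rw [lintegral_congr_ae h3]
      simp
    rw [h2] at h1
    have mI : Measurable fun P : X => ({p : ℝ × ℝ × ℝ | 0 < V p.1 p.2.1 ∧
        B / 2 * p.1 * V p.1 p.2.1 < T p.1 p.2.1}ᶜ).indicator (fun _ => (1 : ℝ≥0∞))
          (rk (md a b) P, P.2, md a b P) :=
      (measurable_const.indicator mG.compl).comp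
        (mrk.prodMk (measurable_snd.prodMk hNx.m))
    rw [lintegral_eq_zero_iff mI] at h1
    have mS : MeasurableSet {P : X | 0 < md a b P ∧ P ∉ pl (md a b)} :=
      (measurableSet_lt measurable_const hNx.m).inter mpl.compl
    have h3 := (ae_restrict_iff' mS).1 h1
    filter_upwards [h3] with P h4 h5 h6
    have h7 := h4 ⟨h5, h6⟩
    by_contra h8
    have h9 : (rk (md a b) P, P.2, md a b P) ∈ ({p : ℝ × ℝ × ℝ | 0 < V p.1 p.2.1 ∧
        B / 2 * p.1 * V p.1 p.2.1 < T p.1 p.2.1}ᶜ) := h8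
    have h10 : ({p : ℝ × ℝ × ℝ | 0 < V p.1 p.2.1 ∧
        B / 2 * p.1 * V p.1 p.2.1 < T p.1 p.2.1}ᶜ).indicator (fun _ => (1 : ℝ≥0∞))
          (rk (md a b) P, P.2, md a b P) = 1 := indicator_of_mem h9 _
    have h11 : ({p : ℝ × ℝ × ℝ | 0 < V p.1 p.2.1 ∧
        B / 2 * p.1 * V p.1 p.2.1 < T p.1 p.2.1}ᶜ).indicator (fun _ => (1 : ℝ≥0∞))
          (rk (md a b) P, P.2, md a b P) = 0 := h7
    rw [h10] at h11
    exact one_ne_zero h11
  have hnp : ∀ᵐ P : X, P ∉ pl (md a b) := measure_eq_zero_iff_ae_notMem.1 hpl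
  filter_upwards [hA, hM, hX4, hgood, hnp] with P h1 h2 h3 h4 h5 h6
  obtain ⟨hV, hT⟩ := h4 h6 h5
  have hrk0 : 0 ≤ rk (md a b) P := Real.sqrt_nonneg _
  obtain ⟨hT0, hK, hK1⟩ := Kq_good hB hrk0 hV hT
  have hrr := h3 h6
  have hKm := Kq_mem hB hRD.nn hRD.nnT (rk (md a b) P) P.2
  -- the limit
  have hmem : P ∈ INT_.S (md a b) := by
    rw [INT_.S_eq]
    exact ⟨h6, h5⟩
  have hq : Tendsto (fun n => Qe (en n) V T (md a b) (rk (md a b) P) P.2) atTop
      (𝓝 (T (rk (md a b) P) P.2 / V (rk (md a b) P) P.2 * md a b P)) := by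
    have h7 := tendsto_Qe (T := T) (f := md a b) hV
    rw [abs_of_nonneg hrk0, hrr] at h7
    exact h7
  set κ : ℝ := Kq B V T (rk (md a b) P) P.2 with hκ
  set q : ℝ := T (rk (md a b) P) P.2 / V (rk (md a b) P) P.2 * md a b P with hqd
  have hq0 : 0 < q := by positivity
  have hlimY : Tendsto (fun n => Yx B a b Fa Fb (Kq B V T) (Qe (en n) V T (md a b)) P) atTop
      (𝓝 (2 * κ * Wx B a b Fa Fb P + 2 * (1 - κ ^ 2) * q * gx (mg a b Fa Fb) P -
        (1 - κ ^ 2) * q ^ 2)) := by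
    have e : (fun n => Yx B a b Fa Fb (Kq B V T) (Qe (en n) V T (md a b)) P) = fun n =>
        2 * κ * Wx B a b Fa Fb P +
          2 * (1 - κ ^ 2) * Qe (en n) V T (md a b) (rk (md a b) P) P.2 *
            gx (mg a b Fa Fb) P -
          (1 - κ ^ 2) * Qe (en n) V T (md a b) (rk (md a b) P) P.2 ^ 2 := by
      funext n
      rw [INT_.Yx_eq, if_pos hmem]
      rfl
    rw [e]
    exact (tendsto_const_nhds.add ((tendsto_const_nhds.mul hq).mul tendsto_const_nhds)).sub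
      (tendsto_const_nhds.mul (hq.pow 2))
  have h7 := h1 _ (tendsto_const_nhds.sub hlimY)
  obtain ⟨ha1, ha2, ha3⟩ := h_ALG B (sl a P.2) (sl b P.2) (sl2 Fa P.2) (sl2 Fb P.2) P.1 h6
  obtain ⟨hb1, hb2⟩ := ha3 κ q hKm.1 hKm.2 hq0.le
  have hb1' : 2 * κ * Wx B a b Fa Fb P + 2 * (1 - κ ^ 2) * q * gx (mg a b Fa Fb) P -
        (1 - κ ^ 2) * q ^ 2 ≤ eq2 B (sl a P.2) (sl b P.2) (sl2 Fa P.2) (sl2 Fb P.2) P.1 := hb1
  have heq : 2 * κ * Wx B a b Fa Fb P + 2 * (1 - κ ^ 2) * q * gx (mg a b Fa Fb) P -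
        (1 - κ ^ 2) * q ^ 2 = eq2 B (sl a P.2) (sl b P.2) (sl2 Fa P.2) (sl2 Fb P.2) P.1 := by
    refine le_antisymm hb1' ?_
    rw [eq2_eq]
    linarith
  obtain ⟨hc1, hc2, hc3⟩ := hb2 heq hK1
  have hc1' : gx (mg a b Fa Fb) P = q := hc1
  have hc2' : hx B a b Fa Fb P = κ * q := hc2
  have hc3' : 0 < κ → Wx B a b Fa Fb P = gx (mg a b Fa Fb) P * hx B a b Fa Fb P := hc3
  have ha2' : |Wx B a b Fa Fb P| ≤ gx (mg a b Fa Fb) P * hx B a b Fa Fb P := ha2
  refine ⟨hV, hT, hc1', ?_, ?_, ?_⟩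
  · rw [hc2', hK, hqd]
    field_simp
  · rcases eq_or_lt_of_le hKm.1 with hk | hk
    · have hh : hx B a b Fa Fb P = 0 := by
        rw [hc2', ← hk, zero_mul]
      rw [hh, mul_zero] at ha2' ⊢
      exact abs_nonpos_iff.1 ha2'
    · exact hc3' hk
  · have he2 : em B a b Fa Fb 2 P = Fa 2 P ^ 2 + Fb 2 P ^ 2 := by
      unfold em
      have : Ap B 2 P = 0 := rfl
      rw [this]
      ring
    rw [he2] at h2
    unfold mg at h2
    have h8 : md a b P ^ 2 = a P ^ 2 + b P ^ 2 := Real.sq_sqrt (by positivity)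
    rw [div_pow, le_div_iff₀ (by positivity), h8] at h2
    have h9 : (a P * Fb 2 P - b P * Fa 2 P) ^ 2 ≤ 0 := by nlinarith
    exact pow_eq_zero_iff (two_ne_zero) |>.1 (le_antisymm h9 (sq_nonneg _))

end MGS
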