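import Pool.Agent.MGS.TD

/-!
# MGS-EQM: equimeasurability
-/

set_option autoImplicit false

open MeasureTheory Filter Topology Metric Set
open scoped ENNReal NNReal ContDiff

noncomputable section

namespace MGS

namespace EQM_

/-- the law of a function on the set where it is positive -/
def law (u : ℂ → ℝ) : Measure ℝ := (volume.restrict {x : ℂ | 0 < u x}).map u

variable {R : ℝ} {u : ℂ → ℝ}

lemma law_apply (hu : Nc R u) {S : Set ℝ} (hS : MeasurableSet S) :
    law u S = volume (u ⁻¹' S ∩ {x : ℂ | 0 < u x}) := by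
  unfold law
  rw [Measure.map_apply hu.m hS, Measure.restrict_apply (hu.m hS)]

lemma fin (hu : Nc R u) : IsFiniteMeasure (law u) := by
  refine ⟨?_⟩
  rw [law_apply hu MeasurableSet.univ]
  calc volume (u ⁻¹' univ ∩ {x : ℂ | 0 < u x}) ≤ volume (ball (0 : ℂ) R) := by
        apply measure_mono
        rintro x ⟨-, hx⟩
        rw [mem_ball_zero_iff]
        by_contra h
        have h1 := hu.z x (not_lt.1 h)
        rw [mem_ofPred_eq, h1] at hx
        exact lt_irrefl _ hx
    _ < ⊤ := measure_ball_lt_top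

lemma law_Ioi (hu : Nc R u) (a : ℝ) : law u (Ioi a) = volume {x : ℂ | max a 0 < u x} := by
  rw [law_apply hu measurableSet_Ioi]
  congr 1
  ext x
  simp only [mem_inter_iff, mem_preimage, mem_Ioi, mem_ofPred_eq, max_lt_iff]

lemma lint (hu : Nc R u) {Ξ : ℝ → ℝ≥0∞} (hΞ : Measurable Ξ) (h0 : Ξ 0 = 0) :
    ∫⁻ x, Ξ (u x) = ∫⁻ s, Ξ s ∂(law u) := by
  unfold law
  have hm : MeasurableSet {x : ℂ | 0 < u x} := measurableSet_lt measurable_const hu.m
  rw [lintegral_map hΞ hu.m, ← lintegral_indicator hm]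
  congr 1
  funext x
  by_cases hx : 0 < u x
  · rw [indicator_of_mem (by exact hx)]
  · rw [indicator_of_notMem (by exact hx)]
    have : u x = 0 := le_antisymm (not_lt.1 hx) (hu.nn x)
    rw [this, h0]

end EQM_

open EQM_ in
theorem p_EQM (h_RR1 : T_RR1) : T_EQM := by
  intro R g hg
  obtain ⟨-, -, -, hvol, hv⟩ := h_RR1 R g hg
  have hlaw : law (fun x : ℂ => rr g ‖x‖) = law g := by
    have i1 := fin hv
    have i2 := fin hg
    have key : ∀ a, law (fun x : ℂ => rr g ‖x‖) (Ioi a) = law g (Ioi a) := by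
      intro a
      rw [law_Ioi hv, law_Ioi hg]
      exact hvol _ (le_max_right _ _)
    apply Measure.ext_of_Ioc
    intro a b hab
    have e1 : Ioc a b = Ioi a \ Ioi b := by
      ext x
      simp only [mem_Ioc, Set.mem_sdiff, mem_Ioi, not_lt]
    rw [e1, measure_sdiff (Ioi_subset_Ioi hab.le) measurableSet_Ioi.nullMeasurableSet
      (measure_ne_top _ _), measure_sdiff (Ioi_subset_Ioi hab.le)
      measurableSet_Ioi.nullMeasurableSet (measure_ne_top _ _), key, key]
  refine ⟨?_, ?_, ?_⟩
  · intro Ξ hΞ h0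
    rw [lint hv hΞ h0, lint hg hΞ h0, hlaw]
  · intro s hs
    unfold ar
    rw [hvol s hs]
  · intro s hs
    have e : ∀ u : ℂ → ℝ, Nc R u → law u {s} = volume {x : ℂ | u x = s} := by
      intro u hu
      rw [law_apply hu (measurableSet_singleton s)]
      congr 1
      ext x
      simp only [mem_inter_iff, mem_preimage, mem_singleton_iff, mem_ofPred_eq]
      constructor
      · exact fun h => h.1
      · exact fun h => ⟨h, h ▸ hs⟩
    rw [← e _ hv, ← e _ hg, hlaw]

end MGS
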