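import Pool.Agent.MGS.TE

/-!
# MGS-EQX: equimeasurability over the slices (helper50)
-/

set_option autoImplicit false

open MeasureTheory Filter Topology Metric Set
open scoped ENNReal NNReal ContDiff

noncomputable section

namespace MGS

namespace EQX_

variable {R : ℝ} {g : ℂ → ℝ}

lemma meas_lev (hg : Measurable g) : Measurable fun s : ℝ => volume {y : ℂ | g y = s} := by
  have hS : MeasurableSet {q : ℝ × ℂ | g q.2 = q.1} :=
    measurableSet_eq_fun (hg.comp measurable_snd) measurable_fst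
  exact measurable_measure_prodMk_left hS

lemma meas_ar (hg : Measurable g) : Measurable fun s : ℝ => ar g s := by
  have hS : MeasurableSet {q : ℝ × ℂ | q.1 < g q.2} :=
    measurableSet_lt measurable_fst (hg.comp measurable_snd)
  exact (measurable_measure_prodMk_left hS).ennreal_toReal

lemma meas_rad (hg : Measurable g) : Measurable fun s : ℝ => rad g s :=
  ((meas_ar hg).div_const _).sqrt

/-- the part without plateaus -/
lemma slice2 (h_EQM : T_EQM) (h_RKV : T_RKV) (hg : Nc R g) (Ξ : ℝ → ℝ → ℝ≥0∞)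
    (hΞ : Measurable (Function.uncurry Ξ)) :
    ∫⁻ x, {x : ℂ | 0 < g x ∧ ¬ (0 < g x ∧ 0 < volume {y : ℂ | g y = g x})}.indicator
        (fun x => Ξ (rad g (g x)) (g x)) x =
      ∫⁻ x, {x : ℂ | 0 < rr g ‖x‖ ∧
          ¬ (0 < rr g ‖x‖ ∧ 0 < volume {y : ℂ | rr g ‖y‖ = rr g ‖x‖})}.indicator
        (fun x => Ξ ‖x‖ (rr g ‖x‖)) x := by
  classical
  have hS : MeasurableSet {s : ℝ | 0 < s ∧ volume {y : ℂ | g y = s} = 0} :=
    (measurableSet_lt measurable_const measurable_id).inter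
      (measurableSet_eq_fun (meas_lev hg.m) measurable_const)
  set Θ : ℝ → ℝ≥0∞ := {s : ℝ | 0 < s ∧ volume {y : ℂ | g y = s} = 0}.indicator
    (fun s => Ξ (rad g s) s) with hΘ
  have hΘm : Measurable Θ := by
    refine Measurable.indicator ?_ hS
    exact hΞ.comp ((meas_rad hg.m).prodMk measurable_id)
  have hΘ0 : Θ 0 = 0 := by
    rw [hΘ, indicator_of_notMem]
    rintro ⟨h, -⟩
    exact lt_irrefl _ h
  obtain ⟨h1, -, h3⟩ := h_EQM R g hg
  have key := h1 Θ hΘm hΘ0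
  have e1 : ∀ x, {x : ℂ | 0 < g x ∧ ¬ (0 < g x ∧ 0 < volume {y : ℂ | g y = g x})}.indicator
        (fun x => Ξ (rad g (g x)) (g x)) x = Θ (g x) := by
    intro x
    rw [hΘ]
    by_cases hx : 0 < g x ∧ volume {y : ℂ | g y = g x} = 0
    · rw [indicator_of_mem (show g x ∈ {s : ℝ | 0 < s ∧ volume {y : ℂ | g y = s} = 0} from hx),
        indicator_of_mem]
      refine ⟨hx.1, fun h => ?_⟩
      rw [hx.2] at h
      exact lt_irrefl _ h.2
    · rw [indicator_of_notMem (show g x ∉ {s : ℝ | 0 < s ∧ volume {y : ℂ | g y = s} = 0} from hx),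
        indicator_of_notMem]
      rintro ⟨h2, h4⟩
      refine hx ⟨h2, ?_⟩
      by_contra h5
      exact h4 ⟨h2, pos_iff_ne_zero.2 h5⟩
  have e2 : ∀ᵐ x : ℂ, Θ (rr g ‖x‖) = {x : ℂ | 0 < rr g ‖x‖ ∧
          ¬ (0 < rr g ‖x‖ ∧ 0 < volume {y : ℂ | rr g ‖y‖ = rr g ‖x‖})}.indicator
        (fun x => Ξ ‖x‖ (rr g ‖x‖)) x := by
    have h0 : ∀ᵐ x : ℂ, x ≠ 0 := by
      rw [ae_iff]
      simp
    filter_upwards [h0] with x hx0
    by_cases hx : 0 < rr g ‖x‖ ∧ volume {y : ℂ | g y = rr g ‖x‖} = 0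
    · have h4 : volume {y : ℂ | rr g ‖y‖ = rr g ‖x‖} = 0 := by
        rw [h3 _ hx.1, hx.2]
      rw [hΘ, indicator_of_mem (show rr g ‖x‖ ∈
        {s : ℝ | 0 < s ∧ volume {y : ℂ | g y = s} = 0} from hx), indicator_of_mem,
        h_RKV R g hg x hx0 hx.1 h4]
      refine ⟨hx.1, fun h => ?_⟩
      rw [h4] at h
      exact lt_irrefl _ h.2
    · rw [hΘ, indicator_of_notMem (show rr g ‖x‖ ∉
        {s : ℝ | 0 < s ∧ volume {y : ℂ | g y = s} = 0} from hx), indicator_of_notMem]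
      rintro ⟨h2, h4⟩
      refine hx ⟨h2, ?_⟩
      rw [← h3 _ h2]
      by_contra h5
      exact h4 ⟨h2, pos_iff_ne_zero.2 h5⟩
  calc _ = ∫⁻ x, Θ (g x) := lintegral_congr e1
    _ = ∫⁻ x : ℂ, Θ (rr g ‖x‖) := key.symm
    _ = _ := lintegral_congr_ae e2

/-- the plateaus -/
lemma slice3 (h_RR1 : T_RR1) (h_EQM : T_EQM) (hg : Nc R g) :
    volume {x : ℂ | 0 < g x ∧ 0 < volume {y : ℂ | g y = g x}} =
      volume {x : ℂ | 0 < rr g ‖x‖ ∧ 0 < volume {y : ℂ | rr g ‖y‖ = rr g ‖x‖}} := by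
  classical
  have hS : MeasurableSet {s : ℝ | 0 < s ∧ 0 < volume {y : ℂ | g y = s}} :=
    (measurableSet_lt measurable_const measurable_id).inter
      (measurableSet_lt measurable_const (meas_lev hg.m))
  obtain ⟨h1, -, h3⟩ := h_EQM R g hg
  have key := h1 ({s : ℝ | 0 < s ∧ 0 < volume {y : ℂ | g y = s}}.indicator (fun _ => 1))
    (measurable_const.indicator hS) (by
      rw [indicator_of_notMem]
      rintro ⟨h, -⟩
      exact lt_irrefl _ h)
  have hm : Measurable fun x : ℂ => rr g ‖x‖ := (h_RR1 R g hg).2.2.2.2.m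
  have e : ∀ u : ℂ → ℝ, Measurable u →
      ∫⁻ x, {s : ℝ | 0 < s ∧ 0 < volume {y : ℂ | g y = s}}.indicator (fun _ => 1) (u x) =
        volume {x : ℂ | 0 < u x ∧ 0 < volume {y : ℂ | g y = u x}} := by
    intro u hu
    have e1 : (fun x => {s : ℝ | 0 < s ∧ 0 < volume {y : ℂ | g y = s}}.indicator
        (fun _ => (1 : ℝ≥0∞)) (u x)) =
        (u ⁻¹' {s : ℝ | 0 < s ∧ 0 < volume {y : ℂ | g y = s}}).indicator (fun _ => 1) := by
      funext x
      rfl
    rw [e1, lintegral_indicator (hu hS), setLIntegral_one]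
    rfl
  rw [e _ hg.m, e _ hm] at key
  rw [← key]
  congr 1
  ext x
  constructor
  · rintro ⟨h4, h5⟩
    exact ⟨h4, by rw [h3 _ h4]; exact h5⟩
  · rintro ⟨h4, h5⟩
    exact ⟨h4, by rw [h3 _ h4] at h5; exact h5⟩

/-- the rank radius is positive -/
lemma slice5 (h_RKF : T_RKF) (hg : Nc R g) :
    ∀ᵐ x, 0 < g x → ¬ (0 < g x ∧ 0 < volume {y : ℂ | g y = g x}) → 0 < rad g (g x) := by
  have h1 := h_RKF R g hg
  by_cases h0 : volume {y : ℂ | g y = rr g 0} = 0
  · have h2 : ∀ᵐ x, g x ≠ rr g 0 := by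
      rw [ae_iff]
      simpa using h0
    filter_upwards [h1, h2] with x hx hx2 hx3 _
    have h4 : 0 ≤ rad g (g x) := Real.sqrt_nonneg _
    rcases h4.lt_or_eq with h5 | h5
    · exact h5
    · exfalso
      have h6 := hx hx3
      rw [← h5] at h6
      exact hx2 h6.symm
  · filter_upwards [h1] with x hx hx3 hx4
    have h4 : 0 ≤ rad g (g x) := Real.sqrt_nonneg _
    rcases h4.lt_or_eq with h5 | h5
    · exact h5
    · exfalso
      have h6 := hx hx3
      rw [← h5] at h6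
      refine hx4 ⟨hx3, ?_⟩
      rw [← h6]
      exact pos_iff_ne_zero.2 h0

/-- almost everywhere on almost every slice -/
lemma ae_slice {p : X → Prop} (hp : MeasurableSet {P : X | p P})
    (h : ∀ z : ℝ, ∀ᵐ x : ℂ, p (x, z)) : ∀ᵐ P : X, p P := by
  rw [ae_iff]
  have h1 : MeasurableSet {P : X | ¬ p P} := hp.compl
  have h2 : (volume : Measure X) {P : X | ¬ p P} =
      ∫⁻ z : ℝ, volume ((fun x : ℂ => (x, z)) ⁻¹' {P : X | ¬ p P}) :=
    Measure.prod_apply_symm h1
  rw [h2]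
  have h3 : ∀ z : ℝ, volume ((fun x : ℂ => (x, z)) ⁻¹' {P : X | ¬ p P}) = 0 := fun z => by
    have := h z
    rw [ae_iff] at this
    exact this
  simp only [h3, lintegral_zero]

end EQX_

open EQX_ in
theorem p_EQX (h_RR1 : T_RR1) (h_EQM : T_EQM) (h_RKV : T_RKV) (h_RKF : T_RKF)
    (h_VSM : T_VSM) : T_EQX := by
  classical
  intro R f hf
  obtain ⟨hv, hrk, hpl, har, hsl, hrr⟩ := h_VSM R f hf
  obtain ⟨-, hrkv, hplv, -, -, -⟩ := h_VSM R (vs f) hv
  have hS : MeasurableSet {P : X | 0 < f P ∧ P ∉ pl f} :=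
    (measurableSet_lt measurable_const hf.m).inter hpl.compl
  have hSv : MeasurableSet {P : X | 0 < vs f P ∧ P ∉ pl (vs f)} :=
    (measurableSet_lt measurable_const hv.m).inter hplv.compl
  have hcmp : Measurable fun P : X => rr (sl f P.2) (rk f P) := by
    have : (fun P : X => rr (sl f P.2) (rk f P)) =
        (fun p : ℝ × ℝ => rr (sl f p.2) |p.1|) ∘ fun P : X => (rk f P, P.2) := by
      funext P
      have h0 : 0 ≤ rk f P := Real.sqrt_nonneg _
      show _ = rr (sl f P.2) |rk f P|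
      rw [abs_of_nonneg h0]
    rw [this]
    exact hrr.comp (hrk.prodMk measurable_snd)
  refine ⟨?_, ?_, ?_, ?_, ?_⟩
  · intro Ξ hΞ h0
    have e1 : ∫⁻ P : X, Ξ (P.2, vs f P) = ∫⁻ z : ℝ, ∫⁻ x : ℂ, Ξ (z, vs f (x, z)) :=
      lintegral_prod_symm' _ (hΞ.comp (measurable_snd.prodMk hv.m))
    have e2 : ∫⁻ P : X, Ξ (P.2, f P) = ∫⁻ z : ℝ, ∫⁻ x : ℂ, Ξ (z, f (x, z)) :=
      lintegral_prod_symm' _ (hΞ.comp (measurable_snd.prodMk hf.m))
    rw [e1, e2]
    refine lintegral_congr fun z => ?_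
    exact (h_EQM R _ (hsl z)).1 (fun s => Ξ (z, s)) (hΞ.comp (measurable_const.prodMk measurable_id))
      (h0 z)
  · intro Ξ hΞ
    have hF : Measurable fun P : X => Ξ (rk f P, P.2, f P) :=
      hΞ.comp (hrk.prodMk (measurable_snd.prodMk hf.m))
    have hFv : Measurable fun P : X => Ξ (‖P.1‖, P.2, vs f P) :=
      hΞ.comp (measurable_fst.norm.prodMk (measurable_snd.prodMk hv.m))
    rw [← lintegral_indicator hS, ← lintegral_indicator hSv]
    have e1 : ∫⁻ P : X, {P : X | 0 < f P ∧ P ∉ pl f}.indicator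
        (fun P => Ξ (rk f P, P.2, f P)) P = ∫⁻ z : ℝ, ∫⁻ x : ℂ,
        {P : X | 0 < f P ∧ P ∉ pl f}.indicator (fun P => Ξ (rk f P, P.2, f P)) (x, z) :=
      lintegral_prod_symm' _ (hF.indicator hS)
    have e2 : ∫⁻ P : X, {P : X | 0 < vs f P ∧ P ∉ pl (vs f)}.indicator
        (fun P => Ξ (‖P.1‖, P.2, vs f P)) P = ∫⁻ z : ℝ, ∫⁻ x : ℂ,
        {P : X | 0 < vs f P ∧ P ∉ pl (vs f)}.indicator
          (fun P => Ξ (‖P.1‖, P.2, vs f P)) (x, z) :=
      lintegral_prod_symm' _ (hFv.indicator hSv)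
    rw [e1, e2]
    refine lintegral_congr fun z => ?_
    exact slice2 h_EQM h_RKV (hsl z) (fun r s => Ξ (r, z, s))
      (hΞ.comp (measurable_fst.prodMk (measurable_const.prodMk measurable_snd)))
  · have e1 : (volume : Measure X) (pl f) =
        ∫⁻ z : ℝ, volume ((fun x : ℂ => (x, z)) ⁻¹' (pl f)) := Measure.prod_apply_symm hpl
    have e2 : (volume : Measure X) (pl (vs f)) =
        ∫⁻ z : ℝ, volume ((fun x : ℂ => (x, z)) ⁻¹' (pl (vs f))) := Measure.prod_apply_symm hplv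
    rw [e1, e2]
    refine lintegral_congr fun z => ?_
    exact slice3 h_RR1 h_EQM (hsl z)
  · refine ae_slice ?_ fun z => h_RKF R _ (hsl z)
    have : {P : X | 0 < f P → rr (sl f P.2) (rk f P) = f P} =
        {P : X | 0 < f P}ᶜ ∪ {P : X | rr (sl f P.2) (rk f P) = f P} := by
      ext P
      simp only [mem_ofPred_eq, mem_union, mem_compl_iff]
      exact imp_iff_not_or
    rw [this]
    exact (measurableSet_lt measurable_const hf.m).compl.union (measurableSet_eq_fun hcmp hf.m)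
  · refine ae_slice ?_ fun z => slice5 h_RKF (hsl z)
    have : {P : X | 0 < f P → P ∉ pl f → 0 < rk f P} =
        {P : X | 0 < f P}ᶜ ∪ (pl f ∪ {P : X | 0 < rk f P}) := by
      ext P
      simp only [mem_ofPred_eq, mem_union, mem_compl_iff]
      tauto
    rw [this]
    exact (measurableSet_lt measurable_const hf.m).compl.union
      (hpl.union (measurableSet_lt measurable_const hrk))

end MGS
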