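import Pool.Agent.MGS.TA

/-!
# MGS-EXG: existence of a minimizer
-/

set_option autoImplicit false

open MeasureTheory Filter Topology Metric Set
open scoped ENNReal NNReal ContDiff

noncomputable section

namespace MGS

namespace EXG_

/-! ### `L²` -/

lemma sqn {u : X → ℝ} (hu : MemLp u 2 volume) : ∫ P, u P ^ 2 = ‖hu.toLp u‖ ^ 2 := by
  rw [← real_inner_self_eq_norm_sq, L2.inner_def]
  apply integral_congr_ae
  filter_upwards [hu.coeFn_toLp] with P hP
  rw [hP]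
  simp [sq]

lemma int_sq {u : X → ℝ} (hu : MemLp u 2 volume) : Integrable (fun P => u P ^ 2) :=
  hu.integrable_sq

lemma norm_sub {u w : X → ℝ} (hu : MemLp u 2 volume) (hw : MemLp w 2 volume) :
    ‖hu.toLp u - hw.toLp w‖ ^ 2 = ∫ P, (u P - w P) ^ 2 := by
  rw [← MemLp.toLp_sub]
  exact (sqn (hu.sub hw)).symm

lemma tendsto_toLp {u : ℕ → X → ℝ} {w : X → ℝ} (hu : ∀ n, MemLp (u n) 2 volume)
    (hw : MemLp w 2 volume)
    (h : Tendsto (fun n => eLpNorm (fun P => u n P - w P) 2 volume) atTop (𝓝 0)) :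
    Tendsto (fun n => (hu n).toLp (u n)) atTop (𝓝 (hw.toLp w)) :=
  (Lp.tendsto_Lp_iff_tendsto_eLpNorm'' u hu w hw).2 h

lemma complete (u : ℕ → X → ℝ) (hu : ∀ n, MemLp (u n) 2 volume)
    (h : ∀ ε : ℝ, 0 < ε → ∃ N, ∀ n ≥ N, ∀ m ≥ N, ∫ P, (u n P - u m P) ^ 2 ≤ ε) :
    ∃ w, MemLp w 2 volume ∧
      Tendsto (fun n => eLpNorm (fun P => u n P - w P) 2 volume) atTop (𝓝 0) := by
  have hc : CauchySeq (fun n => (hu n).toLp (u n)) := by
    rw [Metric.cauchySeq_iff]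
    intro ε hε
    obtain ⟨N, hN⟩ := h (ε ^ 2 / 4) (by positivity)
    refine ⟨N, fun n hn m hm => ?_⟩
    rw [dist_eq_norm]
    have h1 := hN n hn m hm
    rw [← norm_sub (hu n) (hu m)] at h1
    have h2 : ‖(hu n).toLp (u n) - (hu m).toLp (u m)‖ ≤ ε / 2 := by
      apply le_of_sq_le_sq _ (by positivity)
      calc _ ≤ _ := h1
        _ = _ := by ring
    linarith
  obtain ⟨W, hW⟩ := cauchySeq_tendsto_of_complete hc
  refine ⟨W, Lp.memLp W, ?_⟩
  have h3 : Tendsto (fun n => (hu n).toLp (u n)) atTop (𝓝 ((Lp.memLp W).toLp W)) := by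
    rwa [Lp.toLp_coeFn]
  exact (Lp.tendsto_Lp_iff_tendsto_eLpNorm'' u hu W (Lp.memLp W)).1 h3

lemma cauchy {u : ℕ → X → ℝ} {w : X → ℝ} (hu : ∀ n, MemLp (u n) 2 volume)
    (hw : MemLp w 2 volume)
    (h : Tendsto (fun n => eLpNorm (fun P => u n P - w P) 2 volume) atTop (𝓝 0)) (ε : ℝ)
    (hε : 0 < ε) : ∃ N, ∀ n ≥ N, ∀ m ≥ N, ∫ P, (u n P - u m P) ^ 2 ≤ ε := by
  have h1 := (tendsto_toLp hu hw h).cauchySeq
  rw [Metric.cauchySeq_iff] at h1
  obtain ⟨N, hN⟩ := h1 (Real.sqrt ε) (Real.sqrt_pos.2 hε)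
  refine ⟨N, fun n hn m hm => ?_⟩
  have h2 := hN n hn m hm
  rw [dist_eq_norm] at h2
  rw [← norm_sub (hu n) (hu m)]
  calc ‖(hu n).toLp (u n) - (hu m).toLp (u m)‖ ^ 2 ≤ Real.sqrt ε ^ 2 := by gcongr
    _ = ε := Real.sq_sqrt hε.le

lemma lim_sq {u : ℕ → X → ℝ} {w : X → ℝ} (hu : ∀ n, MemLp (u n) 2 volume)
    (hw : MemLp w 2 volume)
    (h : Tendsto (fun n => eLpNorm (fun P => u n P - w P) 2 volume) atTop (𝓝 0)) :
    Tendsto (fun n => ∫ P, u n P ^ 2) atTop (𝓝 (∫ P, w P ^ 2)) := by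
  rw [sqn hw]
  have h1 : (fun n => ∫ P, u n P ^ 2) = fun n => ‖(hu n).toLp (u n)‖ ^ 2 := by
    funext n
    exact sqn (hu n)
  rw [h1]
  exact ((tendsto_toLp hu hw h).norm).pow 2

/-- common subsequence converging a.e. -/
lemma common {κ : Type} [Finite κ] (u : κ → ℕ → X → ℝ) (w : κ → X → ℝ)
    (hu : ∀ k n, MemLp (u k n) 2 volume) (hw : ∀ k, MemLp (w k) 2 volume)
    (ht : ∀ k, Tendsto (fun n => eLpNorm (fun P => u k n P - w k P) 2 volume) atTop (𝓝 0)) :
    ∃ r : ℕ → ℕ, StrictMono r ∧ ∀ᵐ P, ∀ k, Tendsto (fun n => u k (r n) P) atTop (𝓝 (w k P)) := by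
  have step : ∀ (v : ℕ → X → ℝ) (w : X → ℝ), (∀ n, MemLp (v n) 2 volume) → MemLp w 2 volume →
      Tendsto (fun n => eLpNorm (fun P => v n P - w P) 2 volume) atTop (𝓝 0) →
      ∃ ns : ℕ → ℕ, StrictMono ns ∧ ∀ᵐ P, Tendsto (fun n => v (ns n) P) atTop (𝓝 (w P)) := by
    intro v w hv hw ht
    exact (tendstoInMeasure_of_tendsto_eLpNorm (by norm_num) (fun n => (hv n).1) hw.1
      ht).exists_seq_tendsto_ae
  have key : ∀ s : Set κ, s.Finite → ∃ ms : ℕ → ℕ, StrictMono ms ∧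
      ∀ i ∈ s, ∀ᵐ P, Tendsto (fun n => u i (ms n) P) atTop (𝓝 (w i P)) := by
    intro s hs
    induction s, hs using Set.Finite.induction_on with
    | empty => exact ⟨id, strictMono_id, fun i hi => absurd hi (Set.notMem_empty i)⟩
    | @insert i s _ _ ih =>
      obtain ⟨ms, hms, hm⟩ := ih
      obtain ⟨ks, hks, hk⟩ := step (fun n => u i (ms n)) (w i)
        (fun n => hu _ _) (hw i) ((ht i).comp hms.tendsto_atTop)
      refine ⟨ms ∘ ks, hms.comp hks, ?_⟩
      intro j hj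
      rcases Set.mem_insert_iff.1 hj with rfl | hj
      · exact hk
      · filter_upwards [hm j hj] with P hP
        exact hP.comp hks.tendsto_atTop
  obtain ⟨ms, hms, hm⟩ := key Set.univ Set.finite_univ
  exact ⟨ms, hms, ae_all_iff.2 fun i => hm i (Set.mem_univ i)⟩

/-! ### The energy of pairs of test functions -/

/-- the integrand of the energy -/
def eg (A : Fin 3 → X → ℝ) (V : X → ℝ) (a b : X → ℝ) (Fa Fb : Fin 3 → X → ℝ) (P : X) : ℝ :=
  ∑ i, ((Fa i P - A i P * b P) ^ 2 + (Fb i P + A i P * a P) ^ 2) +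
    V P * (a P ^ 2 + b P ^ 2)

variable {A : Fin 3 → X → ℝ} {V : X → ℝ} {G : Set X}

lemma eg_nonneg (hV : ∀ P, 0 ≤ V P) (a b : X → ℝ) (Fa Fb : Fin 3 → X → ℝ) (P : X) :
    0 ≤ eg A V a b Fa Fb P := by
  unfold eg
  have := hV P
  positivity

lemma eg_cont (hA : ∀ i, Continuous (A i)) (hV : Continuous V) {φ ψ : X → ℝ} (h : Test G φ)
    (h' : Test G ψ) : Continuous (eg A V φ ψ (fun i => pd e3 i φ) (fun i => pd e3 i ψ)) := by
  unfold eg
  apply Continuous.add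
  · apply continuous_finsetSum
    intro i _
    exact (((h.pd_cont i).sub ((hA i).mul h'.smooth.continuous)).pow 2).add
      (((h'.pd_cont i).add ((hA i).mul h.smooth.continuous)).pow 2)
  · exact hV.mul ((h.smooth.continuous.pow 2).add (h'.smooth.continuous.pow 2))

lemma pd_zero {φ : X → ℝ} {P : X} (hP : P ∉ tsupport φ) (i : Fin 3) : pd e3 i φ P = 0 := by
  unfold pd
  have h1 : P ∉ Function.support (fderiv ℝ φ) := fun h => hP (support_fderiv_subset ℝ h)
  rw [Function.notMem_support] at h1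
  rw [h1]
  rfl

lemma eg_cpt {φ ψ : X → ℝ} (h : Test G φ) (h' : Test G ψ) :
    HasCompactSupport (eg A V φ ψ (fun i => pd e3 i φ) (fun i => pd e3 i ψ)) := by
  apply HasCompactSupport.intro (h.cpt.isCompact.union h'.cpt.isCompact)
  intro P hP
  rw [Set.mem_union, not_or] at hP
  have h1 : φ P = 0 := image_eq_zero_of_notMem_tsupport hP.1
  have h2 : ψ P = 0 := image_eq_zero_of_notMem_tsupport hP.2
  unfold eg
  simp only [pd_zero hP.1, pd_zero hP.2, h1, h2]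
  simp

lemma eg_int (hA : ∀ i, Continuous (A i)) (hV : Continuous V) {φ ψ : X → ℝ} (h : Test G φ)
    (h' : Test G ψ) : Integrable (eg A V φ ψ (fun i => pd e3 i φ) (fun i => pd e3 i ψ)) :=
  (eg_cont hA hV h h').integrable_of_hasCompactSupport (eg_cpt h h')

/-- the energy of a pair of test functions -/
def Et (A : Fin 3 → X → ℝ) (V : X → ℝ) (φ ψ : X → ℝ) : ℝ :=
  EG A V φ ψ (fun i => pd e3 i φ) (fun i => pd e3 i ψ)

/-- the mass of a pair -/
def Mt (φ ψ : X → ℝ) : ℝ := ∫ P, (φ P ^ 2 + ψ P ^ 2)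

lemma Mt_int {φ ψ : X → ℝ} (h : MemLp φ 2 volume) (h' : MemLp ψ 2 volume) :
    Integrable (fun P => φ P ^ 2 + ψ P ^ 2) := (int_sq h).add (int_sq h')

lemma Et_par (hA : ∀ i, Continuous (A i)) (hV : Continuous V) {φ ψ φ' ψ' : X → ℝ}
    (h1 : Test G φ) (h2 : Test G ψ) (h3 : Test G φ') (h4 : Test G ψ') :
    Et A V (fun P => φ P + -1 * φ' P) (fun P => ψ P + -1 * ψ' P) +
      Et A V (fun P => φ P + φ' P) (fun P => ψ P + ψ' P) = 2 * Et A V φ ψ + 2 * Et A V φ' ψ' := by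
  have i1 := eg_int hA hV (h1.add (h3.smul (-1))) (h2.add (h4.smul (-1)))
  have i2 := eg_int hA hV (h1.add h3) (h2.add h4)
  have i3 := eg_int hA hV h1 h2
  have i4 := eg_int hA hV h3 h4
  have e1 : ∀ f g : X → ℝ, Et A V f g =
      ∫ P, eg A V f g (fun i => pd e3 i f) (fun i => pd e3 i g) P := fun _ _ => rfl
  rw [e1, e1, e1, e1, ← integral_add i1 i2, ← integral_const_mul, ← integral_const_mul,
    ← integral_add (i3.const_mul 2) (i4.const_mul 2)]
  congr 1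
  funext P
  unfold eg
  have p1 : ∀ i, pd e3 i (fun P => φ P + -1 * φ' P) P = pd e3 i φ P + -1 * pd e3 i φ' P :=
    fun i => by rw [pd_add h1 (h3.smul (-1)), pd_smul h3]
  have p2 : ∀ i, pd e3 i (fun P => ψ P + -1 * ψ' P) P = pd e3 i ψ P + -1 * pd e3 i ψ' P :=
    fun i => by rw [pd_add h2 (h4.smul (-1)), pd_smul h4]
  have p3 : ∀ i, pd e3 i (fun P => φ P + φ' P) P = pd e3 i φ P + pd e3 i φ' P :=
    fun i => pd_add h1 h3 i P
  have p4 : ∀ i, pd e3 i (fun P => ψ P + ψ' P) P = pd e3 i ψ P + pd e3 i ψ' P :=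
    fun i => pd_add h2 h4 i P
  simp only [p1, p2, p3, p4, Fin.sum_univ_three]
  ring

lemma Mt_par {φ ψ φ' ψ' : X → ℝ}
    (h1 : Test G φ) (h2 : Test G ψ) (h3 : Test G φ') (h4 : Test G ψ') :
    Mt (fun P => φ P + -1 * φ' P) (fun P => ψ P + -1 * ψ' P) +
      Mt (fun P => φ P + φ' P) (fun P => ψ P + ψ' P) = 2 * Mt φ ψ + 2 * Mt φ' ψ' := by
  have i1 := Mt_int (h1.add (h3.smul (-1))).memLp (h2.add (h4.smul (-1))).memLp
  have i2 := Mt_int (h1.add h3).memLp (h2.add h4).memLp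
  have i3 := Mt_int h1.memLp h2.memLp
  have i4 := Mt_int h3.memLp h4.memLp
  unfold Mt
  rw [← integral_add i1 i2, ← integral_const_mul, ← integral_const_mul,
    ← integral_add (i3.const_mul 2) (i4.const_mul 2)]
  congr 1
  funext P
  ring

/-- bounds for the gradients -/
lemma grad (hA : ∀ i, Continuous (A i)) (hV : Continuous V) (hV0 : ∀ P, 0 ≤ V P) {C : ℝ}
    (hC : ∀ i, ∀ P ∈ G, |A i P| ≤ C) {φ ψ : X → ℝ} (h : Test G φ) (h' : Test G ψ) :
    ∫ P, ∑ i, pd e3 i φ P ^ 2 ≤ 2 * Et A V φ ψ + 6 * C ^ 2 * Mt φ ψ ∧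
    ∫ P, ∑ i, pd e3 i ψ P ^ 2 ≤ 2 * Et A V φ ψ + 6 * C ^ 2 * Mt φ ψ := by
  have i3 := eg_int hA hV h h'
  have i4 := Mt_int h.memLp h'.memLp
  have key : ∀ a f b : ℝ, a ^ 2 ≤ 2 * (f - b) ^ 2 + 2 * (a - (f - b)) ^ 2 := by
    intro a f b
    nlinarith [sq_nonneg (a - 2 * (f - b))]
  have bd : ∀ (g : X → ℝ), Test G g → ∀ i P, (A i P * g P) ^ 2 ≤ C ^ 2 * g P ^ 2 := by
    intro g hg i P
    by_cases hP : P ∈ G
    · rw [mul_pow]
      apply mul_le_mul_of_nonneg_right _ (sq_nonneg _)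
      have h1 := hC i P hP
      rw [← sq_abs]
      gcongr
    · have : g P = 0 := image_eq_zero_of_notMem_tsupport fun hh => hP (hg.sub hh)
      rw [this]
      simp
  have fin : ∀ w : X → ℝ, (∀ P, w P ≤ 2 * eg A V φ ψ (fun i => pd e3 i φ) (fun i => pd e3 i ψ) P +
      6 * C ^ 2 * (φ P ^ 2 + ψ P ^ 2)) → Integrable w →
      ∫ P, w P ≤ 2 * Et A V φ ψ + 6 * C ^ 2 * Mt φ ψ := by
    intro w hw hi
    have e1 : Et A V φ ψ = ∫ P, eg A V φ ψ (fun i => pd e3 i φ) (fun i => pd e3 i ψ) P := rfl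
    unfold Mt
    rw [e1, ← integral_const_mul, ← integral_const_mul,
      ← integral_add (i3.const_mul 2) (i4.const_mul _)]
    exact integral_mono hi ((i3.const_mul 2).add (i4.const_mul _)) hw
  constructor
  · apply fin
    · intro P
      unfold eg
      simp only [Fin.sum_univ_three]
      have b0 := bd ψ h' 0 P
      have b1 := bd ψ h' 1 P
      have b2 := bd ψ h' 2 P
      have k0 : pd e3 0 φ P ^ 2 ≤ 2 * (pd e3 0 φ P - A 0 P * ψ P) ^ 2 + 2 * (A 0 P * ψ P) ^ 2 := by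
        nlinarith [sq_nonneg (pd e3 0 φ P - 2 * (A 0 P * ψ P))]
      have k1 : pd e3 1 φ P ^ 2 ≤ 2 * (pd e3 1 φ P - A 1 P * ψ P) ^ 2 + 2 * (A 1 P * ψ P) ^ 2 := by
        nlinarith [sq_nonneg (pd e3 1 φ P - 2 * (A 1 P * ψ P))]
      have k2 : pd e3 2 φ P ^ 2 ≤ 2 * (pd e3 2 φ P - A 2 P * ψ P) ^ 2 + 2 * (A 2 P * ψ P) ^ 2 := by
        nlinarith [sq_nonneg (pd e3 2 φ P - 2 * (A 2 P * ψ P))]
      have s0 := sq_nonneg (pd e3 0 ψ P + A 0 P * φ P)
      have s1 := sq_nonneg (pd e3 1 ψ P + A 1 P * φ P)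
      have s2 := sq_nonneg (pd e3 2 ψ P + A 2 P * φ P)
      have s3 : 0 ≤ V P * (φ P ^ 2 + ψ P ^ 2) := mul_nonneg (hV0 P) (by positivity)
      have s4 : 0 ≤ C ^ 2 * φ P ^ 2 := by positivity
      linarith
    · exact integrable_finsetSum _ fun i _ => int_sq (h.memLp_pd i)
  · apply fin
    · intro P
      unfold eg
      simp only [Fin.sum_univ_three]
      have b0 := bd φ h 0 P
      have b1 := bd φ h 1 P
      have b2 := bd φ h 2 P
      have k0 : pd e3 0 ψ P ^ 2 ≤ 2 * (pd e3 0 ψ P + A 0 P * φ P) ^ 2 + 2 * (A 0 P * φ P) ^ 2 := by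
        nlinarith [sq_nonneg (pd e3 0 ψ P + 2 * (A 0 P * φ P))]
      have k1 : pd e3 1 ψ P ^ 2 ≤ 2 * (pd e3 1 ψ P + A 1 P * φ P) ^ 2 + 2 * (A 1 P * φ P) ^ 2 := by
        nlinarith [sq_nonneg (pd e3 1 ψ P + 2 * (A 1 P * φ P))]
      have k2 : pd e3 2 ψ P ^ 2 ≤ 2 * (pd e3 2 ψ P + A 2 P * φ P) ^ 2 + 2 * (A 2 P * φ P) ^ 2 := by
        nlinarith [sq_nonneg (pd e3 2 ψ P + 2 * (A 2 P * φ P))]
      have s0 := sq_nonneg (pd e3 0 φ P - A 0 P * ψ P)
      have s1 := sq_nonneg (pd e3 1 φ P - A 1 P * ψ P)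
      have s2 := sq_nonneg (pd e3 2 φ P - A 2 P * ψ P)
      have s3 : 0 ≤ V P * (φ P ^ 2 + ψ P ^ 2) := mul_nonneg (hV0 P) (by positivity)
      have s4 : 0 ≤ C ^ 2 * ψ P ^ 2 := by positivity
      linarith
    · exact integrable_finsetSum _ fun i _ => int_sq (h'.memLp_pd i)

/-- one summand of the gradients -/
lemma grad1 {φ : X → ℝ} (h : Test G φ) (i : Fin 3) :
    ∫ P, pd e3 i φ P ^ 2 ≤ ∫ P, ∑ i, pd e3 i φ P ^ 2 := by
  apply integral_mono (int_sq (h.memLp_pd i))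
    (integrable_finsetSum _ fun i _ => int_sq (h.memLp_pd i))
  intro P
  exact Finset.single_le_sum (f := fun i => pd e3 i φ P ^ 2) (fun j _ => sq_nonneg _)
    (Finset.mem_univ i)

/-- the values of the energy -/
def SG (A : Fin 3 → X → ℝ) (V : X → ℝ) (G : Set X) : Set ℝ :=
  {r | ∃ φ ψ : X → ℝ, Test G φ ∧ Test G ψ ∧ ∫ P, (φ P ^ 2 + ψ P ^ 2) = 1 ∧
    EG A V φ ψ (fun i => pd e3 i φ) (fun i => pd e3 i ψ) = r}

lemma SG_ne (A : Fin 3 → X → ℝ) (V : X → ℝ) (hG : IsOpen G) (hne : G.Nonempty) :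
    (SG A V G).Nonempty := by
  obtain ⟨x, hx⟩ := hne
  obtain ⟨f, h1, h2, h3, h4, h5⟩ :=
    exists_contDiff_tsupport_subset (E := X) (n := (⊤ : ℕ∞)) (hG.mem_nhds hx)
  have hf : Test G f := ⟨h3, h2, h1⟩
  have hc : Continuous fun P => f P ^ 2 := hf.smooth.continuous.pow 2
  have hpos : 0 < ∫ P, f P ^ 2 := by
    apply hc.integral_pos_of_hasCompactSupport_nonneg_nonzero (x := x)
    · have : (fun P => f P ^ 2) = fun P => f P * f P := by funext P; ring
      rw [this]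
      exact hf.cpt.mul_left
    · intro P
      positivity
    · rw [h5]
      norm_num
  refine ⟨_, fun P => (1 / Real.sqrt (∫ P, f P ^ 2)) * f P, fun _ => 0, hf.smul _, Test.zero, ?_,
    rfl⟩
  have : (fun P => ((1 / Real.sqrt (∫ P, f P ^ 2)) * f P) ^ 2 + (0 : ℝ) ^ 2) =
      fun P => (1 / Real.sqrt (∫ P, f P ^ 2)) ^ 2 * f P ^ 2 := by
    funext P
    ring
  rw [this, integral_const_mul, div_pow, Real.sq_sqrt hpos.le]
  field_simp

lemma SG_nonneg (hV : ∀ P, 0 ≤ V P) : ∀ r ∈ SG A V G, 0 ≤ r := by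
  rintro r ⟨φ, ψ, _, _, _, rfl⟩
  unfold EG
  apply integral_nonneg
  intro P
  exact eg_nonneg hV φ ψ _ _ P

/-- Fatou -/
lemma fatou (hA : ∀ i, Continuous (A i)) (hV : Continuous V) (hV0 : ∀ P, 0 ≤ V P)
    {φ ψ : ℕ → X → ℝ} {a b : X → ℝ} {Fa Fb : Fin 3 → X → ℝ} (h : ∀ n, Test G (φ n))
    (h' : ∀ n, Test G (ψ n)) {l : ℝ} (hl : 0 ≤ l)
    (ht : Tendsto (fun n => Et A V (φ n) (ψ n)) atTop (𝓝 l))
    (ha : ∀ᵐ P, Tendsto (fun n => φ n P) atTop (𝓝 (a P)))
    (hb : ∀ᵐ P, Tendsto (fun n => ψ n P) atTop (𝓝 (b P)))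
    (hFa : ∀ᵐ P, ∀ i, Tendsto (fun n => pd e3 i (φ n) P) atTop (𝓝 (Fa i P)))
    (hFb : ∀ᵐ P, ∀ i, Tendsto (fun n => pd e3 i (ψ n) P) atTop (𝓝 (Fb i P))) :
    EG A V a b Fa Fb ≤ l := by
  by_cases hint : Integrable (eg A V a b Fa Fb)
  swap
  · have : EG A V a b Fa Fb = 0 := integral_undef hint
    rw [this]
    exact hl
  set f : ℕ → X → ℝ := fun n =>
    eg A V (φ n) (ψ n) (fun i => pd e3 i (φ n)) (fun i => pd e3 i (ψ n)) with hf
  have e1 : ENNReal.ofReal (EG A V a b Fa Fb) = ∫⁻ P, ENNReal.ofReal (eg A V a b Fa Fb P) :=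
    ofReal_integral_eq_lintegral_ofReal hint (Eventually.of_forall fun P => eg_nonneg hV0 _ _ _ _ P)
  have e2 : ∀ n, ENNReal.ofReal (Et A V (φ n) (ψ n)) = ∫⁻ P, ENNReal.ofReal (f n P) := fun n =>
    ofReal_integral_eq_lintegral_ofReal (eg_int hA hV (h n) (h' n))
      (Eventually.of_forall fun P => eg_nonneg hV0 _ _ _ _ P)
  have e3' : ∫⁻ P, ENNReal.ofReal (eg A V a b Fa Fb P) =
      ∫⁻ P, liminf (fun n => ENNReal.ofReal (f n P)) atTop := by
    apply lintegral_congr_ae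
    filter_upwards [ha, hb, hFa, hFb] with P p1 p2 p3 p4
    symm
    apply Tendsto.liminf_eq
    apply ENNReal.tendsto_ofReal
    rw [hf]
    unfold eg
    apply Tendsto.add
    · apply tendsto_finsetSum
      intro i _
      exact (((p3 i).sub (p2.const_mul _)).pow 2).add (((p4 i).add (p1.const_mul _)).pow 2)
    · exact ((p1.pow 2).add (p2.pow 2)).const_mul _
  have e4 : ∫⁻ P, liminf (fun n => ENNReal.ofReal (f n P)) atTop ≤
      liminf (fun n => ∫⁻ P, ENNReal.ofReal (f n P)) atTop := by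
    apply lintegral_liminf_le
    intro n
    exact (eg_cont hA hV (h n) (h' n)).measurable.ennreal_ofReal
  have e5 : liminf (fun n => ∫⁻ P, ENNReal.ofReal (f n P)) atTop = ENNReal.ofReal l := by
    apply Tendsto.liminf_eq
    have : (fun n => ∫⁻ P, ENNReal.ofReal (f n P)) =
        fun n => ENNReal.ofReal (Et A V (φ n) (ψ n)) := by
      funext n
      exact (e2 n).symm
    rw [this]
    exact ENNReal.tendsto_ofReal ht
  have e6 : ENNReal.ofReal (EG A V a b Fa Fb) ≤ ENNReal.ofReal l := by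
    rw [e1, e3', ← e5]
    exact e4
  exact (ENNReal.ofReal_le_ofReal_iff hl).1 e6

end EXG_

open EXG_ in
theorem p_EXG (h_REL : T_REL) (h_LBG : T_LBG) : T_EXG := by
  intro A V G hA hV hV0 hG hbd hne
  -- bound for the vector potential
  obtain ⟨C, hC⟩ : ∃ C : ℝ, ∀ i, ∀ P ∈ G, |A i P| ≤ C := by
    have hK : IsCompact (closure G) := hbd.isCompact_closure
    have h1 : ∀ i, ∃ c : ℝ, ∀ P ∈ closure G, ‖A i P‖ ≤ c := fun i =>
      hK.exists_bound_of_continuousOn (hA i).continuousOn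
    choose c hc using h1
    refine ⟨∑ i, |c i|, fun i P hP => ?_⟩
    calc |A i P| ≤ c i := hc i P (subset_closure hP)
      _ ≤ |c i| := le_abs_self _
      _ ≤ ∑ i, |c i| := Finset.single_le_sum (f := fun i => |c i|) (fun j _ => abs_nonneg _)
        (Finset.mem_univ i)
  set l := lamG A V G with hl
  have hlS : l = sInf (SG A V G) := rfl
  have hne' := SG_ne A V hG hne
  have hl0 : 0 ≤ l := Real.sInf_nonneg (SG_nonneg hV0)
  have hbdd : BddBelow (SG A V G) := ⟨0, fun r hr => SG_nonneg hV0 r hr⟩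
  -- minimizing sequence
  have hseq : ∀ n : ℕ, ∃ φ ψ : X → ℝ, Test G φ ∧ Test G ψ ∧ Mt φ ψ = 1 ∧
      l ≤ Et A V φ ψ ∧ Et A V φ ψ < l + 1 / ((n : ℝ) + 1) := by
    intro n
    have h1 : sInf (SG A V G) < l + 1 / ((n : ℝ) + 1) := by
      rw [← hlS]
      have : 0 < 1 / ((n : ℝ) + 1) := Nat.one_div_pos_of_nat
      linarith
    obtain ⟨r, hr, hr2⟩ := exists_lt_of_csInf_lt hne' h1
    obtain ⟨φ, ψ, t1, t2, t3, t4⟩ := hr
    refine ⟨φ, ψ, t1, t2, t3, ?_, ?_⟩
    · rw [hlS]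
      exact csInf_le hbdd ⟨φ, ψ, t1, t2, t3, rfl⟩
    · unfold Et
      rw [t4]
      exact hr2
  choose φ ψ hφ hψ hM hE1 hE2 using hseq
  have hE3 : ∀ n, Et A V (φ n) (ψ n) ≤ l + 1 := fun n => by
    have h1 := hE2 n
    have h2 : 1 / ((n : ℝ) + 1) ≤ 1 := by
      rw [div_le_one (by positivity)]
      have : (0 : ℝ) ≤ n := Nat.cast_nonneg n
      linarith
    linarith
  have hEt : Tendsto (fun n => Et A V (φ n) (ψ n)) atTop (𝓝 l) := by
    have h1 : Tendsto (fun n : ℕ => l + 1 / ((n : ℝ) + 1)) atTop (𝓝 l) := by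
      have := (tendsto_const_nhds (x := l)).add (tendsto_one_div_add_atTop_nhds_zero_nat (𝕜 := ℝ))
      simpa using this
    exact tendsto_of_tendsto_of_tendsto_of_le_of_le tendsto_const_nhds h1 hE1 fun n => (hE2 n).le
  set K : ℝ := 1 + (2 * (l + 1) + 6 * C ^ 2) with hK
  have hK0 : 0 ≤ 2 * (l + 1) + 6 * C ^ 2 := by positivity
  have m1 : ∀ n, ∫ P, φ n P ^ 2 ≤ K := by
    intro n
    have h1 : ∫ P, φ n P ^ 2 ≤ Mt (φ n) (ψ n) := by
      apply integral_mono (int_sq (hφ n).memLp) (Mt_int (hφ n).memLp (hψ n).memLp)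
      intro P
      have : 0 ≤ ψ n P ^ 2 := sq_nonneg _
      simp only
      linarith
    rw [hM n] at h1
    linarith
  have m2 : ∀ n, ∫ P, ψ n P ^ 2 ≤ K := by
    intro n
    have h1 : ∫ P, ψ n P ^ 2 ≤ Mt (φ n) (ψ n) := by
      apply integral_mono (int_sq (hψ n).memLp) (Mt_int (hφ n).memLp (hψ n).memLp)
      intro P
      have : 0 ≤ φ n P ^ 2 := sq_nonneg _
      simp only
      linarith
    rw [hM n] at h1
    linarith
  have g1 : ∀ n, ∫ P, ∑ i, pd e3 i (φ n) P ^ 2 ≤ K := fun n => by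
    have := (grad hA hV hV0 hC (hφ n) (hψ n)).1
    rw [hM n] at this
    have h3 := hE3 n
    linarith
  have g2 : ∀ n, ∫ P, ∑ i, pd e3 i (ψ n) P ^ 2 ≤ K := fun n => by
    have := (grad hA hV hV0 hC (hφ n) (hψ n)).2
    rw [hM n] at this
    have h3 := hE3 n
    linarith
  obtain ⟨ns, a, hns, ha, hta⟩ := h_REL G φ (fun n i => pd e3 i (φ n)) K hbd
    (fun n => (hφ n).h1) m1 g1
  obtain ⟨ms, b, hms, hb, htb⟩ := h_REL G (fun n => ψ (ns n)) (fun n i => pd e3 i (ψ (ns n))) K hbd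
    (fun n => (hψ (ns n)).h1) (fun n => m2 (ns n)) (fun n => g2 (ns n))
  set s : ℕ → ℕ := fun n => ns (ms n) with hs
  have hsm : StrictMono s := hns.comp hms
  have ta : Tendsto (fun n => eLpNorm (fun P => φ (s n) P - a P) 2 volume) atTop (𝓝 0) :=
    hta.comp hms.tendsto_atTop
  have tb : Tendsto (fun n => eLpNorm (fun P => ψ (s n) P - b P) 2 volume) atTop (𝓝 0) := htb
  have hEs : Tendsto (fun n => Et A V (φ (s n)) (ψ (s n))) atTop (𝓝 l) :=
    hEt.comp hsm.tendsto_atTop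
  -- the energies of the differences
  have hdiff : ∀ ε : ℝ, 0 < ε → ∃ N, ∀ n ≥ N, ∀ m ≥ N,
      (∫ P, ∑ i, pd e3 i (fun P => φ (s n) P + -1 * φ (s m) P) P ^ 2 ≤ ε) ∧
      ∫ P, ∑ i, pd e3 i (fun P => ψ (s n) P + -1 * ψ (s m) P) P ^ 2 ≤ ε := by
    intro ε hε
    set D : ℝ := 8 + 2 * (2 * l + 6 * C ^ 2) with hD
    have hD0 : 0 < D := by positivity
    set δ : ℝ := ε / D with hδ
    have hδ0 : 0 < δ := by positivity
    obtain ⟨N1, hN1⟩ := cauchy (fun n => (hφ (s n)).memLp) ha ta δ hδ0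
    obtain ⟨N2, hN2⟩ := cauchy (fun n => (hψ (s n)).memLp) hb tb δ hδ0
    have h3 : ∀ᶠ n in atTop, Et A V (φ (s n)) (ψ (s n)) ≤ l + δ :=
      hEs.eventually (ge_mem_nhds (by linarith))
    obtain ⟨N3, hN3⟩ := eventually_atTop.1 h3
    refine ⟨max N1 (max N2 N3), fun n hn m hm => ?_⟩
    have n1 : N1 ≤ n := (le_max_left _ _).trans hn
    have n2 : N2 ≤ n := ((le_max_left _ _).trans (le_max_right _ _)).trans hn
    have n3 : N3 ≤ n := ((le_max_right _ _).trans (le_max_right _ _)).trans hn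
    have k1 : N1 ≤ m := (le_max_left _ _).trans hm
    have k2 : N2 ≤ m := ((le_max_left _ _).trans (le_max_right _ _)).trans hm
    have k3 : N3 ≤ m := ((le_max_right _ _).trans (le_max_right _ _)).trans hm
    have t1 := (hφ (s n)).add ((hφ (s m)).smul (-1))
    have t2 := (hψ (s n)).add ((hψ (s m)).smul (-1))
    have mass : Mt (fun P => φ (s n) P + -1 * φ (s m) P) (fun P => ψ (s n) P + -1 * ψ (s m) P) ≤
        2 * δ := by
      unfold Mt
      rw [integral_add (int_sq t1.memLp) (int_sq t2.memLp)]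
      have e1 := hN1 n n1 m k1
      have e2 := hN2 n n2 m k2
      have f1 : (fun P => (φ (s n) P + -1 * φ (s m) P) ^ 2) =
          fun P => (φ (s n) P - φ (s m) P) ^ 2 := by
        funext P
        ring
      have f2 : (fun P => (ψ (s n) P + -1 * ψ (s m) P) ^ 2) =
          fun P => (ψ (s n) P - ψ (s m) P) ^ 2 := by
        funext P
        ring
      rw [f1, f2]
      linarith
    have low : l * Mt (fun P => φ (s n) P + φ (s m) P) (fun P => ψ (s n) P + ψ (s m) P) ≤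
        Et A V (fun P => φ (s n) P + φ (s m) P) (fun P => ψ (s n) P + ψ (s m) P) :=
      h_LBG A V G hA hV hV0 hG hbd _ _ _ _ ((hφ (s n)).add (hφ (s m))).h1
        ((hψ (s n)).add (hψ (s m))).h1
    have par1 := Et_par hA hV (hφ (s n)) (hψ (s n)) (hφ (s m)) (hψ (s m))
    have par2 := Mt_par (hφ (s n)) (hψ (s n)) (hφ (s m)) (hψ (s m))
    rw [hM, hM] at par2
    have q1 := hN3 n n3
    have q2 := hN3 m k3
    set X1 := Et A V (fun P => φ (s n) P + -1 * φ (s m) P) (fun P => ψ (s n) P + -1 * ψ (s m) P)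
    set X2 := Et A V (fun P => φ (s n) P + φ (s m) P) (fun P => ψ (s n) P + ψ (s m) P)
    set Y1 := Mt (fun P => φ (s n) P + -1 * φ (s m) P) (fun P => ψ (s n) P + -1 * ψ (s m) P)
    set Y2 := Mt (fun P => φ (s n) P + φ (s m) P) (fun P => ψ (s n) P + ψ (s m) P)
    have hX1 : X1 ≤ 4 * δ + l * (2 * δ) := by
      have h4 : Y2 = 4 - Y1 := by linarith
      rw [h4] at low
      have h5 : l * Y1 ≤ l * (2 * δ) := mul_le_mul_of_nonneg_left mass hl0
      nlinarith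
    have hfin : 2 * X1 + 6 * C ^ 2 * Y1 ≤ ε := by
      have h5 : 6 * C ^ 2 * Y1 ≤ 6 * C ^ 2 * (2 * δ) :=
        mul_le_mul_of_nonneg_left mass (by positivity)
      have h6 : D * δ = ε := by
        rw [hδ]
        field_simp
      calc 2 * X1 + 6 * C ^ 2 * Y1 ≤ 2 * (4 * δ + l * (2 * δ)) + 6 * C ^ 2 * (2 * δ) := by
            linarith
        _ = D * δ := by
            rw [hD]
            ring
        _ = ε := h6
    have gr := grad hA hV hV0 hC t1 t2
    exact ⟨gr.1.trans hfin, gr.2.trans hfin⟩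
  -- limits of the gradients
  have hFa : ∀ i, ∃ w, MemLp w 2 volume ∧
      Tendsto (fun n => eLpNorm (fun P => pd e3 i (φ (s n)) P - w P) 2 volume) atTop (𝓝 0) := by
    intro i
    apply complete _ fun n => (hφ (s n)).memLp_pd i
    intro ε hε
    obtain ⟨N, hN⟩ := hdiff ε hε
    refine ⟨N, fun n hn m hm => ?_⟩
    have h1 := (hN n hn m hm).1
    have h2 := grad1 ((hφ (s n)).add ((hφ (s m)).smul (-1))) i
    have h3 : (fun P => (pd e3 i (φ (s n)) P - pd e3 i (φ (s m)) P) ^ 2) =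
        fun P => pd e3 i (fun P => φ (s n) P + -1 * φ (s m) P) P ^ 2 := by
      funext P
      rw [pd_add (hφ (s n)) ((hφ (s m)).smul (-1)), pd_smul (hφ (s m))]
      ring
    rw [h3]
    exact h2.trans h1
  have hFb : ∀ i, ∃ w, MemLp w 2 volume ∧
      Tendsto (fun n => eLpNorm (fun P => pd e3 i (ψ (s n)) P - w P) 2 volume) atTop (𝓝 0) := by
    intro i
    apply complete _ fun n => (hψ (s n)).memLp_pd i
    intro ε hε
    obtain ⟨N, hN⟩ := hdiff ε hε
    refine ⟨N, fun n hn m hm => ?_⟩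
    have h1 := (hN n hn m hm).2
    have h2 := grad1 ((hψ (s n)).add ((hψ (s m)).smul (-1))) i
    have h3 : (fun P => (pd e3 i (ψ (s n)) P - pd e3 i (ψ (s m)) P) ^ 2) =
        fun P => pd e3 i (fun P => ψ (s n) P + -1 * ψ (s m) P) P ^ 2 := by
      funext P
      rw [pd_add (hψ (s n)) ((hψ (s m)).smul (-1)), pd_smul (hψ (s m))]
      ring
    rw [h3]
    exact h2.trans h1
  choose Fa hFa1 hFa2 using hFa
  choose Fb hFb1 hFb2 using hFb
  have Ha : H1 e3 G a Fa := H1.lim ha hFa1 (fun n => (hφ (s n)).h1) ta hFa2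
  have Hb : H1 e3 G b Fb := H1.lim hb hFb1 (fun n => (hψ (s n)).h1) tb hFb2
  have mass : ∫ P, (a P ^ 2 + b P ^ 2) = 1 := by
    rw [integral_add (int_sq ha) (int_sq hb)]
    have h1 := (lim_sq (fun n => (hφ (s n)).memLp) ha ta).add
      (lim_sq (fun n => (hψ (s n)).memLp) hb tb)
    have h3 : Tendsto (fun n => (∫ P, φ (s n) P ^ 2) + ∫ P, ψ (s n) P ^ 2) atTop (𝓝 1) := by
      have h4 : (fun n => (∫ P, φ (s n) P ^ 2) + ∫ P, ψ (s n) P ^ 2) = fun _ => (1 : ℝ) := by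
        funext n
        have := hM (s n)
        unfold Mt at this
        rwa [integral_add (int_sq (hφ (s n)).memLp) (int_sq (hψ (s n)).memLp)] at this
      rw [h4]
      exact tendsto_const_nhds
    exact tendsto_nhds_unique h1 h3
  refine ⟨a, b, Fa, Fb, Ha, Hb, mass, le_antisymm ?_ ?_⟩
  · -- Fatou along a common subsequence
    obtain ⟨r, hr, hae⟩ := common (κ := Bool × Option (Fin 3))
      (fun k n => match k with
        | (true, none) => φ (s n)
        | (false, none) => ψ (s n)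
        | (true, some i) => pd e3 i (φ (s n))
        | (false, some i) => pd e3 i (ψ (s n)))
      (fun k => match k with
        | (true, none) => a
        | (false, none) => b
        | (true, some i) => Fa i
        | (false, some i) => Fb i)
      (by
        rintro ⟨_ | _, _ | i⟩ n
        · exact (hψ (s n)).memLp
        · exact (hψ (s n)).memLp_pd i
        · exact (hφ (s n)).memLp
        · exact (hφ (s n)).memLp_pd i)
      (by
        rintro ⟨_ | _, _ | i⟩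
        · exact hb
        · exact hFb1 i
        · exact ha
        · exact hFa1 i)
      (by
        rintro ⟨_ | _, _ | i⟩
        · exact tb
        · exact hFb2 i
        · exact ta
        · exact hFa2 i)
    apply fatou (G := G) hA hV hV0 (φ := fun n => φ (s (r n))) (ψ := fun n => ψ (s (r n)))
      (fun n => hφ _) (fun n => hψ _) hl0 (hEs.comp hr.tendsto_atTop)
    · filter_upwards [hae] with P hP
      exact hP (true, none)
    · filter_upwards [hae] with P hP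
      exact hP (false, none)
    · filter_upwards [hae] with P hP
      exact fun i => hP (true, some i)
    · filter_upwards [hae] with P hP
      exact fun i => hP (false, some i)
  · have h1 := h_LBG A V G hA hV hV0 hG hbd a b Fa Fb Ha Hb
    rw [mass, mul_one] at h1
    exact h1

end MGS
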