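import Pool.Agent.MGS.TG

/-!
# MGS: exhaustion of open sets by compact sets
-/

set_option autoImplicit false

namespace MGS

theorem p_EXH : T_EXH := by
  intro U hU
  have h1 : LocallyCompactSpace U := hU.locallyCompactSpace
  have h2 : SigmaCompactSpace U := sigmaCompactSpace_of_locallyCompact_secondCountable
  obtain ⟨K, hK, hKU⟩ := isSigmaCompact_iff_sigmaCompactSpace.2 h2
  exact ⟨K, hK, fun n => hKU ▸ Set.subset_iUnion K n, hKU.symm⟩

end MGS
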