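import Pool.Agent.MGS.TA

/-!
# MGS: target EXR (helper32)
-/

set_option autoImplicit false

open MeasureTheory Filter Topology Metric Set
open scoped ENNReal NNReal ContDiff

noncomputable section

namespace MGS

namespace EXR_

theorem VV_nonneg (B : ℝ) (P : X) : 0 ≤ VV B P := by unfold VV; positivity

theorem VV_cont (B : ℝ) : Continuous (VV B) := by
  unfold VV
  fun_prop

theorem int_ER (hZRO : T_ZRO) (B : ℝ) {G : Set X} (hG : Bornology.IsBounded G) {f : X → ℝ}
    {F : Fin 3 → X → ℝ} (h : H1 e3 G f F) :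
    Integrable (fun P => ∑ i : Fin 3, F i P ^ 2 + VV B P * f P ^ 2) := by
  refine Integrable.add (integrable_finsetSum _ fun i _ => (h.memLp' i).integrable_sq) ?_
  obtain ⟨R, hR⟩ := hG.exists_norm_le
  have h1 := h.memLp.integrable_sq
  refine Integrable.mono' (h1.const_mul ((B / 2) ^ 2 * R ^ 2)) ?_ ?_
  · exact (VV_cont B).aestronglyMeasurable.mul h1.1
  · filter_upwards [hZRO X (Fin 3) e3 G f F h] with P hP
    rw [Real.norm_eq_abs, abs_mul, abs_of_nonneg (VV_nonneg B P), abs_of_nonneg (sq_nonneg _)]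
    by_cases hPG : P ∈ G
    · have h2 : ‖P.1‖ ≤ R := (norm_fst_le P).trans (hR P hPG)
      unfold VV
      gcongr
    · rw [(hP hPG).1]
      simp

theorem abs_int (s : ℝ) : ∫ t in (0 : ℝ)..s, (if 0 < t then (1 : ℝ) else -1) = |s| := by
  rcases le_total 0 s with hs | hs
  · rw [intervalIntegral.integral_of_le hs, abs_of_nonneg hs]
    rw [setIntegral_congr_fun (g := fun _ => (1 : ℝ)) measurableSet_Ioc]
    · simp [hs]
    · intro t ht
      simp [ht.1]
  · rw [intervalIntegral.integral_of_ge hs, abs_of_nonpos hs]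
    rw [setIntegral_congr_fun (g := fun _ => (-1 : ℝ)) measurableSet_Ioc]
    · simp [hs]
    · intro t ht
      simp [not_lt.2 ht.2]

theorem lower (hLBG : T_LBG) (hLRG : T_LRG) (B : ℝ) (G : Set X) (hG : IsOpen G)
    (hb : Bornology.IsBounded G) (hne : G.Nonempty) (f : X → ℝ) (F : Fin 3 → X → ℝ)
    (h : H1 e3 G f F) : lamR B G * ∫ P, f P ^ 2 ≤ ER B f F := by
  have h1 := hLBG (fun _ _ => 0) (VV B) G (fun _ => continuous_const) (VV_cont B)
    (VV_nonneg B) hG hb f (fun _ => 0) F (fun _ _ => 0) h H1.zero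
  rw [← hLRG B G hG hne] at h1
  have e1 : ∫ P : X, (f P ^ 2 + (0 : ℝ) ^ 2) = ∫ P, f P ^ 2 := by
    congr 1
    funext P
    ring
  have e2 : EG (fun _ _ => 0) (VV B) f (fun _ => 0) F (fun _ _ => 0) = ER B f F := by
    unfold EG ER
    congr 1
    funext P
    simp
  rw [e1, e2] at h1
  exact h1

theorem ground (hZRO : T_ZRO) (hBCH : T_BCH) (B : ℝ) (G : Set X) (hG : IsOpen G)
    (f : X → ℝ) (F : Fin 3 → X → ℝ) (h : H1 e3 G f F) (hpos : 0 < ∫ P, f P ^ 2)
    (heq : ER B f F = lamR B G * ∫ P, f P ^ 2) :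
    ∃ (v : X → ℝ) (F : Fin 3 → X → ℝ), GS B G v F := by
  set I := ∫ P, f P ^ 2 with hI
  set c := Real.sqrt I with hc
  have hc0 : 0 < c := Real.sqrt_pos.2 hpos
  have hc2 : c ^ 2 = I := Real.sq_sqrt hpos.le
  have hη : Measurable fun t : ℝ => if 0 < t then (1 : ℝ) else -1 :=
    Measurable.ite measurableSet_Ioi measurable_const measurable_const
  have h1 := hBCH X (Fin 3) e3 G f F (fun t => if 0 < t then (1 : ℝ) else -1) 1 hG h hη
    (fun s => by
      split_ifs <;> simp)
  simp only [abs_int] at h1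
  have h2 := h1.smul c⁻¹
  -- the representatives
  have hmv := h2.memLp.1
  have hmF : ∀ i, AEStronglyMeasurable
      (fun P => c⁻¹ * ((if 0 < f P then (1 : ℝ) else -1) * F i P)) volume :=
    fun i => (h2.memLp' i).1
  classical
  let v : X → ℝ := fun P => if P ∈ G then |hmv.mk _ P| else 0
  let F' : Fin 3 → X → ℝ := fun i P => if P ∈ G then (hmF i).mk _ P else 0
  have hz := hZRO X (Fin 3) e3 G _ _ h2
  have ev : (fun P => c⁻¹ * |f P|) =ᵐ[volume] v := by
    filter_upwards [hmv.ae_eq_mk, hz] with P hP hP2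
    by_cases hPG : P ∈ G
    · simp only [v, hPG, if_true]
      rw [← hP]
      exact (abs_of_nonneg (mul_nonneg (inv_nonneg.2 hc0.le) (abs_nonneg _))).symm
    · simp only [v, hPG, if_false]
      exact (hP2 hPG).1
  have eF : ∀ i, (fun P => c⁻¹ * ((if 0 < f P then (1 : ℝ) else -1) * F i P)) =ᵐ[volume] F' i := by
    intro i
    filter_upwards [(hmF i).ae_eq_mk, hz] with P hP hP2
    by_cases hPG : P ∈ G
    · simp only [F', hPG, if_true]
      exact hP
    · simp only [F', hPG, if_false]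
      exact (hP2 hPG).2 i
  have h3 : H1 e3 G v F' := h2.congr ev eF
  refine ⟨v, F', ?_, ?_, h3, ?_, ?_, ?_, ?_⟩
  · exact Measurable.ite hG.measurableSet hmv.stronglyMeasurable_mk.measurable.abs
      measurable_const
  · exact fun i => Measurable.ite hG.measurableSet (hmF i).stronglyMeasurable_mk.measurable
      measurable_const
  · intro P
    by_cases hPG : P ∈ G
    · simp only [v, hPG, if_true]
      exact abs_nonneg _
    · simp only [v, hPG, if_false]
      exact le_rfl
  · intro P hPG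
    simp [v, F', hPG]
  · have e1 : ∫ P, v P ^ 2 = ∫ P, (c ^ 2)⁻¹ * f P ^ 2 := by
      refine integral_congr_ae ?_
      filter_upwards [ev] with P hP
      rw [← hP, mul_pow, sq_abs, inv_pow]
    rw [e1, integral_const_mul, hc2, ← hI, inv_mul_cancel₀ hpos.ne']
  · have e1 : ER B v F' = (c ^ 2)⁻¹ * ER B f F := by
      unfold ER
      rw [← integral_const_mul]
      refine integral_congr_ae ?_
      filter_upwards [ev, ae_all_iff.2 eF] with P hP hP2
      rw [← hP, mul_pow, sq_abs, inv_pow]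
      have e2 : ∀ i, F' i P ^ 2 = (c ^ 2)⁻¹ * F i P ^ 2 := by
        intro i
        rw [← hP2 i, mul_pow, mul_pow, inv_pow]
        congr 1
        split_ifs <;> ring
      simp only [e2]
      rw [← Finset.mul_sum]
      ring
    rw [e1, heq, hc2]
    field_simp

end EXR_

open EXR_ in
/-- existence of a nonnegative ground state -/
theorem p_EXR (hEXG : T_EXG) (hLBG : T_LBG) (hLRG : T_LRG) (hBCH : T_BCH) (hZRO : T_ZRO) :
    T_EXR := by
  intro B G hG hb hne
  refine ⟨?_, fun f F h => lower hLBG hLRG B G hG hb hne f F h⟩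
  obtain ⟨a, b, Fa, Fb, ha, hb', hn, he⟩ := hEXG (fun _ _ => 0) (VV B) G
    (fun _ => continuous_const) (VV_cont B) (VV_nonneg B) hG hb hne
  rw [← hLRG B G hG hne] at he
  have e1 : EG (fun _ _ => 0) (VV B) a b Fa Fb = ER B a Fa + ER B b Fb := by
    unfold EG ER
    rw [← integral_add (int_ER hZRO B hb ha) (int_ER hZRO B hb hb')]
    congr 1
    funext P
    rw [Finset.sum_add_distrib]
    simp only [zero_mul, sub_zero, add_zero]
    ring
  rw [integral_add ha.memLp.integrable_sq hb'.memLp.integrable_sq] at hn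
  have la := lower hLBG hLRG B G hG hb hne a Fa ha
  have lb := lower hLBG hLRG B G hG hb hne b Fb hb'
  rw [e1] at he
  have hsum : lamR B G * (∫ P, a P ^ 2) + lamR B G * (∫ P, b P ^ 2) = lamR B G := by
    rw [← mul_add, hn, mul_one]
  have ea : ER B a Fa = lamR B G * ∫ P, a P ^ 2 := by linarith
  have eb : ER B b Fb = lamR B G * ∫ P, b P ^ 2 := by linarith
  have pa : 0 ≤ ∫ P, a P ^ 2 := integral_nonneg fun P => sq_nonneg _
  have pb : 0 ≤ ∫ P, b P ^ 2 := integral_nonneg fun P => sq_nonneg _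
  by_cases h0 : 0 < ∫ P, a P ^ 2
  · exact ground hZRO hBCH B G hG a Fa ha h0 ea
  · refine ground hZRO hBCH B G hG b Fb hb' ?_ eb
    linarith [not_lt.1 h0]

end MGS
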