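import Pool.Agent.MGS.TB

/-!
# MGS: targets G (the domain of a minimizer up to capacity; helper27)

Each target is a proposition `T_XXX`; its docstring contains the complete proof.  Other targets
(of all sections) may be taken as hypotheses of the theorem to be proved.
-/

set_option autoImplicit false

open MeasureTheory Filter Topology Metric Set
open scoped ENNReal NNReal ContDiff

noncomputable section

namespace MGS

/-- the potential centred at `c` -/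
def qc (B : ℝ) (c : ℂ) (P : X) : ℝ := (B / 2) ^ 2 * ‖P.1 - c‖ ^ 2

/-- the essential interior of `Ω` -/
def ei (Ω : Set X) : Set X := {P | ∃ r : ℝ, 0 < r ∧ volume (ball P r \ Ω) = 0}

/-- capacity zero, with nonnegative functions in the closure of the test functions -/
def ZC (E : Set X) : Prop := ∀ ε : ℝ, 0 < ε → ∃ (O : Set X) (φ : X → ℝ) (F : Fin 3 → X → ℝ),
  IsOpen O ∧ E ⊆ O ∧ H1 e3 univ φ F ∧ (∀ᵐ P, 0 ≤ φ P) ∧ (∀ᵐ P, P ∈ O → 1 ≤ φ P) ∧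
  ∫ P, (φ P ^ 2 + ∑ i, F i P ^ 2) < ε

/-- GAU.  Gauge transformation.  Let `θ P = (B/2) (c₂ x₁ - c₁ x₂)` (`c = c₁ + i c₂`), so that
`∂₁θ = (B/2) c₂ = -A₁(c)`, `∂₂θ = -(B/2) c₁ = -A₂(c)`, and `u = e^{iθ} φ`.  Then
`-i ∂_j u + A_j u = e^{iθ} (-i ∂_jφ + (∂_jθ + A_j) φ)` with real `φ`, `∂_jφ`, `∂_jθ + A_j(x)`, so its
modulus squared is `(∂_jφ)² + (A_j(x) - A_j(c))² φ²`, and `∑_j (A_j(x) - A_j(c))² = (B/2)² |x - c|²`.
`u` is smooth with the support of `φ`. -/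
def T_GAU : Prop := ∀ (B : ℝ) (c : ℂ) (G : Set X) (φ : X → ℝ), Test G φ →
  ∃ u : X → ℂ, CTest G u ∧ (∀ P, ‖u P‖ = |φ P|) ∧ form B u = EQ (qc B c) φ (fun i => pd e3 i φ)

/-- ADU (from GAU).  Let `φ` be a test function in `U`.  If `∫ φ² = 0` then `φ = 0` and both sides
vanish.  Otherwise normalise: with `u` from GAU for `φ/‖φ‖₂`, `lam B U ≤ form B u`
(`csInf_le`, the forms are nonnegative), and `lam B Ω ≤ lam B U` by `IsMinimizer.min`. -/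
def T_ADU : Prop := ∀ (B : ℝ) (c : ℂ) (Ω U : Set X), IsMinimizer B Ω → IsOpen U →
  Bornology.IsBounded U → volume U = volume Ω → Adm (qc B c) U (lam B Ω)

/-- USE.  The essential interior.  `ei Ω` is open (if `Q ∈ ball P r`, a small ball around `Q` is
contained in `ball P r`), contains `Ω` (open), is contained in `closure Ω` (a ball around `P` has
positive measure, so meets `Ω`), hence bounded; `ei Ω \ Ω` is covered by balls `ball P r` with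
`volume (ball P r \ Ω) = 0`, so it is null (`measure_null_of_locally_null` or Lindelöf).
Invariance: let `D' = {P | (P.1 - c, P.2) ∈ D}`, `ρ P = (w (P.1 - c) + c, P.2)` for `|w| = 1`.  `ρ` is
an isometry which preserves the measure and `ρ '' D' = D'` (for `ρ⁻¹`: use `w⁻¹`).  If
`ball P r \ Ω` is null then `ball P r \ D'` is null, `ρ '' (ball P r) = ball (ρ P) r`, so
`ball (ρ P) r \ D'` is null and `ball (ρ P) r \ Ω` is null. -/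
def T_USE : Prop := ∀ (Ω D : Set X) (c : ℂ), IsOpen Ω → Bornology.IsBounded Ω →
  (∀ w : ℂ, ‖w‖ = 1 → ∀ P ∈ D, (w * P.1, P.2) ∈ D) →
  volume (symmDiff Ω {P : X | (P.1 - c, P.2) ∈ D}) = 0 →
  IsOpen (ei Ω) ∧ Bornology.IsBounded (ei Ω) ∧ Ω ⊆ ei Ω ∧ volume (ei Ω \ Ω) = 0 ∧
  volume (ei Ω) = volume Ω ∧
  ∀ w : ℂ, ‖w‖ = 1 → ∀ P ∈ ei Ω, (w * (P.1 - c) + c, P.2) ∈ ei Ω

/-- ZCU.  Countable unions.  Let `ε > 0`, `δₙ = √ε 2^{-n-3}`, `φₙ`, `Fₙ`, `Oₙ` for `E n` with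
`∫ (φₙ² + ∑ (Fₙ i)²) < δₙ²`; so `‖φₙ‖₂ ≤ δₙ`, `‖Fₙ i‖₂ ≤ δₙ`.  The partial sums `∑_{n<N} φₙ`,
`∑_{n<N} Fₙ i` are Cauchy in `L²` (complete); let `φ`, `F i` be the limits.  `(φ, F) ∈ H1 e3 univ` by
`H1.add` and `H1.lim`; `φ ≥ φₙ` a.e. for all `n` (`φₙ ≥ 0` a.e.; a subsequence of the partial sums
converges a.e.).  So `φ ≥ 1` a.e. on `O = ⋃ Oₙ`, `φ ≥ 0`, and `‖φ‖₂, ‖F i‖₂ ≤ ∑ δₙ = √ε/4`, whence
`∫ (φ² + ∑ (F i)²) ≤ 4 ε/16 < ε`. -/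
def T_ZCU : Prop := ∀ E : ℕ → Set X, (∀ n, ZC (E n)) → ZC (⋃ n, E n)

/-- ZCT (from WK).  `H1 e3 univ φ F` implies `IsH1 φ F` (WK).  Then translate `O`, `φ`, `F` by `τ`
(`fderiv` commutes with translations, the measure is invariant). -/
def T_ZCT : Prop := ∀ (E : Set X) (τ : X), ZC E → ZeroCap ((fun P => τ + P) '' E)

/-- CPK (from BCH, PRL, MOD or BCH, NUL).  Let `η` be a test function in `U`,
`0 ≤ η ≤ 1`, `η = 1` on an open set `O_K ⊇ K`.  For `N ≥ 1` let `τ_N(t) = 1` for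
`t ≤ e^{-N}`, `τ_N(t) = -(log t)/N` for `e^{-N} ≤ t ≤ 1`, `τ_N(t) = 0` for `t ≥ 1`; it is Lipschitz
with constant `e^N/N` and `τ_N - 1` vanishes at `0`.  So `g_N = η τ_N(f) = η + η (τ_N(f) - 1)` is in
`H1 e3 univ` with gradient `τ_N(f) ∇η - η 1_{e^{-N} < f < 1} F/(N f)`.  Since `f > 0` a.e. on `U`,
`τ_N(f) → 0` a.e. on the support of `η` as `N → ∞` and `0 ≤ τ_N ≤ 1`, and letting `ε → 0` in the
hypothesis (Fatou) `∫ η² 1_{f>0} |F|²/f² ≤ C`.  So the energy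
`∫ (g_N² + |∇g_N|²) ≤ ∫ η² τ_N(f)² + 2 ∫ |∇η|² τ_N(f)² + 2 C/N²` tends to `0`.  Let `φₙ → f` be test
functions in `Ω`; `hₙ = η |f - φₙ|` is in `H1 e3 univ` with energy `→ 0`.  Let `w = g_N + e^N hₙ ≥ 0`.
On the open set `O = O_K \ tsupport φₙ ⊇ K \ Ω`, a.e.: `η = 1`, `φₙ = 0`, so
`w = τ_N(f) + e^N f ≥ 1` (if `f ≥ e^{-N}` the second term, otherwise `τ_N(f) = 1`).  Choose `N` such
that the energy of `g_N` is `< ε/4` and then `n` such that `e^{2N}` times the energy of `hₙ` is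
`< ε/4`; the energy of `w` is at most twice the sum. -/
def T_CPK : Prop := ∀ (Ω U K : Set X) (f : X → ℝ) (F : Fin 3 → X → ℝ), IsOpen Ω → IsOpen U →
  Bornology.IsBounded U → Ω ⊆ U → H1 e3 Ω f F → (∀ᵐ P, 0 ≤ f P) → (∀ᵐ P, P ∈ U → 0 < f P) →
  (∀ η : X → ℝ, Test U η → ∃ C : ℝ, ∀ ε : ℝ, 0 < ε →
    Integrable (fun P => η P ^ 2 * ∑ i : Fin 3, F i P ^ 2 / (f P + ε) ^ 2) ∧
    ∫ P, η P ^ 2 * ∑ i : Fin 3, F i P ^ 2 / (f P + ε) ^ 2 ≤ C) →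
  IsCompact K → K ⊆ U → ZC (K \ Ω)

/-- EXH.  Exhaustion of an open set by compact sets:
`K n = closedBall 0 n ∩ {P | 1/(n+1) ≤ infDist P Uᶜ}` (for `U ≠ univ`; `K n = closedBall 0 n`
otherwise). -/
def T_EXH : Prop := ∀ U : Set X, IsOpen U → ∃ K : ℕ → Set X, (∀ n, IsCompact (K n)) ∧
  (∀ n, K n ⊆ U) ∧ U = ⋃ n, K n

/-- CAP (from ADU, USE, LOG, CPK, EXH, ZCU, ZCT, MOD, and the volume of `Ost Ω`, see the
hypothesis).  Let `f = md a b`, `F = mg a b Fa Fb`, `D' = {P | (P.1 - c, P.2) ∈ Ost Ω}`.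
(1) `f P = v (P.1 - c, P.2) > 0` a.e. on `D'` (`RD.pos`, `RD.veq`), and `f = 0` off `Ω` (`GM.zero`),
so `volume (D' \ Ω) = 0`; `volume D' = volume (Ost Ω) = volume Ω < ⊤`, so
`volume (Ω \ D') = 0`.  USE with `D = Ost Ω` gives `U = ei Ω`.
(2) ADU: `Adm (qc B c) U (lam B Ω)`.  By translation `EQ (qc B c) f F = ER B v Fv = lamR B (Ost Ω)
= lam B Ω` and `∫ f² = ∫ v² = 1`, so `Mz (qc B c) U (lam B Ω) f F`.  LOG applies; `f > 0` a.e. on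
`U` (`volume (U \ D') = 0`).  CPK gives `ZC (K \ Ω)` for all compact `K ⊆ U`; EXH and ZCU:
`ZC (U \ Ω)`.
(3) `τ = (-c, 0)`, `U' = (fun P => τ + P) '' U` is open and invariant under the rotations;
`symmDiff ((τ + ·) '' Ω) U' = (τ + ·) '' (U \ Ω)` since `Ω ⊆ U`; ZCT. -/
def T_CAP : Prop := ∀ (B : ℝ) (Ω : Set X) (a b v : X → ℝ) (Fa Fb Fv : Fin 3 → X → ℝ)
  (V T : ℝ → ℝ → ℝ) (c : ℂ), 0 < B → IsMinimizer B Ω → volume (Ost Ω) = volume Ω →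
  MeasurableSet (Ost Ω) → GM B Ω a b Fa Fb →
  lam B Ω = lamR B (Ost Ω) → RD B (Ost Ω) v Fv V T →
  (∀ᵐ P : X, md a b P = v (P.1 - c, P.2)) →
  (∀ᵐ P : X, ∀ i, mg a b Fa Fb i P = Fv i (P.1 - c, P.2)) → AxiSym Ω

end MGS
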