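import Pool.Agent.MGS.TF
import Pool.Agent.MGS.TG

/-!
# MGS: final assembly (helper38)
-/

set_option autoImplicit false

open MeasureTheory Filter Topology Metric Set
open scoped ENNReal NNReal ContDiff

noncomputable section

namespace MGS

theorem STA_ (h_CNN : T_CNN) (h_OST : T_OST) {B : ℝ} {Ω : Set X} (h : IsMinimizer B Ω) :
    Star (Ost Ω) := by
  obtain ⟨h1, h2, h3, _, h5, h6, _⟩ := h_OST Ω h.isOpen h.bounded h.nonempty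
  refine ⟨h1, h2, h3, h5, ?_⟩
  have e : {z : ℝ | ((0 : ℂ), z) ∈ Ost Ω} = {z : ℝ | ∃ x : ℂ, (x, z) ∈ Ω} := by
    ext z
    exact h6 z
  rw [e]
  exact h_CNN B Ω h

theorem exists_R {Ω : Set X} (h : Bornology.IsBounded Ω) : ∃ R : ℝ, ∀ P ∈ Ω, ‖P‖ < R := by
  obtain ⟨R, hR⟩ := h.exists_norm_le
  exact ⟨R + 1, fun P hP => (hR P hP).trans_lt (by linarith)⟩

theorem GM.pd {B R : ℝ} {Ω : Set X} {a b : X → ℝ} {Fa Fb : Fin 3 → X → ℝ}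
    (h : GM B Ω a b Fa Fb) (hO : IsOpen Ω) (hR : ∀ P ∈ Ω, ‖P‖ < R) : PD Ω R a b Fa Fb :=
  ⟨hO, hR, h.ma, h.mb, h.mFa, h.mFb, h.ha, h.hb, h.zero⟩

/-- every minimizer is axisymmetric up to capacity -/
theorem p_FIN (h_CNN : T_CNN) (h_OST : T_OST) (h_EXM : T_EXM) (h_LLR : T_LLR) (h_EQE : T_EQE)
    (h_RDE : T_RDE) (h_ALL : T_ALL) (h_CAP : T_CAP) (B : ℝ) (Ω : Set X) (hB : 0 < B)
    (h : IsMinimizer B Ω) : AxiSym Ω := by
  obtain ⟨h1, h2, h3, h4, -, -, -⟩ := h_OST Ω h.isOpen h.bounded h.nonempty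
  have hS := STA_ h_CNN h_OST h
  obtain ⟨v, F, V, T, hRD⟩ := h_RDE B (Ost Ω) hB hS
  obtain ⟨⟨a, b, Fa, Fb, hG⟩, -⟩ := h_EXM B Ω h.isOpen h.bounded h.nonempty
  obtain ⟨R, hR⟩ := exists_R h.bounded
  have hPD := hG.pd h.isOpen hR
  obtain ⟨h5, -⟩ := h_EQE B R Ω a b v Fa Fb F V T hB hPD hS hRD
  have h6 : lam B Ω = lamR B (Ost Ω) := by
    apply le_antisymm
    · exact (h.min (Ost Ω) h1 h2 h4).trans (h_LLR B (Ost Ω) h1 h3)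
    · rw [hG.nrm, mul_one, hG.eq] at h5
      exact h5
  have hEX : EX B R Ω a b v Fa Fb F V T := ⟨hB, hPD, hS, hRD, hG.nrm, hG.eq.trans h6⟩
  obtain ⟨c, h7, h8⟩ := h_ALL B R Ω a b v Fa Fb F V T hEX
  exact h_CAP B Ω a b v Fa Fb F V T c hB h h4 h1.measurableSet hG h6 hRD h7 h8

end MGS
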