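import Pool.Agent.MGS.TA

/-!
# MGS-FRI: Friedrichs inequality
-/

set_option autoImplicit false
set_option linter.unusedSectionVars false

open MeasureTheory Filter Topology Metric Set
open scoped ENNReal NNReal ContDiff

noncomputable section

namespace MGS

namespace FRI_

variable {E : Type} [NormedAddCommGroup E] [NormedSpace ℝ E] [FiniteDimensional ℝ E]
  [MeasureSpace E] [BorelSpace E] [(volume : Measure E).IsAddHaarMeasure] {ι : Type}

/-- the inequality for test functions -/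
theorem test (e : ι → E) (i : ι) (G : Set E) (φ : E → ℝ) (R : ℝ) (ℓ : E →L[ℝ] ℝ)
    (hℓ : ℓ (e i) = 1) (hR : ∀ P ∈ G, |ℓ P| ≤ R) (h : Test G φ) :
    ∫ P, φ P ^ 2 ≤ 4 * R ^ 2 * ∫ P, pd e i φ P ^ 2 := by
  have hφc : Continuous φ := h.smooth.continuous
  have hdc : Continuous (pd e i φ) := h.pd_cont i
  have i1 : Integrable (fun P => φ P ^ 2) := by
    have : (fun P => φ P ^ 2) = fun P => φ P * φ P := by
      funext P
      ring
    rw [this]
    exact (hφc.mul hφc).integrable_of_hasCompactSupport h.cpt.mul_left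
  have i2 : Integrable (fun P => pd e i φ P ^ 2) := by
    have : (fun P => pd e i φ P ^ 2) = fun P => pd e i φ P * pd e i φ P := by
      funext P
      ring
    rw [this]
    exact (hdc.mul hdc).integrable_of_hasCompactSupport (h.pd_cpt i).mul_left
  have i3 : Integrable (fun P => ℓ P * φ P * pd e i φ P) := by
    refine ((ℓ.continuous.mul hφc).mul hdc).integrable_of_hasCompactSupport ?_
    exact (h.pd_cpt i).mul_left
  have hfd : ∀ P, fderiv ℝ (fun Q => ℓ Q * φ Q) P (e i) = φ P + ℓ P * pd e i φ P := by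
    intro P
    have h1 : HasFDerivAt (fun Q => ℓ Q * φ Q) (ℓ P • fderiv ℝ φ P + φ P • ℓ) P :=
      ℓ.hasFDerivAt.mul (h.diff P).hasFDerivAt
    rw [h1.fderiv]
    show ℓ P • fderiv ℝ φ P (e i) + φ P • ℓ (e i) = φ P + ℓ P * fderiv ℝ φ P (e i)
    rw [hℓ, smul_eq_mul, smul_eq_mul]
    ring
  have key := integral_mul_fderiv_eq_neg_fderiv_mul_of_integrable (μ := (volume : Measure E))
    (f := fun Q => ℓ Q * φ Q) (g := φ) (v := e i) (by
      have : (fun x => fderiv ℝ (fun Q => ℓ Q * φ Q) x (e i) * φ x) =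
          fun x => φ x ^ 2 + ℓ x * φ x * pd e i φ x := by
        funext x
        rw [hfd]
        ring
      rw [this]
      exact i1.add i3) i3 (by
      have : (fun x => ℓ x * φ x * φ x) = fun x => ℓ x * (φ x * φ x) := by
        funext x
        ring
      rw [this]
      refine (ℓ.continuous.mul (hφc.mul hφc)).integrable_of_hasCompactSupport ?_
      exact h.cpt.mul_left.mul_left)
    (fun x _ => ℓ.differentiableAt.mul (h.diff x)) (fun x _ => h.diff x)
  have e1 : (fun x => fderiv ℝ (fun Q => ℓ Q * φ Q) x (e i) * φ x) =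
      fun x => φ x ^ 2 + ℓ x * φ x * pd e i φ x := by
    funext x
    rw [hfd]
    ring
  rw [e1, integral_add i1 i3] at key
  have key' : ∫ P, ℓ P * φ P * pd e i φ P =
      -((∫ P, φ P ^ 2) + ∫ P, ℓ P * φ P * pd e i φ P) := key
  have h2 : ∫ P, -(2 * (ℓ P * φ P * pd e i φ P)) = -(2 * ∫ P, ℓ P * φ P * pd e i φ P) := by
    rw [integral_neg, integral_const_mul]
  have h3 : ∫ P, -(2 * (ℓ P * φ P * pd e i φ P)) ≤
      ∫ P, (1 / 2 * φ P ^ 2 + 2 * R ^ 2 * pd e i φ P ^ 2) := by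
    refine integral_mono (i3.const_mul 2).neg ((i1.const_mul _).add (i2.const_mul _)) ?_
    intro P
    show -(2 * (ℓ P * φ P * pd e i φ P)) ≤ 1 / 2 * φ P ^ 2 + 2 * R ^ 2 * pd e i φ P ^ 2
    by_cases hP : P ∈ G
    · have h4 := hR P hP
      have h5 : ℓ P ^ 2 ≤ R ^ 2 := by
        rw [← sq_abs (ℓ P)]
        exact pow_le_pow_left₀ (abs_nonneg _) h4 2
      have h6 : ℓ P ^ 2 * pd e i φ P ^ 2 ≤ R ^ 2 * pd e i φ P ^ 2 :=
        mul_le_mul_of_nonneg_right h5 (sq_nonneg _)
      nlinarith [sq_nonneg (φ P + 2 * ℓ P * pd e i φ P)]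
    · have h7 : φ P = 0 := by
        by_contra hne
        exact hP (h.sub (subset_tsupport _ hne))
      rw [h7]
      have : 0 ≤ 2 * R ^ 2 * pd e i φ P ^ 2 := by positivity
      linarith
  rw [integral_add (i1.const_mul _) (i2.const_mul _), integral_const_mul, integral_const_mul,
    h2] at h3
  linarith

theorem sq_int {f : E → ℝ} (hf : MemLp f 2 volume) :
    eLpNorm f 2 volume = ENNReal.ofReal (Real.sqrt (∫ P, f P ^ 2)) := by
  rw [hf.eLpNorm_eq_integral_rpow_norm (by norm_num) (by norm_num)]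
  congr 1
  rw [Real.sqrt_eq_rpow]
  norm_num

theorem le_of (f g : E → ℝ) (hf : MemLp f 2 volume) (hg : MemLp g 2 volume) (C : ℝ) (hC : 0 ≤ C) :
    eLpNorm f 2 volume ≤ ENNReal.ofReal C * eLpNorm g 2 volume ↔
      ∫ P, f P ^ 2 ≤ C ^ 2 * ∫ P, g P ^ 2 := by
  have h1 : 0 ≤ ∫ P, f P ^ 2 := integral_nonneg fun P => sq_nonneg _
  have h2 : 0 ≤ ∫ P, g P ^ 2 := integral_nonneg fun P => sq_nonneg _
  rw [sq_int hf, sq_int hg, ← ENNReal.ofReal_mul hC,
    ENNReal.ofReal_le_ofReal_iff (by positivity)]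
  constructor
  · intro h
    have h3 := pow_le_pow_left₀ (Real.sqrt_nonneg _) h 2
    rw [mul_pow, Real.sq_sqrt h1, Real.sq_sqrt h2] at h3
    exact h3
  · intro h
    rw [Real.sqrt_le_left (by positivity), mul_pow, Real.sq_sqrt h2]
    exact h

theorem main (e : ι → E) (i : ι) (G : Set E) (f : E → ℝ) (F : ι → E → ℝ) (R : ℝ)
    (ℓ : E →L[ℝ] ℝ) (hℓ : ℓ (e i) = 1) (hR0 : 0 < R) (hR : ∀ P ∈ G, |ℓ P| ≤ R)
    (h : H1 e G f F) : ∫ P, f P ^ 2 ≤ 4 * R ^ 2 * ∫ P, F i P ^ 2 := by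
  have h4 : (4 : ℝ) * R ^ 2 = (2 * R) ^ 2 := by ring
  rw [h4]
  rw [← le_of f (F i) h.1 (h.2.1 i) (2 * R) (by positivity)]
  refine ENNReal.le_of_forall_pos_le_add ?_
  intro ε hε _
  set C := ENNReal.ofReal (2 * R) with hC
  have hC1 : C + 1 ≠ 0 := by simp
  have hC2 : C + 1 ≠ ⊤ := ENNReal.add_ne_top.2 ⟨ENNReal.ofReal_ne_top, ENNReal.one_ne_top⟩
  have hδ : (ε : ℝ≥0∞) / (C + 1) ≠ 0 :=
    ENNReal.div_ne_zero.2 ⟨by simpa using hε.ne', hC2⟩
  obtain ⟨φ, hφ, h1, h2⟩ := h.2.2 _ hδ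
  have h3 : eLpNorm φ 2 volume ≤ C * eLpNorm (pd e i φ) 2 volume := by
    rw [hC, le_of φ (pd e i φ) hφ.memLp (hφ.memLp_pd i) (2 * R) (by positivity), ← h4]
    exact test e i G φ R ℓ hℓ hR hφ
  have h5 : eLpNorm f 2 volume ≤ eLpNorm (fun P => φ P - f P) 2 volume + eLpNorm φ 2 volume := by
    have e1 : f = fun P => -(φ P - f P) + φ P := by
      funext P
      ring
    have e2 : eLpNorm (fun P => -(φ P - f P)) 2 volume =
        eLpNorm (fun P => φ P - f P) 2 volume :=
      eLpNorm_neg (f := fun P => φ P - f P) (p := 2) (μ := (volume : Measure E))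
    calc eLpNorm f 2 volume = eLpNorm (fun P => -(φ P - f P) + φ P) 2 volume := by rw [← e1]
      _ ≤ eLpNorm (fun P => -(φ P - f P)) 2 volume + eLpNorm φ 2 volume :=
          eLpNorm_add_le ((hφ.memLp.sub h.1).neg.1) hφ.memLp.1 (by norm_num)
      _ = _ := by rw [e2]
  have h6 : eLpNorm (pd e i φ) 2 volume ≤
      eLpNorm (fun P => pd e i φ P - F i P) 2 volume + eLpNorm (F i) 2 volume := by
    have e1 : pd e i φ = fun P => (pd e i φ P - F i P) + F i P := by
      funext P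
      ring
    calc eLpNorm (pd e i φ) 2 volume = eLpNorm (fun P => (pd e i φ P - F i P) + F i P) 2 volume := by
          rw [← e1]
      _ ≤ _ := eLpNorm_add_le (((hφ.memLp_pd i).sub (h.2.1 i)).1) (h.2.1 i).1 (by norm_num)
  calc eLpNorm f 2 volume ≤ (ε : ℝ≥0∞) / (C + 1) + C * ((ε : ℝ≥0∞) / (C + 1) +
        eLpNorm (F i) 2 volume) := by
        refine h5.trans (add_le_add h1 (h3.trans ?_))
        exact mul_le_mul_right (h6.trans (add_le_add (h2 i) le_rfl)) _
    _ = C * eLpNorm (F i) 2 volume + (C + 1) * ((ε : ℝ≥0∞) / (C + 1)) := by ring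
    _ = C * eLpNorm (F i) 2 volume + ε := by rw [ENNReal.mul_div_cancel hC1 hC2]

end FRI_

open FRI_ in
/-- FRI -/
theorem p_FRI : T_FRI := by
  constructor
  · intro G f F R hR hG h
    refine main e2 0 G f F R Complex.reCLM ?_ hR ?_ h
    · simp [e2]
    · intro x hx
      have := hG hx
      rw [mem_closedBall_zero_iff] at this
      exact (Complex.abs_re_le_norm x).trans this
  · intro G f F R hR hG h
    refine main e3 2 G f F R (ContinuousLinearMap.snd ℝ ℂ ℝ) ?_ hR ?_ h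
    · simp [e3]
    · intro P hP
      have := hG hP
      rw [mem_closedBall_zero_iff] at this
      exact (norm_snd_le P).trans this

end MGS
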