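import Pool.Agent.MGS.TG

/-!
# MGS: target GAU, the gauge transformation
-/

set_option autoImplicit false

open MeasureTheory Filter Topology Metric Set
open scoped ENNReal NNReal ContDiff

noncomputable section

namespace MGS

namespace GAU_

/-- the phase `θ` -/
def th (B : ℝ) (c : ℂ) : X →L[ℝ] ℝ :=
  (B / 2 * c.im) • (Complex.reCLM.comp (ContinuousLinearMap.fst ℝ ℂ ℝ)) -
    (B / 2 * c.re) • (Complex.imCLM.comp (ContinuousLinearMap.fst ℝ ℂ ℝ))

theorem th_apply (B : ℝ) (c : ℂ) (P : X) :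
    th B c P = B / 2 * c.im * P.1.re - B / 2 * c.re * P.1.im := by
  simp [th]

/-- the gauge transform of `φ` -/
def gu (B : ℝ) (c : ℂ) (φ : X → ℝ) (P : X) : ℂ :=
  Complex.exp (Complex.I * ((th B c P : ℝ) : ℂ)) * ((φ P : ℝ) : ℂ)

theorem norm_exp_I (t : ℝ) : ‖Complex.exp (Complex.I * (t : ℂ))‖ = 1 := by
  rw [mul_comm]
  exact Complex.norm_exp_ofReal_mul_I t

theorem norm_gu (B : ℝ) (c : ℂ) (φ : X → ℝ) (P : X) : ‖gu B c φ P‖ = |φ P| := by
  rw [gu, norm_mul, norm_exp_I, one_mul, Complex.norm_real, Real.norm_eq_abs]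

theorem fderiv_gu (B : ℝ) (c : ℂ) (φ : X → ℝ) (P w : X) (h : DifferentiableAt ℝ φ P) :
    fderiv ℝ (gu B c φ) P w = Complex.exp (Complex.I * ((th B c P : ℝ) : ℂ)) *
      (Complex.I * ((th B c w : ℝ) : ℂ) * ((φ P : ℝ) : ℂ) + ((fderiv ℝ φ P w : ℝ) : ℂ)) := by
  have h1 : HasFDerivAt (fun Q : X => ((th B c Q : ℝ) : ℂ)) (Complex.ofRealCLM.comp (th B c)) P :=
    (Complex.ofRealCLM.comp (th B c)).hasFDerivAt
  have h2 : HasFDerivAt (fun Q : X => Complex.exp (Complex.I * ((th B c Q : ℝ) : ℂ)))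
      (Complex.exp (Complex.I * ((th B c P : ℝ) : ℂ)) •
        (Complex.I • (Complex.ofRealCLM.comp (th B c)))) P := (h1.const_mul Complex.I).cexp
  have h3 : HasFDerivAt (fun Q : X => ((φ Q : ℝ) : ℂ))
      (Complex.ofRealCLM.comp (fderiv ℝ φ P)) P :=
    Complex.ofRealCLM.hasFDerivAt.comp P h.hasFDerivAt
  have h4 := h2.mul h3
  have h5 : fderiv ℝ (gu B c φ) P = _ := h4.fderiv
  rw [h5]
  simp only [ContinuousLinearMap.add_apply, ContinuousLinearMap.smul_apply, smul_eq_mul,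
    ContinuousLinearMap.comp_apply, Complex.ofRealCLM_apply]
  ring

theorem sq_norm_aux (a b : ℝ) : ‖-Complex.I * (a : ℂ) + (b : ℂ)‖ ^ 2 = a ^ 2 + b ^ 2 := by
  rw [Complex.sq_norm, Complex.normSq_apply]
  simp
  ring

theorem term (B : ℝ) (c : ℂ) (φ : X → ℝ) (P : X) (h : DifferentiableAt ℝ φ P) (i : Fin 3) :
    ‖-Complex.I * fderiv ℝ (gu B c φ) P (e3 i) + (Ap B i P : ℂ) * gu B c φ P‖ ^ 2 =
      pd e3 i φ P ^ 2 + ((th B c (e3 i) + Ap B i P) * φ P) ^ 2 := by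
  have e : -Complex.I * fderiv ℝ (gu B c φ) P (e3 i) + (Ap B i P : ℂ) * gu B c φ P =
      Complex.exp (Complex.I * ((th B c P : ℝ) : ℂ)) *
        (-Complex.I * ((fderiv ℝ φ P (e3 i) : ℝ) : ℂ) +
          (((th B c (e3 i) + Ap B i P) * φ P : ℝ) : ℂ)) := by
    rw [fderiv_gu B c φ P (e3 i) h, gu]
    push_cast
    linear_combination (-(Complex.exp (Complex.I * ((th B c P : ℝ) : ℂ))) *
      ((th B c (e3 i) : ℝ) : ℂ) * ((φ P : ℝ) : ℂ)) * Complex.I_mul_I
  rw [e, norm_mul, norm_exp_I, one_mul, sq_norm_aux]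
  rfl

theorem sum_eq (B : ℝ) (c : ℂ) (P : X) :
    ∑ i : Fin 3, (th B c (e3 i) + Ap B i P) ^ 2 = (B / 2) ^ 2 * ‖P.1 - c‖ ^ 2 := by
  rw [Fin.sum_univ_three, Complex.sq_norm, Complex.normSq_apply]
  simp only [th_apply, e3, Ap, Matrix.cons_val_zero, Matrix.cons_val_one, Matrix.cons_val,
    Complex.one_re, Complex.one_im, Complex.I_re, Complex.I_im, Complex.zero_re, Complex.zero_im,
    Complex.sub_re, Complex.sub_im]
  ring

end GAU_

open GAU_ in
theorem p_GAU : T_GAU := by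
  intro B c G φ h
  have hs : Function.support (gu B c φ) ⊆ Function.support φ := by
    intro P hP
    rw [Function.mem_support] at hP ⊢
    intro h0
    exact hP (by rw [gu, h0, Complex.ofReal_zero, mul_zero])
  have ht : tsupport (gu B c φ) ⊆ tsupport φ := closure_mono hs
  refine ⟨gu B c φ, ⟨?_, ?_, ht.trans h.sub⟩, norm_gu B c φ, ?_⟩
  · have h1 : ContDiff ℝ ∞ (fun P : X => Complex.I * ((th B c P : ℝ) : ℂ)) :=
      contDiff_const.mul (Complex.ofRealCLM.comp (th B c)).contDiff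
    have h2 : ContDiff ℝ ∞ (fun P : X => ((φ P : ℝ) : ℂ)) :=
      Complex.ofRealCLM.contDiff.comp h.smooth
    exact h1.cexp.mul h2
  · exact h.cpt.mono' (hs.trans subset_closure)
  · show ∫ P, _ = ∫ P, _
    refine integral_congr_ae (Eventually.of_forall fun P => ?_)
    show ∑ i : Fin 3, ‖-Complex.I * fderiv ℝ (gu B c φ) P (e3 i) +
      (Ap B i P : ℂ) * gu B c φ P‖ ^ 2 = ∑ i : Fin 3, pd e3 i φ P ^ 2 + qc B c P * φ P ^ 2
    rw [Finset.sum_congr rfl fun i _ => term B c φ P (h.diff P) i, Finset.sum_add_distrib, qc,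
      ← sum_eq, Finset.sum_mul]
    congr 1
    exact Finset.sum_congr rfl fun i _ => mul_pow _ _ _

end MGS
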