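import Pool.Agent.MGS.TB

/-!
# MGS: GSM, WEQ, GPO (helper38)
-/

set_option autoImplicit false

open MeasureTheory Filter Topology Metric Set
open scoped ENNReal NNReal ContDiff

noncomputable section

namespace MGS

theorem p_GSM (h_EXR : T_EXR) : T_GSM := by
  intro B G v F hS hG
  obtain ⟨-, h2⟩ := h_EXR B G hS.isOpen hS.bounded hS.nonempty
  refine ⟨⟨hS.isOpen, hS.bounded, ?_, ?_, ?_⟩, hG.h, ?_⟩
  · unfold VV
    fun_prop
  · intro P
    unfold VV
    positivity
  · intro φ hφ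
    exact h2 φ (fun i => pd e3 i φ) hφ.h1
  · rw [hG.nrm, mul_one]
    exact hG.eq.le

theorem p_WEQ (h_GSM : T_GSM) (h_WKE : T_WKE) : T_WEQ := by
  intro B G v F hS hG φ Φ hφ
  exact h_WKE (VV B) G (lamR B G) v F (h_GSM B G v F hS hG) φ Φ hφ

theorem p_GPO (h_GSM : T_GSM) (h_POS : T_POS) (h_CON : T_CON) : T_GPO := by
  intro B G v F hS hG
  refine h_POS (VV B) G (lamR B G) v F (h_GSM B G v F hS hG) (h_CON G hS).1
    (Eventually.of_forall hG.nn) ?_
  rw [hG.nrm]
  norm_num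

end MGS
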