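import Pool.Agent.MGS.TA

/-!
# MGS, target MAZ: weak limits
-/

set_option autoImplicit false
set_option linter.unusedSectionVars false

open MeasureTheory Filter Topology Metric Set
open scoped ENNReal NNReal ContDiff

noncomputable section

namespace MGS.MAZ_

/-- a point in all closed convex sets which contain a tail of a bounded sequence -/
theorem nested {H : Type} [NormedAddCommGroup H] [InnerProductSpace ℝ H] [CompleteSpace H]
    (x : ℕ → H) (R : ℝ) (hR : ∀ᶠ n in atTop, ‖x n‖ ≤ R) :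
    ∃ p : H, ∀ (n : ℕ) (S : Set H), Convex ℝ S → IsClosed S → (∀ m, n ≤ m → x m ∈ S) → p ∈ S := by
  set K : ℕ → Set H := fun n => closure (convexHull ℝ (x '' Set.Ici n)) with hK
  have hKc : ∀ n, IsClosed (K n) := fun n => isClosed_closure
  have hKv : ∀ n, Convex ℝ (K n) := fun n => (convex_convexHull ℝ _).closure
  have hKx : ∀ n m, n ≤ m → x m ∈ K n := fun n m h =>
    subset_closure (subset_convexHull ℝ _ ⟨m, h, rfl⟩)
  have hKm : ∀ n m, n ≤ m → K m ⊆ K n := fun n m h =>
    closure_mono (convexHull_mono (Set.image_mono (Set.Ici_subset_Ici.2 h)))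
  have hKne : ∀ n, (K n).Nonempty := fun n => ⟨x n, hKx n n le_rfl⟩
  choose p hpK hp using fun n => exists_norm_eq_iInf_of_complete_convex (hKne n)
    (hKc n).isComplete (hKv n) (0 : H)
  have hin : ∀ n, ∀ w ∈ K n, inner ℝ (0 - p n) (w - p n) ≤ 0 := fun n =>
    (norm_eq_iInf_iff_real_inner_le_zero (hKv n) (hpK n)).1 (hp n)
  -- key inequality
  have hkey : ∀ n, ∀ w ∈ K n, ‖w - p n‖ ^ 2 ≤ ‖w‖ ^ 2 - ‖p n‖ ^ 2 := by
    intro n w hw
    have h1 := hin n w hw
    have h2 : inner ℝ (0 - p n) (w - p n) = ‖p n‖ ^ 2 - inner ℝ (p n) w := by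
      rw [zero_sub, inner_neg_left, inner_sub_right, real_inner_self_eq_norm_sq]
      ring
    have h3 : ‖w - p n‖ ^ 2 = ‖w‖ ^ 2 - 2 * inner ℝ w (p n) + ‖p n‖ ^ 2 := norm_sub_sq_real w (p n)
    rw [real_inner_comm w (p n)] at h2
    rw [h2] at h1
    rw [h3]
    have h4 : inner ℝ w (p n) = inner ℝ (p n) w := real_inner_comm _ _
    linarith
  obtain ⟨N0, hN0⟩ := eventually_atTop.1 hR
  have hbd : ∀ n, ‖p n‖ ^ 2 ≤ R ^ 2 := by
    intro n
    have h1 := hkey n (x (max n N0)) (hKx _ _ (le_max_left _ _))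
    have h2 : ‖x (max n N0)‖ ≤ R := hN0 _ (le_max_right _ _)
    have h3 : ‖x (max n N0)‖ ^ 2 ≤ R ^ 2 := pow_le_pow_left₀ (norm_nonneg _) h2 2
    nlinarith [sq_nonneg ‖x (max n N0) - p n‖]
  have hmono : Monotone fun n => ‖p n‖ ^ 2 := by
    intro n m h
    have h1 := hkey n (p m) (hKm _ _ h (hpK m))
    show ‖p n‖ ^ 2 ≤ ‖p m‖ ^ 2
    nlinarith [sq_nonneg ‖p m - p n‖]
  have hconv : Tendsto (fun n => ‖p n‖ ^ 2) atTop (𝓝 (⨆ n, ‖p n‖ ^ 2)) :=
    tendsto_atTop_ciSup hmono ⟨R ^ 2, by rintro _ ⟨n, rfl⟩; exact hbd n⟩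
  have hcs : CauchySeq p := by
    rw [Metric.cauchySeq_iff']
    intro ε hε
    have hc2 := Metric.cauchySeq_iff'.1 hconv.cauchySeq (ε ^ 2) (by positivity)
    obtain ⟨N, hN⟩ := hc2
    refine ⟨N, fun n hn => ?_⟩
    have h1 := hkey N (p n) (hKm _ _ hn (hpK n))
    have h2 := hN n hn
    rw [Real.dist_eq] at h2
    have h3 := (abs_lt.1 h2).2
    rw [dist_eq_norm]
    have h4 : ‖p n - p N‖ ^ 2 < ε ^ 2 := by linarith
    exact lt_of_pow_lt_pow_left₀ 2 hε.le h4
  obtain ⟨q, hq⟩ := cauchySeq_tendsto_of_complete hcs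
  refine ⟨q, fun n S hS hSc hx => ?_⟩
  have h1 : K n ⊆ S := by
    refine closure_minimal (convexHull_min ?_ hS) hSc
    rintro _ ⟨m, hm, rfl⟩
    exact hx m hm
  refine h1 ((hKc n).mem_of_tendsto hq ?_)
  filter_upwards [eventually_ge_atTop n] with m hm
  exact hKm _ _ hm (hpK m)

section

variable {E : Type} [MeasureSpace E] {ι : Type}

/-- the `L²` space -/
abbrev LL (E : Type) [MeasureSpace E] : Type := Lp ℝ 2 (volume : Measure E)

theorem normsq (u : LL E) (w : E → ℝ) (h : (u : E → ℝ) =ᵐ[volume] w) :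
    ‖u‖ ^ 2 = ∫ P, w P ^ 2 := by
  rw [← real_inner_self_eq_norm_sq, L2.inner_def]
  refine integral_congr_ae ?_
  filter_upwards [h] with P hP
  rw [hP]
  simp [pow_two]

theorem eln (u v : LL E) :
    eLpNorm (fun P => u P - v P) 2 volume = ENNReal.ofReal ‖u - v‖ := by
  rw [Lp.norm_def, ENNReal.ofReal_toReal (Lp.eLpNorm_ne_top _)]
  exact eLpNorm_congr_ae (Lp.coeFn_sub u v).symm

end

end MGS.MAZ_

open MGS.MAZ_ in
theorem MGS.p_MAZ : MGS.T_MAZ := by
  intro E _ _ _ _ _ _ ι _ e G f g Fg K S C hf hH hlim hK hC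
  -- the sequence in the Hilbert space
  set x : ℕ → PiLp 2 (fun _ : Option ι => LL E) := fun n => WithLp.toLp 2 (fun o =>
    match o with
    | none => (hH n).1.toLp (g n)
    | some i => ((hH n).2.1 i).toLp (Fg n i)) with hx
  have hx0 : ∀ n, (x n) none = (hH n).1.toLp (g n) := fun n => rfl
  have hxi : ∀ n i, (x n) (some i) = ((hH n).2.1 i).toLp (Fg n i) := fun n i => rfl
  set f' : LL E := hf.toLp f with hf'
  have hd : ∀ n, ENNReal.ofReal ‖(x n) none - f'‖ =
      eLpNorm (fun P => g n P - f P) 2 volume := by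
    intro n
    rw [hx0, ← eln]
    refine eLpNorm_congr_ae ?_
    filter_upwards [(hH n).1.coeFn_toLp, hf.coeFn_toLp] with P h1 h2
    rw [h1, h2]
  have hd' : Tendsto (fun n => ‖(x n) none - f'‖) atTop (𝓝 0) := by
    have h1 : Tendsto (fun n => (ENNReal.ofReal ‖(x n) none - f'‖).toReal) atTop
        (𝓝 (0 : ℝ≥0∞).toReal) :=
      (ENNReal.tendsto_toReal ENNReal.zero_ne_top).comp (by simpa only [hd] using hlim)
    simpa only [ENNReal.toReal_ofReal (norm_nonneg _), ENNReal.toReal_zero] using h1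
  have hni : ∀ n i, ‖(x n) (some i)‖ ^ 2 = ∫ P, Fg n i P ^ 2 := fun n i =>
    normsq _ _ ((hH n).2.1 i).coeFn_toLp
  -- boundedness
  have hbd : ∀ᶠ n in atTop,
      ‖x n‖ ≤ Real.sqrt ((‖f'‖ + 1) ^ 2 + ∑ _i : ι, K) := by
    have h1 : ∀ᶠ n in atTop, ‖(x n) none - f'‖ < 1 := hd'.eventually (gt_mem_nhds one_pos)
    filter_upwards [h1] with n hn
    refine Real.le_sqrt_of_sq_le ?_
    rw [PiLp.norm_sq_eq_of_L2, Fintype.sum_option]
    refine add_le_add ?_ (Finset.sum_le_sum fun i _ => ?_)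
    · refine pow_le_pow_left₀ (norm_nonneg _) ?_ 2
      calc ‖(x n) none‖ = ‖((x n) none - f') + f'‖ := by rw [sub_add_cancel]
        _ ≤ ‖(x n) none - f'‖ + ‖f'‖ := norm_add_le _ _
        _ ≤ ‖f'‖ + 1 := by linarith
    · rw [hni]
      exact hK n i
  obtain ⟨p, hp⟩ := nested x _ hbd
  -- first component
  have hpf : p none = f' := by
    have h1 : ∀ ε : ℝ, 0 < ε → ‖p none - f'‖ ≤ ε := by
      intro ε hε
      obtain ⟨n, hn⟩ := eventually_atTop.1 (hd'.eventually (gt_mem_nhds hε))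
      have h2 : p ∈ (PiLp.proj 2 (fun _ : Option ι => LL E) none : _ →L[ℝ] LL E) ⁻¹'
          closedBall f' ε := by
        refine hp n _ ((convex_closedBall f' ε).linear_preimage
          (PiLp.proj 2 (fun _ : Option ι => LL E) none : _ →L[ℝ] LL E).toLinearMap)
          (isClosed_closedBall.preimage (ContinuousLinearMap.continuous _)) fun m hm => ?_
        show (x m) none ∈ closedBall f' ε
        rw [mem_closedBall, dist_eq_norm]
        exact (hn m hm).le
      have h3 : p none ∈ closedBall f' ε := h2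
      rwa [mem_closedBall, dist_eq_norm] at h3
    have h4 : ‖p none - f'‖ = 0 :=
      le_antisymm (le_of_forall_pos_le_add fun ε hε => by
        rw [zero_add]
        exact h1 ε hε) (norm_nonneg _)
    exact sub_eq_zero.1 (norm_eq_zero.1 h4)
  -- membership in `H¹₀`
  have hpH : H1 e G (p none) (fun i => p (some i)) := by
    refine hp 0 {y | H1 e G (y none) (fun i => y (some i))} ?_ ?_ fun m _ => ?_
    · intro y hy z hz a b _ _ _
      have h1 := (H1.smul hy a).add (H1.smul hz b)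
      refine h1.congr ?_ fun i => ?_
      · have e1 : (a • y + b • z : PiLp 2 (fun _ : Option ι => LL E)) none =
            a • y none + b • z none := rfl
        rw [e1]
        filter_upwards [Lp.coeFn_add (a • y none) (b • z none), Lp.coeFn_smul a (y none),
          Lp.coeFn_smul b (z none)] with P h2 h3 h4
        rw [h2, Pi.add_apply, h3, h4]
        rfl
      · have e1 : (a • y + b • z : PiLp 2 (fun _ : Option ι => LL E)) (some i) =
            a • y (some i) + b • z (some i) := rfl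
        rw [e1]
        filter_upwards [Lp.coeFn_add (a • y (some i)) (b • z (some i)),
          Lp.coeFn_smul a (y (some i)), Lp.coeFn_smul b (z (some i))] with P h2 h3 h4
        rw [h2, Pi.add_apply, h3, h4]
        rfl
    · refine isClosed_of_closure_subset fun y hy => ?_
      refine H1.closure (Lp.memLp _) (fun i => Lp.memLp _) fun ε hε => ?_
      obtain ⟨δ, hδ0, hδ1, hδ2⟩ := ENNReal.lt_iff_exists_real_btwn.1 (pos_iff_ne_zero.2 hε)
      have hδ : 0 < δ := ENNReal.ofReal_pos.1 hδ1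
      obtain ⟨z, hz, hyz⟩ := Metric.mem_closure_iff.1 hy δ hδ
      refine ⟨z none, fun i => z (some i), hz, ?_, fun i => ?_⟩
      · rw [eln]
        refine le_trans (ENNReal.ofReal_le_ofReal ?_) hδ2.le
        rw [dist_eq_norm, norm_sub_rev] at hyz
        exact (PiLp.norm_apply_le (z - y) none).trans hyz.le
      · rw [eln]
        refine le_trans (ENNReal.ofReal_le_ofReal ?_) hδ2.le
        rw [dist_eq_norm, norm_sub_rev] at hyz
        exact (PiLp.norm_apply_le (z - y) (some i)).trans hyz.le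
    · show H1 e G ((x m) none) (fun i => (x m) (some i))
      exact (hH m).congr (hH m).1.coeFn_toLp.symm fun i => ((hH m).2.1 i).coeFn_toLp.symm
  refine ⟨fun i => p (some i), ?_, fun k => ?_⟩
  · refine hpH.congr ?_ fun i => ae_eq_refl _
    rw [hpf]
    exact hf.coeFn_toLp
  -- the bounds
  have hsum : ∀ (w : ι → LL E) (v : ι → E → ℝ), (∀ i, (w i : E → ℝ) =ᵐ[volume] v i) →
      (∀ i, MemLp (v i) 2 volume) →
      ∫ P, ∑ i ∈ S k, v i P ^ 2 = ∑ i ∈ S k, ‖w i‖ ^ 2 := by
    intro w v hwv hv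
    rw [integral_finset_sum _ fun i _ => (hv i).integrable_sq]
    exact Finset.sum_congr rfl fun i _ => (normsq _ _ (hwv i)).symm
  rw [hsum (fun i => p (some i)) (fun i => p (some i)) (fun i => ae_eq_refl _)
    fun i => Lp.memLp _]
  refine le_of_forall_pos_le_add fun δ hδ => ?_
  obtain ⟨n, hn⟩ := eventually_atTop.1 (hC k δ hδ)
  refine hp n {y | ∑ i ∈ S k, ‖y (some i)‖ ^ 2 ≤ C k + δ} ?_ ?_ fun m hm => ?_
  · intro y hy z hz a b ha hb hab
    simp only [mem_setOf_eq] at hy hz ⊢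
    have h1 : ∀ i ∈ S k, ‖(a • y + b • z : PiLp 2 (fun _ : Option ι => LL E)) (some i)‖ ^ 2 ≤
        a * ‖y (some i)‖ ^ 2 + b * ‖z (some i)‖ ^ 2 := by
      intro i _
      have e1 : (a • y + b • z : PiLp 2 (fun _ : Option ι => LL E)) (some i) =
          a • y (some i) + b • z (some i) := rfl
      rw [e1]
      have h2 : ‖a • y (some i) + b • z (some i)‖ ≤ a * ‖y (some i)‖ + b * ‖z (some i)‖ := by
        refine (norm_add_le _ _).trans ?_
        rw [norm_smul, norm_smul, Real.norm_of_nonneg ha, Real.norm_of_nonneg hb]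
      have h3 := pow_le_pow_left₀ (norm_nonneg _) h2 2
      refine h3.trans ?_
      have hb' : b = 1 - a := by linarith
      subst hb'
      nlinarith [mul_nonneg (mul_nonneg ha hb) (sq_nonneg (‖y (some i)‖ - ‖z (some i)‖))]
    calc ∑ i ∈ S k, ‖(a • y + b • z : PiLp 2 (fun _ : Option ι => LL E)) (some i)‖ ^ 2
        ≤ ∑ i ∈ S k, (a * ‖y (some i)‖ ^ 2 + b * ‖z (some i)‖ ^ 2) := Finset.sum_le_sum h1
      _ = a * ∑ i ∈ S k, ‖y (some i)‖ ^ 2 + b * ∑ i ∈ S k, ‖z (some i)‖ ^ 2 := by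
        rw [Finset.sum_add_distrib, Finset.mul_sum, Finset.mul_sum]
      _ ≤ a * (C k + δ) + b * (C k + δ) :=
        add_le_add (mul_le_mul_of_nonneg_left hy ha) (mul_le_mul_of_nonneg_left hz hb)
      _ = C k + δ := by rw [← add_mul, hab, one_mul]
  · refine isClosed_le ?_ continuous_const
    refine continuous_finset_sum _ fun i _ => ?_
    exact ((PiLp.proj 2 (fun _ : Option ι => LL E) (some i) : _ →L[ℝ] LL E).continuous.norm).pow 2
  · show ∑ i ∈ S k, ‖(x m) (some i)‖ ^ 2 ≤ C k + δ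
    rw [← hsum (fun i => (x m) (some i)) (fun i => Fg m i)
      (fun i => ((hH m).2.1 i).coeFn_toLp) fun i => (hH m).2.1 i]
    exact hn m hm
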