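import Pool.Agent.MGS.TA

/-! # MGS-TRL: affine change of variables -/

set_option autoImplicit false

open MeasureTheory Filter Topology Metric Set
open scoped ENNReal NNReal ContDiff

noncomputable section

namespace MGS

theorem TRL_map {E : Type} [NormedAddCommGroup E] [NormedSpace ℝ E] [FiniteDimensional ℝ E]
    [MeasureSpace E] [BorelSpace E] [(volume : Measure E).IsAddHaarMeasure] (L : E ≃L[ℝ] E)
    (c : E) : ∃ κ : ℝ≥0∞, κ ≠ ⊤ ∧
      Measure.map (fun P => L P + c) (volume : Measure E) = κ • (volume : Measure E) := by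
  refine ⟨ENNReal.ofReal |(LinearMap.det (L.toLinearEquiv : E →ₗ[ℝ] E))⁻¹|,
    ENNReal.ofReal_ne_top, ?_⟩
  have h1 : LinearMap.det (L.toLinearEquiv : E →ₗ[ℝ] E) ≠ 0 :=
    (LinearEquiv.isUnit_det' L.toLinearEquiv).ne_zero
  have h2 := Measure.map_linearMap_addHaar_eq_smul_addHaar (volume : Measure E) h1
  have h3 : (fun P => L P + c) = (fun P => P + c) ∘ (L.toLinearEquiv : E →ₗ[ℝ] E) := by
    funext P
    rfl
  have h4 : Measurable ((L.toLinearEquiv : E →ₗ[ℝ] E) : E → E) := L.continuous.measurable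
  rw [h3, ← Measure.map_map (measurable_add_const c) h4, h2, Measure.map_smul,
    map_add_right_eq_self]

theorem TRL_norm {E : Type} [NormedAddCommGroup E] [NormedSpace ℝ E] [FiniteDimensional ℝ E]
    [MeasureSpace E] [BorelSpace E] [(volume : Measure E).IsAddHaarMeasure] (L : E ≃L[ℝ] E)
    (c : E) : ∃ C : ℝ≥0∞, C ≠ ⊤ ∧ ∀ u : E → ℝ, MemLp u 2 volume →
      MemLp (fun P => u (L P + c)) 2 volume ∧
      eLpNorm (fun P => u (L P + c)) 2 volume ≤ C * eLpNorm u 2 volume := by
  obtain ⟨κ, hκ, hm⟩ := TRL_map L c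
  have hT : Measurable (fun P => L P + c) := (L.continuous.add continuous_const).measurable
  refine ⟨κ ^ (1 / (2 : ℝ≥0∞)).toReal, ENNReal.rpow_ne_top_of_nonneg (by positivity) hκ, ?_⟩
  intro u hu
  have h1 : MemLp u 2 (Measure.map (fun P => L P + c) (volume : Measure E)) := by
    rw [hm]
    exact hu.smul_measure hκ
  refine ⟨h1.comp_of_map hT.aemeasurable, ?_⟩
  have h2 : eLpNorm (fun P => u (L P + c)) 2 (volume : Measure E) =
      eLpNorm u 2 (Measure.map (fun P => L P + c) (volume : Measure E)) :=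
    (eLpNorm_map_measure h1.1 hT.aemeasurable).symm
  rw [h2, hm, eLpNorm_smul_measure_of_ne_top (by norm_num)]
  rfl

theorem TRL_test {E : Type} [NormedAddCommGroup E] [NormedSpace ℝ E] {G : Set E} {φ : E → ℝ}
    (L : E ≃L[ℝ] E) (c : E) (h : Test G φ) :
    Test ((fun P => L P + c) ⁻¹' G) (fun P => φ (L P + c)) where
  smooth := h.smooth.comp (L.contDiff.add contDiff_const)
  cpt := h.cpt.comp_homeomorph (L.toHomeomorph.trans (Homeomorph.addRight c))
  sub := (tsupport_comp_subset_preimage φ (L.continuous.add continuous_const)).trans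
    (Set.preimage_mono h.sub)

theorem TRL_pd {E ι : Type} [NormedAddCommGroup E] [NormedSpace ℝ E] [Fintype ι] {G : Set E}
    {φ : E → ℝ} (L : E ≃L[ℝ] E) (c : E) (h : Test G φ) (e : ι → E) (M : ι → ι → ℝ)
    (hM : ∀ i, L (e i) = ∑ j, M j i • e j) (i : ι) (P : E) :
    pd e i (fun P => φ (L P + c)) P = ∑ j, M j i * pd e j φ (L P + c) := by
  have h1 : HasFDerivAt (fun P => L P + c) (L : E →L[ℝ] E) P :=
    (L.hasFDerivAt).add_const c
  have h2 : HasFDerivAt φ (fderiv ℝ φ (L P + c)) (L P + c) := (h.diff _).hasFDerivAt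
  have h3 : HasFDerivAt (fun P => φ (L P + c)) ((fderiv ℝ φ (L P + c)).comp (L : E →L[ℝ] E)) P :=
    h2.comp P h1
  unfold pd
  rw [h3.fderiv]
  show fderiv ℝ φ (L P + c) (L (e i)) = _
  rw [hM, map_sum]
  refine Finset.sum_congr rfl fun j _ => ?_
  rw [map_smul, smul_eq_mul]

/-- TRL -/
theorem p_TRL : T_TRL := by
  intro E _ _ _ _ _ _ ι _ e G f F L c M hM hf
  obtain ⟨C, hC, hn⟩ := TRL_norm L c
  refine ⟨(hn f hf.1).1, ?_, ?_⟩
  · intro i
    exact memLp_finsetSum _ fun j _ => ((hn (F j) (hf.2.1 j)).1).const_mul (M j i)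
  · intro ε hε
    set D : ℝ≥0∞ := C + (∑ i, ∑ j, ‖M j i‖ₑ) * C + 1 with hD
    have hD0 : D ≠ 0 := by simp [hD]
    have hS : (∑ i, ∑ j, ‖M j i‖ₑ) ≠ (⊤ : ℝ≥0∞) := by
      refine ENNReal.sum_ne_top.2 fun i _ => ENNReal.sum_ne_top.2 fun j _ => ?_
      exact enorm_ne_top
    have hDt : D ≠ ⊤ := by
      rw [hD]
      exact ENNReal.add_ne_top.2 ⟨ENNReal.add_ne_top.2 ⟨hC, ENNReal.mul_ne_top hS hC⟩,
        ENNReal.one_ne_top⟩
    have hδ : ε / D ≠ 0 := ENNReal.div_ne_zero.2 ⟨hε, hDt⟩
    obtain ⟨φ, hφ, h1, h2⟩ := hf.2.2 (ε / D) hδ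
    refine ⟨fun P => φ (L P + c), TRL_test L c hφ, ?_, fun i => ?_⟩
    · calc eLpNorm (fun P => φ (L P + c) - f (L P + c)) 2 volume
          ≤ C * eLpNorm (fun P => φ P - f P) 2 volume :=
            (hn (fun P => φ P - f P) (hφ.memLp.sub hf.1)).2
        _ ≤ D * (ε / D) := by
            gcongr
            rw [hD, add_assoc]
            exact le_self_add
        _ = ε := ENNReal.mul_div_cancel hD0 hDt
    · have e1 : (fun P => pd e i (fun P => φ (L P + c)) P - ∑ j, M j i * F j (L P + c)) =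
          fun P => ∑ j, M j i * (pd e j φ (L P + c) - F j (L P + c)) := by
        funext P
        rw [TRL_pd L c hφ e M hM i P, ← Finset.sum_sub_distrib]
        refine Finset.sum_congr rfl fun j _ => ?_
        ring
      rw [e1]
      have hm : ∀ j, MemLp (fun P => pd e j φ P - F j P) 2 volume := fun j =>
        (hφ.memLp_pd j).sub (hf.2.1 j)
      have hm' : ∀ j ∈ Finset.univ, AEStronglyMeasurable
          (fun P => M j i * (pd e j φ (L P + c) - F j (L P + c))) volume := fun j _ =>
        (((hn _ (hm j)).1).const_mul (M j i)).1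
      have e2 : (fun P => ∑ j, M j i * (pd e j φ (L P + c) - F j (L P + c))) =
          ∑ j, fun P => M j i * (pd e j φ (L P + c) - F j (L P + c)) := by
        funext P
        rw [Finset.sum_apply]
      rw [e2]
      calc eLpNorm (∑ j, fun P => M j i * (pd e j φ (L P + c) - F j (L P + c))) 2 volume
          ≤ ∑ j, eLpNorm (fun P => M j i * (pd e j φ (L P + c) - F j (L P + c))) 2 volume :=
            eLpNorm_sum_le hm' (by norm_num)
        _ ≤ ∑ j, ‖M j i‖ₑ * (C * (ε / D)) := by
            refine Finset.sum_le_sum fun j _ => ?_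
            have e3 : (fun P => M j i * (pd e j φ (L P + c) - F j (L P + c))) =
                M j i • fun P => (pd e j φ (L P + c) - F j (L P + c)) := rfl
            rw [e3, eLpNorm_const_smul]
            gcongr
            refine ((hn _ (hm j)).2).trans ?_
            gcongr
            exact h2 j
        _ = (∑ j, ‖M j i‖ₑ) * C * (ε / D) := by
            rw [← Finset.sum_mul, mul_assoc]
        _ ≤ D * (ε / D) := by
            gcongr
            rw [hD]
            refine le_trans ?_ (le_self_add)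
            refine le_trans ?_ (le_add_self)
            exact mul_le_mul' (Finset.single_le_sum (f := fun i => ∑ j, ‖M j i‖ₑ)
              (fun _ _ => zero_le) (Finset.mem_univ i)) le_rfl
        _ = ε := ENNReal.mul_div_cancel hD0 hDt

end MGS
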