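import Pool.Agent.MGS.TB
import Pool.Agent.MGS.P_TRL
import Pool.Agent.MGS.P_MAZ

/-! # MGS-HAL: the positive part of an odd function in a half space (helper61) -/

set_option autoImplicit false

open MeasureTheory Filter Topology Metric Set
open scoped ENNReal NNReal ContDiff

noncomputable section

namespace MGS

/-- the linear part of the reflection -/
def HAL_L : X ≃L[ℝ] X :=
  (Complex.conjCLE.trans (ContinuousLinearEquiv.neg ℝ)).prodCongr (ContinuousLinearEquiv.refl ℝ ℝ)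

/-- the constant part of the reflection -/
def HAL_c (h : ℝ) : X := (-(h : ℂ), 0)

theorem HAL_rf (h : ℝ) (P : X) : rf h P = HAL_L P + HAL_c h := by
  unfold rf HAL_L HAL_c
  refine Prod.ext ?_ ?_
  · show -(starRingEnd ℂ) P.1 - (h : ℂ) = -(starRingEnd ℂ) P.1 + -(h : ℂ)
    ring
  · show P.2 = P.2 + 0
    ring

/-- the matrix of the reflection -/
def HAL_M (j i : Fin 3) : ℝ := if j = i then (if i = 0 then -1 else 1) else 0

theorem HAL_hM (i : Fin 3) : HAL_L (e3 i) = ∑ j, HAL_M j i • e3 j := by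
  rw [Finset.sum_eq_single i]
  · unfold HAL_M
    rw [if_pos rfl]
    fin_cases i
    · refine Prod.ext ?_ ?_
      · show -(starRingEnd ℂ) (1 : ℂ) = ((-1 : ℝ) • (1 : ℂ))
        simp
      · show (0 : ℝ) = (-1 : ℝ) • (0 : ℝ)
        simp
    · refine Prod.ext ?_ ?_
      · show -(starRingEnd ℂ) (Complex.I : ℂ) = ((1 : ℝ) • (Complex.I : ℂ))
        simp
      · show (0 : ℝ) = (1 : ℝ) • (0 : ℝ)
        simp
    · refine Prod.ext ?_ ?_
      · show -(starRingEnd ℂ) (0 : ℂ) = ((1 : ℝ) • (0 : ℂ))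
        simp
      · show (1 : ℝ) = (1 : ℝ) • (1 : ℝ)
        simp
  · intro j _ hj
    unfold HAL_M
    rw [if_neg hj, zero_smul]
  · intro hi
    exact absurd (Finset.mem_univ i) hi

theorem HAL_pd {G : Set X} {φ : X → ℝ} (hφ : Test G φ) (h : ℝ) (i : Fin 3) (P : X) :
    |pd e3 i (fun P => φ (HAL_L P + HAL_c h)) P| = |pd e3 i φ (HAL_L P + HAL_c h)| := by
  rw [TRL_pd HAL_L (HAL_c h) hφ e3 HAL_M HAL_hM i P, Finset.sum_eq_single i]
  · unfold HAL_M
    rw [if_pos rfl]
    split_ifs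
    · rw [neg_one_mul, abs_neg]
    · rw [one_mul]
  · intro j _ hj
    unfold HAL_M
    rw [if_neg hj, zero_mul]
  · intro hi
    exact absurd (Finset.mem_univ i) hi

/-- the projection onto the closed half space -/
def HAL_p (h : ℝ) (P : X) : X :=
  (((max P.1.re (-(h / 2)) : ℝ) : ℂ) + (P.1.im : ℂ) * Complex.I, P.2)

theorem HAL_p_re (h : ℝ) (P : X) : (HAL_p h P).1.re = max P.1.re (-(h / 2)) := by
  simp [HAL_p]

theorem HAL_p_im (h : ℝ) (P : X) : (HAL_p h P).1.im = P.1.im := by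
  simp [HAL_p]

theorem HAL_p_lip (h : ℝ) : LipschitzWith 1 (HAL_p h) := by
  refine LipschitzWith.mk_one fun P Q => ?_
  rw [Prod.dist_eq, Prod.dist_eq]
  refine max_le_max ?_ (le_of_eq rfl)
  rw [Complex.dist_eq_re_im, Complex.dist_eq_re_im, HAL_p_re, HAL_p_re, HAL_p_im, HAL_p_im]
  refine Real.sqrt_le_sqrt ?_
  have h1 : |max P.1.re (-(h / 2)) - max Q.1.re (-(h / 2))| ≤ |P.1.re - Q.1.re| :=
    abs_max_sub_max_le_abs _ _ _
  have h2 := sq_le_sq.2 h1
  linarith

theorem HAL_p_in {h : ℝ} {P : X} (hP : -(h / 2) ≤ P.1.re) : HAL_p h P = P := by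
  refine Prod.ext (Complex.ext ?_ ?_) rfl
  · rw [HAL_p_re, max_eq_left hP]
  · rw [HAL_p_im]

theorem HAL_p_out {h : ℝ} {P : X} (hP : P.1.re ≤ -(h / 2)) : rf h (HAL_p h P) = HAL_p h P := by
  refine Prod.ext (Complex.ext ?_ ?_) rfl
  · show (-(starRingEnd ℂ) (HAL_p h P).1 - (h : ℂ)).re = _
    rw [Complex.sub_re, Complex.neg_re, Complex.conj_re, Complex.ofReal_re, HAL_p_re,
      max_eq_right hP]
    ring
  · show (-(starRingEnd ℂ) (HAL_p h P).1 - (h : ℂ)).im = _
    rw [Complex.sub_im, Complex.neg_im, Complex.conj_im, Complex.ofReal_im]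
    ring

theorem HAL_int {w : X → ℝ} (hw : MemLp w 2 volume) :
    ∫ P, w P ^ 2 = (eLpNorm w 2 volume).toReal ^ 2 := by
  rw [← Lp.norm_toLp w hw]
  exact (MAZ_.normsq (hw.toLp w) w hw.coeFn_toLp).symm

theorem HAL_bd {m a b : X → ℝ} {P v : X} (ha : DifferentiableAt ℝ a P)
    (hb : DifferentiableAt ℝ b P)
    (h : ∀ᶠ Q in 𝓝 P, |m Q - m P| ≤ |a Q - a P| + |b Q - b P|) :
    |fderiv ℝ m P v| ≤ |fderiv ℝ a P v| + |fderiv ℝ b P v| := by
  by_cases hm : DifferentiableAt ℝ m P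
  · have t1 := (hm.hasFDerivAt.hasLineDerivAt v).tendsto_slope_zero
    have t2 := (ha.hasFDerivAt.hasLineDerivAt v).tendsto_slope_zero
    have t3 := (hb.hasFDerivAt.hasLineDerivAt v).tendsto_slope_zero
    refine le_of_tendsto_of_tendsto t1.abs (t2.abs.add t3.abs) ?_
    have hc : Tendsto (fun t : ℝ => P + t • v) (𝓝[≠] 0) (𝓝 P) := by
      have : Continuous (fun t : ℝ => P + t • v) := by fun_prop
      have h0 := this.tendsto 0
      rw [zero_smul, add_zero] at h0
      exact h0.mono_left nhdsWithin_le_nhds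
    filter_upwards [hc.eventually h] with t ht
    simp only [smul_eq_mul, abs_mul]
    have h0 : 0 ≤ |t⁻¹| := abs_nonneg _
    calc |t⁻¹| * |m (P + t • v) - m P| ≤ |t⁻¹| * (|a (P + t • v) - a P| + |b (P + t • v) - b P|) :=
          mul_le_mul_of_nonneg_left ht h0
      _ = _ := by ring
  · rw [fderiv_zero_of_not_differentiableAt hm]
    show |(0 : ℝ)| ≤ _
    rw [abs_zero]
    positivity

/-- the odd part -/
def HAL_o (h : ℝ) (u : X → ℝ) (P : X) : ℝ :=
  (1 / 2) * (u P + (-1) * u (HAL_L P + HAL_c h))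

theorem HAL_o_test {u : X → ℝ} (h : ℝ) (hu : Test univ u) : Test univ (HAL_o h u) := by
  have h1 : Test univ (fun P => u (HAL_L P + HAL_c h)) := by
    have := TRL_test HAL_L (HAL_c h) hu
    exact this.mono (subset_univ _)
  exact (hu.add (h1.smul (-1))).smul (1 / 2)

theorem HAL_o_pd {u : X → ℝ} (h : ℝ) (hu : Test univ u) (i : Fin 3) (P : X) :
    |pd e3 i (HAL_o h u) P| ≤ |pd e3 i u P| + |pd e3 i u (HAL_L P + HAL_c h)| := by
  have h1 : Test univ (fun P => u (HAL_L P + HAL_c h)) := by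
    have := TRL_test HAL_L (HAL_c h) hu
    exact this.mono (subset_univ _)
  have e1 : pd e3 i (HAL_o h u) P = (1 / 2) * (pd e3 i u P +
      (-1) * pd e3 i (fun P => u (HAL_L P + HAL_c h)) P) := by
    unfold HAL_o
    rw [pd_smul (hu.add (h1.smul (-1))), pd_add hu (h1.smul (-1)), pd_smul h1]
  rw [e1, ← HAL_pd hu h i P]
  set x := pd e3 i u P
  set y := pd e3 i (fun P => u (HAL_L P + HAL_c h)) P
  rw [abs_mul]
  have h2 : |x + -1 * y| ≤ |x| + |y| := by
    have := abs_add_le x (-1 * y)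
    rwa [abs_mul, abs_neg, abs_one, one_mul] at this
  rw [abs_of_pos (by norm_num : (0 : ℝ) < 1 / 2)]
  have := abs_nonneg x
  have := abs_nonneg y
  linarith

theorem HAL_o_fix {u : X → ℝ} {h : ℝ} {P : X} (hP : rf h P = P) : HAL_o h u P = 0 := by
  unfold HAL_o
  rw [← HAL_rf, hP]
  ring

/-- the positive part of the odd part in the half space -/
def HAL_x (h : ℝ) (u : X → ℝ) (P : X) : ℝ := max (HAL_o h u (HAL_p h P)) 0

theorem HAL_x_in {u : X → ℝ} {h : ℝ} {P : X} (hP : -(h / 2) ≤ P.1.re) :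
    HAL_x h u P = max (HAL_o h u P) 0 := by
  unfold HAL_x
  rw [HAL_p_in hP]

theorem HAL_x_out {u : X → ℝ} {h : ℝ} {P : X} (hP : P.1.re ≤ -(h / 2)) :
    HAL_x h u P = 0 := by
  unfold HAL_x
  rw [HAL_o_fix (HAL_p_out hP), max_self]

theorem HAL_x_loc (u : X → ℝ) (h : ℝ) (P : X) :
    ∀ᶠ Q in 𝓝 P, |HAL_x h u Q - HAL_x h u P| ≤ |HAL_o h u Q - HAL_o h u P| := by
  have hc : Continuous fun Q : X => Q.1.re := Complex.continuous_re.comp continuous_fst
  rcases lt_trichotomy P.1.re (-(h / 2)) with hP | hP | hP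
  · filter_upwards [hc.continuousAt.eventually_lt_const hP] with Q hQ
    rw [HAL_x_out hQ.le, HAL_x_out hP.le, sub_self, abs_zero]
    exact abs_nonneg _
  · refine Eventually.of_forall fun Q => ?_
    have h0 : HAL_o h u P = 0 := by
      have h1 := HAL_p_out (h := h) (P := P) hP.le
      rw [HAL_p_in hP.ge] at h1
      exact HAL_o_fix h1
    rw [HAL_x_out hP.le, h0, sub_zero, sub_zero]
    rcases le_total Q.1.re (-(h / 2)) with hQ | hQ
    · rw [HAL_x_out hQ, abs_zero]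
      exact abs_nonneg _
    · rw [HAL_x_in hQ]
      have := abs_max_sub_max_le_abs (HAL_o h u Q) 0 0
      rwa [max_self, sub_zero, sub_zero] at this
  · filter_upwards [hc.continuousAt.eventually_const_lt hP] with Q hQ
    rw [HAL_x_in hQ.le, HAL_x_in hP.le]
    exact abs_max_sub_max_le_abs _ _ _

theorem HAL_x_lip {u : X → ℝ} (h : ℝ) (hu : Test univ u) :
    ∃ K : ℝ≥0, LipschitzWith K (HAL_x h u) := by
  have ho := HAL_o_test h hu
  obtain ⟨K, hK⟩ := ho.smooth.lipschitzWith_of_hasCompactSupport ho.cpt (by simp)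
  exact ⟨K * 1, (hK.comp (HAL_p_lip h)).max_const 0⟩

/-- the competitor -/
def HAL_m (h : ℝ) (u φ : X → ℝ) (P : X) : ℝ := min (HAL_x h u P) (max (φ P) 0)

theorem HAL_m_pos {u φ : X → ℝ} {h : ℝ} {P : X} (hP : HAL_m h u φ P ≠ 0) :
    -(h / 2) < P.1.re ∧ φ P ≠ 0 := by
  constructor
  · by_contra hc
    apply hP
    unfold HAL_m
    rw [HAL_x_out (not_lt.1 hc)]
    exact min_eq_left (le_max_right _ _)
  · intro hc
    apply hP
    unfold HAL_m
    rw [hc, max_self]
    exact min_eq_right (le_max_right _ _)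

theorem HAL_m_ltest {u φ : X → ℝ} {h : ℝ} {G G' : Set X} (hu : Test univ u) (hφ : Test G' φ)
    (hG : ∀ P ∈ G', -(h / 2) ≤ P.1.re → P ∈ G) : LTest (G ∩ G') (HAL_m h u φ) := by
  have hs1 : Function.support (HAL_m h u φ) ⊆ Function.support φ := fun P hP =>
    (HAL_m_pos hP).2
  have hs2 : tsupport (HAL_m h u φ) ⊆ {P : X | -(h / 2) ≤ P.1.re} := by
    refine closure_minimal (fun P hP => (HAL_m_pos hP).1.le) ?_
    exact isClosed_le continuous_const (Complex.continuous_re.comp continuous_fst)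
  have hs3 : tsupport (HAL_m h u φ) ⊆ tsupport φ := closure_mono hs1
  refine ⟨?_, ?_, ?_⟩
  · obtain ⟨K, hK⟩ := HAL_x_lip h hu
    obtain ⟨K', hK'⟩ := hφ.smooth.lipschitzWith_of_hasCompactSupport hφ.cpt (by simp)
    exact ⟨max K K', hK.min (hK'.max_const 0)⟩
  · exact hφ.cpt.of_isClosed_subset (isClosed_tsupport _) hs3
  · intro P hP
    have h1 := hφ.sub (hs3 hP)
    exact ⟨hG P h1 (hs2 hP), h1⟩

theorem HAL_m_pd {u φ : X → ℝ} {h : ℝ} {G' : Set X} (hu : Test univ u) (hφ : Test G' φ)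
    (i : Fin 3) (P : X) : |pd e3 i (HAL_m h u φ) P| ≤
      |pd e3 i u P| + |pd e3 i u (HAL_L P + HAL_c h)| + |pd e3 i φ P| := by
  have h1 : |pd e3 i (HAL_m h u φ) P| ≤ |pd e3 i (HAL_o h u) P| + |pd e3 i φ P| := by
    refine HAL_bd ((HAL_o_test h hu).diff P) (hφ.diff P) ?_
    filter_upwards [HAL_x_loc u h P] with Q hQ
    unfold HAL_m
    have h2 := abs_min_sub_min_le_max (HAL_x h u Q) (max (φ Q) 0) (HAL_x h u P) (max (φ P) 0)
    have h3 : |max (φ Q) 0 - max (φ P) 0| ≤ |φ Q - φ P| := abs_max_sub_max_le_abs _ _ _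
    refine h2.trans (max_le ?_ ?_)
    · have := abs_nonneg (φ Q - φ P)
      linarith
    · have := abs_nonneg (HAL_o h u Q - HAL_o h u P)
      linarith
  have h2 := HAL_o_pd h hu i P
  linarith

theorem HAL_eta (s : ℝ) :
    ∫ t in (0 : ℝ)..s, (Set.indicator (Set.Ioi (0 : ℝ)) (fun _ => (1 : ℝ)) t) = max s 0 := by
  rcases le_total 0 s with hs | hs
  · rw [max_eq_left hs, intervalIntegral.integral_of_le hs,
      setIntegral_congr_fun (g := fun _ => (1 : ℝ)) measurableSet_Ioc (fun t ht => by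
        show Set.indicator (Set.Ioi (0 : ℝ)) (fun _ => (1 : ℝ)) t = 1
        rw [Set.indicator_of_mem]
        exact ht.1)]
    simp [hs]
  · rw [max_eq_right hs, intervalIntegral.integral_of_ge hs,
      setIntegral_congr_fun (g := fun _ => (0 : ℝ)) measurableSet_Ioc (fun t ht => by
        show Set.indicator (Set.Ioi (0 : ℝ)) (fun _ => (1 : ℝ)) t = 0
        rw [Set.indicator_of_notMem]
        exact not_lt.2 ht.2)]
    simp

theorem HAL_hp (h : ℝ) (g : X → ℝ) : hp h g =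
    Set.indicator {P : X | -(h / 2) < P.1.re} (fun P => max (g P) 0) := by
  funext P
  unfold hp
  by_cases h1 : -(h / 2) < P.1.re
  · rw [Set.indicator_of_mem (s := {P : X | -(h / 2) < P.1.re}) h1]
    by_cases h2 : 0 < g P
    · rw [Set.indicator_of_mem (s := {P : X | -(h / 2) < P.1.re ∧ 0 < g P}) ⟨h1, h2⟩,
        max_eq_left h2.le]
    · rw [Set.indicator_of_notMem (s := {P : X | -(h / 2) < P.1.re ∧ 0 < g P})
        (fun hc => h2 hc.2), max_eq_right (not_lt.1 h2)]
  · rw [Set.indicator_of_notMem (s := {P : X | -(h / 2) < P.1.re}) h1,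
      Set.indicator_of_notMem (s := {P : X | -(h / 2) < P.1.re ∧ 0 < g P}) (fun hc => h1 hc.1)]

theorem HAL_hp_memLp {h : ℝ} {g : X → ℝ} (hg : MemLp g 2 volume) : MemLp (hp h g) 2 volume := by
  rw [HAL_hp]
  refine MemLp.indicator ?_ hg.pos_part
  exact (isOpen_lt continuous_const (Complex.continuous_re.comp continuous_fst)).measurableSet

/-- pointwise estimate of the difference -/
theorem HAL_diff {u φ g f : X → ℝ} {h : ℝ} {P : X} (h1 : g (rf h P) = -g P) (h2 : 0 ≤ f P)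
    (h3 : -(h / 2) < P.1.re → g P ≤ f P) :
    |HAL_m h u φ P - hp h g P| ≤ |u P - g P| + |u (HAL_L P + HAL_c h) - g (HAL_L P + HAL_c h)| +
      |φ P - f P| := by
  have e1 : hp h g P = min (hp h g P) (max (f P) 0) := by
    rw [max_eq_left h2, min_eq_left]
    rw [HAL_hp]
    by_cases hP : -(h / 2) < P.1.re
    · rw [Set.indicator_of_mem (s := {P : X | -(h / 2) < P.1.re}) hP]
      exact max_le (h3 hP) h2
    · rw [Set.indicator_of_notMem (s := {P : X | -(h / 2) < P.1.re}) hP]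
      exact h2
  rw [e1]
  unfold HAL_m
  have k1 := abs_min_sub_min_le_max (HAL_x h u P) (max (φ P) 0) (hp h g P) (max (f P) 0)
  have k2 : |max (φ P) 0 - max (f P) 0| ≤ |φ P - f P| := abs_max_sub_max_le_abs _ _ _
  have k3 : |HAL_x h u P - hp h g P| ≤
      |u P - g P| + |u (HAL_L P + HAL_c h) - g (HAL_L P + HAL_c h)| := by
    have n1 := abs_nonneg (u P - g P)
    have n2 := abs_nonneg (u (HAL_L P + HAL_c h) - g (HAL_L P + HAL_c h))
    rw [HAL_hp]
    by_cases hP : -(h / 2) < P.1.re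
    · rw [Set.indicator_of_mem (s := {P : X | -(h / 2) < P.1.re}) hP, HAL_x_in hP.le]
      refine (abs_max_sub_max_le_abs _ _ _).trans ?_
      have e2 : HAL_o h u P - g P = (1 / 2) * (u P - g P) +
          (-(1 / 2)) * (u (HAL_L P + HAL_c h) - g (HAL_L P + HAL_c h)) := by
        unfold HAL_o
        rw [HAL_rf] at h1
        rw [h1]
        ring
      rw [e2]
      refine (abs_add_le _ _).trans ?_
      rw [abs_mul, abs_mul, abs_neg, abs_of_pos (by norm_num : (0 : ℝ) < 1 / 2)]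
      linarith
    · rw [Set.indicator_of_notMem (s := {P : X | -(h / 2) < P.1.re}) hP,
        HAL_x_out (not_lt.1 hP), sub_zero, abs_zero]
      linarith
  have n3 := abs_nonneg (φ P - f P)
  have n1 := abs_nonneg (u P - g P)
  have n2 := abs_nonneg (u (HAL_L P + HAL_c h) - g (HAL_L P + HAL_c h))
  refine k1.trans (max_le ?_ ?_)
  · linarith
  · linarith

/-- `L²` norm of a sum of three moduli -/
theorem HAL_three {w a b c : X → ℝ} (ha : MemLp a 2 volume) (hb : MemLp b 2 volume)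
    (hc : MemLp c 2 volume) (h : ∀ᵐ P, |w P| ≤ |a P| + |b P| + |c P|) :
    eLpNorm w 2 volume ≤ eLpNorm a 2 volume + eLpNorm b 2 volume + eLpNorm c 2 volume := by
  have h1 : eLpNorm w 2 volume ≤ eLpNorm (fun P => |a P| + |b P| + |c P|) 2 volume := by
    refine eLpNorm_mono_ae ?_
    filter_upwards [h] with P hP
    rw [Real.norm_eq_abs, Real.norm_eq_abs,
      abs_of_nonneg (by positivity : 0 ≤ |a P| + |b P| + |c P|)]
    exact hP
  refine h1.trans ?_
  have ha' : MemLp (fun P => |a P|) 2 volume := ha.abs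
  have hb' : MemLp (fun P => |b P|) 2 volume := hb.abs
  have hc' : MemLp (fun P => |c P|) 2 volume := hc.abs
  have e1 : (fun P => |a P| + |b P| + |c P|) =
      ((fun P => |a P|) + fun P => |b P|) + fun P => |c P| := rfl
  rw [e1]
  refine (eLpNorm_add_le (ha'.add hb').1 hc'.1 (by norm_num)).trans ?_
  refine add_le_add ((eLpNorm_add_le ha'.1 hb'.1 (by norm_num)).trans ?_) ?_
  · refine add_le_add ?_ ?_
    · exact (eLpNorm_norm a).le
    · exact (eLpNorm_norm b).le
  · exact (eLpNorm_norm c).le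

/-- HAL -/
theorem p_HAL (h_LIP : T_LIP) (h_MAZ : T_MAZ) (h_NUL : T_NUL) (h_BCH : T_BCH) : T_HAL := by
  intro G G' h g φ Γ Φ hh hG hG' hGG hg hodd hφ hφ0 hle
  obtain ⟨C, hC, hn⟩ := TRL_norm HAL_L (HAL_c h)
  have hpos : ∀ n : ℕ, ((n : ℝ≥0∞) + 1)⁻¹ ≠ 0 := fun n =>
    ENNReal.inv_ne_zero.2 (by finiteness)
  have hle1 : ∀ n : ℕ, ((n : ℝ≥0∞) + 1)⁻¹ ≤ 1 := fun n => by
    rw [ENNReal.inv_le_one]
    exact le_add_self
  have hz : Tendsto (fun n : ℕ => ((n : ℝ≥0∞) + 1)⁻¹) atTop (𝓝 0) := by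
    have := ENNReal.tendsto_inv_nat_nhds_zero
    have h3 := this.comp (tendsto_add_atTop_nat 1)
    refine h3.congr fun n => ?_
    simp
  choose u hu u1 u2 using fun n : ℕ => hg.2.2 _ (hpos n)
  choose p hp' p1 p2 using fun n : ℕ => hφ.2.2 _ (hpos n)
  set m : ℕ → X → ℝ := fun n => HAL_m h (u n) (p n) with hm
  have hl : ∀ n, LTest (G ∩ G') (m n) := fun n => HAL_m_ltest (hu n) (hp' n) hGG
  have hH : ∀ n, H1 e3 (G ∩ G') (m n) (fun i => pd e3 i (m n)) := fun n =>
    h_LIP X (Fin 3) e3 (G ∩ G') (m n) (hG.inter hG') (hl n)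
  have hgp : MemLp (hp h g) 2 volume := HAL_hp_memLp hg.1
  -- convergence
  have hconv : ∀ n, eLpNorm (fun P => m n P - hp h g P) 2 volume ≤
      (1 + C + 1) * ((n : ℝ≥0∞) + 1)⁻¹ := by
    intro n
    have hug : MemLp (fun P => u n P - g P) 2 volume := (hu n).memLp.sub hg.1
    have hpf : MemLp (fun P => p n P - φ P) 2 volume := (hp' n).memLp.sub hφ.1
    obtain ⟨k1, k2⟩ := hn (fun P => u n P - g P) hug
    refine (HAL_three hug k1 hpf ?_).trans ?_
    · filter_upwards [hodd, hφ0, hle] with P hP1 hP2 hP3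
      exact HAL_diff hP1 hP2 hP3
    · rw [add_mul, add_mul, one_mul]
      refine add_le_add (add_le_add (u1 n) (k2.trans ?_)) (p1 n)
      gcongr
      exact u1 n
  have hlim : Tendsto (fun n => eLpNorm (fun P => m n P - hp h g P) 2 volume) atTop (𝓝 0) := by
    refine tendsto_of_tendsto_of_tendsto_of_le_of_le tendsto_const_nhds ?_ (fun _ => zero_le) hconv
    have := ENNReal.Tendsto.const_mul hz (a := 1 + C + 1) (Or.inr (by finiteness))
    rwa [mul_zero] at this
  -- bounds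
  have hbd : ∀ i : Fin 3, ∃ A : ℝ≥0∞, A ≠ ⊤ ∧ ∀ n, eLpNorm (pd e3 i (m n)) 2 volume ≤ A := by
    intro i
    refine ⟨(1 + eLpNorm (Γ i) 2 volume) + C * (1 + eLpNorm (Γ i) 2 volume) +
      (1 + eLpNorm (Φ i) 2 volume), ?_, fun n => ?_⟩
    · have k1 := (hg.2.1 i).eLpNorm_ne_top
      have k2 := (hφ.2.1 i).eLpNorm_ne_top
      finiteness
    have b1 : eLpNorm (pd e3 i (u n)) 2 volume ≤ 1 + eLpNorm (Γ i) 2 volume := by
      have e1 : pd e3 i (u n) = (fun P => pd e3 i (u n) P - Γ i P) + Γ i := by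
        funext P
        simp
      rw [e1]
      refine (eLpNorm_add_le (((hu n).memLp_pd i).sub (hg.2.1 i)).1 (hg.2.1 i).1
        (by norm_num)).trans ?_
      exact add_le_add ((u2 n i).trans (hle1 n)) le_rfl
    have b2 : eLpNorm (pd e3 i (p n)) 2 volume ≤ 1 + eLpNorm (Φ i) 2 volume := by
      have e1 : pd e3 i (p n) = (fun P => pd e3 i (p n) P - Φ i P) + Φ i := by
        funext P
        simp
      rw [e1]
      refine (eLpNorm_add_le (((hp' n).memLp_pd i).sub (hφ.2.1 i)).1 (hφ.2.1 i).1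
        (by norm_num)).trans ?_
      exact add_le_add ((p2 n i).trans (hle1 n)) le_rfl
    obtain ⟨k1, k2⟩ := hn (pd e3 i (u n)) ((hu n).memLp_pd i)
    refine (HAL_three ((hu n).memLp_pd i) k1 ((hp' n).memLp_pd i)
      (Eventually.of_forall fun P => HAL_m_pd (hu n) (hp' n) i P)).trans ?_
    refine add_le_add (add_le_add b1 (k2.trans ?_)) b2
    gcongr
  choose A hA hAb using hbd
  have hK : ∀ n i, ∫ P, pd e3 i (m n) P ^ 2 ≤ ∑ i : Fin 3, (A i).toReal ^ 2 := by
    intro n i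
    rw [HAL_int ((hH n).2.1 i)]
    have k1 : (eLpNorm (pd e3 i (m n)) 2 volume).toReal ≤ (A i).toReal :=
      ENNReal.toReal_mono (hA i) (hAb i n)
    have k2 : (eLpNorm (pd e3 i (m n)) 2 volume).toReal ^ 2 ≤ (A i).toReal ^ 2 := by
      gcongr
    exact k2.trans (Finset.single_le_sum (f := fun i : Fin 3 => (A i).toReal ^ 2)
      (fun _ _ => by positivity) (Finset.mem_univ i))
  obtain ⟨F, hF, -⟩ := h_MAZ X (Fin 3) e3 (G ∩ G') (hp h g) m (fun n i => pd e3 i (m n))
    (∑ i : Fin 3, (A i).toReal ^ 2) (fun _ => ∅) (fun _ => 0) hgp hH hlim hK (fun k δ hδ => by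
      refine Eventually.of_forall fun n => ?_
      simp only [Finset.sum_empty, integral_zero]
      linarith)
  -- the gradient
  have hpl : H1 e3 univ (fun P => max (g P) 0)
      (fun i P => Set.indicator (Set.Ioi (0 : ℝ)) (fun _ => (1 : ℝ)) (g P) * Γ i P) := by
    have h1 := h_BCH X (Fin 3) e3 univ g Γ (Set.indicator (Set.Ioi (0 : ℝ)) (fun _ => (1 : ℝ)))
      1 isOpen_univ hg (measurable_const.indicator measurableSet_Ioi) (fun s => by
        by_cases hs : s ∈ Set.Ioi (0 : ℝ)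
        · rw [Set.indicator_of_mem hs]
          simp
        · rw [Set.indicator_of_notMem hs]
          simp)
    refine h1.congr (Eventually.of_forall fun P => ?_) fun i => ae_eq_refl _
    exact HAL_eta (g P)
  have hFu : H1 e3 univ (hp h g) F := hF.mono (subset_univ _)
  have hd := hFu.sub hpl
  have z1 : ∀ i, ∀ᵐ P, hp h g P ∈ ({0} : Set ℝ) → F i P = 0 :=
    h_NUL X (Fin 3) e3 univ _ _ {0} isOpen_univ hFu (by simp)
  have z2 : ∀ i, ∀ᵐ P, hp h g P - max (g P) 0 ∈ ({0} : Set ℝ) →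
      F i P - Set.indicator (Set.Ioi (0 : ℝ)) (fun _ => (1 : ℝ)) (g P) * Γ i P = 0 :=
    h_NUL X (Fin 3) e3 univ _ _ {0} isOpen_univ hd (by simp)
  have hfin : H1 e3 (G ∩ G') (hp h g) (hpF h g Γ) := by
    refine hF.congr (ae_eq_refl _) fun i => ?_
    filter_upwards [z1 i, z2 i] with P h1 h2
    unfold hpF
    by_cases hP : -(h / 2) < P.1.re
    · have e1 : hp h g P = max (g P) 0 := by
        rw [HAL_hp, Set.indicator_of_mem (s := {P : X | -(h / 2) < P.1.re}) hP]
      have h3 := h2 (by rw [e1, sub_self]; rfl)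
      have h4 : F i P = Set.indicator (Set.Ioi (0 : ℝ)) (fun _ => (1 : ℝ)) (g P) * Γ i P := by
        linarith
      rw [h4]
      by_cases hg0 : 0 < g P
      · rw [Set.indicator_of_mem (s := {P : X | -(h / 2) < P.1.re ∧ 0 < g P}) ⟨hP, hg0⟩,
          Set.indicator_of_mem (s := Set.Ioi (0 : ℝ)) hg0, one_mul]
      · rw [Set.indicator_of_notMem (s := {P : X | -(h / 2) < P.1.re ∧ 0 < g P})
          (fun hc => hg0 hc.2), Set.indicator_of_notMem (s := Set.Ioi (0 : ℝ)) hg0, zero_mul]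
    · have e1 : hp h g P = 0 := by
        rw [HAL_hp, Set.indicator_of_notMem (s := {P : X | -(h / 2) < P.1.re}) hP]
      rw [h1 (by rw [e1]; rfl),
        Set.indicator_of_notMem (s := {P : X | -(h / 2) < P.1.re ∧ 0 < g P}) (fun hc => hP hc.1)]
  exact ⟨hfin.mono inter_subset_left, hfin.mono inter_subset_right⟩

end MGS
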