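import Pool.Agent.MGS.TB

/-!
# MGS-INV: invariance of the ground state under rotations and the reflection
-/

set_option autoImplicit false

open MeasureTheory Filter Topology Metric Set
open scoped ENNReal NNReal ContDiff

noncomputable section

namespace MGS

namespace INV_

/-- a horizontal isometry of the plane, as a map of the space -/
def LL (A : ℂ ≃ₗᵢ[ℝ] ℂ) : X ≃L[ℝ] X :=
  A.toContinuousLinearEquiv.prodCongr (ContinuousLinearEquiv.refl ℝ ℝ)

lemma LL_apply (A : ℂ ≃ₗᵢ[ℝ] ℂ) (P : X) : LL A P = (A P.1, P.2) := rfl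

lemma mp (A : ℂ ≃ₗᵢ[ℝ] ℂ) : MeasurePreserving (LL A) volume volume :=
  (A.measurePreserving).prod (MeasurePreserving.id volume)

/-- the matrix of the isometry -/
def MA (A : ℂ ≃ₗᵢ[ℝ] ℂ) : Fin 3 → Fin 3 → ℝ :=
  ![![(A 1).re, (A Complex.I).re, 0], ![(A 1).im, (A Complex.I).im, 0], ![0, 0, 1]]

lemma LL_e3 (A : ℂ ≃ₗᵢ[ℝ] ℂ) (i : Fin 3) : LL A (e3 i) = ∑ j, MA A j i • e3 j := by
  rw [LL_apply, Fin.sum_univ_three]
  fin_cases i
  · apply Prod.ext
    · apply Complex.ext <;> simp [e3, MA]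
    · simp [e3, MA]
  · apply Prod.ext
    · apply Complex.ext <;> simp [e3, MA]
    · simp [e3, MA]
  · apply Prod.ext
    · apply Complex.ext <;> simp [e3, MA]
    · simp [e3, MA]

lemma general (h_UNQ : T_UNQ) (h_TRL : T_TRL) {B : ℝ} {G : Set X} {v : X → ℝ}
    {F : Fin 3 → X → ℝ} (hG : Star G) (hv : GS B G v F) (A : ℂ ≃ₗᵢ[ℝ] ℂ)
    (ho : ∀ s t : ℝ, ((A 1).re * s + (A 1).im * t) ^ 2 +
      ((A Complex.I).re * s + (A Complex.I).im * t) ^ 2 = s ^ 2 + t ^ 2) :
    ∀ᵐ P : X, v (A P.1, P.2) = v P ∧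
      F 0 P = (A 1).re * F 0 (A P.1, P.2) + (A 1).im * F 1 (A P.1, P.2) ∧
      F 1 P = (A Complex.I).re * F 0 (A P.1, P.2) + (A Complex.I).im * F 1 (A P.1, P.2) := by
  have h1 := h_TRL X (Fin 3) e3 G v F (LL A) 0 (MA A) (LL_e3 A) hv.h
  simp only [add_zero] at h1
  have hsub : (fun P => LL A P) ⁻¹' G ⊆ G := by
    intro P hP
    have hP' : ((A P.1, P.2) : X) ∈ G := hP
    exact hG.star _ hP' P.1 (by simp)
  have h2 := h1.mono hsub
  have hemb : MeasurableEmbedding (LL A) := (LL A).toHomeomorph.measurableEmbedding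
  have hnrm : ∫ P, v (LL A P) ^ 2 = 1 := by
    rw [← hv.nrm]
    exact (mp A).integral_comp hemb (fun P => v P ^ 2)
  have hER : ER B (fun P => v (LL A P)) (fun i P => ∑ j, MA A j i * F j (LL A P)) = ER B v F := by
    unfold ER
    rw [← (mp A).integral_comp hemb (fun P => ∑ i : Fin 3, F i P ^ 2 + VV B P * v P ^ 2)]
    congr 1
    funext P
    have e1 : VV B (LL A P) = VV B P := by
      unfold VV
      rw [LL_apply]
      simp
    rw [e1]
    congr 1
    have e2 := ho (F 0 (LL A P)) (F 1 (LL A P))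
    simp only [Fin.sum_univ_three]
    have m00 : MA A 0 0 = (A 1).re := rfl
    have m01 : MA A 0 1 = (A Complex.I).re := rfl
    have m02 : MA A 0 2 = 0 := rfl
    have m10 : MA A 1 0 = (A 1).im := rfl
    have m11 : MA A 1 1 = (A Complex.I).im := rfl
    have m12 : MA A 1 2 = 0 := rfl
    have m20 : MA A 2 0 = 0 := rfl
    have m21 : MA A 2 1 = 0 := rfl
    have m22 : MA A 2 2 = 1 := rfl
    rw [m00, m01, m02, m10, m11, m12, m20, m21, m22]
    simp only [zero_mul, one_mul, add_zero, zero_add]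
    rw [e2]
  obtain ⟨h3, h4⟩ := h_UNQ B G v (fun P => v (LL A P)) F
    (fun i P => ∑ j, MA A j i * F j (LL A P)) hG hv h2
    (Eventually.of_forall fun P => hv.nn _) hnrm (by rw [hER, hnrm, mul_one, hv.eq])
  filter_upwards [h3, h4 0, h4 1] with P p1 p2 p3
  refine ⟨p1.symm, ?_, ?_⟩
  · rw [p2]
    simp only [Fin.sum_univ_three]
    have m00 : MA A 0 0 = (A 1).re := rfl
    have m10 : MA A 1 0 = (A 1).im := rfl
    have m20 : MA A 2 0 = 0 := rfl
    rw [m00, m10, m20, zero_mul, add_zero]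
    rfl
  · rw [p3]
    simp only [Fin.sum_univ_three]
    have m01 : MA A 0 1 = (A Complex.I).re := rfl
    have m11 : MA A 1 1 = (A Complex.I).im := rfl
    have m21 : MA A 2 1 = 0 := rfl
    rw [m01, m11, m21, zero_mul, add_zero]
    rfl

end INV_

open INV_ in
theorem p_INV (h_UNQ : T_UNQ) (h_TRL : T_TRL) : T_INV := by
  intro B G v F hG hv
  constructor
  · intro w hw
    have hw1 : w.re * w.re + w.im * w.im = 1 := by
      have := Complex.normSq_apply w
      rw [Complex.normSq_eq_norm_sq, hw] at this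
      linarith
    set A : ℂ ≃ₗᵢ[ℝ] ℂ := rotation ⟨w, by simp [Submonoid.unitSphere, hw]⟩ with hA
    have hA1 : ∀ z, A z = w * z := fun z => rfl
    have h1 := general h_UNQ h_TRL hG hv A (by
      intro s t
      rw [hA1, hA1]
      simp only [Complex.mul_re, Complex.mul_im, Complex.one_re, Complex.one_im, Complex.I_re,
        Complex.I_im]
      have : w.im * w.im = 1 - w.re * w.re := by linarith
      ring_nf
      nlinarith)
    filter_upwards [h1] with P hP
    rw [hA1, hA1, hA1] at hP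
    simp only [Complex.mul_re, Complex.mul_im, Complex.I_re, Complex.I_im, mul_one, mul_zero,
      add_zero, zero_sub] at hP
    obtain ⟨p1, p2, p3⟩ := hP
    refine ⟨p1, ?_, ?_⟩
    · show F 0 (w * P.1, P.2) = _
      rw [p2, p3]
      linear_combination (-F 0 (w * P.1, P.2)) * hw1
    · show F 1 (w * P.1, P.2) = _
      rw [p2, p3]
      linear_combination (-F 1 (w * P.1, P.2)) * hw1
  · set A : ℂ ≃ₗᵢ[ℝ] ℂ := Complex.conjLIE.trans (LinearIsometryEquiv.neg ℝ) with hA
    have hA1 : ∀ z, A z = -(starRingEnd ℂ) z := fun z => rfl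
    have h1 := general h_UNQ h_TRL hG hv A (by
      intro s t
      rw [hA1, hA1]
      simp)
    filter_upwards [h1] with P hP
    rw [hA1, hA1, hA1] at hP
    simp only [map_one, Complex.neg_re, Complex.neg_im, Complex.one_re, Complex.one_im,
      Complex.conj_I, neg_neg, Complex.I_re, Complex.I_im, neg_zero, zero_mul, add_zero, one_mul,
      zero_add] at hP
    obtain ⟨p1, p2, p3⟩ := hP
    have e1 : rf 0 P = (-(starRingEnd ℂ) P.1, P.2) := by
      unfold rf
      simp
    rw [e1]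
    refine ⟨p1, ?_, ?_⟩
    · rw [p2]
      ring
    · exact p3.symm

end MGS
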