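import Pool.Agent.MGS.TB

/-!
# MGS: monotone at the Lebesgue points (helper16)
-/

set_option autoImplicit false

open MeasureTheory Filter Topology Metric Set
open scoped ENNReal NNReal ContDiff

noncomputable section

namespace MGS

namespace LEB_

/-- the integral over a closed ball -/
def J (v : X → ℝ) (P : X) (ε : ℝ) : ℝ := ∫ y in closedBall P ε, v y

lemma ro_eq (c : Circle) : (fun P : X => ro (c : ℂ) P) = Prod.map (rotation c) id := by
  funext P
  simp [ro, Prod.map, rotation_apply]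

lemma ro_mp (c : Circle) : MeasurePreserving (fun P : X => ro (c : ℂ) P) volume volume := by
  rw [ro_eq]
  exact (LinearIsometryEquiv.measurePreserving (rotation c)).prod (MeasurePreserving.id volume)

lemma ro_dist (w : ℂ) (hw : ‖w‖ = 1) (P Q : X) : dist (ro w P) (ro w Q) = dist P Q := by
  rw [Prod.dist_eq, Prod.dist_eq]
  congr 1
  show dist (w * P.1) (w * Q.1) = dist P.1 Q.1
  rw [dist_eq_norm, dist_eq_norm, ← mul_sub, norm_mul, hw, one_mul]

lemma J_ro (v : X → ℝ) (w : ℂ) (hw : ‖w‖ = 1) (hv : ∀ᵐ P, v (ro w P) = v P) (P : X) (ε : ℝ) :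
    J v (ro w P) ε = J v P ε := by
  have hmp : MeasurePreserving (fun P : X => ro w P) volume volume :=
    ro_mp ⟨w, mem_sphere_zero_iff_norm.2 hw⟩
  have hinj : Function.Injective (fun P : X => ro w P) := by
    intro A B hAB
    have h1 : dist (ro w A) (ro w B) = 0 := by
      have : ro w A = ro w B := hAB
      rw [this, dist_self]
    rw [ro_dist w hw] at h1
    exact dist_eq_zero.1 h1
  have hcont : Continuous (fun P : X => ro w P) := by
    unfold ro
    fun_prop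
  have hpre : (fun P : X => ro w P) ⁻¹' closedBall (ro w P) ε = closedBall P ε := by
    ext Q
    simp only [mem_preimage, mem_closedBall, ro_dist w hw]
  have h1 := hmp.setIntegral_preimage_emb (hcont.measurableEmbedding hinj) v
    (closedBall (ro w P) ε)
  rw [hpre] at h1
  unfold J
  rw [← h1]
  exact integral_congr_ae (ae_restrict_of_ae hv)

lemma sh_eq (h : ℝ) (P : X) : sh h P = P + ((h : ℂ), (0 : ℝ)) := by
  unfold sh
  ext <;> simp

lemma J_sh (v : X → ℝ) (hv : MemLp v 2 volume) (h : ℝ)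
    (hm : ∀ᵐ P : X, 0 < P.1.re → v (sh h P) ≤ v P) (P : X) (ε : ℝ) (hP : ε < P.1.re) :
    J v (sh h P) ε ≤ J v P ε := by
  have hfun : (fun P : X => sh h P) = fun P => P + ((h : ℂ), (0 : ℝ)) := funext (sh_eq h)
  have hmp : MeasurePreserving (fun P : X => sh h P) volume volume := by
    rw [hfun]
    exact measurePreserving_add_right volume _
  have hemb : MeasurableEmbedding (fun P : X => sh h P) := by
    rw [hfun]
    exact measurableEmbedding_addRight _
  have hpre : (fun P : X => sh h P) ⁻¹' closedBall (sh h P) ε = closedBall P ε := by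
    ext Q
    simp only [mem_preimage, mem_closedBall, sh_eq, dist_add_right]
  have h1 := hmp.setIntegral_preimage_emb hemb v (closedBall (sh h P) ε)
  rw [hpre] at h1
  unfold J
  rw [← h1]
  have hli : LocallyIntegrable v volume := hv.locallyIntegrable (by norm_num)
  have hi : ∀ Q : X, IntegrableOn v (closedBall Q ε) volume := fun Q =>
    hli.integrableOn_isCompact (isCompact_closedBall Q ε)
  have hi2 : IntegrableOn (fun x => v (sh h x)) (closedBall P ε) volume := by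
    have h2 := (hmp.integrableOn_comp_preimage hemb (f := v) (s := closedBall (sh h P) ε)).2
      (hi (sh h P))
    rw [hpre] at h2
    exact h2
  refine setIntegral_mono_ae_restrict hi2 (hi P) ?_
  rw [EventuallyLE, ae_restrict_iff' measurableSet_closedBall]
  filter_upwards [hm] with Q hQ hQ2
  refine hQ ?_
  have h3 : dist Q.1 P.1 ≤ ε := by
    have h4 : dist Q P ≤ ε := hQ2
    rw [Prod.dist_eq] at h4
    exact (le_max_left _ _).trans h4
  have h5 : |(Q.1 - P.1).re| ≤ ε := (Complex.abs_re_le_norm _).trans (by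
    rw [← dist_eq_norm]; exact h3)
  rw [Complex.sub_re] at h5
  have h6 := (abs_le.1 h5).1
  linarith

lemma J_norm (v : X → ℝ) (hr : ∀ w : ℂ, ‖w‖ = 1 → ∀ᵐ P, v (ro w P) = v P) (P : X)
    (hP : P.1 ≠ 0) (ε : ℝ) : J v P ε = J v (((‖P.1‖ : ℝ) : ℂ), P.2) ε := by
  have hn : ((‖P.1‖ : ℝ) : ℂ) ≠ 0 := by
    exact_mod_cast (norm_pos_iff.2 hP).ne'
  have hw : ‖P.1 / ((‖P.1‖ : ℝ) : ℂ)‖ = 1 := by
    rw [norm_div, Complex.norm_real, norm_norm]
    exact div_self (norm_pos_iff.2 hP).ne'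
  have h1 := J_ro v _ hw (hr _ hw) (((‖P.1‖ : ℝ) : ℂ), P.2) ε
  rw [← h1]
  congr 1
  unfold ro
  ext1
  · show P.1 = P.1 / ((‖P.1‖ : ℝ) : ℂ) * ((‖P.1‖ : ℝ) : ℂ)
    rw [div_mul_cancel₀ _ hn]
  · rfl

lemma avg_eq (v : X → ℝ) (P : X) (ε : ℝ) :
    (⨍ y in closedBall P ε, v y) = (volume.real (closedBall (0 : X) ε))⁻¹ * J v P ε := by
  rw [setAverage_eq, smul_eq_mul]
  unfold J Measure.real
  rw [Measure.addHaar_closedBall_center]

end LEB_

open LEB_ in
/-- LEB -/
theorem p_LEB : T_LEB := by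
  intro v hv hr hm
  have hli : LocallyIntegrable v volume := hv.locallyIntegrable (by norm_num)
  have hae := IsUnifLocDoublingMeasure.ae_tendsto_average (volume : Measure X) hli 1
  have hδ : Tendsto (fun n : ℕ => 1 / ((n : ℝ) + 1)) atTop (𝓝[>] 0) := by
    rw [tendsto_nhdsWithin_iff]
    exact ⟨tendsto_one_div_add_atTop_nhds_zero_nat,
      Eventually.of_forall fun n => Set.mem_Ioi.2 (by positivity)⟩
  have h0 : ∀ᵐ P : X, P.1 ≠ 0 := by
    have h1 : ∀ᵐ x : ℂ, x ≠ 0 := compl_mem_ae_iff.2 (measure_singleton 0)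
    exact Measure.quasiMeasurePreserving_fst.ae h1
  have hS : ∀ᵐ P : X, P.1 ≠ 0 ∧
      Tendsto (fun n : ℕ => ⨍ y in closedBall P (1 / ((n : ℝ) + 1)), v y) atTop (𝓝 (v P)) := by
    filter_upwards [hae, h0] with P hP hP0
    refine ⟨hP0, hP (fun _ => P) _ hδ (Eventually.of_forall fun n => ?_)⟩
    rw [mem_closedBall, dist_self]
    positivity
  refine ⟨(toMeasurable volume {P : X | ¬ (P.1 ≠ 0 ∧
      Tendsto (fun n : ℕ => ⨍ y in closedBall P (1 / ((n : ℝ) + 1)), v y) atTop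
        (𝓝 (v P)))})ᶜ, (measurableSet_toMeasurable _ _).compl, ?_, ?_⟩
  · rw [compl_compl, measure_toMeasurable]
    exact ae_iff.1 hS
  · intro P hP P' hP' hz hlt
    have key : ∀ Q : X, Q ∈ (toMeasurable volume {P : X | ¬ (P.1 ≠ 0 ∧
        Tendsto (fun n : ℕ => ⨍ y in closedBall P (1 / ((n : ℝ) + 1)), v y) atTop
        (𝓝 (v P)))})ᶜ → Q.1 ≠ 0 ∧
        Tendsto (fun n : ℕ => ⨍ y in closedBall Q (1 / ((n : ℝ) + 1)), v y) atTop (𝓝 (v Q)) := by
      intro Q hQ
      by_contra hc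
      exact hQ (subset_toMeasurable _ _ hc)
    obtain ⟨hP0, hPt⟩ := key P hP
    obtain ⟨hP0', hPt'⟩ := key P' hP'
    refine le_of_tendsto_of_tendsto hPt' hPt ?_
    have hpos : 0 < ‖P.1‖ := norm_pos_iff.2 hP0
    have hev : ∀ᶠ n : ℕ in atTop, 1 / ((n : ℝ) + 1) < ‖P.1‖ :=
      (tendsto_one_div_add_atTop_nhds_zero_nat (𝕜 := ℝ)).eventually (gt_mem_nhds hpos)
    filter_upwards [hev] with n hn
    rw [avg_eq, avg_eq, J_norm v hr P hP0, J_norm v hr P' hP0']
    refine mul_le_mul_of_nonneg_left ?_ (by positivity)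
    have h2 := J_sh v hv (‖P'.1‖ - ‖P.1‖) (hm _ (sub_pos.2 hlt))
      (((‖P.1‖ : ℝ) : ℂ), P.2) (1 / ((n : ℝ) + 1)) (by simpa using hn)
    have h3 : sh (‖P'.1‖ - ‖P.1‖) (((‖P.1‖ : ℝ) : ℂ), P.2) = (((‖P'.1‖ : ℝ) : ℂ), P'.2) := by
      unfold sh
      ext1
      · show ((‖P.1‖ : ℝ) : ℂ) + ((‖P'.1‖ - ‖P.1‖ : ℝ) : ℂ) = ((‖P'.1‖ : ℝ) : ℂ)
        push_cast
        ring
      · exact hz
    rw [h3] at h2
    exact h2

end MGS
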