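import Pool.Agent.MGS.TB

/-!
# MGS: LGL, from local to global (helper68)
-/

set_option autoImplicit false

open MeasureTheory Filter Topology Metric Set
open scoped ENNReal NNReal ContDiff

noncomputable section

namespace MGS

namespace LGL_

/-- the points around which a property holds almost everywhere -/
def U (p : X → Prop) : Set X := {P | ∃ r : ℝ, 0 < r ∧ ∀ᵐ Q, Q ∈ ball P r → p Q}

theorem U_open (p : X → Prop) : IsOpen (U p) := by
  rw [Metric.isOpen_iff]
  rintro P ⟨r, hr, h⟩
  refine ⟨r / 2, by positivity, ?_⟩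
  intro P' hP'
  refine ⟨r / 2, by positivity, ?_⟩
  filter_upwards [h] with Q hQ hQ'
  apply hQ
  rw [mem_ball] at hP' hQ' ⊢
  have := dist_triangle Q P' P
  linarith

theorem glob (p : X → Prop) (G : Set X) (h : G ⊆ U p) : ∀ᵐ P, P ∈ G → p P := by
  rw [ae_iff]
  apply measure_null_of_locally_null
  intro P hP
  have hP' : ¬(P ∈ G → p P) := hP
  rw [Classical.not_imp] at hP'
  obtain ⟨r, hr, hQ⟩ := h hP'.1
  refine ⟨ball P r ∩ {a | ¬(a ∈ G → p a)}, ?_, ?_⟩
  · rw [inter_comm]
    exact inter_mem_nhdsWithin _ (ball_mem_nhds P hr)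
  · rw [ae_iff] at hQ
    refine measure_mono_null ?_ hQ
    rintro Q ⟨h1, h2⟩ h3
    exact h2 fun _ => h3 h1

end LGL_

open LGL_ in
theorem p_LGL : T_LGL := by
  intro g G _ hc h
  rw [isPreconnected_iff_subset_of_disjoint] at hc
  have h1 : G ⊆ U (fun Q => g Q = 0) ∪ U (fun Q => 0 < g Q) := by
    intro P hP
    obtain ⟨r, hr, h2 | h2⟩ := h P hP
    · exact Or.inl ⟨r, hr, h2⟩
    · exact Or.inr ⟨r, hr, h2⟩
  have h2 : G ∩ (U (fun Q => g Q = 0) ∩ U (fun Q => 0 < g Q)) = ∅ := by
    rw [eq_empty_iff_forall_notMem]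
    rintro P ⟨_, ⟨r, hr, h3⟩, r', hr', h4⟩
    have h5 : volume (ball P (min r r')) = 0 := by
      have h6 : ∀ᵐ Q, ¬ Q ∈ ball P (min r r') := by
        filter_upwards [h3, h4] with Q h7 h8 h9
        have h10 := h7 (ball_subset_ball (min_le_left _ _) h9)
        have h11 := h8 (ball_subset_ball (min_le_right _ _) h9)
        rw [h10] at h11
        exact lt_irrefl _ h11
      rw [ae_iff] at h6
      refine measure_mono_null ?_ h6
      intro Q hQ hc
      exact hc hQ
    have h6 := measure_ball_pos (volume : Measure X) P (lt_min hr hr')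
    rw [h5] at h6
    exact lt_irrefl _ h6
  rcases hc _ _ (U_open _) (U_open _) h1 h2 with h3 | h3
  · exact Or.inl (glob _ G h3)
  · exact Or.inr (glob _ G h3)

end MGS
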