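import Pool.Agent.MGS.TA

/-!
# MGS: proof of T_LIP (Lipschitz functions with compact support are in `H¹₀`) (helper29)
-/

set_option autoImplicit false

open MeasureTheory Filter Topology Metric Set
open scoped ENNReal NNReal ContDiff Convolution Pointwise

noncomputable section

namespace MGS
namespace LIP_

/-- dominated convergence in `L²` -/
theorem dom {E : Type} [MeasureSpace E] (u : ℕ → E → ℝ) (b : E → ℝ)
    (hu : ∀ n, AEStronglyMeasurable (u n) volume) (hb : MemLp b 2 volume)
    (h : ∀ n P, |u n P| ≤ |b P|) (hl : ∀ᵐ P, Tendsto (fun n => u n P) atTop (𝓝 0)) :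
    Tendsto (fun n => eLpNorm (u n) 2 volume) atTop (𝓝 0) := by
  have h2 : (2 : ℝ≥0∞) ≠ 0 := by norm_num
  have h2t : (2 : ℝ≥0∞) ≠ ⊤ := by norm_num
  have e : ∀ n, eLpNorm (u n) 2 volume =
      (∫⁻ x, ‖u n x‖ₑ ^ (2 : ℝ≥0∞).toReal) ^ (1 / (2 : ℝ≥0∞).toReal) := fun n =>
    eLpNorm_eq_lintegral_rpow_enorm_toReal h2 h2t
  have hpos : 0 < (2 : ℝ≥0∞).toReal := by norm_num
  have t : Tendsto (fun n => ∫⁻ x, ‖u n x‖ₑ ^ (2 : ℝ≥0∞).toReal) atTop
      (𝓝 (∫⁻ _ : E, (0 : ℝ≥0∞))) := by
    refine tendsto_lintegral_of_dominated_convergence'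
      (fun x => ‖b x‖ₑ ^ (2 : ℝ≥0∞).toReal) (fun n => ((hu n).enorm.pow_const _)) ?_ ?_ ?_
    · intro n
      refine Eventually.of_forall fun P => ?_
      refine ENNReal.rpow_le_rpow ?_ hpos.le
      rw [enorm_le_iff_norm_le]
      exact h n P
    · exact (lintegral_rpow_enorm_lt_top_of_eLpNorm_lt_top h2 h2t hb.2).ne
    · filter_upwards [hl] with P hP
      have h3 : Tendsto (fun n => ‖u n P‖ₑ) atTop (𝓝 ‖(0 : ℝ)‖ₑ) :=
        (continuous_enorm.tendsto (0 : ℝ)).comp hP
      have h4 := (ENNReal.continuous_rpow_const (y := (2 : ℝ≥0∞).toReal)).tendsto ‖(0 : ℝ)‖ₑ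
      have h5 := h4.comp h3
      rw [enorm_zero, ENNReal.zero_rpow_of_pos hpos] at h5
      exact h5
  rw [lintegral_zero] at t
  have t2 := ((ENNReal.continuous_rpow_const (y := 1 / (2 : ℝ≥0∞).toReal)).tendsto 0).comp t
  rw [ENNReal.zero_rpow_of_pos (by norm_num)] at t2
  exact t2.congr fun n => (e n).symm

section

variable {E : Type} [NormedAddCommGroup E] [NormedSpace ℝ E] [FiniteDimensional ℝ E]
  [MeasureSpace E] [BorelSpace E] [(volume : Measure E).IsAddHaarMeasure]

open ContinuousLinearMap (lsmul)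

/-- the mollification is bounded by the bound of the function -/
theorem conv_le (η : ContDiffBump (0 : E)) (ψ : E → ℝ) (C : ℝ)
    (hψ : ∀ P, |ψ P| ≤ C) (P : E) :
    |(η.normed volume ⋆[lsmul ℝ ℝ, volume] ψ) P| ≤ C := by
  rw [convolution]
  have h1 : ‖∫ t, (lsmul ℝ ℝ) (η.normed volume t) (ψ (P - t)) ∂(volume : Measure E)‖ ≤
      ∫ t, C * η.normed volume t := by
    refine norm_integral_le_of_norm_le (η.integrable_normed.const_mul C)
      (Eventually.of_forall fun t => ?_)
    have h0 : 0 ≤ η.normed volume t := η.nonneg_normed t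
    show ‖η.normed volume t * ψ (P - t)‖ ≤ C * η.normed volume t
    rw [norm_mul, Real.norm_eq_abs, Real.norm_eq_abs, abs_of_nonneg h0, mul_comm]
    exact mul_le_mul_of_nonneg_right (hψ _) h0
  rw [integral_const_mul, η.integral_normed, mul_one] at h1
  exact h1

/-- support of a mollification -/
theorem conv_supp (η : ContDiffBump (0 : E)) (ψ : E → ℝ) (S : Set E) (hψ : ∀ P, P ∉ S → ψ P = 0)
    (δ : ℝ) (hδ : η.rOut ≤ δ) (P : E)
    (hP : P ∉ cthickening δ S) : (η.normed volume ⋆[lsmul ℝ ℝ, volume] ψ) P = 0 := by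
  rw [convolution]
  refine integral_eq_zero_of_ae (Eventually.of_forall fun t => ?_)
  show η.normed volume t * ψ (P - t) = 0
  by_cases ht : t ∈ Function.support (η.normed volume)
  · rw [η.support_normed_eq] at ht
    have h1 : P - t ∉ S := by
      intro hS
      refine hP (mem_cthickening_of_dist_le P (P - t) δ S hS ?_)
      rw [dist_eq_norm, sub_sub_cancel]
      rw [mem_ball_zero_iff] at ht
      linarith
    rw [hψ _ h1, mul_zero]
  · rw [Function.notMem_support.1 ht, zero_mul]

/-- derivative of the mollification of a Lipschitz function -/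
theorem conv_fderiv (η : ContDiffBump (0 : E)) (φ : E → ℝ) (K : ℝ≥0) (hφ : LipschitzWith K φ)
    (v P : E) :
    HasDerivAt (fun s : ℝ => (η.normed volume ⋆[lsmul ℝ ℝ, volume] φ) (P + s • v))
      ((η.normed volume ⋆[lsmul ℝ ℝ, volume] (fun Q => fderiv ℝ φ Q v)) P) 0 := by
  have hc : Continuous φ := hφ.continuous
  have hη : Continuous (η.normed (volume : Measure E)) := η.continuous_normed
  have hs : HasCompactSupport (η.normed (volume : Measure E)) := η.hasCompactSupport_normed
  have hmv : Measurable (fun Q => fderiv ℝ φ Q v) := measurable_fderiv_apply_const ℝ φ v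
  have key := hasDerivAt_integral_of_dominated_loc_of_lip (𝕜 := ℝ) (μ := (volume : Measure E))
    (F := fun (s : ℝ) t => η.normed volume t * φ (P + s • v - t))
    (F' := fun t => η.normed volume t * fderiv ℝ φ (P - t) v)
    (x₀ := (0 : ℝ)) (s := Set.univ) (bound := fun t => (K * ‖v‖) * η.normed volume t)
    Filter.univ_mem ?_ ?_ ?_ ?_ ?_ ?_
  · exact key.2
  · refine Eventually.of_forall fun s => ?_
    exact (hη.mul (hc.comp (continuous_const.sub continuous_id))).aestronglyMeasurable
  · refine Continuous.integrable_of_hasCompactSupport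
      (hη.mul (hc.comp (continuous_const.sub continuous_id))) ?_
    exact hs.mul_right
  · exact (hη.measurable.mul (hmv.comp (measurable_const.sub measurable_id))).aestronglyMeasurable
  · refine Eventually.of_forall fun t => ?_
    refine LipschitzWith.lipschitzOnWith ?_
    refine LipschitzWith.of_dist_le_mul fun s s' => ?_
    have h0 : 0 ≤ η.normed volume t := η.nonneg_normed t
    rw [Real.dist_eq, ← mul_sub, abs_mul, abs_of_nonneg h0]
    have h1 : |φ (P + s • v - t) - φ (P + s' • v - t)| ≤ K * (|s - s'| * ‖v‖) := by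
      have := hφ.dist_le_mul (P + s • v - t) (P + s' • v - t)
      rw [Real.dist_eq, dist_eq_norm] at this
      have e1 : P + s • v - t - (P + s' • v - t) = (s - s') • v := by
        rw [sub_smul]
        abel
      rw [e1, norm_smul, Real.norm_eq_abs] at this
      exact this
    have h2 : ((Real.nnabs (K * ‖v‖ * η.normed volume t) : ℝ≥0) : ℝ) =
        K * ‖v‖ * η.normed volume t := by
      rw [Real.coe_nnabs, abs_of_nonneg]
      positivity
    rw [h2, Real.dist_eq]
    calc η.normed volume t * |φ (P + s • v - t) - φ (P + s' • v - t)|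
        ≤ η.normed volume t * (K * (|s - s'| * ‖v‖)) := mul_le_mul_of_nonneg_left h1 h0
      _ = K * ‖v‖ * η.normed volume t * |s - s'| := by ring
  · exact η.integrable_normed.const_mul _
  · have h1 : ∀ᵐ Q ∂(volume : Measure E), DifferentiableAt ℝ φ Q := hφ.ae_differentiableAt
    have h2 : ∀ᵐ t ∂(volume : Measure E), DifferentiableAt ℝ φ (P - t) :=
      (quasiMeasurePreserving_sub_left (volume : Measure E) P).ae h1
    filter_upwards [h2] with t ht
    have h3 : HasDerivAt (fun s : ℝ => P + s • v - t) v 0 := by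
      have h4 : HasDerivAt (fun s : ℝ => s • v) ((1 : ℝ) • v) 0 := (hasDerivAt_id (0 : ℝ)).smul_const v
      rw [one_smul] at h4
      exact (h4.const_add P).sub_const t
    have h5 : HasFDerivAt φ (fderiv ℝ φ (P - t)) (P + (0 : ℝ) • v - t) := by
      rw [zero_smul, add_zero]
      exact ht.hasFDerivAt
    have h6 : HasDerivAt (fun s : ℝ => φ (P + s • v - t)) (fderiv ℝ φ (P - t) v) 0 :=
      h5.comp_hasDerivAt (0 : ℝ) h3
    exact h6.const_mul _

theorem conv_pd {ι : Type} (e : ι → E) (i : ι) (η : ContDiffBump (0 : E)) (φ : E → ℝ) (K : ℝ≥0)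
    (hφ : LipschitzWith K φ)
    (hd : Differentiable ℝ (η.normed volume ⋆[lsmul ℝ ℝ, volume] φ)) (P : E) :
    pd e i (η.normed volume ⋆[lsmul ℝ ℝ, volume] φ) P =
      (η.normed volume ⋆[lsmul ℝ ℝ, volume] (pd e i φ)) P := by
  have h1 := conv_fderiv η φ K hφ (e i) P
  have h3 : HasDerivAt (fun s : ℝ => P + s • e i) (e i) 0 := by
    have h4 : HasDerivAt (fun s : ℝ => s • e i) ((1 : ℝ) • e i) 0 :=
      (hasDerivAt_id (0 : ℝ)).smul_const (e i)
    rw [one_smul] at h4
    exact h4.const_add P
  have h5 : HasFDerivAt (η.normed volume ⋆[lsmul ℝ ℝ, volume] φ)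
      (fderiv ℝ (η.normed volume ⋆[lsmul ℝ ℝ, volume] φ) P) (P + (0 : ℝ) • e i) := by
    rw [zero_smul, add_zero]
    exact (hd P).hasFDerivAt
  have h6 := h5.comp_hasDerivAt (0 : ℝ) h3
  exact h6.unique h1

end

end LIP_

open LIP_ ContinuousLinearMap in
theorem p_LIP : T_LIP := by
  intro E _ _ _ _ _ _ ι _ e G φ hG hφ
  obtain ⟨⟨K, hK⟩, hcs, hsub⟩ := hφ
  have hc : Continuous φ := hK.continuous
  set S : Set E := tsupport φ with hS
  have hSc : IsCompact S := hcs
  obtain ⟨δ, hδ, hδG⟩ := hSc.exists_cthickening_subset_open hG hsub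
  set T : Set E := cthickening δ S with hT
  have hTc : IsCompact T := hSc.cthickening
  -- the bumps
  have hr : ∀ n : ℕ, 0 < δ / (n + 1) := fun n => by positivity
  let η : ℕ → ContDiffBump (0 : E) := fun n =>
    ⟨δ / (n + 1) / 2, δ / (n + 1), by have := hr n; positivity, by have := hr n; linarith⟩
  have hη1 : ∀ n, (η n).rOut = δ / (n + 1) := fun n => rfl
  have hη2 : ∀ n, (η n).rOut ≤ 2 * (η n).rIn := fun n => by
    show δ / (n + 1) ≤ 2 * (δ / (n + 1) / 2)
    linarith
  have hη3 : ∀ n, (η n).rOut ≤ δ := fun n => by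
    rw [hη1]
    refine div_le_self hδ.le ?_
    have : (0 : ℝ) ≤ n := Nat.cast_nonneg n
    linarith
  have hη0 : Tendsto (fun n => (η n).rOut) atTop (𝓝 0) := by
    have h1 := tendsto_one_div_add_atTop_nhds_zero_nat (𝕜 := ℝ)
    have h2 := h1.const_mul δ
    rw [mul_zero] at h2
    refine h2.congr fun n => ?_
    rw [hη1]
    ring
  let f : ℕ → E → ℝ := fun n => (η n).normed volume ⋆[lsmul ℝ ℝ, volume] φ
  have hfs : ∀ n, ContDiff ℝ ∞ (f n) := fun n =>
    (η n).hasCompactSupport_normed.contDiff_convolution_left _ (η n).contDiff_normed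
      hc.locallyIntegrable
  have hφ0 : ∀ P, P ∉ S → φ P = 0 := fun P hP => image_eq_zero_of_notMem_tsupport hP
  have hf0 : ∀ n P, P ∉ T → f n P = 0 := fun n P hP =>
    conv_supp (η n) φ S hφ0 δ (hη3 n) P hP
  have hft : ∀ n, tsupport (f n) ⊆ T := fun n =>
    closure_minimal (fun P hP => by
      by_contra h
      exact hP (hf0 n P h)) isClosed_cthickening
  have hfT : ∀ n, Test G (f n) := fun n =>
    ⟨hfs n, hTc.of_isClosed_subset (isClosed_tsupport _) (hft n), (hft n).trans hδG⟩
  -- derivatives
  have hpd : ∀ n i P, pd e i (f n) P =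
      ((η n).normed volume ⋆[lsmul ℝ ℝ, volume] (pd e i φ)) P := fun n i P =>
    conv_pd e i (η n) φ K hK ((hfs n).differentiable (by simp)) P
  have hpdm : ∀ i, Measurable (pd e i φ) := fun i => measurable_fderiv_apply_const ℝ φ (e i)
  have hpdb : ∀ i P, |pd e i φ P| ≤ K * ‖e i‖ := fun i P => by
    have h1 : ‖fderiv ℝ φ P (e i)‖ ≤ ‖fderiv ℝ φ P‖ * ‖e i‖ := ContinuousLinearMap.le_opNorm _ _
    refine h1.trans (mul_le_mul_of_nonneg_right ?_ (norm_nonneg _))
    exact norm_fderiv_le_of_lipschitz ℝ hK
  have hpd0 : ∀ i P, P ∉ S → pd e i φ P = 0 := fun i P hP => by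
    have h1 : fderiv ℝ φ P = 0 := by
      have h2 : P ∉ tsupport (fderiv ℝ φ) := fun h => hP (tsupport_fderiv_subset ℝ h)
      exact image_eq_zero_of_notMem_tsupport h2
    show fderiv ℝ φ P (e i) = 0
    rw [h1]
    rfl
  have hST : S ⊆ T := self_subset_cthickening S
  have hTm : MeasurableSet T := isClosed_cthickening.measurableSet
  have hind : ∀ C : ℝ, MemLp (T.indicator (fun _ : E => C)) 2 volume := fun C =>
    memLp_indicator_const 2 hTm C (Or.inr hTc.measure_lt_top.ne)
  have hm1 : MemLp φ 2 volume := hc.memLp_of_hasCompactSupport hcs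
  have hm2 : ∀ i, MemLp (pd e i φ) 2 volume := fun i => by
    refine (hind (K * ‖e i‖)).of_le (hpdm i).aestronglyMeasurable
      (Eventually.of_forall fun P => ?_)
    by_cases hP : P ∈ T
    · rw [Set.indicator_of_mem hP]
      have h1 := hpdb i P
      rw [Real.norm_eq_abs]
      exact h1.trans (le_abs_self _)
    · rw [hpd0 i P (fun h => hP (hST h)), norm_zero]
      exact norm_nonneg _
  refine H1.lim hm1 hm2 (fun n => (hfT n).h1) ?_ fun i => ?_
  · -- the functions
    refine dom (fun n P => f n P - φ P) (T.indicator (fun _ : E => K * δ))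
      (fun n => ((hfs n).continuous.sub hc).aestronglyMeasurable) (hind _) ?_ ?_
    · intro n P
      by_cases hP : P ∈ T
      · rw [Set.indicator_of_mem hP]
        have h1 : dist (((η n).normed volume ⋆[lsmul ℝ ℝ, volume] φ) P) (φ P) ≤ K * δ := by
          refine (η n).dist_normed_convolution_le hc.aestronglyMeasurable fun x hx => ?_
          refine (hK.dist_le_mul x P).trans (mul_le_mul_of_nonneg_left ?_ K.2)
          exact (mem_ball.1 hx).le.trans (hη3 n)
        rw [Real.dist_eq] at h1
        exact h1.trans (le_abs_self _)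
      · rw [hf0 n P hP, hφ0 P (fun h => hP (hST h)), sub_zero, abs_zero]
        exact abs_nonneg _
    · refine Eventually.of_forall fun P => ?_
      rw [← sub_self (φ P)]
      refine Tendsto.sub_const ?_ _
      rw [tendsto_iff_dist_tendsto_zero]
      have h2 : Tendsto (fun n => (K : ℝ) * (η n).rOut) atTop (𝓝 0) := by
        have := hη0.const_mul (K : ℝ)
        rwa [mul_zero] at this
      refine squeeze_zero (fun n => dist_nonneg) (fun n => ?_) h2
      refine (η n).dist_normed_convolution_le hc.aestronglyMeasurable fun x hx => ?_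
      exact (hK.dist_le_mul x P).trans (mul_le_mul_of_nonneg_left (mem_ball.1 hx).le K.2)
  · -- the derivatives
    set C : ℝ := K * ‖e i‖ with hC
    have hC0 : 0 ≤ C := by positivity
    refine dom (fun n P => pd e i (f n) P - pd e i φ P) (T.indicator (fun _ : E => C + C))
      (fun n => (((hfT n).pd_cont i).measurable.sub (hpdm i)).aestronglyMeasurable) (hind _) ?_ ?_
    · intro n P
      by_cases hP : P ∈ T
      · rw [Set.indicator_of_mem hP, hpd]
        have h1 := conv_le (η n) (pd e i φ) C (hpdb i) P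
        refine (abs_sub _ _).trans ?_
        exact (add_le_add h1 (hpdb i P)).trans (le_abs_self _)
      · rw [hpd, conv_supp (η n) (pd e i φ) S (hpd0 i) δ (hη3 n) P hP,
          hpd0 i P (fun h => hP (hST h)), sub_zero, abs_zero]
        exact abs_nonneg _
    · have hli : LocallyIntegrable (pd e i φ) volume := by
        have h1 : Integrable (pd e i φ) volume := by
          refine Integrable.mono' (g := T.indicator (fun _ : E => C))
            ((integrable_indicator_iff hTm).2 (integrableOn_const hTc.measure_lt_top.ne))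
            (hpdm i).aestronglyMeasurable (Eventually.of_forall fun P => ?_)
          by_cases hP : P ∈ T
          · rw [Set.indicator_of_mem hP]
            exact hpdb i P
          · rw [hpd0 i P (fun h => hP (hST h)), norm_zero, Set.indicator_of_notMem hP]
        exact h1.locallyIntegrable
      have h2 := ContDiffBump.ae_convolution_tendsto_right_of_locallyIntegrable (μ := volume)
        (φ := η) (l := atTop) (K := 2) hη0 (Eventually.of_forall hη2) hli
      filter_upwards [h2] with P hP
      rw [← sub_self (pd e i φ P)]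
      refine Tendsto.sub_const ?_ _
      refine hP.congr fun n => ?_
      exact (hpd n i P).symm

end MGS
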