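import Pool.Agent.MGS.TF

/-!
# MGS: proof of LLR
-/

set_option autoImplicit false

open MeasureTheory Filter Topology Metric Set
open scoped ENNReal NNReal ContDiff

noncomputable section

namespace MGS.LLR_

open MGS

theorem ctest {G : Set X} {φ : X → ℝ} (h : Test G φ) : CTest G (fun P => (φ P : ℂ)) where
  smooth := Complex.ofRealCLM.contDiff.comp h.smooth
  cpt := h.cpt.comp_left (g := fun x : ℝ => (x : ℂ)) Complex.ofReal_zero
  sub := (tsupport_comp_subset (g := fun x : ℝ => (x : ℂ)) Complex.ofReal_zero φ).trans h.sub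

theorem fderiv_ofReal {G : Set X} {φ : X → ℝ} (h : Test G φ) (P v : X) :
    fderiv ℝ (fun P => (φ P : ℂ)) P v = ((fderiv ℝ φ P v : ℝ) : ℂ) := by
  have h1 : HasFDerivAt (fun P => (φ P : ℂ)) (Complex.ofRealCLM.comp (fderiv ℝ φ P)) P :=
    Complex.ofRealCLM.hasFDerivAt.comp P (h.diff P).hasFDerivAt
  rw [h1.fderiv]
  rfl

theorem norm_aux (d a f : ℝ) : ‖-Complex.I * (d : ℂ) + (a : ℂ) * (f : ℂ)‖ ^ 2 =
    d ^ 2 + a ^ 2 * f ^ 2 := by
  rw [← Complex.normSq_eq_norm_sq, Complex.normSq_apply]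
  simp
  ring

theorem form_eq {B : ℝ} {G : Set X} {φ : X → ℝ} (h : Test G φ) :
    form B (fun P => (φ P : ℂ)) = ER B φ (fun i => pd e3 i φ) := by
  unfold form ER
  refine integral_congr_ae (Eventually.of_forall fun P => ?_)
  have h1 : ∀ i : Fin 3, ‖-Complex.I * fderiv ℝ (fun P => (φ P : ℂ)) P (e3 i) +
      (Ap B i P : ℂ) * (φ P : ℂ)‖ ^ 2 = pd e3 i φ P ^ 2 + Ap B i P ^ 2 * φ P ^ 2 := by
    intro i
    rw [fderiv_ofReal h, norm_aux]
    rfl
  have h2 : ∑ i : Fin 3, Ap B i P ^ 2 = VV B P := by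
    have h3 : ‖P.1‖ ^ 2 = P.1.re * P.1.re + P.1.im * P.1.im := by
      rw [← Complex.normSq_eq_norm_sq, Complex.normSq_apply]
    simp only [Fin.sum_univ_three, Ap, VV, h3]
    simp
    ring
  show ∑ i : Fin 3, ‖-Complex.I * fderiv ℝ (fun P => (φ P : ℂ)) P (e3 i) +
      (Ap B i P : ℂ) * (φ P : ℂ)‖ ^ 2 = ∑ i : Fin 3, pd e3 i φ P ^ 2 + VV B P * φ P ^ 2
  rw [Finset.sum_congr rfl fun i _ => h1 i, Finset.sum_add_distrib, ← Finset.sum_mul, h2]

theorem form_nonneg (B : ℝ) (u : X → ℂ) : 0 ≤ form B u := by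
  unfold form
  exact integral_nonneg fun P => Finset.sum_nonneg fun i _ => by positivity

theorem exists_test {G : Set X} (hG : IsOpen G) (hne : G.Nonempty) :
    ∃ φ : X → ℝ, Test G φ ∧ ∫ P, φ P ^ 2 = 1 := by
  obtain ⟨x, hx⟩ := hne
  obtain ⟨f, h1, h2, h3, -, h5⟩ := exists_contDiff_tsupport_subset (n := ⊤)
    (hG.mem_nhds hx)
  have hf : Test G f := ⟨h3, h2, h1⟩
  have hpos : 0 < ∫ P, f P ^ 2 := by
    refine Continuous.integral_pos_of_hasCompactSupport_nonneg_nonzero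
      (hf.smooth.continuous.pow 2) ?_ (fun P => sq_nonneg _) (x := x) ?_
    · exact hf.cpt.comp_left (g := fun x : ℝ => x ^ 2) (by norm_num)
    · rw [h5]
      norm_num
  set N : ℝ := ∫ P, f P ^ 2 with hN
  refine ⟨fun P => (Real.sqrt N)⁻¹ * f P, hf.smul _, ?_⟩
  simp only [mul_pow]
  rw [integral_const_mul, ← hN, inv_pow, Real.sq_sqrt hpos.le, inv_mul_cancel₀ hpos.ne']

end MGS.LLR_

namespace MGS

open LLR_

theorem p_LLR : T_LLR := by
  intro B G hG hne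
  unfold lam lamR
  refine csInf_le_csInf ⟨0, ?_⟩ ?_ ?_
  · rintro r ⟨u, -, -, rfl⟩
    exact form_nonneg B u
  · obtain ⟨φ, h1, h2⟩ := exists_test hG hne
    exact ⟨_, φ, h1, h2, rfl⟩
  · rintro r ⟨φ, h1, h2, rfl⟩
    refine ⟨_, ctest h1, ?_, form_eq h1⟩
    rw [← h2]
    refine integral_congr_ae (Eventually.of_forall fun P => ?_)
    show ‖(φ P : ℂ)‖ ^ 2 = φ P ^ 2
    rw [Complex.norm_real, Real.norm_eq_abs, sq_abs]

end MGS
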