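import Pool.Agent.MGS.TB

/-!
# MGS: target LOG (helper25), the logarithmic estimate
-/

set_option autoImplicit false

open MeasureTheory Filter Topology Metric Set
open scoped ENNReal NNReal ContDiff

noncomputable section

namespace MGS

namespace LOG_

/-- the derivative of `1/(t + ε)` for `t ≥ 0`, extended to an even function -/
def nu (ε s : ℝ) : ℝ := -(1 / (|s| + ε) ^ 2)

theorem nu_cont {ε : ℝ} (hε : 0 < ε) : Continuous (nu ε) := by
  unfold nu
  refine (continuous_const.div ((continuous_abs.add continuous_const).pow 2) fun s => ?_).neg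
  have h1 : 0 < |s| + ε := by positivity
  exact (pow_pos h1 2).ne'

theorem nu_bdd {ε : ℝ} (hε : 0 < ε) (s : ℝ) : |nu ε s| ≤ 1 / ε ^ 2 := by
  unfold nu
  have h1 : 0 < |s| + ε := by positivity
  rw [abs_neg, abs_of_nonneg (by positivity)]
  have h2 : ε ≤ |s| + ε := by linarith [abs_nonneg s]
  gcongr

theorem nu_int {ε : ℝ} (hε : 0 < ε) {t : ℝ} (ht : 0 ≤ t) :
    ∫ s in (0 : ℝ)..t, nu ε s = 1 / (t + ε) - 1 / ε := by
  have h : ∀ s ∈ Set.uIcc 0 t, HasDerivAt (fun s => (s + ε)⁻¹) (nu ε s) s := by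
    intro s hs
    rw [Set.uIcc_of_le ht] at hs
    have h1 : s + ε ≠ 0 := by linarith [hs.1]
    have h2 := ((hasDerivAt_id s).add_const ε).inv h1
    refine h2.congr_deriv ?_
    unfold nu
    rw [abs_of_nonneg hs.1]
    simp only [id]
    ring
  rw [intervalIntegral.integral_eq_sub_of_hasDerivAt h ((nu_cont hε).intervalIntegrable _ _)]
  simp [one_div]

theorem sq_test {G : Set X} {η : X → ℝ} (h : Test G η) : Test G (fun P => η P * η P) where
  smooth := h.smooth.mul h.smooth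
  cpt := h.cpt.mul_left
  sub := (tsupport_mul_subset_left (f := η) (g := η)).trans h.sub

theorem pd_sq {G : Set X} {η : X → ℝ} (h : Test G η) (i : Fin 3) (P : X) :
    pd e3 i (fun P => η P * η P) P = 2 * η P * pd e3 i η P := by
  unfold pd
  have h2 : fderiv ℝ (fun P => η P * η P) P = η P • fderiv ℝ η P + η P • fderiv ℝ η P :=
    fderiv_mul (h.diff P) (h.diff P)
  rw [h2]
  simp only [add_apply, smul_apply, smul_eq_mul]
  ring

/-- the pointwise inequality -/
theorem pw (f ε η q L g : ℝ) (F e Γ : Fin 3 → ℝ) (hε : 0 < ε) (hf : 0 ≤ f) (hq : 0 ≤ q)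
    (hg : g = η ^ 2 / (f + ε))
    (hΓ : ∀ i, Γ i = -(η ^ 2 * F i / (f + ε) ^ 2) + 2 * η * e i / (f + ε)) :
    1 / 2 * (η ^ 2 * ∑ i : Fin 3, F i ^ 2 / (f + ε) ^ 2) ≤
      -((∑ i : Fin 3, F i * Γ i + q * (f * g)) - L * (f * g)) +
      (2 * ∑ i : Fin 3, e i ^ 2 + (q + |L|) * η ^ 2) := by
  obtain ⟨d, hd⟩ : ∃ d, d = f + ε := ⟨_, rfl⟩
  have hd0 : 0 < d := by rw [hd]; linarith
  obtain ⟨r, hr⟩ : ∃ r, r = 1 / d := ⟨_, rfl⟩
  have hr0 : 0 ≤ r := by rw [hr]; positivity
  have hfr0 : 0 ≤ f * r := mul_nonneg hf hr0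
  have hfr1 : f * r ≤ 1 := by
    rw [hr, mul_one_div, div_le_one hd0, hd]
    linarith
  have hL : (q - L) * (f * r) ≤ q + |L| := by
    calc (q - L) * (f * r) ≤ (q + |L|) * (f * r) := by
          gcongr
          linarith [neg_abs_le L]
      _ ≤ (q + |L|) * 1 := by
          have : 0 ≤ q + |L| := by positivity
          gcongr
      _ = q + |L| := mul_one _
  have hL2 : (q - L) * (f * r) * η ^ 2 ≤ (q + |L|) * η ^ 2 := by
    have := sq_nonneg η
    gcongr
  have hg' : g = η ^ 2 * r := by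
    rw [hg, hr, ← hd]
    ring
  have hdiv : ∀ x : ℝ, x ^ 2 / (f + ε) ^ 2 = x ^ 2 * r ^ 2 := by
    intro x
    rw [hr, ← hd]
    ring
  have hΓ' : ∀ i, Γ i = -(η ^ 2 * F i * r ^ 2) + 2 * η * e i * r := by
    intro i
    rw [hΓ, hr, ← hd]
    ring
  simp only [Fin.sum_univ_three, hdiv, hg', hΓ']
  have h0 := sq_nonneg (η * F 0 * r - 2 * e 0)
  have h1 := sq_nonneg (η * F 1 * r - 2 * e 1)
  have h2 := sq_nonneg (η * F 2 * r - 2 * e 2)
  nlinarith [h0, h1, h2, hL2]

/-- the test function -/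
theorem tf (h_BCC : T_BCC) (h_PRL : T_PRL) {G : Set X} {f : X → ℝ} {F : Fin 3 → X → ℝ}
    (hG : IsOpen G) (h : H1 e3 G f F) (hf : ∀ᵐ P, 0 ≤ f P) {η : X → ℝ} (hη : Test G η) {ε : ℝ}
    (hε : 0 < ε) : ∃ (g : X → ℝ) (Γ : Fin 3 → X → ℝ), H1 e3 G g Γ ∧
      (∀ᵐ P, g P = η P ^ 2 / (f P + ε)) ∧
      ∀ᵐ P, ∀ i, Γ i P = -(η P ^ 2 * F i P / (f P + ε) ^ 2) + 2 * η P * pd e3 i η P / (f P + ε) := by
  have hθ := sq_test hη
  obtain ⟨K, hK⟩ : ∃ K : ℝ≥0, LipschitzWith K (fun P => η P * η P) :=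
    ContDiff.lipschitzWith_of_hasCompactSupport hθ.cpt hθ.smooth (by simp)
  obtain ⟨M, hMb⟩ := hθ.cpt.exists_bound_of_continuous hθ.smooth.continuous
  have h1 := h_BCC X (Fin 3) e3 G f F (nu ε) (1 / ε ^ 2) hG h (nu_cont hε) (nu_bdd hε)
  have h2 := h_PRL X (Fin 3) e3 G G _ _ (fun P => η P * η P) M hG h1 ⟨K, hK⟩
    (fun P => by simpa [Real.norm_eq_abs] using hMb P) (Or.inl subset_rfl)
  have h3 := h2.add ((hθ.h1 (e := e3)).smul (1 / ε))
  refine ⟨_, _, h3, ?_, ?_⟩
  · filter_upwards [hf] with P hP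
    have hd : f P + ε ≠ 0 := by linarith
    rw [nu_int hε hP]
    field_simp
    ring
  · filter_upwards [hf] with P hP i
    have hd : f P + ε ≠ 0 := by linarith
    have h6 : nu ε (f P) = -(1 / (f P + ε) ^ 2) := by
      unfold nu
      rw [abs_of_nonneg hP]
    rw [nu_int hε hP, h6, pd_sq hη]
    field_simp
    ring

end LOG_

open LOG_ in
/-- LOG -/
theorem p_LOG (h_BCC : T_BCC) (h_PRL : T_PRL) (h_EQC : T_EQC) (h_WKE : T_WKE) : T_LOG := by
  intro q G L f F hM hf η hη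
  have hθ := sq_test hη
  obtain ⟨M, hMb⟩ := hθ.cpt.exists_bound_of_continuous hθ.smooth.continuous
  have iT1 : Integrable (fun P => ∑ i : Fin 3, pd e3 i η P ^ 2) :=
    integrable_finsetSum _ fun i _ => (hη.memLp_pd i).integrable_sq
  have iT2 : Integrable (fun P => (q P + |L|) * η P ^ 2) := by
    refine Continuous.integrable_of_hasCompactSupport
      ((hM.adm.cont.add continuous_const).mul (hη.smooth.continuous.pow 2)) ?_
    have h1 : HasCompactSupport (fun P => (q P + |L|) * (η P * η P)) := hθ.cpt.mul_left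
    refine h1.mono fun P hP => ?_
    simpa [sq] using hP
  refine ⟨4 * (∫ P, ∑ i : Fin 3, pd e3 i η P ^ 2) + 2 * ∫ P, (q P + |L|) * η P ^ 2,
    fun ε hε => ?_⟩
  -- integrability of the left hand side
  have iS : Integrable (fun P => η P ^ 2 * ∑ i : Fin 3, F i P ^ 2 / (f P + ε) ^ 2) := by
    have h1 : Integrable (fun P => M / ε ^ 2 * ∑ i : Fin 3, F i P ^ 2) :=
      (integrable_finsetSum _ fun i _ => (hM.h.2.1 i).integrable_sq).const_mul _
    refine h1.mono' ?_ ?_
    · have hfm : AEMeasurable f volume := hM.h.1.1.aemeasurable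
      have hFm : ∀ i, AEMeasurable (F i) volume := fun i => (hM.h.2.1 i).1.aemeasurable
      have hηm : AEMeasurable η volume := hη.smooth.continuous.measurable.aemeasurable
      refine AEMeasurable.aestronglyMeasurable ?_
      refine (hηm.pow_const 2).mul ?_
      refine Finset.aemeasurable_fun_sum _ fun i _ => ?_
      exact ((hFm i).pow_const 2).div ((hfm.add_const ε).pow_const 2)
    · filter_upwards [hf] with P hP
      have h2 : η P ^ 2 ≤ M := by
        have := hMb P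
        rw [Real.norm_eq_abs] at this
        calc η P ^ 2 = η P * η P := sq _
          _ ≤ |η P * η P| := le_abs_self _
          _ ≤ M := this
      have hM0 : 0 ≤ M := (sq_nonneg _).trans h2
      have hd : 0 < f P + ε := by linarith
      rw [Real.norm_eq_abs, abs_of_nonneg (by positivity)]
      have h3 : ∑ i : Fin 3, F i P ^ 2 / (f P + ε) ^ 2 ≤ ∑ i : Fin 3, F i P ^ 2 / ε ^ 2 := by
        refine Finset.sum_le_sum fun i _ => ?_
        gcongr
        linarith
      calc η P ^ 2 * ∑ i : Fin 3, F i P ^ 2 / (f P + ε) ^ 2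
          ≤ M * ∑ i : Fin 3, F i P ^ 2 / ε ^ 2 := by
            have : 0 ≤ ∑ i : Fin 3, F i P ^ 2 / (f P + ε) ^ 2 := by positivity
            gcongr
        _ = M / ε ^ 2 * ∑ i : Fin 3, F i P ^ 2 := by
            rw [← Finset.sum_div]
            ring
  refine ⟨iS, ?_⟩
  obtain ⟨g, Γ, h3, hg, hΓ⟩ := tf h_BCC h_PRL hM.adm.isOpen hM.h hf hη hε
  obtain ⟨i1, i2, i3⟩ := (h_EQC q G f F hM.h hM.adm.cont hM.adm.bounded).1 _ _ h3
  have hW := h_WKE q G L f F hM _ _ h3
  unfold BQ at hW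
  have i3' : Integrable (fun P => ∑ i : Fin 3, F i P * Γ i P) :=
    integrable_finsetSum _ fun i _ => i3 i
  have i4 : Integrable (fun P => ∑ i : Fin 3, F i P * Γ i P + q P * (f P * g P)) := i3'.add i2
  have i5 : Integrable (fun P => (∑ i : Fin 3, F i P * Γ i P + q P * (f P * g P)) -
      L * (f P * g P)) := i4.sub (i1.const_mul L)
  have i6 : Integrable (fun P => 2 * ∑ i : Fin 3, pd e3 i η P ^ 2 + (q P + |L|) * η P ^ 2) :=
    (iT1.const_mul 2).add iT2
  have hle := integral_mono_ae (iS.const_mul (1 / 2)) (i5.neg.add i6) (by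
    filter_upwards [hf, hg, hΓ] with P hP hgP hΓP
    exact pw (f P) ε (η P) (q P) L (g P) (fun i => F i P) (fun i => pd e3 i η P)
      (fun i => Γ i P) hε hP (hM.adm.nn P) hgP hΓP)
  have e0 : ∫ P, ((∑ i : Fin 3, F i P * Γ i P + q P * (f P * g P)) - L * (f P * g P)) = 0 := by
    rw [integral_sub i4 (i1.const_mul L), integral_const_mul, hW]
    ring
  have e1 : ∫ P, (2 * ∑ i : Fin 3, pd e3 i η P ^ 2 + (q P + |L|) * η P ^ 2) =
      2 * (∫ P, ∑ i : Fin 3, pd e3 i η P ^ 2) + ∫ P, (q P + |L|) * η P ^ 2 := by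
    rw [integral_add (iT1.const_mul 2) iT2, integral_const_mul]
  rw [integral_const_mul, integral_add' i5.neg i6, integral_neg', e0, e1] at hle
  linarith

end MGS

end
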