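import Pool.Agent.MGS.TA

/-!
# MGS: LPW, functions of the plane with gradient at most one are Lipschitz (helper13)
-/

set_option autoImplicit false

open MeasureTheory Filter Topology Metric Set ContinuousLinearMap
open scoped ENNReal NNReal ContDiff Convolution

noncomputable section

namespace MGS

theorem LPW_holder (η D : ℂ → ℝ) (hη : MemLp η 2 volume) (hD : MemLp D 2 volume) (x : ℂ) :
    Integrable (fun t => η t * D (x - t)) volume ∧
    ∫⁻ t, ‖η t * D (x - t)‖ₑ ≤ eLpNorm η 2 volume * eLpNorm D 2 volume := by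
  have mp : MeasurePreserving (fun t : ℂ => x - t) volume volume :=
    Measure.measurePreserving_sub_left volume x
  have hD' : MemLp (fun t => D (x - t)) 2 volume := hD.comp_measurePreserving mp
  have e1 : eLpNorm (fun t => D (x - t)) 2 volume = eLpNorm D 2 volume :=
    eLpNorm_comp_measurePreserving hD.1 mp
  have h := eLpNorm_smul_le_mul_eLpNorm (p := 2) (q := 2) (r := 1) hD'.1 hη.1
  rw [e1, eLpNorm_one_eq_lintegral_enorm] at h
  exact ⟨hη.integrable_mul hD', h⟩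

theorem LPW_norm (L : ℂ →L[ℝ] ℝ) (a b : ℝ) (hab : Real.sqrt (a ^ 2 + b ^ 2) ≤ 1) :
    ‖L‖ ≤ 1 + |L 1 - a| + |L Complex.I - b| := by
  refine ContinuousLinearMap.opNorm_le_bound _ (by positivity) fun v => ?_
  have hv : v = v.re • (1 : ℂ) + v.im • Complex.I := by
    apply Complex.ext <;> simp
  have h1 : L v = v.re * L 1 + v.im * L Complex.I := by
    conv_lhs => rw [hv]
    rw [map_add, map_smul, map_smul]
    rfl
  have h2 : L v = (v.re * a + v.im * b) + v.re * (L 1 - a) + v.im * (L Complex.I - b) := by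
    rw [h1]
    ring
  have h3 : |v.re * a + v.im * b| ≤ ‖v‖ := by
    refine abs_le_of_sq_le_sq ?_ (norm_nonneg v)
    have e1 : ‖v‖ ^ 2 = v.re ^ 2 + v.im ^ 2 := by
      rw [← Complex.normSq_eq_norm_sq, Complex.normSq_apply]
      ring
    have e2 : a ^ 2 + b ^ 2 ≤ 1 := by
      have := (Real.sqrt_le_iff.1 hab).2
      simpa using this
    rw [e1]
    nlinarith [sq_nonneg (v.re * b - v.im * a), sq_nonneg v.re, sq_nonneg v.im]
  have h4 : |v.re * (L 1 - a)| ≤ ‖v‖ * |L 1 - a| := by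
    rw [abs_mul]
    gcongr
    exact Complex.abs_re_le_norm v
  have h5 : |v.im * (L Complex.I - b)| ≤ ‖v‖ * |L Complex.I - b| := by
    rw [abs_mul]
    gcongr
    exact Complex.abs_im_le_norm v
  rw [Real.norm_eq_abs, h2]
  calc _ ≤ |v.re * a + v.im * b| + |v.re * (L 1 - a)| + |v.im * (L Complex.I - b)| :=
        (abs_add_le _ _).trans (by gcongr; exact abs_add_le _ _)
    _ ≤ _ := by linarith

theorem LPW_lip {G : Set ℂ} (η : ℂ → ℝ) (hη : Continuous η) (hc : HasCompactSupport η)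
    (nn : ∀ t, 0 ≤ η t) (h1 : ∫ t, η t = 1) (φ : ℂ → ℝ) (hφ : Test G φ) (Γ : Fin 2 → ℂ → ℝ)
    (hΓ : ∀ i, MemLp (Γ i) 2 volume) (hb : ∀ᵐ x, gn Γ x ≤ 1) (s : ℝ≥0)
    (hs : eLpNorm η 2 volume * eLpNorm (fun P => pd e2 0 φ P - Γ 0 P) 2 volume +
      eLpNorm η 2 volume * eLpNorm (fun P => pd e2 1 φ P - Γ 1 P) 2 volume ≤ s) :
    LipschitzWith (1 + s) (η ⋆[lsmul ℝ ℝ, volume] φ) := by
  have hd : ∀ x, HasFDerivAt (η ⋆[lsmul ℝ ℝ, volume] φ)
      ((η ⋆[(lsmul ℝ ℝ).precompR ℂ, volume] fderiv ℝ φ) x) x := fun x =>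
    hφ.cpt.hasFDerivAt_convolution_right (lsmul ℝ ℝ) hη.locallyIntegrable
      (hφ.smooth.of_le (by exact_mod_cast le_top)) x
  refine lipschitzWith_of_nnnorm_fderiv_le (𝕜 := ℝ) (fun x => (hd x).differentiableAt) fun x => ?_
  rw [(hd x).fderiv]
  have hη2 : MemLp η 2 volume := hη.memLp_of_hasCompactSupport hc
  have hD : ∀ i, MemLp (fun P => pd e2 i φ P - Γ i P) 2 volume := fun i =>
    (hφ.memLp_pd i).sub (hΓ i)
  have hη1 : Integrable η volume := hη.integrable_of_hasCompactSupport hc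
  have mp : MeasurePreserving (fun t : ℂ => x - t) volume volume :=
    Measure.measurePreserving_sub_left volume x
  have hb' : ∀ᵐ t, gn Γ (x - t) ≤ 1 := mp.quasiMeasurePreserving.ae hb
  have i1 : ∫⁻ t, ‖η t‖ₑ = 1 := by
    have : ∫⁻ t, ‖η t‖ₑ = ENNReal.ofReal (∫ t, η t) := by
      rw [ofReal_integral_eq_lintegral_ofReal hη1 (Eventually.of_forall nn)]
      refine lintegral_congr fun t => ?_
      exact Real.enorm_of_nonneg (nn t)
    rw [this, h1, ENNReal.ofReal_one]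
  have key : ‖(η ⋆[(lsmul ℝ ℝ).precompR ℂ, volume] fderiv ℝ φ) x‖ₑ ≤ 1 + (s : ℝ≥0∞) := by
    rw [convolution_def]
    refine (enorm_integral_le_lintegral_enorm _).trans ?_
    calc _ ≤ ∫⁻ t, (‖η t‖ₑ + ‖η t * (pd e2 0 φ (x - t) - Γ 0 (x - t))‖ₑ +
          ‖η t * (pd e2 1 φ (x - t) - Γ 1 (x - t))‖ₑ) := by
          refine lintegral_mono_ae ?_
          filter_upwards [hb'] with t ht
          have e1 : ((lsmul ℝ ℝ).precompR ℂ (η t)) (fderiv ℝ φ (x - t)) =
              η t • fderiv ℝ φ (x - t) := by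
            ext v
            simp [ContinuousLinearMap.precompR]
          rw [e1, enorm_smul]
          have e4 := LPW_norm (fderiv ℝ φ (x - t)) (Γ 0 (x - t)) (Γ 1 (x - t)) ht
          have e3 : ‖fderiv ℝ φ (x - t)‖ₑ ≤ 1 + ‖pd e2 0 φ (x - t) - Γ 0 (x - t)‖ₑ +
              ‖pd e2 1 φ (x - t) - Γ 1 (x - t)‖ₑ := by
            rw [← ofReal_norm, ← ofReal_norm, ← ofReal_norm,
              ← ENNReal.ofReal_one, ← ENNReal.ofReal_add (by positivity) (by positivity),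
              ← ENNReal.ofReal_add (by positivity) (by positivity)]
            refine ENNReal.ofReal_le_ofReal ?_
            rw [Real.norm_eq_abs, Real.norm_eq_abs]
            exact e4
          calc _ ≤ ‖η t‖ₑ * (1 + ‖pd e2 0 φ (x - t) - Γ 0 (x - t)‖ₑ +
              ‖pd e2 1 φ (x - t) - Γ 1 (x - t)‖ₑ) := by gcongr
            _ = _ := by rw [enorm_mul, enorm_mul]; ring
      _ = (∫⁻ t, ‖η t‖ₑ) + (∫⁻ t, ‖η t * (pd e2 0 φ (x - t) - Γ 0 (x - t))‖ₑ) +
          ∫⁻ t, ‖η t * (pd e2 1 φ (x - t) - Γ 1 (x - t))‖ₑ := by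
          rw [lintegral_add_right', lintegral_add_left']
          · exact hη.aestronglyMeasurable.enorm
          · exact (LPW_holder η _ hη2 (hD 1) x).1.1.enorm
      _ ≤ 1 + (s : ℝ≥0∞) := by
          rw [i1, add_assoc]
          refine add_le_add le_rfl (le_trans ?_ hs)
          exact add_le_add (LPW_holder η _ hη2 (hD 0) x).2 (LPW_holder η _ hη2 (hD 1) x).2
  have : ((‖(η ⋆[(lsmul ℝ ℝ).precompR ℂ, volume] fderiv ℝ φ) x‖₊ : ℝ≥0) : ℝ≥0∞) ≤
      ((1 + s : ℝ≥0) : ℝ≥0∞) := by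
    rw [ENNReal.coe_add]
    exact key
  exact ENNReal.coe_le_coe.1 this

theorem LPW_conv {G : Set ℂ} (g : ℂ → ℝ) (Γ : Fin 2 → ℂ → ℝ) (h : H1 e2 G g Γ)
    (hb : ∀ᵐ x, gn Γ x ≤ 1) (η : ℂ → ℝ) (hη : Continuous η) (hc : HasCompactSupport η)
    (nn : ∀ t, 0 ≤ η t) (h1 : ∫ t, η t = 1) :
    LipschitzWith 1 (η ⋆[lsmul ℝ ℝ, volume] g) := by
  have hη2 : MemLp η 2 volume := hη.memLp_of_hasCompactSupport hc
  obtain ⟨φ, hφ, t1, t2, -, -⟩ := h.seq
  have hD : ∀ n i, MemLp (fun P => pd e2 i (φ n) P - Γ i P) 2 volume := fun n i =>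
    ((hφ n).memLp_pd i).sub (h.2.1 i)
  set S : ℕ → ℝ≥0∞ := fun n =>
    eLpNorm η 2 volume * eLpNorm (fun P => pd e2 0 (φ n) P - Γ 0 P) 2 volume +
      eLpNorm η 2 volume * eLpNorm (fun P => pd e2 1 (φ n) P - Γ 1 P) 2 volume with hS
  have hSf : ∀ n, S n ≠ ⊤ := fun n => by
    refine ENNReal.add_ne_top.2 ⟨ENNReal.mul_ne_top hη2.2.ne (hD n 0).2.ne,
      ENNReal.mul_ne_top hη2.2.ne (hD n 1).2.ne⟩
  have hS0 : Tendsto S atTop (𝓝 0) := by
    have a0 := ENNReal.Tendsto.const_mul (a := eLpNorm η 2 volume) (t2 0) (Or.inr hη2.2.ne)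
    have a1 := ENNReal.Tendsto.const_mul (a := eLpNorm η 2 volume) (t2 1) (Or.inr hη2.2.ne)
    have := a0.add a1
    simpa using this
  have hSr : Tendsto (fun n => ((S n).toNNReal : ℝ)) atTop (𝓝 0) := by
    have := (ENNReal.tendsto_toReal ENNReal.zero_ne_top).comp hS0
    rw [ENNReal.toReal_zero] at this
    exact this
  have hL : ∀ n, LipschitzWith (1 + (S n).toNNReal) (η ⋆[lsmul ℝ ℝ, volume] (φ n)) := fun n =>
    LPW_lip η hη hc nn h1 (φ n) (hφ n) Γ h.2.1 hb _ (by rw [ENNReal.coe_toNNReal (hSf n)])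
  have hlim : ∀ x, Tendsto (fun n => (η ⋆[lsmul ℝ ℝ, volume] (φ n)) x) atTop
      (𝓝 ((η ⋆[lsmul ℝ ℝ, volume] g) x)) := by
    intro x
    rw [tendsto_iff_edist_tendsto_0]
    have b0 : Tendsto (fun n => eLpNorm η 2 volume * eLpNorm (fun P => φ n P - g P) 2 volume)
        atTop (𝓝 0) := by
      have := ENNReal.Tendsto.const_mul (a := eLpNorm η 2 volume) t1 (Or.inr hη2.2.ne)
      simpa using this
    refine tendsto_of_tendsto_of_tendsto_of_le_of_le tendsto_const_nhds b0 (fun _ => zero_le)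
      fun n => ?_
    have c1 := LPW_holder η _ hη2 (hφ n).memLp x
    have c2 := LPW_holder η _ hη2 h.1 x
    have c3 := LPW_holder η _ hη2 ((hφ n).memLp.sub h.1) x
    have e1 : edist ((η ⋆[lsmul ℝ ℝ, volume] (φ n)) x) ((η ⋆[lsmul ℝ ℝ, volume] g) x) =
        ‖∫ t, η t * (φ n (x - t) - g (x - t))‖ₑ := by
      rw [edist_eq_enorm_sub, convolution_def, convolution_def]
      simp only [lsmul_apply, smul_eq_mul]
      rw [← integral_sub c1.1 c2.1]
      congr 2
      funext t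
      ring
    show edist _ _ ≤ _
    rw [e1]
    exact (enorm_integral_le_lintegral_enorm _).trans c3.2
  refine LipschitzWith.of_dist_le_mul fun x y => ?_
  have l1 : Tendsto (fun n => dist ((η ⋆[lsmul ℝ ℝ, volume] (φ n)) x)
      ((η ⋆[lsmul ℝ ℝ, volume] (φ n)) y)) atTop
      (𝓝 (dist ((η ⋆[lsmul ℝ ℝ, volume] g) x) ((η ⋆[lsmul ℝ ℝ, volume] g) y))) :=
    (hlim x).dist (hlim y)
  have l2 : Tendsto (fun n => ((1 : ℝ) + ((S n).toNNReal : ℝ)) * dist x y) atTop
      (𝓝 ((1 + 0) * dist x y)) := (tendsto_const_nhds.add hSr).mul_const _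
  have l3 := le_of_tendsto_of_tendsto' l1 l2 fun n => by
    have := (hL n).dist_le_mul x y
    push_cast at this
    exact this
  simpa using l3

theorem p_LPW : T_LPW := by
  intro G g Γ h hb
  have hr : ∀ n : ℕ, (0 : ℝ) < 1 / ((n : ℝ) + 1) := fun n => by positivity
  have hr2 : ∀ n : ℕ, (1 : ℝ) / ((n : ℝ) + 1) < 2 * (1 / ((n : ℝ) + 1)) := fun n => by
    linarith [hr n]
  let b : ℕ → ContDiffBump (0 : ℂ) := fun n =>
    ⟨1 / ((n : ℝ) + 1), 2 * (1 / ((n : ℝ) + 1)), hr n, hr2 n⟩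
  have h0 : Tendsto (fun n => (b n).rOut) atTop (𝓝 0) := by
    have := tendsto_one_div_add_atTop_nhds_zero_nat (𝕜 := ℝ)
    have := this.const_mul 2
    simpa [b] using this
  have hloc : LocallyIntegrable g volume := (h.1.locallyIntegrable (by norm_num))
  have hae := ContDiffBump.ae_convolution_tendsto_right_of_locallyIntegrable (K := 2) h0
    (Eventually.of_forall fun n => le_rfl) hloc
  set S : Set ℂ := {x | Tendsto (fun n => ((b n).normed volume ⋆[lsmul ℝ ℝ, volume] g) x) atTop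
    (𝓝 (g x))} with hS
  have hL : LipschitzOnWith 1 g S := by
    refine LipschitzOnWith.of_dist_le_mul fun x hx y hy => ?_
    have l1 := (Filter.Tendsto.dist (hS ▸ hx : Tendsto _ _ _) (hS ▸ hy : Tendsto _ _ _))
    refine le_of_tendsto' l1 fun n => ?_
    exact (LPW_conv g Γ h hb ((b n).normed volume) ((b n).contDiff_normed (n := 0)).continuous
      (b n).hasCompactSupport_normed (fun t => (b n).nonneg_normed t)
      (b n).integral_normed).dist_le_mul x y
  obtain ⟨f, hf, hfg⟩ := hL.extend_real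
  refine ⟨f, hf, ?_⟩
  filter_upwards [hae] with x hx
  exact (hfg hx).symm

end MGS
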