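import Pool.Agent.MGS.TA

/-!
# MGS-LRG
-/

set_option autoImplicit false

open MeasureTheory Filter Topology Metric Set
open scoped ENNReal NNReal ContDiff

noncomputable section

namespace MGS

namespace LRG_

lemma VV_nonneg (B : ℝ) (P : X) : 0 ≤ VV B P := by unfold VV; positivity

lemma VV_cont (B : ℝ) : Continuous (VV B) := by
  unfold VV
  fun_prop

lemma ER_nonneg (B : ℝ) (f : X → ℝ) (F : Fin 3 → X → ℝ) : 0 ≤ ER B f F := by
  unfold ER
  apply integral_nonneg
  intro P
  have := VV_nonneg B P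
  positivity

lemma int_sq {G : Set X} {φ : X → ℝ} (h : Test G φ) : Integrable (fun P => φ P ^ 2) := by
  have h1 : Continuous fun P => φ P ^ 2 := h.smooth.continuous.pow 2
  apply h1.integrable_of_hasCompactSupport
  have : (fun P => φ P ^ 2) = fun P => φ P * φ P := by funext P; ring
  rw [this]
  exact h.cpt.mul_left

lemma int_ER (B : ℝ) {G : Set X} {φ : X → ℝ} (h : Test G φ) :
    Integrable (fun P => ∑ i : Fin 3, pd e3 i φ P ^ 2 + VV B P * φ P ^ 2) := by
  apply Integrable.add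
  · apply integrable_finsetSum
    intro i _
    have h1 : Continuous fun P => pd e3 i φ P ^ 2 := (h.pd_cont i).pow 2
    apply h1.integrable_of_hasCompactSupport
    have : (fun P => pd e3 i φ P ^ 2) = fun P => pd e3 i φ P * pd e3 i φ P := by funext P; ring
    rw [this]
    exact (h.pd_cpt i).mul_left
  · have h1 : Continuous fun P => VV B P * φ P ^ 2 := (VV_cont B).mul (h.smooth.continuous.pow 2)
    apply h1.integrable_of_hasCompactSupport
    have : (fun P => VV B P * φ P ^ 2) = fun P => (VV B P * φ P) * φ P := by funext P; ring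
    rw [this]
    exact h.cpt.mul_left

lemma EG_eq (B : ℝ) {G : Set X} {φ ψ : X → ℝ} (h : Test G φ) (h' : Test G ψ) :
    EG (fun _ _ => 0) (VV B) φ ψ (fun i => pd e3 i φ) (fun i => pd e3 i ψ) =
      ER B φ (fun i => pd e3 i φ) + ER B ψ (fun i => pd e3 i ψ) := by
  unfold EG ER
  rw [← integral_add (int_ER B h) (int_ER B h')]
  congr 1
  funext P
  rw [Finset.sum_add_distrib]
  simp only [zero_mul, sub_zero, add_zero]
  ring

lemma ER_smul (B : ℝ) {G : Set X} {φ : X → ℝ} (h : Test G φ) (c : ℝ) :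
    ER B (fun P => c * φ P) (fun i => pd e3 i (fun P => c * φ P)) =
      c ^ 2 * ER B φ (fun i => pd e3 i φ) := by
  unfold ER
  rw [← integral_const_mul]
  congr 1
  funext P
  have h1 : ∀ i, pd e3 i (fun P => c * φ P) P = c * pd e3 i φ P := fun i => pd_smul h c i P
  simp only [h1]
  rw [mul_add, Finset.mul_sum]
  congr 1
  · apply Finset.sum_congr rfl
    intro i _
    ring
  · ring

/-- the set of the values of the energy -/
def SR (B : ℝ) (G : Set X) : Set ℝ :=
  {r | ∃ φ : X → ℝ, Test G φ ∧ ∫ P, φ P ^ 2 = 1 ∧ ER B φ (fun i => pd e3 i φ) = r}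

/-- the set of the values of the energy for pairs -/
def SG (B : ℝ) (G : Set X) : Set ℝ :=
  {r | ∃ φ ψ : X → ℝ, Test G φ ∧ Test G ψ ∧ ∫ P, (φ P ^ 2 + ψ P ^ 2) = 1 ∧
    EG (fun _ _ => 0) (VV B) φ ψ (fun i => pd e3 i φ) (fun i => pd e3 i ψ) = r}

lemma SR_bdd (B : ℝ) (G : Set X) : BddBelow (SR B G) := by
  refine ⟨0, ?_⟩
  rintro r ⟨φ, _, _, rfl⟩
  exact ER_nonneg B _ _

lemma scale (B : ℝ) {G : Set X} {φ : X → ℝ} (h : Test G φ) (h0 : 0 < ∫ P, φ P ^ 2) :
    ER B φ (fun i => pd e3 i φ) / (∫ P, φ P ^ 2) ∈ SR B G := by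
  set I := ∫ P, φ P ^ 2 with hI
  refine ⟨fun P => (1 / Real.sqrt I) * φ P, h.smul _, ?_, ?_⟩
  · have : (fun P => ((1 / Real.sqrt I) * φ P) ^ 2) = fun P => (1 / Real.sqrt I) ^ 2 * φ P ^ 2 := by
      funext P; ring
    rw [this, integral_const_mul, ← hI, div_pow, Real.sq_sqrt h0.le]
    field_simp
  · rw [ER_smul B h, div_pow, Real.sq_sqrt h0.le]
    field_simp

lemma hom (B : ℝ) {G : Set X} {φ : X → ℝ} (h : Test G φ) :
    sInf (SR B G) * ∫ P, φ P ^ 2 ≤ ER B φ (fun i => pd e3 i φ) := by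
  have h0 : 0 ≤ ∫ P, φ P ^ 2 := integral_nonneg (fun P => by positivity)
  rcases h0.eq_or_lt with h1 | h1
  · rw [← h1, mul_zero]
    exact ER_nonneg B _ _
  · have := csInf_le (SR_bdd B G) (scale B h h1)
    rwa [le_div_iff₀ h1] at this

lemma sub (B : ℝ) (G : Set X) : SR B G ⊆ SG B G := by
  rintro r ⟨φ, h, h1, rfl⟩
  refine ⟨φ, fun _ => 0, h, Test.zero, ?_, ?_⟩
  · simpa using h1
  · rw [EG_eq B h Test.zero]
    have : ER B (fun _ => (0 : ℝ)) (fun i => pd e3 i (fun _ => (0 : ℝ))) = 0 := by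
      unfold ER pd
      simp
    rw [this, add_zero]

lemma lower (B : ℝ) (G : Set X) : ∀ r ∈ SG B G, (SR B G).Nonempty ∧ sInf (SR B G) ≤ r := by
  rintro r ⟨φ, ψ, h, h', h1, rfl⟩
  rw [integral_add (int_sq h) (int_sq h')] at h1
  have h0 : 0 ≤ ∫ P, φ P ^ 2 := integral_nonneg (fun P => by positivity)
  have h0' : 0 ≤ ∫ P, ψ P ^ 2 := integral_nonneg (fun P => by positivity)
  constructor
  · rcases h0.eq_or_lt with h2 | h2
    · exact ⟨_, scale B h' (by linarith)⟩
    · exact ⟨_, scale B h h2⟩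
  · rw [EG_eq B h h']
    have h2 := hom B h
    have h3 := hom B h'
    have h4 : sInf (SR B G) = sInf (SR B G) * (∫ P, φ P ^ 2) + sInf (SR B G) * (∫ P, ψ P ^ 2) := by
      rw [← mul_add, h1, mul_one]
    linarith

end LRG_

open LRG_ in
theorem p_LRG : T_LRG := by
  intro B G _ _
  change sInf (SR B G) = sInf (SG B G)
  rcases (SR B G).eq_empty_or_nonempty with h | h
  · have h2 : SG B G = ∅ := by
      rw [Set.eq_empty_iff_forall_notMem]
      intro r hr
      have := (lower B G r hr).1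
      rw [h] at this
      exact Set.not_nonempty_empty this
    rw [h, h2]
  · apply le_antisymm
    · exact le_csInf (h.mono (sub B G)) (fun r hr => (lower B G r hr).2)
    · refine csInf_le_csInf ?_ h (sub B G)
      exact ⟨sInf (SR B G), fun r hr => (lower B G r hr).2⟩

end MGS
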