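import Pool.Agent.MGS.TC
import Pool.Agent.MGS.TA

/-!
# MGS: proof of T_M1V from T_M2V and T_NUL (helper4)

If `v (x) = s > 0` and `s` is not the value of a plateau, then `{v > s}` is the disc of radius `|x|`
up to a null set, and the gradient vanishes a.e. on the plateaus.  So M1V is M2V with the density
divided by `s √(ar v s / π) / 2`.
-/

set_option autoImplicit false

open MeasureTheory Filter Topology Metric Set
open scoped ENNReal NNReal ContDiff

noncomputable section

namespace MGS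

/-- the area of `{v > s}` if `x` is on the level `s`, which is not a plateau -/
theorem M1V_area (v : ℂ → ℝ) (w : ℝ → ℝ) (hv : ∀ x, v x = w ‖x‖) (hw : AntitoneOn w (Ioi 0))
    (x : ℂ) (hx : x ≠ 0) (h0 : volume {y : ℂ | v y = v x} = 0) :
    ar v (v x) = Real.pi * ‖x‖ ^ 2 := by
  have hx' : 0 < ‖x‖ := norm_pos_iff.2 hx
  have h1 : {y : ℂ | v x < v y} ⊆ ball (0 : ℂ) ‖x‖ := by
    intro y hy
    rw [mem_ball_zero_iff]
    by_contra hle
    rw [not_lt] at hle
    have h : w ‖y‖ ≤ w ‖x‖ := hw hx' (lt_of_lt_of_le hx' hle) hle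
    rw [← hv, ← hv] at h
    exact absurd hy (not_lt.2 h)
  have h2 : ball (0 : ℂ) ‖x‖ ⊆ (({0} : Set ℂ) ∪ {y : ℂ | v y = v x}) ∪ {y : ℂ | v x < v y} := by
    intro y hy
    rw [mem_ball_zero_iff] at hy
    by_cases hy0 : y = 0
    · exact Or.inl (Or.inl hy0)
    have hy' : 0 < ‖y‖ := norm_pos_iff.2 hy0
    have h : w ‖x‖ ≤ w ‖y‖ := hw hy' hx' hy.le
    rw [← hv, ← hv] at h
    rcases h.lt_or_eq with h | h
    · exact Or.inr h
    · exact Or.inl (Or.inr h.symm)
  have h3 : volume {y : ℂ | v x < v y} = volume (ball (0 : ℂ) ‖x‖) := by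
    refine le_antisymm (measure_mono h1) ?_
    calc volume (ball (0 : ℂ) ‖x‖)
        ≤ volume ((({0} : Set ℂ) ∪ {y : ℂ | v y = v x}) ∪ {y : ℂ | v x < v y}) := measure_mono h2
      _ ≤ volume (({0} : Set ℂ) ∪ {y : ℂ | v y = v x}) + volume {y : ℂ | v x < v y} :=
          measure_union_le _ _
      _ ≤ (volume ({0} : Set ℂ) + volume {y : ℂ | v y = v x}) + volume {y : ℂ | v x < v y} :=
          add_le_add (measure_union_le _ _) le_rfl
      _ = volume {y : ℂ | v x < v y} := by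
          rw [h0]
          simp
  unfold ar
  rw [h3, Complex.volume_ball, ENNReal.toReal_mul, ENNReal.toReal_pow,
    ENNReal.toReal_ofReal hx'.le]
  simp [mul_comm]

theorem M1V_ar_meas (v : ℂ → ℝ) : Measurable (ar v) := by
  have h : Antitone (fun s : ℝ => volume {x : ℂ | s < v x}) := by
    intro s t hst
    exact measure_mono fun x hx => lt_of_le_of_lt hst hx
  exact h.measurable.ennreal_toReal

/-- `s ar v s` is integrable -/
theorem M1V_int (v : ℂ → ℝ) (hm : Measurable v) (h0 : ∀ x, 0 ≤ v x) (h2 : MemLp v 2 volume) :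
    IntegrableOn (fun s => s * ar v s) (Ioi 0) := by
  have hk := lintegral_comp_eq_lintegral_meas_lt_mul (volume : Measure ℂ) (f := v)
    (g := fun t => t) (Eventually.of_forall h0) hm.aemeasurable
    (fun t _ => continuous_id.intervalIntegrable _ _)
    ((ae_restrict_mem measurableSet_Ioi).mono fun t ht => (le_of_lt ht))
  have hfin : ∫⁻ x, ENNReal.ofReal (∫ t in (0 : ℝ)..(v x), t) < ⊤ := by
    have h3 : Integrable (fun x => v x ^ 2) := h2.integrable_sq
    have h4 : Integrable (fun x => v x ^ 2 / 2) := h3.div_const 2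
    have h5 : ∀ x, ∫ t in (0 : ℝ)..(v x), t = v x ^ 2 / 2 := by
      intro x
      rw [integral_id]
      ring
    simp only [h5]
    exact h4.lintegral_lt_top
  rw [hk] at hfin
  refine ⟨(measurable_id.mul (M1V_ar_meas v)).aestronglyMeasurable, ?_⟩
  refine lt_of_le_of_lt ?_ hfin
  refine setLIntegral_mono_ae' measurableSet_Ioi (Eventually.of_forall fun s hs => ?_)
  have hs0 : (0 : ℝ) < s := hs
  have h6 : 0 ≤ s * ar v s := mul_nonneg hs0.le ENNReal.toReal_nonneg
  rw [Real.enorm_eq_ofReal h6, ENNReal.ofReal_mul hs0.le, mul_comm]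
  exact mul_le_mul_left ENNReal.ofReal_toReal_le _

/-- the density of M2V -/
def M1V_D (v : ℂ → ℝ) (G : Fin 2 → ℂ → ℝ) (x : ℂ) : ℝ := v x * (‖x‖ / 2) * gn G x

theorem M1V_gn_meas (G : Fin 2 → ℂ → ℝ) (hG : ∀ i, Measurable (G i)) : Measurable (gn G) :=
  (((hG 0).pow_const 2).add ((hG 1).pow_const 2)).sqrt

theorem M1V_D_meas (v : ℂ → ℝ) (hm : Measurable v) (G : Fin 2 → ℂ → ℝ)
    (hG : ∀ i, Measurable (G i)) : Measurable (M1V_D v G) :=
  (hm.mul (measurable_norm.div_const 2)).mul (M1V_gn_meas G hG)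

theorem M1V_D_nonneg (v : ℂ → ℝ) (h0 : ∀ x, 0 ≤ v x) (G : Fin 2 → ℂ → ℝ) (x : ℂ) :
    0 ≤ M1V_D v G x :=
  mul_nonneg (mul_nonneg (h0 x) (by positivity)) (Real.sqrt_nonneg _)

theorem M1V_gn_memLp (G : Fin 2 → ℂ → ℝ) (hG : ∀ i, Measurable (G i))
    (h2 : ∀ i, MemLp (G i) 2 volume) : MemLp (gn G) 2 volume := by
  have h3 : MemLp (fun x => ‖G 0 x‖ + ‖G 1 x‖) 2 volume := (h2 0).norm.add (h2 1).norm
  refine h3.mono (M1V_gn_meas G hG).aestronglyMeasurable (Eventually.of_forall fun x => ?_)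
  have h4 : 0 ≤ ‖G 0 x‖ + ‖G 1 x‖ := by positivity
  have h6 : 0 ≤ gn G x := Real.sqrt_nonneg _
  rw [Real.norm_eq_abs, Real.norm_eq_abs, abs_of_nonneg h4, abs_of_nonneg h6]
  unfold gn
  rw [Real.sqrt_le_left h4]
  rw [Real.norm_eq_abs, Real.norm_eq_abs]
  have h5 := mul_nonneg (abs_nonneg (G 0 x)) (abs_nonneg (G 1 x))
  nlinarith [sq_abs (G 0 x), sq_abs (G 1 x)]

theorem M1V_D_int (R : ℝ) (v : ℂ → ℝ) (hN : Nc R v) (G : Fin 2 → ℂ → ℝ)
    (hG : ∀ i, Measurable (G i)) (hv2 : MemLp v 2 volume) (h2 : ∀ i, MemLp (G i) 2 volume) :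
    Integrable (M1V_D v G) := by
  have h1 : Integrable (fun x => v x * gn G x) :=
    hv2.integrable_mul (M1V_gn_memLp G hG h2)
  have h3 : Integrable (fun x => |R| / 2 * (v x * gn G x)) := h1.const_mul _
  refine h3.mono (M1V_D_meas v hN.m G hG).aestronglyMeasurable (Eventually.of_forall fun x => ?_)
  have h4 : 0 ≤ gn G x := Real.sqrt_nonneg _
  have h5 : 0 ≤ |R| / 2 * (v x * gn G x) :=
    mul_nonneg (by positivity) (mul_nonneg (hN.nn x) h4)
  rw [Real.norm_eq_abs, Real.norm_eq_abs, abs_of_nonneg h5,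
    abs_of_nonneg (M1V_D_nonneg v hN.nn G x)]
  unfold M1V_D
  by_cases hx : R ≤ ‖x‖
  · rw [hN.z x hx]
    simp
  · rw [not_le] at hx
    have h6 : ‖x‖ ≤ |R| := hx.le.trans (le_abs_self R)
    calc v x * (‖x‖ / 2) * gn G x = ‖x‖ / 2 * (v x * gn G x) := by ring
      _ ≤ |R| / 2 * (v x * gn G x) := by
          apply mul_le_mul_of_nonneg_right _ (mul_nonneg (hN.nn x) h4)
          linarith

/-- M2V as an equality of measures -/
theorem M1V_meas (h_M2V : T_M2V) (R : ℝ) (v : ℂ → ℝ) (G : Fin 2 → ℂ → ℝ) (w : ℝ → ℝ)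
    (h1 : H1 e2 (ball 0 R) v G) (hN : Nc R v) (hG : ∀ i, Measurable (G i))
    (hv : ∀ x, v x = w ‖x‖) (hw : AntitoneOn w (Ioi 0)) :
    (volume.withDensity (fun x => ENNReal.ofReal (M1V_D v G x))).map v =
      (volume.restrict (Ioi (0 : ℝ))).withDensity (fun s => ENNReal.ofReal (s * ar v s)) := by
  have hDi := M1V_D_int R v hN G hG h1.1 h1.2.1
  have hAi := M1V_int v hN.m hN.nn h1.1
  refine Measure.ext fun S hS => ?_
  have hvS : MeasurableSet (v ⁻¹' S) := hN.m hS
  rw [Measure.map_apply hN.m hS, withDensity_apply _ hvS, withDensity_apply _ hS]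
  have hind : Measurable (S.indicator (fun _ => (1 : ℝ))) := measurable_const.indicator hS
  have hk := h_M2V R v G w (S.indicator (fun _ => (1 : ℝ))) 1 h1 hN hG hv hw hind (by
    intro s
    by_cases hs : s ∈ S
    · simp [hs]
    · simp [hs])
  have e1 : ∫ x, S.indicator (fun _ => (1 : ℝ)) (v x) * (v x * (‖x‖ / 2) * gn G x) =
      ∫ x in v ⁻¹' S, M1V_D v G x := by
    rw [← integral_indicator hvS]
    refine integral_congr_ae (Eventually.of_forall fun x => ?_)
    by_cases hs : v x ∈ S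
    · have hs' : x ∈ v ⁻¹' S := hs
      simp [hs, hs', M1V_D]
    · have hs' : x ∉ v ⁻¹' S := hs
      simp [hs, hs']
  have e2' : ∫ s in Ioi (0 : ℝ), S.indicator (fun _ => (1 : ℝ)) s * (s * ar v s) =
      ∫ s in S, s * ar v s ∂(volume.restrict (Ioi (0 : ℝ))) := by
    rw [← integral_indicator hS]
    refine integral_congr_ae (Eventually.of_forall fun s => ?_)
    by_cases hs : s ∈ S
    · simp [hs]
    · simp [hs]
  rw [e1, e2'] at hk
  rw [← ofReal_integral_eq_lintegral_ofReal hDi.integrableOn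
      (Eventually.of_forall fun x => M1V_D_nonneg v hN.nn G x), hk,
    ofReal_integral_eq_lintegral_ofReal]
  · exact Integrable.mono_measure hAi Measure.restrict_le_self
  · refine ae_restrict_of_ae ?_
    filter_upwards [ae_restrict_mem measurableSet_Ioi] with s hs
    exact mul_nonneg (le_of_lt hs) ENNReal.toReal_nonneg

theorem p_M1V (h_M2V : T_M2V) (h_NUL : T_NUL) : T_M1V := by
  intro R v G w η h1 hN hG hv hw hη
  have hmeas := M1V_meas h_M2V R v G w h1 hN hG hv hw
  have hDm := M1V_D_meas v hN.m G hG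
  have harm := M1V_ar_meas v
  -- the test function
  have hcm : Measurable (fun s : ℝ => 2 * Real.sqrt Real.pi / (s * Real.sqrt (ar v s))) :=
    measurable_const.div (measurable_id.mul harm.sqrt)
  have hψm : Measurable (fun s : ℝ =>
      η s * ENNReal.ofReal (2 * Real.sqrt Real.pi / (s * Real.sqrt (ar v s)))) :=
    hη.mul hcm.ennreal_ofReal
  have hkey : ∫⁻ s, η s * ENNReal.ofReal (2 * Real.sqrt Real.pi / (s * Real.sqrt (ar v s)))
      ∂((volume.withDensity (fun x => ENNReal.ofReal (M1V_D v G x))).map v) =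
      ∫⁻ s, η s * ENNReal.ofReal (2 * Real.sqrt Real.pi / (s * Real.sqrt (ar v s)))
      ∂((volume.restrict (Ioi (0 : ℝ))).withDensity (fun s => ENNReal.ofReal (s * ar v s))) := by
    rw [hmeas]
  have hψm' : Measurable (fun x : ℂ =>
      η (v x) * ENNReal.ofReal (2 * Real.sqrt Real.pi / (v x * Real.sqrt (ar v (v x))))) :=
    hψm.comp hN.m
  have hAm : Measurable (fun s : ℝ => ENNReal.ofReal (s * ar v s)) :=
    (measurable_id.mul harm).ennreal_ofReal
  rw [lintegral_map hψm hN.m, lintegral_withDensity_eq_lintegral_mul _ hDm.ennreal_ofReal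
      hψm', lintegral_withDensity_eq_lintegral_mul _ hAm hψm] at hkey
  -- right side
  have eR : ∫⁻ s in Ioi (0 : ℝ), ((fun s => ENNReal.ofReal (s * ar v s)) * fun s =>
      η s * ENNReal.ofReal (2 * Real.sqrt Real.pi / (s * Real.sqrt (ar v s)))) s =
      ∫⁻ s in Ioi (0 : ℝ), η s * ENNReal.ofReal (2 * Real.sqrt (Real.pi * ar v s)) := by
    refine setLIntegral_congr_fun measurableSet_Ioi fun s hs => ?_
    have hs0 : (0 : ℝ) < s := hs
    have ha : 0 ≤ ar v s := ENNReal.toReal_nonneg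
    simp only [Pi.mul_apply]
    rw [mul_left_comm, ← ENNReal.ofReal_mul (mul_nonneg hs0.le ha)]
    congr 2
    rw [Real.sqrt_mul Real.pi_pos.le]
    rcases ha.eq_or_lt with h | h
    · rw [← h]
      simp
    · have hq : 0 < Real.sqrt (ar v s) := Real.sqrt_pos.2 h
      have hq2 : Real.sqrt (ar v s) * Real.sqrt (ar v s) = ar v s := Real.mul_self_sqrt ha
      field_simp
      rw [pow_two, hq2]
  rw [eR] at hkey
  rw [← hkey, ← lintegral_indicator (measurableSet_lt measurable_const hN.m)]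
  -- plateaus
  have hcount : Set.Countable {s : ℝ | 0 < volume {y : ℂ | v y = s}} :=
    Measure.countable_meas_level_set_pos hN.m
  have hnull : volume {s : ℝ | 0 < volume {y : ℂ | v y = s}} = 0 := hcount.measure_zero _
  have hG0 : ∀ i, ∀ᵐ x, v x ∈ {s : ℝ | 0 < volume {y : ℂ | v y = s}} → G i x = 0 :=
    fun i => h_NUL ℂ (Fin 2) e2 (ball 0 R) v G _ isOpen_ball h1 hnull i
  have hne : ∀ᵐ x : ℂ, x ≠ 0 := by
    have := (measure_singleton (0 : ℂ) : volume ({0} : Set ℂ) = 0)
    exact measure_eq_zero_iff_ae_notMem.1 this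
  refine lintegral_congr_ae ?_
  filter_upwards [hG0 0, hG0 1, hne] with x hx0 hx1 hx
  simp only [Pi.mul_apply]
  by_cases hpos : 0 < v x
  · rw [Set.indicator_of_mem (show x ∈ {a | 0 < v a} from hpos), mul_left_comm,
      ← ENNReal.ofReal_mul (M1V_D_nonneg v hN.nn G x)]
    congr 2
    by_cases hg : gn G x = 0
    · simp [M1V_D, hg]
    have h0 : volume {y : ℂ | v y = v x} = 0 := by
      by_contra hne0
      have hp : v x ∈ {s : ℝ | 0 < volume {y : ℂ | v y = s}} := pos_iff_ne_zero.2 hne0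
      apply hg
      simp [gn, hx0 hp, hx1 hp]
    have hn : 0 < ‖x‖ := norm_pos_iff.2 hx
    rw [M1V_area v w hv hw x hx h0, Real.sqrt_mul Real.pi_pos.le, Real.sqrt_sq hn.le]
    have hpi : 0 < Real.sqrt Real.pi := Real.sqrt_pos.2 Real.pi_pos
    unfold M1V_D
    field_simp
  · rw [Set.indicator_of_notMem (show x ∉ {a | 0 < v a} from hpos)]
    have hz : v x = 0 := le_antisymm (not_lt.1 hpos) (hN.nn x)
    have hD : M1V_D v G x = 0 := by simp [M1V_D, hz]
    rw [hD]
    simp

end MGS
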