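import Pool.Agent.MGS.TD

/-!
# MGS: RR1, basic facts on the decreasing rearrangement in the plane (helper68)
-/

set_option autoImplicit false

open MeasureTheory Filter Topology Metric Set
open scoped ENNReal NNReal ContDiff

noncomputable section

namespace MGS

namespace RR1_

variable {R : ℝ} {g : ℂ → ℝ}

theorem vol_ball (r : ℝ) (hr : 0 ≤ r) :
    volume (ball (0 : ℂ) r) = ENNReal.ofReal (Real.pi * r ^ 2) := by
  rw [Complex.volume_ball]
  rw [ENNReal.ofReal_mul Real.pi_pos.le, ENNReal.ofReal_pow hr, mul_comm]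
  congr 1
  rw [← NNReal.coe_real_pi, ENNReal.ofReal_coe_nnreal]

theorem sub_ball (h : Nc R g) {s r : ℝ} (hs : 0 ≤ s) (hr : R ≤ r) :
    {x : ℂ | s < g x} ⊆ ball (0 : ℂ) r := by
  intro x hx
  rw [mem_ball_zero_iff]
  by_contra hc
  have h1 := h.z x (hr.trans (not_lt.1 hc))
  have h2 : s < g x := hx
  linarith

theorem vol_lt_top (h : Nc R g) {s : ℝ} (hs : 0 ≤ s) : volume {x : ℂ | s < g x} < ⊤ :=
  (measure_mono (sub_ball h hs le_rfl)).trans_lt measure_ball_lt_top

theorem ar_nonneg (s : ℝ) : 0 ≤ ar g s := ENNReal.toReal_nonneg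

theorem ofReal_ar (h : Nc R g) {s : ℝ} (hs : 0 ≤ s) :
    ENNReal.ofReal (ar g s) = volume {x : ℂ | s < g x} :=
  ENNReal.ofReal_toReal (vol_lt_top h hs).ne

theorem ar_anti (h : Nc R g) {s s' : ℝ} (hs : 0 ≤ s) (hss : s ≤ s') : ar g s' ≤ ar g s := by
  unfold ar
  refine ENNReal.toReal_mono (vol_lt_top h hs).ne (measure_mono ?_)
  intro x hx
  exact lt_of_le_of_lt hss hx

theorem ar_le (h : Nc R g) {s r : ℝ} (hs : 0 ≤ s) (hr : R ≤ r) (hr0 : 0 ≤ r) :
    ar g s ≤ Real.pi * r ^ 2 := by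
  have h1 : volume {x : ℂ | s < g x} ≤ ENNReal.ofReal (Real.pi * r ^ 2) := by
    rw [← vol_ball r hr0]
    exact measure_mono (sub_ball h hs hr)
  exact ENNReal.toReal_le_of_le_ofReal (by positivity) h1

theorem right_cont (h : Nc R g) {s c : ℝ} (hs : 0 ≤ s) (hc : 0 ≤ c) (hlt : c < ar g s) :
    ∃ s', s < s' ∧ c < ar g s' := by
  have hU : {x : ℂ | s < g x} = ⋃ n : ℕ, {x : ℂ | s + 1 / ((n : ℝ) + 1) < g x} := by
    ext x
    simp only [mem_setOf_eq, mem_iUnion]
    constructor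
    · intro hx
      obtain ⟨n, hn⟩ := exists_nat_one_div_lt (sub_pos.2 hx)
      exact ⟨n, by linarith⟩
    · rintro ⟨n, hn⟩
      have : 0 < 1 / ((n : ℝ) + 1) := by positivity
      linarith
  have hmono : Monotone fun n : ℕ => {x : ℂ | s + 1 / ((n : ℝ) + 1) < g x} := by
    intro m n hmn x hx
    have h1 : 1 / ((n : ℝ) + 1) ≤ 1 / ((m : ℝ) + 1) := by
      apply one_div_le_one_div_of_le (by positivity)
      have : (m : ℝ) ≤ n := by exact_mod_cast hmn
      linarith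
    have h2 : s + 1 / ((m : ℝ) + 1) < g x := hx
    show s + 1 / ((n : ℝ) + 1) < g x
    linarith
  have ht := tendsto_measure_iUnion_atTop (μ := (volume : Measure ℂ)) hmono
  rw [← hU] at ht
  have h3 : ENNReal.ofReal c < volume {x : ℂ | s < g x} := by
    rw [← ofReal_ar h hs]
    exact (ENNReal.ofReal_lt_ofReal_iff (hc.trans_lt hlt)).2 hlt
  obtain ⟨n, hn⟩ := (ht.eventually (lt_mem_nhds h3)).exists
  have hp : 0 < 1 / ((n : ℝ) + 1) := by positivity
  refine ⟨s + 1 / ((n : ℝ) + 1), by linarith, ?_⟩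
  have hn' : ENNReal.ofReal c < volume {x : ℂ | s + 1 / ((n : ℝ) + 1) < g x} := hn
  rw [← ofReal_ar h (by linarith)] at hn'
  exact (ENNReal.ofReal_lt_ofReal_iff_of_nonneg hc).1 hn'

theorem tend_zero (h : Nc R g) : Tendsto (fun n : ℕ => volume {x : ℂ | (n : ℝ) < g x}) atTop
    (𝓝 0) := by
  have hI : ⋂ n : ℕ, {x : ℂ | (n : ℝ) < g x} = ∅ := by
    rw [eq_empty_iff_forall_notMem]
    intro x hx
    rw [mem_iInter] at hx
    obtain ⟨n, hn⟩ := exists_nat_gt (g x)
    have h1 : (n : ℝ) < g x := hx n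
    linarith
  have hanti : Antitone fun n : ℕ => {x : ℂ | (n : ℝ) < g x} := by
    intro m n hmn x hx
    have h1 : (m : ℝ) ≤ n := by exact_mod_cast hmn
    exact lt_of_le_of_lt h1 hx
  have ht := tendsto_measure_iInter_atTop (μ := (volume : Measure ℂ))
    (s := fun n : ℕ => {x : ℂ | (n : ℝ) < g x})
    (fun n => (measurableSet_lt measurable_const h.m).nullMeasurableSet) hanti
    ⟨0, (vol_lt_top h (s := ((0 : ℕ) : ℝ)) (by simp)).ne⟩
  rw [hI, measure_empty] at ht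
  exact ht

/-- the levels whose superlevel sets are large -/
def Sg (g : ℂ → ℝ) (t : ℝ) : Set ℝ := {s : ℝ | 0 ≤ s ∧ Real.pi * t ^ 2 < ar g s}

theorem rr_eq (t : ℝ) : rr g t = sSup (Sg g t) := rfl

theorem bdd (h : Nc R g) {t : ℝ} (ht : 0 < t) : BddAbove (Sg g t) := by
  have h1 : 0 < ENNReal.ofReal (Real.pi * t ^ 2) := by
    rw [ENNReal.ofReal_pos]
    positivity
  obtain ⟨n, hn⟩ := ((tend_zero h).eventually (gt_mem_nhds h1)).exists
  refine ⟨n, ?_⟩
  rintro s ⟨hs, hs2⟩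
  by_contra hc
  have h2 := ar_anti h (s := (n : ℝ)) (s' := s) (by positivity) (not_le.1 hc).le
  have h3 : ENNReal.ofReal (ar g n) < ENNReal.ofReal (Real.pi * t ^ 2) := by
    rw [ofReal_ar h (by positivity)]
    exact hn
  have h4 : ar g n < Real.pi * t ^ 2 := (ENNReal.ofReal_lt_ofReal_iff (by positivity)).1 h3
  linarith

theorem rr_nonneg (t : ℝ) : 0 ≤ rr g t := Real.sSup_nonneg fun _ hs => hs.1

theorem lt_rr_iff (h : Nc R g) {s t : ℝ} (hs : 0 ≤ s) (ht : 0 < t) :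
    s < rr g t ↔ Real.pi * t ^ 2 < ar g s := by
  constructor
  · intro hlt
    rcases (Sg g t).eq_empty_or_nonempty with he | hne
    · rw [rr_eq, he, Real.sSup_empty] at hlt
      linarith
    · rw [rr_eq] at hlt
      obtain ⟨s', hs', hlt'⟩ := exists_lt_of_lt_csSup hne hlt
      exact hs'.2.trans_le (ar_anti h hs hlt'.le)
  · intro hlt
    obtain ⟨s', h1, h2⟩ := right_cont h hs (by positivity) hlt
    have h3 : s' ∈ Sg g t := ⟨by linarith, h2⟩
    exact h1.trans_le (le_csSup (bdd h ht) h3)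

theorem anti (h : Nc R g) : AntitoneOn (rr g) (Ioi 0) := by
  intro t ht t' ht' htt
  have ht0 : 0 < t := ht
  have ht0' : 0 < t' := ht'
  by_contra hc
  have h1 := (lt_rr_iff h (rr_nonneg t) ht0').1 (not_le.1 hc)
  have h2 : Real.pi * t ^ 2 ≤ Real.pi * t' ^ 2 := by
    apply mul_le_mul_of_nonneg_left _ Real.pi_pos.le
    exact pow_le_pow_left₀ ht0.le htt 2
  have h3 := (lt_rr_iff h (rr_nonneg t) ht0).2 (h2.trans_lt h1)
  exact lt_irrefl _ h3

theorem disc (c : ℝ) : {x : ℂ | Real.pi * ‖x‖ ^ 2 < c} = ball (0 : ℂ) (Real.sqrt (c / Real.pi)) := by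
  ext x
  rw [mem_ball_zero_iff, mem_setOf_eq, Real.lt_sqrt (norm_nonneg x), lt_div_iff₀ Real.pi_pos,
    mul_comm]

theorem vol_disc {c : ℝ} (hc : 0 ≤ c) :
    volume {x : ℂ | Real.pi * ‖x‖ ^ 2 < c} = ENNReal.ofReal c := by
  rw [disc, vol_ball _ (Real.sqrt_nonneg _), Real.sq_sqrt (by positivity)]
  congr 1
  field_simp

theorem level (h : Nc R g) {s : ℝ} (hs : 0 ≤ s) {x : ℂ} (hx : x ≠ 0) :
    s < rr g ‖x‖ ↔ Real.pi * ‖x‖ ^ 2 < ar g s := lt_rr_iff h hs (norm_pos_iff.2 hx)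

theorem ae_ne : ∀ᵐ x : ℂ, x ≠ 0 := by
  rw [ae_iff]
  simp

theorem vol_eq (h : Nc R g) {s : ℝ} (hs : 0 ≤ s) :
    volume {x : ℂ | s < rr g ‖x‖} = volume {x : ℂ | s < g x} := by
  rw [← ofReal_ar h hs, ← vol_disc (ar_nonneg s)]
  refine measure_congr ?_
  filter_upwards [ae_ne] with x hx
  exact propext (level h hs hx)

theorem meas (h : Nc R g) : Measurable fun x : ℂ => rr g ‖x‖ := by
  refine measurable_of_Ioi fun s => ?_
  rcases lt_or_ge s 0 with hs | hs
  · have : (fun x : ℂ => rr g ‖x‖) ⁻¹' Ioi s = univ := by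
      ext x
      simp only [mem_preimage, mem_Ioi, mem_univ, iff_true]
      exact hs.trans_le (rr_nonneg _)
    rw [this]
    exact MeasurableSet.univ
  · have : (fun x : ℂ => rr g ‖x‖) ⁻¹' Ioi s =
        ({x : ℂ | Real.pi * ‖x‖ ^ 2 < ar g s} \ {0}) ∪ ({x : ℂ | s < rr g ‖x‖} ∩ {0}) := by
      ext x
      by_cases hx : x = 0
      · subst hx
        simp
      · simp only [mem_preimage, mem_Ioi, mem_union, mem_diff, mem_setOf_eq, mem_singleton_iff, hx,
          not_false_eq_true, and_true, mem_inter_iff, and_false, or_false]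
        exact level h hs hx
    rw [this, disc]
    refine (measurableSet_ball.diff (measurableSet_singleton _)).union ?_
    exact ((Set.finite_singleton (0 : ℂ)).subset inter_subset_right).measurableSet

theorem vanish (h : Nc R g) {t : ℝ} (ht : 0 ≤ t) (hR : R ≤ t) : rr g t = 0 := by
  have : Sg g t = ∅ := by
    rw [eq_empty_iff_forall_notMem]
    rintro s ⟨hs, hs2⟩
    have := ar_le h hs hR ht
    linarith
  rw [rr_eq, this, Real.sSup_empty]

end RR1_

open RR1_ in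
theorem p_RR1 : T_RR1 := by
  intro R g h
  refine ⟨fun s t hs ht => lt_rr_iff h hs ht, anti h, rr_nonneg, fun s hs => vol_eq h hs, ?_⟩
  exact ⟨meas h, fun x => rr_nonneg _, fun x hx => vanish h (norm_nonneg x) hx⟩

end MGS
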