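import Pool.Agent.MGS.TF
import Pool.Agent.MGS.P_RR1
import Pool.Agent.MGS.P_M1V

/-!
# MGS: LVL, the integral of the reciprocal slope over the levels (helper11)
-/

set_option autoImplicit false

open MeasureTheory Filter Topology Metric Set
open scoped ENNReal NNReal ContDiff

noncomputable section

namespace MGS

namespace LVL_

variable {R : ℝ} {g : ℂ → ℝ}

lemma lt_rad {t s : ℝ} (ht : 0 ≤ t) : t < rad g s ↔ Real.pi * t ^ 2 < ar g s := by
  unfold rad
  rw [Real.lt_sqrt ht, lt_div_iff₀ Real.pi_pos, mul_comm]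

lemma rad_nonneg (s : ℝ) : 0 ≤ rad g s := Real.sqrt_nonneg _

lemma sqrt_ar (s : ℝ) : Real.sqrt (Real.pi * ar g s) = Real.pi * rad g s := by
  unfold rad
  have h : Real.pi * ar g s = Real.pi ^ 2 * (ar g s / Real.pi) := by
    field_simp
  rw [h, Real.sqrt_mul (by positivity), Real.sqrt_sq Real.pi_pos.le]

lemma rad_meas (g : ℂ → ℝ) : Measurable (rad g) := by
  unfold rad
  exact ((M1V_ar_meas g).div_const _).sqrt

lemma etn_meas (n : ℕ) (g : ℂ → ℝ) (T : ℝ → ℝ) (hT : Measurable T) : Measurable (etn n g T) := by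
  have h1 : Measurable fun s => T (rad g s) := hT.comp (rad_meas g)
  unfold etn
  refine Measurable.ite ?_ (measurable_const.div h1) measurable_const
  exact (measurableSet_lt measurable_const measurable_id).inter
    (measurableSet_le measurable_const h1)

lemma etn_nonneg (n : ℕ) (g : ℂ → ℝ) (T : ℝ → ℝ) (hT : ∀ r, 0 ≤ T r) (s : ℝ) :
    0 ≤ etn n g T s := by
  unfold etn
  split_ifs
  · exact one_div_nonneg.2 (hT _)
  · exact le_rfl

/-- the set of the radii in `(r, R₀)` with slope at least `1/(n+1)` -/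
def A (n : ℕ) (R₀ : ℝ) (T : ℝ → ℝ) (r : ℝ) : Set ℝ :=
  {t : ℝ | r < t ∧ t < R₀ ∧ 1 / ((n : ℝ) + 1) ≤ T t}

lemma A_meas (n : ℕ) (R₀ : ℝ) (T : ℝ → ℝ) (r : ℝ) (hT : Measurable T) :
    MeasurableSet (A n R₀ T r) :=
  (measurableSet_lt measurable_const measurable_id).inter
    ((measurableSet_lt measurable_id measurable_const).inter
      (measurableSet_le measurable_const hT))

/-- the radial function of the right hand side -/
def ff (n : ℕ) (R₀ : ℝ) (T : ℝ → ℝ) (r : ℝ) (t : ℝ) : ℝ :=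
  (A n R₀ T r).indicator (fun t => 1 / (2 * Real.pi * t)) t

lemma ff_meas (n : ℕ) (R₀ : ℝ) (T : ℝ → ℝ) (r : ℝ) (hT : Measurable T) :
    Measurable (ff n R₀ T r) := by
  unfold ff
  refine Measurable.indicator ?_ (A_meas n R₀ T r hT)
  exact measurable_const.div (measurable_const.mul measurable_id)

lemma polar (n : ℕ) (R₀ : ℝ) (T : ℝ → ℝ) (r : ℝ) (hT : Measurable T) (hr : 0 ≤ r) :
    ∫ x : ℂ, ff n R₀ T r ‖x‖ = (volume (A n R₀ T r)).toReal := by
  rw [integral_fun_norm_addHaar (volume : Measure ℂ) (ff n R₀ T r)]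
  have h1 : ∫ y in Ioi (0 : ℝ), y ^ (Module.finrank ℝ ℂ - 1) • ff n R₀ T r y =
      (1 / (2 * Real.pi)) * (volume (A n R₀ T r)).toReal := by
    have h2 : ∫ y in Ioi (0 : ℝ), y ^ (Module.finrank ℝ ℂ - 1) • ff n R₀ T r y =
        ∫ y in Ioi (0 : ℝ), (A n R₀ T r).indicator (fun _ => 1 / (2 * Real.pi)) y := by
      refine setIntegral_congr_fun measurableSet_Ioi fun y hy => ?_
      have hy' : (0 : ℝ) < y := hy
      have h21 : (2 : ℕ) - 1 = 1 := rfl
      simp only [Complex.finrank_real_complex, smul_eq_mul, h21, pow_one]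
      unfold ff
      by_cases hA : y ∈ A n R₀ T r
      · rw [indicator_of_mem hA, indicator_of_mem hA]
        field_simp
      · rw [indicator_of_notMem hA, indicator_of_notMem hA, mul_zero]
    rw [h2, setIntegral_indicator (A_meas n R₀ T r hT)]
    have h3 : Ioi (0 : ℝ) ∩ A n R₀ T r = A n R₀ T r :=
      inter_eq_right.2 fun t ht => lt_of_le_of_lt hr ht.1
    rw [h3, setIntegral_const, smul_eq_mul, mul_comm]
    rfl
  rw [h1]
  have h4 : (volume : Measure ℂ).real (ball 0 1) = Real.pi := by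
    rw [Measure.real, Complex.volume_ball]
    simp
  rw [h4, Complex.finrank_real_complex]
  simp only [nsmul_eq_mul, smul_eq_mul]
  push_cast
  field_simp

end LVL_

open LVL_ in
theorem p_LVL (h_M1V : T_M1V) (h_EQM : T_EQM) (h_RKV : T_RKV) : T_LVL := by
  classical
  intro R g G T hg hH hG hT hT0 hgn hlev n s hs hars
  obtain ⟨hrr1, hanti, hnn, -, hv⟩ := p_RR1 R g hg
  obtain ⟨-, hare, hlv⟩ := h_EQM R g hg
  set v : ℂ → ℝ := fun x => rr g ‖x‖ with hvdef
  set r := rad g s with hr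
  set R₀ := rad g 0 with hR₀
  set η : ℝ → ℝ≥0∞ := fun σ => if 0 < σ ∧ σ < s then
    ENNReal.ofReal (etn n g T σ / (2 * Real.sqrt (Real.pi * ar v σ))) else 0 with hη
  have hηm : Measurable η := by
    refine Measurable.ite ?_ ?_ measurable_const
    · exact (measurableSet_lt measurable_const measurable_id).inter
        (measurableSet_lt measurable_id measurable_const)
    · exact ((etn_meas n g T hT).div
        (measurable_const.mul ((measurable_const.mul (M1V_ar_meas v)).sqrt))).ennreal_ofReal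
  have key := h_M1V R v G (rr g) η hH hv hG (fun x => rfl) hanti hηm
  have hL : ∫⁻ σ in Ioi (0 : ℝ), η σ * ENNReal.ofReal (2 * Real.sqrt (Real.pi * ar v σ)) =
      ∫⁻ σ in Ioo (0 : ℝ) s, ENNReal.ofReal (etn n g T σ) := by
    have h1 : ∫⁻ σ in Ioi (0 : ℝ), η σ * ENNReal.ofReal (2 * Real.sqrt (Real.pi * ar v σ)) =
        ∫⁻ σ in Ioi (0 : ℝ), (Ioo (0 : ℝ) s).indicator
          (fun σ => ENNReal.ofReal (etn n g T σ)) σ := by
      refine setLIntegral_congr_fun measurableSet_Ioi fun σ hσ => ?_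
      have hσ' : (0 : ℝ) < σ := hσ
      by_cases h2 : σ < s
      · have h3 : η σ = ENNReal.ofReal (etn n g T σ / (2 * Real.sqrt (Real.pi * ar v σ))) :=
          if_pos ⟨hσ', h2⟩
        have h4 : 0 < ar v σ := by
          rw [hare σ hσ'.le]
          exact hars.trans_le (RR1_.ar_anti hg hσ'.le h2.le)
        have h5 : 0 < 2 * Real.sqrt (Real.pi * ar v σ) := by positivity
        show η σ * ENNReal.ofReal (2 * Real.sqrt (Real.pi * ar v σ)) = _
        rw [indicator_of_mem (show σ ∈ Ioo (0 : ℝ) s from ⟨hσ', h2⟩), h3,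
          ← ENNReal.ofReal_mul (div_nonneg (etn_nonneg n g T hT0 σ) h5.le),
          div_mul_cancel₀ _ h5.ne']
      · have h3 : η σ = 0 := if_neg fun h => h2 h.2
        show η σ * ENNReal.ofReal (2 * Real.sqrt (Real.pi * ar v σ)) = _
        rw [indicator_of_notMem (show σ ∉ Ioo (0 : ℝ) s from fun h => h2 h.2), h3, zero_mul]
    rw [h1, setLIntegral_indicator measurableSet_Ioo]
    congr 2
    exact inter_eq_left.2 fun t ht => ht.1
  have hsph : ∀ᵐ x : ℂ, ‖x‖ ≠ r := by
    have h1 : volume (sphere (0 : ℂ) r) = 0 := Measure.addHaar_sphere volume 0 r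
    rw [ae_iff]
    refine measure_mono_null ?_ h1
    intro x hx
    rw [mem_sphere_zero_iff_norm]
    by_contra h
    exact hx h
  have hne : ∀ᵐ x : ℂ, v x ≠ s := by
    rw [ae_iff]
    have h1 : {x : ℂ | ¬ v x ≠ s} = {x : ℂ | rr g ‖x‖ = s} := by
      ext x
      simp [hvdef]
    rw [h1, hlv s hs]
    exact hlev s hs
  have hR : ∫⁻ x in {x | 0 < v x}, η (v x) * ENNReal.ofReal (gn G x) =
      ∫⁻ x : ℂ, ENNReal.ofReal (ff n R₀ T r ‖x‖) := by
    rw [← lintegral_indicator (measurableSet_lt measurable_const hv.m)]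
    refine lintegral_congr_ae ?_
    filter_upwards [hsph, hne, hgn, RR1_.ae_ne] with x hx1 hx2 hx3 hx4
    have hx0 : 0 < ‖x‖ := norm_pos_iff.2 hx4
    have hl0 : 0 < v x ↔ ‖x‖ < R₀ := by
      rw [hR₀, lt_rad hx0.le]
      exact hrr1 0 ‖x‖ le_rfl hx0
    have hls : s < v x ↔ ‖x‖ < r := by
      rw [hr, lt_rad hx0.le]
      exact hrr1 s ‖x‖ hs.le hx0
    by_cases h0 : 0 < v x
    · rw [indicator_of_mem (show x ∈ {x | 0 < v x} from h0)]
      rcases lt_or_gt_of_ne hx2 with h1 | h1
      · have h2 : r < ‖x‖ := by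
          have h3 : ¬ ‖x‖ < r := fun h => absurd (hls.2 h) (not_lt.2 h1.le)
          exact lt_of_le_of_ne (not_lt.1 h3) (Ne.symm hx1)
        have h3 : ‖x‖ < R₀ := hl0.1 h0
        have h4 : volume {y : ℂ | rr g ‖y‖ = rr g ‖x‖} = 0 := by
          rw [hlv (rr g ‖x‖) h0]
          exact hlev _ h0
        have h5 : rad g (v x) = ‖x‖ := h_RKV R g hg x hx4 h0 h4
        have h6 : η (v x) = ENNReal.ofReal (etn n g T (v x) /
            (2 * Real.sqrt (Real.pi * ar v (v x)))) := if_pos ⟨h0, h1⟩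
        have h7 : Real.sqrt (Real.pi * ar v (v x)) = Real.pi * ‖x‖ := by
          rw [hare (v x) h0.le, sqrt_ar, h5]
        rw [h6, h7, hx3]
        have h8 : etn n g T (v x) = if 0 < v x ∧ 1 / ((n : ℝ) + 1) ≤ T ‖x‖ then 1 / T ‖x‖
            else 0 := by
          unfold etn
          rw [h5]
        rw [h8]
        by_cases h9 : 1 / ((n : ℝ) + 1) ≤ T ‖x‖
        · rw [if_pos ⟨h0, h9⟩]
          have h10 : 0 < T ‖x‖ := lt_of_lt_of_le (by positivity) h9
          have h11 : ff n R₀ T r ‖x‖ = 1 / (2 * Real.pi * ‖x‖) :=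
            indicator_of_mem (show ‖x‖ ∈ A n R₀ T r from ⟨h2, h3, h9⟩) _
          rw [h11, ← ENNReal.ofReal_mul (by positivity)]
          congr 1
          field_simp
        · rw [if_neg fun h => h9 h.2]
          have h11 : ff n R₀ T r ‖x‖ = 0 :=
            indicator_of_notMem (show ‖x‖ ∉ A n R₀ T r from fun h => h9 h.2.2) _
          rw [h11]
          simp
      · have h6 : η (v x) = 0 := if_neg fun h => absurd h.2 (not_lt.2 h1.le)
        have h11 : ff n R₀ T r ‖x‖ = 0 :=
          indicator_of_notMem (show ‖x‖ ∉ A n R₀ T r from fun h =>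
            absurd (hls.1 h1) (not_lt.2 h.1.le)) _
        rw [h6, h11]
        simp
    · rw [indicator_of_notMem (show x ∉ {x | 0 < v x} from h0)]
      have h11 : ff n R₀ T r ‖x‖ = 0 :=
        indicator_of_notMem (show ‖x‖ ∉ A n R₀ T r from fun h => h0 (hl0.2 h.2.1)) _
      rw [h11]
      simp
  rw [hL, hR] at key
  rw [intervalIntegral.integral_of_le hs.le, integral_Ioc_eq_integral_Ioo,
    integral_eq_lintegral_of_nonneg_ae (Eventually.of_forall fun t => etn_nonneg n g T hT0 t)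
      (etn_meas n g T hT).aestronglyMeasurable, key]
  have hff : ∀ x : ℂ, 0 ≤ ff n R₀ T r ‖x‖ := by
    intro x
    unfold ff
    refine indicator_nonneg (fun t ht => ?_) _
    have h1 : 0 ≤ t := (rad_nonneg s).trans ht.1.le
    positivity
  rw [← integral_eq_lintegral_of_nonneg_ae (Eventually.of_forall hff)
    ((ff_meas n R₀ T r hT).comp measurable_norm).aestronglyMeasurable,
    polar n R₀ T r hT (rad_nonneg s)]
  rfl

end MGS
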