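import Pool.Agent.MGS.TC

/-!
# MGS: target M1 (helper75)

From continuous test functions to measurable weights.
-/

set_option autoImplicit false

open MeasureTheory Filter Topology Metric Set
open scoped ENNReal NNReal ContDiff

noncomputable section

namespace MGS

namespace M1_

theorem meas_gn {F : Fin 2 → ℂ → ℝ} (hF : ∀ i, Measurable (F i)) : Measurable (gn F) := by
  unfold gn
  exact (((hF 0).pow_const 2).add ((hF 1).pow_const 2)).sqrt

theorem gn_nonneg (F : Fin 2 → ℂ → ℝ) (x : ℂ) : 0 ≤ gn F x := Real.sqrt_nonneg _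

theorem gn_le (F : Fin 2 → ℂ → ℝ) (x : ℂ) :
    ENNReal.ofReal (gn F x) ≤ ‖F 0 x‖ₑ + ‖F 1 x‖ₑ := by
  have h1 : gn F x ≤ ‖F 0 x‖ + ‖F 1 x‖ := by
    unfold gn
    rw [Real.sqrt_le_left (by positivity)]
    rw [Real.norm_eq_abs, Real.norm_eq_abs]
    nlinarith [sq_abs (F 0 x), sq_abs (F 1 x), mul_nonneg (abs_nonneg (F 0 x))
      (abs_nonneg (F 1 x))]
  calc ENNReal.ofReal (gn F x) ≤ ENNReal.ofReal (‖F 0 x‖ + ‖F 1 x‖) := ENNReal.ofReal_le_ofReal h1
    _ = ‖F 0 x‖ₑ + ‖F 1 x‖ₑ := by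
      rw [ENNReal.ofReal_add (norm_nonneg _) (norm_nonneg _), ofReal_norm,
        ofReal_norm]

theorem meas_ar (f : ℂ → ℝ) : Measurable (ar f) := by
  unfold ar
  refine Measurable.ennreal_toReal ?_
  refine Antitone.measurable fun s t hst => measure_mono fun x hx => ?_
  exact lt_of_le_of_lt hst hx

theorem vol_ge {f : ℂ → ℝ} (hf : MemLp f 2 volume) {s : ℝ} (hs : 0 < s) :
    volume {x : ℂ | s ≤ f x} < ⊤ := by
  have h := hf.meas_ge_lt_top' (by norm_num) (by norm_num) (ε := ENNReal.ofReal s)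
    (by simpa using hs)
  refine lt_of_le_of_lt (measure_mono fun x hx => ?_) h
  have hx' : s ≤ f x := hx
  change ENNReal.ofReal s ≤ ‖f x‖ₑ
  rw [← ofReal_norm]
  exact ENNReal.ofReal_le_ofReal (hx'.trans (le_abs_self _))

theorem ar_le {f : ℂ → ℝ} (hf : MemLp f 2 volume) {s σ : ℝ} (hs : 0 < s) (h : s ≤ σ) :
    ar f σ ≤ (volume {x : ℂ | s ≤ f x}).toReal := by
  refine ENNReal.toReal_mono (vol_ge hf hs).ne (measure_mono fun x hx => ?_)
  have hx' : σ < f x := hx
  exact h.trans hx'.le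

end M1_

open M1_ in
theorem p_M1 (h_M1C : T_M1C) (h_BOR : T_BOR) : T_M1 := by
  intro G f F η hH mf mF mη
  have mar := meas_ar f
  have hf2 : MemLp f 2 volume := hH.1
  have hF2 : ∀ i, MemLp (F i) 2 volume := hH.2.1
  have mg : Measurable (gn F) := meas_gn mF
  have md1 : Measurable fun s => ENNReal.ofReal (2 * Real.sqrt (Real.pi * ar f s)) :=
    ((mar.const_mul Real.pi).sqrt.const_mul 2).ennreal_ofReal
  have md2 : Measurable fun x => ENNReal.ofReal (gn F x) := mg.ennreal_ofReal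
  let μ : Measure ℝ :=
    volume.withDensity fun s => ENNReal.ofReal (2 * Real.sqrt (Real.pi * ar f s))
  let ν' : Measure ℂ := volume.withDensity fun x => ENNReal.ofReal (gn F x)
  let ν : Measure ℝ := Measure.map f ν'
  -- finiteness
  have hfin : ∀ s t : ℝ, 0 < s → s < t → μ (Icc s t) < ⊤ ∧ ν (Icc s t) < ⊤ := by
    intro s t hs hst
    constructor
    · change volume.withDensity _ (Icc s t) < ⊤
      rw [withDensity_apply _ measurableSet_Icc]
      set K : ℝ := 2 * Real.sqrt (Real.pi * (volume {x : ℂ | s ≤ f x}).toReal)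
      have h1 : ∫⁻ σ in Icc s t, ENNReal.ofReal (2 * Real.sqrt (Real.pi * ar f σ)) ≤
          ∫⁻ _ in Icc s t, ENNReal.ofReal K := by
        refine setLIntegral_mono measurable_const fun σ hσ => ?_
        refine ENNReal.ofReal_le_ofReal ?_
        refine mul_le_mul_of_nonneg_left (Real.sqrt_le_sqrt ?_) (by norm_num)
        exact mul_le_mul_of_nonneg_left (ar_le hf2 hs hσ.1) Real.pi_pos.le
      refine lt_of_le_of_lt h1 ?_
      rw [lintegral_const]
      refine ENNReal.mul_lt_top ENNReal.ofReal_lt_top ?_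
      rw [Measure.restrict_apply_univ]
      exact measure_Icc_lt_top
    · change Measure.map f ν' (Icc s t) < ⊤
      rw [Measure.map_apply mf measurableSet_Icc]
      change volume.withDensity _ (f ⁻¹' Icc s t) < ⊤
      rw [withDensity_apply _ (mf measurableSet_Icc)]
      have hsub : f ⁻¹' Icc s t ⊆ {x | s ≤ f x} := fun x hx => hx.1
      have hv : volume (f ⁻¹' Icc s t) < ⊤ := lt_of_le_of_lt (measure_mono hsub) (vol_ge hf2 hs)
      have hI : ∀ i, ∫⁻ x in f ⁻¹' Icc s t, ‖F i x‖ₑ < ⊤ := by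
        intro i
        have hfm : IsFiniteMeasure (volume.restrict (f ⁻¹' Icc s t)) :=
          ⟨by rw [Measure.restrict_apply_univ]; exact hv⟩
        have h2 : Integrable (F i) (volume.restrict (f ⁻¹' Icc s t)) :=
          ((hF2 i).restrict _).integrable (by norm_num)
        exact h2.2
      calc ∫⁻ x in f ⁻¹' Icc s t, ENNReal.ofReal (gn F x)
          ≤ ∫⁻ x in f ⁻¹' Icc s t, (‖F 0 x‖ₑ + ‖F 1 x‖ₑ) := lintegral_mono fun x => gn_le F x
        _ = (∫⁻ x in f ⁻¹' Icc s t, ‖F 0 x‖ₑ) + ∫⁻ x in f ⁻¹' Icc s t, ‖F 1 x‖ₑ :=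
            lintegral_add_left (mF 0).enorm _
        _ < ⊤ := ENNReal.add_lt_top.2 ⟨hI 0, hI 1⟩
  -- comparison on continuous functions
  have hcmp : ∀ φ : ℝ → ℝ, Continuous φ → HasCompactSupport φ → tsupport φ ⊆ Ioi 0 →
      (∀ s, 0 ≤ φ s) → ∫ s, φ s ∂μ ≤ ∫ s, φ s ∂ν := by
    intro φ hφ hc hsub hnn
    have e1 : ∫ s, φ s ∂μ = ∫ s, φ s * (2 * Real.sqrt (Real.pi * ar f s)) := by
      change ∫ s, φ s ∂(volume.withDensity _) = _
      rw [integral_withDensity_eq_integral_toReal_smul md1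
        (Eventually.of_forall fun s => ENNReal.ofReal_lt_top)]
      refine integral_congr_ae (Eventually.of_forall fun s => ?_)
      change (ENNReal.ofReal (2 * Real.sqrt (Real.pi * ar f s))).toReal • φ s = _
      rw [ENNReal.toReal_ofReal (by positivity), smul_eq_mul, mul_comm]
    have e2 : ∫ s, φ s ∂ν = ∫ x, φ (f x) * gn F x := by
      change ∫ s, φ s ∂(Measure.map f ν') = _
      rw [integral_map mf.aemeasurable hφ.aestronglyMeasurable]
      change ∫ x, φ (f x) ∂(volume.withDensity _) = _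
      rw [integral_withDensity_eq_integral_toReal_smul md2
        (Eventually.of_forall fun s => ENNReal.ofReal_lt_top)]
      refine integral_congr_ae (Eventually.of_forall fun x => ?_)
      change (ENNReal.ofReal (gn F x)).toReal • φ (f x) = _
      rw [ENNReal.toReal_ofReal (gn_nonneg F x), smul_eq_mul, mul_comm]
    rw [e1, e2]
    exact h_M1C G f F φ hH hφ hc hsub hnn
  have hB := h_BOR μ ν hfin hcmp
  have hle : μ.restrict (Ioi 0) ≤ ν.restrict (Ioi 0) := by
    rw [Measure.le_iff]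
    intro S hS
    rw [Measure.restrict_apply hS, Measure.restrict_apply hS]
    exact hB _ inter_subset_right (hS.inter measurableSet_Ioi)
  have hmono : ∫⁻ s in Ioi (0 : ℝ), η s ∂μ ≤ ∫⁻ s in Ioi (0 : ℝ), η s ∂ν :=
    lintegral_mono' hle le_rfl
  have e3 : ∫⁻ s in Ioi (0 : ℝ), η s ∂μ =
      ∫⁻ s in Ioi (0 : ℝ), η s * ENNReal.ofReal (2 * Real.sqrt (Real.pi * ar f s)) := by
    change ∫⁻ s in Ioi (0 : ℝ), η s ∂(volume.withDensity _) = _
    rw [setLIntegral_withDensity_eq_setLIntegral_mul _ md1 mη measurableSet_Ioi]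
    refine lintegral_congr fun s => ?_
    rw [Pi.mul_apply, mul_comm]
  have e4 : ∫⁻ s in Ioi (0 : ℝ), η s ∂ν =
      ∫⁻ x in {x | 0 < f x}, η (f x) * ENNReal.ofReal (gn F x) := by
    change ∫⁻ s in Ioi (0 : ℝ), η s ∂(Measure.map f ν') = _
    rw [setLIntegral_map measurableSet_Ioi mη mf]
    change ∫⁻ x in f ⁻¹' Ioi 0, (η ∘ f) x ∂(volume.withDensity _) = _
    rw [setLIntegral_withDensity_eq_setLIntegral_mul _ md2 (mη.comp mf) (mf measurableSet_Ioi)]
    change ∫⁻ x in {x | 0 < f x}, _ = _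
    refine lintegral_congr fun x => ?_
    rw [Pi.mul_apply, mul_comm]
    rfl
  rw [e3, e4] at hmono
  exact hmono

end MGS
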