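import Pool.Agent.MGS.TC

/-!
# MGS: proof of T_M1C from T_M1T (helper59)
-/

set_option autoImplicit false

open MeasureTheory Filter Topology Metric Set
open scoped ENNReal NNReal ContDiff

noncomputable section

namespace MGS

/-- a sequence with summable squares of the `L²` norms is dominated in `L²` and tends to zero
almost everywhere -/
theorem M1C_dom {E : Type} [MeasureSpace E] (u : ℕ → E → ℝ)
    (hu : ∀ n, AEStronglyMeasurable (u n) volume)
    (h : ∀ n, eLpNorm (u n) 2 volume ≤ (2⁻¹ : ℝ≥0∞) ^ n) :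
    ∃ S : E → ℝ, Integrable S ∧ (∀ᵐ x, ∀ n, (u n x) ^ 2 ≤ S x) ∧
      ∀ᵐ x, Tendsto (fun n => u n x) atTop (𝓝 0) := by
  have hsq : ∀ n, ∫⁻ x, ‖u n x‖ₑ ^ 2 ≤ (2⁻¹ : ℝ≥0∞) ^ n := by
    intro n
    have e1 : eLpNorm (u n) 2 volume ^ 2 = ∫⁻ x, ‖u n x‖ₑ ^ 2 := by
      rw [eLpNorm_eq_lintegral_rpow_enorm_toReal (by norm_num) (by norm_num)]
      have : (2 : ℝ≥0∞).toReal = 2 := by norm_num
      rw [this, ← ENNReal.rpow_natCast, ← ENNReal.rpow_mul]
      norm_num
    rw [← e1]
    have h1 : (2⁻¹ : ℝ≥0∞) ^ n ≤ 1 := by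
      apply pow_le_one'
      exact ENNReal.inv_le_one.2 (by norm_num)
    calc eLpNorm (u n) 2 volume ^ 2 ≤ ((2⁻¹ : ℝ≥0∞) ^ n) ^ 2 := by gcongr; exact h n
      _ = (2⁻¹ : ℝ≥0∞) ^ n * (2⁻¹ : ℝ≥0∞) ^ n := sq _
      _ ≤ (2⁻¹ : ℝ≥0∞) ^ n * 1 := by gcongr
      _ = (2⁻¹ : ℝ≥0∞) ^ n := mul_one _
  have hm : ∀ n, AEMeasurable (fun x => ‖u n x‖ₑ ^ 2) volume := fun n => (hu n).enorm.pow_const _
  have hfin : ∫⁻ x, ∑' n, ‖u n x‖ₑ ^ 2 ≠ ⊤ := by
    rw [lintegral_tsum hm]
    refine ne_top_of_le_ne_top ?_ (ENNReal.tsum_le_tsum hsq)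
    rw [ENNReal.tsum_geometric]
    simp
  have hae : ∀ᵐ x, ∑' n, ‖u n x‖ₑ ^ 2 < ⊤ :=
    ae_lt_top' (AEMeasurable.tsum hm) hfin
  refine ⟨fun x => (∑' n, ‖u n x‖ₑ ^ 2).toReal,
    integrable_toReal_of_lintegral_ne_top (AEMeasurable.tsum hm) hfin, ?_, ?_⟩
  · filter_upwards [hae] with x hx n
    have h1 : ‖u n x‖ₑ ^ 2 ≤ ∑' n, ‖u n x‖ₑ ^ 2 := ENNReal.le_tsum n
    have h2 := ENNReal.toReal_mono hx.ne h1
    rw [ENNReal.toReal_pow, toReal_enorm, Real.norm_eq_abs, sq_abs] at h2
    exact h2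
  · filter_upwards [hae] with x hx
    have h1 : Tendsto (fun n => ‖u n x‖ₑ ^ 2) atTop (𝓝 0) :=
      ENNReal.tendsto_atTop_zero_of_tsum_ne_top hx.ne
    have h2 : Tendsto (fun n => (‖u n x‖ₑ ^ 2).toReal) atTop (𝓝 0) := by
      have := (ENNReal.tendsto_toReal ENNReal.zero_ne_top).comp h1
      rw [ENNReal.toReal_zero] at this
      exact this
    have h3 : Tendsto (fun n => (u n x) ^ 2) atTop (𝓝 0) := by
      refine h2.congr fun n => ?_
      rw [ENNReal.toReal_pow, toReal_enorm, Real.norm_eq_abs, sq_abs]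
    have h4 : Tendsto (fun n => Real.sqrt ((u n x) ^ 2)) atTop (𝓝 0) := by
      have := (Real.continuous_sqrt.tendsto 0).comp h3
      rw [Real.sqrt_zero] at this
      exact this
    refine (tendsto_zero_iff_abs_tendsto_zero _).2 (h4.congr fun n => ?_)
    simp [Real.sqrt_sq_eq_abs]

/-- measurability of the distribution function -/
theorem M1C_ar_meas (g : ℂ → ℝ) : Measurable (fun s => ar g s) := by
  have h1 : Antitone (fun s : ℝ => volume {x : ℂ | s < g x}) := by
    intro s t hst
    refine measure_mono fun x hx => ?_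
    exact lt_of_le_of_lt hst hx
  exact h1.measurable.ennreal_toReal

/-- the distribution function as an integral -/
theorem M1C_ar_int (g : ℂ → ℝ) (hg : AEStronglyMeasurable g volume) (s : ℝ) :
    ar g s = ∫ x : ℂ, if s < g x then (1 : ℝ) else 0 := by
  have hn : NullMeasurableSet {x : ℂ | s < g x} volume :=
    nullMeasurableSet_lt aemeasurable_const hg.aemeasurable
  have h1 : (fun x : ℂ => if s < g x then (1 : ℝ) else 0) =
      Set.indicator {x : ℂ | s < g x} (fun _ => (1 : ℝ)) := by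
    funext x
    by_cases hx : s < g x
    · rw [if_pos hx, Set.indicator_of_mem (show x ∈ {x : ℂ | s < g x} from hx)]
    · rw [if_neg hx, Set.indicator_of_notMem (show x ∉ {x : ℂ | s < g x} from hx)]
  rw [h1, integral_indicator₀ hn]
  simp [ar, Measure.real]

/-- Chebyshev -/
theorem M1C_ar_le (g b : ℂ → ℝ) (hg : AEStronglyMeasurable g volume) (hb : Integrable b)
    (h : ∀ᵐ x, g x ^ 2 ≤ b x) (s : ℝ) (hs : 0 < s) : ar g s ≤ (∫ x, b x) / s ^ 2 := by
  rw [M1C_ar_int g hg s, ← integral_div]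
  refine integral_mono_of_nonneg ?_ (hb.div_const _) ?_
  · refine Eventually.of_forall fun x => ?_
    dsimp only
    split_ifs
    · exact zero_le_one
    · exact le_refl _
  · filter_upwards [h] with x hx
    have hb0 : 0 ≤ b x := (sq_nonneg _).trans hx
    split_ifs with h1
    · rw [le_div_iff₀ (by positivity)]
      nlinarith
    · positivity

theorem M1C_ar_lim (φ : ℕ → ℂ → ℝ) (f b : ℂ → ℝ) (hφ : ∀ n, AEStronglyMeasurable (φ n) volume)
    (hf : AEStronglyMeasurable f volume) (hb : Integrable b)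
    (h : ∀ᵐ x, ∀ n, φ n x ^ 2 ≤ b x) (hl : ∀ᵐ x, Tendsto (fun n => φ n x) atTop (𝓝 (f x)))
    (s : ℝ) (hs : 0 < s) (h0 : volume {x | f x = s} = 0) :
    Tendsto (fun n => ar (φ n) s) atTop (𝓝 (ar f s)) := by
  simp_rw [M1C_ar_int _ (hφ _), M1C_ar_int _ hf]
  have hn : ∀ g : ℂ → ℝ, AEStronglyMeasurable g volume →
      AEStronglyMeasurable (fun x : ℂ => if s < g x then (1 : ℝ) else 0) volume := by
    intro g hg
    have hn : NullMeasurableSet {x : ℂ | s < g x} volume :=
      nullMeasurableSet_lt aemeasurable_const hg.aemeasurable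
    have h1 : (fun x : ℂ => if s < g x then (1 : ℝ) else 0) =
        Set.indicator {x : ℂ | s < g x} (fun _ => (1 : ℝ)) := by
      funext x
      by_cases hx : s < g x
      · rw [if_pos hx, Set.indicator_of_mem (show x ∈ {x : ℂ | s < g x} from hx)]
      · rw [if_neg hx, Set.indicator_of_notMem (show x ∉ {x : ℂ | s < g x} from hx)]
    rw [h1]
    exact (aestronglyMeasurable_const).indicator₀ hn
  refine tendsto_integral_of_dominated_convergence (fun x => b x / s ^ 2) (fun n => hn _ (hφ n))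
    (hb.div_const _) ?_ ?_
  · intro n
    filter_upwards [h] with x hx
    have hx := hx n
    have hb0 : 0 ≤ b x := (sq_nonneg _).trans hx
    split_ifs with h1
    · rw [norm_one, le_div_iff₀ (by positivity)]
      nlinarith
    · rw [norm_zero]
      positivity
  · have h1 : ∀ᵐ x : ℂ, f x ≠ s := by
      rw [ae_iff]
      simpa using h0
    filter_upwards [h1, hl] with x hx1 hx2
    rcases lt_or_gt_of_ne hx1 with h2 | h2
    · rw [if_neg (not_lt.2 h2.le)]
      refine tendsto_const_nhds.congr' ?_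
      filter_upwards [hx2.eventually_lt_const h2] with n hn
      rw [if_neg (not_lt.2 hn.le)]
    · rw [if_pos h2]
      refine tendsto_const_nhds.congr' ?_
      filter_upwards [hx2.eventually_const_lt h2] with n hn
      rw [if_pos hn]

theorem p_M1C (h_M1T : T_M1T) : T_M1C := by
  intro G f F η hH hη hηc hηs hη0
  -- the approximating sequence
  have hpos : ∀ n : ℕ, ((2⁻¹ : ℝ≥0∞) ^ n) ≠ 0 := fun n => pow_ne_zero _ (by simp)
  choose φ hφ h1 h2 using fun n : ℕ => hH.2.2 _ (hpos n)
  have hφm : ∀ n, AEStronglyMeasurable (φ n) volume := fun n => (hφ n).memLp.1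
  have hfm : AEStronglyMeasurable f volume := hH.1.1
  have hdm : ∀ n i, AEStronglyMeasurable (pd e2 i (φ n)) volume := fun n i =>
    ((hφ n).memLp_pd i).1
  have hFm : ∀ i, AEStronglyMeasurable (F i) volume := fun i => (hH.2.1 i).1
  obtain ⟨S, hS, hS1, hS2⟩ := M1C_dom (fun n P => φ n P - f P) (fun n => (hφm n).sub hfm) h1
  choose T hT hT1 hT2 using fun i => M1C_dom (fun n P => pd e2 i (φ n) P - F i P)
    (fun n => (hdm n i).sub (hFm i)) (fun n => h2 n i)
  have hf2 : Integrable (fun x => f x ^ 2) volume := hH.1.integrable_sq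
  have hF2 : ∀ i, Integrable (fun x => F i x ^ 2) volume := fun i => (hH.2.1 i).integrable_sq
  -- dominating functions
  set b : ℂ → ℝ := fun x => 2 * f x ^ 2 + 2 * S x with hb
  have hbi : Integrable b := (hf2.const_mul 2).add (hS.const_mul 2)
  have hb1 : ∀ᵐ x, ∀ n, φ n x ^ 2 ≤ b x := by
    filter_upwards [hS1] with x hx n
    have := hx n
    simp only [hb]
    nlinarith [sq_nonneg (φ n x - 2 * f x)]
  have hbl : ∀ᵐ x, Tendsto (fun n => φ n x) atTop (𝓝 (f x)) := by
    filter_upwards [hS2] with x hx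
    have := hx.add_const (f x)
    simpa using this
  set c : Fin 2 → ℂ → ℝ := fun i x => 2 * F i x ^ 2 + 2 * T i x with hc
  have hci : ∀ i, Integrable (c i) := fun i => ((hF2 i).const_mul 2).add ((hT i).const_mul 2)
  have hc1 : ∀ᵐ x, ∀ n i, pd e2 i (φ n) x ^ 2 ≤ c i x := by
    have := ae_all_iff.2 hT1
    filter_upwards [this] with x hx n i
    have := hx i n
    simp only [hc]
    nlinarith [sq_nonneg (pd e2 i (φ n) x - 2 * F i x)]
  have hcl : ∀ᵐ x, ∀ i, Tendsto (fun n => pd e2 i (φ n) x) atTop (𝓝 (F i x)) := by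
    have := ae_all_iff.2 hT2
    filter_upwards [this] with x hx i
    have := (hx i).add_const (F i x)
    simpa using this
  -- bounds for η
  obtain ⟨s₀, hs₀, hs₀'⟩ : ∃ s₀ : ℝ, 0 < s₀ ∧ ∀ s, η s ≠ 0 → s₀ ≤ s := by
    rcases (tsupport η).eq_empty_or_nonempty with h | h
    · refine ⟨1, one_pos, fun s hs => ?_⟩
      have : s ∈ tsupport η := subset_tsupport _ hs
      rw [h] at this
      exact absurd this (Set.notMem_empty s)
    · obtain ⟨s₀, h3, h4⟩ := hηc.exists_isLeast h
      exact ⟨s₀, hηs h3, fun s hs => h4 (subset_tsupport _ hs)⟩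
  obtain ⟨M, hM⟩ := hηc.exists_bound_of_continuous hη
  have hM0 : 0 ≤ M := (norm_nonneg _).trans (hM 0)
  have hηC : ∀ s, |η s| ≤ M / s₀ * |s| := by
    intro s
    by_cases hs : η s = 0
    · rw [hs, abs_zero]
      positivity
    · have h3 := hs₀' s hs
      calc |η s| ≤ M := hM s
        _ = M / s₀ * s₀ := by field_simp
        _ ≤ M / s₀ * |s| := by
          gcongr
          exact h3.trans (le_abs_self s)
  -- left side
  have hL : Tendsto (fun n => ∫ s, η s * (2 * Real.sqrt (Real.pi * ar (φ n) s))) atTop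
      (𝓝 (∫ s, η s * (2 * Real.sqrt (Real.pi * ar f s)))) := by
    set K : ℝ := 2 * Real.sqrt (Real.pi * ((∫ x, b x) / s₀ ^ 2)) with hK
    refine tendsto_integral_of_dominated_convergence (fun s => η s * K) ?_ ?_ ?_ ?_
    · intro n
      refine (hη.measurable.mul ?_).aestronglyMeasurable
      exact ((((M1C_ar_meas (φ n)).const_mul Real.pi)).sqrt).const_mul 2
    · exact (hη.integrable_of_hasCompactSupport hηc).mul_const K
    · intro n
      refine Eventually.of_forall fun s => ?_
      by_cases hs : η s = 0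
      · rw [hs]
        simp
      · have h3 := hs₀' s hs
        have h4 : 0 < s := hs₀.trans_le h3
        have hb0 : 0 ≤ ∫ x, b x := by
          refine integral_nonneg_of_ae ?_
          filter_upwards [hb1] with x hx
          exact (sq_nonneg _).trans (hx 0)
        rw [Real.norm_eq_abs, abs_mul, abs_of_nonneg (hη0 s), abs_of_nonneg (by positivity)]
        refine mul_le_mul_of_nonneg_left ?_ (hη0 s)
        rw [hK]
        refine mul_le_mul_of_nonneg_left (Real.sqrt_le_sqrt ?_) (by norm_num)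
        refine mul_le_mul_of_nonneg_left ?_ Real.pi_pos.le
        refine (M1C_ar_le (φ n) b (hφm n) hbi (by filter_upwards [hb1] with x hx using hx n)
          s h4).trans ?_
        gcongr
    · have hcount : Set.Countable {t : ℝ | 0 < volume {a : ℂ | f a = t}} :=
        Measure.countable_meas_level_set_pos₀ hfm.aemeasurable.nullMeasurable
      have h3 : ∀ᵐ s : ℝ, s ∉ {t : ℝ | 0 < volume {a : ℂ | f a = t}} :=
        hcount.ae_notMem _
      filter_upwards [h3] with s hs
      by_cases hs0 : η s = 0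
      · rw [hs0]
        simp
      · have h4 : 0 < s := hs₀.trans_le (hs₀' s hs0)
        have h5 : volume {x | f x = s} = 0 := by
          by_contra h
          exact hs (pos_iff_ne_zero.2 h)
        have h6 := M1C_ar_lim φ f b hφm hfm hbi hb1 hbl s h4 h5
        exact ((((h6.const_mul Real.pi).sqrt).const_mul 2).const_mul (η s))
  -- right side
  have hR : Tendsto (fun n => ∫ x, η (φ n x) * gn (fun i => pd e2 i (φ n)) x) atTop
      (𝓝 (∫ x, η (f x) * gn F x)) := by
    refine tendsto_integral_of_dominated_convergence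
      (fun x => M / s₀ * (b x + (c 0 x + c 1 x))) ?_ ?_ ?_ ?_
    · intro n
      refine Continuous.aestronglyMeasurable ?_
      refine (hη.comp (hφ n).smooth.continuous).mul ?_
      unfold gn
      exact ((((hφ n).pd_cont 0).pow 2).add (((hφ n).pd_cont 1).pow 2)).sqrt
    · exact (hbi.add ((hci 0).add (hci 1))).const_mul _
    · intro n
      filter_upwards [hb1, hc1] with x hx1 hx2
      have h3 := hx1 n
      have h4 := hx2 n 0
      have h5 := hx2 n 1
      have h6 := hηC (φ n x)
      have h7 : 0 ≤ M / s₀ := by positivity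
      have h8 : gn (fun i => pd e2 i (φ n)) x ^ 2 =
          pd e2 0 (φ n) x ^ 2 + pd e2 1 (φ n) x ^ 2 := by
        unfold gn
        rw [Real.sq_sqrt (by positivity)]
      have h9 : 0 ≤ gn (fun i => pd e2 i (φ n)) x := Real.sqrt_nonneg _
      rw [Real.norm_eq_abs, abs_mul, abs_of_nonneg h9]
      calc |η (φ n x)| * gn (fun i => pd e2 i (φ n)) x ≤
          M / s₀ * |φ n x| * gn (fun i => pd e2 i (φ n)) x := by gcongr
        _ = M / s₀ * (|φ n x| * gn (fun i => pd e2 i (φ n)) x) := by ring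
        _ ≤ M / s₀ * (b x + (c 0 x + c 1 x)) := by
          refine mul_le_mul_of_nonneg_left ?_ h7
          nlinarith [sq_abs (φ n x), sq_nonneg (|φ n x| - gn (fun i => pd e2 i (φ n)) x),
            sq_nonneg (|φ n x|), sq_nonneg (gn (fun i => pd e2 i (φ n)) x)]
    · filter_upwards [hbl, hcl] with x hx1 hx2
      refine ((hη.tendsto _).comp hx1).mul ?_
      unfold gn
      exact (((hx2 0).pow 2).add ((hx2 1).pow 2)).sqrt
  exact le_of_tendsto_of_tendsto' hL hR fun n =>
    h_M1T (φ n) η ((hφ n).mono (Set.subset_univ _)) hη hηc hηs hη0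

end MGS
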