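import Pool.Agent.MGS.TC

/-!
# MGS: target `M1S` (isoperimetric inequality on the levels, smooth case), from `BM2`
-/

set_option autoImplicit false

open MeasureTheory Filter Topology Metric Set
open scoped ENNReal NNReal ContDiff Pointwise

noncomputable section

namespace MGS

/-- `sup` of `φ` over the open disc of radius `h` about `x` -/
def M1S_sup (φ : ℂ → ℝ) (h : ℝ) (x : ℂ) : ℝ := sSup ((fun y => φ (x + y)) '' ball 0 h)

/-- truncation between `s` and `t` -/
def M1S_N (s t r : ℝ) : ℝ := max s (min r t) - s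

section

variable {φ : ℂ → ℝ} {M : ℝ} (hM : ∀ x, |φ x| ≤ M)

include hM

theorem M1S_bdd (h : ℝ) (x : ℂ) : BddAbove ((fun y => φ (x + y)) '' ball 0 h) := by
  refine ⟨M, ?_⟩
  rintro _ ⟨y, _, rfl⟩
  exact (le_abs_self _).trans (hM _)

theorem M1S_lt {h : ℝ} (hh : 0 < h) (x : ℂ) (σ : ℝ) :
    σ < M1S_sup φ h x ↔ ∃ y ∈ ball (0 : ℂ) h, σ < φ (x + y) := by
  unfold M1S_sup
  rw [lt_csSup_iff (M1S_bdd hM h x) ⟨φ (x + 0), 0, mem_ball_self hh, rfl⟩]
  constructor
  · rintro ⟨_, ⟨y, hy, rfl⟩, h1⟩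
    exact ⟨y, hy, h1⟩
  · rintro ⟨y, hy, h1⟩
    exact ⟨_, ⟨y, hy, rfl⟩, h1⟩

theorem M1S_set {h : ℝ} (hh : 0 < h) (σ : ℝ) :
    {x | σ < M1S_sup φ h x} = {x | σ < φ x} + ball (0 : ℂ) h := by
  ext x
  rw [Set.mem_ofPred_eq, M1S_lt hM hh, Set.mem_add]
  constructor
  · rintro ⟨y, hy, h1⟩
    refine ⟨x + y, h1, -y, ?_, by ring⟩
    simpa using hy
  · rintro ⟨a, ha, b, hb, rfl⟩
    refine ⟨-b, ?_, ?_⟩
    · simpa using hb
    · have : a + b + -b = a := by ring
      rw [this]
      exact ha

theorem M1S_ge {h : ℝ} (hh : 0 < h) (x : ℂ) : φ x ≤ M1S_sup φ h x := by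
  unfold M1S_sup
  refine le_csSup (M1S_bdd hM h x) ⟨0, mem_ball_self hh, ?_⟩
  simp

omit hM in
theorem M1S_le {h : ℝ} (hh : 0 < h) (x : ℂ) (c : ℝ) (hc : ∀ y ∈ ball (0 : ℂ) h, φ (x + y) ≤ c) :
    M1S_sup φ h x ≤ c := by
  unfold M1S_sup
  refine csSup_le ⟨φ (x + 0), 0, mem_ball_self hh, rfl⟩ ?_
  rintro _ ⟨y, hy, rfl⟩
  exact hc y hy

theorem M1S_meas {h : ℝ} (hh : 0 < h) (hφ : Continuous φ) : Measurable (M1S_sup φ h) := by
  refine measurable_of_Ioi fun σ => ?_
  have : M1S_sup φ h ⁻¹' Ioi σ = {x | σ < φ x} + ball (0 : ℂ) h := M1S_set hM hh σ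
  rw [this]
  exact ((isOpen_lt continuous_const hφ).add_right).measurableSet

end

theorem M1S_N_mono {s t : ℝ} {r r' : ℝ} (h : r ≤ r') : M1S_N s t r ≤ M1S_N s t r' := by
  unfold M1S_N
  gcongr

theorem M1S_N_nonneg (s t r : ℝ) : 0 ≤ M1S_N s t r := by
  unfold M1S_N
  linarith [le_max_left s (min r t)]

theorem M1S_N_sub {s t r r' : ℝ} (h : r ≤ r') : M1S_N s t r' - M1S_N s t r ≤ r' - r := by
  unfold M1S_N
  rcases le_total r t with h1 | h1 <;> rcases le_total r' t with h2 | h2 <;>
    simp only [min_eq_left, min_eq_right, h1, h2] <;>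
    rcases le_total s r with h3 | h3 <;> rcases le_total s r' with h4 | h4 <;>
    rcases le_total s t with h5 | h5 <;>
    simp only [max_eq_left, max_eq_right, h3, h4, h5] <;> linarith

theorem M1S_N_low {s t r : ℝ} (h : r ≤ s) : M1S_N s t r = 0 := by
  unfold M1S_N
  rw [max_eq_left ((min_le_left _ _).trans h)]
  ring

theorem M1S_N_high {s t r : ℝ} (hst : s ≤ t) (h : t ≤ r) : M1S_N s t r = t - s := by
  unfold M1S_N
  rw [min_eq_right h, max_eq_right hst]

theorem M1S_N_lt {s t r τ : ℝ} (h1 : 0 ≤ τ) (h2 : τ < t - s) :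
    τ < M1S_N s t r ↔ s + τ < r := by
  unfold M1S_N
  rw [lt_sub_iff_add_lt, lt_max_iff, lt_min_iff]
  constructor
  · rintro (h | ⟨h, _⟩)
    · linarith
    · linarith
  · intro h
    exact Or.inr ⟨by linarith, by linarith⟩

theorem M1S_N_le {s t : ℝ} (hst : s ≤ t) (r : ℝ) : M1S_N s t r ≤ t - s := by
  unfold M1S_N
  have : max s (min r t) ≤ t := max_le hst (min_le_right _ _)
  linarith

theorem M1S_N_cont (s t : ℝ) : Continuous (M1S_N s t) := by
  unfold M1S_N
  fun_prop

/-- the inequality for one `h` -/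
theorem M1S_one (hBM : T_BM2) {φ : ℂ → ℝ} {M : ℝ} (hM : ∀ x, |φ x| ≤ M) (hφ : Test univ φ)
    {s t h : ℝ} (hs : 0 < s) (hst : s < t) (hh : 0 < h) :
    ENNReal.ofReal h * ∫⁻ τ in Ioo 0 (t - s),
        ENNReal.ofReal (2 * Real.sqrt (Real.pi * ar φ (s + τ))) ≤
      ∫⁻ x, ENNReal.ofReal (M1S_N s t (M1S_sup φ h x) - M1S_N s t (φ x)) := by
  have hcont := hφ.smooth.continuous
  have hbd : ∀ σ : ℝ, 0 < σ → Bornology.IsBounded {x : ℂ | σ < φ x} := by
    intro σ hσ
    refine hφ.cpt.isBounded.subset fun x hx => subset_tsupport _ ?_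
    rw [Function.mem_support]
    have : σ < φ x := hx
    linarith
  have hfin : ∀ σ : ℝ, 0 < σ → volume {x : ℂ | σ < φ x} ≠ ⊤ := fun σ hσ =>
    (hbd σ hσ).measure_lt_top.ne
  have hmN : ∀ u : ℂ → ℝ, Measurable u → Measurable fun x => M1S_N s t (u x) := fun u hu =>
    (M1S_N_cont s t).measurable.comp hu
  have hmφ : Measurable φ := hcont.measurable
  have hmh : Measurable (M1S_sup φ h) := M1S_meas hM hh hcont
  have key : ∀ τ ∈ Ioi (0 : ℝ), volume {x | τ < M1S_N s t (φ x)} +
      (Ioo 0 (t - s)).indicator (fun τ => ENNReal.ofReal h *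
        ENNReal.ofReal (2 * Real.sqrt (Real.pi * ar φ (s + τ)))) τ ≤
      volume {x | τ < M1S_N s t (M1S_sup φ h x)} := by
    intro τ hτ
    have hτ0 : 0 < τ := hτ
    by_cases hτ1 : τ < t - s
    · rw [Set.indicator_of_mem (show τ ∈ Ioo 0 (t - s) from ⟨hτ, hτ1⟩)]
      have e1 : {x | τ < M1S_N s t (φ x)} = {x | s + τ < φ x} := by
        ext x
        exact M1S_N_lt hτ0.le hτ1
      have e2 : {x | τ < M1S_N s t (M1S_sup φ h x)} = {x | s + τ < φ x} + ball (0 : ℂ) h := by
        rw [← M1S_set hM hh]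
        ext x
        exact M1S_N_lt hτ0.le hτ1
      rw [e1, e2]
      have hσ : 0 < s + τ := by linarith
      rcases Set.eq_empty_or_nonempty {x : ℂ | s + τ < φ x} with he | hne
      · have : ar φ (s + τ) = 0 := by
          unfold ar
          rw [he]
          simp
        rw [this, he]
        simp
      · have h1 := hBM {x | s + τ < φ x} h (isOpen_lt continuous_const hcont) (hbd _ hσ) hne hh
        have h2 : ar φ (s + τ) = (volume {x : ℂ | s + τ < φ x}).toReal := rfl
        rw [← h2] at h1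
        have h3 : 0 ≤ ar φ (s + τ) := ENNReal.toReal_nonneg
        rw [← ENNReal.ofReal_toReal (hfin _ hσ), ← h2, ← ENNReal.ofReal_mul hh.le,
          ← ENNReal.ofReal_add h3 (by positivity)]
        refine ENNReal.ofReal_le_of_le_toReal ?_
        refine le_trans ?_ h1
        have : 0 ≤ Real.pi * h ^ 2 := by positivity
        linarith
    · rw [Set.indicator_of_notMem (fun hc => hτ1 hc.2)]
      have e1 : {x | τ < M1S_N s t (φ x)} = ∅ := by
        ext x
        simp only [Set.mem_ofPred_eq, Set.mem_empty_iff_false, iff_false, not_lt]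
        exact (M1S_N_le hst.le _).trans (not_lt.1 hτ1)
      rw [e1]
      simp
  have hA : ∫⁻ x, ENNReal.ofReal (M1S_N s t (φ x)) =
      ∫⁻ τ in Ioi (0 : ℝ), volume {x | τ < M1S_N s t (φ x)} :=
    lintegral_eq_lintegral_meas_lt volume (Eventually.of_forall fun x => M1S_N_nonneg _ _ _)
      (hmN φ hmφ).aemeasurable
  have hB : ∫⁻ x, ENNReal.ofReal (M1S_N s t (M1S_sup φ h x)) =
      ∫⁻ τ in Ioi (0 : ℝ), volume {x | τ < M1S_N s t (M1S_sup φ h x)} :=
    lintegral_eq_lintegral_meas_lt volume (Eventually.of_forall fun x => M1S_N_nonneg _ _ _)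
      (hmN _ hmh).aemeasurable
  have hmar : Measurable fun τ : ℝ => ENNReal.ofReal (2 * Real.sqrt (Real.pi *
      (volume {x : ℂ | max s (s + τ) < φ x}).toReal)) := by
    have hanti : Antitone fun τ : ℝ => (volume {x : ℂ | max s (s + τ) < φ x}).toReal := by
      intro a b hab
      refine ENNReal.toReal_mono (hfin _ (lt_of_lt_of_le hs (le_max_left _ _)))
        (measure_mono fun x hx => ?_)
      have hx' : max s (s + b) < φ x := hx
      show max s (s + a) < φ x
      refine lt_of_le_of_lt ?_ hx'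
      gcongr
    have := hanti.measurable
    fun_prop
  have hC : ∫⁻ τ in Ioo 0 (t - s), ENNReal.ofReal (2 * Real.sqrt (Real.pi * ar φ (s + τ))) =
      ∫⁻ τ in Ioo 0 (t - s), ENNReal.ofReal (2 * Real.sqrt (Real.pi *
      (volume {x : ℂ | max s (s + τ) < φ x}).toReal)) := by
    refine setLIntegral_congr_fun measurableSet_Ioo fun τ hτ => ?_
    have : max s (s + τ) = s + τ := max_eq_right (by linarith [hτ.1])
    simp only [this]
    rfl
  have hsum : (∫⁻ x, ENNReal.ofReal (M1S_N s t (φ x))) + ENNReal.ofReal h *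
      ∫⁻ τ in Ioo 0 (t - s), ENNReal.ofReal (2 * Real.sqrt (Real.pi * ar φ (s + τ))) ≤
      ∫⁻ x, ENNReal.ofReal (M1S_N s t (M1S_sup φ h x)) := by
    rw [hA, hB, hC, ← lintegral_const_mul _ hmar, ← lintegral_indicator measurableSet_Ioo]
    have e3 : ∫⁻ τ, (Ioo 0 (t - s)).indicator (fun τ => ENNReal.ofReal h *
        ENNReal.ofReal (2 * Real.sqrt (Real.pi *
          (volume {x : ℂ | max s (s + τ) < φ x}).toReal))) τ =
        ∫⁻ τ in Ioi (0 : ℝ), (Ioo 0 (t - s)).indicator (fun τ => ENNReal.ofReal h *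
        ENNReal.ofReal (2 * Real.sqrt (Real.pi *
          (volume {x : ℂ | max s (s + τ) < φ x}).toReal))) τ := by
      rw [← lintegral_indicator measurableSet_Ioi]
      refine lintegral_congr fun τ => ?_
      by_cases hτ : τ ∈ Ioo 0 (t - s)
      · rw [Set.indicator_of_mem (show τ ∈ Ioi (0 : ℝ) from hτ.1)]
      · by_cases hτ2 : τ ∈ Ioi (0 : ℝ)
        · rw [Set.indicator_of_mem hτ2]
        · rw [Set.indicator_of_notMem hτ2, Set.indicator_of_notMem hτ]
    have hmi : Measurable ((Ioo 0 (t - s)).indicator (fun τ => ENNReal.ofReal h *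
        ENNReal.ofReal (2 * Real.sqrt (Real.pi *
          (volume {x : ℂ | max s (s + τ) < φ x}).toReal)))) :=
      (hmar.const_mul (ENNReal.ofReal h)).indicator measurableSet_Ioo
    rw [e3, ← lintegral_add_right _ hmi]
    refine setLIntegral_mono' measurableSet_Ioi fun τ hτ => ?_
    refine le_trans (le_of_eq ?_) (key τ hτ)
    congr 1
    by_cases hτ1 : τ ∈ Ioo 0 (t - s)
    · rw [Set.indicator_of_mem hτ1, Set.indicator_of_mem hτ1]
      have : max s (s + τ) = s + τ := max_eq_right (by linarith [hτ1.1])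
      simp only [this]
      rfl
    · rw [Set.indicator_of_notMem hτ1, Set.indicator_of_notMem hτ1]
  have hfinA : ∫⁻ x, ENNReal.ofReal (M1S_N s t (φ x)) ≠ ⊤ := by
    have hle : ∫⁻ x, ENNReal.ofReal (M1S_N s t (φ x)) ≤
        ∫⁻ x, {x : ℂ | s < φ x}.indicator (fun _ => ENNReal.ofReal (t - s)) x := by
      refine lintegral_mono fun x => ?_
      by_cases hx : s < φ x
      · rw [Set.indicator_of_mem (show x ∈ {x : ℂ | s < φ x} from hx)]
        exact ENNReal.ofReal_le_ofReal (M1S_N_le hst.le _)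
      · rw [Set.indicator_of_notMem (show x ∉ {x : ℂ | s < φ x} from hx),
          M1S_N_low (not_lt.1 hx)]
        simp
    refine ne_top_of_le_ne_top ?_ hle
    rw [lintegral_indicator (isOpen_lt continuous_const hcont).measurableSet, setLIntegral_const]
    exact ENNReal.mul_ne_top ENNReal.ofReal_ne_top (hfin s hs)
  have hD : ∫⁻ x, ENNReal.ofReal (M1S_N s t (M1S_sup φ h x)) =
      (∫⁻ x, ENNReal.ofReal (M1S_N s t (φ x))) +
        ∫⁻ x, ENNReal.ofReal (M1S_N s t (M1S_sup φ h x) - M1S_N s t (φ x)) := by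
    rw [← lintegral_add_left (hmN φ hmφ).ennreal_ofReal]
    refine lintegral_congr fun x => ?_
    have := M1S_N_mono (s := s) (t := t) (M1S_ge hM hh x)
    rw [← ENNReal.ofReal_add (M1S_N_nonneg _ _ _) (by linarith)]
    congr 1
    ring
  rw [hD] at hsum
  exact (ENNReal.add_le_add_iff_left hfinA).1 hsum

theorem M1S_cs {φ : ℂ → ℝ} (x y : ℂ) :
    fderiv ℝ φ x y ≤ gn (fun i => pd e2 i φ) x * ‖y‖ := by
  have h1 : y = y.re • (1 : ℂ) + y.im • Complex.I := by
    apply Complex.ext <;> simp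
  have h2 : fderiv ℝ φ x y = y.re * fderiv ℝ φ x 1 + y.im * fderiv ℝ φ x Complex.I := by
    conv_lhs => rw [h1]
    rw [map_add, map_smul, map_smul]
    rfl
  have h3 : gn (fun i => pd e2 i φ) x =
      Real.sqrt (fderiv ℝ φ x 1 ^ 2 + fderiv ℝ φ x Complex.I ^ 2) := rfl
  rw [h2, h3, Complex.norm_def, Complex.normSq_apply, ← Real.sqrt_mul (by positivity)]
  apply Real.le_sqrt_of_sq_le
  nlinarith [sq_nonneg (y.re * fderiv ℝ φ x Complex.I - y.im * fderiv ℝ φ x 1)]

theorem p_M1S (hBM : T_BM2) : T_M1S := by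
  intro φ s t hφ hs hst
  have hcont := hφ.smooth.continuous
  obtain ⟨M, hM⟩ := hcont.bounded_above_of_compact_support hφ.cpt
  simp only [Real.norm_eq_abs] at hM
  obtain ⟨K, hK⟩ := hφ.smooth.lipschitzWith_of_hasCompactSupport hφ.cpt (by simp)
  obtain ⟨R, hR⟩ := hφ.cpt.isBounded.subset_ball (0 : ℂ)
  set A : Set ℂ := {x | s ≤ φ x ∧ φ x ≤ t} with hA
  have hAm : MeasurableSet A :=
    ((isClosed_le continuous_const hcont).inter (isClosed_le hcont continuous_const)).measurableSet
  set g : ℂ → ℝ := gn (fun i => pd e2 i φ) with hg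
  have hgc : Continuous g := by
    have h0 := hφ.pd_cont (e := e2) 0
    have h1 := hφ.pd_cont (e := e2) 1
    rw [hg]
    unfold gn
    fun_prop
  have hg0 : ∀ x, 0 ≤ g x := fun x => Real.sqrt_nonneg _
  have hgs : HasCompactSupport g := by
    refine HasCompactSupport.of_support_subset_isCompact
      (hφ.pd_cpt (e := e2) 0 |>.isCompact.union (hφ.pd_cpt (e := e2) 1).isCompact) ?_
    intro x hx
    by_contra hcon
    rw [Set.mem_union, not_or] at hcon
    have h0 : pd e2 0 φ x = 0 := by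
      by_contra h
      exact hcon.1 (subset_tsupport _ h)
    have h1 : pd e2 1 φ x = 0 := by
      by_contra h
      exact hcon.2 (subset_tsupport _ h)
    apply hx
    rw [hg]
    unfold gn
    simp [h0, h1]
  have hgi : Integrable g := hgc.integrable_of_hasCompactSupport hgs
  -- the sequence
  set η : ℕ → ℝ := fun n => 1 / ((n : ℝ) + 1) with hη
  have hη0 : ∀ n, 0 < η n := fun n => by
    rw [hη]
    positivity
  have hη1 : ∀ n, η n ≤ 1 := fun n => by
    rw [hη]
    dsimp only
    rw [div_le_one (by positivity)]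
    have : (0 : ℝ) ≤ n := Nat.cast_nonneg n
    linarith
  have hηt : Tendsto η atTop (𝓝 0) := tendsto_one_div_add_atTop_nhds_zero_nat
  set q : ℕ → ℂ → ℝ := fun n x =>
    (M1S_N s t (M1S_sup φ (η n) x) - M1S_N s t (φ x)) / η n with hq
  have hsupK : ∀ n x, M1S_sup φ (η n) x ≤ φ x + K * η n := by
    intro n x
    refine M1S_le (hη0 n) x _ fun y hy => ?_
    have h1 := hK.dist_le_mul (x + y) x
    rw [Real.dist_eq, dist_eq_norm, add_sub_cancel_left] at h1
    have h2 : ‖y‖ ≤ η n := by
      have := mem_ball_zero_iff.1 hy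
      exact this.le
    have h3 : (K : ℝ) * ‖y‖ ≤ K * η n := by gcongr
    have h4 := le_abs_self (φ (x + y) - φ x)
    linarith
  have hqm : ∀ n, Measurable (q n) := by
    intro n
    have h1 : Measurable fun x => M1S_N s t (M1S_sup φ (η n) x) :=
      (M1S_N_cont s t).measurable.comp (M1S_meas hM (hη0 n) hcont)
    have h2 : Measurable fun x => M1S_N s t (φ x) :=
      (M1S_N_cont s t).measurable.comp hcont.measurable
    exact (h1.sub h2).div_const _
  have hqb : ∀ n x, ENNReal.ofReal (q n x) ≤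
      (ball (0 : ℂ) (R + 1)).indicator (fun _ => ENNReal.ofReal K) x := by
    intro n x
    by_cases hx : x ∈ ball (0 : ℂ) (R + 1)
    · rw [Set.indicator_of_mem hx]
      refine ENNReal.ofReal_le_ofReal ?_
      rw [hq]
      dsimp only
      rw [div_le_iff₀ (hη0 n)]
      have h1 := M1S_N_sub (s := s) (t := t) (M1S_ge hM (hη0 n) x)
      have h2 := hsupK n x
      linarith
    · rw [Set.indicator_of_notMem hx]
      have h1 : ∀ y : ℂ, ‖y‖ < 1 → φ (x + y) = 0 := by
        intro y hy
        by_contra hcon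
        have h2 := hR (subset_tsupport _ hcon)
        rw [mem_ball_zero_iff] at h2
        apply hx
        rw [mem_ball_zero_iff]
        have h3 : ‖x‖ ≤ ‖x + y‖ + ‖y‖ := by
          have := norm_sub_le (x + y) y
          rwa [add_sub_cancel_right] at this
        linarith
      have h2 : φ x = 0 := by
        have := h1 0 (by simp)
        rwa [add_zero] at this
      have h3 : M1S_sup φ (η n) x ≤ 0 := M1S_le (hη0 n) x _ fun y hy => by
        rw [h1 y ((mem_ball_zero_iff.1 hy).trans_le (hη1 n))]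
      have h4 : q n x = 0 := by
        rw [hq]
        dsimp only
        rw [M1S_N_low (h3.trans hs.le), h2, M1S_N_low hs.le]
        simp
      rw [h4]
      simp
  have hbfin : ∫⁻ x, (ball (0 : ℂ) (R + 1)).indicator (fun _ => ENNReal.ofReal K) x ≠ ⊤ := by
    rw [lintegral_indicator measurableSet_ball, setLIntegral_const]
    exact ENNReal.mul_ne_top ENNReal.ofReal_ne_top measure_ball_lt_top.ne
  -- pointwise upper limit
  have hlim : ∀ x, limsup (fun n => ENNReal.ofReal (q n x)) atTop ≤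
      A.indicator (fun x => ENNReal.ofReal (g x)) x := by
    intro x
    rcases lt_or_ge (φ x) s with h1 | h1
    · -- below `s`
      have hev : ∀ᶠ n in atTop, ENNReal.ofReal (q n x) = 0 := by
        have h2 : Tendsto (fun n => φ x + K * η n) atTop (𝓝 (φ x + K * 0)) :=
          (hηt.const_mul _).const_add _
        rw [mul_zero, add_zero] at h2
        filter_upwards [h2.eventually (gt_mem_nhds h1)] with n hn
        have h3 : q n x = 0 := by
          rw [hq]
          dsimp only
          rw [M1S_N_low ((hsupK n x).trans hn.le), M1S_N_low h1.le]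
          simp
        rw [h3]
        simp
      rw [limsup_congr hev]
      simp
    rcases lt_or_ge t (φ x) with h2 | h2
    · have hev : ∀ᶠ n in atTop, ENNReal.ofReal (q n x) = 0 := by
        refine Eventually.of_forall fun n => ?_
        have h3 : q n x = 0 := by
          rw [hq]
          dsimp only
          rw [M1S_N_high hst.le (h2.le.trans (M1S_ge hM (hη0 n) x)), M1S_N_high hst.le h2.le]
          simp
        rw [h3]
        simp
      rw [limsup_congr hev]
      simp
    rw [Set.indicator_of_mem (show x ∈ A from ⟨h1, h2⟩)]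
    refine ENNReal.le_of_forall_pos_le_add fun ε hε _ => ?_
    have hd : HasFDerivAt φ (fderiv ℝ φ x) x := (hφ.diff x).hasFDerivAt
    rw [hasFDerivAt_iff_isLittleO_nhds_zero] at hd
    have hε' : (0 : ℝ) < ε := hε
    obtain ⟨δ, hδ, hδy⟩ := Metric.eventually_nhds_iff_ball.1 (hd.def hε')
    have hev : ∀ᶠ n in atTop, ENNReal.ofReal (q n x) ≤ ENNReal.ofReal (g x) + ε := by
      filter_upwards [hηt.eventually (gt_mem_nhds hδ)] with n hn
      have h3 : M1S_sup φ (η n) x ≤ φ x + (g x + ε) * η n := by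
        refine M1S_le (hη0 n) x _ fun y hy => ?_
        have hy' := mem_ball_zero_iff.1 hy
        have h4 := hδy y (mem_ball_zero_iff.2 (hy'.trans hn))
        rw [Real.norm_eq_abs] at h4
        have h5 := le_abs_self (φ (x + y) - φ x - fderiv ℝ φ x y)
        have h6 := M1S_cs (φ := φ) x y
        have h7 : (g x + ε) * ‖y‖ ≤ (g x + ε) * η n :=
          mul_le_mul_of_nonneg_left hy'.le (by linarith [hg0 x])
        have h8 : gn (fun i => pd e2 i φ) x = g x := rfl
        rw [h8] at h6
        linarith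
      have h9 : q n x ≤ g x + ε := by
        rw [hq]
        dsimp only
        rw [div_le_iff₀ (hη0 n)]
        have h1 := M1S_N_sub (s := s) (t := t) (M1S_ge hM (hη0 n) x)
        linarith
      calc ENNReal.ofReal (q n x) ≤ ENNReal.ofReal (g x + ε) := ENNReal.ofReal_le_ofReal h9
        _ = ENNReal.ofReal (g x) + ENNReal.ofReal ε := ENNReal.ofReal_add (hg0 x) hε'.le
        _ = ENNReal.ofReal (g x) + ε := by rw [ENNReal.ofReal_coe_nnreal]
    exact limsup_le_of_le (by isBoundedDefault) hev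
  set J : ℝ≥0∞ := ∫⁻ τ in Ioo 0 (t - s), ENNReal.ofReal (2 * Real.sqrt (Real.pi * ar φ (s + τ)))
    with hJ
  have hJn : ∀ n, J ≤ ∫⁻ x, ENNReal.ofReal (q n x) := by
    intro n
    have h1 := M1S_one hBM hM hφ hs hst (hη0 n)
    have h2 : ∫⁻ x, ENNReal.ofReal (M1S_N s t (M1S_sup φ (η n) x) - M1S_N s t (φ x)) =
        ENNReal.ofReal (η n) * ∫⁻ x, ENNReal.ofReal (q n x) := by
      rw [← lintegral_const_mul _ (hqm n).ennreal_ofReal]
      refine lintegral_congr fun x => ?_
      rw [← ENNReal.ofReal_mul (hη0 n).le]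
      congr 1
      rw [hq]
      dsimp only
      rw [mul_div_cancel₀ _ (hη0 n).ne']
    rw [h2] at h1
    have h3 : ENNReal.ofReal (η n) ≠ 0 := by
      rw [Ne, ENNReal.ofReal_eq_zero, not_le]
      exact hη0 n
    exact (ENNReal.mul_le_mul_iff_right h3 ENNReal.ofReal_ne_top).1 h1
  have hfinal : J ≤ ∫⁻ x in A, ENNReal.ofReal (g x) := by
    calc J = limsup (fun _ : ℕ => J) atTop := (limsup_const J).symm
      _ ≤ limsup (fun n => ∫⁻ x, ENNReal.ofReal (q n x)) atTop :=
          limsup_le_limsup (Eventually.of_forall hJn)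
      _ ≤ ∫⁻ x, limsup (fun n => ENNReal.ofReal (q n x)) atTop :=
          limsup_lintegral_le _ (fun n => (hqm n).ennreal_ofReal)
            (fun n => Eventually.of_forall (hqb n)) hbfin
      _ ≤ ∫⁻ x, A.indicator (fun x => ENNReal.ofReal (g x)) x := lintegral_mono hlim
      _ = ∫⁻ x in A, ENNReal.ofReal (g x) := lintegral_indicator hAm _
  have hRfin : ∫⁻ x in A, ENNReal.ofReal (g x) ≠ ⊤ := by
    have h1 := (hgi.integrableOn (s := A)).lintegral_lt_top
    exact h1.ne
  have hR1 : ∫ x in A, g x = (∫⁻ x in A, ENNReal.ofReal (g x)).toReal :=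
    integral_eq_lintegral_of_nonneg_ae (Eventually.of_forall hg0) hgc.aestronglyMeasurable
  have hbd : ∀ σ : ℝ, 0 < σ → volume {x : ℂ | σ < φ x} ≠ ⊤ := by
    intro σ hσ
    have : Bornology.IsBounded {x : ℂ | σ < φ x} := by
      refine hφ.cpt.isBounded.subset fun x hx => subset_tsupport _ ?_
      rw [Function.mem_support]
      have : σ < φ x := hx
      linarith
    exact this.measure_lt_top.ne
  have hL1 : ∫ σ in s..t, 2 * Real.sqrt (Real.pi * ar φ σ) = J.toReal := by
    have e1 : ∫ σ in s..t, 2 * Real.sqrt (Real.pi * ar φ σ) =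
        ∫ τ in (0 : ℝ)..(t - s), 2 * Real.sqrt (Real.pi * ar φ (s + τ)) := by
      rw [intervalIntegral.integral_comp_add_left
        (fun σ => 2 * Real.sqrt (Real.pi * ar φ σ)) s]
      simp
    rw [e1, intervalIntegral.integral_of_le (by linarith), integral_Ioc_eq_integral_Ioo]
    refine integral_eq_lintegral_of_nonneg_ae (Eventually.of_forall fun τ => by positivity) ?_
    have hanti : Antitone fun τ : ℝ => (volume {x : ℂ | max s (s + τ) < φ x}).toReal := by
      intro a b hab
      refine ENNReal.toReal_mono (hbd _ (lt_of_lt_of_le hs (le_max_left _ _)))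
        (measure_mono fun x hx => ?_)
      have hx' : max s (s + b) < φ x := hx
      show max s (s + a) < φ x
      refine lt_of_le_of_lt ?_ hx'
      gcongr
    have hmm : Measurable fun τ : ℝ => 2 * Real.sqrt (Real.pi *
        (volume {x : ℂ | max s (s + τ) < φ x}).toReal) := by
      have := hanti.measurable
      fun_prop
    refine hmm.aestronglyMeasurable.congr ?_
    filter_upwards [ae_restrict_mem measurableSet_Ioo] with τ hτ
    have : max s (s + τ) = s + τ := max_eq_right (by linarith [hτ.1])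
    simp only [this]
    rfl
  rw [hL1]
  show J.toReal ≤ ∫ x in A, g x
  rw [hR1]
  exact ENNReal.toReal_mono hRfin hfinal

end MGS
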