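import Pool.Agent.MGS.TC

/-!
# MGS: the isoperimetric inequality on the levels, test functions (helper56)
-/

set_option autoImplicit false

open MeasureTheory Filter Topology Metric Set
open scoped ENNReal NNReal ContDiff Pointwise

noncomputable section

namespace MGS

namespace M1T_

variable {φ : ℂ → ℝ}

theorem gn_cont (h : Test univ φ) : Continuous (gn (fun i => pd e2 i φ)) := by
  unfold gn
  exact (((h.pd_cont 0).pow 2).add ((h.pd_cont 1).pow 2)).sqrt

theorem gn_cpt (h : Test univ φ) : HasCompactSupport (gn (fun i => pd e2 i φ)) := by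
  have h1 : HasCompactSupport (fderiv ℝ φ) := h.cpt.fderiv ℝ
  refine h1.mono' ?_
  intro x hx
  by_contra hc
  apply hx
  have h0 : fderiv ℝ φ x = 0 := image_eq_zero_of_notMem_tsupport hc
  simp [gn, pd, h0]

theorem gn_nn (x : ℂ) : 0 ≤ gn (fun i => pd e2 i φ) x := Real.sqrt_nonneg _

theorem gn_int (h : Test univ φ) : Integrable (gn (fun i => pd e2 i φ)) :=
  (gn_cont h).integrable_of_hasCompactSupport (gn_cpt h)

theorem ar_meas (φ : ℂ → ℝ) : Measurable (ar φ) := by
  have h1 : Antitone (fun s : ℝ => volume {x : ℂ | s < φ x}) := by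
    intro s t hst
    exact measure_mono fun x hx => lt_of_le_of_lt hst hx
  exact h1.measurable.ennreal_toReal

theorem fin (h : Test univ φ) {s : ℝ} (hs : 0 ≤ s) : volume {x : ℂ | s < φ x} < ⊤ := by
  have h1 : volume (tsupport φ) < ⊤ := h.cpt.measure_lt_top
  refine lt_of_le_of_lt (measure_mono ?_) h1
  intro x hx
  refine subset_tsupport φ ?_
  have h2 : s < φ x := hx
  have h3 : φ x ≠ 0 := (lt_of_le_of_lt hs h2).ne'
  exact h3

theorem ar_le (h : Test univ φ) {s : ℝ} (hs : 0 ≤ s) : ar φ s ≤ ar φ 0 := by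
  unfold ar
  refine ENNReal.toReal_mono (fin h le_rfl).ne (measure_mono ?_)
  intro x hx
  exact lt_of_le_of_lt hs hx

/-- the density -/
def dn (φ : ℂ → ℝ) (s : ℝ) : ℝ := 2 * Real.sqrt (Real.pi * ar φ s)

theorem dn_nn (s : ℝ) : 0 ≤ dn φ s := by unfold dn; positivity

theorem dn_meas (φ : ℂ → ℝ) : Measurable (dn φ) := by
  unfold dn
  exact ((ar_meas φ).const_mul _).sqrt.const_mul _

theorem dn_le (h : Test univ φ) {s : ℝ} (hs : 0 ≤ s) : dn φ s ≤ dn φ 0 := by
  unfold dn
  have h1 := ar_le h hs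
  have h2 := Real.pi_pos
  gcongr

theorem dn_int (h : Test univ φ) {s t : ℝ} (hs : 0 < s) : IntegrableOn (dn φ) (Icc s t) := by
  refine Measure.integrableOn_of_bounded (M := dn φ 0) (measure_Icc_lt_top).ne
    (dn_meas φ).aestronglyMeasurable ?_
  refine (ae_restrict_mem measurableSet_Icc).mono fun x hx => ?_
  rw [Real.norm_eq_abs, abs_of_nonneg (dn_nn x)]
  exact dn_le h (hs.le.trans hx.1)

end M1T_

open M1T_ in
/-- M1T (from M1S, CMI) -/
theorem p_M1T (h_M1S : T_M1S) (h_CMI : T_CMI) : T_M1T := by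
  intro φ η hφ hη hc hs hnn
  have hcm : Measurable φ := hφ.smooth.continuous.measurable
  let μ : Measure ℝ := volume.withDensity (fun s => ENNReal.ofReal (dn φ s))
  let ν0 : Measure ℂ := volume.withDensity
    (fun x => ENNReal.ofReal (gn (fun i => pd e2 i φ) x))
  let ν : Measure ℝ := Measure.map φ ν0
  have mD : Measurable (fun s => ENNReal.ofReal (dn φ s)) := (dn_meas φ).ennreal_ofReal
  have mG : Measurable (fun x => ENNReal.ofReal (gn (fun i => pd e2 i φ) x)) :=
    (gn_cont hφ).measurable.ennreal_ofReal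
  have key := h_CMI μ ν ?_ η hη hc hs hnn
  · have e1 : ∫ s, η s ∂μ = ∫ s, η s * (2 * Real.sqrt (Real.pi * ar φ s)) := by
      rw [integral_withDensity_eq_integral_toReal_smul mD
        (Eventually.of_forall fun x => ENNReal.ofReal_lt_top)]
      refine integral_congr_ae (Eventually.of_forall fun s => ?_)
      show (ENNReal.ofReal (dn φ s)).toReal • η s = η s * (2 * Real.sqrt (Real.pi * ar φ s))
      rw [ENNReal.toReal_ofReal (dn_nn s), smul_eq_mul, mul_comm]
      rfl
    have e2 : ∫ s, η s ∂ν = ∫ x, η (φ x) * gn (fun i => pd e2 i φ) x := by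
      have e3 : ∫ s, η s ∂ν = ∫ x, η (φ x) ∂ν0 :=
        integral_map hcm.aemeasurable hη.aestronglyMeasurable
      rw [e3, integral_withDensity_eq_integral_toReal_smul mG
        (Eventually.of_forall fun x => ENNReal.ofReal_lt_top)]
      refine integral_congr_ae (Eventually.of_forall fun x => ?_)
      show (ENNReal.ofReal (gn (fun i => pd e2 i φ) x)).toReal • η (φ x) =
        η (φ x) * gn (fun i => pd e2 i φ) x
      rw [ENNReal.toReal_ofReal (gn_nn x), smul_eq_mul, mul_comm]
    rw [e1, e2] at key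
    exact key
  · intro s t hs0 hst
    have hμ : μ (Icc s t) = ENNReal.ofReal (∫ σ in s..t, 2 * Real.sqrt (Real.pi * ar φ σ)) := by
      rw [withDensity_apply _ measurableSet_Icc,
        ← ofReal_integral_eq_lintegral_ofReal (dn_int hφ hs0) (Eventually.of_forall fun x => dn_nn x),
        intervalIntegral.integral_of_le hst.le, integral_Icc_eq_integral_Ioc]
      rfl
    have hms : MeasurableSet (φ ⁻¹' Icc s t) := hcm measurableSet_Icc
    have hν : ν (Icc s t) = ENNReal.ofReal
        (∫ x in {x | s ≤ φ x ∧ φ x ≤ t}, gn (fun i => pd e2 i φ) x) := by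
      have e3 : ν (Icc s t) = ν0 (φ ⁻¹' Icc s t) := Measure.map_apply hcm measurableSet_Icc
      rw [e3, withDensity_apply _ hms,
        ← ofReal_integral_eq_lintegral_ofReal (gn_int hφ).integrableOn
          (Eventually.of_forall fun x => gn_nn x)]
      rfl
    rw [hμ, hν]
    exact ⟨ENNReal.ofReal_lt_top, ENNReal.ofReal_lt_top,
      ENNReal.ofReal_le_ofReal (h_M1S φ s t hφ hs0 hst)⟩

end MGS
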