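import Pool.Agent.MGS.Core

/-!
# MGS: targets C (identities in the plane)

Each target is a proposition `T_XXX`; its docstring contains the complete proof.  Other targets
(those named after `from`, or others as long as no circle arises) may be taken as hypotheses.
-/

set_option autoImplicit false

open MeasureTheory Filter Topology Metric Set
open scoped ENNReal NNReal ContDiff Pointwise

noncomputable section

namespace MGS

/-! ### Brunn-Minkowski in the plane -/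

/-- BM1.  Brunn-Minkowski inequality for bounded open nonempty sets of the plane (Bonnesen's
proof).  One dimension: for nonempty bounded open `S, T ⊆ ℝ`, `|S + T| ≥ |S| + |T|` (for compact
`K ⊆ S`, `L ⊆ T`: the translates `K + min L` and `max K + L` are in `K + L` and meet in one point;
inner regularity; see also `Pool.Agent.Lib.PL.volume_midpoint_compact`).
Plane: `α(x) = |U_x|`, `β(y) = |V_y|`, `γ(t) = |(U+V)_t|` for the slices with given first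
coordinate; `M = sup α > 0`, `N = sup β > 0` (finite).  For `0 < t < 1` the sets
`{α > tM}`, `{β > tN}` are nonempty and open (`α` is lower semicontinuous; or apply the one
dimensional inequality to compact subsets), and their sum is contained in `{γ > t(M+N)}` because
`(U+V)_{x+y} ⊇ U_x + V_y`.  So `|{γ > t(M+N)}| ≥ |{α > tM}| + |{β > tN}|`.  Integrate (layer cake):
`|U+V| = (M+N) ∫_0^∞ |{γ > t(M+N)}| dt ≥ (M+N) (|U|/M + |V|/N) ≥ |U| + |V| + 2 √(|U||V|)`. -/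
def T_BM1 : Prop := ∀ U V : Set (ℝ × ℝ), IsOpen U → IsOpen V → Bornology.IsBounded U →
  Bornology.IsBounded V → U.Nonempty → V.Nonempty →
  Real.sqrt (volume U).toReal + Real.sqrt (volume V).toReal ≤
    Real.sqrt (volume (U + V)).toReal

/-- BM2 (from BM1).  The same in `ℂ` for a set and a disc: `Complex.volume_preserving_equiv_real_prod`
(additive homeomorphism), `Complex.volume_ball`; square. -/
def T_BM2 : Prop := ∀ (U : Set ℂ) (h : ℝ), IsOpen U → Bornology.IsBounded U → U.Nonempty →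
  0 < h → (volume U).toReal + 2 * Real.sqrt (Real.pi * (volume U).toReal) * h + Real.pi * h ^ 2 ≤
    (volume (U + ball (0 : ℂ) h)).toReal

/-! ### Comparison of measures on `(0, ∞)` -/

/-- CMI.  Comparison on closed intervals implies comparison of integrals of continuous functions.
`μ((s, t]) ≤ ν((s, t])` for `0 < s < t` (`(s, t] = ⋃ [s + 1/n, t]`, increasing).  Let
`tsupport φ ⊆ [s, t] ⊆ (0, ∞)`; for a fine partition the step function
`∑ (min of φ on [s_j, s_(j+1)]) 1_{(s_j, s_(j+1)]}` is `≤ φ`, within `ε` of `φ`; sum up. -/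
def T_CMI : Prop := ∀ μ ν : Measure ℝ,
  (∀ s t, 0 < s → s < t → μ (Icc s t) < ⊤ ∧ ν (Icc s t) < ⊤ ∧ μ (Icc s t) ≤ ν (Icc s t)) →
  ∀ φ : ℝ → ℝ, Continuous φ → HasCompactSupport φ → tsupport φ ⊆ Ioi 0 → (∀ s, 0 ≤ φ s) →
  ∫ s, φ s ∂μ ≤ ∫ s, φ s ∂ν

/-- BOR.  Comparison on continuous functions implies comparison on Borel sets.  For compact
`K ⊆ (0, ∞)` there are continuous `φ_n`, compactly supported in `(0, ∞)`, decreasing to the
indicator of `K` (`thickenedIndicator`, for large `n` the thickening stays in `(0, ∞)`), so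
`μ K ≤ ν K`.  For Borel `S ⊆ (0, ∞)` use inner regularity of the restriction of `μ` to
`[1/n, n]` (a finite measure on `ℝ`). -/
def T_BOR : Prop := ∀ μ ν : Measure ℝ,
  (∀ s t, 0 < s → s < t → μ (Icc s t) < ⊤ ∧ ν (Icc s t) < ⊤) →
  (∀ φ : ℝ → ℝ, Continuous φ → HasCompactSupport φ → tsupport φ ⊆ Ioi 0 → (∀ s, 0 ≤ φ s) →
    ∫ s, φ s ∂μ ≤ ∫ s, φ s ∂ν) →
  ∀ S ⊆ Ioi (0 : ℝ), MeasurableSet S → μ S ≤ ν S

/-! ### M1: the isoperimetric inequality on the levels -/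

/-- M1S (from BM2).  Let `φ_h(x) = sup_{|y| < h} φ(x + y)`, so `{φ_h > σ} = {φ > σ} + ball 0 h`;
`N(r) = max s (min r t) - s`.  For `σ > 0` the set `{φ > σ}` is open and bounded.  By the layer
cake formula `∫ (N(φ_h) - N(φ)) = ∫_s^t (|{φ_h > σ}| - |{φ > σ}|) dσ ≥ h ∫_s^t 2√(π ar φ σ) dσ`
(BM2 if `{φ > σ}` is nonempty, trivial otherwise).  The quotient `(N(φ_h) - N(φ))/h` is between
`0` and the Lipschitz constant of `φ`, vanishes outside a fixed bounded set, and its upper limit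
as `h → 0` is `≤ |∇φ(x)|` everywhere (`φ_h(x) - φ(x) ≤ h |∇φ(x)| + o(h)` by differentiability) and
it is `0` for small `h` if `φ(x) < s` or `φ(x) > t`.  Fatou's lemma (reverse, with the
dominating function; take `h = 1/n`). -/
def T_M1S : Prop := ∀ (φ : ℂ → ℝ) (s t : ℝ), Test univ φ → 0 < s → s < t →
  ∫ σ in s..t, 2 * Real.sqrt (Real.pi * ar φ σ) ≤
    ∫ x in {x | s ≤ φ x ∧ φ x ≤ t}, gn (fun i => pd e2 i φ) x

/-- M1T (from M1S, CMI).  CMI with `μ` = the measure with density `2√(π ar φ s)` (`ar φ` is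
nonincreasing, bounded for `s ≥ s₀ > 0`) and `ν` the image under `φ` of the measure with density
`|∇φ|`. -/
def T_M1T : Prop := ∀ (φ : ℂ → ℝ) (η : ℝ → ℝ), Test univ φ → Continuous η →
  HasCompactSupport η → tsupport η ⊆ Ioi 0 → (∀ s, 0 ≤ η s) →
  ∫ s, η s * (2 * Real.sqrt (Real.pi * ar φ s)) ≤ ∫ x, η (φ x) * gn (fun i => pd e2 i φ) x

/-- M1C (from M1T).  Limit `φ_n → f` (`H1.seq`).  Right side: `|gn ∇φ_n - gn F| ≤ |∇φ_n - F|`,
`η(φ_n) → η(f)` a.e., bounded; `|{η(φ_n) ≠ 0}| ≤ |{φ_n ≥ s₀}| ≤ ‖φ_n‖²/s₀²` so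
`∫ η(φ_n) |∇φ_n - F| → 0` (Cauchy-Schwarz), and `∫ |η(φ_n) - η(f)| |F| → 0` (`F` restricted to...:
`(η(φ_n) - η(f)) → 0` in `L²`: bounded by `C (|φ_n| + |f|)` since `η(s) ≤ C |s|`, and
`‖φ_n - f‖ → 0`; dominated convergence in the generalised form, or `η` is a uniform limit of
Lipschitz functions `η_k` with `η_k(0) = 0`).  Left side: `ar φ_n s → ar f s` whenever
`|{f = s}| = 0`, that is for all but countably many `s > 0` (a.e. convergence; `{|φ_n| > s₀}` has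
uniformly bounded measure: use `|{φ_n > s}| ≤ |{f > s - δ}| + |{|φ_n - f| > δ}|`, Chebyshev, and
the reverse inequality), bounded by `C/s₀²`. -/
def T_M1C : Prop := ∀ (G : Set ℂ) (f : ℂ → ℝ) (F : Fin 2 → ℂ → ℝ) (η : ℝ → ℝ), H1 e2 G f F →
  Continuous η → HasCompactSupport η → tsupport η ⊆ Ioi 0 → (∀ s, 0 ≤ η s) →
  ∫ s, η s * (2 * Real.sqrt (Real.pi * ar f s)) ≤ ∫ x, η (f x) * gn F x

/-- M1 (from M1C, BOR).  `μ` = measure on `ℝ` with density `2√(π ar f s)`, `ν` = image under `f` of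
the measure with density `gn F`; both are finite on `[s, t]`, `0 < s < t`: `|{f ≥ s}| < ∞` and
`F ∈ L²`.  BOR gives `μ S ≤ ν S` for Borel `S ⊆ (0,∞)`, hence
`∫⁻_{(0,∞)} η dμ ≤ ∫⁻_{(0,∞)} η dν` for measurable `η ≥ 0` (`Measure.le_iff` for the restrictions,
`lintegral_mono'`). -/
def T_M1 : Prop := ∀ (G : Set ℂ) (f : ℂ → ℝ) (F : Fin 2 → ℂ → ℝ) (η : ℝ → ℝ≥0∞), H1 e2 G f F →
  Measurable f → (∀ i, Measurable (F i)) → Measurable η →
  ∫⁻ s in Ioi (0 : ℝ), η s * ENNReal.ofReal (2 * Real.sqrt (Real.pi * ar f s)) ≤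
    ∫⁻ x in {x | 0 < f x}, η (f x) * ENNReal.ofReal (gn F x)

/-! ### M2: the magnetic flux through the levels -/

/-- the vector potential in the plane -/
def Aq (B : ℝ) (i : Fin 2) (x : ℂ) : ℝ := ![-(B / 2) * x.im, (B / 2) * x.re] i

/-- the current `j_i = a ∂_i b - b ∂_i a + A_i (a² + b²)` -/
def jc (B : ℝ) (a b : ℂ → ℝ) (Fa Fb : Fin 2 → ℂ → ℝ) (i : Fin 2) (x : ℂ) : ℝ :=
  a x * Fb i x - b x * Fa i x + Aq B i x * (a x ^ 2 + b x ^ 2)

/-- `W = (j_0 ∂_1 f - j_1 ∂_0 f)/f`, `f = |a + i b|` -/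
def Wc (B : ℝ) (a b : ℂ → ℝ) (Fa Fb : Fin 2 → ℂ → ℝ) (x : ℂ) : ℝ :=
  (jc B a b Fa Fb 0 x * mg a b Fa Fb 1 x - jc B a b Fa Fb 1 x * mg a b Fa Fb 0 x) / md a b x

/-- the horizontal magnetic energy density -/
def eq2 (B : ℝ) (a b : ℂ → ℝ) (Fa Fb : Fin 2 → ℂ → ℝ) (x : ℂ) : ℝ :=
  ∑ i : Fin 2, ((Fa i x - Aq B i x * b x) ^ 2 + (Fb i x + Aq B i x * a x) ^ 2)

/-- `h = |j|/f` -/
def hc (B : ℝ) (a b : ℂ → ℝ) (Fa Fb : Fin 2 → ℂ → ℝ) (x : ℂ) : ℝ :=
  Real.sqrt (jc B a b Fa Fb 0 x ^ 2 + jc B a b Fa Fb 1 x ^ 2) / md a b x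

/-- ALG.  Pointwise algebra at a point with `f = md a b x > 0`.  With `p = Fa i - A_i b`,
`q = Fb i + A_i a`: `a p + b q = f mg_i`, `a q - b p = j_i`, and
`(p² + q²)(a² + b²) = (ap + bq)² + (aq - bp)²`; so `eq2 = g² + h²`.  `|W| ≤ g h` is
Cauchy-Schwarz.  The identity
`g² + h² - (2kgh + 2(1-k²)qg - (1-k²)q²) = (h - kg)² + (1-k²)(g-q)²` gives the inequality; in the
equality case all of `(h-kg)²`, `(1-k²)(g-q)²`, `2k(gh - W)` vanish. -/
def T_ALG : Prop := ∀ (B : ℝ) (a b : ℂ → ℝ) (Fa Fb : Fin 2 → ℂ → ℝ) (x : ℂ), 0 < md a b x →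
  eq2 B a b Fa Fb x = gn (mg a b Fa Fb) x ^ 2 + hc B a b Fa Fb x ^ 2 ∧
  |Wc B a b Fa Fb x| ≤ gn (mg a b Fa Fb) x * hc B a b Fa Fb x ∧
  ∀ k q : ℝ, 0 ≤ k → k ≤ 1 → 0 ≤ q →
    2 * k * Wc B a b Fa Fb x + 2 * (1 - k ^ 2) * q * gn (mg a b Fa Fb) x - (1 - k ^ 2) * q ^ 2 ≤
      eq2 B a b Fa Fb x ∧
    (2 * k * Wc B a b Fa Fb x + 2 * (1 - k ^ 2) * q * gn (mg a b Fa Fb) x - (1 - k ^ 2) * q ^ 2 =
      eq2 B a b Fa Fb x → k < 1 → gn (mg a b Fa Fb) x = q ∧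
        hc B a b Fa Fb x = k * q ∧
        (0 < k → Wc B a b Fa Fb x = gn (mg a b Fa Fb) x * hc B a b Fa Fb x))

/-- M2S.  Stokes' theorem on the levels, smooth case.  `f = md φ ψ` is smooth where `f > 0`;
`F_i = j_i/f² = (φ ∂_i ψ - ψ ∂_i φ)/f² + A_i` satisfies `∂_0 F_1 - ∂_1 F_0 = B` there
(symmetry of second derivatives).  `N(s) = ∫_0^s η(t) t dt` vanishes near `0`, so `N(f) F_i`
(`0` where `f = 0`) is `C^1` with compact support, and
`η(f) W = F_0 ∂_1 (N f) - F_1 ∂_0 (N f) = ∂_1 (N(f) F_0) - ∂_0 (N(f) F_1) + B N(f)`.  Integrals of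
derivatives of compactly supported `C^1` functions vanish.  `∫ N(f) = ∫_0^∞ η(s) s ar f s ds`
(layer cake / Fubini). -/
def T_M2S : Prop := ∀ (B : ℝ) (φ ψ : ℂ → ℝ) (η : ℝ → ℝ), Test univ φ → Test univ ψ →
  Continuous η → HasCompactSupport η → tsupport η ⊆ Ioi 0 →
  ∫ x, η (md φ ψ x) * Wc B φ ψ (fun i => pd e2 i φ) (fun i => pd e2 i ψ) x =
    B * ∫ s in Ioi (0 : ℝ), η s * (s * ar (md φ ψ) s)

/-- M2C (from M2S).  Limit `φ_n → a`, `ψ_n → b` (`H1.seq`, common subsequence), all supports in the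
ball.  `η(f) W` is `η(f)/f³` times a polynomial in `a, b, x` (degree `≤ 4` in `a, b`, homogeneous
expression divided by `f`), linear or quadratic in `Fa, Fb`: on `{f ≥ s₀}` the coefficients are
bounded and converge a.e.; products of two `L²` convergent sequences converge in `L¹`; use
`|η(f_n) W_n| ≤ C (|∇φ_n| + |∇ψ_n|)(|∇φ_n| + |∇ψ_n| + R f_n)` and generalised dominated convergence (or
Vitali).  Right side: as in M1C, `ar f_n s → ar f s` for all but countably many `s`; bounded by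
the area of the ball. -/
def T_M2C : Prop := ∀ (B R : ℝ) (a b : ℂ → ℝ) (Fa Fb : Fin 2 → ℂ → ℝ) (η : ℝ → ℝ),
  H1 e2 (ball 0 R) a Fa → H1 e2 (ball 0 R) b Fb →
  Continuous η → HasCompactSupport η → tsupport η ⊆ Ioi 0 →
  ∫ x, η (md a b x) * Wc B a b Fa Fb x = B * ∫ s in Ioi (0 : ℝ), η s * (s * ar (md a b) s)

/-- M2 (from M2C, BOR, ALG, MOD).  Bounded measurable `η`.  `W` is integrable: `W = 0` where
`f = 0`, `|W| ≤ g h` (ALG), `g² + h² = eq2 ∈ L¹`.  `s ar f s` is integrable on `(0, ∞)`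
(`= ½ ∫ f²`).  Split `W = W⁺ - W⁻` and (if `B ≥ 0`) compare the two measures on `(0,∞)`: the image
under `f` of `W⁺ dx`, and the sum of the image of `W⁻ dx` and of the measure with density
`B s ar f s`: they agree on continuous functions by M2C, hence on Borel sets (BOR twice), hence on
bounded measurable functions.  If `B < 0` put the term on the other side. -/
def T_M2 : Prop := ∀ (B R : ℝ) (a b : ℂ → ℝ) (Fa Fb : Fin 2 → ℂ → ℝ) (η : ℝ → ℝ) (K : ℝ),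
  H1 e2 (ball 0 R) a Fa → H1 e2 (ball 0 R) b Fb → Measurable a → Measurable b →
  (∀ i, Measurable (Fa i)) → (∀ i, Measurable (Fb i)) → Measurable η → (∀ s, |η s| ≤ K) →
  Integrable (Wc B a b Fa Fb) ∧ IntegrableOn (fun s => s * ar (md a b) s) (Ioi 0) ∧
  ∫ x, η (md a b x) * Wc B a b Fa Fb x = B * ∫ s in Ioi (0 : ℝ), η s * (s * ar (md a b) s)

/-! ### Radial functions -/

/-- RDG.  The gradient of a radial nonincreasing function.  Let `η` be a test function.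
(1) For `w = e^{iθ}`: `∫ v(x) η(w⁻¹ x) dx` does not depend on `θ`; differentiate at `θ = 0`:
`∫ v (x^⊥·∇η) = 0` where `x^⊥·∇η = div(η x^⊥)`, so `∫ (G·x^⊥) η = 0` (IBP for `v` against
`η x^⊥`): `G·x^⊥ = 0` a.e.  (2) If `η ≥ 0`, for `λ ≥ 1`: `λ⁻² ∫ v(x) η(x/λ) dx = ∫ v(λx) η(x) dx ≤
∫ v η`; the derivative at `λ = 1` is `-∫ v div(η x) = ∫ (G·x) η ≤ 0`: `G·x ≤ 0` a.e.  A vector
orthogonal to `x^⊥` with `G·x ≤ 0` is `-|G| x/|x|`. -/
def T_RDG : Prop := ∀ (G' : Set ℂ) (v : ℂ → ℝ) (G : Fin 2 → ℂ → ℝ) (w : ℝ → ℝ), H1 e2 G' v G →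
  (∀ x, v x = w ‖x‖) → AntitoneOn w (Ioi 0) →
  ∀ᵐ x, G 0 x = -(gn G x * x.re / ‖x‖) ∧ G 1 x = -(gn G x * x.im / ‖x‖)

/-- RDT (from RDG, TRL, UNI).  `|G|` is radial.  For `|c| = 1`, `v(c x) = v(x)`; by TRL
(`L x = c x`) and UNI `gn G (c x) = gn G x` for a.e. `x`.  Let `T(r) = (2π)⁻¹ ∫_0^{2π} |G|(r e^{iθ}) dθ`
(as a `lintegral`, `toReal`; measurable).  By Fubini for a.e. `x` the equality `|G|(e^{iθ}x) =
|G|(x)` holds for a.e. `θ`, and `T(‖x‖)` is the mean of `θ ↦ |G|(e^{iθ} x)` (translation invariance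
on the circle), so `T(‖x‖) = |G|(x)`. -/
def T_RDT : Prop := ∀ (G' : Set ℂ) (v : ℂ → ℝ) (G : Fin 2 → ℂ → ℝ) (w : ℝ → ℝ), H1 e2 G' v G →
  (∀ i, Measurable (G i)) → (∀ x, v x = w ‖x‖) →
  ∃ T : ℝ → ℝ, Measurable T ∧ (∀ r, 0 ≤ T r) ∧ ∀ᵐ x, gn G x = T ‖x‖

/-- M1V (from RDG, BCC, BOR).  First for `η` continuous, compactly supported in `(0, ∞)`.
`N = ∫_0 η`; `N(v)` is in `H¹₀`, gradient `η(v) G` (BCC), bounded with bounded support.  With the
smooth field `Y_δ = x/√(|x|² + δ²)`, `div Y_δ = (|x|² + 2δ²)/(|x|² + δ²)^{3/2} ≤ 2/|x|`, integration by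
parts gives `-∫ η(v) G·Y_δ = ∫ N(v) div Y_δ`; `δ → 0`: `∫ η(v) |G| = ∫ N(v)/|x| dx` (RDG; dominated
convergence, `1/|x|` is locally integrable), and by Fubini
`∫ N(v)/|x| = ∫ η(s) ∫_{v > s} dx/|x| ds`, where `{v > s}` is a disc of radius `r` up to a null set
(`v` is radial nonincreasing), `∫_{|x|<r} dx/|x| = 2π r = 2√(π · π r²)`.  Then BOR in both
directions. -/
def T_M1V : Prop := ∀ (R : ℝ) (v : ℂ → ℝ) (G : Fin 2 → ℂ → ℝ) (w : ℝ → ℝ) (η : ℝ → ℝ≥0∞),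
  H1 e2 (ball 0 R) v G → Nc R v → (∀ i, Measurable (G i)) → (∀ x, v x = w ‖x‖) →
  AntitoneOn w (Ioi 0) → Measurable η →
  ∫⁻ s in Ioi (0 : ℝ), η s * ENNReal.ofReal (2 * Real.sqrt (Real.pi * ar v s)) =
    ∫⁻ x in {x | 0 < v x}, η (v x) * ENNReal.ofReal (gn G x)

/-- M2V (from RDG, BCC, BOR).  First for `η` continuous, compactly supported in `(0, ∞)`.
`N(s) = ∫_0^s η(t) t dt`.  `∇(N(v)) = η(v) v G` (BCC), and integrating by parts against the field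
`x/2` (divergence `1`; cut off outside the ball): `∫ η(v) v (|x|/2) |G| = -∫ ∇(N(v))·x/2 = ∫ N(v) =
∫ η(s) s ar v s ds` (Fubini).  Then BOR in both directions, for nonnegative `η`, and
`η = η⁺ - η⁻`. -/
def T_M2V : Prop := ∀ (R : ℝ) (v : ℂ → ℝ) (G : Fin 2 → ℂ → ℝ) (w : ℝ → ℝ) (η : ℝ → ℝ) (K : ℝ),
  H1 e2 (ball 0 R) v G → Nc R v → (∀ i, Measurable (G i)) → (∀ x, v x = w ‖x‖) →
  AntitoneOn w (Ioi 0) → Measurable η → (∀ s, |η s| ≤ K) →
  ∫ x, η (v x) * (v x * (‖x‖ / 2) * gn G x) = ∫ s in Ioi (0 : ℝ), η s * (s * ar v s)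

end MGS
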