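import Pool.Agent.MGS.TA
import Pool.Agent.MGS.TC

/-!
# MGS-M2: the magnetic flux through the levels, bounded measurable weights
-/

set_option autoImplicit false

open MeasureTheory Filter Topology Metric Set
open scoped ENNReal NNReal ContDiff

noncomputable section

namespace MGS

namespace M2_

/-- the integral against a density -/
lemma int_dens {α : Type} [MeasurableSpace α] (m : Measure α) {W : α → ℝ} (hW : Measurable W)
    (g : α → ℝ) :
    ∫ x, g x ∂(m.withDensity fun x => ENNReal.ofReal (W x)) = ∫ x, g x * max (W x) 0 ∂m := by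
  rw [integral_withDensity_eq_integral_toReal_smul hW.ennreal_ofReal
    (Eventually.of_forall fun x => ENNReal.ofReal_lt_top)]
  apply integral_congr_ae
  refine Eventually.of_forall fun x => ?_
  simp only [smul_eq_mul]
  rw [ENNReal.toReal_ofReal', mul_comm]

lemma bdd_int {α : Type} [MeasurableSpace α] (m : Measure α) [IsFiniteMeasure m] {g : α → ℝ}
    (hg : Measurable g) {K : ℝ} (hK : ∀ s, |g s| ≤ K) : Integrable g m :=
  Integrable.of_bound hg.aestronglyMeasurable K (Eventually.of_forall fun s => by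
    rw [Real.norm_eq_abs]; exact hK s)

/-- the general comparison argument -/
lemma cmp (h_BOR : T_BOR) {W f : ℂ → ℝ} {L : ℝ → ℝ} (hW : Integrable W) (hWm : Measurable W)
    (hf : Measurable f) (hf0 : ∀ x, 0 ≤ f x) (hWf : ∀ x, f x = 0 → W x = 0) (hL : Measurable L)
    (hLi : IntegrableOn L (Ioi 0)) (hL0 : ∀ s, 0 < s → 0 ≤ L s) (B : ℝ)
    (heq : ∀ φ : ℝ → ℝ, Continuous φ → HasCompactSupport φ → tsupport φ ⊆ Ioi 0 →
      ∫ x, φ (f x) * W x = B * ∫ s in Ioi (0 : ℝ), φ s * L s)
    (η : ℝ → ℝ) (K : ℝ) (hη : Measurable η) (hK : ∀ s, |η s| ≤ K) :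
    ∫ x, η (f x) * W x = B * ∫ s in Ioi (0 : ℝ), η s * L s := by
  set μ0 : Measure ℂ := volume.withDensity fun x => ENNReal.ofReal (W x) with hμ0
  set ν0 : Measure ℂ := volume.withDensity fun x => ENNReal.ofReal (-W x) with hν0
  set lam0 : Measure ℝ := (volume.restrict (Ioi (0 : ℝ))).withDensity
    fun s => ENNReal.ofReal (L s) with hlam0
  have f1 : IsFiniteMeasure μ0 := isFiniteMeasure_withDensity_ofReal hW.2
  have f2 : IsFiniteMeasure ν0 := isFiniteMeasure_withDensity_ofReal hW.neg.2
  have f3 : IsFiniteMeasure lam0 := isFiniteMeasure_withDensity_ofReal hLi.2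
  have f4 : IsFiniteMeasure (μ0.map f) := Measure.isFiniteMeasure_map _ _
  have f5 : IsFiniteMeasure (ν0.map f) := Measure.isFiniteMeasure_map _ _
  set c1 : ℝ≥0 := (-B).toNNReal with hc1
  set c2 : ℝ≥0 := B.toNNReal with hc2
  set μ : Measure ℝ := μ0.map f + c1 • lam0 with hμ
  set ν : Measure ℝ := ν0.map f + c2 • lam0 with hν
  have f6 : IsFiniteMeasure μ := by rw [hμ]; infer_instance
  have f7 : IsFiniteMeasure ν := by rw [hν]; infer_instance
  have hL2 : ∀ g : ℝ → ℝ, ∫ s, g s ∂lam0 = ∫ s in Ioi (0 : ℝ), g s * L s := by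
    intro g
    rw [hlam0, int_dens _ hL]
    apply setIntegral_congr_fun measurableSet_Ioi
    intro s hs
    simp only
    rw [max_eq_left (hL0 s hs)]
  -- the two formulas
  have key : ∀ (g : ℝ → ℝ) (K : ℝ), Measurable g → (∀ s, |g s| ≤ K) →
      (∫ s, g s ∂μ) - (∫ s, g s ∂ν) = (∫ x, g (f x) * W x) - B * ∫ s in Ioi (0 : ℝ), g s * L s := by
    intro g K hg hgK
    have i1 : Integrable g (μ0.map f) := bdd_int _ hg hgK
    have i2 : Integrable g (ν0.map f) := bdd_int _ hg hgK
    have i3 : Integrable g (c1 • lam0) := bdd_int _ hg hgK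
    have i4 : Integrable g (c2 • lam0) := bdd_int _ hg hgK
    have hgf : Measurable fun x => g (f x) := hg.comp hf
    have j1 : Integrable fun x => g (f x) * max (W x) 0 := by
      refine Integrable.bdd_mul (c := K) (hW.pos_part) hgf.aestronglyMeasurable ?_
      exact Eventually.of_forall fun x => by rw [Real.norm_eq_abs]; exact hgK _
    have j2 : Integrable fun x => g (f x) * max (-W x) 0 := by
      refine Integrable.bdd_mul (c := K) (hW.neg_part) hgf.aestronglyMeasurable ?_
      exact Eventually.of_forall fun x => by rw [Real.norm_eq_abs]; exact hgK _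
    have e1 : ∫ s, g s ∂μ = (∫ x, g (f x) * max (W x) 0) +
        c1 * ∫ s in Ioi (0 : ℝ), g s * L s := by
      rw [hμ, integral_add_measure i1 i3, integral_smul_nnreal_measure,
        integral_map hf.aemeasurable hg.aestronglyMeasurable, hμ0, int_dens _ hWm, hL2]
      rfl
    have e2 : ∫ s, g s ∂ν = (∫ x, g (f x) * max (-W x) 0) +
        c2 * ∫ s in Ioi (0 : ℝ), g s * L s := by
      rw [hν, integral_add_measure i2 i4, integral_smul_nnreal_measure,
        integral_map hf.aemeasurable hg.aestronglyMeasurable, hν0,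
        int_dens _ (W := fun x => -W x) hWm.neg, hL2]
      rfl
    have e3 : ∫ x, g (f x) * W x = (∫ x, g (f x) * max (W x) 0) -
        ∫ x, g (f x) * max (-W x) 0 := by
      rw [← integral_sub j1 j2]
      congr 1
      funext x
      rw [← mul_sub]
      congr 1
      rcases le_total 0 (W x) with h | h
      · rw [max_eq_left h, max_eq_right (by linarith)]; ring
      · rw [max_eq_right h, max_eq_left (by linarith)]; ring
    have e4 : (c2 : ℝ) - c1 = B := by
      rw [hc1, hc2]
      rcases le_total 0 B with h | h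
      · rw [Real.coe_toNNReal _ h, Real.toNNReal_of_nonpos (by linarith)]; simp
      · rw [Real.coe_toNNReal (-B) (by linarith), Real.toNNReal_of_nonpos h]; simp
    rw [e1, e2, e3, ← e4]
    ring
  have hbdφ : ∀ φ : ℝ → ℝ, Continuous φ → HasCompactSupport φ → ∃ K, ∀ s, |φ s| ≤ K := by
    intro φ h1 h2
    obtain ⟨C, hC⟩ := h1.bounded_above_of_compact_support h2
    exact ⟨C, fun s => by rw [← Real.norm_eq_abs]; exact hC s⟩
  have hφ : ∀ φ : ℝ → ℝ, Continuous φ → HasCompactSupport φ → tsupport φ ⊆ Ioi 0 →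
      ∫ s, φ s ∂μ = ∫ s, φ s ∂ν := by
    intro φ h1 h2 h3
    obtain ⟨C, hC⟩ := hbdφ φ h1 h2
    have := key φ C h1.measurable hC
    rw [heq φ h1 h2 h3] at this
    linarith
  have hS : ∀ S ⊆ Ioi (0 : ℝ), MeasurableSet S → μ S = ν S := by
    intro S hS hSm
    apply le_antisymm
    · exact h_BOR μ ν (fun s t _ _ => ⟨measure_lt_top _ _, measure_lt_top _ _⟩)
        (fun φ h1 h2 h3 _ => (hφ φ h1 h2 h3).le) S hS hSm
    · exact h_BOR ν μ (fun s t _ _ => ⟨measure_lt_top _ _, measure_lt_top _ _⟩)
        (fun φ h1 h2 h3 _ => (hφ φ h1 h2 h3).ge) S hS hSm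
  have hres : μ.restrict (Ioi 0) = ν.restrict (Ioi 0) := by
    ext S hSm
    rw [Measure.restrict_apply hSm, Measure.restrict_apply hSm]
    exact hS _ inter_subset_right (hSm.inter measurableSet_Ioi)
  set g : ℝ → ℝ := (Ioi (0 : ℝ)).indicator η with hgdef
  have hgm : Measurable g := hη.indicator measurableSet_Ioi
  have hK0 : 0 ≤ K := (abs_nonneg _).trans (hK 0)
  have hgK : ∀ s, |g s| ≤ K := by
    intro s
    rw [hgdef]
    by_cases h : s ∈ Ioi (0 : ℝ)
    · rw [indicator_of_mem h]; exact hK s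
    · rw [indicator_of_notMem h, abs_zero]; exact hK0
  have k1 := key g K hgm hgK
  have k2 : ∫ s, g s ∂μ = ∫ s, g s ∂ν := by
    rw [hgdef, integral_indicator measurableSet_Ioi, integral_indicator measurableSet_Ioi, hres]
  have k3 : ∫ x, g (f x) * W x = ∫ x, η (f x) * W x := by
    congr 1
    funext x
    rcases (hf0 x).eq_or_lt with h | h
    · rw [hWf x h.symm, mul_zero, mul_zero]
    · rw [hgdef, indicator_of_mem (show f x ∈ Ioi (0 : ℝ) from h)]
  have k4 : ∫ s in Ioi (0 : ℝ), g s * L s = ∫ s in Ioi (0 : ℝ), η s * L s := by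
    apply setIntegral_congr_fun measurableSet_Ioi
    intro s hs
    simp only
    rw [hgdef, indicator_of_mem hs]
  rw [k2, k3, k4] at k1
  linarith

lemma md_nonneg {E : Type} (a b : E → ℝ) (P : E) : 0 ≤ md a b P := Real.sqrt_nonneg _

lemma ar_meas (f : ℂ → ℝ) : Measurable (ar f) := by
  unfold ar
  have h : Antitone fun s : ℝ => volume {x : ℂ | s < f x} := by
    intro s t hst
    apply measure_mono
    intro x hx
    exact lt_of_le_of_lt hst hx
  exact h.measurable.ennreal_toReal

lemma layer (f : ℂ → ℝ) (hf : Measurable f) (hf0 : ∀ x, 0 ≤ f x)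
    (h2 : Integrable fun x => f x ^ 2) : IntegrableOn (fun s => s * ar f s) (Ioi 0) := by
  have h := lintegral_rpow_eq_lintegral_meas_lt_mul (volume : Measure ℂ)
    (Eventually.of_forall hf0) hf.aemeasurable (p := 2) (by norm_num)
  have hfin : ∫⁻ x, ENNReal.ofReal (f x ^ (2 : ℝ)) < ⊤ := by
    have : ∀ x, f x ^ (2 : ℝ) = f x ^ 2 := fun x => by norm_cast
    simp only [this]
    exact h2.lintegral_lt_top
  rw [h] at hfin
  have hfin2 : ∫⁻ t in Ioi (0 : ℝ), volume {a | t < f a} * ENNReal.ofReal (t ^ ((2 : ℝ) - 1)) < ⊤ := by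
    by_contra hcon
    rw [not_lt, top_le_iff] at hcon
    rw [hcon] at hfin
    rw [ENNReal.mul_top (by simp)] at hfin
    exact lt_irrefl _ hfin
  refine ⟨?_, ?_⟩
  · exact (measurable_id.mul (ar_meas f)).aestronglyMeasurable
  · refine lt_of_le_of_lt ?_ hfin2
    apply setLIntegral_mono' measurableSet_Ioi
    intro s hs
    have hs0 : (0 : ℝ) < s := hs
    rw [enorm_mul, mul_comm]
    have e1 : s ^ ((2 : ℝ) - 1) = s := by norm_num
    rw [e1]
    apply mul_le_mul'
    · unfold ar
      rw [Real.enorm_of_nonneg ENNReal.toReal_nonneg]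
      exact ENNReal.ofReal_toReal_le
    · rw [Real.enorm_of_nonneg hs0.le]

end M2_

open M2_ in
theorem p_M2 (h_M2C : T_M2C) (h_BOR : T_BOR) (h_ALG : T_ALG) (h_ZRO : T_ZRO) : T_M2 := by
  intro B R a b Fa Fb η K ha hb ma mb mFa mFb hη hK
  have mAq : ∀ i, Measurable (Aq B i) := by
    intro i
    have : Continuous (Aq B i) := by
      fin_cases i
      · change Continuous fun x : ℂ => -(B / 2) * x.im
        exact continuous_const.mul Complex.continuous_im
      · change Continuous fun x : ℂ => (B / 2) * x.re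
        exact continuous_const.mul Complex.continuous_re
    exact this.measurable
  have mmd : Measurable (md a b) := by
    unfold md
    exact ((ma.pow_const 2).add (mb.pow_const 2)).sqrt
  have mmg : ∀ i, Measurable (mg a b Fa Fb i) := by
    intro i
    unfold mg
    exact ((ma.mul (mFa i)).add (mb.mul (mFb i))).div mmd
  have mjc : ∀ i, Measurable (jc B a b Fa Fb i) := by
    intro i
    unfold jc
    exact ((ma.mul (mFb i)).sub (mb.mul (mFa i))).add
      ((mAq i).mul ((ma.pow_const 2).add (mb.pow_const 2)))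
  have mW : Measurable (Wc B a b Fa Fb) := by
    unfold Wc
    exact (((mjc 0).mul (mmg 1)).sub ((mjc 1).mul (mmg 0))).div mmd
  -- `W` vanishes where `f = 0`
  have hW0 : ∀ x, md a b x = 0 → Wc B a b Fa Fb x = 0 := by
    intro x hx
    unfold Wc
    rw [hx, div_zero]
  -- the energy density is integrable
  have bnd : ∀ (u : ℂ → ℝ) (Fu : Fin 2 → ℂ → ℝ), H1 e2 (ball 0 R) u Fu → Measurable u → ∀ i,
      MemLp (fun x => Aq B i x * u x) 2 volume := by
    intro u Fu hu mu i
    have hz := h_ZRO ℂ (Fin 2) e2 (ball 0 R) u Fu hu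
    refine MemLp.of_le_mul (c := |B / 2| * |R|) hu.memLp
      ((mAq i).mul mu).aestronglyMeasurable ?_
    filter_upwards [hz] with x hx
    by_cases hxb : x ∈ ball (0 : ℂ) R
    · rw [mem_ball_zero_iff] at hxb
      have h1 : |Aq B i x| ≤ |B / 2| * |R| := by
        have hR : ‖x‖ ≤ |R| := hxb.le.trans (le_abs_self R)
        fin_cases i
        · change |-(B / 2) * x.im| ≤ _
          rw [abs_mul, abs_neg]
          exact mul_le_mul_of_nonneg_left ((Complex.abs_im_le_norm x).trans hR) (abs_nonneg _)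
        · change |(B / 2) * x.re| ≤ _
          rw [abs_mul]
          exact mul_le_mul_of_nonneg_left ((Complex.abs_re_le_norm x).trans hR) (abs_nonneg _)
      rw [norm_mul, Real.norm_eq_abs]
      exact mul_le_mul_of_nonneg_right h1 (norm_nonneg _)
    · rw [(hx hxb).1]
      simp
  have ieq : Integrable (eq2 B a b Fa Fb) := by
    unfold eq2
    apply integrable_finsetSum
    intro i _
    apply Integrable.add
    · exact ((ha.memLp' i).sub (bnd b Fb hb mb i)).integrable_sq
    · exact ((hb.memLp' i).add (bnd a Fa ha ma i)).integrable_sq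
  have iW : Integrable (Wc B a b Fa Fb) := by
    refine ieq.mono' mW.aestronglyMeasurable (Eventually.of_forall fun x => ?_)
    rw [Real.norm_eq_abs]
    rcases (md_nonneg a b x).eq_or_lt with h | h
    · rw [hW0 x h.symm, abs_zero]
      unfold eq2
      positivity
    · obtain ⟨h1, h2, _⟩ := h_ALG B a b Fa Fb x h
      rw [h1]
      refine h2.trans ?_
      nlinarith [sq_nonneg (gn (mg a b Fa Fb) x - hc B a b Fa Fb x),
        sq_nonneg (gn (mg a b Fa Fb) x), sq_nonneg (hc B a b Fa Fb x)]
  have iL : IntegrableOn (fun s => s * ar (md a b) s) (Ioi 0) := by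
    apply layer _ mmd (md_nonneg a b)
    have : (fun x => md a b x ^ 2) = fun x => a x ^ 2 + b x ^ 2 := by
      funext x
      unfold md
      rw [Real.sq_sqrt (by positivity)]
    rw [this]
    exact ha.memLp.integrable_sq.add hb.memLp.integrable_sq
  refine ⟨iW, iL, ?_⟩
  refine cmp h_BOR iW mW mmd (md_nonneg a b) hW0 (measurable_id.mul (ar_meas _)) iL ?_ B ?_ η K
    hη hK
  · intro s hs
    exact mul_nonneg hs.le ENNReal.toReal_nonneg
  · intro φ h1 h2 h3
    exact h_M2C B R a b Fa Fb φ ha hb h1 h2 h3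

end MGS
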