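import Pool.Agent.MGS.TC

/-!
# MGS: Stokes' theorem on the levels, continuous weights
-/

set_option autoImplicit false

open MeasureTheory Filter Topology Metric Set
open scoped ENNReal NNReal ContDiff

noncomputable section

namespace MGS

namespace M2C_

/-- products of sequences that converge in `L²` converge in `L¹` -/
lemma prod_lim {u v : ℂ → ℝ} {un vn : ℕ → ℂ → ℝ} (hu : MemLp u 2 volume) (hv : MemLp v 2 volume)
    (hun : ∀ n, MemLp (un n) 2 volume) (hvn : ∀ n, MemLp (vn n) 2 volume)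
    (h1 : Tendsto (fun n => eLpNorm (fun x => un n x - u x) 2 volume) atTop (𝓝 0))
    (h2 : Tendsto (fun n => eLpNorm (fun x => vn n x - v x) 2 volume) atTop (𝓝 0)) :
    Tendsto (fun n => eLpNorm (fun x => un n x * vn n x - u x * v x) 1 volume) atTop (𝓝 0) := by
  have hol : ∀ f g : ℂ → ℝ, MemLp f 2 volume → MemLp g 2 volume →
      eLpNorm (fun x => f x * g x) 1 volume ≤ eLpNorm f 2 volume * eLpNorm g 2 volume := by
    intro f g hf hg
    have h := eLpNorm_smul_le_mul_eLpNorm (μ := (volume : Measure ℂ)) (p := (2 : ℝ≥0∞))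
      (q := (2 : ℝ≥0∞)) (r := (1 : ℝ≥0∞)) (f := g) (φ := f) hg.1 hf.1
    have e : (fun x => f x * g x) = f • g := rfl
    rw [e]
    exact h
  have hb : ∀ n, eLpNorm (fun x => un n x * vn n x - u x * v x) 1 volume ≤
      eLpNorm (fun x => un n x - u x) 2 volume * eLpNorm (fun x => vn n x - v x) 2 volume +
      eLpNorm (fun x => un n x - u x) 2 volume * eLpNorm v 2 volume +
      eLpNorm u 2 volume * eLpNorm (fun x => vn n x - v x) 2 volume := by
    intro n
    have m1 : MemLp (fun x => un n x - u x) 2 volume := (hun n).sub hu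
    have m2 : MemLp (fun x => vn n x - v x) 2 volume := (hvn n).sub hv
    have e1 : (fun x => un n x * vn n x - u x * v x) =
        ((fun x => (un n x - u x) * (vn n x - v x)) + fun x => (un n x - u x) * v x) +
          fun x => u x * (vn n x - v x) := by
      funext x
      simp only [Pi.add_apply]
      ring
    rw [e1]
    refine (eLpNorm_add_le ?_ ?_ le_rfl).trans (add_le_add ?_ (hol _ _ hu m2))
    · exact (m1.1.mul m2.1).add (m1.1.mul hv.1)
    · exact hu.1.mul m2.1
    · refine (eLpNorm_add_le ?_ ?_ le_rfl).trans (add_le_add (hol _ _ m1 m2) (hol _ _ m1 hv))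
      · exact m1.1.mul m2.1
      · exact m1.1.mul hv.1
  have l1 := ENNReal.Tendsto.mul h1 (Or.inr ENNReal.zero_ne_top) h2 (Or.inr ENNReal.zero_ne_top)
  have l2 := ENNReal.Tendsto.mul_const (b := eLpNorm v 2 volume) h1 (Or.inr hv.2.ne)
  have l3 := ENNReal.Tendsto.const_mul (a := eLpNorm u 2 volume) h2 (Or.inr hu.2.ne)
  have l4 := (l1.add l2).add l3
  simp only [mul_zero, zero_mul, add_zero] at l4
  exact tendsto_of_tendsto_of_tendsto_of_le_of_le tendsto_const_nhds l4 (fun _ => zero_le) hb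

lemma add_lim {u v : ℂ → ℝ} {un vn : ℕ → ℂ → ℝ} (hu : ∀ n, AEStronglyMeasurable
    (fun x => un n x - u x) volume) (hv : ∀ n, AEStronglyMeasurable (fun x => vn n x - v x) volume)
    (h1 : Tendsto (fun n => eLpNorm (fun x => un n x - u x) 1 volume) atTop (𝓝 0))
    (h2 : Tendsto (fun n => eLpNorm (fun x => vn n x - v x) 1 volume) atTop (𝓝 0)) :
    Tendsto (fun n => eLpNorm (fun x => (un n x + vn n x) - (u x + v x)) 1 volume) atTop
      (𝓝 0) := by
  have l4 := h1.add h2
  rw [add_zero] at l4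
  refine tendsto_of_tendsto_of_tendsto_of_le_of_le tendsto_const_nhds l4 (fun _ => zero_le)
    fun n => ?_
  have e1 : (fun x => (un n x + vn n x) - (u x + v x)) =
      (fun x => un n x - u x) + fun x => vn n x - v x := by
    funext x
    simp only [Pi.add_apply]
    ring
  change eLpNorm (fun x => (un n x + vn n x) - (u x + v x)) 1 volume ≤ _
  rw [e1]
  exact eLpNorm_add_le (hu n) (hv n) le_rfl

/-- the polynomial which is `W` where `|a + i b| > 0` -/
def PP (B : ℝ) (a b : ℂ → ℝ) (Fa Fb : Fin 2 → ℂ → ℝ) (x : ℂ) : ℝ :=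
  (Fa 1 x * Fb 0 x + (-Fa 0 x) * Fb 1 x) +
    (((Aq B 0 x * a x) * Fa 1 x + (Aq B 0 x * b x) * Fb 1 x) +
      ((Aq B 1 x * a x) * (-Fa 0 x) + (Aq B 1 x * b x) * (-Fb 0 x)))

lemma eta_Wc (B : ℝ) (a b : ℂ → ℝ) (Fa Fb : Fin 2 → ℂ → ℝ) (η : ℝ → ℝ)
    (hη : tsupport η ⊆ Ioi 0) (x : ℂ) :
    η (md a b x) * Wc B a b Fa Fb x = η (md a b x) * PP B a b Fa Fb x := by
  by_cases h0 : md a b x = 0
  · have : η 0 = 0 := by
      by_contra h
      have h1 : (0 : ℝ) ∈ tsupport η := subset_tsupport η h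
      have h2 : (0 : ℝ) < 0 := hη h1
      exact lt_irrefl _ h2
    rw [h0, this, zero_mul, zero_mul]
  · congr 1
    have h2 : md a b x ^ 2 = a x ^ 2 + b x ^ 2 := by
      unfold md
      exact Real.sq_sqrt (by positivity)
    unfold Wc jc mg PP
    field_simp
    rw [h2]
    ring

end M2C_

open M2C_ in
theorem p_M2C (h_M2S : T_M2S) : T_M2C := by
  intro B R a b Fa Fb η ha hb hη hηc hηs
  -- measurable representatives
  wlog hmm : Measurable a ∧ Measurable b generalizing a b with H
  · have e1 := ha.1.1.ae_eq_mk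
    have e2 := hb.1.1.ae_eq_mk
    have h1 := H (ha.1.1.mk a) (hb.1.1.mk b) (ha.congr e1 fun _ => ae_eq_refl _)
      (hb.congr e2 fun _ => ae_eq_refl _)
      ⟨ha.1.1.stronglyMeasurable_mk.measurable, hb.1.1.stronglyMeasurable_mk.measurable⟩
    have hmd : md a b =ᵐ[volume] md (ha.1.1.mk a) (hb.1.1.mk b) := by
      filter_upwards [e1, e2] with x h1 h2
      unfold md
      rw [← h1, ← h2]
    have har : ar (md a b) = ar (md (ha.1.1.mk a) (hb.1.1.mk b)) := by
      funext s
      unfold ar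
      congr 1
      apply measure_congr
      filter_upwards [hmd] with x hx
      change (s < md a b x) = (s < md (ha.1.1.mk a) (hb.1.1.mk b) x)
      rw [hx]
    rw [har, ← h1]
    apply integral_congr_ae
    filter_upwards [e1, e2, hmd] with x h1 h2 h3
    rw [h3]
    have h4 : Wc B a b Fa Fb x = Wc B (ha.1.1.mk a) (hb.1.1.mk b) Fa Fb x := by
      unfold Wc jc mg
      rw [← h1, ← h2, ← h3]
    rw [h4]
  obtain ⟨hma, hmb⟩ := hmm
  obtain ⟨φ, hφ, ta, tFa, aa, aFa⟩ := ha.seq
  obtain ⟨ψ, hψ, tb, tFb, ab, aFb⟩ := hb.seq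
  have hzero : ∀ (χ : ℂ → ℝ), Test (ball (0 : ℂ) R) χ → ∀ x, x ∉ ball (0 : ℂ) R → χ x = 0 := by
    intro χ hχ x hx
    exact image_eq_zero_of_notMem_tsupport fun h => hx (hχ.sub h)
  have za : ∀ᵐ x, x ∉ ball (0 : ℂ) R → a x = 0 := by
    filter_upwards [aa] with x hx hxb
    refine tendsto_nhds_unique hx ?_
    have : (fun n => φ n x) = fun _ => 0 := funext fun n => hzero _ (hφ n) x hxb
    rw [this]
    exact tendsto_const_nhds
  have zb : ∀ᵐ x, x ∉ ball (0 : ℂ) R → b x = 0 := by
    filter_upwards [ab] with x hx hxb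
    refine tendsto_nhds_unique hx ?_
    have : (fun n => ψ n x) = fun _ => 0 := funext fun n => hzero _ (hψ n) x hxb
    rw [this]
    exact tendsto_const_nhds
  -- the potential
  have hAc : ∀ i, Continuous (Aq B i) := by
    intro i
    fin_cases i
    · exact continuous_const.mul Complex.continuous_im
    · exact continuous_const.mul Complex.continuous_re
  have hAb : ∀ i, ∀ x ∈ ball (0 : ℂ) R, ‖Aq B i x‖ ≤ |B / 2| * R := by
    intro i x hx
    have h1 : ‖x‖ < R := by simpa using hx
    have h2 := Complex.abs_re_le_norm x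
    have h3 := Complex.abs_im_le_norm x
    fin_cases i
    · change |-(B / 2) * x.im| ≤ _
      rw [abs_mul, abs_neg]
      gcongr
      linarith
    · change |(B / 2) * x.re| ≤ _
      rw [abs_mul]
      gcongr
      linarith
  have bound : ∀ (i : Fin 2) (u : ℂ → ℝ), (∀ᵐ x, x ∉ ball (0 : ℂ) R → u x = 0) →
      ∀ᵐ x, ‖Aq B i x * u x‖ ≤ (|B / 2| * R) * ‖u x‖ := by
    intro i u hu
    filter_upwards [hu] with x hx
    by_cases h : x ∈ ball (0 : ℂ) R
    · rw [norm_mul]
      gcongr
      exact hAb i x h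
    · rw [hx h]
      simp
  have mA : ∀ (i : Fin 2) (u : ℂ → ℝ), (∀ᵐ x, x ∉ ball (0 : ℂ) R → u x = 0) →
      MemLp u 2 volume → MemLp (fun x => Aq B i x * u x) 2 volume := by
    intro i u hu hm
    exact hm.of_le_mul ((hAc i).aestronglyMeasurable.mul hm.1) (bound i u hu)
  have tA : ∀ (i : Fin 2) (u : ℂ → ℝ) (un : ℕ → ℂ → ℝ), (∀ᵐ x, x ∉ ball (0 : ℂ) R → u x = 0) →
      (∀ n, ∀ᵐ x, x ∉ ball (0 : ℂ) R → un n x = 0) →
      Tendsto (fun n => eLpNorm (fun x => un n x - u x) 2 volume) atTop (𝓝 0) →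
      Tendsto (fun n => eLpNorm (fun x => Aq B i x * un n x - Aq B i x * u x) 2 volume) atTop
        (𝓝 0) := by
    intro i u un hu hun ht
    have h1 := ENNReal.Tendsto.const_mul (a := ENNReal.ofReal (|B / 2| * R)) ht
      (Or.inr ENNReal.ofReal_ne_top)
    rw [mul_zero] at h1
    refine tendsto_of_tendsto_of_tendsto_of_le_of_le tendsto_const_nhds h1 (fun _ => zero_le)
      fun n => ?_
    have h2 : ∀ᵐ x, x ∉ ball (0 : ℂ) R → un n x - u x = 0 := by
      filter_upwards [hu, hun n] with x h3 h4 h5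
      rw [h3 h5, h4 h5, sub_zero]
    have h3 := eLpNorm_le_mul_eLpNorm_of_ae_le_mul (bound i (fun x => un n x - u x) h2)
      (2 : ℝ≥0∞)
    refine le_trans (le_of_eq ?_) h3
    congr 1
    funext x
    ring
  have zφ : ∀ n, ∀ᵐ x, x ∉ ball (0 : ℂ) R → φ n x = 0 := fun n =>
    Eventually.of_forall (hzero _ (hφ n))
  have zψ : ∀ n, ∀ᵐ x, x ∉ ball (0 : ℂ) R → ψ n x = 0 := fun n =>
    Eventually.of_forall (hzero _ (hψ n))
  have negL : ∀ (u : ℂ → ℝ) (un : ℕ → ℂ → ℝ),
      Tendsto (fun n => eLpNorm (fun x => un n x - u x) 2 volume) atTop (𝓝 0) →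
      Tendsto (fun n => eLpNorm (fun x => (-un n x) - (-u x)) 2 volume) atTop (𝓝 0) := by
    intro u un h
    refine h.congr fun n => ?_
    rw [← eLpNorm_neg]
    congr 1
    funext x
    simp only [Pi.neg_apply]
    ring
  -- convergence of the polynomial
  have mφ : ∀ n, MemLp (φ n) 2 volume := fun n => (hφ n).memLp
  have mψ : ∀ n, MemLp (ψ n) 2 volume := fun n => (hψ n).memLp
  have mφ' : ∀ i n, MemLp (pd e2 i (φ n)) 2 volume := fun i n => (hφ n).memLp_pd i
  have mψ' : ∀ i n, MemLp (pd e2 i (ψ n)) 2 volume := fun i n => (hψ n).memLp_pd i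
  have imul : ∀ u v : ℂ → ℝ, MemLp u 2 volume → MemLp v 2 volume →
      Integrable (fun x => u x * v x) volume := fun u v hu hv => hu.integrable_mul hv
  have iPP : ∀ (a b : ℂ → ℝ) (Fa Fb : Fin 2 → ℂ → ℝ), MemLp a 2 volume → MemLp b 2 volume →
      (∀ i, MemLp (Fa i) 2 volume) → (∀ i, MemLp (Fb i) 2 volume) →
      (∀ᵐ x, x ∉ ball (0 : ℂ) R → a x = 0) → (∀ᵐ x, x ∉ ball (0 : ℂ) R → b x = 0) →
      Integrable (PP B a b Fa Fb) volume := by
    intro a b Fa Fb ha hb hFa hFb za zb
    unfold PP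
    exact ((imul _ _ (hFa 1) (hFb 0)).add (imul _ _ (hFa 0).neg (hFb 1))).add
      (((imul _ _ (mA 0 a za ha) (hFa 1)).add (imul _ _ (mA 0 b zb hb) (hFb 1))).add
        ((imul _ _ (mA 1 a za ha) (hFa 0).neg).add (imul _ _ (mA 1 b zb hb) (hFb 0).neg)))
  have iP : Integrable (PP B a b Fa Fb) volume := iPP a b Fa Fb ha.1 hb.1 ha.2.1 hb.2.1 za zb
  have iPn : ∀ n, Integrable (PP B (φ n) (ψ n) (fun i => pd e2 i (φ n))
      (fun i => pd e2 i (ψ n))) volume := fun n =>
    iPP _ _ _ _ (mφ n) (mψ n) (fun i => mφ' i n) (fun i => mψ' i n) (zφ n) (zψ n)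
  have tP : Tendsto (fun n => eLpNorm (fun x => PP B (φ n) (ψ n) (fun i => pd e2 i (φ n))
      (fun i => pd e2 i (ψ n)) x - PP B a b Fa Fb x) 1 volume) atTop (𝓝 0) := by
    have asm : ∀ (u v : ℂ → ℝ), Integrable u volume → Integrable v volume →
        AEStronglyMeasurable (fun x => u x - v x) volume := fun u v hu hv => (hu.sub hv).1
    have i1 := imul _ _ (ha.2.1 1) (hb.2.1 0)
    have i2 := imul _ _ (ha.2.1 0).neg (hb.2.1 1)
    have i3 := imul _ _ (mA 0 a za ha.1) (ha.2.1 1)
    have i4 := imul _ _ (mA 0 b zb hb.1) (hb.2.1 1)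
    have i5 := imul _ _ (mA 1 a za ha.1) (ha.2.1 0).neg
    have i6 := imul _ _ (mA 1 b zb hb.1) (hb.2.1 0).neg
    have j1 := fun n => imul _ _ (mφ' 1 n) (mψ' 0 n)
    have j2 := fun n => imul _ _ (mφ' 0 n).neg (mψ' 1 n)
    have j3 := fun n => imul _ _ (mA 0 _ (zφ n) (mφ n)) (mφ' 1 n)
    have j4 := fun n => imul _ _ (mA 0 _ (zψ n) (mψ n)) (mψ' 1 n)
    have j5 := fun n => imul _ _ (mA 1 _ (zφ n) (mφ n)) (mφ' 0 n).neg
    have j6 := fun n => imul _ _ (mA 1 _ (zψ n) (mψ n)) (mψ' 0 n).neg
    have l1 := prod_lim (ha.2.1 1) (hb.2.1 0) (fun n => mφ' 1 n) (fun n => mψ' 0 n)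
      (tFa 1) (tFb 0)
    have l2 := prod_lim (ha.2.1 0).neg (hb.2.1 1) (fun n => (mφ' 0 n).neg) (fun n => mψ' 1 n)
      (negL _ _ (tFa 0)) (tFb 1)
    have l3 := prod_lim (mA 0 a za ha.1) (ha.2.1 1) (fun n => mA 0 _ (zφ n) (mφ n))
      (fun n => mφ' 1 n) (tA 0 _ _ za zφ ta) (tFa 1)
    have l4 := prod_lim (mA 0 b zb hb.1) (hb.2.1 1) (fun n => mA 0 _ (zψ n) (mψ n))
      (fun n => mψ' 1 n) (tA 0 _ _ zb zψ tb) (tFb 1)
    have l5 := prod_lim (mA 1 a za ha.1) (ha.2.1 0).neg (fun n => mA 1 _ (zφ n) (mφ n))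
      (fun n => (mφ' 0 n).neg) (tA 1 _ _ za zφ ta) (negL _ _ (tFa 0))
    have l6 := prod_lim (mA 1 b zb hb.1) (hb.2.1 0).neg (fun n => mA 1 _ (zψ n) (mψ n))
      (fun n => (mψ' 0 n).neg) (tA 1 _ _ zb zψ tb) (negL _ _ (tFb 0))
    have s1 := add_lim (fun n => asm _ _ (j1 n) i1) (fun n => asm _ _ (j2 n) i2) l1 l2
    have s2 := add_lim (fun n => asm _ _ (j3 n) i3) (fun n => asm _ _ (j4 n) i4) l3 l4
    have s3 := add_lim (fun n => asm _ _ (j5 n) i5) (fun n => asm _ _ (j6 n) i6) l5 l6
    have s4 := add_lim (fun n => asm _ _ ((j3 n).add (j4 n)) (i3.add i4))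
      (fun n => asm _ _ ((j5 n).add (j6 n)) (i5.add i6)) s2 s3
    exact add_lim (fun n => asm _ _ ((j1 n).add (j2 n)) (i1.add i2))
      (fun n => asm _ _ (((j3 n).add (j4 n)).add ((j5 n).add (j6 n)))
        ((i3.add i4).add (i5.add i6))) s1 s4
  -- the weights
  obtain ⟨C, hC⟩ := hηc.exists_bound_of_continuous hη
  have hC0 : 0 ≤ C := (norm_nonneg _).trans (hC 0)
  have hmd : ∀ᵐ x, Tendsto (fun n => md (φ n) (ψ n) x) atTop (𝓝 (md a b x)) := by
    filter_upwards [aa, ab] with x h1 h2
    unfold md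
    exact (Real.continuous_sqrt.tendsto _).comp ((h1.pow 2).add (h2.pow 2))
  have mmd : Measurable (md a b) := (((hma.pow_const 2).add (hmb.pow_const 2))).sqrt
  have mmdn : ∀ n, Measurable (md (φ n) (ψ n)) := fun n =>
    ((((hφ n).smooth.continuous.measurable.pow_const 2).add
      ((hψ n).smooth.continuous.measurable.pow_const 2))).sqrt
  have tl : Tendsto (fun n => ∫ x, η (md (φ n) (ψ n) x) * PP B (φ n) (ψ n)
      (fun i => pd e2 i (φ n)) (fun i => pd e2 i (ψ n)) x) atTop
      (𝓝 (∫ x, η (md a b x) * PP B a b Fa Fb x)) := by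
    have h1 : Tendsto (fun n => ∫ x, η (md (φ n) (ψ n) x) * (PP B (φ n) (ψ n)
        (fun i => pd e2 i (φ n)) (fun i => pd e2 i (ψ n)) x - PP B a b Fa Fb x)) atTop
        (𝓝 0) := by
      rw [tendsto_zero_iff_norm_tendsto_zero]
      have h2 : Tendsto (fun n => C * ∫ x, ‖PP B (φ n) (ψ n) (fun i => pd e2 i (φ n))
          (fun i => pd e2 i (ψ n)) x - PP B a b Fa Fb x‖) atTop (𝓝 0) := by
        have h3 : Tendsto (fun n => (eLpNorm (fun x => PP B (φ n) (ψ n) (fun i => pd e2 i (φ n))
          (fun i => pd e2 i (ψ n)) x - PP B a b Fa Fb x) 1 volume).toReal) atTop (𝓝 0) := by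
          have := (ENNReal.tendsto_toReal ENNReal.zero_ne_top).comp tP
          rw [ENNReal.toReal_zero] at this
          exact this
        have h4 := h3.const_mul C
        rw [mul_zero] at h4
        refine h4.congr fun n => ?_
        have h5 := integral_norm_eq_lintegral_enorm ((iPn n).sub iP).1
        rw [eLpNorm_one_eq_lintegral_enorm]
        congr 1
        exact h5.symm
      refine squeeze_zero (fun n => norm_nonneg _) (fun n => ?_) h2
      have h5 : ‖∫ x, η (md (φ n) (ψ n) x) * (PP B (φ n) (ψ n) (fun i => pd e2 i (φ n))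
          (fun i => pd e2 i (ψ n)) x - PP B a b Fa Fb x)‖ ≤
          ∫ x, C * ‖PP B (φ n) (ψ n) (fun i => pd e2 i (φ n))
          (fun i => pd e2 i (ψ n)) x - PP B a b Fa Fb x‖ := by
        refine norm_integral_le_of_norm_le (((iPn n).sub iP).norm.const_mul C) ?_
        refine Eventually.of_forall fun x => ?_
        rw [norm_mul]
        gcongr
        exact hC _
      refine h5.trans (le_of_eq ?_)
      rw [integral_const_mul]
    have h6 : Tendsto (fun n => ∫ x, η (md (φ n) (ψ n) x) * PP B a b Fa Fb x) atTop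
        (𝓝 (∫ x, η (md a b x) * PP B a b Fa Fb x)) := by
      refine tendsto_integral_of_dominated_convergence (fun x => C * ‖PP B a b Fa Fb x‖)
        (fun n => ?_) (iP.norm.const_mul C) (fun n => ?_) ?_
      · exact (hη.measurable.comp (mmdn n)).aestronglyMeasurable.mul iP.1
      · refine Eventually.of_forall fun x => ?_
        rw [norm_mul]
        gcongr
        exact hC _
      · filter_upwards [hmd] with x hx
        exact ((hη.tendsto _).comp hx).mul_const _
    have h7 := h1.add h6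
    rw [zero_add] at h7
    refine h7.congr fun n => ?_
    have bdd : ∀ u : ℂ → ℝ, Integrable u volume →
        Integrable (fun x => η (md (φ n) (ψ n) x) * u x) volume := by
      intro u hu
      refine (hu.norm.const_mul C).mono'
        ((hη.measurable.comp (mmdn n)).aestronglyMeasurable.mul hu.1) ?_
      refine Eventually.of_forall fun x => ?_
      rw [norm_mul]
      gcongr
      exact hC _
    rw [← integral_add]
    · refine integral_congr_ae (Eventually.of_forall fun x => ?_)
      ring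
    · exact bdd _ ((iPn n).sub iP)
    · exact bdd _ iP
  -- the right side
  have tr : Tendsto (fun n => ∫ s in Ioi (0 : ℝ), η s * (s * ar (md (φ n) (ψ n)) s)) atTop
      (𝓝 (∫ s in Ioi (0 : ℝ), η s * (s * ar (md a b) s))) := by
    have hsub : ∀ n, ∀ s : ℝ, 0 < s → {x | s < md (φ n) (ψ n) x} ⊆ ball (0 : ℂ) R := by
      intro n s hs x hx
      by_contra h
      have h1 : md (φ n) (ψ n) x = 0 := by
        unfold md
        rw [hzero _ (hφ n) x h, hzero _ (hψ n) x h]
        simp
      have h2 : s < md (φ n) (ψ n) x := hx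
      rw [h1] at h2
      exact lt_asymm hs h2
    have hmono : ∀ (g : ℂ → ℝ), Antitone (fun s => volume {x | s < g x}) := by
      intro g s t hst
      exact measure_mono fun x hx => lt_of_le_of_lt hst hx
    have harm : ∀ g : ℂ → ℝ, Measurable (ar g) := fun g =>
      (hmono g).measurable.ennreal_toReal
    have hcount := Measure.countable_meas_level_set_pos (μ := (volume : Measure ℂ)) mmd
    refine tendsto_integral_of_dominated_convergence
      (fun s => ‖η s * s‖ * (volume (ball (0 : ℂ) R)).toReal) (fun n => ?_) ?_ (fun n => ?_) ?_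
    · exact (hη.measurable.mul (measurable_id.mul (harm _))).aestronglyMeasurable
    · refine Integrable.mul_const ?_ _
      refine Integrable.norm ?_
      refine Integrable.integrableOn ?_
      exact (hη.mul continuous_id).integrable_of_hasCompactSupport hηc.mul_right
    · refine (ae_restrict_iff' measurableSet_Ioi).2 (Eventually.of_forall fun s hs => ?_)
      rw [← mul_assoc, norm_mul]
      gcongr
      unfold ar
      rw [Real.norm_eq_abs, abs_of_nonneg ENNReal.toReal_nonneg]
      exact ENNReal.toReal_mono measure_ball_lt_top.ne (measure_mono (hsub n s hs))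
    · refine (ae_restrict_iff' measurableSet_Ioi).2 ?_
      filter_upwards [hcount.ae_notMem volume] with s hs hs0
      have hs1 : volume {x | md a b x = s} = 0 := by
        by_contra h
        exact hs (pos_iff_ne_zero.2 h)
      refine Tendsto.const_mul _ (Tendsto.const_mul _ ?_)
      have hfin : volume {x | s < md a b x} ≠ ⊤ := by
        have hle : volume {x | s < md a b x} ≤ volume (ball (0 : ℂ) R) := by
          apply measure_mono_ae
          filter_upwards [za, zb] with x h1 h2 h3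
          by_contra h
          have h4 : s < md a b x := h3
          unfold md at h4
          rw [h1 h, h2 h] at h4
          simp only [ne_eq, OfNat.ofNat_ne_zero, not_false_eq_true, zero_pow, add_zero,
            Real.sqrt_zero] at h4
          exact lt_asymm hs0 h4
        exact (hle.trans_lt measure_ball_lt_top).ne
      refine (ENNReal.tendsto_toReal hfin).comp ?_
      refine tendsto_measure_of_ae_tendsto_indicator atTop (measurableSet_lt measurable_const mmd)
        (fun n => measurableSet_lt measurable_const (mmdn n)) measurableSet_ball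
        measure_ball_lt_top.ne (Eventually.of_forall fun n => hsub n s hs0) ?_
      have hne : ∀ᵐ x, md a b x ≠ s := by
        rw [ae_iff]
        simpa using hs1
      filter_upwards [hmd, hne] with x hx hxs
      rcases lt_or_gt_of_ne hxs with h | h
      · filter_upwards [hx.eventually (gt_mem_nhds h)] with n hn
        change s < md (φ n) (ψ n) x ↔ s < md a b x
        exact ⟨fun h' => absurd h' (not_lt_of_gt hn), fun h' => absurd h' (not_lt_of_gt h)⟩
      · filter_upwards [hx.eventually (lt_mem_nhds h)] with n hn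
        change s < md (φ n) (ψ n) x ↔ s < md a b x
        exact ⟨fun _ => h, fun _ => hn⟩
  have hend : ∀ n, ∫ x, η (md (φ n) (ψ n) x) * PP B (φ n) (ψ n) (fun i => pd e2 i (φ n))
      (fun i => pd e2 i (ψ n)) x = B * ∫ s in Ioi (0 : ℝ), η s * (s * ar (md (φ n) (ψ n)) s) := by
    intro n
    rw [← h_M2S B (φ n) (ψ n) η ((hφ n).mono (subset_univ _)) ((hψ n).mono (subset_univ _)) hη hηc
      hηs]
    refine integral_congr_ae (Eventually.of_forall fun x => ?_)
    exact (eta_Wc B (φ n) (ψ n) _ _ η hηs x).symm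
  have h1 : ∫ x, η (md a b x) * Wc B a b Fa Fb x = ∫ x, η (md a b x) * PP B a b Fa Fb x :=
    integral_congr_ae (Eventually.of_forall fun x => eta_Wc B a b Fa Fb η hηs x)
  rw [h1]
  refine tendsto_nhds_unique tl ?_
  refine (tr.const_mul B).congr fun n => ?_
  exact (hend n).symm

end MGS

end
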