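import Pool.Agent.MGS.TC

/-!
# MGS: target M2S (Stokes' theorem on the levels, smooth case)
-/

set_option autoImplicit false

open MeasureTheory Filter Topology Metric Set
open scoped ENNReal NNReal ContDiff

noncomputable section

namespace MGS

namespace M2S_

/-- the integral of a derivative of a compactly supported function vanishes -/
theorem int_zero {F : ℂ → ℝ} (hF : ContDiff ℝ 1 F) (hc : HasCompactSupport F) (v : ℂ) :
    ∫ x, fderiv ℝ F x v = 0 := by
  have h := integral_mul_fderiv_eq_neg_fderiv_mul_of_integrable (μ := (volume : Measure ℂ))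
    (f := fun _ : ℂ => (1 : ℝ)) (g := F) (v := v) ?_ ?_ ?_ ?_ ?_
  · simpa using h
  · simp
  · simp only [one_mul]
    exact ((hF.continuous_fderiv one_ne_zero).clm_apply continuous_const
      ).integrable_of_hasCompactSupport (hc.fderiv_apply ℝ v)
  · simp only [one_mul]
    exact hF.continuous.integrable_of_hasCompactSupport hc
  · intro x _
    exact differentiableAt_const _
  · intro x _
    exact (hF.differentiable one_ne_zero) x

/-- `M(u) = ∫_0^u η(√t)/2 dt` -/
def MM (η : ℝ → ℝ) (u : ℝ) : ℝ := ∫ t in (0 : ℝ)..u, η (Real.sqrt t) / 2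

/-- `M(u)/u` -/
def KK (η : ℝ → ℝ) (u : ℝ) : ℝ := MM η u / u

section eta

variable {η : ℝ → ℝ} (hc : Continuous η) (hs : tsupport η ⊆ Ioi 0)

include hs in
theorem eta_zero : ∃ ε : ℝ, 0 < ε ∧ ∀ s, s < ε → η s = 0 := by
  have h0 : (0 : ℝ) ∉ tsupport η := fun h => lt_irrefl (0 : ℝ) (hs h)
  obtain ⟨ε, hε, hb⟩ := Metric.isOpen_iff.1 (isClosed_tsupport η).isOpen_compl 0 h0
  refine ⟨ε, hε, fun s hs' => ?_⟩
  apply image_eq_zero_of_notMem_tsupport
  intro hm
  have hp : 0 < s := hs hm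
  refine hb ?_ hm
  rw [mem_ball, dist_zero_right, Real.norm_eq_abs, abs_of_pos hp]
  exact hs'

include hc in
theorem MM_deriv (u : ℝ) : HasDerivAt (MM η) (η (Real.sqrt u) / 2) u :=
  intervalIntegral.integral_hasDerivAt_right
    (((hc.comp Real.continuous_sqrt).div_const 2).intervalIntegrable _ _)
    (((hc.comp Real.continuous_sqrt).div_const 2).stronglyMeasurableAtFilter _ _)
    ((hc.comp Real.continuous_sqrt).div_const 2).continuousAt

include hc in
theorem MM_contDiff : ContDiff ℝ 1 (MM η) := by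
  rw [contDiff_one_iff_deriv]
  refine ⟨fun u => (MM_deriv hc u).differentiableAt, ?_⟩
  have : deriv (MM η) = fun u => η (Real.sqrt u) / 2 := funext fun u => (MM_deriv hc u).deriv
  rw [this]
  exact (hc.comp Real.continuous_sqrt).div_const 2

include hs in
theorem MM_zero : ∀ᶠ u in 𝓝 (0 : ℝ), MM η u = 0 := by
  obtain ⟨ε, hε, h⟩ := eta_zero hs
  have : ∀ᶠ u in 𝓝 (0 : ℝ), u < ε ^ 2 := Iio_mem_nhds (by positivity)
  filter_upwards [this] with u hu
  unfold MM
  apply intervalIntegral.integral_zero_ae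
  refine Eventually.of_forall fun t ht => ?_
  have h1 : Real.sqrt t < ε := by
    rw [Real.sqrt_lt' hε]
    rcases Set.mem_uIoc.1 ht with ht | ht
    · exact ht.2.trans_lt hu
    · exact ht.2.trans_lt (by positivity)
  rw [h _ h1, zero_div]

include hc hs in
theorem KK_contDiff : ContDiff ℝ 1 (KK η) := by
  rw [contDiff_iff_contDiffAt]
  intro u
  rcases eq_or_ne u 0 with rfl | hu
  · refine (contDiffAt_const (c := (0 : ℝ))).congr_of_eventuallyEq ?_
    filter_upwards [MM_zero hs] with v hv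
    unfold KK
    rw [hv, zero_div]
  · exact (MM_contDiff hc).contDiffAt.div contDiffAt_id hu

theorem MM_at_zero : MM η 0 = 0 := by
  unfold MM
  exact intervalIntegral.integral_same

theorem KK_mul (u : ℝ) : KK η u * u = MM η u := by
  unfold KK
  rcases eq_or_ne u 0 with rfl | hu
  · rw [MM_at_zero, mul_zero]
  · exact div_mul_cancel₀ _ hu

include hc hs in
theorem KK_deriv (u : ℝ) : HasDerivAt (KK η) (deriv (KK η) u) u :=
  ((KK_contDiff hc hs).differentiable one_ne_zero u).hasDerivAt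

include hc hs in
theorem KK_deriv_eq (u : ℝ) : deriv (KK η) u * u + KK η u = η (Real.sqrt u) / 2 := by
  have h1 : HasDerivAt (fun u => KK η u * u) (deriv (KK η) u * u + KK η u * 1) u :=
    (KK_deriv hc hs u).mul (hasDerivAt_id u)
  have e : (fun u => KK η u * u) = MM η := funext KK_mul
  rw [e] at h1
  have := h1.unique (MM_deriv hc u)
  rw [mul_one] at this
  exact this

include hc in
theorem MM_sq (f : ℝ) (hf : 0 ≤ f) : ∫ s in (0 : ℝ)..f, η s * s = MM η (f ^ 2) := by
  have h : ∀ s ∈ uIcc (0 : ℝ) f, HasDerivAt (fun s => MM η (s ^ 2)) (η s * s) s := by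
    intro s hs
    rw [uIcc_of_le hf] at hs
    have h1 : HasDerivAt (fun s : ℝ => s ^ 2) (2 * s) s := by
      simpa using hasDerivAt_pow 2 s
    have h2 := (MM_deriv hc (s ^ 2)).comp s h1
    have e : η (Real.sqrt (s ^ 2)) / 2 * (2 * s) = η s * s := by
      rw [Real.sqrt_sq hs.1]
      ring
    rw [e] at h2
    exact h2
  rw [intervalIntegral.integral_eq_sub_of_hasDerivAt h
    ((hc.mul continuous_id).intervalIntegrable _ _)]
  simp [MM_at_zero]

end eta

section main

variable {B : ℝ} {φ ψ : ℂ → ℝ} {η : ℝ → ℝ} (hφ : Test univ φ) (hψ : Test univ ψ)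

theorem md_nonneg (x : ℂ) : 0 ≤ md φ ψ x := Real.sqrt_nonneg _

theorem md_sq (x : ℂ) : md φ ψ x ^ 2 = φ x ^ 2 + ψ x ^ 2 :=
  Real.sq_sqrt (by positivity)

include hφ in
theorem pd_diff (i : Fin 2) : ContDiff ℝ 1 (pd e2 i φ) := by
  have h0 : ContDiff ℝ 2 φ := contDiff_infty.1 hφ.smooth 2
  have h1 : ContDiff ℝ 1 (fderiv ℝ φ) := h0.fderiv_right (m := 1) (by norm_num)
  exact h1.clm_apply contDiff_const

include hφ in
/-- symmetry of second derivatives -/
theorem symm2 (x : ℂ) : fderiv ℝ (pd e2 0 φ) x Complex.I = fderiv ℝ (pd e2 1 φ) x 1 := by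
  have h0 : ContDiff ℝ 2 φ := contDiff_infty.1 hφ.smooth 2
  have h1 : ContDiff ℝ 1 (fderiv ℝ φ) := h0.fderiv_right (m := 1) (by norm_num)
  have h2 : DifferentiableAt ℝ (fderiv ℝ φ) x := h1.differentiable one_ne_zero x
  have h3 : ∀ v w : ℂ, fderiv ℝ (fun y => fderiv ℝ φ y v) x w = fderiv ℝ (fderiv ℝ φ) x w v := by
    intro v w
    rw [fderiv_clm_apply h2 (differentiableAt_const v)]
    simp
  have h4 : IsSymmSndFDerivAt ℝ φ x := h0.contDiffAt.isSymmSndFDerivAt (by simp)
  show fderiv ℝ (fun y => fderiv ℝ φ y (e2 0)) x Complex.I =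
    fderiv ℝ (fun y => fderiv ℝ φ y (e2 1)) x 1
  rw [h3, h3]
  simp only [e2, Matrix.cons_val_zero, Matrix.cons_val_one]
  exact h4 _ _

/-- the current without the vector potential -/
def JJ (φ ψ : ℂ → ℝ) (i : Fin 2) (x : ℂ) : ℝ := φ x * pd e2 i ψ x - ψ x * pd e2 i φ x

/-- `N(f) F_i` -/
def PP (B : ℝ) (η : ℝ → ℝ) (φ ψ : ℂ → ℝ) (i : Fin 2) (x : ℂ) : ℝ :=
  KK η (φ x ^ 2 + ψ x ^ 2) * JJ φ ψ i x + MM η (φ x ^ 2 + ψ x ^ 2) * Aq B i x

theorem Aq_contDiff (B : ℝ) (i : Fin 2) : ContDiff ℝ 1 (Aq B i) := by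
  fin_cases i
  · show ContDiff ℝ 1 fun x : ℂ => -(B / 2) * x.im
    exact contDiff_const.mul Complex.imCLM.contDiff
  · show ContDiff ℝ 1 fun x : ℂ => B / 2 * x.re
    exact contDiff_const.mul Complex.reCLM.contDiff

include hφ hψ in
theorem PP_contDiff (hc : Continuous η) (hs : tsupport η ⊆ Ioi 0) (i : Fin 2) :
    ContDiff ℝ 1 (PP B η φ ψ i) := by
  have h1 : ContDiff ℝ 1 φ := contDiff_infty.1 hφ.smooth 1
  have h2 : ContDiff ℝ 1 ψ := contDiff_infty.1 hψ.smooth 1
  have hu : ContDiff ℝ 1 fun x => φ x ^ 2 + ψ x ^ 2 := (h1.pow 2).add (h2.pow 2)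
  exact (((KK_contDiff hc hs).comp hu).mul ((h1.mul (pd_diff hψ i)).sub
    (h2.mul (pd_diff hφ i)))).add (((MM_contDiff hc).comp hu).mul (Aq_contDiff B i))

include hφ hψ in
theorem PP_cpt (i : Fin 2) : HasCompactSupport (PP B η φ ψ i) := by
  refine HasCompactSupport.intro (K := tsupport φ ∪ tsupport ψ)
    (hφ.cpt.isCompact.union hψ.cpt.isCompact) fun x hx => ?_
  have h1 : φ x = 0 := image_eq_zero_of_notMem_tsupport fun h => hx (Or.inl h)
  have h2 : ψ x = 0 := image_eq_zero_of_notMem_tsupport fun h => hx (Or.inr h)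
  unfold PP JJ
  rw [h1, h2]
  simp [MM_at_zero]

include hφ hψ in
theorem PP_fderiv (hc : Continuous η) (hs : tsupport η ⊆ Ioi 0) (i : Fin 2) (x v : ℂ) :
    fderiv ℝ (PP B η φ ψ i) x v =
      deriv (KK η) (φ x ^ 2 + ψ x ^ 2) *
          (2 * φ x * fderiv ℝ φ x v + 2 * ψ x * fderiv ℝ ψ x v) * JJ φ ψ i x +
      KK η (φ x ^ 2 + ψ x ^ 2) * (fderiv ℝ φ x v * pd e2 i ψ x +
        φ x * fderiv ℝ (pd e2 i ψ) x v - (fderiv ℝ ψ x v * pd e2 i φ x +
        ψ x * fderiv ℝ (pd e2 i φ) x v)) +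
      η (md φ ψ x) / 2 *
          (2 * φ x * fderiv ℝ φ x v + 2 * ψ x * fderiv ℝ ψ x v) * Aq B i x +
      MM η (φ x ^ 2 + ψ x ^ 2) * fderiv ℝ (Aq B i) x v := by
  have a1 : HasFDerivAt φ (fderiv ℝ φ x) x := (hφ.diff x).hasFDerivAt
  have a2 : HasFDerivAt ψ (fderiv ℝ ψ x) x := (hψ.diff x).hasFDerivAt
  have a3 : HasFDerivAt (pd e2 i φ) (fderiv ℝ (pd e2 i φ) x) x :=
    ((pd_diff hφ i).differentiable one_ne_zero x).hasFDerivAt
  have a4 : HasFDerivAt (pd e2 i ψ) (fderiv ℝ (pd e2 i ψ) x) x :=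
    ((pd_diff hψ i).differentiable one_ne_zero x).hasFDerivAt
  have a5 : HasFDerivAt (Aq B i) (fderiv ℝ (Aq B i) x) x :=
    ((Aq_contDiff B i).differentiable one_ne_zero x).hasFDerivAt
  have hu : HasFDerivAt (fun x => φ x ^ 2 + ψ x ^ 2)
      ((2 * φ x) • fderiv ℝ φ x + (2 * ψ x) • fderiv ℝ ψ x) x := by
    have h : HasFDerivAt (fun x => φ x ^ 2 + ψ x ^ 2) _ x := (a1.pow 2).add (a2.pow 2)
    refine h.congr_fderiv ?_
    simp
  have h1 := (KK_deriv hc hs (φ x ^ 2 + ψ x ^ 2)).comp_hasFDerivAt x hu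
  have h2 := (MM_deriv hc (φ x ^ 2 + ψ x ^ 2)).comp_hasFDerivAt x hu
  have h3 := (h1.mul ((a1.mul a4).sub (a2.mul a3))).add (h2.mul a5)
  have h4 : fderiv ℝ (PP B η φ ψ i) x = _ := HasFDerivAt.fderiv h3
  rw [h4]
  have h5 : Real.sqrt (φ x ^ 2 + ψ x ^ 2) = md φ ψ x := rfl
  simp only [_root_.add_apply, _root_.smul_apply, smul_eq_mul,
    _root_.sub_apply, Pi.mul_apply, Pi.sub_apply, Function.comp_apply, JJ, h5]
  ring

theorem Aq_fderiv0 (B : ℝ) (x : ℂ) : fderiv ℝ (Aq B 0) x Complex.I = -(B / 2) := by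
  have h : HasFDerivAt (Aq B 0) (-(B / 2) • Complex.imCLM) x :=
    Complex.imCLM.hasFDerivAt.const_smul (-(B / 2))
  rw [h.fderiv]
  simp

theorem Aq_fderiv1 (B : ℝ) (x : ℂ) : fderiv ℝ (Aq B 1) x 1 = B / 2 := by
  have h : HasFDerivAt (Aq B 1) ((B / 2) • Complex.reCLM) x :=
    Complex.reCLM.hasFDerivAt.const_smul (B / 2)
  rw [h.fderiv]
  simp

include hφ hψ in
/-- the pointwise identity -/
theorem pointwise (hc : Continuous η) (hs : tsupport η ⊆ Ioi 0) (x : ℂ) :
    η (md φ ψ x) * Wc B φ ψ (fun i => pd e2 i φ) (fun i => pd e2 i ψ) x =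
      fderiv ℝ (PP B η φ ψ 0) x Complex.I - fderiv ℝ (PP B η φ ψ 1) x 1 +
        B * MM η (φ x ^ 2 + ψ x ^ 2) := by
  have d0φ : fderiv ℝ φ x 1 = pd e2 0 φ x := rfl
  have d1φ : fderiv ℝ φ x Complex.I = pd e2 1 φ x := rfl
  have d0ψ : fderiv ℝ ψ x 1 = pd e2 0 ψ x := rfl
  have d1ψ : fderiv ℝ ψ x Complex.I = pd e2 1 ψ x := rfl
  have hK := KK_deriv_eq hc hs (φ x ^ 2 + ψ x ^ 2)
  have h5 : Real.sqrt (φ x ^ 2 + ψ x ^ 2) = md φ ψ x := rfl
  rw [h5] at hK
  have h6 : fderiv ℝ (PP B η φ ψ 0) x Complex.I - fderiv ℝ (PP B η φ ψ 1) x 1 +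
      B * MM η (φ x ^ 2 + ψ x ^ 2) = η (md φ ψ x) * ((pd e2 1 φ x * pd e2 0 ψ x -
        pd e2 0 φ x * pd e2 1 ψ x) + (φ x * pd e2 1 φ x + ψ x * pd e2 1 ψ x) * Aq B 0 x -
        (φ x * pd e2 0 φ x + ψ x * pd e2 0 ψ x) * Aq B 1 x) := by
    rw [PP_fderiv hφ hψ hc hs, PP_fderiv hφ hψ hc hs, symm2 hφ, symm2 hψ, Aq_fderiv0, Aq_fderiv1,
      d0φ, d1φ, d0ψ, d1ψ]
    unfold JJ
    linear_combination (2 * (pd e2 1 φ x * pd e2 0 ψ x - pd e2 0 φ x * pd e2 1 ψ x)) * hK
  rw [h6]
  rcases (md_nonneg (φ := φ) (ψ := ψ) x).eq_or_lt with h0 | h0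
  · obtain ⟨ε, hε, hz⟩ := eta_zero hs
    rw [← h0, hz 0 hε, zero_mul, zero_mul]
  · congr 1
    have h7 := md_sq (φ := φ) (ψ := ψ) x
    have h8 : md φ ψ x ≠ 0 := h0.ne'
    unfold Wc jc mg
    field_simp
    rw [h7]
    ring

end main

end M2S_

open M2S_ in
theorem p_M2S : T_M2S := by
  intro B φ ψ η hφ hψ hc hcs hs
  have e1 : (fun x => η (md φ ψ x) * Wc B φ ψ (fun i => pd e2 i φ) (fun i => pd e2 i ψ) x) =
      fun x => fderiv ℝ (PP B η φ ψ 0) x Complex.I - fderiv ℝ (PP B η φ ψ 1) x 1 +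
        B * MM η (φ x ^ 2 + ψ x ^ 2) := funext fun x => pointwise hφ hψ hc hs x
  rw [e1]
  have hP : ∀ (i : Fin 2) (v : ℂ), Integrable fun x => fderiv ℝ (PP B η φ ψ i) x v :=
    fun i v => (((PP_contDiff hφ hψ hc hs i).continuous_fderiv one_ne_zero).clm_apply
      continuous_const).integrable_of_hasCompactSupport ((PP_cpt hφ hψ i).fderiv_apply ℝ v)
  have hMc : Continuous fun x => MM η (φ x ^ 2 + ψ x ^ 2) :=
    (MM_contDiff hc).continuous.comp ((hφ.smooth.continuous.pow 2).add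
      (hψ.smooth.continuous.pow 2))
  have hMs : HasCompactSupport fun x => MM η (φ x ^ 2 + ψ x ^ 2) := by
    refine HasCompactSupport.intro (K := tsupport φ ∪ tsupport ψ)
      (hφ.cpt.isCompact.union hψ.cpt.isCompact) fun x hx => ?_
    have h1 : φ x = 0 := image_eq_zero_of_notMem_tsupport fun h => hx (Or.inl h)
    have h2 : ψ x = 0 := image_eq_zero_of_notMem_tsupport fun h => hx (Or.inr h)
    rw [h1, h2]
    simp [MM_at_zero]
  have hMi : Integrable fun x => MM η (φ x ^ 2 + ψ x ^ 2) :=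
    hMc.integrable_of_hasCompactSupport hMs
  have hsub : Integrable fun x => fderiv ℝ (PP B η φ ψ 0) x Complex.I -
      fderiv ℝ (PP B η φ ψ 1) x 1 := (hP 0 _).sub (hP 1 _)
  rw [integral_add hsub (hMi.const_mul B), integral_sub (hP 0 _) (hP 1 _),
    int_zero (PP_contDiff hφ hψ hc hs 0) (PP_cpt hφ hψ 0),
    int_zero (PP_contDiff hφ hψ hc hs 1) (PP_cpt hφ hψ 1), sub_zero, zero_add,
    integral_const_mul]
  congr 1
  -- layer cake
  have hfc : Continuous (md φ ψ) :=
    Real.continuous_sqrt.comp ((hφ.smooth.continuous.pow 2).add (hψ.smooth.continuous.pow 2))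
  have e2' : ∀ x, MM η (φ x ^ 2 + ψ x ^ 2) =
      ∫ s in Ioi (0 : ℝ), (if s < md φ ψ x then η s * s else 0) := by
    intro x
    rw [← md_sq, ← MM_sq hc _ (md_nonneg x), intervalIntegral.integral_of_le (md_nonneg x),
      integral_Ioc_eq_integral_Ioo]
    have h1 : (fun s => if s < md φ ψ x then η s * s else 0) =
        (Iio (md φ ψ x)).indicator fun s => η s * s := by
      funext s
      simp [Set.indicator, Set.mem_Iio]
    rw [h1, setIntegral_indicator measurableSet_Iio, Ioi_inter_Iio]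
  have hint : Integrable (Function.uncurry fun (x : ℂ) (s : ℝ) =>
      if s < md φ ψ x then η s * s else 0) (volume.prod (volume.restrict (Ioi 0))) := by
    have hK : IsCompact (tsupport φ ∪ tsupport ψ) := hφ.cpt.isCompact.union hψ.cpt.isCompact
    have g1 : Integrable ((tsupport φ ∪ tsupport ψ).indicator fun _ : ℂ => (1 : ℝ)) :=
      (integrable_indicator_iff hK.measurableSet).2
        (integrableOn_const hK.measure_lt_top.ne)
    have g2 : Integrable (fun s => ‖η s * s‖) (volume.restrict (Ioi (0 : ℝ))) := by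
      refine Integrable.norm ?_
      exact ((hc.mul continuous_id).integrable_of_hasCompactSupport hcs.mul_right).integrableOn
    have g3 := g1.mul_prod g2
    refine g3.mono' ?_ ?_
    · refine Measurable.aestronglyMeasurable ?_
      refine Measurable.ite (measurableSet_lt measurable_snd
        (hfc.measurable.comp measurable_fst)) ?_ measurable_const
      exact (hc.mul continuous_id).measurable.comp measurable_snd
    · have h1 : ∀ᵐ p : ℂ × ℝ ∂(volume.prod (volume.restrict (Ioi (0 : ℝ)))), p.2 ∈ Ioi (0 : ℝ) := by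
        refine Measure.quasiMeasurePreserving_snd.ae ?_
        exact ae_restrict_mem measurableSet_Ioi
      filter_upwards [h1] with p hp
      obtain ⟨x, s⟩ := p
      simp only [Function.uncurry_apply_pair]
      by_cases hlt : s < md φ ψ x
      · rw [if_pos hlt]
        have hx : x ∈ tsupport φ ∪ tsupport ψ := by
          by_contra hx
          have h1 : φ x = 0 := image_eq_zero_of_notMem_tsupport fun h => hx (Or.inl h)
          have h2 : ψ x = 0 := image_eq_zero_of_notMem_tsupport fun h => hx (Or.inr h)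
          have h3 : md φ ψ x = 0 := by
            unfold md
            rw [h1, h2]
            simp
          rw [h3] at hlt
          exact lt_asymm hlt hp
        rw [Set.indicator_of_mem hx, one_mul]
      · rw [if_neg hlt, norm_zero]
        exact mul_nonneg (Set.indicator_nonneg (fun _ _ => zero_le_one) _) (norm_nonneg _)
  simp only [e2']
  rw [integral_integral_swap hint]
  refine setIntegral_congr_fun measurableSet_Ioi fun s _ => ?_
  have h1 : (fun x => if s < md φ ψ x then η s * s else 0) =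
      {x | s < md φ ψ x}.indicator fun _ => η s * s := by
    funext x
    simp [Set.indicator]
  have h2 : MeasurableSet {x | s < md φ ψ x} := measurableSet_lt measurable_const hfc.measurable
  show ∫ x, (if s < md φ ψ x then η s * s else 0) = η s * (s * ar (md φ ψ) s)
  rw [h1, integral_indicator h2, setIntegral_const]
  show (volume {x | s < md φ ψ x}).toReal * (η s * s) = _
  unfold ar
  ring

end MGS
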