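import Pool.Agent.MGS.TA
import Pool.Agent.MGS.TC

/-!
# MGS: target `M2V` (the magnetic flux through the levels of a radial function)

The chain rule with bounded Borel derivative (`BCH`) is applied to `κ s = η s * s` for
`0 < s ≤ M`, then `M → ∞`.
-/

set_option autoImplicit false

open MeasureTheory Filter Topology Metric Set
open scoped ENNReal NNReal ContDiff Pointwise

noncomputable section

namespace MGS

namespace M2V_

theorem ar_meas (v : ℂ → ℝ) : Measurable (ar v) := by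
  have h : Antitone fun s : ℝ => volume {x : ℂ | s < v x} := by
    intro s t hst
    exact measure_mono fun x (hx : t < v x) => lt_of_le_of_lt hst hx
  exact h.measurable.ennreal_toReal

theorem lt_sub_ball {R : ℝ} {v : ℂ → ℝ} (hv : Nc R v) {s : ℝ} (hs : 0 ≤ s) :
    {x : ℂ | s < v x} ⊆ ball 0 R := by
  intro x hx
  rw [mem_ball_zero_iff]
  by_contra hcon
  have h0 := hv.z x (not_lt.1 hcon)
  have hx' : s < v x := hx
  linarith

theorem ar_nonneg (v : ℂ → ℝ) (s : ℝ) : 0 ≤ ar v s := ENNReal.toReal_nonneg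

theorem lt_fin {R : ℝ} {v : ℂ → ℝ} (hv : Nc R v) {s : ℝ} (hs : 0 ≤ s) :
    volume {x : ℂ | s < v x} ≠ ⊤ :=
  ((measure_mono (lt_sub_ball hv hs)).trans_lt measure_ball_lt_top).ne

/-- `s * ar v s` is integrable on `(0, ∞)` -/
theorem int_ar {R : ℝ} {v : ℂ → ℝ} (hv : Nc R v) (h2 : MemLp v 2 volume) :
    IntegrableOn (fun s => s * ar v s) (Ioi 0) := by
  refine ⟨(measurable_id.mul (ar_meas v)).aestronglyMeasurable, ?_⟩
  have h := lintegral_rpow_eq_lintegral_meas_lt_mul (volume : Measure ℂ)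
    (Eventually.of_forall hv.nn) hv.m.aemeasurable (p := 2) (by norm_num)
  have hfin : ∫⁻ x, ENNReal.ofReal (v x ^ (2 : ℝ)) < ⊤ := by
    have h3 : Integrable (fun x => v x ^ 2) volume := h2.integrable_sq
    have h4 := h3.2
    have e : (fun x => ENNReal.ofReal (v x ^ (2 : ℝ))) = fun x => ‖v x ^ 2‖ₑ := by
      funext x
      rw [Real.enorm_of_nonneg (by positivity)]
      norm_num
    rw [e]
    exact h4
  rw [h] at hfin
  have hfin2 : ∫⁻ t in Ioi (0 : ℝ), volume {a : ℂ | t < v a} * ENNReal.ofReal (t ^ ((2 : ℝ) - 1)) < ⊤ := by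
    by_contra hcon
    rw [not_lt, top_le_iff] at hcon
    rw [hcon, ENNReal.mul_top (by norm_num)] at hfin
    exact lt_irrefl _ hfin
  refine lt_of_le_of_lt (le_of_eq ?_) hfin2
  refine setLIntegral_congr_fun measurableSet_Ioi fun t ht => ?_
  have ht0 : (0 : ℝ) < t := ht
  show ‖t * ar v t‖ₑ = _
  rw [Real.enorm_of_nonneg (mul_nonneg ht0.le (ar_nonneg v t)), ENNReal.ofReal_mul ht0.le]
  unfold ar
  rw [ENNReal.ofReal_toReal (lt_fin hv ht0.le), mul_comm]
  norm_num

/-- Fubini -/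
theorem fub {R : ℝ} {v : ℂ → ℝ} (hv : Nc R v) (κ : ℝ → ℝ) (C M : ℝ) (hκ : Measurable κ)
    (hC : ∀ s, |κ s| ≤ C) (hM : ∀ s, M < s → κ s = 0) :
    ∫ x, (∫ t in (0 : ℝ)..(v x), κ t) = ∫ s in Ioi (0 : ℝ), κ s * ar v s := by
  have hC0 : 0 ≤ C := (abs_nonneg _).trans (hC 0)
  have e1 : ∀ x, (∫ t in (0 : ℝ)..(v x), κ t) =
      ∫ t in Ioi (0 : ℝ), if t < v x then κ t else 0 := by
    intro x
    rw [intervalIntegral.integral_of_le (hv.nn x), integral_Ioc_eq_integral_Ioo]
    have e2 : (fun t => if t < v x then κ t else 0) = (Iio (v x)).indicator κ := by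
      funext t
      rw [Set.indicator_apply]
      rfl
    rw [e2, setIntegral_indicator measurableSet_Iio]
    rfl
  simp_rw [e1]
  rw [integral_integral_swap]
  · refine setIntegral_congr_fun measurableSet_Ioi fun t ht => ?_
    have ht0 : (0 : ℝ) < t := ht
    have e3 : (fun x : ℂ => if t < v x then κ t else 0) =
        {x : ℂ | t < v x}.indicator (fun _ => κ t) := by
      funext x
      rw [Set.indicator_apply]
      rfl
    show ∫ x : ℂ, (if t < v x then κ t else 0) = κ t * ar v t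
    rw [e3, integral_indicator_const _ (measurableSet_lt measurable_const hv.m), smul_eq_mul,
      mul_comm]
    rfl
  · have hg : Integrable ((ball (0 : ℂ) R ×ˢ Ioc (0 : ℝ) M).indicator fun _ => C)
        (volume.prod (volume.restrict (Ioi (0 : ℝ)))) := by
      rw [integrable_indicator_iff (measurableSet_ball.prod measurableSet_Ioc)]
      refine integrableOn_const ?_ 
      rw [Measure.prod_prod]
      refine (ENNReal.mul_lt_top measure_ball_lt_top ?_).ne
      refine lt_of_le_of_lt (Measure.restrict_apply_le _ _) ?_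
      simp
    refine hg.mono' ?_ ?_
    · refine Measurable.aestronglyMeasurable ?_
      refine Measurable.ite (measurableSet_lt measurable_snd (hv.m.comp measurable_fst))
        (hκ.comp measurable_snd) measurable_const
    · have hae : ∀ᵐ p : ℂ × ℝ ∂(volume.prod (volume.restrict (Ioi (0 : ℝ)))), 0 < p.2 := by
        have h1 : ∀ᵐ t ∂(volume.restrict (Ioi (0 : ℝ))), 0 < t :=
          (ae_restrict_iff' measurableSet_Ioi).2 (Eventually.of_forall fun t ht => ht)
        exact Measure.quasiMeasurePreserving_snd.ae h1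
      filter_upwards [hae] with p hp
      show ‖if p.2 < v p.1 then κ p.2 else 0‖ ≤ _
      by_cases h1 : p.2 < v p.1
      · rw [if_pos h1]
        by_cases h2 : M < p.2
        · rw [hM _ h2, norm_zero]
          exact Set.indicator_nonneg (fun _ _ => hC0) _
        · rw [Set.indicator_of_mem]
          · exact hC _
          · exact ⟨lt_sub_ball hv hp.le h1, hp, not_lt.1 h2⟩
      · rw [if_neg h1, norm_zero]
        exact Set.indicator_nonneg (fun _ _ => hC0) _

/-- the cut off coordinate functions -/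
theorem cut (R : ℝ) (L : ℂ →L[ℝ] ℝ) : ∃ g : ℂ → ℝ, Test univ g ∧ (∀ x ∈ ball (0 : ℂ) R, g x = L x) ∧
    ∀ x ∈ ball (0 : ℂ) R, ∀ i, pd e2 i g x = L (e2 i) := by
  let b : ContDiffBump (0 : ℂ) := ⟨|R| + 1, |R| + 2, by positivity, by linarith⟩
  have hb1 : ∀ x ∈ ball (0 : ℂ) R, b x = 1 := by
    intro x hx
    refine b.one_of_mem_closedBall ?_
    rw [mem_closedBall_zero_iff]
    rw [mem_ball_zero_iff] at hx
    have := le_abs_self R
    show ‖x‖ ≤ |R| + 1
    linarith
  refine ⟨fun x => L x * b x, ⟨L.contDiff.mul b.contDiff, ?_, Set.subset_univ _⟩, ?_, ?_⟩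
  · exact b.hasCompactSupport.mul_left
  · intro x hx
    show L x * b x = L x
    rw [hb1 x hx, mul_one]
  · intro x hx i
    have he : (fun x => L x * b x) =ᶠ[𝓝 x] L := by
      filter_upwards [isOpen_ball.mem_nhds hx] with y hy
      rw [hb1 y hy, mul_one]
    unfold pd
    rw [he.fderiv_eq, L.fderiv]

/-- integration by parts against one coordinate -/
theorem ibp1 (hI : T_IBH) {R : ℝ} {f : ℂ → ℝ} {F : Fin 2 → ℂ → ℝ} (h : H1 e2 (ball 0 R) f F)
    (hf : ∀ x, x ∉ ball (0 : ℂ) R → f x = 0) (hF : ∀ x, x ∉ ball (0 : ℂ) R → ∀ i, F i x = 0)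
    (L : ℂ →L[ℝ] ℝ) (i : Fin 2) (hL : L (e2 i) = 1) :
    Integrable (fun x => F i x * L x) ∧ ∫ x, f x = -∫ x, F i x * L x := by
  obtain ⟨g, hg, hg1, hg2⟩ := cut R L
  have h1 := hI ℂ (Fin 2) e2 (ball 0 R) univ f g F (fun i => pd e2 i g) h hg.h1 i
  have e1 : (fun P => f P * pd e2 i g P) = f := by
    funext x
    by_cases hx : x ∈ ball (0 : ℂ) R
    · rw [hg2 x hx i, hL, mul_one]
    · rw [hf x hx, zero_mul]
  have e2' : (fun P => F i P * g P) = fun x => F i x * L x := by
    funext x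
    by_cases hx : x ∈ ball (0 : ℂ) R
    · rw [hg1 x hx]
    · rw [hF x hx, zero_mul, zero_mul]
  have hint : Integrable (fun P => F i P * g P) := (h.2.1 i).integrable_mul hg.memLp
  rw [e2'] at hint
  refine ⟨hint, ?_⟩
  have h2 : ∫ P, f P * pd e2 i g P = -∫ P, F i P * g P := h1
  rw [e1, e2'] at h2
  exact h2

/-- the identity for the truncated function -/
theorem trunc (hI : T_IBH) (hB : T_BCH) (hR : T_RDG) (R : ℝ) (v : ℂ → ℝ) (G : Fin 2 → ℂ → ℝ)
    (w : ℝ → ℝ) (κ : ℝ → ℝ) (C M : ℝ) (h : H1 e2 (ball 0 R) v G) (hv : Nc R v)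
    (hw : ∀ x, v x = w ‖x‖) (ha : AntitoneOn w (Ioi 0)) (hκ : Measurable κ)
    (hC : ∀ s, |κ s| ≤ C) (hM : ∀ s, M < s → κ s = 0) (h0 : κ 0 = 0) :
    ∫ x, κ (v x) * ((‖x‖ / 2) * gn G x) = ∫ s in Ioi (0 : ℝ), κ s * ar v s := by
  have h1 := hB ℂ (Fin 2) e2 (ball 0 R) v G κ C isOpen_ball h hκ hC
  have hz : ∀ x, x ∉ ball (0 : ℂ) R → v x = 0 := fun x hx =>
    hv.z x (not_lt.1 fun hcon => hx (mem_ball_zero_iff.2 hcon))
  have hf0 : ∀ x, x ∉ ball (0 : ℂ) R → (∫ t in (0 : ℝ)..(v x), κ t) = 0 := by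
    intro x hx
    rw [hz x hx, intervalIntegral.integral_same]
  have hF0 : ∀ x, x ∉ ball (0 : ℂ) R → ∀ i, κ (v x) * G i x = 0 := by
    intro x hx i
    rw [hz x hx, h0, zero_mul]
  obtain ⟨i0, k0⟩ := ibp1 hI h1 hf0 hF0 Complex.reCLM 0 (by simp [e2])
  obtain ⟨i1, k1⟩ := ibp1 hI h1 hf0 hF0 Complex.imCLM 1 (by simp [e2])
  rw [← fub hv κ C M hκ hC hM]
  have hr := hR (ball 0 R) v G w h hw ha
  have e : ∫ x, κ (v x) * ((‖x‖ / 2) * gn G x) =
      ∫ x, (-(1 / 2 : ℝ)) * (κ (v x) * G 0 x * Complex.reCLM x +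
        κ (v x) * G 1 x * Complex.imCLM x) := by
    refine integral_congr_ae ?_
    filter_upwards [hr] with x hx
    rw [hx.1, hx.2, Complex.reCLM_apply, Complex.imCLM_apply]
    by_cases hx0 : x = 0
    · rw [hx0]
      simp
    · have hn : ‖x‖ ≠ 0 := norm_ne_zero_iff.2 hx0
      have hn2 : x.re * x.re + x.im * x.im = ‖x‖ ^ 2 := by
        rw [← Complex.normSq_apply, Complex.normSq_eq_norm_sq]
      field_simp
      linear_combination (-(κ (v x) * gn G x)) * hn2
  rw [e, integral_const_mul, integral_add i0 i1]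
  linarith

end M2V_

theorem p_M2V (hI : T_IBH) (hB : T_BCH) (hR : T_RDG) : T_M2V := by
  intro R v G w η K h hv hG hw ha hη hK
  have hK0 : 0 ≤ K := (abs_nonneg _).trans (hK 0)
  have hia := M2V_.int_ar hv h.1
  have hgn : Measurable (gn G) := by
    have : gn G = fun x => Real.sqrt (G 0 x ^ 2 + G 1 x ^ 2) := rfl
    rw [this]
    exact (((hG 0).pow_const 2).add ((hG 1).pow_const 2)).sqrt
  have hgn0 : ∀ x, 0 ≤ gn G x := fun x => Real.sqrt_nonneg _
  have hgn2 : MemLp (gn G) 2 volume := by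
    refine (((h.2.1 0).norm).add ((h.2.1 1).norm)).mono hgn.aestronglyMeasurable ?_
    refine Eventually.of_forall fun x => ?_
    rw [Real.norm_eq_abs, abs_of_nonneg (hgn0 x)]
    refine le_trans ?_ (le_abs_self _)
    show Real.sqrt (G 0 x ^ 2 + G 1 x ^ 2) ≤ |G 0 x| + |G 1 x|
    refine Real.sqrt_le_iff.2 ⟨by positivity, ?_⟩
    have h1 := sq_abs (G 0 x)
    have h2 := sq_abs (G 1 x)
    nlinarith [abs_nonneg (G 0 x), abs_nonneg (G 1 x)]
  have hvg : Integrable (fun x => v x * gn G x) volume := h.1.integrable_mul hgn2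
  -- truncation
  let κ : ℕ → ℝ → ℝ := fun n s => if s ∈ Ioc (0 : ℝ) n then η s * s else 0
  have hκm : ∀ n, Measurable (κ n) := fun n =>
    Measurable.ite measurableSet_Ioc (hη.mul measurable_id) measurable_const
  have hκb : ∀ n s, |κ n s| ≤ K * n := by
    intro n s
    show |if s ∈ Ioc (0 : ℝ) n then η s * s else 0| ≤ K * n
    split_ifs with hs
    · rw [abs_mul, abs_of_nonneg hs.1.le]
      exact mul_le_mul (hK s) hs.2 hs.1.le hK0
    · rw [abs_zero]
      positivity
  have hκM : ∀ (n : ℕ) s, (n : ℝ) < s → κ n s = 0 := by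
    intro n s hs
    exact if_neg fun hcon => absurd hcon.2 (not_le.2 hs)
  have hκ0 : ∀ n, κ n 0 = 0 := fun n => if_neg fun hcon => lt_irrefl _ hcon.1
  have hκle : ∀ n s, 0 ≤ s → |κ n s| ≤ K * s := by
    intro n s hs0
    show |if s ∈ Ioc (0 : ℝ) n then η s * s else 0| ≤ K * s
    split_ifs with hs
    · rw [abs_mul, abs_of_nonneg hs.1.le]
      exact mul_le_mul_of_nonneg_right (hK s) hs.1.le
    · rw [abs_zero]
      positivity
  have hκlim : ∀ s, 0 ≤ s → ∀ᶠ n : ℕ in atTop, κ n s = η s * s := by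
    intro s hs
    obtain ⟨N, hN⟩ := exists_nat_ge s
    filter_upwards [eventually_ge_atTop N] with n hn
    have hn' : (N : ℝ) ≤ n := by exact_mod_cast hn
    show (if s ∈ Ioc (0 : ℝ) n then η s * s else 0) = η s * s
    rcases hs.eq_or_lt with rfl | hs'
    · simp
    · rw [if_pos ⟨hs', hN.trans hn'⟩]
  have key : ∀ n, ∫ x, κ n (v x) * ((‖x‖ / 2) * gn G x) = ∫ s in Ioi (0 : ℝ), κ n s * ar v s :=
    fun n => M2V_.trunc hI hB hR R v G w (κ n) (K * n) n h hv hw ha (hκm n) (hκb n) (hκM n) (hκ0 n)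
  have L1 : Tendsto (fun n => ∫ x, κ n (v x) * ((‖x‖ / 2) * gn G x)) atTop
      (𝓝 (∫ x, η (v x) * (v x * (‖x‖ / 2) * gn G x))) := by
    refine tendsto_integral_of_dominated_convergence
      (fun x => (K * (|R| / 2)) * (v x * gn G x)) (fun n => ?_) (hvg.const_mul _) (fun n => ?_) ?_
    · exact (((hκm n).comp hv.m).mul ((measurable_norm.div_const 2).mul hgn)).aestronglyMeasurable
    · refine Eventually.of_forall fun x => ?_
      rw [Real.norm_eq_abs, abs_mul, abs_of_nonneg (mul_nonneg (by positivity) (hgn0 x))]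
      have hvx := hv.nn x
      by_cases hx : R ≤ ‖x‖
      · rw [hv.z x hx, hκ0, abs_zero]
        simp
      · have hxR : ‖x‖ ≤ |R| := (not_le.1 hx).le.trans (le_abs_self R)
        calc |κ n (v x)| * (‖x‖ / 2 * gn G x) ≤ (K * v x) * (|R| / 2 * gn G x) := by
              refine mul_le_mul (hκle n _ hvx) ?_ (mul_nonneg (by positivity) (hgn0 x))
                (mul_nonneg hK0 hvx)
              exact mul_le_mul_of_nonneg_right (by linarith) (hgn0 x)
          _ = K * (|R| / 2) * (v x * gn G x) := by ring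
    · refine Eventually.of_forall fun x => ?_
      refine tendsto_nhds_of_eventually_eq ?_
      filter_upwards [hκlim (v x) (hv.nn x)] with n hn
      rw [hn]
      ring
  have L2 : Tendsto (fun n => ∫ s in Ioi (0 : ℝ), κ n s * ar v s) atTop
      (𝓝 (∫ s in Ioi (0 : ℝ), η s * (s * ar v s))) := by
    refine tendsto_integral_of_dominated_convergence
      (fun s => K * (s * ar v s)) (fun n => ?_) (hia.const_mul _) (fun n => ?_) ?_
    · exact ((hκm n).mul (M2V_.ar_meas v)).aestronglyMeasurable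
    · rw [ae_restrict_iff' measurableSet_Ioi]
      refine Eventually.of_forall fun s hs => ?_
      have hs0 : (0 : ℝ) ≤ s := le_of_lt hs
      rw [Real.norm_eq_abs, abs_mul, abs_of_nonneg (M2V_.ar_nonneg v s), ← mul_assoc]
      exact mul_le_mul_of_nonneg_right (hκle n s hs0) (M2V_.ar_nonneg v s)
    · rw [ae_restrict_iff' measurableSet_Ioi]
      refine Eventually.of_forall fun s hs => ?_
      have hs0 : (0 : ℝ) ≤ s := le_of_lt hs
      refine tendsto_nhds_of_eventually_eq ?_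
      filter_upwards [hκlim s hs0] with n hn
      rw [hn]
      ring
  refine tendsto_nhds_unique L1 ?_
  simp_rw [key]
  exact L2

end MGS
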