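import Pool.Agent.MGS.TE

/-!
# MGS: target MNE (helper91)
-/

set_option autoImplicit false

open MeasureTheory Filter Topology Metric Set
open scoped ENNReal NNReal ContDiff

noncomputable section

namespace MGS

namespace MNE_

theorem ae_ne : ∀ᵐ P : X, P.1 ≠ 0 := by
  have h : ∀ᵐ x : ℂ, x ≠ 0 := compl_mem_ae_iff.2 (measure_singleton 0)
  exact Measure.quasiMeasurePreserving_fst.ae h

theorem rr_le {g : ℂ → ℝ} {N : ℝ} (h0 : 0 ≤ N) (hg : ∀ x, g x ≤ N) (t : ℝ) : rr g t ≤ N := by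
  unfold rr
  refine Real.sSup_le ?_ h0
  rintro s ⟨hs, hs2⟩
  by_contra hc
  push Not at hc
  have h1 : ar g s = 0 := by
    unfold ar
    have h2 : {x : ℂ | s < g x} = ∅ :=
      Set.eq_empty_iff_forall_notMem.2 fun x hx => not_lt.2 ((hg x).trans hc.le) hx
    rw [h2]
    simp
  rw [h1] at hs2
  have h3 : 0 ≤ Real.pi * t ^ 2 := by positivity
  linarith

theorem int_p {ε s : ℝ} (hε : 0 < ε) (hs : 0 ≤ s) :
    ∫ t in (0 : ℝ)..s, ε / (|t| + ε) ^ 2 = s / (s + ε) := by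
  have h1 : ∫ t in (0 : ℝ)..s, ε / (|t| + ε) ^ 2 = ∫ t in (0 : ℝ)..s, ε / (t + ε) ^ 2 := by
    refine intervalIntegral.integral_congr fun t ht => ?_
    rw [uIcc_of_le hs] at ht
    simp only [abs_of_nonneg ht.1]
  have h2 : ∀ t ∈ uIcc 0 s, HasDerivAt (fun t : ℝ => t / (t + ε)) (ε / (t + ε) ^ 2) t := by
    intro t ht
    rw [uIcc_of_le hs] at ht
    have h3 : t + ε ≠ 0 := by linarith [ht.1]
    have h4 := (hasDerivAt_id t).div ((hasDerivAt_id t).add_const ε) h3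
    refine h4.congr_deriv ?_
    simp only [id]
    congr 1
    ring
  rw [h1, intervalIntegral.integral_eq_sub_of_hasDerivAt h2]
  · simp
  · refine ContinuousOn.intervalIntegrable fun t ht => ?_
    rw [uIcc_of_le hs] at ht
    have h3 : (t + ε) ^ 2 ≠ 0 := by
      have : 0 < t + ε := by linarith [ht.1]
      positivity
    have h4 : ContinuousAt (fun t : ℝ => (t + ε) ^ 2) t := by fun_prop
    exact (continuousAt_const.div h4 h3).continuousWithinAt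

theorem eta_le {ε : ℝ} (hε : 0 < ε) (s : ℝ) : |ε / (|s| + ε) ^ 2| ≤ 1 / ε := by
  have h1 : 0 ≤ |s| := abs_nonneg s
  have h0 : 0 < (|s| + ε) ^ 2 := by positivity
  rw [abs_of_nonneg (by positivity), div_le_div_iff₀ h0 hε]
  nlinarith

theorem pp_mem {ε : ℝ} (hε : 0 < ε) {v : X → ℝ} (hv : ∀ P, 0 ≤ v P) (P : X) :
    0 ≤ pp ε v P ∧ pp ε v P ≤ 1 := by
  have h0 := hv P
  have h1 : 0 < v P + ε := by linarith
  unfold pp
  refine ⟨by positivity, ?_⟩
  rw [div_le_one h1]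
  linarith

/-- the test function -/
theorem phi_h1 (hBCH : T_BCH) (hPRB : T_PRB) {G : Set X} (hG : IsOpen G) {ε N : ℝ} (hε : 0 < ε)
    {v v₁ : X → ℝ} {Γ F : Fin 3 → X → ℝ} (hv : H1 e3 G v Γ) (hv1 : H1 e3 G v₁ F)
    (hN : ∀ P, |v P| ≤ N) (hnn : ∀ P, 0 ≤ v₁ P) :
    H1 e3 G (fun P => v P ^ 2 / (v₁ P + ε)) (fun i P => 2 * v P * Γ i P / (v₁ P + ε) -
      v P ^ 2 * F i P / (v₁ P + ε) ^ 2) := by
  have h1 := hPRB X (Fin 3) e3 G v v Γ Γ N hG hv (hv.mono (subset_univ _))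
    (Eventually.of_forall hN) (Eventually.of_forall hN)
  have hη : Measurable fun s : ℝ => ε / (|s| + ε) ^ 2 :=
    measurable_const.div ((measurable_id.abs.add_const ε).pow_const 2)
  have h2 := hBCH X (Fin 3) e3 G v₁ F (fun s => ε / (|s| + ε) ^ 2) (1 / ε) hG hv1 hη (eta_le hε)
  have h3 : H1 e3 G (pp ε v₁) (fun i P => ε / (v₁ P + ε) ^ 2 * F i P) := by
    refine h2.congr (Eventually.of_forall fun P => ?_) fun i => Eventually.of_forall fun P => ?_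
    · show ∫ t in (0 : ℝ)..(v₁ P), ε / (|t| + ε) ^ 2 = pp ε v₁ P
      rw [int_p hε (hnn P)]
      rfl
    · show ε / (|v₁ P| + ε) ^ 2 * F i P = ε / (v₁ P + ε) ^ 2 * F i P
      rw [abs_of_nonneg (hnn P)]
  have hN0 : 0 ≤ N := (abs_nonneg _).trans (hN 0)
  have h4 := hPRB X (Fin 3) e3 G (fun P => v P * v P) (pp ε v₁) _ _ (max (N ^ 2) 1) hG h1
    (h3.mono (subset_univ _)) (Eventually.of_forall fun P => ?_)
    (Eventually.of_forall fun P => ?_)
  · have h5 := (h1.sub h4).smul (1 / ε)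
    refine h5.congr (Eventually.of_forall fun P => ?_) fun i => Eventually.of_forall fun P => ?_
    · show 1 / ε * (v P * v P - v P * v P * pp ε v₁ P) = v P ^ 2 / (v₁ P + ε)
      have h6 : v₁ P + ε ≠ 0 := by linarith [hnn P]
      unfold pp
      field_simp
      ring
    · show 1 / ε * (v P * Γ i P + v P * Γ i P - (v P * v P * (ε / (v₁ P + ε) ^ 2 * F i P) +
        pp ε v₁ P * (v P * Γ i P + v P * Γ i P))) = 2 * v P * Γ i P / (v₁ P + ε) -
        v P ^ 2 * F i P / (v₁ P + ε) ^ 2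
      have h6 : v₁ P + ε ≠ 0 := by linarith [hnn P]
      unfold pp
      field_simp
      ring
  · rw [← pow_two, abs_of_nonneg (sq_nonneg _), ← sq_abs]
    exact le_max_of_le_left (pow_le_pow_left₀ (abs_nonneg _) (hN P) 2)
  · obtain ⟨h7, h8⟩ := pp_mem hε hnn P
    rw [abs_of_nonneg h7]
    exact le_max_of_le_right h8

theorem Kq_meas {B : ℝ} {V T : ℝ → ℝ → ℝ} (hV : Measurable (Function.uncurry V))
    (hT : Measurable (Function.uncurry T)) : Measurable (Function.uncurry (Kq B V T)) := by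
  have hV' : Measurable (fun p : ℝ × ℝ => V p.1 p.2) := hV
  have hT' : Measurable (fun p : ℝ × ℝ => T p.1 p.2) := hT
  show Measurable (fun p : ℝ × ℝ => min 1 (B / 2 * |p.1| * V p.1 p.2 / T p.1 p.2))
  exact measurable_const.min (((measurable_fst.abs.const_mul (B / 2)).mul hV').div hT')

theorem Qe_meas {ε : ℝ} {V T : ℝ → ℝ → ℝ} {f : X → ℝ} (hV : Measurable (Function.uncurry V))
    (hT : Measurable (Function.uncurry T))
    (hr : Measurable (fun p : ℝ × ℝ => rr (sl f p.2) |p.1|)) :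
    Measurable (Function.uncurry (Qe ε V T f)) := by
  have hV' : Measurable (fun p : ℝ × ℝ => V p.1 p.2) := hV
  have hT' : Measurable (fun p : ℝ × ℝ => T p.1 p.2) := hT
  show Measurable (fun p : ℝ × ℝ => T p.1 p.2 / (V p.1 p.2 + ε) * rr (sl f p.2) |p.1|)
  exact (hT'.div (hV'.add_const ε)).mul hr

theorem Kq_mem {B : ℝ} {V T : ℝ → ℝ → ℝ} (hB : 0 < B) (hV : ∀ r z, 0 ≤ V r z)
    (hT : ∀ r z, 0 ≤ T r z) (r z : ℝ) : 0 ≤ Kq B V T r z ∧ Kq B V T r z ≤ 1 := by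
  have h1 := hV r z
  have h2 := hT r z
  unfold Kq
  exact ⟨le_min zero_le_one (by positivity), min_le_left _ _⟩

theorem rr_nonneg (g : ℂ → ℝ) (t : ℝ) : 0 ≤ rr g t := Real.sSup_nonneg fun _ hs => hs.1

theorem Qe_nonneg {ε : ℝ} (hε : 0 < ε) {V T : ℝ → ℝ → ℝ} (f : X → ℝ) (hV : ∀ r z, 0 ≤ V r z)
    (hT : ∀ r z, 0 ≤ T r z) (r z : ℝ) : 0 ≤ Qe ε V T f r z := by
  have h1 := hV r z
  have h2 := hT r z
  have h3 := rr_nonneg (sl f z) |r|
  unfold Qe
  positivity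

theorem Qe_le {ε N : ℝ} (hε : 0 < ε) {V T : ℝ → ℝ → ℝ} {f : X → ℝ} (hV : ∀ r z, 0 ≤ V r z)
    (hT : ∀ r z, 0 ≤ T r z) (h0 : 0 ≤ N) (hN : ∀ P, f P ≤ N) (r z : ℝ) :
    Qe ε V T f r z ≤ N / ε * T r z := by
  have h1 := hV r z
  have h2 := hT r z
  have h3 := rr_nonneg (sl f z) |r|
  have h4 : rr (sl f z) |r| ≤ N := rr_le h0 (fun x => hN (x, z)) _
  unfold Qe
  have h5 : T r z / (V r z + ε) ≤ T r z / ε :=
    div_le_div_of_nonneg_left h2 hε (by linarith)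
  calc T r z / (V r z + ε) * rr (sl f z) |r| ≤ T r z / ε * N :=
        mul_le_mul h5 h4 h3 (by positivity)
    _ = N / ε * T r z := by ring

/-- the square of the slope is the square of the horizontal gradient -/
theorem T_sq {F : Fin 3 → X → ℝ} {T : ℝ → ℝ → ℝ} {P : X} (hP : P.1 ≠ 0)
    (h : F 0 P = -(T ‖P.1‖ P.2 * P.1.re / ‖P.1‖) ∧ F 1 P = -(T ‖P.1‖ P.2 * P.1.im / ‖P.1‖)) :
    T ‖P.1‖ P.2 ^ 2 = F 0 P ^ 2 + F 1 P ^ 2 := by
  have h1 : ‖P.1‖ ≠ 0 := norm_ne_zero_iff.2 hP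
  have h2 : ‖P.1‖ ^ 2 = P.1.re ^ 2 + P.1.im ^ 2 := by
    rw [← Complex.normSq_eq_norm_sq, Complex.normSq_apply]
    ring
  rw [h.1, h.2]
  have h3 : (-(T ‖P.1‖ P.2 * P.1.re / ‖P.1‖)) ^ 2 + (-(T ‖P.1‖ P.2 * P.1.im / ‖P.1‖)) ^ 2 =
      T ‖P.1‖ P.2 ^ 2 * (P.1.re ^ 2 + P.1.im ^ 2) / ‖P.1‖ ^ 2 := by
    ring
  rw [h3, ← h2]
  field_simp

end MNE_

open MNE_ in
/-- the main inequality for a bounded pair -/
theorem p_MNE (hSYM : T_SYM) (hMOD : T_MOD) (hINT : T_INT) (hCAL : T_CAL) (hWEQ : T_WEQ)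
    (hBCH : T_BCH) (hPRB : T_PRB) (hVSM : T_VSM) : T_MNE := by
  intro B ε R N Ω a b v₁ Fa Fb F V T hB hε hPD hN hstar hRD
  have hf0 : ∀ P, 0 ≤ md a b P := fun P => Real.sqrt_nonneg _
  have hN0 : 0 ≤ N := (hf0 0).trans (hN 0)
  have hfm : Measurable (md a b) := ((hPD.ma.pow_const 2).add (hPD.mb.pow_const 2)).sqrt
  have hNx : Nx R (md a b) := by
    refine ⟨hfm, hf0, fun P hP => ?_⟩
    have h1 : P ∉ Ω := fun h => absurd (hPD.bdd P h) (not_lt.2 hP)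
    obtain ⟨h2, h3, _⟩ := hPD.zero P h1
    unfold md
    rw [h2, h3]
    simp
  obtain ⟨v1, v2, v3, v4, v5, v6⟩ := hVSM R _ hNx
  obtain ⟨w1, w2, w3, w4, w5, w6⟩ := hVSM R _ v1
  have hmod := hMOD X (Fin 3) e3 Ω a b Fa Fb hPD.isOpen hPD.ha hPD.hb
  obtain ⟨G, hG, hGm, hG01, hG2⟩ := hSYM Ω R (md a b) (mg a b Fa Fb) hPD.isOpen hPD.bdd hmod hNx
  have hKm : Measurable (Function.uncurry (Kq B V T)) := Kq_meas hRD.mV hRD.mT
  have hQm : Measurable (Function.uncurry (Qe ε V T (md a b))) := Qe_meas hRD.mV hRD.mT v6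
  have hK := Kq_mem (B := B) hB hRD.nn hRD.nnT
  have hQ := Qe_nonneg hε (md a b) hRD.nn hRD.nnT
  have hcm : Measurable (fun P : X => (‖P.1‖, P.2)) := measurable_fst.norm.prodMk measurable_snd
  have hQc : Measurable (fun P : X => Qe ε V T (md a b) ‖P.1‖ P.2) := hQm.comp hcm
  have hKc : Measurable (fun P : X => Kq B V T ‖P.1‖ P.2) := hKm.comp hcm
  have hQi : Integrable (fun P : X => Qe ε V T (md a b) ‖P.1‖ P.2 ^ 2) := by
    have h0 := (hRD.gs.h.memLp' 0).integrable_sq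
    have h1 := (hRD.gs.h.memLp' 1).integrable_sq
    refine Integrable.mono' ((h0.add h1).const_mul ((N / ε) ^ 2))
      (hQc.pow_const 2).aestronglyMeasurable ?_
    filter_upwards [ae_ne, hRD.geq] with P hP hP2
    rw [Real.norm_eq_abs, abs_of_nonneg (sq_nonneg _)]
    calc Qe ε V T (md a b) ‖P.1‖ P.2 ^ 2 ≤ (N / ε * T ‖P.1‖ P.2) ^ 2 :=
          pow_le_pow_left₀ (hQ _ _) (Qe_le hε hRD.nn hRD.nnT hN0 hN _ _) 2
      _ = (N / ε) ^ 2 * (F 0 P ^ 2 + F 1 P ^ 2) := by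
          rw [mul_pow, T_sq hP hP2]
  obtain ⟨iY, iZ, _, hZY⟩ := hINT B R Ω a b Fa Fb G (Kq B V T) (Qe ε V T (md a b)) hB.le hPD hG hGm
    hKm hQm hK hQ hQi
  have hpm : Measurable (plq B ε V T (md a b)) :=
    (measurable_const.sub (hKc.pow_const 2)).mul (hQc.pow_const 2)
  have hpi : Integrable (plq B ε V T (md a b)) := by
    refine Integrable.mono' hQi hpm.aestronglyMeasurable (Eventually.of_forall fun P => ?_)
    obtain ⟨k0, k1⟩ := hK ‖P.1‖ P.2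
    have k2 : 0 ≤ 1 - Kq B V T ‖P.1‖ P.2 ^ 2 := by nlinarith
    have k3 : 1 - Kq B V T ‖P.1‖ P.2 ^ 2 ≤ 1 := by nlinarith
    unfold plq
    rw [Real.norm_eq_abs, abs_of_nonneg (mul_nonneg k2 (sq_nonneg _))]
    exact mul_le_of_le_one_left (sq_nonneg _) k3
  refine ⟨iY, hpi.integrableOn, ?_⟩
  have hcal := hCAL B ε R Ω a b v₁ Fa Fb G F V T hB hε hPD hRD hG hGm
  -- the bounds of the symmetrization
  have hvN : ∀ P, |vs (md a b) P| ≤ N := by
    intro P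
    rw [abs_of_nonneg (v1.nn P)]
    exact rr_le hN0 (fun x => hN (x, P.2)) _
  have hphi := phi_h1 hBCH hPRB hstar.isOpen hε hG hRD.gs.h hvN hRD.gs.nn
  have hweq := hWEQ B (Ost Ω) v₁ F hstar hRD.gs _ _ hphi
  set v := vs (md a b) with hv
  set φF : Fin 3 → X → ℝ := fun i P => 2 * v P * G i P / (v₁ P + ε) -
    v P ^ 2 * F i P / (v₁ P + ε) ^ 2 with hφF
  have iA : ∀ i, Integrable (fun P => F i P * φF i P) := fun i =>
    (hRD.gs.h.memLp' i).integrable_mul (hphi.memLp' i)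
  have iv : Integrable (fun P => v P ^ 2) := hG.memLp.integrable_sq
  have hppm : Measurable (pp ε v₁) := hRD.gs.mv.div (hRD.gs.mv.add_const ε)
  have hVVm : Measurable (VV B) := by
    unfold VV
    exact (measurable_fst.norm.pow_const 2).const_mul _
  have iC : ∀ q : X → ℝ, Measurable q → (∀ P, 0 ≤ q P ∧ q P ≤ 1) →
      Integrable (fun P => VV B P * q P * v P ^ 2) := by
    intro q hq hq1
    refine Integrable.mono' (iv.const_mul ((B / 2) ^ 2 * R ^ 2))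
      ((hVVm.mul hq).mul (v1.m.pow_const 2)).aestronglyMeasurable
      (Eventually.of_forall fun P => ?_)
    obtain ⟨q0, q1⟩ := hq1 P
    have h0 : 0 ≤ VV B P := by unfold VV; positivity
    rw [Real.norm_eq_abs, abs_of_nonneg (by positivity)]
    by_cases hP : R ≤ ‖P‖
    · rw [v1.z P hP]
      simp
    · push Not at hP
      have h1 : ‖P.1‖ ≤ R := (norm_fst_le P).trans hP.le
      have h2 : VV B P ≤ (B / 2) ^ 2 * R ^ 2 := by
        unfold VV
        gcongr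
      calc VV B P * q P * v P ^ 2 ≤ (B / 2) ^ 2 * R ^ 2 * 1 * v P ^ 2 := by gcongr
        _ = (B / 2) ^ 2 * R ^ 2 * v P ^ 2 := by ring
  have hp1 := pp_mem hε hRD.gs.nn
  have iC1 := iC _ hppm hp1
  have iC2 := iC (fun P => pp ε v₁ P ^ 2) (hppm.pow_const 2) fun P =>
    ⟨sq_nonneg _, pow_le_one₀ (hp1 P).1 (hp1 P).2⟩
  have iD : Integrable ((pl v).indicator (plq B ε V T (md a b))) := hpi.indicator w3
  have i01 : Integrable (fun P => F 0 P * φF 0 P + F 1 P * φF 1 P) := (iA 0).add (iA 1)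
  have i012 : Integrable (fun P => F 0 P * φF 0 P + F 1 P * φF 1 P + F 2 P * φF 2 P) :=
    i01.add (iA 2)
  have i01c : Integrable (fun P => F 0 P * φF 0 P + F 1 P * φF 1 P +
      VV B P * pp ε v₁ P ^ 2 * v P ^ 2) := i01.add iC2
  -- the horizontal part
  have I1 : (∫ P, F 0 P * φF 0 P) + (∫ P, F 1 P * φF 1 P) +
      (∫ P, VV B P * pp ε v₁ P ^ 2 * v P ^ 2) + (∫ P in pl v, plq B ε V T (md a b) P) ≤
      ∫ P, Zx B v G (Kq B V T) (Qe ε V T (md a b)) P := by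
    rw [← integral_indicator w3, ← integral_add (iA 0) (iA 1), ← integral_add i01 iC2,
      ← integral_add i01c iD]
    refine integral_mono_ae (i01c.add iD) iZ ?_
    filter_upwards [hcal] with P hP
    rw [Fin.sum_univ_two] at hP
    exact hP
  have I2 : ∫ P, F 2 P * φF 2 P ≤ ∫ P, G 2 P ^ 2 := by
    refine integral_mono (iA 2) (hG.memLp' 2).integrable_sq fun P => ?_
    show F 2 P * (2 * v P * G 2 P / (v₁ P + ε) - v P ^ 2 * F 2 P / (v₁ P + ε) ^ 2) ≤ G 2 P ^ 2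
    have h1 : 0 ≤ (G 2 P - v P / (v₁ P + ε) * F 2 P) ^ 2 := sq_nonneg _
    have h2 : (G 2 P - v P / (v₁ P + ε) * F 2 P) ^ 2 = G 2 P ^ 2 -
        F 2 P * (2 * v P * G 2 P / (v₁ P + ε) - v P ^ 2 * F 2 P / (v₁ P + ε) ^ 2) := by
      generalize v₁ P + ε = w
      ring
    linarith
  have e1 : ∫ P, v₁ P * (v P ^ 2 / (v₁ P + ε)) = ∫ P, pp ε v₁ P * v P ^ 2 := by
    congr 1
    funext P
    unfold pp
    ring
  have e2 : ∫ P, (∑ i : Fin 3, F i P * φF i P + VV B P * (v₁ P * (v P ^ 2 / (v₁ P + ε)))) =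
      (∫ P, F 0 P * φF 0 P) + (∫ P, F 1 P * φF 1 P) + (∫ P, F 2 P * φF 2 P) +
      ∫ P, VV B P * pp ε v₁ P * v P ^ 2 := by
    rw [← integral_add (iA 0) (iA 1), ← integral_add i01 (iA 2), ← integral_add i012 iC1]
    congr 1
    funext P
    rw [Fin.sum_univ_three]
    unfold pp
    ring
  have e3' : ∫ P, VV B P * (pp ε v₁ P * (1 - pp ε v₁ P)) * v P ^ 2 =
      (∫ P, VV B P * pp ε v₁ P * v P ^ 2) - ∫ P, VV B P * pp ε v₁ P ^ 2 * v P ^ 2 := by
    rw [← integral_sub iC1 iC2]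
    congr 1
    funext P
    ring
  rw [e1, e2] at hweq
  rw [e3', ← hweq]
  linarith

end MGS
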