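import Pool.Agent.MGS.TA

/-!
# MGS: MOD (the modulus of a pair)
-/

set_option autoImplicit false
set_option linter.unusedSectionVars false

open MeasureTheory Filter Topology Metric Set
open scoped ENNReal NNReal ContDiff

noncomputable section

namespace MGS

namespace MOD_

/-! ### The function `√(s² + t² + d)` -/

/-- `√(s² + t² + d)` -/
def D (d s t : ℝ) : ℝ := Real.sqrt (s ^ 2 + t ^ 2 + d)

theorem D_nn (d s t : ℝ) : 0 ≤ D d s t := Real.sqrt_nonneg _

theorem D_sq {d : ℝ} (hd : 0 ≤ d) (s t : ℝ) : D d s t ^ 2 = s ^ 2 + t ^ 2 + d :=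
  Real.sq_sqrt (by positivity)

theorem abs_le_D {d : ℝ} (hd : 0 ≤ d) (s t : ℝ) : |s| ≤ D d s t := by
  rw [← abs_of_nonneg (D_nn d s t), ← sq_le_sq, D_sq hd]
  nlinarith [sq_nonneg t]

theorem abs_le_D' {d : ℝ} (hd : 0 ≤ d) (s t : ℝ) : |t| ≤ D d s t := by
  rw [← abs_of_nonneg (D_nn d s t), ← sq_le_sq, D_sq hd]
  nlinarith [sq_nonneg s]

theorem D_pos {d : ℝ} (hd : 0 < d) (s t : ℝ) : 0 < D d s t :=
  Real.sqrt_pos.2 (by positivity)

theorem D_le {d : ℝ} (hd : 0 ≤ d) (s t s' t' : ℝ) :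
    D d s t ≤ D d s' t' + (|s - s'| + |t - t'|) := by
  have h1 := abs_le_D hd s' t'
  have h2 := abs_le_D' hd s' t'
  have h3 := D_sq hd s' t'
  have h0 := D_nn d s' t'
  have hx := abs_nonneg (s - s')
  have hy := abs_nonneg (t - t')
  refine (Real.sqrt_le_iff).2 ⟨by positivity, ?_⟩
  have e1 : s ^ 2 ≤ (|s'| + |s - s'|) ^ 2 := by
    rw [← sq_abs s]
    have : |s| ≤ |s'| + |s - s'| := by
      have := abs_add_le s' (s - s')
      rwa [add_sub_cancel] at this
    nlinarith [abs_nonneg s]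
  have e2 : t ^ 2 ≤ (|t'| + |t - t'|) ^ 2 := by
    rw [← sq_abs t]
    have : |t| ≤ |t'| + |t - t'| := by
      have := abs_add_le t' (t - t')
      rwa [add_sub_cancel] at this
    nlinarith [abs_nonneg t]
  have e3 : |s'| ^ 2 = s' ^ 2 := sq_abs s'
  have e4 : |t'| ^ 2 = t' ^ 2 := sq_abs t'
  have e5 : |s'| * |s - s'| ≤ D d s' t' * |s - s'| := mul_le_mul_of_nonneg_right h1 hx
  have e6 : |t'| * |t - t'| ≤ D d s' t' * |t - t'| := mul_le_mul_of_nonneg_right h2 hy
  nlinarith [mul_nonneg hx hy]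

theorem D_lip {d : ℝ} (hd : 0 ≤ d) (s t s' t' : ℝ) :
    |D d s t - D d s' t'| ≤ |s - s'| + |t - t'| := by
  have h1 := D_le hd s t s' t'
  have h2 := D_le hd s' t' s t
  rw [abs_sub_comm s' s, abs_sub_comm t' t] at h2
  rw [abs_le]
  constructor <;> linarith

theorem quo_le {d : ℝ} (hd : 0 ≤ d) (s t : ℝ) : |s / D d s t| ≤ 1 := by
  rw [abs_div, abs_of_nonneg (D_nn d s t)]
  exact div_le_one_of_le₀ (abs_le_D hd s t) (D_nn d s t)

theorem quo_le' {d : ℝ} (hd : 0 ≤ d) (s t : ℝ) : |t / D d s t| ≤ 1 := by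
  rw [abs_div, abs_of_nonneg (D_nn d s t)]
  exact div_le_one_of_le₀ (abs_le_D' hd s t) (D_nn d s t)

theorem q_le {d : ℝ} (hd : 0 ≤ d) (s t p q : ℝ) : |(s * p + t * q) / D d s t| ≤ |p| + |q| := by
  have e : (s * p + t * q) / D d s t = s / D d s t * p + t / D d s t * q := by ring
  rw [e]
  refine (abs_add_le _ _).trans ?_
  rw [abs_mul, abs_mul]
  have h1 := mul_le_mul_of_nonneg_right (quo_le hd s t) (abs_nonneg p)
  have h2 := mul_le_mul_of_nonneg_right (quo_le' hd s t) (abs_nonneg q)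
  linarith

/-! ### `L²` convergence -/

section L2

variable {α : Type} [MeasurableSpace α] {μ : Measure α}

/-- dominated convergence in `L²` -/
theorem dct {u : ℕ → α → ℝ} {g : α → ℝ} (hg : MemLp g 2 μ)
    (hu : ∀ n, AEStronglyMeasurable (u n) μ) (hb : ∀ n, ∀ᵐ x ∂μ, |u n x| ≤ |g x|)
    (hl : ∀ᵐ x ∂μ, Tendsto (fun n => u n x) atTop (𝓝 0)) :
    Tendsto (fun n => eLpNorm (u n) 2 μ) atTop (𝓝 0) := by
  have h2 : (2 : ℝ≥0∞) ≠ 0 := by norm_num
  have h3 : (2 : ℝ≥0∞) ≠ ⊤ := by norm_num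
  have key : Tendsto (fun n => ∫⁻ x, ‖u n x‖ₑ ^ (2 : ℝ≥0∞).toReal ∂μ) atTop
      (𝓝 (∫⁻ _, 0 ∂μ)) := by
    refine tendsto_lintegral_of_dominated_convergence'
      (fun x => ‖g x‖ₑ ^ (2 : ℝ≥0∞).toReal) (fun n => ?_) (fun n => ?_) ?_ ?_
    · exact (hu n).enorm.pow_const _
    · filter_upwards [hb n] with x hx
      refine ENNReal.rpow_le_rpow ?_ (by simp)
      rw [← ofReal_norm, ← ofReal_norm]
      exact ENNReal.ofReal_le_ofReal hx
    · exact (lintegral_rpow_enorm_lt_top_of_eLpNorm_lt_top h2 h3 hg.2).ne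
    · filter_upwards [hl] with x hx
      have h4 : Tendsto (fun n => ‖u n x‖ₑ) atTop (𝓝 0) := by
        have h4 := (continuous_enorm.tendsto (0 : ℝ)).comp hx
        rw [enorm_zero] at h4
        exact h4
      have h5 := (ENNReal.continuous_rpow_const (y := (2 : ℝ≥0∞).toReal)).tendsto 0 |>.comp h4
      rw [ENNReal.zero_rpow_of_pos (by simp)] at h5
      exact h5
  rw [lintegral_zero] at key
  have h6 := (ENNReal.continuous_rpow_const (y := 1 / (2 : ℝ≥0∞).toReal)).tendsto 0 |>.comp key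
  have h7 : (0 : ℝ≥0∞) ^ (1 / (2 : ℝ≥0∞).toReal) = 0 := ENNReal.zero_rpow_of_pos (by simp)
  rw [h7] at h6
  refine h6.congr fun n => ?_
  rw [Function.comp_apply, eLpNorm_eq_lintegral_rpow_enorm_toReal h2 h3]

theorem sum_lim {w x y : ℕ → α → ℝ} (hx : ∀ n, AEStronglyMeasurable (x n) μ)
    (hy : ∀ n, AEStronglyMeasurable (y n) μ)
    (hx0 : Tendsto (fun n => eLpNorm (x n) 2 μ) atTop (𝓝 0))
    (hy0 : Tendsto (fun n => eLpNorm (y n) 2 μ) atTop (𝓝 0))
    (h : ∀ n, ∀ᵐ P ∂μ, |w n P| ≤ |x n P| + |y n P|) :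
    Tendsto (fun n => eLpNorm (w n) 2 μ) atTop (𝓝 0) := by
  have h1 : Tendsto (fun n => eLpNorm (x n) 2 μ + eLpNorm (y n) 2 μ) atTop (𝓝 0) := by
    simpa using hx0.add hy0
  refine tendsto_of_tendsto_of_tendsto_of_le_of_le tendsto_const_nhds h1 (fun _ => zero_le)
    fun n => ?_
  have hx' : AEStronglyMeasurable (fun P => ‖x n P‖) μ := (hx n).norm
  have hy' : AEStronglyMeasurable (fun P => ‖y n P‖) μ := (hy n).norm
  have e1 : eLpNorm (fun P => ‖x n P‖) 2 μ = eLpNorm (x n) 2 μ := eLpNorm_norm (x n)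
  have e2 : eLpNorm (fun P => ‖y n P‖) 2 μ = eLpNorm (y n) 2 μ := eLpNorm_norm (y n)
  rw [← e1, ← e2]
  refine le_trans ?_ (eLpNorm_add_le hx' hy' (by norm_num))
  refine eLpNorm_mono_ae_real ?_
  filter_upwards [h n] with P hP
  exact hP

theorem memLp_sum {w x y : α → ℝ} (hx : MemLp x 2 μ) (hy : MemLp y 2 μ)
    (hw : AEStronglyMeasurable w μ) (h : ∀ P, |w P| ≤ |x P| + |y P|) : MemLp w 2 μ := by
  refine (hx.norm.add hy.norm).mono' hw (Eventually.of_forall fun P => ?_)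
  exact h P

end L2

section gen

variable {E : Type} [NormedAddCommGroup E] [NormedSpace ℝ E]

theorem sm {G : Set E} {φ ψ : E → ℝ} (hφ : Test G φ) (hψ : Test G ψ) {δ : ℝ} (hδ : 0 < δ) :
    Test G (fun P => D (δ ^ 2) (φ P) (ψ P) - δ) where
  smooth := by
    refine ContDiff.sub ?_ contDiff_const
    refine ContDiff.sqrt ?_ fun P => by positivity
    exact ((hφ.smooth.pow 2).add (hψ.smooth.pow 2)).add contDiff_const
  cpt := by
    refine HasCompactSupport.of_support_subset_isCompact (hφ.cpt.union hψ.cpt) ?_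
    intro P hP
    by_contra h
    rw [mem_union, not_or] at h
    apply hP
    simp only [D, image_eq_zero_of_notMem_tsupport h.1, image_eq_zero_of_notMem_tsupport h.2]
    rw [show (0 : ℝ) ^ 2 + 0 ^ 2 + δ ^ 2 = δ ^ 2 by ring, Real.sqrt_sq hδ.le, sub_self]
  sub := by
    refine Subset.trans ?_ (union_subset hφ.sub hψ.sub)
    refine closure_minimal ?_ ((isClosed_tsupport φ).union (isClosed_tsupport ψ))
    intro P hP
    by_contra h
    rw [mem_union, not_or] at h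
    apply hP
    simp only [D, image_eq_zero_of_notMem_tsupport h.1, image_eq_zero_of_notMem_tsupport h.2]
    rw [show (0 : ℝ) ^ 2 + 0 ^ 2 + δ ^ 2 = δ ^ 2 by ring, Real.sqrt_sq hδ.le, sub_self]

theorem pd_sm {ι : Type} {e : ι → E} {G : Set E} {φ ψ : E → ℝ} (hφ : Test G φ) (hψ : Test G ψ)
    {δ : ℝ} (hδ : 0 < δ) (i : ι) (P : E) :
    pd e i (fun P => D (δ ^ 2) (φ P) (ψ P) - δ) P =
      (φ P * pd e i φ P + ψ P * pd e i ψ P) / D (δ ^ 2) (φ P) (ψ P) := by
  have h1 : HasFDerivAt φ (fderiv ℝ φ P) P := (hφ.diff P).hasFDerivAt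
  have h2 : HasFDerivAt ψ (fderiv ℝ ψ P) P := (hψ.diff P).hasFDerivAt
  have hne : φ P ^ 2 + ψ P ^ 2 + δ ^ 2 ≠ 0 := by positivity
  have h3 := (((h1.pow 2).add (h2.pow 2)).add_const (δ ^ 2)).sqrt hne
  have h4 := (h3.sub_const δ).fderiv
  unfold pd
  have h5 : (fun P => D (δ ^ 2) (φ P) (ψ P) - δ) =
      fun P => Real.sqrt ((fun P => φ P ^ 2) P + (fun P => ψ P ^ 2) P + δ ^ 2) - δ := rfl
  have hD := D_pos (pow_pos hδ 2) (φ P) (ψ P)
  have h6 : fderiv ℝ (fun P => D (δ ^ 2) (φ P) (ψ P) - δ) P = _ := h4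
  rw [h6]
  simp only [D] at hD ⊢
  simp
  field_simp

end gen

theorem D0_le (s t : ℝ) {δ : ℝ} (hδ : 0 ≤ δ) : D (δ ^ 2) s t ≤ D 0 s t + δ := by
  have h0 := D_nn 0 s t
  have h1 := D_sq le_rfl s t
  refine Real.sqrt_le_iff.2 ⟨by positivity, ?_⟩
  nlinarith [mul_nonneg h0 hδ]

theorem le_D0 (s t : ℝ) (δ : ℝ) : D 0 s t ≤ D (δ ^ 2) s t :=
  Real.sqrt_le_sqrt (by nlinarith [sq_nonneg δ])

theorem d_le_D (s t : ℝ) {δ : ℝ} (_hδ : 0 ≤ δ) : δ ≤ D (δ ^ 2) s t := by
  refine Real.le_sqrt_of_sq_le ?_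
  nlinarith [sq_nonneg s, sq_nonneg t]

theorem D_sub_abs (s t : ℝ) {δ : ℝ} (hδ : 0 ≤ δ) : |D (δ ^ 2) s t - δ| ≤ |s| + |t| := by
  have h := D_lip (sq_nonneg δ) s t 0 0
  have e : D (δ ^ 2) 0 0 = δ := by
    unfold D
    rw [show (0 : ℝ) ^ 2 + 0 ^ 2 + δ ^ 2 = δ ^ 2 by ring, Real.sqrt_sq hδ]
  rwa [e, sub_zero, sub_zero] at h

section main

variable {E : Type} [MeasurableSpace E] {μ : Measure E}

theorem D_aem (d : ℝ) {a b : E → ℝ} (ha : AEMeasurable a μ) (hb : AEMeasurable b μ) :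
    AEMeasurable (fun P => D d (a P) (b P)) μ :=
  (((ha.pow_const 2).add (hb.pow_const 2)).add_const d).sqrt

theorem q_aem (d : ℝ) {a b p q : E → ℝ} (ha : AEMeasurable a μ) (hb : AEMeasurable b μ)
    (hp : AEMeasurable p μ) (hq : AEMeasurable q μ) :
    AEMeasurable (fun P => (a P * p P + b P * q P) / D d (a P) (b P)) μ :=
  ((ha.mul hp).add (hb.mul hq)).div (D_aem d ha hb)

end main

theorem D_tendsto (d : ℝ) {s t : ℕ → ℝ} {s₀ t₀ : ℝ} (hs : Tendsto s atTop (𝓝 s₀))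
    (ht : Tendsto t atTop (𝓝 t₀)) : Tendsto (fun n => D d (s n) (t n)) atTop (𝓝 (D d s₀ t₀)) :=
  (Real.continuous_sqrt.tendsto _).comp (((hs.pow 2).add (ht.pow 2)).add_const d)

section stepA

variable {E : Type} [NormedAddCommGroup E] [NormedSpace ℝ E] [FiniteDimensional ℝ E]
  [MeasureSpace E] [BorelSpace E] [(volume : Measure E).IsAddHaarMeasure] {ι : Type} [Finite ι]
  {e : ι → E} {G : Set E} {a b : E → ℝ} {Fa Fb : ι → E → ℝ}

theorem quo_lim (d : ℝ) (hd : 0 < d) {F : E → ℝ} {φ ψ : ℕ → E → ℝ} (hF : MemLp F 2 volume)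
    (ha : AEMeasurable a volume) (hb : AEMeasurable b volume)
    (hφ : ∀ n, AEMeasurable (φ n) volume) (hψ : ∀ n, AEMeasurable (ψ n) volume)
    (h1 : ∀ᵐ P, Tendsto (fun n => φ n P) atTop (𝓝 (a P)))
    (h2 : ∀ᵐ P, Tendsto (fun n => ψ n P) atTop (𝓝 (b P))) :
    Tendsto (fun n => eLpNorm (fun P => (φ n P / D d (φ n P) (ψ n P) - a P / D d (a P) (b P)) *
      F P) 2 volume) atTop (𝓝 0) := by
  refine dct (g := fun P => 2 * F P) (hF.const_mul 2) (fun n => ?_) (fun n => ?_) ?_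
  · exact (((hφ n).div (D_aem d (hφ n) (hψ n))).sub (ha.div (D_aem d ha hb))).aestronglyMeasurable
      |>.mul hF.1
  · refine Eventually.of_forall fun P => ?_
    rw [abs_mul, abs_mul]
    refine mul_le_mul_of_nonneg_right ?_ (abs_nonneg _)
    have k1 := quo_le hd.le (φ n P) (ψ n P)
    have k2 := quo_le hd.le (a P) (b P)
    refine (abs_sub _ _).trans ?_
    rw [abs_of_pos (by norm_num : (0 : ℝ) < 2)]
    linarith
  · filter_upwards [h1, h2] with P k1 k2
    have k3 := k1.div (D_tendsto d k1 k2) (D_pos hd _ _).ne'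
    have k4 := (k3.sub_const (a P / D d (a P) (b P))).mul_const (F P)
    simpa using k4

theorem stepA (ha : H1 e G a Fa) (hb : H1 e G b Fb) {δ : ℝ} (hδ : 0 < δ) :
    H1 e G (fun P => D (δ ^ 2) (a P) (b P) - δ)
      (fun i P => (a P * Fa i P + b P * Fb i P) / D (δ ^ 2) (a P) (b P)) := by
  have : ProperSpace E := FiniteDimensional.proper_real E
  obtain ⟨φ, hφ, hφ1, hφ2, hφ3, -⟩ := ha.seq
  obtain ⟨ψ, hψ, hψ1, hψ2, hψ3, -⟩ := hb.seq
  have hd : 0 < δ ^ 2 := by positivity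
  have ma := ha.1.1.aemeasurable
  have mb := hb.1.1.aemeasurable
  have mFa := fun i => (ha.2.1 i).1.aemeasurable
  have mFb := fun i => (hb.2.1 i).1.aemeasurable
  have mφ := fun n => (hφ n).memLp.1.aemeasurable
  have mψ := fun n => (hψ n).memLp.1.aemeasurable
  refine H1.lim (g := fun n P => D (δ ^ 2) (φ n P) (ψ n P) - δ)
    (Fg := fun n i P => (φ n P * pd e i (φ n) P + ψ n P * pd e i (ψ n) P) /
      D (δ ^ 2) (φ n P) (ψ n P)) ?_ ?_ ?_ ?_ ?_
  · exact memLp_sum ha.1 hb.1 ((D_aem _ ma mb).sub_const δ).aestronglyMeasurable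
      fun P => D_sub_abs _ _ hδ.le
  · exact fun i => memLp_sum (ha.2.1 i) (hb.2.1 i)
      (q_aem _ ma mb (mFa i) (mFb i)).aestronglyMeasurable fun P => q_le hd.le _ _ _ _
  · intro n
    refine (sm (hφ n) (hψ n) hδ).h1.congr (ae_eq_refl _) fun i => Eventually.of_forall fun P => ?_
    exact pd_sm (hφ n) (hψ n) hδ i P
  · refine sum_lim (fun n => ((hφ n).memLp.sub ha.1).1) (fun n => ((hψ n).memLp.sub hb.1).1)
      hφ1 hψ1 fun n => Eventually.of_forall fun P => ?_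
    have k := D_lip hd.le (φ n P) (ψ n P) (a P) (b P)
    rw [sub_sub_sub_cancel_right]
    exact k
  · intro i
    have s1 : Tendsto (fun n => eLpNorm (fun P => |pd e i (φ n) P - Fa i P| +
        |pd e i (ψ n) P - Fb i P|) 2 volume) atTop (𝓝 0) := by
      refine sum_lim (fun n => (((hφ n).memLp_pd i).sub (ha.2.1 i)).1)
        (fun n => (((hψ n).memLp_pd i).sub (hb.2.1 i)).1) (hφ2 i) (hψ2 i)
        fun n => Eventually.of_forall fun P => ?_
      rw [abs_of_nonneg (by positivity)]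
      exact le_rfl
    have q1 := quo_lim (δ ^ 2) hd (ha.2.1 i) ma mb mφ mψ hφ3 hψ3
    have q2 : Tendsto (fun n => eLpNorm (fun P =>
        (ψ n P / D (δ ^ 2) (φ n P) (ψ n P) - b P / D (δ ^ 2) (a P) (b P)) *
        Fb i P) 2 volume) atTop (𝓝 0) := by
      have h := quo_lim (δ ^ 2) hd (hb.2.1 i) mb ma mψ mφ hψ3 hφ3
      have e : ∀ s t : ℝ, D (δ ^ 2) s t = D (δ ^ 2) t s := fun s t => by
        unfold D
        rw [add_comm (s ^ 2)]
      refine h.congr fun n => ?_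
      congr 1
      funext P
      rw [e (ψ n P), e (b P)]
    have m1 : ∀ n, AEStronglyMeasurable (fun P =>
        (φ n P / D (δ ^ 2) (φ n P) (ψ n P) - a P / D (δ ^ 2) (a P) (b P)) * Fa i P) volume :=
      fun n => ((((mφ n).div (D_aem _ (mφ n) (mψ n))).sub
        (ma.div (D_aem _ ma mb))).mul (mFa i)).aestronglyMeasurable
    have m2 : ∀ n, AEStronglyMeasurable (fun P =>
        (ψ n P / D (δ ^ 2) (φ n P) (ψ n P) - b P / D (δ ^ 2) (a P) (b P)) * Fb i P) volume :=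
      fun n => ((((mψ n).div (D_aem _ (mφ n) (mψ n))).sub
        (mb.div (D_aem _ ma mb))).mul (mFb i)).aestronglyMeasurable
    have s2 : Tendsto (fun n => eLpNorm (fun P =>
        |(φ n P / D (δ ^ 2) (φ n P) (ψ n P) - a P / D (δ ^ 2) (a P) (b P)) * Fa i P| +
        |(ψ n P / D (δ ^ 2) (φ n P) (ψ n P) - b P / D (δ ^ 2) (a P) (b P)) * Fb i P|)
        2 volume) atTop (𝓝 0) := by
      refine sum_lim m1 m2 q1 q2 fun n => Eventually.of_forall fun P => ?_
      rw [abs_of_nonneg (by positivity)]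
    refine sum_lim (x := fun n P => |pd e i (φ n) P - Fa i P| + |pd e i (ψ n) P - Fb i P|)
      (y := fun n P =>
        |(φ n P / D (δ ^ 2) (φ n P) (ψ n P) - a P / D (δ ^ 2) (a P) (b P)) * Fa i P| +
        |(ψ n P / D (δ ^ 2) (φ n P) (ψ n P) - b P / D (δ ^ 2) (a P) (b P)) * Fb i P|)
      (fun n => ?_) (fun n => (m1 n).norm.add (m2 n).norm) s1 s2
      fun n => Eventually.of_forall fun P => ?_
    · exact (((hφ n).memLp_pd i).sub (ha.2.1 i)).1.norm.add
        (((hψ n).memLp_pd i).sub (hb.2.1 i)).1.norm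
    · have e0 : (φ n P * pd e i (φ n) P + ψ n P * pd e i (ψ n) P) / D (δ ^ 2) (φ n P) (ψ n P) -
          (a P * Fa i P + b P * Fb i P) / D (δ ^ 2) (a P) (b P) =
          (φ n P / D (δ ^ 2) (φ n P) (ψ n P)) * (pd e i (φ n) P - Fa i P) +
          (ψ n P / D (δ ^ 2) (φ n P) (ψ n P)) * (pd e i (ψ n) P - Fb i P) +
          ((φ n P / D (δ ^ 2) (φ n P) (ψ n P) - a P / D (δ ^ 2) (a P) (b P)) * Fa i P +
          (ψ n P / D (δ ^ 2) (φ n P) (ψ n P) - b P / D (δ ^ 2) (a P) (b P)) * Fb i P) := by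
        ring
      rw [e0]
      have k1 := quo_le hd.le (φ n P) (ψ n P)
      have k2 := quo_le' hd.le (φ n P) (ψ n P)
      have k3 := mul_le_mul_of_nonneg_right k1 (abs_nonneg (pd e i (φ n) P - Fa i P))
      have k4 := mul_le_mul_of_nonneg_right k2 (abs_nonneg (pd e i (ψ n) P - Fb i P))
      rw [← abs_mul, one_mul] at k3 k4
      refine (abs_add_le _ _).trans (add_le_add ?_ ?_)
      · refine le_trans ?_ (le_abs_self _)
        exact (abs_add_le _ _).trans (add_le_add k3 k4)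
      · refine le_trans ?_ (le_abs_self _)
        exact abs_add_le _ _

theorem md_eq (P : E) : md a b P = D 0 (a P) (b P) := by
  unfold md D
  rw [add_zero]

end stepA

end MOD_

open MOD_ in
theorem p_MOD : T_MOD := by
  intro E _ _ _ _ _ _ ι _ e G a b Fa Fb hG ha hb
  have : ProperSpace E := FiniteDimensional.proper_real E
  have ma := ha.1.1.aemeasurable
  have mb := hb.1.1.aemeasurable
  have mFa := fun i => (ha.2.1 i).1.aemeasurable
  have mFb := fun i => (hb.2.1 i).1.aemeasurable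
  have em : md a b = fun P => D 0 (a P) (b P) := by
    funext P
    exact md_eq P
  have eg : mg a b Fa Fb = fun i P => (a P * Fa i P + b P * Fb i P) / D 0 (a P) (b P) := by
    funext i P
    unfold mg
    rw [md_eq P]
  have hmd : MemLp (fun P => D 0 (a P) (b P)) 2 volume := by
    refine memLp_sum ha.1 hb.1 (D_aem _ ma mb).aestronglyMeasurable fun P => ?_
    have h := D_sub_abs (a P) (b P) (le_refl (0 : ℝ))
    rw [sub_zero, show (0 : ℝ) ^ 2 = 0 by norm_num] at h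
    exact h
  have hpos : ∀ n : ℕ, (0 : ℝ) < 1 / ((n : ℝ) + 1) := fun n => Nat.one_div_pos_of_nat
  have hlim : Tendsto (fun n : ℕ => 1 / ((n : ℝ) + 1)) atTop (𝓝 0) :=
    tendsto_one_div_add_atTop_nhds_zero_nat
  rw [em, eg]
  refine H1.lim (g := fun n P => D ((1 / ((n : ℝ) + 1)) ^ 2) (a P) (b P) - 1 / ((n : ℝ) + 1))
    (Fg := fun n i P => (a P * Fa i P + b P * Fb i P) / D ((1 / ((n : ℝ) + 1)) ^ 2) (a P) (b P))
    hmd ?_ (fun n => stepA ha hb (hpos n)) ?_ ?_
  · exact fun i => memLp_sum (ha.2.1 i) (hb.2.1 i)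
      (q_aem _ ma mb (mFa i) (mFb i)).aestronglyMeasurable fun P => q_le le_rfl _ _ _ _
  · refine dct hmd (fun n => ?_) (fun n => Eventually.of_forall fun P => ?_)
      (Eventually.of_forall fun P => ?_)
    · exact (((D_aem _ ma mb).sub_const _).sub (D_aem _ ma mb)).aestronglyMeasurable
    · have h1 := D0_le (a P) (b P) (hpos n).le
      have h2 := d_le_D (a P) (b P) (hpos n).le
      have h3 := D_nn 0 (a P) (b P)
      rw [abs_of_nonneg h3, abs_le]
      constructor <;> linarith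
    · refine squeeze_zero_norm (fun n => ?_) hlim
      have h1 := D0_le (a P) (b P) (hpos n).le
      have h2 := le_D0 (a P) (b P) (1 / ((n : ℝ) + 1))
      have h3 := hpos n
      rw [Real.norm_eq_abs, abs_le]
      constructor <;> linarith
  · intro i
    refine dct (g := fun P => 2 * (‖Fa i P‖ + ‖Fb i P‖))
      (((ha.2.1 i).norm.add (hb.2.1 i).norm).const_mul 2) (fun n => ?_)
      (fun n => Eventually.of_forall fun P => ?_) (Eventually.of_forall fun P => ?_)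
    · exact ((q_aem _ ma mb (mFa i) (mFb i)).sub
        (q_aem _ ma mb (mFa i) (mFb i))).aestronglyMeasurable
    · have h1 := q_le (sq_nonneg (1 / ((n : ℝ) + 1))) (a P) (b P) (Fa i P) (Fb i P)
      have h2 := q_le (le_refl (0 : ℝ)) (a P) (b P) (Fa i P) (Fb i P)
      refine (abs_sub _ _).trans ?_
      refine le_trans ?_ (le_abs_self _)
      rw [Real.norm_eq_abs, Real.norm_eq_abs]
      linarith
    · by_cases h0 : D 0 (a P) (b P) = 0
      · have h1 := D_sq (le_refl (0 : ℝ)) (a P) (b P)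
        rw [h0] at h1
        have h2 : a P = 0 := by nlinarith [sq_nonneg (a P), sq_nonneg (b P)]
        have h3 : b P = 0 := by nlinarith [sq_nonneg (a P), sq_nonneg (b P)]
        simp [h2, h3]
      · have h1 : Tendsto (fun n : ℕ => D ((1 / ((n : ℝ) + 1)) ^ 2) (a P) (b P)) atTop
            (𝓝 (D 0 (a P) (b P))) := by
          have h2 := (hlim.pow 2).const_add (a P ^ 2 + b P ^ 2)
          have h3 := (Real.continuous_sqrt.tendsto _).comp h2
          rw [show (0 : ℝ) ^ 2 = 0 by norm_num] at h3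
          exact h3
        have h2 := ((tendsto_const_nhds (x := a P * Fa i P + b P * Fb i P)).div h1 h0).sub_const
          ((a P * Fa i P + b P * Fb i P) / D 0 (a P) (b P))
        simpa using h2

end MGS
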