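import Pool.Agent.MGS.TD

/-!
# MGS, target NEX: the rearrangement is a contraction in the mean square norm
-/

set_option autoImplicit false

open MeasureTheory Filter Topology Metric Set
open scoped ENNReal NNReal ContDiff

noncomputable section

namespace MGS

/-- layer cake formula for a product -/
theorem NEX_layer (f₁ f₂ : ℂ → ℝ) (h1 : Measurable f₁) (h2 : Measurable f₂)
    (n1 : ∀ x, 0 ≤ f₁ x) (n2 : ∀ x, 0 ≤ f₂ x) :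
    ∫⁻ x, ENNReal.ofReal (f₂ x) * ENNReal.ofReal (f₁ x) =
      ∫⁻ s in Ioi (0 : ℝ), ∫⁻ t in Ioi (0 : ℝ), volume ({x | t < f₂ x} ∩ {x | s < f₁ x}) := by
  have e1 : ∫⁻ x, ENNReal.ofReal (f₂ x) * ENNReal.ofReal (f₁ x) =
      ∫⁻ x, ENNReal.ofReal (f₁ x) ∂(volume.withDensity fun x => ENNReal.ofReal (f₂ x)) := by
    rw [lintegral_withDensity_eq_lintegral_mul _ h2.ennreal_ofReal h1.ennreal_ofReal]
    rfl
  rw [e1, lintegral_eq_lintegral_meas_lt _ (Eventually.of_forall n1) h1.aemeasurable]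
  refine lintegral_congr fun s => ?_
  have hm : MeasurableSet {x | s < f₁ x} := measurableSet_lt measurable_const h1
  rw [withDensity_apply _ hm,
    lintegral_eq_lintegral_meas_lt _ (Eventually.of_forall n2) h2.aemeasurable]
  refine lintegral_congr fun t => ?_
  rw [Measure.restrict_apply (measurableSet_lt measurable_const h2)]

theorem NEX_meas (h_RR1 : T_RR1) (R : ℝ) (g₁ g₂ : ℂ → ℝ) (h1 : Nc R g₁) (h2 : Nc R g₂)
    (s t : ℝ) (hs : 0 ≤ s) (ht : 0 ≤ t) :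
    volume ({x | t < g₂ x} ∩ {x | s < g₁ x}) ≤
      volume ({x : ℂ | t < rr g₂ ‖x‖} ∩ {x : ℂ | s < rr g₁ ‖x‖}) := by
  obtain ⟨a1, -, -, v1, -⟩ := h_RR1 R g₁ h1
  obtain ⟨a2, -, -, v2, -⟩ := h_RR1 R g₂ h2
  have hz : volume ({0} : Set ℂ) = 0 := measure_singleton 0
  rcases le_total (ar g₁ s) (ar g₂ t) with h | h
  · calc volume ({x | t < g₂ x} ∩ {x | s < g₁ x}) ≤ volume {x | s < g₁ x} :=
          measure_mono Set.inter_subset_right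
      _ = volume {x : ℂ | s < rr g₁ ‖x‖} := (v1 s hs).symm
      _ = volume ({x : ℂ | s < rr g₁ ‖x‖} \ {0}) := (measure_sdiff_null hz).symm
      _ ≤ _ := by
        refine measure_mono ?_
        rintro x ⟨hx, hx0⟩
        have hx0' : 0 < ‖x‖ := norm_pos_iff.2 hx0
        refine ⟨?_, hx⟩
        exact (a2 t ‖x‖ ht hx0').2 (((a1 s ‖x‖ hs hx0').1 hx).trans_le h)
  · calc volume ({x | t < g₂ x} ∩ {x | s < g₁ x}) ≤ volume {x | t < g₂ x} :=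
          measure_mono Set.inter_subset_left
      _ = volume {x : ℂ | t < rr g₂ ‖x‖} := (v2 t ht).symm
      _ = volume ({x : ℂ | t < rr g₂ ‖x‖} \ {0}) := (measure_sdiff_null hz).symm
      _ ≤ _ := by
        refine measure_mono ?_
        rintro x ⟨hx, hx0⟩
        have hx0' : 0 < ‖x‖ := norm_pos_iff.2 hx0
        refine ⟨hx, ?_⟩
        exact (a1 s ‖x‖ hs hx0').2 (((a2 t ‖x‖ ht hx0').1 hx).trans_le h)

theorem NEX_expand (f₁ f₂ : ℂ → ℝ) (h1 : Measurable f₁) (h2 : Measurable f₂)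
    (n1 : ∀ x, 0 ≤ f₁ x) (n2 : ∀ x, 0 ≤ f₂ x) :
    (∫⁻ x, ENNReal.ofReal ((f₁ x - f₂ x) ^ 2)) +
      2 * (∫⁻ x, ENNReal.ofReal (f₂ x) * ENNReal.ofReal (f₁ x)) =
      (∫⁻ x, ENNReal.ofReal (f₁ x ^ 2)) + ∫⁻ x, ENNReal.ofReal (f₂ x ^ 2) := by
  have m1 : Measurable fun x => ENNReal.ofReal (f₁ x ^ 2) := (h1.pow_const 2).ennreal_ofReal
  have m2 : Measurable fun x => ENNReal.ofReal ((f₁ x - f₂ x) ^ 2) :=
    ((h1.sub h2).pow_const 2).ennreal_ofReal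
  have m3 : Measurable fun x => ENNReal.ofReal (f₂ x) * ENNReal.ofReal (f₁ x) :=
    h2.ennreal_ofReal.mul h1.ennreal_ofReal
  rw [← lintegral_const_mul 2 m3, ← lintegral_add_left m2, ← lintegral_add_left m1]
  refine lintegral_congr fun x => ?_
  have e2 : (2 : ℝ≥0∞) = ENNReal.ofReal 2 := by simp
  rw [e2, ← ENNReal.ofReal_mul (n2 x), ← ENNReal.ofReal_mul (by norm_num),
    ← ENNReal.ofReal_add (sq_nonneg _)
      (mul_nonneg (by norm_num) (mul_nonneg (n2 x) (n1 x))),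
    ← ENNReal.ofReal_add (sq_nonneg _) (sq_nonneg _)]
  congr 1
  ring

theorem NEX_fin (g : ℂ → ℝ) (h : MemLp g 2 volume) :
    ∫⁻ x, ENNReal.ofReal (g x ^ 2) < ⊤ := h.integrable_sq.lintegral_lt_top

theorem p_NEX (h_RR1 : T_RR1) (h_EQM : T_EQM) : T_NEX := by
  intro R g₁ g₂ h1 h2 l1 l2
  obtain ⟨-, -, n1, -, r1⟩ := h_RR1 R g₁ h1
  obtain ⟨-, -, n2, -, r2⟩ := h_RR1 R g₂ h2
  have hΞ : Measurable fun s : ℝ => ENNReal.ofReal (s ^ 2) :=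
    (measurable_id.pow_const 2).ennreal_ofReal
  have q1 : ∫⁻ x : ℂ, ENNReal.ofReal (rr g₁ ‖x‖ ^ 2) = ∫⁻ x, ENNReal.ofReal (g₁ x ^ 2) :=
    (h_EQM R g₁ h1).1 (fun s => ENNReal.ofReal (s ^ 2)) hΞ (by simp)
  have q2 : ∫⁻ x : ℂ, ENNReal.ofReal (rr g₂ ‖x‖ ^ 2) = ∫⁻ x, ENNReal.ofReal (g₂ x ^ 2) :=
    (h_EQM R g₂ h2).1 (fun s => ENNReal.ofReal (s ^ 2)) hΞ (by simp)
  have E1 := NEX_expand (fun x => rr g₁ ‖x‖) (fun x => rr g₂ ‖x‖) r1.m r2.m r1.nn r2.nn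
  have E2 := NEX_expand g₁ g₂ h1.m h2.m h1.nn h2.nn
  have HL : ∫⁻ x, ENNReal.ofReal (g₂ x) * ENNReal.ofReal (g₁ x) ≤
      ∫⁻ x : ℂ, ENNReal.ofReal (rr g₂ ‖x‖) * ENNReal.ofReal (rr g₁ ‖x‖) := by
    rw [NEX_layer g₁ g₂ h1.m h2.m h1.nn h2.nn,
      NEX_layer (fun x => rr g₁ ‖x‖) (fun x => rr g₂ ‖x‖) r1.m r2.m r1.nn r2.nn]
    refine setLIntegral_mono' measurableSet_Ioi fun s hs => ?_
    refine setLIntegral_mono' measurableSet_Ioi fun t ht => ?_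
    exact NEX_meas h_RR1 R g₁ g₂ h1 h2 s t (mem_Ioi.1 hs).le (mem_Ioi.1 ht).le
  have hfin : (∫⁻ x, ENNReal.ofReal (g₁ x ^ 2)) + (∫⁻ x, ENNReal.ofReal (g₂ x ^ 2)) ≠ ⊤ :=
    ENNReal.add_ne_top.2 ⟨(NEX_fin g₁ l1).ne, (NEX_fin g₂ l2).ne⟩
  have E1' : (∫⁻ x : ℂ, ENNReal.ofReal ((rr g₁ ‖x‖ - rr g₂ ‖x‖) ^ 2)) +
      2 * (∫⁻ x : ℂ, ENNReal.ofReal (rr g₂ ‖x‖) * ENNReal.ofReal (rr g₁ ‖x‖)) =
      (∫⁻ x, ENNReal.ofReal (g₁ x ^ 2)) + ∫⁻ x, ENNReal.ofReal (g₂ x ^ 2) := by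
    rw [← q1, ← q2]
    exact E1
  have hB : 2 * (∫⁻ x : ℂ, ENNReal.ofReal (rr g₂ ‖x‖) * ENNReal.ofReal (rr g₁ ‖x‖)) ≠ ⊤ := by
    refine ne_top_of_le_ne_top hfin ?_
    rw [← E1']
    exact le_add_self
  rw [← ENNReal.add_le_add_iff_right hB, E1', ← E2]
  gcongr

end MGS
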