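import Pool.Agent.MGS.TB
import Pool.Agent.MGS.P_BCC
import Pool.Agent.MGS.P_BOX

/-!
# MGS: proof of T_NPO (lower bound for the slices of the ground state) (helper89)

If the slices of the ground state `v` were arbitrarily small near the height `z₀`, there would be a
height `z₁` such that the square integrals of the slices are `o(|z - z₁|)`.  Then `v` can be cut
there: `1_{z > z₁} v ∈ H¹₀(G)`, and both parts are minimizers; this contradicts the strict
positivity of minimizers.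
-/

set_option autoImplicit false

open MeasureTheory Filter Topology Metric Set
open scoped ENNReal NNReal ContDiff

noncomputable section

namespace MGS

namespace NPO_

/-- the square integral of the slice at height `z` -/
def sq (w : X → ℝ) (z : ℝ) : ℝ≥0∞ := ∫⁻ x : ℂ, ‖w (x, z)‖ₑ ^ 2

lemma sq_meas {w : X → ℝ} (hw : Measurable w) : Measurable (sq w) := by
  have h : Measurable fun P : X => ‖w P‖ₑ ^ 2 := hw.enorm.pow_const 2
  exact h.lintegral_prod_left'

lemma sq_int {w : X → ℝ} (hw : Measurable w) (S : Set ℝ) :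
    ∫⁻ P in (univ : Set ℂ) ×ˢ S, ‖w P‖ₑ ^ 2 = ∫⁻ t in S, sq w t := by
  have h : Measurable fun P : X => ‖w P‖ₑ ^ 2 := hw.enorm.pow_const 2
  rw [Measure.volume_eq_prod ℂ ℝ, ← Measure.prod_restrict, Measure.restrict_univ,
    lintegral_prod_symm' _ h]
  rfl

/-- Cauchy-Schwarz on a vertical segment -/
lemma seg {φ : X → ℝ} {G : Set X} (h : Test G φ) (x : ℂ) (z z' : ℝ) :
    ‖φ (x, z) - φ (x, z')‖ₑ ^ 2 ≤
      ENNReal.ofReal |z - z'| * ∫⁻ t in uIoc z' z, ‖pd e3 2 φ (x, t)‖ₑ ^ 2 := by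
  have hd : ∀ t : ℝ, HasDerivAt (fun t => φ (x, t)) (pd e3 2 φ (x, t)) t := by
    intro t
    have h1 : HasDerivAt (fun t : ℝ => ((x, t) : X)) (0, 1) t :=
      (hasDerivAt_const t x).prodMk (hasDerivAt_id t)
    exact (h.diff (x, t)).hasFDerivAt.comp_hasDerivAt t h1
  have hc : Continuous fun t : ℝ => pd e3 2 φ (x, t) :=
    (h.pd_cont 2).comp (continuous_const.prodMk continuous_id)
  have h1 : φ (x, z) - φ (x, z') = ∫ t in z'..z, pd e3 2 φ (x, t) :=
    (intervalIntegral.integral_eq_sub_of_hasDerivAt (fun t _ => hd t)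
      (hc.intervalIntegrable _ _)).symm
  have h2 : ‖φ (x, z) - φ (x, z')‖ₑ ≤ ∫⁻ t in uIoc z' z, ‖pd e3 2 φ (x, t)‖ₑ := by
    rw [h1]
    have h3 : ‖∫ t in z'..z, pd e3 2 φ (x, t)‖ₑ = ‖∫ t in uIoc z' z, pd e3 2 φ (x, t)‖ₑ := by
      rw [← ofReal_norm, ← ofReal_norm, intervalIntegral.norm_integral_eq_norm_integral_uIoc]
    rw [h3]
    exact enorm_integral_le_lintegral_enorm _
  calc _ ≤ (∫⁻ t in uIoc z' z, ‖pd e3 2 φ (x, t)‖ₑ) ^ 2 := pow_le_pow_left' h2 2
    _ ≤ (volume.restrict (uIoc z' z)) univ * ∫⁻ t in uIoc z' z, ‖pd e3 2 φ (x, t)‖ₑ ^ 2 :=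
        BOX_.cs _ _ hc.enorm.measurable.aemeasurable
    _ = _ := by rw [Measure.restrict_apply_univ, Real.volume_uIoc]

lemma slice {G : Set X} {v w : X → ℝ} (hw : MemLp w 2 volume) (hwm : Measurable w)
    {φ : ℕ → X → ℝ} (hφ : ∀ n, Test G (φ n))
    (h2 : Tendsto (fun n => eLpNorm (fun P => pd e3 2 (φ n) P - w P) 2 volume) atTop (𝓝 0))
    (z z' : ℝ) (hz : ∀ᵐ x : ℂ, Tendsto (fun n => φ n (x, z)) atTop (𝓝 (v (x, z))))
    (hz' : ∀ᵐ x : ℂ, Tendsto (fun n => φ n (x, z')) atTop (𝓝 (v (x, z')))) :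
    ∫⁻ x : ℂ, ‖v (x, z) - v (x, z')‖ₑ ^ 2 ≤
      ENNReal.ofReal |z - z'| * ∫⁻ t in uIoc z' z, sq w t := by
  have m : ∀ n, Measurable fun x : ℂ => ‖φ n (x, z) - φ n (x, z')‖ₑ ^ 2 := fun n => by
    have c : Continuous (φ n) := (hφ n).smooth.continuous
    have c1 : Continuous fun x : ℂ => φ n (x, z) - φ n (x, z') :=
      (c.comp (continuous_id.prodMk continuous_const)).sub
        (c.comp (continuous_id.prodMk continuous_const))
    exact c1.measurable.enorm.pow_const 2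
  have f1 : ∫⁻ x : ℂ, ‖v (x, z) - v (x, z')‖ₑ ^ 2 ≤
      liminf (fun n => ∫⁻ x : ℂ, ‖φ n (x, z) - φ n (x, z')‖ₑ ^ 2) atTop := by
    refine le_trans (le_of_eq ?_) (lintegral_liminf_le m)
    refine lintegral_congr_ae ?_
    filter_upwards [hz, hz'] with x hx hx'
    have h3 : Tendsto (fun n => ‖φ n (x, z) - φ n (x, z')‖ₑ ^ 2) atTop
        (𝓝 (‖v (x, z) - v (x, z')‖ₑ ^ 2)) :=
      ((ENNReal.continuous_pow 2).tendsto _).comp ((hx.sub hx').enorm)
    exact h3.liminf_eq.symm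
  set S : Set X := (univ : Set ℂ) ×ˢ uIoc z' z with hS
  have f2 : ∀ n, ∫⁻ x : ℂ, ‖φ n (x, z) - φ n (x, z')‖ₑ ^ 2 ≤
      ENNReal.ofReal |z - z'| * (eLpNorm (pd e3 2 (φ n)) 2 (volume.restrict S)) ^ 2 := by
    intro n
    have hm : Measurable fun P : X => ‖pd e3 2 (φ n) P‖ₑ ^ 2 :=
      ((hφ n).pd_cont 2).enorm.measurable.pow_const 2
    calc ∫⁻ x : ℂ, ‖φ n (x, z) - φ n (x, z')‖ₑ ^ 2
        ≤ ∫⁻ x : ℂ, ENNReal.ofReal |z - z'| *
          ∫⁻ t in uIoc z' z, ‖pd e3 2 (φ n) (x, t)‖ₑ ^ 2 :=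
        lintegral_mono fun x => seg (hφ n) x z z'
      _ = ENNReal.ofReal |z - z'| *
          ∫⁻ x : ℂ, ∫⁻ t in uIoc z' z, ‖pd e3 2 (φ n) (x, t)‖ₑ ^ 2 :=
        lintegral_const_mul _ hm.lintegral_prod_right'
      _ = _ := by
        rw [← BOX_.sq_norm, hS, Measure.volume_eq_prod ℂ ℝ, ← Measure.prod_restrict,
          Measure.restrict_univ, lintegral_prod _ hm.aemeasurable]
  have f3 : ∀ n, eLpNorm (pd e3 2 (φ n)) 2 (volume.restrict S) ≤
      eLpNorm (fun P => pd e3 2 (φ n) P - w P) 2 volume + eLpNorm w 2 (volume.restrict S) := by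
    intro n
    have e1 : pd e3 2 (φ n) = fun P => (pd e3 2 (φ n) P - w P) + w P := by
      funext P
      ring
    have a1 : AEStronglyMeasurable (fun P => pd e3 2 (φ n) P - w P) (volume.restrict S) :=
      (((hφ n).memLp_pd 2).sub hw).1.restrict
    calc eLpNorm (pd e3 2 (φ n)) 2 (volume.restrict S)
        = eLpNorm (fun P => (pd e3 2 (φ n) P - w P) + w P) 2 (volume.restrict S) := by rw [← e1]
      _ ≤ eLpNorm (fun P => pd e3 2 (φ n) P - w P) 2 (volume.restrict S) +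
          eLpNorm w 2 (volume.restrict S) := eLpNorm_add_le a1 hw.1.restrict (by norm_num)
      _ ≤ _ := add_le_add (eLpNorm_mono_measure _ Measure.restrict_le_self) le_rfl
  have f4 := ENNReal.Tendsto.const_mul (a := ENNReal.ofReal |z - z'|)
    (((ENNReal.continuous_pow 2).tendsto _).comp
      (h2.add (tendsto_const_nhds (x := eLpNorm w 2 (volume.restrict S)))))
    (Or.inr ENNReal.ofReal_ne_top)
  calc ∫⁻ x : ℂ, ‖v (x, z) - v (x, z')‖ₑ ^ 2
      ≤ liminf (fun n => ∫⁻ x : ℂ, ‖φ n (x, z) - φ n (x, z')‖ₑ ^ 2) atTop := f1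
    _ ≤ liminf (fun n => ENNReal.ofReal |z - z'| *
          (eLpNorm (fun P => pd e3 2 (φ n) P - w P) 2 volume +
            eLpNorm w 2 (volume.restrict S)) ^ 2) atTop := by
        refine liminf_le_liminf (Eventually.of_forall fun n => (f2 n).trans ?_)
        gcongr
        exact f3 n
    _ = ENNReal.ofReal |z - z'| * (0 + eLpNorm w 2 (volume.restrict S)) ^ 2 := f4.liminf_eq
    _ = _ := by rw [zero_add, ← BOX_.sq_norm, hS, sq_int hwm]

/-- the slices are small near a height where they tend to zero -/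
lemma near {v : X → ℝ} (hv : Measurable v) {b : ℝ → ℝ≥0∞} {A : Set ℝ}
    (hS : ∀ z ∈ A, ∀ z' ∈ A, ∫⁻ x : ℂ, ‖v (x, z) - v (x, z')‖ₑ ^ 2 ≤
      ENNReal.ofReal |z - z'| * ∫⁻ t in uIoc z' z, b t)
    {zs : ℕ → ℝ} (hzs : ∀ n, zs n ∈ A) {z₁ : ℝ} (h0 : Tendsto (fun n => sq v (zs n)) atTop (𝓝 0))
    (h1 : Tendsto zs atTop (𝓝 z₁)) {δ : ℝ} (hδ : 0 < δ) {z : ℝ} (hz : z ∈ A)
    (hzδ : |z - z₁| ≤ δ) :
    sq v z ≤ ENNReal.ofReal (4 * δ) * ∫⁻ t in Icc (z₁ - δ) (z₁ + δ), b t := by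
  have h2 : ∀ᶠ n in atTop, |zs n - z₁| < δ := by
    have := h1.eventually (Metric.ball_mem_nhds z₁ hδ)
    filter_upwards [this] with n hn
    have hn' : dist (zs n) z₁ < δ := hn
    rwa [Real.dist_eq] at hn'
  have h3 : Tendsto (fun n => 2 * sq v (zs n) +
      ENNReal.ofReal (4 * δ) * ∫⁻ t in Icc (z₁ - δ) (z₁ + δ), b t) atTop
      (𝓝 (2 * 0 + ENNReal.ofReal (4 * δ) * ∫⁻ t in Icc (z₁ - δ) (z₁ + δ), b t)) :=
    (ENNReal.Tendsto.const_mul h0 (Or.inr (by norm_num))).add tendsto_const_nhds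
  rw [mul_zero, zero_add] at h3
  refine ge_of_tendsto h3 ?_
  filter_upwards [h2] with n hn
  have m1 : Measurable fun x : ℂ => ‖v (x, z) - v (x, zs n)‖ₑ ^ 2 := by
    have a1 : Measurable fun x : ℂ => v (x, z) := hv.comp (measurable_id.prodMk measurable_const)
    have a2 : Measurable fun x : ℂ => v (x, zs n) :=
      hv.comp (measurable_id.prodMk measurable_const)
    exact (a1.sub a2).enorm.pow_const 2
  have m2 : Measurable fun x : ℂ => ‖v (x, zs n)‖ₑ ^ 2 := by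
    have a2 : Measurable fun x : ℂ => v (x, zs n) :=
      hv.comp (measurable_id.prodMk measurable_const)
    exact a2.enorm.pow_const 2
  have c1 : sq v z ≤ 2 * (∫⁻ x : ℂ, ‖v (x, z) - v (x, zs n)‖ₑ ^ 2) + 2 * sq v (zs n) := by
    unfold sq
    rw [← lintegral_const_mul _ m1, ← lintegral_const_mul _ m2,
      ← lintegral_add_left (m1.const_mul 2)]
    refine lintegral_mono fun x => ?_
    have := BOX_.sq_two (v (x, z) - v (x, zs n)) (v (x, zs n))
    rwa [sub_add_cancel] at this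
  have c2 : ENNReal.ofReal |z - zs n| ≤ ENNReal.ofReal (2 * δ) := by
    refine ENNReal.ofReal_le_ofReal ?_
    have := abs_sub_le z z₁ (zs n)
    rw [abs_sub_comm z₁] at this
    linarith
  have c3 : ∫⁻ t in uIoc (zs n) z, b t ≤ ∫⁻ t in Icc (z₁ - δ) (z₁ + δ), b t := by
    refine lintegral_mono' (Measure.restrict_mono ?_ le_rfl) le_rfl
    intro t ht
    rw [Set.mem_uIoc] at ht
    rw [abs_le] at hzδ
    rw [abs_lt] at hn
    constructor
    · rcases ht with ht | ht <;> linarith [ht.1]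
    · rcases ht with ht | ht <;> linarith [ht.2]
  calc sq v z ≤ 2 * (∫⁻ x : ℂ, ‖v (x, z) - v (x, zs n)‖ₑ ^ 2) + 2 * sq v (zs n) := c1
    _ ≤ 2 * (ENNReal.ofReal (2 * δ) * ∫⁻ t in Icc (z₁ - δ) (z₁ + δ), b t) +
        2 * sq v (zs n) := by
        gcongr
        exact (hS z hz _ (hzs n)).trans (mul_le_mul' c2 c3)
    _ = _ := by
        rw [← mul_assoc, add_comm]
        congr 2
        rw [show (4 : ℝ) * δ = 2 * (2 * δ) by ring, ENNReal.ofReal_mul (by norm_num)]
        norm_num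

/-- the cutoff function -/
def th (z₁ : ℝ) (n : ℕ) (P : X) : ℝ := max 0 (min 1 (((n : ℝ) + 1) * (P.2 - z₁)))

lemma th_nonneg (z₁ : ℝ) (n : ℕ) (P : X) : 0 ≤ th z₁ n P := le_max_left _ _

lemma th_le (z₁ : ℝ) (n : ℕ) (P : X) : th z₁ n P ≤ 1 := max_le (by norm_num) (min_le_left _ _)

lemma th_lip (z₁ : ℝ) (n : ℕ) : LipschitzWith ((n : ℝ≥0) + 1) (th z₁ n) := by
  have h : LipschitzWith ((n : ℝ≥0) + 1) fun P : X => ((n : ℝ) + 1) * (P.2 - z₁) := by
    refine LipschitzWith.of_dist_le_mul fun P P' => ?_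
    rw [Real.dist_eq, ← mul_sub, abs_mul, abs_of_nonneg (by positivity : (0 : ℝ) ≤ (n : ℝ) + 1)]
    have h1 : |P.2 - z₁ - (P'.2 - z₁)| ≤ dist P P' := by
      rw [sub_sub_sub_cancel_right, ← Real.dist_eq]
      exact le_max_right _ _
    have h2 : ((((n : ℝ≥0) + 1 : ℝ≥0)) : ℝ) = (n : ℝ) + 1 := by push_cast; rfl
    rw [h2]
    gcongr
  exact (h.const_min 1).const_max 0

lemma th_zero {z₁ : ℝ} {P : X} (h : P.2 ≤ z₁) (n : ℕ) : th z₁ n P = 0 := by
  unfold th
  have h1 : ((n : ℝ) + 1) * (P.2 - z₁) ≤ 0 :=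
    mul_nonpos_of_nonneg_of_nonpos (by positivity) (by linarith)
  exact max_eq_left ((min_le_right _ _).trans h1)

lemma th_one {z₁ : ℝ} {P : X} {n : ℕ} (h : 1 ≤ ((n : ℝ) + 1) * (P.2 - z₁)) :
    th z₁ n P = 1 := by
  unfold th
  rw [min_eq_left h]
  exact max_eq_right (by norm_num)

lemma e3_norm (i : Fin 3) : ‖e3 i‖ ≤ 1 := by
  fin_cases i <;> simp [e3, Prod.norm_def]

lemma pd_le (z₁ : ℝ) (n : ℕ) (i : Fin 3) (P : X) : ‖pd e3 i (th z₁ n) P‖ ≤ (n : ℝ) + 1 := by
  refine (ContinuousLinearMap.le_opNorm _ _).trans ?_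
  have h1 := norm_fderiv_le_of_lipschitz ℝ (th_lip z₁ n) (x₀ := P)
  have h2 : ((((n : ℝ≥0) + 1 : ℝ≥0)) : ℝ) = (n : ℝ) + 1 := by push_cast; rfl
  rw [h2] at h1
  calc ‖fderiv ℝ (th z₁ n) P‖ * ‖e3 i‖ ≤ ((n : ℝ) + 1) * 1 := by
        gcongr
        exact e3_norm i
    _ = _ := mul_one _

lemma pd_zero (z₁ : ℝ) (n : ℕ) (i : Fin 3) (P : X)
    (h : P.2 ∉ Icc z₁ (z₁ + 1 / ((n : ℝ) + 1))) : pd e3 i (th z₁ n) P = 0 := by
  have hn : (0 : ℝ) < (n : ℝ) + 1 := by positivity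
  have key : ∃ c : ℝ, th z₁ n =ᶠ[𝓝 P] fun _ => c := by
    rcases lt_or_ge P.2 z₁ with h1 | h1
    · refine ⟨0, ?_⟩
      have : {Q : X | Q.2 < z₁} ∈ 𝓝 P := (isOpen_lt continuous_snd continuous_const).mem_nhds h1
      filter_upwards [this] with Q hQ
      exact th_zero (le_of_lt hQ) n
    · refine ⟨1, ?_⟩
      have h2 : z₁ + 1 / ((n : ℝ) + 1) < P.2 := by
        by_contra h3
        exact h ⟨h1, not_lt.1 h3⟩
      have : {Q : X | z₁ + 1 / ((n : ℝ) + 1) < Q.2} ∈ 𝓝 P :=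
        (isOpen_lt continuous_const continuous_snd).mem_nhds h2
      filter_upwards [this] with Q hQ
      refine th_one ?_
      have h4 : 1 / ((n : ℝ) + 1) < Q.2 - z₁ := by
        have : z₁ + 1 / ((n : ℝ) + 1) < Q.2 := hQ
        linarith
      rw [div_lt_iff₀ hn] at h4
      linarith
  obtain ⟨c, hc⟩ := key
  unfold pd
  rw [hc.fderiv_eq]
  simp

lemma th_lim (z₁ : ℝ) (P : X) : ∀ᶠ n : ℕ in atTop,
    th z₁ n P = Set.indicator {P : X | z₁ < P.2} (fun _ => (1 : ℝ)) P := by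
  by_cases h : z₁ < P.2
  · rw [Set.indicator_of_mem (by exact h)]
    have h1 : 0 < P.2 - z₁ := by linarith
    obtain ⟨N, hN⟩ := exists_nat_gt (1 / (P.2 - z₁))
    filter_upwards [eventually_ge_atTop N] with n hn
    refine th_one ?_
    have h2 : (N : ℝ) ≤ n := by exact_mod_cast hn
    rw [div_lt_iff₀ h1] at hN
    nlinarith
  · rw [Set.indicator_of_notMem (by exact h)]
    exact Eventually.of_forall fun n => th_zero (not_lt.1 h) n

/-- the upper half space -/
def up (z₁ : ℝ) : Set X := {P : X | z₁ < P.2}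

lemma up_meas (z₁ : ℝ) : MeasurableSet (up z₁) := measurableSet_lt measurable_const measurable_snd

/-- cutting at a height where the slices are small -/
lemma cut {G : Set X} (hG : IsOpen G) (h_PRL : T_PRL) {v : X → ℝ} {F : Fin 3 → X → ℝ}
    (hv : Measurable v) (h : H1 e3 G v F) {b : ℝ → ℝ≥0∞} (hb : ∫⁻ t, b t ≠ ⊤) {z₁ : ℝ}
    (hs : ∀ δ : ℝ, 0 < δ → ∀ᵐ z : ℝ, |z - z₁| ≤ δ → sq v z ≤
      ENNReal.ofReal (4 * δ) * ∫⁻ t in Icc (z₁ - δ) (z₁ + δ), b t) :
    H1 e3 G (Set.indicator (up z₁) v) (fun i => Set.indicator (up z₁) (F i)) := by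
  have hm : MemLp (Set.indicator (up z₁) v) 2 volume := h.1.indicator (up_meas z₁)
  have hmi : ∀ i, MemLp (Set.indicator (up z₁) (F i)) 2 volume := fun i =>
    (h.2.1 i).indicator (up_meas z₁)
  have ht : ∀ n, Measurable (th z₁ n) := fun n => (th_lip z₁ n).continuous.measurable
  have hg : ∀ n, H1 e3 G (fun P => th z₁ n P * v P)
      (fun i P => th z₁ n P * F i P + v P * pd e3 i (th z₁ n) P) := by
    intro n
    refine h_PRL X (Fin 3) e3 G G v F (th z₁ n) 1 hG h ⟨_, th_lip z₁ n⟩ (fun P => ?_)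
      (Or.inl Subset.rfl)
    rw [abs_of_nonneg (th_nonneg z₁ n P)]
    exact th_le z₁ n P
  -- multiplication with the cutoff functions
  have dom : ∀ g : X → ℝ, MemLp g 2 volume → Tendsto (fun n => eLpNorm
      (fun P => th z₁ n P * g P - Set.indicator (up z₁) g P) 2 volume) atTop (𝓝 0) := by
    intro g hg2
    refine BCC_dom (fun n P => th z₁ n P * g P - Set.indicator (up z₁) g P) g (fun n => ?_) hg2
      (fun n P => ?_) (Eventually.of_forall fun P => ?_)
    · exact ((ht n).aestronglyMeasurable.mul hg2.1).sub (hg2.1.indicator (up_meas z₁))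
    · by_cases hP : P ∈ up z₁
      · rw [Set.indicator_of_mem hP]
        have h1 := th_nonneg z₁ n P
        have h2 := th_le z₁ n P
        have h3 : th z₁ n P * g P - g P = -((1 - th z₁ n P) * g P) := by ring
        rw [h3, abs_neg, abs_mul, abs_of_nonneg (by linarith : 0 ≤ 1 - th z₁ n P)]
        exact mul_le_of_le_one_left (abs_nonneg _) (by linarith)
      · rw [Set.indicator_of_notMem hP, th_zero (not_lt.1 hP) n]
        simp
    · refine tendsto_const_nhds.congr' ?_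
      filter_upwards [th_lim z₁ P] with n hn
      rw [hn]
      by_cases hP : P ∈ up z₁
      · rw [Set.indicator_of_mem hP, Set.indicator_of_mem (by exact hP)]
        ring
      · rw [Set.indicator_of_notMem hP, Set.indicator_of_notMem (by exact hP)]
        ring
  have small : ∀ (n : ℕ) (i : Fin 3), eLpNorm (fun P => v P * pd e3 i (th z₁ n) P) 2 volume ^ 2 ≤
      ENNReal.ofReal 4 *
        ∫⁻ t in Icc (z₁ - 1 / ((n : ℝ) + 1)) (z₁ + 1 / ((n : ℝ) + 1)), b t := by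
    intro n i
    have hn : (0 : ℝ) < (n : ℝ) + 1 := by positivity
    set δ : ℝ := 1 / ((n : ℝ) + 1) with hδ
    have hδ0 : 0 < δ := by positivity
    set M := ∫⁻ t in Icc (z₁ - δ) (z₁ + δ), b t with hM
    rw [← BOX_.sq_norm]
    have p1 : ∀ P : X, ‖v P * pd e3 i (th z₁ n) P‖ₑ ^ 2 ≤
        ENNReal.ofReal (((n : ℝ) + 1) ^ 2) *
          Set.indicator ((univ : Set ℂ) ×ˢ Icc z₁ (z₁ + δ)) (fun P => ‖v P‖ₑ ^ 2) P := by
      intro P
      by_cases hP : P.2 ∈ Icc z₁ (z₁ + δ)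
      · rw [Set.indicator_of_mem (by exact ⟨mem_univ _, hP⟩), enorm_mul, mul_pow, mul_comm]
        gcongr
        have h1 := pd_le z₁ n i P
        have h2 : ‖pd e3 i (th z₁ n) P‖ₑ ≤ ENNReal.ofReal ((n : ℝ) + 1) := by
          rw [← ofReal_norm]
          exact ENNReal.ofReal_le_ofReal h1
        rw [ENNReal.ofReal_pow hn.le]
        exact pow_le_pow_left' h2 2
      · rw [pd_zero z₁ n i P hP, mul_zero]
        simp
    have hms : MeasurableSet ((univ : Set ℂ) ×ˢ Icc z₁ (z₁ + δ)) :=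
      MeasurableSet.univ.prod measurableSet_Icc
    calc ∫⁻ P, ‖v P * pd e3 i (th z₁ n) P‖ₑ ^ 2
        ≤ ∫⁻ P, ENNReal.ofReal (((n : ℝ) + 1) ^ 2) *
          Set.indicator ((univ : Set ℂ) ×ˢ Icc z₁ (z₁ + δ)) (fun P => ‖v P‖ₑ ^ 2) P :=
        lintegral_mono p1
      _ = ENNReal.ofReal (((n : ℝ) + 1) ^ 2) * ∫⁻ z in Icc z₁ (z₁ + δ), sq v z := by
        rw [lintegral_const_mul _ ((hv.enorm.pow_const 2).indicator hms),
          lintegral_indicator hms, sq_int hv]
      _ ≤ ENNReal.ofReal (((n : ℝ) + 1) ^ 2) *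
          ∫⁻ z in Icc z₁ (z₁ + δ), ENNReal.ofReal (4 * δ) * M := by
        gcongr ENNReal.ofReal (((n : ℝ) + 1) ^ 2) * ?_
        refine lintegral_mono_ae ?_
        filter_upwards [ae_restrict_mem measurableSet_Icc, ae_restrict_of_ae (hs δ hδ0)]
          with z hz1 hz2
        refine hz2 ?_
        rw [abs_le]
        constructor <;> linarith [hz1.1, hz1.2]
      _ = ENNReal.ofReal 4 * M := by
        rw [lintegral_const, Measure.restrict_apply_univ, Real.volume_Icc]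
        have e1 : ENNReal.ofReal (((n : ℝ) + 1) ^ 2) * (ENNReal.ofReal (4 * δ) * M *
            ENNReal.ofReal (z₁ + δ - z₁)) = (ENNReal.ofReal (((n : ℝ) + 1) ^ 2) *
            ENNReal.ofReal (4 * δ) * ENNReal.ofReal (z₁ + δ - z₁)) * M := by ring
        rw [e1, ← ENNReal.ofReal_mul (by positivity), ← ENNReal.ofReal_mul (by positivity)]
        congr 2
        rw [hδ]
        field_simp
        ring
  have lim0 : Tendsto (fun n : ℕ => ∫⁻ t in Icc (z₁ - 1 / ((n : ℝ) + 1))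
      (z₁ + 1 / ((n : ℝ) + 1)), b t) atTop (𝓝 0) := by
    refine tendsto_setLIntegral_zero hb ?_
    have e1 : ((volume : Measure ℝ) ∘ fun n : ℕ => Icc (z₁ - 1 / ((n : ℝ) + 1))
        (z₁ + 1 / ((n : ℝ) + 1))) = fun n : ℕ => ENNReal.ofReal (2 * (1 / ((n : ℝ) + 1))) := by
      funext n
      rw [Function.comp_apply, Real.volume_Icc]
      congr 1
      ring
    rw [e1]
    have e2 : Tendsto (fun n : ℕ => 2 * (1 / ((n : ℝ) + 1))) atTop (𝓝 (2 * 0)) :=
      tendsto_one_div_add_atTop_nhds_zero_nat.const_mul 2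
    have e3 := ENNReal.tendsto_ofReal e2
    simpa using e3
  have lim1 : ∀ i : Fin 3, Tendsto (fun n => eLpNorm (fun P => v P * pd e3 i (th z₁ n) P) 2 volume)
      atTop (𝓝 0) := by
    intro i
    have e1 : Tendsto (fun n => eLpNorm (fun P => v P * pd e3 i (th z₁ n) P) 2 volume ^ 2)
        atTop (𝓝 0) := by
      have e2 := ENNReal.Tendsto.const_mul (a := ENNReal.ofReal 4) lim0
        (Or.inr ENNReal.ofReal_ne_top)
      rw [mul_zero] at e2
      exact tendsto_of_tendsto_of_tendsto_of_le_of_le tendsto_const_nhds e2 (fun _ => zero_le)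
        fun n => small n i
    have e3 := ((ENNReal.continuous_rpow_const (y := (1 : ℝ) / 2)).tendsto 0).comp e1
    rw [ENNReal.zero_rpow_of_pos (by norm_num)] at e3
    refine e3.congr fun n => ?_
    rw [Function.comp_apply, ← ENNReal.rpow_natCast, ← ENNReal.rpow_mul]
    norm_num
  refine H1.lim hm hmi hg (dom v h.1) fun i => ?_
  have e4 := (dom (F i) (h.2.1 i)).add (lim1 i)
  rw [add_zero] at e4
  refine tendsto_of_tendsto_of_tendsto_of_le_of_le tendsto_const_nhds e4 (fun _ => zero_le)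
    fun n => ?_
  have e5 : (fun P => th z₁ n P * F i P + v P * pd e3 i (th z₁ n) P -
      Set.indicator (up z₁) (F i) P) = (fun P => (th z₁ n P * F i P -
      Set.indicator (up z₁) (F i) P) + v P * pd e3 i (th z₁ n) P) := by
    funext P
    ring
  show eLpNorm (fun P => th z₁ n P * F i P + v P * pd e3 i (th z₁ n) P -
      Set.indicator (up z₁) (F i) P) 2 volume ≤ _
  rw [e5]
  refine eLpNorm_add_le ?_ ?_ (by norm_num)
  · exact ((ht n).aestronglyMeasurable.mul (h.2.1 i).1).sub (hmi i).1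
  · exact h.1.1.mul (measurable_fderiv_apply_const ℝ (th z₁ n) (e3 i)).aestronglyMeasurable

lemma disj {P : X} {z₁ : ℝ} (w : X → ℝ) :
    w P = Set.indicator (up z₁) w P + Set.indicator (up z₁)ᶜ w P := by
  rw [← Set.indicator_self_add_compl_apply (up z₁) w P]

/-- both parts of a cut ground state are minimizers -/
lemma part (h_EQC : T_EQC) {B : ℝ} {G : Set X} {v : X → ℝ} {F : Fin 3 → X → ℝ} {z₁ : ℝ}
    (hM : Mz (VV B) G (lamR B G) v F)
    (h : H1 e3 G (Set.indicator (up z₁) v) (fun i => Set.indicator (up z₁) (F i))) :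
    Mz (VV B) G (lamR B G) (Set.indicator (up z₁) v) (fun i => Set.indicator (up z₁) (F i)) := by
  refine ⟨hM.adm, h, ?_⟩
  have hc := hM.adm.cont
  have hbd := hM.adm.bounded
  have hq := (h_EQC (VV B) G v F hM.h hc hbd).1 v F hM.h
  -- the lower part
  have h' : H1 e3 G (Set.indicator (up z₁)ᶜ v) (fun i => Set.indicator (up z₁)ᶜ (F i)) := by
    refine (hM.h.sub h).congr (Eventually.of_forall fun P => ?_)
      fun i => Eventually.of_forall fun P => ?_
    · show v P - Set.indicator (up z₁) v P = Set.indicator (up z₁)ᶜ v P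
      rw [disj (z₁ := z₁) v]
      ring
    · show F i P - Set.indicator (up z₁) (F i) P = Set.indicator (up z₁)ᶜ (F i) P
      rw [disj (z₁ := z₁) (F i)]
      ring
  have h1 := (h_EQC (VV B) G _ _ h' hc hbd).2 (lamR B G) hM.adm
  have h2 := hM.le
  set w : X → ℝ := fun P => ∑ i : Fin 3, F i P ^ 2 + VV B P * v P ^ 2 with hw
  have hwi : Integrable w := by
    have e1 : w = fun P => (∑ i : Fin 3, F i P * F i P) + VV B P * (v P * v P) := by
      funext P
      simp only [hw, pow_two]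
    rw [e1]
    exact (integrable_finsetSum _ fun i _ => hq.2.2 i).add hq.2.1
  have hvi : Integrable fun P => v P ^ 2 := by
    have e1 : (fun P => v P ^ 2) = fun P => v P * v P := by
      funext P
      ring
    rw [e1]
    exact hq.1
  have E : ∀ S : Set X, MeasurableSet S →
      EQ (VV B) (Set.indicator S v) (fun i => Set.indicator S (F i)) = ∫ P in S, w P := by
    intro S hS
    rw [← integral_indicator hS]
    unfold EQ
    congr 1
    funext P
    by_cases hP : P ∈ S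
    · simp only [Set.indicator_of_mem hP]
      rfl
    · simp [Set.indicator_of_notMem hP]
  have N : ∀ S : Set X, MeasurableSet S →
      ∫ P, Set.indicator S v P ^ 2 = ∫ P in S, v P ^ 2 := by
    intro S hS
    rw [← integral_indicator hS]
    congr 1
    funext P
    by_cases hP : P ∈ S
    · simp only [Set.indicator_of_mem hP]
    · simp [Set.indicator_of_notMem hP]
  rw [E _ (up_meas z₁).compl, N _ (up_meas z₁).compl] at h1
  rw [E _ (up_meas z₁), N _ (up_meas z₁)]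
  have h3 : EQ (VV B) v F = (∫ P in up z₁, w P) + ∫ P in (up z₁)ᶜ, w P :=
    (integral_add_compl (up_meas z₁) hwi).symm
  have h4 : ∫ P, v P ^ 2 = (∫ P in up z₁, v P ^ 2) + ∫ P in (up z₁)ᶜ, v P ^ 2 :=
    (integral_add_compl (up_meas z₁) hvi).symm
  rw [h3, h4] at h2
  linarith

end NPO_

open NPO_ in
/-- NPO -/
theorem p_NPO (h_PRL : T_PRL) (h_EQC : T_EQC) (h_POS : T_POS) (h_CON : T_CON) (h_GSM : T_GSM)
    (h_GPO : T_GPO) : T_NPO := by
  intro B G v F hG hv z₀ hz₀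
  have hM := h_GSM B G v F hG hv
  have hO := hG.isOpen
  obtain ⟨r, hr, hrG⟩ := Metric.isOpen_iff.1 hO _ hz₀
  set d : ℝ := r / 2 with hd
  have hd0 : 0 < d := by positivity
  have hdG : ∀ z : ℝ, |z - z₀| ≤ d → ((0 : ℂ), z) ∈ G := by
    intro z hz
    refine hrG ?_
    rw [mem_ball, Prod.dist_eq, max_lt_iff]
    refine ⟨by simpa using hr, ?_⟩
    show dist z z₀ < r
    rw [Real.dist_eq]
    linarith
  refine ⟨d, ?_⟩
  by_contra hcon
  push Not at hcon
  obtain ⟨φ, hφ, t1, t2, a1, a2⟩ := hv.h.seq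
  -- good heights
  set A : Set ℝ := {z | (∀ᵐ x : ℂ, Tendsto (fun n => φ n (x, z)) atTop (𝓝 (v (x, z)))) ∧
    Integrable (fun x : ℂ => v (x, z) ^ 2)} with hA
  have hAe : ∀ᵐ z : ℝ, z ∈ A := by
    have e1 : ∀ᵐ q : ℝ × ℂ ∂((volume : Measure ℝ).prod (volume : Measure ℂ)),
        Tendsto (fun n => φ n q.swap) atTop (𝓝 (v q.swap)) := by
      have e2 := a1
      rw [Measure.volume_eq_prod ℂ ℝ] at e2
      exact Measure.measurePreserving_swap.quasiMeasurePreserving.ae e2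
    have e3 := Measure.ae_ae_of_ae_prod e1
    have e4 : Integrable (fun P => v P ^ 2) (volume : Measure X) := hv.h.1.integrable_sq
    rw [Measure.volume_eq_prod ℂ ℝ] at e4
    filter_upwards [e3, e4.prod_left_ae] with z h1 h2
    exact ⟨h1, h2⟩
  have hS : ∀ z ∈ A, ∀ z' ∈ A, ∫⁻ x : ℂ, ‖v (x, z) - v (x, z')‖ₑ ^ 2 ≤
      ENNReal.ofReal |z - z'| * ∫⁻ t in uIoc z' z, NPO_.sq (F 2) t := fun z hz z' hz' =>
    slice (hv.h.2.1 2) (hv.mF 2) hφ (t2 2) z z' hz.1 hz'.1
  have hsel : ∀ n : ℕ, ∃ z ∈ A, |z - z₀| < d ∧ ∫ x : ℂ, v (x, z) ^ 2 < 1 / ((n : ℝ) + 1) := by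
    intro n
    obtain ⟨z, h1, h2⟩ :=
      ((hcon (1 / ((n : ℝ) + 1)) hd0 (by positivity)).and_eventually hAe).exists
    exact ⟨z, h2, h1.1, h1.2⟩
  choose zs hzA hzd hzk using hsel
  obtain ⟨z₁, hz₁, ψ, hψ, hlim⟩ := isCompact_Icc.tendsto_subseq (x := zs)
    (s := Icc (z₀ - d) (z₀ + d)) fun n => by
      have := abs_lt.1 (hzd n)
      exact ⟨by linarith [this.1], by linarith [this.2]⟩
  have h0 : Tendsto (fun n => NPO_.sq v (zs (ψ n))) atTop (𝓝 0) := by
    have e1 : Tendsto (fun n => NPO_.sq v (zs n)) atTop (𝓝 0) := by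
      have e2 : Tendsto (fun n : ℕ => ENNReal.ofReal (1 / ((n : ℝ) + 1))) atTop (𝓝 0) := by
        have := ENNReal.tendsto_ofReal (tendsto_one_div_add_atTop_nhds_zero_nat (𝕜 := ℝ))
        simpa using this
      refine tendsto_of_tendsto_of_tendsto_of_le_of_le tendsto_const_nhds e2 (fun _ => zero_le)
        fun n => ?_
      have e3 : NPO_.sq v (zs n) = ENNReal.ofReal (∫ x : ℂ, v (x, zs n) ^ 2) := by
        rw [ofReal_integral_eq_lintegral_ofReal (hzA n).2
          (Eventually.of_forall fun x => sq_nonneg _)]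
        unfold NPO_.sq
        congr 1
        funext x
        rw [Real.enorm_eq_ofReal_abs, ← ENNReal.ofReal_pow (abs_nonneg _), sq_abs]
      rw [e3]
      exact ENNReal.ofReal_le_ofReal (hzk n).le
    exact e1.comp hψ.tendsto_atTop
  have hb : ∫⁻ t, NPO_.sq (F 2) t ≠ ⊤ := by
    have e1 := NPO_.sq_int (hv.mF 2) univ
    rw [Measure.restrict_univ, univ_prod_univ, Measure.restrict_univ, BOX_.sq_norm] at e1
    rw [← e1]
    exact ENNReal.pow_ne_top (hv.h.2.1 2).2.ne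
  have hcut := cut hO h_PRL hv.mv hv.h hb (z₁ := z₁) fun δ hδ => by
    filter_upwards [hAe] with z hz hzδ
    exact near hv.mv hS (fun n => hzA (ψ n)) h0 hlim hδ hz hzδ
  have hMz := part h_EQC hM hcut
  have hz1G : ((0 : ℂ), z₁) ∈ G := hdG z₁ (by
    rw [abs_le]
    constructor <;> linarith [hz₁.1, hz₁.2])
  obtain ⟨s, hs, hsG⟩ := Metric.isOpen_iff.1 hO _ hz1G
  -- balls above and below
  have hball : ∀ c : ℝ, |c| = s / 2 → ball (((0 : ℂ), z₁ + c) : X) (s / 2) ⊆ G := by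
    intro c hc P hP
    refine hsG ?_
    rw [mem_ball, Prod.dist_eq, max_lt_iff] at hP ⊢
    refine ⟨lt_trans hP.1 (by linarith), ?_⟩
    have h1 : dist P.2 (z₁ + c) < s / 2 := hP.2
    show dist P.2 z₁ < s
    rw [Real.dist_eq] at h1 ⊢
    have h2 : P.2 - z₁ = (P.2 - (z₁ + c)) + c := by ring
    rw [h2]
    refine (abs_add_le _ _).trans_lt ?_
    linarith
  have hpos : ∀ (c : ℝ) (p : X → Prop), |c| = s / 2 → (∀ᵐ P, P ∈ G → p P) →
      ∃ P ∈ ball (((0 : ℂ), z₁ + c) : X) (s / 2), p P := by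
    intro c p hc hp
    by_contra hno
    push Not at hno
    have h1 : volume (ball (((0 : ℂ), z₁ + c) : X) (s / 2)) = 0 := by
      refine measure_mono_null (fun P hP => ?_) hp
      intro hp'
      exact hno P hP (hp' (hball c hc hP))
    exact (Metric.measure_ball_pos volume _ (by positivity)).ne' h1
  have hgpo := h_GPO B G v F hG hv
  have hne : ∫ P, Set.indicator (up z₁) v P ^ 2 ≠ 0 := by
    intro h1
    have h2 : MemLp (Set.indicator (up z₁) v) 2 volume := hcut.1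
    have h3 : (fun P => Set.indicator (up z₁) v P ^ 2) =ᵐ[volume] 0 :=
      (integral_eq_zero_iff_of_nonneg (fun P => sq_nonneg _) h2.integrable_sq).1 h1
    have h4 : ∀ᵐ P, P ∈ G → 0 < v P ∧ Set.indicator (up z₁) v P = 0 := by
      filter_upwards [h3, hgpo] with P p1 p2 hP
      exact ⟨p2 hP, by simpa using p1⟩
    obtain ⟨P, hP, hp1, hp2⟩ := hpos (s / 2) _ (abs_of_pos (by positivity)) h4
    rw [mem_ball, Prod.dist_eq, max_lt_iff] at hP
    have h5 : dist P.2 (z₁ + s / 2) < s / 2 := hP.2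
    rw [Real.dist_eq, abs_lt] at h5
    have h6 : P ∈ up z₁ := by
      show z₁ < P.2
      linarith [h5.1]
    rw [Set.indicator_of_mem h6] at hp2
    exact hp1.ne' hp2
  have hnn : ∀ᵐ P, 0 ≤ Set.indicator (up z₁) v P :=
    Eventually.of_forall fun P => Set.indicator_nonneg (fun Q _ => hv.nn Q) P
  have hfin := h_POS (VV B) G (lamR B G) _ _ hMz (h_CON G hG).1 hnn hne
  obtain ⟨P, hP, hp⟩ := hpos (-(s / 2)) _ (by rw [abs_neg, abs_of_pos (by positivity)]) hfin
  rw [mem_ball, Prod.dist_eq, max_lt_iff] at hP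
  have h5 : dist P.2 (z₁ + -(s / 2)) < s / 2 := hP.2
  rw [Real.dist_eq, abs_lt] at h5
  have h6 : P ∉ up z₁ := by
    intro h7
    have : z₁ < P.2 := h7
    linarith [h5.2]
  rw [Set.indicator_of_notMem h6] at hp
  exact lt_irrefl _ hp

end MGS
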