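import Pool.Agent.MGS.TA

/-!
# MGS: target `NUL` (the gradient vanishes on the inverse image of a null set), from `BCH`, `UNI`
-/

set_option autoImplicit false

open MeasureTheory Filter Topology Metric Set
open scoped ENNReal NNReal ContDiff

noncomputable section

namespace MGS

theorem NUL_intervalIntegral_zero (S : Set ℝ) (hS : volume S = 0) (a b : ℝ) :
    ∫ t in a..b, S.indicator (fun _ => (1 : ℝ)) t = 0 := by
  have h : (fun t => S.indicator (fun _ => (1 : ℝ)) t) =ᵐ[volume] fun _ => (0 : ℝ) := by
    have : ∀ᵐ t : ℝ, t ∉ S := by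
      rw [ae_iff]
      simpa using hS
    filter_upwards [this] with t ht
    exact Set.indicator_of_notMem ht _
  have h' : ∫ t in a..b, S.indicator (fun _ => (1 : ℝ)) t = ∫ t in a..b, (0 : ℝ) := by
    refine intervalIntegral.integral_congr_ae ?_
    filter_upwards [h] with t ht _
    exact ht
  rw [h']
  simp

theorem p_NUL (h_BCH : T_BCH) (h_UNI : T_UNI) : T_NUL := by
  intro E _ _ _ _ _ _ ι _ e G f F S hG hf hS i
  set S' : Set ℝ := toMeasurable volume S with hS'
  have hSS : S ⊆ S' := subset_toMeasurable _ _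
  have hm : MeasurableSet S' := measurableSet_toMeasurable _ _
  have h0 : volume S' = 0 := by rw [hS', measure_toMeasurable]; exact hS
  have hη : Measurable (S'.indicator (fun _ => (1 : ℝ))) := measurable_const.indicator hm
  have hb : ∀ s, |S'.indicator (fun _ => (1 : ℝ)) s| ≤ 1 := by
    intro s
    by_cases hs : s ∈ S'
    · rw [Set.indicator_of_mem hs]; simp
    · rw [Set.indicator_of_notMem hs]; simp
  have h1 := h_BCH E ι e G f F (S'.indicator (fun _ => (1 : ℝ))) 1 hG hf hη hb
  have h2 : H1 e G (fun _ => (0 : ℝ)) (fun _ _ => (0 : ℝ)) := H1.zero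
  have h3 := h_UNI E ι e G G _ _ _ _ h1 h2
    (Eventually.of_forall fun P => NUL_intervalIntegral_zero S' h0 0 (f P)) i
  filter_upwards [h3] with P hP hPS
  have hmem : f P ∈ S' := hSS hPS
  have h4 : S'.indicator (fun _ => (1 : ℝ)) (f P) * F i P = 0 := hP
  rw [Set.indicator_of_mem hmem] at h4
  linarith

end MGS
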