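import Pool.Agent.MGS.TF

/-!
# MGS: target `NWK` (the weak derivative of the norms of the slices)
-/

set_option autoImplicit false

open MeasureTheory Filter Topology Metric Set
open scoped ENNReal NNReal ContDiff

noncomputable section

namespace MGS

theorem NWK_pd (ψ : ℝ → ℝ) (h : ContDiff ℝ ∞ ψ) (P : X) :
    pd e3 2 (fun P : X => ψ P.2) P = deriv ψ P.2 := by
  have hd : HasDerivAt ψ (deriv ψ P.2) P.2 :=
    (h.differentiable (by simp) P.2).hasDerivAt
  have h1 : HasFDerivAt (fun P : X => ψ P.2)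
      (deriv ψ P.2 • (ContinuousLinearMap.snd ℝ ℂ ℝ)) P :=
    hd.comp_hasFDerivAt P (hasFDerivAt_snd (𝕜 := ℝ) (E := ℂ) (F := ℝ) (p := P))
  unfold pd
  rw [h1.fderiv]
  simp [e3]

theorem p_NWK (hI : T_IBH) (hP : T_PRL) : T_NWK := by
  intro G f F ψ hG hf hψ hc
  obtain ⟨K, hK⟩ := hψ.lipschitzWith_of_hasCompactSupport hc (by simp)
  obtain ⟨M, hM⟩ := hc.exists_bound_of_continuous hψ.continuous
  have hψ' : Continuous (deriv ψ) := hψ.continuous_deriv (by simp)
  obtain ⟨M', hM'⟩ := hc.deriv.exists_bound_of_continuous hψ'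
  have hθ : ∃ K : ℝ≥0, LipschitzWith K (fun P : X => ψ P.2) :=
    ⟨K * 1, hK.comp LipschitzWith.prod_snd⟩
  have h1 := hP X (Fin 3) e3 G G f F (fun P : X => ψ P.2) M hG hf hθ (fun P => hM P.2)
    (Or.inl subset_rfl)
  have k : ∫ P : X, f P * (ψ P.2 * F 2 P + f P * pd e3 2 (fun P : X => ψ P.2) P) =
      -∫ P : X, F 2 P * (ψ P.2 * f P) := hI X (Fin 3) e3 G G f _ F _ hf h1 2
  have i1 : Integrable (fun P : X => f P * F 2 P) := hf.1.integrable_mul (hf.2.1 2)
  have i2 : Integrable (fun P : X => f P * f P) := hf.1.integrable_mul hf.1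
  have j1 : Integrable (fun P : X => ψ P.2 * (f P * F 2 P)) :=
    i1.bdd_mul (hψ.continuous.comp continuous_snd).aestronglyMeasurable
      (Eventually.of_forall fun P => hM P.2)
  have j2 : Integrable (fun P : X => deriv ψ P.2 * (f P * f P)) :=
    i2.bdd_mul (hψ'.comp continuous_snd).aestronglyMeasurable
      (Eventually.of_forall fun P => hM' P.2)
  have e1 : ∀ P : X, f P * (ψ P.2 * F 2 P + f P * pd e3 2 (fun P : X => ψ P.2) P) =
      ψ P.2 * (f P * F 2 P) + deriv ψ P.2 * (f P * f P) := by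
    intro P
    rw [NWK_pd ψ hψ P]
    ring
  have e2 : ∀ P : X, F 2 P * (ψ P.2 * f P) = ψ P.2 * (f P * F 2 P) := fun P => by ring
  have e3' : ∀ P : X, f P ^ 2 * deriv ψ P.2 = deriv ψ P.2 * (f P * f P) := fun P => by ring
  have e4 : ∀ P : X, (2 * (f P * F 2 P)) * ψ P.2 = 2 * (ψ P.2 * (f P * F 2 P)) :=
    fun P => by ring
  rw [integral_congr_ae (Eventually.of_forall e1), integral_congr_ae (Eventually.of_forall e2),
    integral_add j1 j2] at k
  rw [integral_congr_ae (Eventually.of_forall e3'), integral_congr_ae (Eventually.of_forall e4),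
    integral_const_mul]
  linarith

end MGS
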