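import Pool.Agent.MGS.TD

/-!
# MGS: the rearrangement and the sup norm
-/

set_option autoImplicit false

open MeasureTheory Filter Topology Metric Set
open scoped ENNReal NNReal ContDiff

noncomputable section

namespace MGS

theorem NXI_.fin {R : ℝ} {g : ℂ → ℝ} (h : Nc R g) {s : ℝ} (hs : 0 ≤ s) :
    volume {x : ℂ | s < g x} ≠ ⊤ := by
  refine ne_top_of_le_ne_top (measure_ball_lt_top (μ := volume) (x := (0 : ℂ)) (r := R)).ne
    (measure_mono fun x hx => ?_)
  rw [mem_ball_zero_iff]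
  by_contra hc
  have h1 := h.z x (not_lt.1 hc)
  have h2 : s < g x := hx
  linarith

theorem NXI_.bdd {g : ℂ → ℝ} {C : ℝ} (h : ∀ x, g x ≤ C) (t : ℝ) :
    BddAbove {s : ℝ | 0 ≤ s ∧ Real.pi * t ^ 2 < ar g s} := by
  refine ⟨C, fun s hs => ?_⟩
  by_contra hc
  have h1 : {x : ℂ | s < g x} = ∅ := by
    rw [Set.eq_empty_iff_forall_notMem]
    intro x hx
    have h2 : s < g x := hx
    linarith [h x, not_le.1 hc]
  have h3 : ar g s = 0 := by
    rw [ar, h1]
    simp
  have h4 := hs.2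
  rw [h3] at h4
  have h5 : 0 ≤ Real.pi * t ^ 2 := by positivity
  linarith

theorem p_NXI : T_NXI := by
  intro R δ C g₁ g₂ h₁ h₂ hδ hle hC t ht
  have hnn : 0 ≤ rr g₂ t := Real.sSup_nonneg fun s hs => hs.1
  rcases Set.eq_empty_or_nonempty {s : ℝ | 0 ≤ s ∧ Real.pi * t ^ 2 < ar g₁ s} with he | hne
  · rw [rr, he, Real.sSup_empty]
    linarith
  · refine csSup_le hne fun s hs => ?_
    rcases le_or_gt s δ with hsd | hsd
    · linarith
    have h3 : ar g₁ s ≤ ar g₂ (s - δ) := by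
      refine ENNReal.toReal_mono (NXI_.fin h₂ (by linarith)) (measure_mono fun x hx => ?_)
      have h4 : s < g₁ x := hx
      show s - δ < g₂ x
      linarith [hle x]
    have h5 : s - δ ≤ rr g₂ t :=
      le_csSup (NXI_.bdd hC t) ⟨by linarith, lt_of_lt_of_le hs.2 h3⟩
    linarith

end MGS
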