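import Pool.Agent.MGS.TD

/-! OST: the symmetrized domain. -/

set_option autoImplicit false

open MeasureTheory Filter Topology Metric Set
open scoped ENNReal NNReal ContDiff

noncomputable section

namespace MGS

namespace OST_

/-- horizontal slice of a set -/
def sc (G : Set X) (z : ℝ) : Set ℂ := {y : ℂ | (y, z) ∈ G}

theorem sc_open {G : Set X} (hG : IsOpen G) (z : ℝ) : IsOpen (sc G z) :=
  hG.preimage (continuous_id.prodMk continuous_const)

theorem sc_sub {G : Set X} {R : ℝ} (h : ∀ P ∈ G, ‖P‖ < R) (z : ℝ) : sc G z ⊆ ball 0 R := by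
  intro y hy
  have h1 := h _ hy
  have h2 : ‖y‖ ≤ ‖((y, z) : X)‖ := norm_fst_le ((y, z) : X)
  simpa using h2.trans_lt h1

theorem vol_fin {G : Set X} {R : ℝ} (h : ∀ P ∈ G, ‖P‖ < R) (z : ℝ) : volume (sc G z) ≠ ⊤ :=
  ((measure_mono (sc_sub h z)).trans_lt measure_ball_lt_top).ne

theorem vol_le {G : Set X} {R : ℝ} (hR : 0 ≤ R) (h : ∀ P ∈ G, ‖P‖ < R) (z : ℝ) :
    (volume (sc G z)).toReal ≤ Real.pi * R ^ 2 := by
  have h1 : volume (sc G z) ≤ ENNReal.ofReal R ^ 2 * NNReal.pi := by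
    rw [← Complex.volume_ball (0 : ℂ) R]
    exact measure_mono (sc_sub h z)
  have h2 := ENNReal.toReal_mono (by finiteness) h1
  rw [ENNReal.toReal_mul, ENNReal.toReal_pow, ENNReal.toReal_ofReal hR] at h2
  simp only [ENNReal.coe_toReal, NNReal.coe_real_pi] at h2
  linarith

theorem mem_ost {G : Set X} {P : X} :
    P ∈ Ost G ↔ Real.pi * ‖P.1‖ ^ 2 < (volume (sc G P.2)).toReal := Iff.rfl

theorem ost_ne {G : Set X} {P : X} (h : P ∈ Ost G) : (sc G P.2).Nonempty := by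
  rw [mem_ost] at h
  by_contra hn
  rw [Set.not_nonempty_iff_eq_empty] at hn
  rw [hn, measure_empty, ENNReal.toReal_zero] at h
  have : 0 ≤ Real.pi * ‖P.1‖ ^ 2 := by positivity
  linarith

theorem ost_bd {G : Set X} {R : ℝ} (h : ∀ P ∈ G, ‖P‖ < R) : ∀ P ∈ Ost G, ‖P‖ < R := by
  intro P hP
  obtain ⟨y, hy⟩ := ost_ne hP
  have hy' : ‖((y, P.2) : X)‖ < R := h _ hy
  have hR : 0 < R := (norm_nonneg _).trans_lt hy'
  have h1 : ‖P.1‖ < R := by
    have h2 := (mem_ost.1 hP).trans_le (vol_le hR.le h P.2)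
    have h3 : ‖P.1‖ ^ 2 < R ^ 2 := lt_of_mul_lt_mul_left h2 Real.pi_pos.le
    exact lt_of_pow_lt_pow_left₀ 2 hR.le h3
  have h2 : ‖P.2‖ < R := (norm_snd_le ((y, P.2) : X)).trans_lt hy'
  exact max_lt h1 h2

theorem ost_open {G : Set X} {R : ℝ} (hG : IsOpen G) (h : ∀ P ∈ G, ‖P‖ < R) : IsOpen (Ost G) := by
  rw [isOpen_iff_mem_nhds]
  intro P hP
  have h1 : ENNReal.ofReal (Real.pi * ‖P.1‖ ^ 2) < volume (sc G P.2) := by
    rw [mem_ost] at hP
    exact (ENNReal.ofReal_lt_iff_lt_toReal (by positivity) (vol_fin h _)).2 hP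
  obtain ⟨K, hKs, hK, hlt⟩ := (sc_open hG P.2).exists_lt_isCompact h1
  have hsub : K ×ˢ ({P.2} : Set ℝ) ⊆ G := by
    rintro ⟨a, b⟩ ⟨ha, hb⟩
    simp only [Set.mem_singleton_iff] at hb
    subst hb
    exact hKs ha
  obtain ⟨U, V, hU, hV, hKU, hPV, hUV⟩ :=
    generalized_tube_lemma hK isCompact_singleton hG hsub
  have hKfin : volume K ≠ ⊤ := hK.measure_lt_top.ne
  have hlt' : Real.pi * ‖P.1‖ ^ 2 < (volume K).toReal :=
    (ENNReal.ofReal_lt_iff_lt_toReal (by positivity) hKfin).1 hlt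
  have hN : {Q : X | Real.pi * ‖Q.1‖ ^ 2 < (volume K).toReal ∧ Q.2 ∈ V} ∈ 𝓝 P := by
    refine IsOpen.mem_nhds ?_ ⟨hlt', hPV rfl⟩
    refine IsOpen.inter ?_ (hV.preimage continuous_snd)
    have hc : Continuous (fun Q : X => Real.pi * ‖Q.1‖ ^ 2) :=
      continuous_const.mul ((continuous_fst.norm).pow 2)
    exact isOpen_lt hc continuous_const
  refine Filter.mem_of_superset hN ?_
  rintro Q ⟨hQ1, hQ2⟩
  rw [mem_ost]
  refine hQ1.trans_le (ENNReal.toReal_mono (vol_fin h _) (measure_mono ?_))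
  intro y hy
  exact hUV ⟨hKU hy, hQ2⟩

theorem disc_vol {a : ℝ≥0∞} (ha : a ≠ ⊤) :
    volume {x : ℂ | Real.pi * ‖x‖ ^ 2 < a.toReal} = a := by
  have hr : 0 ≤ a.toReal / Real.pi := by positivity
  have e : {x : ℂ | Real.pi * ‖x‖ ^ 2 < a.toReal} = ball 0 (Real.sqrt (a.toReal / Real.pi)) := by
    ext x
    simp only [Set.mem_ofPred_eq, Metric.mem_ball, dist_zero_right]
    rw [Real.lt_sqrt (norm_nonneg _), lt_div_iff₀ Real.pi_pos, mul_comm]
  rw [e, Complex.volume_ball, ← ENNReal.ofReal_pow (Real.sqrt_nonneg _), Real.sq_sqrt hr]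
  have h2 : ((NNReal.pi : ℝ≥0) : ℝ≥0∞) = ENNReal.ofReal Real.pi := by
    rw [ENNReal.ofReal, ← NNReal.coe_real_pi, Real.toNNReal_coe]
  rw [h2, ← ENNReal.ofReal_mul hr, div_mul_cancel₀ _ Real.pi_pos.ne', ENNReal.ofReal_toReal ha]

theorem ost_vol {G : Set X} {R : ℝ} (hG : IsOpen G) (h : ∀ P ∈ G, ‖P‖ < R) :
    volume (Ost G) = volume G := by
  rw [Measure.volume_eq_prod ℂ ℝ, Measure.prod_apply_symm (ost_open hG h).measurableSet,
    Measure.prod_apply_symm hG.measurableSet]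
  refine lintegral_congr fun z => ?_
  exact disc_vol (vol_fin h z)

theorem ost_zero {G : Set X} {R : ℝ} (hG : IsOpen G) (h : ∀ P ∈ G, ‖P‖ < R) (z : ℝ) :
    ((0 : ℂ), z) ∈ Ost G ↔ ∃ x : ℂ, (x, z) ∈ G := by
  constructor
  · intro hz
    exact ost_ne hz
  · intro hne
    rw [mem_ost]
    have h1 : 0 < volume (sc G z) := (sc_open hG z).measure_pos volume hne
    have h2 := ENNReal.toReal_pos h1.ne' (vol_fin h z)
    simpa using h2

end OST_

open OST_ in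
theorem p_OST : T_OST := by
  intro Ω hΩ hb hne
  obtain ⟨C, hC⟩ := isBounded_iff_forall_norm_le.1 hb
  have hR : ∀ P ∈ Ω, ‖P‖ < C + 1 := fun P hP => (hC P hP).trans_lt (by linarith)
  refine ⟨ost_open hΩ hR, ?_, ?_, ost_vol hΩ hR, ?_, ost_zero hΩ hR, fun R h => ost_bd h⟩
  · exact isBounded_iff_forall_norm_le.2 ⟨C + 1, fun P hP => (ost_bd hR P hP).le⟩
  · obtain ⟨⟨x, z⟩, hxz⟩ := hne
    exact ⟨(0, z), (ost_zero hΩ hR z).2 ⟨x, hxz⟩⟩
  · intro P hP x hx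
    rw [mem_ost] at hP ⊢
    refine lt_of_le_of_lt ?_ hP
    have : ‖x‖ ^ 2 ≤ ‖P.1‖ ^ 2 := pow_le_pow_left₀ (norm_nonneg _) hx 2
    exact mul_le_mul_of_nonneg_left this Real.pi_pos.le

end MGS
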