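import Pool.Agent.MGS.TF

/-!
# MGS: target PHS (helper12)
-/

set_option autoImplicit false

open MeasureTheory Filter Topology Metric Set
open scoped ENNReal NNReal ContDiff

noncomputable section

namespace MGS

/-- the pointwise algebra -/
theorem PHS_alg {B f g h j0 j1 y0 y1 r m0 m1 : ℝ} (hf : 0 < f) (hg : 0 < g) (hr : 0 < r)
    (hr2 : r ^ 2 = y0 ^ 2 + y1 ^ 2)
    (hm0 : m0 = -(g * y0 / r)) (hm1 : m1 = -(g * y1 / r))
    (hh : h = B / 2 * r * f) (hj : Real.sqrt (j0 ^ 2 + j1 ^ 2) / f = h)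
    (hW : (j0 * m1 - j1 * m0) / f = g * h) :
    j0 = -(B / 2 * f ^ 2 * y1) ∧ j1 = B / 2 * f ^ 2 * y0 := by
  have hj2 : j0 ^ 2 + j1 ^ 2 = (B / 2 * r * f ^ 2) ^ 2 := by
    have h1 : Real.sqrt (j0 ^ 2 + j1 ^ 2) = h * f := by
      rw [← hj]
      field_simp
    have h2 : Real.sqrt (j0 ^ 2 + j1 ^ 2) ^ 2 = j0 ^ 2 + j1 ^ 2 :=
      Real.sq_sqrt (by positivity)
    rw [← h2, h1, hh]
    ring
  have hc : j1 * y0 - j0 * y1 = B / 2 * r ^ 2 * f ^ 2 := by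
    rw [hm0, hm1, hh] at hW
    have h1 : (j0 * -(g * y1 / r) - j1 * -(g * y0 / r)) / f =
        g * (j1 * y0 - j0 * y1) / (r * f) := by
      field_simp
      ring
    rw [h1, div_eq_iff (by positivity)] at hW
    have h2 : g * (j1 * y0 - j0 * y1) = g * (B / 2 * r ^ 2 * f ^ 2) := by
      rw [hW]
      ring
    exact mul_left_cancel₀ hg.ne' h2
  have hz : (j0 + B / 2 * f ^ 2 * y1) ^ 2 + (j1 - B / 2 * f ^ 2 * y0) ^ 2 = 0 := by
    have : (j0 + B / 2 * f ^ 2 * y1) ^ 2 + (j1 - B / 2 * f ^ 2 * y0) ^ 2 =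
        (j0 ^ 2 + j1 ^ 2) - B * f ^ 2 * (j1 * y0 - j0 * y1) +
          (B / 2 * f ^ 2) ^ 2 * (y0 ^ 2 + y1 ^ 2) := by ring
    rw [this, hj2, hc, ← hr2]
    ring
  have h1 : j0 + B / 2 * f ^ 2 * y1 = 0 := by nlinarith
  have h2 : j1 - B / 2 * f ^ 2 * y0 = 0 := by nlinarith
  exact ⟨by linarith, by linarith⟩

/-- the phase of a normalised pair in the equality case -/
theorem p_PHS (h_EQE : T_EQE) : T_PHS := by
  intro B R Ω a b v₁ Fa Fb F V T c hEX hCE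
  have hE := (h_EQE B R Ω a b v₁ Fa Fb F V T hEX.Bpos hEX.pd hEX.star hEX.rd).2
  rw [hEX.nrm, mul_one] at hE
  obtain ⟨-, hE⟩ := hE hEX.eq
  filter_upwards [hE, hCE.rk, hCE.mg] with P hP hrk hmg
  have hf0 : 0 ≤ md a b P := Real.sqrt_nonneg _
  have hf2 : md a b P ^ 2 = a P ^ 2 + b P ^ 2 := Real.sq_sqrt (by positivity)
  rcases hf0.eq_or_lt with hf | hf
  · have h1 : a P ^ 2 + b P ^ 2 = 0 := by rw [← hf2, ← hf]; ring
    have ha : a P = 0 := by nlinarith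
    have hb : b P = 0 := by nlinarith
    rw [← hf, ha, hb]
    refine ⟨by ring, by ring, by ring⟩
  · obtain ⟨hV, hT, hgx, hhx, hWx, h2⟩ := hP hf
    have hrk' := hrk hf
    set y : ℂ := P.1 - c P.2 with hy
    set f := md a b P with hfdef
    rw [hrk'] at hV hT hgx hhx
    have hB := hEX.Bpos
    have hTpos : 0 < T ‖y‖ P.2 := by
      have : 0 ≤ B / 2 * ‖y‖ * V ‖y‖ P.2 := by positivity
      linarith
    have hg : 0 < gx (mg a b Fa Fb) P := by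
      rw [hgx]
      positivity
    -- the gradient
    have hy0 : 0 < ‖y‖ := by
      rcases (norm_nonneg y).eq_or_lt with h0 | h0
      · exfalso
        have : gx (mg a b Fa Fb) P = 0 := by
          unfold gx
          rw [hmg.1, hmg.2, ← h0]
          simp
        linarith
      · exact h0
    have hyy : ‖y‖ ^ 2 = y.re ^ 2 + y.im ^ 2 := by
      rw [← Complex.normSq_eq_norm_sq, Complex.normSq_apply]
      ring
    have hgT : gx (mg a b Fa Fb) P = T ‖y‖ P.2 := by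
      unfold gx
      rw [hmg.1, hmg.2]
      have : (-(T ‖y‖ P.2 * y.re / ‖y‖)) ^ 2 + (-(T ‖y‖ P.2 * y.im / ‖y‖)) ^ 2 =
          (T ‖y‖ P.2) ^ 2 := by
        have h3 : (-(T ‖y‖ P.2 * y.re / ‖y‖)) ^ 2 + (-(T ‖y‖ P.2 * y.im / ‖y‖)) ^ 2 =
          (T ‖y‖ P.2) ^ 2 * (y.re ^ 2 + y.im ^ 2) / ‖y‖ ^ 2 := by
          field_simp
        rw [h3, ← hyy]
        field_simp
      rw [this, Real.sqrt_sq hTpos.le]
    -- the current
    have hj0 : jc B (sl a P.2) (sl b P.2) (sl2 Fa P.2) (sl2 Fb P.2) 0 P.1 =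
        a P * Fb 0 P - b P * Fa 0 P + -(B / 2) * P.1.im * (a P ^ 2 + b P ^ 2) := rfl
    have hj1 : jc B (sl a P.2) (sl b P.2) (sl2 Fa P.2) (sl2 Fb P.2) 1 P.1 =
        a P * Fb 1 P - b P * Fa 1 P + (B / 2) * P.1.re * (a P ^ 2 + b P ^ 2) := rfl
    have hWx' : (jc B (sl a P.2) (sl b P.2) (sl2 Fa P.2) (sl2 Fb P.2) 0 P.1 *
        mg a b Fa Fb 1 P - jc B (sl a P.2) (sl b P.2) (sl2 Fa P.2) (sl2 Fb P.2) 1 P.1 *
        mg a b Fa Fb 0 P) / f = gx (mg a b Fa Fb) P * hx B a b Fa Fb P := hWx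
    have hhx' : Real.sqrt (jc B (sl a P.2) (sl b P.2) (sl2 Fa P.2) (sl2 Fb P.2) 0 P.1 ^ 2 +
        jc B (sl a P.2) (sl b P.2) (sl2 Fa P.2) (sl2 Fb P.2) 1 P.1 ^ 2) / f =
        hx B a b Fa Fb P := rfl
    have hm0 : mg a b Fa Fb 0 P = -(gx (mg a b Fa Fb) P * y.re / ‖y‖) := by
      rw [hgT]
      exact hmg.1
    have hm1 : mg a b Fa Fb 1 P = -(gx (mg a b Fa Fb) P * y.im / ‖y‖) := by
      rw [hgT]
      exact hmg.2
    obtain ⟨k0, k1⟩ := PHS_alg hf hg hy0 hyy hm0 hm1 hhx hhx' hWx'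
    rw [hj0, ← hf2] at k0
    rw [hj1, ← hf2] at k1
    have hre : y.re = P.1.re - (c P.2).re := by rw [hy, Complex.sub_re]
    have him : y.im = P.1.im - (c P.2).im := by rw [hy, Complex.sub_im]
    rw [him] at k0
    rw [hre] at k1
    refine ⟨by linear_combination k0, by linear_combination k1, h2⟩

end MGS
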