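import Pool.Agent.MGS.TB

/-!
# POS: strict positivity of nonnegative minimizers
-/

set_option autoImplicit false

open MeasureTheory Filter Topology Metric Set
open scoped ENNReal NNReal ContDiff

noncomputable section

namespace MGS

namespace POS_

theorem cube_sub {P₀ : X} {l : ℝ} : cube P₀ l ⊆ closedBall P₀ (2 * l) := by
  rintro P ⟨h1, h2, h3⟩
  rw [mem_closedBall, Prod.dist_eq]
  have hl : 0 < l := (abs_nonneg _).trans_lt h1
  refine max_le ?_ ?_
  · rw [dist_eq_norm]
    refine (Complex.norm_le_abs_re_add_abs_im _).trans ?_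
    rw [Complex.sub_re, Complex.sub_im]
    linarith
  · rw [Real.dist_eq]
    linarith

theorem ball_sub {P₀ : X} {l : ℝ} : ball P₀ l ⊆ cube P₀ l := by
  intro P hP
  rw [mem_ball, Prod.dist_eq, max_lt_iff] at hP
  obtain ⟨h1, h2⟩ := hP
  rw [dist_eq_norm] at h1
  rw [Real.dist_eq] at h2
  refine ⟨?_, ?_, h2⟩
  · rw [← Complex.sub_re]
    exact (Complex.abs_re_le_norm _).trans_lt h1
  · rw [← Complex.sub_im]
    exact (Complex.abs_im_le_norm _).trans_lt h1

theorem cube_open (P₀ : X) (l : ℝ) : IsOpen (cube P₀ l) := by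
  have h1 : IsOpen {P : X | |P.1.re - P₀.1.re| < l} :=
    isOpen_lt (by fun_prop) continuous_const
  have h2 : IsOpen {P : X | |P.1.im - P₀.1.im| < l} :=
    isOpen_lt (by fun_prop) continuous_const
  have h3 : IsOpen {P : X | |P.2 - P₀.2| < l} :=
    isOpen_lt (by fun_prop) continuous_const
  exact h1.inter (h2.inter h3)

/-- the primitive of `1 / (|t| + ε)` -/
theorem prim {ε s : ℝ} (hε : 0 < ε) (hs : 0 ≤ s) :
    ∫ t in (0 : ℝ)..s, 1 / (|t| + ε) = Real.log (s + ε) - Real.log ε := by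
  have h1 : ∀ x ∈ Set.uIcc 0 s, HasDerivAt (fun t : ℝ => Real.log (t + ε)) (1 / (|x| + ε)) x := by
    intro x hx
    rw [Set.uIcc_of_le hs] at hx
    have h2 : 0 < x + ε := by linarith [hx.1]
    rw [abs_of_nonneg hx.1]
    exact (((hasDerivAt_id x).add_const ε).log h2.ne')
  have h3 : IntervalIntegrable (fun t : ℝ => 1 / (|t| + ε)) volume 0 s := by
    refine Continuous.intervalIntegrable ?_ _ _
    refine continuous_const.div (by fun_prop) fun x => ?_
    have := abs_nonneg x
    positivity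
  rw [intervalIntegral.integral_eq_sub_of_hasDerivAt h1 h3, zero_add]

/-- the double lower integral of a square of differences is the double integral -/
theorem dbl {μ : Measure X} [IsFiniteMeasure μ] {u : X → ℝ} (hu : MemLp u 2 μ) :
    ∫⁻ P, ∫⁻ P', ENNReal.ofReal ((u P - u P') ^ 2) ∂μ ∂μ =
      ENNReal.ofReal (∫ P, ∫ P', (u P - u P') ^ 2 ∂μ ∂μ) := by
  have hu1 : Integrable u μ := hu.integrable (by norm_num)
  have hu2 : Integrable (fun P => u P ^ 2) μ := hu.integrable_sq
  have hin : ∀ P, Integrable (fun P' => (u P - u P') ^ 2) μ := by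
    intro P
    have h1 : (fun P' => (u P - u P') ^ 2) =
        fun P' => u P ^ 2 - 2 * u P * u P' + u P' ^ 2 := by
      funext P'
      ring
    rw [h1]
    exact ((integrable_const _).sub (hu1.const_mul _)).add hu2
  have hval : ∀ P, ∫ P', (u P - u P') ^ 2 ∂μ =
      μ.real univ * u P ^ 2 - 2 * (∫ P', u P' ∂μ) * u P + ∫ P', u P' ^ 2 ∂μ := by
    intro P
    have h1 : (fun P' => (u P - u P') ^ 2) =
        fun P' => u P ^ 2 - 2 * u P * u P' + u P' ^ 2 := by
      funext P'
      ring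
    have h2 : Integrable (fun P' => u P ^ 2 - 2 * u P * u P') μ :=
      (integrable_const _).sub (hu1.const_mul _)
    rw [h1, integral_add h2 hu2,
      integral_sub (integrable_const _) (hu1.const_mul _), integral_const,
      integral_const_mul, smul_eq_mul]
    ring
  have hout : Integrable (fun P => ∫ P', (u P - u P') ^ 2 ∂μ) μ := by
    simp_rw [hval]
    exact ((hu2.const_mul _).sub (hu1.const_mul _)).add (integrable_const _)
  rw [ofReal_integral_eq_lintegral_ofReal hout
    (Eventually.of_forall fun P => integral_nonneg fun P' => sq_nonneg _)]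
  refine lintegral_congr fun P => ?_
  rw [ofReal_integral_eq_lintegral_ofReal (hin P) (Eventually.of_forall fun P' => sq_nonneg _)]

/-- the local dichotomy -/
theorem local_dich (h_LOG : T_LOG) (h_DIC : T_DIC) (h_BCH : T_BCH) (h_BOX : T_BOX)
    {q : X → ℝ} {G : Set X} {L : ℝ} {f : X → ℝ} {F : Fin 3 → X → ℝ} (hm : Mz q G L f F)
    (hf0 : ∀ᵐ P, 0 ≤ f P) {P₀ : X} (hP₀ : P₀ ∈ G) :
    ∃ r : ℝ, 0 < r ∧ ((∀ᵐ Q, Q ∈ ball P₀ r → f Q = 0) ∨ (∀ᵐ Q, Q ∈ ball P₀ r → 0 < f Q)) := by
  have hG := hm.adm.isOpen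
  obtain ⟨r0, hr0, hsub⟩ := Metric.nhds_basis_closedBall.mem_iff.1 (hG.mem_nhds hP₀)
  have hr0' : (0 : ℝ) < r0 := hr0
  obtain ⟨l, hl⟩ : ∃ l : ℝ, l = r0 / 4 := ⟨_, rfl⟩
  have hl0 : 0 < l := by linarith
  let b : ContDiffBump P₀ := ⟨2 * l, r0, by linarith, by linarith⟩
  have hbT : Test G (b : X → ℝ) := by
    refine ⟨b.contDiff, b.hasCompactSupport, ?_⟩
    rw [b.tsupport_eq]
    exact hsub
  have hb1 : ∀ P ∈ cube P₀ l, b P = 1 := fun P hP => b.one_of_mem_closedBall (cube_sub hP)
  obtain ⟨C, hC⟩ := h_LOG q G L f F hm hf0 b hbT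
  have hQm : MeasurableSet (cube P₀ l) := (cube_open P₀ l).measurableSet
  have hQf : volume (cube P₀ l) ≠ ⊤ :=
    ((measure_mono cube_sub).trans_lt (isCompact_closedBall P₀ (2 * l)).measure_lt_top).ne
  have : IsFiniteMeasure ((volume : Measure X).restrict (cube P₀ l)) :=
    ⟨by rw [Measure.restrict_apply_univ]; exact hQf.lt_top⟩
  have key : ∀ ε : ℝ, 0 < ε → dlog f (cube P₀ l) ε ≤ ENNReal.ofReal (96 * l ^ 5 * C) := by
    intro ε hε
    obtain ⟨hint, hle⟩ := hC ε hε
    have hη0 : ∀ s : ℝ, 0 < |s| + ε := fun s => by have := abs_nonneg s; positivity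
    have hH := h_BCH X (Fin 3) e3 G f F (fun t => 1 / (|t| + ε)) (1 / ε) hG hm.h
      (by fun_prop) (fun s => by
        rw [abs_of_pos (one_div_pos.2 (hη0 s))]
        exact one_div_le_one_div_of_le hε (by linarith [abs_nonneg s]))
    obtain ⟨u, hu⟩ : ∃ u : X → ℝ, u = fun P => ∫ t in (0 : ℝ)..(f P), 1 / (|t| + ε) := ⟨_, rfl⟩
    rw [← hu] at hH
    have hbox := h_BOX G u (fun i P => 1 / (|f P| + ε) * F i P) P₀ l hl0 hH
    have hulog : ∀ᵐ P, u P = Real.log (f P + ε) - Real.log ε := by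
      filter_upwards [hf0] with P hP
      rw [hu]
      exact prim hε hP
    have hd : dlog f (cube P₀ l) ε = ∫⁻ P in cube P₀ l, ∫⁻ P' in cube P₀ l,
        ENNReal.ofReal ((u P - u P') ^ 2) := by
      unfold dlog
      refine lintegral_congr_ae ?_
      filter_upwards [ae_restrict_of_ae hulog] with P hP
      refine lintegral_congr_ae ?_
      filter_upwards [ae_restrict_of_ae hulog] with P' hP'
      rw [hP, hP']
      congr 2
      ring
    rw [hd, dbl (hH.1.restrict _)]
    refine ENNReal.ofReal_le_ofReal (hbox.trans ?_)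
    refine mul_le_mul_of_nonneg_left ?_ (by positivity)
    refine le_trans ?_ hle
    have h1 : ∫ P in cube P₀ l, ∑ i, (1 / (|f P| + ε) * F i P) ^ 2 =
        ∫ P in cube P₀ l, b P ^ 2 * ∑ i : Fin 3, F i P ^ 2 / (f P + ε) ^ 2 := by
      refine setIntegral_congr_ae hQm ?_
      filter_upwards [hf0] with P hP hPQ
      rw [hb1 P hPQ, abs_of_nonneg hP, one_pow, one_mul]
      refine Finset.sum_congr rfl fun i _ => ?_
      rw [mul_pow, div_pow, one_pow]
      ring
    rw [h1]
    exact setIntegral_le_integral hint (Eventually.of_forall fun P => by positivity)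
  have hmeas : AEMeasurable f volume := hm.h.1.1.aemeasurable
  refine ⟨l, hl0, ?_⟩
  rcases h_DIC f (cube P₀ l) _ hmeas hQm hQf (hf0.mono fun P hP _ => hP) ENNReal.ofReal_ne_top key
    with h | h
  · left
    filter_upwards [h] with P hP hPb
    exact hP (ball_sub hPb)
  · right
    filter_upwards [h] with P hP hPb
    exact hP (ball_sub hPb)

end POS_

open POS_ in
/-- POS -/
theorem p_POS (h_LOG : T_LOG) (h_DIC : T_DIC) (h_LGL : T_LGL) (h_BCH : T_BCH) (h_BOX : T_BOX)
    (h_ZRO : T_ZRO) : T_POS := by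
  intro q G L f F hm hc hf0 hne
  rcases h_LGL f G hm.adm.isOpen hc
    (fun P hP => local_dich h_LOG h_DIC h_BCH h_BOX hm hf0 hP) with h | h
  · exfalso
    apply hne
    have h1 : ∀ᵐ P, f P ^ 2 = 0 := by
      filter_upwards [h, h_ZRO X (Fin 3) e3 G f F hm.h] with P h2 h3
      by_cases hP : P ∈ G
      · rw [h2 hP]; norm_num
      · rw [(h3 hP).1]; norm_num
    rw [integral_congr_ae h1, integral_zero]
  · exact h

end MGS

end
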