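import Pool.Agent.MGS.TA

/-!
# MGS: product of two bounded functions
-/

set_option autoImplicit false

open MeasureTheory Filter Topology Metric Set
open scoped ENNReal NNReal ContDiff

noncomputable section

namespace MGS

namespace PRB_

/-- truncation -/
def tr (M s : ℝ) : ℝ := max (-M) (min s M)

lemma tr_lip (M : ℝ) : LipschitzWith 1 (tr M) := by
  unfold tr
  have h1 : LipschitzWith 1 (fun s : ℝ => min s M) := by
    have := (LipschitzWith.id (α := ℝ)).min_const M
    exact this
  exact h1.const_max (-M)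

lemma abs_tr_sub (M s t : ℝ) : |tr M s - tr M t| ≤ |s - t| := by
  have := (tr_lip M).dist_le_mul s t
  simpa [Real.dist_eq] using this

lemma tr_eq {M s : ℝ} (h : |s| ≤ M) : tr M s = s := by
  unfold tr
  rw [abs_le] at h
  rw [min_eq_left h.2, max_eq_right h.1]

lemma abs_tr {M : ℝ} (hM : 0 ≤ M) (s : ℝ) : |tr M s| ≤ M := by
  unfold tr
  rw [abs_le]
  refine ⟨le_max_left _ _, max_le (by linarith) (min_le_right _ _)⟩

lemma tr_zero {M : ℝ} (hM : 0 ≤ M) : tr M 0 = 0 := tr_eq (by simpa using hM)

lemma tr_top {M s : ℝ} (hM : 0 ≤ M) (h : M ≤ s) : tr M s = M := by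
  unfold tr
  rw [min_eq_right h, max_eq_right (by linarith)]

lemma tr_bot {M s : ℝ} (hM : 0 ≤ M) (h : s ≤ -M) : tr M s = -M := by
  unfold tr
  rw [min_eq_left (by linarith), max_eq_left h]

/-- dominated convergence in `L²` -/
lemma dct {α : Type} [MeasurableSpace α] {μ : Measure α} {u : ℕ → α → ℝ} {w : α → ℝ}
    (hu : ∀ n, AEStronglyMeasurable (u n) μ) (hw : MemLp w 2 μ)
    (hb : ∀ n, ∀ᵐ P ∂μ, ‖u n P‖ ≤ ‖w P‖)
    (ht : ∀ᵐ P ∂μ, Tendsto (fun n => u n P) atTop (𝓝 0)) :
    Tendsto (fun n => eLpNorm (u n) 2 μ) atTop (𝓝 0) := by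
  have h1 : ∀ v : α → ℝ, eLpNorm v 2 μ = (∫⁻ P, ‖v P‖ₑ ^ (2 : ℝ) ∂μ) ^ (1 / (2 : ℝ)) := by
    intro v
    rw [eLpNorm_eq_lintegral_rpow_enorm_toReal (by norm_num) (by norm_num)]
    norm_num
  have h2 : Tendsto (fun n => ∫⁻ P, ‖u n P‖ₑ ^ (2 : ℝ) ∂μ) atTop
      (𝓝 (∫⁻ _, 0 ∂μ)) := by
    refine tendsto_lintegral_of_dominated_convergence' (fun P => ‖w P‖ₑ ^ (2 : ℝ)) ?_ ?_ ?_ ?_
    · intro n
      exact (hu n).enorm.pow_const _
    · intro n
      filter_upwards [hb n] with P hP
      have : ‖u n P‖ₑ ≤ ‖w P‖ₑ := enorm_le_iff_norm_le.2 hP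
      gcongr
    · have h3 := lintegral_rpow_enorm_lt_top_of_eLpNorm_lt_top (p := 2) (by norm_num)
        (by norm_num) hw.2
      simpa using h3.ne
    · filter_upwards [ht] with P hP
      have h4 : Tendsto (fun n => ‖u n P‖ₑ) atTop (𝓝 0) := by
        have := hP.enorm
        simpa using this
      have h5 := (ENNReal.continuous_rpow_const (y := (2 : ℝ))).tendsto 0
      have h6 := h5.comp h4
      rw [ENNReal.zero_rpow_of_pos (by norm_num)] at h6
      exact h6
  rw [lintegral_zero] at h2
  have h5 := (ENNReal.continuous_rpow_const (y := (1 / 2 : ℝ))).tendsto 0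
  have h6 := h5.comp h2
  rw [ENNReal.zero_rpow_of_pos (by norm_num)] at h6
  refine h6.congr fun n => ?_
  rw [h1]
  rfl

end PRB_

open PRB_ in
theorem p_PRB (h_PRL : T_PRL) : T_PRB := by
  intro E _ _ _ _ _ _ ι _ e G f g F Fg M hG hf hg hfM hgM
  set N : ℝ := |M| + 1 with hN
  have hN0 : 0 ≤ N := by positivity
  have hMN : M < N := lt_of_le_of_lt (le_abs_self M) (by rw [hN]; linarith)
  obtain ⟨ψ, hψ, t1, t2, t3, -⟩ := hg.seq
  set θ : ℕ → E → ℝ := fun n P => tr N (ψ n P) with hθ
  have hlip : ∀ n, ∃ K : ℝ≥0, LipschitzWith K (θ n) := by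
    intro n
    obtain ⟨K, hK⟩ : ∃ K : ℝ≥0, LipschitzWith K (ψ n) :=
      ContDiff.lipschitzWith_of_hasCompactSupport (hψ n).cpt (hψ n).smooth (by simp)
    exact ⟨1 * K, (tr_lip N).comp hK⟩
  have hθb : ∀ n P, |θ n P| ≤ N := fun n P => abs_tr hN0 _
  have hpd : ∀ n i P, pd e i (θ n) P = if |ψ n P| < N then pd e i (ψ n) P else 0 := by
    intro n i P
    by_cases h : |ψ n P| < N
    · rw [if_pos h]
      have hc : Continuous (fun Q => |ψ n Q|) := (hψ n).smooth.continuous.abs
      have hev : ∀ᶠ Q in 𝓝 P, |ψ n Q| < N := hc.continuousAt.eventually_lt continuousAt_const h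
      have he : θ n =ᶠ[𝓝 P] ψ n := by
        filter_upwards [hev] with Q hQ
        exact tr_eq hQ.le
      unfold pd
      rw [he.fderiv_eq]
    · rw [if_neg h]
      have h0 : fderiv ℝ (θ n) P = 0 := by
        rcases le_abs.1 (not_lt.1 h) with h1 | h1
        · have hm : IsLocalMax (θ n) P := by
            refine Eventually.of_forall fun Q => ?_
            have e1 : θ n P = N := tr_top hN0 h1
            show θ n Q ≤ θ n P
            rw [e1]
            exact (abs_le.1 (hθb n Q)).2
          exact hm.fderiv_eq_zero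
        · have hm : IsLocalMin (θ n) P := by
            refine Eventually.of_forall fun Q => ?_
            have e1 : θ n P = -N := tr_bot hN0 (by linarith)
            show θ n P ≤ θ n Q
            rw [e1]
            exact (abs_le.1 (hθb n Q)).1
          exact hm.fderiv_eq_zero
      unfold pd
      rw [h0]
      rfl
  have hH : ∀ n, H1 e G (fun P => θ n P * f P)
      (fun i P => θ n P * F i P + f P * pd e i (θ n) P) := fun n =>
    h_PRL E ι e G G f F (θ n) N hG hf (hlip n) (hθb n) (Or.inl subset_rfl)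
  have hθm : ∀ n, AEStronglyMeasurable (θ n) volume := fun n => by
    obtain ⟨K, hK⟩ := hlip n
    exact hK.continuous.aestronglyMeasurable
  have hpm : ∀ n i, AEStronglyMeasurable (pd e i (θ n)) volume := fun n i =>
    (measurable_fderiv_apply_const ℝ (θ n) (e i)).aestronglyMeasurable
  have hfN : ∀ᵐ P, ‖f P‖ ≤ N := by
    filter_upwards [hfM] with P hP
    exact hP.trans hMN.le
  have hgN : ∀ᵐ P, |g P| < N := by
    filter_upwards [hgM] with P hP
    exact hP.trans_lt hMN
  have key2 : ∀ (b u : E → ℝ), (∀ᵐ P, ‖b P‖ ≤ N) →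
      eLpNorm (fun P => b P * u P) 2 volume ≤ ENNReal.ofReal N * eLpNorm u 2 volume := by
    intro b u hb
    refine eLpNorm_le_mul_eLpNorm_of_ae_le_mul ?_ 2
    filter_upwards [hb] with P hP
    rw [norm_mul]
    gcongr
  have key3 : ∀ (u : ℕ → ℝ≥0∞), Tendsto u atTop (𝓝 0) →
      Tendsto (fun n => ENNReal.ofReal N * u n) atTop (𝓝 0) := by
    intro u hu
    have := ENNReal.Tendsto.const_mul (a := ENNReal.ofReal N) hu (Or.inr ENNReal.ofReal_ne_top)
    rwa [mul_zero] at this
  have key : ∀ (b u : E → ℝ), AEStronglyMeasurable b volume → (∀ᵐ P, ‖b P‖ ≤ N) →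
      MemLp u 2 volume → MemLp (fun P => b P * u P) 2 volume := by
    intro b u hb hc hu
    refine hu.of_le_mul (c := N) (hb.mul hu.1) ?_
    filter_upwards [hc] with P hP
    rw [norm_mul]
    gcongr
  -- convergence of the truncated functions
  have hdiff : ∀ n, ∀ᵐ P, ‖θ n P - g P‖ ≤ ‖ψ n P - g P‖ := by
    intro n
    filter_upwards [hgN] with P hP
    have h1 : g P = tr N (g P) := (tr_eq hP.le).symm
    rw [Real.norm_eq_abs, Real.norm_eq_abs]
    calc |θ n P - g P| = |tr N (ψ n P) - tr N (g P)| := by rw [← h1]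
      _ ≤ _ := abs_tr_sub _ _ _
  have s1 : Tendsto (fun n => eLpNorm (fun P => θ n P - g P) 2 volume) atTop (𝓝 0) :=
    tendsto_of_tendsto_of_tendsto_of_le_of_le tendsto_const_nhds t1 (fun _ => zero_le)
      fun n => eLpNorm_mono_ae (hdiff n)
  have s3 : ∀ᵐ P, Tendsto (fun n => θ n P) atTop (𝓝 (g P)) := by
    filter_upwards [t3, hgN] with P hP hgP
    have h1 := ((tr_lip N).continuous.tendsto (g P)).comp hP
    rw [tr_eq hgP.le] at h1
    exact h1
  have s2 : ∀ i, Tendsto (fun n => eLpNorm (fun P => pd e i (θ n) P - Fg i P) 2 volume) atTop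
      (𝓝 0) := by
    intro i
    set ind : ℕ → E → ℝ := fun n P => if |ψ n P| < N then 1 else 0 with hind
    have hindm : ∀ n, AEStronglyMeasurable (ind n) volume := by
      intro n
      refine Measurable.aestronglyMeasurable ?_
      refine Measurable.ite ?_ measurable_const measurable_const
      exact measurableSet_lt ((hψ n).smooth.continuous.abs.measurable) measurable_const
    have a1 : Tendsto (fun n => eLpNorm (fun P => (ind n P - 1) * Fg i P) 2 volume) atTop
        (𝓝 0) := by
      refine dct (w := Fg i) (fun n => ((hindm n).sub aestronglyMeasurable_const).mul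
        (hg.2.1 i).1) (hg.2.1 i) (fun n => Eventually.of_forall fun P => ?_) ?_
      · rw [norm_mul]
        have : ‖ind n P - 1‖ ≤ 1 := by
          simp only [hind]
          split_ifs <;> simp
        calc _ ≤ 1 * ‖Fg i P‖ := by gcongr
          _ = _ := one_mul _
      · filter_upwards [t3, hgN] with P hP hgP
        have hev : ∀ᶠ n in atTop, |ψ n P| < N := by
          have := hP.abs
          exact this.eventually_lt tendsto_const_nhds hgP
        refine tendsto_const_nhds.congr' ?_
        filter_upwards [hev] with n hn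
        simp [hind, hn]
    have a2 := (t2 i).add a1
    rw [add_zero] at a2
    refine tendsto_of_tendsto_of_tendsto_of_le_of_le tendsto_const_nhds a2
      (fun _ => zero_le) (fun n => ?_)
    have e1 : (fun P => pd e i (θ n) P - Fg i P) =
        (fun P => ind n P * (pd e i (ψ n) P - Fg i P)) + fun P => (ind n P - 1) * Fg i P := by
      funext P
      simp only [Pi.add_apply, hpd, hind]
      split_ifs <;> ring
    rw [e1]
    have m1 : AEStronglyMeasurable (fun P => pd e i (ψ n) P - Fg i P) volume :=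
      (((hψ n).memLp_pd i).sub (hg.2.1 i)).1
    refine (eLpNorm_add_le ((hindm n).mul m1)
      (((hindm n).sub aestronglyMeasurable_const).mul (hg.2.1 i).1) (by norm_num)).trans ?_
    refine add_le_add (eLpNorm_mono fun P => ?_) le_rfl
    show ‖ind n P * (pd e i (ψ n) P - Fg i P)‖ ≤ _
    rw [norm_mul]
    have : ‖ind n P‖ ≤ 1 := by
      simp only [hind]
      split_ifs <;> simp
    calc _ ≤ 1 * ‖pd e i (ψ n) P - Fg i P‖ := by gcongr
      _ = _ := one_mul _
  refine H1.lim (g := fun n P => θ n P * f P)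
    (Fg := fun n i P => θ n P * F i P + f P * pd e i (θ n) P) ?_ (fun i => ?_) hH ?_
    (fun i => ?_)
  · exact key f g hf.1.1 hfN hg.1
  · exact (key f (Fg i) hf.1.1 hfN (hg.2.1 i)).add
      (key g (F i) hg.1.1 (hgN.mono fun P hP => hP.le) (hf.2.1 i))
  · refine tendsto_of_tendsto_of_tendsto_of_le_of_le tendsto_const_nhds (key3 _ s1)
      (fun _ => zero_le) (fun n => ?_)
    have h3 := key2 f (fun P => θ n P - g P) hfN
    refine le_trans (le_of_eq ?_) h3
    congr 1
    funext P
    ring
  · have a1 : Tendsto (fun n => eLpNorm (fun P => (θ n P - g P) * F i P) 2 volume) atTop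
        (𝓝 0) := by
      refine dct (w := fun P => (2 * N) * F i P) (fun n => ((hθm n).sub hg.1.1).mul
        (hf.2.1 i).1) ((hf.2.1 i).const_mul _) (fun n => ?_) ?_
      · filter_upwards [hgN] with P hP
        rw [norm_mul, norm_mul]
        have h1 : ‖θ n P - g P‖ ≤ ‖2 * N‖ := by
          rw [Real.norm_eq_abs, Real.norm_eq_abs, abs_of_nonneg (by positivity : 0 ≤ 2 * N)]
          calc |θ n P - g P| ≤ |θ n P| + |g P| := abs_sub _ _
            _ ≤ N + N := add_le_add (hθb n P) hP.le
            _ = _ := by ring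
        gcongr
      · filter_upwards [s3] with P hP
        have h1 : Tendsto (fun n => (θ n P - g P) * F i P) atTop (𝓝 ((g P - g P) * F i P)) :=
          (hP.sub tendsto_const_nhds).mul tendsto_const_nhds
        simpa using h1
    have a2 := a1.add (key3 _ (s2 i))
    rw [add_zero] at a2
    refine tendsto_of_tendsto_of_tendsto_of_le_of_le tendsto_const_nhds a2
      (fun _ => zero_le) (fun n => ?_)
    have e1 : (fun P => θ n P * F i P + f P * pd e i (θ n) P - (f P * Fg i P + g P * F i P)) =
        (fun P => (θ n P - g P) * F i P) + fun P => f P * (pd e i (θ n) P - Fg i P) := by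
      funext P
      simp only [Pi.add_apply]
      ring
    rw [e1]
    refine (eLpNorm_add_le (((hθm n).sub hg.1.1).mul (hf.2.1 i).1)
      (hf.1.1.mul ((hpm n i).sub (hg.2.1 i).1)) (by norm_num)).trans ?_
    exact add_le_add le_rfl (key2 f _ hfN)

end MGS

end
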