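import Pool.Agent.MGS.TA

/-!
# MGS: product with a bounded Lipschitz function
-/

set_option autoImplicit false

open MeasureTheory Filter Topology Metric Set
open scoped ENNReal NNReal ContDiff

noncomputable section

namespace MGS

namespace PRL_

variable {E : Type} [NormedAddCommGroup E] [NormedSpace ℝ E]

lemma lip_of_test [FiniteDimensional ℝ E] {G : Set E} {φ : E → ℝ} (h : Test G φ) :
    ∃ K : ℝ≥0, LipschitzWith K φ :=
  ContDiff.lipschitzWith_of_hasCompactSupport h.cpt h.smooth (by simp)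

lemma bdd_of_test {G : Set E} {φ : E → ℝ} (h : Test G φ) : ∃ C : ℝ, ∀ P, ‖φ P‖ ≤ C := by
  have := h.cpt.exists_bound_of_continuous h.smooth.continuous
  exact this

lemma lip_mul {θ φ : E → ℝ} {K L : ℝ≥0} {M C : ℝ} (hθ : LipschitzWith K θ)
    (hφ : LipschitzWith L φ) (hM : ∀ P, |θ P| ≤ M) (hC : ∀ P, ‖φ P‖ ≤ C) :
    ∃ K' : ℝ≥0, LipschitzWith K' (fun P => θ P * φ P) := by
  have hM0 : 0 ≤ M := (abs_nonneg _).trans (hM 0)
  have hC0 : 0 ≤ C := (norm_nonneg _).trans (hC 0)
  refine ⟨Real.toNNReal (M * L + C * K), LipschitzWith.of_dist_le_mul fun x y => ?_⟩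
  rw [Real.coe_toNNReal _ (by positivity), Real.dist_eq]
  have h1 := hθ.dist_le_mul x y
  have h2 := hφ.dist_le_mul x y
  rw [Real.dist_eq] at h1 h2
  have h3 := hM x
  have h4 := hC y
  rw [Real.norm_eq_abs] at h4
  calc |θ x * φ x - θ y * φ y| = |θ x * (φ x - φ y) + (θ x - θ y) * φ y| := by ring_nf
    _ ≤ |θ x| * |φ x - φ y| + |θ x - θ y| * |φ y| := by
        rw [← abs_mul, ← abs_mul]
        exact abs_add_le _ _
    _ ≤ M * (L * dist x y) + (K * dist x y) * C := by
        gcongr
    _ = (M * L + C * K) * dist x y := by ring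

end PRL_

theorem p_PRL (h_LIP : T_LIP) : T_PRL := by
  intro E _ _ _ _ _ _ ι _ e G G' f F θ M hG h1 hθ hM hsub
  obtain ⟨K, hK⟩ := hθ
  have hθm : Measurable θ := hK.continuous.measurable
  have hpm : ∀ i, Measurable (pd e i θ) := fun i => measurable_fderiv_apply_const ℝ θ (e i)
  have hpb : ∀ i P, ‖pd e i θ P‖ ≤ K * ‖e i‖ := by
    intro i P
    refine (ContinuousLinearMap.le_opNorm _ _).trans ?_
    gcongr
    exact norm_fderiv_le_of_lipschitz ℝ hK
  have hM' : ∀ P, ‖θ P‖ ≤ M := hM
  have hd : ∀ᵐ P, DifferentiableAt ℝ θ P := hK.ae_differentiableAt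
  -- products with bounded functions
  have key : ∀ (b u : E → ℝ) (c : ℝ), Measurable b → (∀ P, ‖b P‖ ≤ c) → MemLp u 2 volume →
      MemLp (fun P => b P * u P) 2 volume := by
    intro b u c hb hc hu
    refine hu.of_le_mul (c := c) (hb.aestronglyMeasurable.mul hu.1) ?_
    refine Eventually.of_forall fun P => ?_
    rw [norm_mul]
    gcongr
    exact hc P
  have key2 : ∀ (b u : E → ℝ) (c : ℝ), (∀ P, ‖b P‖ ≤ c) →
      eLpNorm (fun P => b P * u P) 2 volume ≤ ENNReal.ofReal c * eLpNorm u 2 volume := by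
    intro b u c hc
    refine eLpNorm_le_mul_eLpNorm_of_ae_le_mul (Eventually.of_forall fun P => ?_) 2
    rw [norm_mul]
    gcongr
    exact hc P
  have key3 : ∀ (c : ℝ) (u : ℕ → ℝ≥0∞), Tendsto u atTop (𝓝 0) →
      Tendsto (fun n => ENNReal.ofReal c * u n) atTop (𝓝 0) := by
    intro c u hu
    have := ENNReal.Tendsto.const_mul (a := ENNReal.ofReal c) hu (Or.inr ENNReal.ofReal_ne_top)
    rwa [mul_zero] at this
  -- the product with a test function
  have hprod : ∀ φ : E → ℝ, Test G' φ → H1 e G (fun P => θ P * φ P)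
      (fun i P => θ P * pd e i φ P + φ P * pd e i θ P) := by
    intro φ hφ
    obtain ⟨L, hL⟩ := PRL_.lip_of_test hφ
    obtain ⟨C, hC⟩ := PRL_.bdd_of_test hφ
    have hlt : LTest G (fun P => θ P * φ P) :=
      { lip := PRL_.lip_mul hK hL hM hC
        cpt := hφ.cpt.mul_left
        sub := by
          rcases hsub with h | h
          · exact (tsupport_mul_subset_right (f := θ) (g := φ)).trans (hφ.sub.trans h)
          · exact (tsupport_mul_subset_left (f := θ) (g := φ)).trans h }
    refine (h_LIP E ι e G _ hG hlt).congr (ae_eq_refl _) fun i => ?_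
    filter_upwards [hd] with P hP
    have h2 : fderiv ℝ (fun P => θ P * φ P) P = θ P • fderiv ℝ φ P + φ P • fderiv ℝ θ P :=
      fderiv_mul hP (hφ.diff P)
    change fderiv ℝ (fun P => θ P * φ P) P (e i) = _
    rw [h2]
    rfl
  obtain ⟨φ, hφ, t1, t2, -, -⟩ := h1.seq
  refine H1.lim (g := fun n P => θ P * φ n P)
    (Fg := fun n i P => θ P * pd e i (φ n) P + φ n P * pd e i θ P) ?_ (fun i => ?_)
    (fun n => hprod _ (hφ n)) ?_ (fun i => ?_)
  · exact key θ f M hθm hM' h1.1
  · have h3 := (key θ (F i) M hθm hM' (h1.2.1 i)).add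
      (key (pd e i θ) f _ (hpm i) (hpb i) h1.1)
    refine h3.congr_norm ?_ ?_
    · exact ((hθm.aestronglyMeasurable.mul (h1.2.1 i).1).add
        (h1.1.1.mul (hpm i).aestronglyMeasurable))
    · refine Eventually.of_forall fun P => ?_
      simp only [Pi.add_apply]
      rw [mul_comm (pd e i θ P)]
  · refine tendsto_of_tendsto_of_tendsto_of_le_of_le tendsto_const_nhds (key3 M _ t1)
      (fun _ => zero_le) (fun n => ?_)
    have h3 := key2 θ (fun P => φ n P - f P) M hM'
    refine le_trans (le_of_eq ?_) h3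
    congr 1
    funext P
    ring
  · have h4 := (key3 M _ (t2 i)).add (key3 (K * ‖e i‖) _ t1)
    rw [add_zero] at h4
    refine tendsto_of_tendsto_of_tendsto_of_le_of_le tendsto_const_nhds h4
      (fun _ => zero_le) (fun n => ?_)
    have h5 := key2 θ (fun P => pd e i (φ n) P - F i P) M hM'
    have h6 := key2 (pd e i θ) (fun P => φ n P - f P) _ (hpb i)
    have e1 : (fun P => θ P * pd e i (φ n) P + φ n P * pd e i θ P -
        (θ P * F i P + f P * pd e i θ P)) =
        (fun P => θ P * (pd e i (φ n) P - F i P)) + fun P => pd e i θ P * (φ n P - f P) := by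
      funext P
      simp only [Pi.add_apply]
      ring
    rw [e1]
    refine (eLpNorm_add_le ?_ ?_ (by norm_num)).trans (add_le_add h5 h6)
    · exact (key θ _ M hθm hM' (((hφ n).memLp_pd i).sub (h1.2.1 i))).1
    · exact (key (pd e i θ) _ _ (hpm i) (hpb i) ((hφ n).memLp.sub h1.1)).1

end MGS

end
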