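import Pool.Agent.MGS.TA

/-!
# MGS: target PRT, product with a bounded function (helper97)
-/

set_option autoImplicit false

open MeasureTheory Filter Topology Metric Set
open scoped ENNReal NNReal ContDiff

noncomputable section

namespace MGS

namespace PRT_

/-- the indicator function of `(-k, k)` -/
def ic (k : ℝ) : ℝ → ℝ := (Ioo (-k) k).indicator fun _ => 1

lemma ic_meas (k : ℝ) : Measurable (ic k) := measurable_const.indicator measurableSet_Ioo

lemma ic_abs (k s : ℝ) : |ic k s| ≤ 1 := by
  unfold ic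
  by_cases h : s ∈ Ioo (-k) k
  · rw [indicator_of_mem h, abs_one]
  · rw [indicator_of_notMem h, abs_zero]
    exact zero_le_one

lemma ic_one {k s : ℝ} (h : |s| < k) : ic k s = 1 := by
  unfold ic
  rw [indicator_of_mem]
  exact abs_lt.1 h

lemma ic_zero {k s : ℝ} (h : k ≤ |s|) : ic k s = 0 := by
  unfold ic
  rw [indicator_of_notMem]
  exact fun h1 => absurd (abs_lt.2 h1) (not_lt.2 h)

lemma ic_int (k a b : ℝ) : IntervalIntegrable (ic k) volume a b := by
  refine Integrable.intervalIntegrable ?_
  unfold ic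
  rw [integrable_indicator_iff measurableSet_Ioo]
  exact integrableOn_const (by simp) (by simp)

/-- the truncation at `± k` -/
def ck (k s : ℝ) : ℝ := ∫ t in (0 : ℝ)..s, ic k t

lemma ck_eq {k s : ℝ} (h : |s| < k) : ck k s = s := by
  have h1 : ck k s = ∫ _ in (0 : ℝ)..s, (1 : ℝ) := by
    unfold ck
    refine intervalIntegral.integral_congr fun t ht => ?_
    refine ic_one (lt_of_le_of_lt ?_ h)
    have h2 := abs_sub_left_of_mem_uIcc ht
    simpa using h2
  rw [h1]
  simp

lemma ck_abs (k s : ℝ) : |ck k s| ≤ |s| := by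
  have h := intervalIntegral.norm_integral_le_of_norm_le_const (f := ic k) (a := 0) (b := s)
    (C := 1) fun t _ => ic_abs k t
  simpa [ck, Real.norm_eq_abs] using h

lemma ck_le {k : ℝ} (hk : 0 ≤ k) (s : ℝ) : |ck k s| ≤ k := by
  rcases lt_or_ge |s| k with h | h
  · exact (ck_abs k s).trans h.le
  · rcases le_abs.1 h with h1 | h1
    · have h2 : ck k s = ck k k := by
        unfold ck
        rw [← intervalIntegral.integral_add_adjacent_intervals (ic_int k 0 k) (ic_int k k s)]
        have h3 : ∫ t in k..s, ic k t = ∫ _ in k..s, (0 : ℝ) := by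
          refine intervalIntegral.integral_congr fun t ht => ?_
          rw [uIcc_of_le h1] at ht
          exact ic_zero (ht.1.trans (le_abs_self t))
        rw [h3]
        simp
      rw [h2]
      exact (ck_abs k k).trans (abs_of_nonneg hk).le
    · have h2 : ck k s = ck k (-k) := by
        unfold ck
        rw [← intervalIntegral.integral_add_adjacent_intervals (ic_int k 0 (-k))
          (ic_int k (-k) s)]
        have h3 : ∫ t in (-k)..s, ic k t = ∫ _ in (-k)..s, (0 : ℝ) := by
          refine intervalIntegral.integral_congr fun t ht => ?_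
          rw [uIcc_of_ge (by linarith)] at ht
          exact ic_zero (le_trans (by linarith [ht.2]) (neg_le_abs t))
        rw [h3]
        simp
      rw [h2]
      refine (ck_abs k (-k)).trans ?_
      rw [abs_neg, abs_of_nonneg hk]

/-- dominated convergence in `L²` -/
lemma dct {α : Type} [MeasurableSpace α] {μ : Measure α} {u : ℕ → α → ℝ} {w : α → ℝ}
    (hu : ∀ n, AEStronglyMeasurable (u n) μ) (hw : MemLp w 2 μ)
    (hb : ∀ n, ∀ᵐ P ∂μ, ‖u n P‖ ≤ ‖w P‖)
    (ht : ∀ᵐ P ∂μ, Tendsto (fun n => u n P) atTop (𝓝 0)) :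
    Tendsto (fun n => eLpNorm (u n) 2 μ) atTop (𝓝 0) := by
  have h1 : ∀ v : α → ℝ, eLpNorm v 2 μ = (∫⁻ P, ‖v P‖ₑ ^ (2 : ℝ) ∂μ) ^ (1 / (2 : ℝ)) := by
    intro v
    rw [eLpNorm_eq_lintegral_rpow_enorm_toReal (by norm_num) (by norm_num)]
    norm_num
  have h2 : Tendsto (fun n => ∫⁻ P, ‖u n P‖ₑ ^ (2 : ℝ) ∂μ) atTop
      (𝓝 (∫⁻ _, 0 ∂μ)) := by
    refine tendsto_lintegral_of_dominated_convergence' (fun P => ‖w P‖ₑ ^ (2 : ℝ)) ?_ ?_ ?_ ?_
    · intro n
      exact (hu n).enorm.pow_const _
    · intro n
      filter_upwards [hb n] with P hP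
      have : ‖u n P‖ₑ ≤ ‖w P‖ₑ := enorm_le_iff_norm_le.2 hP
      gcongr
    · have h3 := lintegral_rpow_enorm_lt_top_of_eLpNorm_lt_top (p := 2) (by norm_num)
        (by norm_num) hw.2
      simpa using h3.ne
    · filter_upwards [ht] with P hP
      have h4 : Tendsto (fun n => ‖u n P‖ₑ) atTop (𝓝 0) := by
        have := hP.enorm
        simpa using this
      have h5 := (ENNReal.continuous_rpow_const (y := (2 : ℝ))).tendsto 0
      have h6 := h5.comp h4
      rw [ENNReal.zero_rpow_of_pos (by norm_num)] at h6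
      exact h6
  rw [lintegral_zero] at h2
  have h5 := (ENNReal.continuous_rpow_const (y := (1 / 2 : ℝ))).tendsto 0
  have h6 := h5.comp h2
  rw [ENNReal.zero_rpow_of_pos (by norm_num)] at h6
  refine h6.congr fun n => ?_
  rw [h1]
  rfl

lemma ev_lt (s : ℝ) : ∀ᶠ n : ℕ in atTop, |s| < (n : ℝ) := by
  obtain ⟨N, hN⟩ := exists_nat_gt |s|
  filter_upwards [eventually_ge_atTop N] with n hn
  exact hN.trans_le (by exact_mod_cast hn)

end PRT_

open PRT_ in
theorem p_PRT (h_BCH : T_BCH) (h_PRB : T_PRB) : T_PRT := by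
  intro E _ _ _ _ _ _ ι _ e G f g F Fg M hG hf hg hgM hfg
  have hB : ∀ n : ℕ, H1 e G (fun P => ck n (f P)) (fun i P => ic n (f P) * F i P) := fun n =>
    h_BCH E ι e G f F (ic n) 1 hG hf (ic_meas n) (ic_abs n)
  have hH : ∀ n : ℕ, H1 e G (fun P => ck n (f P) * g P)
      (fun i P => ck n (f P) * Fg i P + g P * (ic n (f P) * F i P)) := fun n =>
    h_PRB E ι e G (fun P => ck n (f P)) g (fun i P => ic n (f P) * F i P) Fg (max n M) hG
      (hB n) hg
      (Eventually.of_forall fun P => (ck_le (Nat.cast_nonneg n) _).trans (le_max_left _ _))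
      (hgM.mono fun P hP => hP.trans (le_max_right _ _))
  have hgM' : ∀ᵐ P, ‖g P‖ ≤ |M| := hgM.mono fun P hP => hP.trans (le_abs_self M)
  have key : ∀ u : E → ℝ, MemLp u 2 volume → MemLp (fun P => g P * u P) 2 volume := by
    intro u hu
    refine hu.of_le_mul (c := |M|) (hg.1.1.mul hu.1) ?_
    filter_upwards [hgM'] with P hP
    rw [norm_mul]
    gcongr
  have hcm : ∀ n : ℕ, AEStronglyMeasurable (fun P => ck n (f P)) volume := fun n => (hB n).1.1
  have him : ∀ n : ℕ, AEStronglyMeasurable (fun P => ic n (f P)) volume := fun n =>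
    ((ic_meas n).comp_aemeasurable hf.1.1.aemeasurable).aestronglyMeasurable
  have hd : ∀ (n : ℕ) (s : ℝ), ‖ck n s - s‖ ≤ 2 * ‖s‖ := by
    intro n s
    calc ‖ck n s - s‖ ≤ ‖ck n s‖ + ‖s‖ := norm_sub_le _ _
      _ ≤ ‖s‖ + ‖s‖ := by
          have := ck_abs n s
          rw [Real.norm_eq_abs, Real.norm_eq_abs]
          gcongr
      _ = _ := by ring
  refine H1.lim (g := fun n P => ck n (f P) * g P)
    (Fg := fun n i P => ck n (f P) * Fg i P + g P * (ic n (f P) * F i P)) ?_ (fun i => ?_) hH ?_
    (fun i => ?_)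
  · have := key f hf.1
    refine (memLp_congr_ae (Eventually.of_forall fun P => ?_)).1 this
    exact mul_comm _ _
  · exact (hfg i).add (key (F i) (hf.2.1 i))
  · refine dct (w := fun P => 2 * (g P * f P)) (fun n => ?_) ((key f hf.1).const_mul 2)
      (fun n => Eventually.of_forall fun P => ?_) (Eventually.of_forall fun P => ?_)
    · exact ((hcm n).mul hg.1.1).sub (hf.1.1.mul hg.1.1)
    · have h1 : ck n (f P) * g P - f P * g P = (ck n (f P) - f P) * g P := by ring
      rw [h1, norm_mul, norm_mul, norm_mul, Real.norm_two]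
      calc _ ≤ (2 * ‖f P‖) * ‖g P‖ := by
            have := hd n (f P)
            gcongr
        _ = _ := by ring
    · refine tendsto_const_nhds.congr' ?_
      filter_upwards [ev_lt (f P)] with n hn
      rw [ck_eq hn, sub_self]
  · have a1 : Tendsto (fun n : ℕ => eLpNorm (fun P => (ck n (f P) - f P) * Fg i P) 2 volume)
        atTop (𝓝 0) := by
      refine dct (w := fun P => 2 * (f P * Fg i P)) (fun n => ?_) ((hfg i).const_mul 2)
        (fun n => Eventually.of_forall fun P => ?_) (Eventually.of_forall fun P => ?_)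
      · exact ((hcm n).sub hf.1.1).mul (hg.2.1 i).1
      · rw [norm_mul, norm_mul, norm_mul, Real.norm_two]
        calc _ ≤ (2 * ‖f P‖) * ‖Fg i P‖ := by
              have := hd n (f P)
              gcongr
          _ = _ := by ring
      · refine tendsto_const_nhds.congr' ?_
        filter_upwards [ev_lt (f P)] with n hn
        rw [ck_eq hn, sub_self, zero_mul]
    have a2 : Tendsto (fun n : ℕ => eLpNorm (fun P => g P * ((ic n (f P) - 1) * F i P)) 2 volume)
        atTop (𝓝 0) := by
      refine dct (w := fun P => g P * F i P) (fun n => ?_) (key (F i) (hf.2.1 i))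
        (fun n => Eventually.of_forall fun P => ?_) (Eventually.of_forall fun P => ?_)
      · exact hg.1.1.mul (((him n).sub aestronglyMeasurable_const).mul (hf.2.1 i).1)
      · rw [norm_mul, norm_mul, norm_mul]
        have : ‖ic n (f P) - 1‖ ≤ 1 := by
          rcases lt_or_ge |f P| (n : ℝ) with h | h
          · rw [ic_one h]
            simp
          · rw [ic_zero h]
            simp
        calc _ ≤ ‖g P‖ * (1 * ‖F i P‖) := by gcongr
          _ = _ := by ring
      · refine tendsto_const_nhds.congr' ?_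
        filter_upwards [ev_lt (f P)] with n hn
        rw [ic_one hn, sub_self, zero_mul, mul_zero]
    have a3 := a1.add a2
    rw [add_zero] at a3
    refine tendsto_of_tendsto_of_tendsto_of_le_of_le tendsto_const_nhds a3
      (fun _ => zero_le) (fun n => ?_)
    have e1 : (fun P => ck n (f P) * Fg i P + g P * (ic n (f P) * F i P) -
        (f P * Fg i P + g P * F i P)) =
        (fun P => (ck n (f P) - f P) * Fg i P) + fun P => g P * ((ic n (f P) - 1) * F i P) := by
      funext P
      simp only [Pi.add_apply]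
      ring
    rw [e1]
    exact eLpNorm_add_le (((hcm n).sub hf.1.1).mul (hg.2.1 i).1)
      (hg.1.1.mul (((him n).sub aestronglyMeasurable_const).mul (hf.2.1 i).1)) (by norm_num)

end MGS

end
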