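import Pool.Agent.MGS.TD

/-!
# MGS: target PSL, the Polya-Szego inequality in the plane (helper97)
-/

set_option autoImplicit false

open MeasureTheory Filter Topology Metric Set
open scoped ENNReal NNReal ContDiff

noncomputable section

namespace MGS

namespace PSL_

lemma md_zero {R : ℝ} {f : ℂ → ℝ} (hf : Nc R f) : md f (fun _ => 0) = f := by
  funext x
  unfold md
  simp only [ne_eq, OfNat.ofNat_ne_zero, not_false_eq_true, zero_pow, add_zero]
  exact Real.sqrt_sq (hf.nn x)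

lemma eq2_zero (f : ℂ → ℝ) (F : Fin 2 → ℂ → ℝ) (x : ℂ) :
    eq2 0 f (fun _ => 0) F (fun _ _ => 0) x = F 0 x ^ 2 + F 1 x ^ 2 := by
  unfold eq2 Aq
  rw [Fin.sum_univ_two]
  simp

lemma gn_sq (G : Fin 2 → ℂ → ℝ) (x : ℂ) : gn G x ^ 2 = G 0 x ^ 2 + G 1 x ^ 2 := by
  unfold gn
  exact Real.sq_sqrt (by positivity)

lemma int_sq {F : Fin 2 → ℂ → ℝ} (hF : ∀ i, MemLp (F i) 2 volume) :
    Integrable fun x => F 0 x ^ 2 + F 1 x ^ 2 :=
  (hF 0).integrable_sq.add (hF 1).integrable_sq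

end PSL_

open PSL_ in
theorem p_PSL (h_SLC : T_SLC) (h_ALG : T_ALG) (h_RDT : T_RDT) : T_PSL := by
  intro R f F G hF hN hG
  -- measurable representatives
  set F' : Fin 2 → ℂ → ℝ := fun i => (hF.2.1 i).1.mk (F i) with hF'
  set G' : Fin 2 → ℂ → ℝ := fun i => (hG.2.1 i).1.mk (G i) with hG'
  have eF : ∀ i, F i =ᵐ[volume] F' i := fun i => (hF.2.1 i).1.ae_eq_mk
  have eG : ∀ i, G i =ᵐ[volume] G' i := fun i => (hG.2.1 i).1.ae_eq_mk
  have mF : ∀ i, Measurable (F' i) := fun i => (hF.2.1 i).1.stronglyMeasurable_mk.measurable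
  have mG : ∀ i, Measurable (G' i) := fun i => (hG.2.1 i).1.stronglyMeasurable_mk.measurable
  have hFH : H1 e2 (ball 0 R) f F' := hF.congr (ae_eq_refl _) eF
  have hGH : H1 e2 (ball 0 R) (fun x => rr f ‖x‖) G' := hG.congr (ae_eq_refl _) eG
  obtain ⟨T, mT, nT, hT⟩ := h_RDT (ball 0 R) (fun x => rr f ‖x‖) G' (rr f) hGH mG fun _ => rfl
  have hmd : md f (fun _ => 0) = f := md_zero hN
  have hTi : Integrable fun x : ℂ => T ‖x‖ ^ 2 := by
    refine (int_sq hGH.2.1).congr ?_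
    filter_upwards [hT] with x hx
    rw [← hx, gn_sq]
  obtain ⟨i1, i2, h3⟩ := h_SLC 0 R f (fun _ => 0) F' (fun _ _ => 0) G' (fun _ => 0) T le_rfl hFH
    H1.zero hN.m measurable_const mF (fun _ => measurable_const) (by rwa [hmd])
    (by rwa [hmd]) mG measurable_const mT (fun _ => ⟨le_rfl, zero_le_one⟩) nT hTi
  have hl : ∫ x, (G' 0 x ^ 2 + G' 1 x ^ 2) ≤
      ∫ x, Zc 0 (fun x => rr (md f fun _ => 0) ‖x‖) G' (fun _ => 0) T x := by
    refine integral_mono_ae (int_sq hGH.2.1) i2 ?_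
    filter_upwards [hT] with x hx
    show G' 0 x ^ 2 + G' 1 x ^ 2 ≤ Zc 0 (fun x => rr (md f fun _ => 0) ‖x‖) G' (fun _ => 0) T x
    rw [← gn_sq]
    unfold Zc
    rw [← hx]
    split_ifs
    · nlinarith [sq_nonneg (gn G' x)]
    · nlinarith [sq_nonneg (gn G' x)]
  have hr : ∫ x, Yc 0 f (fun _ => 0) F' (fun _ _ => 0) (fun _ => 0) T x ≤
      ∫ x, (F' 0 x ^ 2 + F' 1 x ^ 2) := by
    refine integral_mono i1 (int_sq hFH.2.1) fun x => ?_
    show Yc 0 f (fun _ => 0) F' (fun _ _ => 0) (fun _ => 0) T x ≤ F' 0 x ^ 2 + F' 1 x ^ 2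
    unfold Yc
    split_ifs with h
    · have h4 := ((h_ALG 0 f (fun _ => 0) F' (fun _ _ => 0) x h.1).2.2 0
        (T (rad (md f fun _ => 0) (md f (fun _ => 0) x))) le_rfl zero_le_one (nT _)).1
      rw [eq2_zero] at h4
      exact h4
    · positivity
  have e1 : ∫ x, (G 0 x ^ 2 + G 1 x ^ 2) = ∫ x, (G' 0 x ^ 2 + G' 1 x ^ 2) := by
    refine integral_congr_ae ?_
    filter_upwards [eG 0, eG 1] with x h0 h1
    rw [h0, h1]
  have e2' : ∫ x, (F 0 x ^ 2 + F 1 x ^ 2) = ∫ x, (F' 0 x ^ 2 + F' 1 x ^ 2) := by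
    refine integral_congr_ae ?_
    filter_upwards [eF 0, eF 1] with x h0 h1
    rw [h0, h1]
  rw [e1, e2']
  exact hl.trans (h3.trans hr)

end MGS

end
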