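import Pool.Agent.MGS.TB

/-!
# MGS: RDE (the data of the radial ground state)
-/

set_option autoImplicit false

open MeasureTheory Filter Topology Metric Set
open scoped ENNReal NNReal ContDiff

noncomputable section

namespace MGS

namespace RDE_

theorem ar_le {g : ℂ → ℝ} {s r : ℝ} (hr : 0 ≤ r) (h : ∀ y, s < g y → ‖y‖ < r) :
    ar g s ≤ Real.pi * r ^ 2 := by
  unfold ar
  have h1 : {x : ℂ | s < g x} ⊆ ball 0 r := by
    intro y hy
    rw [mem_ball_zero_iff]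
    exact h y hy
  have h2 : volume {x : ℂ | s < g x} ≤ volume (ball (0 : ℂ) r) := measure_mono h1
  have h3 : volume (ball (0 : ℂ) r) ≠ ⊤ := measure_ball_lt_top.ne
  refine (ENNReal.toReal_mono h3 h2).trans ?_
  rw [Complex.volume_ball]
  rw [ENNReal.toReal_mul, ENNReal.toReal_pow, ENNReal.toReal_ofReal hr]
  simp
  rw [mul_comm]

theorem sh_norm {P : X} {h : ℝ} (hP : 0 < P.1.re) (hh : 0 < h) :
    ‖P.1‖ ^ 2 ≤ ‖(sh h P).1‖ ^ 2 := by
  unfold sh
  simp only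
  rw [← Complex.normSq_eq_norm_sq, ← Complex.normSq_eq_norm_sq, Complex.normSq_apply,
    Complex.normSq_apply]
  simp
  nlinarith

theorem vs_out {G : Set X} (hG : Star G) {v : X → ℝ} (hv : ∀ P, P ∉ G → v P = 0) {P : X}
    (hP : P ∉ G) : vs v P = 0 := by
  unfold vs rr
  have h : {s : ℝ | 0 ≤ s ∧ Real.pi * ‖P.1‖ ^ 2 < ar (sl v P.2) s} = ∅ := by
    refine Set.eq_empty_of_forall_notMem fun s hs => ?_
    refine absurd hs.2 (not_lt.2 (ar_le (norm_nonneg _) fun y hy => ?_))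
    by_contra hc
    have h1 : (y, P.2) ∈ G := by
      by_contra h2
      have h3 : sl v P.2 y = 0 := hv _ h2
      rw [h3] at hy
      exact absurd hs.1 (not_le.2 hy)
    exact hP (hG.star _ h1 P.1 (not_lt.1 hc))
  rw [h, Real.sSup_empty]

end RDE_

open RDE_ in
theorem p_RDE (h_EXR : T_EXR) (h_LEB : T_LEB) (h_RRD : T_RRD) (h_RFR : T_RFR) (h_INV : T_INV)
    (h_MON : T_MON) (h_DQI : T_DQI) (h_WEX : T_WEX) (h_GPO : T_GPO) : T_RDE := by
  intro B G hB hG
  obtain ⟨⟨v₀, F, hgs⟩, -⟩ := h_EXR B G hG.isOpen hG.bounded hG.nonempty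
  obtain ⟨R, hR⟩ := hG.bounded.subset_ball (0 : X)
  have hN : Nx R v₀ := by
    refine ⟨hgs.mv, hgs.nn, fun P hP => (hgs.zero P fun h => ?_).1⟩
    have h1 := hR h
    rw [mem_ball_zero_iff] at h1
    exact absurd h1 (not_lt.2 hP)
  have hinv := (h_INV B G v₀ F hG hgs).1
  have hw := (h_WEX B G v₀ F hG.isOpen hG.bounded hgs.h).1.mono (subset_univ G)
  have hmon := h_MON B G v₀ F hB hG hgs
  have hdec : ∀ h : ℝ, 0 < h → ∀ᵐ P : X, 0 < P.1.re → v₀ (sh h P) ≤ v₀ P := by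
    intro h hh
    filter_upwards [h_DQI (ww B v₀) (wF B v₀ F) 0 h hw hh.le hmon] with P hP hPr
    have h1 := hP hPr
    unfold ww at h1
    have h2 := sh_norm hPr hh
    have h3 : Real.exp (B / 4 * ‖P.1‖ ^ 2) ≤ Real.exp (B / 4 * ‖(sh h P).1‖ ^ 2) :=
      Real.exp_le_exp.2 (mul_le_mul_of_nonneg_left h2 (by positivity))
    have h4 := mul_le_mul_of_nonneg_right h3 (hgs.nn (sh h P))
    exact le_of_mul_le_mul_left (h4.trans h1) (Real.exp_pos _)
  obtain ⟨S, hS, hS0, hSm⟩ := h_LEB v₀ hgs.h.memLp (fun w hw => by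
    filter_upwards [hinv w hw] with P hP using hP.1) hdec
  obtain ⟨hae, hVm, hVa, hV0⟩ := h_RRD R v₀ S hN hS hS0 hSm
  obtain ⟨T, hT, hT0, hTe, hTp⟩ := h_RFR B G v₀ F hB hG hgs
  have hmv : Measurable (vs v₀) := by
    have h1 : Measurable fun P : X => (‖P.1‖, P.2) := measurable_fst.norm.prodMk measurable_snd
    exact hVm.comp h1
  have hgs' : GS B G (vs v₀) F := by
    refine ⟨hmv, hgs.mF, hgs.h.congr hae fun i => ae_eq_refl _, fun P => hV0 _ _, ?_, ?_, ?_⟩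
    · intro P hP
      exact ⟨vs_out hG (fun P hP => (hgs.zero P hP).1) hP, (hgs.zero P hP).2⟩
    · rw [← hgs.nrm]
      refine integral_congr_ae ?_
      filter_upwards [hae] with P hP
      rw [hP]
    · rw [← hgs.eq]
      unfold ER
      refine integral_congr_ae ?_
      filter_upwards [hae] with P hP
      rw [hP]
  refine ⟨vs v₀, F, fun r z => rr (sl v₀ z) r, T, ⟨hgs', hVm, hT, fun r z => hV0 r z, hT0, hVa,
    fun P => rfl, hTe, ?_⟩⟩
  filter_upwards [hae, hTp, h_GPO B G v₀ F hG hgs] with P h1 h2 h3 hP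
  have h4 : rr (sl v₀ P.2) ‖P.1‖ = v₀ P := h1.symm
  rw [h4]
  exact ⟨h3 hP, h2 hP⟩

end MGS
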