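import Pool.Agent.MGS.TC
import Pool.Agent.MGS.P_IBH

/-!
# MGS: target RDG (the gradient of a radial nonincreasing function)
-/

set_option autoImplicit false

open MeasureTheory Filter Topology Metric Set
open scoped ENNReal NNReal ContDiff

noncomputable section

namespace MGS

namespace RDG_

/-- a locally integrable function whose integral against nonnegative test functions is
nonpositive is nonpositive almost everywhere -/
lemma ae_nonpos {g : ℂ → ℝ} (hg : LocallyIntegrable g volume)
    (h : ∀ η : ℂ → ℝ, Test univ η → (∀ x, 0 ≤ η x) → ∫ x, η x * g x ≤ 0) :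
    ∀ᵐ x, g x ≤ 0 := by
  have hp : ∀ n : ℕ, (0 : ℝ) < 1 / ((n : ℝ) + 1) := fun n => by positivity
  let φ : ℕ → ContDiffBump (0 : ℂ) := fun n =>
    ⟨1 / ((n : ℝ) + 1), 2 * (1 / ((n : ℝ) + 1)), hp n, by linarith [hp n]⟩
  have h1 : Tendsto (fun n => (φ n).rOut) atTop (𝓝 0) := by
    have : Tendsto (fun n : ℕ => 2 * (1 / ((n : ℝ) + 1))) atTop (𝓝 (2 * 0)) :=
      tendsto_one_div_add_atTop_nhds_zero_nat.const_mul 2
    rw [mul_zero] at this
    exact this
  have h2 : ∀ᶠ n in atTop, (φ n).rOut ≤ 2 * (φ n).rIn := Eventually.of_forall fun n => le_rfl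
  filter_upwards [ContDiffBump.ae_convolution_tendsto_right_of_locallyIntegrable h1 h2 hg]
    with x hx
  refine le_of_tendsto hx (Eventually.of_forall fun n => ?_)
  rw [convolution_eq_swap]
  have hc : HasCompactSupport (fun t => (φ n).normed volume (x - t)) := by
    have := (φ n).hasCompactSupport_normed (μ := (volume : Measure ℂ))
    exact this.comp_homeomorph (Homeomorph.subLeft x)
  have hs : ContDiff ℝ ∞ (fun t => (φ n).normed volume (x - t)) :=
    ((φ n).contDiff_normed).comp (contDiff_const.sub contDiff_id)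
  have h3 := h (fun t => (φ n).normed volume (x - t)) ⟨hs, hc, subset_univ _⟩
    (fun t => (φ n).nonneg_normed _)
  simpa using h3

/-- the derivative of `s ↦ η (exp (s c) x)` -/
lemma hasDeriv_pt {η : ℂ → ℝ} (hη : Test univ η) (c x : ℂ) (s : ℝ) :
    HasDerivAt (fun s : ℝ => η (Complex.exp (s * c) * x))
      (fderiv ℝ η (Complex.exp (s * c) * x) (c * (Complex.exp (s * c) * x))) s := by
  have h1 : HasDerivAt (fun s : ℝ => Complex.exp (s * c) * x)
      (c * (Complex.exp (s * c) * x)) s := by
    have h2 : HasDerivAt (fun s : ℝ => (s : ℂ) * c) (1 * c) s :=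
      (hasDerivAt_id s).ofReal_comp.mul_const c
    have h3 := (h2.cexp).mul_const x
    have h4 : Complex.exp ((s : ℂ) * c) * (1 * c) * x = c * (Complex.exp (s * c) * x) := by
      ring
    rw [h4] at h3
    exact h3
  exact (hη.diff _).hasFDerivAt.comp_hasDerivAt s h1

/-- differentiation along the flow `exp (s c)` -/
lemma hasDeriv_int {v η : ℂ → ℝ} (hv : MemLp v 2 volume) (hη : Test univ η) (c : ℂ) :
    HasDerivAt (fun s : ℝ => ∫ x, v x * η (Complex.exp (s * c) * x))
      (∫ x, v x * fderiv ℝ η x (c * x)) 0 := by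
  have hhc : Continuous (fun y : ℂ => fderiv ℝ η y (c * y)) :=
    hη.fderiv_cont.clm_apply (continuous_const.mul continuous_id)
  have hhs : HasCompactSupport (fun y : ℂ => fderiv ℝ η y (c * y)) := by
    have h0 : HasCompactSupport (fderiv ℝ η) := hη.cpt.fderiv ℝ
    refine h0.mono ?_
    intro y hy hz
    apply hy
    show fderiv ℝ η y (c * y) = 0
    rw [hz]
    simp
  obtain ⟨C, hC⟩ := hhs.exists_bound_of_continuous hhc
  obtain ⟨R, hR⟩ := hhs.isCompact.isBounded.subset_closedBall (0 : ℂ)
  have hz : ∀ y : ℂ, R < ‖y‖ → fderiv ℝ η y (c * y) = 0 := by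
    intro y hy
    by_contra hne
    have h1 : y ∈ tsupport (fun y : ℂ => fderiv ℝ η y (c * y)) :=
      subset_tsupport _ hne
    have h2 := hR h1
    rw [mem_closedBall, dist_zero_right] at h2
    linarith
  have hcont : ∀ s : ℝ, Continuous (fun x : ℂ => Complex.exp (s * c) * x) := fun s =>
    continuous_const.mul continuous_id
  have key := hasDerivAt_integral_of_dominated_loc_of_deriv_le (μ := (volume : Measure ℂ))
    (F := fun (s : ℝ) (x : ℂ) => v x * η (Complex.exp (s * c) * x))
    (F' := fun (s : ℝ) (x : ℂ) => v x *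
      fderiv ℝ η (Complex.exp (s * c) * x) (c * (Complex.exp (s * c) * x)))
    (x₀ := (0 : ℝ)) (s := ball 0 1)
    (bound := (closedBall (0 : ℂ) (Real.exp ‖c‖ * R)).indicator (fun x => C * ‖v x‖))
    (ball_mem_nhds 0 one_pos)
    (Eventually.of_forall fun s => hv.1.mul
      (hη.smooth.continuous.comp (hcont s)).aestronglyMeasurable)
    (by
      simp only [Complex.ofReal_zero, zero_mul, Complex.exp_zero, one_mul]
      exact IBH_.int_mul hv hη.memLp)
    (hv.1.mul (hhc.comp (hcont 0)).aestronglyMeasurable)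
    (Eventually.of_forall fun x s hs => ?_)
    (by
      rw [integrable_indicator_iff measurableSet_closedBall]
      have h1 : LocallyIntegrable v volume := hv.locallyIntegrable (by norm_num)
      exact ((h1.integrableOn_isCompact (isCompact_closedBall _ _)).norm).const_mul C)
    (Eventually.of_forall fun x s hs => (hasDeriv_pt hη c x s).const_mul (v x))
  · have h2 := key.2
    simpa only [Complex.ofReal_zero, zero_mul, Complex.exp_zero, one_mul] using h2
  · show ‖v x * fderiv ℝ η (Complex.exp (s * c) * x) (c * (Complex.exp (s * c) * x))‖ ≤ _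
    by_cases hx : x ∈ closedBall (0 : ℂ) (Real.exp ‖c‖ * R)
    · rw [indicator_of_mem hx, norm_mul, mul_comm]
      exact mul_le_mul_of_nonneg_right (hC _) (norm_nonneg _)
    · rw [indicator_of_notMem hx]
      have h3 : fderiv ℝ η (Complex.exp (s * c) * x) (c * (Complex.exp (s * c) * x)) = 0 := by
        apply hz
        rw [mem_closedBall, dist_zero_right, not_le] at hx
        rw [norm_mul, Complex.norm_exp]
        have h4 : -‖c‖ ≤ ((s : ℂ) * c).re := by
          have h5 : |((s : ℂ) * c).re| ≤ ‖(s : ℂ) * c‖ := Complex.abs_re_le_norm _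
          have h6 : ‖(s : ℂ) * c‖ ≤ ‖c‖ := by
            rw [norm_mul, Complex.norm_real]
            rw [mem_ball, dist_zero_right] at hs
            calc ‖s‖ * ‖c‖ ≤ 1 * ‖c‖ := mul_le_mul_of_nonneg_right hs.le (norm_nonneg _)
              _ = ‖c‖ := one_mul _
          have h7 := neg_abs_le ((s : ℂ) * c).re
          linarith
        have h8 : Real.exp (-‖c‖) ≤ Real.exp ((s : ℂ) * c).re := Real.exp_le_exp.2 h4
        have h9 : Real.exp (-‖c‖) * (Real.exp ‖c‖ * R) = R := by
          rw [← mul_assoc, ← Real.exp_add]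
          simp
        calc R = Real.exp (-‖c‖) * (Real.exp ‖c‖ * R) := h9.symm
          _ < Real.exp (-‖c‖) * ‖x‖ := mul_lt_mul_of_pos_left hx (Real.exp_pos _)
          _ ≤ Real.exp ((s : ℂ) * c).re * ‖x‖ := mul_le_mul_of_nonneg_right h8 (norm_nonneg _)
      rw [h3]
      simp

lemma test_re {η : ℂ → ℝ} (hη : Test univ η) : Test univ (fun x : ℂ => η x * x.re) where
  smooth := hη.smooth.mul Complex.reCLM.contDiff
  cpt := hη.cpt.mul_right
  sub := subset_univ _

lemma test_im {η : ℂ → ℝ} (hη : Test univ η) : Test univ (fun x : ℂ => η x * x.im) where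
  smooth := hη.smooth.mul Complex.imCLM.contDiff
  cpt := hη.cpt.mul_right
  sub := subset_univ _

lemma pd_re {η : ℂ → ℝ} (hη : Test univ η) (i : Fin 2) (x : ℂ) :
    pd e2 i (fun x : ℂ => η x * x.re) x = pd e2 i η x * x.re + η x * (e2 i).re := by
  unfold pd
  have h1 : HasFDerivAt (fun x : ℂ => x.re) Complex.reCLM x := Complex.reCLM.hasFDerivAt
  have h2 := ((hη.diff x).hasFDerivAt.mul h1).fderiv
  have h3 : fderiv ℝ (fun x : ℂ => η x * x.re) x =
      η x • Complex.reCLM + x.re • fderiv ℝ η x := h2
  rw [h3]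
  simp only [add_apply, smul_apply, smul_eq_mul,
    Complex.reCLM_apply]
  ring

lemma pd_im {η : ℂ → ℝ} (hη : Test univ η) (i : Fin 2) (x : ℂ) :
    pd e2 i (fun x : ℂ => η x * x.im) x = pd e2 i η x * x.im + η x * (e2 i).im := by
  unfold pd
  have h1 : HasFDerivAt (fun x : ℂ => x.im) Complex.imCLM x := Complex.imCLM.hasFDerivAt
  have h2 := ((hη.diff x).hasFDerivAt.mul h1).fderiv
  have h3 : fderiv ℝ (fun x : ℂ => η x * x.im) x =
      η x • Complex.imCLM + x.im • fderiv ℝ η x := h2
  rw [h3]
  simp only [add_apply, smul_apply, smul_eq_mul,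
    Complex.imCLM_apply]
  ring

lemma fd_split (η : ℂ → ℝ) (x y : ℂ) :
    fderiv ℝ η x y = y.re * pd e2 0 η x + y.im * pd e2 1 η x := by
  unfold pd
  have h1 : y = y.re • (e2 0) + y.im • (e2 1) := by
    apply Complex.ext <;> simp [e2]
  conv_lhs => rw [h1]
  rw [map_add, map_smul, map_smul, smul_eq_mul, smul_eq_mul]

end RDG_

open RDG_ in
/-- RDG -/
theorem p_RDG : T_RDG := by
  intro G' v G w hv hw hanti
  have hL : LocallyIntegrable (G 0) volume := (hv.memLp' 0).locallyIntegrable (by norm_num)
  have hL1 : LocallyIntegrable (G 1) volume := (hv.memLp' 1).locallyIntegrable (by norm_num)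
  -- integration by parts
  have ibp : ∀ (ψ : ℂ → ℝ) (i : Fin 2), Test univ ψ →
      ∫ x, v x * pd e2 i ψ x = -∫ x, G i x * ψ x := by
    intro ψ i hψ
    exact p_IBH ℂ (Fin 2) e2 G' univ v ψ G (fun i => pd e2 i ψ) hv hψ.h1 i
  -- angular part
  have hA : ∀ᵐ x, G 0 x * x.im - G 1 x * x.re = 0 := by
    refine ae_eq_zero_of_integral_contDiff_smul_eq_zero
      ((hL.mul_continuous Complex.continuous_im).sub (hL1.mul_continuous Complex.continuous_re))
      fun η h1 h2 => ?_
    have hη : Test univ η := ⟨h1, h2, subset_univ _⟩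
    have hd := hasDeriv_int hv.memLp hη Complex.I
    have hconst : (fun s : ℝ => ∫ x, v x * η (Complex.exp (s * Complex.I) * x)) =
        fun _ => ∫ x, v x * η x := by
      funext s
      have hm : MeasurePreserving (rotation (Circle.exp s)) (volume : Measure ℂ) volume :=
        (rotation (Circle.exp s)).measurePreserving
      have h3 := hm.integral_comp (rotation (Circle.exp s)).toHomeomorph.measurableEmbedding
        (fun x => v x * η x)
      rw [← h3]
      refine integral_congr_ae (Eventually.of_forall fun x => ?_)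
      show v x * η (Complex.exp (s * Complex.I) * x) =
        v (rotation (Circle.exp s) x) * η (rotation (Circle.exp s) x)
      rw [rotation_apply, Circle.coe_exp, hw x, hw]
      congr 2
      rw [norm_mul, Complex.norm_exp_ofReal_mul_I, one_mul]
    rw [hconst] at hd
    have h0 : ∫ x, v x * fderiv ℝ η x (Complex.I * x) = 0 :=
      hd.unique (hasDerivAt_const _ _)
    have e1 := ibp _ 0 (test_im hη)
    have e2' := ibp _ 1 (test_re hη)
    have i1 : Integrable (fun x => v x * pd e2 0 (fun x : ℂ => η x * x.im) x) :=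
      IBH_.int_mul hv.memLp ((test_im hη).memLp_pd 0)
    have i2 : Integrable (fun x => v x * pd e2 1 (fun x : ℂ => η x * x.re) x) :=
      IBH_.int_mul hv.memLp ((test_re hη).memLp_pd 1)
    have j1 : Integrable (fun x => G 0 x * (η x * x.im)) :=
      IBH_.int_mul (hv.memLp' 0) (test_im hη).memLp
    have j2 : Integrable (fun x => G 1 x * (η x * x.re)) :=
      IBH_.int_mul (hv.memLp' 1) (test_re hη).memLp
    have e3 : ∫ x, v x * fderiv ℝ η x (Complex.I * x) =
        (∫ x, v x * pd e2 1 (fun x : ℂ => η x * x.re) x) -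
          ∫ x, v x * pd e2 0 (fun x : ℂ => η x * x.im) x := by
      rw [← integral_sub i2 i1]
      refine integral_congr_ae (Eventually.of_forall fun x => ?_)
      show v x * fderiv ℝ η x (Complex.I * x) = v x * pd e2 1 (fun x : ℂ => η x * x.re) x -
        v x * pd e2 0 (fun x : ℂ => η x * x.im) x
      rw [pd_re hη, pd_im hη, fd_split]
      have z1 : (e2 1).re = 0 := by simp [e2]
      have z2 : (e2 0).im = 0 := by simp [e2]
      have z3 : (Complex.I * x).re = -x.im := by simp
      have z4 : (Complex.I * x).im = x.re := by simp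
      rw [z1, z2, z3, z4]
      ring
    have e4 : ∫ x, η x • (G 0 x * x.im - G 1 x * x.re) =
        (∫ x, G 0 x * (η x * x.im)) - ∫ x, G 1 x * (η x * x.re) := by
      rw [← integral_sub j1 j2]
      refine integral_congr_ae (Eventually.of_forall fun x => ?_)
      show η x • (G 0 x * x.im - G 1 x * x.re) = G 0 x * (η x * x.im) - G 1 x * (η x * x.re)
      rw [smul_eq_mul]
      ring
    rw [e4]
    linarith
  -- radial part
  have hB : ∀ᵐ x, G 0 x * x.re + G 1 x * x.im ≤ 0 := by
    refine ae_nonpos ((hL.mul_continuous Complex.continuous_re).add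
      (hL1.mul_continuous Complex.continuous_im)) fun η hη hη0 => ?_
    have hd := hasDeriv_int hv.memLp hη (-1)
    have hle : ∀ s : ℝ, 0 < s → ∫ x, v x * η (Complex.exp (s * (-1)) * x) ≤
        Real.exp (2 * s) * ∫ x, v x * η x := by
      intro s hs
      have hex : Complex.exp ((s : ℂ) * (-1)) = ((Real.exp (-s) : ℝ) : ℂ) := by
        rw [Complex.ofReal_exp]
        congr 1
        push_cast
        ring
      have hpos := Real.exp_pos (-s)
      have hint : Integrable (fun x => v x * η x) := IBH_.int_mul hv.memLp hη.memLp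
      have h3 := Measure.integral_comp_smul (volume : Measure ℂ) (fun x => v x * η x)
        (Real.exp (-s))
      rw [Complex.finrank_real_complex, abs_of_pos (by positivity)] at h3
      have h4 : (Real.exp (-s) ^ 2)⁻¹ = Real.exp (2 * s) := by
        rw [← Real.exp_nat_mul, ← Real.exp_neg]
        congr 1
        push_cast
        ring
      rw [h4, smul_eq_mul] at h3
      rw [← h3, hex]
      have hcs : Test univ (fun x : ℂ => η (((Real.exp (-s) : ℝ) : ℂ) * x)) := by
        refine ⟨hη.smooth.comp (contDiff_const.mul contDiff_id), ?_, subset_univ _⟩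
        have := hη.cpt.comp_homeomorph (Homeomorph.mulLeft₀ ((Real.exp (-s) : ℝ) : ℂ)
          (by exact_mod_cast hpos.ne'))
        exact this
      refine integral_mono_ae (IBH_.int_mul hv.memLp hcs.memLp)
        (hint.comp_smul hpos.ne') ?_
      have hne : ∀ᵐ x : ℂ, x ≠ 0 := by
        have : (volume : Measure ℂ) {0} = 0 := measure_singleton 0
        exact compl_mem_ae_iff.2 this
      filter_upwards [hne] with x hx
      show v x * η (((Real.exp (-s) : ℝ) : ℂ) * x) ≤
        v (Real.exp (-s) • x) * η (Real.exp (-s) • x)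
      have h5 : Real.exp (-s) • x = ((Real.exp (-s) : ℝ) : ℂ) * x := by
        rw [Complex.real_smul]
      rw [h5]
      refine mul_le_mul_of_nonneg_right ?_ (hη0 _)
      rw [hw, hw]
      have h6 : 0 < ‖x‖ := norm_pos_iff.2 hx
      have h7 : ‖((Real.exp (-s) : ℝ) : ℂ) * x‖ = Real.exp (-s) * ‖x‖ := by
        rw [norm_mul, Complex.norm_real, Real.norm_of_nonneg hpos.le]
      rw [h7]
      refine hanti (mul_pos hpos h6) h6 ?_
      have h8 : Real.exp (-s) ≤ 1 := Real.exp_le_one_iff.2 (by linarith)
      calc Real.exp (-s) * ‖x‖ ≤ 1 * ‖x‖ := mul_le_mul_of_nonneg_right h8 h6.le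
        _ = ‖x‖ := one_mul _
    have hd2 : HasDerivAt (fun s : ℝ => Real.exp (2 * s) * (∫ x, v x * η x) -
        ∫ x, v x * η (Complex.exp (s * (-1)) * x))
        (2 * (∫ x, v x * η x) - ∫ x, v x * fderiv ℝ η x (-1 * x)) 0 := by
      have h5 : HasDerivAt (fun s : ℝ => Real.exp (2 * s)) (2 : ℝ) 0 := by
        have h6 : HasDerivAt (fun s : ℝ => 2 * s) (2 * 1) (0 : ℝ) :=
          (hasDerivAt_id (0 : ℝ)).const_mul 2
        have h7 := h6.exp
        simpa using h7
      exact (h5.mul_const _).sub hd
    have h9 := hd2.tendsto_slope_zero_right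
    have h10 : 0 ≤ 2 * (∫ x, v x * η x) - ∫ x, v x * fderiv ℝ η x (-1 * x) := by
      refine ge_of_tendsto h9 ?_
      filter_upwards [self_mem_nhdsWithin] with s hs
      have hs' : (0 : ℝ) < s := hs
      rw [zero_add, smul_eq_mul]
      refine mul_nonneg (inv_nonneg.2 hs'.le) ?_
      have h11 := hle s hs'
      simp only [Complex.ofReal_zero, zero_mul, Complex.exp_zero, one_mul, mul_zero,
        Real.exp_zero, sub_self, sub_zero]
      linarith
    have e1 := ibp _ 0 (test_re hη)
    have e2' := ibp _ 1 (test_im hη)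
    have i1 : Integrable (fun x => v x * pd e2 0 (fun x : ℂ => η x * x.re) x) :=
      IBH_.int_mul hv.memLp ((test_re hη).memLp_pd 0)
    have i2 : Integrable (fun x => v x * pd e2 1 (fun x : ℂ => η x * x.im) x) :=
      IBH_.int_mul hv.memLp ((test_im hη).memLp_pd 1)
    have i3 : Integrable (fun x => v x * η x) := IBH_.int_mul hv.memLp hη.memLp
    have j1 : Integrable (fun x => G 0 x * (η x * x.re)) :=
      IBH_.int_mul (hv.memLp' 0) (test_re hη).memLp
    have j2 : Integrable (fun x => G 1 x * (η x * x.im)) :=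
      IBH_.int_mul (hv.memLp' 1) (test_im hη).memLp
    have e3 : ∫ x, v x * fderiv ℝ η x (-1 * x) =
        2 * (∫ x, v x * η x) - ((∫ x, v x * pd e2 0 (fun x : ℂ => η x * x.re) x) +
          ∫ x, v x * pd e2 1 (fun x : ℂ => η x * x.im) x) := by
      have i4 : Integrable (fun x => v x * pd e2 0 (fun x : ℂ => η x * x.re) x +
          v x * pd e2 1 (fun x : ℂ => η x * x.im) x) := i1.add i2
      rw [← integral_add i1 i2, ← integral_const_mul, ← integral_sub (i3.const_mul 2) i4]
      refine integral_congr_ae (Eventually.of_forall fun x => ?_)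
      show v x * fderiv ℝ η x (-1 * x) = 2 * (v x * η x) -
        (v x * pd e2 0 (fun x : ℂ => η x * x.re) x + v x * pd e2 1 (fun x : ℂ => η x * x.im) x)
      rw [pd_re hη, pd_im hη, fd_split]
      have z1 : (e2 0).re = 1 := by simp [e2]
      have z2 : (e2 1).im = 1 := by simp [e2]
      have z3 : (-1 * x).re = -x.re := by simp
      have z4 : (-1 * x).im = -x.im := by simp
      rw [z1, z2, z3, z4]
      ring
    have e4 : ∫ x, η x * (G 0 x * x.re + G 1 x * x.im) =
        (∫ x, G 0 x * (η x * x.re)) + ∫ x, G 1 x * (η x * x.im) := by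
      rw [← integral_add j1 j2]
      refine integral_congr_ae (Eventually.of_forall fun x => ?_)
      show η x * (G 0 x * x.re + G 1 x * x.im) = G 0 x * (η x * x.re) + G 1 x * (η x * x.im)
      ring
    rw [e4]
    linarith
  have hne : ∀ᵐ x : ℂ, x ≠ 0 := by
    have : (volume : Measure ℂ) {0} = 0 := measure_singleton 0
    exact compl_mem_ae_iff.2 this
  filter_upwards [hA, hB, hne] with x h1 h2 h3
  have hr : 0 < ‖x‖ := norm_pos_iff.2 h3
  have hr2 : ‖x‖ ^ 2 = x.re ^ 2 + x.im ^ 2 := by
    rw [← Complex.normSq_eq_norm_sq, Complex.normSq_apply]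
    ring
  set r := ‖x‖ with hrdef
  set S := G 0 x * x.re + G 1 x * x.im with hS
  have a0 : G 0 x * r ^ 2 = x.re * S := by
    rw [hr2, hS]
    linear_combination x.im * h1
  have a1 : G 1 x * r ^ 2 = x.im * S := by
    rw [hr2, hS]
    linear_combination (-x.re) * h1
  have hg : gn G x = -S / r := by
    unfold gn
    have h4 : G 0 x ^ 2 + G 1 x ^ 2 = (-S / r) ^ 2 := by
      rw [div_pow, eq_div_iff (by positivity)]
      have h5 : (G 0 x ^ 2 + G 1 x ^ 2) * r ^ 2 * r ^ 2 = (-S) ^ 2 * r ^ 2 := by
        calc (G 0 x ^ 2 + G 1 x ^ 2) * r ^ 2 * r ^ 2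
            = (G 0 x * r ^ 2) ^ 2 + (G 1 x * r ^ 2) ^ 2 := by ring
          _ = (x.re * S) ^ 2 + (x.im * S) ^ 2 := by rw [a0, a1]
          _ = (-S) ^ 2 * (x.re ^ 2 + x.im ^ 2) := by ring
          _ = (-S) ^ 2 * r ^ 2 := by rw [hr2]
      exact mul_right_cancel₀ (by positivity) h5
    rw [h4]
    exact Real.sqrt_sq (div_nonneg (by linarith) hr.le)
  rw [hg]
  constructor
  · field_simp
    linarith
  · field_simp
    linarith

end MGS
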