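import Pool.Agent.MGS.TA
import Pool.Agent.MGS.TC

/-! # MGS-RDT: the length of the gradient of a radial function is radial -/

set_option autoImplicit false

open MeasureTheory Filter Topology Metric Set
open scoped ENNReal NNReal ContDiff

noncomputable section

namespace MGS

/-- invariance of `|G|` under one rotation -/
theorem RDT_rot (h_TRL : T_TRL) (h_UNI : T_UNI) (G' : Set ℂ) (v : ℂ → ℝ) (G : Fin 2 → ℂ → ℝ)
    (w : ℝ → ℝ) (hv : H1 e2 G' v G) (hw : ∀ x, v x = w ‖x‖) (θ : ℝ) :
    ∀ᵐ x : ℂ, gn G (Complex.exp (θ * Complex.I) * x) = gn G x := by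
  set c : ℂ := Complex.exp (θ * Complex.I) with hc
  have hn : ‖c‖ = 1 := Complex.norm_exp_ofReal_mul_I θ
  let L : ℂ ≃L[ℝ] ℂ := (rotation (Circle.exp θ)).toContinuousLinearEquiv
  have hL : ∀ x : ℂ, L x = c * x := by
    intro x
    show rotation (Circle.exp θ) x = c * x
    rw [rotation_apply, Circle.coe_exp]
  let M : Fin 2 → Fin 2 → ℝ := ![![c.re, -c.im], ![c.im, c.re]]
  have hM : ∀ i, L (e2 i) = ∑ j, M j i • e2 j := by
    intro i
    rw [hL, Fin.sum_univ_two]
    fin_cases i
    · simp only [e2, M]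
      apply Complex.ext <;> simp
    · simp only [e2, M]
      apply Complex.ext <;> simp
  have h1 := h_TRL ℂ (Fin 2) e2 G' v G L 0 M hM hv
  have h2 : (fun P => v (L P + 0)) =ᵐ[volume] v := by
    refine Eventually.of_forall fun P => ?_
    show v (L P + 0) = v P
    rw [add_zero, hL, hw, hw, norm_mul, hn, one_mul]
  have h3 := fun i => h_UNI ℂ (Fin 2) e2 _ _ _ _ _ _ h1 hv h2 i
  have h4 : c.re * c.re + c.im * c.im = 1 := by
    have := Complex.normSq_eq_norm_sq c
    rw [hn, Complex.normSq_apply] at this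
    linarith
  filter_upwards [h3 0, h3 1] with x hx0 hx1
  simp only [Fin.sum_univ_two, add_zero, hL, M] at hx0 hx1
  simp only [Matrix.cons_val_zero, Matrix.cons_val_one, Matrix.cons_val_fin_one] at hx0 hx1
  unfold gn
  congr 1
  rw [← hx0, ← hx1]
  have : (c.re * G 0 (c * x) + c.im * G 1 (c * x)) ^ 2 +
      (-c.im * G 0 (c * x) + c.re * G 1 (c * x)) ^ 2 =
      (c.re * c.re + c.im * c.im) * (G 0 (c * x) ^ 2 + G 1 (c * x) ^ 2) := by ring
  rw [this, h4, one_mul]

theorem p_RDT (h_TRL : T_TRL) (h_UNI : T_UNI) : T_RDT := by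
  intro G' v G w hv hG hw
  have hg : Measurable (gn G) := by
    unfold gn
    exact (((hG 0).pow_const 2).add ((hG 1).pow_const 2)).sqrt
  have hnn : ∀ x, 0 ≤ gn G x := fun x => Real.sqrt_nonneg _
  have hrot := RDT_rot h_TRL h_UNI G' v G w hv hw
  have hcirc : Measurable (fun θ : ℝ => Complex.exp (θ * Complex.I)) := by
    fun_prop
  have hset : MeasurableSet {p : ℝ × ℂ | gn G (Complex.exp (p.1 * Complex.I) * p.2) = gn G p.2} := by
    refine measurableSet_eq_fun ?_ ?_
    · exact hg.comp ((hcirc.comp measurable_fst).mul measurable_snd)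
    · exact hg.comp measurable_snd
  have h1 : ∀ᵐ x : ℂ, ∀ᵐ θ : ℝ, gn G (Complex.exp (θ * Complex.I) * x) = gn G x := by
    have := (Measure.ae_ae_comm (μ := (volume : Measure ℝ)) (ν := (volume : Measure ℂ))
      (p := fun θ x => gn G (Complex.exp (θ * Complex.I) * x) = gn G x) hset).1
      (Eventually.of_forall hrot)
    exact this
  refine ⟨fun r => (∫⁻ θ in Icc (0 : ℝ) 1,
    ENNReal.ofReal (gn G ((r : ℂ) * Complex.exp (θ * Complex.I)))).toReal, ?_, ?_, ?_⟩
  · refine Measurable.ennreal_toReal ?_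
    have h2 : Measurable (fun p : ℝ × ℝ =>
        ENNReal.ofReal (gn G ((p.1 : ℂ) * Complex.exp (p.2 * Complex.I)))) := by
      refine ENNReal.measurable_ofReal.comp (hg.comp ?_)
      exact (Complex.measurable_ofReal.comp measurable_fst).mul (hcirc.comp measurable_snd)
    exact h2.lintegral_prod_right'
  · intro r
    exact ENNReal.toReal_nonneg
  · filter_upwards [h1] with x hx
    have h3 : ∀ᵐ θ : ℝ, gn G ((‖x‖ : ℂ) * Complex.exp (θ * Complex.I)) = gn G x := by
      have h4 := (measurePreserving_add_right (volume : Measure ℝ)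
        (-(Complex.arg x))).quasiMeasurePreserving.ae hx
      filter_upwards [h4] with θ hθ
      rw [← hθ]
      congr 1
      calc (‖x‖ : ℂ) * Complex.exp (θ * Complex.I)
          = (‖x‖ : ℂ) * (Complex.exp (((θ + -(Complex.arg x) : ℝ) : ℂ) * Complex.I) *
            Complex.exp (Complex.arg x * Complex.I)) := by
            rw [← Complex.exp_add]
            congr 2
            push_cast
            ring
        _ = Complex.exp (((θ + -(Complex.arg x) : ℝ) : ℂ) * Complex.I) *
            ((‖x‖ : ℂ) * Complex.exp (Complex.arg x * Complex.I)) := by ring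
        _ = Complex.exp (((θ + -(Complex.arg x) : ℝ) : ℂ) * Complex.I) * x := by
            rw [Complex.norm_mul_exp_arg_mul_I]
    have h6 : ∫⁻ θ in Icc (0 : ℝ) 1,
        ENNReal.ofReal (gn G ((‖x‖ : ℂ) * Complex.exp (θ * Complex.I))) =
        ENNReal.ofReal (gn G x) := by
      have h7 : ∫⁻ θ in Icc (0 : ℝ) 1,
          ENNReal.ofReal (gn G ((‖x‖ : ℂ) * Complex.exp (θ * Complex.I))) =
          ∫⁻ _θ in Icc (0 : ℝ) 1, ENNReal.ofReal (gn G x) := by
        refine lintegral_congr_ae ?_
        filter_upwards [ae_restrict_of_ae h3] with θ hθ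
        rw [hθ]
      rw [h7, setLIntegral_const, Real.volume_Icc]
      simp
    show gn G x = (∫⁻ θ in Icc (0 : ℝ) 1,
        ENNReal.ofReal (gn G (((‖x‖ : ℝ) : ℂ) * Complex.exp (θ * Complex.I)))).toReal
    rw [h6, ENNReal.toReal_ofReal (hnn x)]

end MGS
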