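import Pool.Agent.MGS.TB

/-!
# MGS: RFR, the horizontal gradient of the ground state is radial (helper68)
-/

set_option autoImplicit false

open MeasureTheory Filter Topology Metric Set
open scoped ENNReal NNReal ContDiff

noncomputable section

namespace MGS

namespace RFR_

theorem mp_prod (f : ℂ → ℂ) (hf : MeasurePreserving f volume volume) :
    MeasurePreserving (fun P : X => (f P.1, P.2)) volume volume :=
  hf.prod (MeasurePreserving.id (volume : Measure ℝ))

theorem mp_ro (w : ℂ) (hw : ‖w‖ = 1) : MeasurePreserving (ro w) (volume : Measure X) volume := by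
  have h : MeasurePreserving (fun x : ℂ => w * x) volume volume := by
    have hm : w ∈ Submonoid.unitSphere ℂ := mem_sphere_zero_iff_norm.2 hw
    have h1 := (rotation (⟨w, hm⟩ : Circle)).measurePreserving
    exact h1
  exact mp_prod _ h

theorem mp_rf : MeasurePreserving (rf 0) (volume : Measure X) volume := by
  have h : MeasurePreserving (fun x : ℂ => -(starRingEnd ℂ) x - ((0 : ℝ) : ℂ)) volume volume := by
    have h1 := (Complex.conjLIE.trans (LinearIsometryEquiv.neg ℝ)).measurePreserving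
    have h2 : (fun x : ℂ => -(starRingEnd ℂ) x - ((0 : ℝ) : ℂ)) =
        ⇑(Complex.conjLIE.trans (LinearIsometryEquiv.neg ℝ : ℂ ≃ₗᵢ[ℝ] ℂ)) := by
      funext x
      simp
    rw [h2]
    exact h1
  exact mp_prod _ h

theorem ae_ne : ∀ᵐ P : X, P.1 ≠ 0 := by
  have h : ∀ᵐ x : ℂ, x ≠ 0 := by
    rw [ae_iff]
    simp
  exact (Measure.quasiMeasurePreserving_fst (μ := (volume : Measure ℂ))
    (ν := (volume : Measure ℝ))).ae h

/-- the radial component of the horizontal gradient, with the sign changed -/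
def kk (F : Fin 3 → X → ℝ) (P : X) : ℝ := -(F 0 P * P.1.re + F 1 P * P.1.im) / ‖P.1‖

/-- the tangential component of the horizontal gradient -/
def tt (F : Fin 3 → X → ℝ) (P : X) : ℝ := (-(F 0 P * P.1.im) + F 1 P * P.1.re) / ‖P.1‖

theorem bound (a b x y n : ℝ) (hx : |x| ≤ n) (hy : |y| ≤ n) : |(a * x + b * y) / n| ≤ |a| + |b| := by
  have hn : 0 ≤ n := (abs_nonneg x).trans hx
  rcases hn.eq_or_lt with h | h
  · subst h
    simp
    positivity
  · rw [abs_div, abs_of_pos h, div_le_iff₀ h]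
    calc |a * x + b * y| ≤ |a * x| + |b * y| := abs_add_le _ _
      _ = |a| * |x| + |b| * |y| := by rw [abs_mul, abs_mul]
      _ ≤ |a| * n + |b| * n := by gcongr
      _ = (|a| + |b|) * n := by ring

variable {F : Fin 3 → X → ℝ}

theorem kk_bd (P : X) : |kk F P| ≤ |F 0 P| + |F 1 P| := by
  have h := bound (-(F 0 P)) (-(F 1 P)) P.1.re P.1.im ‖P.1‖ (Complex.abs_re_le_norm _)
    (Complex.abs_im_le_norm _)
  rw [abs_neg, abs_neg] at h
  convert h using 2
  unfold kk
  ring

theorem tt_bd (P : X) : |tt F P| ≤ |F 0 P| + |F 1 P| := by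
  have h := bound (-(F 0 P)) (F 1 P) P.1.im P.1.re ‖P.1‖ (Complex.abs_im_le_norm _)
    (Complex.abs_re_le_norm _)
  rw [abs_neg] at h
  convert h using 2
  unfold tt
  ring

theorem meas_re : Measurable fun P : X => P.1.re := Complex.measurable_re.comp measurable_fst

theorem meas_im : Measurable fun P : X => P.1.im := Complex.measurable_im.comp measurable_fst

theorem kk_meas (hF : ∀ i, Measurable (F i)) : Measurable (kk F) :=
  ((((hF 0).mul meas_re).add ((hF 1).mul meas_im)).neg).div measurable_fst.norm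

theorem tt_meas (hF : ∀ i, Measurable (F i)) : Measurable (tt F) :=
  ((((hF 0).mul meas_im).neg).add ((hF 1).mul meas_re)).div measurable_fst.norm

theorem memLp_of (hL : ∀ i, MemLp (F i) 2 volume) {u : X → ℝ}
    (hm : Measurable u) (hb : ∀ P, |u P| ≤ |F 0 P| + |F 1 P|) : MemLp u 2 volume := by
  have h1 : MemLp (fun P => |F 0 P| + |F 1 P|) 2 volume := (hL 0).abs.add (hL 1).abs
  refine h1.of_le hm.aestronglyMeasurable (Eventually.of_forall fun P => ?_)
  rw [Real.norm_eq_abs, Real.norm_eq_abs, abs_of_nonneg (by positivity : 0 ≤ |F 0 P| + |F 1 P|)]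
  exact hb P

theorem sq_add {w : ℂ} (hw : ‖w‖ = 1) : w.re ^ 2 + w.im ^ 2 = 1 := by
  have h := Complex.sq_norm w
  rw [hw, Complex.normSq_apply] at h
  nlinarith

theorem kk_ro {w : ℂ} (hw : ‖w‖ = 1) {P : X} (h0 : F 0 (ro w P) = w.re * F 0 P - w.im * F 1 P)
    (h1 : F 1 (ro w P) = w.im * F 0 P + w.re * F 1 P) : kk F (ro w P) = kk F P := by
  have h2 := sq_add hw
  unfold kk
  rw [h0, h1]
  simp only [ro, Complex.mul_re, Complex.mul_im, norm_mul, hw, one_mul]
  congr 1
  linear_combination (-(F 0 P * P.1.re) - F 1 P * P.1.im) * h2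

theorem tt_ro {w : ℂ} (hw : ‖w‖ = 1) {P : X} (h0 : F 0 (ro w P) = w.re * F 0 P - w.im * F 1 P)
    (h1 : F 1 (ro w P) = w.im * F 0 P + w.re * F 1 P) : tt F (ro w P) = tt F P := by
  have h2 := sq_add hw
  unfold tt
  rw [h0, h1]
  simp only [ro, Complex.mul_re, Complex.mul_im, norm_mul, hw, one_mul]
  congr 1
  linear_combination (-(F 0 P * P.1.im) + F 1 P * P.1.re) * h2

theorem rf_re (P : X) : (rf 0 P).1.re = -P.1.re := by simp [rf]

theorem rf_im (P : X) : (rf 0 P).1.im = P.1.im := by simp [rf]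

theorem rf_norm (P : X) : ‖(rf 0 P).1‖ = ‖P.1‖ := by
  simp [rf]

theorem tt_rf {P : X} (h0 : F 0 (rf 0 P) = -F 0 P) (h1 : F 1 (rf 0 P) = F 1 P) :
    tt F (rf 0 P) = -tt F P := by
  unfold tt
  rw [h0, h1, rf_re, rf_im, rf_norm]
  ring

theorem radial {P : X} (hP : P.1 ≠ 0) (ht : tt F P = 0) :
    F 0 P = -(kk F P * P.1.re / ‖P.1‖) ∧ F 1 P = -(kk F P * P.1.im / ‖P.1‖) := by
  have hn : ‖P.1‖ ≠ 0 := norm_ne_zero_iff.2 hP
  have h1 : -(F 0 P * P.1.im) + F 1 P * P.1.re = 0 := by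
    unfold tt at ht
    rcases div_eq_zero_iff.1 ht with h | h
    · exact h
    · exact absurd h hn
  have h2 : ‖P.1‖ ^ 2 = P.1.re ^ 2 + P.1.im ^ 2 := by
    rw [Complex.sq_norm, Complex.normSq_apply]
    ring
  unfold kk
  constructor
  · have h3 : F 0 P * ‖P.1‖ ^ 2 = (F 0 P * P.1.re + F 1 P * P.1.im) * P.1.re := by
      rw [h2]
      linear_combination (-P.1.im) * h1
    field_simp
    linear_combination h3
  · have h3 : F 1 P * ‖P.1‖ ^ 2 = (F 0 P * P.1.re + F 1 P * P.1.im) * P.1.im := by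
      rw [h2]
      linear_combination P.1.re * h1
    field_simp
    linear_combination h3

/-- the estimate in the half space -/
theorem half {B : ℝ} {v : X → ℝ} {P : X} (hP : P.1 ≠ 0) (ht : tt F P = 0) (hre : 0 < P.1.re)
    (c : ℝ) (hc : c < 0 ∨ c = 0) (hW : wF B v F 0 P ≤ c) :
    B / 2 * ‖P.1‖ * v P ≤ kk F P ∧ (c < 0 → B / 2 * ‖P.1‖ * v P < kk F P) := by
  have hn : 0 < ‖P.1‖ := norm_pos_iff.2 hP
  have hF := (radial hP ht).1
  have he : 0 < Real.exp (B / 4 * ‖P.1‖ ^ 2) := Real.exp_pos _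
  have h1 : wF B v F 0 P = Real.exp (B / 4 * ‖P.1‖ ^ 2) * (P.1.re / ‖P.1‖) *
      (B / 2 * ‖P.1‖ * v P - kk F P) := by
    unfold wF
    rw [hF]
    simp only [xc, Matrix.cons_val_zero]
    field_simp
    ring
  have h2 : 0 < Real.exp (B / 4 * ‖P.1‖ ^ 2) * (P.1.re / ‖P.1‖) := by positivity
  rw [h1] at hW
  constructor
  · have h3 : Real.exp (B / 4 * ‖P.1‖ ^ 2) * (P.1.re / ‖P.1‖) *
        (B / 2 * ‖P.1‖ * v P - kk F P) ≤ 0 := by
      rcases hc with h | h <;> linarith
    have h4 := nonpos_of_mul_nonpos_right h3 h2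
    linarith
  · intro hc0
    have h3 : Real.exp (B / 4 * ‖P.1‖ ^ 2) * (P.1.re / ‖P.1‖) *
        (B / 2 * ‖P.1‖ * v P - kk F P) < 0 := by linarith
    have h4 : B / 2 * ‖P.1‖ * v P - kk F P < 0 := by
      by_contra h5
      have h6 := mul_nonneg h2.le (not_lt.1 h5)
      linarith
    linarith

theorem exists_rot {x : ℂ} (hx : x ≠ 0) : 0 < ((1 : ℂ) * x).re ∨ 0 < ((-1 : ℂ) * x).re ∨
    0 < (Complex.I * x).re ∨ 0 < (-Complex.I * x).re := by
  simp only [one_mul, neg_mul, Complex.neg_re, Complex.I_mul_re, neg_neg]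
  rcases lt_trichotomy x.re 0 with h | h | h
  · right; left; linarith
  · rcases lt_trichotomy x.im 0 with h' | h' | h'
    · right; right; left; linarith
    · exfalso
      apply hx
      exact Complex.ext h h'
    · right; right; right; exact h'
  · left; exact h

end RFR_

open RFR_ in
theorem p_RFR (h_INV : T_INV) (h_MON : T_MON) (h_STR : T_STR) (h_RIN : T_RIN) : T_RFR := by
  intro B G v F hB hG hGS
  obtain ⟨hrot, hrefl⟩ := h_INV B G v F hG hGS
  have hmon := h_MON B G v F hB hG hGS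
  have hstr := h_STR B G v F hB hG hGS
  have hL : ∀ i, MemLp (F i) 2 volume := fun i => hGS.h.memLp' i
  -- the tangential part vanishes
  have ht : ∀ᵐ P : X, tt F P = 0 := by
    obtain ⟨K, hK, hK2⟩ := h_RIN (tt F) (memLp_of hL (tt_meas hGS.mF) tt_bd) (by
      intro w hw
      filter_upwards [hrot w hw] with P hP
      exact tt_ro hw hP.2.1 hP.2.2)
    have hK3 := mp_rf.quasiMeasurePreserving.ae hK2
    filter_upwards [hK2, hK3, hrefl] with P h1 h2 h3
    have h4 := tt_rf h3.2.1 h3.2.2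
    rw [rf_norm] at h2
    have h5 : (rf 0 P).2 = P.2 := rfl
    rw [h5, ← h1] at h2
    linarith
  -- the radial part
  obtain ⟨K, hK, hK2⟩ := h_RIN (kk F) (memLp_of hL (kk_meas hGS.mF) kk_bd) (by
    intro w hw
    filter_upwards [hrot w hw] with P hP
    exact kk_ro hw hP.2.1 hP.2.2)
  -- the estimate in the half space
  have hhalf : ∀ᵐ P : X, 0 < P.1.re → B / 2 * ‖P.1‖ * v P ≤ kk F P ∧
      (P ∈ G → B / 2 * ‖P.1‖ * v P < kk F P) := by
    filter_upwards [ht, hmon, hstr, ae_ne] with P h1 h2 h3 h4 h5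
    refine ⟨(half h4 h1 h5 0 (Or.inr rfl) (h2 h5)).1, fun h6 => ?_⟩
    have h7 := h3 h6 h5
    exact (half h4 h1 h5 _ (Or.inl h7) le_rfl).2 h7
  have hw : ∀ w : ℂ, ‖w‖ = 1 → ∀ᵐ P : X, 0 < (w * P.1).re → B / 2 * ‖P.1‖ * v P ≤ kk F P ∧
      (P ∈ G → B / 2 * ‖P.1‖ * v P < kk F P) := by
    intro w hw
    filter_upwards [(mp_ro w hw).quasiMeasurePreserving.ae hhalf, hrot w hw] with P h1 h2 h3
    have h4 := h1 h3
    have h5 : ‖(ro w P).1‖ = ‖P.1‖ := by
      simp [ro, hw]
    rw [kk_ro hw h2.2.1 h2.2.2, h5, h2.1] at h4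
    refine ⟨h4.1, fun h6 => h4.2 ?_⟩
    exact hG.star P h6 (w * P.1) (by rw [norm_mul, hw, one_mul])
  have hall : ∀ᵐ P : X, B / 2 * ‖P.1‖ * v P ≤ kk F P ∧
      (P ∈ G → B / 2 * ‖P.1‖ * v P < kk F P) := by
    filter_upwards [hw 1 (by simp), hw (-1) (by simp), hw Complex.I (by simp),
      hw (-Complex.I) (by simp), ae_ne] with P h1 h2 h3 h4 h5
    rcases exists_rot h5 with h | h | h | h
    · exact h1 h
    · exact h2 h
    · exact h3 h
    · exact h4 h
  refine ⟨fun r z => max (K r z) 0, hK.max measurable_const, fun r z => le_max_right _ _, ?_, ?_⟩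
  · filter_upwards [hall, hK2, ht, ae_ne] with P h1 h2 h3 h4
    have h5 : 0 ≤ kk F P := by
      refine le_trans ?_ h1.1
      have := hGS.nn P
      positivity
    have h6 : max (K ‖P.1‖ P.2) 0 = kk F P := by
      rw [← h2, max_eq_left h5]
    show F 0 P = -(max (K ‖P.1‖ P.2) 0 * P.1.re / ‖P.1‖) ∧
      F 1 P = -(max (K ‖P.1‖ P.2) 0 * P.1.im / ‖P.1‖)
    rw [h6]
    exact radial h4 h3
  · filter_upwards [hall, hK2] with P h1 h2 h3
    show B / 2 * ‖P.1‖ * v P < max (K ‖P.1‖ P.2) 0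
    refine lt_of_lt_of_le (h1.2 h3) ?_
    rw [← h2]
    exact le_max_left _ _

end MGS
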