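import Pool.Agent.MGS.TF

/-!
# MGS: target RIG (rigidity in the plane)
-/

set_option autoImplicit false

open MeasureTheory Filter Topology Metric Set
open scoped ENNReal NNReal ContDiff

noncomputable section

namespace MGS

namespace RIG_

lemma meas_ar {g : ℂ → ℝ} : Measurable (ar g) := by
  have h : Antitone (fun s : ℝ => volume {x : ℂ | s < g x}) := fun s t h =>
    measure_mono fun x hx => lt_of_le_of_lt h hx
  exact h.measurable.ennreal_toReal

lemma meas_rad {g : ℂ → ℝ} : Measurable (rad g) := (meas_ar.div_const _).sqrt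

lemma ar_nn (g : ℂ → ℝ) (s : ℝ) : 0 ≤ ar g s := ENNReal.toReal_nonneg

lemma fin_lt {R : ℝ} {g : ℂ → ℝ} (hN : Nc R g) {s : ℝ} (hs : 0 ≤ s) :
    volume {x | s < g x} < ⊤ := by
  refine (measure_mono (t := ball (0 : ℂ) R) fun x hx => ?_).trans_lt measure_ball_lt_top
  rw [mem_ball_zero_iff]
  by_contra hc
  have h1 := hN.z x (not_lt.1 hc)
  have h2 : s < g x := hx
  linarith

lemma lt_rad {g : ℂ → ℝ} {t s : ℝ} (ht : 0 ≤ t) : t < rad g s ↔ Real.pi * t ^ 2 < ar g s := by
  unfold rad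
  rw [Real.lt_sqrt ht, lt_div_iff₀' Real.pi_pos]

lemma radial_null {E : Set ℝ} (hE : MeasurableSet E) (h : volume {x : ℂ | ‖x‖ ∈ E} = 0) :
    volume (E ∩ Ioi 0) = 0 := by
  have hm : MeasurableSet {x : ℂ | ‖x‖ ∈ E} := measurable_norm hE
  have h1 : ∫⁻ x : ℂ, {x : ℂ | ‖x‖ ∈ E}.indicator (1 : ℂ → ℝ≥0∞) x = 0 := by
    rw [lintegral_indicator_one hm, h]
  rw [← Complex.lintegral_comp_polarCoord_symm] at h1
  have hmt : MeasurableSet polarCoord.target := polarCoord.open_target.measurableSet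
  have h2 : ∫⁻ p in polarCoord.target, ENNReal.ofReal p.1 * E.indicator (1 : ℝ → ℝ≥0∞) p.1 = 0 := by
    rw [← h1]
    refine setLIntegral_congr_fun hmt fun p hp => ?_
    rw [polarCoord_target] at hp
    have hp1 : 0 < p.1 := hp.1
    have h3 : ‖Complex.polarCoord.symm p‖ = p.1 := by
      rw [Complex.norm_polarCoord_symm, abs_of_pos hp1]
    show ENNReal.ofReal p.1 * E.indicator (1 : ℝ → ℝ≥0∞) p.1 =
      ENNReal.ofReal p.1 * {x : ℂ | ‖x‖ ∈ E}.indicator (1 : ℂ → ℝ≥0∞) (Complex.polarCoord.symm p)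
    congr 1
    by_cases hpe : p.1 ∈ E
    · rw [indicator_of_mem hpe, indicator_of_mem (by show ‖Complex.polarCoord.symm p‖ ∈ E; rw [h3]; exact hpe)]
      rfl
    · rw [indicator_of_notMem hpe, indicator_of_notMem (by
        intro hc
        have hc' : ‖Complex.polarCoord.symm p‖ ∈ E := hc
        rw [h3] at hc'
        exact hpe hc')]
  have hmf : Measurable fun p : ℝ × ℝ => ENNReal.ofReal p.1 * E.indicator (1 : ℝ → ℝ≥0∞) p.1 :=
    (ENNReal.measurable_ofReal.comp measurable_fst).mul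
      ((measurable_one.indicator hE).comp measurable_fst)
  rw [lintegral_eq_zero_iff hmf] at h2
  have h3 := (ae_restrict_iff' hmt).1 h2
  have h4 : volume ((E ∩ Ioi (0 : ℝ)) ×ˢ Ioo (-Real.pi) Real.pi) = 0 := by
    refine measure_mono_null (fun p hp => ?_) h3
    obtain ⟨⟨hp1, hp2⟩, hp3⟩ := hp
    intro hc
    have h5 := hc (by rw [polarCoord_target]; exact ⟨hp2, hp3⟩)
    have h6 : ENNReal.ofReal p.1 * E.indicator (1 : ℝ → ℝ≥0∞) p.1 = 0 := h5
    rw [indicator_of_mem hp1, Pi.one_apply, mul_one, ENNReal.ofReal_eq_zero] at h6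
    exact absurd h6 (not_le.2 hp2)
  rw [Measure.volume_eq_prod, Measure.prod_prod, Real.volume_Ioo] at h4
  rcases mul_eq_zero.1 h4 with h5 | h5
  · exact h5
  · exfalso
    rw [ENNReal.ofReal_eq_zero] at h5
    have := Real.pi_pos
    linarith

lemma thn_tendsto {R₀ r : ℝ} {T : ℝ → ℝ} (hr : r ≤ R₀)
    (hT : ∀ᵐ t : ℝ, r < t → t < R₀ → 0 < T t) :
    Tendsto (fun n => thn n R₀ T r) atTop (𝓝 (R₀ - r)) := by
  have hmono : Monotone fun n : ℕ => {t : ℝ | r < t ∧ t < R₀ ∧ 1 / ((n : ℝ) + 1) ≤ T t} := by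
    intro n m hnm t ht
    refine ⟨ht.1, ht.2.1, le_trans ?_ ht.2.2⟩
    apply one_div_le_one_div_of_le (by positivity)
    have : (n : ℝ) ≤ m := by exact_mod_cast hnm
    linarith
  have h1 := tendsto_measure_iUnion_atTop (μ := (volume : Measure ℝ)) hmono
  have h2 : volume (⋃ n : ℕ, {t : ℝ | r < t ∧ t < R₀ ∧ 1 / ((n : ℝ) + 1) ≤ T t}) =
      ENNReal.ofReal (R₀ - r) := by
    rw [← Real.volume_Ioo]
    apply measure_congr
    filter_upwards [hT] with t ht
    apply propext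
    constructor
    · intro h
      obtain ⟨n, hn⟩ := mem_iUnion.1 h
      exact ⟨hn.1, hn.2.1⟩
    · intro h
      obtain ⟨n, hn⟩ := exists_nat_one_div_lt (ht h.1 h.2)
      exact mem_iUnion.2 ⟨n, h.1, h.2, hn.le⟩
  rw [h2] at h1
  have h3 := (ENNReal.tendsto_toReal ENNReal.ofReal_ne_top).comp h1
  rw [ENNReal.toReal_ofReal (sub_nonneg.2 hr)] at h3
  exact h3

lemma etn_nn {n : ℕ} {g : ℂ → ℝ} {T : ℝ → ℝ} (T0 : ∀ r, 0 ≤ T r) (s : ℝ) : 0 ≤ etn n g T s := by
  unfold etn
  split_ifs with h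
  · exact div_nonneg zero_le_one (T0 _)
  · exact le_refl _

lemma etn_le {n : ℕ} {g : ℂ → ℝ} {T : ℝ → ℝ} (s : ℝ) : etn n g T s ≤ (n : ℝ) + 1 := by
  unfold etn
  split_ifs with h
  · have h1 : (0 : ℝ) < 1 / ((n : ℝ) + 1) := by positivity
    calc 1 / T (rad g s) ≤ 1 / (1 / ((n : ℝ) + 1)) := one_div_le_one_div_of_le h1 h.2
      _ = (n : ℝ) + 1 := by rw [one_div_one_div]
  · positivity

lemma etn_meas {n : ℕ} {g : ℂ → ℝ} {T : ℝ → ℝ} (mT : Measurable T) :
    Measurable (etn n g T) := by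
  unfold etn
  refine Measurable.ite ?_ ((mT.comp meas_rad).const_div 1) measurable_const
  exact (measurableSet_Ioi (a := (0 : ℝ))).inter (measurableSet_le measurable_const (mT.comp meas_rad))

end RIG_

open RIG_ in
theorem p_RIG (hLVL : T_LVL) (hCNE : T_CNE) (hBCH : T_BCH) (hLPW : T_LPW) (hEQM : T_EQM)
    (hRKV : T_RKV) (hRKF : T_RKF) (hRR1 : T_RR1) : T_RIG := by
  intro R g Γ G T hN hg mΓ hv mG mT T0 hG hTpos hΓ hlev
  obtain ⟨ra, rb, rc, rd, re⟩ := hRR1 R g hN
  obtain ⟨e1, e2', e3'⟩ := hEQM R g hN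
  have hrf := hRKF R g hN
  have rpos : ∀ t, 0 < t → (0 < rr g t ↔ t < rad g 0) := by
    intro t ht
    rw [ra 0 t le_rfl ht, lt_rad ht.le]
  have rzero : ∀ t, 0 < t → rad g 0 ≤ t → rr g t = 0 := by
    intro t ht h
    by_contra hc
    exact absurd ((rpos t ht).1 (lt_of_le_of_ne (rc t) (Ne.symm hc))) (not_lt.2 h)
  have hne : ∀ a : ℂ, ∀ᵐ x : ℂ, x ≠ a := by
    intro a
    rw [ae_iff]
    simp
  by_cases h0 : ar g 0 = 0
  · refine ⟨0, ?_⟩
    have h1 : volume {x | 0 < g x} = 0 := by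
      have h2 := fin_lt hN (le_refl (0 : ℝ))
      have h3 : (volume {x | 0 < g x}).toReal = 0 := h0
      rw [ENNReal.toReal_eq_zero_iff] at h3
      exact h3.resolve_right h2.ne
    have hrad : rad g 0 = 0 := by
      unfold rad
      rw [h0, zero_div, Real.sqrt_zero]
    filter_upwards [measure_eq_zero_iff_ae_notMem.1 h1, hne 0] with x hx hx0
    have h2 : g x = 0 := le_antisymm (not_lt.1 hx) (hN.nn x)
    rw [h2, sub_zero, rzero ‖x‖ (norm_pos_iff.2 hx0) (by rw [hrad]; exact norm_nonneg _)]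
  set R₀ := rad g 0 with hR₀
  have hR₀pos : 0 < R₀ := by
    rw [hR₀]
    unfold rad
    apply Real.sqrt_pos.2
    exact div_pos (lt_of_le_of_ne (ar_nn g 0) (Ne.symm h0)) Real.pi_pos
  -- the radius
  have hradv : ∀ x : ℂ, x ≠ 0 → 0 < rr g ‖x‖ → rad g (rr g ‖x‖) = ‖x‖ := by
    intro x hx hp
    apply hRKV R g hN x hx hp
    rw [e3' _ hp]
    exact hlev _ hp
  have htrans : ∀ A : Set ℝ, MeasurableSet A → (0 : ℝ) ∉ A →
      volume {x : ℂ | g x ∈ A} = volume {x : ℂ | rr g ‖x‖ ∈ A} := by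
    intro A hA hA0
    have h1 := e1 (A.indicator 1) (measurable_one.indicator hA) (indicator_of_notMem hA0 _)
    have h2 : ∫⁻ x : ℂ, A.indicator (1 : ℝ → ℝ≥0∞) (g x) = volume {x : ℂ | g x ∈ A} :=
      (lintegral_congr fun x => rfl).trans
        (lintegral_indicator_one (μ := (volume : Measure ℂ)) (hN.m hA))
    have h3 : ∫⁻ x : ℂ, A.indicator (1 : ℝ → ℝ≥0∞) (rr g ‖x‖) =
        volume {x : ℂ | rr g ‖x‖ ∈ A} :=
      (lintegral_congr fun x => rfl).trans
        (lintegral_indicator_one (μ := (volume : Measure ℂ)) (re.m hA))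
    rw [← h2, ← h3, h1]
  have hE0 : ∀ᵐ x, 0 < g x → 0 < rad g (g x) := by
    have hA : MeasurableSet {s : ℝ | 0 < s ∧ rad g s ≤ 0} :=
      (measurableSet_Ioi (a := (0 : ℝ))).inter (measurableSet_le meas_rad measurable_const)
    have h1 := htrans _ hA (by simp)
    have h2 : volume {x : ℂ | rr g ‖x‖ ∈ {s : ℝ | 0 < s ∧ rad g s ≤ 0}} = 0 := by
      refine measure_mono_null (t := {(0 : ℂ)}) (fun x hx => ?_) (measure_singleton _)
      by_contra hx0
      have hx1 : x ≠ 0 := hx0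
      obtain ⟨h3, h4⟩ := hx
      rw [hradv x hx1 h3] at h4
      exact absurd h4 (not_le.2 (norm_pos_iff.2 hx1))
    rw [h2] at h1
    filter_upwards [measure_eq_zero_iff_ae_notMem.1 h1] with x hx hgx
    by_contra hc
    exact hx ⟨hgx, not_lt.1 hc⟩
  have hE1 : ∀ᵐ x, 0 < g x → 0 < rad g (g x) ∧ rad g (g x) < R₀ ∧ rr g (rad g (g x)) = g x := by
    filter_upwards [hE0, hrf] with x hx1 hx2 hgx
    have h1 := hx1 hgx
    have h2 := hx2 hgx
    exact ⟨h1, (rpos _ h1).1 (by rw [h2]; exact hgx), h2⟩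
  -- positivity of the slope
  have hTr : ∀ᵐ t : ℝ, 0 < t → t < R₀ → 0 < T t := by
    have hE : MeasurableSet {t : ℝ | t < R₀ ∧ T t ≤ 0} :=
      (measurableSet_Iio (a := R₀)).inter (measurableSet_le mT measurable_const)
    have h1 : volume {x : ℂ | ‖x‖ ∈ {t : ℝ | t < R₀ ∧ T t ≤ 0}} = 0 := by
      rw [measure_eq_zero_iff_ae_notMem]
      filter_upwards [hTpos, hne 0] with x hx hx0 hc
      have h2 : 0 < ‖x‖ := norm_pos_iff.2 hx0
      exact absurd hc.2 (not_le.2 (hx ((rpos _ h2).2 hc.1)))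
    have h2 := radial_null hE h1
    filter_upwards [measure_eq_zero_iff_ae_notMem.1 h2] with t ht h3 h4
    by_contra hc
    exact ht ⟨⟨h4, not_lt.1 hc⟩, h3⟩
  -- the functions N_n (g)
  have hstep : ∀ n : ℕ, ∃ h : ℂ → ℝ, LipschitzWith 1 h ∧
      h =ᵐ[volume] fun P => ∫ t in (0 : ℝ)..(g P), etn n g T t := by
    intro n
    have h1 := hBCH ℂ (Fin 2) e2 (ball 0 R) g Γ (etn n g T) ((n : ℝ) + 1) isOpen_ball hg
      (etn_meas mT) (fun s => by rw [abs_of_nonneg (etn_nn T0 s)]; exact etn_le s)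
    refine hLPW _ _ _ h1 ?_
    filter_upwards [hΓ] with x hx
    have h2 : gn (fun i P => etn n g T (g P) * Γ i P) x = etn n g T (g x) * gn Γ x := by
      unfold gn
      have h3 : (etn n g T (g x) * Γ 0 x) ^ 2 + (etn n g T (g x) * Γ 1 x) ^ 2 =
          etn n g T (g x) ^ 2 * (Γ 0 x ^ 2 + Γ 1 x ^ 2) := by ring
      rw [h3, Real.sqrt_mul (sq_nonneg _), Real.sqrt_sq (etn_nn T0 _)]
    rw [h2]
    unfold etn
    split_ifs with h
    · rw [hx h.1]
      have h4 : (0 : ℝ) < T (rad g (g x)) := lt_of_lt_of_le (by positivity) h.2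
      rw [one_div, inv_mul_cancel₀ h4.ne']
    · rw [zero_mul]
      exact zero_le_one
  choose h hLip hae using hstep
  -- the limit
  set ℓ : ℂ → ℝ := fun x => if 0 < g x then R₀ - rad g (g x) else 0 with hℓ
  set D : Set ℂ := {x | (∀ n, h n x = ∫ t in (0 : ℝ)..(g x), etn n g T t) ∧
    (0 < g x → 0 < rad g (g x) ∧ rad g (g x) < R₀ ∧ rr g (rad g (g x)) = g x)} with hD
  have hDae : ∀ᵐ x, x ∈ D := by
    filter_upwards [ae_all_iff.2 hae, hE1] with x h1 h2
    exact ⟨h1, h2⟩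
  have hDd : Dense D := Measure.dense_of_ae hDae
  have hlim : ∀ x ∈ D, Tendsto (fun n => h n x) atTop (𝓝 (ℓ x)) := by
    rintro x ⟨h1, h2⟩
    by_cases hgx : 0 < g x
    · obtain ⟨h3, h4, h5⟩ := h2 hgx
      have h6 : 0 < ar g (g x) := by
        have h7 := (lt_rad (g := g) (s := g x) (le_refl (0 : ℝ))).1 h3
        simpa using h7
      have h8 : ∀ n, h n x = thn n R₀ T (rad g (g x)) := by
        intro n
        rw [h1 n, hLVL R g G T hN hv mG mT T0 hG hlev n (g x) hgx h6]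
      have h9 : ℓ x = R₀ - rad g (g x) := if_pos hgx
      rw [h9]
      refine (thn_tendsto h4.le ?_).congr fun n => (h8 n).symm
      filter_upwards [hTr] with t ht h10 h11
      exact ht (h3.trans h10) h11
    · have h3 : g x = 0 := le_antisymm (not_lt.1 hgx) (hN.nn x)
      have h9 : ℓ x = 0 := if_neg hgx
      have h8 : ∀ n, h n x = 0 := by
        intro n
        rw [h1 n, h3, intervalIntegral.integral_same]
      rw [h9]
      simp only [h8]
      exact tendsto_const_nhds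
  have hℓLip : LipschitzOnWith 1 ℓ D := by
    apply LipschitzOnWith.of_dist_le_mul
    intro x hx y hy
    refine le_of_tendsto ((hlim x hx).dist (hlim y hy)) (Eventually.of_forall fun n => ?_)
    exact (hLip n).dist_le_mul x y
  obtain ⟨L, hL, hLℓ⟩ := hℓLip.extend_real
  have hLD : ∀ x ∈ D, L x = ℓ x := fun x hx => (hLℓ hx).symm
  have hL0 : ∀ x : ℂ, R ≤ ‖x‖ → L x ≤ 0 := by
    intro x hx
    by_cases hRn : R < ‖x‖
    · have h1 : x ∈ closure ({y : ℂ | R < ‖y‖} ∩ D) :=
        hDd.open_subset_closure_inter (isOpen_lt continuous_const continuous_norm) hRn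
      have h2 : {y : ℂ | R < ‖y‖} ∩ D ⊆ {y | L y ≤ 0} := by
        rintro y ⟨hy1, hy2⟩
        have h3 : g y = 0 := hN.z y (le_of_lt hy1)
        show L y ≤ 0
        rw [hLD y hy2, hℓ]
        simp [h3]
      exact closure_minimal h2 (isClosed_le hL.continuous continuous_const) h1
    · have hxR : ‖x‖ = R := le_antisymm (not_lt.1 hRn) hx
      have hRpos : 0 < R := by
        by_contra hc
        apply h0
        have h3 : {x : ℂ | 0 < g x} = ∅ := by
          ext y
          simp only [mem_ofPred_eq, mem_empty_iff_false, iff_false, not_lt]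
          rw [hN.z y ((not_lt.1 hc).trans (norm_nonneg _))]
        show (volume {x : ℂ | 0 < g x}).toReal = 0
        rw [h3, measure_empty, ENNReal.toReal_zero]
      have h4 : ∀ n : ℕ, L ((1 + 1 / ((n : ℝ) + 1)) • x) ≤ 0 := by
        intro n
        have h5 : R < ‖(1 + 1 / ((n : ℝ) + 1)) • x‖ := by
          have h6 : (0 : ℝ) < 1 / ((n : ℝ) + 1) := by positivity
          rw [norm_smul, Real.norm_of_nonneg (by positivity), hxR]
          nlinarith
        have h1 : (1 + 1 / ((n : ℝ) + 1)) • x ∈ closure ({y : ℂ | R < ‖y‖} ∩ D) :=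
          hDd.open_subset_closure_inter (isOpen_lt continuous_const continuous_norm) h5
        have h2 : {y : ℂ | R < ‖y‖} ∩ D ⊆ {y | L y ≤ 0} := by
          rintro y ⟨hy1, hy2⟩
          have h3 : g y = 0 := hN.z y (le_of_lt hy1)
          show L y ≤ 0
          rw [hLD y hy2, hℓ]
          simp [h3]
        exact closure_minimal h2 (isClosed_le hL.continuous continuous_const) h1
      have h5 : Tendsto (fun n : ℕ => (1 + 1 / ((n : ℝ) + 1)) • x) atTop (𝓝 x) := by
        have h6 : Tendsto (fun n : ℕ => (1 + 1 / ((n : ℝ) + 1))) atTop (𝓝 (1 + 0)) :=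
          tendsto_const_nhds.add tendsto_one_div_add_atTop_nhds_zero_nat
        have h7 := h6.smul_const x
        rw [add_zero, one_smul] at h7
        exact h7
      exact le_of_tendsto ((hL.continuous.tendsto x).comp h5) (Eventually.of_forall h4)
  have hvol : ∀ s, 0 ≤ s → s < R₀ →
      volume {x | s < L x} = ENNReal.ofReal (Real.pi * (R₀ - s) ^ 2) := by
    intro s hs hsR
    have hA : MeasurableSet {σ : ℝ | 0 < σ ∧ rad g σ < R₀ - s} :=
      (measurableSet_Ioi (a := (0 : ℝ))).inter (measurableSet_lt meas_rad measurable_const)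
    have h1 := htrans _ hA (by simp)
    have h2 : volume {x | s < L x} = volume {x : ℂ | g x ∈ {σ : ℝ | 0 < σ ∧ rad g σ < R₀ - s}} := by
      apply measure_congr
      filter_upwards [hDae] with x hx
      apply propext
      show s < L x ↔ 0 < g x ∧ rad g (g x) < R₀ - s
      rw [hLD x hx]
      by_cases hgx : 0 < g x
      · have h9 : ℓ x = R₀ - rad g (g x) := if_pos hgx
        rw [h9]
        constructor
        · intro h; exact ⟨hgx, by linarith⟩
        · rintro ⟨-, h⟩; linarith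
      · have h9 : ℓ x = 0 := if_neg hgx
        rw [h9]
        constructor
        · intro h; exact absurd h (not_lt.2 hs)
        · rintro ⟨h, -⟩; exact absurd h hgx
    have h3 : volume {x : ℂ | rr g ‖x‖ ∈ {σ : ℝ | 0 < σ ∧ rad g σ < R₀ - s}} =
        volume (ball (0 : ℂ) (R₀ - s)) := by
      apply measure_congr
      filter_upwards [hne 0] with x hx
      apply propext
      show (0 < rr g ‖x‖ ∧ rad g (rr g ‖x‖) < R₀ - s) ↔ x ∈ ball (0 : ℂ) (R₀ - s)
      rw [mem_ball_zero_iff]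
      have hxp : 0 < ‖x‖ := norm_pos_iff.2 hx
      constructor
      · rintro ⟨h4, h5⟩
        rw [hradv x hx h4] at h5
        exact h5
      · intro h4
        have h5 : 0 < rr g ‖x‖ := (rpos _ hxp).2 (by linarith)
        exact ⟨h5, by rw [hradv x hx h5]; exact h4⟩
    rw [h2, h1, h3, Complex.volume_ball, ENNReal.ofReal_mul Real.pi_pos.le,
      ENNReal.ofReal_pow (by linarith), mul_comm]
    congr 1
    rw [ENNReal.ofReal_eq_coe_nnreal Real.pi_pos.le]
    rfl
  obtain ⟨c, hc⟩ := hCNE R R₀ L hR₀pos hL hL0 hvol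
  refine ⟨c, ?_⟩
  filter_upwards [hDae, hne c] with x hx hxc
  have h1 := hc x
  have hxp : 0 < ‖x - c‖ := norm_pos_iff.2 (sub_ne_zero.2 hxc)
  rw [hLD x hx] at h1
  by_cases hgx : 0 < g x
  · obtain ⟨h3, h4, h5⟩ := hx.2 hgx
    have h9 : ℓ x = R₀ - rad g (g x) := if_pos hgx
    rw [h9, max_eq_left (by linarith)] at h1
    have h10 : 0 < R₀ - ‖x - c‖ := by
      by_contra hc'
      rw [max_eq_right (not_lt.1 hc')] at h1
      linarith
    rw [max_eq_left h10.le] at h1
    have h11 : rad g (g x) = ‖x - c‖ := by linarith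
    rw [← h11, h5]
  · have h2 : g x = 0 := le_antisymm (not_lt.1 hgx) (hN.nn x)
    have h9 : ℓ x = 0 := if_neg hgx
    rw [h9, max_self] at h1
    have h10 : R₀ - ‖x - c‖ ≤ 0 := by
      rw [h1]
      exact le_max_left _ _
    rw [h2, rzero _ hxp (by linarith)]

end MGS
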