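import Pool.Agent.MGS.TB

/-!
# MGS: the target RIN (helper9)

Rotation invariant functions are functions of `(|x|, z)`: average over the rotations.
-/

set_option autoImplicit false

open MeasureTheory Filter Topology Metric Set
open scoped ENNReal NNReal ContDiff

noncomputable section

namespace MGS

namespace RIN_

/-- rotations preserve the measure -/
theorem mp_ro (w : ℂ) (hw : ‖w‖ = 1) : MeasurePreserving (ro w) (volume : Measure X) volume := by
  have h1 : MeasurePreserving (fun z : ℂ => w * z) volume volume := by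
    let a : Circle := ⟨w, by simpa [Submonoid.unitSphere] using hw⟩
    have h := (rotation a).measurePreserving
    exact h
  have h2 : MeasurePreserving (Prod.map (fun z : ℂ => w * z) (id : ℝ → ℝ))
      ((volume : Measure ℂ).prod (volume : Measure ℝ))
      ((volume : Measure ℂ).prod (volume : Measure ℝ)) :=
    h1.prod (MeasurePreserving.id _)
  exact h2

/-- unit numbers -/
def cc (θ : ℝ) : ℂ := Complex.exp (θ * Complex.I)

theorem cc_norm (θ : ℝ) : ‖cc θ‖ = 1 := Complex.norm_exp_ofReal_mul_I θ

theorem cc_meas : Measurable cc := by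
  unfold cc
  fun_prop

theorem cc_mul (x : ℂ) (θ : ℝ) : cc θ * (‖x‖ : ℂ) = cc (θ + -(Complex.arg x)) * x := by
  unfold cc
  calc Complex.exp (θ * Complex.I) * (‖x‖ : ℂ)
      = (‖x‖ : ℂ) * (Complex.exp (((θ + -(Complex.arg x) : ℝ) : ℂ) * Complex.I) *
        Complex.exp (Complex.arg x * Complex.I)) := by
        rw [← Complex.exp_add, mul_comm]
        congr 2
        push_cast
        ring
    _ = Complex.exp (((θ + -(Complex.arg x) : ℝ) : ℂ) * Complex.I) *
        ((‖x‖ : ℂ) * Complex.exp (Complex.arg x * Complex.I)) := by ring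
    _ = Complex.exp (((θ + -(Complex.arg x) : ℝ) : ℂ) * Complex.I) * x := by
        rw [Complex.norm_mul_exp_arg_mul_I]

end RIN_

open RIN_ in
/-- RIN -/
theorem p_RIN : T_RIN := by
  intro k hk hrot
  obtain ⟨k', hk'm, hk'⟩ := hk.aestronglyMeasurable
  have hm : Measurable k' := hk'm.measurable
  have hr : ∀ θ : ℝ, ∀ᵐ P : X, k' (ro (cc θ) P) = k' P := by
    intro θ
    filter_upwards [hrot (cc θ) (cc_norm θ), hk',
      (mp_ro (cc θ) (cc_norm θ)).quasiMeasurePreserving.ae hk'] with P h1 h2 h3
    rw [← h3, h1, h2]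
  have hset : MeasurableSet {p : ℝ × X | k' (ro (cc p.1) p.2) = k' p.2} := by
    refine measurableSet_eq_fun (hm.comp ?_) (hm.comp measurable_snd)
    unfold ro
    exact ((cc_meas.comp measurable_fst).mul (measurable_fst.comp measurable_snd)).prodMk
      (measurable_snd.comp measurable_snd)
  have h1 : ∀ᵐ P : X, ∀ᵐ θ : ℝ, k' (ro (cc θ) P) = k' P :=
    (Measure.ae_ae_comm (μ := (volume : Measure ℝ)) (ν := (volume : Measure X))
      (p := fun θ P => k' (ro (cc θ) P) = k' P) hset).1 (Eventually.of_forall hr)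
  refine ⟨fun r z => ∫ θ in Ioc (0 : ℝ) 1, k' (cc θ * (r : ℂ), z), ?_, ?_⟩
  · have h2 : Measurable (fun p : (ℝ × ℝ) × ℝ => k' (cc p.2 * (p.1.1 : ℂ), p.1.2)) := by
      refine hm.comp ?_
      exact ((cc_meas.comp measurable_snd).mul (Complex.measurable_ofReal.comp
        (measurable_fst.comp measurable_fst))).prodMk (measurable_snd.comp measurable_fst)
    have h3 := (h2.stronglyMeasurable.integral_prod_right'
      (ν := (volume : Measure ℝ).restrict (Ioc (0 : ℝ) 1))).measurable
    exact h3
  · filter_upwards [h1, hk'] with P hP hkP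
    rw [hkP]
    have h4 := (measurePreserving_add_right (volume : Measure ℝ)
      (-(Complex.arg P.1))).quasiMeasurePreserving.ae hP
    have h5 : ∀ᵐ θ : ℝ, k' (cc θ * ((‖P.1‖ : ℝ) : ℂ), P.2) = k' P := by
      filter_upwards [h4] with θ hθ
      rw [cc_mul]
      exact hθ
    have h6 : ∫ θ in Ioc (0 : ℝ) 1, k' (cc θ * ((‖P.1‖ : ℝ) : ℂ), P.2) =
        ∫ _θ in Ioc (0 : ℝ) 1, k' P := by
      refine integral_congr_ae ?_
      filter_upwards [ae_restrict_of_ae h5] with θ hθ
      exact hθ
    rw [h6]
    simp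

end MGS
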