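import Pool.Agent.MGS.TD

/-! # MGS-RKF: the rearrangement at the rank radius -/

set_option autoImplicit false

open MeasureTheory Filter Topology Metric Set
open scoped ENNReal NNReal ContDiff

noncomputable section

namespace MGS

theorem RKF_null (g : ℂ → ℝ) (q : ℝ) :
    volume {x | q < g x ∧ volume {y | q < g y ∧ g y ≤ g x} = 0} = 0 := by
  set S : Set ℂ := {x | q < g x ∧ volume {y | q < g y ∧ g y ≤ g x} = 0} with hS
  by_cases h : ∃ x ∈ S, ∀ x' ∈ S, g x' ≤ g x
  · obtain ⟨x, hx, hx'⟩ := h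
    refine measure_mono_null (t := {y | q < g y ∧ g y ≤ g x}) ?_ hx.2
    intro y hy
    exact ⟨hy.1, hx' y hy⟩
  · push Not at h
    classical
    have h1 : S ⊆ ⋃ r : ℚ, (if volume {y | q < g y ∧ g y ≤ (r : ℝ)} = 0 then
        {y | q < g y ∧ g y ≤ (r : ℝ)} else ∅) := by
      intro x hx
      obtain ⟨x', hx', hlt⟩ := h x hx
      obtain ⟨r, hr1, hr2⟩ := exists_rat_btwn hlt
      refine mem_iUnion.2 ⟨r, ?_⟩
      have h2 : volume {y | q < g y ∧ g y ≤ (r : ℝ)} = 0 := by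
        refine measure_mono_null (t := {y | q < g y ∧ g y ≤ g x'}) ?_ hx'.2
        intro y hy
        exact ⟨hy.1, hy.2.trans hr2.le⟩
      rw [if_pos h2]
      exact ⟨hx.1, hr1.le⟩
    refine measure_mono_null h1 ?_
    refine measure_iUnion_null fun r => ?_
    by_cases h3 : volume {y | q < g y ∧ g y ≤ (r : ℝ)} = 0
    · rw [if_pos h3]
      exact h3
    · rw [if_neg h3]
      exact measure_empty

theorem RKF_fin {R : ℝ} {g : ℂ → ℝ} (hg : Nc R g) {q : ℝ} (hq : 0 ≤ q) :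
    volume {y | q < g y} ≠ ⊤ := by
  refine ne_top_of_le_ne_top (measure_ball_lt_top (x := (0 : ℂ)) (r := R)).ne
    (measure_mono ?_)
  intro y hy
  rw [mem_ball_zero_iff]
  by_contra hlt
  have := hg.z y (not_lt.1 hlt)
  have hy' : q < g y := hy
  rw [this] at hy'
  exact absurd hy' (not_lt.2 hq)

theorem RKF_anti {R : ℝ} {g : ℂ → ℝ} (hg : Nc R g) {q s : ℝ} (hq : 0 ≤ q) (hqs : q ≤ s) :
    ar g s ≤ ar g q := by
  unfold ar
  refine ENNReal.toReal_mono (RKF_fin hg hq) (measure_mono ?_)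
  intro y hy
  exact lt_of_le_of_lt hqs hy

theorem RKF_lt {R : ℝ} {g : ℂ → ℝ} (hg : Nc R g) {q s : ℝ} (hq : 0 ≤ q) (hqs : q ≤ s)
    (h : volume {y | q < g y ∧ g y ≤ s} ≠ 0) : ar g s < ar g q := by
  have hm1 : MeasurableSet {y | q < g y ∧ g y ≤ s} :=
    (measurableSet_lt measurable_const hg.m).inter (measurableSet_le hg.m measurable_const)
  have hdis : Disjoint {y | s < g y} {y | q < g y ∧ g y ≤ s} := by
    rw [Set.disjoint_left]
    intro y hy hy'
    exact absurd (lt_of_lt_of_le hy hy'.2) (lt_irrefl _)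
  have hun : {y | q < g y} = {y | s < g y} ∪ {y | q < g y ∧ g y ≤ s} := by
    ext y
    constructor
    · intro hy
      rcases lt_or_ge s (g y) with h1 | h1
      · exact Or.inl h1
      · exact Or.inr ⟨hy, h1⟩
    · rintro (hy | hy)
      · exact lt_of_le_of_lt hqs hy
      · exact hy.1
  have h1 := measure_union (μ := (volume : Measure ℂ)) hdis hm1
  rw [← hun] at h1
  unfold ar
  have hs : volume {y | s < g y} ≠ ⊤ := RKF_fin hg (hq.trans hqs)
  refine (ENNReal.toReal_lt_toReal hs (RKF_fin hg hq)).2 ?_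
  rw [h1]
  exact ENNReal.lt_add_right hs h

theorem p_RKF : T_RKF := by
  intro R g hg
  have h1 : ∀ᵐ x : ℂ, ∀ q : ℚ, ¬ ((q : ℝ) < g x ∧
      volume {y | (q : ℝ) < g y ∧ g y ≤ g x} = 0) := by
    rw [ae_all_iff]
    intro q
    rw [ae_iff]
    simpa using RKF_null g q
  filter_upwards [h1] with x hx hpos
  have har : 0 ≤ ar g (g x) := ENNReal.toReal_nonneg
  have hrad : Real.pi * rad g (g x) ^ 2 = ar g (g x) := by
    unfold rad
    rw [Real.sq_sqrt (div_nonneg har Real.pi_pos.le)]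
    field_simp
  unfold rr
  rw [hrad]
  have hub : ∀ s ∈ {s : ℝ | 0 ≤ s ∧ ar g (g x) < ar g s}, s ≤ g x := by
    rintro s ⟨_, hs1⟩
    by_contra hlt
    exact absurd hs1 (not_lt.2 (RKF_anti hg hpos.le (not_le.1 hlt).le))
  apply le_antisymm
  · exact Real.sSup_le hub hpos.le
  · refine le_of_forall_lt_imp_le_of_dense ?_
    intro a ha
    obtain ⟨q, hq1, hq2⟩ := exists_rat_btwn (max_lt ha hpos)
    have hq0 : (0 : ℝ) ≤ q := (le_max_right a 0).trans hq1.le
    have h3 : volume {y | (q : ℝ) < g y ∧ g y ≤ g x} ≠ 0 := fun h0 => hx q ⟨hq2, h0⟩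
    have h4 : ar g (g x) < ar g q := RKF_lt hg hq0 hq2.le h3
    refine le_trans ((le_max_left a 0).trans hq1.le) ?_
    exact le_csSup ⟨g x, hub⟩ ⟨hq0, h4⟩

end MGS
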