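import Pool.Agent.MGS.TD

/-!
# MGS: target RKV (helper32)
-/

set_option autoImplicit false

open MeasureTheory Filter Topology Metric Set
open scoped ENNReal NNReal ContDiff

noncomputable section

namespace MGS

/-- the rank radius of the rearrangement -/
theorem p_RKV (hRR1 : T_RR1) : T_RKV := by
  intro R g hg x hx hpos hnull
  obtain ⟨-, hanti, -, hvol, -⟩ := hRR1 R g hg
  set s := rr g ‖x‖ with hs
  have hx0 : 0 < ‖x‖ := norm_pos_iff.2 hx
  have h1 : {y : ℂ | s < rr g ‖y‖} ⊆ ball (0 : ℂ) ‖x‖ := by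
    intro y hy
    rw [mem_ball_zero_iff]
    by_contra hc
    have hc' : ‖x‖ ≤ ‖y‖ := not_lt.1 hc
    have h2 : rr g ‖y‖ ≤ rr g ‖x‖ := hanti (mem_Ioi.2 hx0) (mem_Ioi.2 (hx0.trans_le hc')) hc'
    exact absurd (hy : s < rr g ‖y‖) (not_lt.2 h2)
  have h2 : ball (0 : ℂ) ‖x‖ ⊆ {y : ℂ | s < rr g ‖y‖} ∪ ({y : ℂ | rr g ‖y‖ = s} ∪ {0}) := by
    intro y hy
    rw [mem_ball_zero_iff] at hy
    by_cases hy0 : y = 0
    · exact Or.inr (Or.inr hy0)
    · have hy1 : 0 < ‖y‖ := norm_pos_iff.2 hy0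
      have h3 : rr g ‖x‖ ≤ rr g ‖y‖ := hanti (mem_Ioi.2 hy1) (mem_Ioi.2 hx0) hy.le
      rcases h3.lt_or_eq with h4 | h4
      · exact Or.inl h4
      · exact Or.inr (Or.inl h4.symm)
  have h3 : volume {y : ℂ | s < rr g ‖y‖} = volume (ball (0 : ℂ) ‖x‖) := by
    refine le_antisymm (measure_mono h1) ((measure_mono h2).trans ?_)
    refine (measure_union_le _ _).trans ?_
    have h4 : volume ({y : ℂ | rr g ‖y‖ = s} ∪ {0}) = 0 := by
      refine measure_union_null hnull ?_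
      exact measure_singleton 0
    rw [h4, add_zero]
  have h4 : ar g s = Real.pi * ‖x‖ ^ 2 := by
    unfold ar
    rw [← hvol s hpos.le, h3, Complex.volume_ball, ENNReal.toReal_mul, ENNReal.toReal_pow,
      ENNReal.toReal_ofReal (norm_nonneg _)]
    simp
    ring
  unfold rad
  rw [h4, mul_div_cancel_left₀ _ Real.pi_ne_zero, Real.sqrt_sq (norm_nonneg _)]

end MGS
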