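import Pool.Agent.MGS.TB

/-!
# MGS: a slicewise radially nonincreasing function is its own rearrangement (RRD)
-/

set_option autoImplicit false

open MeasureTheory Filter Topology Metric Set
open scoped ENNReal NNReal ContDiff

noncomputable section

namespace MGS

namespace RRD_

theorem nc_sl {R : ℝ} {v : X → ℝ} (h : Nx R v) (z : ℝ) : Nc R (sl v z) where
  m := h.m.comp (measurable_id.prodMk measurable_const)
  nn := fun _ => h.nn _
  z := fun _ hx => h.z _ (hx.trans (le_max_left _ _))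

theorem fin_lt {R : ℝ} {g : ℂ → ℝ} (h : Nc R g) {s : ℝ} (hs : 0 ≤ s) :
    volume {x : ℂ | s < g x} ≠ ⊤ := by
  refine ne_top_of_le_ne_top (measure_ball_lt_top (μ := volume) (x := (0 : ℂ)) (r := R)).ne
    (measure_mono fun x hx => ?_)
  rw [mem_ball_zero_iff]
  by_contra hcon
  push Not at hcon
  have h1 : s < g x := hx
  rw [h.z x hcon] at h1
  linarith

theorem ar_anti {R : ℝ} {g : ℂ → ℝ} (h : Nc R g) {s s' : ℝ} (hs : 0 ≤ s) (hss : s ≤ s') :
    ar g s' ≤ ar g s := by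
  unfold ar
  exact ENNReal.toReal_mono (fin_lt h hs) (measure_mono fun x hx => lt_of_le_of_lt hss hx)

theorem rr_nonneg {g : ℂ → ℝ} (t : ℝ) : 0 ≤ rr g t := Real.sSup_nonneg fun _ hs => hs.1

/-- `ar g n → 0` -/
theorem ar_small {R : ℝ} {g : ℂ → ℝ} (h : Nc R g) {δ : ℝ} (hδ : 0 < δ) :
    ∃ n : ℕ, ar g n ≤ δ := by
  have h1 : Tendsto (fun n : ℕ => volume {x : ℂ | (n : ℝ) < g x}) atTop
      (𝓝 (volume (⋂ n : ℕ, {x : ℂ | (n : ℝ) < g x}))) := by
    refine tendsto_measure_iInter_atTop (fun n => ?_) ?_ ⟨0, fin_lt h (by simp)⟩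
    · exact (measurableSet_lt measurable_const h.m).nullMeasurableSet
    · intro n m hnm x hx
      have h2 : (n : ℝ) ≤ m := by exact_mod_cast hnm
      exact lt_of_le_of_lt h2 hx
  have h2 : (⋂ n : ℕ, {x : ℂ | (n : ℝ) < g x}) = ∅ := by
    ext x
    simp only [mem_iInter, mem_ofPred_eq, mem_empty_iff_false, iff_false, not_forall, not_lt]
    exact exists_nat_ge (g x)
  rw [h2, measure_empty] at h1
  have h3 : Tendsto (fun n : ℕ => ar g n) atTop (𝓝 0) := by
    have := (ENNReal.tendsto_toReal ENNReal.zero_ne_top).comp h1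
    rw [ENNReal.toReal_zero] at this
    exact this
  obtain ⟨n, hn⟩ := (h3.eventually (ge_mem_nhds hδ)).exists
  exact ⟨n, hn⟩

theorem bdd_iff {R : ℝ} {g : ℂ → ℝ} (h : Nc R g) (t : ℝ) :
    BddAbove {s : ℝ | 0 ≤ s ∧ Real.pi * t ^ 2 < ar g s} ↔ ∃ n : ℕ, ar g n ≤ Real.pi * t ^ 2 := by
  constructor
  · rintro ⟨M, hM⟩
    obtain ⟨n, hn⟩ := exists_nat_gt M
    refine ⟨n, ?_⟩
    by_contra hcon
    push Not at hcon
    have := hM (show (n : ℝ) ∈ {s : ℝ | 0 ≤ s ∧ Real.pi * t ^ 2 < ar g s} from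
      ⟨Nat.cast_nonneg n, hcon⟩)
    linarith
  · rintro ⟨n, hn⟩
    refine ⟨n, fun s hs => ?_⟩
    by_contra hcon
    push Not at hcon
    have h1 := ar_anti h (Nat.cast_nonneg n) hcon.le
    have h2 : Real.pi * t ^ 2 < ar g s := hs.2
    linarith

theorem lt_rr_iff {R : ℝ} {g : ℂ → ℝ} (h : Nc R g) (t : ℝ) {q : ℝ} (hq : 0 ≤ q) :
    q < rr g t ↔ (∃ n : ℕ, ar g n ≤ Real.pi * t ^ 2) ∧
      ∃ s : ℚ, q < s ∧ Real.pi * t ^ 2 < ar g s := by
  rw [← bdd_iff h t]
  unfold rr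
  constructor
  · intro h1
    have hb : BddAbove {s : ℝ | 0 ≤ s ∧ Real.pi * t ^ 2 < ar g s} := by
      by_contra hcon
      rw [Real.sSup_of_not_bddAbove hcon] at h1
      linarith
    refine ⟨hb, ?_⟩
    have hne : {s : ℝ | 0 ≤ s ∧ Real.pi * t ^ 2 < ar g s}.Nonempty := by
      by_contra hcon
      rw [Set.not_nonempty_iff_eq_empty] at hcon
      rw [hcon, Real.sSup_empty] at h1
      linarith
    obtain ⟨s, hs, hqs⟩ := (lt_csSup_iff hb hne).1 h1
    obtain ⟨p, hp1, hp2⟩ := exists_rat_btwn hqs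
    exact ⟨p, hp1, lt_of_lt_of_le hs.2 (ar_anti h (hq.trans hp1.le) hp2.le)⟩
  · rintro ⟨hb, s, hqs, hs⟩
    exact lt_of_lt_of_le hqs (le_csSup hb ⟨hq.trans hqs.le, hs⟩)

theorem meas_ar {R : ℝ} {v : X → ℝ} (h : Nx R v) (s : ℝ) : Measurable fun z => ar (sl v z) s := by
  unfold ar sl
  refine Measurable.ennreal_toReal ?_
  have h1 : MeasurableSet {P : ℂ × ℝ | s < v P} := measurableSet_lt measurable_const h.m
  exact measurable_measure_prodMk_right h1

theorem meas {R : ℝ} {v : X → ℝ} (h : Nx R v) :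
    Measurable (Function.uncurry fun r z => rr (sl v z) r) := by
  refine measurable_of_Ioi fun q => ?_
  rcases lt_or_ge q 0 with hq | hq
  · have : (Function.uncurry fun r z => rr (sl v z) r) ⁻¹' Ioi q = univ := by
      ext P
      simp only [mem_preimage, mem_Ioi, mem_univ, iff_true]
      exact lt_of_lt_of_le hq (rr_nonneg _)
    rw [this]
    exact MeasurableSet.univ
  · have : (Function.uncurry fun r z => rr (sl v z) r) ⁻¹' Ioi q =
        (⋃ n : ℕ, {P : ℝ × ℝ | ar (sl v P.2) n ≤ Real.pi * P.1 ^ 2}) ∩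
        ⋃ s : ℚ, {P : ℝ × ℝ | q < s ∧ Real.pi * P.1 ^ 2 < ar (sl v P.2) s} := by
      ext P
      simp only [mem_preimage, mem_Ioi, mem_inter_iff, mem_iUnion, mem_ofPred_eq]
      exact lt_rr_iff (nc_sl h P.2) P.1 hq
    rw [this]
    refine MeasurableSet.inter (MeasurableSet.iUnion fun n => ?_) (MeasurableSet.iUnion fun s => ?_)
    · exact measurableSet_le ((meas_ar h _).comp measurable_snd) (by fun_prop)
    · refine MeasurableSet.inter (MeasurableSet.const _) ?_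
      exact measurableSet_lt (by fun_prop) ((meas_ar h _).comp measurable_snd)

theorem anti {R : ℝ} {g : ℂ → ℝ} (h : Nc R g) : AntitoneOn (fun r => rr g r) (Set.Ioi 0) := by
  intro r hr r' hr' hrr
  have hr0 : 0 < r := hr
  show rr g r' ≤ rr g r
  refine Real.sSup_le (fun s hs => ?_) (rr_nonneg r)
  refine le_csSup ((bdd_iff h r).2 (ar_small h (by positivity))) ⟨hs.1, lt_of_le_of_lt ?_ hs.2⟩
  have : r ^ 2 ≤ r' ^ 2 := pow_le_pow_left₀ hr0.le hrr 2
  exact mul_le_mul_of_nonneg_left this Real.pi_pos.le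

theorem circ_null (c : ℝ) : volume {x : ℂ | Real.pi * ‖x‖ ^ 2 = c} = 0 := by
  refine measure_mono_null (t := sphere (0 : ℂ) (Real.sqrt (c / Real.pi))) ?_
    (Measure.addHaar_sphere volume _ _)
  intro x hx
  have h1 : Real.pi * ‖x‖ ^ 2 = c := hx
  rw [mem_sphere_zero_iff_norm, ← h1, mul_div_cancel_left₀ _ Real.pi_pos.ne',
    Real.sqrt_sq (norm_nonneg x)]

theorem vol_cb (r : ℝ) (hr : 0 ≤ r) : (volume (closedBall (0 : ℂ) r)).toReal = Real.pi * r ^ 2 := by
  rw [Complex.volume_closedBall]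
  simp [ENNReal.toReal_ofReal hr]
  ring

theorem vol_b (r : ℝ) (hr : 0 ≤ r) : (volume (ball (0 : ℂ) r)).toReal = Real.pi * r ^ 2 := by
  rw [Complex.volume_ball]
  simp [ENNReal.toReal_ofReal hr]
  ring

theorem slice {R : ℝ} {g : ℂ → ℝ} (h : Nc R g) (S : Set ℂ) (hS : volume Sᶜ = 0)
    (hm : ∀ x ∈ S, ∀ y ∈ S, ‖x‖ < ‖y‖ → g y ≤ g x) : ∀ᵐ x : ℂ, g x = rr g ‖x‖ := by
  have h1 : ∀ᵐ x : ℂ, x ∈ S := by
    rw [ae_iff]
    exact hS
  have h2 : ∀ᵐ x : ℂ, ∀ s : ℚ, Real.pi * ‖x‖ ^ 2 ≠ ar g s := by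
    refine ae_all_iff.2 fun s => ?_
    rw [ae_iff]
    simpa using circ_null (ar g s)
  filter_upwards [h1, h2] with x hx hx2
  have up : ∀ s : ℝ, 0 ≤ s → Real.pi * ‖x‖ ^ 2 < ar g s → s < g x := by
    intro s hs h3
    by_contra hcon
    push Not at hcon
    have h4 : volume {y : ℂ | s < g y} ≤ volume (closedBall (0 : ℂ) ‖x‖) := by
      refine measure_mono_ae ?_
      filter_upwards [h1] with y hy hsy
      show y ∈ closedBall (0 : ℂ) ‖x‖
      rw [mem_closedBall_zero_iff]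
      by_contra hcon2
      push Not at hcon2
      have h5 : s < g y := hsy
      have h6 := hm x hx y hy hcon2
      linarith
    have h5 : ar g s ≤ Real.pi * ‖x‖ ^ 2 := by
      rw [← vol_cb _ (norm_nonneg x)]
      exact ENNReal.toReal_mono (isCompact_closedBall _ _).measure_lt_top.ne h4
    linarith
  refine le_antisymm ?_ ?_
  · by_contra hcon
    push Not at hcon
    obtain ⟨s, hs1, hs2⟩ := exists_rat_btwn hcon
    have hs0 : (0 : ℝ) ≤ s := (rr_nonneg _).trans hs1.le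
    have h4 : volume (ball (0 : ℂ) ‖x‖) ≤ volume {y : ℂ | (s : ℝ) < g y} := by
      refine measure_mono_ae ?_
      filter_upwards [h1] with y hy hyb
      show (s : ℝ) < g y
      have h5 : y ∈ ball (0 : ℂ) ‖x‖ := hyb
      rw [mem_ball_zero_iff] at h5
      exact lt_of_lt_of_le hs2 (hm y hy x hx h5)
    have h5 : Real.pi * ‖x‖ ^ 2 ≤ ar g s := by
      rw [← vol_b _ (norm_nonneg x)]
      exact ENNReal.toReal_mono (fin_lt h hs0) h4
    have h6 : Real.pi * ‖x‖ ^ 2 < ar g s := lt_of_le_of_ne h5 (hx2 s)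
    have h7 : (s : ℝ) ≤ rr g ‖x‖ := le_csSup ⟨g x, fun s' hs' => (up s' hs'.1 hs'.2).le⟩ ⟨hs0, h6⟩
    linarith
  · exact Real.sSup_le (fun s hs => (up s hs.1 hs.2).le) (h.nn x)

end RRD_

theorem p_RRD : T_RRD := by
  intro R v S hv hS hS0 hm
  have mrr := RRD_.meas hv
  refine ⟨?_, mrr, fun z => RRD_.anti (RRD_.nc_sl hv z), fun r z => RRD_.rr_nonneg _⟩
  have mvs : Measurable (vs v) := by
    have h1 : Measurable fun P : X => (‖P.1‖, P.2) := by fun_prop
    exact mrr.comp h1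
  have meq : MeasurableSet {P : ℂ × ℝ | v P = vs v P} := measurableSet_eq_fun hv.m mvs
  have hsl : ∀ᵐ z : ℝ, volume {x : ℂ | (x, z) ∈ S}ᶜ = 0 := by
    have h1 : ∀ᵐ P : ℂ × ℝ, P ∈ S := by
      rw [ae_iff]
      exact hS0
    have hS' : MeasurableSet {P : ℂ × ℝ | P ∈ S} := hS
    rw [Measure.volume_eq_prod, Measure.ae_prod_iff_ae_ae hS',
      Measure.ae_ae_comm (p := fun x z => (x, z) ∈ S) hS'] at h1
    filter_upwards [h1] with z hz
    rw [ae_iff] at hz
    exact hz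
  rw [Measure.volume_eq_prod, Measure.ae_prod_iff_ae_ae meq,
    Measure.ae_ae_comm (p := fun x z => v (x, z) = vs v (x, z)) meq]
  filter_upwards [hsl] with z hz
  exact RRD_.slice (RRD_.nc_sl hv z) {x : ℂ | (x, z) ∈ S} hz
    fun x hx y hy hxy => hm (x, z) hx (y, z) hy rfl hxy

end MGS
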