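import Pool.Agent.MGS.TB

/-!
# MGS: the sign of the shifted horizontal derivative (SHI)
-/

set_option autoImplicit false

open MeasureTheory Filter Topology Metric Set
open scoped ENNReal NNReal ContDiff

noncomputable section

namespace MGS

namespace SHI_

theorem sh_eq (h : ℝ) (P : X) : sh h P = P + ((h : ℂ), (0 : ℝ)) := by
  unfold sh
  ext <;> simp

theorem ae_sh {p : X → Prop} (h : ℝ) (hp : ∀ᵐ P, p P) : ∀ᵐ P, p (sh h P) := by
  have h1 : MeasurePreserving (fun P : X => P + ((h : ℂ), (0 : ℝ))) volume volume :=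
    measurePreserving_add_right volume _
  have h2 := h1.quasiMeasurePreserving.ae hp
  filter_upwards [h2] with P hP
  rwa [sh_eq]

theorem h1_sh (h_TRL : T_TRL) {G : Set X} {f : X → ℝ} {F : Fin 3 → X → ℝ} (h : ℝ)
    (hf : H1 e3 G f F) :
    H1 e3 {P | sh h P ∈ G} (fun P => f (sh h P)) (fun i P => F i (sh h P)) := by
  have h1 := h_TRL X (Fin 3) e3 G f F (ContinuousLinearEquiv.refl ℝ X) ((h : ℂ), (0 : ℝ))
    (fun i j => if i = j then 1 else 0) (fun i => by simp) hf
  have hset : ((fun P : X => (ContinuousLinearEquiv.refl ℝ X) P + ((h : ℂ), (0 : ℝ))) ⁻¹' G) =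
      {P | sh h P ∈ G} := by
    ext P
    simp only [mem_preimage, mem_ofPred_eq, ContinuousLinearEquiv.coe_refl', id_eq, sh_eq]
  rw [hset] at h1
  refine h1.congr (Eventually.of_forall fun P => ?_) fun i => Eventually.of_forall fun P => ?_
  · simp only [ContinuousLinearEquiv.coe_refl', id_eq, sh_eq]
  · simp [sh_eq]

theorem gm_bound {B : ℝ} (hB : 0 < B) (P : X) : ‖gm B P‖ ≤ 1 := by
  unfold gm
  rw [Real.norm_eq_abs, abs_of_pos (Real.exp_pos _)]
  refine Real.exp_le_one_iff.2 ?_
  have : 0 ≤ B / 2 * ‖P.1‖ ^ 2 := by positivity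
  linarith

theorem gm_cont (B : ℝ) : Continuous (gm B) := by
  unfold gm
  fun_prop

theorem int_gm {B : ℝ} (hB : 0 < B) {u w : X → ℝ} (hu : MemLp u 2 volume)
    (hw : MemLp w 2 volume) : Integrable (fun P => gm B P * (u P * w P)) := by
  have h1 : Integrable (fun P => u P * w P) := hu.integrable_mul hw
  exact h1.bdd_mul (c := 1) (gm_cont B).aestronglyMeasurable
    (Eventually.of_forall fun P => gm_bound hB P)

theorem norm_rf (P : X) : ‖(rf 0 P).1‖ = ‖P.1‖ := by
  unfold rf
  simp

theorem sh_rf (h : ℝ) (P : X) : sh h (rf h P) = rf 0 P := by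
  unfold sh rf
  ext <;> simp

theorem rf_sh (h : ℝ) (P : X) : rf h P = rf 0 (sh h P) := by
  unfold sh rf
  ext <;> simp <;> ring

end SHI_

open SHI_

theorem p_SHI (h_HAL : T_HAL) (h_SHW : T_SHW) (h_WTE : T_WTE) (h_INV : T_INV) (h_WEX : T_WEX)
    (h_TRL : T_TRL) : T_SHI := by
  intro B G v F hB hG hv h hh
  set w := ww B v with hw
  set W := wF B v F with hW
  have hwW : H1 e3 G w W := (h_WEX B G v F hG.isOpen hG.bounded hv.h).1
  have hwnn : ∀ P, 0 ≤ w P := fun P => mul_nonneg (Real.exp_pos _).le (hv.nn P)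
  have hφ : H1 e3 {P | sh h P ∈ G} (fun P => w (sh h P)) (fun i P => W i (sh h P)) :=
    h1_sh h_TRL h hwW
  set g : X → ℝ := fun P => w (sh h P) - w P with hg
  set Γ : Fin 3 → X → ℝ := fun i P => W i (sh h P) - W i P with hΓ
  have hgΓ : H1 e3 univ g Γ := (hφ.mono (subset_univ _)).sub (hwW.mono (subset_univ _))
  have hshc : Continuous (sh h) := by
    unfold sh
    fun_prop
  have hG'o : IsOpen {P : X | sh h P ∈ G} := hG.isOpen.preimage hshc
  -- reflection
  have hrw : ∀ᵐ P, w (rf 0 P) = w P := by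
    filter_upwards [(h_INV B G v F hG hv).2] with P hP
    simp only [hw, ww]
    rw [norm_rf P, hP.1]
  have hodd : ∀ᵐ P, g (rf h P) = -g P := by
    filter_upwards [hrw, ae_sh h hrw] with P h1 h2
    simp only [hg]
    rw [sh_rf, h1, rf_sh, h2]
    ring
  have hsub : ∀ P ∈ {P : X | sh h P ∈ G}, -(h / 2) ≤ P.1.re → P ∈ G := by
    intro P hP hre
    have h1 : (P.1, (sh h P).2) ∈ G := by
      refine hG.star _ hP _ ?_
      have h2 : ‖P.1‖ ^ 2 ≤ ‖(sh h P).1‖ ^ 2 := by
        rw [← Complex.normSq_eq_norm_sq, ← Complex.normSq_eq_norm_sq, Complex.normSq_apply,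
          Complex.normSq_apply]
        simp only [sh, Complex.add_re, Complex.ofReal_re, Complex.add_im, Complex.ofReal_im,
          add_zero]
        nlinarith
      exact (pow_le_pow_iff_left₀ (norm_nonneg _) (norm_nonneg _) (by norm_num)).1 h2
    exact h1
  obtain ⟨hψ1, hψ2⟩ := h_HAL G {P | sh h P ∈ G} h g (fun P => w (sh h P)) Γ
    (fun i P => W i (sh h P)) hh hG.isOpen hG'o hsub hgΓ hodd hφ
    (Eventually.of_forall fun P => hwnn _)
    (Eventually.of_forall fun P _ => by
      simp only [hg]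
      linarith [hwnn P])
  set ψ := hp h g with hψ
  set Ψ := hpF h g Γ with hΨ
  have e1 := h_SHW B G v F hG hv h ψ Ψ hψ2
  obtain ⟨e2', e3'⟩ := h_WTE B G v F hG hv ψ Ψ hψ1
  rw [← hw, ← hW] at e1 e2'
  -- integrability
  have i1 : ∀ i, Integrable (fun P => gm B P * (W i (sh h P) * Ψ i P)) := fun i =>
    int_gm hB (hφ.memLp' i) (hψ1.memLp' i)
  have i2 : Integrable (fun P => gm B P * (W 0 (sh h P) * ψ P)) :=
    int_gm hB (hφ.memLp' 0) hψ1.memLp
  have i3 : Integrable (fun P => gm B P * (w (sh h P) * ψ P)) := int_gm hB hφ.memLp hψ1.memLp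
  have i4 : ∀ i, Integrable (fun P => gm B P * (W i P * Ψ i P)) := fun i =>
    int_gm hB (hwW.memLp' i) (hψ1.memLp' i)
  have i5 : Integrable (fun P => gm B P * (w P * ψ P)) := int_gm hB hwW.memLp hψ1.memLp
  have s1 : Integrable (fun P => gm B P * ∑ i : Fin 3, W i (sh h P) * Ψ i P) := by
    simp only [Finset.mul_sum]
    exact integrable_finsetSum _ fun i _ => i1 i
  have s4 : Integrable (fun P => gm B P * ∑ i : Fin 3, W i P * Ψ i P) := by
    simp only [Finset.mul_sum]
    exact integrable_finsetSum _ fun i _ => i4 i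
  -- the first equation
  have f1 : ∫ P, gm B P * (∑ i : Fin 3, W i (sh h P) * Ψ i P + B * h * (W 0 (sh h P) * ψ P)) =
      (∫ P, gm B P * ∑ i : Fin 3, W i (sh h P) * Ψ i P) +
        B * h * ∫ P, gm B P * (W 0 (sh h P) * ψ P) := by
    rw [← integral_const_mul, ← integral_add s1 (i2.const_mul _)]
    refine integral_congr_ae (Eventually.of_forall fun P => ?_)
    simp only
    ring
  -- the differences
  have f2 : (∫ P, gm B P * ∑ i : Fin 3, W i (sh h P) * Ψ i P) -
      ∫ P, gm B P * ∑ i : Fin 3, W i P * Ψ i P = ∫ P, gm B P * ∑ i : Fin 3, Ψ i P ^ 2 := by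
    rw [← integral_sub s1 s4]
    refine integral_congr_ae (Eventually.of_forall fun P => ?_)
    simp only
    rw [← mul_sub, ← Finset.sum_sub_distrib]
    refine congrArg _ (Finset.sum_congr rfl fun i _ => ?_)
    by_cases hP : P ∈ {P : X | -(h / 2) < P.1.re ∧ 0 < g P}
    · have : Ψ i P = W i (sh h P) - W i P := by
        simp only [hΨ, hpF, Set.indicator_of_mem hP, hΓ]
      rw [this]
      ring
    · have : Ψ i P = 0 := by
        simp only [hΨ, hpF, Set.indicator_of_notMem hP]
      rw [this]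
      ring
  have f3 : (∫ P, gm B P * (w (sh h P) * ψ P)) - ∫ P, gm B P * (w P * ψ P) =
      ∫ P, gm B P * ψ P ^ 2 := by
    rw [← integral_sub i3 i5]
    refine integral_congr_ae (Eventually.of_forall fun P => ?_)
    simp only
    rw [← mul_sub]
    refine congrArg _ ?_
    by_cases hP : P ∈ {P : X | -(h / 2) < P.1.re ∧ 0 < g P}
    · have : ψ P = w (sh h P) - w P := Set.indicator_of_mem hP g
      rw [this]
      ring
    · have : ψ P = 0 := Set.indicator_of_notMem hP g
      rw [this]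
      ring
  have hBh : 0 < B * h := mul_pos hB hh
  have key : B * h * ∫ P, gm B P * (W 0 (sh h P) * ψ P) ≤ 0 := by
    rw [f1] at e1
    have : (lamR B G - B) * ∫ P, gm B P * ψ P ^ 2 =
        (lamR B G - B) * (∫ P, gm B P * (w (sh h P) * ψ P)) -
          (lamR B G - B) * ∫ P, gm B P * (w P * ψ P) := by
      rw [← f3]
      ring
    linarith
  show ∫ P, gm B P * (W 0 (sh h P) * ψ P) ≤ 0
  by_contra hneg
  rw [not_le] at hneg
  exact absurd key (not_le.2 (mul_pos hBh hneg))

end MGS
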