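import Pool.Agent.MGS.TB

/-!
# MGS: proof of T_SHW (the shifted weighted equation) (helper29)
-/

set_option autoImplicit false

open MeasureTheory Filter Topology Metric Set
open scoped ENNReal NNReal ContDiff

noncomputable section

namespace MGS
namespace SHW_

theorem sh_eq (h : ℝ) (P : X) : sh h P = P + (((h : ℂ), (0 : ℝ)) : X) := by
  refine Prod.ext ?_ ?_
  · simp [sh]
  · simp [sh]

theorem sh_sh (h : ℝ) (P : X) : sh h (sh (-h) P) = P := by
  refine Prod.ext ?_ ?_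
  · simp [sh]
  · simp [sh]

theorem sh_sh' (h : ℝ) (P : X) : sh (-h) (sh h P) = P := by
  refine Prod.ext ?_ ?_
  · simp [sh]
  · simp [sh]

theorem sh_cont (h : ℝ) : Continuous (sh h) := by
  unfold sh
  fun_prop

theorem xc_sh (h : ℝ) (i : Fin 3) (P : X) :
    xc i (sh h P) - xc i P = if i = 0 then h else 0 := by
  fin_cases i
  · simp [xc, sh]
  · simp [xc, sh]
  · simp [xc]

/-- the shifted and reweighted function -/
theorem h1 (h_TRL : T_TRL) (h_WEX : T_WEX) (B : ℝ) (G : Set X) (hGo : IsOpen G)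
    (hGb : Bornology.IsBounded G) (h : ℝ) (ψ : X → ℝ) (Ψ : Fin 3 → X → ℝ)
    (hψ : H1 e3 {P | sh h P ∈ G} ψ Ψ) :
    H1 e3 G (ww (2 * B) (fun P => ww (-(2 * B)) ψ (sh (-h) P)))
      (wF (2 * B) (fun P => ww (-(2 * B)) ψ (sh (-h) P))
        (fun i P => wF (-(2 * B)) ψ Ψ i (sh (-h) P))) := by
  have hG'o : IsOpen {P | sh h P ∈ G} := hGo.preimage (sh_cont h)
  have hG'b : Bornology.IsBounded {P | sh h P ∈ G} := by
    obtain ⟨C, hC⟩ := hGb.exists_norm_le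
    refine isBounded_iff_forall_norm_le.2 ⟨C + ‖((((h : ℂ), (0 : ℝ)) : X))‖, fun P hP => ?_⟩
    have h2 : ‖sh h P‖ ≤ C := hC _ hP
    rw [sh_eq] at h2
    have h3 : P = P + (((h : ℂ), (0 : ℝ)) : X) - (((h : ℂ), (0 : ℝ)) : X) := by abel
    rw [h3]
    exact (norm_sub_le _ _).trans (by linarith)
  have h2 := (h_WEX (2 * B) _ ψ Ψ hG'o hG'b hψ).2
  have h3 := h_TRL X (Fin 3) e3 _ _ _ (ContinuousLinearEquiv.refl ℝ X)
    ((((-h : ℝ) : ℂ), (0 : ℝ)) : X) (fun j i => if j = i then 1 else 0) (fun i => by simp) h2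
  have hpre : (fun P : X => (ContinuousLinearEquiv.refl ℝ X) P + ((((-h : ℝ) : ℂ), (0 : ℝ)) : X)) ⁻¹'
      {P | sh h P ∈ G} = G := by
    ext P
    show sh h (P + ((((-h : ℝ) : ℂ), (0 : ℝ)) : X)) ∈ G ↔ P ∈ G
    rw [← sh_eq, sh_sh]
  rw [hpre] at h3
  have h4 : H1 e3 G (fun P => ww (-(2 * B)) ψ (sh (-h) P))
      (fun i P => wF (-(2 * B)) ψ Ψ i (sh (-h) P)) := by
    refine h3.congr (Eventually.of_forall fun P => ?_)
      fun i => Eventually.of_forall fun P => ?_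
    · show ww (-(2 * B)) ψ (P + ((((-h : ℝ) : ℂ), (0 : ℝ)) : X)) = ww (-(2 * B)) ψ (sh (-h) P)
      rw [← sh_eq]
    · show ∑ j, (if j = i then (1 : ℝ) else 0) *
        wF (-(2 * B)) ψ Ψ j (P + ((((-h : ℝ) : ℂ), (0 : ℝ)) : X)) =
        wF (-(2 * B)) ψ Ψ i (sh (-h) P)
      rw [← sh_eq]
      simp
  exact (h_WEX (2 * B) _ _ _ hGo hGb h4).1

theorem e1 (B : ℝ) (h : ℝ) (ψ : X → ℝ) (P : X) :
    gm B (sh h P) * ww (2 * B) (fun P => ww (-(2 * B)) ψ (sh (-h) P)) (sh h P) =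
      gm B P * ψ P := by
  unfold gm ww
  beta_reduce
  rw [sh_sh']
  rw [← mul_assoc, ← mul_assoc, ← Real.exp_add, ← Real.exp_add]
  congr 2
  ring

theorem e2' (B : ℝ) (h : ℝ) (ψ : X → ℝ) (Ψ : Fin 3 → X → ℝ) (i : Fin 3) (P : X) :
    gm B (sh h P) * wF (2 * B) (fun P => ww (-(2 * B)) ψ (sh (-h) P))
        (fun i P => wF (-(2 * B)) ψ Ψ i (sh (-h) P)) i (sh h P) =
      gm B P * (Ψ i P + B * (if i = 0 then h else 0) * ψ P) := by
  unfold wF
  beta_reduce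
  rw [sh_sh', ← xc_sh h i P]
  have h1 : gm B (sh h P) * Real.exp (2 * B / 4 * ‖(sh h P).1‖ ^ 2) = 1 := by
    unfold gm
    rw [← Real.exp_add]
    rw [show -(B / 2 * ‖(sh h P).1‖ ^ 2) + 2 * B / 4 * ‖(sh h P).1‖ ^ 2 = 0 by ring]
    exact Real.exp_zero
  have h2 : Real.exp (-(2 * B) / 4 * ‖P.1‖ ^ 2) = gm B P := by
    unfold gm
    congr 1
    ring
  have h3 : ww (-(2 * B)) ψ P = gm B P * ψ P := by
    unfold ww
    rw [h2]
  rw [h3, h2]
  calc _ = (gm B (sh h P) * Real.exp (2 * B / 4 * ‖(sh h P).1‖ ^ 2)) *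
        (gm B P * (Ψ i P + -(2 * B) / 2 * xc i P * ψ P) +
          2 * B / 2 * xc i (sh h P) * (gm B P * ψ P)) := by ring
    _ = _ := by
        rw [h1]
        ring

end SHW_

open SHW_ in
theorem p_SHW (h_WTE : T_WTE) (h_TRL : T_TRL) (h_WEX : T_WEX) : T_SHW := by
  intro B G v F hG hv h ψ Ψ hψ
  have h2 := h1 h_TRL h_WEX B G hG.isOpen hG.bounded h ψ Ψ hψ
  have h3 := (h_WTE B G v F hG hv _ _ h2).1
  have t1 := integral_add_right_eq_self (μ := (volume : Measure X))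
    (fun Q => gm B Q * ∑ i : Fin 3, wF B v F i Q *
      wF (2 * B) (fun P => ww (-(2 * B)) ψ (sh (-h) P))
        (fun i P => wF (-(2 * B)) ψ Ψ i (sh (-h) P)) i Q) (((h : ℂ), (0 : ℝ)) : X)
  have t2 := integral_add_right_eq_self (μ := (volume : Measure X))
    (fun Q => gm B Q * (ww B v Q *
      ww (2 * B) (fun P => ww (-(2 * B)) ψ (sh (-h) P)) Q)) (((h : ℂ), (0 : ℝ)) : X)
  rw [← t1, ← t2] at h3
  have l1 : ∀ P : X, gm B P * (∑ i : Fin 3, wF B v F i (sh h P) * Ψ i P +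
      B * h * (wF B v F 0 (sh h P) * ψ P)) =
      gm B (P + (((h : ℂ), (0 : ℝ)) : X)) * ∑ i : Fin 3,
        wF B v F i (P + (((h : ℂ), (0 : ℝ)) : X)) *
      wF (2 * B) (fun P => ww (-(2 * B)) ψ (sh (-h) P))
        (fun i P => wF (-(2 * B)) ψ Ψ i (sh (-h) P)) i (P + (((h : ℂ), (0 : ℝ)) : X)) := by
    intro P
    rw [← sh_eq]
    rw [Finset.mul_sum]
    have : ∀ i : Fin 3, gm B (sh h P) * (wF B v F i (sh h P) *
      wF (2 * B) (fun P => ww (-(2 * B)) ψ (sh (-h) P))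
        (fun i P => wF (-(2 * B)) ψ Ψ i (sh (-h) P)) i (sh h P)) =
        wF B v F i (sh h P) * (gm B P * (Ψ i P + B * (if i = 0 then h else 0) * ψ P)) := by
      intro i
      rw [← e2']
      ring
    rw [Finset.sum_congr rfl fun i _ => this i]
    simp only [Fin.sum_univ_three]
    simp
    ring
  have l2 : ∀ P : X, gm B P * (ww B v (sh h P) * ψ P) =
      gm B (P + (((h : ℂ), (0 : ℝ)) : X)) * (ww B v (P + (((h : ℂ), (0 : ℝ)) : X)) *
      ww (2 * B) (fun P => ww (-(2 * B)) ψ (sh (-h) P)) (P + (((h : ℂ), (0 : ℝ)) : X))) := by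
    intro P
    rw [← sh_eq]
    have := e1 B h ψ P
    calc gm B P * (ww B v (sh h P) * ψ P) = ww B v (sh h P) * (gm B P * ψ P) := by ring
      _ = _ := by
        rw [← this]
        ring
  rw [integral_congr_ae (Eventually.of_forall l1), integral_congr_ae (Eventually.of_forall l2)]
  exact h3

end MGS
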