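import Pool.Agent.MGS.TC

/-!
# MGS: targets D (rearrangement, slice inequality)

Each target is a proposition `T_XXX`; its docstring contains the complete proof.  Other targets
(those named after `from`, or others as long as no circle arises) may be taken as hypotheses
(import also `Pool.Agent.MGS.TA` for the targets A).
-/

set_option autoImplicit false

open MeasureTheory Filter Topology Metric Set
open scoped ENNReal NNReal ContDiff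

noncomputable section

namespace MGS

/-! ### Rearrangement in the plane -/

/-- RR1.  Basic facts.  All sets `{g > s}`, `s ≥ 0`, are contained in the ball, so `ar g` is finite,
nonincreasing on `[0, ∞)`, right continuous (`{g > s} = ⋃ {g > s + 1/n}`) and tends to `0`.
(a) For `t > 0` the set `{s ≥ 0 : π t² < ar g s}` is bounded above.  If `s < rr g t` there is
`s' > s` in the set, `ar g s ≥ ar g s' > π t²`; conversely use right continuity.  (b) monotonicity: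
the sets decrease with `t`.  `rr g t ≥ 0` always (`Real.sSup_nonneg`).  (c) By (a), up to the point
`0`, `{s < rr g ‖x‖} = {π ‖x‖² < ar g s}` is a disc of area `ar g s` (`Complex.volume_ball`).
(d) `π R² ≥ ar g s` for `s ≥ 0` (if `R > 0`; if `R ≤ 0` then `g = 0`); measurability from (b). -/
def T_RR1 : Prop := ∀ (R : ℝ) (g : ℂ → ℝ), Nc R g →
  (∀ s t, 0 ≤ s → 0 < t → (s < rr g t ↔ Real.pi * t ^ 2 < ar g s)) ∧
  AntitoneOn (rr g) (Ioi 0) ∧ (∀ t, 0 ≤ rr g t) ∧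
  (∀ s, 0 ≤ s → volume {x : ℂ | s < rr g ‖x‖} = volume {x : ℂ | s < g x}) ∧
  Nc R (fun x => rr g ‖x‖)

/-- EQM (from RR1).  Equimeasurability.  The images of `volume` restricted to `{rr g ‖x‖ > 0}` under
`x ↦ rr g ‖x‖` and of `volume` restricted to `{g > 0}` under `g` are finite measures which agree
on all `(s, ∞)`, `s ≥ 0`, and vanish on `(-∞, 0]`; so they are equal (`Measure.ext_of_Ioi`).
The last part is the case of the indicator function of `{s}`. -/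
def T_EQM : Prop := ∀ (R : ℝ) (g : ℂ → ℝ), Nc R g →
  (∀ Ξ : ℝ → ℝ≥0∞, Measurable Ξ → Ξ 0 = 0 → ∫⁻ x : ℂ, Ξ (rr g ‖x‖) = ∫⁻ x, Ξ (g x)) ∧
  (∀ s, 0 ≤ s → ar (fun x => rr g ‖x‖) s = ar g s) ∧
  ∀ s, 0 < s → volume {x : ℂ | rr g ‖x‖ = s} = volume {x : ℂ | g x = s}

/-- NEX (from RR1, EQM).  `L²` contraction.  `∫ g₁ g₂ = ∫_0^∞ ∫_0^∞ |{g₁ > s} ∩ {g₂ > t}| ds dt ≤
∫∫ min (ar g₁ s) (ar g₂ t) ds dt = ∫ v₁ v₂` (the discs `{v₁ > s}`, `{v₂ > t}` are nested), and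
`∫ v_i² = ∫ g_i²` (EQM with `Ξ = ofReal (s²)`), all finite.  Expand the squares. -/
def T_NEX : Prop := ∀ (R : ℝ) (g₁ g₂ : ℂ → ℝ), Nc R g₁ → Nc R g₂ → MemLp g₁ 2 volume →
  MemLp g₂ 2 volume → ∫⁻ x : ℂ, ENNReal.ofReal ((rr g₁ ‖x‖ - rr g₂ ‖x‖) ^ 2) ≤
    ∫⁻ x, ENNReal.ofReal ((g₁ x - g₂ x) ^ 2)

/-- NXI (from RR1).  Sup norm.  `ar g₁ (s + δ) ≤ ar g₂ s`.  If `δ ≤ s < rr g₁ t` then
`π t² < ar g₁ s ≤ ar g₂ (s - δ)`, so `s - δ < rr g₂ t`.  For `t = 0` (bounded functions) the same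
argument with the definition of `rr` (the set `{s ≥ 0 : 0 < ar g s}` is bounded by the sup of `g`). -/
def T_NXI : Prop := ∀ (R δ C : ℝ) (g₁ g₂ : ℂ → ℝ), Nc R g₁ → Nc R g₂ → 0 ≤ δ →
  (∀ x, g₁ x ≤ g₂ x + δ) → (∀ x, g₂ x ≤ C) → ∀ t, 0 ≤ t → rr g₁ t ≤ rr g₂ t + δ

/-- LPR (from BM2, RR1).  The rearrangement of a Lipschitz function is Lipschitz with the same
constant.  Let `0 ≤ t < t' = t + h`, `L h ≤ s` and `π t² < ar g s`.  The set `{g > s}` is open,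
nonempty, bounded and `{g > s - L h} ⊇ {g > s} + ball 0 h`, so by BM2
`ar g (s - L h) ≥ (√(ar g s) + √π h)² > π t'²`, thus `s - L h < rr g t'`.  Hence
`rr g t ≤ rr g t' + L h`; and `rr g t' ≤ rr g t`.  (For `t = 0` use that
`{s ≥ 0 : 0 < ar g s}` is bounded.) -/
def T_LPR : Prop := ∀ (R : ℝ) (L : ℝ≥0) (g : ℂ → ℝ), Nc R g → LipschitzWith L g →
  ∀ t t', 0 ≤ t → 0 ≤ t' → |rr g t - rr g t'| ≤ L * |t - t'|

/-- RKV (from RR1, EQM).  `{y : rr g ‖y‖ > rr g ‖x‖}` is contained in `{‖y‖ < ‖x‖}` (monotonicity on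
`(0, ∞)`, up to the point `0`) and `{0 < ‖y‖ < ‖x‖}` is contained in `{rr g ‖y‖ ≥ rr g ‖x‖}`; the
level set is null, so `ar g (rr g ‖x‖) = ar (rr g ‖·‖) (rr g ‖x‖) = π ‖x‖²`. -/
def T_RKV : Prop := ∀ (R : ℝ) (g : ℂ → ℝ), Nc R g → ∀ x : ℂ, x ≠ 0 → 0 < rr g ‖x‖ →
  volume {y : ℂ | rr g ‖y‖ = rr g ‖x‖} = 0 → rad g (rr g ‖x‖) = ‖x‖

/-- RKF (from RR1).  `rr g (rad g (g x)) = sSup {s ≥ 0 : ar g (g x) < ar g s}` (`π (rad)² = ar`).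
Let `s₀ = g x > 0`.  For `s ≥ s₀`, `ar g s ≤ ar g s₀`; so the supremum is `≤ s₀`, and it is `s₀`
unless there is a rational `q ∈ (0, s₀)` with `|{q < g ≤ s₀}| = 0`.  For fixed `q` the set of the
`x` with `g x > q` and `|{q < g ≤ g x}| = 0` is null: it is a countable union of sets
`{q < g ≤ s_k}` which are null (and, if the supremum of the admissible levels is attained, the set
with that level). -/
def T_RKF : Prop := ∀ (R : ℝ) (g : ℂ → ℝ), Nc R g → ∀ᵐ x, 0 < g x → rr g (rad g (g x)) = g x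

/-! ### The slice inequality -/

/-- the calibrated lower bound of the horizontal energy, with `r = ` the rank radius of `x` -/
def Yc (B : ℝ) (a b : ℂ → ℝ) (Fa Fb : Fin 2 → ℂ → ℝ) (κ Q : ℝ → ℝ) (x : ℂ) : ℝ := by
  classical
  exact if 0 < md a b x ∧ volume {y : ℂ | md a b y = md a b x} = 0 then
    2 * κ (rad (md a b) (md a b x)) * Wc B a b Fa Fb x +
      2 * (1 - κ (rad (md a b) (md a b x)) ^ 2) * Q (rad (md a b) (md a b x)) *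
        gn (mg a b Fa Fb) x -
      (1 - κ (rad (md a b) (md a b x)) ^ 2) * Q (rad (md a b) (md a b x)) ^ 2
  else 0

/-- the same for the rearranged function `v` -/
def Zc (B : ℝ) (v : ℂ → ℝ) (G : Fin 2 → ℂ → ℝ) (κ Q : ℝ → ℝ) (x : ℂ) : ℝ := by
  classical
  exact B * κ ‖x‖ * ‖x‖ * v x * gn G x + 2 * (1 - κ ‖x‖ ^ 2) * Q ‖x‖ * gn G x -
    if 0 < v x ∧ volume {y : ℂ | v y = v x} = 0 then (1 - κ ‖x‖ ^ 2) * Q ‖x‖ ^ 2 else 0

/-- SLC (from M1, M2, M1V, M2V, EQM, RKV, NUL, MOD, ALG).  The slice inequality.  Put `f = md a b`,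
`r(s) = rad f s`, `At = {s > 0 : |{f = s}| > 0}` (countable: disjoint sets of positive measure in
the ball), `N = (0,∞) \ At`.  By EQM `At` is the same set for `v`.  `Yc` is the sum of
(1) `2 κ(r(f)) 1_N(f) W`, integral `2B ∫ κ(r(s)) s ar f s ds` (M2; `At` is null), equal to
`2B ∫ κ(r(v)) 1_N(v) v (|x|/2) |G|` (M2V, `ar v = ar f`);
(2) `2 (1-κ²)(r(f)) Q(r(f)) 1_N(f) |∇f|`, integral `≥ ∫ 2 (1-κ²)(r(s)) Q(r(s)) 2√(π ar f s) ds`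
(M1 for `f`, MOD: `mg` is the gradient of `f`), equal to
`∫ 2 (1-κ²)(r(v)) Q(r(v)) 1_N(v) |G|` (M1V);
(3) `-(1-κ²)(r(f)) Q(r(f))² 1_N(f)`, with the integral `-∫ (1-κ²)(r(v)) Q(r(v))² 1_N(v)` (EQM).
For `x ≠ 0` with `v x ∈ N`: `r(v x) = ‖x‖` (RKV; `rad f = rad v` on `[0,∞)`).  Where `v x = 0` or
`v x ∈ At`: `G = 0` a.e. (NUL, `At ∪ {0}` is countable).  Integrability: `|W| ≤ g h` (ALG),
`∫ Q(r(f))² 1_N(f) = ∫ Q(‖x‖)² 1_N(v) < ∞` (EQM), Cauchy-Schwarz. -/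
def T_SLC : Prop := ∀ (B R : ℝ) (a b : ℂ → ℝ) (Fa Fb G : Fin 2 → ℂ → ℝ) (κ Q : ℝ → ℝ), 0 ≤ B →
  H1 e2 (ball 0 R) a Fa → H1 e2 (ball 0 R) b Fb → Measurable a → Measurable b →
  (∀ i, Measurable (Fa i)) → (∀ i, Measurable (Fb i)) → Nc R (md a b) →
  H1 e2 (ball 0 R) (fun x => rr (md a b) ‖x‖) G → (∀ i, Measurable (G i)) →
  Measurable κ → Measurable Q → (∀ r, 0 ≤ κ r ∧ κ r ≤ 1) → (∀ r, 0 ≤ Q r) →
  Integrable (fun x : ℂ => Q ‖x‖ ^ 2) →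
  Integrable (Yc B a b Fa Fb κ Q) ∧ Integrable (Zc B (fun x => rr (md a b) ‖x‖) G κ Q) ∧
  ∫ x, Zc B (fun x => rr (md a b) ‖x‖) G κ Q x ≤ ∫ x, Yc B a b Fa Fb κ Q x

/-- PSL (from SLC, ALG, RDG, RDT, EQM, NUL).  Polya-Szego inequality in the plane.  SLC with
`B = 0`, `a = f`, `b = 0`, `Fb = 0`, `κ = 0` and `Q = T` from RDT, `T(‖x‖) = |G|(x)` a.e. (set
`T = 0` for radii `≥ R`).  `Yc ≤ eq2 = F_0² + F_1²` (ALG where `f > 0`), and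
`Zc ≥ 2|G|² - |G|² = |G|²` a.e. -/
def T_PSL : Prop := ∀ (R : ℝ) (f : ℂ → ℝ) (F G : Fin 2 → ℂ → ℝ), H1 e2 (ball 0 R) f F → Nc R f →
  H1 e2 (ball 0 R) (fun x => rr f ‖x‖) G → ∫ x, (G 0 x ^ 2 + G 1 x ^ 2) ≤
    ∫ x, (F 0 x ^ 2 + F 1 x ^ 2)

/-! ### Slicewise symmetrization -/

/-- VSM (from RR1).  Measurability.  `(z, s) ↦ ar (sl f z) s` is measurable
(`measurable_measure_prodMk_left` for the measurable set `{((z,s), x) : s < f(x,z)}`, `toReal`); so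
`rk f` is measurable.  `volume {y | f (y,z) = f P}` is a measurable function of `P` in the same
way.  `vs f` vanishes for `‖P‖ ≥ R` (slices vanish or RR1 (d)); for `s ≥ 0` and `P.1 ≠ 0`:
`s < vs f P ↔ π ‖P.1‖² < ar (sl f P.2) s`; for `P.1 = 0`: `s < vs f P` iff
`0 < ar (sl f P.2) s` and `ar (sl f P.2) n = 0` for some natural number `n`. -/
def T_VSM : Prop := ∀ (R : ℝ) (f : X → ℝ), Nx R f → Nx R (vs f) ∧ Measurable (rk f) ∧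
  MeasurableSet (pl f) ∧ Measurable (fun p : ℝ × ℝ => ar (sl f p.1) p.2) ∧
  (∀ z, Nc R (sl f z)) ∧ Measurable (fun p : ℝ × ℝ => rr (sl f p.2) |p.1|)

/-- OST.  The symmetrized domain.  `Ost Ω` is open: if `π‖x₀‖² < |Ω_{z₀}|` choose a compact
`K ⊆ Ω_{z₀}` with `π‖x₀‖² < |K|`; `K × {z} ⊆ Ω` for `z` near `z₀` (tube lemma).  Bounded, star-shaped:
clear (`|Ω_z| ≤ π R²`, and `|Ω_z| = 0` for large `|z|`).  Volume: Fubini, every slice is a disc of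
area `|Ω_z|`.  `(0, z) ∈ Ost Ω ↔ |Ω_z| > 0 ↔ Ω_z ≠ ∅` (open). -/
def T_OST : Prop := ∀ Ω : Set X, IsOpen Ω → Bornology.IsBounded Ω → Ω.Nonempty →
  IsOpen (Ost Ω) ∧ Bornology.IsBounded (Ost Ω) ∧ (Ost Ω).Nonempty ∧
  volume (Ost Ω) = volume Ω ∧ (∀ P ∈ Ost Ω, ∀ x : ℂ, ‖x‖ ≤ ‖P.1‖ → (x, P.2) ∈ Ost Ω) ∧
  (∀ z, ((0 : ℂ), z) ∈ Ost Ω ↔ ∃ x : ℂ, (x, z) ∈ Ω) ∧
  (∀ R, (∀ P ∈ Ω, ‖P‖ < R) → ∀ P ∈ Ost Ω, ‖P‖ < R)

/-- VLT (from LPR, NXI, OST, VSM).  The symmetrization of a nonnegative Lipschitz function with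
compact support in `Ω`.  Lipschitz: `|vs f (x,z) - vs f (x',z)| ≤ L |‖x‖ - ‖x'‖|` (LPR for the slice)
and `|vs f (x', z) - vs f (x', z')| ≤ L |z - z'|` (NXI twice, bounded functions).  Support: `K =
tsupport f`; the set `C = {(x,z) : K_z ≠ ∅, π‖x‖² ≤ |K_z|}` is closed (`z ↦ |K_z|` is upper
semicontinuous for compact `K`: reverse Fatou, `limsup 1_K(x,z_n) ≤ 1_K(x,z)`), bounded, contains
`{vs f ≠ 0}` and is contained in `Ost Ω`: if `K_z ≠ ∅`, `Ω_z \ K_z` is open and nonempty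
(`Ω_z` is open, bounded, nonempty, `K_z` compact), so `|K_z| < |Ω_z|`. -/
def T_VLT : Prop := ∀ (Ω : Set X) (f : X → ℝ), IsOpen Ω → Bornology.IsBounded Ω → LTest Ω f →
  (∀ P, 0 ≤ f P) → LTest (Ost Ω) (vs f)

/-- ZPL (from NEX, VLT).  The vertical derivative.  `h > 0`: for every `z`,
`∫ (vs f (x,z+h) - vs f (x,z))² dx ≤ ∫ (f(x,z+h) - f(x,z))² dx` (NEX).  Integrate over `z`:
`∫ ((vs f (x,z+h) - vs f (x,z))/h)² ≤ ∫ ((f(x,z+h) - f(x,z))/h)²`.  As `h = 1/n → 0` the right side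
tends to `∫ (∂_z f)²` (dominated convergence: the quotients are bounded, converge a.e., supports in a
bounded set) and `∫ (∂_z vs f)² ≤ liminf` of the left side (Fatou, Rademacher). -/
def T_ZPL : Prop := ∀ (Ω : Set X) (f : X → ℝ), IsOpen Ω → Bornology.IsBounded Ω → LTest Ω f →
  (∀ P, 0 ≤ f P) → ∫ P, pd e3 2 (vs f) P ^ 2 ≤ ∫ P, pd e3 2 f P ^ 2

/-- SYM (from LIP, BCH, VLT, PSL, ZPL, NEX, SLI, MAZ, OST, VSM).  Symmetrization in `H¹₀`.  Let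
`φ_n → f` (`H1.seq`), `f_n = |φ_n|`, in `LTest Ω`, nonnegative, `|∇f_n| = |∇φ_n|` a.e. (componentwise
equality of squares), `f_n → |f| = f` in `L²`.  `v_n = vs f_n ∈ LTest (Ost Ω)` (VLT), in `H¹₀` by LIP
with gradient `pd e3 i v_n`, and for every `z` the slices of `f_n`, `v_n` are Lipschitz with
compact support, so by PSL and Fubini `∫ (∂_0 v_n)² + (∂_1 v_n)² ≤ ∫ (∂_0 φ_n)² + (∂_1 φ_n)²`; and
`∫ (∂_2 v_n)² ≤ ∫ (∂_2 φ_n)²` (ZPL).  `v_n → vs f` in `L²` (NEX on every slice, a.e. slice of `f` is in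
`L²`; a fixed large `R`).  MAZ with the index sets `{0, 1}` and `{2}`. -/
def T_SYM : Prop := ∀ (Ω : Set X) (R : ℝ) (f : X → ℝ) (F : Fin 3 → X → ℝ), IsOpen Ω →
  (∀ P ∈ Ω, ‖P‖ < R) → H1 e3 Ω f F → Nx R f →
  ∃ G : Fin 3 → X → ℝ, H1 e3 (Ost Ω) (vs f) G ∧ (∀ i, Measurable (G i)) ∧
    ∫ P, (G 0 P ^ 2 + G 1 P ^ 2) ≤ ∫ P, (F 0 P ^ 2 + F 1 P ^ 2) ∧
    ∫ P, G 2 P ^ 2 ≤ ∫ P, F 2 P ^ 2

/-- the horizontal slices of the data -/
def sl2 (F : Fin 3 → X → ℝ) (z : ℝ) (i : Fin 2) (x : ℂ) : ℝ := F i.castSucc (x, z)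

/-- `Yc` on all slices -/
def Yx (B : ℝ) (a b : X → ℝ) (Fa Fb : Fin 3 → X → ℝ) (κ Q : ℝ → ℝ → ℝ) (P : X) : ℝ :=
  Yc B (sl a P.2) (sl b P.2) (sl2 Fa P.2) (sl2 Fb P.2) (fun r => κ r P.2) (fun r => Q r P.2) P.1

/-- `Zc` on all slices -/
def Zx (B : ℝ) (v : X → ℝ) (G : Fin 3 → X → ℝ) (κ Q : ℝ → ℝ → ℝ) (P : X) : ℝ :=
  Zc B (sl v P.2) (sl2 G P.2) (fun r => κ r P.2) (fun r => Q r P.2) P.1

/-- a measurable pair in `H¹₀(Ω)` -/
structure PD (Ω : Set X) (R : ℝ) (a b : X → ℝ) (Fa Fb : Fin 3 → X → ℝ) : Prop where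
  isOpen : IsOpen Ω
  bdd : ∀ P ∈ Ω, ‖P‖ < R
  ma : Measurable a
  mb : Measurable b
  mFa : ∀ i, Measurable (Fa i)
  mFb : ∀ i, Measurable (Fb i)
  ha : H1 e3 Ω a Fa
  hb : H1 e3 Ω b Fb
  zero : ∀ P, P ∉ Ω → a P = 0 ∧ b P = 0 ∧ ∀ i, Fa i P = 0 ∧ Fb i P = 0

/-- INT (from SLC, SLI, ALG, VSM).  The slice inequality integrated.  `f = md a b`, `Nx R f`.  For
a.e. `z` the slices of `a, b, vs f` satisfy the hypotheses of SLC (SLI; `sl (vs f) z x =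
rr (md (sl a z) (sl b z)) ‖x‖` by definition; `x ↦ Q(‖x‖, z)²` is integrable for a.e. `z`).
`Yx`, `Zx` are jointly measurable (VSM).  `Yx ≤ em 0 + em 1` a.e. (ALG if `f P > 0`, `0 ≤` otherwise;
`em B a b Fa Fb i.castSucc (x, z)` is the corresponding term of `eq2` for the slices).
Integrability of `Yx` on `X`: `|Yx| ≤ 2 |W| + 2 Q(rk f) g + Q(rk f)² ≤ C (em 0 + em 1) + 2 Q(rk f)²`
where `f P > 0` is not on a plateau, and `∫ Q(rk f)² = ∫ Q(‖x‖)²` over the corresponding sets (EQM and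
RKV on the slices).  Fubini. -/
def T_INT : Prop := ∀ (B R : ℝ) (Ω : Set X) (a b : X → ℝ) (Fa Fb G : Fin 3 → X → ℝ)
  (κ Q : ℝ → ℝ → ℝ), 0 ≤ B → PD Ω R a b Fa Fb → H1 e3 (Ost Ω) (vs (md a b)) G →
  (∀ i, Measurable (G i)) → Measurable (Function.uncurry κ) → Measurable (Function.uncurry Q) →
  (∀ r z, 0 ≤ κ r z ∧ κ r z ≤ 1) → (∀ r z, 0 ≤ Q r z) →
  Integrable (fun P : X => Q ‖P.1‖ P.2 ^ 2) →
  Integrable (Yx B a b Fa Fb κ Q) ∧ Integrable (Zx B (vs (md a b)) G κ Q) ∧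
  (∀ᵐ P, Yx B a b Fa Fb κ Q P ≤ em B a b Fa Fb 0 P + em B a b Fa Fb 1 P) ∧
  ∫ P, Zx B (vs (md a b)) G κ Q P ≤ ∫ P, Yx B a b Fa Fb κ Q P

end MGS
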