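import Pool.Agent.MGS.TA
import Pool.Agent.MGS.TD

/-!
# MGS-SLC: the slice inequality
-/

set_option autoImplicit false

open MeasureTheory Filter Topology Metric Set
open scoped ENNReal NNReal ContDiff

noncomputable section

namespace MGS

namespace SLC_

/-- the levels which are not atoms -/
def NN (f : ℂ → ℝ) : Set ℝ := {s | 0 < s ∧ volume {y : ℂ | f y = s} = 0}

/-- the atoms -/
def AT (f : ℂ → ℝ) : Set ℝ := {s | 0 < volume {y : ℂ | f y = s}}

lemma AT_count {f : ℂ → ℝ} (hf : Measurable f) : (AT f).Countable :=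
  Measure.countable_meas_level_set_pos hf

lemma NN_eq (f : ℂ → ℝ) : NN f = Ioi 0 \ AT f := by
  ext s
  simp only [NN, AT, mem_setOf_eq, Set.mem_diff, Set.mem_Ioi, not_lt, nonpos_iff_eq_zero]

lemma NN_meas {f : ℂ → ℝ} (hf : Measurable f) : MeasurableSet (NN f) := by
  rw [NN_eq]
  exact measurableSet_Ioi.diff (AT_count hf).measurableSet

lemma ar_meas (f : ℂ → ℝ) : Measurable (ar f) := by
  have h : Antitone fun s : ℝ => volume {x : ℂ | s < f x} := by
    intro s t hst
    exact measure_mono fun x hx => lt_of_le_of_lt hst hx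
  exact h.measurable.ennreal_toReal

lemma rad_meas (f : ℂ → ℝ) : Measurable (rad f) :=
  ((ar_meas f).div_const _).sqrt

lemma ar_nn (f : ℂ → ℝ) (s : ℝ) : 0 ≤ ar f s := ENNReal.toReal_nonneg

/-- a function of the level, cut off outside `NN` -/
def cut (f : ℂ → ℝ) (h : ℝ → ℝ) (s : ℝ) : ℝ := (NN f).indicator (fun s => h (rad f s)) s

lemma cut_meas {f : ℂ → ℝ} (hf : Measurable f) {h : ℝ → ℝ} (hh : Measurable h) :
    Measurable (cut f h) := (hh.comp (rad_meas f)).indicator (NN_meas hf)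

lemma cut_nn (f : ℂ → ℝ) {h : ℝ → ℝ} (hh : ∀ r, 0 ≤ h r) (s : ℝ) : 0 ≤ cut f h s :=
  indicator_nonneg (fun _ _ => hh _) s

lemma cut_le (f : ℂ → ℝ) {h : ℝ → ℝ} {K : ℝ} (hK : 0 ≤ K) (hh : ∀ r, |h r| ≤ K) (s : ℝ) :
    |cut f h s| ≤ K := by
  unfold cut
  by_cases hs : s ∈ NN f
  · rw [indicator_of_mem hs]
    exact hh _
  · rw [indicator_of_notMem hs, abs_zero]
    exact hK

lemma gn_nn (F : Fin 2 → ℂ → ℝ) (x : ℂ) : 0 ≤ gn F x := Real.sqrt_nonneg _

lemma gn_meas {F : Fin 2 → ℂ → ℝ} (hF : ∀ i, Measurable (F i)) : Measurable (gn F) :=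
  (((hF 0).pow_const 2).add ((hF 1).pow_const 2)).sqrt

lemma gn_le (F : Fin 2 → ℂ → ℝ) (x : ℂ) : gn F x ≤ |F 0 x| + |F 1 x| := by
  unfold gn
  rw [Real.sqrt_le_left (by positivity)]
  nlinarith [abs_nonneg (F 0 x), abs_nonneg (F 1 x), sq_abs (F 0 x), sq_abs (F 1 x),
    mul_nonneg (abs_nonneg (F 0 x)) (abs_nonneg (F 1 x))]

lemma gn_memLp {F : Fin 2 → ℂ → ℝ} (hF : ∀ i, Measurable (F i))
    (hL : ∀ i, MemLp (F i) 2 volume) : MemLp (gn F) 2 volume := by
  refine ((hL 0).abs.add (hL 1).abs).mono (gn_meas hF).aestronglyMeasurable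
    (Eventually.of_forall fun x => ?_)
  rw [Real.norm_eq_abs, abs_of_nonneg (gn_nn F x)]
  exact (gn_le F x).trans (le_abs_self _)

lemma md_meas {a b : ℂ → ℝ} (ma : Measurable a) (mb : Measurable b) : Measurable (md a b) :=
  ((ma.pow_const 2).add (mb.pow_const 2)).sqrt

lemma mg_meas {a b : ℂ → ℝ} {Fa Fb : Fin 2 → ℂ → ℝ} (ma : Measurable a) (mb : Measurable b)
    (mFa : ∀ i, Measurable (Fa i)) (mFb : ∀ i, Measurable (Fb i)) (i : Fin 2) :
    Measurable (mg a b Fa Fb i) :=
  ((ma.mul (mFa i)).add (mb.mul (mFb i))).div (md_meas ma mb)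

end SLC_

open SLC_ in
theorem p_SLC (h_RR1 : T_RR1) (h_M1 : T_M1) (h_M2 : T_M2) (h_M1V : T_M1V) (h_M2V : T_M2V)
    (h_EQM : T_EQM) (h_RKV : T_RKV) (h_NUL : T_NUL) (h_MOD : T_MOD) : T_SLC := by
  intro B R a b Fa Fb G κ Q hB ha hb ma mb mFa mFb hf hv mG mκ mQ hκ hQ hQi
  set f : ℂ → ℝ := md a b with hfd
  set v : ℂ → ℝ := fun x => rr f ‖x‖ with hvd
  set F : Fin 2 → ℂ → ℝ := mg a b Fa Fb with hFd
  obtain ⟨-, hanti, hrnn, -, hvN⟩ := h_RR1 R f hf
  obtain ⟨heq, har, hlev⟩ := h_EQM R f hf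
  have mf : Measurable f := hf.m
  have mF : ∀ i, Measurable (F i) := mg_meas ma mb mFa mFb
  have hF : H1 e2 (ball 0 R) f F := h_MOD ℂ (Fin 2) e2 (ball 0 R) a b Fa Fb isOpen_ball ha hb
  have hvw : ∀ x, v x = rr f ‖x‖ := fun x => rfl
  have mv : Measurable v := hvN.m
  have vnn : ∀ x, 0 ≤ v x := hvN.nn
  -- the levels of `v`
  have hNNv : ∀ x, (0 < v x ∧ volume {y : ℂ | v y = v x} = 0) ↔ v x ∈ NN f := by
    intro x
    constructor
    · rintro ⟨h1, h2⟩
      exact ⟨h1, by rw [← hlev _ h1]; exact h2⟩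
    · rintro ⟨h1, h2⟩
      exact ⟨h1, by rw [← hlev _ h1] at h2; exact h2⟩
  have hrad : ∀ x : ℂ, x ≠ 0 → v x ∈ NN f → rad f (v x) = ‖x‖ := by
    intro x hx hxN
    have h1 := (hNNv x).2 hxN
    exact h_RKV R f hf x hx h1.1 h1.2
  have hcut : ∀ h : ℝ → ℝ, ∀ x : ℂ, x ≠ 0 → v x ∈ NN f → cut f h (v x) = h ‖x‖ := by
    intro h x hx hxN
    unfold cut
    rw [indicator_of_mem hxN, hrad x hx hxN]
  have hcut0 : ∀ h : ℝ → ℝ, ∀ s, s ∉ NN f → cut f h s = 0 := by
    intro h s hs
    unfold cut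
    rw [indicator_of_notMem hs]
  have hne : ∀ᵐ x : ℂ, x ≠ 0 := by
    have : (volume : Measure ℂ) {0} = 0 := measure_singleton 0
    rw [ae_iff]
    simpa using this
  -- the gradient vanishes off the good levels
  have hG0 : ∀ᵐ x, v x ∉ NN f → gn G x = 0 := by
    have hS : volume (insert (0 : ℝ) (AT f)) = 0 := ((AT_count mf).insert 0).measure_zero volume
    have h0 := h_NUL ℂ (Fin 2) e2 (ball 0 R) v G (insert 0 (AT f)) isOpen_ball hv hS
    filter_upwards [h0 0, h0 1] with x hx0 hx1 hx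
    have hmem : v x ∈ insert (0 : ℝ) (AT f) := by
      rcases (vnn x).eq_or_lt with h | h
      · rw [← h]; exact mem_insert _ _
      · refine mem_insert_of_mem _ ?_
        by_contra hc
        apply hx
        rw [NN_eq]
        exact ⟨h, hc⟩
    unfold gn
    rw [hx0 hmem, hx1 hmem]
    simp
  -- the weights
  set q2 : ℝ → ℝ := fun r => (1 - κ r ^ 2) * Q r with hq2
  set q3 : ℝ → ℝ := fun r => (1 - κ r ^ 2) * Q r ^ 2 with hq3
  have hk1 : ∀ r, 0 ≤ 1 - κ r ^ 2 := fun r => by nlinarith [(hκ r).1, (hκ r).2]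
  have hk2 : ∀ r, 1 - κ r ^ 2 ≤ 1 := fun r => by nlinarith [(hκ r).1, (hκ r).2]
  have mq2 : Measurable q2 := ((measurable_const.sub (mκ.pow_const 2))).mul mQ
  have mq3 : Measurable q3 := ((measurable_const.sub (mκ.pow_const 2))).mul (mQ.pow_const 2)
  have q2nn : ∀ r, 0 ≤ q2 r := fun r => mul_nonneg (hk1 r) (hQ r)
  have q3nn : ∀ r, 0 ≤ q3 r := fun r => mul_nonneg (hk1 r) (sq_nonneg _)
  have q23 : ∀ r, q2 r ^ 2 ≤ Q r ^ 2 := fun r => by
    have : q2 r ≤ Q r := by
      have := mul_le_mul_of_nonneg_right (hk2 r) (hQ r)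
      simpa [hq2] using this
    exact pow_le_pow_left₀ (q2nn r) this 2
  have q33 : ∀ r, q3 r ≤ Q r ^ 2 := fun r => by
    have := mul_le_mul_of_nonneg_right (hk2 r) (sq_nonneg (Q r))
    simpa [hq3] using this
  have mc1 : Measurable (cut f κ) := cut_meas mf mκ
  have mc2 : Measurable (cut f q2) := cut_meas mf mq2
  have mc3 : Measurable (cut f q3) := cut_meas mf mq3
  have hc1 : ∀ s, |cut f κ s| ≤ 1 :=
    cut_le f zero_le_one fun r => by rw [abs_of_nonneg (hκ r).1]; exact (hκ r).2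
  -- the two functions
  have hY : ∀ x, Yc B a b Fa Fb κ Q x = 2 * (cut f κ (f x) * Wc B a b Fa Fb x) +
      2 * (cut f q2 (f x) * gn F x) - cut f q3 (f x) := by
    intro x
    unfold Yc
    by_cases hx : f x ∈ NN f
    · have hx' : 0 < md a b x ∧ volume {y : ℂ | md a b y = md a b x} = 0 := hx
      rw [if_pos hx']
      unfold cut
      simp only [indicator_of_mem hx, hq2, hq3]
      ring
    · have hx' : ¬ (0 < md a b x ∧ volume {y : ℂ | md a b y = md a b x} = 0) := hx
      rw [if_neg hx', hcut0 _ _ hx, hcut0 _ _ hx, hcut0 _ _ hx]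
      ring
  have hZ : ∀ᵐ x, Zc B v G κ Q x = 2 * B * (cut f κ (v x) * (v x * (‖x‖ / 2) * gn G x)) +
      2 * (cut f q2 (v x) * gn G x) - cut f q3 (v x) := by
    filter_upwards [hne, hG0] with x hx hG
    unfold Zc
    by_cases hxN : v x ∈ NN f
    · rw [if_pos ((hNNv x).2 hxN), hcut _ x hx hxN, hcut _ x hx hxN, hcut _ x hx hxN]
      simp only [hq2, hq3]
      ring
    · rw [if_neg (fun h => hxN ((hNNv x).1 h)), hcut0 _ _ hxN, hcut0 _ _ hxN, hcut0 _ _ hxN,
        hG hxN]
      ring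
  -- integrability of the third terms
  have hΞ : ∀ h : ℝ → ℝ, Measurable h → (∀ r, 0 ≤ h r) → (∀ r, h r ≤ Q r ^ 2) →
      Integrable (fun x => cut f h (v x)) ∧ Integrable (fun x => cut f h (f x)) ∧
      ∫ x, cut f h (v x) = ∫ x, cut f h (f x) := by
    intro h mh h0 hQ2
    have m1 : Measurable fun x => cut f h (v x) := (cut_meas mf mh).comp mv
    have m2 : Measurable fun x => cut f h (f x) := (cut_meas mf mh).comp mf
    have i1 : Integrable fun x => cut f h (v x) := by
      refine hQi.mono m1.aestronglyMeasurable ?_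
      filter_upwards [hne] with x hx
      rw [Real.norm_eq_abs, Real.norm_eq_abs, abs_of_nonneg (cut_nn f h0 _),
        abs_of_nonneg (sq_nonneg _)]
      by_cases hxN : v x ∈ NN f
      · rw [hcut _ x hx hxN]
        exact hQ2 _
      · rw [hcut0 _ _ hxN]
        exact sq_nonneg _
    have hz : cut f h 0 = 0 := hcut0 _ _ fun hh => lt_irrefl _ hh.1
    have e1 := heq (fun s => ENNReal.ofReal (cut f h s)) (cut_meas mf mh).ennreal_ofReal
      (by rw [hz, ENNReal.ofReal_zero])
    have i2 : Integrable fun x => cut f h (f x) := by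
      refine ⟨m2.aestronglyMeasurable, ?_⟩
      rw [hasFiniteIntegral_iff_ofReal (Eventually.of_forall fun x => cut_nn f h0 _)]
      have e2 : ∫⁻ x, ENNReal.ofReal (cut f h (f x)) = ∫⁻ x, ENNReal.ofReal (cut f h (v x)) :=
        e1.symm
      rw [e2]
      have := i1.2
      rwa [hasFiniteIntegral_iff_ofReal (Eventually.of_forall fun x => cut_nn f h0 _)] at this
    refine ⟨i1, i2, ?_⟩
    rw [integral_eq_lintegral_of_nonneg_ae (Eventually.of_forall fun x => cut_nn f h0 _)
      m1.aestronglyMeasurable, integral_eq_lintegral_of_nonneg_ae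
      (Eventually.of_forall fun x => cut_nn f h0 _) m2.aestronglyMeasurable]
    exact congrArg ENNReal.toReal e1
  obtain ⟨i3v, i3f, e3'⟩ := hΞ q3 mq3 q3nn q33
  obtain ⟨i2v, i2f, -⟩ := hΞ (fun r => q2 r ^ 2) (mq2.pow_const 2) (fun r => sq_nonneg _) q23
  have hcsq : ∀ s, cut f (fun r => q2 r ^ 2) s = cut f q2 s ^ 2 := by
    intro s
    unfold cut
    by_cases hs : s ∈ NN f
    · rw [indicator_of_mem hs, indicator_of_mem hs]
    · rw [indicator_of_notMem hs, indicator_of_notMem hs]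
      ring
  have L2v : MemLp (fun x => cut f q2 (v x)) 2 volume :=
    (memLp_two_iff_integrable_sq (mc2.comp mv).aestronglyMeasurable).2
      (i2v.congr (Eventually.of_forall fun x => hcsq _))
  have L2f : MemLp (fun x => cut f q2 (f x)) 2 volume :=
    (memLp_two_iff_integrable_sq (mc2.comp mf).aestronglyMeasurable).2
      (i2f.congr (Eventually.of_forall fun x => hcsq _))
  have gF2 : MemLp (gn F) 2 volume := gn_memLp mF fun i => hF.memLp' i
  have gG2 : MemLp (gn G) 2 volume := gn_memLp mG fun i => hv.memLp' i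
  have j2v : Integrable fun x => cut f q2 (v x) * gn G x := L2v.integrable_mul gG2
  have j2f : Integrable fun x => cut f q2 (f x) * gn F x := L2f.integrable_mul gF2
  -- first terms
  obtain ⟨iW, -, eW⟩ := h_M2 B R a b Fa Fb (cut f κ) 1 ha hb ma mb mFa mFb mc1 hc1
  have j1f : Integrable fun x => cut f κ (f x) * Wc B a b Fa Fb x :=
    iW.bdd_mul (c := 1) (mc1.comp mf).aestronglyMeasurable (Eventually.of_forall fun x => hc1 _)
  have j0v : Integrable fun x : ℂ => v x * (‖x‖ / 2) * gn G x := by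
    have h1 : MemLp (fun x : ℂ => v x * (‖x‖ / 2)) 2 volume := by
      refine (hv.memLp.const_mul (|R| / 2)).mono
        (mv.mul (measurable_norm.div_const 2)).aestronglyMeasurable
        (Eventually.of_forall fun x => ?_)
      rw [norm_mul, norm_mul, mul_comm]
      by_cases hx : R ≤ ‖x‖
      · have hz : v x = 0 := hvN.z x hx
        rw [hz]
        simp
      · refine mul_le_mul_of_nonneg_right ?_ (norm_nonneg _)
        rw [Real.norm_eq_abs, Real.norm_eq_abs, abs_of_nonneg (by positivity),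
          abs_of_nonneg (by positivity)]
        have := le_abs_self R
        push Not at hx
        linarith
    exact h1.integrable_mul gG2
  have j1v : Integrable fun x : ℂ => cut f κ (v x) * (v x * (‖x‖ / 2) * gn G x) :=
    j0v.bdd_mul (c := 1) (mc1.comp mv).aestronglyMeasurable (Eventually.of_forall fun x => hc1 _)
  have eV := h_M2V R v G (rr f) (cut f κ) 1 hv hvN mG hvw hanti mc1 hc1
  have e1' : 2 * B * ∫ x : ℂ, cut f κ (v x) * (v x * (‖x‖ / 2) * gn G x) =
      2 * ∫ x, cut f κ (f x) * Wc B a b Fa Fb x := by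
    have h1 : ∫ s in Ioi (0 : ℝ), cut f κ s * (s * ar v s) =
        ∫ s in Ioi (0 : ℝ), cut f κ s * (s * ar f s) := by
      refine setIntegral_congr_fun measurableSet_Ioi fun s hs => ?_
      show cut f κ s * (s * ar v s) = cut f κ s * (s * ar f s)
      rw [har s (le_of_lt hs)]
    rw [eV, h1, eW]
    ring
  -- second terms
  have e2' : ∫ x, cut f q2 (v x) * gn G x ≤ ∫ x, cut f q2 (f x) * gn F x := by
    have a1 := h_M1 (ball 0 R) f F (fun s => ENNReal.ofReal (cut f q2 s)) hF mf mF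
      mc2.ennreal_ofReal
    have a2 := h_M1V R v G (rr f) (fun s => ENNReal.ofReal (cut f q2 s)) hv hvN mG hvw hanti
      mc2.ennreal_ofReal
    have a3 : ∫⁻ s in Ioi (0 : ℝ), ENNReal.ofReal (cut f q2 s) *
        ENNReal.ofReal (2 * Real.sqrt (Real.pi * ar v s)) =
        ∫⁻ s in Ioi (0 : ℝ), ENNReal.ofReal (cut f q2 s) *
        ENNReal.ofReal (2 * Real.sqrt (Real.pi * ar f s)) := by
      refine setLIntegral_congr_fun measurableSet_Ioi fun s hs => ?_
      show ENNReal.ofReal (cut f q2 s) * ENNReal.ofReal (2 * Real.sqrt (Real.pi * ar v s)) =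
        ENNReal.ofReal (cut f q2 s) * ENNReal.ofReal (2 * Real.sqrt (Real.pi * ar f s))
      rw [har s (le_of_lt hs)]
    have b1 : ∫⁻ x in {x | 0 < v x}, ENNReal.ofReal (cut f q2 (v x)) * ENNReal.ofReal (gn G x) =
        ∫⁻ x, ENNReal.ofReal (cut f q2 (v x) * gn G x) := by
      have hm : MeasurableSet {x | 0 < v x} := mv measurableSet_Ioi
      rw [← lintegral_indicator hm]
      refine lintegral_congr fun x => ?_
      by_cases hx : x ∈ {x | 0 < v x}
      · rw [indicator_of_mem hx, ENNReal.ofReal_mul (cut_nn f q2nn _)]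
      · rw [indicator_of_notMem hx, hcut0 _ _ fun hh => hx hh.1, zero_mul, ENNReal.ofReal_zero]
    have b2 : ∫⁻ x in {x | 0 < f x}, ENNReal.ofReal (cut f q2 (f x)) * ENNReal.ofReal (gn F x) =
        ∫⁻ x, ENNReal.ofReal (cut f q2 (f x) * gn F x) := by
      have hm : MeasurableSet {x | 0 < f x} := mf measurableSet_Ioi
      rw [← lintegral_indicator hm]
      refine lintegral_congr fun x => ?_
      by_cases hx : x ∈ {x | 0 < f x}
      · rw [indicator_of_mem hx, ENNReal.ofReal_mul (cut_nn f q2nn _)]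
      · rw [indicator_of_notMem hx, hcut0 _ _ fun hh => hx hh.1, zero_mul, ENNReal.ofReal_zero]
    have a4 : ∫⁻ x, ENNReal.ofReal (cut f q2 (v x) * gn G x) ≤
        ∫⁻ x, ENNReal.ofReal (cut f q2 (f x) * gn F x) := by
      rw [← b1, ← b2, ← a2, a3]
      exact a1
    have n1 : 0 ≤ᵐ[volume] fun x => cut f q2 (v x) * gn G x :=
      Eventually.of_forall fun x => mul_nonneg (cut_nn f q2nn _) (gn_nn _ _)
    have n2 : 0 ≤ᵐ[volume] fun x => cut f q2 (f x) * gn F x :=
      Eventually.of_forall fun x => mul_nonneg (cut_nn f q2nn _) (gn_nn _ _)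
    rw [integral_eq_lintegral_of_nonneg_ae n1 j2v.1, integral_eq_lintegral_of_nonneg_ae n2 j2f.1]
    refine ENNReal.toReal_mono ?_ a4
    have := j2f.2
    rw [hasFiniteIntegral_iff_ofReal n2] at this
    exact this.ne
  -- conclusion
  have iY : Integrable fun x => 2 * (cut f κ (f x) * Wc B a b Fa Fb x) +
      2 * (cut f q2 (f x) * gn F x) - cut f q3 (f x) :=
    ((j1f.const_mul 2).add (j2f.const_mul 2)).sub i3f
  have iZ : Integrable fun x => 2 * B * (cut f κ (v x) * (v x * (‖x‖ / 2) * gn G x)) +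
      2 * (cut f q2 (v x) * gn G x) - cut f q3 (v x) :=
    ((j1v.const_mul (2 * B)).add (j2v.const_mul 2)).sub i3v
  refine ⟨iY.congr (Eventually.of_forall fun x => (hY x).symm), iZ.congr ?_, ?_⟩
  · filter_upwards [hZ] with x hx
    exact hx.symm
  · rw [integral_congr_ae hZ, integral_congr_ae (Eventually.of_forall hY)]
    have s1 : ∫ x, (2 * B * (cut f κ (v x) * (v x * (‖x‖ / 2) * gn G x)) +
        2 * (cut f q2 (v x) * gn G x) - cut f q3 (v x)) =
        2 * B * (∫ x : ℂ, cut f κ (v x) * (v x * (‖x‖ / 2) * gn G x)) +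
        2 * (∫ x, cut f q2 (v x) * gn G x) - ∫ x, cut f q3 (v x) := by
      have t1 := integral_sub ((j1v.const_mul (2 * B)).add (j2v.const_mul 2)) i3v
      have t2 := integral_add (j1v.const_mul (2 * B)) (j2v.const_mul 2)
      rw [integral_const_mul, integral_const_mul] at t2
      exact t1.trans (congrArg (fun t => t - ∫ x, cut f q3 (v x)) t2)
    have s2 : ∫ x, (2 * (cut f κ (f x) * Wc B a b Fa Fb x) +
        2 * (cut f q2 (f x) * gn F x) - cut f q3 (f x)) =
        2 * (∫ x, cut f κ (f x) * Wc B a b Fa Fb x) +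
        2 * (∫ x, cut f q2 (f x) * gn F x) - ∫ x, cut f q3 (f x) := by
      have t1 := integral_sub ((j1f.const_mul 2).add (j2f.const_mul 2)) i3f
      have t2 := integral_add (j1f.const_mul 2) (j2f.const_mul 2)
      rw [integral_const_mul, integral_const_mul] at t2
      exact t1.trans (congrArg (fun t => t - ∫ x, cut f q3 (f x)) t2)
    rw [s1, s2, e1', e3']
    linarith

end MGS
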