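import Pool.Agent.MGS.TA

/-! SLI: slices of `H¹₀` functions. -/

set_option autoImplicit false

open MeasureTheory Filter Topology Metric Set
open scoped ENNReal NNReal ContDiff

noncomputable section

namespace MGS

namespace SLI_

/-- square integral of the slice -/
def q (w : X → ℝ) (z : ℝ) : ℝ≥0∞ := ∫⁻ x : ℂ, ‖w (x, z)‖ₑ ^ (2 : ℝ)

theorem eLp_sq {α : Type} [MeasureSpace α] (u : α → ℝ) :
    eLpNorm u 2 volume = (∫⁻ x, ‖u x‖ₑ ^ (2 : ℝ)) ^ ((1 : ℝ) / 2) := by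
  rw [eLpNorm_eq_lintegral_rpow_enorm_toReal (by norm_num) (by norm_num)]
  simp

theorem lint_sq {α : Type} [MeasureSpace α] (u : α → ℝ) :
    ∫⁻ x, ‖u x‖ₑ ^ (2 : ℝ) = eLpNorm u 2 volume ^ (2 : ℝ) := by
  rw [eLp_sq, ← ENNReal.rpow_mul]
  simp

theorem aem {w : X → ℝ} (hw : AEStronglyMeasurable w volume) :
    AEMeasurable (fun P => ‖w P‖ₑ ^ (2 : ℝ)) (volume : Measure X) :=
  hw.enorm.pow_const _

theorem lint_q {w : X → ℝ} (hw : AEStronglyMeasurable w volume) :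
    ∫⁻ z, q w z = ∫⁻ P, ‖w P‖ₑ ^ (2 : ℝ) := by
  unfold q
  rw [Measure.volume_eq_prod ℂ ℝ]
  have h := aem hw
  rw [Measure.volume_eq_prod ℂ ℝ] at h
  exact (lintegral_prod_symm _ h).symm

theorem q_aem {w : X → ℝ} (hw : AEStronglyMeasurable w volume) :
    AEMeasurable (q w) (volume : Measure ℝ) := by
  have h := aem hw
  rw [Measure.volume_eq_prod ℂ ℝ] at h
  exact h.prod_swap.lintegral_prod_right'

theorem ae_slice_aesm {w : X → ℝ} (hw : AEStronglyMeasurable w volume) :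
    ∀ᵐ z : ℝ, AEStronglyMeasurable (sl w z) (volume : Measure ℂ) := by
  rw [Measure.volume_eq_prod ℂ ℝ] at hw
  exact hw.prod_swap.prodMk_left

theorem ae_slice_memLp {w : X → ℝ} (hw : MemLp w 2 volume) :
    ∀ᵐ z : ℝ, MemLp (sl w z) 2 (volume : Measure ℂ) := by
  have h1 : ∫⁻ z, q w z ≠ ⊤ := by
    rw [lint_q hw.1, lint_sq]
    exact (ENNReal.rpow_lt_top_of_nonneg (by norm_num) hw.2.ne).ne
  have h2 := ae_lt_top' (q_aem hw.1) h1
  filter_upwards [h2, ae_slice_aesm hw.1] with z hz hz'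
  refine ⟨hz', ?_⟩
  rw [eLp_sq]
  exact ENNReal.rpow_lt_top_of_nonneg (by norm_num) hz.ne

theorem ae_tendsto {w : ℕ → X → ℝ} (hw : ∀ n, AEStronglyMeasurable (w n) volume)
    (h : ∀ n, eLpNorm (w n) 2 volume ≤ (2⁻¹ : ℝ≥0∞) ^ n) :
    ∀ᵐ z : ℝ, Tendsto (fun n => eLpNorm (sl (w n) z) 2 (volume : Measure ℂ)) atTop (𝓝 0) := by
  have h1 : ∫⁻ z, ∑' n, q (w n) z ≠ ⊤ := by
    rw [lintegral_tsum (fun n => q_aem (hw n))]
    have h2 : ∀ n, ∫⁻ z, q (w n) z ≤ (2⁻¹ : ℝ≥0∞) ^ n := by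
      intro n
      rw [lint_q (hw n), lint_sq]
      calc eLpNorm (w n) 2 volume ^ (2 : ℝ) ≤ ((2⁻¹ : ℝ≥0∞) ^ n) ^ (2 : ℝ) :=
            ENNReal.rpow_le_rpow (h n) (by norm_num)
        _ = ((2⁻¹ : ℝ≥0∞) ^ n) * ((2⁻¹ : ℝ≥0∞) ^ n) := by
            rw [ENNReal.rpow_two, sq]
        _ ≤ ((2⁻¹ : ℝ≥0∞) ^ n) * 1 := by
            gcongr
            exact pow_le_one₀ (by positivity) (by simp)
        _ = _ := mul_one _
    have h3 : ∑' n, ∫⁻ z, q (w n) z ≤ ∑' n : ℕ, (2⁻¹ : ℝ≥0∞) ^ n := ENNReal.tsum_le_tsum h2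
    rw [ENNReal.tsum_geometric] at h3
    refine (h3.trans_lt ?_).ne
    simp
  have h2 := ae_lt_top' (AEMeasurable.tsum fun n => q_aem (hw n)) h1
  filter_upwards [h2] with z hz
  have h3 : Tendsto (fun n => q (w n) z) atTop (𝓝 0) :=
    ENNReal.tendsto_atTop_zero_of_tsum_ne_top hz.ne
  have h4 := ((ENNReal.continuous_rpow_const (y := (1 : ℝ) / 2)).tendsto 0).comp h3
  rw [ENNReal.zero_rpow_of_pos (by norm_num)] at h4
  refine h4.congr fun n => ?_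
  rw [eLp_sq]
  rfl

theorem emb (z : ℝ) : IsClosedEmbedding (fun x : ℂ => (x, z)) :=
  Function.LeftInverse.isClosedEmbedding (f := Prod.fst) (fun _ => rfl) continuous_fst
    (continuous_id.prodMk continuous_const)

theorem e3_castSucc (i : Fin 2) : e3 i.castSucc = (e2 i, (0 : ℝ)) := by
  fin_cases i <;> simp [e3, e2]

theorem test_slice {G : Set X} {R : ℝ} (hG : ∀ P ∈ G, ‖P.1‖ < R) {φ : X → ℝ} (h : Test G φ)
    (z : ℝ) : Test (ball (0 : ℂ) R) (sl φ z) where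
  smooth := h.smooth.comp (contDiff_id.prodMk contDiff_const)
  cpt := h.cpt.comp_isClosedEmbedding (emb z)
  sub := by
    intro x hx
    have h1 : (x, z) ∈ tsupport φ := tsupport_comp_subset_preimage φ (emb z).continuous hx
    have h2 := hG _ (h.sub h1)
    simpa using h2

theorem pd_slice {G : Set X} {φ : X → ℝ} (h : Test G φ) (z : ℝ) (i : Fin 2) (x : ℂ) :
    pd e2 i (sl φ z) x = pd e3 i.castSucc φ (x, z) := by
  unfold pd
  rw [e3_castSucc]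
  have h1 : HasFDerivAt (fun x : ℂ => (x, z)) (ContinuousLinearMap.inl ℝ ℂ ℝ) x :=
    hasFDerivAt_prodMk_left x z
  have h2 : HasFDerivAt (sl φ z) ((fderiv ℝ φ (x, z)).comp (ContinuousLinearMap.inl ℝ ℂ ℝ)) x :=
    (h.diff (x, z)).hasFDerivAt.comp x h1
  rw [h2.fderiv]
  simp

end SLI_

open SLI_ in
theorem p_SLI : T_SLI := by
  intro G f F R hG hf
  have hpos : ∀ n : ℕ, ((2⁻¹ : ℝ≥0∞)) ^ n ≠ 0 := fun n => by
    exact pow_ne_zero _ (by simp)
  choose φ hφ h1 h2 using fun n : ℕ => hf.2.2 _ (hpos n)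
  have t1 := ae_tendsto (w := fun n P => φ n P - f P)
    (fun n => ((hφ n).memLp.sub hf.1).1) h1
  have t2 : ∀ᵐ z : ℝ, ∀ i : Fin 2, Tendsto (fun n => eLpNorm
      (sl (fun P => pd e3 i.castSucc (φ n) P - F i.castSucc P) z) 2 (volume : Measure ℂ))
      atTop (𝓝 0) := by
    rw [ae_all_iff]
    intro i
    exact ae_tendsto (fun n => (((hφ n).memLp_pd _).sub (hf.2.1 _)).1) (fun n => h2 n _)
  have t3 := ae_slice_memLp hf.1
  have t4 : ∀ᵐ z : ℝ, ∀ i : Fin 2, MemLp (sl (F i.castSucc) z) 2 (volume : Measure ℂ) := by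
    rw [ae_all_iff]
    intro i
    exact ae_slice_memLp (hf.2.1 _)
  filter_upwards [t1, t2, t3, t4] with z z1 z2 z3 z4
  refine H1.lim (g := fun n => sl (φ n) z) (Fg := fun n i => pd e2 i (sl (φ n) z)) z3 z4
    (fun n => (test_slice hG (hφ n) z).h1) z1 fun i => ?_
  refine (z2 i).congr fun n => ?_
  congr 1
  funext x
  rw [pd_slice (hφ n)]
  rfl

end MGS
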