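import Pool.Agent.MGS.TF

/-!
# MGS: target SLT (the centres of the slices)
-/

set_option autoImplicit false

open MeasureTheory Filter Topology Metric Set
open scoped ENNReal NNReal ContDiff

noncomputable section

namespace MGS

namespace SLT_

lemma ae_slice {p : X → Prop} (h : ∀ᵐ P : X, p P) : ∀ᵐ z : ℝ, ∀ᵐ x : ℂ, p (x, z) := by
  have h1 : ∀ᵐ q : ℝ × ℂ, p q.swap :=
    (Measure.measurePreserving_swap (μ := (volume : Measure ℝ))
      (ν := (volume : Measure ℂ))).quasiMeasurePreserving.ae h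
  exact Measure.ae_ae_of_ae_prod h1

lemma ae_of_slice {p : X → Prop} (hp : MeasurableSet {P : X | p P})
    (h : ∀ᵐ z : ℝ, ∀ᵐ x : ℂ, p (x, z)) : ∀ᵐ P : X, p P := by
  rw [Measure.volume_eq_prod, Measure.ae_prod_iff_ae_ae hp,
    Measure.ae_ae_comm (p := fun x z => p (x, z)) hp]
  exact h

lemma ae_sub {p : ℂ → Prop} (h : ∀ᵐ x : ℂ, p x) (c : ℂ) : ∀ᵐ x : ℂ, p (x - c) :=
  (measurePreserving_sub_right (volume : Measure ℂ) c).quasiMeasurePreserving.ae h

lemma ae_of_sub {p : ℂ → Prop} {c : ℂ} (h : ∀ᵐ x : ℂ, p (x - c)) : ∀ᵐ x : ℂ, p x := by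
  have h1 := ae_sub h (-c)
  filter_upwards [h1] with x hx
  simpa using hx

/-- the centre of mass of `g²` -/
def cen (g : ℂ → ℝ) : ℂ := (∫ x : ℂ, g x ^ 2)⁻¹ • ∫ x : ℂ, (g x ^ 2) • x

lemma cen_meas {f : X → ℝ} (hf : Measurable f) : Measurable fun z : ℝ => cen (sl f z) := by
  have h1 : Measurable fun z : ℝ => ∫ x : ℂ, f (x, z) ^ 2 := by
    have h2 : StronglyMeasurable (Function.uncurry fun (x : ℂ) (z : ℝ) => f (x, z) ^ 2) :=
      (hf.pow_const 2).stronglyMeasurable
    exact h2.integral_prod_left.measurable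
  have h3 : Measurable fun z : ℝ => ∫ x : ℂ, (f (x, z) ^ 2) • x := by
    have h2 : StronglyMeasurable (Function.uncurry fun (x : ℂ) (z : ℝ) => (f (x, z) ^ 2) • x) :=
      ((hf.pow_const 2).smul measurable_fst).stronglyMeasurable
    exact h2.integral_prod_left.measurable
  exact h1.inv.smul h3

lemma cen_bd {R : ℝ} (hR : 0 ≤ R) {g : ℂ → ℝ} (hN : Nc R g) : ‖cen g‖ ≤ R := by
  unfold cen
  have hm : 0 ≤ ∫ x : ℂ, g x ^ 2 := integral_nonneg fun x => sq_nonneg _
  by_cases hi : Integrable fun x : ℂ => g x ^ 2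
  · rw [norm_smul, norm_inv, Real.norm_of_nonneg hm]
    have h1 : ‖∫ x : ℂ, (g x ^ 2) • x‖ ≤ ∫ x : ℂ, R * g x ^ 2 := by
      refine norm_integral_le_of_norm_le (hi.const_mul R) (Eventually.of_forall fun x => ?_)
      rw [norm_smul, Real.norm_of_nonneg (sq_nonneg _), mul_comm]
      by_cases hx : R ≤ ‖x‖
      · rw [hN.z x hx]
        simp
      · exact mul_le_mul_of_nonneg_right (not_le.1 hx).le (sq_nonneg _)
    rw [integral_const_mul] at h1
    rcases hm.eq_or_lt with h2 | h2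
    · rw [← h2, inv_zero, zero_mul]
      exact hR
    · calc (∫ x : ℂ, g x ^ 2)⁻¹ * ‖∫ x : ℂ, (g x ^ 2) • x‖
          ≤ (∫ x : ℂ, g x ^ 2)⁻¹ * (R * ∫ x : ℂ, g x ^ 2) :=
            mul_le_mul_of_nonneg_left h1 (inv_nonneg.2 hm)
        _ = R := by field_simp
  · rw [integral_undef hi, inv_zero, zero_smul, norm_zero]
    exact hR

/-- the centre of mass of a radial function -/
lemma cen_eq {R : ℝ} {g h : ℂ → ℝ} {c : ℂ} (hN : Nc R h) (hs : ∀ x, h (-x) = h x)
    (hL : MemLp h 2 volume) (hc : ∀ᵐ x, g x = h (x - c)) : ∀ᵐ x, g x = h (x - cen g) := by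
  have hi : Integrable fun x : ℂ => h x ^ 2 := hL.integrable_sq
  have hiy : Integrable fun x : ℂ => (h x ^ 2) • x := by
    refine Integrable.mono' (hi.const_mul R) ?_ (Eventually.of_forall fun x => ?_)
    · exact ((hN.m.pow_const 2).smul measurable_id).aestronglyMeasurable
    · rw [norm_smul, Real.norm_of_nonneg (sq_nonneg _), mul_comm]
      by_cases hx : R ≤ ‖x‖
      · rw [hN.z x hx]
        simp
      · exact mul_le_mul_of_nonneg_right (not_le.1 hx).le (sq_nonneg _)
  have h1 : ∫ x : ℂ, g x ^ 2 = ∫ x : ℂ, h x ^ 2 := by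
    rw [← integral_sub_right_eq_self (fun x : ℂ => h x ^ 2) c]
    apply integral_congr_ae
    filter_upwards [hc] with x hx
    rw [hx]
  have hodd : ∫ x : ℂ, (h x ^ 2) • x = 0 := by
    have h2 := integral_neg_eq_self (fun x : ℂ => (h x ^ 2) • x) volume
    have h3 : ∫ x : ℂ, (h (-x) ^ 2) • (-x) = - ∫ x : ℂ, (h x ^ 2) • x := by
      rw [← integral_neg]
      refine integral_congr_ae (Eventually.of_forall fun x => ?_)
      show (h (-x) ^ 2) • (-x) = -((h x ^ 2) • x)
      rw [hs, smul_neg]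
    rw [h3] at h2
    have h4 : (2 : ℂ) * ∫ x : ℂ, (h x ^ 2) • x = 0 := by linear_combination -h2
    rcases mul_eq_zero.1 h4 with h5 | h5
    · norm_num at h5
    · exact h5
  have h2 : ∫ x : ℂ, (g x ^ 2) • x = (∫ x : ℂ, h x ^ 2) • c := by
    have h3 : ∫ x : ℂ, (g x ^ 2) • x = ∫ x : ℂ, (h (x - c) ^ 2) • ((x - c) + c) := by
      apply integral_congr_ae
      filter_upwards [hc] with x hx
      rw [hx, sub_add_cancel]
    rw [h3, integral_sub_right_eq_self (fun y : ℂ => (h y ^ 2) • (y + c)) c]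
    simp only [smul_add]
    rw [integral_add hiy (hi.smul_const c), hodd, zero_add, integral_smul_const]
  by_cases hm : ∫ x : ℂ, h x ^ 2 = 0
  · have h3 : ∀ᵐ x : ℂ, h x = 0 := by
      have h4 := (integral_eq_zero_iff_of_nonneg (fun x => sq_nonneg (h x)) hi).1 hm
      filter_upwards [h4] with x hx
      have hx' : h x ^ 2 = 0 := hx
      exact pow_eq_zero_iff (two_ne_zero) |>.1 hx'
    filter_upwards [hc, ae_sub h3 c, ae_sub h3 (cen g)] with x h5 h6 h7
    rw [h5, h6, h7]
  · have h3 : cen g = c := by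
      unfold cen
      rw [h1, h2, smul_smul, inv_mul_cancel₀ hm, one_smul]
    rw [h3]
    exact hc

end SLT_

open SLT_ in
theorem p_SLT (hEG2 : T_EG2) (hEQE : T_EQE) (hRIG : T_RIG) (hSLI : T_SLI) (hMOD : T_MOD)
    (hEQM : T_EQM) (hRKV : T_RKV) (hTRL : T_TRL) (hUNI : T_UNI) (hOST : T_OST)
    (hVSM : T_VSM) : T_SLT := by
  intro B R Ω a b v₁ Fa Fb F V T hX
  obtain ⟨g1, g2⟩ := hEG2 B R Ω a b v₁ Fa Fb F V T hX
  have hB := hX.Bpos
  have hpd := hX.pd
  have hrd := hX.rd
  have hpl : volume (pl (md a b)) = 0 := by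
    refine ((hEQE B R Ω a b v₁ Fa Fb F V T hB hpd hX.star hrd).2 ?_).1
    rw [hX.nrm, mul_one]
    exact hX.eq
  -- nonemptiness
  have hΩ : Ω.Nonempty := by
    rw [nonempty_iff_ne_empty]
    intro h
    have h1 : ∀ P, a P ^ 2 + b P ^ 2 = 0 := by
      intro P
      obtain ⟨h2, h3, -⟩ := hpd.zero P (by rw [h]; exact notMem_empty _)
      rw [h2, h3]
      norm_num
    have h2 := hX.nrm
    simp only [h1, integral_zero] at h2
    exact absurd h2 (by norm_num)
  have hR : 0 < R := by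
    obtain ⟨P, hP⟩ := hΩ
    exact (norm_nonneg P).trans_lt (hpd.bdd P hP)
  have hbd : Bornology.IsBounded Ω := by
    refine isBounded_ball.subset (s := Ω) (t := ball (0 : X) R) fun P hP => ?_
    rw [mem_ball_zero_iff]
    exact hpd.bdd P hP
  obtain ⟨-, -, -, -, -, -, hOR⟩ := hOST Ω hpd.isOpen hbd hΩ
  set f : X → ℝ := md a b with hf
  have mf : Measurable f := ((hpd.ma.pow_const 2).add (hpd.mb.pow_const 2)).sqrt
  have fnn : ∀ P, 0 ≤ f P := fun P => Real.sqrt_nonneg _
  have f0 : ∀ P, P ∉ Ω → f P = 0 := by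
    intro P hP
    obtain ⟨h2, h3, -⟩ := hpd.zero P hP
    rw [hf]
    unfold md
    rw [h2, h3]
    norm_num
  have hNx : Nx R f := ⟨mf, fnn, fun P hP => f0 P fun h => absurd (hpd.bdd P h) (not_lt.2 hP)⟩
  obtain ⟨hNv, mrk, -, -, hNc, -⟩ := hVSM R f hNx
  have mmg : ∀ i, Measurable (mg a b Fa Fb i) := fun i =>
    ((hpd.ma.mul (hpd.mFa i)).add (hpd.mb.mul (hpd.mFb i))).div mf
  have hH : H1 e3 Ω f (mg a b Fa Fb) :=
    hMOD X (Fin 3) e3 Ω a b Fa Fb hpd.isOpen hpd.ha hpd.hb
  have hV : H1 e3 (Ost Ω) (vs f) F :=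
    hrd.gs.h.congr (g1.mono fun P hP => hP.symm) fun i => ae_eq_refl _
  have s1 := hSLI Ω f (mg a b Fa Fb) R
    (fun P hP => (norm_fst_le P).trans_lt (hpd.bdd P hP)) hH
  have s2 := hSLI (Ost Ω) (vs f) F R
    (fun P hP => (norm_fst_le P).trans_lt (hOR R hpd.bdd P hP)) hV
  have s3 := ae_slice hrd.geq
  have s4 := ae_slice hrd.pos
  have s5 := ae_slice g1
  have s6 := ae_slice g2
  have s7 : ∀ᵐ z : ℝ, volume {x : ℂ | (x, z) ∈ pl f} = 0 := by
    have h1 : ∀ᵐ P : X, P ∉ pl f := measure_eq_zero_iff_ae_notMem.1 hpl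
    filter_upwards [ae_slice h1] with z hz
    exact measure_eq_zero_iff_ae_notMem.2 hz
  have hne : ∀ c : ℂ, ∀ᵐ x : ℂ, x ≠ c := by
    intro c
    rw [ae_iff]
    simp
  -- the main statement on the slices
  have key : ∀ᵐ z : ℝ, ∀ᵐ x : ℂ, f (x, z) = V ‖x - cen (sl f z)‖ z ∧
      (0 < f (x, z) → rk f (x, z) = ‖x - cen (sl f z)‖) ∧
      mg a b Fa Fb 0 (x, z) = -(T ‖x - cen (sl f z)‖ z * (x - cen (sl f z)).re /
        ‖x - cen (sl f z)‖) ∧
      mg a b Fa Fb 1 (x, z) = -(T ‖x - cen (sl f z)‖ z * (x - cen (sl f z)).im /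
        ‖x - cen (sl f z)‖) := by
    filter_upwards [s1, s2, s3, s4, s5, s6, s7] with z t1 t2 t3 t4 t5 t6 t7
    have hNz := hNc z
    obtain ⟨-, -, e3'⟩ := hEQM R (sl f z) hNz
    have t2' : H1 e2 (ball (0 : ℂ) R) (fun x => rr (sl f z) ‖x‖)
        (fun i => sl (F i.castSucc) z) := t2
    have hlev : ∀ s, 0 < s → volume {x | sl f z x = s} = 0 := by
      intro s hs
      by_contra hc
      have h1 : 0 < volume {x | sl f z x = s} := pos_iff_ne_zero.2 hc
      apply hc
      refine measure_mono_null (fun x hx => ?_) t7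
      have hx' : f (x, z) = s := hx
      show 0 < f (x, z) ∧ 0 < volume {y : ℂ | f (y, z) = f (x, z)}
      rw [hx']
      exact ⟨hs, h1⟩
    have hrr : ∀ᵐ x : ℂ, rr (sl f z) ‖x‖ = V ‖x‖ z := by
      filter_upwards [t5] with x hx
      have h1 : rr (sl f z) ‖x‖ = v₁ (x, z) := hx
      rw [h1, hrd.veq]
    obtain ⟨c, hc⟩ := hRIG R (sl f z) (fun i => sl (mg a b Fa Fb i.castSucc) z)
      (fun i => sl (F i.castSucc) z) (fun r => T r z) hNz t1
      (fun i => (mmg i.castSucc).comp (measurable_id.prodMk measurable_const)) t2'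
      (fun i => (hrd.gs.mF i.castSucc).comp (measurable_id.prodMk measurable_const))
      (hrd.mT.comp (measurable_id.prodMk measurable_const)) (fun r => hrd.nnT r z)
      (by
        filter_upwards [t3, hne 0] with x hx hx0
        have h1 : F 0 (x, z) = -(T ‖x‖ z * x.re / ‖x‖) := hx.1
        have h2 : F 1 (x, z) = -(T ‖x‖ z * x.im / ‖x‖) := hx.2
        show Real.sqrt (F 0 (x, z) ^ 2 + F 1 (x, z) ^ 2) = T ‖x‖ z
        rw [h1, h2]
        have hxp : 0 < ‖x‖ := norm_pos_iff.2 hx0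
        have h3 : x.re ^ 2 + x.im ^ 2 = ‖x‖ ^ 2 := by
          rw [← Complex.normSq_eq_norm_sq, Complex.normSq_apply]
          ring
        have h4 : (-(T ‖x‖ z * x.re / ‖x‖)) ^ 2 + (-(T ‖x‖ z * x.im / ‖x‖)) ^ 2 =
            T ‖x‖ z ^ 2 := by
          field_simp
          linear_combination (T ‖x‖ z ^ 2) * h3
        rw [h4, Real.sqrt_sq (hrd.nnT _ _)])
      (by
        filter_upwards [t4, t5] with x hx hx5 hx0
        have h1 : rr (sl f z) ‖x‖ = v₁ (x, z) := hx5
        have h2 : (x, z) ∈ Ost Ω := by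
          by_contra h3
          rw [h1, (hrd.gs.zero (x, z) h3).1] at hx0
          exact lt_irrefl _ hx0
        obtain ⟨h4, h5⟩ := hx h2
        refine lt_of_le_of_lt ?_ h5
        have h6 : 0 ≤ B / 2 := by linarith
        exact mul_nonneg (mul_nonneg h6 (norm_nonneg _)) h4.le)
      (by
        filter_upwards [t6] with x hx hx0
        exact (hx hx0).2)
      hlev
    have hstar : ∀ᵐ x : ℂ, sl f z x = rr (sl f z) ‖x - cen (sl f z)‖ := by
      obtain ⟨hm2, -, -⟩ := t2'
      have h5 : Nc R fun x : ℂ => rr (sl f z) ‖x‖ := by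
        refine ⟨hNv.m.comp (measurable_id.prodMk measurable_const), fun x => hNv.nn (x, z),
          fun x hx => hNv.z (x, z) ?_⟩
        exact hx.trans (norm_fst_le (x, z))
      exact cen_eq (h := fun x => rr (sl f z) ‖x‖) h5 (fun x => by simp only [norm_neg]) hm2 hc
    set c' := cen (sl f z) with hc'
    have hgr := hTRL ℂ (Fin 2) e2 (ball (0 : ℂ) R) (fun x => rr (sl f z) ‖x‖)
      (fun i => sl (F i.castSucc) z) (ContinuousLinearEquiv.refl ℝ ℂ) (-c')
      (fun i j => if i = j then 1 else 0) (fun i => by simp) t2'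
    have hgu := hUNI ℂ (Fin 2) e2 (ball (0 : ℂ) R) _ (sl f z) _ _ _ t1 hgr (by
      filter_upwards [hstar] with x hx
      rw [hx]
      rfl)
    have hg0 := hgu 0
    have hg1 := hgu 1
    filter_upwards [hstar, ae_sub hrr c', ae_sub (hne 0) c', hg0, hg1, ae_sub t3 c'] with
      x u1 u2 u3 u4 u5 u6
    have w1 : f (x, z) = rr (sl f z) ‖x - c'‖ := u1
    refine ⟨w1.trans u2, ?_, ?_, ?_⟩
    · intro hp
      have h1 : rk f (x, z) = rad (sl f z) (f (x, z)) := rfl
      rw [h1, w1]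
      rw [w1] at hp
      apply hRKV R (sl f z) hNz (x - c') u3 hp
      rw [e3' _ hp]
      exact hlev _ hp
    · have h1 : mg a b Fa Fb 0 (x, z) = F 0 (x - c', z) := by
        have h2 : mg a b Fa Fb 0 (x, z) = ∑ j : Fin 2, (if j = 0 then (1 : ℝ) else 0) *
          F j.castSucc (x + -c', z) := u4
        rw [h2, Fin.sum_univ_two]
        simp [sub_eq_add_neg]
      rw [h1]
      exact u6.1
    · have h1 : mg a b Fa Fb 1 (x, z) = F 1 (x - c', z) := by
        have h2 : mg a b Fa Fb 1 (x, z) = ∑ j : Fin 2, (if j = 1 then (1 : ℝ) else 0) *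
          F j.castSucc (x + -c', z) := u5
        rw [h2, Fin.sum_univ_two]
        simp [sub_eq_add_neg]
      rw [h1]
      exact u6.2
  have mc := cen_meas mf
  have mdiff : Measurable fun P : X => P.1 - cen (sl f P.2) :=
    measurable_fst.sub (mc.comp measurable_snd)
  have mpair : Measurable fun P : X => (‖P.1 - cen (sl f P.2)‖, P.2) :=
    mdiff.norm.prodMk measurable_snd
  have mV' : Measurable fun P : X => V ‖P.1 - cen (sl f P.2)‖ P.2 := hrd.mV.comp mpair
  have mT' : Measurable fun P : X => T ‖P.1 - cen (sl f P.2)‖ P.2 := hrd.mT.comp mpair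
  refine ⟨fun z => cen (sl f z), mc, fun z => cen_bd hR.le (hNc z), ?_, ?_, ?_⟩
  · refine ae_of_slice (measurableSet_eq_fun mf mV') ?_
    filter_upwards [key] with z hz
    filter_upwards [hz] with x hx
    exact hx.1
  · refine ae_of_slice ?_ ?_
    · have h1 : {P : X | 0 < f P → rk f P = ‖P.1 - cen (sl f P.2)‖} =
          {P : X | 0 < f P}ᶜ ∪ {P : X | rk f P = ‖P.1 - cen (sl f P.2)‖} := by
        ext P
        simp only [mem_union, mem_compl_iff, mem_ofPred_eq]
        tauto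
      show MeasurableSet {P : X | 0 < f P → rk f P = ‖P.1 - cen (sl f P.2)‖}
      rw [h1]
      exact (measurableSet_lt measurable_const mf).compl.union
        (measurableSet_eq_fun mrk mdiff.norm)
    · filter_upwards [key] with z hz
      filter_upwards [hz] with x hx
      exact hx.2.1
  · refine ae_of_slice ?_ ?_
    · refine MeasurableSet.inter (measurableSet_eq_fun (mmg 0) ?_)
        (measurableSet_eq_fun (mmg 1) ?_)
      · exact ((mT'.mul (Complex.measurable_re.comp mdiff)).div mdiff.norm).neg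
      · exact ((mT'.mul (Complex.measurable_im.comp mdiff)).div mdiff.norm).neg
    · filter_upwards [key] with z hz
      filter_upwards [hz] with x hx
      exact hx.2.2

end MGS
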