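import Pool.Agent.MGS.TF

/-!
# MGS: SPL (splitting along a plane that does not meet the domain)
-/

set_option autoImplicit false

open MeasureTheory Filter Topology Metric Set
open scoped ENNReal NNReal ContDiff

noncomputable section

namespace MGS

namespace SPL_

/-- the restriction of a test function to an open set whose boundary does not meet the domain -/
lemma test_indicator {Ω H : Set X} (hH : IsOpen H) (hΩ : ∀ P ∈ Ω, P ∈ closure H → P ∈ H)
    {φ : X → ℝ} (h : Test Ω φ) :
    Test (Ω ∩ H) (H.indicator φ) ∧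
      ∀ (i : Fin 3) (P : X), pd e3 i (H.indicator φ) P = H.indicator (pd e3 i φ) P := by
  have hsupp : Function.support (H.indicator φ) ⊆ Function.support φ ∩ H := by
    intro P hP
    rw [Function.mem_support] at hP
    by_cases hPH : P ∈ H
    · rw [Set.indicator_of_mem hPH] at hP
      exact ⟨hP, hPH⟩
    · rw [Set.indicator_of_notMem hPH] at hP
      exact absurd rfl hP
  have hts : tsupport (H.indicator φ) ⊆ Ω ∩ H := by
    intro P hP
    have h1 : P ∈ closure (Function.support φ ∩ H) := closure_mono hsupp hP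
    have h2 : P ∈ tsupport φ := closure_mono inter_subset_left h1
    have h3 : P ∈ closure H := closure_mono inter_subset_right h1
    exact ⟨h.sub h2, hΩ P (h.sub h2) h3⟩
  have hin : ∀ P ∈ H, H.indicator φ =ᶠ[𝓝 P] φ := by
    intro P hP
    filter_upwards [hH.mem_nhds hP] with Q hQ
    exact Set.indicator_of_mem hQ φ
  refine ⟨⟨?_, ?_, hts⟩, ?_⟩
  · rw [contDiff_iff_contDiffAt]
    intro P
    by_cases hP : P ∈ H
    · exact (h.smooth.contDiffAt).congr_of_eventuallyEq (hin P hP)
    · have hnt : P ∉ tsupport (H.indicator φ) := fun hh => hP (hts hh).2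
      have h0 : H.indicator φ =ᶠ[𝓝 P] fun _ => (0 : ℝ) :=
        notMem_tsupport_iff_eventuallyEq.mp hnt
      exact contDiffAt_const.congr_of_eventuallyEq h0
  · exact h.cpt.mono (hsupp.trans inter_subset_left)
  · intro i P
    by_cases hP : P ∈ H
    · rw [Set.indicator_of_mem hP]
      unfold pd
      rw [(hin P hP).fderiv_eq]
    · rw [Set.indicator_of_notMem hP]
      have hnt : P ∉ tsupport (H.indicator φ) := fun hh => hP (hts hh).2
      have h0 : H.indicator φ =ᶠ[𝓝 P] fun _ => (0 : ℝ) :=
        notMem_tsupport_iff_eventuallyEq.mp hnt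
      unfold pd
      rw [h0.fderiv_eq]
      simp

lemma gen {Ω H : Set X} (hH : IsOpen H) (hΩ : ∀ P ∈ Ω, P ∈ closure H → P ∈ H)
    {f : X → ℝ} {F : Fin 3 → X → ℝ} (h : H1 e3 Ω f F) :
    H1 e3 (Ω ∩ H) (H.indicator f) (fun i => H.indicator (F i)) := by
  refine ⟨h.1.indicator hH.measurableSet, fun i => (h.2.1 i).indicator hH.measurableSet,
    fun ε hε => ?_⟩
  obtain ⟨φ, hφ, h1, h2⟩ := h.2.2 ε hε
  obtain ⟨ht, hp⟩ := test_indicator hH hΩ hφ
  refine ⟨H.indicator φ, ht, ?_, fun i => ?_⟩
  · have e1 : (fun P => H.indicator φ P - H.indicator f P) =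
        H.indicator (fun P => φ P - f P) := by
      funext P
      by_cases hP : P ∈ H
      · simp only [Set.indicator_of_mem hP]
      · simp only [Set.indicator_of_notMem hP, sub_zero]
    rw [e1]
    exact (eLpNorm_indicator_le _).trans h1
  · have e1 : (fun P => pd e3 i (H.indicator φ) P - H.indicator (F i) P) =
        H.indicator (fun P => pd e3 i φ P - F i P) := by
      funext P
      rw [hp i P]
      by_cases hP : P ∈ H
      · simp only [Set.indicator_of_mem hP]
      · simp only [Set.indicator_of_notMem hP, sub_zero]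
    rw [e1]
    exact (eLpNorm_indicator_le _).trans (h2 i)

end SPL_

open SPL_ in
/-- SPL -/
theorem p_SPL : T_SPL := by
  intro Ω z₀ f F _ hz h
  constructor
  · refine gen (H := {P : X | P.2 < z₀}) (isOpen_lt continuous_snd continuous_const) ?_ h
    intro P hP hcl
    have h1 : P.2 ≤ z₀ := by
      have hc : IsClosed {P : X | P.2 ≤ z₀} := isClosed_le continuous_snd continuous_const
      have : closure {P : X | P.2 < z₀} ⊆ {P : X | P.2 ≤ z₀} :=
        closure_minimal (fun Q (hQ : Q.2 < z₀) => le_of_lt hQ) hc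
      exact this hcl
    rcases lt_or_eq_of_le h1 with h2 | h2
    · exact h2
    · exact absurd (by rw [← h2]; exact hP) (hz P.1)
  · refine gen (H := {P : X | z₀ < P.2}) (isOpen_lt continuous_const continuous_snd) ?_ h
    intro P hP hcl
    have h1 : z₀ ≤ P.2 := by
      have hc : IsClosed {P : X | z₀ ≤ P.2} := isClosed_le continuous_const continuous_snd
      have : closure {P : X | z₀ < P.2} ⊆ {P : X | z₀ ≤ P.2} :=
        closure_minimal (fun Q (hQ : z₀ < Q.2) => le_of_lt hQ) hc
      exact this hcl
    rcases lt_or_eq_of_le h1 with h2 | h2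
    · exact h2
    · exact absurd (by rw [h2]; exact hP) (hz P.1)

end MGS
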