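import Pool.Agent.MGS.TF

/-!
# MGS: proof of T_STC from T_TRL, T_ZRO (helper4)
-/

set_option autoImplicit false

open MeasureTheory Filter Topology Metric Set
open scoped ENNReal NNReal ContDiff

noncomputable section

namespace MGS

namespace STC_

/-- the vertical contraction as a continuous linear equivalence -/
def L (t : ℝ) (ht : t ≠ 0) : X ≃L[ℝ] X :=
  (ContinuousLinearEquiv.refl ℝ ℂ).prodCongr
    (ContinuousLinearEquiv.unitsEquivAut ℝ (Units.mk0 t⁻¹ (inv_ne_zero ht)))

theorem L_apply (t : ℝ) (ht : t ≠ 0) (P : X) : L t ht P = st t P := by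
  refine Prod.ext rfl ?_
  show P.2 * t⁻¹ = P.2 / t
  rw [div_eq_mul_inv]

theorem map_vol (t : ℝ) (ht : 0 < t) :
    Measure.map (st t) (volume : Measure X) = ENNReal.ofReal t • (volume : Measure X) := by
  have h1 : Measure.map (fun z : ℝ => z * t⁻¹) volume = ENNReal.ofReal t • volume := by
    have h2 := Real.map_volume_mul_right (inv_ne_zero ht.ne')
    rw [inv_inv, abs_of_pos ht] at h2
    exact h2
  have h3 : st t = Prod.map (id : ℂ → ℂ) (fun z : ℝ => z * t⁻¹) := by
    funext P
    exact Prod.ext rfl (div_eq_mul_inv _ _)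
  have h4 := Measure.map_prod_map (volume : Measure ℂ) (volume : Measure ℝ)
    (measurable_id : Measurable (id : ℂ → ℂ)) (measurable_mul_const (t⁻¹))
  rw [h3, Measure.volume_eq_prod, ← h4, h1, Measure.map_id]
  exact Measure.prod_smul_right _

theorem emb (t : ℝ) (ht : t ≠ 0) : MeasurableEmbedding (st t) := by
  have h := (L t ht).toHomeomorph.measurableEmbedding
  have h1 : ((L t ht).toHomeomorph : X → X) = st t := by
    funext P
    exact L_apply t ht P
  rw [h1] at h
  exact h

theorem int_st (t : ℝ) (ht : 0 < t) (g : X → ℝ) : ∫ P, g (st t P) = t * ∫ P, g P := by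
  rw [← (emb t ht.ne').integral_map, map_vol t ht, integral_smul_measure,
    ENNReal.toReal_ofReal ht.le, smul_eq_mul]

theorem Ap_cont (B : ℝ) (i : Fin 3) : Continuous (Ap B i) := by
  fin_cases i
  · show Continuous fun P : X => -(B / 2) * P.1.im
    exact continuous_const.mul (Complex.continuous_im.comp continuous_fst)
  · show Continuous fun P : X => B / 2 * P.1.re
    exact continuous_const.mul (Complex.continuous_re.comp continuous_fst)
  · show Continuous fun _ : X => (0 : ℝ)
    exact continuous_const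

theorem Ap_memLp (B : ℝ) {Ω : Set X} (hb : Bornology.IsBounded Ω) (i : Fin 3) {a : X → ℝ}
    (ha : MemLp a 2 volume) (hz : ∀ᵐ P, P ∉ Ω → a P = 0) :
    MemLp (fun P => Ap B i P * a P) 2 volume := by
  obtain ⟨C, hC⟩ := (hb.isCompact_closure.exists_bound_of_continuousOn
    (Ap_cont B i).continuousOn)
  refine MemLp.of_le_mul (c := C) ha ((Ap_cont B i).aestronglyMeasurable.mul ha.1) ?_
  filter_upwards [hz] with P hP
  by_cases h : P ∈ Ω
  · rw [norm_mul]
    exact mul_le_mul_of_nonneg_right (hC P (subset_closure h)) (norm_nonneg _)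
  · rw [hP h]
    simp

theorem em_int (hZRO : T_ZRO) (B : ℝ) {Ω : Set X} (hb : Bornology.IsBounded Ω)
    {a b : X → ℝ} {Fa Fb : Fin 3 → X → ℝ} (ha : H1 e3 Ω a Fa) (hb' : H1 e3 Ω b Fb) (i : Fin 3) :
    Integrable (em B a b Fa Fb i) := by
  have za := hZRO X (Fin 3) e3 Ω a Fa ha
  have zb := hZRO X (Fin 3) e3 Ω b Fb hb'
  have m1 := (ha.memLp' i).sub (Ap_memLp B hb i hb'.memLp (zb.mono fun P h h' => (h h').1))
  have m2 := (hb'.memLp' i).add (Ap_memLp B hb i ha.memLp (za.mono fun P h h' => (h h').1))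
  exact m1.integrable_sq.add m2.integrable_sq

theorem h1_st (hTRL : T_TRL) {t : ℝ} (ht : 0 < t) {Ω : Set X} {a : X → ℝ}
    {Fa : Fin 3 → X → ℝ} (ha : H1 e3 Ω a Fa) :
    H1 e3 (st t ⁻¹' Ω) (fun P => a (st t P)) (stF t Fa) := by
  have hM : ∀ i : Fin 3, L t ht.ne' (e3 i) =
      ∑ j, (fun j i : Fin 3 => if j = i then (if i = 2 then 1 / t else 1) else 0) j i • e3 j := by
    intro i
    simp only [ite_smul, zero_smul, Finset.sum_ite_eq', Finset.mem_univ, if_true]
    rw [L_apply]
    fin_cases i
    · simp [e3, st]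
    · simp [e3, st]
    · simp [e3, st]
  have h := hTRL X (Fin 3) e3 Ω a Fa (L t ht.ne') 0
    (fun j i : Fin 3 => if j = i then (if i = 2 then 1 / t else 1) else 0) hM ha
  simp only [add_zero, L_apply, ite_mul, zero_mul, Finset.sum_ite_eq', Finset.mem_univ,
    if_true] at h
  refine h.congr (ae_eq_refl _) fun i => Eventually.of_forall fun P => ?_
  simp only [stF]
  split_ifs
  · rfl
  · simp

end STC_

open STC_ in
theorem p_STC (h_TRL : T_TRL) (h_ZRO : T_ZRO) : T_STC := by
  intro B t Ω a b Fa Fb ht hO hbd ha hb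
  have hst : Continuous (st t) := by
    have h := (L t ht.ne').continuous
    have h1 : ((L t ht.ne') : X → X) = st t := by
      funext P
      exact L_apply t ht.ne' P
    rw [h1] at h
    exact h
  refine ⟨hO.preimage hst, ?_, ?_, h1_st h_TRL ht ha, h1_st h_TRL ht hb,
    int_st t ht (fun P => a P ^ 2 + b P ^ 2), ?_⟩
  · have h1 : st t ⁻¹' Ω ⊆ (L t ht.ne').symm '' Ω := by
      intro P hP
      refine ⟨st t P, hP, ?_⟩
      rw [← L_apply t ht.ne' P]
      exact (L t ht.ne').symm_apply_apply P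
    exact (((L t ht.ne').symm.lipschitz).isBounded_image hbd).subset h1
  · have h1 := congrArg (fun μ : Measure X => μ Ω) (map_vol t ht)
    simp only [Measure.smul_apply, smul_eq_mul] at h1
    rw [← h1, Measure.map_apply hst.measurable hO.measurableSet]
  · have hi := fun i => em_int h_ZRO B hbd ha hb i
    have i2 : Integrable (fun P => Fa 2 P ^ 2 + Fb 2 P ^ 2) :=
      (ha.memLp' 2).integrable_sq.add (hb.memLp' 2).integrable_sq
    have hs : Integrable (fun P => ∑ i, em B a b Fa Fb i P) :=
      integrable_finsetSum _ fun i _ => hi i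
    have e1 : ∀ P, ∑ i, em B (fun P => a (st t P)) (fun P => b (st t P)) (stF t Fa) (stF t Fb) i P
        = (fun Q => (∑ i, em B a b Fa Fb i Q) -
          (1 - (t ^ 2)⁻¹) * (Fa 2 Q ^ 2 + Fb 2 Q ^ 2)) (st t P) := by
      intro P
      have hA : ∀ i, Ap B i P = Ap B i (st t P) := by
        intro i
        fin_cases i <;> rfl
      have hA2 : ∀ Q : X, Ap B 2 Q = 0 := fun Q => rfl
      simp only [Fin.sum_univ_three, em, stF, hA2]
      rw [hA 0, hA 1]
      have h0 : (0 : Fin 3) ≠ 2 := by decide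
      have h1 : (1 : Fin 3) ≠ 2 := by decide
      simp only [h0, h1, if_false, if_true]
      have ht' := ht.ne'
      field_simp
      ring
    unfold EM
    simp only [e1]
    rw [int_st t ht (fun Q => (∑ i, em B a b Fa Fb i Q) -
          (1 - (t ^ 2)⁻¹) * (Fa 2 Q ^ 2 + Fb 2 Q ^ 2)), integral_sub hs (i2.const_mul _),
      integral_const_mul]

end MGS
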