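import Pool.Agent.MGS.P_POS

/-!
# MGS: target STL (helper27)
-/

set_option autoImplicit false

open MeasureTheory Filter Topology Metric Set
open scoped ENNReal NNReal ContDiff

noncomputable section

namespace MGS

namespace STL_

/-- the translation vector -/
def v3 (h : ℝ) : X := ((h : ℂ), 0)

theorem sh_eq (h : ℝ) (P : X) : sh h P = P + v3 h := by
  unfold sh v3
  ext <;> simp

theorem mp (h : ℝ) : MeasurePreserving (sh h) (volume : Measure X) volume := by
  have h1 := measurePreserving_add_right (volume : Measure X) (v3 h)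
  have h2 : sh h = fun P => P + v3 h := by
    funext P
    exact sh_eq h P
  rw [h2]
  exact h1

theorem memLp_sh {f : X → ℝ} (h : ℝ) (hf : MemLp f 2 volume) :
    MemLp (fun P => f (sh h P)) 2 volume := hf.comp_measurePreserving (mp h)

theorem trl (hTRL : T_TRL) {G : Set X} {f : X → ℝ} {F : Fin 3 → X → ℝ} (h : ℝ)
    (hf : H1 e3 G f F) :
    H1 e3 {P | sh h P ∈ G} (fun P => f (sh h P)) (fun i P => F i (sh h P)) := by
  have h1 := hTRL X (Fin 3) e3 G f F (ContinuousLinearEquiv.refl ℝ X) (v3 h)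
    (fun j i => if i = j then 1 else 0) (fun i => by simp) hf
  simp only [ContinuousLinearEquiv.refl_apply, ← sh_eq, ite_mul, one_mul, zero_mul,
    Finset.sum_ite_eq, Finset.mem_univ, if_true] at h1
  exact h1

theorem gm_cont (B : ℝ) : Continuous (gm B) := by
  unfold gm
  fun_prop

theorem gm_pos (B : ℝ) (P : X) : 0 < gm B P := Real.exp_pos _

theorem gm_le {B : ℝ} (hB : 0 < B) (P : X) : gm B P ≤ 1 := by
  unfold gm
  rw [Real.exp_le_one_iff]
  have : 0 ≤ B / 2 * ‖P.1‖ ^ 2 := by positivity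
  linarith

theorem int_gm {B : ℝ} (hB : 0 < B) {f : X → ℝ} (hf : Integrable f) :
    Integrable (fun P => gm B P * f P) := by
  refine hf.bdd_mul (c := 1) (gm_cont B).aestronglyMeasurable ?_
  refine Eventually.of_forall fun P => ?_
  rw [Real.norm_eq_abs, abs_of_pos (gm_pos B P)]
  exact gm_le hB P

theorem int2 {f g : X → ℝ} (hf : MemLp f 2 volume) (hg : MemLp g 2 volume) :
    Integrable (fun P => f P * g P) := by
  have := hf.integrable_mul hg
  exact this

/-- the double integral as a Bochner integral -/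
theorem dl {f : X → ℝ} (hf : MemLp f 2 volume) {Q : Set X} (hQ : volume Q ≠ ⊤) :
    ∫⁻ P in Q, ∫⁻ P' in Q, ENNReal.ofReal ((f P - f P') ^ 2) =
      ENNReal.ofReal (∫ P in Q, ∫ P' in Q, (f P - f P') ^ 2) := by
  have hfin : IsFiniteMeasure (volume.restrict Q) := ⟨by
    rw [Measure.restrict_apply_univ]
    exact lt_top_iff_ne_top.2 hQ⟩
  have hr : MemLp f 2 (volume.restrict Q) := hf.restrict Q
  have h1 : Integrable f (volume.restrict Q) := hr.integrable (by norm_num)
  have h2 : Integrable (fun P => f P ^ 2) (volume.restrict Q) := hr.integrable_sq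
  have h3 : ∀ P, Integrable (fun P' => (f P - f P') ^ 2) (volume.restrict Q) := by
    intro P
    have e : (fun P' => (f P - f P') ^ 2) = fun P' => f P ^ 2 + (-(2 * f P)) * f P' + f P' ^ 2 := by
      funext P'
      ring
    rw [e]
    exact ((integrable_const _).add (h1.const_mul _)).add h2
  have h4 : ∀ P, ∫ P' in Q, (f P - f P') ^ 2 =
      volume.real Q * f P ^ 2 + (-(2 * ∫ P' in Q, f P')) * f P + ∫ P' in Q, f P' ^ 2 := by
    intro P
    have e : (fun P' => (f P - f P') ^ 2) = fun P' => (f P ^ 2 + (-(2 * f P)) * f P') + f P' ^ 2 := by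
      funext P'
      ring
    have i1 : Integrable (fun P' => f P ^ 2 + (-(2 * f P)) * f P') (volume.restrict Q) :=
      (integrable_const _).add (h1.const_mul _)
    rw [e, integral_add i1 h2,
      integral_add (integrable_const _) (h1.const_mul _), integral_const_mul, integral_const]
    simp only [measureReal_restrict_apply_univ, smul_eq_mul]
    ring
  have h5 : Integrable (fun P => ∫ P' in Q, (f P - f P') ^ 2) (volume.restrict Q) := by
    simp only [h4]
    exact ((h2.const_mul _).add (h1.const_mul _)).add (integrable_const _)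
  rw [ofReal_integral_eq_lintegral_ofReal h5
    (Eventually.of_forall fun P => integral_nonneg fun P' => sq_nonneg _)]
  refine lintegral_congr fun P => ?_
  rw [ofReal_integral_eq_lintegral_ofReal (h3 P) (Eventually.of_forall fun P' => sq_nonneg _)]

/-- Fatou for `dlog` -/
theorem fatou {g : X → ℝ} {u : ℕ → X → ℝ} {Q : Set X} {ε : ℝ} (hε : 0 < ε)
    (hQ : MeasurableSet Q) (hu : ∀ n, AEMeasurable (u n) volume)
    (hl : ∀ᵐ P, P ∈ Q → Tendsto (fun n => u n P) atTop (𝓝 (g P))) (hg : ∀ᵐ P, P ∈ Q → 0 ≤ g P)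
    {c : ℕ → ℝ≥0∞} {C : ℝ≥0∞} (hc : Tendsto c atTop (𝓝 C)) (h : ∀ n, dlog (u n) Q ε ≤ c n) :
    dlog g Q ε ≤ C := by
  have hl' : ∀ᵐ P ∂(volume.restrict Q), Tendsto (fun n => Real.log (u n P + ε)) atTop
      (𝓝 (Real.log (g P + ε))) := by
    rw [ae_restrict_iff' hQ]
    filter_upwards [hl, hg] with P h1 h2 hP
    exact ((h1 hP).add_const ε).log (by have := h2 hP; positivity)
  have hm : ∀ n, AEMeasurable (fun P => Real.log (u n P + ε)) (volume.restrict Q) := fun n =>
    Real.measurable_log.comp_aemeasurable (((hu n).restrict).add_const ε)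
  have hin : ∀ᵐ P ∂(volume.restrict Q), ∫⁻ P' in Q, ENNReal.ofReal
      ((Real.log (g P + ε) - Real.log (g P' + ε)) ^ 2) ≤ liminf (fun n => ∫⁻ P' in Q,
        ENNReal.ofReal ((Real.log (u n P + ε) - Real.log (u n P' + ε)) ^ 2)) atTop := by
    filter_upwards [hl'] with P hP
    refine le_trans (le_of_eq ?_) (lintegral_liminf_le' fun n => ?_)
    · refine lintegral_congr_ae ?_
      filter_upwards [hl'] with P' hP'
      refine (Tendsto.liminf_eq ?_).symm
      exact (ENNReal.continuous_ofReal.tendsto _).comp ((hP.sub hP').pow 2)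
    · exact ENNReal.measurable_ofReal.comp_aemeasurable
        ((aemeasurable_const.sub (hm n)).pow_const 2)
  calc dlog g Q ε ≤ ∫⁻ P in Q, liminf (fun n => ∫⁻ P' in Q,
        ENNReal.ofReal ((Real.log (u n P + ε) - Real.log (u n P' + ε)) ^ 2)) atTop :=
        lintegral_mono_ae hin
    _ ≤ liminf (fun n => ∫⁻ P in Q, ∫⁻ P' in Q,
        ENNReal.ofReal ((Real.log (u n P + ε) - Real.log (u n P' + ε)) ^ 2)) atTop := by
        refine lintegral_liminf_le' fun n => ?_
        refine AEMeasurable.lintegral_prod_right' (f := fun p : X × X =>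
          ENNReal.ofReal ((Real.log (u n p.1 + ε) - Real.log (u n p.2 + ε)) ^ 2)) ?_
        exact ENNReal.measurable_ofReal.comp_aemeasurable
          (((hm n).comp_fst.sub (hm n).comp_snd).pow_const 2)
    _ ≤ liminf c atTop := liminf_le_liminf (Eventually.of_forall h)
    _ = C := hc.liminf_eq

/-- the (negative) difference quotient -/
def uu (h : ℝ) (w : X → ℝ) (P : X) : ℝ := (w P - w (sh h P)) / h

theorem N1 {ε : ℝ} (hε : 0 < ε) {s : ℝ} (hs : 0 ≤ s) :
    ∫ t in (0 : ℝ)..s, -((|t| + ε) ^ 2)⁻¹ = (s + ε)⁻¹ - ε⁻¹ := by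
  have h1 : ∫ t in (0 : ℝ)..s, -((|t| + ε) ^ 2)⁻¹ = ∫ t in (0 : ℝ)..s, -((t + ε) ^ 2)⁻¹ := by
    refine intervalIntegral.integral_congr fun t ht => ?_
    rw [uIcc_of_le hs] at ht
    simp only [abs_of_nonneg ht.1]
  rw [h1, intervalIntegral.integral_eq_sub_of_hasDerivAt (f := fun t => (t + ε)⁻¹)]
  · simp
  · intro t ht
    rw [uIcc_of_le hs] at ht
    have h2 : t + ε ≠ 0 := by have := ht.1; positivity
    have h3 := ((hasDerivAt_id t).add_const ε).inv h2
    simp only [id] at h3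
    refine h3.congr_deriv ?_
    rw [neg_div, one_div]
  · refine ContinuousOn.intervalIntegrable fun t ht => ?_
    rw [uIcc_of_le hs] at ht
    have h2 : (t + ε) ^ 2 ≠ 0 := by have := ht.1; positivity
    have h3 : ContinuousAt (fun t : ℝ => -((t + ε) ^ 2)⁻¹) t :=
      (ContinuousAt.inv₀ (f := fun t : ℝ => (t + ε) ^ 2) (by fun_prop) h2).neg
    exact h3.continuousWithinAt

theorem N2 {ε : ℝ} (hε : 0 < ε) {s : ℝ} (hs : 0 ≤ s) :
    ∫ t in (0 : ℝ)..s, (|t| + ε)⁻¹ = Real.log (s + ε) - Real.log ε := by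
  have h1 : ∫ t in (0 : ℝ)..s, (|t| + ε)⁻¹ = ∫ t in (0 : ℝ)..s, (t + ε)⁻¹ := by
    refine intervalIntegral.integral_congr fun t ht => ?_
    rw [uIcc_of_le hs] at ht
    simp only [abs_of_nonneg ht.1]
  rw [h1, intervalIntegral.integral_eq_sub_of_hasDerivAt (f := fun t => Real.log (t + ε))]
  · simp
  · intro t ht
    rw [uIcc_of_le hs] at ht
    have h2 : t + ε ≠ 0 := by have := ht.1; positivity
    have h3 := ((hasDerivAt_id t).add_const ε).log h2
    simp only [id] at h3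
    refine h3.congr_deriv ?_
    rw [one_div]
  · refine ContinuousOn.intervalIntegrable fun t ht => ?_
    rw [uIcc_of_le hs] at ht
    have h2 : (t + ε) ≠ 0 := by have := ht.1; positivity
    have h3 : ContinuousAt (fun t : ℝ => (t + ε)⁻¹) t :=
      ContinuousAt.inv₀ (f := fun t : ℝ => t + ε) (by fun_prop) h2
    exact h3.continuousWithinAt

theorem h1uu {G : Set X} {w : X → ℝ} {W : Fin 3 → X → ℝ} (hW : H1 e3 G w W) {h : ℝ}
    (hm : H1 e3 {P | sh h P ∈ G} (fun P => w (sh h P)) (fun i P => W i (sh h P))) :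
    H1 e3 univ (uu h w) (fun i => uu h (W i)) := by
  have h1 := ((hW.mono (subset_univ _)).sub (hm.mono (subset_univ _))).smul h⁻¹
  refine h1.congr (Eventually.of_forall fun P => ?_) fun i => Eventually.of_forall fun P => ?_
  · simp only [uu]
    ring
  · simp only [uu]
    ring

theorem sq_test {G : Set X} {η : X → ℝ} (hη : Test G η) : Test G (fun P => η P ^ 2) where
  smooth := hη.smooth.pow 2
  cpt := by
    have : (fun P => η P ^ 2) = fun P => η P * η P := by
      funext P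
      ring
    rw [this]
    exact hη.cpt.mul_left
  sub := by
    have : (fun P => η P ^ 2) = fun P => η P * η P := by
      funext P
      ring
    rw [this]
    exact (tsupport_mul_subset_left (f := η) (g := η)).trans hη.sub

theorem pd_sq {G : Set X} {η : X → ℝ} (hη : Test G η) (i : Fin 3) (P : X) :
    pd e3 i (fun P => η P ^ 2) P = 2 * η P * pd e3 i η P := by
  unfold pd
  have h1 : HasFDerivAt (fun P => η P ^ 2) ((2 * η P) • fderiv ℝ η P) P := by
    have := (hη.diff P).hasFDerivAt.pow 2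
    simpa using this
  rw [h1.fderiv]
  rfl

theorem core (hBCC : T_BCC) (hPRL : T_PRL) {B : ℝ} (hB : 0 < B) {G : Set X} (hG : IsOpen G)
    {w : X → ℝ} {W : Fin 3 → X → ℝ} (hW : H1 e3 G w W) {h : ℝ} (hh : 0 < h) {μ : ℝ}
    (hw : ∀ (ψ : X → ℝ) (Ψ : Fin 3 → X → ℝ), H1 e3 G ψ Ψ →
      ∫ P, gm B P * ∑ i : Fin 3, W i P * Ψ i P = μ * ∫ P, gm B P * (w P * ψ P))
    (hs : ∀ (ψ : X → ℝ) (Ψ : Fin 3 → X → ℝ), H1 e3 {P | sh h P ∈ G} ψ Ψ →
      ∫ P, gm B P * (∑ i : Fin 3, W i (sh h P) * Ψ i P + B * h * (W 0 (sh h P) * ψ P)) =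
        μ * ∫ P, gm B P * (w (sh h P) * ψ P))
    (hm : H1 e3 {P | sh h P ∈ G} (fun P => w (sh h P)) (fun i P => W i (sh h P)))
    (hG' : IsOpen {P | sh h P ∈ G})
    {η : X → ℝ} (hη : Test G η) (hη' : tsupport η ⊆ {P | sh h P ∈ G})
    (hn : ∀ᵐ P, η P ≠ 0 → w (sh h P) ≤ w P) {ε : ℝ} (hε : 0 < ε) :
    ∫ P, gm B P * (η P ^ 2 * ((|uu h w P| + ε)⁻¹) ^ 2 * ∑ i, uu h (W i) P ^ 2) ≤
      (∫ P, (4 * ∑ i, pd e3 i η P ^ 2 + 2 * (B + |μ|) * η P ^ 2)) +
      2 * B / ε * ∫ P, η P ^ 2 * (|W 0 (sh h P) - W 0 P| + |W 0 P + uu h w P|) := by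
  have hu := h1uu hW hm
  have hcont : Continuous fun t : ℝ => -((|t| + ε) ^ 2)⁻¹ := by
    refine (Continuous.inv₀ (by fun_prop) fun t => ?_).neg
    positivity
  have hbd : ∀ s : ℝ, |-((|s| + ε) ^ 2)⁻¹| ≤ (ε ^ 2)⁻¹ := by
    intro s
    rw [abs_neg, abs_of_pos (by positivity)]
    gcongr
    have := abs_nonneg s
    linarith
  have hN := hBCC X (Fin 3) e3 univ (uu h w) (fun i => uu h (W i)) _ _ isOpen_univ hu hcont hbd
  have hθ := sq_test hη
  have hθl : ∃ K : ℝ≥0, LipschitzWith K (fun P => η P ^ 2) := by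
    have h1 := hθ.smooth.lipschitzWith_of_hasCompactSupport hθ.cpt (by simp)
    exact h1
  obtain ⟨M, hM⟩ : ∃ M : ℝ, ∀ P, |η P ^ 2| ≤ M := by
    obtain ⟨M, hM⟩ := hθ.cpt.exists_bound_of_continuous hθ.smooth.continuous
    exact ⟨M, fun P => by simpa using hM P⟩
  have hsup : tsupport (fun P => η P ^ 2) ⊆ tsupport η := by
    have : (fun P => η P ^ 2) = fun P => η P * η P := by
      funext P
      ring
    rw [this]
    exact tsupport_mul_subset_left (f := η) (g := η)
  set θ : X → ℝ := fun P => η P ^ 2 with hθdef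
  set ρ : X → ℝ := fun P => (|uu h w P| + ε)⁻¹ with hρ
  have hρ0 : ∀ P, 0 < ρ P := fun P => by
    rw [hρ]
    positivity
  have hρ1 : ∀ P, ρ P ≤ ε⁻¹ := fun P => by
    rw [hρ]
    have := abs_nonneg (uu h w P)
    exact inv_anti₀ hε (by linarith)
  -- the test function
  have ψmem : ∀ G₁ : Set X, IsOpen G₁ → tsupport η ⊆ G₁ → H1 e3 G₁ (fun P => θ P * ρ P)
      (fun i P => 2 * η P * ρ P * pd e3 i η P - θ P * ρ P ^ 2 * uu h (W i) P) := by
    intro G₁ hG₁ hs₁
    have h1 := hPRL X (Fin 3) e3 G₁ univ _ _ θ M hG₁ hN hθl hM (Or.inr (hsup.trans hs₁))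
    have ht : Test G₁ θ := ⟨hθ.smooth, hθ.cpt, hsup.trans hs₁⟩
    have h2 := h1.add (ht.h1.smul ε⁻¹)
    have key : ∀ᵐ P, η P ≠ 0 → ∫ t in (0 : ℝ)..(uu h w P), -((|t| + ε) ^ 2)⁻¹ = ρ P - ε⁻¹ := by
      filter_upwards [hn] with P hP h0
      have h3 : 0 ≤ uu h w P := by
        unfold uu
        have := hP h0
        exact div_nonneg (by linarith) hh.le
      rw [N1 hε h3, hρ]
      simp only [abs_of_nonneg h3]
    refine h2.congr ?_ fun i => ?_
    · filter_upwards [key] with P hP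
      by_cases h0 : η P = 0
      · simp [hθdef, h0]
      · rw [hP h0]
        ring
    · filter_upwards [key] with P hP
      have e1 : pd e3 i θ P = 2 * η P * pd e3 i η P := pd_sq hη i P
      by_cases h0 : η P = 0
      · have t1 : θ P = 0 := by
          rw [hθdef]
          simp [h0]
        rw [t1, e1, h0]
        ring
      · rw [hP h0, e1]
        simp only [hρ, inv_pow]
        ring
  set ψ : X → ℝ := fun P => θ P * ρ P with hψ
  set Ψ : Fin 3 → X → ℝ := fun i P =>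
    2 * η P * ρ P * pd e3 i η P - θ P * ρ P ^ 2 * uu h (W i) P with hΨ
  have m1 : H1 e3 G ψ Ψ := ψmem G hG hη.sub
  have m2 : H1 e3 {P | sh h P ∈ G} ψ Ψ := ψmem _ hG' hη'
  have E1 := hw ψ Ψ m1
  have E2 := hs ψ Ψ m2
  -- integrability
  have iW : ∀ i, Integrable (fun P => W i P * Ψ i P) := fun i => int2 (hW.memLp' i) (m1.memLp' i)
  have iWs : ∀ i, Integrable (fun P => W i (sh h P) * Ψ i P) := fun i =>
    int2 (hm.memLp' i) (m1.memLp' i)
  have iw : Integrable (fun P => w P * ψ P) := int2 hW.memLp m1.memLp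
  have iws : Integrable (fun P => w (sh h P) * ψ P) := int2 hm.memLp m1.memLp
  have iW0 : Integrable (fun P => W 0 (sh h P) * ψ P) := int2 (hm.memLp' 0) m1.memLp
  have I1 : Integrable (fun P => gm B P * ∑ i : Fin 3, W i P * Ψ i P) :=
    int_gm hB (integrable_finsetSum _ fun i _ => iW i)
  have I2 : Integrable (fun P => gm B P * (∑ i : Fin 3, W i (sh h P) * Ψ i P +
      B * h * (W 0 (sh h P) * ψ P))) :=
    int_gm hB ((integrable_finsetSum _ fun i _ => iWs i).add (iW0.const_mul _))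
  have I3 : Integrable (fun P => gm B P * (w P * ψ P)) := int_gm hB iw
  have I4 : Integrable (fun P => gm B P * (w (sh h P) * ψ P)) := int_gm hB iws
  have E3 : ∫ P, h⁻¹ * ((gm B P * ∑ i : Fin 3, W i P * Ψ i P) -
      (gm B P * (∑ i : Fin 3, W i (sh h P) * Ψ i P + B * h * (W 0 (sh h P) * ψ P))) -
      μ * (gm B P * (w P * ψ P) - gm B P * (w (sh h P) * ψ P))) = 0 := by
    have I5 : Integrable (fun P => gm B P * ∑ i : Fin 3, W i P * Ψ i P -
        gm B P * (∑ i : Fin 3, W i (sh h P) * Ψ i P + B * h * (W 0 (sh h P) * ψ P))) := I1.sub I2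
    have I6 : Integrable (fun P => μ * (gm B P * (w P * ψ P) - gm B P * (w (sh h P) * ψ P))) :=
      (I3.sub I4).const_mul μ
    rw [integral_const_mul, integral_sub I5 I6,
      integral_sub I1 I2, integral_const_mul, integral_sub I3 I4, E1, E2]
    ring
  -- the pointwise inequality
  set D : X → ℝ := fun P => |W 0 (sh h P) - W 0 P| + |W 0 P + uu h w P| with hD
  have hpt : ∀ P, h⁻¹ * ((gm B P * ∑ i : Fin 3, W i P * Ψ i P) -
      (gm B P * (∑ i : Fin 3, W i (sh h P) * Ψ i P + B * h * (W 0 (sh h P) * ψ P))) -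
      μ * (gm B P * (w P * ψ P) - gm B P * (w (sh h P) * ψ P))) ≤
      -(1 / 2) * (gm B P * (θ P * ρ P ^ 2 * ∑ i, uu h (W i) P ^ 2)) +
      ((2 * ∑ i, pd e3 i η P ^ 2 + (B + |μ|) * θ P) + B / ε * (θ P * D P)) := by
    intro P
    have e0 : h⁻¹ * ((gm B P * ∑ i : Fin 3, W i P * Ψ i P) -
      (gm B P * (∑ i : Fin 3, W i (sh h P) * Ψ i P + B * h * (W 0 (sh h P) * ψ P))) -
      μ * (gm B P * (w P * ψ P) - gm B P * (w (sh h P) * ψ P))) =
      gm B P * (∑ i : Fin 3, uu h (W i) P * Ψ i P - B * (W 0 (sh h P) * ψ P) -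
        μ * (uu h w P * ψ P)) := by
      simp only [Fin.sum_univ_three, uu]
      field_simp
      ring
    rw [e0]
    have g0 := gm_pos B P
    have g1 := gm_le hB P
    have t0 : 0 ≤ θ P := sq_nonneg _
    have r0 := (hρ0 P).le
    have r1 := hρ1 P
    have hru : ρ P * |uu h w P| ≤ 1 := by
      rw [hρ]
      show (|uu h w P| + ε)⁻¹ * |uu h w P| ≤ 1
      rw [inv_mul_le_iff₀ (by positivity)]
      linarith
    have hD0 : 0 ≤ D P := by
      rw [hD]
      positivity
    have s1 : ∑ i : Fin 3, uu h (W i) P * Ψ i P ≤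
        -(1 / 2) * (θ P * ρ P ^ 2 * ∑ i, uu h (W i) P ^ 2) + 2 * ∑ i, pd e3 i η P ^ 2 := by
      simp only [Fin.sum_univ_three, hΨ, hθdef]
      nlinarith [sq_nonneg (η P * ρ P * uu h (W 0) P - 2 * pd e3 0 η P),
        sq_nonneg (η P * ρ P * uu h (W 1) P - 2 * pd e3 1 η P),
        sq_nonneg (η P * ρ P * uu h (W 2) P - 2 * pd e3 2 η P)]
    have s2 : -(B * (W 0 (sh h P) * ψ P)) ≤ B * θ P + B / ε * (θ P * D P) := by
      have a1 : |W 0 (sh h P)| ≤ D P + |uu h w P| := by
        have e2 : W 0 (sh h P) = (W 0 (sh h P) - W 0 P) + (W 0 P + uu h w P) + -(uu h w P) := by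
          ring
        calc |W 0 (sh h P)| = |(W 0 (sh h P) - W 0 P) + (W 0 P + uu h w P) + -(uu h w P)| := by
              rw [← e2]
          _ ≤ |W 0 (sh h P) - W 0 P| + |W 0 P + uu h w P| + |-(uu h w P)| := by
              exact (abs_add_le _ _).trans (add_le_add_left (abs_add_le _ _) _)
          _ = D P + |uu h w P| := by
              rw [abs_neg]
      have a2 : ρ P * |W 0 (sh h P)| ≤ ε⁻¹ * D P + 1 := by
        calc ρ P * |W 0 (sh h P)| ≤ ρ P * (D P + |uu h w P|) :=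
              mul_le_mul_of_nonneg_left a1 r0
          _ = ρ P * D P + ρ P * |uu h w P| := by ring
          _ ≤ ε⁻¹ * D P + 1 := add_le_add (mul_le_mul_of_nonneg_right r1 hD0) hru
      have a3 : -(W 0 (sh h P) * ψ P) ≤ θ P * (ρ P * |W 0 (sh h P)|) := by
        have : -(W 0 (sh h P)) ≤ |W 0 (sh h P)| := neg_le_abs _
        have h5 : 0 ≤ θ P * ρ P := mul_nonneg t0 r0
        calc -(W 0 (sh h P) * ψ P) = (θ P * ρ P) * -(W 0 (sh h P)) := by
              rw [hψ]
              ring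
          _ ≤ (θ P * ρ P) * |W 0 (sh h P)| := mul_le_mul_of_nonneg_left this h5
          _ = _ := by ring
      calc -(B * (W 0 (sh h P) * ψ P)) = B * -(W 0 (sh h P) * ψ P) := by ring
        _ ≤ B * (θ P * (ε⁻¹ * D P + 1)) := by
            refine mul_le_mul_of_nonneg_left (a3.trans ?_) hB.le
            exact mul_le_mul_of_nonneg_left a2 t0
        _ = _ := by
            field_simp
            ring
    have s3 : -(μ * (uu h w P * ψ P)) ≤ |μ| * θ P := by
      calc -(μ * (uu h w P * ψ P)) ≤ |μ * (uu h w P * ψ P)| := neg_le_abs _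
        _ = |μ| * (θ P * (ρ P * |uu h w P|)) := by
            rw [hψ, abs_mul, abs_mul, abs_mul, abs_of_nonneg t0, abs_of_nonneg r0]
            ring
        _ ≤ |μ| * (θ P * 1) := by
            refine mul_le_mul_of_nonneg_left ?_ (abs_nonneg _)
            exact mul_le_mul_of_nonneg_left hru t0
        _ = |μ| * θ P := by ring
    have q0 : 0 ≤ 2 * ∑ i, pd e3 i η P ^ 2 + (B + |μ|) * θ P + B / ε * (θ P * D P) := by
      positivity
    calc gm B P * (∑ i : Fin 3, uu h (W i) P * Ψ i P - B * (W 0 (sh h P) * ψ P) -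
        μ * (uu h w P * ψ P)) ≤ gm B P * (-(1 / 2) * (θ P * ρ P ^ 2 * ∑ i, uu h (W i) P ^ 2) +
          (2 * ∑ i, pd e3 i η P ^ 2 + (B + |μ|) * θ P + B / ε * (θ P * D P))) := by
          refine mul_le_mul_of_nonneg_left ?_ g0.le
          linarith
      _ = -(1 / 2) * (gm B P * (θ P * ρ P ^ 2 * ∑ i, uu h (W i) P ^ 2)) + gm B P *
          (2 * ∑ i, pd e3 i η P ^ 2 + (B + |μ|) * θ P + B / ε * (θ P * D P)) := by ring
      _ ≤ _ := by
          refine add_le_add_right ?_ _
          calc gm B P * (2 * ∑ i, pd e3 i η P ^ 2 + (B + |μ|) * θ P + B / ε * (θ P * D P)) ≤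
              1 * (2 * ∑ i, pd e3 i η P ^ 2 + (B + |μ|) * θ P + B / ε * (θ P * D P)) :=
                mul_le_mul_of_nonneg_right g1 q0
            _ = _ := by ring
  -- integrate
  have J1 : Integrable (fun P => gm B P * (θ P * ρ P ^ 2 * ∑ i, uu h (W i) P ^ 2)) := by
    refine int_gm hB ?_
    have hb : Integrable (fun P => ∑ i, uu h (W i) P ^ 2) :=
      integrable_finsetSum _ fun i _ => (hu.memLp' i).integrable_sq
    refine hb.bdd_mul (c := M * (ε⁻¹) ^ 2) ?_ ?_
    · refine hθ.smooth.continuous.aestronglyMeasurable.mul ?_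
      have h6 : AEStronglyMeasurable ρ volume := by
        have h7 : Continuous fun t : ℝ => (|t| + ε)⁻¹ := by
          refine Continuous.inv₀ (by fun_prop) fun t => ?_
          positivity
        exact h7.comp_aestronglyMeasurable hu.memLp.1
      exact h6.pow 2
    · refine Eventually.of_forall fun P => ?_
      rw [Real.norm_eq_abs, abs_mul, abs_of_nonneg (sq_nonneg (ρ P))]
      have := hM P
      have r0 := (hρ0 P).le
      have r1 := hρ1 P
      gcongr
      exact (abs_nonneg _).trans this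
  have J2 : Integrable (fun P => 2 * ∑ i, pd e3 i η P ^ 2 + (B + |μ|) * θ P) := by
    refine ((integrable_finsetSum _ fun i _ => (hη.memLp_pd i).integrable_sq).const_mul _).add ?_
    exact (hη.memLp.integrable_sq).const_mul _
  have J3 : Integrable (fun P => θ P * D P) := by
    have hd : MemLp D 2 volume := by
      have a := ((hm.memLp' 0).sub (hW.memLp' 0)).norm
      have b := ((hW.memLp' 0).add hu.memLp).norm
      exact a.add b
    exact int2 hθ.memLp hd
  have hfin : (0 : ℝ) ≤ ∫ P, (-(1 / 2) * (gm B P * (θ P * ρ P ^ 2 * ∑ i, uu h (W i) P ^ 2)) +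
      ((2 * ∑ i, pd e3 i η P ^ 2 + (B + |μ|) * θ P) + B / ε * (θ P * D P))) := by
    rw [← E3]
    exact integral_mono (((I1.sub I2).sub ((I3.sub I4).const_mul μ)).const_mul _)
      ((J1.const_mul _).add (J2.add (J3.const_mul _))) hpt
  have J4 : Integrable (fun P => (2 * ∑ i, pd e3 i η P ^ 2 + (B + |μ|) * θ P) +
      B / ε * (θ P * D P)) := J2.add (J3.const_mul _)
  rw [integral_add (J1.const_mul _) J4, integral_add J2 (J3.const_mul _),
    integral_const_mul, integral_const_mul] at hfin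
  have e5 : ∫ P, (4 * ∑ i, pd e3 i η P ^ 2 + 2 * (B + |μ|) * η P ^ 2) =
      2 * ∫ P, (2 * ∑ i, pd e3 i η P ^ 2 + (B + |μ|) * θ P) := by
    rw [← integral_const_mul]
    congr 1
    funext P
    simp only [hθdef]
    ring
  rw [e5]
  have e6 : 2 * B / ε * ∫ P, η P ^ 2 * (|W 0 (sh h P) - W 0 P| + |W 0 P + uu h w P|) =
      2 * (B / ε * ∫ P, θ P * D P) := by
    rw [hD, hθdef]
    ring
  rw [e6]
  linarith

theorem cube_sub' {P₀ : X} {l : ℝ} (hl : 0 < l) : cube P₀ l ⊆ closedBall P₀ (3 / 2 * l) := by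
  rintro P ⟨h1, h2, h3⟩
  rw [mem_closedBall, Prod.dist_eq]
  refine max_le ?_ ?_
  · rw [dist_eq_norm]
    have e1 : ‖P.1 - P₀.1‖ ^ 2 = (P.1.re - P₀.1.re) ^ 2 + (P.1.im - P₀.1.im) ^ 2 := by
      rw [← Complex.normSq_eq_norm_sq, Complex.normSq_apply, Complex.sub_re, Complex.sub_im]
      ring
    have e2 : (P.1.re - P₀.1.re) ^ 2 ≤ l ^ 2 := by
      rw [← sq_abs]
      exact pow_le_pow_left₀ (abs_nonneg _) h1.le 2
    have e3 : (P.1.im - P₀.1.im) ^ 2 ≤ l ^ 2 := by
      rw [← sq_abs]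
      exact pow_le_pow_left₀ (abs_nonneg _) h2.le 2
    refine abs_le_of_sq_le_sq' (a := ‖P.1 - P₀.1‖) ?_ (by positivity) |>.2
    rw [e1]
    nlinarith
  · rw [Real.dist_eq]
    linarith

theorem lim0 {θ : X → ℝ} (hθ : MemLp θ 2 volume) (h0 : ∀ P, 0 ≤ θ P) {A : ℕ → X → ℝ}
    (hA : ∀ n, MemLp (A n) 2 volume)
    (hl : Tendsto (fun n => eLpNorm (A n) 2 volume) atTop (𝓝 0)) :
    Tendsto (fun n => ∫ P, θ P * |A n P|) atTop (𝓝 0) := by
  have h1 : Tendsto (fun n => (eLpNorm θ 2 volume * eLpNorm (A n) 2 volume).toReal) atTop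
      (𝓝 0) := by
    have h2 : Tendsto (fun n => eLpNorm θ 2 volume * eLpNorm (A n) 2 volume) atTop (𝓝 0) := by
      have := ENNReal.Tendsto.const_mul hl (Or.inr hθ.2.ne)
      rwa [mul_zero] at this
    have h3 := (ENNReal.tendsto_toReal ENNReal.zero_ne_top).comp h2
    rw [ENNReal.toReal_zero] at h3
    exact h3
  refine squeeze_zero (fun n => integral_nonneg fun P => mul_nonneg (h0 P) (abs_nonneg _))
    (fun n => ?_) h1
  have h4 : eLpNorm (θ • A n) 1 volume ≤ eLpNorm θ 2 volume * eLpNorm (A n) 2 volume :=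
    eLpNorm_smul_le_mul_eLpNorm (hA n).1 hθ.1
  have h5 : ∫ P, θ P * |A n P| = (eLpNorm (θ • A n) 1 volume).toReal := by
    rw [eLpNorm_one_eq_lintegral_enorm, ← integral_norm_eq_lintegral_enorm]
    · refine integral_congr_ae (Eventually.of_forall fun P => ?_)
      simp only [Pi.smul_apply', smul_eq_mul, norm_mul, Real.norm_eq_abs, abs_of_nonneg (h0 P)]
    · exact hθ.1.smul (hA n).1
  rw [h5]
  exact ENNReal.toReal_mono (ENNReal.mul_ne_top hθ.2.ne (hA n).2.ne) h4

theorem dlog_mono {g : X → ℝ} {Q Q' : Set X} {ε : ℝ} (h : Q ⊆ Q') : dlog g Q ε ≤ dlog g Q' ε := by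
  unfold dlog
  refine (lintegral_mono_set h).trans ?_
  exact lintegral_mono fun P => lintegral_mono_set h

theorem box (hBCC : T_BCC) (hBOX : T_BOX) {w : X → ℝ} {W : Fin 3 → X → ℝ} {h : ℝ}
    (hu : H1 e3 univ (uu h w) (fun i => uu h (W i))) {P₀ : X} {r : ℝ} (hr : 0 < r)
    (hn : ∀ᵐ P, P ∈ cube P₀ r → 0 ≤ uu h w P) {ε : ℝ} (hε : 0 < ε) :
    dlog (uu h w) (cube P₀ r) ε ≤ ENNReal.ofReal (96 * r ^ 5 *
      ∫ P in cube P₀ r, ((|uu h w P| + ε)⁻¹) ^ 2 * ∑ i, uu h (W i) P ^ 2) := by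
  have hQm : MeasurableSet (cube P₀ r) := (POS_.cube_open P₀ r).measurableSet
  have hQf : volume (cube P₀ r) ≠ ⊤ :=
    ((measure_mono POS_.cube_sub).trans_lt (isCompact_closedBall P₀ (2 * r)).measure_lt_top).ne
  have hη0 : ∀ s : ℝ, 0 < |s| + ε := fun s => by have := abs_nonneg s; positivity
  have hc : Continuous fun t : ℝ => (|t| + ε)⁻¹ :=
    Continuous.inv₀ (by fun_prop) fun t => (hη0 t).ne'
  have hH := hBCC X (Fin 3) e3 univ (uu h w) (fun i => uu h (W i)) (fun t => (|t| + ε)⁻¹) ε⁻¹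
    isOpen_univ hu hc (fun s => by
      rw [abs_of_pos (inv_pos.2 (hη0 s))]
      exact inv_anti₀ hε (by linarith [abs_nonneg s]))
  obtain ⟨f, hf⟩ : ∃ f : X → ℝ, f = fun P => ∫ t in (0 : ℝ)..(uu h w P), (|t| + ε)⁻¹ := ⟨_, rfl⟩
  rw [← hf] at hH
  have hbox := hBOX univ f _ P₀ r hr hH
  have hlog : ∀ᵐ P ∂(volume.restrict (cube P₀ r)),
      f P = Real.log (uu h w P + ε) - Real.log ε := by
    rw [ae_restrict_iff' hQm]
    filter_upwards [hn] with P hP hPQ
    rw [hf]
    exact N2 hε (hP hPQ)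
  have hd : dlog (uu h w) (cube P₀ r) ε = ∫⁻ P in cube P₀ r, ∫⁻ P' in cube P₀ r,
      ENNReal.ofReal ((f P - f P') ^ 2) := by
    unfold dlog
    refine lintegral_congr_ae ?_
    filter_upwards [hlog] with P hP
    refine lintegral_congr_ae ?_
    filter_upwards [hlog] with P' hP'
    rw [hP, hP']
    congr 2
    ring
  rw [hd, dl hH.memLp hQf]
  refine ENNReal.ofReal_le_ofReal (hbox.trans (le_of_eq ?_))
  congr 1
  refine setIntegral_congr_fun hQm fun P _ => ?_
  simp only [mul_pow]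
  rw [← Finset.mul_sum]

theorem main (hMON : T_MON) (hDQL : T_DQL) (hDQI : T_DQI) (hCTL : T_CTL) (hSHW : T_SHW)
    (hWTE : T_WTE) (hWEX : T_WEX) (hBCC : T_BCC) (hPRL : T_PRL) (hBOX : T_BOX) (hTRL : T_TRL)
    {B : ℝ} {G : Set X} {v : X → ℝ} {F : Fin 3 → X → ℝ} (hB : 0 < B) (hG : Star G)
    (hv : GS B G v F) {P₀ : X} {r : ℝ} (hr : 0 < r)
    (hsub : closedBall P₀ (2 * r) ⊆ {P | P ∈ G ∧ 0 < P.1.re}) :
    ∃ C : ℝ≥0∞, C ≠ ⊤ ∧ ∀ ε : ℝ, 0 < ε → dlog (fun P => - wF B v F 0 P) (ball P₀ r) ε ≤ C := by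
  set w : X → ℝ := ww B v with hwdef
  set W : Fin 3 → X → ℝ := wF B v F with hWdef
  have hW : H1 e3 G w W := (hWEX B G v F hG.isOpen hG.bounded hv.h).1
  have hmon := hMON B G v F hB hG hv
  set μ := lamR B G - B with hμ
  -- the cutoff
  let b : ContDiffBump P₀ := ⟨3 / 2 * r, 2 * r, by positivity, by linarith⟩
  have hbs : tsupport (b : X → ℝ) = closedBall P₀ (2 * r) := b.tsupport_eq
  have hη : Test G (b : X → ℝ) :=
    ⟨b.contDiff, b.hasCompactSupport, by
      rw [hbs]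
      exact hsub.trans fun P hP => hP.1⟩
  have hb1 : ∀ P ∈ cube P₀ r, b P = 1 := fun P hP => b.one_of_mem_closedBall (cube_sub' hr hP)
  have hb0 : ∀ P, b P ≠ 0 → 0 < P.1.re := fun P hP => by
    have h1 : P ∈ tsupport (b : X → ℝ) := subset_tsupport _ hP
    rw [hbs] at h1
    exact (hsub h1).2
  -- the steps
  obtain ⟨δ, hδ, hδs⟩ := (isCompact_closedBall P₀ (2 * r)).exists_thickening_subset_open
    hG.isOpen (hsub.trans fun P hP => hP.1)
  have hsh : ∀ h : ℝ, 0 < h → h < δ → tsupport (b : X → ℝ) ⊆ {P | sh h P ∈ G} := by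
    intro h h0 h1 P hP
    rw [hbs] at hP
    refine hδs ?_
    rw [mem_thickening_iff]
    refine ⟨P, hP, ?_⟩
    rw [sh_eq, dist_eq_norm, add_sub_cancel_left]
    unfold v3
    rw [Prod.norm_def]
    simp [abs_of_pos h0, h1, hδ]
  set C₁ : ℝ := ∫ P, (4 * ∑ i, pd e3 i b P ^ 2 + 2 * (B + |μ|) * b P ^ 2) with hC₁
  have hC₁0 : 0 ≤ C₁ := integral_nonneg fun P => by positivity
  set γ₀ : ℝ := Real.exp (-(B / 2 * (‖P₀.1‖ + 2 * r) ^ 2)) with hγ₀
  have hγ0 : 0 < γ₀ := Real.exp_pos _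
  have hγ : ∀ P ∈ cube P₀ r, γ₀ ≤ gm B P := by
    intro P hP
    have h1 : P ∈ closedBall P₀ (2 * r) := POS_.cube_sub hP
    rw [mem_closedBall, Prod.dist_eq, max_le_iff, dist_eq_norm] at h1
    have h2 : ‖P.1‖ ≤ ‖P₀.1‖ + 2 * r := by
      calc ‖P.1‖ = ‖P₀.1 + (P.1 - P₀.1)‖ := by rw [add_sub_cancel]
        _ ≤ ‖P₀.1‖ + ‖P.1 - P₀.1‖ := norm_add_le _ _
        _ ≤ _ := by linarith [h1.1]
    rw [hγ₀]
    unfold gm
    gcongr
  refine ⟨ENNReal.ofReal (96 * r ^ 5 * (γ₀⁻¹ * C₁)), ENNReal.ofReal_ne_top, fun ε hε => ?_⟩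
  have hQm : MeasurableSet (cube P₀ r) := (POS_.cube_open P₀ r).measurableSet
  -- bound for one step
  have step : ∀ h : ℝ, 0 < h → h < δ → dlog (uu h w) (ball P₀ r) ε ≤
      ENNReal.ofReal (96 * r ^ 5 * (γ₀⁻¹ * (C₁ + 2 * B / ε *
        ∫ P, b P ^ 2 * (|W 0 (sh h P) - W 0 P| + |W 0 P + uu h w P|)))) := by
    intro h h0 h1
    have hm := trl hTRL h hW
    have hu := h1uu hW hm
    have hdq := hDQI w W 0 h (hW.mono (subset_univ _)) h0.le hmon
    have hG' : IsOpen {P | sh h P ∈ G} := by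
      refine hG.isOpen.preimage ?_
      unfold sh
      fun_prop
    have hc := core hBCC hPRL hB hG.isOpen hW h0 (μ := μ)
      (fun ψ Ψ hψ => (hWTE B G v F hG hv ψ Ψ hψ).1)
      (fun ψ Ψ hψ => hSHW B G v F hG hv h ψ Ψ hψ) hm hG' hη (hsh h h0 h1)
      (by filter_upwards [hdq] with P hP hP0 using hP (hb0 P hP0)) hε
    have hn : ∀ᵐ P, P ∈ cube P₀ r → 0 ≤ uu h w P := by
      filter_upwards [hdq] with P hP hPQ
      have h2 : 0 < P.1.re := (hsub (POS_.cube_sub hPQ)).2
      have h3 := hP h2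
      unfold uu
      exact div_nonneg (by linarith) h0.le
    refine (dlog_mono POS_.ball_sub).trans ((box hBCC hBOX hu hr hn hε).trans ?_)
    refine ENNReal.ofReal_le_ofReal ?_
    refine mul_le_mul_of_nonneg_left ?_ (by positivity)
    rw [← hC₁] at hc
    have h5 : ∫ P in cube P₀ r, ((|uu h w P| + ε)⁻¹) ^ 2 * ∑ i, uu h (W i) P ^ 2 ≤
        γ₀⁻¹ * ∫ P, gm B P * (b P ^ 2 * ((|uu h w P| + ε)⁻¹) ^ 2 * ∑ i, uu h (W i) P ^ 2) := by
      have hint : Integrable (fun P => ((|uu h w P| + ε)⁻¹) ^ 2 * ∑ i, uu h (W i) P ^ 2) := by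
        have hb : Integrable (fun P => ∑ i, uu h (W i) P ^ 2) :=
          integrable_finsetSum _ fun i _ => (hu.memLp' i).integrable_sq
        refine hb.bdd_mul (c := (ε⁻¹) ^ 2) ?_ ?_
        · have h7 : Continuous fun t : ℝ => ((|t| + ε)⁻¹) ^ 2 := by
            refine (Continuous.inv₀ (by fun_prop) fun t => ?_).pow 2
            positivity
          exact h7.comp_aestronglyMeasurable hu.memLp.1
        · refine Eventually.of_forall fun P => ?_
          rw [Real.norm_eq_abs, abs_of_nonneg (by positivity)]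
          have := abs_nonneg (uu h w P)
          gcongr
          linarith
      have hint2 : Integrable (fun P => gm B P *
          (b P ^ 2 * ((|uu h w P| + ε)⁻¹) ^ 2 * ∑ i, uu h (W i) P ^ 2)) := by
        refine int_gm hB ?_
        have h8 : Integrable (fun P => b P ^ 2 *
            (((|uu h w P| + ε)⁻¹) ^ 2 * ∑ i, uu h (W i) P ^ 2)) := by
          refine hint.bdd_mul (c := 1) (b.continuous.pow 2).aestronglyMeasurable ?_
          refine Eventually.of_forall fun P => ?_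
          rw [Real.norm_eq_abs, abs_of_nonneg (by positivity)]
          exact pow_le_one₀ b.nonneg b.le_one
        refine h8.congr (Eventually.of_forall fun P => ?_)
        ring
      rw [← integral_const_mul]
      calc ∫ P in cube P₀ r, ((|uu h w P| + ε)⁻¹) ^ 2 * ∑ i, uu h (W i) P ^ 2 ≤
          ∫ P in cube P₀ r, γ₀⁻¹ * (gm B P *
            (b P ^ 2 * ((|uu h w P| + ε)⁻¹) ^ 2 * ∑ i, uu h (W i) P ^ 2)) := by
            refine setIntegral_mono_on hint.integrableOn (hint2.const_mul _).integrableOn hQm ?_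
            intro P hP
            rw [hb1 P hP, one_pow, one_mul]
            have h9 := hγ P hP
            have h10 : 0 ≤ ((|uu h w P| + ε)⁻¹) ^ 2 * ∑ i, uu h (W i) P ^ 2 := by positivity
            calc ((|uu h w P| + ε)⁻¹) ^ 2 * ∑ i, uu h (W i) P ^ 2 =
                γ₀⁻¹ * (γ₀ * (((|uu h w P| + ε)⁻¹) ^ 2 * ∑ i, uu h (W i) P ^ 2)) := by
                  rw [← mul_assoc, inv_mul_cancel₀ hγ0.ne', one_mul]
              _ ≤ _ := by
                  refine mul_le_mul_of_nonneg_left ?_ (inv_nonneg.2 hγ0.le)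
                  exact mul_le_mul_of_nonneg_right h9 h10
        _ ≤ _ := by
            refine setIntegral_le_integral (hint2.const_mul _) ?_
            refine Eventually.of_forall fun P => ?_
            have g0 := (gm_pos B P).le
            positivity
    exact h5.trans (mul_le_mul_of_nonneg_left hc (inv_nonneg.2 hγ0.le))
  -- the limit
  obtain ⟨hs, hhs⟩ : ∃ hs : ℕ → ℝ, hs = fun n : ℕ => δ / ((n : ℝ) + 2) := ⟨_, rfl⟩
  have hs0 : ∀ n, 0 < hs n := fun n => by
    rw [hhs]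
    positivity
  have hs1 : ∀ n, hs n < δ := fun n => by
    rw [hhs]
    show δ / ((n : ℝ) + 2) < δ
    rw [div_lt_iff₀ (by positivity)]
    have : (0 : ℝ) ≤ n := n.cast_nonneg
    nlinarith
  have hst : Tendsto hs atTop (𝓝 0) := by
    rw [hhs]
    refine Tendsto.div_atTop tendsto_const_nhds ?_
    exact tendsto_atTop_add_const_right _ _ tendsto_natCast_atTop_atTop
  have hst' : Tendsto hs atTop (𝓝[>] 0) :=
    tendsto_nhdsWithin_iff.2 ⟨hst, Eventually.of_forall hs0⟩
  have L1 : Tendsto (fun n => eLpNorm (fun P => W 0 (sh (hs n) P) - W 0 P) 2 volume) atTop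
      (𝓝 0) := (hCTL (W 0) (hW.memLp' 0)).comp hst
  have L2' : Tendsto (fun n => eLpNorm (fun P => (w (sh (hs n) P) - w P) / hs n - W 0 P) 2 volume)
      atTop (𝓝 0) := (hDQL w W (hW.mono (subset_univ _))).comp hst'
  have L2 : Tendsto (fun n => eLpNorm (fun P => W 0 P + uu (hs n) w P) 2 volume) atTop
      (𝓝 0) := by
    refine L2'.congr fun n => ?_
    rw [← eLpNorm_neg]
    congr 1
    funext P
    simp only [Pi.neg_apply, uu]
    ring
  have humem : ∀ n, MemLp (uu (hs n) w) 2 volume := fun n =>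
    (h1uu hW (trl hTRL (hs n) hW)).memLp
  have hM1 : ∀ n, MemLp (fun P => W 0 (sh (hs n) P) - W 0 P) 2 volume := fun n =>
    (memLp_sh (hs n) (hW.memLp' 0)).sub (hW.memLp' 0)
  have hM2 : ∀ n, MemLp (fun P => W 0 P + uu (hs n) w P) 2 volume := fun n =>
    (hW.memLp' 0).add (humem n)
  have hθm : MemLp (fun P => b P ^ 2) 2 volume := (sq_test hη).memLp
  have T1 := lim0 hθm (fun P => sq_nonneg _) hM1 L1
  have T2 := lim0 hθm (fun P => sq_nonneg _) hM2 L2
  have T3 : Tendsto (fun n => ∫ P, b P ^ 2 * (|W 0 (sh (hs n) P) - W 0 P| +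
      |W 0 P + uu (hs n) w P|)) atTop (𝓝 0) := by
    have h6 := T1.add T2
    rw [add_zero] at h6
    refine h6.congr fun n => ?_
    have i1 : Integrable (fun P => b P ^ 2 * |W 0 (sh (hs n) P) - W 0 P|) :=
      int2 hθm (hM1 n).norm
    have i2 : Integrable (fun P => b P ^ 2 * |W 0 P + uu (hs n) w P|) := int2 hθm (hM2 n).norm
    rw [← integral_add i1 i2]
    refine integral_congr_ae (Eventually.of_forall fun P => ?_)
    simp only
    ring
  -- the subsequence
  have hmeas : TendstoInMeasure volume (fun n P => uu (hs n) w P) atTop (fun P => - W 0 P) := by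
    refine tendstoInMeasure_of_tendsto_eLpNorm (p := 2) (by norm_num) (fun n => (humem n).1)
      (hW.memLp' 0).1.neg ?_
    refine L2.congr fun n => ?_
    congr 1
    funext P
    simp only [Pi.sub_apply]
    ring
  obtain ⟨ns, hns, hae⟩ := hmeas.exists_seq_tendsto_ae
  refine fatou (u := fun n => uu (hs (ns n)) w) hε measurableSet_ball
    (fun n => (humem (ns n)).1.aemeasurable) ?_ ?_ ?_ (fun n => step (hs (ns n)) (hs0 _) (hs1 _))
  · filter_upwards [hae] with P hP _
    exact hP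
  · filter_upwards [hmon] with P hP hPb
    have h2 : 0 < P.1.re := (hsub (ball_subset_closedBall.trans
      (closedBall_subset_closedBall (by linarith)) hPb)).2
    linarith [hP h2]
  · have h7 : Tendsto (fun n => 96 * r ^ 5 * (γ₀⁻¹ * (C₁ + 2 * B / ε *
        ∫ P, b P ^ 2 * (|W 0 (sh (hs (ns n)) P) - W 0 P| + |W 0 P + uu (hs (ns n)) w P|))))
        atTop (𝓝 (96 * r ^ 5 * (γ₀⁻¹ * (C₁ + 2 * B / ε * 0)))) :=
      ((((T3.comp hns.tendsto_atTop).const_mul _).const_add _).const_mul _).const_mul _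
    rw [mul_zero, add_zero] at h7
    exact (ENNReal.continuous_ofReal.tendsto _).comp h7

end STL_

/-- logarithmic estimate for the horizontal derivative -/
theorem p_STL (hMON : T_MON) (hDQL : T_DQL) (hDQI : T_DQI) (hCTL : T_CTL) (hSHW : T_SHW)
    (hWTE : T_WTE) (hWEX : T_WEX) (hBCC : T_BCC) (hPRL : T_PRL) (hBOX : T_BOX) (hTRL : T_TRL) :
    T_STL := by
  intro B G v F hB hG hv P₀ r hr hsub
  exact STL_.main hMON hDQL hDQI hCTL hSHW hWTE hWEX hBCC hPRL hBOX hTRL hB hG hv hr hsub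

end MGS
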