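import Pool.Agent.MGS.TD
import Pool.Agent.MGS.P_SLI
import Pool.Agent.MGS.P_LBG
import Pool.Agent.MGS.P_EXR

/-!
# MGS: proof of SYM (symmetrization in `H¹₀`)
-/

set_option autoImplicit false

open MeasureTheory Filter Topology Metric Set
open scoped ENNReal NNReal ContDiff

noncomputable section

namespace MGS

namespace SYM_

open SLI_

/-- the modulus of a test function -/
theorem abs_LTest {Ω : Set X} {φ : X → ℝ} (h : Test Ω φ) : LTest Ω (fun P => |φ P|) := by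
  have hts : tsupport (fun P => |φ P|) = tsupport φ := by
    unfold tsupport
    congr 1
    ext P
    simp
  refine ⟨?_, ?_, ?_⟩
  · obtain ⟨K, hK⟩ := h.smooth.lipschitzWith_of_hasCompactSupport h.cpt (by simp)
    refine ⟨K, LipschitzWith.of_dist_le_mul fun P Q => ?_⟩
    rw [Real.dist_eq]
    refine (abs_abs_sub_abs_le_abs_sub _ _).trans ?_
    rw [← Real.dist_eq]
    exact hK.dist_le_mul P Q
  · show IsCompact (tsupport (fun P => |φ P|))
    rw [hts]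
    exact h.cpt
  · rw [hts]
    exact h.sub

theorem abs_Nx {Ω : Set X} {R : ℝ} (hR : ∀ P ∈ Ω, ‖P‖ < R) {φ : X → ℝ} (h : Test Ω φ) :
    Nx R (fun P => |φ P|) where
  m := (h.smooth.continuous.abs).measurable
  nn := fun P => abs_nonneg _
  z := by
    intro P hP
    have h1 : P ∉ tsupport φ := fun h2 => absurd (hR P (h.sub h2)) (not_lt.2 hP)
    rw [image_eq_zero_of_notMem_tsupport h1, abs_zero]

theorem conv (t : ℝ) : ‖t‖ₑ ^ (2 : ℝ) = ENNReal.ofReal (t ^ 2) := by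
  rw [Real.enorm_eq_ofReal_abs, ENNReal.ofReal_rpow_of_nonneg (abs_nonneg t) (by norm_num),
    Real.rpow_two, sq_abs]

/-- the symmetrization is a contraction in `L²` -/
theorem contr (h_NEX : T_NEX) (h_VSM : T_VSM) {R : ℝ} {f g : X → ℝ} (hf : Nx R f) (hg : Nx R g)
    (mf : MemLp f 2 volume) (mg : MemLp g 2 volume) :
    eLpNorm (fun P => vs f P - vs g P) 2 volume ≤ eLpNorm (fun P => f P - g P) 2 volume := by
  obtain ⟨nf, -, -, -, sf, -⟩ := h_VSM R f hf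
  obtain ⟨ng, -, -, -, sg, -⟩ := h_VSM R g hg
  rw [eLp_sq, eLp_sq]
  refine ENNReal.rpow_le_rpow ?_ (by norm_num)
  have i1 := lint_q (w := fun P => vs f P - vs g P) (nf.m.sub ng.m).aestronglyMeasurable
  have i2 := lint_q (w := fun P => f P - g P) (hf.m.sub hg.m).aestronglyMeasurable
  rw [← i1, ← i2]
  refine lintegral_mono_ae ?_
  filter_upwards [ae_slice_memLp mf, ae_slice_memLp mg] with z hz hz'
  have h1 := h_NEX R (sl f z) (sl g z) (sf z) (sg z) hz hz'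
  unfold q
  simp only [conv]
  exact h1

theorem sgn_meas : Measurable fun t : ℝ => if 0 < t then (1 : ℝ) else -1 :=
  Measurable.ite measurableSet_Ioi measurable_const measurable_const

/-- the modulus and its gradient -/
theorem abs_H1 (h_BCH : T_BCH) {Ω : Set X} {φ : X → ℝ} (hΩ : IsOpen Ω) (h : Test Ω φ) :
    H1 e3 Ω (fun P => |φ P|)
      (fun i P => (if 0 < φ P then (1 : ℝ) else -1) * pd e3 i φ P) := by
  have h1 := h_BCH X (Fin 3) e3 Ω φ _ (fun t => if 0 < t then (1 : ℝ) else -1) 1 hΩ h.h1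
    sgn_meas (fun s => by split_ifs <;> simp)
  simp only [EXR_.abs_int] at h1
  exact h1

theorem sgn_sq (s t : ℝ) : ((if 0 < s then (1 : ℝ) else -1) * t) ^ 2 = t ^ 2 := by
  split_ifs <;> ring

theorem isq {u w : X → ℝ} (hu : MemLp u 2 volume) (hw : MemLp w 2 volume) :
    Integrable (fun P => u P ^ 2 + w P ^ 2) := hu.integrable_sq.add hw.integrable_sq

/-- the horizontal energy -/
theorem horiz (h_BCH : T_BCH) (h_PSL : T_PSL) (h_SLI : T_SLI) (h_VSM : T_VSM) {Ω : Set X} {R : ℝ}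
    {φ : X → ℝ} (hΩ : IsOpen Ω) (hR : ∀ P ∈ Ω, ‖P‖ < R) (hOR : ∀ P ∈ Ost Ω, ‖P‖ < R)
    (h : Test Ω φ)
    (hv : H1 e3 (Ost Ω) (vs fun P => |φ P|) (fun i => pd e3 i (vs fun P => |φ P|))) :
    ∫ P, (pd e3 0 (vs fun P => |φ P|) P ^ 2 + pd e3 1 (vs fun P => |φ P|) P ^ 2) ≤
      ∫ P, (pd e3 0 φ P ^ 2 + pd e3 1 φ P ^ 2) := by
  have hA := isq (hv.memLp' 0) (hv.memLp' 1)
  have hB := isq (h.memLp_pd (e := e3) 0) (h.memLp_pd (e := e3) 1)
  obtain ⟨-, -, -, -, hs, -⟩ := h_VSM R _ (abs_Nx hR h)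
  have s1 := h_SLI Ω _ _ R (fun P hP => (norm_fst_le P).trans_lt (hR P hP)) (abs_H1 h_BCH hΩ h)
  have s2 := h_SLI (Ost Ω) _ _ R (fun P hP => (norm_fst_le P).trans_lt (hOR P hP)) hv
  rw [Measure.volume_eq_prod ℂ ℝ] at hA hB ⊢
  rw [integral_prod_symm _ hA, integral_prod_symm _ hB]
  refine integral_mono_ae hA.integral_prod_right hB.integral_prod_right ?_
  filter_upwards [s1, s2] with z hz1 hz2
  have h3 := h_PSL R _ _ _ hz1 (hs z) hz2
  have e1 : ∫ x : ℂ, (pd e3 0 φ (x, z) ^ 2 + pd e3 1 φ (x, z) ^ 2) =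
      ∫ x : ℂ, (((if 0 < φ (x, z) then (1 : ℝ) else -1) * pd e3 0 φ (x, z)) ^ 2 +
        ((if 0 < φ (x, z) then (1 : ℝ) else -1) * pd e3 1 φ (x, z)) ^ 2) := by
    simp only [sgn_sq]
  rw [e1]
  exact h3

/-- the vertical energy -/
theorem vert (h_LIP : T_LIP) (h_BCH : T_BCH) (h_UNI : T_UNI) (h_ZPL : T_ZPL) {Ω : Set X}
    {φ : X → ℝ} (hΩ : IsOpen Ω) (hb : Bornology.IsBounded Ω) (h : Test Ω φ) :
    ∫ P, pd e3 2 (vs fun P => |φ P|) P ^ 2 ≤ ∫ P, pd e3 2 φ P ^ 2 := by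
  refine (h_ZPL Ω _ hΩ hb (abs_LTest h) fun P => abs_nonneg _).trans_eq ?_
  have h1 := h_LIP X (Fin 3) e3 Ω _ hΩ (abs_LTest h)
  have h2 := h_UNI X (Fin 3) e3 Ω Ω _ _ _ _ h1 (abs_H1 h_BCH hΩ h) (ae_eq_refl _) 2
  refine integral_congr_ae ?_
  filter_upwards [h2] with P hP
  rw [hP, sgn_sq]

end SYM_

open SYM_ in
theorem p_SYM (h_LIP : T_LIP) (h_BCH : T_BCH) (h_UNI : T_UNI) (h_VLT : T_VLT) (h_PSL : T_PSL)
    (h_ZPL : T_ZPL) (h_NEX : T_NEX) (h_SLI : T_SLI) (h_MAZ : T_MAZ) (h_OST : T_OST)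
    (h_VSM : T_VSM) : T_SYM := by
  intro Ω R f F hΩ hR hf hN
  have hb : Bornology.IsBounded Ω :=
    isBounded_iff_forall_norm_le.2 ⟨R, fun P hP => (hR P hP).le⟩
  have hO : IsOpen (Ost Ω) ∧ ∀ P ∈ Ost Ω, ‖P‖ < R := by
    rcases Ω.eq_empty_or_nonempty with h | h
    · have h1 : Ost Ω = ∅ := by
        ext P
        simp only [Ost, h, mem_empty_iff_false, measure_empty, ofPred_false, mem_ofPred_eq,
          ENNReal.toReal_zero, iff_false, not_lt]
        positivity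
      rw [h1]
      exact ⟨isOpen_empty, fun P hP => absurd hP (notMem_empty P)⟩
    · obtain ⟨h1, -, -, -, -, -, h2⟩ := h_OST Ω hΩ hb h
      exact ⟨h1, h2 R hR⟩
  obtain ⟨φ, hφ, t1, t2, -, -⟩ := hf.seq
  have hv : ∀ n, H1 e3 (Ost Ω) (vs fun P => |φ n P|) (fun i => pd e3 i (vs fun P => |φ n P|)) :=
    fun n => h_LIP X (Fin 3) e3 (Ost Ω) _ hO.1
      (h_VLT Ω _ hΩ hb (abs_LTest (hφ n)) fun P => abs_nonneg _)
  have ha : ∀ n, MemLp (fun P => |φ n P|) 2 volume := fun n => (abs_H1 h_BCH hΩ (hφ n)).memLp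
  have hc : ∀ n, eLpNorm (fun P => vs (fun P => |φ n P|) P - vs f P) 2 volume ≤
      eLpNorm (fun P => φ n P - f P) 2 volume := by
    intro n
    refine (contr h_NEX h_VSM (abs_Nx hR (hφ n)) hN (ha n) hf.memLp).trans ?_
    refine eLpNorm_mono fun P => ?_
    rw [Real.norm_eq_abs, Real.norm_eq_abs]
    have h1 := abs_abs_sub_abs_le_abs_sub (φ n P) (f P)
    rwa [abs_of_nonneg (hN.nn P)] at h1
  have hvs : Measurable (vs f) := (h_VSM R f hN).1.m
  have hm : MemLp (vs f) 2 volume := by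
    have h1 : MemLp (fun P => vs (fun P => |φ 0 P|) P - vs f P) 2 volume :=
      ⟨(hv 0).memLp.1.sub hvs.aestronglyMeasurable,
        (hc 0).trans_lt ((hφ 0).memLp.sub hf.memLp).2⟩
    have h2 := (hv 0).memLp.sub h1
    refine (memLp_congr_ae (Eventually.of_forall fun P => ?_)).1 h2
    show vs (fun P => |φ 0 P|) P - (vs (fun P => |φ 0 P|) P - vs f P) = vs f P
    ring
  have ht : Tendsto (fun n => eLpNorm (fun P => vs (fun P => |φ n P|) P - vs f P) 2 volume) atTop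
      (𝓝 0) :=
    tendsto_of_tendsto_of_tendsto_of_le_of_le tendsto_const_nhds t1 (fun _ => zero_le) hc
  have hl : ∀ i, Tendsto (fun n => ∫ P, pd e3 i (φ n) P ^ 2) atTop (𝓝 (∫ P, F i P ^ 2)) :=
    fun i => LBG_.sq_tendsto (fun n => (hφ n).memLp_pd i) (hf.memLp' i) (t2 i)
  have hE0 : ∀ n, ∫ P, (pd e3 0 (vs fun P => |φ n P|) P ^ 2 +
      pd e3 1 (vs fun P => |φ n P|) P ^ 2) ≤
      (∫ P, pd e3 0 (φ n) P ^ 2) + ∫ P, pd e3 1 (φ n) P ^ 2 := by
    intro n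
    refine (horiz h_BCH h_PSL h_SLI h_VSM hΩ hR hO.2 (hφ n) (hv n)).trans_eq ?_
    exact integral_add ((hφ n).memLp_pd 0).integrable_sq ((hφ n).memLp_pd 1).integrable_sq
  have hE1 : ∀ n, ∫ P, pd e3 2 (vs fun P => |φ n P|) P ^ 2 ≤ ∫ P, pd e3 2 (φ n) P ^ 2 :=
    fun n => vert h_LIP h_BCH h_UNI h_ZPL hΩ hb (hφ n)
  have l0 := (hl 0).add (hl 1)
  have l1 := hl 2
  obtain ⟨K0, hK0⟩ := l0.bddAbove_range
  obtain ⟨K1, hK1⟩ := l1.bddAbove_range
  have hk0 : ∀ n, (∫ P, pd e3 0 (φ n) P ^ 2) + ∫ P, pd e3 1 (φ n) P ^ 2 ≤ K0 :=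
    fun n => hK0 (mem_range_self n)
  have hk1 : ∀ n, ∫ P, pd e3 2 (φ n) P ^ 2 ≤ K1 := fun n => hK1 (mem_range_self n)
  have hsplit : ∀ n, ∫ P, (pd e3 0 (vs fun P => |φ n P|) P ^ 2 +
      pd e3 1 (vs fun P => |φ n P|) P ^ 2) =
      (∫ P, pd e3 0 (vs fun P => |φ n P|) P ^ 2) +
        ∫ P, pd e3 1 (vs fun P => |φ n P|) P ^ 2 :=
    fun n => integral_add ((hv n).memLp' 0).integrable_sq ((hv n).memLp' 1).integrable_sq
  have nng : ∀ (i : Fin 3) (n : ℕ), 0 ≤ ∫ P, pd e3 i (vs fun P => |φ n P|) P ^ 2 :=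
    fun i n => integral_nonneg fun P => sq_nonneg _
  obtain ⟨F', hF', hk⟩ := h_MAZ X (Fin 3) e3 (Ost Ω) (vs f) (fun n => vs fun P => |φ n P|)
    (fun n i => pd e3 i (vs fun P => |φ n P|)) (max K0 K1) ![{0, 1}, {2}]
    ![(∫ P, F 0 P ^ 2) + ∫ P, F 1 P ^ 2, ∫ P, F 2 P ^ 2] hm hv ht
    (by
      intro n i
      have a0 := hE0 n
      have a1 := hE1 n
      rw [hsplit n] at a0
      have b0 := hk0 n
      have b1 := hk1 n
      have c0 := nng 0 n
      have c1 := nng 1 n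
      have d0 := le_max_left K0 K1
      have d1 := le_max_right K0 K1
      fin_cases i
      · show ∫ P, pd e3 0 (vs fun P => |φ n P|) P ^ 2 ≤ _
        linarith
      · show ∫ P, pd e3 1 (vs fun P => |φ n P|) P ^ 2 ≤ _
        linarith
      · show ∫ P, pd e3 2 (vs fun P => |φ n P|) P ^ 2 ≤ _
        linarith)
    (by
      intro k δ hδ
      fin_cases k
      · have h1 := l0.eventually (gt_mem_nhds (lt_add_of_pos_right _ hδ))
        filter_upwards [h1] with n hn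
        have h2 : ∫ P, ∑ i ∈ ({0, 1} : Finset (Fin 3)), pd e3 i (vs fun P => |φ n P|) P ^ 2 =
            ∫ P, (pd e3 0 (vs fun P => |φ n P|) P ^ 2 +
              pd e3 1 (vs fun P => |φ n P|) P ^ 2) := by
          congr 1
          funext P
          exact Finset.sum_pair (by decide)
        show ∫ P, ∑ i ∈ ({0, 1} : Finset (Fin 3)), pd e3 i (vs fun P => |φ n P|) P ^ 2 ≤
          ((∫ P, F 0 P ^ 2) + ∫ P, F 1 P ^ 2) + δ
        rw [h2]
        exact (hE0 n).trans hn.le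
      · have h1 := l1.eventually (gt_mem_nhds (lt_add_of_pos_right _ hδ))
        filter_upwards [h1] with n hn
        show ∫ P, ∑ i ∈ ({2} : Finset (Fin 3)), pd e3 i (vs fun P => |φ n P|) P ^ 2 ≤
          (∫ P, F 2 P ^ 2) + δ
        simp only [Finset.sum_singleton]
        exact (hE1 n).trans hn.le)
  refine ⟨fun i => (hF'.memLp' i).1.mk (F' i), hF'.congr (ae_eq_refl _) fun i =>
    (hF'.memLp' i).1.ae_eq_mk, fun i => (hF'.memLp' i).1.stronglyMeasurable_mk.measurable,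
    ?_, ?_⟩
  · have h1 := hk 0
    have h2 : ∫ P, ((hF'.memLp' 0).1.mk (F' 0) P ^ 2 + (hF'.memLp' 1).1.mk (F' 1) P ^ 2) =
        ∫ P, ∑ i ∈ ({0, 1} : Finset (Fin 3)), F' i P ^ 2 := by
      refine integral_congr_ae ?_
      filter_upwards [(hF'.memLp' 0).1.ae_eq_mk, (hF'.memLp' 1).1.ae_eq_mk] with P h3 h4
      rw [← h3, ← h4]
      exact (Finset.sum_pair (f := fun i => F' i P ^ 2) (show (0 : Fin 3) ≠ 1 by decide)).symm
    rw [h2, integral_add (hf.memLp' 0).integrable_sq (hf.memLp' 1).integrable_sq]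
    exact h1
  · have h1 := hk 1
    have h2 : ∫ P, (hF'.memLp' 2).1.mk (F' 2) P ^ 2 =
        ∫ P, ∑ i ∈ ({2} : Finset (Fin 3)), F' i P ^ 2 := by
      refine integral_congr_ae ?_
      filter_upwards [(hF'.memLp' 2).1.ae_eq_mk] with P h3
      rw [← h3]
      exact (Finset.sum_singleton _ _).symm
    rw [h2]
    exact h1

end MGS
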