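import Pool.Agent.MGS.TE

/-!
# MGS: target TRN (truncation of the modulus)
-/

set_option autoImplicit false

open MeasureTheory Filter Topology Metric Set
open scoped ENNReal NNReal ContDiff

noncomputable section

namespace MGS

namespace TRN_

/-- the derivative of the truncation -/
def et (N s : ℝ) : ℝ := if N < s then N / s ^ 2 else 0

lemma et_meas (N : ℝ) : Measurable (et N) := by
  unfold et
  refine Measurable.ite measurableSet_Ioi ?_ measurable_const
  exact measurable_const.div (measurable_id.pow_const 2)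

lemma et_bd {N : ℝ} (hN : 0 < N) (s : ℝ) : |et N s| ≤ 1 / N := by
  unfold et
  split_ifs with h
  · have hs : 0 < s := hN.trans h
    rw [abs_of_nonneg (by positivity), div_le_div_iff₀ (by positivity) hN]
    nlinarith
  · rw [abs_zero]
    positivity

lemma et_int {N : ℝ} (hN : 0 < N) {s : ℝ} (hs : 0 ≤ s) :
    ∫ t in (0 : ℝ)..s, et N t = if N < s then 1 - N / s else 0 := by
  have h0 : ∀ u : ℝ, 0 ≤ u → u ≤ N → ∫ t in (0 : ℝ)..u, et N t = 0 := by
    intro u hu huN
    have h1 : ∫ t in (0 : ℝ)..u, et N t = ∫ _t in (0 : ℝ)..u, (0 : ℝ) := by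
      refine intervalIntegral.integral_congr fun t ht => ?_
      rw [uIcc_of_le hu] at ht
      exact if_neg (not_lt.mpr (ht.2.trans huN))
    rw [h1, intervalIntegral.integral_zero]
  have hii : ∀ u v : ℝ, IntervalIntegrable (et N) volume u v := by
    intro u v
    refine (intervalIntegrable_const (c := 1 / N)).mono_fun' (et_meas N).aestronglyMeasurable
      (Eventually.of_forall fun t => ?_)
    show ‖et N t‖ ≤ 1 / N
    rw [Real.norm_eq_abs]
    exact et_bd hN t
  by_cases h : N < s
  · rw [if_pos h, ← intervalIntegral.integral_add_adjacent_intervals (hii 0 N) (hii N s),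
      h0 N hN.le le_rfl, zero_add]
    have h1 : ∫ t in N..s, et N t = ∫ t in N..s, N / t ^ 2 := by
      refine intervalIntegral.integral_congr_ae (Eventually.of_forall fun t ht => ?_)
      rw [uIoc_of_le h.le] at ht
      exact if_pos ht.1
    rw [h1]
    have h2 : ∫ t in N..s, N / t ^ 2 = (-N / s) - (-N / N) := by
      refine intervalIntegral.integral_eq_sub_of_hasDerivAt (f := fun t => -N / t)
        (fun t ht => ?_) ?_
      · rw [uIcc_of_le h.le] at ht
        have ht0 : t ≠ 0 := (hN.trans_le ht.1).ne'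
        have h3 := (hasDerivAt_const t (-N)).div (hasDerivAt_id t) ht0
        refine h3.congr_deriv ?_
        simp only [id]
        ring
      · refine ContinuousOn.intervalIntegrable ?_
        refine ContinuousOn.div continuousOn_const (continuousOn_id.pow 2) fun t ht => ?_
        rw [uIcc_of_le h.le] at ht
        exact pow_ne_zero 2 (hN.trans_le ht.1).ne'
    rw [h2, neg_div, neg_div, div_self hN.ne']
    ring
  · rw [if_neg h]
    exact h0 s hs (not_lt.mp h)

/-- the truncated function -/
def ta (N : ℝ) (f a : X → ℝ) (P : X) : ℝ := if N < f P then N / f P * a P else a P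

/-- its gradient -/
def tF (N : ℝ) (f a : X → ℝ) (m Fa : Fin 3 → X → ℝ) (i : Fin 3) (P : X) : ℝ :=
  if N < f P then N / f P * (Fa i P - a P / f P * m i P) else Fa i P

lemma md_nonneg {a b : X → ℝ} (P : X) : 0 ≤ md a b P := Real.sqrt_nonneg _

lemma md_sq {a b : X → ℝ} (P : X) : md a b P ^ 2 = a P ^ 2 + b P ^ 2 :=
  Real.sq_sqrt (by positivity)

lemma md_meas {a b : X → ℝ} (ha : Measurable a) (hb : Measurable b) : Measurable (md a b) := by
  unfold md
  exact ((ha.pow_const 2).add (hb.pow_const 2)).sqrt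

lemma mg_meas {a b : X → ℝ} {Fa Fb : Fin 3 → X → ℝ} (ha : Measurable a) (hb : Measurable b)
    (hFa : ∀ i, Measurable (Fa i)) (hFb : ∀ i, Measurable (Fb i)) (i : Fin 3) :
    Measurable (mg a b Fa Fb i) := by
  unfold mg
  exact ((ha.mul (hFa i)).add (hb.mul (hFb i))).div (md_meas ha hb)

lemma abs_le_md {a b : X → ℝ} (P : X) : |a P| ≤ md a b P := by
  refine Real.abs_le_sqrt ?_
  nlinarith [sq_nonneg (b P)]

lemma ta_meas {N : ℝ} {f a : X → ℝ} (hf : Measurable f) (ha : Measurable a) :
    Measurable (ta N f a) := by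
  unfold ta
  exact Measurable.ite (measurableSet_lt measurable_const hf) ((measurable_const.div hf).mul ha) ha

lemma tF_meas {N : ℝ} {f a : X → ℝ} {m Fa : Fin 3 → X → ℝ} (hf : Measurable f)
    (ha : Measurable a) (hm : ∀ i, Measurable (m i)) (hF : ∀ i, Measurable (Fa i)) (i : Fin 3) :
    Measurable (tF N f a m Fa i) := by
  unfold tF
  exact Measurable.ite (measurableSet_lt measurable_const hf)
    ((measurable_const.div hf).mul ((hF i).sub ((ha.div hf).mul (hm i)))) (hF i)

/-- the truncation is in the space -/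
lemma h1 (h_BCH : T_BCH) (h_PRT : T_PRT) (h_MOD : T_MOD) {N : ℝ} (hN : 0 < N) {G : Set X}
    (hG : IsOpen G) {a b c : X → ℝ} {Fa Fb Fc : Fin 3 → X → ℝ} (ma : Measurable a)
    (mb : Measurable b) (mFa : ∀ i, Measurable (Fa i)) (mFb : ∀ i, Measurable (Fb i))
    (mc : Measurable c) (ha : H1 e3 G a Fa) (hb : H1 e3 G b Fb) (hc : H1 e3 G c Fc)
    (hle : ∀ P, |c P| ≤ md a b P) :
    H1 e3 G (ta N (md a b) c) (tF N (md a b) c (mg a b Fa Fb) Fc) := by
  have hm := h_MOD X (Fin 3) e3 G a b Fa Fb hG ha hb
  have hg := h_BCH X (Fin 3) e3 univ (md a b) (mg a b Fa Fb) (et N) (1 / N) isOpen_univ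
    (hm.mono (subset_univ _)) (et_meas N) (et_bd hN)
  have hgv : ∀ P, ∫ t in (0 : ℝ)..(md a b P), et N t =
      if N < md a b P then 1 - N / md a b P else 0 := fun P => et_int hN (md_nonneg P)
  have h3 := h_PRT X (Fin 3) e3 G c _ Fc _ 1 hG hc hg (Eventually.of_forall fun P => ?_)
    (fun i => ?_)
  · have h4 := hc.sub h3
    refine h4.congr (Eventually.of_forall fun P => ?_) fun i => Eventually.of_forall fun P => ?_
    · show c P - c P * (∫ t in (0 : ℝ)..(md a b P), et N t) = ta N (md a b) c P
      rw [hgv P]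
      unfold ta
      split_ifs <;> ring
    · show Fc i P - (c P * (et N (md a b P) * mg a b Fa Fb i P) +
        (∫ t in (0 : ℝ)..(md a b P), et N t) * Fc i P) =
          tF N (md a b) c (mg a b Fa Fb) Fc i P
      rw [hgv P]
      unfold tF et
      split_ifs with h
      · have hf0 : md a b P ≠ 0 := (hN.trans h).ne'
        field_simp
        ring
      · ring
  · show |∫ t in (0 : ℝ)..(md a b P), et N t| ≤ 1
    rw [hgv P]
    split_ifs with h
    · have hf0 : 0 < md a b P := hN.trans h
      have h5 : N / md a b P ≤ 1 := (div_le_one hf0).mpr h.le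
      have h6 : 0 ≤ N / md a b P := by positivity
      rw [abs_le]
      constructor <;> linarith
    · rw [abs_zero]
      exact zero_le_one
  · show MemLp (fun P => c P * (et N (md a b P) * mg a b Fa Fb i P)) 2 volume
    refine (hm.memLp' i).of_le ?_ (Eventually.of_forall fun P => ?_)
    · exact (mc.mul (((et_meas N).comp (md_meas ma mb)).mul
        (mg_meas ma mb mFa mFb i))).aestronglyMeasurable
    · rw [← mul_assoc, norm_mul]
      refine mul_le_of_le_one_left (norm_nonneg _) ?_
      rw [Real.norm_eq_abs, abs_mul]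
      unfold et
      split_ifs with h
      · have hf0 : 0 < md a b P := hN.trans h
        rw [abs_of_nonneg (a := N / md a b P ^ 2) (by positivity)]
        calc |c P| * (N / md a b P ^ 2) ≤ md a b P * (N / md a b P ^ 2) :=
              mul_le_mul_of_nonneg_right (hle P) (by positivity)
          _ = N / md a b P := by
              field_simp
          _ ≤ 1 := (div_le_one hf0).mpr h.le
      · rw [abs_zero, mul_zero]
        exact zero_le_one

end TRN_

open TRN_ in
/-- TRN -/
theorem p_TRN (h_BCH : T_BCH) (h_PRT : T_PRT) (h_MOD : T_MOD) : T_TRN := by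
  intro N R Ω a b Fa Fb hN hp
  have mf : Measurable (md a b) := md_meas hp.ma hp.mb
  have mm : ∀ i, Measurable (mg a b Fa Fb i) := mg_meas hp.ma hp.mb hp.mFa hp.mFb
  have hbm : ∀ P, |b P| ≤ md a b P := by
    intro P
    refine Real.abs_le_sqrt ?_
    nlinarith [sq_nonneg (a P)]
  refine ⟨ta N (md a b) a, ta N (md a b) b, tF N (md a b) a (mg a b Fa Fb) Fa,
    tF N (md a b) b (mg a b Fa Fb) Fb, ?_, ?_, ?_, ?_⟩
  · refine ⟨hp.isOpen, hp.bdd, ta_meas mf hp.ma, ta_meas mf hp.mb, tF_meas mf hp.ma mm hp.mFa,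
      tF_meas mf hp.mb mm hp.mFb, ?_, ?_, ?_⟩
    · exact h1 h_BCH h_PRT h_MOD hN hp.isOpen hp.ma hp.mb hp.mFa hp.mFb hp.ma hp.ha hp.hb hp.ha
        (fun P => abs_le_md P)
    · exact h1 h_BCH h_PRT h_MOD hN hp.isOpen hp.ma hp.mb hp.mFa hp.mFb hp.mb hp.ha hp.hb hp.hb
        hbm
    · intro P hP
      obtain ⟨h2, h3, h4⟩ := hp.zero P hP
      have hf : ¬ N < md a b P := by
        unfold md
        rw [h2, h3]
        simp only [ne_eq, OfNat.ofNat_ne_zero, not_false_eq_true, zero_pow, add_zero,
          Real.sqrt_zero, not_lt]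
        exact hN.le
      unfold ta tF
      refine ⟨?_, ?_, fun i => ⟨?_, ?_⟩⟩
      · rw [if_neg hf, h2]
      · rw [if_neg hf, h3]
      · rw [if_neg hf, (h4 i).1]
      · rw [if_neg hf, (h4 i).2]
  · intro P
    by_cases h : N < md a b P
    · have hf0 : 0 < md a b P := hN.trans h
      rw [min_eq_right h.le]
      show Real.sqrt (ta N (md a b) a P ^ 2 + ta N (md a b) b P ^ 2) = N
      have h2 : ta N (md a b) a P ^ 2 + ta N (md a b) b P ^ 2 = N ^ 2 := by
        unfold ta
        rw [if_pos h, if_pos h]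
        calc _ = (N / md a b P) ^ 2 * (a P ^ 2 + b P ^ 2) := by ring
          _ = (N / md a b P) ^ 2 * md a b P ^ 2 := by rw [md_sq]
          _ = N ^ 2 := by
              rw [← mul_pow, div_mul_cancel₀ _ hf0.ne']
      rw [h2, Real.sqrt_sq hN.le]
    · rw [min_eq_left (not_lt.mp h)]
      show Real.sqrt (ta N (md a b) a P ^ 2 + ta N (md a b) b P ^ 2) =
        Real.sqrt (a P ^ 2 + b P ^ 2)
      unfold ta
      rw [if_neg h, if_neg h]
  · intro P hP
    have h : ¬ N < md a b P := not_lt.mpr hP
    unfold ta tF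
    refine ⟨if_neg h, if_neg h, fun i => ⟨if_neg h, if_neg h⟩⟩
  · intro B i P
    by_cases h : N < md a b P
    · have hf0 : 0 < md a b P := hN.trans h
      have hsq := md_sq (a := a) (b := b) P
      have hm : md a b P * mg a b Fa Fb i P = a P * Fa i P + b P * Fb i P := by
        unfold mg
        rw [mul_div_cancel₀ _ hf0.ne']
      unfold em ta tF
      rw [if_pos h, if_pos h, if_pos h, if_pos h]
      generalize Ap B i P = A
      generalize mg a b Fa Fb i P = m at *
      generalize md a b P = f at *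
      generalize a P = x at *
      generalize b P = y at *
      generalize Fa i P = u at *
      generalize Fb i P = v at *
      have hc1 : (N / f) ^ 2 ≤ 1 := by
        have h5 : N / f ≤ 1 := (div_le_one hf0).mpr h.le
        have h6 : 0 ≤ N / f := by positivity
        nlinarith
      have hc0 : 0 ≤ (N / f) ^ 2 := by positivity
      have h5 : (N / f * (u - x / f * m) - A * (N / f * y)) ^ 2 +
          (N / f * (v - y / f * m) + A * (N / f * x)) ^ 2 =
          (N / f) ^ 2 * ((u - A * y) ^ 2 + (v + A * x) ^ 2 -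
            2 * (m / f) * (x * u + y * v) + (m / f) ^ 2 * (x ^ 2 + y ^ 2)) := by
        ring
      have h6 : (m / f) ^ 2 * f ^ 2 = m ^ 2 := by
        rw [← mul_pow, div_mul_cancel₀ _ hf0.ne']
      have h7 : 2 * (m / f) * (f * m) = 2 * m ^ 2 := by
        field_simp
      rw [h5, ← hm, ← hsq, h6, h7]
      have h8 : 0 ≤ (u - A * y) ^ 2 + (v + A * x) ^ 2 := by positivity
      nlinarith [mul_nonneg hc0 (sq_nonneg m), mul_le_mul_of_nonneg_right hc1 h8]
    · unfold em ta tF
      rw [if_neg h, if_neg h, if_neg h, if_neg h]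

end MGS
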