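import Pool.Agent.MGS.TA

/-!
# MGS: target `UNI` (uniqueness of the gradient), from `IBH`
-/

set_option autoImplicit false

open MeasureTheory Filter Topology Metric Set
open scoped ENNReal NNReal ContDiff

noncomputable section

namespace MGS

theorem p_UNI (h_IBH : T_IBH) : T_UNI := by
  intro E _ _ _ _ _ _ ι _ e G G' f g F Fg hf hg hfg i
  have hloc : ∀ u : E → ℝ, MemLp u 2 volume → LocallyIntegrable u volume := fun u hu =>
    hu.locallyIntegrable (by norm_num)
  refine ae_eq_of_integral_contDiff_smul_eq (hloc _ (hf.2.1 i)) (hloc _ (hg.2.1 i)) ?_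
  intro ψ hψ hψc
  have hT : Test (univ : Set E) ψ := ⟨hψ, hψc, Set.subset_univ _⟩
  have h1 := h_IBH E ι e G univ f ψ F (fun i => pd e i ψ) hf hT.h1 i
  have h2 := h_IBH E ι e G' univ g ψ Fg (fun i => pd e i ψ) hg hT.h1 i
  have h3 : ∫ P, f P * pd e i ψ P = ∫ P, g P * pd e i ψ P := by
    refine integral_congr_ae ?_
    filter_upwards [hfg] with P hP
    rw [hP]
  have h4 : ∫ P, F i P * ψ P = ∫ P, Fg i P * ψ P := by
    have : -∫ P, F i P * ψ P = -∫ P, Fg i P * ψ P := by
      rw [← h1, ← h2]
      exact h3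
    linarith
  simp only [smul_eq_mul]
  calc ∫ P, ψ P * F i P = ∫ P, F i P * ψ P := by
        refine integral_congr_ae (Eventually.of_forall fun P => ?_)
        exact mul_comm _ _
    _ = ∫ P, Fg i P * ψ P := h4
    _ = ∫ P, ψ P * Fg i P := by
        refine integral_congr_ae (Eventually.of_forall fun P => ?_)
        exact mul_comm _ _

end MGS
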