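import Pool.Agent.MGS.TB

/-!
# MGS: proof of UNQ
-/

set_option autoImplicit false

open MeasureTheory Filter Topology Metric Set
open scoped ENNReal NNReal ContDiff

noncomputable section

namespace MGS

theorem p_UNQ (h_GSM : T_GSM) (h_UNR : T_UNR) (h_CON : T_CON) (h_UNI : T_UNI) : T_UNQ := by
  intro B G v g F Γ hG hv hg hg0 hg1 hle
  have m1 : Mz (VV B) G (lamR B G) v F := h_GSM B G v F hG hv
  have m2 : Mz (VV B) G (lamR B G) g Γ := ⟨m1.adm, hg, hle⟩
  obtain ⟨c, hc⟩ := h_UNR (VV B) G (lamR B G) v g F Γ m1 m2 (h_CON G hG).1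
    (Eventually.of_forall hv.nn) hv.nrm
  have hc2 : c ^ 2 = 1 := by
    have h1 : ∫ P, g P ^ 2 = ∫ P, c ^ 2 * v P ^ 2 := by
      refine integral_congr_ae ?_
      filter_upwards [hc] with P hP
      rw [hP, mul_pow]
    rw [hg1, integral_const_mul, hv.nrm, mul_one] at h1
    exact h1.symm
  have hc1 : c = 1 := by
    rcases sq_eq_one_iff.1 hc2 with h | h
    · exact h
    · exfalso
      have h0 : ∀ᵐ P, v P = 0 := by
        filter_upwards [hc, hg0] with P h1 h2
        have h3 := hv.nn P
        rw [h1, h] at h2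
        linarith
      have h4 : ∫ P, v P ^ 2 = 0 := by
        rw [← integral_zero X ℝ]
        refine integral_congr_ae ?_
        filter_upwards [h0] with P hP
        rw [hP]
        norm_num
      rw [hv.nrm] at h4
      exact one_ne_zero h4
  have hvg : v =ᵐ[volume] g := by
    filter_upwards [hc] with P hP
    rw [hP, hc1, one_mul]
  exact ⟨hvg, h_UNI X (Fin 3) e3 G G v g F Γ hv.h hg hvg⟩

end MGS
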