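import Pool.Agent.MGS.TB

/-!
# MGS: uniqueness of the minimizer
-/

set_option autoImplicit false

open MeasureTheory Filter Topology Metric Set
open scoped ENNReal NNReal ContDiff

noncomputable section

namespace MGS

theorem UNR_.integ (hE : T_EQC) {q : X → ℝ} {G : Set X} {f : X → ℝ} {F : Fin 3 → X → ℝ}
    (h : H1 e3 G f F) (hq : Continuous q) (hG : Bornology.IsBounded G) :
    Integrable (fun P => ∑ i : Fin 3, F i P ^ 2 + q P * f P ^ 2) := by
  obtain ⟨h1, h2, h3⟩ := (hE q G f F h hq hG).1 f F h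
  refine Integrable.add (integrable_finsetSum _ fun i _ => ?_) ?_
  · refine (h3 i).congr (Eventually.of_forall fun P => ?_)
    show F i P * F i P = F i P ^ 2
    ring
  · refine h2.congr (Eventually.of_forall fun P => ?_)
    show q P * (f P * f P) = q P * f P ^ 2
    ring

theorem UNR_.sqi {G : Set X} {f : X → ℝ} {F : Fin 3 → X → ℝ} (h : H1 e3 G f F) :
    Integrable (fun P => f P ^ 2) := h.1.integrable_sq

/-- the indicator of the positive half line -/
def UNR_.et (t : ℝ) : ℝ := if 0 < t then 1 else 0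

theorem UNR_.etI (s : ℝ) : ∫ t in (0 : ℝ)..s, UNR_.et t = max s 0 := by
  rcases le_or_gt 0 s with hs | hs
  · have e : ∫ t in Ioc 0 s, UNR_.et t = ∫ _ in Ioc 0 s, (1 : ℝ) :=
      setIntegral_congr_fun measurableSet_Ioc (fun t ht => if_pos ht.1)
    rw [intervalIntegral.integral_of_le hs, max_eq_left hs, e]
    simp [hs]
  · have e : ∫ t in Ioc s 0, UNR_.et t = ∫ _ in Ioc s 0, (0 : ℝ) :=
      setIntegral_congr_fun measurableSet_Ioc (fun t ht => if_neg (not_lt.2 ht.2))
    rw [intervalIntegral.integral_symm, intervalIntegral.integral_of_le hs.le,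
      max_eq_right hs.le, e]
    simp

theorem UNR_.pos (hB : T_BCH) {G : Set X} {f : X → ℝ} {F : Fin 3 → X → ℝ} (hG : IsOpen G)
    (h : H1 e3 G f F) :
    H1 e3 G (fun P => max (f P) 0) (fun i P => UNR_.et (f P) * F i P) := by
  have hm : Measurable UNR_.et := Measurable.ite measurableSet_Ioi measurable_const
    measurable_const
  have hb : ∀ s, |UNR_.et s| ≤ 1 := by
    intro s
    unfold UNR_.et
    split_ifs <;> simp
  have h1 := hB X (Fin 3) e3 G f F UNR_.et 1 hG h hm hb
  have h2 : (fun P => ∫ t in (0 : ℝ)..(f P), UNR_.et t) = fun P => max (f P) 0 := by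
    funext P
    exact UNR_.etI (f P)
  rw [h2] at h1
  exact h1

/-- positive and negative part of a minimizer -/
theorem UNR_.part (hE : T_EQC) (hB : T_BCH) {q : X → ℝ} {G : Set X} {L : ℝ} {w : X → ℝ}
    {W : Fin 3 → X → ℝ} (h : Mz q G L w W) :
    Mz q G L (fun P => max (w P) 0) (fun i P => UNR_.et (w P) * W i P) := by
  have hq := h.adm.cont
  have hb := h.adm.bounded
  have h1 := UNR_.pos hB h.adm.isOpen h.h
  have h2 := UNR_.pos hB h.adm.isOpen (h.h.smul (-1))
  have i1 := UNR_.integ hE h1 hq hb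
  have i2 := UNR_.integ hE h2 hq hb
  have i3 := UNR_.integ hE h.h hq hb
  have s1 := UNR_.sqi h1
  have s2 := UNR_.sqi h2
  refine ⟨h.adm, h1, ?_⟩
  have l2 := (hE q G _ _ h2 hq hb).2 L h.adm
  have key : EQ q (fun P => max (w P) 0) (fun i P => UNR_.et (w P) * W i P) +
      EQ q (fun P => max (-1 * w P) 0) (fun i P => UNR_.et (-1 * w P) * (-1 * W i P)) ≤
      EQ q w W := by
    unfold EQ
    rw [← integral_add i1 i2]
    refine integral_mono (i1.add i2) i3 fun P => ?_
    have hq0 := h.adm.nn P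
    simp only [Fin.sum_univ_three]
    rcases lt_trichotomy (w P) 0 with h0 | h0 | h0
    · have e1 : UNR_.et (w P) = 0 := if_neg (by linarith)
      have e2 : UNR_.et (-1 * w P) = 1 := if_pos (by linarith)
      have e3' : max (w P) 0 = 0 := max_eq_right h0.le
      have e4 : max (-1 * w P) 0 = -1 * w P := max_eq_left (by linarith)
      rw [e1, e2, e3', e4]
      apply le_of_eq
      ring
    · have e1 : UNR_.et (w P) = 0 := if_neg (by linarith)
      have e2 : UNR_.et (-1 * w P) = 0 := if_neg (by linarith)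
      have e3' : max (w P) 0 = 0 := max_eq_right h0.le
      have e4 : max (-1 * w P) 0 = 0 := max_eq_right (by linarith)
      rw [e1, e2, e3', e4, h0]
      nlinarith [sq_nonneg (W 0 P), sq_nonneg (W 1 P), sq_nonneg (W 2 P)]
    · have e1 : UNR_.et (w P) = 1 := if_pos h0
      have e2 : UNR_.et (-1 * w P) = 0 := if_neg (by linarith)
      have e3' : max (w P) 0 = w P := max_eq_left h0.le
      have e4 : max (-1 * w P) 0 = 0 := max_eq_right (by linarith)
      rw [e1, e2, e3', e4]
      apply le_of_eq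
      ring
  have hs : ∫ P, w P ^ 2 = (∫ P, (max (w P) 0) ^ 2) + ∫ P, (max (-1 * w P) 0) ^ 2 := by
    rw [← integral_add s1 s2]
    refine integral_congr_ae (Eventually.of_forall fun P => ?_)
    show w P ^ 2 = (max (w P) 0) ^ 2 + (max (-1 * w P) 0) ^ 2
    rcases le_total (w P) 0 with h0 | h0
    · rw [max_eq_right h0, max_eq_left (by linarith)]
      ring
    · rw [max_eq_left h0, max_eq_right (by linarith)]
      ring
  have l3 := h.le
  rw [hs, mul_add] at l3
  linarith

theorem UNR_.neg {q : X → ℝ} {G : Set X} {L : ℝ} {w : X → ℝ} {W : Fin 3 → X → ℝ}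
    (h : Mz q G L w W) : Mz q G L (fun P => -1 * w P) (fun i P => -1 * W i P) := by
  refine ⟨h.adm, h.h.smul (-1), ?_⟩
  have h1 := h.le
  have e1 : EQ q (fun P => -1 * w P) (fun i P => -1 * W i P) = EQ q w W := by
    unfold EQ
    refine integral_congr_ae (Eventually.of_forall fun P => ?_)
    simp only [Fin.sum_univ_three]
    ring
  have e2 : ∫ P, (-1 * w P) ^ 2 = ∫ P, w P ^ 2 := by
    refine integral_congr_ae (Eventually.of_forall fun P => ?_)
    show (-1 * w P) ^ 2 = w P ^ 2
    ring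
  rw [e1, e2]
  exact h1

theorem UNR_.lin3 {u v w : X → ℝ} (a b : ℝ) (hu : Integrable u) (hv : Integrable v)
    (hw : Integrable w) : ∫ P, ((u P + a * v P) + b * w P) =
      ((∫ P, u P) + a * ∫ P, v P) + b * ∫ P, w P := by
  have h1 : Integrable (fun P => u P + a * v P) := hu.add (hv.const_mul a)
  rw [integral_add h1 (hw.const_mul b), integral_add hu (hv.const_mul a), integral_const_mul,
    integral_const_mul]

/-- the combination `g - c f` of minimizers -/
theorem UNR_.comb (hE : T_EQC) (hW : T_WKE) {q : X → ℝ} {G : Set X} {L : ℝ} {f g : X → ℝ}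
    {F Γ : Fin 3 → X → ℝ} (hf : Mz q G L f F) (hg : Mz q G L g Γ) (c : ℝ) :
    Mz q G L (fun P => g P - c * f P) (fun i P => Γ i P - c * F i P) := by
  have hq := hf.adm.cont
  have hb := hf.adm.bounded
  refine ⟨hf.adm, hg.h.sub (hf.h.smul c), ?_⟩
  have i1 := UNR_.integ hE hg.h hq hb
  have i2 := UNR_.integ hE hf.h hq hb
  obtain ⟨j1, j2, j3⟩ := (hE q G f F hf.h hq hb).1 g Γ hg.h
  have i3 : Integrable (fun P => ∑ i : Fin 3, F i P * Γ i P + q P * (f P * g P)) :=
    Integrable.add (integrable_finsetSum _ fun i _ => j3 i) j2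
  have s1 := UNR_.sqi hg.h
  have s2 := UNR_.sqi hf.h
  have hw := hW q G L f F hf g Γ hg.h
  have e1 : EQ q (fun P => g P - c * f P) (fun i P => Γ i P - c * F i P) =
      (EQ q g Γ + (-2 * c) * BQ q f F g Γ) + c ^ 2 * EQ q f F := by
    unfold EQ BQ
    rw [← UNR_.lin3 (-2 * c) (c ^ 2) i1 i3 i2]
    refine integral_congr_ae (Eventually.of_forall fun P => ?_)
    simp only [Fin.sum_univ_three]
    ring
  have e2 : ∫ P, (g P - c * f P) ^ 2 =
      ((∫ P, g P ^ 2) + (-2 * c) * (∫ P, f P * g P)) + c ^ 2 * (∫ P, f P ^ 2) := by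
    rw [← UNR_.lin3 (-2 * c) (c ^ 2) s1 j1 s2]
    refine integral_congr_ae (Eventually.of_forall fun P => ?_)
    show (g P - c * f P) ^ 2 = (g P ^ 2 + (-2 * c) * (f P * g P)) + c ^ 2 * f P ^ 2
    ring
  rw [e1, e2, hw]
  have h1 := hf.le
  have h2 := hg.le
  have h3 : c ^ 2 * EQ q f F ≤ c ^ 2 * (L * ∫ P, f P ^ 2) :=
    mul_le_mul_of_nonneg_left h1 (sq_nonneg c)
  nlinarith

/-- a minimizer which is orthogonal to `f` is not positive -/
theorem UNR_.zero (hE : T_EQC) (hB : T_BCH) (hP : T_POS) (hZ : T_ZRO) {q : X → ℝ} {G : Set X}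
    {L : ℝ} {f w : X → ℝ} {F W : Fin 3 → X → ℝ} (hf : Mz q G L f F) (hw : Mz q G L w W)
    (hG : IsPreconnected G) (hfn : ∀ᵐ P, 0 ≤ f P) (hf1 : ∫ P, f P ^ 2 = 1)
    (ho : ∫ P, f P * w P = 0) : ∀ᵐ P, w P ≤ 0 := by
  have hp := UNR_.part hE hB hw
  have hpn : ∀ᵐ P, 0 ≤ max (w P) 0 := Eventually.of_forall fun P => le_max_right _ _
  by_cases h0 : ∫ P, (max (w P) 0) ^ 2 = 0
  · have h1 := (integral_eq_zero_iff_of_nonneg (fun P => sq_nonneg (max (w P) 0))
      (UNR_.sqi hp.h)).1 h0
    filter_upwards [h1] with P hP1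
    have h2 : (max (w P) 0) ^ 2 = 0 := hP1
    have h3 : max (w P) 0 = 0 := by simpa using h2
    calc w P ≤ max (w P) 0 := le_max_left _ _
      _ = 0 := h3
  · exfalso
    have h1 := hP q G L _ _ hp hG hpn h0
    have h2 := hP q G L f F hf hG hfn (by rw [hf1]; exact one_ne_zero)
    have h3 := hZ X (Fin 3) e3 G f F hf.h
    obtain ⟨j1, _, _⟩ := (hE q G f F hf.h hf.adm.cont hf.adm.bounded).1 w W hw.h
    have h4 : ∀ᵐ P, 0 ≤ f P * w P := by
      filter_upwards [h1, h2, h3] with P a1 a2 a3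
      by_cases hPG : P ∈ G
      · have b1 := a1 hPG
        have b2 := a2 hPG
        have b3 : 0 < w P := by
          rcases lt_max_iff.1 b1 with h | h
          · exact h
          · exact absurd h (lt_irrefl _)
        positivity
      · rw [(a3 hPG).1, zero_mul]
    have h5 := (integral_eq_zero_iff_of_nonneg_ae h4 j1).1 ho
    have h6 : ∀ᵐ P, f P ^ 2 = 0 := by
      filter_upwards [h1, h2, h3, h5] with P a1 a2 a3 a4
      by_cases hPG : P ∈ G
      · have b1 := a1 hPG
        have b2 := a2 hPG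
        have b3 : 0 < w P := by
          rcases lt_max_iff.1 b1 with h | h
          · exact h
          · exact absurd h (lt_irrefl _)
        have b4 : f P * w P = 0 := a4
        exact absurd b4 (by positivity)
      · rw [(a3 hPG).1]
        norm_num
    have h7 : ∫ P, f P ^ 2 = 0 := integral_eq_zero_of_ae h6
    rw [hf1] at h7
    exact one_ne_zero h7

theorem p_UNR (h_EQC : T_EQC) (h_WKE : T_WKE) (h_POS : T_POS) (h_BCH : T_BCH)
    (h_ZRO : T_ZRO) : T_UNR := by
  intro q G L f g F Γ hf hg hG hfn hf1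
  refine ⟨∫ P, f P * g P, ?_⟩
  generalize hc : ∫ P, f P * g P = c
  have hw := UNR_.comb h_EQC h_WKE hf hg c
  obtain ⟨j1, _, _⟩ := (h_EQC q G f F hf.h hf.adm.cont hf.adm.bounded).1 g Γ hg.h
  have s2 := UNR_.sqi hf.h
  have ho : ∫ P, f P * (g P - c * f P) = 0 := by
    have e : ∫ P, f P * (g P - c * f P) = (∫ P, f P * g P) - c * ∫ P, f P ^ 2 := by
      rw [← integral_const_mul, ← integral_sub j1 (s2.const_mul _)]
      refine integral_congr_ae (Eventually.of_forall fun P => ?_)
      show f P * (g P - c * f P) = f P * g P - c * f P ^ 2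
      ring
    rw [e, hc, hf1]
    ring
  have ho' : ∫ P, f P * (-1 * (g P - c * f P)) = 0 := by
    have e : ∫ P, f P * (-1 * (g P - c * f P)) = -∫ P, f P * (g P - c * f P) := by
      rw [← integral_neg]
      refine integral_congr_ae (Eventually.of_forall fun P => ?_)
      show f P * (-1 * (g P - c * f P)) = -(f P * (g P - c * f P))
      ring
    rw [e, ho, neg_zero]
  have a1 := UNR_.zero h_EQC h_BCH h_POS h_ZRO hf hw hG hfn hf1 ho
  have a2 := UNR_.zero h_EQC h_BCH h_POS h_ZRO hf (UNR_.neg hw) hG hfn hf1 ho'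
  filter_upwards [a1, a2] with P b1 b2
  linarith

end MGS
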