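import Pool.Agent.MGS.TG

/-!
# MGS-USE: the essential interior
-/

set_option autoImplicit false

open MeasureTheory Filter Topology Metric Set
open scoped ENNReal NNReal ContDiff

noncomputable section

namespace MGS

namespace USE_

/-- rotation about the axis through `c` -/
def rho (c w : ℂ) (P : X) : X := (w * (P.1 - c) + c, P.2)

lemma mp (c w : ℂ) (hw : ‖w‖ = 1) : MeasurePreserving (rho c w) volume volume := by
  have h1 : MeasurePreserving (fun x : ℂ => w * x) volume volume := by
    have hc : w ∈ Submonoid.unitSphere ℂ := by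
      rw [Submonoid.unitSphere] at *
      simp [hw]
    have := (rotation (⟨w, hc⟩ : Circle)).measurePreserving
    exact this
  have h2 : MeasurePreserving (fun x : ℂ => x - c) volume volume :=
    measurePreserving_sub_right volume c
  have h3 : MeasurePreserving (fun x : ℂ => x + c) volume volume :=
    measurePreserving_add_right volume c
  have h4 : MeasurePreserving (fun x : ℂ => w * (x - c) + c) volume volume :=
    h3.comp (h1.comp h2)
  exact h4.prod (MeasurePreserving.id (volume : Measure ℝ))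

lemma isom (c w : ℂ) (hw : ‖w‖ = 1) (P Q : X) : dist (rho c w P) (rho c w Q) = dist P Q := by
  unfold rho
  rw [Prod.dist_eq, Prod.dist_eq]
  congr 1
  rw [dist_eq_norm, dist_eq_norm]
  have : w * (P.1 - c) + c - (w * (Q.1 - c) + c) = w * (P.1 - Q.1) := by ring
  simp only
  rw [this, norm_mul, hw, one_mul]

lemma inv (c w : ℂ) (hw : ‖w‖ = 1) (P : X) : rho c w⁻¹ (rho c w P) = P := by
  have hw0 : w ≠ 0 := by
    intro h
    rw [h, norm_zero] at hw
    norm_num at hw
  unfold rho
  ext1
  · simp only [add_sub_cancel_right]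
    rw [← mul_assoc, inv_mul_cancel₀ hw0, one_mul, sub_add_cancel]
  · rfl

end USE_

open USE_ in
theorem p_USE : T_USE := by
  intro Ω D c hO hB hD hsym
  set D' : Set X := {P : X | (P.1 - c, P.2) ∈ D} with hD'
  have hsub : Ω ⊆ ei Ω := by
    intro P hP
    obtain ⟨r, hr, hr2⟩ := Metric.isOpen_iff.1 hO P hP
    refine ⟨r, hr, ?_⟩
    rw [sdiff_eq_empty.2 hr2, measure_empty]
  have hopen : IsOpen (ei Ω) := by
    rw [Metric.isOpen_iff]
    rintro P ⟨r, hr, h0⟩
    refine ⟨r, hr, ?_⟩
    intro Q hQ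
    obtain ⟨δ, hδ, hδ2⟩ := Metric.isOpen_iff.1 isOpen_ball Q hQ
    refine ⟨δ, hδ, measure_mono_null (sdiff_subset_sdiff_left hδ2) h0⟩
  have hcl : ei Ω ⊆ closure Ω := by
    rintro P ⟨r, hr, h0⟩
    rw [Metric.mem_closure_iff]
    intro ε hε
    by_contra hcon
    push Not at hcon
    have h1 : ball P (min ε r) ⊆ ball P r \ Ω := by
      intro Q hQ
      refine ⟨ball_subset_ball (min_le_right _ _) hQ, fun hQΩ => ?_⟩
      have h2 := hcon Q hQΩ
      rw [mem_ball, dist_comm] at hQ
      have h3 := lt_min_iff.1 hQ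
      linarith [h3.1]
    have h2 : volume (ball P (min ε r)) = 0 := measure_mono_null h1 h0
    have h3 : 0 < volume (ball P (min ε r)) := measure_ball_pos volume P (lt_min hε hr)
    exact h3.ne' h2
  have hnull : volume (ei Ω \ Ω) = 0 := by
    apply measure_null_of_locally_null
    rintro P ⟨⟨r, hr, h0⟩, _⟩
    refine ⟨ball P r \ Ω, ?_, h0⟩
    rw [mem_nhdsWithin]
    exact ⟨ball P r, isOpen_ball, mem_ball_self hr, fun Q hQ => ⟨hQ.1, hQ.2.2⟩⟩
  have hD1 : volume (D' \ Ω) = 0 := by
    refine measure_mono_null ?_ hsym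
    rw [Set.symmDiff_def]
    exact subset_union_right
  have hD2 : volume (Ω \ D') = 0 := by
    refine measure_mono_null ?_ hsym
    rw [Set.symmDiff_def]
    exact subset_union_left
  refine ⟨hopen, hB.closure.subset hcl, hsub, hnull, ?_, ?_⟩
  · apply le_antisymm
    · have h1 : ei Ω ⊆ Ω ∪ (ei Ω \ Ω) := by
        intro P hP
        by_cases h : P ∈ Ω
        · exact Or.inl h
        · exact Or.inr ⟨hP, h⟩
      calc volume (ei Ω) ≤ volume (Ω ∪ (ei Ω \ Ω)) := measure_mono h1
        _ ≤ volume Ω + volume (ei Ω \ Ω) := measure_union_le _ _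
        _ = volume Ω := by rw [hnull, add_zero]
    · exact measure_mono hsub
  · rintro w hw P ⟨r, hr, h0⟩
    have hw' : ‖w⁻¹‖ = 1 := by rw [norm_inv, hw, inv_one]
    refine ⟨r, hr, ?_⟩
    change volume (ball (rho c w P) r \ Ω) = 0
    have h1 : volume (ball P r \ D') = 0 := by
      have h2 : ball P r \ D' ⊆ (ball P r \ Ω) ∪ (Ω \ D') := by
        rintro Q ⟨hQ1, hQ2⟩
        by_cases h : Q ∈ Ω
        · exact Or.inr ⟨h, hQ2⟩
        · exact Or.inl ⟨hQ1, h⟩
      exact measure_mono_null h2 (measure_union_null h0 hD2)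
    have h3 : volume (rho c w⁻¹ ⁻¹' (ball P r \ D')) = 0 :=
      (mp c w⁻¹ hw').quasiMeasurePreserving.preimage_null h1
    have h4 : ball (rho c w P) r \ Ω ⊆ (rho c w⁻¹ ⁻¹' (ball P r \ D')) ∪ (D' \ Ω) := by
      rintro Q ⟨hQ1, hQ2⟩
      by_cases h : Q ∈ D'
      · exact Or.inr ⟨h, hQ2⟩
      · refine Or.inl ⟨?_, fun hcon => h ?_⟩
        · rw [mem_ball] at hQ1 ⊢
          have h5 := isom c w⁻¹ hw' Q (rho c w P)
          rw [inv c w hw] at h5
          rw [h5]
          exact hQ1
        · -- `rho w⁻¹ Q ∈ D'`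
          have h5 : ((rho c w⁻¹ Q).1 - c, (rho c w⁻¹ Q).2) ∈ D := hcon
          have h6 := hD w hw _ h5
          have hw0 : w ≠ 0 := by
            intro h
            rw [h, norm_zero] at hw
            norm_num at hw
          have h7 : ((w * ((rho c w⁻¹ Q).1 - c) : ℂ), (rho c w⁻¹ Q).2) = (Q.1 - c, Q.2) := by
            unfold rho
            ext1
            · simp only [add_sub_cancel_right]
              rw [← mul_assoc, mul_inv_cancel₀ hw0, one_mul]
            · rfl
          change (Q.1 - c, Q.2) ∈ D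
          rw [← h7]
          exact h6
    exact measure_mono_null h4 (measure_union_null h3 hD1)

end MGS
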