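import Pool.Agent.MGS.TD

/-!
# MGS: the symmetrization of a nonnegative Lipschitz function (VLT)
-/

set_option autoImplicit false

open MeasureTheory Filter Topology Metric Set
open scoped ENNReal NNReal ContDiff

noncomputable section

namespace MGS

namespace VLT_

/-- a radius -/
theorem exists_R {f : X → ℝ} (h : HasCompactSupport f) :
    ∃ R : ℝ, 0 < R ∧ ∀ P, R ≤ ‖P‖ → f P = 0 := by
  obtain ⟨R, hR0, hR⟩ := h.isBounded.exists_pos_norm_lt
  refine ⟨R, hR0, fun P hP => ?_⟩
  by_contra hne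
  exact absurd (hR P (subset_tsupport f hne)) (not_lt.2 hP)

theorem lip_slice {f : X → ℝ} {L : ℝ≥0} (hL : LipschitzWith L f) (z : ℝ) :
    LipschitzWith L (sl f z) := by
  refine LipschitzWith.of_dist_le_mul fun x y => ?_
  have := hL.dist_le_mul (x, z) (y, z)
  simpa [sl, Prod.dist_eq] using this

theorem slice_close {f : X → ℝ} {L : ℝ≥0} (hL : LipschitzWith L f) (z z' : ℝ) (x : ℂ) :
    sl f z x ≤ sl f z' x + L * |z - z'| := by
  have := hL.dist_le_mul (x, z) (x, z')
  rw [Prod.dist_eq] at this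
  simp only [dist_self] at this
  rw [max_eq_right dist_nonneg, Real.dist_eq, Real.dist_eq] at this
  have h2 := le_abs_self (f (x, z) - f (x, z'))
  unfold sl
  linarith

theorem lip_vs (h_LPR : T_LPR) (h_NXI : T_NXI) {f : X → ℝ} {L : ℝ≥0} {R C : ℝ}
    (hL : LipschitzWith L f) (hN : ∀ z, Nc R (sl f z)) (hC : ∀ P, f P ≤ C) :
    LipschitzWith (2 * L) (vs f) := by
  refine LipschitzWith.of_dist_le_mul fun P Q => ?_
  have h1 := h_LPR R L (sl f P.2) (hN _) (lip_slice hL _) ‖P.1‖ ‖Q.1‖ (norm_nonneg _)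
    (norm_nonneg _)
  have h2 := h_NXI R (L * |P.2 - Q.2|) C (sl f P.2) (sl f Q.2) (hN _) (hN _)
    (by positivity) (fun x => slice_close hL _ _ x) (fun x => hC _) ‖Q.1‖ (norm_nonneg _)
  have h3 := h_NXI R (L * |P.2 - Q.2|) C (sl f Q.2) (sl f P.2) (hN _) (hN _)
    (by positivity) (fun x => by
      have := slice_close hL Q.2 P.2 x
      rwa [abs_sub_comm] at this) (fun x => hC _) ‖Q.1‖ (norm_nonneg _)
  have h4 : |rr (sl f P.2) ‖Q.1‖ - rr (sl f Q.2) ‖Q.1‖| ≤ L * |P.2 - Q.2| := by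
    rw [abs_le]
    constructor <;> linarith
  have h5 : |‖P.1‖ - ‖Q.1‖| ≤ dist P Q := by
    refine (abs_norm_sub_norm_le _ _).trans ?_
    rw [← dist_eq_norm, Prod.dist_eq]
    exact le_max_left _ _
  have h6 : |P.2 - Q.2| ≤ dist P Q := by
    rw [← Real.dist_eq, Prod.dist_eq]
    exact le_max_right _ _
  have hL0 : (0 : ℝ) ≤ L := L.2
  rw [Real.dist_eq]
  have e : vs f P - vs f Q = (rr (sl f P.2) ‖P.1‖ - rr (sl f P.2) ‖Q.1‖) +
      (rr (sl f P.2) ‖Q.1‖ - rr (sl f Q.2) ‖Q.1‖) := by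
    unfold vs
    ring
  rw [e]
  refine (abs_add_le _ _).trans ?_
  push_cast
  nlinarith [mul_le_mul_of_nonneg_left h5 hL0, mul_le_mul_of_nonneg_left h6 hL0]

/-- the slice of a set -/
def ss (K : Set X) (z : ℝ) : Set ℂ := {x | (x, z) ∈ K}

theorem compact_ss {K : Set X} (hK : IsCompact K) (z : ℝ) : IsCompact (ss K z) := by
  have h1 : ss K z ⊆ Prod.fst '' K := fun x hx => ⟨(x, z), hx, rfl⟩
  refine (hK.image continuous_fst).of_isClosed_subset ?_ h1
  exact hK.isClosed.preimage (by fun_prop : Continuous fun x : ℂ => ((x, z) : X))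

theorem open_ss {G : Set X} (hG : IsOpen G) (z : ℝ) : IsOpen (ss G z) :=
  hG.preimage (by fun_prop : Continuous fun x : ℂ => ((x, z) : X))

/-- upper semicontinuity of the areas of the slices of a compact set -/
theorem usc {K : Set X} (hK : IsCompact K) (z₀ : ℝ) {m : ℝ≥0∞} (hm : volume (ss K z₀) < m) :
    ∀ᶠ z in 𝓝 z₀, volume (ss K z) < m := by
  obtain ⟨U, hU1, hU2, hU3⟩ := (ss K z₀).exists_isOpen_lt_of_lt m hm
  have h1 : IsClosed (Prod.snd '' (K ∩ (Prod.fst ⁻¹' Uᶜ))) := by
    refine (IsCompact.image ?_ continuous_snd).isClosed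
    exact hK.inter_right (hU2.isClosed_compl.preimage continuous_fst)
  have h2 : z₀ ∈ (Prod.snd '' (K ∩ (Prod.fst ⁻¹' Uᶜ)))ᶜ := by
    rintro ⟨⟨x, z⟩, ⟨hx1, hx2⟩, hz⟩
    simp only at hz
    subst hz
    exact hx2 (hU1 hx1)
  filter_upwards [h1.isOpen_compl.mem_nhds h2] with z hz
  refine lt_of_le_of_lt (measure_mono fun x hx => ?_) hU3
  by_contra hxU
  exact hz ⟨(x, z), ⟨hx, hxU⟩, rfl⟩

theorem vs_ne {f : X → ℝ} {P : X} (hne : vs f P ≠ 0) (hK : IsCompact (tsupport f)) :
    Real.pi * ‖P.1‖ ^ 2 < (volume (ss (tsupport f) P.2)).toReal := by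
  have h1 : {s : ℝ | 0 ≤ s ∧ Real.pi * ‖P.1‖ ^ 2 < ar (sl f P.2) s}.Nonempty := by
    rw [Set.nonempty_iff_ne_empty]
    intro h
    refine hne ?_
    unfold vs rr
    rw [h, Real.sSup_empty]
  obtain ⟨s, hs0, hs⟩ := h1
  refine lt_of_lt_of_le hs ?_
  unfold ar
  refine ENNReal.toReal_mono (compact_ss hK _).measure_lt_top.ne (measure_mono fun x hx => ?_)
  refine subset_tsupport f ?_
  have : s < f (x, P.2) := hx
  exact (lt_of_le_of_lt hs0 this).ne'

/-- the slice of the compact set has smaller area than the slice of the open set -/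
theorem area_lt {G K : Set X} (hG : IsOpen G) (hGb : Bornology.IsBounded G) (hK : IsCompact K)
    (hKG : K ⊆ G) {z : ℝ} (hz : (ss K z).Nonempty) :
    (volume (ss K z)).toReal < (volume (ss G z)).toReal := by
  have hc := compact_ss hK z
  have ho := open_ss hG z
  have hsub : ss K z ⊆ ss G z := fun x hx => hKG hx
  have hfin : volume (ss G z) < ⊤ := by
    have hb : Bornology.IsBounded (Prod.fst '' G) := by
      obtain ⟨R, hR⟩ := hGb.exists_norm_le
      refine isBounded_iff_forall_norm_le.2 ⟨R, ?_⟩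
      rintro _ ⟨P, hP, rfl⟩
      exact (norm_fst_le P).trans (hR P hP)
    exact (hb.subset (fun x hx => ⟨(x, z), hx, rfl⟩ : ss G z ⊆ Prod.fst '' G)).measure_lt_top
  have hdo : IsOpen (ss G z \ ss K z) := ho.sdiff hc.isClosed
  have hdn : (ss G z \ ss K z).Nonempty := by
    rw [Set.nonempty_iff_ne_empty]
    intro h
    have h1 : ss G z = ss K z := Set.Subset.antisymm (Set.sdiff_eq_empty.1 h) hsub
    have hcl : IsClopen (ss K z) := ⟨hc.isClosed, h1 ▸ ho⟩
    rcases isClopen_iff.1 hcl with h2 | h2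
    · rw [h2] at hz
      exact Set.not_nonempty_empty hz
    · rw [h2] at hc
      exact noncompact_univ ℂ hc
  have hpos : 0 < volume (ss G z \ ss K z) := hdo.measure_pos volume hdn
  have hsplit : volume (ss G z) = volume (ss K z) + volume (ss G z \ ss K z) := by
    rw [← measure_union Set.disjoint_sdiff_right hdo.measurableSet, Set.union_sdiff_cancel hsub]
  rw [ENNReal.toReal_lt_toReal hc.measure_lt_top.ne hfin.ne, hsplit]
  exact ENNReal.lt_add_right hc.measure_lt_top.ne hpos.ne'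

end VLT_

open VLT_

theorem p_VLT (h_LPR : T_LPR) (h_NXI : T_NXI) (h_VSM : T_VSM) : T_VLT := by
  intro G f hG hGb hf hnn
  obtain ⟨L, hL⟩ := hf.lip
  obtain ⟨R, hR0, hR⟩ := exists_R hf.cpt
  have hNx : Nx R f := ⟨hL.continuous.measurable, hnn, hR⟩
  obtain ⟨hv1, -, -, -, hv5, -⟩ := h_VSM R f hNx
  have hK : IsCompact (tsupport f) := hf.cpt
  obtain ⟨C, hC⟩ := hL.continuous.bddAbove_range_of_hasCompactSupport hf.cpt
  have hC' : ∀ P, f P ≤ C := fun P => hC ⟨P, rfl⟩
  refine ⟨⟨_, lip_vs h_LPR h_NXI hL hv5 hC'⟩, ?_, ?_⟩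
  · refine HasCompactSupport.intro (isCompact_closedBall (0 : X) R) fun P hP => ?_
    refine hv1.z P ?_
    simp only [mem_closedBall, dist_zero_right, not_le] at hP
    exact hP.le
  · intro P hP
    have hP' : P ∈ closure (Function.support (vs f)) := hP
    -- the slice at `P.2` is nonempty
    have h1 : P.2 ∈ Prod.snd '' (tsupport f) := by
      have hcl : IsClosed (Prod.snd '' (tsupport f)) := (hK.image continuous_snd).isClosed
      have hs : Function.support (vs f) ⊆ Prod.snd ⁻¹' (Prod.snd '' (tsupport f)) := by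
        intro Q hQ
        have h2 := vs_ne hQ hK
        have h3 : (ss (tsupport f) Q.2).Nonempty := by
          rw [Set.nonempty_iff_ne_empty]
          intro h
          rw [h] at h2
          simp only [measure_empty, ENNReal.toReal_zero] at h2
          exact absurd h2 (not_lt.2 (by positivity))
        obtain ⟨y, hy⟩ := h3
        exact ⟨(y, Q.2), hy, rfl⟩
      exact closure_minimal hs (hcl.preimage continuous_snd) hP'
    have h2 : (ss (tsupport f) P.2).Nonempty := by
      obtain ⟨⟨y, z⟩, hy, hz⟩ := h1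
      simp only at hz
      refine ⟨y, ?_⟩
      show (y, P.2) ∈ tsupport f
      rw [← hz]
      exact hy
    have h3 := area_lt hG hGb hK hf.sub h2
    have h4 : Real.pi * ‖P.1‖ ^ 2 ≤ (volume (ss (tsupport f) P.2)).toReal := by
      by_contra hlt
      rw [not_le] at hlt
      obtain ⟨m, hm1, hm2⟩ := exists_between hlt
      have hfin : volume (ss (tsupport f) P.2) ≠ ⊤ := (compact_ss hK _).measure_lt_top.ne
      have hm0 : 0 ≤ m := ENNReal.toReal_nonneg.trans hm1.le
      have hm3 : volume (ss (tsupport f) P.2) < ENNReal.ofReal m := by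
        rw [← ENNReal.ofReal_toReal hfin]
        exact (ENNReal.ofReal_lt_ofReal_iff_of_nonneg ENNReal.toReal_nonneg).2 hm1
      have h5 : ∀ᶠ Q : X in 𝓝 P, volume (ss (tsupport f) Q.2) < ENNReal.ofReal m :=
        continuous_snd.continuousAt.eventually (usc hK P.2 hm3)
      have h6 : ∀ᶠ Q : X in 𝓝 P, m < Real.pi * ‖Q.1‖ ^ 2 := by
        have hcont : Continuous fun Q : X => Real.pi * ‖Q.1‖ ^ 2 := by fun_prop
        exact hcont.continuousAt.eventually (lt_mem_nhds hm2)
      obtain ⟨Q, hQ1, hQ2⟩ := (mem_closure_iff_frequently.1 hP').and_eventually (h5.and h6) |>.exists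
      have h7 := vs_ne hQ1 hK
      have h8 : (volume (ss (tsupport f) Q.2)).toReal ≤ m := by
        refine ENNReal.toReal_le_of_le_ofReal hm0 hQ2.1.le
      linarith [hQ2.2]
    exact lt_of_le_of_lt h4 h3

end MGS
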