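import Pool.Agent.MGS.TD

/-!
# MGS: proof of T_VSM from T_RR1 (helper59)
-/

set_option autoImplicit false

open MeasureTheory Filter Topology Metric Set
open scoped ENNReal NNReal ContDiff

noncomputable section

namespace MGS

theorem VSM_ar (f : X → ℝ) (hf : Measurable f) :
    Measurable (fun p : ℝ × ℝ => ar (sl f p.1) p.2) := by
  have hS : MeasurableSet {q : (ℝ × ℝ) × ℂ | q.1.2 < f (q.2, q.1.1)} := by
    refine measurableSet_lt (measurable_snd.comp measurable_fst) (hf.comp ?_)
    exact measurable_snd.prodMk (measurable_fst.comp measurable_fst)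
  exact (measurable_measure_prodMk_left hS).ennreal_toReal

theorem VSM_lev (f : X → ℝ) (hf : Measurable f) :
    Measurable (fun p : ℝ × ℝ => volume {y : ℂ | f (y, p.1) = p.2}) := by
  have hS : MeasurableSet {q : (ℝ × ℝ) × ℂ | f (q.2, q.1.1) = q.1.2} := by
    refine measurableSet_eq_fun (hf.comp ?_) (measurable_snd.comp measurable_fst)
    exact measurable_snd.prodMk (measurable_fst.comp measurable_fst)
  exact measurable_measure_prodMk_left hS

theorem VSM_slice (R : ℝ) (f : X → ℝ) (hf : Nx R f) (z : ℝ) : Nc R (sl f z) where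
  m := hf.m.comp (measurable_id.prodMk measurable_const)
  nn := fun x => hf.nn _
  z := fun x hx => hf.z _ (hx.trans (norm_fst_le (x, z)))

theorem VSM_fin (R : ℝ) (g : ℂ → ℝ) (hg : Nc R g) (s : ℝ) (hs : 0 ≤ s) :
    volume {x : ℂ | s < g x} < ⊤ := by
  refine lt_of_le_of_lt (measure_mono ?_) (measure_ball_lt_top (x := (0 : ℂ)) (r := R))
  intro x hx
  have h1 : s < g x := hx
  rw [mem_ball_zero_iff]
  by_contra h
  rw [hg.z x (not_lt.1 h)] at h1
  linarith

theorem VSM_anti (R : ℝ) (g : ℂ → ℝ) (hg : Nc R g) (s t : ℝ) (hs : 0 ≤ s) (hst : s ≤ t) :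
    ar g t ≤ ar g s := by
  refine ENNReal.toReal_mono (VSM_fin R g hg s hs).ne (measure_mono fun x hx => ?_)
  exact lt_of_le_of_lt hst hx

theorem VSM_nonneg (g : ℂ → ℝ) (t : ℝ) : 0 ≤ rr g t :=
  Real.sSup_nonneg fun _ hs => hs.1

/-- the value at the centre -/
theorem VSM_zero (R : ℝ) (g : ℂ → ℝ) (hg : Nc R g) (s : ℝ) (hs : 0 ≤ s) :
    s < rr g 0 ↔ 0 < ar g s ∧ ∃ n : ℕ, ar g n = 0 := by
  have hset : rr g 0 = sSup {s : ℝ | 0 ≤ s ∧ 0 < ar g s} := by
    unfold rr
    norm_num
  rw [hset]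
  constructor
  · intro h
    have hne : {s : ℝ | 0 ≤ s ∧ 0 < ar g s}.Nonempty := by
      by_contra h1
      rw [Set.not_nonempty_iff_eq_empty] at h1
      rw [h1, Real.sSup_empty] at h
      linarith
    have hbdd : BddAbove {s : ℝ | 0 ≤ s ∧ 0 < ar g s} := by
      by_contra h1
      rw [Real.sSup_of_not_bddAbove h1] at h
      linarith
    obtain ⟨s', ⟨h1, h2⟩, h3⟩ := exists_lt_of_lt_csSup hne h
    refine ⟨h2.trans_le (VSM_anti R g hg s s' hs h3.le), ?_⟩
    obtain ⟨M, hM⟩ := hbdd
    obtain ⟨n, hn⟩ := exists_nat_gt M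
    refine ⟨n, le_antisymm ?_ ENNReal.toReal_nonneg⟩
    by_contra h4
    have := hM ⟨Nat.cast_nonneg n, not_le.1 h4⟩
    linarith
  · rintro ⟨h1, n, hn⟩
    have hbdd : BddAbove {s : ℝ | 0 ≤ s ∧ 0 < ar g s} := by
      refine ⟨n, fun s' hs' => ?_⟩
      by_contra h4
      have := VSM_anti R g hg n s' (Nat.cast_nonneg n) (not_le.1 h4).le
      have := hs'.2
      linarith
    -- right continuity
    have h5 : ∃ k : ℕ, 0 < volume {x : ℂ | s + 1 / ((k : ℝ) + 1) < g x} := by
      by_contra h6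
      push Not at h6
      have h7 : {x : ℂ | s < g x} ⊆ ⋃ k : ℕ, {x : ℂ | s + 1 / ((k : ℝ) + 1) < g x} := by
        intro x hx
        have hx' : 0 < g x - s := sub_pos.2 hx
        obtain ⟨k, hk⟩ := exists_nat_one_div_lt hx'
        refine Set.mem_iUnion.2 ⟨k, ?_⟩
        show s + 1 / ((k : ℝ) + 1) < g x
        linarith
      have h8 : volume {x : ℂ | s < g x} = 0 := by
        refine measure_mono_null h7 (measure_iUnion_null fun k => ?_)
        exact le_antisymm (h6 k) bot_le
      have h9 : ar g s = 0 := by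
        unfold ar
        rw [h8]
        rfl
      linarith
    obtain ⟨k, hk⟩ := h5
    have hk0 : (0 : ℝ) < 1 / ((k : ℝ) + 1) := by positivity
    have h6 : 0 < ar g (s + 1 / ((k : ℝ) + 1)) :=
      ENNReal.toReal_pos hk.ne' (VSM_fin R g hg _ (by positivity)).ne
    have h7 := le_csSup hbdd (show s + 1 / ((k : ℝ) + 1) ∈ {s : ℝ | 0 ≤ s ∧ 0 < ar g s} from
      ⟨by positivity, h6⟩)
    linarith

theorem VSM_rr (h_RR1 : T_RR1) (R : ℝ) (f : X → ℝ) (hf : Nx R f) :
    Measurable (fun p : ℝ × ℝ => rr (sl f p.2) |p.1|) := by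
  have har := VSM_ar f hf.m
  have har' : ∀ s : ℝ, Measurable (fun p : ℝ × ℝ => ar (sl f p.2) s) := fun s =>
    har.comp (measurable_snd.prodMk measurable_const)
  refine measurable_of_Ioi fun s => ?_
  rcases lt_or_ge s 0 with hs | hs
  · have : (fun p : ℝ × ℝ => rr (sl f p.2) |p.1|) ⁻¹' Set.Ioi s = Set.univ := by
      ext p
      simp only [Set.mem_preimage, Set.mem_Ioi, Set.mem_univ, iff_true]
      exact hs.trans_le (VSM_nonneg _ _)
    rw [this]
    exact MeasurableSet.univ
  · have : (fun p : ℝ × ℝ => rr (sl f p.2) |p.1|) ⁻¹' Set.Ioi s =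
        {p : ℝ × ℝ | p.1 ≠ 0 ∧ Real.pi * p.1 ^ 2 < ar (sl f p.2) s} ∪
        {p : ℝ × ℝ | p.1 = 0 ∧ 0 < ar (sl f p.2) s ∧ ∃ n : ℕ, ar (sl f p.2) n = 0} := by
      ext p
      simp only [Set.mem_preimage, Set.mem_Ioi, Set.mem_union, Set.mem_ofPred_eq]
      by_cases hp : p.1 = 0
      · simp only [hp, ne_eq, not_true_eq_false, false_and, true_and, false_or, abs_zero]
        exact VSM_zero R _ (VSM_slice R f hf p.2) s hs
      · simp only [hp, ne_eq, not_false_eq_true, true_and, false_and, or_false]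
        have := ((h_RR1 R _ (VSM_slice R f hf p.2)).1 s |p.1| hs (abs_pos.2 hp))
        rw [this, sq_abs]
    rw [this]
    refine MeasurableSet.union ?_ ?_
    · refine MeasurableSet.inter ?_ ?_
      · exact (measurable_fst (measurableSet_singleton (0 : ℝ))).compl
      · exact measurableSet_lt ((measurable_fst.pow_const 2).const_mul _) (har' s)
    · refine MeasurableSet.inter ?_ (MeasurableSet.inter ?_ ?_)
      · exact measurable_fst (measurableSet_singleton (0 : ℝ))
      · exact measurableSet_lt measurable_const (har' s)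
      · have : {p : ℝ × ℝ | ∃ n : ℕ, ar (sl f p.2) n = 0} =
            ⋃ n : ℕ, {p : ℝ × ℝ | ar (sl f p.2) n = 0} := by
          ext p
          simp
        have h9 : MeasurableSet {p : ℝ × ℝ | ∃ n : ℕ, ar (sl f p.2) n = 0} := by
          rw [this]
          exact MeasurableSet.iUnion fun n => measurableSet_eq_fun (har' n) measurable_const
        exact h9

theorem p_VSM (h_RR1 : T_RR1) : T_VSM := by
  intro R f hf
  have har := VSM_ar f hf.m
  have hrr := VSM_rr h_RR1 R f hf
  refine ⟨⟨?_, ?_, ?_⟩, ?_, ?_, har, VSM_slice R f hf, hrr⟩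
  · have : vs f = (fun p : ℝ × ℝ => rr (sl f p.2) |p.1|) ∘ fun P : X => (‖P.1‖, P.2) := by
      funext P
      simp [vs]
    rw [this]
    exact hrr.comp ((measurable_fst.norm).prodMk measurable_snd)
  · intro P
    exact VSM_nonneg _ _
  · intro P hP
    by_cases h1 : R ≤ ‖P.1‖
    · exact (h_RR1 R _ (VSM_slice R f hf P.2)).2.2.2.2.z P.1 h1
    · have h2 : R ≤ ‖P.2‖ := by
        rw [Prod.norm_def] at hP
        rcases le_max_iff.1 hP with h3 | h3
        · exact absurd h3 h1
        · exact h3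
      have h3 : ∀ x, sl f P.2 x = 0 := fun x => hf.z _ (h2.trans (norm_snd_le (x, P.2)))
      have h4 : ∀ s, 0 ≤ s → ar (sl f P.2) s = 0 := by
        intro s hs
        unfold ar
        have : {x : ℂ | s < sl f P.2 x} = ∅ := by
          ext x
          simp only [Set.mem_ofPred_eq, Set.mem_empty_iff_false, iff_false, not_lt, h3]
          exact hs
        rw [this, measure_empty]
        rfl
      show sSup {s : ℝ | 0 ≤ s ∧ Real.pi * ‖P.1‖ ^ 2 < ar (sl f P.2) s} = 0
      have h5 : {s : ℝ | 0 ≤ s ∧ Real.pi * ‖P.1‖ ^ 2 < ar (sl f P.2) s} = ∅ := by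
        ext s
        simp only [Set.mem_ofPred_eq, Set.mem_empty_iff_false, iff_false, not_and, not_lt]
        intro hs
        rw [h4 s hs]
        positivity
      rw [h5, Real.sSup_empty]
  · have : rk f = fun P : X => Real.sqrt (ar (sl f P.2) (f P) / Real.pi) := rfl
    rw [this]
    exact ((har.comp (measurable_snd.prodMk hf.m)).div_const _).sqrt
  · have h1 : Measurable (fun P : X => volume {y : ℂ | f (y, P.2) = f P}) :=
      (VSM_lev f hf.m).comp (measurable_snd.prodMk hf.m)
    exact (measurableSet_lt measurable_const hf.m).inter (measurableSet_lt measurable_const h1)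

end MGS
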