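import Pool.Agent.MGS.TB

/-!
# MGS-WEX: multiplication with the weight
-/

set_option autoImplicit false

open MeasureTheory Filter Topology Metric Set
open scoped ENNReal NNReal ContDiff

noncomputable section

namespace MGS

namespace WEX_

/-- the weight -/
def E0 (B : ℝ) (P : X) : ℝ := Real.exp (B / 4 * ‖P.1‖ ^ 2)

lemma hasFDerivAt_E0 (B : ℝ) (P : X) : HasFDerivAt (E0 B)
    (Real.exp (B / 4 * ‖P.1‖ ^ 2) • ((B / 4) • ((2 : ℝ) • (innerSL ℝ P.1).comp
      (ContinuousLinearMap.fst ℝ ℂ ℝ)))) P := by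
  have h1 : HasFDerivAt (fun Q : X => Q.1) (ContinuousLinearMap.fst ℝ ℂ ℝ) P :=
    hasFDerivAt_fst
  have h2 : HasFDerivAt (fun Q : X => ‖Q.1‖ ^ 2)
      ((2 : ℝ) • (innerSL ℝ P.1).comp (ContinuousLinearMap.fst ℝ ℂ ℝ)) P := by
    have := h1.norm_sq
    exact this.congr_fderiv ((two_nsmul _).trans (two_smul ℝ _).symm)
  have h3 := (h2.const_mul (B / 4)).exp
  exact h3

lemma pd_E0 (B : ℝ) (P : X) (i : Fin 3) : pd e3 i (E0 B) P = E0 B P * (B / 2 * xc i P) := by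
  unfold pd
  rw [(hasFDerivAt_E0 B P).fderiv]
  have h : ∀ v : X, (Real.exp (B / 4 * ‖P.1‖ ^ 2) • ((B / 4) • ((2 : ℝ) • (innerSL ℝ P.1).comp
      (ContinuousLinearMap.fst ℝ ℂ ℝ)))) v =
      Real.exp (B / 4 * ‖P.1‖ ^ 2) * (B / 4 * (2 * inner ℝ P.1 v.1)) := fun v => rfl
  rw [h]
  unfold E0
  fin_cases i
  · simp [e3, xc, Complex.inner]
    ring
  · simp [e3, xc, Complex.inner]
    ring
  · simp [e3, xc]

lemma smooth_E0 (B : ℝ) : ContDiff ℝ ∞ (E0 B) := by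
  unfold E0
  exact ((contDiff_const.mul ((contDiff_norm_sq ℝ).comp contDiff_fst))).exp

theorem one (h_PRL : T_PRL) (h_ZRO : T_ZRO) (B : ℝ) (G : Set X) (f : X → ℝ)
    (F : Fin 3 → X → ℝ) (hG : IsOpen G) (hb : Bornology.IsBounded G) (h : H1 e3 G f F) :
    H1 e3 G (ww B f) (wF B f F) := by
  obtain ⟨R, hR0, hR⟩ := hb.subset_ball_lt 0 (0 : X)
  let χ : ContDiffBump (0 : X) := ⟨R, R + 1, hR0, by linarith⟩
  let θ : X → ℝ := fun P => χ P * E0 B P
  have hχ : ∀ P ∈ ball (0 : X) R, χ =ᶠ[𝓝 P] fun _ => (1 : ℝ) := by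
    intro P hP
    filter_upwards [isOpen_ball.mem_nhds hP] with Q hQ
    exact χ.one_of_mem_closedBall (ball_subset_closedBall hQ)
  have hθs : ContDiff ℝ ∞ θ := χ.contDiff.mul (smooth_E0 B)
  have hθc : HasCompactSupport θ := χ.hasCompactSupport.mul_right
  obtain ⟨K, hK⟩ : ∃ K : ℝ≥0, LipschitzWith K θ :=
    ContDiff.lipschitzWith_of_hasCompactSupport hθc hθs (by simp)
  obtain ⟨M, hM⟩ := hθc.exists_bound_of_continuous hθs.continuous
  have h1 := h_PRL X (Fin 3) e3 G G f F θ M hG h ⟨K, hK⟩ hM (Or.inl subset_rfl)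
  have hz := h_ZRO X (Fin 3) e3 G f F h
  refine h1.congr ?_ fun i => ?_
  · filter_upwards [hz] with P hP
    by_cases hPG : P ∈ G
    · have h2 : χ P = 1 := (hχ P (hR hPG)).eq_of_nhds
      show χ P * E0 B P * f P = ww B f P
      rw [h2, one_mul]
      rfl
    · rw [(hP hPG).1, mul_zero]
      unfold ww
      rw [(hP hPG).1, mul_zero]
  · filter_upwards [hz] with P hP
    by_cases hPG : P ∈ G
    · have h2 : χ P = 1 := (hχ P (hR hPG)).eq_of_nhds
      have h3 : θ =ᶠ[𝓝 P] E0 B := by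
        filter_upwards [hχ P (hR hPG)] with Q hQ
        show χ Q * E0 B Q = E0 B Q
        rw [hQ, one_mul]
      have h4 : pd e3 i θ P = pd e3 i (E0 B) P := by
        unfold pd
        rw [h3.fderiv_eq]
      show χ P * E0 B P * F i P + f P * pd e3 i θ P = wF B f F i P
      rw [h2, h4, pd_E0, one_mul]
      show Real.exp (B / 4 * ‖P.1‖ ^ 2) * F i P +
        f P * (Real.exp (B / 4 * ‖P.1‖ ^ 2) * (B / 2 * xc i P)) =
        Real.exp (B / 4 * ‖P.1‖ ^ 2) * (F i P + B / 2 * xc i P * f P)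
      ring
    · show θ P * F i P + f P * pd e3 i θ P = wF B f F i P
      unfold wF
      rw [(hP hPG).1, (hP hPG).2 i]
      ring

end WEX_

open WEX_ in
/-- WEX -/
theorem p_WEX (h_PRL : T_PRL) (h_ZRO : T_ZRO) : T_WEX := by
  intro B G f F hG hb h
  exact ⟨one h_PRL h_ZRO B G f F hG hb h, one h_PRL h_ZRO (-B) G f F hG hb h⟩

end MGS
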