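import Pool.Agent.MGS.TB

/-!
# MGS: target `WID` (the weighted form of the energy)

The weights cancel pointwise, so only the integration by parts of `∂_i (x_i f g)` is needed.
-/

set_option autoImplicit false

open MeasureTheory Filter Topology Metric Set
open scoped ENNReal NNReal ContDiff

noncomputable section

namespace MGS

namespace WID_

/-- a cut off linear function -/
theorem cut (G : Set X) (hb : Bornology.IsBounded G) (hG : IsOpen G) (L : X →L[ℝ] ℝ) :
    ∃ (θ : X → ℝ) (M : ℝ), (∃ K : ℝ≥0, LipschitzWith K θ) ∧ (∀ P, |θ P| ≤ M) ∧ Continuous θ ∧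
      (∀ P ∈ G, θ P = L P) ∧ ∀ P ∈ G, ∀ i, pd e3 i θ P = L (e3 i) := by
  obtain ⟨R, hR⟩ := hb.subset_closedBall 0
  let b : ContDiffBump (0 : X) := ⟨|R| + 1, |R| + 2, by positivity, by linarith⟩
  have hb1 : ∀ P ∈ G, b P = 1 := by
    intro P hP
    refine b.one_of_mem_closedBall ?_
    have h1 := hR hP
    rw [mem_closedBall_zero_iff] at h1 ⊢
    have := le_abs_self R
    show ‖P‖ ≤ |R| + 1
    linarith
  have hs : ContDiff ℝ ∞ (fun P => L P * b P) := L.contDiff.mul b.contDiff
  have hc : HasCompactSupport (fun P => L P * b P) := b.hasCompactSupport.mul_left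
  obtain ⟨M, hM⟩ := hc.exists_bound_of_continuous hs.continuous
  refine ⟨fun P => L P * b P, M, ?_, hM, hs.continuous, ?_, ?_⟩
  · exact hs.lipschitzWith_of_hasCompactSupport hc (by simp)
  · intro P hP
    show L P * b P = L P
    rw [hb1 P hP, mul_one]
  · intro P hP i
    have he : (fun P => L P * b P) =ᶠ[𝓝 P] L := by
      filter_upwards [hG.mem_nhds hP] with y hy
      rw [hb1 y hy, mul_one]
    unfold pd
    rw [he.fderiv_eq, L.fderiv]

theorem ibp (hZ : T_ZRO) (hP : T_PRL) (hI : T_IBH) (G : Set X) (f g : X → ℝ)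
    (F Γ : Fin 3 → X → ℝ) (hG : IsOpen G) (hb : Bornology.IsBounded G) (hf : H1 e3 G f F)
    (hg : H1 e3 G g Γ) (L : X →L[ℝ] ℝ) (i : Fin 3) (hL : L (e3 i) = 1) :
    Integrable (fun P => L P * (f P * Γ i P + g P * F i P)) ∧
    ∫ P, L P * (f P * Γ i P + g P * F i P) = -∫ P, f P * g P := by
  obtain ⟨θ, M, hK, hM, hc, h1, h2⟩ := cut G hb hG L
  have hθg := hP X (Fin 3) e3 G G g Γ θ M hG hg hK hM (Or.inl subset_rfl)
  have k := hI X (Fin 3) e3 G G f (fun P => θ P * g P) F
    (fun i P => θ P * Γ i P + g P * pd e3 i θ P) hf hθg i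
  have z := hZ X (Fin 3) e3 G f F hf
  have zg := hZ X (Fin 3) e3 G g Γ hg
  have i1 : Integrable (fun P => f P * Γ i P) := hf.1.integrable_mul (hg.2.1 i)
  have i2 : Integrable (fun P => g P * F i P) := hg.1.integrable_mul (hf.2.1 i)
  have i3 : Integrable (fun P => f P * g P) := hf.1.integrable_mul hg.1
  have j1 : Integrable (fun P => θ P * (f P * Γ i P)) :=
    i1.bdd_mul hc.aestronglyMeasurable (Eventually.of_forall hM)
  have j2 : Integrable (fun P => θ P * (g P * F i P)) :=
    i2.bdd_mul hc.aestronglyMeasurable (Eventually.of_forall hM)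
  have a1 : (fun P => θ P * (f P * Γ i P)) =ᵐ[volume] fun P => L P * (f P * Γ i P) := by
    filter_upwards [z] with P hz
    by_cases hPG : P ∈ G
    · rw [h1 P hPG]
    · rw [(hz hPG).1]
      simp
  have a2 : (fun P => θ P * (g P * F i P)) =ᵐ[volume] fun P => L P * (g P * F i P) := by
    filter_upwards [zg] with P hz
    by_cases hPG : P ∈ G
    · rw [h1 P hPG]
    · rw [(hz hPG).1]
      simp
  have l1 : Integrable (fun P => L P * (f P * Γ i P)) := j1.congr a1
  have l2 : Integrable (fun P => L P * (g P * F i P)) := j2.congr a2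
  have e0 : (fun P => L P * (f P * Γ i P + g P * F i P)) =
      fun P => L P * (f P * Γ i P) + L P * (g P * F i P) := by
    funext P
    ring
  have k1 : ∫ P, f P * (θ P * Γ i P + g P * pd e3 i θ P) =
      ∫ P, (L P * (f P * Γ i P) + f P * g P) := by
    refine integral_congr_ae ?_
    filter_upwards [z] with P hz
    by_cases hPG : P ∈ G
    · rw [h1 P hPG, h2 P hPG, hL]
      ring
    · rw [(hz hPG).1]
      simp
  have k2 : ∫ P, F i P * (θ P * g P) = ∫ P, L P * (g P * F i P) := by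
    rw [← integral_congr_ae a2]
    refine integral_congr_ae (Eventually.of_forall fun P => ?_)
    show F i P * (θ P * g P) = θ P * (g P * F i P)
    ring
  have k3 : ∫ P, f P * (θ P * Γ i P + g P * pd e3 i θ P) = -∫ P, F i P * (θ P * g P) := k
  rw [k1, k2, integral_add l1 i3] at k3
  rw [e0]
  refine ⟨l1.add l2, ?_⟩
  rw [integral_add l1 l2]
  linarith

theorem lin4 {A J K I : X → ℝ} (hA : Integrable A) (hJ : Integrable J) (hK : Integrable K)
    (hI : Integrable I) (c d : ℝ) :
    ∫ P, (A P + (c * J P + c * K P + d * I P)) =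
      (∫ P, A P) + (c * (∫ P, J P) + c * (∫ P, K P) + d * (∫ P, I P)) := by
  have h0 : Integrable (fun P => c * J P) := hJ.const_mul c
  have h1 : Integrable (fun P => c * K P) := hK.const_mul c
  have h2 : Integrable (fun P => d * I P) := hI.const_mul d
  have h3 : Integrable (fun P => c * J P + c * K P) := h0.add h1
  have h4 : Integrable (fun P => c * J P + c * K P + d * I P) := h3.add h2
  rw [integral_add hA h4, integral_add h3 h2, integral_add h0 h1, integral_const_mul,
    integral_const_mul, integral_const_mul]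

end WID_

theorem p_WID (hZ : T_ZRO) (hP : T_PRL) (hI : T_IBH) (hE : T_EQC) : T_WID := by
  intro B G f g F Γ hG hb hf hg
  have hVc : Continuous (VV B) := by
    unfold VV
    fun_prop
  obtain ⟨i1, i2, i3⟩ := (hE (VV B) G f F hf hVc hb).1 g Γ hg
  obtain ⟨j0, k0⟩ := WID_.ibp hZ hP hI G f g F Γ hG hb hf hg
    (Complex.reCLM.comp (ContinuousLinearMap.fst ℝ ℂ ℝ)) 0 (by simp [e3])
  obtain ⟨j1, k1⟩ := WID_.ibp hZ hP hI G f g F Γ hG hb hf hg
    (Complex.imCLM.comp (ContinuousLinearMap.fst ℝ ℂ ℝ)) 1 (by simp [e3])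
  have iS : Integrable (fun P => ∑ i : Fin 3, F i P * Γ i P) :=
    integrable_finsetSum _ fun i _ => i3 i
  have iA : Integrable (fun P => ∑ i : Fin 3, F i P * Γ i P + VV B P * (f P * g P)) :=
    iS.add i2
  have e : ∀ P : X, gm B P * (∑ i : Fin 3, wF B f F i P * wF B g Γ i P +
      B * (ww B f P * ww B g P)) =
      (∑ i : Fin 3, F i P * Γ i P + VV B P * (f P * g P)) +
      ((B / 2) * ((Complex.reCLM.comp (ContinuousLinearMap.fst ℝ ℂ ℝ)) P *
          (f P * Γ 0 P + g P * F 0 P)) +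
        (B / 2) * ((Complex.imCLM.comp (ContinuousLinearMap.fst ℝ ℂ ℝ)) P *
          (f P * Γ 1 P + g P * F 1 P)) + B * (f P * g P)) := by
    intro P
    have hx : gm B P * (Real.exp (B / 4 * ‖P.1‖ ^ 2) * Real.exp (B / 4 * ‖P.1‖ ^ 2)) = 1 := by
      unfold gm
      rw [← Real.exp_add, ← Real.exp_add, ← Real.exp_zero]
      congr 1
      ring
    have hn : ‖P.1‖ ^ 2 = P.1.re * P.1.re + P.1.im * P.1.im := by
      rw [← Complex.normSq_eq_norm_sq, Complex.normSq_apply]
    have hL0 : (Complex.reCLM.comp (ContinuousLinearMap.fst ℝ ℂ ℝ)) P = P.1.re := rfl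
    have hL1 : (Complex.imCLM.comp (ContinuousLinearMap.fst ℝ ℂ ℝ)) P = P.1.im := rfl
    have hx0 : xc 0 P = P.1.re := rfl
    have hx1 : xc 1 P = P.1.im := rfl
    have hx2 : xc 2 P = 0 := rfl
    rw [hL0, hL1]
    simp only [Fin.sum_univ_three, wF, ww, hx0, hx1, hx2, VV, hn]
    rw [hn] at hx
    set E := Real.exp (B / 4 * (P.1.re * P.1.re + P.1.im * P.1.im)) with hE'
    linear_combination ((F 0 P + B / 2 * P.1.re * f P) * (Γ 0 P + B / 2 * P.1.re * g P) +
      (F 1 P + B / 2 * P.1.im * f P) * (Γ 1 P + B / 2 * P.1.im * g P) +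
      (F 2 P + B / 2 * 0 * f P) * (Γ 2 P + B / 2 * 0 * g P) + B * (f P * g P)) * hx
  have eB : BQ (VV B) f F g Γ = ∫ P, (∑ i : Fin 3, F i P * Γ i P + VV B P * (f P * g P)) := rfl
  rw [eB, integral_congr_ae (Eventually.of_forall e)]
  rw [WID_.lin4 iA j0 j1 i1 (B / 2) B, k0, k1]
  ring

end MGS
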