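import Pool.Agent.MGS.TA

set_option autoImplicit false

open MeasureTheory Filter Topology Metric Set
open scoped ENNReal ContDiff

noncomputable section

namespace MGS

theorem p_WK (h_IBH : T_IBH) : T_WK := by
  intro G f F h
  refine ⟨h.1, h.2.1, fun i η hη hc => ?_⟩
  have ht : Test (Set.univ : Set X) η := ⟨hη, hc, Set.subset_univ _⟩
  exact h_IBH X (Fin 3) e3 G Set.univ f η F (fun i => pd e3 i η) h ht.h1 i

end MGS
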