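import Pool.Agent.MGS.TB

/-!
# MGS-WKE: the weak equation of a minimizer
-/

set_option autoImplicit false

open MeasureTheory Filter Topology Metric Set
open scoped ENNReal NNReal ContDiff

noncomputable section

namespace MGS

namespace WKE_

lemma int3 {u v w : X → ℝ} (a b : ℝ) (hu : Integrable u) (hv : Integrable v)
    (hw : Integrable w) : ∫ P, (u P + a * v P + b * w P) =
      (∫ P, u P) + a * (∫ P, v P) + b * ∫ P, w P := by
  have h1 : Integrable fun P => u P + a * v P := hu.add (hv.const_mul a)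
  rw [integral_add h1 (hw.const_mul b), integral_add hu (hv.const_mul a), integral_const_mul,
    integral_const_mul]

lemma expand_sq (q : X → ℝ) {G : Set X} {f g : X → ℝ} (t : ℝ)
    (hff : Integrable fun P => f P * f P) (hfg : Integrable fun P => f P * g P)
    (hgg : Integrable fun P => g P * g P) :
    ∫ P, (f P + t * g P) ^ 2 =
      (∫ P, f P ^ 2) + 2 * t * (∫ P, f P * g P) + t ^ 2 * ∫ P, g P ^ 2 := by
  have e1 : (fun P => (f P + t * g P) ^ 2) =
      fun P => (f P * f P + (2 * t) * (f P * g P)) + t ^ 2 * (g P * g P) := by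
    funext P; ring
  have e2 : (fun P => f P ^ 2) = fun P => f P * f P := by funext P; ring
  have e3 : (fun P => g P ^ 2) = fun P => g P * g P := by funext P; ring
  rw [e1, e2, e3]
  exact int3 _ _ hff hfg hgg

/-- the density of the bilinear form -/
def bd (q f : X → ℝ) (F : Fin 3 → X → ℝ) (g : X → ℝ) (Γ : Fin 3 → X → ℝ) (P : X) : ℝ :=
  ∑ i : Fin 3, F i P * Γ i P + q P * (f P * g P)

lemma expand_EQ (q : X → ℝ) {f g : X → ℝ} {F Γ : Fin 3 → X → ℝ} (t : ℝ)
    (hff : Integrable (bd q f F f F)) (hfg : Integrable (bd q f F g Γ))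
    (hgg : Integrable (bd q g Γ g Γ)) :
    EQ q (fun P => f P + t * g P) (fun i P => F i P + t * Γ i P) =
      EQ q f F + 2 * t * BQ q f F g Γ + t ^ 2 * EQ q g Γ := by
  have e1 : EQ q (fun P => f P + t * g P) (fun i P => F i P + t * Γ i P) =
      ∫ P, ((bd q f F f F P + (2 * t) * bd q f F g Γ P) + t ^ 2 * bd q g Γ g Γ P) := by
    unfold EQ
    congr 1
    funext P
    unfold bd
    simp only [Fin.sum_univ_three]
    ring
  have e2 : EQ q f F = ∫ P, bd q f F f F P := by
    unfold EQ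
    congr 1
    funext P
    unfold bd
    simp only [Fin.sum_univ_three]
    ring
  have e3 : EQ q g Γ = ∫ P, bd q g Γ g Γ P := by
    unfold EQ
    congr 1
    funext P
    unfold bd
    simp only [Fin.sum_univ_three]
    ring
  have e4 : BQ q f F g Γ = ∫ P, bd q f F g Γ P := rfl
  rw [e1, e2, e3, e4]
  exact int3 _ _ hff hfg hgg

end WKE_

open WKE_ in
theorem p_WKE (h_EQC : T_EQC) : T_WKE := by
  intro q G L f F hM φ Φ hφ
  have hf := hM.h
  obtain ⟨hint, -⟩ := h_EQC q G f F hf hM.adm.cont hM.adm.bounded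
  obtain ⟨hint', -⟩ := h_EQC q G φ Φ hφ hM.adm.cont hM.adm.bounded
  obtain ⟨a1, a2, a3⟩ := hint f F hf
  obtain ⟨b1, b2, b3⟩ := hint φ Φ hφ
  obtain ⟨c1, c2, c3⟩ := hint' φ Φ hφ
  have iff : Integrable (bd q f F f F) := (integrable_finsetSum _ fun i _ => a3 i).add a2
  have ifg : Integrable (bd q f F φ Φ) := (integrable_finsetSum _ fun i _ => b3 i).add b2
  have igg : Integrable (bd q φ Φ φ Φ) := (integrable_finsetSum _ fun i _ => c3 i).add c2
  set b := BQ q f F φ Φ - L * ∫ P, f P * φ P with hb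
  set a := EQ q φ Φ - L * ∫ P, φ P ^ 2 with ha
  have ha0 : 0 ≤ a := by
    have := (h_EQC q G φ Φ hφ hM.adm.cont hM.adm.bounded).2 L hM.adm
    rw [ha]
    linarith
  have key : ∀ t : ℝ, 0 ≤ 2 * t * b + t ^ 2 * a := by
    intro t
    have h1 : H1 e3 G (fun P => f P + t * φ P) (fun i P => F i P + t * Φ i P) :=
      hf.add (hφ.smul t)
    have h2 := (h_EQC q G _ _ h1 hM.adm.cont hM.adm.bounded).2 L hM.adm
    rw [expand_sq q (G := G) t a1 b1 c1, expand_EQ q t iff ifg igg] at h2
    have h3 := hM.le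
    rw [hb, ha]
    nlinarith
  have h4 := key (-b / (a + 1))
  have ha1 : 0 < a + 1 := by linarith
  have h5 : 2 * (-b / (a + 1)) * b + (-b / (a + 1)) ^ 2 * a = -(b ^ 2 * (a + 2)) / (a + 1) ^ 2 := by
    field_simp
    ring
  rw [h5] at h4
  have h6 : b ^ 2 = 0 := by
    by_contra hne
    have hpos : 0 < b ^ 2 := lt_of_le_of_ne (sq_nonneg b) (Ne.symm hne)
    have h7 : -(b ^ 2 * (a + 2)) / (a + 1) ^ 2 < 0 := by
      apply div_neg_of_neg_of_pos
      · have : 0 < b ^ 2 * (a + 2) := by positivity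
        linarith
      · positivity
    linarith
  have h7 : b = 0 := by
    exact pow_eq_zero_iff (two_ne_zero) |>.mp h6
  rw [hb] at h7
  linarith

end MGS
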