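import Pool.Agent.MGS.TB

/-!
# MGS: target WTE (the weighted equation of the ground state)
-/

set_option autoImplicit false

open MeasureTheory Filter Topology Metric Set
open scoped ENNReal NNReal ContDiff

noncomputable section

namespace MGS

namespace WTE_

lemma gm_cont (B : ℝ) : Continuous (gm B) := by
  unfold gm
  fun_prop

/-- integrability with the weight -/
lemma int_gm (B : ℝ) {G : Set X} (hG : Bornology.IsBounded G) {f g : X → ℝ}
    (hf : MemLp f 2 volume) (hg : MemLp g 2 volume) (hz : ∀ᵐ P, P ∉ G → f P = 0) :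
    Integrable (fun P => gm B P * (f P * g P)) := by
  obtain ⟨R, hR⟩ := hG.subset_closedBall (0 : X)
  obtain ⟨C, hC⟩ := (isCompact_closedBall (0 : X) R).exists_bound_of_continuousOn
    (gm_cont B).continuousOn
  have h1 : Integrable (fun P => f P * g P) := hf.integrable_mul hg
  have h2 : Integrable (fun P => (closedBall (0 : X) R).indicator (gm B) P * (f P * g P)) := by
    refine h1.bdd_mul (c := max C 0)
      ((gm_cont B).aestronglyMeasurable.indicator measurableSet_closedBall)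
      (Eventually.of_forall fun P => ?_)
    by_cases hP : P ∈ closedBall (0 : X) R
    · rw [indicator_of_mem hP]
      exact (hC P hP).trans (le_max_left _ _)
    · rw [indicator_of_notMem hP, norm_zero]
      exact le_max_right _ _
  refine h2.congr ?_
  filter_upwards [hz] with P hP
  by_cases hPR : P ∈ closedBall (0 : X) R
  · rw [indicator_of_mem hPR]
  · rw [indicator_of_notMem hPR, hP (fun h => hPR (hR h))]
    ring

lemma ww_inv (B : ℝ) (φ : X → ℝ) : ww B (ww (-B) φ) = φ := by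
  funext P
  unfold ww
  rw [← mul_assoc, ← Real.exp_add]
  have : B / 4 * ‖P.1‖ ^ 2 + -B / 4 * ‖P.1‖ ^ 2 = 0 := by ring
  rw [this, Real.exp_zero, one_mul]

lemma wF_inv (B : ℝ) (φ : X → ℝ) (Φ : Fin 3 → X → ℝ) (i : Fin 3) :
    wF B (ww (-B) φ) (wF (-B) φ Φ) i = Φ i := by
  funext P
  unfold wF ww
  have h1 : Real.exp (B / 4 * ‖P.1‖ ^ 2) * Real.exp (-B / 4 * ‖P.1‖ ^ 2) = 1 := by
    rw [← Real.exp_add]
    have : B / 4 * ‖P.1‖ ^ 2 + -B / 4 * ‖P.1‖ ^ 2 = 0 := by ring
    rw [this, Real.exp_zero]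
  calc _ = (Real.exp (B / 4 * ‖P.1‖ ^ 2) * Real.exp (-B / 4 * ‖P.1‖ ^ 2)) * Φ i P := by ring
    _ = Φ i P := by rw [h1, one_mul]

lemma gm_ww (B : ℝ) (v φ : X → ℝ) (P : X) :
    gm B P * (ww B v P * φ P) = v P * ww (-B) φ P := by
  unfold gm ww
  have h1 : Real.exp (-(B / 2 * ‖P.1‖ ^ 2)) * Real.exp (B / 4 * ‖P.1‖ ^ 2) =
      Real.exp (-B / 4 * ‖P.1‖ ^ 2) := by
    rw [← Real.exp_add]
    congr 1
    ring
  rw [← h1]
  ring

lemma gm_sq (B : ℝ) (φ : X → ℝ) (P : X) :
    gm B P * φ P ^ 2 = ww (-B) φ P ^ 2 := by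
  unfold gm ww
  have h1 : Real.exp (-(B / 2 * ‖P.1‖ ^ 2)) =
      Real.exp (-B / 4 * ‖P.1‖ ^ 2) * Real.exp (-B / 4 * ‖P.1‖ ^ 2) := by
    rw [← Real.exp_add]
    congr 1
    ring
  rw [h1]
  ring

end WTE_

open WTE_ in
/-- WTE -/
theorem p_WTE (h_ZRO : T_ZRO) (h_WEX : T_WEX) (h_WID : T_WID) (h_WEQ : T_WEQ) (h_EXR : T_EXR) :
    T_WTE := by
  intro B G v F hS hv φ Φ hφ
  have hg := (h_WEX B G φ Φ hS.isOpen hS.bounded hφ).2
  have hw := (h_WEX B G v F hS.isOpen hS.bounded hv.h).1
  have zφ := h_ZRO X (Fin 3) e3 G φ Φ hφ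
  have zφ0 : ∀ᵐ P, P ∉ G → φ P = 0 := by
    filter_upwards [zφ] with P hP hG
    exact (hP hG).1
  have zφi : ∀ i, ∀ᵐ P, P ∉ G → Φ i P = 0 := by
    intro i
    filter_upwards [zφ] with P hP hG
    exact (hP hG).2 i
  constructor
  · have h1 := h_WEQ B G v F hS hv _ _ hg
    have h2 := h_WID B G v (ww (-B) φ) F (wF (-B) φ Φ) hS.isOpen hS.bounded hv.h hg
    unfold BQ at h2
    rw [h1] at h2
    have h3 : ∀ i, Integrable (fun P => gm B P * (wF B v F i P * Φ i P)) := by
      intro i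
      have h4 := int_gm B hS.bounded (hφ.memLp' i) (hw.memLp' i) (zφi i)
      refine h4.congr (Eventually.of_forall fun P => ?_)
      show gm B P * (Φ i P * wF B v F i P) = gm B P * (wF B v F i P * Φ i P)
      ring
    have h5 : Integrable (fun P => gm B P * (ww B v P * φ P)) := by
      have h4 := int_gm B hS.bounded hφ.memLp hw.memLp zφ0
      refine h4.congr (Eventually.of_forall fun P => ?_)
      show gm B P * (φ P * ww B v P) = gm B P * (ww B v P * φ P)
      ring
    have h6 : Integrable (fun P => gm B P * ∑ i : Fin 3, wF B v F i P * Φ i P) := by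
      have h7 := integrable_finsetSum Finset.univ (fun i _ => h3 i)
      refine h7.congr (Eventually.of_forall fun P => ?_)
      show ∑ i : Fin 3, gm B P * (wF B v F i P * Φ i P) =
        gm B P * ∑ i : Fin 3, wF B v F i P * Φ i P
      rw [Finset.mul_sum]
    have h8 : ∫ P, gm B P * (∑ i : Fin 3, wF B v F i P * wF B (ww (-B) φ) (wF (-B) φ Φ) i P +
        B * (ww B v P * ww B (ww (-B) φ) P)) =
        (∫ P, gm B P * ∑ i : Fin 3, wF B v F i P * Φ i P) +
          B * ∫ P, gm B P * (ww B v P * φ P) := by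
      rw [← integral_const_mul, ← integral_add h6 (h5.const_mul B)]
      refine integral_congr_ae (Eventually.of_forall fun P => ?_)
      show gm B P * (∑ i : Fin 3, wF B v F i P * wF B (ww (-B) φ) (wF (-B) φ Φ) i P +
        B * (ww B v P * ww B (ww (-B) φ) P)) = gm B P * ∑ i : Fin 3, wF B v F i P * Φ i P +
          B * (gm B P * (ww B v P * φ P))
      simp only [ww_inv, wF_inv]
      ring
    have h9 : ∫ P, v P * ww (-B) φ P = ∫ P, gm B P * (ww B v P * φ P) :=
      integral_congr_ae (Eventually.of_forall fun P => (gm_ww B v φ P).symm)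
    rw [h8, h9] at h2
    linarith
  · have h1 := (h_EXR B G hS.isOpen hS.bounded hS.nonempty).2 _ _ hg
    have h2 := h_WID B G (ww (-B) φ) (ww (-B) φ) (wF (-B) φ Φ) (wF (-B) φ Φ) hS.isOpen
      hS.bounded hg hg
    unfold BQ at h2
    have h3 : ∀ i, Integrable (fun P => gm B P * (Φ i P * Φ i P)) := fun i =>
      int_gm B hS.bounded (hφ.memLp' i) (hφ.memLp' i) (zφi i)
    have h5 : Integrable (fun P => gm B P * (φ P * φ P)) :=
      int_gm B hS.bounded hφ.memLp hφ.memLp zφ0
    have h5' : Integrable (fun P => gm B P * φ P ^ 2) := by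
      refine h5.congr (Eventually.of_forall fun P => ?_)
      show gm B P * (φ P * φ P) = gm B P * φ P ^ 2
      ring
    have h6 : Integrable (fun P => gm B P * ∑ i : Fin 3, Φ i P ^ 2) := by
      have h7 := integrable_finsetSum Finset.univ (fun i _ => h3 i)
      refine h7.congr (Eventually.of_forall fun P => ?_)
      show ∑ i : Fin 3, gm B P * (Φ i P * Φ i P) = gm B P * ∑ i : Fin 3, Φ i P ^ 2
      rw [Finset.mul_sum]
      exact Finset.sum_congr rfl fun i _ => by ring
    have h8 : ∫ P, gm B P * (∑ i : Fin 3, wF B (ww (-B) φ) (wF (-B) φ Φ) i P *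
        wF B (ww (-B) φ) (wF (-B) φ Φ) i P +
        B * (ww B (ww (-B) φ) P * ww B (ww (-B) φ) P)) =
        (∫ P, gm B P * ∑ i : Fin 3, Φ i P ^ 2) + B * ∫ P, gm B P * φ P ^ 2 := by
      rw [← integral_const_mul, ← integral_add h6 (h5'.const_mul B)]
      refine integral_congr_ae (Eventually.of_forall fun P => ?_)
      show gm B P * (∑ i : Fin 3, wF B (ww (-B) φ) (wF (-B) φ Φ) i P *
        wF B (ww (-B) φ) (wF (-B) φ Φ) i P +
        B * (ww B (ww (-B) φ) P * ww B (ww (-B) φ) P)) =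
          gm B P * ∑ i : Fin 3, Φ i P ^ 2 + B * (gm B P * φ P ^ 2)
      simp only [ww_inv, wF_inv, ← pow_two]
      ring
    have h9 : ∫ P, ww (-B) φ P ^ 2 = ∫ P, gm B P * φ P ^ 2 :=
      integral_congr_ae (Eventually.of_forall fun P => (gm_sq B φ P).symm)
    have h10 : ER B (ww (-B) φ) (wF (-B) φ Φ) =
        ∫ P, (∑ i : Fin 3, wF (-B) φ Φ i P * wF (-B) φ Φ i P +
          VV B P * (ww (-B) φ P * ww (-B) φ P)) := by
      unfold ER
      simp only [← pow_two]
    rw [h9, h10, h2, h8] at h1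
    linarith

end MGS
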