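import Pool.Agent.MGS.TG

/-!
# MGS: ZCU, countable unions of sets of capacity zero (helper20)
-/

set_option autoImplicit false

open MeasureTheory Filter Topology Metric Set
open scoped ENNReal NNReal ContDiff

noncomputable section

namespace MGS

namespace ZCU_

/-- the norm in `L²` -/
theorem nsq (x : Lp ℝ 2 (volume : Measure X)) : ‖x‖ ^ 2 = ∫ P, x P ^ 2 := by
  rw [← real_inner_self_eq_norm_sq, MeasureTheory.L2.inner_def]
  refine integral_congr_ae (Eventually.of_forall fun P => ?_)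
  simp [sq]

theorem nsq' {f : X → ℝ} (h : MemLp f 2 volume) : ‖h.toLp f‖ ^ 2 = ∫ P, f P ^ 2 := by
  rw [nsq]
  refine integral_congr_ae ?_
  filter_upwards [h.coeFn_toLp] with P hP
  rw [hP]

theorem int_sq {f : X → ℝ} (h : MemLp f 2 volume) : Integrable (fun P => f P ^ 2) :=
  h.integrable_sq

theorem lim {u : ℕ → X → ℝ} (hu : ∀ n, MemLp (u n) 2 volume)
    {s : Lp ℝ 2 (volume : Measure X)} (hs : HasSum (fun n => (hu n).toLp (u n)) s) :
    Tendsto (fun N => eLpNorm (fun P => (∑ n ∈ Finset.range N, u n P) - s P) 2 volume) atTop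
      (𝓝 0) := by
  have h1 := (Lp.tendsto_Lp_iff_tendsto_eLpNorm' _ s).1 hs.tendsto_sum_nat
  refine h1.congr fun N => ?_
  refine eLpNorm_congr_ae ?_
  have h2 : ∀ N : ℕ, ⇑(∑ n ∈ Finset.range N, (hu n).toLp (u n)) =ᵐ[volume]
      fun P => ∑ n ∈ Finset.range N, u n P := by
    intro N
    induction N with
    | zero =>
      simp only [Finset.range_zero, Finset.sum_empty]
      exact Lp.coeFn_zero _ _ _
    | succ N ih =>
      rw [Finset.sum_range_succ]
      filter_upwards [ih, Lp.coeFn_add (∑ n ∈ Finset.range N, (hu n).toLp (u n))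
        ((hu N).toLp (u N)), (hu N).coeFn_toLp] with P h3 h4 h5
      rw [h4, Pi.add_apply, h3, h5, Finset.sum_range_succ]
  filter_upwards [h2 N] with P hP
  rw [Pi.sub_apply, hP]

theorem h1sum {φ : ℕ → X → ℝ} {F : ℕ → Fin 3 → X → ℝ} (h : ∀ n, H1 e3 univ (φ n) (F n)) (N : ℕ) :
    H1 e3 univ (fun P => ∑ n ∈ Finset.range N, φ n P)
      (fun i P => ∑ n ∈ Finset.range N, F n i P) := by
  induction N with
  | zero =>
    simp only [Finset.range_zero, Finset.sum_empty]
    exact H1.zero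
  | succ N ih =>
    simp only [Finset.sum_range_succ]
    exact ih.add (h N)

end ZCU_

open ZCU_ in
theorem p_ZCU : T_ZCU := by
  intro E hE ε hε
  set δ : ℕ → ℝ := fun n => Real.sqrt ε / 8 * (1 / 2) ^ n with hδ
  have hsε : 0 < Real.sqrt ε := Real.sqrt_pos.2 hε
  have hδ0 : ∀ n, 0 < δ n := fun n => by positivity
  have hsum : HasSum δ (Real.sqrt ε / 4) := by
    have h := hasSum_geometric_two.mul_left (Real.sqrt ε / 8)
    have e1 : Real.sqrt ε / 8 * 2 = Real.sqrt ε / 4 := by ring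
    rw [e1] at h
    exact h
  choose O φ F hO hEO hH hnn h1 hlt using fun n => hE n (δ n ^ 2) (by have := hδ0 n; positivity)
  have hu := fun n => (hH n).memLp
  have hU := fun (i : Fin 3) n => (hH n).memLp' i
  have hiφ : ∀ n, Integrable (fun P => φ n P ^ 2) := fun n => (hu n).integrable_sq
  have hiF : ∀ n i, Integrable (fun P => F n i P ^ 2) := fun n i => (hU i n).integrable_sq
  have hen : ∀ n, ∫ P, (φ n P ^ 2 + ∑ i, F n i P ^ 2) =
      (∫ P, φ n P ^ 2) + ∑ i, ∫ P, F n i P ^ 2 := by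
    intro n
    rw [integral_add (hiφ n) (integrable_finsetSum _ fun i _ => hiF n i),
      integral_finsetSum _ fun i _ => hiF n i]
  have hnφ : ∀ n, ‖(hu n).toLp (φ n)‖ ≤ δ n := by
    intro n
    have h2 : ‖(hu n).toLp (φ n)‖ ^ 2 ≤ δ n ^ 2 := by
      rw [nsq']
      have h3 : 0 ≤ ∑ i, ∫ P, F n i P ^ 2 :=
        Finset.sum_nonneg fun i _ => integral_nonneg fun P => sq_nonneg _
      have h4 := hlt n
      rw [hen] at h4
      linarith
    exact (pow_le_pow_iff_left₀ (norm_nonneg _) (hδ0 n).le two_ne_zero).1 h2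
  have hnF : ∀ i n, ‖(hU i n).toLp (F n i)‖ ≤ δ n := by
    intro i n
    have h2 : ‖(hU i n).toLp (F n i)‖ ^ 2 ≤ δ n ^ 2 := by
      rw [nsq']
      have h3 : ∫ P, F n i P ^ 2 ≤ ∑ i, ∫ P, F n i P ^ 2 :=
        Finset.single_le_sum (f := fun i => ∫ P, F n i P ^ 2)
          (fun i _ => integral_nonneg fun P => sq_nonneg _) (Finset.mem_univ i)
      have h4 := hlt n
      rw [hen] at h4
      have h5 : 0 ≤ ∫ P, φ n P ^ 2 := integral_nonneg fun P => sq_nonneg _
      linarith
    exact (pow_le_pow_iff_left₀ (norm_nonneg _) (hδ0 n).le two_ne_zero).1 h2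
  have hsφ : Summable fun n => (hu n).toLp (φ n) :=
    Summable.of_norm_bounded hsum.summable hnφ
  have hsF : ∀ i, Summable fun n => (hU i n).toLp (F n i) := fun i =>
    Summable.of_norm_bounded hsum.summable (hnF i)
  set s := ∑' n, (hu n).toLp (φ n) with hs
  set S : Fin 3 → Lp ℝ 2 (volume : Measure X) := fun i => ∑' n, (hU i n).toLp (F n i) with hS
  have hns : ‖s‖ ≤ Real.sqrt ε / 4 := tsum_of_norm_bounded hsum hnφ
  have hnS : ∀ i, ‖S i‖ ≤ Real.sqrt ε / 4 := fun i => tsum_of_norm_bounded hsum (hnF i)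
  have hlim : H1 e3 univ (fun P => s P) (fun i P => S i P) :=
    H1.lim (Lp.memLp s) (fun i => Lp.memLp (S i)) (fun N => h1sum hH N)
      (lim hu hsφ.hasSum) (fun i => lim (hU i) (hsF i).hasSum)
  have hpos : ∀ n, 0 ≤ (hu n).toLp (φ n) := by
    intro n
    rw [← Lp.coeFn_nonneg]
    filter_upwards [hnn n, (hu n).coeFn_toLp] with P h3 h4
    rw [h4]
    exact h3
  have hle : ∀ n, (hu n).toLp (φ n) ≤ s := fun n => hsφ.le_tsum n fun j _ => hpos j
  have hle' : ∀ᵐ P, ∀ n, φ n P ≤ s P := by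
    rw [ae_all_iff]
    intro n
    have h3 := (Lp.coeFn_le _ _).2 (hle n)
    filter_upwards [h3, (hu n).coeFn_toLp] with P h4 h5
    rw [← h5]
    exact h4
  refine ⟨⋃ n, O n, fun P => s P, fun i P => S i P, isOpen_iUnion hO,
    iUnion_mono hEO, hlim, ?_, ?_, ?_⟩
  · filter_upwards [hle', hnn 0] with P h3 h4
    exact h4.trans (h3 0)
  · filter_upwards [hle', ae_all_iff.2 h1] with P h3 h4 h5
    obtain ⟨n, hn⟩ := mem_iUnion.1 h5
    exact (h4 n hn).trans (h3 n)
  · have hi : ∀ i, Integrable (fun P => S i P ^ 2) := fun i => (Lp.memLp (S i)).integrable_sq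
    rw [integral_add (Lp.memLp s).integrable_sq (integrable_finsetSum _ fun i _ => hi i),
      integral_finsetSum _ fun i _ => hi i]
    have key : ∀ x : Lp ℝ 2 (volume : Measure X), ‖x‖ ≤ Real.sqrt ε / 4 →
        ∫ P, x P ^ 2 ≤ ε / 16 := by
      intro x hx
      rw [← nsq]
      have h3 : ‖x‖ ^ 2 ≤ (Real.sqrt ε / 4) ^ 2 := pow_le_pow_left₀ (norm_nonneg _) hx 2
      rw [div_pow, Real.sq_sqrt hε.le] at h3
      linarith
    have h3 := key s hns
    have h4 : ∑ i, ∫ P, S i P ^ 2 ≤ ∑ _i : Fin 3, ε / 16 :=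
      Finset.sum_le_sum fun i _ => key (S i) (hnS i)
    simp only [Finset.sum_const, Finset.card_univ, Fintype.card_fin, nsmul_eq_mul] at h4
    push_cast at h4
    linarith

end MGS
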