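import Pool.Agent.MGS.TD

/-!
# MGS: the vertical derivative of the symmetrization
-/

set_option autoImplicit false

open MeasureTheory Filter Topology Metric Set
open scoped ENNReal NNReal ContDiff

noncomputable section

namespace MGS

/-- the difference quotient in the vertical direction -/
def ZPL_D (h : ℝ) (u : X → ℝ) (P : X) : ℝ := (u (P + h • e3 2) - u P) / h

/-- the steps -/
def ZPL_h (n : ℕ) : ℝ := 1 / ((n : ℝ) + 1)

theorem ZPL_h_pos (n : ℕ) : 0 < ZPL_h n := by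
  unfold ZPL_h
  positivity

theorem ZPL_h_le (n : ℕ) : ZPL_h n ≤ 1 := by
  unfold ZPL_h
  rw [div_le_one (by positivity)]
  linarith [n.cast_nonneg (α := ℝ)]

theorem ZPL_e : e3 2 = ((0 : ℂ), (1 : ℝ)) := rfl

theorem ZPL_add (h : ℝ) (x : ℂ) (z : ℝ) : ((x, z) : X) + h • e3 2 = (x, z + h) := by
  rw [ZPL_e]
  ext <;> simp

theorem ZPL_norm (h : ℝ) : ‖h • e3 2‖ = |h| := by
  rw [norm_smul, ZPL_e, Prod.norm_def]
  simp

theorem ZPL_meas {u : X → ℝ} (hu : Continuous u) (h : ℝ) : Measurable (ZPL_D h u) := by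
  have : Continuous fun P : X => (u (P + h • e3 2) - u P) / h := by fun_prop
  exact this.measurable

theorem ZPL_lim {K : ℝ≥0} {u : X → ℝ} (hu : LipschitzWith K u) :
    ∀ᵐ P : X, Tendsto (fun n : ℕ => ZPL_D (ZPL_h n) u P) atTop (𝓝 (pd e3 2 u P)) := by
  have h1 : ∀ᵐ P : X, DifferentiableAt ℝ u P := hu.ae_differentiableAt
  filter_upwards [h1] with P hP
  have h2 : HasLineDerivAt ℝ u (fderiv ℝ u P (e3 2)) P (e3 2) :=
    hP.hasFDerivAt.hasLineDerivAt (e3 2)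
  have h3 := h2.tendsto_slope_zero
  have h4 : Tendsto ZPL_h atTop (𝓝[≠] 0) := by
    refine tendsto_nhdsWithin_iff.2 ⟨tendsto_one_div_add_atTop_nhds_zero_nat, ?_⟩
    exact Eventually.of_forall fun n => (ZPL_h_pos n).ne'
  refine (h3.comp h4).congr fun n => ?_
  simp only [Function.comp_apply, ZPL_D, smul_eq_mul, div_eq_inv_mul]

theorem ZPL_bd {K : ℝ≥0} {u : X → ℝ} (hu : LipschitzWith K u) {h : ℝ} (hh : 0 < h) (P : X) :
    |ZPL_D h u P| ≤ K := by
  unfold ZPL_D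
  rw [abs_div, abs_of_pos hh, div_le_iff₀ hh]
  have h1 := hu.dist_le_mul (P + h • e3 2) P
  rw [Real.dist_eq, dist_eq_norm, add_sub_cancel_left, ZPL_norm, abs_of_pos hh] at h1
  exact h1

theorem ZPL_out {u : X → ℝ} {R : ℝ} (hR : ∀ P, R ≤ ‖P‖ → u P = 0) {h : ℝ} (hh : 0 < h)
    (hh1 : h ≤ 1) {P : X} (hP : R + 1 ≤ ‖P‖) : ZPL_D h u P = 0 := by
  unfold ZPL_D
  rw [hR P (by linarith), hR (P + h • e3 2) ?_, sub_zero, zero_div]
  have h1 : ‖P‖ ≤ ‖P + h • e3 2‖ + ‖h • e3 2‖ := by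
    have := norm_sub_le (P + h • e3 2) (h • e3 2)
    rwa [add_sub_cancel_right] at this
  rw [ZPL_norm, abs_of_pos hh] at h1
  linarith

/-- the inequality for difference quotients -/
theorem ZPL_diff (hNEX : T_NEX) {f : X → ℝ} (hf : Continuous f) (hv : Continuous (vs f))
    (h0 : ∀ P, 0 ≤ f P) {R : ℝ} (hR : ∀ P, R ≤ ‖P‖ → f P = 0) (h : ℝ) :
    ∫⁻ P : X, ENNReal.ofReal (ZPL_D h (vs f) P ^ 2) ≤
      ∫⁻ P : X, ENNReal.ofReal (ZPL_D h f P ^ 2) := by
  have hc : ∀ z, Continuous (sl f z) := fun z => hf.comp (by fun_prop)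
  have hz : ∀ z x, R ≤ ‖x‖ → sl f z x = 0 := fun z x hx =>
    hR (x, z) (hx.trans (by rw [Prod.norm_def]; exact le_max_left _ _))
  have hN : ∀ z, Nc R (sl f z) := fun z =>
    { m := (hc z).measurable
      nn := fun x => h0 _
      z := hz z }
  have hL : ∀ z, MemLp (sl f z) 2 volume := fun z =>
    (hc z).memLp_of_hasCompactSupport (HasCompactSupport.intro (isCompact_closedBall 0 R)
      (fun x hx => hz z x (by
        rw [mem_closedBall, dist_zero_right, not_le] at hx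
        exact hx.le)))
  have hm : ∀ u : X → ℝ, Continuous u →
      Measurable fun P : X => ENNReal.ofReal (ZPL_D h u P ^ 2) := fun u hu =>
    ((ZPL_meas hu h).pow_const 2).ennreal_ofReal
  have e1 : ∀ u : X → ℝ, Continuous u →
      ∫⁻ P : X, ENNReal.ofReal (ZPL_D h u P ^ 2) =
        ∫⁻ z : ℝ, ∫⁻ x : ℂ, ENNReal.ofReal (ZPL_D h u (x, z) ^ 2) := by
    intro u hu
    have := lintegral_prod_symm' (μ := (volume : Measure ℂ)) (ν := (volume : Measure ℝ)) _
      (hm u hu)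
    exact this
  rw [e1 _ hv, e1 _ hf]
  refine lintegral_mono fun z => ?_
  have e2 : ∀ u : X → ℝ, Continuous u →
      ∫⁻ x : ℂ, ENNReal.ofReal (ZPL_D h u (x, z) ^ 2) =
        ENNReal.ofReal ((h⁻¹) ^ 2) * ∫⁻ x : ℂ, ENNReal.ofReal ((u (x, z + h) - u (x, z)) ^ 2) := by
    intro u hu
    have hcu : Continuous fun x : ℂ => (u (x, z + h) - u (x, z)) ^ 2 := by fun_prop
    rw [← lintegral_const_mul _ hcu.measurable.ennreal_ofReal]
    refine lintegral_congr fun x => ?_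
    rw [← ENNReal.ofReal_mul (by positivity)]
    congr 1
    unfold ZPL_D
    rw [ZPL_add]
    ring
  show ∫⁻ x : ℂ, ENNReal.ofReal (ZPL_D h (vs f) (x, z) ^ 2) ≤
    ∫⁻ x : ℂ, ENNReal.ofReal (ZPL_D h f (x, z) ^ 2)
  rw [e2 _ hv, e2 _ hf]
  refine mul_le_mul_right ?_ _
  exact hNEX R (sl f (z + h)) (sl f z) (hN _) (hN _) (hL _) (hL _)

theorem ZPL_int {u : X → ℝ} : ∫ P, pd e3 2 u P ^ 2 =
    (∫⁻ P, ENNReal.ofReal (pd e3 2 u P ^ 2)).toReal := by
  refine integral_eq_lintegral_of_nonneg_ae (Eventually.of_forall fun P => sq_nonneg _) ?_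
  have : Measurable (pd e3 2 u) := measurable_fderiv_apply_const ℝ u (e3 2)
  exact (this.pow_const 2).aestronglyMeasurable

theorem p_ZPL (hNEX : T_NEX) (hVLT : T_VLT) : T_ZPL := by
  intro Ω f hΩ hb hf h0
  obtain ⟨K, hK⟩ := hf.lip
  have hv := hVLT Ω f hΩ hb hf h0
  obtain ⟨K', hK'⟩ := hv.lip
  obtain ⟨R, hR⟩ : ∃ R : ℝ, ∀ P, R ≤ ‖P‖ → f P = 0 := by
    obtain ⟨R, hR⟩ := hf.cpt.isCompact.isBounded.exists_norm_le
    refine ⟨R + 1, fun P hP => ?_⟩
    by_contra h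
    have := hR P (subset_tsupport f h)
    linarith
  set bd : X → ℝ≥0∞ := (closedBall (0 : X) (R + 1)).indicator
    (fun _ => ENNReal.ofReal ((K : ℝ) ^ 2)) with hbd
  have hfin : ∫⁻ P, bd P ≠ ⊤ := by
    rw [hbd, lintegral_indicator measurableSet_closedBall, setLIntegral_const]
    exact ENNReal.mul_ne_top ENNReal.ofReal_ne_top measure_closedBall_lt_top.ne
  have hle : ∀ n P, ENNReal.ofReal (ZPL_D (ZPL_h n) f P ^ 2) ≤ bd P := by
    intro n P
    by_cases hP : P ∈ closedBall (0 : X) (R + 1)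
    · rw [hbd, indicator_of_mem hP]
      refine ENNReal.ofReal_le_ofReal ?_
      rw [← sq_abs]
      exact pow_le_pow_left₀ (abs_nonneg _) (ZPL_bd hK (ZPL_h_pos n) P) 2
    · rw [mem_closedBall, dist_zero_right, not_le] at hP
      rw [ZPL_out hR (ZPL_h_pos n) (ZPL_h_le n) hP.le]
      simp
  have hm : ∀ u : X → ℝ, Continuous u → ∀ n,
      Measurable fun P : X => ENNReal.ofReal (ZPL_D (ZPL_h n) u P ^ 2) := fun u hu n =>
    ((ZPL_meas hu _).pow_const 2).ennreal_ofReal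
  have hlim : ∀ (L : ℝ≥0) (u : X → ℝ), LipschitzWith L u → ∀ᵐ P : X,
      Tendsto (fun n : ℕ => ENNReal.ofReal (ZPL_D (ZPL_h n) u P ^ 2)) atTop
        (𝓝 (ENNReal.ofReal (pd e3 2 u P ^ 2))) := by
    intro L u hu
    filter_upwards [ZPL_lim hu] with P hP
    exact (ENNReal.continuous_ofReal.tendsto _).comp (hP.pow 2)
  have hB : Tendsto (fun n : ℕ => ∫⁻ P, ENNReal.ofReal (ZPL_D (ZPL_h n) f P ^ 2)) atTop
      (𝓝 (∫⁻ P, ENNReal.ofReal (pd e3 2 f P ^ 2))) :=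
    tendsto_lintegral_of_dominated_convergence bd (hm f hK.continuous)
      (fun n => Eventually.of_forall (hle n)) hfin (hlim K f hK)
  have hA : ∫⁻ P, ENNReal.ofReal (pd e3 2 (vs f) P ^ 2) ≤
      liminf (fun n : ℕ => ∫⁻ P, ENNReal.ofReal (ZPL_D (ZPL_h n) (vs f) P ^ 2)) atTop := by
    calc ∫⁻ P, ENNReal.ofReal (pd e3 2 (vs f) P ^ 2) =
        ∫⁻ P, liminf (fun n : ℕ => ENNReal.ofReal (ZPL_D (ZPL_h n) (vs f) P ^ 2)) atTop := by
          refine lintegral_congr_ae ?_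
          filter_upwards [hlim K' _ hK'] with P hP
          exact hP.liminf_eq.symm
      _ ≤ _ := lintegral_liminf_le (hm _ hK'.continuous)
  have hAB : liminf (fun n : ℕ => ∫⁻ P, ENNReal.ofReal (ZPL_D (ZPL_h n) (vs f) P ^ 2)) atTop ≤
      ∫⁻ P, ENNReal.ofReal (pd e3 2 f P ^ 2) := by
    rw [← hB.liminf_eq]
    exact liminf_le_liminf (Eventually.of_forall fun n =>
      ZPL_diff hNEX hK.continuous hK'.continuous h0 hR _)
  rw [ZPL_int, ZPL_int]
  refine ENNReal.toReal_mono ?_ (hA.trans hAB)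
  exact ne_top_of_le_ne_top hfin (le_of_tendsto' hB fun n => lintegral_mono (hle n))

end MGS
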