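import Pool.Agent.MGS.TA

/-!
# MGS: target ZRO (helper12)
-/

set_option autoImplicit false

open MeasureTheory Filter Topology Metric Set
open scoped ENNReal NNReal ContDiff

noncomputable section

namespace MGS

theorem ZRO_test_out {E : Type} [NormedAddCommGroup E] [NormedSpace ℝ E] {ι : Type} (e : ι → E)
    {G : Set E} {φ : E → ℝ} (h : Test G φ) {P : E} (hP : P ∉ G) :
    φ P = 0 ∧ ∀ i, pd e i φ P = 0 := by
  have h1 : P ∉ tsupport φ := fun h2 => hP (h.sub h2)
  refine ⟨image_eq_zero_of_notMem_tsupport h1, fun i => ?_⟩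
  have h3 : P ∉ tsupport (fderiv ℝ φ) := fun h2 => h1 (tsupport_fderiv_subset ℝ h2)
  unfold pd
  rw [image_eq_zero_of_notMem_tsupport h3]
  simp

/-- `f` and `F` vanish a.e. outside `G` -/
theorem p_ZRO : T_ZRO := by
  intro E _ _ _ _ _ _ ι _ e G f F h
  obtain ⟨φ, hφ, -, -, h1, h2⟩ := h.seq
  filter_upwards [h1, h2] with P hP1 hP2 hG
  constructor
  · refine tendsto_nhds_unique hP1 ?_
    have : (fun n => φ n P) = fun _ => (0 : ℝ) := by
      funext n
      exact (ZRO_test_out e (hφ n) hG).1
    rw [this]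
    exact tendsto_const_nhds
  · intro i
    refine tendsto_nhds_unique (hP2 i) ?_
    have : (fun n => pd e i (φ n) P) = fun _ => (0 : ℝ) := by
      funext n
      exact (ZRO_test_out e (hφ n) hG).2 i
    rw [this]
    exact tendsto_const_nhds

end MGS
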