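import Pool.Agent.MGS.P_ADU
import Pool.Agent.MGS.P_ALG
import Pool.Agent.MGS.P_ALL
import Pool.Agent.MGS.P_BCC
import Pool.Agent.MGS.P_BCH
import Pool.Agent.MGS.P_BM1
import Pool.Agent.MGS.P_BM2
import Pool.Agent.MGS.P_BOR
import Pool.Agent.MGS.P_BOX
import Pool.Agent.MGS.P_CAL
import Pool.Agent.MGS.P_CAP
import Pool.Agent.MGS.P_CMI
import Pool.Agent.MGS.P_CNE
import Pool.Agent.MGS.P_CNN
import Pool.Agent.MGS.P_CON
import Pool.Agent.MGS.P_CPK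
import Pool.Agent.MGS.P_CPX
import Pool.Agent.MGS.P_CST
import Pool.Agent.MGS.P_CTL
import Pool.Agent.MGS.P_CUR
import Pool.Agent.MGS.P_DFL
import Pool.Agent.MGS.P_DIC
import Pool.Agent.MGS.P_DQI
import Pool.Agent.MGS.P_DQL
import Pool.Agent.MGS.P_EG2
import Pool.Agent.MGS.P_EQC
import Pool.Agent.MGS.P_EQE
import Pool.Agent.MGS.P_EQM
import Pool.Agent.MGS.P_EQX
import Pool.Agent.MGS.P_EXG
import Pool.Agent.MGS.P_EXH
import Pool.Agent.MGS.P_EXM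
import Pool.Agent.MGS.P_EXR
import Pool.Agent.MGS.P_FIN
import Pool.Agent.MGS.P_FRI
import Pool.Agent.MGS.P_GAU
import Pool.Agent.MGS.P_GSM
import Pool.Agent.MGS.P_HAL
import Pool.Agent.MGS.P_IBH
import Pool.Agent.MGS.P_INT
import Pool.Agent.MGS.P_INV
import Pool.Agent.MGS.P_LBG
import Pool.Agent.MGS.P_LEB
import Pool.Agent.MGS.P_LGL
import Pool.Agent.MGS.P_LIP
import Pool.Agent.MGS.P_LLR
import Pool.Agent.MGS.P_LOG
import Pool.Agent.MGS.P_LPR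
import Pool.Agent.MGS.P_LPW
import Pool.Agent.MGS.P_LRG
import Pool.Agent.MGS.P_LVL
import Pool.Agent.MGS.P_M1
import Pool.Agent.MGS.P_M1C
import Pool.Agent.MGS.P_M1S
import Pool.Agent.MGS.P_M1T
import Pool.Agent.MGS.P_M1V
import Pool.Agent.MGS.P_M2
import Pool.Agent.MGS.P_M2C
import Pool.Agent.MGS.P_M2S
import Pool.Agent.MGS.P_M2V
import Pool.Agent.MGS.P_MAZ
import Pool.Agent.MGS.P_MNE
import Pool.Agent.MGS.P_MOD
import Pool.Agent.MGS.P_MON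
import Pool.Agent.MGS.P_NEX
import Pool.Agent.MGS.P_NPO
import Pool.Agent.MGS.P_NUL
import Pool.Agent.MGS.P_NWK
import Pool.Agent.MGS.P_NXI
import Pool.Agent.MGS.P_OST
import Pool.Agent.MGS.P_PHS
import Pool.Agent.MGS.P_POS
import Pool.Agent.MGS.P_PRB
import Pool.Agent.MGS.P_PRL
import Pool.Agent.MGS.P_PRT
import Pool.Agent.MGS.P_PSL
import Pool.Agent.MGS.P_RDE
import Pool.Agent.MGS.P_RDG
import Pool.Agent.MGS.P_RDT
import Pool.Agent.MGS.P_REL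
import Pool.Agent.MGS.P_RFR
import Pool.Agent.MGS.P_RIG
import Pool.Agent.MGS.P_RIN
import Pool.Agent.MGS.P_RKF
import Pool.Agent.MGS.P_RKV
import Pool.Agent.MGS.P_RR1
import Pool.Agent.MGS.P_RRD
import Pool.Agent.MGS.P_SHI
import Pool.Agent.MGS.P_SHW
import Pool.Agent.MGS.P_SLC
import Pool.Agent.MGS.P_SLI
import Pool.Agent.MGS.P_SLT
import Pool.Agent.MGS.P_SPL
import Pool.Agent.MGS.P_STC
import Pool.Agent.MGS.P_STL
import Pool.Agent.MGS.P_STR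
import Pool.Agent.MGS.P_SYM
import Pool.Agent.MGS.P_TRC
import Pool.Agent.MGS.P_TRL
import Pool.Agent.MGS.P_TRN
import Pool.Agent.MGS.P_UNI
import Pool.Agent.MGS.P_UNQ
import Pool.Agent.MGS.P_UNR
import Pool.Agent.MGS.P_USE
import Pool.Agent.MGS.P_VLT
import Pool.Agent.MGS.P_VSM
import Pool.Agent.MGS.P_WEX
import Pool.Agent.MGS.P_WID
import Pool.Agent.MGS.P_WK
import Pool.Agent.MGS.P_WKE
import Pool.Agent.MGS.P_WTE
import Pool.Agent.MGS.P_ZCT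
import Pool.Agent.MGS.P_ZCU
import Pool.Agent.MGS.P_ZPL
import Pool.Agent.MGS.P_ZRO

/-!
# MGS: assembly

Every step `p_X` of the project is applied to the previous ones.
-/

set_option autoImplicit false

noncomputable section

namespace MGS

theorem a_GAU : T_GAU := p_GAU
theorem a_ADU : T_ADU := p_ADU a_GAU
theorem a_ALG : T_ALG := p_ALG
theorem a_LIP : T_LIP := p_LIP
theorem a_BCC : T_BCC := p_BCC a_LIP
theorem a_BCH : T_BCH := p_BCH a_BCC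
theorem a_IBH : T_IBH := p_IBH
theorem a_UNI : T_UNI := p_UNI a_IBH
theorem a_BM1 : T_BM1 := p_BM1
theorem a_BM2 : T_BM2 := p_BM2 a_BM1
theorem a_RR1 : T_RR1 := p_RR1
theorem a_LPR : T_LPR := p_LPR a_BM2 a_RR1
theorem a_NXI : T_NXI := p_NXI
theorem a_VSM : T_VSM := p_VSM a_RR1
theorem a_VLT : T_VLT := p_VLT a_LPR a_NXI a_VSM
theorem a_M1S : T_M1S := p_M1S a_BM2
theorem a_CMI : T_CMI := p_CMI
theorem a_M1T : T_M1T := p_M1T a_M1S a_CMI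
theorem a_M1C : T_M1C := p_M1C a_M1T
theorem a_BOR : T_BOR := p_BOR
theorem a_M1 : T_M1 := p_M1 a_M1C a_BOR
theorem a_M2S : T_M2S := p_M2S
theorem a_M2C : T_M2C := p_M2C a_M2S
theorem a_ZRO : T_ZRO := p_ZRO
theorem a_M2 : T_M2 := p_M2 a_M2C a_BOR a_ALG a_ZRO
theorem a_RDG : T_RDG := p_RDG
theorem a_M2V : T_M2V := p_M2V a_IBH a_BCH a_RDG
theorem a_NUL : T_NUL := p_NUL a_BCH a_UNI
theorem a_M1V : T_M1V := p_M1V a_M2V a_NUL
theorem a_EQM : T_EQM := p_EQM a_RR1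
theorem a_RKV : T_RKV := p_RKV a_RR1
theorem a_MOD : T_MOD := p_MOD
theorem a_SLC : T_SLC := p_SLC a_RR1 a_M1 a_M2 a_M1V a_M2V a_EQM a_RKV a_NUL a_MOD
theorem a_TRL : T_TRL := p_TRL
theorem a_RDT : T_RDT := p_RDT a_TRL a_UNI
theorem a_PSL : T_PSL := p_PSL a_SLC a_ALG a_RDT
theorem a_NEX : T_NEX := p_NEX a_RR1 a_EQM
theorem a_ZPL : T_ZPL := p_ZPL a_NEX a_VLT
theorem a_SLI : T_SLI := p_SLI
theorem a_MAZ : T_MAZ := p_MAZ
theorem a_OST : T_OST := p_OST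
theorem a_SYM : T_SYM := p_SYM a_LIP a_BCH a_UNI a_VLT a_PSL a_ZPL a_NEX a_SLI a_MAZ a_OST a_VSM
theorem a_INT : T_INT := p_INT a_SLC a_SLI a_ALG a_VSM a_EQM a_RKV
theorem a_CAL : T_CAL := p_CAL a_SLI a_RDG a_RR1
theorem a_BOX : T_BOX := p_BOX
theorem a_REL : T_REL := p_REL a_BOX a_ZRO
theorem a_LBG : T_LBG := p_LBG a_ZRO
theorem a_EXG : T_EXG := p_EXG a_REL a_LBG
theorem a_LRG : T_LRG := p_LRG
theorem a_EXR : T_EXR := p_EXR a_EXG a_LBG a_LRG a_BCH a_ZRO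
theorem a_GSM : T_GSM := p_GSM a_EXR
theorem a_EQC : T_EQC := p_EQC a_ZRO
theorem a_WKE : T_WKE := p_WKE a_EQC
theorem a_WEQ : T_WEQ := p_WEQ a_GSM a_WKE
theorem a_PRL : T_PRL := p_PRL a_LIP
theorem a_PRB : T_PRB := p_PRB a_PRL
theorem a_MNE : T_MNE := p_MNE a_SYM a_MOD a_INT a_CAL a_WEQ a_BCH a_PRB a_VSM
theorem a_PRT : T_PRT := p_PRT a_BCH a_PRB
theorem a_TRN : T_TRN := p_TRN a_BCH a_PRT a_MOD
theorem a_RKF : T_RKF := p_RKF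
theorem a_EQX : T_EQX := p_EQX a_RR1 a_EQM a_RKV a_RKF a_VSM
theorem a_TRC : T_TRC := p_TRC a_MNE a_TRN a_ALG a_EQX a_RR1 a_VSM
theorem a_DFL : T_DFL := p_DFL a_EQX a_VSM
theorem a_EQE : T_EQE := p_EQE a_TRC a_DFL a_EQX a_ALG a_VSM
theorem a_LOG : T_LOG := p_LOG a_BCC a_PRL a_EQC a_WKE
theorem a_DIC : T_DIC := p_DIC
theorem a_LGL : T_LGL := p_LGL
theorem a_POS : T_POS := p_POS a_LOG a_DIC a_LGL a_BCH a_BOX a_ZRO
theorem a_UNR : T_UNR := p_UNR a_EQC a_WKE a_POS a_BCH a_ZRO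
theorem a_CON : T_CON := p_CON
theorem a_UNQ : T_UNQ := p_UNQ a_GSM a_UNR a_CON a_UNI
theorem a_EG2 : T_EG2 := p_EG2 a_EQE a_SYM a_MOD a_EQX a_UNQ a_VSM a_ALG
theorem a_LVL : T_LVL := p_LVL a_M1V a_EQM a_RKV
theorem a_CNE : T_CNE := p_CNE
theorem a_LPW : T_LPW := p_LPW
theorem a_RIG : T_RIG := p_RIG a_LVL a_CNE a_BCH a_LPW a_EQM a_RKV a_RKF a_RR1
theorem a_SLT : T_SLT := p_SLT a_EG2 a_EQE a_RIG a_SLI a_MOD a_EQM a_RKV a_TRL a_UNI a_OST a_VSM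
theorem a_PHS : T_PHS := p_PHS a_EQE
theorem a_CUR : T_CUR := p_CUR
theorem a_NWK : T_NWK := p_NWK a_IBH a_PRL
theorem a_CST : T_CST := p_CST
theorem a_GPO : T_GPO := p_GPO a_GSM a_POS a_CON
theorem a_NPO : T_NPO := p_NPO a_PRL a_EQC a_POS a_CON a_GSM a_GPO
theorem a_ALL : T_ALL := p_ALL a_SLT a_PHS a_CUR a_NWK a_CST a_NPO a_EG2 a_EQM a_MOD a_NUL a_UNI a_TRL a_OST
theorem a_USE : T_USE := p_USE
theorem a_CPK : T_CPK := p_CPK a_BCC a_PRL a_MOD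
theorem a_EXH : T_EXH := p_EXH
theorem a_ZCU : T_ZCU := p_ZCU
theorem a_WK : T_WK := p_WK a_IBH
theorem a_ZCT : T_ZCT := p_ZCT a_WK
theorem a_CAP : T_CAP := p_CAP a_ADU a_USE a_LOG a_CPK a_EXH a_ZCU a_ZCT a_MOD
theorem a_CPX : T_CPX := p_CPX
theorem a_EXM : T_EXM := p_EXM a_EXG a_LBG a_CPX a_ZRO
theorem a_SPL : T_SPL := p_SPL
theorem a_STC : T_STC := p_STC a_TRL a_ZRO
theorem a_FRI : T_FRI := p_FRI
theorem a_CNN : T_CNN := p_CNN a_EXM a_SPL a_STC a_FRI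
theorem a_CTL : T_CTL := p_CTL
theorem a_DQI : T_DQI := p_DQI
theorem a_DQL : T_DQL := p_DQL
theorem a_LLR : T_LLR := p_LLR
theorem a_LEB : T_LEB := p_LEB
theorem a_RRD : T_RRD := p_RRD
theorem a_INV : T_INV := p_INV a_UNQ a_TRL
theorem a_HAL : T_HAL := p_HAL a_LIP a_MAZ a_NUL a_BCH
theorem a_WEX : T_WEX := p_WEX a_PRL a_ZRO
theorem a_WID : T_WID := p_WID a_ZRO a_PRL a_IBH a_EQC
theorem a_WTE : T_WTE := p_WTE a_ZRO a_WEX a_WID a_WEQ a_EXR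
theorem a_SHW : T_SHW := p_SHW a_WTE a_TRL a_WEX
theorem a_SHI : T_SHI := p_SHI a_HAL a_SHW a_WTE a_INV a_WEX a_TRL
theorem a_MON : T_MON := p_MON a_SHI a_DQL a_CTL a_WEX
theorem a_STL : T_STL := p_STL a_MON a_DQL a_DQI a_CTL a_SHW a_WTE a_WEX a_BCC a_PRL a_BOX a_TRL
theorem a_STR : T_STR := p_STR a_STL a_MON a_DIC a_LGL a_CON a_DQI a_ZRO a_GPO a_WEX
theorem a_RIN : T_RIN := p_RIN
theorem a_RFR : T_RFR := p_RFR a_INV a_MON a_STR a_RIN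
theorem a_RDE : T_RDE := p_RDE a_EXR a_LEB a_RRD a_RFR a_INV a_MON a_DQI a_WEX a_GPO

/-- Every minimizer of the lowest magnetic Dirichlet eigenvalue is axisymmetric up to capacity. -/
theorem main_axisym (B : ℝ) (Ω : Set X) (hB : 0 < B) (h : IsMinimizer B Ω) : AxiSym Ω :=
  p_FIN a_CNN a_OST a_EXM a_LLR a_EQE a_RDE a_ALL a_CAP B Ω hB h

end MGS
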