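import Pool.Agent.MGS.Defs

/-!
# MGS: working definitions and basic facts (helper38)
-/

set_option autoImplicit false
set_option linter.unusedSectionVars false

open MeasureTheory Filter Topology Metric Set
open scoped ENNReal NNReal ContDiff

noncomputable section

namespace MGS

/-! ### Sobolev functions -/

/-- the two coordinate directions of the plane -/
def e2 (i : Fin 2) : ℂ := ![1, Complex.I] i

section gen

variable {E : Type} [NormedAddCommGroup E] [NormedSpace ℝ E]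

/-- real valued smooth functions with compact support in `G` -/
structure Test (G : Set E) (φ : E → ℝ) : Prop where
  smooth : ContDiff ℝ ∞ φ
  cpt : HasCompactSupport φ
  sub : tsupport φ ⊆ G

/-- Lipschitz functions with compact support in `G` -/
structure LTest (G : Set E) (φ : E → ℝ) : Prop where
  lip : ∃ K : ℝ≥0, LipschitzWith K φ
  cpt : HasCompactSupport φ
  sub : tsupport φ ⊆ G

/-- the derivative in the direction `e i` -/
def pd {ι : Type} (e : ι → E) (i : ι) (φ : E → ℝ) (P : E) : ℝ := fderiv ℝ φ P (e i)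

/-- `f ∈ H¹₀(G)` with gradient `F` (components in the directions `e i`): `f` and `F` are limits in
`L²` of test functions and their derivatives -/
def H1 [MeasureSpace E] {ι : Type} (e : ι → E) (G : Set E) (f : E → ℝ) (F : ι → E → ℝ) : Prop :=
  MemLp f 2 volume ∧ (∀ i, MemLp (F i) 2 volume) ∧ ∀ ε : ℝ≥0∞, ε ≠ 0 → ∃ φ, Test G φ ∧
    eLpNorm (fun P => φ P - f P) 2 volume ≤ ε ∧
    ∀ i, eLpNorm (fun P => pd e i φ P - F i P) 2 volume ≤ ε

theorem Test.mono {G G' : Set E} {φ : E → ℝ} (h : Test G φ) (hG : G ⊆ G') : Test G' φ :=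
  ⟨h.smooth, h.cpt, h.sub.trans hG⟩

theorem LTest.mono {G G' : Set E} {φ : E → ℝ} (h : LTest G φ) (hG : G ⊆ G') : LTest G' φ :=
  ⟨h.lip, h.cpt, h.sub.trans hG⟩

theorem Test.diff {G : Set E} {φ : E → ℝ} (h : Test G φ) : Differentiable ℝ φ :=
  h.smooth.differentiable (by simp)

theorem Test.fderiv_cont {G : Set E} {φ : E → ℝ} (h : Test G φ) : Continuous (fderiv ℝ φ) :=
  h.smooth.continuous_fderiv (by simp)

theorem Test.pd_cont {ι : Type} {e : ι → E} {G : Set E} {φ : E → ℝ} (h : Test G φ) (i : ι) :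
    Continuous (pd e i φ) := h.fderiv_cont.clm_apply continuous_const

theorem Test.pd_cpt {ι : Type} {e : ι → E} {G : Set E} {φ : E → ℝ} (h : Test G φ) (i : ι) :
    HasCompactSupport (pd e i φ) := h.cpt.fderiv_apply ℝ (e i)

theorem Test.zero {G : Set E} : Test G (fun _ : E => (0 : ℝ)) where
  smooth := contDiff_const
  cpt := HasCompactSupport.zero
  sub := by
    have : tsupport (fun _ : E => (0 : ℝ)) = ∅ := by
      rw [tsupport_eq_empty_iff]
      rfl
    rw [this]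
    exact Set.empty_subset _

theorem Test.add {G : Set E} {φ ψ : E → ℝ} (h : Test G φ) (h' : Test G ψ) :
    Test G (fun P => φ P + ψ P) where
  smooth := h.smooth.add h'.smooth
  cpt := h.cpt.add h'.cpt
  sub := (tsupport_add φ ψ).trans (Set.union_subset h.sub h'.sub)

theorem Test.smul {G : Set E} {φ : E → ℝ} (h : Test G φ) (c : ℝ) : Test G (fun P => c * φ P) where
  smooth := contDiff_const.mul h.smooth
  cpt := h.cpt.mul_left
  sub := (tsupport_mul_subset_right (f := fun _ => c) (g := φ)).trans h.sub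

theorem pd_add {ι : Type} {e : ι → E} {G : Set E} {φ ψ : E → ℝ} (h : Test G φ) (h' : Test G ψ)
    (i : ι) (P : E) : pd e i (fun P => φ P + ψ P) P = pd e i φ P + pd e i ψ P := by
  unfold pd
  have : fderiv ℝ (fun P => φ P + ψ P) P = fderiv ℝ φ P + fderiv ℝ ψ P :=
    fderiv_add (h.diff P) (h'.diff P)
  rw [this]
  rfl

theorem pd_smul {ι : Type} {e : ι → E} {G : Set E} {φ : E → ℝ} (h : Test G φ) (c : ℝ)
    (i : ι) (P : E) : pd e i (fun P => c * φ P) P = c * pd e i φ P := by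
  unfold pd
  have : fderiv ℝ (fun P => c * φ P) P = c • fderiv ℝ φ P := fderiv_const_mul (h.diff P) c
  rw [this]
  rfl

variable [MeasureSpace E] {ι : Type} {e : ι → E} {G : Set E} {f g : E → ℝ} {F Fg : ι → E → ℝ}

theorem H1.memLp (h : H1 e G f F) : MemLp f 2 volume := h.1

theorem H1.memLp' (h : H1 e G f F) (i : ι) : MemLp (F i) 2 volume := h.2.1 i

theorem H1.mono {G' : Set E} (h : H1 e G f F) (hG : G ⊆ G') : H1 e G' f F :=
  ⟨h.1, h.2.1, fun ε hε => by
    obtain ⟨φ, h1, h2⟩ := h.2.2 ε hε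
    exact ⟨φ, h1.mono hG, h2⟩⟩

theorem H1.congr (h : H1 e G f F) (hf : f =ᵐ[volume] g) (hF : ∀ i, F i =ᵐ[volume] Fg i) :
    H1 e G g Fg :=
  ⟨(memLp_congr_ae hf).1 h.1, fun i => (memLp_congr_ae (hF i)).1 (h.2.1 i), fun ε hε => by
    obtain ⟨φ, h1, h2, h3⟩ := h.2.2 ε hε
    refine ⟨φ, h1, ?_, fun i => ?_⟩
    · rw [← eLpNorm_congr_ae (f := fun P => φ P - f P) (g := fun P => φ P - g P)]
      · exact h2
      · filter_upwards [hf] with P hP
        rw [hP]
    · rw [← eLpNorm_congr_ae (f := fun P => pd e i φ P - F i P)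
        (g := fun P => pd e i φ P - Fg i P)]
      · exact h3 i
      · filter_upwards [hF i] with P hP
        rw [hP]⟩

section borel

variable [OpensMeasurableSpace E] [SecondCountableTopology E]
  [IsFiniteMeasureOnCompacts (volume : Measure E)]

theorem Test.memLp {φ : E → ℝ} (h : Test G φ) : MemLp φ 2 volume :=
  h.smooth.continuous.memLp_of_hasCompactSupport h.cpt

theorem Test.memLp_pd {φ : E → ℝ} (h : Test G φ) (i : ι) : MemLp (pd e i φ) 2 volume :=
  (h.pd_cont i).memLp_of_hasCompactSupport (h.pd_cpt i)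

theorem Test.h1 {φ : E → ℝ} (h : Test G φ) : H1 e G φ (fun i => pd e i φ) :=
  ⟨h.memLp, fun i => h.memLp_pd i, fun ε _ => ⟨φ, h, by simp, fun i => by simp⟩⟩

/-- `H¹₀(G)` is closed -/
theorem H1.closure (hf : MemLp f 2 volume) (hF : ∀ i, MemLp (F i) 2 volume)
    (h : ∀ ε : ℝ≥0∞, ε ≠ 0 → ∃ g Fg, H1 e G g Fg ∧
      eLpNorm (fun P => g P - f P) 2 volume ≤ ε ∧
      ∀ i, eLpNorm (fun P => Fg i P - F i P) 2 volume ≤ ε) : H1 e G f F := by
  refine ⟨hf, hF, fun ε hε => ?_⟩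
  have hε2 : ε / 2 ≠ 0 := (ENNReal.half_pos hε).ne'
  obtain ⟨g, Fg, hg, h1, h2⟩ := h (ε / 2) hε2
  obtain ⟨φ, hφ, h3, h4⟩ := hg.2.2 (ε / 2) hε2
  refine ⟨φ, hφ, ?_, fun i => ?_⟩
  · have e1 : (fun P => φ P - f P) = (fun P => φ P - g P) + fun P => g P - f P := by
      funext P
      simp
    rw [e1]
    refine (eLpNorm_add_le ((hφ.memLp.sub hg.1).1) ((hg.1.sub hf).1) (by norm_num)).trans ?_
    calc _ ≤ ε / 2 + ε / 2 := add_le_add h3 h1
      _ = ε := ENNReal.add_halves ε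
  · have e1 : (fun P => pd e i φ P - F i P) =
        (fun P => pd e i φ P - Fg i P) + fun P => Fg i P - F i P := by
      funext P
      simp
    rw [e1]
    refine (eLpNorm_add_le (((hφ.memLp_pd i).sub (hg.2.1 i)).1)
      (((hg.2.1 i).sub (hF i)).1) (by norm_num)).trans ?_
    calc _ ≤ ε / 2 + ε / 2 := add_le_add (h4 i) (h2 i)
      _ = ε := ENNReal.add_halves ε

/-- `H¹₀(G)` is closed under limits of sequences -/
theorem H1.lim {g : ℕ → E → ℝ} {Fg : ℕ → ι → E → ℝ} [Finite ι] (hf : MemLp f 2 volume)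
    (hF : ∀ i, MemLp (F i) 2 volume) (h : ∀ n, H1 e G (g n) (Fg n))
    (h1 : Tendsto (fun n => eLpNorm (fun P => g n P - f P) 2 volume) atTop (𝓝 0))
    (h2 : ∀ i, Tendsto (fun n => eLpNorm (fun P => Fg n i P - F i P) 2 volume) atTop (𝓝 0)) :
    H1 e G f F := by
  refine H1.closure hf hF fun ε hε => ?_
  have h3 := h1.eventually (ge_mem_nhds (pos_iff_ne_zero.2 hε))
  have h4 : ∀ᶠ n in atTop, ∀ i, eLpNorm (fun P => Fg n i P - F i P) 2 volume ≤ ε :=
    eventually_all.2 fun i => (h2 i).eventually (ge_mem_nhds (pos_iff_ne_zero.2 hε))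
  obtain ⟨n, hn1, hn2⟩ := (h3.and h4).exists
  exact ⟨g n, Fg n, h n, hn1, hn2⟩

theorem H1.zero : H1 e G (fun _ => 0) (fun _ _ => 0) := by
  have h : H1 e G (fun _ : E => (0 : ℝ)) (fun i => pd e i (fun _ : E => (0 : ℝ))) := Test.zero.h1
  refine h.congr (ae_eq_refl _) fun i => ?_
  refine Eventually.of_forall fun P => ?_
  simp [pd]

theorem H1.add (h : H1 e G f F) (h' : H1 e G g Fg) :
    H1 e G (fun P => f P + g P) (fun i P => F i P + Fg i P) := by
  refine ⟨h.1.add h'.1, fun i => (h.2.1 i).add (h'.2.1 i), fun ε hε => ?_⟩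
  have hε2 : ε / 2 ≠ 0 := (ENNReal.half_pos hε).ne'
  obtain ⟨φ, hφ, h1, h2⟩ := h.2.2 (ε / 2) hε2
  obtain ⟨ψ, hψ, h3, h4⟩ := h'.2.2 (ε / 2) hε2
  refine ⟨fun P => φ P + ψ P, hφ.add hψ, ?_, fun i => ?_⟩
  · have e1 : (fun P => φ P + ψ P - (f P + g P)) = (fun P => φ P - f P) + fun P => ψ P - g P := by
      funext P
      simp only [Pi.add_apply]
      ring
    rw [e1]
    refine (eLpNorm_add_le ((hφ.memLp.sub h.1).1) ((hψ.memLp.sub h'.1).1) (by norm_num)).trans ?_
    calc _ ≤ ε / 2 + ε / 2 := add_le_add h1 h3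
      _ = ε := ENNReal.add_halves ε
  · have e1 : (fun P => pd e i (fun P => φ P + ψ P) P - (F i P + Fg i P)) =
        (fun P => pd e i φ P - F i P) + fun P => pd e i ψ P - Fg i P := by
      funext P
      rw [pd_add hφ hψ]
      simp only [Pi.add_apply]
      ring
    rw [e1]
    refine (eLpNorm_add_le (((hφ.memLp_pd i).sub (h.2.1 i)).1)
      (((hψ.memLp_pd i).sub (h'.2.1 i)).1) (by norm_num)).trans ?_
    calc _ ≤ ε / 2 + ε / 2 := add_le_add (h2 i) (h4 i)
      _ = ε := ENNReal.add_halves ε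

theorem H1.smul (h : H1 e G f F) (c : ℝ) :
    H1 e G (fun P => c * f P) (fun i P => c * F i P) := by
  refine ⟨h.1.const_mul c, fun i => (h.2.1 i).const_mul c, fun ε hε => ?_⟩
  have hc : (‖c‖ₑ + 1) ≠ 0 := by simp
  have hc' : (‖c‖ₑ + 1) ≠ (⊤ : ℝ≥0∞) := by simp
  have hε2 : ε / (‖c‖ₑ + 1) ≠ 0 := ENNReal.div_ne_zero.2 ⟨hε, hc'⟩
  obtain ⟨φ, hφ, h1, h2⟩ := h.2.2 _ hε2
  have key : ∀ u : E → ℝ, eLpNorm u 2 volume ≤ ε / (‖c‖ₑ + 1) →
      eLpNorm (fun P => c * u P) 2 volume ≤ ε := by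
    intro u hu
    have e2 : (fun P => c * u P) = c • u := rfl
    rw [e2, eLpNorm_const_smul]
    calc ‖c‖ₑ * eLpNorm u 2 volume ≤ (‖c‖ₑ + 1) * (ε / (‖c‖ₑ + 1)) := by
          gcongr
          exact le_self_add
      _ = ε := ENNReal.mul_div_cancel hc hc'
  refine ⟨fun P => c * φ P, hφ.smul c, ?_, fun i => ?_⟩
  · have e1 : (fun P => c * φ P - c * f P) = fun P => c * (φ P - f P) := by
      funext P
      ring
    rw [e1]
    exact key _ h1
  · have e1 : (fun P => pd e i (fun P => c * φ P) P - c * F i P) =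
        fun P => c * (pd e i φ P - F i P) := by
      funext P
      rw [pd_smul hφ]
      ring
    rw [e1]
    exact key _ (h2 i)

theorem H1.sub (h : H1 e G f F) (h' : H1 e G g Fg) :
    H1 e G (fun P => f P - g P) (fun i P => F i P - Fg i P) := by
  have h1 := h.add (h'.smul (-1))
  refine h1.congr (Eventually.of_forall fun P => ?_) fun i => Eventually.of_forall fun P => ?_
  · show f P + -1 * g P = f P - g P
    ring
  · show F i P + -1 * Fg i P = F i P - Fg i P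
    ring

/-- approximating sequence of test functions which also converges almost everywhere -/
theorem H1.seq [Finite ι] (h : H1 e G f F) : ∃ φ : ℕ → E → ℝ, (∀ n, Test G (φ n)) ∧
    Tendsto (fun n => eLpNorm (fun P => φ n P - f P) 2 volume) atTop (𝓝 0) ∧
    (∀ i, Tendsto (fun n => eLpNorm (fun P => pd e i (φ n) P - F i P) 2 volume) atTop (𝓝 0)) ∧
    (∀ᵐ P, Tendsto (fun n => φ n P) atTop (𝓝 (f P))) ∧
    ∀ᵐ P, ∀ i, Tendsto (fun n => pd e i (φ n) P) atTop (𝓝 (F i P)) := by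
  have hpos : ∀ n : ℕ, ((n : ℝ≥0∞) + 1)⁻¹ ≠ 0 := fun n =>
    ENNReal.inv_ne_zero.2 (by finiteness)
  choose φ hφ h1 h2 using fun n : ℕ => h.2.2 _ (hpos n)
  have hz : Tendsto (fun n : ℕ => ((n : ℝ≥0∞) + 1)⁻¹) atTop (𝓝 0) := by
    have := ENNReal.tendsto_inv_nat_nhds_zero
    have h3 := this.comp (tendsto_add_atTop_nat 1)
    refine h3.congr fun n => ?_
    simp
  have t1 : Tendsto (fun n => eLpNorm (fun P => φ n P - f P) 2 volume) atTop (𝓝 0) :=
    tendsto_of_tendsto_of_tendsto_of_le_of_le tendsto_const_nhds hz (fun _ => zero_le) h1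
  have t2 : ∀ i, Tendsto (fun n => eLpNorm (fun P => pd e i (φ n) P - F i P) 2 volume) atTop
      (𝓝 0) := fun i =>
    tendsto_of_tendsto_of_tendsto_of_le_of_le tendsto_const_nhds hz (fun _ => zero_le)
      fun n => h2 n i
  have step : ∀ (u : ℕ → E → ℝ) (w : E → ℝ), (∀ n, MemLp (u n) 2 volume) → MemLp w 2 volume →
      Tendsto (fun n => eLpNorm (fun P => u n P - w P) 2 volume) atTop (𝓝 0) →
      ∃ ns : ℕ → ℕ, StrictMono ns ∧ ∀ᵐ P, Tendsto (fun n => u (ns n) P) atTop (𝓝 (w P)) := by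
    intro u w hu hw ht
    exact (tendstoInMeasure_of_tendsto_eLpNorm (by norm_num) (fun n => (hu n).1) hw.1
      ht).exists_seq_tendsto_ae
  obtain ⟨ns, hns, ha⟩ := step φ f (fun n => (hφ n).memLp) h.1 t1
  -- successive subsequences for the finitely many derivatives
  have key : ∀ s : Set ι, s.Finite → ∃ ms : ℕ → ℕ, StrictMono ms ∧
      ∀ i ∈ s, ∀ᵐ P, Tendsto (fun n => pd e i (φ (ns (ms n))) P) atTop (𝓝 (F i P)) := by
    intro s hs
    induction s, hs using Set.Finite.induction_on with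
    | empty => exact ⟨id, strictMono_id, fun i hi => absurd hi (Set.notMem_empty i)⟩
    | @insert i s _ _ ih =>
      obtain ⟨ms, hms, hm⟩ := ih
      obtain ⟨ks, hks, hk⟩ := step (fun n => pd e i (φ (ns (ms n)))) (F i)
        (fun n => (hφ _).memLp_pd i) (h.2.1 i)
        ((t2 i).comp ((hns.comp hms).tendsto_atTop))
      refine ⟨ms ∘ ks, hms.comp hks, ?_⟩
      intro j hj
      rcases Set.mem_insert_iff.1 hj with rfl | hj
      · exact hk
      · filter_upwards [hm j hj] with P hP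
        exact hP.comp hks.tendsto_atTop
  obtain ⟨ms, hms, hm⟩ := key Set.univ Set.finite_univ
  have hc : StrictMono (ns ∘ ms) := hns.comp hms
  refine ⟨fun n => φ (ns (ms n)), fun n => hφ _, t1.comp hc.tendsto_atTop,
    fun i => (t2 i).comp hc.tendsto_atTop, ?_, ?_⟩
  · filter_upwards [ha] with P hP
    exact hP.comp hms.tendsto_atTop
  · exact ae_all_iff.2 fun i => hm i (Set.mem_univ i)

end borel

end gen

/-! ### Energies and ground states -/

/-- `V = B²|x|²/4` -/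
def VV (B : ℝ) (P : X) : ℝ := (B / 2) ^ 2 * ‖P.1‖ ^ 2

/-- the energy `∫ |∇f|² + V f²` -/
def ER (B : ℝ) (f : X → ℝ) (F : Fin 3 → X → ℝ) : ℝ :=
  ∫ P, (∑ i : Fin 3, F i P ^ 2 + VV B P * f P ^ 2)

/-- the lowest eigenvalue of `-Δ + V` on `G` -/
def lamR (B : ℝ) (G : Set X) : ℝ :=
  sInf {r | ∃ φ : X → ℝ, Test G φ ∧ ∫ P, φ P ^ 2 = 1 ∧ ER B φ (fun i => pd e3 i φ) = r}

/-- the density of the magnetic energy in the direction `i` of `u = a + i b` -/
def em (B : ℝ) (a b : X → ℝ) (Fa Fb : Fin 3 → X → ℝ) (i : Fin 3) (P : X) : ℝ :=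
  (Fa i P - Ap B i P * b P) ^ 2 + (Fb i P + Ap B i P * a P) ^ 2

/-- the magnetic energy of `u = a + i b` -/
def EM (B : ℝ) (a b : X → ℝ) (Fa Fb : Fin 3 → X → ℝ) : ℝ := ∫ P, ∑ i, em B a b Fa Fb i P

/-- `a + i b` is a normalised ground state of the magnetic problem on `G` (with measurable
representatives which vanish outside `G`) -/
structure GM (B : ℝ) (G : Set X) (a b : X → ℝ) (Fa Fb : Fin 3 → X → ℝ) : Prop where
  ma : Measurable a
  mb : Measurable b
  mFa : ∀ i, Measurable (Fa i)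
  mFb : ∀ i, Measurable (Fb i)
  ha : H1 e3 G a Fa
  hb : H1 e3 G b Fb
  zero : ∀ P, P ∉ G → a P = 0 ∧ b P = 0 ∧ ∀ i, Fa i P = 0 ∧ Fb i P = 0
  nrm : ∫ P, (a P ^ 2 + b P ^ 2) = 1
  eq : EM B a b Fa Fb = lam B G

/-- `v` is a normalised nonnegative ground state of `-Δ + V` on `G` -/
structure GS (B : ℝ) (G : Set X) (v : X → ℝ) (F : Fin 3 → X → ℝ) : Prop where
  mv : Measurable v
  mF : ∀ i, Measurable (F i)
  h : H1 e3 G v F
  nn : ∀ P, 0 ≤ v P
  zero : ∀ P, P ∉ G → v P = 0 ∧ ∀ i, F i P = 0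
  nrm : ∫ P, v P ^ 2 = 1
  eq : ER B v F = lamR B G

/-! ### Rearrangement -/

/-- `|{g > s}|` -/
def ar (g : ℂ → ℝ) (s : ℝ) : ℝ := (volume {x : ℂ | s < g x}).toReal

/-- the decreasing rearrangement of `g`, as a function of the radius -/
def rr (g : ℂ → ℝ) (t : ℝ) : ℝ := sSup {s : ℝ | 0 ≤ s ∧ Real.pi * t ^ 2 < ar g s}

/-- the radius of the disc with the area of `{g > s}` -/
def rad (g : ℂ → ℝ) (s : ℝ) : ℝ := Real.sqrt (ar g s / Real.pi)

/-- the horizontal slice of `f` at height `z` -/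
def sl (f : X → ℝ) (z : ℝ) (x : ℂ) : ℝ := f (x, z)

/-- the slicewise Schwarz symmetrization of `f` -/
def vs (f : X → ℝ) (P : X) : ℝ := rr (sl f P.2) ‖P.1‖

/-- the rank radius of `f` -/
def rk (f : X → ℝ) (P : X) : ℝ := rad (sl f P.2) (f P)

/-- the points where `g > 0` lies on a plateau -/
def plt (g : ℂ → ℝ) : Set ℂ := {x | 0 < g x ∧ 0 < volume {y : ℂ | g y = g x}}

/-- the points where the slice of `f > 0` lies on a plateau -/
def pl (f : X → ℝ) : Set X := {P | 0 < f P ∧ 0 < volume {y : ℂ | f (y, P.2) = f P}}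

/-- the symmetrized domain -/
def Ost (G : Set X) : Set X :=
  {P | Real.pi * ‖P.1‖ ^ 2 < (volume {y : ℂ | (y, P.2) ∈ G}).toReal}

/-- measurable nonnegative functions on the plane vanishing outside the disc of radius `R` -/
structure Nc (R : ℝ) (g : ℂ → ℝ) : Prop where
  m : Measurable g
  nn : ∀ x, 0 ≤ g x
  z : ∀ x, R ≤ ‖x‖ → g x = 0

/-- measurable nonnegative functions on `ℂ × ℝ` vanishing outside a cylinder -/
structure Nx (R : ℝ) (f : X → ℝ) : Prop where
  m : Measurable f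
  nn : ∀ P, 0 ≤ f P
  z : ∀ P, R ≤ ‖P‖ → f P = 0

/-- length of the horizontal part of a gradient -/
def gx (F : Fin 3 → X → ℝ) (P : X) : ℝ := Real.sqrt (F 0 P ^ 2 + F 1 P ^ 2)

/-- length of a gradient in the plane -/
def gn (F : Fin 2 → ℂ → ℝ) (x : ℂ) : ℝ := Real.sqrt (F 0 x ^ 2 + F 1 x ^ 2)

/-- `|a + i b|` -/
def md {E : Type} (a b : E → ℝ) (P : E) : ℝ := Real.sqrt (a P ^ 2 + b P ^ 2)

/-- the gradient of `|a + i b|` -/
def mg {E ι : Type} (a b : E → ℝ) (Fa Fb : ι → E → ℝ) (i : ι) (P : E) : ℝ :=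
  (a P * Fa i P + b P * Fb i P) / md a b P

/-- bounded open sets which are star-shaped in the horizontal direction, with connected
projection -/
structure Star (G : Set X) : Prop where
  isOpen : IsOpen G
  bounded : Bornology.IsBounded G
  nonempty : G.Nonempty
  star : ∀ P ∈ G, ∀ x : ℂ, ‖x‖ ≤ ‖P.1‖ → (x, P.2) ∈ G
  conn : {z : ℝ | ((0 : ℂ), z) ∈ G}.OrdConnected

/-- the data of the radial ground state used for the calibration: `v1 (x, z) = V (|x|, z)` with
`V` nonincreasing in the radius, and horizontal gradient `-T (|x|, z) x / |x|` -/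
structure RD (B : ℝ) (G : Set X) (v : X → ℝ) (F : Fin 3 → X → ℝ) (V T : ℝ → ℝ → ℝ) : Prop where
  gs : GS B G v F
  mV : Measurable (Function.uncurry V)
  mT : Measurable (Function.uncurry T)
  nn : ∀ r z, 0 ≤ V r z
  nnT : ∀ r z, 0 ≤ T r z
  anti : ∀ z, AntitoneOn (fun r => V r z) (Set.Ioi 0)
  veq : ∀ P : X, v P = V ‖P.1‖ P.2
  geq : ∀ᵐ P : X, F 0 P = -(T ‖P.1‖ P.2 * P.1.re / ‖P.1‖) ∧ F 1 P = -(T ‖P.1‖ P.2 * P.1.im / ‖P.1‖)
  pos : ∀ᵐ P : X, P ∈ G → 0 < V ‖P.1‖ P.2 ∧ B / 2 * ‖P.1‖ * V ‖P.1‖ P.2 < T ‖P.1‖ P.2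

end MGS
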