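import Mathlib

/-!
# MGS: minimizers of the lowest magnetic Dirichlet eigenvalue in three dimensions (definitions)

MP_af99bf_an (helper38).  `ℝ³` is `ℂ × ℝ`: the point `(x₁, x₂, x₃)` is `(x₁ + i x₂, x₃)`; the
measure `volume` is Lebesgue measure.
-/

set_option autoImplicit false

open MeasureTheory Filter Topology Metric Set
open scoped ENNReal ContDiff

noncomputable section

namespace MGS

/-- `ℝ³` -/
abbrev X : Type := ℂ × ℝ

instance : (volume : Measure X).IsAddHaarMeasure :=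
  inferInstanceAs ((volume : Measure ℂ).prod (volume : Measure ℝ)).IsAddHaarMeasure

/-- the three coordinate directions -/
def e3 (i : Fin 3) : X := ![((1 : ℂ), (0 : ℝ)), (Complex.I, 0), (0, 1)] i

/-- the components of the vector potential `A(x) = (B/2) (-x₂, x₁, 0)` -/
def Ap (B : ℝ) (i : Fin 3) (P : X) : ℝ := ![-(B / 2) * P.1.im, (B / 2) * P.1.re, 0] i

/-- complex valued smooth functions with compact support in `G` -/
structure CTest (G : Set X) (u : X → ℂ) : Prop where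
  smooth : ContDiff ℝ ∞ u
  cpt : HasCompactSupport u
  sub : tsupport u ⊆ G

/-- the quadratic form `h[u] = ∫ |(-i∇ + A) u|²` -/
def form (B : ℝ) (u : X → ℂ) : ℝ :=
  ∫ P, ∑ i : Fin 3, ‖-Complex.I * fderiv ℝ u P (e3 i) + (Ap B i P : ℂ) * u P‖ ^ 2

/-- the lowest magnetic Dirichlet eigenvalue `λ₁(G, B)`, the infimum of `h[u]` over the
normalised `u ∈ C_c^∞(G)` -/
def lam (B : ℝ) (G : Set X) : ℝ :=
  sInf {r | ∃ u : X → ℂ, CTest G u ∧ ∫ P, ‖u P‖ ^ 2 = 1 ∧ form B u = r}

/-- `Ω` is a minimizer for field strength `B`: it is a (nonempty) bounded open set whose lowest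
eigenvalue is smallest among all bounded open sets of the same volume -/
structure IsMinimizer (B : ℝ) (Ω : Set X) : Prop where
  isOpen : IsOpen Ω
  bounded : Bornology.IsBounded Ω
  nonempty : Ω.Nonempty
  min : ∀ Ω' : Set X, IsOpen Ω' → Bornology.IsBounded Ω' → volume Ω' = volume Ω →
    lam B Ω ≤ lam B Ω'

/-- `φ ∈ H¹(ℝ³)` with weak gradient `F` -/
structure IsH1 (φ : X → ℝ) (F : Fin 3 → X → ℝ) : Prop where
  memLp : MemLp φ 2 volume
  memLp' : ∀ i, MemLp (F i) 2 volume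
  weak : ∀ (i : Fin 3) (η : X → ℝ), ContDiff ℝ ∞ η → HasCompactSupport η →
    ∫ P, φ P * fderiv ℝ η P (e3 i) = -∫ P, F i P * η P

/-- `E` has `H¹` capacity zero: for every `ε > 0` there is a function in `H¹(ℝ³)` which is `≥ 1`
a.e. in a neighbourhood of `E` and whose `H¹` norm squared is less than `ε` -/
def ZeroCap (E : Set X) : Prop := ∀ ε : ℝ, 0 < ε → ∃ (O : Set X) (φ : X → ℝ) (F : Fin 3 → X → ℝ),
  IsOpen O ∧ E ⊆ O ∧ IsH1 φ F ∧ (∀ᵐ P, P ∈ O → 1 ≤ φ P) ∧
  ∫ P, (φ P ^ 2 + ∑ i, F i P ^ 2) < ε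

/-- `Ω` is axisymmetric about the `z`-axis up to capacity: for some translation and some open set
`U` invariant under all rotations about the `z`-axis, `(τ + Ω) △ U` has capacity zero -/
def AxiSym (Ω : Set X) : Prop := ∃ (τ : X) (U : Set X), IsOpen U ∧
  (∀ w : ℂ, ‖w‖ = 1 → ∀ P ∈ U, (w * P.1, P.2) ∈ U) ∧
  ZeroCap (symmDiff ((fun P => τ + P) '' Ω) U)

end MGS
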