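import Pool.Agent.MGS.TG

/-! # MGS-ADU: the diamagnetic lower bound at a minimizer -/

set_option autoImplicit false

open MeasureTheory Filter Topology Metric Set
open scoped ENNReal NNReal ContDiff

noncomputable section

namespace MGS

theorem ADU_qc_cont (B : ℝ) (c : ℂ) : Continuous (qc B c) := by
  unfold qc
  fun_prop

theorem ADU_qc_nn (B : ℝ) (c : ℂ) (P : X) : 0 ≤ qc B c P := by
  unfold qc
  positivity

theorem ADU_EQ_nn (B : ℝ) (c : ℂ) (φ : X → ℝ) (F : Fin 3 → X → ℝ) :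
    0 ≤ EQ (qc B c) φ F := by
  unfold EQ
  refine integral_nonneg fun P => ?_
  have h1 := ADU_qc_nn B c P
  show 0 ≤ ∑ i : Fin 3, F i P ^ 2 + qc B c P * φ P ^ 2
  exact add_nonneg (Finset.sum_nonneg fun i _ => sq_nonneg _) (mul_nonneg h1 (sq_nonneg _))

theorem ADU_EQ_smul (B : ℝ) (c : ℂ) {G : Set X} {φ : X → ℝ} (h : Test G φ) (k : ℝ) :
    EQ (qc B c) (fun P => k * φ P) (fun i => pd e3 i (fun P => k * φ P)) =
      k ^ 2 * EQ (qc B c) φ (fun i => pd e3 i φ) := by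
  unfold EQ
  rw [← integral_const_mul]
  refine integral_congr_ae (Eventually.of_forall fun P => ?_)
  show ∑ i : Fin 3, pd e3 i (fun P => k * φ P) P ^ 2 + qc B c P * (k * φ P) ^ 2 =
    k ^ 2 * (∑ i : Fin 3, pd e3 i φ P ^ 2 + qc B c P * φ P ^ 2)
  simp only [pd_smul h]
  rw [mul_add, Finset.mul_sum]
  congr 1
  · refine Finset.sum_congr rfl fun i _ => ?_
    ring
  · ring

theorem p_ADU (h_GAU : T_GAU) : T_ADU := by
  intro B c Ω U hΩ hU hUb hvol
  refine ⟨hU, hUb, ADU_qc_cont B c, ADU_qc_nn B c, ?_⟩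
  intro φ hφ
  have hs0 : 0 ≤ ∫ P, φ P ^ 2 := integral_nonneg fun P => sq_nonneg _
  rcases hs0.eq_or_lt with hs | hs
  · rw [← hs, mul_zero]
    exact ADU_EQ_nn B c φ _
  · set s : ℝ := ∫ P, φ P ^ 2 with hsdef
    set k : ℝ := (Real.sqrt s)⁻¹ with hk
    have hk2 : k ^ 2 * s = 1 := by
      rw [hk, inv_pow, Real.sq_sqrt hs.le]
      exact inv_mul_cancel₀ hs.ne'
    obtain ⟨u, hu1, hu2, hu3⟩ := h_GAU B c U (fun P => k * φ P) (hφ.smul k)
    have h1 : ∫ P, ‖u P‖ ^ 2 = 1 := by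
      have : ∫ P, ‖u P‖ ^ 2 = ∫ P, k ^ 2 * φ P ^ 2 := by
        refine integral_congr_ae (Eventually.of_forall fun P => ?_)
        show ‖u P‖ ^ 2 = k ^ 2 * φ P ^ 2
        rw [hu2, sq_abs]
        ring
      rw [this, integral_const_mul]
      exact hk2
    have h2 : lam B U ≤ form B u := by
      unfold lam
      refine csInf_le ⟨0, ?_⟩ ⟨u, hu1, h1, rfl⟩
      rintro r ⟨u', _, _, rfl⟩
      unfold form
      refine integral_nonneg fun P => ?_
      exact Finset.sum_nonneg fun i _ => sq_nonneg _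
    have h3 : lam B Ω ≤ lam B U := hΩ.min U hU hUb hvol
    rw [hu3, ADU_EQ_smul B c hφ] at h2
    have h4 : lam B Ω ≤ k ^ 2 * EQ (qc B c) φ (fun i => pd e3 i φ) := h3.trans h2
    calc lam B Ω * s ≤ (k ^ 2 * EQ (qc B c) φ (fun i => pd e3 i φ)) * s :=
          mul_le_mul_of_nonneg_right h4 hs.le
      _ = (k ^ 2 * s) * EQ (qc B c) φ (fun i => pd e3 i φ) := by ring
      _ = EQ (qc B c) φ (fun i => pd e3 i φ) := by rw [hk2, one_mul]

end MGS
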