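import Pool.Agent.MGS.TG

/-!
# MGS: the part of a compact set outside the domain has capacity zero
-/

set_option autoImplicit false

open MeasureTheory Filter Topology Metric Set
open scoped ENNReal NNReal ContDiff Manifold

noncomputable section

namespace MGS

/-! ### energies -/

/-- the energy -/
def CPK_E (φ : X → ℝ) (F : Fin 3 → X → ℝ) : ℝ := ∫ P, (φ P ^ 2 + ∑ i, F i P ^ 2)

theorem CPK_int {φ : X → ℝ} {F : Fin 3 → X → ℝ} (h : MemLp φ 2 volume)
    (hF : ∀ i, MemLp (F i) 2 volume) : Integrable fun P => φ P ^ 2 + ∑ i, F i P ^ 2 :=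
  h.integrable_sq.add (integrable_finsetSum _ fun i _ => (hF i).integrable_sq)

theorem CPK_add {φ ψ : X → ℝ} {F G : Fin 3 → X → ℝ} (h : MemLp φ 2 volume)
    (hF : ∀ i, MemLp (F i) 2 volume) (h' : MemLp ψ 2 volume) (hG : ∀ i, MemLp (G i) 2 volume)
    (c : ℝ) :
    CPK_E (fun P => φ P + c * ψ P) (fun i P => F i P + c * G i P) ≤
      2 * CPK_E φ F + 2 * c ^ 2 * CPK_E ψ G := by
  unfold CPK_E
  rw [← integral_const_mul, ← integral_const_mul,
    ← integral_add ((CPK_int h hF).const_mul _) ((CPK_int h' hG).const_mul _)]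
  refine integral_mono (CPK_int (h.add (h'.const_mul c))
    (fun i => (hF i).add ((hG i).const_mul c)))
    (((CPK_int h hF).const_mul _).add ((CPK_int h' hG).const_mul _)) fun P => ?_
  simp only [Fin.sum_univ_three]
  nlinarith [sq_nonneg (φ P - c * ψ P), sq_nonneg (F 0 P - c * G 0 P),
    sq_nonneg (F 1 P - c * G 1 P), sq_nonneg (F 2 P - c * G 2 P)]

theorem CPK_lim {u : ℕ → X → ℝ} {w : X → ℝ} (hu : ∀ n, MemLp (u n) 2 volume)
    (hw : MemLp w 2 volume)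
    (h : Tendsto (fun n => eLpNorm (fun P => u n P - w P) 2 volume) atTop (𝓝 0)) :
    Tendsto (fun n => ∫ P, (w P - u n P) ^ 2) atTop (𝓝 0) := by
  have e : ∀ n, ∫ P, (w P - u n P) ^ 2 =
      (eLpNorm (fun P => u n P - w P) 2 volume).toReal ^ 2 := by
    intro n
    have hm : MemLp (fun P => u n P - w P) 2 volume := (hu n).sub hw
    have h0 : 0 ≤ ∫ P, (u n P - w P) ^ 2 := integral_nonneg fun P => sq_nonneg _
    have h1 : eLpNorm (fun P => u n P - w P) 2 volume =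
        ENNReal.ofReal (Real.sqrt (∫ P, (u n P - w P) ^ 2)) := by
      rw [hm.eLpNorm_eq_integral_rpow_norm (by norm_num) (by norm_num)]
      congr 1
      rw [Real.sqrt_eq_rpow]
      norm_num
    rw [h1, ENNReal.toReal_ofReal (Real.sqrt_nonneg _), Real.sq_sqrt h0]
    refine integral_congr_ae (Eventually.of_forall fun P => ?_)
    show (w P - u n P) ^ 2 = (u n P - w P) ^ 2
    ring
  simp_rw [e]
  have h2 := ((ENNReal.tendsto_toReal (a := 0) (by simp)).comp h).pow 2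
  simpa using h2

/-! ### cut-off functions -/

theorem CPK_cut {U K : Set X} (hU : IsOpen U) (hK : IsCompact K) (hKU : K ⊆ U) :
    ∃ (η : X → ℝ) (O : Set X), Test U η ∧ (∀ P, 0 ≤ η P) ∧ (∀ P, η P ≤ 1) ∧ IsOpen O ∧
      K ⊆ O ∧ ∀ P ∈ O, η P = 1 := by
  obtain ⟨L, hL, hKL, hLU⟩ := exists_compact_between hK hU hKU
  obtain ⟨f, h1, h0, h01⟩ := exists_contMDiffMap_one_nhds_of_subset_interior (n := (⊤ : ℕ∞))
    𝓘(ℝ, X) hK.isClosed hKL
  rw [eventually_nhdsSet_iff_exists] at h1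
  obtain ⟨O, hO, hKO, hO1⟩ := h1
  refine ⟨f, O, ⟨f.contMDiff.contDiff, HasCompactSupport.intro hL fun x hx => h0 x hx, ?_⟩,
    fun P => (h01 P).1, fun P => (h01 P).2, hO, hKO, fun P hP => hO1 P hP⟩
  refine (closure_minimal ?_ hL.isClosed).trans hLU
  intro x hx
  by_contra h
  exact hx (h0 x h)

/-- a large constant -/
def CPK_A (n : ℕ) : ℝ := Real.exp (((n : ℝ) + 1) ^ 2)

theorem CPK_A_pos (n : ℕ) : 0 < CPK_A n := Real.exp_pos _

/-- the logarithm -/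
def CPK_L (n : ℕ) (t : ℝ) : ℝ := 1 + (1 / ((n : ℝ) + 1)) * Real.log (1 + CPK_A n * t)

theorem CPK_one {n : ℕ} {t : ℝ} (ht : 0 ≤ t) : 1 ≤ 1 + CPK_A n * t := by
  have := mul_nonneg (CPK_A_pos n).le ht
  linarith

theorem CPK_L_ge {n : ℕ} {t : ℝ} (ht : 0 ≤ t) : 1 ≤ CPK_L n t := by
  unfold CPK_L
  have h1 := Real.log_nonneg (CPK_one (n := n) ht)
  have h2 : (0 : ℝ) ≤ 1 / ((n : ℝ) + 1) := by positivity
  have := mul_nonneg h2 h1
  linarith

/-- the derivative of `1 / L` -/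
def CPK_eta (n : ℕ) (t : ℝ) : ℝ :=
  -((1 / ((n : ℝ) + 1)) * (CPK_A n / (1 + CPK_A n * |t|))) / CPK_L n |t| ^ 2

theorem CPK_eta_cont (n : ℕ) : Continuous (CPK_eta n) := by
  have h1 : ∀ t : ℝ, 1 + CPK_A n * |t| ≠ 0 := fun t =>
    (lt_of_lt_of_le one_pos (CPK_one (abs_nonneg t))).ne'
  have h2 : Continuous fun t : ℝ => 1 + CPK_A n * |t| := by fun_prop
  have h3 : Continuous fun t : ℝ => CPK_L n |t| := by
    unfold CPK_L
    exact continuous_const.add (continuous_const.mul (h2.log h1))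
  unfold CPK_eta
  refine Continuous.div ?_ (h3.pow 2) fun t => ?_
  · exact (continuous_const.mul (continuous_const.div h2 h1)).neg
  · have := CPK_L_ge (n := n) (abs_nonneg t)
    positivity

theorem CPK_eta_bd (n : ℕ) (t : ℝ) :
    |CPK_eta n t| ≤ (1 / ((n : ℝ) + 1)) * (1 / (|t| + 1 / CPK_A n)) := by
  have hA := CPK_A_pos n
  have h1 := CPK_L_ge (n := n) (abs_nonneg t)
  have h2 := CPK_one (n := n) (abs_nonneg t)
  have h3 : CPK_A n / (1 + CPK_A n * |t|) = 1 / (|t| + 1 / CPK_A n) := by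
    field_simp
    ring
  have h4 : 0 ≤ (1 / ((n : ℝ) + 1)) * (1 / (|t| + 1 / CPK_A n)) := by positivity
  unfold CPK_eta
  rw [h3, abs_div, abs_neg, abs_of_nonneg h4, abs_of_nonneg (sq_nonneg (CPK_L n |t|))]
  exact div_le_self h4 (one_le_pow₀ h1)

theorem CPK_eta_le (n : ℕ) (t : ℝ) : |CPK_eta n t| ≤ CPK_A n := by
  have hA := CPK_A_pos n
  refine (CPK_eta_bd n t).trans ?_
  have h1 : 1 / (|t| + 1 / CPK_A n) ≤ CPK_A n := by
    rw [div_le_iff₀ (by positivity)]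
    have : CPK_A n * (|t| + 1 / CPK_A n) = CPK_A n * |t| + 1 := by
      field_simp
    rw [this]
    have := mul_nonneg hA.le (abs_nonneg t)
    linarith
  have h2 : 1 / ((n : ℝ) + 1) ≤ 1 := by
    rw [div_le_one (by positivity)]
    linarith [n.cast_nonneg (α := ℝ)]
  calc (1 / ((n : ℝ) + 1)) * (1 / (|t| + 1 / CPK_A n)) ≤ 1 * CPK_A n :=
        mul_le_mul h2 h1 (by positivity) one_pos.le
    _ = CPK_A n := one_mul _

theorem CPK_ftc (n : ℕ) {s : ℝ} (hs : 0 ≤ s) :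
    ∫ t in (0 : ℝ)..s, CPK_eta n t = 1 / CPK_L n s - 1 := by
  have h : ∀ t ∈ uIcc 0 s, HasDerivAt (fun t => 1 / CPK_L n t) (CPK_eta n t) t := by
    intro t ht
    rw [uIcc_of_le hs] at ht
    have h0 : 0 ≤ t := ht.1
    have h1 := CPK_one (n := n) h0
    have h2 := CPK_L_ge (n := n) h0
    have d1 : HasDerivAt (fun t => 1 + CPK_A n * t) (CPK_A n) t := by
      simpa using ((hasDerivAt_id t).const_mul (CPK_A n)).const_add 1
    have d2 : HasDerivAt (fun t => Real.log (1 + CPK_A n * t))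
        (CPK_A n / (1 + CPK_A n * t)) t := d1.log (by positivity)
    have d3 : HasDerivAt (CPK_L n)
        ((1 / ((n : ℝ) + 1)) * (CPK_A n / (1 + CPK_A n * t))) t :=
      (d2.const_mul (1 / ((n : ℝ) + 1))).const_add 1
    have d4 := d3.inv (by positivity)
    have e : (fun t => 1 / CPK_L n t) = (CPK_L n)⁻¹ := by
      funext t
      rw [one_div, Pi.inv_apply]
    rw [e]
    unfold CPK_eta
    rw [abs_of_nonneg h0]
    exact d4
  rw [intervalIntegral.integral_eq_sub_of_hasDerivAt h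
    ((CPK_eta_cont n).intervalIntegrable _ _)]
  congr 1
  simp [CPK_L]

theorem CPK_tau (n : ℕ) {s : ℝ} (hs : 0 ≤ s) :
    1 + ∫ t in (0 : ℝ)..s, CPK_eta n t = 1 / CPK_L n s := by
  rw [CPK_ftc n hs]
  ring

theorem CPK_tau_ge (n : ℕ) {s : ℝ} (hs : 0 ≤ s) : 1 ≤ 1 / CPK_L n s + CPK_A n * s := by
  have h1 := CPK_L_ge (n := n) hs
  have h2 : CPK_L n s - 1 ≤ CPK_A n * s := by
    unfold CPK_L
    have h3 : Real.log (1 + CPK_A n * s) ≤ CPK_A n * s := by
      have := Real.log_le_sub_one_of_pos (lt_of_lt_of_le one_pos (CPK_one (n := n) hs))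
      linarith
    have h4 : 1 / ((n : ℝ) + 1) ≤ 1 := by
      rw [div_le_one (by positivity)]
      linarith [n.cast_nonneg (α := ℝ)]
    have h5 := Real.log_nonneg (CPK_one (n := n) hs)
    have h6 := mul_le_mul_of_nonneg_right h4 h5
    linarith
  have h3 : 1 - 1 / CPK_L n s ≤ CPK_L n s - 1 := by
    have h4 : 0 < CPK_L n s := lt_of_lt_of_le one_pos h1
    have h5 : 1 / CPK_L n s * CPK_L n s = 1 := by
      field_simp
    have h6 : 0 < 1 / CPK_L n s := by positivity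
    nlinarith [sq_nonneg (CPK_L n s - 1), mul_pos h6 h4]
  linarith

theorem CPK_tau_lim {s : ℝ} (hs : 0 < s) :
    Tendsto (fun n : ℕ => 1 / CPK_L n s) atTop (𝓝 0) := by
  have h1 : Tendsto (fun n : ℕ => (n : ℝ) + 2 - |Real.log s|) atTop atTop :=
    tendsto_atTop_add_const_right _ _
      (tendsto_atTop_add_const_right _ _ tendsto_natCast_atTop_atTop)
  have h2 : ∀ n : ℕ, (n : ℝ) + 2 - |Real.log s| ≤ CPK_L n s := by
    intro n
    have hA := CPK_A_pos n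
    have hn : (0 : ℝ) < (n : ℝ) + 1 := by positivity
    have h3 : ((n : ℝ) + 1) ^ 2 + Real.log s ≤ Real.log (1 + CPK_A n * s) := by
      have h4 : Real.log (CPK_A n * s) = ((n : ℝ) + 1) ^ 2 + Real.log s := by
        rw [Real.log_mul hA.ne' hs.ne', CPK_A, Real.log_exp]
      rw [← h4]
      exact Real.log_le_log (by positivity) (by linarith)
    have h5 : (1 / ((n : ℝ) + 1)) * (((n : ℝ) + 1) ^ 2 + Real.log s) ≤
        (1 / ((n : ℝ) + 1)) * Real.log (1 + CPK_A n * s) :=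
      mul_le_mul_of_nonneg_left h3 (by positivity)
    have h6 : (1 / ((n : ℝ) + 1)) * (((n : ℝ) + 1) ^ 2 + Real.log s) =
        (n : ℝ) + 1 + Real.log s / ((n : ℝ) + 1) := by
      field_simp
    have h7 : -|Real.log s| ≤ Real.log s / ((n : ℝ) + 1) := by
      have h8 : |Real.log s / ((n : ℝ) + 1)| ≤ |Real.log s| := by
        rw [abs_div, abs_of_pos hn]
        exact div_le_self (abs_nonneg _) (by linarith [n.cast_nonneg (α := ℝ)])
      linarith [neg_abs_le (Real.log s / ((n : ℝ) + 1))]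
    unfold CPK_L
    linarith
  have h3 := tendsto_atTop_mono h2 h1
  refine h3.inv_tendsto_atTop.congr fun n => ?_
  rw [Pi.inv_apply, one_div]

/-! ### the two functions -/

section

variable {Ω : Set X} {f : X → ℝ} {F : Fin 3 → X → ℝ} {η : X → ℝ}

/-- the first function -/
def CPK_g (η f : X → ℝ) (n : ℕ) (P : X) : ℝ :=
  η P + η P * ∫ t in (0 : ℝ)..(f P), CPK_eta n t

/-- its gradient -/
def CPK_g' (η f : X → ℝ) (F : Fin 3 → X → ℝ) (n : ℕ) (i : Fin 3) (P : X) : ℝ :=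
  pd e3 i η P + (η P * (CPK_eta n (f P) * F i P) +
    (∫ t in (0 : ℝ)..(f P), CPK_eta n t) * pd e3 i η P)

theorem CPK_lip {U : Set X} (hη : Test U η) : ∃ K : ℝ≥0, LipschitzWith K η :=
  (hη.smooth.of_le (by simp)).lipschitzWith_of_hasCompactSupport hη.cpt one_ne_zero

theorem CPK_bd {U : Set X} (hη : Test U η) :
    ∃ M : ℝ, 0 ≤ M ∧ ∀ i P, |pd e3 i η P| ≤ M := by
  have h : ∀ i : Fin 3, ∃ M : ℝ, ∀ P, |pd e3 i η P| ≤ M := by
    intro i
    obtain ⟨M, hM⟩ := (hη.pd_cont (e := e3) i).bounded_above_of_compact_support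
      (hη.pd_cpt (e := e3) i)
    exact ⟨M, fun P => hM P⟩
  choose M hM using h
  refine ⟨∑ i, |M i|, Finset.sum_nonneg fun i _ => abs_nonneg _, fun i P => ?_⟩
  refine (hM i P).trans ((le_abs_self _).trans ?_)
  exact Finset.single_le_sum (f := fun i => |M i|) (fun j _ => abs_nonneg _) (Finset.mem_univ i)

theorem CPK_pd_zero {U : Set X} (hη : Test U η) {P : X} (hP : P ∉ U) (i : Fin 3) :
    η P = 0 ∧ pd e3 i η P = 0 := by
  have h1 : P ∉ tsupport η := fun h => hP (hη.sub h)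
  refine ⟨image_eq_zero_of_notMem_tsupport h1, ?_⟩
  have h2 : fderiv ℝ η P = 0 := by
    by_contra h
    exact h1 (support_fderiv_subset ℝ h)
  unfold pd
  rw [h2]
  rfl

theorem CPK_gH (hBCC : T_BCC) (hPRL : T_PRL) {U : Set X} (hΩ : IsOpen Ω) (hf : H1 e3 Ω f F)
    (hη : Test U η) (h0 : ∀ P, 0 ≤ η P) (h1 : ∀ P, η P ≤ 1) (n : ℕ) :
    H1 e3 univ (CPK_g η f n) (CPK_g' η f F n) := by
  have a1 := hBCC X (Fin 3) e3 Ω f F (CPK_eta n) (CPK_A n) hΩ hf (CPK_eta_cont n) (CPK_eta_le n)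
  have a2 := hPRL X (Fin 3) e3 univ Ω _ _ η 1 isOpen_univ a1 (CPK_lip hη)
    (fun P => by rw [abs_of_nonneg (h0 P)]; exact h1 P) (Or.inl (subset_univ _))
  have a3 : H1 e3 univ η (fun i => pd e3 i η) := (hη.mono (subset_univ _)).h1
  exact a3.add a2

theorem CPK_gE (hBCC : T_BCC) (hPRL : T_PRL) {U : Set X} (hΩ : IsOpen Ω) (hf : H1 e3 Ω f F)
    (hf0 : ∀ᵐ P, 0 ≤ f P) (hfU : ∀ᵐ P, P ∈ U → 0 < f P)
    (hη : Test U η) (h0 : ∀ P, 0 ≤ η P) (h1 : ∀ P, η P ≤ 1) (C : ℝ)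
    (hC : ∀ ε : ℝ, 0 < ε →
      Integrable (fun P => η P ^ 2 * ∑ i : Fin 3, F i P ^ 2 / (f P + ε) ^ 2) ∧
      ∫ P, η P ^ 2 * ∑ i : Fin 3, F i P ^ 2 / (f P + ε) ^ 2 ≤ C) :
    Tendsto (fun n => CPK_E (CPK_g η f n) (CPK_g' η f F n)) atTop (𝓝 0) := by
  set b : X → ℝ := fun P => η P ^ 2 + 2 * ∑ i : Fin 3, pd e3 i η P ^ 2 with hb
  have hbi : Integrable b := by
    refine hη.memLp.integrable_sq.add ((integrable_finsetSum _ fun i _ => ?_).const_mul 2)
    exact (hη.memLp_pd (e := e3) i).integrable_sq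
  have hb0 : ∀ P, 0 ≤ b P := fun P => by
    have : 0 ≤ ∑ i : Fin 3, pd e3 i η P ^ 2 := Finset.sum_nonneg fun i _ => sq_nonneg _
    have := sq_nonneg (η P)
    simp only [hb]
    linarith
  set T : ℕ → X → ℝ := fun n P => 1 + ∫ t in (0 : ℝ)..(f P), CPK_eta n t with hT
  have hTm : ∀ n, AEStronglyMeasurable (T n) volume := fun n =>
    aestronglyMeasurable_const.add (hBCC X (Fin 3) e3 Ω f F (CPK_eta n) (CPK_A n) hΩ hf
      (CPK_eta_cont n) (CPK_eta_le n)).memLp.1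
  have hT1 : ∀ n, ∀ᵐ P, 0 ≤ T n P ∧ T n P ≤ 1 := by
    intro n
    filter_upwards [hf0] with P hP
    have h2 := CPK_L_ge (n := n) hP
    simp only [hT]
    rw [CPK_tau n hP]
    exact ⟨by positivity, by rw [div_le_one (by positivity)]; exact h2⟩
  have hJm : ∀ n, AEStronglyMeasurable (fun P => T n P ^ 2 * b P) volume := fun n =>
    ((hTm n).pow 2).mul hbi.1
  have hJb : ∀ n, ∀ᵐ P, ‖T n P ^ 2 * b P‖ ≤ b P := by
    intro n
    filter_upwards [hT1 n] with P hP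
    have h3 : T n P ^ 2 ≤ 1 := pow_le_one₀ hP.1 hP.2
    rw [Real.norm_of_nonneg (mul_nonneg (sq_nonneg _) (hb0 P))]
    calc T n P ^ 2 * b P ≤ 1 * b P := mul_le_mul_of_nonneg_right h3 (hb0 P)
      _ = b P := one_mul _
  have hJi : ∀ n, Integrable (fun P => T n P ^ 2 * b P) := fun n => hbi.mono' (hJm n) (hJb n)
  have hJl : Tendsto (fun n => ∫ P, T n P ^ 2 * b P) atTop (𝓝 0) := by
    have h4 : Tendsto (fun n => ∫ P, T n P ^ 2 * b P) atTop (𝓝 (∫ _ : X, (0 : ℝ))) := by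
      refine tendsto_integral_of_dominated_convergence b hJm hbi hJb ?_
      filter_upwards [hf0, hfU] with P hP0 hPU
      by_cases hP : P ∈ U
      · have h5 : Tendsto (fun n => T n P) atTop (𝓝 0) := by
          refine (CPK_tau_lim (hPU hP)).congr fun n => ?_
          simp only [hT]
          rw [CPK_tau n hP0]
        have h6 := (h5.pow 2).mul_const (b P)
        simpa using h6
      · have h7 : b P = 0 := by
          simp only [hb]
          rw [(CPK_pd_zero hη hP 0).1]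
          simp [fun i => (CPK_pd_zero hη hP i).2]
        simp [h7]
    simpa using h4
  have hlim : Tendsto (fun n : ℕ => (∫ P, T n P ^ 2 * b P) + 2 * (1 / ((n : ℝ) + 1)) ^ 2 * C)
      atTop (𝓝 0) := by
    have h8 : Tendsto (fun n : ℕ => 2 * (1 / ((n : ℝ) + 1)) ^ 2 * C) atTop (𝓝 0) := by
      have h9 := ((tendsto_one_div_add_atTop_nhds_zero_nat (𝕜 := ℝ)).pow 2).const_mul 2
      have h10 := h9.mul_const C
      simpa using h10
    simpa using hJl.add h8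
  refine squeeze_zero (fun n => integral_nonneg fun P =>
    add_nonneg (sq_nonneg _) (Finset.sum_nonneg fun i _ => sq_nonneg _)) (fun n => ?_) hlim
  have hg := CPK_gH hBCC hPRL hΩ hf hη h0 h1 n
  have hA := CPK_A_pos n
  obtain ⟨c1, c2⟩ := hC (1 / CPK_A n) (by positivity)
  have hle : CPK_E (CPK_g η f n) (CPK_g' η f F n) ≤
      ∫ P, (T n P ^ 2 * b P + 2 * (1 / ((n : ℝ) + 1)) ^ 2 *
        (η P ^ 2 * ∑ i : Fin 3, F i P ^ 2 / (f P + 1 / CPK_A n) ^ 2)) := by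
    refine integral_mono_ae (CPK_int hg.memLp hg.memLp') ((hJi n).add (c1.const_mul _)) ?_
    filter_upwards [hf0] with P hP
    have k1 : ∀ i, CPK_g' η f F n i P = T n P * pd e3 i η P + η P * (CPK_eta n (f P) * F i P) := by
      intro i
      simp only [CPK_g', hT]
      ring
    have k2 : CPK_g η f n P = η P * T n P := by
      simp only [CPK_g, hT]
      ring
    have k3 : ∀ i, (CPK_eta n (f P) * F i P) ^ 2 ≤
        (1 / ((n : ℝ) + 1)) ^ 2 * (F i P ^ 2 / (f P + 1 / CPK_A n) ^ 2) := by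
      intro i
      have k4 := CPK_eta_bd n (f P)
      rw [abs_of_nonneg hP] at k4
      have k5 := pow_le_pow_left₀ (abs_nonneg _) k4 2
      rw [sq_abs] at k5
      calc (CPK_eta n (f P) * F i P) ^ 2 = CPK_eta n (f P) ^ 2 * F i P ^ 2 := by ring
        _ ≤ ((1 / ((n : ℝ) + 1)) * (1 / (f P + 1 / CPK_A n))) ^ 2 * F i P ^ 2 :=
          mul_le_mul_of_nonneg_right k5 (sq_nonneg _)
        _ = _ := by
          field_simp
    have k6 : ∀ i, CPK_g' η f F n i P ^ 2 ≤ 2 * T n P ^ 2 * pd e3 i η P ^ 2 +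
        2 * η P ^ 2 * ((1 / ((n : ℝ) + 1)) ^ 2 * (F i P ^ 2 / (f P + 1 / CPK_A n) ^ 2)) := by
      intro i
      rw [k1 i]
      have k7 := mul_le_mul_of_nonneg_left (k3 i) (sq_nonneg (η P))
      nlinarith [sq_nonneg (T n P * pd e3 i η P - η P * (CPK_eta n (f P) * F i P))]
    have k8 := Finset.sum_le_sum fun (i : Fin 3) (_ : i ∈ Finset.univ) => k6 i
    rw [Finset.sum_add_distrib, ← Finset.mul_sum, ← Finset.mul_sum, ← Finset.mul_sum] at k8
    show CPK_g η f n P ^ 2 + ∑ i, CPK_g' η f F n i P ^ 2 ≤ _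
    rw [k2]
    simp only [hb]
    nlinarith
  refine hle.trans ?_
  rw [integral_add (hJi n) (c1.const_mul _), integral_const_mul]
  have k9 : (0 : ℝ) ≤ 2 * (1 / ((n : ℝ) + 1)) ^ 2 := by positivity
  linarith [mul_le_mul_of_nonneg_left c2 k9]

/-- the second function -/
def CPK_h (η a : X → ℝ) (P : X) : ℝ := η P * md a (fun _ => 0) P

/-- its gradient -/
def CPK_h' (η a : X → ℝ) (Fa : Fin 3 → X → ℝ) (i : Fin 3) (P : X) : ℝ :=
  η P * mg a (fun _ => 0) Fa (fun _ _ => 0) i P + md a (fun _ => 0) P * pd e3 i η P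

theorem CPK_md (a : X → ℝ) (P : X) : md a (fun _ => 0) P = |a P| := by
  unfold md
  rw [zero_pow two_ne_zero, add_zero, Real.sqrt_sq_eq_abs]

theorem CPK_mg (a : X → ℝ) (Fa : Fin 3 → X → ℝ) (i : Fin 3) (P : X) :
    mg a (fun _ => 0) Fa (fun _ _ => 0) i P ^ 2 ≤ Fa i P ^ 2 := by
  unfold mg
  rw [CPK_md, zero_mul, add_zero, div_pow, sq_abs, mul_pow]
  rcases eq_or_ne (a P) 0 with h | h
  · rw [h]
    simp [sq_nonneg]
  · rw [mul_div_assoc, mul_comm, div_mul_cancel₀]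
    positivity

theorem CPK_hH (hPRL : T_PRL) (hMOD : T_MOD) {U : Set X} {a : X → ℝ} {Fa : Fin 3 → X → ℝ}
    (hΩ : IsOpen Ω) (ha : H1 e3 Ω a Fa)
    (hη : Test U η) (h0 : ∀ P, 0 ≤ η P) (h1 : ∀ P, η P ≤ 1) :
    H1 e3 univ (CPK_h η a) (CPK_h' η a Fa) := by
  have a1 := hMOD X (Fin 3) e3 Ω a (fun _ => 0) Fa (fun _ _ => 0) hΩ ha H1.zero
  exact hPRL X (Fin 3) e3 univ Ω _ _ η 1 isOpen_univ a1 (CPK_lip hη)
    (fun P => by rw [abs_of_nonneg (h0 P)]; exact h1 P) (Or.inl (subset_univ _))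

theorem CPK_hE (hPRL : T_PRL) (hMOD : T_MOD) {U : Set X} {a : X → ℝ} {Fa : Fin 3 → X → ℝ}
    (hΩ : IsOpen Ω) (ha : H1 e3 Ω a Fa)
    (hη : Test U η) (h0 : ∀ P, 0 ≤ η P) (h1 : ∀ P, η P ≤ 1) {M : ℝ}
    (hM : ∀ i P, |pd e3 i η P| ≤ M) :
    CPK_E (CPK_h η a) (CPK_h' η a Fa) ≤
      (1 + 6 * M ^ 2) * (∫ P, a P ^ 2) + 2 * ∑ i, ∫ P, Fa i P ^ 2 := by
  have hh := CPK_hH hPRL hMOD hΩ ha hη h0 h1
  rw [← integral_finsetSum _ fun i _ => (ha.memLp' i).integrable_sq, ← integral_const_mul,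
    ← integral_const_mul, ← integral_add (ha.memLp.integrable_sq.const_mul _)
    ((integrable_finsetSum _ fun i _ => (ha.memLp' i).integrable_sq).const_mul _)]
  refine integral_mono (CPK_int hh.memLp hh.memLp') ((ha.memLp.integrable_sq.const_mul _).add
    ((integrable_finsetSum _ fun i _ => (ha.memLp' i).integrable_sq).const_mul _)) fun P => ?_
  have k0 : η P ^ 2 ≤ 1 := pow_le_one₀ (h0 P) (h1 P)
  have k1 : CPK_h η a P ^ 2 ≤ a P ^ 2 := by
    unfold CPK_h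
    rw [CPK_md, mul_pow, sq_abs]
    calc η P ^ 2 * a P ^ 2 ≤ 1 * a P ^ 2 := mul_le_mul_of_nonneg_right k0 (sq_nonneg _)
      _ = a P ^ 2 := one_mul _
  have k2 : ∀ i, CPK_h' η a Fa i P ^ 2 ≤ 2 * Fa i P ^ 2 + 2 * M ^ 2 * a P ^ 2 := by
    intro i
    unfold CPK_h'
    rw [CPK_md]
    have k3 := CPK_mg a Fa i P
    have k4 : pd e3 i η P ^ 2 ≤ M ^ 2 := by
      rw [← sq_abs]
      exact pow_le_pow_left₀ (abs_nonneg _) (hM i P) 2
    set m := mg a (fun _ => 0) Fa (fun _ _ => 0) i P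
    have k5 : (η P * m) ^ 2 ≤ Fa i P ^ 2 := by
      rw [mul_pow]
      calc η P ^ 2 * m ^ 2 ≤ 1 * m ^ 2 := mul_le_mul_of_nonneg_right k0 (sq_nonneg _)
        _ ≤ Fa i P ^ 2 := by rw [one_mul]; exact k3
    have k6 : (|a P| * pd e3 i η P) ^ 2 ≤ M ^ 2 * a P ^ 2 := by
      rw [mul_pow, sq_abs, mul_comm (M ^ 2)]
      exact mul_le_mul_of_nonneg_left k4 (sq_nonneg _)
    nlinarith [sq_nonneg (η P * m - |a P| * pd e3 i η P)]
  have k7 := Finset.sum_le_sum fun (i : Fin 3) (_ : i ∈ Finset.univ) => k2 i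
  rw [Finset.sum_add_distrib, ← Finset.mul_sum, Finset.sum_const, Finset.card_univ,
    Fintype.card_fin, nsmul_eq_mul] at k7
  show CPK_h η a P ^ 2 + ∑ i, CPK_h' η a Fa i P ^ 2 ≤
    (1 + 6 * M ^ 2) * a P ^ 2 + 2 * ∑ i, Fa i P ^ 2
  push_cast at k7
  linarith

end

theorem p_CPK (hBCC : T_BCC) (hPRL : T_PRL) (hMOD : T_MOD) : T_CPK := by
  intro Ω U K f F hΩ hU _ _ hf hf0 hfU hC hK hKU ε hε
  obtain ⟨η, O, hη, h0, h1, hO, hKO, hηO⟩ := CPK_cut hU hK hKU
  obtain ⟨C, hC⟩ := hC η hη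
  obtain ⟨M, hM0, hM⟩ := CPK_bd hη
  have hE := CPK_gE hBCC hPRL hΩ hf hf0 hfU hη h0 h1 C hC
  obtain ⟨n, hn⟩ := (hE.eventually (gt_mem_nhds (show (0 : ℝ) < ε / 4 by positivity))).exists
  obtain ⟨φ, hφ, hs1, hs2, -, -⟩ := hf.seq
  have hA := CPK_A_pos n
  have ha : ∀ k, H1 e3 Ω (fun P => f P - φ k P) (fun i P => F i P - pd e3 i (φ k) P) := fun k =>
    hf.sub (hφ k).h1
  have l1 : Tendsto (fun k => ∫ P, (f P - φ k P) ^ 2) atTop (𝓝 0) :=
    CPK_lim (fun k => (hφ k).memLp) hf.memLp hs1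
  have l2 : ∀ i, Tendsto (fun k => ∫ P, (F i P - pd e3 i (φ k) P) ^ 2) atTop (𝓝 0) := fun i =>
    CPK_lim (fun k => (hφ k).memLp_pd i) (hf.memLp' i) (hs2 i)
  have l3 : Tendsto (fun k => 2 * CPK_A n ^ 2 * ((1 + 6 * M ^ 2) * (∫ P, (f P - φ k P) ^ 2) +
      2 * ∑ i, ∫ P, (F i P - pd e3 i (φ k) P) ^ 2)) atTop (𝓝 0) := by
    have l4 : Tendsto (fun k => ∑ i, ∫ P, (F i P - pd e3 i (φ k) P) ^ 2) atTop (𝓝 0) := by
      have := tendsto_finsetSum Finset.univ fun (i : Fin 3) _ => l2 i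
      simpa using this
    have l5 := ((l1.const_mul (1 + 6 * M ^ 2)).add (l4.const_mul 2)).const_mul
      (2 * CPK_A n ^ 2)
    simpa using l5
  obtain ⟨k, hk⟩ := (l3.eventually (gt_mem_nhds (show (0 : ℝ) < ε / 2 by positivity))).exists
  have hg := CPK_gH hBCC hPRL hΩ hf hη h0 h1 n
  have hh := CPK_hH hPRL hMOD hΩ (ha k) hη h0 h1
  have hhE := CPK_hE hPRL hMOD hΩ (ha k) hη h0 h1 hM
  refine ⟨O \ tsupport (φ k), fun P => CPK_g η f n P + CPK_A n * CPK_h η _ P,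
    fun i P => CPK_g' η f F n i P + CPK_A n * CPK_h' η _ _ i P,
    hO.sdiff (isClosed_tsupport _), ?_, hg.add (hh.smul (CPK_A n)), ?_, ?_, ?_⟩
  · exact fun P hP => ⟨hKO hP.1, fun h => hP.2 ((hφ k).sub h)⟩
  · filter_upwards [hf0] with P hP
    have m1 : CPK_g η f n P = η P * (1 / CPK_L n (f P)) := by
      rw [← CPK_tau n hP]
      unfold CPK_g
      ring
    have m2 := CPK_L_ge (n := n) hP
    rw [m1]
    unfold CPK_h
    rw [CPK_md]
    have := h0 P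
    positivity
  · filter_upwards [hf0] with P hP hPO
    have m1 : CPK_g η f n P = η P * (1 / CPK_L n (f P)) := by
      rw [← CPK_tau n hP]
      unfold CPK_g
      ring
    rw [m1]
    unfold CPK_h
    rw [CPK_md, hηO P hPO.1, image_eq_zero_of_notMem_tsupport hPO.2, sub_zero,
      abs_of_nonneg hP, one_mul, one_mul]
    exact CPK_tau_ge n hP
  · refine lt_of_le_of_lt (CPK_add hg.memLp hg.memLp' hh.memLp hh.memLp' (CPK_A n)) ?_
    have m3 : (0 : ℝ) ≤ 2 * CPK_A n ^ 2 := by positivity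
    have m4 := mul_le_mul_of_nonneg_left hhE m3
    linarith

end MGS
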