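import Pool.Agent.MGS.TA

/-!
# MGS: target EXM (helper91)
-/

set_option autoImplicit false

open MeasureTheory Filter Topology Metric Set
open scoped ENNReal NNReal ContDiff

noncomputable section

namespace MGS

namespace EXM_

theorem Ap_cont (B : ℝ) (i : Fin 3) : Continuous (Ap B i) := by
  fin_cases i
  · show Continuous fun P : X => -(B / 2) * P.1.im
    exact continuous_const.mul (Complex.continuous_im.comp continuous_fst)
  · show Continuous fun P : X => B / 2 * P.1.re
    exact continuous_const.mul (Complex.continuous_re.comp continuous_fst)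
  · show Continuous fun _ : X => (0 : ℝ)
    exact continuous_const

theorem EM_eq (B : ℝ) (a b : X → ℝ) (Fa Fb : Fin 3 → X → ℝ) :
    EG (Ap B) (fun _ => 0) a b Fa Fb = EM B a b Fa Fb := by
  unfold EG EM em
  congr 1
  funext P
  simp

/-- measurable representatives which vanish outside `G` -/
theorem repr (hZRO : T_ZRO) (G : Set X) (hG : IsOpen G) (f : X → ℝ) (F : Fin 3 → X → ℝ)
    (h : H1 e3 G f F) : ∃ (g : X → ℝ) (Fg : Fin 3 → X → ℝ), Measurable g ∧
      (∀ i, Measurable (Fg i)) ∧ H1 e3 G g Fg ∧ (∀ P, P ∉ G → g P = 0 ∧ ∀ i, Fg i P = 0) ∧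
      f =ᵐ[volume] g ∧ ∀ i, F i =ᵐ[volume] Fg i := by
  classical
  have hmv := h.memLp.1
  have hmF : ∀ i, AEStronglyMeasurable (F i) volume := fun i => (h.memLp' i).1
  let v : X → ℝ := fun P => if P ∈ G then hmv.mk _ P else 0
  let F' : Fin 3 → X → ℝ := fun i P => if P ∈ G then (hmF i).mk _ P else 0
  have hz := hZRO X (Fin 3) e3 G _ _ h
  have ev : f =ᵐ[volume] v := by
    filter_upwards [hmv.ae_eq_mk, hz] with P hP hP2
    by_cases hPG : P ∈ G
    · simp only [v, hPG, if_true]
      exact hP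
    · simp only [v, hPG, if_false]
      exact (hP2 hPG).1
  have eF : ∀ i, F i =ᵐ[volume] F' i := by
    intro i
    filter_upwards [(hmF i).ae_eq_mk, hz] with P hP hP2
    by_cases hPG : P ∈ G
    · simp only [F', hPG, if_true]
      exact hP
    · simp only [F', hPG, if_false]
      exact (hP2 hPG).2 i
  refine ⟨v, F', ?_, ?_, h.congr ev eF, ?_, ev, eF⟩
  · exact Measurable.ite hG.measurableSet hmv.stronglyMeasurable_mk.measurable
      measurable_const
  · exact fun i => Measurable.ite hG.measurableSet (hmF i).stronglyMeasurable_mk.measurable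
      measurable_const
  · intro P hPG
    simp [v, F', hPG]

end EXM_

open EXM_ in
/-- existence of a magnetic ground state -/
theorem p_EXM (hEXG : T_EXG) (hLBG : T_LBG) (hCPX : T_CPX) (hZRO : T_ZRO) : T_EXM := by
  intro B G hG hb hne
  refine ⟨?_, fun a b Fa Fb ha hb' => ?_⟩
  · obtain ⟨a, b, Fa, Fb, ha, hb', hn, he⟩ := hEXG (Ap B) (fun _ => 0) G
      (Ap_cont B) continuous_const (fun _ => le_rfl) hG hb hne
    obtain ⟨a', Fa', ma, mFa, ha', za, ea, eFa⟩ := repr hZRO G hG a Fa ha
    obtain ⟨b', Fb', mb, mFb, hb'', zb, eb, eFb⟩ := repr hZRO G hG b Fb hb'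
    refine ⟨a', b', Fa', Fb', ma, mb, mFa, mFb, ha', hb'', ?_, ?_, ?_⟩
    · intro P hP
      exact ⟨(za P hP).1, (zb P hP).1, fun i => ⟨(za P hP).2 i, (zb P hP).2 i⟩⟩
    · rw [← hn]
      refine integral_congr_ae ?_
      filter_upwards [ea, eb] with P hP hP2
      rw [hP, hP2]
    · rw [hCPX B G, ← he, EM_eq]
      unfold EM em
      refine integral_congr_ae ?_
      filter_upwards [ea, eb, ae_all_iff.2 eFa, ae_all_iff.2 eFb] with P h1 h2 h3 h4
      simp only [h1, h2, h3, h4]
  · have h1 := hLBG (Ap B) (fun _ => 0) G (Ap_cont B) continuous_const (fun _ => le_rfl) hG hb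
      a b Fa Fb ha hb'
    rw [← hCPX B G, EM_eq] at h1
    exact h1

end MGS
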