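import Pool.Agent.MGS.TD

/-!
# MGS: the rearrangement of a Lipschitz function is Lipschitz (LPR)
-/

set_option autoImplicit false

open MeasureTheory Filter Topology Metric Set
open scoped ENNReal NNReal ContDiff Pointwise

noncomputable section

namespace MGS

namespace LPR_

theorem bdd {R : ℝ} {L : ℝ≥0} {g : ℂ → ℝ} (hN : Nc R g) (hL : LipschitzWith L g) :
    ∃ C : ℝ, 0 ≤ C ∧ ∀ x, g x ≤ C := by
  obtain ⟨x0, hx0⟩ : ∃ x0 : ℂ, g x0 = 0 := by
    refine ⟨((max R 0 : ℝ) : ℂ), hN.z _ ?_⟩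
    rw [Complex.norm_real, Real.norm_eq_abs]
    exact le_trans (le_max_left R 0) (le_abs_self _)
  refine ⟨L * (|R| + ‖x0‖), by positivity, fun x => ?_⟩
  by_cases hx : R ≤ ‖x‖
  · rw [hN.z x hx]; positivity
  · push Not at hx
    have h1 := hL.dist_le_mul x x0
    rw [Real.dist_eq, hx0, sub_zero] at h1
    have h2 : dist x x0 ≤ |R| + ‖x0‖ := by
      rw [dist_eq_norm]
      calc ‖x - x0‖ ≤ ‖x‖ + ‖x0‖ := norm_sub_le _ _
        _ ≤ |R| + ‖x0‖ := by linarith [le_abs_self R]
    calc g x ≤ |g x| := le_abs_self _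
      _ ≤ L * dist x x0 := h1
      _ ≤ L * (|R| + ‖x0‖) := mul_le_mul_of_nonneg_left h2 L.2

theorem bddAbove {R : ℝ} {L : ℝ≥0} {g : ℂ → ℝ} (hN : Nc R g) (hL : LipschitzWith L g) (t : ℝ) :
    BddAbove {s : ℝ | 0 ≤ s ∧ Real.pi * t ^ 2 < ar g s} := by
  obtain ⟨C, hC0, hC⟩ := bdd hN hL
  refine ⟨C, fun s hs => ?_⟩
  by_contra hlt
  push Not at hlt
  have h0 : {x : ℂ | s < g x} = ∅ := by
    ext x
    simp only [mem_setOf_eq, mem_empty_iff_false, iff_false, not_lt]
    exact (hC x).trans hlt.le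
  have h1 : ar g s = 0 := by
    unfold ar
    rw [h0]; simp
  have h2 := hs.2
  rw [h1] at h2
  have h3 : 0 ≤ Real.pi * t ^ 2 := by positivity
  linarith

theorem step {R : ℝ} {L : ℝ≥0} {g : ℂ → ℝ} (h_BM2 : T_BM2) (hN : Nc R g) (hL : LipschitzWith L g)
    {t h s : ℝ} (ht : 0 ≤ t) (hh : 0 < h) (hs : L * h ≤ s) (hs' : Real.pi * t ^ 2 < ar g s) :
    Real.pi * (t + h) ^ 2 < ar g (s - L * h) := by
  have hs0 : 0 ≤ s := le_trans (by positivity) hs
  set U : Set ℂ := {x : ℂ | s < g x} with hU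
  have hUo : IsOpen U := isOpen_lt continuous_const hL.continuous
  have hsub : ∀ s', 0 ≤ s' → {x : ℂ | s' < g x} ⊆ closedBall (0 : ℂ) |R| := by
    intro s' hs'0 x hx
    rw [mem_closedBall_zero_iff]
    by_contra hlt
    push Not at hlt
    have hx2 : s' < g x := hx
    rw [hN.z x ((le_abs_self R).trans hlt.le)] at hx2
    linarith
  have hUb : Bornology.IsBounded U := Metric.isBounded_closedBall.subset (hsub s hs0)
  have har0 : 0 < ar g s := lt_of_le_of_lt (by positivity) hs'
  have hUn : U.Nonempty := by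
    rw [Set.nonempty_iff_ne_empty]
    intro h0
    have h1 : ar g s = 0 := by
      unfold ar
      rw [← hU, h0]; simp
    linarith
  have key := h_BM2 U h hUo hUb hUn hh
  have hle : (volume (U + ball (0 : ℂ) h)).toReal ≤ ar g (s - L * h) := by
    unfold ar
    refine ENNReal.toReal_mono ?_ (measure_mono ?_)
    · exact ((measure_mono (hsub (s - L * h) (by linarith))).trans_lt
        (isCompact_closedBall _ _).measure_lt_top).ne
    · rintro x ⟨u, hu, v, hv, rfl⟩
      simp only [mem_setOf_eq]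
      have hv' : ‖v‖ < h := by simpa using hv
      have hu' : s < g u := hu
      have h1 := hL.dist_le_mul u (u + v)
      rw [Real.dist_eq, dist_eq_norm] at h1
      have h2 : ‖u - (u + v)‖ = ‖v‖ := by
        rw [sub_add_cancel_left, norm_neg]
      rw [h2] at h1
      have h3 : (L : ℝ) * ‖v‖ ≤ L * h := mul_le_mul_of_nonneg_left hv'.le L.2
      have h4 := (abs_le.1 h1).2
      have h5 : s - L * h < g (u + v) := by linarith
      exact h5
  have hVU : (volume U).toReal = ar g s := rfl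
  rw [hVU] at key
  have h6 : Real.pi * t < Real.sqrt (Real.pi * ar g s) := by
    apply Real.lt_sqrt_of_sq_lt
    have : (Real.pi * t) ^ 2 = Real.pi * (Real.pi * t ^ 2) := by ring
    rw [this]
    exact mul_lt_mul_of_pos_left hs' Real.pi_pos
  have h7 : 2 * (Real.pi * t) * h < 2 * Real.sqrt (Real.pi * ar g s) * h := by
    apply mul_lt_mul_of_pos_right _ hh
    linarith
  have h8 : Real.pi * (t + h) ^ 2 = Real.pi * t ^ 2 + 2 * (Real.pi * t) * h + Real.pi * h ^ 2 := by
    ring
  linarith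

theorem main {R : ℝ} {L : ℝ≥0} {g : ℂ → ℝ} (h_BM2 : T_BM2) (h_RR1 : T_RR1) (hN : Nc R g)
    (hL : LipschitzWith L g) {t t' : ℝ} (ht : 0 ≤ t) (htt : t < t') :
    |rr g t - rr g t'| ≤ L * |t - t'| := by
  obtain ⟨-, -, hnn, -, -⟩ := h_RR1 R g hN
  set h := t' - t with hh
  have hh0 : 0 < h := by rw [hh]; linarith
  have habs : |t - t'| = h := by
    rw [abs_sub_comm, abs_of_pos (by linarith)]
  rw [habs]
  have hLh : 0 ≤ (L : ℝ) * h := by positivity
  -- monotone
  have hmono : rr g t' ≤ rr g t := by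
    unfold rr
    rcases Set.eq_empty_or_nonempty {s : ℝ | 0 ≤ s ∧ Real.pi * t' ^ 2 < ar g s} with he | hne
    · rw [he, Real.sSup_empty]
      exact hnn t
    · refine csSup_le_csSup (bddAbove hN hL t) hne fun s hs => ⟨hs.1, lt_of_le_of_lt ?_ hs.2⟩
      apply mul_le_mul_of_nonneg_left _ Real.pi_pos.le
      exact pow_le_pow_left₀ ht htt.le 2
  -- Lipschitz
  have hlip : rr g t ≤ rr g t' + L * h := by
    rcases Set.eq_empty_or_nonempty {s : ℝ | 0 ≤ s ∧ Real.pi * t ^ 2 < ar g s} with he | hne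
    · have : rr g t = 0 := by
        unfold rr
        rw [he, Real.sSup_empty]
      rw [this]
      have := hnn t'
      positivity
    · refine csSup_le hne fun s hs => ?_
      by_cases hs2 : (L : ℝ) * h ≤ s
      · have h1 := step h_BM2 hN hL ht hh0 hs2 hs.2
        have h2 : t + h = t' := by rw [hh]; ring
        rw [h2] at h1
        have h3 : s - L * h ≤ rr g t' :=
          le_csSup (bddAbove hN hL t') ⟨by linarith, h1⟩
        linarith
      · push Not at hs2
        have := hnn t'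
        linarith
  rw [abs_of_nonneg (by linarith)]
  linarith

end LPR_

theorem p_LPR (h_BM2 : T_BM2) (h_RR1 : T_RR1) : T_LPR := by
  intro R L g hN hL t t' ht ht'
  rcases lt_trichotomy t t' with h | h | h
  · exact LPR_.main h_BM2 h_RR1 hN hL ht h
  · subst h; simp
  · rw [abs_sub_comm, abs_sub_comm t t']
    exact LPR_.main h_BM2 h_RR1 hN hL ht' h

end MGS
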