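import Pool.Agent.MGS.TB
import Pool.Agent.MGS.P_LBG
import Pool.Agent.MGS.P_IBH

/-!
# MGS: proof of T_MON from T_SHI, T_DQL, T_CTL, T_WEX (helper4)
-/

set_option autoImplicit false

open MeasureTheory Filter Topology Metric Set
open scoped ENNReal NNReal ContDiff

noncomputable section

namespace MGS

namespace MON_

theorem sh_mp (h : ℝ) : MeasurePreserving (sh h) (volume : Measure X) volume := by
  have h1 := measurePreserving_add_right (volume : Measure X) (((h : ℂ), (0 : ℝ)) : X)
  have h2 : sh h = fun P => P + (((h : ℂ), (0 : ℝ)) : X) := by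
    funext P
    exact Prod.ext rfl (add_zero P.2).symm
  rw [h2]
  exact h1

theorem gm_nonneg (B : ℝ) (P : X) : 0 ≤ gm B P := (Real.exp_pos _).le

theorem gm_pos (B : ℝ) (P : X) : 0 < gm B P := Real.exp_pos _

theorem gm_le (B : ℝ) (hB : 0 < B) (P : X) : gm B P ≤ 1 := by
  unfold gm
  rw [Real.exp_le_one_iff]
  have : 0 ≤ B / 2 * ‖P.1‖ ^ 2 := by positivity
  linarith

theorem gm_meas (B : ℝ) : Measurable (gm B) := by
  unfold gm
  fun_prop

theorem ww_meas (B : ℝ) (v : X → ℝ) (hv : Measurable v) : Measurable (ww B v) := by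
  unfold ww
  fun_prop

theorem xc_meas (i : Fin 3) : Measurable (xc i) := by
  unfold xc
  fin_cases i
  · exact Complex.measurable_re.comp measurable_fst
  · exact Complex.measurable_im.comp measurable_fst
  · exact measurable_const

theorem wF_meas (B : ℝ) (v : X → ℝ) (F : Fin 3 → X → ℝ) (hv : Measurable v)
    (hF : ∀ i, Measurable (F i)) (i : Fin 3) : Measurable (wF B v F i) := by
  have h1 := hF i
  have h2 := xc_meas i
  unfold wF
  fun_prop

/-- the pointwise inequality -/
theorem ptw (g a a' D : ℝ) (p q : Prop) [Decidable p] [Decidable q] [Decidable (q ∧ 0 < D)]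
    (hg : 0 ≤ g) (hg1 : g ≤ 1) (hpq : p → q) :
    (if p then g * (max a 0) ^ 2 else 0) ≤ g * (a' * (if q ∧ 0 < D then D else 0)) +
      ((a' - a) ^ 2 / 2 + (D - a) ^ 2 / 2 + |a' - a| * |a| + |D - a| * |a|) := by
  have n1 := mul_nonneg (abs_nonneg (a' - a)) (abs_nonneg a)
  have n2 := mul_nonneg (abs_nonneg (D - a)) (abs_nonneg a)
  have n3 := sq_nonneg (a' - a)
  have n4 := sq_nonneg (D - a)
  by_cases hq : q
  · have e1 : (if q ∧ 0 < D then D else 0) = max D 0 := by
      by_cases hD : 0 < D
      · rw [if_pos ⟨hq, hD⟩, max_eq_left hD.le]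
      · rw [if_neg (fun h => hD h.2), max_eq_right (not_lt.1 hD)]
    rw [e1]
    have h1 : (if p then g * (max a 0) ^ 2 else 0) ≤ g * (max a 0) ^ 2 := by
      split_ifs
      · exact le_rfl
      · exact mul_nonneg hg (sq_nonneg _)
    refine h1.trans ?_
    have e2 : (max a 0) ^ 2 = a * max a 0 := by
      rcases le_total a 0 with h | h
      · rw [max_eq_right h]
        ring
      · rw [max_eq_left h]
        ring
    have hM : |max D 0 - max a 0| ≤ |D - a| := abs_max_sub_max_le_abs D a 0
    have hM2 : |max D 0| ≤ |D - a| + |a| := by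
      have h3 : |max D 0| ≤ |D| := by
        rcases le_total D 0 with h | h
        · rw [max_eq_right h]
          simp
        · rw [max_eq_left h]
      have h4 : |D| ≤ |D - a| + |a| := by
        have := abs_add_le (D - a) a
        rwa [sub_add_cancel] at this
      exact h3.trans h4
    have key : (max a 0) ^ 2 - a' * max D 0 ≤
        (a' - a) ^ 2 / 2 + (D - a) ^ 2 / 2 + |a' - a| * |a| + |D - a| * |a| := by
      rw [e2]
      have e3 : a * max a 0 - a' * max D 0 =
          -((a' - a) * max D 0) - a * (max D 0 - max a 0) := by ring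
      rw [e3]
      have h5 : -((a' - a) * max D 0) ≤ |a' - a| * (|D - a| + |a|) := by
        calc -((a' - a) * max D 0) ≤ |(a' - a) * max D 0| := neg_le_abs _
          _ = |a' - a| * |max D 0| := abs_mul _ _
          _ ≤ _ := mul_le_mul_of_nonneg_left hM2 (abs_nonneg _)
      have h6 : -(a * (max D 0 - max a 0)) ≤ |a| * |D - a| := by
        calc -(a * (max D 0 - max a 0)) ≤ |a * (max D 0 - max a 0)| := neg_le_abs _
          _ = |a| * |max D 0 - max a 0| := abs_mul _ _
          _ ≤ _ := mul_le_mul_of_nonneg_left hM (abs_nonneg _)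
      have h7 : |a' - a| * |D - a| ≤ (a' - a) ^ 2 / 2 + (D - a) ^ 2 / 2 := by
        have := sq_nonneg (|a' - a| - |D - a|)
        nlinarith [sq_abs (a' - a), sq_abs (D - a)]
      nlinarith
    have h8 : 0 ≤ (a' - a) ^ 2 / 2 + (D - a) ^ 2 / 2 + |a' - a| * |a| + |D - a| * |a| := by
      positivity
    have h9 : g * ((max a 0) ^ 2 - a' * max D 0) ≤
        (a' - a) ^ 2 / 2 + (D - a) ^ 2 / 2 + |a' - a| * |a| + |D - a| * |a| := by
      calc g * ((max a 0) ^ 2 - a' * max D 0) ≤
          g * ((a' - a) ^ 2 / 2 + (D - a) ^ 2 / 2 + |a' - a| * |a| + |D - a| * |a|) :=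
            mul_le_mul_of_nonneg_left key hg
        _ ≤ 1 * ((a' - a) ^ 2 / 2 + (D - a) ^ 2 / 2 + |a' - a| * |a| + |D - a| * |a|) :=
            mul_le_mul_of_nonneg_right hg1 h8
        _ = _ := one_mul _
    nlinarith
  · have hp : ¬ p := fun h => hq (hpq h)
    rw [if_neg hp, if_neg (fun h => hq h.1)]
    simp only [mul_zero, zero_add]
    positivity

/-- an `L²` null sequence: the square and the product with a fixed function have integrals tending
to zero -/
theorem lims {u : ℕ → X → ℝ} {a : X → ℝ} (hu : ∀ n, MemLp (u n) 2 volume)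
    (ha : MemLp a 2 volume)
    (h : Tendsto (fun n => eLpNorm (u n) 2 volume) atTop (𝓝 0)) :
    Tendsto (fun n => ∫ P, u n P ^ 2 / 2) atTop (𝓝 0) ∧
    Tendsto (fun n => ∫ P, |u n P| * |a P|) atTop (𝓝 0) := by
  have hz : MemLp (fun _ : X => (0 : ℝ)) 2 volume := MemLp.zero'
  constructor
  · have h1 := LBG_.sq_tendsto hu hz (by simpa using h)
    have h2 := h1.div_const 2
    simp only [ne_eq, OfNat.ofNat_ne_zero, not_false_eq_true, zero_pow, integral_zero,
      zero_div] at h2
    refine h2.congr fun n => ?_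
    rw [integral_div]
  · have hu' : ∀ n, MemLp (fun P => |u n P|) 2 volume := fun n => (hu n).abs
    have h1 := IBH_.pair_lim hu' hz ha.abs (by
      have e : ∀ n, eLpNorm (fun P => |u n P| - 0) 2 volume = eLpNorm (u n) 2 volume := by
        intro n
        simp only [sub_zero]
        exact eLpNorm_norm (u n)
      simpa only [e] using h)
    simpa using h1

theorem tendsto_h : Tendsto (fun n : ℕ => 1 / ((n : ℝ) + 1)) atTop (𝓝[>] 0) := by
  rw [tendsto_nhdsWithin_iff]
  exact ⟨tendsto_one_div_add_atTop_nhds_zero_nat,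
    Eventually.of_forall fun n => Set.mem_Ioi.2 (by positivity)⟩

end MON_

open MON_ in
theorem p_MON (h_SHI : T_SHI) (h_DQL : T_DQL) (h_CTL : T_CTL) (h_WEX : T_WEX) : T_MON := by
  intro B G v F hB hG hv
  have hw := ((h_WEX B G v F hG.isOpen hG.bounded hv.h).1).mono (Set.subset_univ G)
  have wm : Measurable (ww B v) := ww_meas B v hv.mv
  have am : Measurable (wF B v F 0) := wF_meas B v F hv.mv hv.mF 0
  set w : X → ℝ := ww B v with hwdef
  set a : X → ℝ := wF B v F 0 with hadef
  have hw2 : MemLp w 2 volume := hw.memLp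
  have ha2 : MemLp a 2 volume := hw.memLp' 0
  set h : ℕ → ℝ := fun n => 1 / ((n : ℝ) + 1) with hh
  have hpos : ∀ n, 0 < h n := fun n => by
    rw [hh]
    positivity
  -- the two sequences
  have ash : ∀ n, MemLp (fun P => a (sh (h n) P)) 2 volume := fun n =>
    ha2.comp_measurePreserving (sh_mp (h n))
  have wsh : ∀ n, MemLp (fun P => w (sh (h n) P)) 2 volume := fun n =>
    hw2.comp_measurePreserving (sh_mp (h n))
  have dm : ∀ n, MemLp (fun P => (w (sh (h n) P) - w P) / h n) 2 volume := by
    intro n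
    have h1 := ((wsh n).sub hw2).const_mul ((h n)⁻¹)
    refine (memLp_congr_ae (Eventually.of_forall fun P => ?_)).1 h1
    show (h n)⁻¹ * (w (sh (h n) P) - w P) = _
    rw [div_eq_inv_mul]
  have l1 := lims (fun n => (ash n).sub ha2) ha2
    (((h_CTL a ha2).mono_left nhdsWithin_le_nhds).comp tendsto_h)
  have l2 := lims (fun n => (dm n).sub ha2) ha2 ((h_DQL w (wF B v F) hw).comp tendsto_h)
  -- the shifted function
  have hpe : ∀ n P, hp (h n) (fun P => w (sh (h n) P) - w P) P / h n =
      (if (-(h n / 2) < P.1.re) ∧ 0 < (w (sh (h n) P) - w P) / h n then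
        (w (sh (h n) P) - w P) / h n else 0) := by
    intro n P
    unfold hp
    by_cases hc : -(h n / 2) < P.1.re ∧ 0 < w (sh (h n) P) - w P
    · rw [Set.indicator_of_mem (show P ∈ {P : X | -(h n / 2) < P.1.re ∧
        0 < w (sh (h n) P) - w P} from hc), if_pos ⟨hc.1, div_pos hc.2 (hpos n)⟩]
    · rw [Set.indicator_of_notMem (show P ∉ {P : X | -(h n / 2) < P.1.re ∧
        0 < w (sh (h n) P) - w P} from hc), zero_div, if_neg]
      intro hc'
      refine hc ⟨hc'.1, ?_⟩
      have := mul_pos hc'.2 (hpos n)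
      rwa [div_mul_cancel₀ _ (hpos n).ne'] at this
  have bm : ∀ n, MemLp (fun P => (if (-(h n / 2) < P.1.re) ∧ 0 < (w (sh (h n) P) - w P) / h n then
        (w (sh (h n) P) - w P) / h n else 0)) 2 volume := by
    intro n
    have hm1 : Measurable (fun P : X => (w (sh (h n) P) - w P) / h n) :=
      ((wm.comp (sh_mp (h n)).measurable).sub wm).div_const _
    have hre : Measurable (fun P : X => P.1.re) := Complex.measurable_re.comp measurable_fst
    have hm2 : MeasurableSet {P : X | (-(h n / 2) < P.1.re) ∧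
        0 < (w (sh (h n) P) - w P) / h n} :=
      (measurableSet_lt measurable_const hre).inter (measurableSet_lt measurable_const hm1)
    refine (dm n).mono (Measurable.ite hm2 hm1 measurable_const).aestronglyMeasurable
      (Eventually.of_forall fun P => ?_)
    split_ifs
    · exact le_rfl
    · rw [norm_zero]
      exact norm_nonneg _
  have Im : ∀ n, Integrable (fun P => gm B P * (a (sh (h n) P) *
      (if (-(h n / 2) < P.1.re) ∧ 0 < (w (sh (h n) P) - w P) / h n then
        (w (sh (h n) P) - w P) / h n else 0))) := by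
    intro n
    have h1 := (ash n).integrable_mul (bm n)
    refine Integrable.mono h1 ((gm_meas B).aestronglyMeasurable.mul h1.1)
      (Eventually.of_forall fun P => ?_)
    rw [norm_mul, Real.norm_eq_abs (gm B P), abs_of_nonneg (gm_nonneg B P)]
    exact mul_le_of_le_one_left (norm_nonneg _) (gm_le B hB P)
  have Ile : ∀ n, ∫ P, gm B P * (a (sh (h n) P) *
      (if (-(h n / 2) < P.1.re) ∧ 0 < (w (sh (h n) P) - w P) / h n then
        (w (sh (h n) P) - w P) / h n else 0)) ≤ 0 := by
    intro n
    have h1 := h_SHI B G v F hB hG hv (h n) (hpos n)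
    have h2 : ∫ P, gm B P * (a (sh (h n) P) *
      (if (-(h n / 2) < P.1.re) ∧ 0 < (w (sh (h n) P) - w P) / h n then
        (w (sh (h n) P) - w P) / h n else 0)) =
        (∫ P, gm B P * (wF B v F 0 (sh (h n) P) *
          hp (h n) (fun P => ww B v (sh (h n) P) - ww B v P) P)) / h n := by
      rw [← integral_div]
      refine integral_congr_ae (Eventually.of_forall fun P => ?_)
      show gm B P * (a (sh (h n) P) * _) = _
      rw [← hpe n P]
      ring
    rw [h2]
    exact div_nonpos_of_nonpos_of_nonneg h1 (hpos n).le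
  -- error terms
  have s1 : ∀ n, Integrable (fun P => (a (sh (h n) P) - a P) ^ 2 / 2) := fun n =>
    (((ash n).sub ha2).integrable_sq).div_const 2
  have s2 : ∀ n, Integrable (fun P => ((w (sh (h n) P) - w P) / h n - a P) ^ 2 / 2) := fun n =>
    (((dm n).sub ha2).integrable_sq).div_const 2
  have s3 : ∀ n, Integrable (fun P => |a (sh (h n) P) - a P| * |a P|) := fun n =>
    (((ash n).sub ha2).abs).integrable_mul ha2.abs
  have s4 : ∀ n, Integrable (fun P => |(w (sh (h n) P) - w P) / h n - a P| * |a P|) := fun n =>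
    (((dm n).sub ha2).abs).integrable_mul ha2.abs
  have hlim : Tendsto (fun n => (∫ P, (a (sh (h n) P) - a P) ^ 2 / 2) +
      (∫ P, ((w (sh (h n) P) - w P) / h n - a P) ^ 2 / 2) +
      (∫ P, |a (sh (h n) P) - a P| * |a P|) +
      ∫ P, |(w (sh (h n) P) - w P) / h n - a P| * |a P|) atTop (𝓝 0) := by
    have := ((l1.1.add l2.1).add l1.2).add l2.2
    simpa using this
  -- the limit function
  have hre : Measurable (fun P : X => P.1.re) := Complex.measurable_re.comp measurable_fst
  have cm : Measurable (fun P : X => if 0 < P.1.re then gm B P * (max (a P) 0) ^ 2 else 0) :=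
    Measurable.ite (measurableSet_lt measurable_const hre)
      ((gm_meas B).mul ((am.max measurable_const).pow_const 2)) measurable_const
  have c0 : ∀ P : X, 0 ≤ (if 0 < P.1.re then gm B P * (max (a P) 0) ^ 2 else 0) := by
    intro P
    split_ifs
    · exact mul_nonneg (gm_nonneg B P) (sq_nonneg _)
    · exact le_rfl
  have ci : Integrable (fun P : X => if 0 < P.1.re then gm B P * (max (a P) 0) ^ 2 else 0) := by
    refine Integrable.mono ha2.integrable_sq cm.aestronglyMeasurable
      (Eventually.of_forall fun P => ?_)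
    rw [Real.norm_eq_abs, abs_of_nonneg (c0 P), Real.norm_eq_abs, abs_of_nonneg (sq_nonneg _)]
    split_ifs
    · have h1 : (max (a P) 0) ^ 2 ≤ a P ^ 2 := by
        rcases le_total (a P) 0 with hc | hc
        · rw [max_eq_right hc]
          simpa using sq_nonneg (a P)
        · rw [max_eq_left hc]
      exact (mul_le_of_le_one_left (sq_nonneg _) (gm_le B hB P)).trans h1
    · exact sq_nonneg _
  have hle : ∀ n, ∫ P : X, (if 0 < P.1.re then gm B P * (max (a P) 0) ^ 2 else 0) ≤
      (∫ P, (a (sh (h n) P) - a P) ^ 2 / 2) +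
      (∫ P, ((w (sh (h n) P) - w P) / h n - a P) ^ 2 / 2) +
      (∫ P, |a (sh (h n) P) - a P| * |a P|) +
      ∫ P, |(w (sh (h n) P) - w P) / h n - a P| * |a P| := by
    intro n
    have t1 : Integrable (fun P => (a (sh (h n) P) - a P) ^ 2 / 2 +
        ((w (sh (h n) P) - w P) / h n - a P) ^ 2 / 2) := (s1 n).add (s2 n)
    have t2 : Integrable (fun P => (a (sh (h n) P) - a P) ^ 2 / 2 +
        ((w (sh (h n) P) - w P) / h n - a P) ^ 2 / 2 + |a (sh (h n) P) - a P| * |a P|) :=
      t1.add (s3 n)
    have t3 : Integrable (fun P => (a (sh (h n) P) - a P) ^ 2 / 2 +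
        ((w (sh (h n) P) - w P) / h n - a P) ^ 2 / 2 + |a (sh (h n) P) - a P| * |a P| +
        |(w (sh (h n) P) - w P) / h n - a P| * |a P|) := t2.add (s4 n)
    have h1 : ∫ P : X, (if 0 < P.1.re then gm B P * (max (a P) 0) ^ 2 else 0) ≤
        ∫ P, (gm B P * (a (sh (h n) P) *
      (if (-(h n / 2) < P.1.re) ∧ 0 < (w (sh (h n) P) - w P) / h n then
        (w (sh (h n) P) - w P) / h n else 0)) +
        ((a (sh (h n) P) - a P) ^ 2 / 2 + ((w (sh (h n) P) - w P) / h n - a P) ^ 2 / 2 +
          |a (sh (h n) P) - a P| * |a P| + |(w (sh (h n) P) - w P) / h n - a P| * |a P|)) := by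
      refine integral_mono ci ((Im n).add t3) fun P => ?_
      exact ptw (gm B P) (a P) (a (sh (h n) P)) ((w (sh (h n) P) - w P) / h n)
        (0 < P.1.re) (-(h n / 2) < P.1.re) (gm_nonneg B P) (gm_le B hB P) (fun h1 => by
          have := hpos n
          linarith)
    rw [integral_add (Im n) t3, integral_add t2 (s4 n), integral_add t1 (s3 n),
      integral_add (s1 n) (s2 n)] at h1
    have h2 := Ile n
    linarith
  have hc : ∫ P : X, (if 0 < P.1.re then gm B P * (max (a P) 0) ^ 2 else 0) = 0 :=
    le_antisymm (ge_of_tendsto' hlim hle) (integral_nonneg c0)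
  rw [integral_eq_zero_iff_of_nonneg c0 ci] at hc
  filter_upwards [hc] with P hP hp
  have hP' : (if 0 < P.1.re then gm B P * (max (a P) 0) ^ 2 else 0) = 0 := hP
  rw [if_pos hp, mul_eq_zero] at hP'
  rcases hP' with h1 | h1
  · exact absurd h1 (gm_pos B P).ne'
  · have h2 : max (a P) 0 = 0 := by
      simpa using h1
    exact max_eq_right_iff.1 h2

end MGS
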