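import Pool.Agent.MGS.P_BOX

/-!
# MGS-REL: Rellich's theorem (helper95)
-/

set_option autoImplicit false

open MeasureTheory Filter Topology Metric Set
open scoped ENNReal NNReal ContDiff

noncomputable section

namespace MGS

namespace REL_

/-- the index set of a grid -/
abbrev J : Type := ℤ × ℤ × ℤ

/-- the centre of a cube of the grid -/
def ctr (l : ℝ) (j : J) : X :=
  ((⟨(2 * (j.1 : ℝ) + 1) * l, (2 * (j.2.1 : ℝ) + 1) * l⟩ : ℂ), (2 * (j.2.2 : ℝ) + 1) * l)

/-- the cubes of the grid of side `2 l` -/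
def Q (l : ℝ) (j : J) : Set X := cube (ctr l j) l

lemma Q_meas (l : ℝ) (j : J) : MeasurableSet (Q l j) := BOX_.cube_meas _ _

lemma vol_Q (l : ℝ) (hl : 0 < l) (j : J) : volume (Q l j) = ENNReal.ofReal (8 * l ^ 3) := by
  have h := BOX_.restrict_cube (ctr l j) l
  have h1 : volume (Q l j) = ((volume : Measure X).restrict (cube (ctr l j) l)) univ := by
    rw [Measure.restrict_apply_univ]
    rfl
  rw [h1, h, ← univ_prod_univ, Measure.prod_prod, BOX_.mass_line, BOX_.mass_sq _ _ hl,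
    ← ENNReal.ofReal_mul (by positivity)]
  congr 1
  ring

lemma abs_lt_grid {l x : ℝ} (k : ℤ) : |x - (2 * (k : ℝ) + 1) * l| < l ↔
    2 * l * k < x ∧ x < 2 * l * (k + 1) := by
  rw [abs_lt]
  constructor
  · rintro ⟨h1, h2⟩
    constructor <;> nlinarith
  · rintro ⟨h1, h2⟩
    constructor <;> nlinarith

lemma grid_unique {l x : ℝ} (hl : 0 < l) {k k' : ℤ} (h : |x - (2 * (k : ℝ) + 1) * l| < l)
    (h' : |x - (2 * (k' : ℝ) + 1) * l| < l) : k = k' := by
  rw [abs_lt_grid] at h h'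
  have h1 : (k : ℝ) < k' + 1 := by
    have : 2 * l * (k : ℝ) < 2 * l * (k' + 1) := h.1.trans h'.2
    exact lt_of_mul_lt_mul_left this (by positivity)
  have h2 : (k' : ℝ) < k + 1 := by
    have : 2 * l * (k' : ℝ) < 2 * l * (k + 1) := h'.1.trans h.2
    exact lt_of_mul_lt_mul_left this (by positivity)
  have h3 : k < k' + 1 := by exact_mod_cast h1
  have h4 : k' < k + 1 := by exact_mod_cast h2
  omega

lemma Q_disj (l : ℝ) (hl : 0 < l) : Pairwise (Function.onFun Disjoint (Q l)) := by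
  intro i j hij
  show Disjoint (Q l i) (Q l j)
  rw [Set.disjoint_left]
  rintro P ⟨h1, h2, h3⟩ ⟨h1', h2', h3'⟩
  apply hij
  have e1 : i.1 = j.1 := grid_unique hl h1 h1'
  have e2 : i.2.1 = j.2.1 := grid_unique hl h2 h2'
  have e3 : i.2.2 = j.2.2 := grid_unique hl h3 h3'
  exact Prod.ext e1 (Prod.ext e2 e3)

/-- the finite index set -/
def S (N : ℕ) : Finset J := (Finset.Icc (-(N : ℤ)) N) ×ˢ (Finset.Icc (-(N : ℤ)) N) ×ˢ
  (Finset.Icc (-(N : ℤ)) N)

lemma grid_exists {l x R : ℝ} (hl : 0 < l) (hx : x ∉ Set.range fun k : ℤ => 2 * l * (k : ℝ))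
    (hR : |x| ≤ R) {N : ℕ} (hN : R / (2 * l) + 1 ≤ N) :
    ∃ k ∈ Finset.Icc (-(N : ℤ)) N, |x - (2 * (k : ℝ) + 1) * l| < l := by
  have h2l : 0 < 2 * l := by positivity
  set k : ℤ := ⌊x / (2 * l)⌋ with hk
  have h1 : (k : ℝ) ≤ x / (2 * l) := Int.floor_le _
  have h2 : x / (2 * l) < k + 1 := Int.lt_floor_add_one _
  have h3 : 2 * l * (k : ℝ) ≤ x := by
    rw [le_div_iff₀ h2l] at h1
    linarith
  have h4 : x < 2 * l * (k + 1) := by
    rw [div_lt_iff₀ h2l] at h2
    linarith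
  have h5 : 2 * l * (k : ℝ) < x := lt_of_le_of_ne h3 fun h => hx ⟨k, h⟩
  have h6 : x / (2 * l) ≤ R / (2 * l) :=
    div_le_div_of_nonneg_right ((le_abs_self x).trans hR) h2l.le
  have h7 : -(R / (2 * l)) ≤ x / (2 * l) := by
    rw [← neg_div]
    exact div_le_div_of_nonneg_right (by linarith [neg_abs_le x]) h2l.le
  refine ⟨k, ?_, (abs_lt_grid k).2 ⟨h5, h4⟩⟩
  rw [Finset.mem_Icc]
  constructor
  · have : (-(N : ℝ)) ≤ k := by linarith
    exact_mod_cast this
  · have : (k : ℝ) ≤ N := by linarith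
    exact_mod_cast this

lemma qmp_re : Measure.QuasiMeasurePreserving (fun P : X => P.1.re) volume volume := by
  have h1 : Measure.QuasiMeasurePreserving (Prod.fst : X → ℂ) volume volume :=
    Measure.quasiMeasurePreserving_fst
  have h2 : Measure.QuasiMeasurePreserving (fun w : ℂ => w.re) volume volume := by
    have h3 : Measure.QuasiMeasurePreserving (Prod.fst : ℝ × ℝ → ℝ) volume volume :=
      Measure.quasiMeasurePreserving_fst
    exact h3.comp Complex.volume_preserving_equiv_real_prod.quasiMeasurePreserving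
  exact h2.comp h1

lemma qmp_im : Measure.QuasiMeasurePreserving (fun P : X => P.1.im) volume volume := by
  have h1 : Measure.QuasiMeasurePreserving (Prod.fst : X → ℂ) volume volume :=
    Measure.quasiMeasurePreserving_fst
  have h2 : Measure.QuasiMeasurePreserving (fun w : ℂ => w.im) volume volume := by
    have h3 : Measure.QuasiMeasurePreserving (Prod.snd : ℝ × ℝ → ℝ) volume volume :=
      Measure.quasiMeasurePreserving_snd
    exact h3.comp Complex.volume_preserving_equiv_real_prod.quasiMeasurePreserving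
  exact h2.comp h1

lemma qmp_z : Measure.QuasiMeasurePreserving (fun P : X => P.2) volume volume :=
  Measure.quasiMeasurePreserving_snd

lemma ae_cover (l R : ℝ) (hl : 0 < l) {N : ℕ} (hN : R / (2 * l) + 1 ≤ N) :
    ∀ᵐ P : X, ‖P‖ ≤ R → ∃ j ∈ S N, P ∈ Q l j := by
  have hc : (Set.range fun k : ℤ => 2 * l * (k : ℝ)).Countable := Set.countable_range _
  have h0 : ∀ᵐ x : ℝ, x ∉ Set.range fun k : ℤ => 2 * l * (k : ℝ) := hc.ae_notMem volume
  filter_upwards [qmp_re.ae h0, qmp_im.ae h0, qmp_z.ae h0] with P h1 h2 h3 hP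
  have n1 : ‖P.1‖ ≤ R := (norm_fst_le P).trans hP
  have n2 : ‖P.2‖ ≤ R := (norm_snd_le P).trans hP
  obtain ⟨a, ha, ha'⟩ := grid_exists hl h1 ((Complex.abs_re_le_norm P.1).trans n1) hN
  obtain ⟨b, hb, hb'⟩ := grid_exists hl h2 ((Complex.abs_im_le_norm P.1).trans n1) hN
  obtain ⟨c, hc, hc'⟩ := grid_exists hl h3 n2 hN
  refine ⟨(a, b, c), ?_, ha', hb', hc'⟩
  unfold S
  rw [Finset.mem_product, Finset.mem_product]
  exact ⟨ha, hb, hc⟩

/-- the variance identity -/
lemma variance (s : Set X) (u : X → ℝ) (V : ℝ) (hV : (volume s).toReal = V) (hVt : volume s ≠ ⊤)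
    (hu : MemLp u 2 volume) :
    ∫ P in s, ∫ P' in s, (u P - u P') ^ 2 =
      2 * V * (∫ P in s, u P ^ 2) - 2 * (∫ P in s, u P) ^ 2 := by
  have : IsFiniteMeasure (volume.restrict s) := ⟨by
    rw [Measure.restrict_apply_univ]
    exact lt_top_iff_ne_top.2 hVt⟩
  have hu' : MemLp u 2 (volume.restrict s) := hu.restrict s
  have i2 : Integrable (fun P => u P ^ 2) (volume.restrict s) := hu'.integrable_sq
  have i1 : Integrable u (volume.restrict s) := hu'.integrable (by norm_num)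
  have hV' : ∀ c : ℝ, ∫ _ in s, c = V * c := by
    intro c
    rw [setIntegral_const, smul_eq_mul, ← hV]
    rfl
  have h1 : ∀ P, ∫ P' in s, (u P - u P') ^ 2 =
      V * u P ^ 2 - 2 * u P * (∫ P' in s, u P') + ∫ P' in s, u P' ^ 2 := by
    intro P
    have e : ∀ P', (u P - u P') ^ 2 = (u P ^ 2 - 2 * u P * u P') + u P' ^ 2 := fun P' => by ring
    simp only [e]
    have k1 : Integrable (fun P' => u P ^ 2 - 2 * u P * u P') (volume.restrict s) :=
      (integrable_const _).sub (i1.const_mul _)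
    rw [integral_add k1 i2,
      integral_sub (integrable_const _) (i1.const_mul _), hV', integral_const_mul]
  simp only [h1]
  have j1 : Integrable (fun P => V * u P ^ 2) (volume.restrict s) := i2.const_mul _
  have j2 : Integrable (fun P => 2 * u P * (∫ P' in s, u P')) (volume.restrict s) :=
    (i1.const_mul 2).mul_const _
  have j3 : Integrable (fun P => V * u P ^ 2 - 2 * u P * (∫ P' in s, u P'))
      (volume.restrict s) := j1.sub j2
  rw [integral_add j3 (integrable_const _), integral_sub j1 j2, hV', integral_const_mul,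
    integral_mul_const, integral_const_mul]
  ring

/-- the estimate on one cube -/
lemma one_cube (h_BOX : T_BOX) (G : Set X) (u : X → ℝ) (U : Fin 3 → X → ℝ) (l : ℝ) (hl : 0 < l)
    (h : H1 e3 G u U) (j : J) :
    ∫ P in Q l j, u P ^ 2 ≤ 6 * l ^ 2 * (∫ P in Q l j, ∑ i, U i P ^ 2) +
      (8 * l ^ 3)⁻¹ * (∫ P in Q l j, u P) ^ 2 := by
  have h1 := h_BOX G u U (ctr l j) l hl h
  have hv := vol_Q l hl j
  have h2 := variance (Q l j) u (8 * l ^ 3)
    (by rw [hv, ENNReal.toReal_ofReal (by positivity)]) (by rw [hv]; exact ENNReal.ofReal_ne_top)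
    h.1
  change ∫ P in Q l j, ∫ P' in Q l j, (u P - u P') ^ 2 ≤
    96 * l ^ 5 * ∫ P in Q l j, ∑ i, U i P ^ 2 at h1
  rw [h2] at h1
  have h3 : 0 < 8 * l ^ 3 := by positivity
  have h4 : 8 * l ^ 3 * (∫ P in Q l j, u P ^ 2) ≤ 8 * l ^ 3 * (6 * l ^ 2 *
      (∫ P in Q l j, ∑ i, U i P ^ 2) + (8 * l ^ 3)⁻¹ * (∫ P in Q l j, u P) ^ 2) := by
    have h5 : 8 * l ^ 3 * (6 * l ^ 2 *
      (∫ P in Q l j, ∑ i, U i P ^ 2) + (8 * l ^ 3)⁻¹ * (∫ P in Q l j, u P) ^ 2) =
      48 * l ^ 5 * (∫ P in Q l j, ∑ i, U i P ^ 2) + (∫ P in Q l j, u P) ^ 2 := by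
      field_simp
      ring
    rw [h5]
    linarith
  exact le_of_mul_le_mul_left h4 h3

/-- the global estimate -/
lemma all_cubes (h_BOX : T_BOX) (G : Set X) (u : X → ℝ) (U : Fin 3 → X → ℝ) (l R : ℝ)
    (hl : 0 < l) (h : H1 e3 G u U) (hz : ∀ᵐ P : X, P ∉ G → u P = 0) (hG : ∀ P ∈ G, ‖P‖ ≤ R)
    {N : ℕ} (hN : R / (2 * l) + 1 ≤ N) :
    ∫ P, u P ^ 2 ≤ 6 * l ^ 2 * (∫ P, ∑ i, U i P ^ 2) +
      (8 * l ^ 3)⁻¹ * ∑ j ∈ S N, (∫ P in Q l j, u P) ^ 2 := by
  have iu : Integrable (fun P => u P ^ 2) volume := h.1.integrable_sq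
  have iU : Integrable (fun P => ∑ i, U i P ^ 2) volume :=
    integrable_finsetSum _ fun i _ => (h.2.1 i).integrable_sq
  have hm : MeasurableSet (⋃ j ∈ S N, Q l j) :=
    Finset.measurableSet_biUnion _ fun j _ => Q_meas l j
  have hd : Set.Pairwise (↑(S N)) (Function.onFun Disjoint (Q l)) :=
    fun i _ j _ hij => Q_disj l hl hij
  have h1 : ∫ P, u P ^ 2 = ∫ P in ⋃ j ∈ S N, Q l j, u P ^ 2 := by
    rw [← integral_indicator hm]
    refine integral_congr_ae ?_
    filter_upwards [ae_cover l R hl hN, hz] with P h1 h2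
    by_cases hP : P ∈ ⋃ j ∈ S N, Q l j
    · rw [indicator_of_mem hP]
    · rw [indicator_of_notMem hP]
      have h3 : P ∉ G := by
        intro h4
        obtain ⟨j, hj, hj'⟩ := h1 (hG P h4)
        exact hP (Set.mem_biUnion hj hj')
      rw [h2 h3]
      simp
  have h2 : ∫ P in ⋃ j ∈ S N, Q l j, u P ^ 2 = ∑ j ∈ S N, ∫ P in Q l j, u P ^ 2 :=
    integral_biUnion_finset _ (fun j _ => Q_meas l j) hd fun j _ => iu.integrableOn
  have h3 : ∑ j ∈ S N, ∫ P in Q l j, ∑ i, U i P ^ 2 ≤ ∫ P, ∑ i, U i P ^ 2 := by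
    rw [← integral_biUnion_finset _ (fun j _ => Q_meas l j) hd fun j _ => iU.integrableOn]
    exact setIntegral_le_integral iU
      (Eventually.of_forall fun P => Finset.sum_nonneg fun i _ => sq_nonneg _)
  rw [h1, h2]
  calc ∑ j ∈ S N, ∫ P in Q l j, u P ^ 2
      ≤ ∑ j ∈ S N, (6 * l ^ 2 * (∫ P in Q l j, ∑ i, U i P ^ 2) +
        (8 * l ^ 3)⁻¹ * (∫ P in Q l j, u P) ^ 2) :=
        Finset.sum_le_sum fun j _ => one_cube h_BOX G u U l hl h j
    _ = 6 * l ^ 2 * (∑ j ∈ S N, ∫ P in Q l j, ∑ i, U i P ^ 2) +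
        (8 * l ^ 3)⁻¹ * ∑ j ∈ S N, (∫ P in Q l j, u P) ^ 2 := by
        rw [Finset.sum_add_distrib, ← Finset.mul_sum, ← Finset.mul_sum]
    _ ≤ _ := by
        gcongr

/-- the averages are bounded -/
lemma avg_bound (u : X → ℝ) (hu : MemLp u 2 volume) (K : ℝ) (hK : ∫ P, u P ^ 2 ≤ K) (l : ℝ)
    (hl : 0 < l) (j : J) : |∫ P in Q l j, u P| ≤ K + 8 * l ^ 3 := by
  have hv := vol_Q l hl j
  have : IsFiniteMeasure (volume.restrict (Q l j)) := ⟨by
    rw [Measure.restrict_apply_univ, hv]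
    exact ENNReal.ofReal_lt_top⟩
  have hu' : MemLp u 2 (volume.restrict (Q l j)) := hu.restrict _
  have i2 : Integrable (fun P => u P ^ 2) (volume.restrict (Q l j)) := hu'.integrable_sq
  have i1 : Integrable u (volume.restrict (Q l j)) := hu'.integrable (by norm_num)
  have h1 : |∫ P in Q l j, u P| ≤ ∫ P in Q l j, |u P| := abs_integral_le_integral_abs
  have h2 : ∫ P in Q l j, |u P| ≤ ∫ P in Q l j, (u P ^ 2 + 1) := by
    refine integral_mono i1.abs (i2.add (integrable_const _)) fun P => ?_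
    show |u P| ≤ u P ^ 2 + 1
    nlinarith [sq_abs (u P), sq_nonneg (|u P| - 1), abs_nonneg (u P)]
  have h3 : ∫ P in Q l j, (u P ^ 2 + 1) = (∫ P in Q l j, u P ^ 2) + 8 * l ^ 3 := by
    rw [integral_add i2 (integrable_const _), setIntegral_const, smul_eq_mul, mul_one,
      Measure.real, hv, ENNReal.toReal_ofReal (by positivity)]
  have h4 : ∫ P in Q l j, u P ^ 2 ≤ ∫ P, u P ^ 2 :=
    setIntegral_le_integral hu.integrable_sq (Eventually.of_forall fun P => sq_nonneg _)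
  linarith

/-- completeness of `L²` -/
lemma complete (u : ℕ → X → ℝ) (hu : ∀ n, MemLp (u n) 2 volume)
    (h : ∀ ε : ℝ, 0 < ε → ∃ N, ∀ n ≥ N, ∀ m ≥ N, ∫ P, (u n P - u m P) ^ 2 ≤ ε) :
    ∃ w, MemLp w 2 volume ∧
      Tendsto (fun n => eLpNorm (fun P => u n P - w P) 2 volume) atTop (𝓝 0) := by
  have sqn : ∀ {v : X → ℝ} (hv : MemLp v 2 volume), ∫ P, v P ^ 2 = ‖hv.toLp v‖ ^ 2 := by
    intro v hv
    rw [← real_inner_self_eq_norm_sq, L2.inner_def]
    apply integral_congr_ae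
    filter_upwards [hv.coeFn_toLp] with P hP
    rw [hP]
    simp [sq]
  have hc : CauchySeq (fun n => (hu n).toLp (u n)) := by
    rw [Metric.cauchySeq_iff]
    intro ε hε
    obtain ⟨N, hN⟩ := h (ε ^ 2 / 4) (by positivity)
    refine ⟨N, fun n hn m hm => ?_⟩
    rw [dist_eq_norm, ← MemLp.toLp_sub]
    have h1 := hN n hn m hm
    have h1' : ‖((hu n).sub (hu m)).toLp (u n - u m)‖ ^ 2 ≤ ε ^ 2 / 4 := by
      rw [← sqn ((hu n).sub (hu m))]
      exact h1
    have h2 : ‖((hu n).sub (hu m)).toLp (u n - u m)‖ ≤ ε / 2 := by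
      apply le_of_sq_le_sq _ (by positivity)
      calc _ ≤ _ := h1'
        _ = _ := by ring
    linarith
  obtain ⟨W, hW⟩ := cauchySeq_tendsto_of_complete hc
  refine ⟨W, Lp.memLp W, ?_⟩
  have h3 : Tendsto (fun n => (hu n).toLp (u n)) atTop (𝓝 ((Lp.memLp W).toLp W)) := by
    rw [Lp.toLp_coeFn]
    exact hW
  exact (Lp.tendsto_Lp_iff_tendsto_eLpNorm'' u hu W (Lp.memLp W)).1 h3

end REL_

open REL_ in
/-- Rellich's theorem -/
theorem p_REL (h_BOX : T_BOX) (h_ZRO : T_ZRO) : T_REL := by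
  intro G f F K hG hf hK hK'
  obtain ⟨R, hR⟩ := hG.exists_norm_le
  -- the common subsequence
  let ι : Type := ℕ × J
  let lv : ℕ → ℝ := fun m => 1 / ((m : ℝ) + 1)
  have hlv : ∀ m, 0 < lv m := fun m => by
    show 0 < 1 / ((m : ℝ) + 1)
    positivity
  let x : ℕ → ι → ℝ := fun n q => ∫ P in Q (lv q.1) q.2, f n P
  let s : Set (ι → ℝ) := Set.pi univ fun q => Icc (-(K + 8 * lv q.1 ^ 3)) (K + 8 * lv q.1 ^ 3)
  have hs : IsCompact s := isCompact_univ_pi fun q => isCompact_Icc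
  have hx : ∀ n, x n ∈ s := by
    intro n q _
    have := avg_bound (f n) (hf n).1 K (hK n) (lv q.1) (hlv q.1) q.2
    rw [abs_le] at this
    exact this
  obtain ⟨y, -, ns, hns, hy⟩ := hs.tendsto_subseq hx
  have hy' : ∀ q : ι, Tendsto (fun n => x (ns n) q) atTop (𝓝 (y q)) :=
    fun q => (tendsto_pi_nhds.1 hy) q
  -- the Cauchy property
  have hcau : ∀ ε : ℝ, 0 < ε → ∃ N, ∀ n ≥ N, ∀ m ≥ N,
      ∫ P, (f (ns n) P - f (ns m) P) ^ 2 ≤ ε := by
    intro ε hε
    have hK0 : 0 ≤ K := le_trans (integral_nonneg fun P => sq_nonneg _) (hK 0)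
    obtain ⟨m₀, hm₀⟩ : ∃ m₀ : ℕ, 24 * K * lv m₀ ^ 2 < ε / 2 := by
      have t1 : Tendsto (fun m : ℕ => lv m) atTop (𝓝 0) :=
        tendsto_one_div_add_atTop_nhds_zero_nat
      have t2 : Tendsto (fun m : ℕ => 24 * K * lv m ^ 2) atTop (𝓝 (24 * K * 0 ^ 2)) :=
        (t1.pow 2).const_mul _
      have t3 : (24 * K * 0 ^ 2 : ℝ) < ε / 2 := by
        simp only [ne_eq, OfNat.ofNat_ne_zero, not_false_eq_true, zero_pow, mul_zero]
        positivity
      exact (t2.eventually (gt_mem_nhds t3)).exists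
    set l := lv m₀ with hl
    have hl0 : 0 < l := hlv m₀
    obtain ⟨N₀, hN₀⟩ := exists_nat_ge (R / (2 * l) + 1)
    -- the sum of squares of the differences is small
    have t4 : Tendsto (fun p : ℕ × ℕ => (8 * l ^ 3)⁻¹ *
        ∑ j ∈ S N₀, (x (ns p.1) (m₀, j) - x (ns p.2) (m₀, j)) ^ 2) (atTop ×ˢ atTop)
        (𝓝 ((8 * l ^ 3)⁻¹ * ∑ j ∈ S N₀, (y (m₀, j) - y (m₀, j)) ^ 2)) := by
      refine Tendsto.const_mul _ (tendsto_finsetSum _ fun j _ => ?_)
      refine Tendsto.pow ?_ 2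
      exact ((hy' (m₀, j)).comp tendsto_fst).sub ((hy' (m₀, j)).comp tendsto_snd)
    have t5 : ((8 * l ^ 3)⁻¹ * ∑ j ∈ S N₀, (y (m₀, j) - y (m₀, j)) ^ 2) < ε / 2 := by
      simp only [sub_self, ne_eq, OfNat.ofNat_ne_zero, not_false_eq_true, zero_pow,
        Finset.sum_const_zero, mul_zero]
      positivity
    have t6 := t4.eventually (gt_mem_nhds t5)
    rw [prod_atTop_atTop_eq, eventually_atTop] at t6
    obtain ⟨⟨a, b⟩, hab⟩ := t6
    refine ⟨max a b, fun n hn m hm => ?_⟩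
    have h1 := hab (n, m) ⟨(le_max_left a b).trans hn, (le_max_right a b).trans hm⟩
    have hd : H1 e3 G (fun P => f (ns n) P - f (ns m) P)
        (fun i P => F (ns n) i P - F (ns m) i P) := (hf (ns n)).sub (hf (ns m))
    have hz : ∀ᵐ P : X, P ∉ G → f (ns n) P - f (ns m) P = 0 := by
      filter_upwards [h_ZRO X (Fin 3) e3 G _ _ hd] with P hP hPG
      exact (hP hPG).1
    have h2 := all_cubes h_BOX G _ _ l R hl0 hd hz hR hN₀
    have h3 : ∫ P, ∑ i, (F (ns n) i P - F (ns m) i P) ^ 2 ≤ 4 * K := by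
      have ia : ∀ k, Integrable (fun P => ∑ i, F k i P ^ 2) volume := fun k =>
        integrable_finsetSum _ fun i _ => ((hf k).2.1 i).integrable_sq
      have h4 : ∫ P, ∑ i, (F (ns n) i P - F (ns m) i P) ^ 2 ≤
          ∫ P, (2 * (∑ i, F (ns n) i P ^ 2) + 2 * ∑ i, F (ns m) i P ^ 2) := by
        refine integral_mono (integrable_finsetSum _ fun i _ => (hd.2.1 i).integrable_sq)
          (((ia _).const_mul 2).add ((ia _).const_mul 2)) fun P => ?_
        show ∑ i, (F (ns n) i P - F (ns m) i P) ^ 2 ≤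
          2 * (∑ i, F (ns n) i P ^ 2) + 2 * ∑ i, F (ns m) i P ^ 2
        rw [Finset.mul_sum, Finset.mul_sum, ← Finset.sum_add_distrib]
        refine Finset.sum_le_sum fun i _ => ?_
        nlinarith [sq_nonneg (F (ns n) i P + F (ns m) i P)]
      rw [integral_add ((ia _).const_mul 2) ((ia _).const_mul 2), integral_const_mul,
        integral_const_mul] at h4
      have h5 := hK' (ns n)
      have h6 := hK' (ns m)
      linarith
    have h7 : ∀ j, ∫ P in Q l j, (f (ns n) P - f (ns m) P) =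
        x (ns n) (m₀, j) - x (ns m) (m₀, j) := by
      intro j
      have : IsFiniteMeasure (volume.restrict (Q l j)) := ⟨by
        rw [Measure.restrict_apply_univ, vol_Q l hl0]
        exact ENNReal.ofReal_lt_top⟩
      have i1 : ∀ k, Integrable (f k) (volume.restrict (Q l j)) := fun k =>
        ((hf k).1.restrict _).integrable (by norm_num)
      rw [integral_sub (i1 _) (i1 _)]
    simp only [h7] at h2
    have h8 : 6 * l ^ 2 * (∫ P, ∑ i, (F (ns n) i P - F (ns m) i P) ^ 2) ≤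
        6 * l ^ 2 * (4 * K) := by
      gcongr
    have h9 : 6 * l ^ 2 * (4 * K) < ε / 2 := by
      calc 6 * l ^ 2 * (4 * K) = 24 * K * l ^ 2 := by ring
        _ < ε / 2 := hm₀
    have h10 : (8 * l ^ 3)⁻¹ *
        ∑ j ∈ S N₀, (x (ns n) (m₀, j) - x (ns m) (m₀, j)) ^ 2 < ε / 2 := h1
    linarith
  obtain ⟨g, hg, hg'⟩ := complete (fun n => f (ns n)) (fun n => (hf _).1) hcau
  exact ⟨ns, g, hns, hg, hg'⟩

end MGS
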