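import Pool.Agent.MGS.TB

/-!
# MGS: STR (strict monotonicity)
-/

set_option autoImplicit false

open MeasureTheory Filter Topology Metric Set
open scoped ENNReal NNReal ContDiff

noncomputable section

namespace MGS

namespace STR_

/-- the part of a star-shaped domain in the half space is nonempty -/
theorem plus_nonempty {G : Set X} (hS : Star G) : {P : X | P ∈ G ∧ 0 < P.1.re}.Nonempty := by
  obtain ⟨P, hP⟩ := hS.nonempty
  have h1 : (((‖P.1‖ : ℝ) : ℂ), P.2) ∈ G := hS.star P hP _ (by simp)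
  obtain ⟨r, hr, hball⟩ := Metric.isOpen_iff.1 hS.isOpen _ h1
  refine ⟨(((‖P.1‖ + r / 2 : ℝ) : ℂ), P.2), hball ?_, ?_⟩
  · rw [mem_ball, Prod.dist_eq]
    apply max_lt
    · show dist (((‖P.1‖ + r / 2 : ℝ) : ℂ)) ((‖P.1‖ : ℝ) : ℂ) < r
      rw [dist_eq_norm, ← Complex.ofReal_sub, Complex.norm_real, Real.norm_eq_abs]
      have : ‖P.1‖ + r / 2 - ‖P.1‖ = r / 2 := by ring
      rw [this, abs_of_pos (by positivity)]
      linarith
    · show dist P.2 P.2 < r
      rw [dist_self]
      exact hr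
  · show 0 < (((‖P.1‖ + r / 2 : ℝ) : ℂ)).re
    rw [Complex.ofReal_re]
    have := norm_nonneg P.1
    linarith

/-- a long horizontal translation leaves a bounded set -/
theorem leave {G : Set X} (hb : Bornology.IsBounded G) :
    ∃ h : ℝ, 0 ≤ h ∧ ∀ P : X, 0 < P.1.re → sh h P ∉ G := by
  obtain ⟨R, hR⟩ := hb.subset_closedBall (0 : X)
  refine ⟨|R| + 1, by positivity, fun P hP hmem => ?_⟩
  have h1 := hR hmem
  rw [mem_closedBall, dist_zero_right] at h1
  have h2 : ‖(sh (|R| + 1) P).1‖ ≤ R := (norm_fst_le _).trans h1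
  have h3 : (sh (|R| + 1) P).1.re ≤ ‖(sh (|R| + 1) P).1‖ :=
    (le_abs_self _).trans (Complex.abs_re_le_norm _)
  have h4 : (sh (|R| + 1) P).1.re = P.1.re + (|R| + 1) := by
    show (P.1 + ((|R| + 1 : ℝ) : ℂ)).re = _
    rw [Complex.add_re, Complex.ofReal_re]
  have h5 := le_abs_self R
  linarith

end STR_

theorem p_STR (h_STL : T_STL) (h_MON : T_MON) (h_DIC : T_DIC) (h_LGL : T_LGL) (h_CON : T_CON)
    (h_DQI : T_DQI) (h_ZRO : T_ZRO) (h_GPO : T_GPO) (h_WEX : T_WEX) : T_STR := by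
  intro B G v F hB hS hG
  have hw : H1 e3 G (ww B v) (wF B v F) := (h_WEX B G v F hS.isOpen hS.bounded hG.h).1
  have hmon := h_MON B G v F hB hS hG
  obtain ⟨-, hopen, hconn⟩ := h_CON G hS
  have hloc : ∀ P ∈ {P : X | P ∈ G ∧ 0 < P.1.re}, ∃ r : ℝ, 0 < r ∧
      ((∀ᵐ Q : X, Q ∈ ball P r → - wF B v F 0 Q = 0) ∨
        (∀ᵐ Q : X, Q ∈ ball P r → 0 < - wF B v F 0 Q)) := by
    intro P₀ hP₀
    obtain ⟨s, hs, hsub⟩ := Metric.nhds_basis_closedBall.mem_iff.1 (hopen.mem_nhds hP₀)
    have hsub' : closedBall P₀ (2 * (s / 2)) ⊆ {P : X | P ∈ G ∧ 0 < P.1.re} := by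
      have e1 : 2 * (s / 2) = s := by ring
      rw [e1]
      exact hsub
    have hs2 : 0 < s / 2 := by positivity
    obtain ⟨C, hC, hbd⟩ := h_STL B G v F hB hS hG P₀ (s / 2) hs2 hsub'
    refine ⟨s / 2, hs2, ?_⟩
    refine h_DIC (fun P => - wF B v F 0 P) (ball P₀ (s / 2)) C ?_ measurableSet_ball
      measure_ball_lt_top.ne ?_ hC hbd
    · exact (hw.memLp' 0).1.aemeasurable.neg
    · filter_upwards [hmon] with P hP hPb
      have h1 : P ∈ closedBall P₀ s := by
        rw [mem_ball] at hPb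
        rw [mem_closedBall]
        linarith
      have h2 := hP (hsub h1).2
      linarith
  rcases h_LGL (fun P => - wF B v F 0 P) _ hopen hconn hloc with hzero | hpos
  · exfalso
    have hz := h_ZRO X (Fin 3) e3 G _ _ hw
    obtain ⟨h, hh, hleave⟩ := STR_.leave hS.bounded
    have hw' : H1 e3 univ (fun P => -1 * ww B v P) (fun i P => -1 * wF B v F i P) :=
      (hw.mono (subset_univ _)).smul (-1)
    have hdq := h_DQI _ _ 0 h hw' hh (by
      filter_upwards [hzero, hz] with P h1 h2 hP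
      by_cases hPG : P ∈ G
      · have h3 := h1 ⟨hPG, hP⟩
        show -1 * wF B v F 0 P ≤ 0
        linarith
      · have h3 := (h2 hPG).2 0
        show -1 * wF B v F 0 P ≤ 0
        linarith)
    have hnull : volume {P : X | P ∈ G ∧ 0 < P.1.re} = 0 := by
      have hae : ∀ᵐ P : X, ¬ (P ∈ G ∧ 0 < P.1.re) := by
        filter_upwards [hdq, h_GPO B G v F hS hG] with P h1 h2 h3
        have h4 := h1 h3.2
        have h5 : ww B v (sh h P) = 0 := by
          unfold ww
          rw [(hG.zero _ (hleave P h3.2)).1, mul_zero]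
        have h6 : 0 < ww B v P := mul_pos (Real.exp_pos _) (h2 h3.1)
        have h7 : -1 * ww B v (sh h P) ≤ -1 * ww B v P := h4
        rw [h5] at h7
        linarith
      rw [ae_iff] at hae
      refine measure_mono_null (fun P hP => ?_) hae
      exact not_not.2 hP
    exact (hopen.measure_pos volume (STR_.plus_nonempty hS)).ne' hnull
  · filter_upwards [hpos] with P hP h1 h2
    have := hP ⟨h1, h2⟩
    linarith

end MGS
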