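import Pool.Agent.MGS.TG

/-!
# MGS: target ZCT (helper12)
-/

set_option autoImplicit false

open MeasureTheory Filter Topology Metric Set
open scoped ENNReal NNReal ContDiff

noncomputable section

namespace MGS

theorem ZCT_mp (τ : X) : MeasurePreserving (fun P : X => τ + P) volume volume :=
  measurePreserving_add_left volume τ

/-- translation of an `H¹` function -/
theorem ZCT_isH1 {φ : X → ℝ} {F : Fin 3 → X → ℝ} (h : IsH1 φ F) (τ : X) :
    IsH1 (fun P => φ (-τ + P)) (fun i P => F i (-τ + P)) where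
  memLp := h.memLp.comp_measurePreserving (ZCT_mp (-τ))
  memLp' i := (h.memLp' i).comp_measurePreserving (ZCT_mp (-τ))
  weak i η hη hc := by
    have e1 : ∫ P, φ (-τ + P) * fderiv ℝ η P (e3 i) =
        ∫ P, φ P * fderiv ℝ η (τ + P) (e3 i) := by
      rw [← integral_add_left_eq_self (μ := (volume : Measure X))
        (fun P => φ (-τ + P) * fderiv ℝ η P (e3 i)) τ]
      refine integral_congr_ae (Eventually.of_forall fun P => ?_)
      show φ (-τ + (τ + P)) * fderiv ℝ η (τ + P) (e3 i) = φ P * fderiv ℝ η (τ + P) (e3 i)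
      rw [neg_add_cancel_left]
    have e2 : ∫ P, F i (-τ + P) * η P = ∫ P, F i P * η (τ + P) := by
      rw [← integral_add_left_eq_self (μ := (volume : Measure X))
        (fun P => F i (-τ + P) * η P) τ]
      refine integral_congr_ae (Eventually.of_forall fun P => ?_)
      show F i (-τ + (τ + P)) * η (τ + P) = F i P * η (τ + P)
      rw [neg_add_cancel_left]
    have h1 : ContDiff ℝ ∞ (fun P => η (τ + P)) := hη.comp (contDiff_const.add contDiff_id)
    have h2 : HasCompactSupport (fun P => η (τ + P)) :=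
      hc.comp_homeomorph (Homeomorph.addLeft τ)
    have h3 := h.weak i _ h1 h2
    have e3 : ∀ P, fderiv ℝ (fun P => η (τ + P)) P = fderiv ℝ η (τ + P) := fun P =>
      fderiv_comp_add_left (f := η) τ
    rw [e1, e2, ← h3]
    refine integral_congr_ae (Eventually.of_forall fun P => ?_)
    show φ P * fderiv ℝ η (τ + P) (MGS.e3 i) =
      φ P * fderiv ℝ (fun P => η (τ + P)) P (MGS.e3 i)
    rw [e3]

/-- translation of a set of capacity zero -/
theorem p_ZCT (h_WK : T_WK) : T_ZCT := by
  intro E τ hE ε hε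
  obtain ⟨O, φ, F, hO, hEO, hH, -, h1, hint⟩ := hE ε hε
  have himg : (fun P => τ + P) '' O = (fun P => -τ + P) ⁻¹' O := by
    ext P
    constructor
    · rintro ⟨Q, hQ, rfl⟩
      show -τ + (τ + Q) ∈ O
      rw [neg_add_cancel_left]
      exact hQ
    · intro hP
      exact ⟨-τ + P, hP, add_neg_cancel_left τ P⟩
  refine ⟨(fun P => τ + P) '' O, fun P => φ (-τ + P), fun i P => F i (-τ + P), ?_,
    image_mono hEO, ZCT_isH1 (h_WK univ φ F hH) τ, ?_, ?_⟩
  · rw [himg]
    exact hO.preimage (by fun_prop)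
  · have := (ZCT_mp (-τ)).quasiMeasurePreserving.ae h1
    filter_upwards [this] with P hP hPO
    rw [himg] at hPO
    exact hP hPO
  · have : ∫ P, (φ (-τ + P) ^ 2 + ∑ i, F i (-τ + P) ^ 2) = ∫ P, (φ P ^ 2 + ∑ i, F i P ^ 2) :=
      integral_add_left_eq_self (μ := (volume : Measure X))
        (fun P => φ P ^ 2 + ∑ i, F i P ^ 2) (-τ)
    show ∫ P, (φ (-τ + P) ^ 2 + ∑ i, F i (-τ + P) ^ 2) < ε
    rw [this]
    exact hint

end MGS
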