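import Pool.Agent.MGS.TA

/-!
# MGS: targets B (the real ground state; helper27)

Each target is a proposition `T_XXX`; its docstring contains the complete proof.  Other targets
(of all sections) may be taken as hypotheses of the theorem to be proved.
-/

set_option autoImplicit false

open MeasureTheory Filter Topology Metric Set
open scoped ENNReal NNReal ContDiff

noncomputable section

namespace MGS

/-! ### General potentials -/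

/-- the energy `∫ |∇f|² + q f²` -/
def EQ (q : X → ℝ) (f : X → ℝ) (F : Fin 3 → X → ℝ) : ℝ :=
  ∫ P, (∑ i : Fin 3, F i P ^ 2 + q P * f P ^ 2)

/-- the bilinear form `∫ ∇f·∇g + q f g` -/
def BQ (q : X → ℝ) (f : X → ℝ) (F : Fin 3 → X → ℝ) (g : X → ℝ) (Γ : Fin 3 → X → ℝ) : ℝ :=
  ∫ P, (∑ i : Fin 3, F i P * Γ i P + q P * (f P * g P))

/-- `G` bounded open, `q ≥ 0` continuous, and `L ∫ φ² ≤ ∫ |∇φ|² + q φ²` for test functions -/
structure Adm (q : X → ℝ) (G : Set X) (L : ℝ) : Prop where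
  isOpen : IsOpen G
  bounded : Bornology.IsBounded G
  cont : Continuous q
  nn : ∀ P, 0 ≤ q P
  lb : ∀ φ : X → ℝ, Test G φ → L * ∫ P, φ P ^ 2 ≤ EQ q φ (fun i => pd e3 i φ)

/-- `(f, F) ∈ H¹₀(G)` attains the lower bound `L` -/
structure Mz (q : X → ℝ) (G : Set X) (L : ℝ) (f : X → ℝ) (F : Fin 3 → X → ℝ) : Prop where
  adm : Adm q G L
  h : H1 e3 G f F
  le : EQ q f F ≤ L * ∫ P, f P ^ 2

/-- the translation by `h` in the first horizontal direction -/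
def sh (h : ℝ) (P : X) : X := (P.1 + (h : ℂ), P.2)

/-- the reflection of the first coordinate in the plane `{x₁ = -h/2}` -/
def rf (h : ℝ) (P : X) : X := (-(starRingEnd ℂ) P.1 - (h : ℂ), P.2)

/-- the rotation by `w` about the vertical axis -/
def ro (w : ℂ) (P : X) : X := (w * P.1, P.2)

/-- horizontal coordinates -/
def xc (i : Fin 3) (P : X) : ℝ := ![P.1.re, P.1.im, 0] i

/-- `w = e^{B|x|²/4} v` -/
def ww (B : ℝ) (v : X → ℝ) (P : X) : ℝ := Real.exp (B / 4 * ‖P.1‖ ^ 2) * v P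

/-- the gradient of `w = e^{B|x|²/4} v` -/
def wF (B : ℝ) (v : X → ℝ) (F : Fin 3 → X → ℝ) (i : Fin 3) (P : X) : ℝ :=
  Real.exp (B / 4 * ‖P.1‖ ^ 2) * (F i P + B / 2 * xc i P * v P)

/-- the weight `γ = e^{-B|x|²/2}` -/
def gm (B : ℝ) (P : X) : ℝ := Real.exp (-(B / 2 * ‖P.1‖ ^ 2))

/-- EQC (from ZRO).  Integrability and continuity of the forms.  `G ⊆ closedBall 0 R`, `q` is
bounded by `M` there, so `|q f g| ≤ M |f g|` a.e. and products of two `L²` functions are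
integrable (`MemLp.integrable_mul`).  For the second part let `φ` be close to `f` in `H1` sense:
with `φ n` from `H1.seq`, `L ∫ (φ n)² ≤ EQ q (φ n) ..`, and both sides converge since
`|∫ (φ n)² - ∫ f²| ≤ ∫ |φ n - f| |φ n + f| ≤ ‖φ n - f‖₂ ‖φ n + f‖₂ → 0`, the same for the
derivatives and for the weight `q 1_G` bounded by `M`. -/
def T_EQC : Prop := ∀ (q : X → ℝ) (G : Set X) (f : X → ℝ) (F : Fin 3 → X → ℝ), H1 e3 G f F →
  Continuous q → Bornology.IsBounded G →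
  (∀ (g : X → ℝ) (Γ : Fin 3 → X → ℝ), H1 e3 G g Γ →
    Integrable (fun P => f P * g P) ∧ Integrable (fun P => q P * (f P * g P)) ∧
    ∀ i, Integrable (fun P => F i P * Γ i P)) ∧
  ∀ L : ℝ, Adm q G L → L * ∫ P, f P ^ 2 ≤ EQ q f F

/-- WKE (from EQC).  The weak equation of a minimizer.  For `t : ℝ` the function `f + t φ` is in
`H1 e3 G` (`H1.add`, `H1.smul`), so by EQC `0 ≤ EQ q (f + tφ) .. - L ∫ (f + tφ)²
= (EQ q f F - L ∫ f²) + 2t (BQ - L ∫ f φ) + t² (EQ q φ Φ - L ∫ φ²)`, where the first bracket is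
`≤ 0`.  So `0 ≤ 2 t b + t² a` for all `t` with `a ≥ 0`; this forces `b = 0`
(take `t = -b/(a+1)`). -/
def T_WKE : Prop := ∀ (q : X → ℝ) (G : Set X) (L : ℝ) (f : X → ℝ) (F : Fin 3 → X → ℝ),
  Mz q G L f F → ∀ (φ : X → ℝ) (Φ : Fin 3 → X → ℝ), H1 e3 G φ Φ →
    BQ q f F φ Φ = L * ∫ P, f P * φ P

/-- LOG (from WKE, ZRO, BCH, PRL).  Logarithmic estimate.  Test the
weak equation with `g = η²/(f + ε)`, which is in `H1 e3 G`: `g = η² N(f) + η²/ε` with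
`N t = 1/(|t| + ε) - 1/ε` (Lipschitz, `N 0 = 0`), and `f = |f|` a.e.; its gradient is
`2 η ∇η/(f + ε) - η² F/(f + ε)²`.  With `S = ∫ η² |F|²/(f+ε)²` the weak equation reads
`S = 2 ∫ η ∇η·F/(f+ε) + ∫ (q - L) f η²/(f+ε)`; the first term is `≤ S/2 + 2 ∫ |∇η|²`
(`2 x·y ≤ |x|²/2 + 2 |y|²` with `x = ηF/(f+ε)`, `y = ∇η`) and the second one is
`≤ ∫ (q + |L|) η²` because `0 ≤ f/(f+ε) ≤ 1`.  So `C = 4 ∫ |∇η|² + 2 ∫ (q + |L|) η²`. The integrand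
is integrable: `η` is bounded and `F i ∈ L²`, `1/(f+ε) ≤ 1/ε`. -/
def T_LOG : Prop := ∀ (q : X → ℝ) (G : Set X) (L : ℝ) (f : X → ℝ) (F : Fin 3 → X → ℝ),
  Mz q G L f F → (∀ᵐ P, 0 ≤ f P) → ∀ η : X → ℝ, Test G η → ∃ C : ℝ, ∀ ε : ℝ, 0 < ε →
    Integrable (fun P => η P ^ 2 * ∑ i : Fin 3, F i P ^ 2 / (f P + ε) ^ 2) ∧
    ∫ P, η P ^ 2 * ∑ i : Fin 3, F i P ^ 2 / (f P + ε) ^ 2 ≤ C

/-- the double integral of `(log (g + ε) - log (g' + ε))²` over `Q × Q` -/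
def dlog (g : X → ℝ) (Q : Set X) (ε : ℝ) : ℝ≥0∞ :=
  ∫⁻ P in Q, ∫⁻ P' in Q, ENNReal.ofReal ((Real.log (g P + ε) - Real.log (g P' + ε)) ^ 2)

/-- DIC.  Dichotomy.  Let `A = {g = 0} ∩ Q` and, for `t > 0`, `D = {g ≥ t} ∩ Q`.  On `A × D` the
integrand is `(log ((g' + ε)/ε))² ≥ (log (t/ε))²` for `ε < t`, so
`|A| |D| (log (t/ε))² ≤ C` for all small `ε`; letting `ε → 0`, `|A| = 0` or `|D| = 0`.  If
`|A| ≠ 0` this holds for all `t = 1/(n+1)`, so `g = 0` a.e. on `Q`; if `|A| = 0` then `g > 0` a.e. on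
`Q`. -/
def T_DIC : Prop := ∀ (g : X → ℝ) (Q : Set X) (C : ℝ≥0∞), AEMeasurable g volume →
  MeasurableSet Q → volume Q ≠ ⊤ → (∀ᵐ P, P ∈ Q → 0 ≤ g P) → C ≠ ⊤ →
  (∀ ε : ℝ, 0 < ε → dlog g Q ε ≤ C) → (∀ᵐ P, P ∈ Q → g P = 0) ∨ (∀ᵐ P, P ∈ Q → 0 < g P)

/-- LGL.  From local to global.  The sets `A = {P ∈ G | ∃ r > 0, g = 0 a.e. on ball P r}` and
`A' = {P ∈ G | ∃ r > 0, g > 0 a.e. on ball P r}` are open (a smaller ball around a point of the ball),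
they cover `G`, and they are disjoint (a ball has positive measure).  `G` is preconnected, so one
of them is `G` (or `G` is empty).  A property which holds a.e. on a neighbourhood of each point of
`G` holds a.e. on `G` (`measure_null_of_locally_null`). -/
def T_LGL : Prop := ∀ (g : X → ℝ) (G : Set X), IsOpen G → IsPreconnected G →
  (∀ P ∈ G, ∃ r : ℝ, 0 < r ∧ ((∀ᵐ Q, Q ∈ ball P r → g Q = 0) ∨ (∀ᵐ Q, Q ∈ ball P r → 0 < g Q))) →
  (∀ᵐ P, P ∈ G → g P = 0) ∨ (∀ᵐ P, P ∈ G → 0 < g P)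

/-- POS (from LOG, DIC, LGL, BCH, BOX, ZRO).  Strict positivity.  Let `P₀ ∈ G`,
`closedBall P₀ (2r) ⊆ G` and `η` a test function in `G` with `η = 1` on `closedBall P₀ (2r)`
(`exists_contDiff_tsupport_subset` or similar; make `r` smaller if needed);
`ball P₀ r ⊆ cube P₀ r ⊆ closedBall P₀ (2r)`.  For `ε > 0` the function `N(f) = log (1 + f/ε)` is in
`H1 e3 G` with gradient `F/(f + ε)` (BCH with `η t = 1/(|t| + ε)`; `f ≥ 0` a.e.), and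
`log (f + ε) - log (f' + ε) = N(f) - N(f')`.  By BOX and LOG the double integral
`dlog f (cube P₀ r) ε` is `≤ C' ∫_{cube} |F|²/(f+ε)² ≤ C' C`, for all `ε > 0` (the Bochner double
integral of a nonnegative integrable function is the lintegral).  DIC on the cube and LGL
(`ball P₀ r ⊆ cube P₀ r`): `f = 0` a.e. on `G` or `f > 0` a.e. on `G`; in the first case
`∫ f² = 0` (ZRO). -/
def T_POS : Prop := ∀ (q : X → ℝ) (G : Set X) (L : ℝ) (f : X → ℝ) (F : Fin 3 → X → ℝ),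
  Mz q G L f F → IsPreconnected G → (∀ᵐ P, 0 ≤ f P) → ∫ P, f P ^ 2 ≠ 0 → ∀ᵐ P, P ∈ G → 0 < f P

/-- UNR (from WKE, EQC, POS, BCH or MOD, ZRO).  Uniqueness.  Let `c = ∫ f g` and
`w = g - c f`.  By WKE for `f` and `g`, `EQ q w .. = L ∫ w²` (expand), so `w` is again `Mz`, and
`∫ f w = 0`.  `|w|` (gradient `sign(w) ∇w`, and `∇w = 0` a.e. on `{w = 0}`) has the same energy, so it is
`Mz`; `w₊ = (|w| + w)/2` is `Mz` too (expand with WKE again).  Suppose `∫ w² ≠ 0`.  POS: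
`|w| > 0` and `f > 0` a.e. on `G`.  If `∫ w₊² ≠ 0` then `w₊ > 0`, so `w > 0` a.e. on `G` and
`∫ f w > 0` (`f w = 0` a.e. off `G`; `G` is not null since `∫ f² = 1`); otherwise `w ≤ 0`, so `w < 0`
a.e. on `G` and `∫ f w < 0`.  Contradiction; so `w = 0` a.e. -/
def T_UNR : Prop := ∀ (q : X → ℝ) (G : Set X) (L : ℝ) (f g : X → ℝ) (F Γ : Fin 3 → X → ℝ),
  Mz q G L f F → Mz q G L g Γ → IsPreconnected G → (∀ᵐ P, 0 ≤ f P) → ∫ P, f P ^ 2 = 1 →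
  ∃ c : ℝ, ∀ᵐ P, g P = c * f P

/-! ### The ground state on a star-shaped domain -/

/-- CON.  `G` is open and preconnected: every point `(x, z)` is joined in `G` to `(0, z)` by the
segment `(t x, z)`, and the axis part `{0} × {z | (0, z) ∈ G}` is connected (order connected sets of
`ℝ` are preconnected) -- `isPreconnected_of_forall` from a fixed point of the axis.
`G⁺ = {P ∈ G | 0 < x₁}` is open, and joined: let `(x, z), (x', z') ∈ G⁺`.  The segment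
`{0} × [z, z'] ⊆ G` is compact (it is in `G` by `conn` and `star`), so there is `δ > 0`, with
`δ < x₁, x₁'`, such that `(δ, s) ∈ G` for all `s ∈ [z, z']`.  The segment from `x` to `δ` stays in
`{0 < x₁} ∩ {|y| ≤ |x|}`, so `(·, z)` stays in `G⁺`; then the vertical segment at `δ`; then back. -/
def T_CON : Prop := ∀ G : Set X, Star G → IsPreconnected G ∧
  IsOpen {P : X | P ∈ G ∧ 0 < P.1.re} ∧ IsPreconnected {P : X | P ∈ G ∧ 0 < P.1.re}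

/-- GSM (from EXR).  A ground state is a minimizer: `Adm.lb` is the second part of EXR for
`Test.h1`; `G` is open, bounded and nonempty by `Star`; `VV B` is continuous and nonnegative;
`EQ (VV B) = ER B` by definition. -/
def T_GSM : Prop := ∀ (B : ℝ) (G : Set X) (v : X → ℝ) (F : Fin 3 → X → ℝ), Star G → GS B G v F →
    Mz (VV B) G (lamR B G) v F

/-- WEQ (from GSM, WKE). -/
def T_WEQ : Prop := ∀ (B : ℝ) (G : Set X) (v : X → ℝ) (F : Fin 3 → X → ℝ), Star G → GS B G v F →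
  ∀ (φ : X → ℝ) (Φ : Fin 3 → X → ℝ), H1 e3 G φ Φ →
    ∫ P, (∑ i : Fin 3, F i P * Φ i P + VV B P * (v P * φ P)) = lamR B G * ∫ P, v P * φ P

/-- GPO (from GSM, POS, CON).  Positivity of the ground state. -/
def T_GPO : Prop := ∀ (B : ℝ) (G : Set X) (v : X → ℝ) (F : Fin 3 → X → ℝ), Star G → GS B G v F →
  ∀ᵐ P, P ∈ G → 0 < v P

/-- UNQ (from GSM, UNR, CON, UNI).  UNR gives `v' = c v`; `v, v' ≥ 0`
and the norms give `c = 1` (`c² = 1`, and `c = ∫ v v' ≥ 0`).  More generally a function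
`(g, Γ) ∈ H¹₀(G)` with `ER B g Γ ≤ lamR B G * ∫ g²`, `g ≥ 0` a.e. and `∫ g² = 1` agrees with `v`. -/
def T_UNQ : Prop := ∀ (B : ℝ) (G : Set X) (v g : X → ℝ) (F Γ : Fin 3 → X → ℝ), Star G →
  GS B G v F → H1 e3 G g Γ → (∀ᵐ P, 0 ≤ g P) → ∫ P, g P ^ 2 = 1 →
  ER B g Γ ≤ lamR B G * ∫ P, g P ^ 2 →
  v =ᵐ[volume] g ∧ ∀ i, F i =ᵐ[volume] Γ i

/-- INV (from UNQ, TRL).  The ground state is invariant under the rotations
about the vertical axis and under the reflection `x ↦ -x̄`.  `g = v ∘ ro w` is in `H1 e3 G`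
(`ro w` maps `G` onto `G` by `Star.star`), with gradient
`Γ 0 = w.re F 0 ∘ ro w + w.im F 1 ∘ ro w`, `Γ 1 = - w.im F 0 ∘ ro w + w.re F 1 ∘ ro w`,
`Γ 2 = F 2 ∘ ro w`; `ro w` preserves the measure, `|Γ 0|² + |Γ 1|² = (|F 0|² + |F 1|²) ∘ ro w`
and `VV B ∘ ro w = VV B`, so `g` is a normalised nonnegative minimizer.  UNQ: `v = v ∘ ro w` and
`F = Γ` a.e.; solve for `F ∘ ro w`.  The same for the reflection `rf 0`: gradient
`(- F 0 ∘ rf 0, F 1 ∘ rf 0, F 2 ∘ rf 0)`. -/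
def T_INV : Prop := ∀ (B : ℝ) (G : Set X) (v : X → ℝ) (F : Fin 3 → X → ℝ), Star G → GS B G v F →
  (∀ w : ℂ, ‖w‖ = 1 → ∀ᵐ P, v (ro w P) = v P ∧ F 0 (ro w P) = w.re * F 0 P - w.im * F 1 P ∧
    F 1 (ro w P) = w.im * F 0 P + w.re * F 1 P) ∧
  ∀ᵐ P, v (rf 0 P) = v P ∧ F 0 (rf 0 P) = - F 0 P ∧ F 1 (rf 0 P) = F 1 P

/-- WEX (from PRL, or directly).  `G` is bounded, so the smooth function
`e^{± B|x|²/4}` may be replaced by a compactly supported smooth function which agrees with it on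
`G` (or: the product of a test function in `G` with a smooth function is a test function in `G`, and
the multiplication by `e^{± B|x|²/4}` and by its derivatives is bounded on `L²(G)`; use
`H1.closure`).  Second part: the same for `e^{-B|x|²/4}`. -/
def T_WEX : Prop := ∀ (B : ℝ) (G : Set X) (f : X → ℝ) (F : Fin 3 → X → ℝ), IsOpen G →
  Bornology.IsBounded G → H1 e3 G f F → H1 e3 G (ww B f) (wF B f F) ∧
  H1 e3 G (ww (-B) f) (wF (-B) f F)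

/-- WID (from ZRO, WEX, EQC, IBH).  The weighted form of the
energy.  Put `w = ww B f`, `ω = ww B g`, `W = wF B f F`, `Ω = wF B g Γ`, `s = e^{-B|x|²/4}`,
`γ = s²`.  Then `f = s w`, `F = s (W - (B/2) x w)` (horizontal components `x = xc`), so
`F·Γ + (B²/4)|x|² f g = γ [W·Ω - (B/2) x·(w Ω + ω W) + (B²/2) |x|² w ω]`.  And
`∑ i ∫ γ xc i (w Ω i + ω W i) = - ∫ w ω ∑ i ∂_i (γ xc i) = - ∫ γ w ω (2 - B |x|²)` by parts
(for each `i`: IBH for `w ∈ H1` and `θ ω`, where `θ` is a compactly supported smooth function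
equal to `γ xc i` on `G`: `∫ w (θ Ω i + ω ∂_iθ) = - ∫ W i θ ω`).  So the sum is
`∫ γ (W·Ω + (B/2)(2 - B|x|²) w ω + (B²/2)|x|² w ω) = ∫ γ (W·Ω + B w ω)`. -/
def T_WID : Prop := ∀ (B : ℝ) (G : Set X) (f g : X → ℝ) (F Γ : Fin 3 → X → ℝ), IsOpen G →
  Bornology.IsBounded G → H1 e3 G f F → H1 e3 G g Γ →
  BQ (VV B) f F g Γ = ∫ P, gm B P * (∑ i : Fin 3, wF B f F i P * wF B g Γ i P +
    B * (ww B f P * ww B g P))

/-- WTE (from WID, WEX, WEQ, EXR).  The weighted equation of the ground state.  Given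
`(φ, Φ) ∈ H1 e3 G` take `g = ww (-B) φ`, `Γ = wF (-B) φ Φ`; then `ww B g = φ` and
`wF B g Γ = Φ` (compute).  WEQ with the test function `g` and WID give
`∫ γ (W·Φ + B w φ) = lamR ∫ v g = lamR ∫ γ w φ` (`v g = e^{-B|x|²/4} w e^{-B|x|²/4} φ`).  EXR (second part) for
`g` and WID with `f = g` give the second part. -/
def T_WTE : Prop := ∀ (B : ℝ) (G : Set X) (v : X → ℝ) (F : Fin 3 → X → ℝ), Star G → GS B G v F →
  ∀ (φ : X → ℝ) (Φ : Fin 3 → X → ℝ), H1 e3 G φ Φ →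
    ∫ P, gm B P * ∑ i : Fin 3, wF B v F i P * Φ i P =
      (lamR B G - B) * ∫ P, gm B P * (ww B v P * φ P) ∧
    (lamR B G - B) * ∫ P, gm B P * φ P ^ 2 ≤ ∫ P, gm B P * ∑ i : Fin 3, Φ i P ^ 2

/-- SHW (from WTE, TRL, PRL or the method of WEX).  The shifted
equation.  The function `φ Q = e^{B(h Q₁ - h²/2)} ψ (Q - h)` (with `Q - h = sh (-h) Q`) is in
`H1 e3 G`, with gradient `e^{B(h Q₁ - h²/2)} (Ψ (Q - h) + B h ψ (Q - h) e₁)`, and
`γ(Q) e^{B(h Q₁ - h²/2)} = γ(Q - h)` because `|Q|² - 2 h Q₁ + h² = |Q - h|²`.  Insert in the first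
part of WTE and translate the integrals by `h`. -/
def T_SHW : Prop := ∀ (B : ℝ) (G : Set X) (v : X → ℝ) (F : Fin 3 → X → ℝ), Star G → GS B G v F →
  ∀ (h : ℝ) (ψ : X → ℝ) (Ψ : Fin 3 → X → ℝ), H1 e3 {P | sh h P ∈ G} ψ Ψ →
    ∫ P, gm B P * (∑ i : Fin 3, wF B v F i (sh h P) * Ψ i P +
      B * h * (wF B v F 0 (sh h P) * ψ P)) =
      (lamR B G - B) * ∫ P, gm B P * (ww B v (sh h P) * ψ P)

/-- the positive part of `g` in the half space `{x₁ > -h/2}` -/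
def hp (h : ℝ) (g : X → ℝ) : X → ℝ :=
  Set.indicator {P : X | -(h / 2) < P.1.re ∧ 0 < g P} g

/-- its gradient -/
def hpF (h : ℝ) (g : X → ℝ) (Γ : Fin 3 → X → ℝ) (i : Fin 3) : X → ℝ :=
  Set.indicator {P : X | -(h / 2) < P.1.re ∧ 0 < g P} (Γ i)

/-- HAL (from LIP, MAZ, NUL, ZRO, BCH).  The positive part of an odd function in a half space.
Let `gₙ → g` be test functions (convergence in `H1`), `g'ₙ = (gₙ - gₙ ∘ rf h)/2`; since `rf h` is an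
isometric involution which preserves the measure and `g ∘ rf h = - g`, also `g'ₙ → g` in `L²`, and
the derivatives of `g'ₙ` are bounded in `L²`.  `g'ₙ` is smooth, compactly supported and vanishes on
`{x₁ = -h/2}`, so `χₙ = 1_{x₁ > -h/2} (g'ₙ)₊` is Lipschitz with compact support in
`{x₁ ≥ -h/2}`.  Let `φₙ → φ` be test functions in `G'`.  `mₙ = min (χₙ, (φₙ)₊)` is an
`LTest` in `G ∩ G'` (its support is in `tsupport φₙ ∩ {x₁ ≥ -h/2} ⊆ G' ∩ G`), its derivatives are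
bounded in `L²` (a.e. `|∇mₙ| ≤ |∇g'ₙ| + |∇φₙ|`), and `mₙ → min (hp h g, φ₊) = hp h g` in `L²`
(`|min(a,b) - min(a',b')| ≤ |a - a'| + |b - b'|`).  Mazur: `hp h g ∈ H1 e3 (G ∩ G')` with some
gradient `F`.  On `{x₁ > -h/2}` it equals `g₊` (gradient `1_{g>0} Γ`), so `F = 1_{g > 0} Γ` a.e.
there (zero gradient of the difference on the set where the difference vanishes); elsewhere
`hp h g = 0`, so `F = 0` a.e. -/
def T_HAL : Prop := ∀ (G G' : Set X) (h : ℝ) (g φ : X → ℝ) (Γ Φ : Fin 3 → X → ℝ), 0 < h →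
  IsOpen G → IsOpen G' → (∀ P ∈ G', -(h / 2) ≤ P.1.re → P ∈ G) → H1 e3 univ g Γ → (∀ᵐ P, g (rf h P) = - g P) →
  H1 e3 G' φ Φ → (∀ᵐ P, 0 ≤ φ P) → (∀ᵐ P, -(h / 2) < P.1.re → g P ≤ φ P) →
  H1 e3 G (hp h g) (hpF h g Γ) ∧ H1 e3 G' (hp h g) (hpF h g Γ)

/-- SHI (from HAL, SHW, WTE, INV, WEX, TRL, EQC).  Let `g P = w (sh h P) - w P`, `w = ww B v`.  It is odd under
`rf h` a.e. by INV (`w ∘ rf 0 = w`; `sh h (rf h P) = rf 0 P` and `rf h P = rf 0 (sh h P)`).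
With `G' = {P | sh h P ∈ G}`, `φ = w ∘ sh h ∈ H1 e3 G'` (TRL), `g ≤ φ`, and
`P ∈ G'`, `-h/2 ≤ x₁` imply `|x| ≤ |x + h|`, so `P ∈ G` (`Star.star`).  HAL gives
`ψ = hp h g`, `Ψ = hpF h g Γ` in `H1 e3 G` and in `H1 e3 G'`.  Subtract the first part of WTE from
SHW: `∫ γ ∑ Γ i Ψ i + B h ∫ γ W₀(sh h P) ψ = (lamR - B) ∫ γ g ψ`.  Here `Γ i Ψ i = (Ψ i)²`,
`g ψ = ψ²`, so with the second part of WTE `B h ∫ γ W₀(sh h P) ψ ≤ 0`. -/
def T_SHI : Prop := ∀ (B : ℝ) (G : Set X) (v : X → ℝ) (F : Fin 3 → X → ℝ), 0 < B → Star G →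
  GS B G v F → ∀ h : ℝ, 0 < h →
    ∫ P, gm B P * (wF B v F 0 (sh h P) * hp h (fun P => ww B v (sh h P) - ww B v P) P) ≤ 0

/-- CTL.  Continuity of translations in `L²`.  For continuous compactly supported `g` by uniform
continuity; in general by density (`MemLp.exists_hasCompactSupport_eLpNorm_sub_le`) and
`eLpNorm (u ∘ sh h) = eLpNorm u`. -/
def T_CTL : Prop := ∀ g : X → ℝ, MemLp g 2 volume →
  Tendsto (fun h : ℝ => eLpNorm (fun P => g (sh h P) - g P) 2 volume) (𝓝 0) (𝓝 0)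

/-- DQL (from CTL).  Difference quotients converge to the derivative.  For a test function `φ`,
`(φ(sh h P) - φ P)/h - Γ₀(P) = ∫₀¹ (∂₁φ (sh (s h) P) - Γ₀ P) ds`, so by Minkowski (or: Jensen and
Tonelli) `‖ · ‖₂ ≤ sup_{0≤s≤1} ‖∂₁φ ∘ sh (sh) - Γ₀‖₂`.  For `g`: approximate by `φ`;
`‖(u(sh h P) - u P)/h‖₂ ≤ ‖∂₁u‖₂` for test functions `u`, hence for differences of them and in the
limit: `‖(g∘sh h - g)/h - (φ ∘ sh h - φ)/h‖₂ ≤ ‖Γ₀ - ∂₁φ‖₂`.  So `limsup ≤ 2 ‖Γ₀ - ∂₁φ‖₂`, arbitrarily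
small. -/
def T_DQL : Prop := ∀ (g : X → ℝ) (Γ : Fin 3 → X → ℝ), H1 e3 univ g Γ →
  Tendsto (fun h : ℝ => eLpNorm (fun P => (g (sh h P) - g P) / h - Γ 0 P) 2 volume)
    (𝓝[>] 0) (𝓝 0)

/-- DQI.  Monotonicity from the sign of the derivative.  For test functions `φₙ → g`:
`φₙ (sh h P) - φₙ P = ∫₀ʰ ∂₁φₙ (sh s P) ds` and, in `L²` (of bounded sets, or in the mean against
`η ≥ 0` continuous with compact support), both sides converge, so for every continuous `η ≥ 0` with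
compact support in `{a < x₁}`: `∫ η P (g (sh h P) - g P) dP = ∫₀ʰ ∫ η P Γ₀ (sh s P) dP ds ≤ 0`
(for `s ≥ 0` and `x₁ > a` the point `sh s P` is in the half space; translate to get the sign a.e.).
Hence `g (sh h P) ≤ g P` a.e. in the open half space. -/
def T_DQI : Prop := ∀ (g : X → ℝ) (Γ : Fin 3 → X → ℝ) (a h : ℝ), H1 e3 univ g Γ → 0 ≤ h →
  (∀ᵐ P, a < P.1.re → Γ 0 P ≤ 0) → ∀ᵐ P, a < P.1.re → g (sh h P) ≤ g P

/-- MON (from SHI, DQL, CTL, WEX).  `w` decreases in the direction `x₁` for `x₁ > 0`.  Divide SHI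
by `h`: `∫ γ W₀(sh h P) (ψ_h/h)(P) ≤ 0` with `ψ_h/h = 1_{x₁ > -h/2} ((w∘sh h - w)/h)₊`.  As
`h → 0⁺`: `W₀ ∘ sh h → W₀` in `L²` (CTL), `((w∘sh h - w)/h)₊ → (W₀)₊` in `L²` (DQL), and
`1_{x₁ > -h/2} (W₀)₊ → 1_{x₁ ≥ 0} (W₀)₊` in `L²` (dominated convergence); `γ ≤ 1`.  So the integrals
converge to `∫_{x₁ ≥ 0} γ W₀ (W₀)₊ = ∫_{x₁ ≥ 0} γ ((W₀)₊)² ≤ 0`, and `(W₀)₊ = 0` a.e. on
`{x₁ > 0}`. -/
def T_MON : Prop := ∀ (B : ℝ) (G : Set X) (v : X → ℝ) (F : Fin 3 → X → ℝ), 0 < B → Star G →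
  GS B G v F → ∀ᵐ P : X, 0 < P.1.re → wF B v F 0 P ≤ 0

/-- STL (from MON, DQL, DQI, CTL, SHW, WTE, WEX, BCH, PRL, BOX, TRL).  Logarithmic estimate for
the horizontal derivative.  `G⁺ = {P ∈ G | 0 < x₁}` is open.  Let `closedBall P₀ (2r) ⊆ G⁺`, and `η`
a test function in `G⁺` with `η = 1` on `cube P₀ r ⊆ closedBall P₀ (2r)` (`ball P₀ r ⊆ cube P₀ r`).  Let
`0 < h` be so small that `tsupport η` is also contained in `{P | sh h P ∈ G}`.  Put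
`u_h = (w - w ∘ sh h)/h ∈ H1 e3 univ` with gradient `U`; `u_h ≥ 0` a.e. on `{x₁ > 0}` (DQI, MON with
`a = 0`).  For `ε > 0` let `ψ = η²/(u_h + ε)` on `{x₁ > 0}`, `0` elsewhere, which is
`η² N(u_h) + η²/ε` with `N t = 1/(|t| + ε) - 1/ε`; it is in `H1 e3 G` and in
`H1 e3 {P | sh h P ∈ G}`, gradient `Ψ = 2 η ∇η/(u_h+ε) - η² U/(u_h+ε)²`.  WTE minus SHW, divided by
`h`: `∫ γ U·Ψ - B ∫ γ W₀(sh h P) ψ = (lamR - B) ∫ γ u_h ψ`.  So
`S_h := ∫ γ η² |U|²/(u_h+ε)² = 2 ∫ γ η ∇η·U/(u_h+ε) - B ∫ γ W₀(sh h P) ψ - (lamR - B) ∫ γ u_h ψ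
≤ S_h/2 + 2 ∫ γ |∇η|² + B ∫ γ η² |W₀(sh h P)|/(u_h+ε) + |lamR - B| ∫ γ η²`.  As `h → 0⁺`,
`|W₀ ∘ sh h| → |W₀| = -W₀` and `1/(|u_h| + ε) → 1/(|W₀| + ε)` in `L²` (DQL: `u_h → -W₀`), so the
third term tends to `B ∫ γ η² |W₀|/(|W₀|+ε) ≤ B ∫ γ η²`.  Hence for small `h`,
`S_h ≤ C := 4 ∫ γ|∇η|² + 2 (B + |lamR - B|) ∫ γ η² + 1`, `C` independent of `ε`.  On the cube
`γ ≥ γ₀ > 0`, so by BOX for `N(u_h)`, `N t = ∫_0^t 1/(|s| + ε) ds` (`= log (1 + t/ε)` for `t ≥ 0`),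
`dlog u_h (cube P₀ r) ε ≤ C'` for small `h`, `C'` independent of `ε`.  Along a sequence `h → 0`,
`u_h → -W₀` a.e., and Fatou gives `dlog (-W₀) (ball P₀ r) ε ≤ C'`. -/
def T_STL : Prop := ∀ (B : ℝ) (G : Set X) (v : X → ℝ) (F : Fin 3 → X → ℝ), 0 < B → Star G →
  GS B G v F → ∀ (P₀ : X) (r : ℝ), 0 < r → closedBall P₀ (2 * r) ⊆ {P | P ∈ G ∧ 0 < P.1.re} →
    ∃ C : ℝ≥0∞, C ≠ ⊤ ∧ ∀ ε : ℝ, 0 < ε → dlog (fun P => - wF B v F 0 P) (ball P₀ r) ε ≤ C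

/-- STR (from STL, MON, DIC, LGL, CON, DQI, ZRO, GPO, WEX).  Strict monotonicity.  DIC and LGL on
`G⁺` (CON) for `g = -W₀` (`≥ 0` a.e. on `{x₁ > 0}` by MON): `W₀ = 0` a.e. on `G⁺` or `W₀ < 0`
a.e. on `G⁺`.  In the first case `W₀ = 0` a.e. on `{x₁ > 0}` (ZRO), so DQI for `w` and for `-w` with
`a = 0` gives `w (sh h P) = w P` for a.e. `P` with `x₁ > 0`; take `h` larger than the diameter of
`G`: for `P ∈ G`, `x₁ > 0`, `sh h P ∉ G`, so `w P = 0`; this contradicts GPO (`G⁺` is open and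
nonempty). -/
def T_STR : Prop := ∀ (B : ℝ) (G : Set X) (v : X → ℝ) (F : Fin 3 → X → ℝ), 0 < B → Star G →
  GS B G v F → ∀ᵐ P : X, P ∈ G → 0 < P.1.re → wF B v F 0 P < 0

/-- LEB.  Monotone at the Lebesgue points.  Let `A_ε(P) = ⨍_{ball P ε} v` and let `S` be the set of
the points where `A_ε(P) → v P` as `ε → 0` (Lebesgue differentiation, e.g.
`IsUnifLocDoublingMeasure.ae_tendsto_average` or `Besicovitch.ae_tendsto_measure_inter_div` /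
`VitaliFamily`; `v` is locally integrable).  The balls of `ℂ × ℝ` are products of discs and
intervals, so `ro w '' ball P ε = ball (ro w P) ε` and `A_ε (ro w P) = A_ε P` for ALL `P`, and
`A_ε (sh h P) ≤ A_ε P` if `x₁ ≥ ε`, `h > 0`.  For `P, P' ∈ S` with the same height and
`|x| < |x'|`: if `x ≠ 0`, for `ε < |x|`: `A_ε P = A_ε (|x|, z) ≥ A_ε (|x'|, z) = A_ε P'`; let `ε → 0`.
Remove the null set `{x = 0}` from `S`. -/
def T_LEB : Prop := ∀ v : X → ℝ, MemLp v 2 volume →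
  (∀ w : ℂ, ‖w‖ = 1 → ∀ᵐ P, v (ro w P) = v P) →
  (∀ h : ℝ, 0 < h → ∀ᵐ P : X, 0 < P.1.re → v (sh h P) ≤ v P) →
  ∃ S : Set X, MeasurableSet S ∧ volume Sᶜ = 0 ∧
    ∀ P ∈ S, ∀ P' ∈ S, P.2 = P'.2 → ‖P.1‖ < ‖P'.1‖ → v P' ≤ v P

/-- RIN.  Rotation invariant functions are functions of `(|x|, z)`.  With the averages `A_ε` as in
LEB: `K r z = limsup A_{1/(n+1)} ((r : ℂ), z)` (as a real number; or `limUnder`), measurable; at a
Lebesgue point `k P = lim A_{1/(n+1)} P = lim A_{1/(n+1)} (|x|, z) = K |x| z`. -/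
def T_RIN : Prop := ∀ k : X → ℝ, MemLp k 2 volume →
  (∀ w : ℂ, ‖w‖ = 1 → ∀ᵐ P, k (ro w P) = k P) →
  ∃ K : ℝ → ℝ → ℝ, Measurable (Function.uncurry K) ∧ ∀ᵐ P : X, k P = K ‖P.1‖ P.2

/-- RRD.  A slicewise radially nonincreasing function is its own slicewise rearrangement.  Fix a
height `z` for which the slice of `Sᶜ` is null (a.e. `z`: Fubini), `g = sl v z`,
`S' = {x | (x, z) ∈ S}`.  (1) If `x ∈ S'` and `s ≥ g x` then `{g > s} ∩ S' ⊆ {|y| ≤ |x|}`, so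
`ar g s ≤ π|x|²`, and `rr g |x| ≤ g x`.  (2) Let `x ∈ S'` and `0 ≤ s < g x`; then
`{|y| < |x|} ∩ S' ⊆ {g > s}`, so `ar g s ≥ π |x|²`; equality for a rational `s` means `|x|` is one
given number, so for a.e. `x` the inequality is strict for all rational `0 ≤ s < g x`, and
`rr g |x| ≥ g x` (the set in `rr` is bounded above for `x ≠ 0` by (1)).
Last part: `V r z = rr (sl v z) r`: for `q ≥ 0`, `r > 0`:
`V r z > q ↔ ∃ s ∈ ℚ, s > q, π r² < ar (sl v z) s` (the set in `rr` is a down-set of `[0,∞)`,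
bounded since `ar g s → 0` as `s → ∞`); `z ↦ ar (sl v z) s` is measurable.  For `r ≤ 0` treat
`r = 0` and `rr g (-r) = rr g r` separately. -/
def T_RRD : Prop := ∀ (R : ℝ) (v : X → ℝ) (S : Set X), Nx R v → MeasurableSet S →
  volume Sᶜ = 0 → (∀ P ∈ S, ∀ P' ∈ S, P.2 = P'.2 → ‖P.1‖ < ‖P'.1‖ → v P' ≤ v P) →
  (∀ᵐ P, v P = vs v P) ∧ Measurable (Function.uncurry fun r z => rr (sl v z) r) ∧
  (∀ z, AntitoneOn (fun r => rr (sl v z) r) (Set.Ioi 0)) ∧ ∀ r z, 0 ≤ rr (sl v z) r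

/-- RFR (from INV, MON, STR, RIN, UNQ).  The horizontal gradient is radial.  Let
`k P = -(F 0 P * x₁ + F 1 P * x₂)/|x|` and `t P = (- F 0 P * x₂ + F 1 P * x₁)/|x|` (in `L²`).  By INV
both are invariant under `ro w`.  `t (rf 0 P) = - t P`, so with `K` from RIN for `t`,
`K |x| z = - K |x| z` a.e.: `t = 0` a.e.  With `K` from RIN for `k`, `T = max K 0`.  From
`t = 0`: `F 0 = -k x₁/|x|`, `F 1 = - k x₂/|x|` a.e.  `W₀ = e^{B|x|²/4}(F 0 + (B/2) x₁ v)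
= e^{B|x|²/4} (x₁/|x|) (-k + (B/2)|x| v)`; on `{x₁ > 0}` MON gives `k ≥ (B/2)|x| v ≥ 0`, and STR
gives `k > (B/2)|x| v` on `G`.  Both `k` and `v` are rotation invariant, so this holds a.e. on
`{x₁ < 0}` too (apply the rotation by `-1`: `ro (-1)` preserves null sets). -/
def T_RFR : Prop := ∀ (B : ℝ) (G : Set X) (v : X → ℝ) (F : Fin 3 → X → ℝ), 0 < B → Star G →
  GS B G v F → ∃ T : ℝ → ℝ → ℝ, Measurable (Function.uncurry T) ∧ (∀ r z, 0 ≤ T r z) ∧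
    (∀ᵐ P : X, F 0 P = -(T ‖P.1‖ P.2 * P.1.re / ‖P.1‖) ∧
      F 1 P = -(T ‖P.1‖ P.2 * P.1.im / ‖P.1‖)) ∧
    ∀ᵐ P : X, P ∈ G → B / 2 * ‖P.1‖ * v P < T ‖P.1‖ P.2

/-- RDE (from EXR, LEB, RRD, RFR, INV, MON, DQI, WEX, GPO, ZRO).  Let `(v₀, F)` be a ground state.  `w = ww B v₀` satisfies `w (sh h P) ≤ w P` a.e. on
`{x₁ > 0}` (MON, DQI), hence `v₀ (sh h P) ≤ v₀ P` there (`|x + h| ≥ |x|`, `v₀ ≥ 0`).  LEB, RRD:
`v₀ = vs v₀` a.e.; put `V r z = rr (sl v₀ z) r`, `v = vs v₀`, `T` from RFR.  `v = 0` off `G`: if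
`P ∉ G` then `{y | v₀ (y, z) > s} ⊆ {|y| < |x|}` (`Star.star`: `(y, z) ∈ G` and `|x| ≤ |y|` would
give `P ∈ G`), so `ar ≤ π|x|²` and the set in `rr` is empty (`x = 0`: also empty).  All the fields of
`RD` and `GS` for `(v, F)` follow (`F i = 0` off `G` from `GS.zero`). -/
def T_RDE : Prop := ∀ (B : ℝ) (G : Set X), 0 < B → Star G →
  ∃ (v : X → ℝ) (F : Fin 3 → X → ℝ) (V T : ℝ → ℝ → ℝ), RD B G v F V T

/-- NPO (from GSM, LOG, GPO, BCH, BOX).  Lower bound for the slices.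
Let `closedBall (0, z₀) (2d) ⊆ G`, `D` the square `(-d, d)²`, `J = (z₀ - d, z₀ + d)`,
`Q = cube (0, z₀) d = D × J ⊆ G`), `u_ε = log (v + ε)`, `0 < ε ≤ 1`.  By LOG
`∫_Q |∇u_ε|² ≤ C` for all `ε`, by BOX `dlog v Q ε ≤ C'`.  Since `v > 0` a.e.
on `G` (GPO) there is `t > 0` with `|{v > t} ∩ Q| > 0`, so `∫_Q u_ε ≥ - C''` uniformly in `ε`
(for `P` in that set `|Q| log t - ∫_Q u_ε ≤ ∫_Q |u_ε(P) - u_ε(P')| dP'`; average over the set).
Let `m_ε(z) = ∫_D u_ε(x, z) dx`; then for a.e. `z, z' ∈ J`,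
`|m_ε(z) - m_ε(z')| ≤ ∫_Q |∂₃ u_ε| ≤ C'''` (test functions `φₙ → log(1 + v/ε)`, slices), so
`2 d m_ε(z) ≥ ∫_Q u_ε - 2d C''' ≥ - C₄` for a.e. `z ∈ J`.  Let `ε → 0` (a sequence; monotone
convergence / Fatou: `u_ε ↓ log v`): `∫_D log v(x, z) dx ≥ -C₅` in the sense that
`∫_D log (v(x,z)² + ...)`; simply: Jensen for each `ε` gives
`log (⨍_D (v + ε)² dx) ≥ ⨍_D 2 u_ε dx ≥ -C₆`, so `⨍_D (v+ε)² ≥ e^{-C₆}` for a.e. `z ∈ J` and all
`ε = 1/n`; `ε → 0` gives `⨍_D v² ≥ e^{-C₆}`. -/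
def T_NPO : Prop := ∀ (B : ℝ) (G : Set X) (v : X → ℝ) (F : Fin 3 → X → ℝ), Star G → GS B G v F →
  ∀ z₀ : ℝ, ((0 : ℂ), z₀) ∈ G → ∃ d k : ℝ, 0 < d ∧ 0 < k ∧
    ∀ᵐ z : ℝ, |z - z₀| < d → k ≤ ∫ x : ℂ, v (x, z) ^ 2

end MGS
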