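import Pool.Agent.MGS.TD
import Pool.Agent.MGS.TB

/-!
# MGS: targets E (the calibration inequality and its equality case)

Each target is a proposition `T_XXX`; its docstring contains the complete proof.  Other targets
(of all sections) may be taken as hypotheses of the theorem to be proved.
-/

set_option autoImplicit false

open MeasureTheory Filter Topology Metric Set
open scoped ENNReal NNReal ContDiff

noncomputable section

namespace MGS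

/-- EQX (from EQM, RKV, RKF, VSM, RR1).  Equimeasurability, integrated over the slices.  All
functions are jointly measurable (VSM), so by Fubini it is enough to look at a slice `g = sl f z`,
for which `sl (vs f) z x = rr g ‖x‖` (definition).
(1) EQM for `Ξ (z, ·)`.
(2) EQM for `s ↦ if 0 < s ∧ volume {g = s} = 0 then Ξ (rad g s, z, s) else 0` (`{s | 0 < volume {g = s}}`
is countable, hence measurable); by EQM `{g = s}` and `{rr g ‖·‖ = s}` have the same volume for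
`s > 0`, and at the points `x ≠ 0` with `rr g ‖x‖ = s > 0` and null level `rad g s = ‖x‖` (RKV).
(3) the same with `s ↦ if 0 < s ∧ 0 < volume {g = s} then 1 else 0`.
(4) RKF on almost every slice (the set is measurable by VSM).
(5) For a slice: let `s₀ = inf {s > 0 | ar g s = 0}` (the set is not empty up to considering
`ar g s → 0`; if it is empty nothing is to be shown); by right continuity `ar g s₀ = 0` if
`s₀ > 0`; the points with `g x > 0`, `ar g (g x) = 0` and null level lie in the union of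
`{g > s₀}` (null) and `{g = s₀}` (null if it contains such a point). -/
def T_EQX : Prop := ∀ (R : ℝ) (f : X → ℝ), Nx R f →
  (∀ Ξ : ℝ × ℝ → ℝ≥0∞, Measurable Ξ → (∀ z, Ξ (z, 0) = 0) →
    ∫⁻ P : X, Ξ (P.2, vs f P) = ∫⁻ P : X, Ξ (P.2, f P)) ∧
  (∀ Ξ : ℝ × ℝ × ℝ → ℝ≥0∞, Measurable Ξ →
    ∫⁻ P in {P : X | 0 < f P ∧ P ∉ pl f}, Ξ (rk f P, P.2, f P) =
      ∫⁻ P in {P : X | 0 < vs f P ∧ P ∉ pl (vs f)}, Ξ (‖P.1‖, P.2, vs f P)) ∧
  volume (pl f) = volume (pl (vs f)) ∧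
  (∀ᵐ P : X, 0 < f P → rr (sl f P.2) (rk f P) = f P) ∧
  ∀ᵐ P : X, 0 < f P → P ∉ pl f → 0 < rk f P

/-- the factor `κ` of the calibration -/
def Kq (B : ℝ) (V T : ℝ → ℝ → ℝ) (r z : ℝ) : ℝ := min 1 (B / 2 * |r| * V r z / T r z)

/-- the comparison slope `Q` of the calibration (for the symmetrization of `f`) -/
def Qe (ε : ℝ) (V T : ℝ → ℝ → ℝ) (f : X → ℝ) (r z : ℝ) : ℝ :=
  T r z / (V r z + ε) * rr (sl f z) |r|

/-- `p = v₁/(v₁ + ε)` -/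
def pp (ε : ℝ) (v₁ : X → ℝ) (P : X) : ℝ := v₁ P / (v₁ P + ε)

/-- the density of the plateau term -/
def plq (B ε : ℝ) (V T : ℝ → ℝ → ℝ) (f : X → ℝ) (P : X) : ℝ :=
  (1 - Kq B V T ‖P.1‖ P.2 ^ 2) * Qe ε V T f ‖P.1‖ P.2 ^ 2

/-- CAL (from SLI, RDG, OST, VSM, RR1, ZRO).  The pointwise calibration.  Write `f = md a b`,
`v = vs f`, `r = ‖P.1‖`, `κ = Kq`, `Q = Qe`, `p = v₁/(v₁+ε)`, `|G| = √(G 0² + G 1²)`.
RDG on almost every slice of `G` (SLI with `R` from OST; `v (x, z) = rr (sl f z) ‖x‖` with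
`rr (sl f z)` nonincreasing on `(0,∞)`, RR1): a.e. `G i = -|G| x_i/|x|`; `RD.geq`:
`F i = -T x_i/|x|`.  So for `r > 0` `∑ F i G i = T |G|`, `∑ F i² = T²` and, as `v₁ = V(r, z)`
(`RD.veq`), the first sum is `2Q|G| - Q²`.  If `v P = 0`, all terms on the left vanish and
`Zx ≥ 0`.  If `v P > 0` then `P ∈ Ost Ω` (otherwise `v P = 0`: `vs f P = 0` for
`π ‖P.1‖² ≥ |Ω_z|`), so by `RD.pos` `0 < V`, `(B/2) r V < T`; hence `T > 0`,
`κ = (B/2) r V/T < 1`, `κ Q = (B/2) r p v`.  In both cases of the `if` in `Zc` (plateau or not) the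
claim becomes `B κ r v |G| - 2 κ² Q |G| + κ² Q² - (B/2)² r² p² v² ≥ 0`; the last two
terms cancel and the first two are `κ |G| (B r v - B r p v) ≥ 0`. -/
def T_CAL : Prop := ∀ (B ε R : ℝ) (Ω : Set X) (a b v₁ : X → ℝ) (Fa Fb G F : Fin 3 → X → ℝ)
  (V T : ℝ → ℝ → ℝ), 0 < B → 0 < ε → PD Ω R a b Fa Fb → RD B (Ost Ω) v₁ F V T →
  H1 e3 (Ost Ω) (vs (md a b)) G → (∀ i, Measurable (G i)) →
  ∀ᵐ P : X, ∑ i : Fin 2, F i.castSucc P * (2 * vs (md a b) P * G i.castSucc P / (v₁ P + ε) -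
      vs (md a b) P ^ 2 * F i.castSucc P / (v₁ P + ε) ^ 2) +
    VV B P * pp ε v₁ P ^ 2 * vs (md a b) P ^ 2 +
    (pl (vs (md a b))).indicator (plq B ε V T (md a b)) P ≤
      Zx B (vs (md a b)) G (Kq B V T) (Qe ε V T (md a b)) P

/-- MNE (from SYM, MOD, INT, CAL, WEQ, BCH, PRB, VSM, OST, ZRO, RR1).  The main inequality for a
bounded pair.  `f = md a b` is measurable, `0 ≤ f ≤ N` and vanishes outside `Ω ⊆ {‖P‖ < R}`, so
`Nx R f`.  MOD: `(f, mg a b Fa Fb) ∈ H¹₀(Ω)`.  `v = vs f ≤ N` (all levels of the slices are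
`≤ N`), with gradient `G` from SYM.
`Q = Qe` satisfies `0 ≤ Q(‖x‖, z) ≤ (N/ε) T(‖x‖, z)` and `T(‖x‖, z)² = F 0² + F 1²` a.e. (`RD.geq`), so
`Q(‖P.1‖, P.2)²` is integrable, `Q` is measurable (VSM), `κ = Kq ∈ [0, 1]` (`V, T ≥ 0`).  INT:
`∫ Zx ≤ ∫ Yx`.  Test function: `φ = v²/(v₁ + ε) = (v² - v² p)/ε` with `p = v₁/(v₁+ε)`; it is in
`H¹₀(Ost Ω)` with gradient `φ_i = 2 v G_i/(v₁+ε) - v² F_i/(v₁+ε)²`: PRB for `v · v`; BCH for
`p = ∫_0^{v₁} ε/(|s|+ε)² ds` (`v₁ ≥ 0`), gradient `ε F/(v₁+ε)²`; PRB for `v² · p`.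
WEQ: `∫ (∑ F_i φ_i + VV v₁ φ) = λ ∫ v₁ φ`, and `v₁ φ = p v²`.
Vertical direction: `G_2² ≥ F_2 φ_2`, because `(G_2 - (v/(v₁+ε)) F_2)² ≥ 0`; and
`∫ G_2² ≤ ∫ (mg 2)²` (SYM).  Add up: with CAL
`∫ Yx + ∫ (mg 2)² ≥ ∫ ∑_{i<3} F_i φ_i + ∫ VV p² v² + ∫_{pl v} (1-κ²) Q²
= λ ∫ p v² - ∫ VV p v² + ∫ VV p² v² + ∫_{pl v} (1-κ²) Q²`.  All terms are integrable (`VV` is
bounded on the bounded set `Ost Ω`, outside of which `v = 0`). -/
def T_MNE : Prop := ∀ (B ε R N : ℝ) (Ω : Set X) (a b v₁ : X → ℝ) (Fa Fb F : Fin 3 → X → ℝ)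
  (V T : ℝ → ℝ → ℝ), 0 < B → 0 < ε → PD Ω R a b Fa Fb → (∀ P, md a b P ≤ N) → Star (Ost Ω) →
  RD B (Ost Ω) v₁ F V T →
  Integrable (Yx B a b Fa Fb (Kq B V T) (Qe ε V T (md a b))) ∧
  IntegrableOn (plq B ε V T (md a b)) (pl (vs (md a b))) ∧
  lamR B (Ost Ω) * (∫ P, pp ε v₁ P * vs (md a b) P ^ 2) -
      (∫ P, VV B P * (pp ε v₁ P * (1 - pp ε v₁ P)) * vs (md a b) P ^ 2) +
      (∫ P in pl (vs (md a b)), plq B ε V T (md a b) P) ≤
    (∫ P, Yx B a b Fa Fb (Kq B V T) (Qe ε V T (md a b)) P) + ∫ P, mg a b Fa Fb 2 P ^ 2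

/-- TRN (from BCH, PRT, MOD, ZRO).  Truncation of the modulus.  `f = md a b`,
`g = ∫_0^f η` with `η(s) = N/s²` for `s > N`, `0` otherwise (`0 ≤ η ≤ 1/N`): `g = 1 - N/f` if
`f > N`, `0` otherwise; `g ∈ H¹₀(Ω)`, gradient `η(f) ∇f` (`∇f = mg`; MOD, BCH).  Let
`a' = a - a g = a min (1, N/f)`, `Fa' = Fa - (a η(f) ∇f + g Fa)`, the same for `b`; PRT applies because
`|a η(f) ∇f| ≤ |∇f|` and `|g| ≤ 1`.  `md a' b' = min f N`.  Where `f ≤ N`: `g = 0`, `η(f) = 0`,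
nothing is changed.  Energy where `f > N`: with `p = Fa i - A_i b`, `q = Fb i + A_i a`,
`p' = Fa' i - A_i b' = (N/f)(p - (a/f) ∂_i f)` and `q' = (N/f)(q - (b/f) ∂_i f)`, `a p + b q = f ∂_i f`, so
`p'² + q'² = (N/f)² (p² + q² - (∂_i f)²) ≤ p² + q²`. -/
def T_TRN : Prop := ∀ (N R : ℝ) (Ω : Set X) (a b : X → ℝ) (Fa Fb : Fin 3 → X → ℝ), 0 < N →
  PD Ω R a b Fa Fb → ∃ (a' b' : X → ℝ) (Fa' Fb' : Fin 3 → X → ℝ), PD Ω R a' b' Fa' Fb' ∧
    (∀ P, md a' b' P = min (md a b P) N) ∧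
    (∀ P, md a b P ≤ N → a' P = a P ∧ b' P = b P ∧ ∀ i, Fa' i P = Fa i P ∧ Fb' i P = Fb i P) ∧
    ∀ (B : ℝ) (i : Fin 3) (P : X), em B a' b' Fa' Fb' i P ≤ em B a b Fa Fb i P

/-- the deficit -/
def DF (B ε : ℝ) (Ω : Set X) (a b v₁ : X → ℝ) (Fa Fb : Fin 3 → X → ℝ) : ℝ :=
  EM B a b Fa Fb - lamR B (Ost Ω) * (∫ P, pp ε v₁ P * vs (md a b) P ^ 2) +
    ∫ P, VV B P * (pp ε v₁ P * (1 - pp ε v₁ P)) * vs (md a b) P ^ 2

/-- TRC (from MNE, TRN, INT, EQX, RR1, VSM).  The main inequality without boundedness.  For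
`N = 1, 2, ...` let `a', b'` be from TRN, `f' = md a' b' = min f N`, `v' = vs f'`.  For `t > 0`
`rr (min g N) t = min (rr g t) N` (`ar (min g N) s = ar g s` for `s < N`, `0` for `s ≥ N`), so
`v' = min v N` off the axis.  MNE for `a', b'`, with `Yx' ≤ em' 0 + em' 1` a.e. (INT) and
`(mg' 2)² ≤ em' 2` (Cauchy-Schwarz; `A_2 = 0`) gives
`∫ (em' 0 + em' 1 - Yx') + ∫ (em' 2 - mg' 2²) + ∫_{pl v'} plq' ≤ EM' - λ ∫ p v'² + ∫ VV p(1-p) v'²`,
three nonnegative integrands; the right side is at most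
`D_N = EM - λ ∫ p v'² + ∫ VV p(1-p) v'²` (TRN: `em' ≤ em`).  Almost everywhere on `{f < N}` the integrands
`em' 0 + em' 1 - Yx'`, `em' 2 - mg' 2²` agree with the original ones: same values of `a, b, Fa, Fb`;
`volume {y | f'(y, z) = f' P} = volume {y | f (y, z) = f P}`; `ar` at the level `f P` is the same;
`Qe` at the rank radius `r = rk f P` uses `rr (min g N) r = min (rr g r) N` and
`rr g r = f P < N`, `r > 0` at the points not on plateaus (EQX (4), (5)).  On `{v < N}` off the axis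
`pl v' = pl v`, `plq' = plq`.  So the sum of the `lintegral`s over `{f < N}`, `{f < N}`,
`pl v ∩ {v < N}` is `≤ ofReal D_N`, `0 ≤ D_N`.  Let `N → ∞`: monotone convergence on the left,
and dominated convergence on the right (`v' → v`, `v ∈ L²`, `0 ≤ p ≤ 1`, `VV` bounded on
`Ost Ω`). -/
def T_TRC : Prop := ∀ (B ε R : ℝ) (Ω : Set X) (a b v₁ : X → ℝ) (Fa Fb F : Fin 3 → X → ℝ)
  (V T : ℝ → ℝ → ℝ), 0 < B → 0 < ε → PD Ω R a b Fa Fb → Star (Ost Ω) →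
  RD B (Ost Ω) v₁ F V T → 0 ≤ DF B ε Ω a b v₁ Fa Fb ∧
  (∫⁻ P, ENNReal.ofReal (em B a b Fa Fb 0 P + em B a b Fa Fb 1 P -
      Yx B a b Fa Fb (Kq B V T) (Qe ε V T (md a b)) P)) +
    (∫⁻ P, ENNReal.ofReal (em B a b Fa Fb 2 P - mg a b Fa Fb 2 P ^ 2)) +
    (∫⁻ P in pl (vs (md a b)), ENNReal.ofReal (plq B ε V T (md a b) P)) ≤
      ENNReal.ofReal (DF B ε Ω a b v₁ Fa Fb)

/-- DFL (from EQX, VSM, OST).  `f = md a b`, `v = vs f`.  `v = 0` outside `Ost Ω` (see CAL), and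
`p = v₁/(v₁+ε) → 1`, `p(1-p) → 0` a.e. on `Ost Ω` as `ε → 0⁺` (`v₁ = V > 0` there, `RD.pos`,
`RD.veq`).  `v ∈ L²` with `∫ v² = ∫ f² = ∫ (a² + b²)` (EQX (1) with `Ξ (z, s) = ofReal (s²)`), `VV` is
bounded on `Ost Ω`.  Dominated convergence. -/
def T_DFL : Prop := ∀ (B R : ℝ) (Ω : Set X) (a b v₁ : X → ℝ) (Fa Fb F : Fin 3 → X → ℝ)
  (V T : ℝ → ℝ → ℝ), 0 < B → PD Ω R a b Fa Fb → RD B (Ost Ω) v₁ F V T →
  Tendsto (fun ε => DF B ε Ω a b v₁ Fa Fb) (𝓝[>] 0)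
    (𝓝 (EM B a b Fa Fb - lamR B (Ost Ω) * ∫ P, (a P ^ 2 + b P ^ 2)))

/-- the `W` of the slices -/
def Wx (B : ℝ) (a b : X → ℝ) (Fa Fb : Fin 3 → X → ℝ) (P : X) : ℝ :=
  Wc B (sl a P.2) (sl b P.2) (sl2 Fa P.2) (sl2 Fb P.2) P.1

/-- the `h` of the slices -/
def hx (B : ℝ) (a b : X → ℝ) (Fa Fb : Fin 3 → X → ℝ) (P : X) : ℝ :=
  hc B (sl a P.2) (sl b P.2) (sl2 Fa P.2) (sl2 Fb P.2) P.1

/-- EQE (from TRC, DFL, EQX, ALG, VSM).  The lower bound and its equality case.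
First part: TRC (`0 ≤ DF`) and DFL.
Second part: let `EM = λ ∫ (a² + b²)`; by TRC and DFL each of the three `lintegral`s tends to `0` as
`ε = 1/n → 0`.  Fatou: a.e. the lower limits of the integrands vanish.  `f = md a b`, `v = vs f`.
(i) `em 2 = (mg 2)²` a.e.; where `f > 0`: `em 2 = (mg 2)² + (a Fb 2 - b Fa 2)²/f²`.
(ii) On `pl v` (where `v > 0`, so `P ∈ Ost Ω` and, a.e., `V > 0`, `(B/2) r V < T`): `plq` tends to
`(1-κ²) (T v/V)² > 0` (for `P.1 ≠ 0`).  So `volume (pl v) = 0`, and `volume (pl f) = 0` by EQX (3).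
(iii) The statement `0 < V(r,z) ∧ (B/2) r V < T` holds for a.e. `P` with `v P > 0`, `r = ‖P.1‖`, hence
by EQX (2) (with the indicator function of the complement) for a.e. `P` with `f P > 0` and
`r = rk f P`.  At such a point `P ∉ pl f` and, by EQX (4), `rr (sl f z) (rk f P) = f P`, so
`Qe ε (rk f P) z = T/(V+ε) f P → T/V f P =: q`, `κ = (B/2) r V/T < 1` does not depend on `ε`
and the limit of `Yx` is the expression in ALG with `k = κ`, and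
`em 0 + em 1 = eq2` for the slices.  So equality holds in ALG; thus `gx (mg) = q`,
`hx = κ q = (B/2) r f`, and `Wx = gx hx` if `κ > 0`; if `κ = 0` then `hx = 0` and
`|Wx| ≤ gx hx = 0` (ALG). -/
def T_EQE : Prop := ∀ (B R : ℝ) (Ω : Set X) (a b v₁ : X → ℝ) (Fa Fb F : Fin 3 → X → ℝ)
  (V T : ℝ → ℝ → ℝ), 0 < B → PD Ω R a b Fa Fb → Star (Ost Ω) → RD B (Ost Ω) v₁ F V T →
  lamR B (Ost Ω) * ∫ P, (a P ^ 2 + b P ^ 2) ≤ EM B a b Fa Fb ∧
  (EM B a b Fa Fb = lamR B (Ost Ω) * ∫ P, (a P ^ 2 + b P ^ 2) →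
    volume (pl (md a b)) = 0 ∧ ∀ᵐ P : X, 0 < md a b P →
      0 < V (rk (md a b) P) P.2 ∧
      B / 2 * rk (md a b) P * V (rk (md a b) P) P.2 < T (rk (md a b) P) P.2 ∧
      gx (mg a b Fa Fb) P = T (rk (md a b) P) P.2 / V (rk (md a b) P) P.2 * md a b P ∧
      hx B a b Fa Fb P = B / 2 * rk (md a b) P * md a b P ∧
      Wx B a b Fa Fb P = gx (mg a b Fa Fb) P * hx B a b Fa Fb P ∧
      a P * Fb 2 P - b P * Fa 2 P = 0)

end MGS
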