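import Pool.Agent.MGS.TE

/-!
# MGS: targets F (rigidity, the phase, connectedness)

Each target is a proposition `T_XXX`; its docstring contains the complete proof.  Other targets
(of all sections) may be taken as hypotheses of the theorem to be proved.
-/

set_option autoImplicit false

open MeasureTheory Filter Topology Metric Set
open scoped ENNReal NNReal ContDiff

noncomputable section

namespace MGS

/-- a normalised pair with the energy `lamR B (Ost Ω)`, and the radial ground state -/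
structure EX (B R : ℝ) (Ω : Set X) (a b v₁ : X → ℝ) (Fa Fb F : Fin 3 → X → ℝ)
    (V T : ℝ → ℝ → ℝ) : Prop where
  Bpos : 0 < B
  pd : PD Ω R a b Fa Fb
  star : Star (Ost Ω)
  rd : RD B (Ost Ω) v₁ F V T
  nrm : ∫ P, (a P ^ 2 + b P ^ 2) = 1
  eq : EM B a b Fa Fb = lamR B (Ost Ω)

/-- EG2 (from EQE, SYM, MOD, EQX, UNQ, OST, VSM).  `f = md a b`, `v = vs f`, `G` from SYM.
`volume (pl f) = volume (pl v) = 0` (EQE, EQX).  EQX (2) with `Ξ (r, z, s) = ofReal ((B/2)² r² s²)` and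
EQE: `∫ VV v² = ∫_{f > 0} (B/2)² (rk f)² f² = ∫_{f > 0} hx²`.  With SYM and ALG
(`em 0 + em 1 = gx (mg)² + hx²` and `(mg 2)² ≤ em 2` where `f > 0`; `mg = 0` where `f = 0`, division by
zero), `ER B v G ≤ ∫ (gx² + (mg 2)²) + ∫_{f>0} hx² ≤ EM = lamR`, and `∫ v² = ∫ f² = 1` (EQX (1)).  UNQ:
`v = v₁` a.e.  So `V(‖P.1‖, P.2) = v P` a.e., and EQX (2) with the indicator function of
`{(r, z, s) | V r z ≠ s}` gives `V (rk f P) P.2 = f P` a.e. where `f P > 0`; then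
`gx (mg) = T/V f = T` by EQE. -/
def T_EG2 : Prop := ∀ (B R : ℝ) (Ω : Set X) (a b v₁ : X → ℝ) (Fa Fb F : Fin 3 → X → ℝ)
  (V T : ℝ → ℝ → ℝ), EX B R Ω a b v₁ Fa Fb F V T →
  (∀ᵐ P, vs (md a b) P = v₁ P) ∧
  ∀ᵐ P : X, 0 < md a b P → V (rk (md a b) P) P.2 = md a b P ∧
    gx (mg a b Fa Fb) P = T (rk (md a b) P) P.2

/-- the reciprocal slope on the levels of slope at least `1/(n+1)` -/
def etn (n : ℕ) (g : ℂ → ℝ) (T : ℝ → ℝ) (s : ℝ) : ℝ := by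
  classical
  exact if 0 < s ∧ 1 / ((n : ℝ) + 1) ≤ T (rad g s) then 1 / T (rad g s) else 0

/-- the length of the set of the radii in `(r, R₀)` with slope at least `1/(n+1)` -/
def thn (n : ℕ) (R₀ : ℝ) (T : ℝ → ℝ) (r : ℝ) : ℝ :=
  (volume {t : ℝ | r < t ∧ t < R₀ ∧ 1 / ((n : ℝ) + 1) ≤ T t}).toReal

/-- LVL (from M1V, EQM, RKV, RR1).  `v x = rr g ‖x‖`, `c = 1/(n+1)`.  M1V with
`η(σ) = ofReal (etn n g T σ / (2 √(π ar g σ)))` for `0 < σ < s`, `0` otherwise (`ar g σ ≥ ar g s > 0`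
for `σ < s`; `2 √(π ar g σ) = 2π rad g σ`).  Left side: `∫⁻_{(0,s)} ofReal (etn)`
`= ofReal (∫_0^s etn)` (`0 ≤ etn ≤ n + 1`, measurable: `rad g` is antitone on `[0,∞)`).  Right side:
for a.e. `x` with `0 < v x < s`, `rad g (v x) = ‖x‖` (RKV; the levels are null by EQM) and
`gn G x = T ‖x‖`, so the integrand is `1_{c ≤ T(‖x‖)} / (2π‖x‖)`; by polar coordinates the integral is the
length of `{r > 0 | 0 < rr g r < s, c ≤ T r}`.  By RR1 `0 < rr g r ↔ π r² < ar g 0 ↔ r < rad g 0`,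
and `rr g r ≥ s` iff `π r² < ar g σ` for all `0 ≤ σ < s`; since the level `s` is null
`ar g σ → ar g s` as `σ ↑ s`, so up to the point `r = rad g s` this is `r < rad g s`. -/
def T_LVL : Prop := ∀ (R : ℝ) (g : ℂ → ℝ) (G : Fin 2 → ℂ → ℝ) (T : ℝ → ℝ), Nc R g →
  H1 e2 (ball 0 R) (fun x => rr g ‖x‖) G → (∀ i, Measurable (G i)) → Measurable T →
  (∀ r, 0 ≤ T r) → (∀ᵐ x : ℂ, gn G x = T ‖x‖) → (∀ s, 0 < s → volume {x | g x = s} = 0) →
  ∀ (n : ℕ) (s : ℝ), 0 < s → 0 < ar g s →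
    ∫ t in (0 : ℝ)..s, etn n g T t = thn n (rad g 0) T (rad g s)

/-- CNE.  `{L > 0}` has positive volume, so `R > 0`, and the continuous function `L` has a maximum
on the whole plane at some `c` (compactness of `closedBall 0 R`; outside `L ≤ 0`).  `{L > s}` is not
empty for `s < R₀`, so `L c ≥ R₀`; `{L > 0} ⊇ ball c (L c)` gives `π (L c)² ≤ π R₀²`, so
`L c = R₀`.  For `0 ≤ s < R₀`: `{L > s} ⊇ ball c (R₀ - s)`, a set of the same finite volume, so the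
open set `{L > s} \ closedBall c (R₀ - s)` is null, hence empty.  So if `0 ≤ s < L x` then
`‖x - c‖ ≤ R₀ - s`, thus `L x ≤ R₀ - ‖x - c‖` if `L x > 0`; and always `L x ≥ R₀ - ‖x - c‖`. -/
def T_CNE : Prop := ∀ (R R₀ : ℝ) (L : ℂ → ℝ), 0 < R₀ → LipschitzWith 1 L →
  (∀ x, R ≤ ‖x‖ → L x ≤ 0) →
  (∀ s, 0 ≤ s → s < R₀ → volume {x | s < L x} = ENNReal.ofReal (Real.pi * (R₀ - s) ^ 2)) →
  ∃ c : ℂ, ∀ x, max (L x) 0 = max (R₀ - ‖x - c‖) 0

/-- RIG (from LVL, CNE, BCH, LPW, EQM, RKV, RKF, RR1).  Rigidity in the plane.  If `ar g 0 = 0` then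
`g = 0` a.e. and `rr g t = 0` for `t > 0`; take `c = 0`.  Let `R₀ = rad g 0 > 0`,
`N_n(s) = ∫_0^s etn n g T`.  BCH: `N_n ∘ g ∈ H¹₀(ball 0 R)` with gradient `etn (g) Γ`, of length `≤ 1`
a.e. (`etn 0 = 0`; `gn Γ = T (rad g (g x))` where `g x > 0`).  LPW: `N_n ∘ g` agrees a.e. with a
1-Lipschitz function `h_n`.  For a.e. `x` with `g x > 0`: `0 < ar g (g x)` (the level is null, see
EQX (5)) and by LVL `N_n (g x) = thn n R₀ T (rad g (g x))`; as `n → ∞` this tends to the length of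
`{t | rad g (g x) < t < R₀, 0 < T t}`, which is `R₀ - rad g (g x)` since `T t > 0` for a.e.
`t ∈ (0, R₀)` (`rr g t > 0` there; polar coordinates).  So for the points of a set `D` of full
measure (dense) `h_n x → ℓ x := R₀ - rad g (g x)` if `g x > 0`, `0` otherwise; hence `ℓ` is 1-Lipschitz on
`D`; extend it to a 1-Lipschitz function `L` (`LipschitzOnWith.extend_real`).  `L ≥ 0` and `L = 0`
for `‖x‖ ≥ R` by density.  For `0 ≤ s < R₀`: `volume {s < L} = volume {g > 0, rad g (g x) < R₀ - s}`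
`= volume {0 < rr g ‖x‖, ‖x‖ < R₀ - s} = π (R₀ - s)²` (EQM and RKV; `rr g t > 0` for `0 < t < R₀`).
CNE: `c`.  A.e. `x` with `g x > 0`: `g x = rr g (rad g (g x))` (RKF), and `rr g t = 0` for `t ≥ R₀`, so
`rad g (g x) < R₀`, `L x > 0`, so `rad g (g x) = ‖x - c‖` and `g x = rr g ‖x - c‖`.  A.e. `x` with
`g x = 0`: `L x = 0`, `‖x - c‖ ≥ R₀`, `rr g ‖x - c‖ = 0`. -/
def T_RIG : Prop := ∀ (R : ℝ) (g : ℂ → ℝ) (Γ G : Fin 2 → ℂ → ℝ) (T : ℝ → ℝ), Nc R g →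
  H1 e2 (ball 0 R) g Γ → (∀ i, Measurable (Γ i)) →
  H1 e2 (ball 0 R) (fun x => rr g ‖x‖) G → (∀ i, Measurable (G i)) → Measurable T →
  (∀ r, 0 ≤ T r) → (∀ᵐ x : ℂ, gn G x = T ‖x‖) → (∀ᵐ x : ℂ, 0 < rr g ‖x‖ → 0 < T ‖x‖) →
  (∀ᵐ x, 0 < g x → gn Γ x = T (rad g (g x))) → (∀ s, 0 < s → volume {x | g x = s} = 0) →
  ∃ c : ℂ, ∀ᵐ x, g x = rr g ‖x - c‖

/-- the centres of the slices -/
structure CE (R : ℝ) (a b : X → ℝ) (Fa Fb : Fin 3 → X → ℝ) (V T : ℝ → ℝ → ℝ) (c : ℝ → ℂ) :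
    Prop where
  m : Measurable c
  bd : ∀ z, ‖c z‖ ≤ R
  md : ∀ᵐ P : X, md a b P = V ‖P.1 - c P.2‖ P.2
  rk : ∀ᵐ P : X, 0 < MGS.md a b P → rk (MGS.md a b) P = ‖P.1 - c P.2‖
  mg : ∀ᵐ P : X, mg a b Fa Fb 0 P = -(T ‖P.1 - c P.2‖ P.2 * (P.1 - c P.2).re / ‖P.1 - c P.2‖) ∧
    mg a b Fa Fb 1 P = -(T ‖P.1 - c P.2‖ P.2 * (P.1 - c P.2).im / ‖P.1 - c P.2‖)

/-- SLT (from EG2, EQE, RIG, SLI, MOD, RKV, RR1, TRL, UNI, OST, VSM).  `f = md a b`,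
`g = sl f z`.  `vs f = v₁` a.e. (EG2), so `(vs f, F) ∈ H¹₀(Ost Ω)`.  For a.e. `z` the slice satisfies the
hypotheses of RIG with `Γ = sl2 (mg a b Fa Fb) z`, `G = sl2 F z`, `T(·, z)` (SLI; `RD.geq` gives
`gn G x = T ‖x‖ z`; if `rr g ‖x‖ > 0` then `(x, z) ∈ Ost Ω` and `RD.pos`; EG2; `volume (pl f) = 0` by
EQE, so the slice of `pl f` is null for a.e. `z` and all positive levels of `g` are null).  So
`g x = rr g ‖x - c_z‖` a.e., and `rr g ‖x‖ = V ‖x‖ z` a.e. (`vs f = v₁`).  Put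
`c z = (∫ x g² dx) / (∫ g² dx)` (`= 0` if the denominator is `0`): measurable, `‖c z‖ ≤ R` (an average of
points of the disc), and by the symmetry `y ↦ -y` `c z = c_z` if `∫ g² > 0`; if `∫ g² = 0` then `g = 0`
a.e. and `V ‖x‖ z = rr g ‖x‖ = 0` a.e.  `CE.rk`: RKV at `x - c_z ≠ 0`.  `CE.mg`: TRL (translation) and UNI
in the plane give `Γ i x = G i (x - c_z)` a.e., then `RD.geq` on the slice. -/
def T_SLT : Prop := ∀ (B R : ℝ) (Ω : Set X) (a b v₁ : X → ℝ) (Fa Fb F : Fin 3 → X → ℝ)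
  (V T : ℝ → ℝ → ℝ), EX B R Ω a b v₁ Fa Fb F V T → ∃ c : ℝ → ℂ, CE R a b Fa Fb V T c

/-- PHS (from EQE, EG2).  The phase.  Where `f = md a b = 0`: `a = b = 0`, trivial.  Let `f > 0`,
`y = x - c(z)`, `j_i = a Fb_i - b Fa_i + A_i f²` (`jc` of the slices), `|j| = √(j_0² + j_1²) = f hx =
(B/2)‖y‖ f²` (EQE, `CE.rk`), `gx = T > 0` (EG2, EQE: `T > (B/2) r V ≥ 0`), `mg_i = - gx y_i/‖y‖`
(`CE.mg`; `y ≠ 0` a.e.).  `Wx = (j_0 mg_1 - j_1 mg_0)/f = gx hx` gives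
`(- j_0 y_1 + j_1 y_0)/‖y‖ = f hx = |j|`, so `j = |j| (-y_1, y_0)/‖y‖` (equality in Cauchy-Schwarz:
`|j - |j| e|² = 2|j|² - 2|j| j·e = 0`), that is `j_0 = -(B/2) f² y_1`, `j_1 = (B/2) f² y_0`.  Subtract
`A_0 f² = -(B/2) x_1 f²`, `A_1 f² = (B/2) x_0 f²`.  The last component is in EQE. -/
def T_PHS : Prop := ∀ (B R : ℝ) (Ω : Set X) (a b v₁ : X → ℝ) (Fa Fb F : Fin 3 → X → ℝ)
  (V T : ℝ → ℝ → ℝ) (c : ℝ → ℂ), EX B R Ω a b v₁ Fa Fb F V T → CE R a b Fa Fb V T c →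
  ∀ᵐ P : X, a P * Fb 0 P - b P * Fa 0 P = B / 2 * (c P.2).im * md a b P ^ 2 ∧
    a P * Fb 1 P - b P * Fa 1 P = -(B / 2 * (c P.2).re * md a b P ^ 2) ∧
    a P * Fb 2 P - b P * Fa 2 P = 0

/-- CUR.  The curl identity.  For test functions `φ, φ'` (of class `C^∞` with compact support):
`∫ (φ ∂_kφ' - φ' ∂_kφ) ψ'(z) = - ∫ ψ ∂_z(φ ∂_kφ' - φ' ∂_kφ)` and
`∂_z(φ ∂_kφ' - φ' ∂_kφ) = 2 (∂_zφ ∂_kφ' - ∂_zφ' ∂_kφ) + ∂_k (φ ∂_zφ' - φ' ∂_zφ)`, and `∫ ψ(z) ∂_k(...) = 0` since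
`ψ` does not depend on `x`.  Both sides are continuous for the convergence in `H1.seq` (`ψ`, `ψ'`
bounded). -/
def T_CUR : Prop := ∀ (G : Set X) (a b : X → ℝ) (Fa Fb : Fin 3 → X → ℝ) (ψ : ℝ → ℝ) (k : Fin 2),
  H1 e3 G a Fa → H1 e3 G b Fb → ContDiff ℝ ∞ ψ → HasCompactSupport ψ →
  ∫ P : X, (a P * Fb k.castSucc P - b P * Fa k.castSucc P) * deriv ψ P.2 =
    -2 * ∫ P : X, ψ P.2 * (Fa 2 P * Fb k.castSucc P - Fb 2 P * Fa k.castSucc P)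

/-- NWK (from IBH, PRL).  `ψ(z) f` is in `H¹₀` with `z`-derivative `ψ F_2 + f ψ'` (PRL); IBH for `f` and
`ψ f`. -/
def T_NWK : Prop := ∀ (G : Set X) (f : X → ℝ) (F : Fin 3 → X → ℝ) (ψ : ℝ → ℝ), IsOpen G →
  H1 e3 G f F → ContDiff ℝ ∞ ψ → HasCompactSupport ψ →
  ∫ P : X, f P ^ 2 * deriv ψ P.2 = -∫ P : X, (2 * (f P * F 2 P)) * ψ P.2

/-- CST.  Let `D = c n`; the second hypothesis says that the weak derivative of `D` on `I` is `c m`,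
the first one that the weak derivative of `n` is `m`.  So on the interval `I` there are continuous
functions `D̃ = D`, `ñ = n` a.e. with `D̃ y - D̃ x = ∫_x^y c m`, `ñ y - ñ x = ∫_x^y m` (the
difference of `D` and a primitive of `c m` has weak derivative zero on `I`, hence is constant a.e.:
the lemma of du Bois-Reymond; test with `ψ = χ - (∫ χ) χ₀`-primitives).  On a compact subinterval
`J` of `I` `ñ ≥ k > 0` (the last hypothesis and compactness; continuity).  Let `q = D̃/ñ`, continuous on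
`J`, `q = c` a.e.; for `x, y ∈ J`
`q y - q x = (∫_x^y (c(t) ñ(x) - D̃(x)) m(t) dt)/(ñ x ñ y)` and
`|c(t) ñ(x) - D̃(x)| = ñ(x) |q t - q x| ≤ M ω` with `ω` the oscillation of `q` on `[x, y]`,
`M = max ñ`; so if `(M/k²) ∫_x^y |m| ≤ 1/2` then `ω ≤ ω/2` (apply it to subintervals), so `ω = 0`.
`J` is covered by finitely many such intervals (absolute continuity of the integral), so `q` is
constant on `J`; exhaust `I` (open, order connected) by such `J`. -/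
def T_CST : Prop := ∀ (c n m : ℝ → ℝ) (C : ℝ) (I : Set ℝ), IsOpen I → I.OrdConnected →
  Measurable c → (∀ z, |c z| ≤ C) → Integrable n → Integrable m →
  (∀ ψ : ℝ → ℝ, ContDiff ℝ ∞ ψ → HasCompactSupport ψ →
    ∫ z, n z * deriv ψ z = -∫ z, m z * ψ z) →
  (∀ ψ : ℝ → ℝ, ContDiff ℝ ∞ ψ → HasCompactSupport ψ →
    ∫ z, c z * n z * deriv ψ z = -∫ z, c z * m z * ψ z) →
  (∀ z₀ ∈ I, ∃ d k : ℝ, 0 < d ∧ 0 < k ∧ ∀ᵐ z : ℝ, |z - z₀| < d → k ≤ n z) →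
  ∃ c₀ : ℝ, ∀ᵐ z : ℝ, z ∈ I → c z = c₀

/-- ALL (from SLT, PHS, CUR, NWK, CST, NPO, EG2, EQX, MOD, NUL, UNI, TRL, OST, VSM).
`f = md a b`, `J_k = a Fb_k - b Fa_k`, `∂_i f = mg_i`.  Where `f > 0`:
`f² (Fa_2 Fb_k - Fb_2 Fa_k) = (a Fa_2 + b Fb_2) J_k - (a Fa_k + b Fb_k) J_2 = f ∂_2f J_k`
(`J_2 = 0`, PHS); where `f = 0`: `a = b = 0` and `Fa = Fb = 0` a.e. (NUL).  With PHS, for `k = 0`:
`Fa_2 Fb_0 - Fb_2 Fa_0 = (B/2) c.im f ∂_2 f`, so CUR reads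
`(B/2) ∫ c.im f² ψ' = -(B/2) ∫ c.im 2 f ∂_2f ψ`; with `n(z) = ∫ f² dx`, `m(z) = ∫ 2 f ∂_2f dx` (integrable)
this is the second hypothesis of CST for `c.im`; the same for `c.re` with `k = 1`; the first one is NWK
for `f` (MOD) and Fubini.  `I = {z | (0, z) ∈ Ost Ω}` is open, order connected (`Star.conn`); by
`vs f = v₁` a.e. `∫ v₁(x,z)² dx = ∫ f(x,z)² dx` for a.e. `z` (EQX (1) for `Ξ (z, s) = 1_A(z) ofReal (s²)`), so NPO for `v₁`
is the last hypothesis.  CST: `c(z) = c₀` for a.e. `z ∈ I`.  So `f P = V ‖P.1 - c₀‖ P.2 =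
v₁ (P.1 - c₀, P.2)` for a.e. `P` with `P.2 ∈ I`.  If `P.2 ∉ I` no `(x, P.2)` is in `Ost Ω` (`Star.star`)
nor in `Ω` (OST), so both sides are `0` (`PD.zero`, `GS.zero`).  Gradients: TRL and UNI. -/
def T_ALL : Prop := ∀ (B R : ℝ) (Ω : Set X) (a b v₁ : X → ℝ) (Fa Fb F : Fin 3 → X → ℝ)
  (V T : ℝ → ℝ → ℝ), EX B R Ω a b v₁ Fa Fb F V T → ∃ c : ℂ,
    (∀ᵐ P : X, md a b P = v₁ (P.1 - c, P.2)) ∧
    ∀ᵐ P : X, ∀ i, mg a b Fa Fb i P = F i (P.1 - c, P.2)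

/-! ### Connectedness of the projection -/

/-- SPL.  Splitting.  Let `φ` be a test function of `Ω`.  `K = tsupport φ ∩ {z ≤ z₀}` is compact
and contained in `Ω ∩ {z < z₀}` (`Ω` does not meet the plane `z = z₀`).  `1_{z < z₀} φ` agrees with
`φ` on the open set `{z < z₀}` and vanishes on the open set `Kᶜ`; these two sets cover `X`, so it is
smooth, with compact support in `K`, and `pd (1 φ) = 1 pd φ`.  Approximate `f`. -/
def T_SPL : Prop := ∀ (Ω : Set X) (z₀ : ℝ) (f : X → ℝ) (F : Fin 3 → X → ℝ), IsOpen Ω →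
  (∀ x : ℂ, (x, z₀) ∉ Ω) → H1 e3 Ω f F →
  H1 e3 (Ω ∩ {P | P.2 < z₀}) ({P : X | P.2 < z₀}.indicator f)
    (fun i => {P : X | P.2 < z₀}.indicator (F i)) ∧
  H1 e3 (Ω ∩ {P | z₀ < P.2}) ({P : X | z₀ < P.2}.indicator f)
    (fun i => {P : X | z₀ < P.2}.indicator (F i))

/-- vertical contraction by `t` -/
def st (t : ℝ) (P : X) : X := (P.1, P.2 / t)

/-- the gradient of `f ∘ st t` -/
def stF (t : ℝ) (F : Fin 3 → X → ℝ) (i : Fin 3) (P : X) : ℝ :=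
  (if i = 2 then 1 / t else 1) * F i (st t P)

/-- STC (from TRL, ZRO).  Stretching.  `st t` is a linear isomorphism of `X` for `t > 0`,
`st t (e3 i) = e3 i` for `i = 0, 1`, `(1/t) e3 2` for `i = 2`; it divides the volume by `t`:
`∫ g (st t P) dP = t ∫ g`.  `em` for the stretched pair at `P` is `em` of the pair at `st t P` for
`i = 0, 1` and `t⁻²` times it for `i = 2` (`Ap B i P` depends on `P.1` only, `A_2 = 0`).  The
`em` are integrable because `Ω` is bounded. -/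
def T_STC : Prop := ∀ (B t : ℝ) (Ω : Set X) (a b : X → ℝ) (Fa Fb : Fin 3 → X → ℝ), 0 < t →
  IsOpen Ω → Bornology.IsBounded Ω → H1 e3 Ω a Fa → H1 e3 Ω b Fb →
  IsOpen (st t ⁻¹' Ω) ∧ Bornology.IsBounded (st t ⁻¹' Ω) ∧
  volume (st t ⁻¹' Ω) = ENNReal.ofReal t * volume Ω ∧
  H1 e3 (st t ⁻¹' Ω) (fun P => a (st t P)) (stF t Fa) ∧
  H1 e3 (st t ⁻¹' Ω) (fun P => b (st t P)) (stF t Fb) ∧
  ∫ P, (a (st t P) ^ 2 + b (st t P) ^ 2) = t * ∫ P, (a P ^ 2 + b P ^ 2) ∧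
  EM B (fun P => a (st t P)) (fun P => b (st t P)) (stF t Fa) (stF t Fb) =
    t * (EM B a b Fa Fb - (1 - (t ^ 2)⁻¹) * ∫ P, (Fa 2 P ^ 2 + Fb 2 P ^ 2))

/-- CNN (from EXM, SPL, STC, FRI, ZRO).  The projection of a minimizer is connected.  Otherwise there
are `(x, z), (x', z') ∈ Ω` and `z < z₀ < z'` with `(y, z₀) ∉ Ω` for all `y`.  Let `Ω₁ = Ω ∩ {z < z₀}`,
`Ω₂ = Ω ∩ {z > z₀}`, both nonempty, open, `volume Ω = volume Ω₁ + volume Ω₂`.  Take the ground state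
`(a, b)` of EXM and split it (SPL): `EM = EM₁ + EM₂` and `1 = m₁ + m₂`, `m_k = ∫ (a_k² + b_k²)`.  As
`EM = lam B Ω`, there is `k` with `m_k > 0` and `EM_k ≤ lam B Ω * m_k` (if `m_k = 0` then
`EM_k ≥ 0`; use the other one).  Let `t = volume Ω / volume Ω_k > 1` (real numbers, finite) and
`Ω' = st t ⁻¹' Ω_k`, of the volume of `Ω`.  By STC and EXM (second part, for `Ω'`)
`lam B Ω' * t * m_k ≤ t (EM_k - (1 - t⁻²) ∫ (Fa_2² + Fb_2²))`, and by FRI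
`∫ (Fa_2² + Fb_2²) ≥ m_k/(4R²) > 0`; so `lam B Ω' < lam B Ω`.  Contradiction to
`IsMinimizer.min`. -/
def T_CNN : Prop := ∀ (B : ℝ) (Ω : Set X), IsMinimizer B Ω →
  {z : ℝ | ∃ x : ℂ, (x, z) ∈ Ω}.OrdConnected

/-- LLR.  Real test functions.  For a real test function `φ` the function `(φ : ℂ)` is a
`CTest`, with `∫ ‖u‖² = ∫ φ²` and `form B u = ER B φ (pd φ)`: `‖-i ∂_iφ + A_i φ‖² = (∂_iφ)² + A_i² φ²` and
`∑ A_i² = (B/2)² ‖x‖² = VV`.  So the set in the definition of `lamR` is contained in the one of `lam`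
(which is bounded below by `0`), and it is nonempty (`G` open, nonempty: a bump function,
normalised): `csInf_le_csInf`. -/
def T_LLR : Prop := ∀ (B : ℝ) (G : Set X), IsOpen G → G.Nonempty → lam B G ≤ lamR B G

end MGS
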